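import Pool.Agent.CTO.Base

/-!
# A1: the algebra of a maximal torus of `GL(V)`

`A ≤ End V` is commutative, has no nilpotent elements (`a * a = 0 → a = 0`), and `dim A = dim V`.
`A` is a finite product of fields: let `e_1, ..., e_r` be its primitive idempotents, `K_i = e_i A`
(fields), `V = ⊕ e_i V`. Each `e_i V` is a nonzero `K_i`-space, so `dim_K e_i V ≥ dim_K K_i`; the sum over
`i` of both sides is `dim V = dim A`, so `dim_{K_i} e_i V = 1`.
* `exists_cyc`: choose `0 ≠ v_i ∈ e_i V`; `v0 = ∑ v_i`; the map `A → V`, `a ↦ a v0`, is injective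
  (if `a v0 = 0`, then `e_i a v_i = 0`, so `e_i a = 0` as `K_i` is a field), hence bijective.
  (`IsArtinianRing.equivPi`, or an induction.)
* `cent_eq`: if `x` commutes with `A`, let `x v0 = a v0`, then `x (b v0) = b x v0 = b a v0 = a (b v0)`, so
  `x = a ∈ A`.
* `stable_eq`: if `W` is stable under `A` then `J = {a ∈ A | a v0 ∈ W}` is an ideal of `A`, so it is
  generated by an idempotent `e` (`A` is a finite product of fields), and
  `W = J v0 = A e v0 = e V = range e`. (In a reduced Artinian commutative ring every ideal is generated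
  by an idempotent: `J` is f.g. and `J ^ 2 = J`, `Ideal.isIdempotentElem_iff_of_fg`.)
* `dim_eq`: for an idempotent `e ∈ A`, `a ↦ a v0` maps `{a ∈ A | a e = a}` bijectively onto `range e`, and
  `restr A (range e)` is isomorphic to `{a ∈ A | a e = a}` by restriction (injective: if `a e = a` and
  `a` is zero on `range e`, then `a = a e = 0`).
* `torGL_of_unit`: for a unit `a` of `A`, the inverse of the endomorphism `a` lies in `A`; and an element
  `g` of `GL(V)` with `g ∈ A` has `g⁻¹ ∈ A` (a finite dimensional subalgebra is closed under inverses: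
  multiplication by `g` is injective on `A`, so surjective).
-/

namespace Pool.Agent.CTO

open Module

variable {K V : Type} [Field K] [AddCommGroup V] [Module K V] [FiniteDimensional K V]

theorem idem_gen (A : Subalgebra K (Module.End K V)) (hA : IsTorGL A) (J : Ideal A) :
    ∃ e : A, e * e = e ∧ ∀ a : A, a ∈ J ↔ a * e = a := by
  let cr : CommRing A :=
    { (inferInstance : Ring A) with
      mul_comm := fun a b => Subtype.ext (hA.comm a.1 a.2 b.1 b.2) }
  have : IsReduced A := by
    rw [isReduced_iff_pow_one_lt 2 (by norm_num)]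
    intro x hx
    rw [pow_two] at hx
    have h2 : (x : Module.End K V) * x = 0 := congrArg Subtype.val hx
    exact Subtype.ext (hA.red x.1 x.2 h2)
  have : IsArtinianRing A := IsArtinianRing.of_finite K A
  have := IsArtinianRing.isSemisimpleRing_of_isReduced A
  obtain ⟨e, he, hJ⟩ := IsSemisimpleRing.ideal_eq_span_idempotent J
  refine ⟨e, he, fun a => ?_⟩
  have h1 : a ∈ J ↔ ∃ b : A, b * e = a := by
    rw [hJ]
    exact Ideal.mem_span_singleton'
  rw [h1]
  constructor
  · rintro ⟨b, rfl⟩
    rw [mul_assoc, he]
  · intro h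
    exact ⟨a, h⟩

/-- The ideal of the elements of `A` which map `v` to `W`. -/
def annI (A : Subalgebra K (Module.End K V)) (W : Submodule K V)
    (hW : ∀ a ∈ A, ∀ v ∈ W, a v ∈ W) (v : V) : Ideal A where
  carrier := {a | (a : Module.End K V) v ∈ W}
  add_mem' := by
    intro a b ha hb
    exact W.add_mem ha hb
  zero_mem' := W.zero_mem
  smul_mem' := by
    intro c a ha
    exact hW c.1 c.2 _ ha

omit [FiniteDimensional K V] in
theorem mem_annI (A : Subalgebra K (Module.End K V)) (W : Submodule K V)
    (hW : ∀ a ∈ A, ∀ v ∈ W, a v ∈ W) (v : V) (a : A) :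
    a ∈ annI A W hW v ↔ (a : Module.End K V) v ∈ W := Iff.rfl

omit [FiniteDimensional K V] in
theorem bot_stable (A : Subalgebra K (Module.End K V)) :
    ∀ a ∈ A, ∀ v ∈ (⊥ : Submodule K V), a v ∈ (⊥ : Submodule K V) := by
  intro a _ v hv
  rw [Submodule.mem_bot] at hv ⊢
  rw [hv, map_zero]

/-- The map `a ↦ a v0`. -/
def evA (A : Subalgebra K (Module.End K V)) (v : V) : A →ₗ[K] V where
  toFun := fun a => (a : Module.End K V) v
  map_add' := fun _ _ => rfl
  map_smul' := fun _ _ => rfl

theorem exists_cyc (A : Subalgebra K (Module.End K V)) (hA : IsTorGL A) :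
    ∃ v0 : V, (∀ a ∈ A, a v0 = 0 → a = 0) ∧ ∀ v : V, ∃ a ∈ A, a v0 = v := by
  classical
  have : IsArtinianRing A := IsArtinianRing.of_finite K A
  obtain ⟨M', ⟨v0, rfl⟩, hmin⟩ := IsArtinian.set_has_minimal
    (Set.range (annI A ⊥ (bot_stable A))) ⟨_, 0, rfl⟩
  obtain ⟨e, hee, he⟩ := idem_gen A hA (annI A ⊥ (bot_stable A) v0)
  have hee' : (e : Module.End K V) * e = e := congrArg Subtype.val hee
  have hev : (e : Module.End K V) v0 = 0 := by
    have h := (he e).2 hee
    rw [mem_annI, Submodule.mem_bot] at h
    exact h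
  have he0 : (e : Module.End K V) = 0 := by
    by_contra hne
    obtain ⟨w, hw⟩ : ∃ w, (e : Module.End K V) w ≠ 0 := by
      by_contra hcon
      push Not at hcon
      exact hne (LinearMap.ext hcon)
    refine hmin _ ⟨v0 + (e : Module.End K V) w, rfl⟩ ?_
    rw [lt_iff_le_not_ge]
    constructor
    · intro a ha
      rw [mem_annI, Submodule.mem_bot, map_add] at ha
      rw [he a]
      -- a v0 + a e w = 0
      have hc : (a : Module.End K V) * e = e * a := hA.comm a.1 a.2 e.1 e.2
      have h1 : (a : Module.End K V) v0 = 0 := by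
        have h2 : (e : Module.End K V) ((a : Module.End K V) v0) = 0 := by
          have := congrArg (fun f : Module.End K V => f v0) hc
          simp only [Module.End.mul_apply] at this
          rw [← this, hev, map_zero]
        have h3 : (e : Module.End K V) ((a : Module.End K V) ((e : Module.End K V) w))
            = (a : Module.End K V) ((e : Module.End K V) w) := by
          have h4 := congrArg (fun f : Module.End K V => f ((e : Module.End K V) w)) hc
          simp only [Module.End.mul_apply] at h4
          rw [← h4]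
          have h5 := congrArg (fun f : Module.End K V => f w) hee'
          simp only [Module.End.mul_apply] at h5
          rw [h5]
        have h6 := congrArg (fun x => (e : Module.End K V) x) ha
        simp only [map_add, map_zero] at h6
        rw [h2, h3, zero_add] at h6
        rw [h6, add_zero] at ha
        exact ha
      have h2 : a ∈ annI A ⊥ (bot_stable A) v0 := by
        rw [mem_annI, Submodule.mem_bot]
        exact h1
      exact (he a).1 h2
    · intro hle
      have h1 : e ∈ annI A ⊥ (bot_stable A) v0 := (he e).2 hee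
      have h2 := hle h1
      rw [mem_annI, Submodule.mem_bot, map_add, hev, zero_add] at h2
      have h5 := congrArg (fun f : Module.End K V => f w) hee'
      simp only [Module.End.mul_apply] at h5
      rw [h5] at h2
      exact hw h2
  have hinj : ∀ a ∈ A, a v0 = 0 → a = 0 := by
    intro a ha h
    have h1 : (⟨a, ha⟩ : A) ∈ annI A ⊥ (bot_stable A) v0 := by
      rw [mem_annI, Submodule.mem_bot]
      exact h
    have h2 := congrArg Subtype.val ((he ⟨a, ha⟩).1 h1)
    have h3 : a * (e : Module.End K V) = a := h2
    rw [he0, mul_zero] at h3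
    exact h3.symm
  refine ⟨v0, hinj, ?_⟩
  have hi : Function.Injective (evA A v0) := by
    rw [injective_iff_map_eq_zero]
    intro a ha
    exact Subtype.ext (hinj a.1 a.2 ha)
  have hs := (LinearMap.injective_iff_surjective_of_finrank_eq_finrank hA.rank).1 hi
  intro v
  obtain ⟨a, ha⟩ := hs v
  exact ⟨a.1, a.2, ha⟩

theorem cent_eq (A : Subalgebra K (Module.End K V)) (hA : IsTorGL A) (x : Module.End K V)
    (hx : ∀ a ∈ A, x * a = a * x) : x ∈ A := by
  obtain ⟨v0, _, hsur⟩ := exists_cyc A hA
  obtain ⟨a, ha, hav⟩ := hsur (x v0)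
  have : x = a := by
    ext v
    obtain ⟨b, hb, rfl⟩ := hsur v
    have h1 := congrArg (fun f : Module.End K V => f v0) (hx b hb)
    have h2 := congrArg (fun f : Module.End K V => f v0) (hA.comm a ha b hb)
    simp only [Module.End.mul_apply] at h1 h2
    rw [h1, h2, hav]
  rw [this]
  exact ha

theorem stable_eq (A : Subalgebra K (Module.End K V)) (hA : IsTorGL A) (W : Submodule K V)
    (hW : ∀ a ∈ A, ∀ v ∈ W, a v ∈ W) : ∃ e ∈ A, e * e = e ∧ LinearMap.range e = W := by
  obtain ⟨v0, _, hsur⟩ := exists_cyc A hA
  obtain ⟨e, hee, he⟩ := idem_gen A hA (annI A W hW v0)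
  have hee' : (e : Module.End K V) * e = e := congrArg Subtype.val hee
  refine ⟨e.1, e.2, hee', le_antisymm ?_ ?_⟩
  · rintro _ ⟨x, rfl⟩
    obtain ⟨a, ha, rfl⟩ := hsur x
    have h1 := congrArg (fun f : Module.End K V => f v0) (hA.comm a ha e.1 e.2)
    simp only [Module.End.mul_apply] at h1
    rw [← h1]
    refine hW a ha _ ?_
    have h2 := (he e).2 hee
    rwa [mem_annI] at h2
  · intro w hw
    obtain ⟨a, ha, hav⟩ := hsur w
    have h1 : (⟨a, ha⟩ : A) ∈ annI A W hW v0 := by
      rw [mem_annI]
      show a v0 ∈ W
      rw [hav]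
      exact hw
    have h2 := congrArg Subtype.val ((he ⟨a, ha⟩).1 h1)
    have h3 : a * (e : Module.End K V) = a := h2
    refine ⟨w, ?_⟩
    rw [← hav]
    have h4 := congrArg (fun f : Module.End K V => f v0) (hA.comm a ha e.1 e.2)
    simp only [Module.End.mul_apply] at h4
    have h5 := congrArg (fun f : Module.End K V => f v0) h3
    simp only [Module.End.mul_apply] at h5
    rw [← h4, h5]

theorem dim_eq (A : Subalgebra K (Module.End K V)) (hA : IsTorGL A) (e : Module.End K V) (he : e ∈ A)
    (hee : e * e = e) :
    finrank K (restr A (LinearMap.range e)) = finrank K (LinearMap.range e) := by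
  obtain ⟨v0, hinj, hsur⟩ := exists_cyc A hA
  have hfix : ∀ v, e (e v) = e v := fun v => by
    have h5 := congrArg (fun f : Module.End K V => f v) hee
    simpa only [Module.End.mul_apply] using h5
  have hcomm : ∀ a ∈ A, ∀ v, a (e v) = e (a v) := fun a ha v => by
    have h5 := congrArg (fun f : Module.End K V => f v) (hA.comm a ha e he)
    simpa only [Module.End.mul_apply] using h5
  let w0 : LinearMap.range e := ⟨e v0, v0, rfl⟩
  have hbij : Function.Bijective (evA (restr A (LinearMap.range e)) w0) := by
    constructor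
    · rw [injective_iff_map_eq_zero]
      rintro ⟨x, a, ha, hx⟩ h
      have h0 : x w0 = 0 := h
      have h1 : a (e v0) = 0 := by
        rw [← hx w0, h0]
        rfl
      have h2 : a * e = 0 := hinj _ (A.mul_mem ha he) h1
      refine Subtype.ext (LinearMap.ext ?_)
      rintro ⟨_, u, rfl⟩
      refine Subtype.ext ?_
      rw [hx]
      have h5 := congrArg (fun f : Module.End K V => f u) h2
      exact h5
    · rintro ⟨w, u, hu⟩
      obtain ⟨a, ha, hav⟩ := hsur w
      have hst : ∀ v ∈ LinearMap.range e, a v ∈ LinearMap.range e := by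
        rintro _ ⟨x, rfl⟩
        exact ⟨a x, (hcomm a ha x).symm⟩
      refine ⟨⟨a.restrict hst, a, ha, fun w => rfl⟩, ?_⟩
      refine Subtype.ext ?_
      show a (e v0) = w
      rw [hcomm a ha, hav, ← hu, hfix]
  exact (LinearEquiv.ofBijective _ hbij).finrank_eq

theorem mem_torGL_of (A : Subalgebra K (Module.End K V)) (g : V ≃ₗ[K] V) (hg : g.toLinearMap ∈ A) :
    g ∈ torGL A := by
  refine ⟨hg, ?_⟩
  let L : A →ₗ[K] A := LinearMap.mulLeft K (⟨g.toLinearMap, hg⟩ : A)
  have hi : Function.Injective L := by
    rw [injective_iff_map_eq_zero]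
    intro a ha
    refine Subtype.ext (LinearMap.ext fun v => ?_)
    have h1 : g.toLinearMap * (a : Module.End K V) = 0 := congrArg Subtype.val ha
    have h2 := congrArg (fun f : Module.End K V => f v) h1
    have h3 : g ((a : Module.End K V) v) = 0 := h2
    exact (LinearEquiv.map_eq_zero_iff g).1 h3
  have hs := LinearMap.injective_iff_surjective.1 hi
  obtain ⟨b, hb⟩ := hs 1
  have h1 : g.toLinearMap * (b : Module.End K V) = 1 := congrArg Subtype.val hb
  have h2 : (g⁻¹).toLinearMap = (b : Module.End K V) := by
    refine LinearMap.ext fun v => ?_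
    have h3 := congrArg (fun f : Module.End K V => f v) h1
    have h4 : g ((b : Module.End K V) v) = v := h3
    show g.symm v = _
    rw [LinearEquiv.symm_apply_eq]
    exact h4.symm
  rw [h2]
  exact b.2

theorem exists_torGL (A : Subalgebra K (Module.End K V)) (a : Module.End K V) (ha : a ∈ A)
    (hu : IsUnit a) : ∃ g ∈ torGL A, g.toLinearMap = a := by
  have hb : Function.Bijective a := (Module.End.isUnit_iff a).1 hu
  have h1 : (LinearEquiv.ofBijective a hb).toLinearMap = a := by
    ext v
    rfl
  refine ⟨LinearEquiv.ofBijective a hb, mem_torGL_of A _ ?_, h1⟩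
  rw [h1]
  exact ha

end Pool.Agent.CTO
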