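import Pool.Agent.CTO.A1

/-!
# A3: skew units and surjectivity of the norm `a ↦ a* a`

`f` is `ε`-hermitian with respect to `σ`, `A` the algebra of a maximal torus, `a*` the adjoint of `a ∈ A`
(it is in `A`, unique).
* `exists_skew_unit`: (i) if `σ ≠ id`, there is `κ ∈ K` with `σ κ = - κ ≠ 0` (`κ = k - σ k`), the scalar `κ`
  is a skew unit (the adjoint of the scalar `k` is the scalar `σ k`). (ii) if `ε = -1`, `σ = id`, let `d`
  be the skew element of `IsTor`; `ker d = e V` with `e ∈ A` idempotent (`stable_eq`; `e` is selfadjoint: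
  `e A = ` annihilator of `d` in `A`, which is stable under `*` since `d* = - d`, so `e* = e`), of
  dimension `≤ 1`, and `f` restricted to `e V` is nondegenerate (`V = e V ⊕ (1-e) V` orthogonal) and
  alternating, so `e V = 0`, `d` is injective, a unit, and `d⁻¹ ∈ A` is not needed. (iii) `σ = id`, `ε = 1`,
  `dim V` even: `f(d v, w)` is alternating, `f(d v, v) = f(v, -d v) = - f(d v, v)`, so the rank of `d` is
  even; it is `≥ dim V - 1`, so it is `dim V`.
* `star_surj`: let `d` be a skew unit, `c = c*` a unit of `A`. Let `S = {s ∈ A | s* = s}`, a finite reduced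
  commutative ring, in which `2` is invertible, hence a product of finite fields of odd
  characteristic; `δ = d² ∈ S` is a unit of `S`. In every such field `k` the equation
  `x² - δ y² = c` has a solution (`FiniteField.exists_root_sum_quadratic`), so it has a solution in `S`
  (`IsArtinianRing.equivPi`); `a = x + y d`, `a* = x - y d`, `a* a = x² - y² d² = c`.
-/

namespace Pool.Agent.CTO

open Module

variable {K V : Type} [Field K] [Finite K] [AddCommGroup V] [Module K V] [FiniteDimensional K V]

set_option linter.style.haveILetI false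

section A3basic

variable {K V : Type} [Field K] [AddCommGroup V] [Module K V] {σ : K →+* K} {ε : K} {f : V → V → K}

theorem A3_eps2 (hf : IsHF σ ε f) : ε * σ ε = 1 := by
  rcases hf.eps with h | h
  · rw [h, map_one, mul_one]
  · rw [h, map_neg, map_one]; ring

theorem A3_herm' (hf : IsHF σ ε f) (v w : V) : f v w = ε * σ (f w v) := hf.herm w v

theorem A3_add_right (hf : IsHF σ ε f) (v w w' : V) : f v (w + w') = f v w + f v w' := by
  rw [A3_herm' hf v (w + w'), hf.add_left, map_add, mul_add, ← A3_herm' hf, ← A3_herm' hf]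

theorem A3_smul_right (hf : IsHF σ ε f) (c : K) (v w : V) : f v (c • w) = σ c * f v w := by
  rw [A3_herm' hf v (c • w), hf.smul_left, map_mul, A3_herm' hf v w]
  ring

theorem A3_zero_left (hf : IsHF σ ε f) (w : V) : f 0 w = 0 := by
  have h := hf.smul_left 0 0 w
  rwa [zero_smul, zero_mul] at h

theorem A3_zero_right (hf : IsHF σ ε f) (v : V) : f v 0 = 0 := by
  have h := A3_smul_right hf 0 v 0
  rwa [zero_smul, map_zero, zero_mul] at h

theorem A3_neg_left (hf : IsHF σ ε f) (v w : V) : f (-v) w = - f v w := by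
  have h := hf.smul_left (-1) v w
  rwa [neg_one_smul, neg_one_mul] at h

theorem A3_neg_right (hf : IsHF σ ε f) (v w : V) : f v (-w) = - f v w := by
  have h := A3_smul_right hf (-1) v w
  rwa [neg_one_smul, map_neg, map_one, neg_one_mul] at h

theorem A3_sub_left (hf : IsHF σ ε f) (u v w : V) : f (u - v) w = f u w - f v w := by
  rw [sub_eq_add_neg, hf.add_left, A3_neg_left hf, sub_eq_add_neg]

theorem A3_sub_right (hf : IsHF σ ε f) (u v w : V) : f u (v - w) = f u v - f u w := by
  rw [sub_eq_add_neg, A3_add_right hf, A3_neg_right hf, sub_eq_add_neg]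

theorem A3_nondeg_right (hf : IsHF σ ε f) (w : V) (h : ∀ v, f v w = 0) : w = 0 := by
  apply hf.nondeg
  intro v
  rw [A3_herm' hf, h, map_zero, mul_zero]

theorem A3_adj_add (hf : IsHF σ ε f) {S T S' T' : Module.End K V} (h : IsAdj f S T)
    (h' : IsAdj f S' T') : IsAdj f (S + S') (T + T') := by
  intro v w
  rw [LinearMap.add_apply, LinearMap.add_apply, hf.add_left, A3_add_right hf, h, h']

theorem A3_adj_neg (hf : IsHF σ ε f) {S T : Module.End K V} (h : IsAdj f S T) :
    IsAdj f (-S) (-T) := by
  intro v w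
  rw [LinearMap.neg_apply, LinearMap.neg_apply, A3_neg_left hf, A3_neg_right hf, h]

theorem A3_adj_mul {S T S' T' : Module.End K V} (h : IsAdj f S T)
    (h' : IsAdj f S' T') : IsAdj f (S * S') (T' * T) := by
  intro v w
  rw [Module.End.mul_apply, Module.End.mul_apply, h, h']

theorem A3_adj_symm (hf : IsHF σ ε f) {S T : Module.End K V} (h : IsAdj f S T) : IsAdj f T S := by
  intro v w
  rw [A3_herm' hf, ← h, ← A3_herm' hf]

theorem A3_adj_one : IsAdj f (1 : Module.End K V) 1 := by
  intro v w
  rfl

theorem A3_adj_zero (hf : IsHF σ ε f) : IsAdj f (0 : Module.End K V) 0 := by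
  intro v w
  rw [LinearMap.zero_apply, LinearMap.zero_apply, A3_zero_left hf, A3_zero_right hf]

theorem A3_adj_smul (hf : IsHF σ ε f) (c : K) : IsAdj f (c • (1 : Module.End K V)) (σ c • 1) := by
  intro v w
  rw [LinearMap.smul_apply, LinearMap.smul_apply, Module.End.one_apply, Module.End.one_apply,
    hf.smul_left, A3_smul_right hf, hf.invol]

theorem A3_adj_inv {S T S' T' : Module.End K V} (h : IsAdj f S T) (h1 : S * S' = 1)
    (h2 : T * T' = 1) : IsAdj f S' T' := by
  intro v w
  have e1 : w = T (T' w) := by rw [← Module.End.mul_apply, h2]; rfl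
  have e2 : v = S (S' v) := by rw [← Module.End.mul_apply, h1]; rfl
  conv_lhs => rw [e1]
  rw [← h, ← e2]

end A3basic

/-- kernel and image of an element of `A` are complementary -/
theorem A3_compl {K V : Type} [Field K] [AddCommGroup V] [Module K V] [FiniteDimensional K V]
    (A : Subalgebra K (Module.End K V)) (hA : IsTorGL A) (d : Module.End K V) (hd : d ∈ A) :
    Disjoint (LinearMap.ker d) (LinearMap.range d) ∧
      LinearMap.ker d ⊔ LinearMap.range d = ⊤ := by
  have hdis : Disjoint (LinearMap.ker d) (LinearMap.range d) := by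
    rw [Submodule.disjoint_def]
    rintro _ h1 ⟨w, rfl⟩
    rw [LinearMap.mem_ker] at h1
    obtain ⟨e, he, hee, her⟩ := stable_eq A hA (LinearMap.ker (d * d)) (by
      intro a ha v hv
      rw [LinearMap.mem_ker] at hv ⊢
      rw [← Module.End.mul_apply, hA.comm (d * d) (A.mul_mem hd hd) a ha, Module.End.mul_apply,
        hv, map_zero])
    have h2 : d * d * e = 0 := by
      apply LinearMap.ext
      intro v
      have : e v ∈ LinearMap.ker (d * d) := by rw [← her]; exact LinearMap.mem_range_self e v
      exact this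
    have h3 : d * e = 0 := by
      apply hA.red _ (A.mul_mem hd he)
      calc d * e * (d * e) = d * (e * d) * e := by noncomm_ring
        _ = d * (d * e) * e := by rw [hA.comm e he d hd]
        _ = d * d * e * e := by noncomm_ring
        _ = 0 := by rw [h2, zero_mul]
    have h4 : w ∈ LinearMap.range e := by
      rw [her, LinearMap.mem_ker]
      exact h1
    obtain ⟨w', rfl⟩ := h4
    rw [← Module.End.mul_apply, h3, LinearMap.zero_apply]
  refine ⟨hdis, ?_⟩
  apply Submodule.eq_top_of_disjoint _ _ _ hdis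
  rw [add_comm]
  exact (LinearMap.finrank_range_add_finrank_ker d).ge

theorem A3_kerone (two : (2 : K) ≠ 0) (σ : K →+* K) (hσ : ∀ k, σ k = k) (ε : K) (f : V → V → K)
    (hf : IsHF σ ε f) (A : Subalgebra K (Module.End K V)) (hA : IsTorGL A) (d : Module.End K V)
    (hd : d ∈ A) (hds : IsAdj f d (-d)) (hdr : finrank K V ≤ finrank K (LinearMap.range d) + 1)
    (h : ε = -1 ∨ Even (finrank K V)) : LinearMap.ker d = ⊥ := by
  obtain ⟨hdis, hsup⟩ := A3_compl A hA d hd
  have hsum := LinearMap.finrank_range_add_finrank_ker d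
  by_contra hne
  have hk1 : finrank K (LinearMap.ker d) = 1 := by
    have h1 : finrank K (LinearMap.ker d) ≠ 0 := by
      intro h0
      exact hne (Submodule.finrank_eq_zero.1 h0)
    omega
  have horth : ∀ v ∈ LinearMap.ker d, ∀ w ∈ LinearMap.range d, f v w = 0 := by
    rintro v hv _ ⟨w, rfl⟩
    have h1 := hds v w
    rw [LinearMap.mem_ker] at hv
    rw [hv, A3_zero_left hf, LinearMap.neg_apply, A3_neg_right hf] at h1
    exact neg_eq_zero.1 h1.symm
  rcases hf.eps with he | he
  · -- symmetric, even dimension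
    have heven : Even (finrank K V) := by
      rcases h with h | h
      · exfalso
        rw [he] at h
        apply two
        have : (1 : K) + 1 = 0 := by
          nth_rewrite 1 [h]
          ring
        rw [← this]; norm_num
      · exact h
    obtain ⟨m, hm⟩ : ∃ m, m = finrank K (LinearMap.range d) := ⟨_, rfl⟩
    have hodd : Odd m := by
      rw [hk1] at hsum
      rw [← hm] at hsum
      rw [← hsum] at heven
      rcases Nat.even_or_odd m with h1 | h1
      · exfalso
        rw [Nat.even_add] at heven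
        have := heven.1 h1
        exact absurd this (by decide)
      · exact h1
    let b := Module.finBasisOfFinrankEq K (LinearMap.range d) hm.symm
    have hsymm : ∀ v w, f v w = f w v := by
      intro v w
      rw [A3_herm' hf, he, one_mul, hσ]
    have hskew : ∀ v w, f (d v) w = - f (d w) v := by
      intro v w
      rw [hds v w, LinearMap.neg_apply, A3_neg_right hf, hsymm]
    let M : Matrix (Fin m) (Fin m) K := Matrix.of fun i j => f (d (b i)) (b j)
    have hMt : M.transpose = -M := by
      ext i j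
      change f (d (b j)) (b i) = -(f (d (b i)) (b j))
      rw [hskew]
    have hdet : M.det = 0 := by
      have h1 := congrArg Matrix.det hMt
      rw [Matrix.det_transpose, Matrix.det_neg, Fintype.card_fin, hodd.neg_one_pow,
        neg_one_mul] at h1
      have h2 : 2 * M.det = 0 := by
        linear_combination h1
      exact (mul_eq_zero.1 h2).resolve_left two
    obtain ⟨v, hv, hvM⟩ := Matrix.exists_vecMul_eq_zero_iff.2 hdet
    obtain ⟨u, hu⟩ : ∃ u : LinearMap.range d, u = ∑ i, v i • b i := ⟨_, rfl⟩
    have fsum : ∀ (s : Finset (Fin m)) (w : V),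
        f (d (∑ i ∈ s, v i • b i : LinearMap.range d)) w = ∑ i ∈ s, v i * f (d (b i)) w := by
      intro s w
      induction s using Finset.induction_on with
      | empty => simp [A3_zero_left hf]
      | insert a s ha ih =>
        rw [Finset.sum_insert ha, Finset.sum_insert ha, ← ih]
        push_cast
        rw [map_add, hf.add_left, map_smul, hf.smul_left]
    have hub : ∀ j, f (d u) (b j) = 0 := by
      intro j
      have h1 := congrFun hvM j
      rw [hu, fsum]
      rw [Matrix.vecMul, dotProduct] at h1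
      exact h1
    have hur : ∀ w : LinearMap.range d, f (d u) w = 0 := by
      intro w
      have hw : w ∈ Submodule.span K (Set.range b) := by rw [b.span_eq]; trivial
      induction hw using Submodule.span_induction with
      | mem x hx =>
        obtain ⟨i, rfl⟩ := hx
        exact hub i
      | zero => exact A3_zero_right hf _
      | add x y _ _ hx hy =>
        push_cast
        rw [A3_add_right hf, hx, hy, add_zero]
      | smul c x _ hx =>
        push_cast
        rw [A3_smul_right hf, hx, mul_zero]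
    have hu0 : d u = 0 := by
      apply hf.nondeg
      intro w
      have hw : w ∈ LinearMap.ker d ⊔ LinearMap.range d := by rw [hsup]; trivial
      obtain ⟨x, hx, y, hy, rfl⟩ := Submodule.mem_sup.1 hw
      rw [A3_add_right hf, hur ⟨y, hy⟩, add_zero, hsymm]
      exact horth x hx _ (LinearMap.mem_range_self d u)
    have hu1 : (u : V) = 0 := by
      rw [Submodule.disjoint_def] at hdis
      exact hdis u (LinearMap.mem_ker.2 hu0) u.2
    have hu2 : ∑ i, v i • b i = 0 := by
      rw [← hu]
      exact Subtype.ext hu1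
    apply hv
    funext i
    have := congrArg (fun x => b.repr x i) hu2
    simpa [Finsupp.single_apply] using this
  · -- alternating
    have halt : ∀ v, f v v = 0 := by
      intro v
      have h1 := A3_herm' hf v v
      rw [he, hσ] at h1
      have h2 : 2 * f v v = 0 := by linear_combination h1
      exact (mul_eq_zero.1 h2).resolve_left two
    obtain ⟨v₀, hv₀, hgen⟩ := finrank_eq_one_iff'.1 hk1
    apply hv₀
    apply Subtype.ext
    apply hf.nondeg
    intro w
    have hw : w ∈ LinearMap.ker d ⊔ LinearMap.range d := by rw [hsup]; trivial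
    obtain ⟨x, hx, y, hy, rfl⟩ := Submodule.mem_sup.1 hw
    rw [A3_add_right hf, horth _ v₀.2 y hy, add_zero]
    obtain ⟨c, hc⟩ := hgen ⟨x, hx⟩
    have hc' : c • (v₀ : V) = x := congrArg Subtype.val hc
    rw [← hc', A3_smul_right hf, halt, mul_zero]

theorem exists_skew_unit (two : (2 : K) ≠ 0) (σ : K →+* K) (ε : K) (f : V → V → K) (hf : IsHF σ ε f)
    (A : Subalgebra K (Module.End K V)) (hA : IsTor f A)
    (h : (∃ k, σ k ≠ k) ∨ ε = -1 ∨ Even (finrank K V)) :
    ∃ d ∈ A, IsUnit d ∧ IsAdj f d (-d) := by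
  by_cases hσ : ∀ k, σ k = k
  · obtain ⟨d, hd, hds, hdr⟩ := hA.skew
    refine ⟨d, hd, ?_, hds⟩
    rw [LinearMap.isUnit_iff_ker_eq_bot]
    refine A3_kerone two σ hσ ε f hf A hA.toIsTorGL d hd hds hdr ?_
    rcases h with ⟨k, hk⟩ | h
    · exact absurd (hσ k) hk
    · exact h
  · push Not at hσ
    obtain ⟨k, hk⟩ := hσ
    have hκ : k - σ k ≠ 0 := fun h0 => hk (sub_eq_zero.1 h0).symm
    refine ⟨(k - σ k) • 1, A.smul_mem A.one_mem _, ?_, ?_⟩
    · have h1 := (isUnit_iff_ne_zero.2 hκ).map (algebraMap K (Module.End K V))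
      rwa [Algebra.algebraMap_eq_smul_one] at h1
    · have h1 := A3_adj_smul (V := V) hf (k - σ k)
      rw [map_sub, hf.invol] at h1
      have h2 : -((k - σ k) • (1 : Module.End K V)) = (σ k - k) • 1 := by
        rw [← neg_smul, neg_sub]
      rw [h2]
      exact h1

/-- the equation in a finite reduced ring -/
theorem A3_ring (R : Type) [CommRing R] [Finite R] [IsReduced R] (two : IsUnit (2 : R)) (δ c : R)
    (hδ : IsUnit δ) : ∃ x y : R, x * x - δ * (y * y) = c := by
  classical
  have key : ∀ I : MaximalSpectrum R, ∃ xy : (R ⧸ I.asIdeal) × (R ⧸ I.asIdeal),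
      xy.1 * xy.1 - (Ideal.Quotient.mk I.asIdeal δ) * (xy.2 * xy.2) =
        Ideal.Quotient.mk I.asIdeal c := by
    intro I
    haveI : I.asIdeal.IsMaximal := I.isMaximal
    have h2' : (Ideal.Quotient.mk I.asIdeal (2 : R)) ≠ 0 :=
      (two.map (Ideal.Quotient.mk I.asIdeal)).ne_zero
    rw [map_ofNat] at h2'
    letI : Field (R ⧸ I.asIdeal) := Ideal.Quotient.field I.asIdeal
    haveI : Finite (R ⧸ I.asIdeal) := Finite.of_surjective _ Ideal.Quotient.mk_surjective
    haveI : Fintype (R ⧸ I.asIdeal) := Fintype.ofFinite _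
    have h2 : (2 : R ⧸ I.asIdeal) ≠ 0 := h2'
    have hδ' : Ideal.Quotient.mk I.asIdeal δ ≠ 0 :=
      (hδ.map (Ideal.Quotient.mk I.asIdeal)).ne_zero
    have hodd : Fintype.card (R ⧸ I.asIdeal) % 2 = 1 := by
      apply FiniteField.odd_card_of_char_ne_two
      intro hch
      apply h2
      have := ringChar.Nat.cast_ringChar (R := R ⧸ I.asIdeal)
      rw [hch] at this
      exact_mod_cast this
    obtain ⟨x, y, hxy⟩ := FiniteField.exists_root_sum_quadratic
      (f := (Polynomial.X ^ 2 - Polynomial.C (Ideal.Quotient.mk I.asIdeal c) :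
        Polynomial (R ⧸ I.asIdeal)))
      (g := (Polynomial.C (-(Ideal.Quotient.mk I.asIdeal δ)) * Polynomial.X ^ 2 :
        Polynomial (R ⧸ I.asIdeal)))
      (Polynomial.degree_X_pow_sub_C (by norm_num) _)
      (by
        rw [Polynomial.degree_C_mul_X_pow]
        · rfl
        · exact neg_ne_zero.2 hδ')
      hodd
    refine ⟨(x, y), ?_⟩
    simp only [Polynomial.eval_sub, Polynomial.eval_pow, Polynomial.eval_X, Polynomial.eval_C,
      Polynomial.eval_mul] at hxy
    change x * x - Ideal.Quotient.mk I.asIdeal δ * (y * y) = Ideal.Quotient.mk I.asIdeal c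
    linear_combination hxy
  choose xy hxy using key
  let e := IsArtinianRing.equivPi R
  refine ⟨e.symm (fun I => (xy I).1), e.symm (fun I => (xy I).2), ?_⟩
  apply e.injective
  rw [map_sub, map_mul, map_mul, map_mul, AlgEquiv.apply_symm_apply, AlgEquiv.apply_symm_apply]
  funext I
  exact hxy I

/-- the ring of selfadjoint elements -/
def A3_S (σ : K →+* K) (ε : K) (f : V → V → K) (hf : IsHF σ ε f)
    (A : Subalgebra K (Module.End K V)) (hc : ∀ a ∈ A, ∀ b ∈ A, a * b = b * a) :
    Subring (Module.End K V) where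
  carrier := {s | s ∈ A ∧ IsAdj f s s}
  mul_mem' := by
    rintro a b ⟨ha, ha'⟩ ⟨hb, hb'⟩
    refine ⟨A.mul_mem ha hb, ?_⟩
    have := A3_adj_mul ha' hb'
    rw [hc b hb a ha] at this
    exact this
  one_mem' := ⟨A.one_mem, A3_adj_one⟩
  add_mem' := by
    rintro a b ⟨ha, ha'⟩ ⟨hb, hb'⟩
    exact ⟨A.add_mem ha hb, A3_adj_add hf ha' hb'⟩
  zero_mem' := ⟨A.zero_mem, A3_adj_zero hf⟩
  neg_mem' := by
    rintro a ⟨ha, ha'⟩
    exact ⟨A.neg_mem ha, A3_adj_neg hf ha'⟩

theorem star_surj (two : (2 : K) ≠ 0) (σ : K →+* K) (ε : K) (f : V → V → K) (hf : IsHF σ ε f)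
    (A : Subalgebra K (Module.End K V)) (hA : IsTor f A)
    (d : Module.End K V) (hd : d ∈ A) (hdu : IsUnit d) (hds : IsAdj f d (-d))
    (c : Module.End K V) (hc : c ∈ A) (hcu : IsUnit c) (hcs : IsAdj f c c) :
    ∃ a ∈ A, ∃ a' ∈ A, IsUnit a ∧ IsAdj f a a' ∧ a' * a = c := by
  let S := A3_S σ ε f hf A hA.comm
  letI : CommRing S := { (inferInstance : Ring S) with
    mul_comm := fun a b => Subtype.ext (hA.comm a a.2.1 b b.2.1) }
  haveI : Finite V := Module.finite_of_finite K
  haveI : Finite (Module.End K V) :=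
    Finite.of_injective (fun g : Module.End K V => (g : V → V)) DFunLike.coe_injective
  haveI : Finite S := Finite.of_injective (fun s : S => (s : Module.End K V)) Subtype.val_injective
  haveI : IsReduced S := by
    refine ⟨fun x hx => ?_⟩
    obtain ⟨n, hn⟩ := hx
    have key : ∀ (n : ℕ) (x : Module.End K V), x ∈ A → x ^ (n + 1) = 0 → x = 0 := by
      intro n
      induction n with
      | zero => intro x _ h; simpa using h
      | succ n ih =>
        intro x hx h
        apply ih x hx
        apply hA.red _ (A.pow_mem hx _)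
        rw [← pow_add, show n + 1 + (n + 1) = (n + 1 + 1) + n by ring, pow_add, h, zero_mul]
    have h1 : (x : Module.End K V) ^ n = 0 := by
      have := congrArg (fun s : S => (s : Module.End K V)) hn
      simpa using this
    apply Subtype.ext
    apply key n x x.2.1
    rw [pow_succ, h1, zero_mul]
  obtain ⟨g, hg, hgd⟩ := exists_torGL A d hd hdu
  obtain ⟨d', hd'⟩ : ∃ d' : Module.End K V, d' = (g⁻¹).toLinearMap := ⟨_, rfl⟩
  have hd'A : d' ∈ A := by rw [hd']; exact hg.2
  have hdd' : d * d' = 1 := by
    rw [← hgd, hd']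
    apply LinearMap.ext
    intro v
    exact LinearEquiv.apply_symm_apply g v
  have hd's : IsAdj f d' (-d') := A3_adj_inv hds hdd' (by rw [neg_mul_neg]; exact hdd')
  have hsq : ∀ x : Module.End K V, x ∈ A → IsAdj f x (-x) → x * x ∈ S := by
    intro x hx hxs
    refine ⟨A.mul_mem hx hx, ?_⟩
    have := A3_adj_mul hxs hxs
    rwa [neg_mul_neg] at this
  have h12 : IsAdj f ((2 : K)⁻¹ • (1 : Module.End K V)) ((2 : K)⁻¹ • 1) := by
    have h1 := A3_adj_smul (V := V) hf (2 : K)⁻¹
    rwa [map_inv₀, map_ofNat] at h1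
  obtain ⟨x, y, hxy⟩ := A3_ring S
    (IsUnit.of_mul_eq_one (⟨(2 : K)⁻¹ • 1, A.smul_mem A.one_mem _, h12⟩ : S) (by
      apply Subtype.ext
      change (2 : Module.End K V) * ((2 : K)⁻¹ • 1) = 1
      rw [mul_smul_comm, mul_one]
      have h2 : (2 : Module.End K V) = (2 : K) • 1 := by
        rw [ofNat_smul_eq_nsmul, nsmul_eq_mul, mul_one]
        rfl
      rw [h2, smul_smul, inv_mul_cancel₀ two, one_smul]))
    (⟨d * d, hsq d hd hds⟩ : S) (⟨c, hc, hcs⟩ : S)
    (IsUnit.of_mul_eq_one (⟨d' * d', hsq d' hd'A hd's⟩ : S) (by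
      apply Subtype.ext
      change d * d * (d' * d') = 1
      rw [mul_assoc, ← mul_assoc d d' d', hdd', one_mul, hdd']))
  have hxy' : (x : Module.End K V) * x - d * d * ((y : Module.End K V) * y) = c :=
    congrArg (fun s : S => (s : Module.End K V)) hxy
  have hxd := hA.comm x x.2.1 d hd
  have hyd := hA.comm y y.2.1 d hd
  have hyx := hA.comm y y.2.1 x x.2.1
  have hmul : ((x : Module.End K V) - y * d) * (x + y * d) = c := by
    rw [← hxy', hyd]
    have e1 : ((x : Module.End K V) - d * y) * (x + d * y) =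
        x * x + (x * d) * y - d * (y * x) - d * (y * d) * y := by noncomm_ring
    rw [e1, hxd, hyx, hyd]
    noncomm_ring
  have hxA := x.2.1
  have hyA := y.2.1
  refine ⟨x + y * d, A.add_mem hxA (A.mul_mem hyA hd), x - y * d,
    A.sub_mem hxA (A.mul_mem hyA hd), ?_, ?_, hmul⟩
  · have hcomm : Commute ((x : Module.End K V) - y * d) (x + y * d) :=
      hA.comm _ (A.sub_mem hxA (A.mul_mem hyA hd)) _ (A.add_mem hxA (A.mul_mem hyA hd))
    rw [← hmul] at hcu
    exact (hcomm.isUnit_mul_iff.1 hcu).2
  · have h1 := A3_adj_mul y.2.2 hds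
    have h2 := A3_adj_add hf x.2.2 h1
    rw [neg_mul, ← hyd, ← sub_eq_add_neg] at h2
    exact h2

end Pool.Agent.CTO
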