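import Pool.Agent.CTO.A3

/-!
# A4: torus algebras which are isomorphic as algebras with involution are conjugate

Let `φ : A ≃ A'` respect adjoints. Let `v0`, `v0'` be cyclic vectors (`exists_cyc`) and `g0` the
`K`-linear automorphism of `V` with `g0 (a v0) = φ(a) v0'`; so `g0 a g0⁻¹ = φ a` for `a ∈ A`. The form
`f'(v, w) = f(g0 v, g0 w)` is `f(c v, w)` with a unit `c`, which commutes with `A`, so `c ∈ A` (`cent_eq`),
and `c* = c`. If `c = a* a` with a unit `a ∈ A` then `g = g0 a⁻¹` is an isometry, and `g A g⁻¹ = A'`.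
Such an `a` exists by `exists_skew_unit`, `star_surj` if there is a skew unit. Otherwise `σ = id`; let
`d` be the skew element with one dimensional kernel `e V` (`e = e* ∈ A` idempotent). In the ring `S` of
the selfadjoint elements there are `x`, `y` with `x² - (d² + e) y² = c`; `a1 = (1 - e) x + y d` has
`a1* a1 = (1 - e) c`. `c e = c0 e` with `c0 ∈ K`. Claim: `c0` is a square: the Gram matrices of
`f'` and of `f` show `det c = det(g0)²`; and `c = (e + a1)* (e + a1) (c0 e + (1 - e))`, so
`det c = det(e + a1)² c0`. So `c0 = s²`, `a = s e + a1`.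
-/

namespace Pool.Agent.CTO

open Module

variable {K V : Type} [Field K] [Finite K] [AddCommGroup V] [Module K V] [FiniteDimensional K V]

theorem A4_alg1 {R : Type} [CommRing R] {x y d e c : R} (hee : e * e = e) (hde : d * e = 0)
    (hxy : x * x - (d * d + e) * (y * y) = c) :
    ((1 - e) * x - y * d) * ((1 - e) * x + y * d) = (1 - e) * c := by
  rw [← hxy]
  linear_combination (x * x - y * y) * hee - y * y * d * hde

theorem A4_alg3 {R : Type} [CommRing R] {x y d e c : R} (s : R) (hee : e * e = e) (hde : d * e = 0)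
    (hxy : x * x - (d * d + e) * (y * y) = c) :
    (s * e + ((1 - e) * x - y * d)) * (s * e + ((1 - e) * x + y * d)) = s * s * e + (1 - e) * c := by
  linear_combination (s * s - 2 * s * x) * hee + A4_alg1 hee hde hxy

section gram

variable {K V : Type} [Field K] [AddCommGroup V] [Module K V] [FiniteDimensional K V]

omit [FiniteDimensional K V] in
theorem A4_sumL {σ : K →+* K} {ε : K} {f : V → V → K} (hf : IsHF σ ε f) {ι : Type} [DecidableEq ι]
    (b : ι → V) (s : Finset ι) (c : ι → K) (w : V) :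
    f (∑ i ∈ s, c i • b i) w = ∑ i ∈ s, c i * f (b i) w := by
  induction s using Finset.induction_on with
  | empty => simp [A3_zero_left hf]
  | insert a s ha ih =>
    rw [Finset.sum_insert ha, Finset.sum_insert ha, hf.add_left, hf.smul_left, ih]

omit [FiniteDimensional K V] in
theorem A4_sumR {σ : K →+* K} {ε : K} {f : V → V → K} (hf : IsHF σ ε f) {ι : Type} [DecidableEq ι]
    (b : ι → V) (s : Finset ι) (c : ι → K) (v : V) :
    f v (∑ i ∈ s, c i • b i) = ∑ i ∈ s, σ (c i) * f v (b i) := by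
  induction s using Finset.induction_on with
  | empty => simp [A3_zero_right hf]
  | insert a s ha ih =>
    rw [Finset.sum_insert ha, Finset.sum_insert ha, A3_add_right hf, A3_smul_right hf, ih]

/-- the Gram matrix -/
noncomputable def A4_J (f : V → V → K) : Matrix (Fin (finrank K V)) (Fin (finrank K V)) K :=
  Matrix.of fun i j => f (Module.finBasis K V i) (Module.finBasis K V j)

theorem A4_Jdet {σ : K →+* K} {ε : K} {f : V → V → K} (hf : IsHF σ ε f) :
    (A4_J (V := V) f).det ≠ 0 := by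
  classical
  intro h0
  obtain ⟨v, hv, hvJ⟩ := Matrix.exists_vecMul_eq_zero_iff.2 h0
  apply hv
  let b := Module.finBasis K V
  have hz : ∑ i, v i • b i = 0 := by
    apply hf.nondeg
    intro w
    rw [← b.sum_repr w, A4_sumR hf]
    apply Finset.sum_eq_zero
    intro j _
    have h1 := congrFun hvJ j
    rw [Matrix.vecMul, dotProduct] at h1
    rw [A4_sumL hf]
    have h2 : ∑ i, v i * f (b i) (b j) = 0 := h1
    rw [h2, mul_zero]
  funext i
  have := congrArg (fun x => b.repr x i) hz
  simpa [Finsupp.single_apply] using this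

/-- the Gram matrix of `f (S v) w` -/
theorem A4_Jleft {σ : K →+* K} {ε : K} {f : V → V → K} (hf : IsHF σ ε f) (S : Module.End K V) :
    A4_J (fun v w => f (S v) w) =
      (LinearMap.toMatrix (Module.finBasis K V) (Module.finBasis K V) S).transpose * A4_J f := by
  classical
  let b := Module.finBasis K V
  ext i j
  rw [Matrix.mul_apply]
  have h2 : S (b i) = ∑ k, (LinearMap.toMatrix b b S) k i • b k := by
    simp only [LinearMap.toMatrix_apply]
    exact (b.sum_repr _).symm
  change f (S (b i)) (b j) = _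
  rw [h2, A4_sumL hf]
  rfl

/-- the Gram matrix of `f v (T w)` -/
theorem A4_Jright {σ : K →+* K} {ε : K} {f : V → V → K} (hf : IsHF σ ε f) (T : Module.End K V) :
    A4_J (fun v w => f v (T w)) =
      A4_J f * (LinearMap.toMatrix (Module.finBasis K V) (Module.finBasis K V) T).map σ := by
  classical
  let b := Module.finBasis K V
  ext i j
  rw [Matrix.mul_apply]
  have h2 : T (b j) = ∑ k, (LinearMap.toMatrix b b T) k j • b k := by
    simp only [LinearMap.toMatrix_apply]
    exact (b.sum_repr _).symm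
  change f (b i) (T (b j)) = _
  rw [h2, A4_sumR hf]
  apply Finset.sum_congr rfl
  intro k _
  exact mul_comm _ _

theorem A4_gram {σ : K →+* K} {ε : K} {f : V → V → K} (hf : IsHF σ ε f)
    (S T : Module.End K V) (h : IsAdj f S T) : LinearMap.det S = σ (LinearMap.det T) := by
  classical
  have h1 : (fun v w => f (S v) w) = (fun v w => f v (T w)) := by
    funext v w
    exact h v w
  have e1 := A4_Jleft hf S
  rw [h1, A4_Jright hf T] at e1
  have e2 := congrArg Matrix.det e1
  rw [Matrix.det_mul, Matrix.det_mul, Matrix.det_transpose, mul_comm (A4_J f).det] at e2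
  have e3 := mul_right_cancel₀ (A4_Jdet hf) e2
  rw [← LinearMap.det_toMatrix (Module.finBasis K V) S,
    ← LinearMap.det_toMatrix (Module.finBasis K V) T, ← e3]
  exact (RingHom.map_det σ _).symm

/-- two nondegenerate forms differ by an endomorphism -/
theorem A4_exists_c {σ : K →+* K} {ε : K} {f : V → V → K} (hf : IsHF σ ε f)
    (g0 : V ≃ₗ[K] V) :
    ∃ c : Module.End K V, (∀ v w, f (g0 v) (g0 w) = f (c v) w) ∧
      ((∀ k, σ k = k) → LinearMap.det c = LinearMap.det g0.toLinearMap *
        LinearMap.det g0.toLinearMap) := by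
  classical
  let b := Module.finBasis K V
  obtain ⟨M, hM⟩ : ∃ M : Matrix (Fin (finrank K V)) (Fin (finrank K V)) K,
      M = LinearMap.toMatrix b b g0.toLinearMap := ⟨_, rfl⟩
  have hJ' : A4_J (fun v w => f (g0 v) (g0 w)) = M.transpose * (A4_J f * M.map σ) := by
    ext i j
    rw [Matrix.mul_apply]
    change f (g0 (b i)) (g0 (b j)) = _
    have h2 : ∀ i, g0 (b i) = ∑ k, M k i • b k := by
      intro i
      rw [hM]
      simp only [LinearMap.toMatrix_apply]
      exact (b.sum_repr _).symm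
    rw [h2, h2, A4_sumL hf]
    apply Finset.sum_congr rfl
    intro k _
    rw [A4_sumR hf, Matrix.mul_apply, Matrix.transpose_apply]
    congr 1
    apply Finset.sum_congr rfl
    intro l _
    exact mul_comm _ _
  have hu : IsUnit (A4_J (V := V) f).det := isUnit_iff_ne_zero.2 (A4_Jdet hf)
  obtain ⟨X, hX⟩ : ∃ X : Matrix (Fin (finrank K V)) (Fin (finrank K V)) K,
      X = ((M.transpose * (A4_J f * M.map σ)) * (A4_J f)⁻¹).transpose := ⟨_, rfl⟩
  have hXJ : X.transpose * A4_J f = M.transpose * (A4_J f * M.map σ) := by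
    rw [hX, Matrix.transpose_transpose, mul_assoc, Matrix.nonsing_inv_mul _ hu, mul_one]
  refine ⟨Matrix.toLin b b X, ?_, ?_⟩
  · have h3 : ∀ i j, f (g0 (b i)) (g0 (b j)) = f (Matrix.toLin b b X (b i)) (b j) := by
      intro i j
      have e1 := A4_Jleft hf (Matrix.toLin b b X)
      rw [LinearMap.toMatrix_toLin, hXJ, ← hJ'] at e1
      exact (congrFun (congrFun e1 i) j).symm
    intro v w
    rw [← b.sum_repr v, ← b.sum_repr w]
    simp only [map_sum, map_smul]
    rw [A4_sumL hf, A4_sumL hf]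
    apply Finset.sum_congr rfl
    intro i _
    rw [A4_sumR hf, A4_sumR hf]
    congr 1
    apply Finset.sum_congr rfl
    intro j _
    rw [h3]
  · intro hσ
    rw [← LinearMap.det_toMatrix b (Matrix.toLin b b X), LinearMap.toMatrix_toLin,
      ← LinearMap.det_toMatrix b g0.toLinearMap, ← hM]
    have e2 := congrArg Matrix.det hXJ
    have hMσ : M.map σ = M := by
      ext i j
      exact hσ _
    rw [Matrix.det_mul, Matrix.det_mul, Matrix.det_mul, Matrix.det_transpose,
      Matrix.det_transpose, hMσ] at e2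
    apply mul_right_cancel₀ (A4_Jdet hf)
    rw [e2]
    ring

end gram

/-- the determinant of `s e + (1 - e)`, `e` an idempotent of rank one -/
theorem A4_det_e {K V : Type} [Field K] [AddCommGroup V] [Module K V] [FiniteDimensional K V]
    (e : Module.End K V) (hee : e * e = e) (hr : finrank K (LinearMap.range e) = 1) (s : K) :
    LinearMap.det (s • e + (1 - e)) = s := by
  have hfix : ∀ w ∈ LinearMap.range e, e w = w := by
    rintro _ ⟨v, rfl⟩
    rw [← Module.End.mul_apply, hee]
  have hcomap : LinearMap.range e ≤ (LinearMap.range e).comap (s • e + (1 - e)) := by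
    intro w hw
    rw [Submodule.mem_comap]
    have h1 : (s • e + (1 - e)) w = s • w := by
      rw [LinearMap.add_apply, LinearMap.smul_apply, LinearMap.sub_apply, hfix w hw,
        Module.End.one_apply, sub_self, add_zero]
    rw [h1]
    exact Submodule.smul_mem _ _ hw
  rw [LinearMap.det_eq_det_mul_det (LinearMap.range e) _ hcomap]
  have h2 : LinearMap.restrict (p := LinearMap.range e) (q := LinearMap.range e)
      (s • e + (1 - e)) hcomap = s • LinearMap.id := by
    apply LinearMap.ext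
    intro w
    apply Subtype.ext
    rw [LinearMap.coe_restrict_apply, LinearMap.add_apply, LinearMap.smul_apply,
      LinearMap.sub_apply, hfix w w.2, Module.End.one_apply, sub_self, add_zero,
      LinearMap.smul_apply, LinearMap.id_apply, Submodule.coe_smul]
  have h3 : (LinearMap.range e).mapQ (LinearMap.range e) (s • e + (1 - e)) hcomap =
      LinearMap.id := by
    apply LinearMap.ext
    intro q
    obtain ⟨v, rfl⟩ := Submodule.mkQ_surjective _ q
    rw [Submodule.mkQ_apply, Submodule.mapQ_apply, LinearMap.id_apply, Submodule.Quotient.eq]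
    refine ⟨(s - 1) • v, ?_⟩
    rw [LinearMap.add_apply, LinearMap.smul_apply, LinearMap.sub_apply, Module.End.one_apply,
      map_smul, sub_smul, one_smul]
    abel
  rw [h2, h3, LinearMap.det_id, mul_one, LinearMap.det_smul, hr, pow_one, LinearMap.det_id, mul_one]

/-- the equation `x² - δ y² = c` in the selfadjoint elements -/
theorem A4_solve (two : (2 : K) ≠ 0) (σ : K →+* K) (ε : K) (f : V → V → K) (hf : IsHF σ ε f)
    (A : Subalgebra K (Module.End K V)) (hA : IsTor f A)
    (δ : Module.End K V) (hδ : δ ∈ A) (hδu : IsUnit δ) (hδs : IsAdj f δ δ)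
    (c : Module.End K V) (hc : c ∈ A) (hcs : IsAdj f c c) :
    ∃ x ∈ A, ∃ y ∈ A, IsAdj f x x ∧ IsAdj f y y ∧ x * x - δ * (y * y) = c := by
  let S := A3_S σ ε f hf A hA.comm
  let _ : CommRing S := { (inferInstance : Ring S) with
    mul_comm := fun a b => Subtype.ext (hA.comm a a.2.1 b b.2.1) }
  have : Finite V := Module.finite_of_finite K
  have : Finite (Module.End K V) :=
    Finite.of_injective (fun g : Module.End K V => (g : V → V)) DFunLike.coe_injective
  have : Finite S := Finite.of_injective (fun s : S => (s : Module.End K V)) Subtype.val_injective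
  have : IsReduced S := by
    refine ⟨fun x hx => ?_⟩
    obtain ⟨n, hn⟩ := hx
    have key : ∀ (n : ℕ) (x : Module.End K V), x ∈ A → x ^ (n + 1) = 0 → x = 0 := by
      intro n
      induction n with
      | zero => intro x _ h; simpa using h
      | succ n ih =>
        intro x hx h
        apply ih x hx
        apply hA.red _ (A.pow_mem hx _)
        rw [← pow_add, show n + 1 + (n + 1) = (n + 1 + 1) + n by ring, pow_add, h, zero_mul]
    have h1 : (x : Module.End K V) ^ n = 0 := by
      have := congrArg (fun s : S => (s : Module.End K V)) hn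
      simpa using this
    apply Subtype.ext
    apply key n x x.2.1
    rw [pow_succ, h1, zero_mul]
  obtain ⟨g, hg, hgd⟩ := exists_torGL A δ hδ hδu
  obtain ⟨δ', hδ'⟩ : ∃ δ' : Module.End K V, δ' = (g⁻¹).toLinearMap := ⟨_, rfl⟩
  have hδ'A : δ' ∈ A := by rw [hδ']; exact hg.2
  have hdd' : δ * δ' = 1 := by
    rw [← hgd, hδ']
    apply LinearMap.ext
    intro v
    exact LinearEquiv.apply_symm_apply g v
  have hδ's : IsAdj f δ' δ' := A3_adj_inv hδs hdd' hdd'
  have h12 : IsAdj f ((2 : K)⁻¹ • (1 : Module.End K V)) ((2 : K)⁻¹ • 1) := by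
    have h1 := A3_adj_smul (V := V) hf (2 : K)⁻¹
    rwa [map_inv₀, map_ofNat] at h1
  obtain ⟨x, y, hxy⟩ := A3_ring S
    (IsUnit.of_mul_eq_one (⟨(2 : K)⁻¹ • 1, A.smul_mem A.one_mem _, h12⟩ : S) (by
      apply Subtype.ext
      change (2 : Module.End K V) * ((2 : K)⁻¹ • 1) = 1
      rw [mul_smul_comm, mul_one]
      have h2 : (2 : Module.End K V) = (2 : K) • 1 := by
        rw [ofNat_smul_eq_nsmul, nsmul_eq_mul, mul_one]
        rfl
      rw [h2, smul_smul, inv_mul_cancel₀ two, one_smul]))
    (⟨δ, hδ, hδs⟩ : S) (⟨c, hc, hcs⟩ : S)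
    (IsUnit.of_mul_eq_one (⟨δ', hδ'A, hδ's⟩ : S) (Subtype.ext hdd'))
  exact ⟨x, x.2.1, y, y.2.1, x.2.2, y.2.2, congrArg (fun s : S => (s : Module.End K V)) hxy⟩

theorem A4_key (two : (2 : K) ≠ 0) (σ : K →+* K) (ε : K) (f : V → V → K) (hf : IsHF σ ε f)
    (A : Subalgebra K (Module.End K V)) (hA : IsTor f A)
    (c : Module.End K V) (hc : c ∈ A) (hcu : IsUnit c) (hcs : IsAdj f c c)
    (hdet : (∀ k, σ k = k) → ∃ r : K, LinearMap.det c = r * r) :
    ∃ a ∈ A, ∃ a' ∈ A, IsUnit a ∧ IsAdj f a a' ∧ a' * a = c := by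
  by_cases hsk : ∃ d ∈ A, IsUnit d ∧ IsAdj f d (-d)
  · obtain ⟨d, hd, hdu, hds⟩ := hsk
    exact star_surj two σ ε f hf A hA d hd hdu hds c hc hcu hcs
  have hσ : ∀ k, σ k = k := by
    by_contra h
    push Not at h
    exact hsk (exists_skew_unit two σ ε f hf A hA (Or.inl h))
  obtain ⟨d, hd, hds, hdr⟩ := hA.skew
  obtain ⟨hdis, hsup⟩ := A3_compl A hA.toIsTorGL d hd
  have hsum := LinearMap.finrank_range_add_finrank_ker d
  have hk1 : finrank K (LinearMap.ker d) = 1 := by
    have h1 : finrank K (LinearMap.ker d) ≠ 0 := by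
      intro h0
      apply hsk
      exact ⟨d, hd, (LinearMap.isUnit_iff_ker_eq_bot d).2 (Submodule.finrank_eq_zero.1 h0), hds⟩
    omega
  have hcomm := hA.comm
  obtain ⟨e, he, hee, hr⟩ := stable_eq A hA.toIsTorGL (LinearMap.ker d) (by
    intro a ha v hv
    rw [LinearMap.mem_ker] at hv ⊢
    rw [← Module.End.mul_apply, hcomm d hd a ha, Module.End.mul_apply, hv, map_zero])
  have hde : d * e = 0 := by
    apply LinearMap.ext
    intro v
    have h1 : e v ∈ LinearMap.ker d := by rw [← hr]; exact LinearMap.mem_range_self e v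
    exact h1
  obtain ⟨e', he', hadje⟩ := hA.star e he
  have hes : IsAdj f e e := by
    -- `e' d = 0`
    have h1 : IsAdj f (d * e) (e' * (-d)) := A3_adj_mul hds hadje
    rw [hde] at h1
    have h2 : e' * d = 0 := by
      apply LinearMap.ext
      intro w
      apply A3_nondeg_right hf
      intro v
      have h3 := h1 v w
      rw [LinearMap.zero_apply, A3_zero_left hf, mul_neg, LinearMap.neg_apply,
        A3_neg_right hf] at h3
      exact neg_eq_zero.1 h3.symm
    have h3 : e * e' = e' := by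
      apply LinearMap.ext
      intro v
      have h4 : e' v ∈ LinearMap.range e := by
        rw [hr, LinearMap.mem_ker, ← Module.End.mul_apply, hcomm d hd e' he', h2]
        rfl
      obtain ⟨w, hw⟩ := h4
      rw [Module.End.mul_apply, ← hw, ← Module.End.mul_apply, hee]
    have h4 : IsAdj f (e * e') (e * e') := A3_adj_mul hadje (A3_adj_symm hf hadje)
    rw [h3] at h4
    -- `e'` is selfadjoint with adjoint `e`
    have h5 : e = e' := by
      apply LinearMap.ext
      intro w
      apply sub_eq_zero.1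
      apply A3_nondeg_right hf
      intro v
      rw [A3_sub_right hf, ← A3_adj_symm hf hadje, ← h4, sub_self]
    rw [← h5] at h4
    exact h4
  -- the unit `d² + e`
  obtain ⟨δ, hδ⟩ : ∃ δ : Module.End K V, δ = d * d + e := ⟨_, rfl⟩
  have hδA : δ ∈ A := by rw [hδ]; exact A.add_mem (A.mul_mem hd hd) he
  have hδs : IsAdj f δ δ := by
    have h1 := A3_adj_mul hds hds
    rw [neg_mul_neg] at h1
    rw [hδ]
    exact A3_adj_add hf h1 hes
  have hδu : IsUnit δ := by
    rw [LinearMap.isUnit_iff_ker_eq_bot, LinearMap.ker_eq_bot']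
    intro v hv
    have h1 : e * δ = e := by
      rw [hδ, mul_add, hee, ← mul_assoc, hcomm e he d hd, hde, zero_mul, zero_add]
    have h2 : e v = 0 := by
      rw [← h1, Module.End.mul_apply, hv, map_zero]
    rw [hδ, LinearMap.add_apply, h2, add_zero, Module.End.mul_apply] at hv
    have h3 : d v = 0 := by
      rw [Submodule.disjoint_def] at hdis
      exact hdis (d v) (LinearMap.mem_ker.2 hv) (LinearMap.mem_range_self d v)
    have h4 : v ∈ LinearMap.range e := by rw [hr]; exact LinearMap.mem_ker.2 h3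
    obtain ⟨w, rfl⟩ := h4
    rw [← Module.End.mul_apply, hee] at h2
    exact h2
  obtain ⟨x, hx, y, hy, hxs, hys, hxy⟩ := A4_solve two σ ε f hf A hA δ hδA hδu hδs c hc hcs
  -- the scalar `c0`
  have hr1 : finrank K (LinearMap.range e) = 1 := by rw [hr]; exact hk1
  obtain ⟨c0, hc0, hce⟩ : ∃ c0 : K, c0 ≠ 0 ∧ c * e = c0 • e := by
    obtain ⟨v0, hv0, hgen⟩ := finrank_eq_one_iff'.1 hr1
    have h1 : c (v0 : V) ∈ LinearMap.range e := by
      obtain ⟨w, hw⟩ := v0.2
      refine ⟨c w, ?_⟩
      rw [← hw, ← Module.End.mul_apply, ← Module.End.mul_apply, hcomm e he c hc]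
    obtain ⟨c0, hc0⟩ := hgen ⟨c v0, h1⟩
    have hc0' : c0 • (v0 : V) = c v0 := congrArg Subtype.val hc0
    refine ⟨c0, ?_, ?_⟩
    · intro h0
      rw [h0, zero_smul] at hc0'
      have hb : Function.Bijective c := (Module.End.isUnit_iff c).1 hcu
      apply hv0
      apply Subtype.ext
      apply hb.1
      rw [← hc0']
      exact (map_zero c).symm
    · apply LinearMap.ext
      intro v
      obtain ⟨k, hk⟩ := hgen ⟨e v, LinearMap.mem_range_self e v⟩
      have hk' : k • (v0 : V) = e v := congrArg Subtype.val hk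
      rw [Module.End.mul_apply, LinearMap.smul_apply, ← hk', map_smul, ← hc0', smul_comm]
  -- work in the commutative ring `A`
  let cr : CommRing A :=
    { (inferInstance : Ring A) with
      mul_comm := fun a b => Subtype.ext (hA.comm a.1 a.2 b.1 b.2) }
  have p1 : (⟨e, he⟩ : A) * ⟨e, he⟩ = ⟨e, he⟩ := Subtype.ext hee
  have p2 : (⟨d, hd⟩ : A) * ⟨e, he⟩ = 0 := Subtype.ext hde
  have p3 : (⟨x, hx⟩ : A) * ⟨x, hx⟩ - (⟨d, hd⟩ * ⟨d, hd⟩ + ⟨e, he⟩) * (⟨y, hy⟩ * ⟨y, hy⟩) =
      (⟨c, hc⟩ : A) := by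
    apply Subtype.ext
    change x * x - (d * d + e) * (y * y) = c
    rw [← hδ]
    exact hxy
  have q : ∀ s : K, (s • e + ((1 - e) * x - y * d)) * (s • e + ((1 - e) * x + y * d)) =
      (s * s) • e + (1 - e) * c := by
    intro s
    have h1 := A4_alg3 (⟨s • 1, A.smul_mem A.one_mem s⟩ : A) p1 p2 p3
    have h2 : (s • (1 : Module.End K V) * e + ((1 - e) * x - y * d)) *
        (s • (1 : Module.End K V) * e + ((1 - e) * x + y * d)) =
        s • (1 : Module.End K V) * s • (1 : Module.End K V) * e + (1 - e) * c :=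
      congrArg (fun a : A => (a : Module.End K V)) h1
    rw [smul_mul_assoc, one_mul, smul_mul_smul_comm, one_mul, smul_mul_assoc, one_mul] at h2
    exact h2
  obtain ⟨a1, ha1⟩ : ∃ a1 : Module.End K V, a1 = (1 - e) * x + y * d := ⟨_, rfl⟩
  obtain ⟨a1', ha1'⟩ : ∃ a1' : Module.End K V, a1' = (1 - e) * x - y * d := ⟨_, rfl⟩
  rw [← ha1, ← ha1'] at q
  have ha1A : a1 ∈ A := by
    rw [ha1]
    exact A.add_mem (A.mul_mem (A.sub_mem A.one_mem he) hx) (A.mul_mem hy hd)
  have ha1A' : a1' ∈ A := by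
    rw [ha1']
    exact A.sub_mem (A.mul_mem (A.sub_mem A.one_mem he) hx) (A.mul_mem hy hd)
  have hadj1 : IsAdj f a1 a1' := by
    have h1 : IsAdj f (1 - e) (1 - e) := by
      have h4 := A3_adj_add hf A3_adj_one (A3_adj_neg hf hes)
      rw [← sub_eq_add_neg] at h4
      exact h4
    have h2 := A3_adj_add hf (A3_adj_mul h1 hxs) (A3_adj_mul hys hds)
    rw [hcomm x hx (1 - e) (A.sub_mem A.one_mem he), neg_mul, hcomm d hd y hy,
      ← sub_eq_add_neg, ← ha1, ← ha1'] at h2
    exact h2
  have hadjs : ∀ s : K, IsAdj f (s • e + a1) (s • e + a1') := by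
    intro s
    have h1 := A3_adj_mul (A3_adj_smul (V := V) hf s) hes
    rw [hσ, smul_mul_assoc, one_mul, mul_smul_comm, mul_one] at h1
    exact A3_adj_add hf h1 hadj1
  -- `c0` is a square
  obtain ⟨r, hr2⟩ := hdet hσ
  have hfac : ((1 : K) • e + a1') * ((1 : K) • e + a1) * (c0 • e + (1 - e)) = c := by
    have h1 := q 1
    simp only [one_smul, one_mul] at h1 ⊢
    rw [h1]
    have h2 : (1 - e) * c = c - c0 • e := by
      rw [sub_mul, one_mul, hcomm e he c hc, hce]
    have q1 : (1 - e) * e = 0 := by rw [sub_mul, one_mul, hee, sub_self]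
    have q2 : e * (1 - e) = 0 := by rw [mul_sub, mul_one, hee, sub_self]
    have q3 : (1 - e) * (1 - e) = 1 - e := by rw [mul_sub, mul_one, q1, sub_zero]
    have q4 : (1 - e) * c * (1 - e) = (1 - e) * c := by
      rw [mul_assoc, hcomm c hc (1 - e) (A.sub_mem A.one_mem he), ← mul_assoc, q3]
    have q5 : (1 - e) * c * e = 0 := by
      rw [mul_assoc, hcomm c hc e he, ← mul_assoc, q1, zero_mul]
    rw [add_mul, mul_add, mul_add, mul_smul_comm, mul_smul_comm, hee, q2, q4, q5, smul_zero,
      add_zero, zero_add, h2]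
    abel
  obtain ⟨s, hs⟩ : ∃ s : K, c0 = s * s := by
    have h1 := congrArg LinearMap.det hfac
    rw [map_mul, map_mul, A4_det_e e hee hr1, hr2, A4_gram hf _ _ (hadjs 1), hσ] at h1
    obtain ⟨m, hm⟩ : ∃ m : K, m = LinearMap.det ((1 : K) • e + a1') := ⟨_, rfl⟩
    rw [← hm] at h1
    have hm0 : m ≠ 0 := by
      intro h0
      rw [h0, zero_mul, zero_mul, ← hr2] at h1
      exact ((LinearMap.isUnit_iff_isUnit_det c).1 hcu).ne_zero h1.symm
    refine ⟨r / m, ?_⟩
    field_simp
    linear_combination h1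
  refine ⟨s • e + a1, A.add_mem (A.smul_mem he s) ha1A, s • e + a1',
    A.add_mem (A.smul_mem he s) ha1A', ?_, hadjs s, ?_⟩
  · have h1 := q s
    rw [← hs] at h1
    have h2 : c0 • e + (1 - e) * c = c := by
      rw [sub_mul, one_mul, hcomm e he c hc, hce]
      abel
    rw [h2] at h1
    have hcm : Commute (s • e + a1') (s • e + a1) :=
      hcomm _ (A.add_mem (A.smul_mem he s) ha1A') _ (A.add_mem (A.smul_mem he s) ha1A)
    rw [← h1] at hcu
    exact (hcm.isUnit_mul_iff.1 hcu).2
  · rw [q s, ← hs, sub_mul, one_mul, hcomm e he c hc, hce]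
    abel

/-- an isomorphism of the algebras of two tori is induced by an automorphism of `V` -/
theorem A4_g0 {K V : Type} [Field K] [AddCommGroup V] [Module K V] [FiniteDimensional K V]
    (A A' : Subalgebra K (Module.End K V)) (hA : IsTorGL A) (hA' : IsTorGL A') (φ : A ≃ₐ[K] A') :
    ∃ g : V ≃ₗ[K] V, ∀ (a : A) (v : V), g ((a : Module.End K V) v) =
      (φ a : Module.End K V) (g v) := by
  have hE : ∀ (B : Subalgebra K (Module.End K V)), IsTorGL B → ∃ (E : B ≃ₗ[K] V),
      ∀ a b : B, E (a * b) = (a : Module.End K V) (E b) := by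
    intro B hB
    obtain ⟨v0, hinj, hsur⟩ := exists_cyc B hB
    let ψ : B →ₗ[K] V :=
      { toFun := fun a => (a : Module.End K V) v0
        map_add' := fun _ _ => rfl
        map_smul' := fun _ _ => rfl }
    have hb : Function.Bijective ψ := by
      constructor
      · rw [injective_iff_map_eq_zero]
        intro a ha
        exact Subtype.ext (hinj a.1 a.2 ha)
      · intro v
        obtain ⟨a, ha, hav⟩ := hsur v
        exact ⟨⟨a, ha⟩, hav⟩
    exact ⟨LinearEquiv.ofBijective ψ hb, fun a b => rfl⟩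
  obtain ⟨E, hE1⟩ := hE A hA
  obtain ⟨E', hE2⟩ := hE A' hA'
  refine ⟨E.symm.trans (φ.toLinearEquiv.trans E'), ?_⟩
  intro a v
  obtain ⟨b, rfl⟩ := E.surjective v
  rw [← hE1]
  simp only [LinearEquiv.trans_apply, LinearEquiv.symm_apply_apply]
  change E' (φ (a * b)) = (φ a : Module.End K V) (E' (φ b))
  rw [map_mul, hE2]

theorem A4_carries {K V : Type} [Field K] [AddCommGroup V] [Module K V]
    (A A' : Subalgebra K (Module.End K V)) (φ : A ≃ₐ[K] A') (g : V ≃ₗ[K] V)
    (hg : ∀ (a : A) (v : V), g ((a : Module.End K V) v) = (φ a : Module.End K V) (g v)) :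
    CarriesTo g A A' := by
  intro a ha
  have h1 : g.toLinearMap ∘ₗ a ∘ₗ g.symm.toLinearMap = (φ ⟨a, ha⟩ : Module.End K V) := by
    apply LinearMap.ext
    intro v
    change g (a (g.symm v)) = _
    rw [hg ⟨a, ha⟩, LinearEquiv.apply_symm_apply]
  rw [h1]
  exact (φ ⟨a, ha⟩).2

theorem conj_of_SIso (two : (2 : K) ≠ 0) (σ : K →+* K) (ε : K) (f : V → V → K) (hf : IsHF σ ε f)
    (A A' : Subalgebra K (Module.End K V)) (hA : IsTor f A) (hA' : IsTor f A')
    (hS : SIso f A f A') : ∃ g ∈ Isom f, CarriesTo g A A' := by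
  obtain ⟨φ, hφ⟩ := hS
  obtain ⟨g0, hg0⟩ := A4_g0 A A' hA.toIsTorGL hA'.toIsTorGL φ
  obtain ⟨c, hcf, hcd⟩ := A4_exists_c hf g0
  have hcA : c ∈ A := by
    apply cent_eq A hA.toIsTorGL
    intro a ha
    obtain ⟨b, hb, hab⟩ := hA.star a ha
    have hab' := hφ ⟨a, ha⟩ ⟨b, hb⟩ hab
    apply LinearMap.ext
    intro v
    apply sub_eq_zero.1
    apply hf.nondeg
    intro w
    rw [A3_sub_left hf, Module.End.mul_apply, Module.End.mul_apply, ← hcf, hg0 ⟨a, ha⟩, hab',
      ← hg0 ⟨b, hb⟩, hcf, hab, sub_self]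
  have hcs : IsAdj f c c := by
    intro v w
    rw [← hcf, A3_herm' hf, hcf, ← A3_herm' hf]
  have hcu : IsUnit c := by
    rw [LinearMap.isUnit_iff_ker_eq_bot, LinearMap.ker_eq_bot']
    intro v hv
    have h1 : g0 v = 0 := by
      apply hf.nondeg
      intro w
      obtain ⟨u, rfl⟩ := g0.surjective w
      rw [hcf, hv, A3_zero_left hf]
    exact (LinearEquiv.map_eq_zero_iff g0).1 h1
  obtain ⟨a, ha, a', ha', hau, hadj, hac⟩ := A4_key two σ ε f hf A hA c hcA hcu hcs
    (fun hσ => ⟨_, hcd hσ⟩)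
  obtain ⟨h, hh, hha⟩ := exists_torGL A a ha hau
  have hhA : ((h⁻¹ : V ≃ₗ[K] V)).toLinearMap ∈ A := hh.2
  have hh1 : ∀ v : V, a ((h⁻¹ : V ≃ₗ[K] V) v) = v := by
    intro v
    rw [← hha]
    exact LinearEquiv.apply_symm_apply h v
  refine ⟨g0 * h⁻¹, ?_, ?_⟩
  · intro v w
    change f (g0 ((h⁻¹ : V ≃ₗ[K] V) v)) (g0 ((h⁻¹ : V ≃ₗ[K] V) w)) = f v w
    rw [hcf, ← hac, Module.End.mul_apply, hh1, A3_adj_symm hf hadj, hh1]
  · apply A4_carries A A' φ
    intro b v
    change g0 ((h⁻¹ : V ≃ₗ[K] V) ((b : Module.End K V) v)) =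
      (φ b : Module.End K V) (g0 ((h⁻¹ : V ≃ₗ[K] V) v))
    rw [← hg0]
    congr 1
    have h1 := hA.comm _ hhA b.1 b.2
    exact congrArg (fun g : Module.End K V => g v) h1

theorem conj_of_iso (A A' : Subalgebra K (Module.End K V)) (hA : IsTorGL A) (hA' : IsTorGL A')
    (h : Nonempty (A ≃ₐ[K] A')) : ∃ g : V ≃ₗ[K] V, CarriesTo g A A' := by
  obtain ⟨φ⟩ := h
  obtain ⟨g, hg⟩ := A4_g0 A A' hA hA' φ
  exact ⟨g, A4_carries A A' φ g hg⟩

end Pool.Agent.CTO
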