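import Pool.Agent.CTO.A3

/-!
# A6: isometries in a torus have determinant one

`σ = id`, `A` the algebra of a maximal torus (only commutativity, stability under adjoints and the
existence of a skew unit `d` are used). Let `t ∈ A` be an isometry (`t* t = 1`). Then `det t = 1`.
Proof. Let `e ∈ A` be the idempotent with `range e = range (1 + t)`. From `(1 + t)* = t⁻¹ (1 + t)` one gets
`e* = e`. Put `x = e + (1 - e) d`, `a = x + t x*`. Then `t a* = a`, and `a` is injective: if `a v = 0`, then
`(1 + t) e v = 0`, so `e v = 0` (`ker (1 + t)` and `range (1 + t)` are complementary), and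
`2 (1 - e) d v = 0`. So `a` is a unit, and `det t = det a / det a* = 1` (adjoint endomorphisms have the
same determinant).
-/

namespace Pool.Agent.CTO

open Module

variable {K V : Type} [Field K] [Finite K] [AddCommGroup V] [Module K V] [FiniteDimensional K V]

/-- adjoint endomorphisms have conjugate determinants -/
theorem A6_gram {K V : Type} [Field K] [AddCommGroup V] [Module K V] [FiniteDimensional K V]
    {σ : K →+* K} {ε : K} {f : V → V → K} (hf : IsHF σ ε f)
    (S T : Module.End K V) (h : IsAdj f S T) : LinearMap.det S = σ (LinearMap.det T) := by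
  classical
  let b := Module.finBasis K V
  let J : Matrix (Fin (finrank K V)) (Fin (finrank K V)) K := Matrix.of fun i j => f (b i) (b j)
  have sumL : ∀ (s : Finset (Fin (finrank K V))) (c : Fin (finrank K V) → K) (w : V),
      f (∑ i ∈ s, c i • b i) w = ∑ i ∈ s, c i * f (b i) w := by
    intro s c w
    induction s using Finset.induction_on with
    | empty => simp [A3_zero_left hf]
    | insert a s ha ih =>
      rw [Finset.sum_insert ha, Finset.sum_insert ha, hf.add_left, hf.smul_left, ih]
  have sumR : ∀ (s : Finset (Fin (finrank K V))) (c : Fin (finrank K V) → K) (v : V),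
      f v (∑ i ∈ s, c i • b i) = ∑ i ∈ s, σ (c i) * f v (b i) := by
    intro s c v
    induction s using Finset.induction_on with
    | empty => simp [A3_zero_right hf]
    | insert a s ha ih =>
      rw [Finset.sum_insert ha, Finset.sum_insert ha, A3_add_right hf, A3_smul_right hf, ih]
  have e1 : (LinearMap.toMatrix b b S).transpose * J =
      J * (LinearMap.toMatrix b b T).map σ := by
    ext i j
    rw [Matrix.mul_apply, Matrix.mul_apply]
    have h1 : f (S (b i)) (b j) = f (b i) (T (b j)) := h _ _
    have h2 : S (b i) = ∑ k, (LinearMap.toMatrix b b S) k i • b k := by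
      simp only [LinearMap.toMatrix_apply]
      exact (b.sum_repr _).symm
    have h3 : T (b j) = ∑ k, (LinearMap.toMatrix b b T) k j • b k := by
      simp only [LinearMap.toMatrix_apply]
      exact (b.sum_repr _).symm
    rw [h2, h3, sumL, sumR] at h1
    calc ∑ k, (LinearMap.toMatrix b b S).transpose i k * J k j
        = ∑ k, (LinearMap.toMatrix b b S) k i * f (b k) (b j) := rfl
      _ = ∑ k, σ ((LinearMap.toMatrix b b T) k j) * f (b i) (b k) := h1
      _ = ∑ k, J i k * (LinearMap.toMatrix b b T).map σ k j := by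
        apply Finset.sum_congr rfl
        intro k _
        exact mul_comm _ _
  have hJ : J.det ≠ 0 := by
    intro h0
    obtain ⟨v, hv, hvJ⟩ := Matrix.exists_vecMul_eq_zero_iff.2 h0
    apply hv
    have hz : ∑ i, v i • b i = 0 := by
      apply hf.nondeg
      intro w
      rw [← b.sum_repr w, sumR]
      apply Finset.sum_eq_zero
      intro j _
      have h1 := congrFun hvJ j
      rw [Matrix.vecMul, dotProduct] at h1
      rw [sumL]
      have h2 : ∑ i, v i * f (b i) (b j) = 0 := h1
      rw [h2, mul_zero]
    funext i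
    have := congrArg (fun x => b.repr x i) hz
    simpa [Finsupp.single_apply] using this
  have e2 := congrArg Matrix.det e1
  rw [Matrix.det_mul, Matrix.det_mul, Matrix.det_transpose, mul_comm J.det] at e2
  have e3 := mul_right_cancel₀ hJ e2
  rw [← LinearMap.det_toMatrix b S, ← LinearMap.det_toMatrix b T, e3]
  exact (RingHom.map_det σ _).symm

omit [Finite K] [FiniteDimensional K V] in
theorem A6_unique {σ : K →+* K} {ε : K} {f : V → V → K} (hf : IsHF σ ε f)
    {S T T' : Module.End K V} (h : IsAdj f S T) (h' : IsAdj f S T') : T = T' := by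
  apply LinearMap.ext
  intro w
  apply sub_eq_zero.1
  apply A3_nondeg_right hf
  intro v
  rw [A3_sub_right hf, ← h, ← h', sub_self]

theorem det_isom_one (two : (2 : K) ≠ 0) (ε : K) (f : V → V → K) (hf : IsHF (RingHom.id K) ε f)
    (A : Subalgebra K (Module.End K V)) (hA : IsTor f A)
    (d : Module.End K V) (hd : d ∈ A) (hdu : IsUnit d) (hds : IsAdj f d (-d))
    (t : V ≃ₗ[K] V) (ht : t ∈ torGL A) (hti : t ∈ Isom f) : LinearEquiv.det t = 1 := by
  obtain ⟨τ, hτ⟩ : ∃ τ : Module.End K V, τ = t.toLinearMap := ⟨_, rfl⟩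
  obtain ⟨τ', hτ'⟩ : ∃ τ' : Module.End K V, τ' = (t⁻¹).toLinearMap := ⟨_, rfl⟩
  have hτA : τ ∈ A := by rw [hτ]; exact ht.1
  have hτA' : τ' ∈ A := by rw [hτ']; exact ht.2
  have hττ : τ * τ' = 1 := by
    rw [hτ, hτ']
    apply LinearMap.ext
    intro v
    exact LinearEquiv.apply_symm_apply t v
  have hadj : IsAdj f τ τ' := by
    intro v w
    have h1 : w = t ((t⁻¹ : V ≃ₗ[K] V) w) := (LinearEquiv.apply_symm_apply t w).symm
    rw [hτ, hτ']
    conv_lhs => rw [h1]
    exact hti v _
  obtain ⟨u, hu⟩ : ∃ u : Module.End K V, u = 1 + τ := ⟨_, rfl⟩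
  have huA : u ∈ A := by rw [hu]; exact A.add_mem A.one_mem hτA
  have huadj : IsAdj f u (1 + τ') := by
    rw [hu]
    exact A3_adj_add hf A3_adj_one hadj
  have hcomm := hA.comm
  obtain ⟨e, he, hee, hr⟩ := stable_eq A hA.toIsTorGL (LinearMap.range u) (by
    rintro a ha _ ⟨w, rfl⟩
    refine ⟨a w, ?_⟩
    rw [← Module.End.mul_apply, ← Module.End.mul_apply, hcomm u huA a ha])
  have heu : e * u = u := by
    apply LinearMap.ext
    intro v
    have : u v ∈ LinearMap.range e := by rw [hr]; exact LinearMap.mem_range_self u v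
    obtain ⟨w, hw⟩ := this
    rw [Module.End.mul_apply, ← hw, ← Module.End.mul_apply, hee]
  obtain ⟨e', he', hadje⟩ := hA.star e he
  have h1 : (1 + τ') * e' = 1 + τ' := by
    have h2 := A3_adj_mul hadje huadj
    rw [heu] at h2
    exact A6_unique hf h2 huadj
  have h2 : u * e' = u := by
    have h3 := congrArg (fun x => τ * x) h1
    simp only [← mul_assoc] at h3
    have h4 : τ * (1 + τ') = u := by rw [mul_add, mul_one, hττ, hu, add_comm]
    rw [h4] at h3
    exact h3
  have h3 : e' * e = e := by
    apply LinearMap.ext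
    intro v
    have : e v ∈ LinearMap.range u := by rw [← hr]; exact LinearMap.mem_range_self e v
    obtain ⟨w, hw⟩ := this
    rw [Module.End.mul_apply, ← hw, ← Module.End.mul_apply, hcomm e' he' u huA, h2]
  have hes : IsAdj f e e := by
    have h4 := A3_adj_mul (A3_adj_symm hf hadje) hadje
    rw [h3] at h4
    exact h4
  obtain ⟨x, hx⟩ : ∃ x : Module.End K V, x = e + (1 - e) * d := ⟨_, rfl⟩
  obtain ⟨x', hx'⟩ : ∃ x' : Module.End K V, x' = e - (1 - e) * d := ⟨_, rfl⟩
  have hde : d * (1 - e) = (1 - e) * d := by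
    rw [mul_sub, sub_mul, mul_one, one_mul, hcomm d hd e he]
  have h1e : IsAdj f (1 - e) (1 - e) := by
    have h4 := A3_adj_add hf A3_adj_one (A3_adj_neg hf hes)
    rw [← sub_eq_add_neg] at h4
    exact h4
  have hxadj : IsAdj f x x' := by
    have h4 := A3_adj_add hf hes (A3_adj_mul h1e hds)
    rw [neg_mul, hde, ← sub_eq_add_neg, ← hx, ← hx'] at h4
    exact h4
  have hxA : x ∈ A := by
    rw [hx]
    exact A.add_mem he (A.mul_mem (A.sub_mem A.one_mem he) hd)
  have hxA' : x' ∈ A := by
    rw [hx']
    exact A.sub_mem he (A.mul_mem (A.sub_mem A.one_mem he) hd)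
  obtain ⟨a, ha⟩ : ∃ a : Module.End K V, a = x + τ * x' := ⟨_, rfl⟩
  obtain ⟨a', ha'⟩ : ∃ a' : Module.End K V, a' = x' + τ' * x := ⟨_, rfl⟩
  have haadj : IsAdj f a a' := by
    have h4 := A3_adj_add hf hxadj (A3_adj_mul hadj (A3_adj_symm hf hxadj))
    rw [hcomm x hxA τ' hτA', ← ha, ← ha'] at h4
    exact h4
  have hta : τ * a' = a := by
    rw [ha, ha', mul_add, ← mul_assoc, hττ, one_mul, add_comm]
  have hue : (1 - e) * u = 0 := by rw [sub_mul, one_mul, heu, sub_self]
  have hainj : ∀ v, a v = 0 → v = 0 := by
    intro v hv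
    -- multiply by `e`
    have p1 : e * a = u * e := by
      have q1 : e * (1 - e) = 0 := by rw [mul_sub, mul_one, hee, sub_self]
      have q2 : e * x = e := by rw [hx, mul_add, hee, ← mul_assoc, q1, zero_mul, add_zero]
      have q3 : e * x' = e := by rw [hx', mul_sub, hee, ← mul_assoc, q1, zero_mul, sub_zero]
      rw [ha, mul_add, q2, ← mul_assoc, hcomm e he τ hτA, mul_assoc, q3, hu, add_mul, one_mul]
    have p2 : (1 - e) * a = (2 : K) • (d * (1 - e)) := by
      have q1 : (1 - e) * e = 0 := by rw [sub_mul, one_mul, hee, sub_self]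
      have q4 : (1 - e) * (1 - e) = 1 - e := by rw [mul_sub, mul_one, q1, sub_zero]
      have q2 : (1 - e) * x = (1 - e) * d := by
        rw [hx, mul_add, q1, zero_add, ← mul_assoc, q4]
      have q3 : (1 - e) * x' = - ((1 - e) * d) := by
        rw [hx', mul_sub, q1, zero_sub, ← mul_assoc, q4]
      have q5 : (1 - e) * τ = - (1 - e) := by
        have q6 : (1 - e) + (1 - e) * τ = 0 := by
          rw [← hue, hu, mul_add, mul_one]
        exact (neg_eq_of_add_eq_zero_right q6).symm
      have q7 : (1 - e) * (τ * x') = (1 - e) * d := by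
        have q8 : τ * x' = x' * τ := hcomm τ hτA x' hxA'
        rw [q8, ← mul_assoc, q3, neg_mul, mul_assoc, hcomm d hd τ hτA, ← mul_assoc, q5,
          neg_mul, neg_neg]
      rw [ha, mul_add, q2, q7, two_smul, hde]
    have r1 : u (e v) = 0 := by
      have := congrArg (fun g : Module.End K V => g v) p1
      simp only [Module.End.mul_apply] at this
      rw [← this, hv, map_zero]
    have r2 : e v = 0 := by
      obtain ⟨hdis, -⟩ := A3_compl A hA.toIsTorGL u huA
      rw [Submodule.disjoint_def] at hdis
      apply hdis (e v) (LinearMap.mem_ker.2 r1)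
      rw [← hr]
      exact LinearMap.mem_range_self e v
    have r3 : (2 : K) • d ((1 - e) v) = 0 := by
      have := congrArg (fun g : Module.End K V => g v) p2
      simp only [Module.End.mul_apply, LinearMap.smul_apply] at this
      rw [← this, hv, map_zero]
    have r4 : d ((1 - e) v) = 0 := (smul_eq_zero.1 r3).resolve_left two
    have r5 : (1 - e) v = 0 := by
      have hb : Function.Bijective d := (Module.End.isUnit_iff d).1 hdu
      apply hb.1
      rw [r4, map_zero]
    have r6 : (1 - e) v = v - e v := rfl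
    rw [r6, r2, sub_zero] at r5
    exact r5
  have hadet : LinearMap.det a ≠ 0 := by
    have hk : LinearMap.ker a = ⊥ := by
      rw [LinearMap.ker_eq_bot']
      exact hainj
    have := (LinearMap.isUnit_iff_ker_eq_bot a).2 hk
    exact (LinearMap.isUnit_iff_isUnit_det a).1 this |>.ne_zero
  have hd1 : LinearMap.det a = LinearMap.det a' := A6_gram hf a a' haadj
  have hd2 : LinearMap.det τ * LinearMap.det a' = LinearMap.det a := by
    rw [← hta, map_mul]
  rw [← hd1] at hd2
  have hd3 : LinearMap.det τ = 1 := by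
    apply mul_right_cancel₀ hadet
    rw [hd2, one_mul]
  apply Units.ext
  rw [LinearEquiv.coe_det, Units.val_one, ← hd3, hτ]

end Pool.Agent.CTO
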