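import Pool.Agent.CTO.F2
import Pool.Agent.CTO.A6


/-!
# F3: torus algebras over the endomorphism field

`IsExt ε f σ fE`, `A` torus algebra for `f` containing `E`, `m = [E : K]`.
* `lift_isTor`: stability under adjoints from `IsExt.adj`; the skew element `d ∈ A` is skew for `fE`, its
  kernel is an `E`-space of `K`-dimension `≤ 1`, so its `E`-dimension is `≤ 1`.
* `lift_isom`: an `E`-linear isometry of `fE` is an isometry of `f`, and conversely (uniqueness of `fE`:
  `Tr (e fE (g v) (g w)) = f (e g v) (g w) = f (g (e v)) (g w) = f (e v) w = Tr(e fE v w)`; or use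
  `IsExt.adj` with `S = g`, `T = g⁻¹`).
* `lift_tor_map`: `resH` maps `tor σ fE (liftAlg A)` onto `tor (RingHom.id K) f A`. The only point is the
  determinant. `A` has a skew unit (K-level) unless `σ = id`, `ε = 1` and `dim_K V` is odd
  (`exists_skew_unit`, and if `σ ≠ id` there is `κ ∈ E` with `σ κ = - κ ≠ 0`, a skew unit in `A`, and also a
  scalar of `E`). If there is a skew unit in `A`, then by `det_isom_one` every isometry in `A` has
  `K`-determinant `1`, and, if `σ = id`, `E`-determinant `1` (`det_isom_one` over `E` for `liftAlg A`; its skew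
  unit is the same). If `σ = id`, `ε = 1` and `dim_K V = m dim_E V` is odd, then `m` is odd, and for an
  isometry `g` in `liftAlg A` `det_E g = ± 1` and `det_K g = N_{E/K}(det_E g) = (det_E g)^m = det_E g` as
  elements `± 1` (`LinearMap.det_restrictScalars`; `2 ≠ 0`).
* `lift_oddpos`: `σ = id` and `OddPos f A` imply `OddPos fE (liftAlg A)`: idempotents of `liftAlg A` are
  idempotents of `A`, adjoints are the same, and `dim_K = m dim_E`, so `dim_E` is odd if `dim_K` is.
-/

namespace Pool.Agent.CTO

open Module

section aux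

variable {K V : Type} [Field K] [AddCommGroup V] [Module K V]

theorem F3_add_right {σ : K →+* K} {ε : K} {f : V → V → K} (hf : IsHF σ ε f) (u v w : V) :
    f u (v + w) = f u v + f u w := by
  rw [hf.herm (v + w) u, hf.add_left, map_add, mul_add, ← hf.herm v u, ← hf.herm w u]

theorem F3_smul_right {σ : K →+* K} {ε : K} {f : V → V → K} (hf : IsHF σ ε f) (a : K) (v w : V) :
    f v (a • w) = σ a * f v w := by
  rw [hf.herm (a • w) v, hf.smul_left, map_mul, hf.herm w v]
  ring

theorem F3_det_sq [FiniteDimensional K V] (ε : K) (f : V → V → K)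
    (hf : IsHF (RingHom.id K) ε f) (g : V ≃ₗ[K] V) (hg : g ∈ Isom f) :
    LinearMap.det (g : V →ₗ[K] V) * LinearMap.det (g : V →ₗ[K] V) = 1 := by
  classical
  let B : V →ₗ[K] V →ₗ[K] K := LinearMap.mk₂ K f hf.add_left hf.smul_left
    (fun u v w => F3_add_right hf u v w) (fun a v w => F3_smul_right hf a v w)
  have hB : ∀ v w, B v w = f v w := fun v w => rfl
  let b := Module.finBasis K V
  have hsep : B.SeparatingLeft := fun v hv => hf.nondeg v fun w => hv w
  have hdet := (LinearMap.separatingLeft_iff_det_ne_zero b).1 hsep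
  have hcomp : B.compl₁₂ (g : V →ₗ[K] V) (g : V →ₗ[K] V) = B := by
    ext v w
    rw [LinearMap.compl₁₂_apply, hB, hB]
    exact hg v w
  have h1 := LinearMap.toMatrix₂_compl₁₂ b b b b B (g : V →ₗ[K] V) (g : V →ₗ[K] V)
  rw [hcomp] at h1
  have h2 := congrArg Matrix.det h1
  rw [Matrix.det_mul, Matrix.det_mul, Matrix.det_transpose, LinearMap.det_toMatrix] at h2
  have h3 : (LinearMap.toMatrix₂ b b B).det *
      (LinearMap.det (g : V →ₗ[K] V) * LinearMap.det (g : V →ₗ[K] V)) =
      (LinearMap.toMatrix₂ b b B).det * 1 := by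
    rw [mul_one]
    conv_rhs => rw [h2]
    ring
  exact mul_left_cancel₀ hdet h3

end aux

section

variable {K E V : Type} [Field K] [Finite K] [Field E] [Finite E] [Algebra K E] [AddCommGroup V]
  [Module K V] [Module E V] [IsScalarTower K E V] [FiniteDimensional K V]

omit [Finite K] [Finite E] [FiniteDimensional K V] in
theorem F3_lift (A : Subalgebra K (Module.End K V)) (hA : ∀ a ∈ A, ∀ b ∈ A, a * b = b * a)
    (hE : ∀ e : E, Algebra.lsmul K K V e ∈ A) (a : Module.End K V) (ha : a ∈ A) :
    ∃ a' : Module.End E V, a'.restrictScalars K = a := by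
  refine ⟨{ toFun := a, map_add' := a.map_add, map_smul' := ?_ }, ?_⟩
  · intro e v
    have h := LinearMap.congr_fun (hA a ha _ (hE e)) v
    exact h
  · ext v
    rfl

omit [Finite K] in
theorem F3_finrank_range (a : Module.End E V) :
    finrank K (LinearMap.range (a.restrictScalars K)) =
      finrank K E * finrank E (LinearMap.range a) := by
  rw [Module.finrank_mul_finrank K E (LinearMap.range a), LinearMap.range_restrictScalars]
  rfl

theorem lift_isTor (ε : K) (f : V → V → K) (σ : E →+* E) (fE : V → V → E) (hx : IsExt ε f σ fE)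
    (A : Subalgebra K (Module.End K V)) (hA : IsTor f A) (hE : ∀ e : E, Algebra.lsmul K K V e ∈ A) :
    IsTor fE (liftAlg A hE) := by
  have : Module.Finite K E := Module.Finite.of_finite
  refine { toIsTorGL := lift_isTorGL A hA.toIsTorGL hE, star := ?_, skew := ?_ }
  · intro a ha
    obtain ⟨b, hb, hab⟩ := hA.star _ ha
    obtain ⟨b', rfl⟩ := F3_lift A hA.comm hE b hb
    exact ⟨b', hb, (hx.adj a b').1 hab⟩
  · obtain ⟨d, hd, hdd, hr⟩ := hA.skew
    obtain ⟨d', rfl⟩ := F3_lift A hA.comm hE d hd
    refine ⟨d', hd, (hx.adj d' (-d')).1 hdd, ?_⟩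
    rw [F3_finrank_range, ← Module.finrank_mul_finrank K E V] at hr
    have hm : 0 < finrank K E := Module.finrank_pos
    by_contra hc
    push Not at hc
    have h1 : finrank K E * (finrank E (LinearMap.range d') + 2) ≤ finrank K E * finrank E V :=
      Nat.mul_le_mul_left _ (by omega)
    have h2 : finrank K E * (finrank E (LinearMap.range d') + 2) =
      finrank K E * finrank E (LinearMap.range d') + 2 * finrank K E := by ring
    omega

omit [Finite K] [Finite E] [FiniteDimensional K V] in
theorem F3_isAdj_equiv {f : V → V → K} {g : V ≃ₗ[K] V} :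
    IsAdj f (g : Module.End K V) (g.symm : Module.End K V) ↔ g ∈ Isom f := by
  constructor
  · intro h v w
    have h1 := h v (g w)
    rw [LinearEquiv.coe_coe, LinearEquiv.coe_coe, LinearEquiv.symm_apply_apply] at h1
    exact h1
  · intro h v w
    have h1 := h v (g.symm w)
    rw [LinearEquiv.apply_symm_apply] at h1
    exact h1

theorem lift_isom (ε : K) (f : V → V → K) (σ : E →+* E) (fE : V → V → E) (hx : IsExt ε f σ fE)
    (g : V ≃ₗ[E] V) : (resH g : V ≃ₗ[K] V) ∈ Isom f ↔ g ∈ Isom fE := by
  rw [← F3_isAdj_equiv, ← F3_isAdj_equiv]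
  exact hx.adj (g : Module.End E V) (g.symm : Module.End E V)

theorem lift_tor_map [Nontrivial V] (two : (2 : K) ≠ 0) (ε : K) (f : V → V → K)
    (hf : IsHF (RingHom.id K) ε f) (σ : E →+* E) (fE : V → V → E) (hx : IsExt ε f σ fE)
    (A : Subalgebra K (Module.End K V)) (hA : IsTor f A) (hE : ∀ e : E, Algebra.lsmul K K V e ∈ A) :
    (tor σ fE (liftAlg A hE)).map resH = tor (RingHom.id K) f A := by
  have hKE : Module.Finite K E := Module.Finite.of_finite
  have hEV : Module.Finite E V := Module.Finite.of_restrictScalars_finite K E V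
  have hmap := lift_torGL_map A hA.toIsTorGL hE
  have hnorm : ∀ g : V ≃ₗ[E] V, LinearMap.det ((resH g : V ≃ₗ[K] V) : V →ₗ[K] V) =
      Algebra.norm K (LinearMap.det (g : V →ₗ[E] V)) := fun g =>
    LinearMap.det_restrictScalars (R := K) (f := (g : V →ₗ[E] V))
  ext t
  constructor
  · rintro ⟨g, ⟨hg1, hg2, hg3⟩, rfl⟩
    have h1 : (resH g : V ≃ₗ[K] V) ∈ torGL A := by
      rw [← hmap]
      exact Subgroup.mem_map_of_mem _ hg1
    have h2 : (resH g : V ≃ₗ[K] V) ∈ Isom f := (lift_isom ε f σ fE hx g).2 hg2
    refine ⟨h1, h2, fun _ => ?_⟩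
    by_cases hσ : ∀ x, σ x = x
    · have h3 := hg3 hσ
      apply Units.ext
      rw [LinearEquiv.coe_det, hnorm g, ← LinearEquiv.coe_det, h3, Units.val_one, map_one,
        Units.val_one]
    · push Not at hσ
      obtain ⟨k, hk⟩ := hσ
      have hκ0 : k - σ k ≠ 0 := fun h => hk (sub_eq_zero.1 h).symm
      have hκσ : σ (k - σ k) = -(k - σ k) := by
        rw [map_sub, hx.hf.invol]
        ring
      generalize k - σ k = κ at hκ0 hκσ
      have hadjE : IsAdj fE (algebraMap E (Module.End E V) κ)
          (-(algebraMap E (Module.End E V) κ)) := by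
        intro v w
        have e1 : (algebraMap E (Module.End E V) κ) v = κ • v := rfl
        have e2 : (-(algebraMap E (Module.End E V) κ)) w = (-κ) • w := by
          rw [LinearMap.neg_apply, neg_smul]
          rfl
        rw [e1, e2, hx.hf.smul_left, F3_smul_right hx.hf, map_neg, hκσ, neg_neg]
      have hadj := (hx.adj _ _).2 hadjE
      have hres : (algebraMap E (Module.End E V) κ).restrictScalars K =
          Algebra.lsmul K K V κ := by
        ext v
        rfl
      have hunit : IsUnit (Algebra.lsmul K K V κ) := (IsUnit.mk0 κ hκ0).map _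
      have hd := hE κ
      rw [← hres] at hunit hd
      exact det_isom_one two ε f hf A hA _ hd hunit hadj _ h1 h2
  · rintro ⟨ht1, ht2, ht3⟩
    have ht1' := ht1
    rw [← hmap] at ht1'
    obtain ⟨g, hg1, rfl⟩ := ht1'
    have hg2 : g ∈ Isom fE := (lift_isom ε f σ fE hx g).1 ht2
    refine ⟨g, ⟨hg1, hg2, fun hσ => ?_⟩, rfl⟩
    have hσ' : σ = RingHom.id E := RingHom.ext hσ
    have hfE : IsHF (RingHom.id E) (algebraMap K E ε) fE := by
      have := hx.hf
      rwa [hσ'] at this
    have hdetK : LinearMap.det ((resH g : V ≃ₗ[K] V) : V →ₗ[K] V) = 1 := by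
      have := ht3 (fun x => rfl)
      rw [← LinearEquiv.coe_det, this, Units.val_one]
    by_cases hs : ε = -1 ∨ Even (finrank K V)
    · obtain ⟨d, hd, hdu, hdd⟩ := exists_skew_unit two (RingHom.id K) ε f hf A hA (Or.inr hs)
      obtain ⟨d', rfl⟩ := F3_lift A hA.comm hE d hd
      have hdu' : IsUnit d' := by
        rw [Module.End.isUnit_iff] at hdu ⊢
        exact hdu
      have two' : (2 : E) ≠ 0 := by
        intro h
        apply two
        apply (algebraMap K E).injective
        rw [map_zero, ← h]
        exact map_ofNat _ 2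
      exact det_isom_one two' _ fE hfE (liftAlg A hE) (lift_isTor ε f σ fE hx A hA hE) d' hd hdu'
        ((hx.adj _ _).1 hdd) g hg1 hg2
    · push Not at hs
      obtain ⟨_, hodd⟩ := hs
      rw [Nat.not_even_iff_odd, ← Module.finrank_mul_finrank K E V, Nat.odd_mul] at hodd
      have hsq := F3_det_sq _ fE hfE g hg2
      apply Units.ext
      rw [LinearEquiv.coe_det, Units.val_one]
      rcases mul_self_eq_one_iff.1 hsq with h | h
      · exact h
      · exfalso
        rw [hnorm g, h] at hdetK
        have e1 : (-1 : E) = algebraMap K E (-1) := by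
          rw [map_neg, map_one]
        rw [e1, Algebra.norm_algebraMap, hodd.1.neg_one_pow] at hdetK
        apply two
        linear_combination -hdetK

theorem lift_oddpos [Nontrivial V] (ε : K) (f : V → V → K) (σ : E →+* E) (fE : V → V → E)
    (hx : IsExt ε f σ fE) (A : Subalgebra K (Module.End K V)) (hA : IsTor f A)
    (hE : ∀ e : E, Algebra.lsmul K K V e ∈ A) (h : OddPos f A) : OddPos fE (liftAlg A hE) := by
  intro e he e' he' hee hadj hee' hne hmin
  have hinj : ∀ x y : Module.End E V, x.restrictScalars K = y.restrictScalars K → x = y := by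
    intro x y hxy
    ext v
    exact LinearMap.congr_fun hxy v
  have h1 := h (e.restrictScalars K) he (e'.restrictScalars K) he'
    (congrArg (LinearMap.restrictScalars K) hee) ((hx.adj e e').2 hadj)
    (by
      have := congrArg (LinearMap.restrictScalars K) hee'
      exact this)
    (fun h0 => hne (hinj e 0 h0)) (by
      intro a ha haa hae
      obtain ⟨a', rfl⟩ := F3_lift A hA.comm hE a ha
      rcases hmin a' ha (hinj _ _ haa) (hinj _ _ hae) with h2 | h2
      · left
        rw [h2]
        rfl
      · right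
        rw [h2])
  have hKE : Module.Finite K E := Module.Finite.of_finite
  rw [F3_finrank_range, Nat.odd_mul] at h1
  exact h1.2

end

end Pool.Agent.CTO
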