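import Pool.Agent.CTO.P1
import Pool.Agent.CTO.A4

/-!
# Q1: restriction of a torus algebra to a nondegenerate stable subspace

`f` symmetric or alternating, `p ∈ A` a selfadjoint idempotent, `W = range p`, `V = W ⊕ ker p` orthogonal.
* `restr_isHF`: `f` restricted to `W` is nondegenerate.
* `restr_isTor`: adjoints: if `a, a* ∈ A` then their restrictions to `W` are adjoint. Skew element: `d|W`
  where `d` is the skew element of `A`; `ker (d|W) ≤ ker d` has dimension `≤ 1`. The rest is
  `restr_isTorGL`.
* `ex_lift_tor`: `t̂` of `ex_lift_torGL` (`t` on `W`, `1` on `ker p`) is an isometry, and its determinant is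
  `det t` (`LinearMap.det` on a direct sum; or `LinearEquiv.det` and `Submodule.prodEquivOfIsCompl`).
* `ex_lift_sup_F`: closure induction as in P1.
* `crit_restr`: a selfadjoint idempotent of `restr A W` is the restriction of `e1 = a p ∈ A` (take `a` with
  `a|W = ` it), which is a selfadjoint idempotent of `A` (`a p` maps `V = W ⊕ W^⊥` as `ē ⊕ 0`), and
  `range (e1|W)`, a subspace of `W`, corresponds to `range e1` isometrically; transport `IsoSp` and `SIso`
  (`restr (restr A W) (range ē)` with the form `resF (resF f W) (range ē)` is isomorphic to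
  `restr A (range e1)` with `resF f (range e1)`).
* `oddpos_restr`: an idempotent `ē` of `restr A W` with adjoint `ē'`, `ē ē' = 0`, corresponds to `e1 ∈ A` with
  adjoint `e1'`; primitive if `ē` is; same rank.
* `siso_of_crit`: by `conj_of_SIso` there is an isometry `g` carrying `A` to `A'`. Let `p'' = g⁻¹ p' g ∈ A`
  (`g⁻¹ A' g = A` by dimensions), a selfadjoint idempotent, `g` maps `range p''` isometrically onto
  `range p'` and carries `restr A (range p'')` to `restr A' (range p')`. So `range p'' ≅ range p' ≅ range p`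
  isometrically, `Crit` gives `SIso` for `range p` and `range p''`, and compose.
-/

namespace Pool.Agent.CTO

open Module


section q1help

variable {K V : Type} [Field K] [AddCommGroup V] [Module K V]

theorem q1_add_right {ε : K} {f : V → V → K} (hf : IsHF (RingHom.id K) ε f) (u v w : V) :
    f u (v + w) = f u v + f u w := by
  rw [hf.herm (v + w) u, hf.herm v u, hf.herm w u, hf.add_left]
  simp [mul_add]

theorem q1_smul_right {ε : K} {f : V → V → K} (hf : IsHF (RingHom.id K) ε f) (a : K) (v w : V) :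
    f v (a • w) = a * f v w := by
  rw [hf.herm (a • w) v, hf.herm w v, hf.smul_left]
  simp only [RingHom.id_apply]
  ring

theorem q1_zero_left {ε : K} {f : V → V → K} (hf : IsHF (RingHom.id K) ε f) (v : V) :
    f 0 v = 0 := by
  have h := hf.smul_left 0 0 v
  rw [zero_smul, zero_mul] at h
  exact h

theorem q1_zero_right {ε : K} {f : V → V → K} (hf : IsHF (RingHom.id K) ε f) (v : V) :
    f v 0 = 0 := by
  have h := q1_smul_right hf 0 v 0
  rw [zero_smul, zero_mul] at h
  exact h

theorem q1_neg_right {ε : K} {f : V → V → K} (hf : IsHF (RingHom.id K) ε f) (v w : V) :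
    f v (-w) = - f v w := by
  have h := q1_smul_right hf (-1) v w
  rw [neg_one_smul, neg_one_mul] at h
  exact h

theorem q1_neg_left {ε : K} {f : V → V → K} (hf : IsHF (RingHom.id K) ε f) (v w : V) :
    f (-v) w = - f v w := by
  have h := hf.smul_left (-1) v w
  rw [neg_one_smul, neg_one_mul] at h
  exact h

theorem q1_sub_right {ε : K} {f : V → V → K} (hf : IsHF (RingHom.id K) ε f) (u v w : V) :
    f u (v - w) = f u v - f u w := by
  rw [sub_eq_add_neg, q1_add_right hf, q1_neg_right hf, sub_eq_add_neg]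

theorem q1_sub_left {ε : K} {f : V → V → K} (hf : IsHF (RingHom.id K) ε f) (u v w : V) :
    f (u - v) w = f u w - f v w := by
  rw [sub_eq_add_neg, hf.add_left, q1_neg_left hf, sub_eq_add_neg]

theorem q1_eps_sq {ε : K} {f : V → V → K} (hf : IsHF (RingHom.id K) ε f) : ε * ε = 1 := by
  rcases hf.eps with h | h <;> rw [h] <;> ring

theorem q1_eps_ne {ε : K} {f : V → V → K} (hf : IsHF (RingHom.id K) ε f) : ε ≠ 0 := by
  intro h
  have := q1_eps_sq hf
  rw [h, zero_mul] at this
  exact zero_ne_one this

theorem q1_nondeg_right {ε : K} {f : V → V → K} (hf : IsHF (RingHom.id K) ε f) (w : V)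
    (h : ∀ v, f v w = 0) : w = 0 := by
  apply hf.nondeg
  intro v
  rw [hf.herm v w, h v]
  simp

theorem q1_adj_symm {ε : K} {f : V → V → K} (hf : IsHF (RingHom.id K) ε f) {a b : Module.End K V}
    (h : IsAdj f a b) : IsAdj f b a := by
  intro v w
  rw [hf.herm w (b v), hf.herm (a w) v, h w v]

theorem q1_adj_mul {f : V → V → K} {a b a' b' : Module.End K V}
    (h : IsAdj f a a') (h' : IsAdj f b b') : IsAdj f (a * b) (b' * a') := by
  intro v w
  rw [Module.End.mul_apply, Module.End.mul_apply, h, h']

theorem q1_adj_add {ε : K} {f : V → V → K} (hf : IsHF (RingHom.id K) ε f)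
    {a b a' b' : Module.End K V}
    (h : IsAdj f a a') (h' : IsAdj f b b') : IsAdj f (a + b) (a' + b') := by
  intro v w
  rw [LinearMap.add_apply, LinearMap.add_apply, hf.add_left, q1_add_right hf, h, h']

theorem q1_adj_sub {ε : K} {f : V → V → K} (hf : IsHF (RingHom.id K) ε f)
    {a b a' b' : Module.End K V}
    (h : IsAdj f a a') (h' : IsAdj f b b') : IsAdj f (a - b) (a' - b') := by
  intro v w
  rw [LinearMap.sub_apply, LinearMap.sub_apply, q1_sub_left hf, q1_sub_right hf, h, h']

theorem q1_adj_one (f : V → V → K) : IsAdj f 1 1 := by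
  intro v w
  rfl

theorem q1_adj_unique {ε : K} {f : V → V → K} (hf : IsHF (RingHom.id K) ε f)
    {a b b' : Module.End K V} (h : IsAdj f a b) (h' : IsAdj f a b') : b = b' := by
  apply LinearMap.ext
  intro w
  have h0 : b w - b' w = 0 := by
    apply q1_nondeg_right hf
    intro v
    rw [q1_sub_right hf, ← h, ← h', sub_self]
  exact sub_eq_zero.mp h0

/-- `a ∈ A` preserves `range p`. -/
theorem q1_stab {A : Subalgebra K (Module.End K V)} (hA : IsTorGL A) {p : Module.End K V}
    (hpA : p ∈ A) {a : Module.End K V} (ha : a ∈ A) :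
    ∀ v ∈ LinearMap.range p, a v ∈ LinearMap.range p := by
  rintro _ ⟨v, rfl⟩
  refine ⟨a v, ?_⟩
  have h := hA.comm p hpA a ha
  exact LinearMap.congr_fun h v

theorem q1_fix {p : Module.End K V} (hp : p * p = p) (v : V) (hv : v ∈ LinearMap.range p) :
    p v = v := by
  obtain ⟨w, rfl⟩ := hv
  exact LinearMap.congr_fun hp w

theorem q1_mem_restr {A : Subalgebra K (Module.End K V)} {W : Submodule K V}
    {x : Module.End K W} : x ∈ restr A W ↔ ∃ a ∈ A, ∀ w : W, ((x w : W) : V) = a w := Iff.rfl

theorem q1_exists_restr {A : Subalgebra K (Module.End K V)} (W : Submodule K V)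
    {a : Module.End K V} (ha : a ∈ A) (hW : ∀ v ∈ W, a v ∈ W) :
    ∃ x ∈ restr A W, ∀ w : W, ((x w : W) : V) = a w :=
  ⟨a.restrict hW, ⟨a, ha, fun _ => rfl⟩, fun _ => rfl⟩

theorem q1_ex_iota (W : Submodule K V) (U : Submodule K W) (U' : Submodule K V)
    (h : U.map W.subtype = U') :
    ∃ ι : U ≃ₗ[K] U', ∀ u : U, ((ι u : U') : V) = ((u : W) : V) := by
  subst h
  exact ⟨W.equivSubtypeMap U, fun u => rfl⟩

theorem q1_restr_restr {A : Subalgebra K (Module.End K V)} (hA : IsTorGL A) {p : Module.End K V}
    (hpA : p ∈ A) (U : Submodule K (LinearMap.range p)) (U' : Submodule K V)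
    (ι : U ≃ₗ[K] U') (hι : ∀ u : U, ((ι u : U') : V) = ((u : LinearMap.range p) : V)) :
    restr (restr A (LinearMap.range p)) U = pull ι (restr A U') := by
  ext x
  rw [mem_pull, q1_mem_restr, q1_mem_restr]
  constructor
  · rintro ⟨y, ⟨a, ha, hy⟩, hx⟩
    refine ⟨a, ha, fun u => ?_⟩
    rw [LinearMap.comp_apply, LinearMap.comp_apply]
    show ((ι (x (ι.symm u)) : U') : V) = a u
    rw [hι, hx, hy, ← hι, LinearEquiv.apply_symm_apply]
  · rintro ⟨a, ha, hx⟩
    obtain ⟨y, hy, hya⟩ := q1_exists_restr (LinearMap.range p) ha (q1_stab hA hpA ha)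
    refine ⟨y, hy, fun u => ?_⟩
    apply Subtype.ext
    rw [hya, ← hι, ← hι]
    have := hx (ι u)
    rw [LinearMap.comp_apply, LinearMap.comp_apply] at this
    change ((ι (x (ι.symm (ι u))) : U') : V) = _ at this
    rw [LinearEquiv.symm_apply_apply] at this
    exact this

/-- An idempotent of `restr A (range p)` comes from an idempotent of `A`. -/
theorem q1_idem {A : Subalgebra K (Module.End K V)} (hA : IsTorGL A) {p : Module.End K V}
    (hpA : p ∈ A) (hp : p * p = p) (x : Module.End K (LinearMap.range p))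
    (hx : x ∈ restr A (LinearMap.range p)) :
    ∃ a ∈ A, a * p = a ∧ p * a = a ∧ (∀ w : LinearMap.range p, ((x w : LinearMap.range p) : V) = a w) ∧
      (LinearMap.range x).map (LinearMap.range p).subtype = LinearMap.range a := by
  obtain ⟨a, ha, hxa⟩ := hx
  have hc := hA.comm p hpA a ha
  refine ⟨a * p, A.mul_mem ha hpA, by rw [mul_assoc, hp], by rw [← mul_assoc, hc, mul_assoc, hp],
    fun w => ?_, ?_⟩
  · rw [hxa, Module.End.mul_apply, q1_fix hp _ w.2]
  · ext v
    simp only [Submodule.mem_map, LinearMap.mem_range, Submodule.subtype_apply]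
    constructor
    · rintro ⟨_, ⟨w, rfl⟩, rfl⟩
      exact ⟨w, by rw [hxa, Module.End.mul_apply, q1_fix hp _ w.2]⟩
    · rintro ⟨w, rfl⟩
      exact ⟨x ⟨p w, w, rfl⟩, ⟨_, rfl⟩, by rw [hxa, Module.End.mul_apply]⟩

theorem q1_eq_of_range {p a b : Module.End K V} (ha : a * p = a) (hb : b * p = b)
    (h : ∀ w : LinearMap.range p, a w = b w) : a = b := by
  rw [← ha, ← hb]
  apply LinearMap.ext
  intro v
  rw [Module.End.mul_apply, Module.End.mul_apply]
  exact h ⟨p v, v, rfl⟩

/-- adjoints -/
theorem q1_adj_of {f : V → V → K} {p : Module.End K V}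
    (hps : IsAdj f p p) {x y : Module.End K (LinearMap.range p)} {a b : Module.End K V}
    (ha : a * p = a) (ha' : p * a = a) (hb : b * p = b) (hb' : p * b = b)
    (hxa : ∀ w : LinearMap.range p, ((x w : LinearMap.range p) : V) = a w)
    (hyb : ∀ w : LinearMap.range p, ((y w : LinearMap.range p) : V) = b w)
    (h : IsAdj (resF f (LinearMap.range p)) x y) : IsAdj f a b := by
  intro v w
  have h1 := h ⟨p v, v, rfl⟩ ⟨p w, w, rfl⟩
  simp only [resF] at h1
  rw [hxa, hyb] at h1
  have h2 : a (p v) = a v := LinearMap.congr_fun ha v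
  have h3 : b (p w) = b w := LinearMap.congr_fun hb w
  have h4 : p (a v) = a v := LinearMap.congr_fun ha' v
  have h5 : p (b w) = b w := LinearMap.congr_fun hb' w
  change f (a (p v)) (p w) = f (p v) (b (p w)) at h1
  rw [h2, h3, hps v (b w), h5, ← hps (a v) w, h4] at h1
  exact h1

end q1help

section

variable {K V : Type} [Field K] [Finite K] [AddCommGroup V] [Module K V] [FiniteDimensional K V]

omit [Finite K] [FiniteDimensional K V] in
theorem restr_isHF (ε : K) (f : V → V → K) (hf : IsHF (RingHom.id K) ε f) (p : Module.End K V)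
    (hp : p * p = p) (hps : IsAdj f p p) : IsHF (RingHom.id K) ε (resF f (LinearMap.range p)) where
  invol := hf.invol
  eps := hf.eps
  add_left := fun u v w => hf.add_left u v w
  smul_left := fun a v w => hf.smul_left a v w
  herm := fun v w => hf.herm v w
  nondeg := by
    intro v hv
    apply Subtype.ext
    apply hf.nondeg
    intro w
    have h := hv ⟨p w, w, rfl⟩
    change f v (p w) = 0 at h
    rw [← hps, q1_fix hp _ v.2] at h
    exact h

omit [Finite K] in
theorem restr_isTor (ε : K) (f : V → V → K) (hf : IsHF (RingHom.id K) ε f)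
    (A : Subalgebra K (Module.End K V)) (hA : IsTor f A) (p : Module.End K V) (hpA : p ∈ A)
    (hp : p * p = p) (hps : IsAdj f p p) :
    IsTor (resF f (LinearMap.range p)) (restr A (LinearMap.range p)) where
  toIsTorGL := restr_isTorGL A hA.toIsTorGL p hpA hp
  star := by
    rintro x ⟨a, ha, hxa⟩
    obtain ⟨b, hb, hab⟩ := hA.star a ha
    obtain ⟨y, hy, hyb⟩ := q1_exists_restr (LinearMap.range p) hb (q1_stab hA.toIsTorGL hpA hb)
    refine ⟨y, hy, fun v w => ?_⟩
    simp only [resF]
    rw [hxa, hyb, hab]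
  skew := by
    obtain ⟨d, hd, hds, hdr⟩ := hA.skew
    obtain ⟨x, hx, hxd⟩ := q1_exists_restr (LinearMap.range p) hd (q1_stab hA.toIsTorGL hpA hd)
    refine ⟨x, hx, fun v w => ?_, ?_⟩
    · simp only [resF]
      rw [hxd, hds]
      congr 1
      rw [LinearMap.neg_apply, LinearMap.neg_apply, Submodule.coe_neg, hxd]
    · have h1 := LinearMap.finrank_range_add_finrank_ker d
      have h2 := LinearMap.finrank_range_add_finrank_ker x
      have h3 : finrank K (LinearMap.ker x) ≤ finrank K (LinearMap.ker d) := by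
        have hm : ∀ v ∈ LinearMap.ker x, ((LinearMap.range p).subtype v) ∈ LinearMap.ker d := by
          intro v hv
          rw [LinearMap.mem_ker] at hv ⊢
          rw [Submodule.subtype_apply, ← hxd, hv, Submodule.coe_zero]
        have hinj : Function.Injective ((LinearMap.range p).subtype.restrict hm) := by
          intro v w hvw
          apply Subtype.ext
          apply Subtype.ext
          have := congrArg Subtype.val hvw
          exact this
        exact LinearMap.finrank_le_finrank_of_injective hinj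
      omega

omit [Finite K] in
theorem q1_isCompl (p : Module.End K V) (hp : p * p = p) :
    IsCompl (LinearMap.range p) (LinearMap.ker p) := by
  rw [isCompl_iff, disjoint_iff, codisjoint_iff]
  constructor
  · rw [Submodule.eq_bot_iff]
    rintro v ⟨h1, h2⟩
    rw [← q1_fix hp v h1]
    exact h2
  · rw [Submodule.eq_top_iff']
    intro v
    have h : v = p v + (v - p v) := by abel
    rw [h]
    apply Submodule.add_mem_sup
    · exact ⟨v, rfl⟩
    · rw [LinearMap.mem_ker, map_sub, sub_eq_zero]
      exact (LinearMap.congr_fun hp v).symm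

omit [Finite K] in
theorem q1_det (p : Module.End K V) (hp : p * p = p) (t : LinearMap.range p ≃ₗ[K] LinearMap.range p)
    (t' : V ≃ₗ[K] V) (h1 : ∀ w : LinearMap.range p, t' w = t w) (h2 : ∀ v, p v = 0 → t' v = v) :
    LinearEquiv.det t' = LinearEquiv.det t := by
  apply Units.ext
  rw [LinearEquiv.coe_det, LinearEquiv.coe_det]
  set e := Submodule.prodEquivOfIsCompl (LinearMap.range p) (LinearMap.ker p) (q1_isCompl p hp)
    with he
  have h3 : (t' : V →ₗ[K] V) = (e : _ →ₗ[K] V) ∘ₗ
      (LinearMap.prodMap (t : LinearMap.range p →ₗ[K] LinearMap.range p)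
        (LinearMap.id : LinearMap.ker p →ₗ[K] LinearMap.ker p)) ∘ₗ (e.symm : V →ₗ[K] _) := by
    apply LinearMap.ext
    intro v
    obtain ⟨⟨a, b⟩, rfl⟩ := e.surjective v
    simp only [LinearMap.comp_apply, LinearEquiv.coe_coe, LinearEquiv.symm_apply_apply,
      LinearMap.prodMap_apply, LinearMap.id_apply]
    rw [he, Submodule.coe_prodEquivOfIsCompl', Submodule.coe_prodEquivOfIsCompl', map_add]
    rw [h1, h2 b b.2]
  rw [h3, LinearMap.det_conj, LinearMap.det_prodMap, LinearMap.det_id, mul_one]

omit [Finite K] in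
theorem ex_lift_tor (ε : K) (f : V → V → K) (hf : IsHF (RingHom.id K) ε f)
    (A : Subalgebra K (Module.End K V)) (hA : IsTor f A) (p : Module.End K V) (hpA : p ∈ A)
    (hp : p * p = p) (hps : IsAdj f p p) (t : LinearMap.range p ≃ₗ[K] LinearMap.range p)
    (ht : t ∈ tor (RingHom.id K) (resF f (LinearMap.range p)) (restr A (LinearMap.range p))) :
    ∃ t' ∈ tor (RingHom.id K) f A, (∀ w : LinearMap.range p, t' w = t w) ∧ ∀ v, p v = 0 → t' v = v := by
  obtain ⟨ht1, ht2, ht3⟩ := ht
  obtain ⟨t', h1, h2, h3⟩ := ex_lift_torGL A hA.toIsTorGL p hpA hp t ht1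
  refine ⟨t', ⟨h1, ?_, ?_⟩, h2, h3⟩
  · have key : ∀ v, t' v = t ⟨p v, v, rfl⟩ + (v - p v) := by
      intro v
      have hv : v = p v + (v - p v) := by abel
      conv_lhs => rw [hv]
      rw [map_add, h3 (v - p v) (by
        rw [map_sub, sub_eq_zero]
        exact (LinearMap.congr_fun hp v).symm)]
      rw [← h2 ⟨p v, v, rfl⟩]
    intro v w
    have hz : ∀ (x : LinearMap.range p) (y : V), f x (y - p y) = 0 := by
      intro x y
      rw [← q1_fix hp _ x.2, hps, map_sub, show p (p y) = p y from LinearMap.congr_fun hp y,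
        sub_self, q1_zero_right hf]
    have hz' : ∀ (x : LinearMap.range p) (y : V), f (y - p y) x = 0 := by
      intro x y
      rw [hf.herm x (y - p y), hz]
      simp
    rw [key v, key w, hf.add_left, q1_add_right hf, q1_add_right hf, hz, hz']
    have hi := ht2 ⟨p v, v, rfl⟩ ⟨p w, w, rfl⟩
    simp only [resF] at hi
    rw [hi]
    have hv : f v w = f (p v + (v - p v)) (p w + (w - p w)) := by
      congr 1 <;> abel
    rw [hv, hf.add_left, q1_add_right hf, q1_add_right hf, hz ⟨p v, v, rfl⟩, hz' ⟨p w, w, rfl⟩]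
  · intro hid
    rw [q1_det p hp t t' h2 h3]
    exact ht3 hid

omit [Finite K] in
theorem ex_lift_sup_F (ε : K) (f : V → V → K) (hf : IsHF (RingHom.id K) ε f)
    (A A' : Subalgebra K (Module.End K V)) (hA : IsTor f A) (hA' : IsTor f A')
    (p : Module.End K V) (hpA : p ∈ A) (hpA' : p ∈ A') (hp : p * p = p) (hps : IsAdj f p p)
    (x : LinearMap.range p ≃ₗ[K] LinearMap.range p)
    (hx : x ∈ sq (tor (RingHom.id K) (resF f (LinearMap.range p)) (restr A (LinearMap.range p))) ⊔
      sq (tor (RingHom.id K) (resF f (LinearMap.range p)) (restr A' (LinearMap.range p)))) :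
    ∃ y ∈ sq (tor (RingHom.id K) f A) ⊔ sq (tor (RingHom.id K) f A'),
      (∀ w : LinearMap.range p, y w = x w) ∧ ∀ v, p v = 0 → y v = v := by
  rw [sq, sq, ← Subgroup.closure_union] at hx
  induction hx using Subgroup.closure_induction with
  | mem x hx =>
    rcases hx with ⟨t, ht, rfl⟩ | ⟨t, ht, rfl⟩
    · obtain ⟨t', h1, h2, h3⟩ := ex_lift_tor ε f hf A hA p hpA hp hps t ht
      refine ⟨t' * t', (le_sup_left : sq (tor (RingHom.id K) f A) ≤ _)
        (Subgroup.subset_closure ⟨t', h1, rfl⟩), fun w => ?_, fun v hv => ?_⟩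
      · rw [LinearEquiv.mul_apply, h2, h2, LinearEquiv.mul_apply]
      · rw [LinearEquiv.mul_apply, h3 v hv, h3 v hv]
    · obtain ⟨t', h1, h2, h3⟩ := ex_lift_tor ε f hf A' hA' p hpA' hp hps t ht
      refine ⟨t' * t', (le_sup_right : sq (tor (RingHom.id K) f A') ≤ _)
        (Subgroup.subset_closure ⟨t', h1, rfl⟩), fun w => ?_, fun v hv => ?_⟩
      · rw [LinearEquiv.mul_apply, h2, h2, LinearEquiv.mul_apply]
      · rw [LinearEquiv.mul_apply, h3 v hv, h3 v hv]
  | one => exact ⟨1, one_mem _, fun w => rfl, fun v _ => rfl⟩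
  | mul a b _ _ iha ihb =>
    obtain ⟨a', h1, h2, h3⟩ := iha
    obtain ⟨b', h4, h5, h6⟩ := ihb
    refine ⟨a' * b', mul_mem h1 h4, fun w => ?_, fun v hv => ?_⟩
    · rw [LinearEquiv.mul_apply, h5, h2, LinearEquiv.mul_apply]
    · rw [LinearEquiv.mul_apply, h6 v hv, h3 v hv]
  | inv a _ iha =>
    obtain ⟨a', h1, h2, h3⟩ := iha
    refine ⟨a'⁻¹, inv_mem h1, fun w => ?_, fun v hv => ?_⟩
    · have h7 : a' (a'⁻¹ w) = w := LinearEquiv.apply_symm_apply a' _
      have h8 : a' ((a⁻¹ w : LinearMap.range p) : V) = w := by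
        rw [h2]
        exact congrArg _ (LinearEquiv.apply_symm_apply a w)
      apply a'.injective
      rw [h7, h8]
    · have h7 : a' (a'⁻¹ v) = v := LinearEquiv.apply_symm_apply a' _
      apply a'.injective
      rw [h7, h3 v hv]

omit [Finite K] [FiniteDimensional K V] in
/-- the comparison of `restr (restr A W) (range x)` and `restr A (range a)` -/
theorem q1_compare (ε : K) (f : V → V → K) (hf : IsHF (RingHom.id K) ε f)
    (A : Subalgebra K (Module.End K V)) (hA : IsTor f A) (p : Module.End K V)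
    (hpA : p ∈ A) (hp : p * p = p) (x : Module.End K (LinearMap.range p)) (a : Module.End K V)
    (h : (LinearMap.range x).map (LinearMap.range p).subtype = LinearMap.range a) :
    ∃ ι : LinearMap.range x ≃ₗ[K] LinearMap.range a,
      (∀ u v : LinearMap.range x, f (ι u) (ι v) = resF f (LinearMap.range p) u v) ∧
      SIso (resF (resF f (LinearMap.range p)) (LinearMap.range x))
        (restr (restr A (LinearMap.range p)) (LinearMap.range x))
        (resF f (LinearMap.range a)) (restr A (LinearMap.range a)) ∧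
      SIso (resF f (LinearMap.range a)) (restr A (LinearMap.range a))
        (resF (resF f (LinearMap.range p)) (LinearMap.range x))
        (restr (restr A (LinearMap.range p)) (LinearMap.range x)) := by
  obtain ⟨ι, hι⟩ := q1_ex_iota (LinearMap.range p) (LinearMap.range x) (LinearMap.range a) h
  have h1 := q1_restr_restr hA.toIsTorGL hpA (LinearMap.range x) (LinearMap.range a) ι hι
  have h2 := pull_siso (resF (resF f (LinearMap.range p)) (LinearMap.range x))
    (resF f (LinearMap.range a)) ι (fun v w => by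
      simp only [resF]
      rw [hι, hι]) (restr A (LinearMap.range a))
  rw [← h1] at h2
  refine ⟨ι, fun u v => ?_, h2.1, h2.2⟩
  simp only [resF]
  rw [hι, hι]

omit [Finite K] [FiniteDimensional K V] in
theorem crit_restr (ε : K) (f : V → V → K) (hf : IsHF (RingHom.id K) ε f)
    (A : Subalgebra K (Module.End K V)) (hA : IsTor f A) (hc : Crit f A) (p : Module.End K V)
    (hpA : p ∈ A) (hp : p * p = p) (hps : IsAdj f p p) :
    Crit (resF f (LinearMap.range p)) (restr A (LinearMap.range p)) := by
  intro x hx x' hx' hxx hxs hxx' hxs' hI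
  obtain ⟨a, ha, hap, hpa, hxa, hra⟩ := q1_idem hA.toIsTorGL hpA hp x hx
  obtain ⟨a', ha', hap', hpa', hxa', hra'⟩ := q1_idem hA.toIsTorGL hpA hp x' hx'
  obtain ⟨ι, hι, hs1, hs2⟩ := q1_compare ε f hf A hA p hpA hp x a hra
  obtain ⟨ι', hι', hs1', hs2'⟩ := q1_compare ε f hf A hA p hpA hp x' a' hra'
  have hidem : ∀ (y : Module.End K (LinearMap.range p)) (b : Module.End K V),
      b * p = b → (∀ w : LinearMap.range p, ((y w : LinearMap.range p) : V) = b w) →
      y * y = y → b * b = b := by
    intro y b hb hyb hyy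
    apply q1_eq_of_range (p := p) (by rw [mul_assoc, hb]) hb
    intro w
    rw [Module.End.mul_apply, ← hyb, ← hyb]
    exact congrArg Subtype.val (LinearMap.congr_fun hyy w)
  have haa := hidem x a hap hxa hxx
  have haa' := hidem x' a' hap' hxa' hxx'
  have has := q1_adj_of hps hap hpa hap hpa hxa hxa hxs
  have has' := q1_adj_of hps hap' hpa' hap' hpa' hxa' hxa' hxs'
  obtain ⟨φ, hφ⟩ := hI
  have hI' : IsoSp f (LinearMap.range a) (LinearMap.range a') := by
    refine ⟨ι.symm.trans (φ.trans ι'), fun v w => ?_⟩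
    rw [LinearEquiv.trans_apply, LinearEquiv.trans_apply, LinearEquiv.trans_apply,
      LinearEquiv.trans_apply, hι', hφ, ← hι, LinearEquiv.apply_symm_apply,
      LinearEquiv.apply_symm_apply]
  have hS := hc a ha a' ha' haa has haa' has' hI'
  exact siso_trans _ _ _ _ _ _ hs1 (siso_trans _ _ _ _ _ _ hS hs2')

omit [Finite K] [FiniteDimensional K V] in
theorem oddpos_restr (ε : K) (f : V → V → K) (hf : IsHF (RingHom.id K) ε f)
    (A : Subalgebra K (Module.End K V)) (hA : IsTor f A) (hc : OddPos f A) (p : Module.End K V)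
    (hpA : p ∈ A) (hp : p * p = p) (hps : IsAdj f p p) :
    OddPos (resF f (LinearMap.range p)) (restr A (LinearMap.range p)) := by
  intro x hx x' hx' hxx hxs h0 hne hprim
  obtain ⟨a, ha, hap, hpa, hxa, hra⟩ := q1_idem hA.toIsTorGL hpA hp x hx
  obtain ⟨a', ha', hap', hpa', hxa', hra'⟩ := q1_idem hA.toIsTorGL hpA hp x' hx'
  obtain ⟨ι, hι, hs1, hs2⟩ := q1_compare ε f hf A hA p hpA hp x a hra
  have haa : a * a = a := by
    apply q1_eq_of_range (p := p) (by rw [mul_assoc, hap]) hap
    intro w
    rw [Module.End.mul_apply, ← hxa, ← hxa]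
    exact congrArg Subtype.val (LinearMap.congr_fun hxx w)
  have has := q1_adj_of hps hap hpa hap' hpa' hxa hxa' hxs
  have haa0 : a * a' = 0 := by
    apply q1_eq_of_range (p := p) (by rw [mul_assoc, hap']) (by rw [zero_mul])
    intro w
    rw [Module.End.mul_apply, ← hxa', ← hxa]
    exact congrArg Subtype.val (LinearMap.congr_fun h0 w)
  have hane : a ≠ 0 := by
    intro h
    apply hne
    apply LinearMap.ext
    intro w
    apply Subtype.ext
    rw [hxa, h]
    rfl
  have hprim' : ∀ b ∈ A, b * b = b → b * a = b → b = 0 ∨ b = a := by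
    intro b hb hbb hba
    have hbp : b * p = b := by
      rw [← hba, mul_assoc, hap]
    obtain ⟨y, hy, hyb⟩ := q1_exists_restr (LinearMap.range p) hb (q1_stab hA.toIsTorGL hpA hb)
    have hyy : y * y = y := by
      apply LinearMap.ext
      intro w
      apply Subtype.ext
      rw [Module.End.mul_apply, hyb, hyb]
      exact LinearMap.congr_fun hbb w
    have hyx : y * x = y := by
      apply LinearMap.ext
      intro w
      apply Subtype.ext
      rw [Module.End.mul_apply, hyb, hyb, hxa]
      exact LinearMap.congr_fun hba w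
    rcases hprim y hy hyy hyx with h | h
    · left
      apply q1_eq_of_range (p := p) hbp (by rw [zero_mul])
      intro w
      rw [← hyb, h]
      rfl
    · right
      apply q1_eq_of_range (p := p) hbp hap
      intro w
      rw [← hyb, h, hxa]
  have := hc a ha a' ha' haa has haa0 hane hprim'
  rw [← ι.finrank_eq] at this
  exact this

theorem siso_of_crit (two : (2 : K) ≠ 0) (ε : K) (f : V → V → K) (hf : IsHF (RingHom.id K) ε f)
    (A A' : Subalgebra K (Module.End K V)) (hA : IsTor f A) (hA' : IsTor f A')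
    (hS : SIso f A f A') (hc : Crit f A) (p p' : Module.End K V) (hpA : p ∈ A) (hpA' : p' ∈ A')
    (hp : p * p = p) (hps : IsAdj f p p) (hp' : p' * p' = p') (hps' : IsAdj f p' p')
    (hI : IsoSp f (LinearMap.range p) (LinearMap.range p')) :
    SIso (resF f (LinearMap.range p)) (restr A (LinearMap.range p))
      (resF f (LinearMap.range p')) (restr A' (LinearMap.range p')) := by
  obtain ⟨g, hg, hgA⟩ := conj_of_SIso two (RingHom.id K) ε f hf A A' hA hA' hS
  -- `g⁻¹ A' g ≤ A`
  have hback : ∀ b ∈ A', g.symm.toLinearMap ∘ₗ b ∘ₗ g.toLinearMap ∈ A := by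
    intro b hb
    apply cent_eq A hA.toIsTorGL
    intro a ha
    have h1 := hA'.comm b hb _ (hgA a ha)
    apply LinearMap.ext
    intro v
    have h2 := LinearMap.congr_fun h1 (g v)
    simp only [Module.End.mul_apply, LinearMap.comp_apply, LinearEquiv.coe_coe,
      LinearEquiv.symm_apply_apply] at h2 ⊢
    rw [h2, LinearEquiv.symm_apply_apply]
  set q : Module.End K V := g.symm.toLinearMap ∘ₗ p' ∘ₗ g.toLinearMap with hq
  have hqv : ∀ v, q v = g.symm (p' (g v)) := fun v => rfl
  have hqA : q ∈ A := hback p' hpA'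
  have hqq : q * q = q := by
    apply LinearMap.ext
    intro v
    rw [Module.End.mul_apply, hqv, hqv, LinearEquiv.apply_symm_apply]
    exact congrArg _ (LinearMap.congr_fun hp' (g v))
  have hgs : ∀ v w, f (g.symm v) w = f v (g w) := by
    intro v w
    rw [← hg (g.symm v) w, LinearEquiv.apply_symm_apply]
  have hqs : IsAdj f q q := by
    intro v w
    rw [hqv, hgs, hps', hqv, ← hg v, LinearEquiv.apply_symm_apply]
  have hmap : (LinearMap.range q).map (g : V →ₗ[K] V) = LinearMap.range p' := by
    ext v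
    simp only [Submodule.mem_map, LinearMap.mem_range]
    constructor
    · rintro ⟨_, ⟨w, rfl⟩, rfl⟩
      exact ⟨g w, by rw [hqv, LinearEquiv.coe_coe, LinearEquiv.apply_symm_apply]⟩
    · rintro ⟨w, rfl⟩
      refine ⟨_, ⟨g.symm w, rfl⟩, ?_⟩
      rw [hqv, LinearEquiv.coe_coe, LinearEquiv.apply_symm_apply, LinearEquiv.apply_symm_apply]
  obtain ⟨ψ, hψ⟩ : ∃ ψ : LinearMap.range q ≃ₗ[K] LinearMap.range p',
      ∀ v : LinearMap.range q, ((ψ v : LinearMap.range p') : V) = g v := by
    rw [← hmap]
    exact ⟨g.submoduleMap (LinearMap.range q), fun v => rfl⟩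
  have hψf : ∀ v w : LinearMap.range q, f (ψ v) (ψ w) = f v w := by
    intro v w
    rw [hψ, hψ, hg]
  have hψs : ∀ v : LinearMap.range p', ((ψ.symm v : LinearMap.range q) : V) = g.symm v := by
    intro v
    apply g.injective
    rw [← hψ, LinearEquiv.apply_symm_apply, LinearEquiv.apply_symm_apply]
  have hpull : restr A (LinearMap.range q) = pull ψ (restr A' (LinearMap.range p')) := by
    ext x
    rw [mem_pull, q1_mem_restr, q1_mem_restr]
    constructor
    · rintro ⟨a, ha, hx⟩
      refine ⟨_, hgA a ha, fun u => ?_⟩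
      rw [LinearMap.comp_apply, LinearMap.comp_apply]
      show ((ψ (x (ψ.symm u)) : LinearMap.range p') : V) = g (a (g.symm u))
      rw [hψ, hx, hψs]
    · rintro ⟨b, hb, hx⟩
      refine ⟨_, hback b hb, fun u => ?_⟩
      have h := hx (ψ u)
      rw [LinearMap.comp_apply, LinearMap.comp_apply] at h
      change ((ψ (x (ψ.symm (ψ u))) : LinearMap.range p') : V) = _ at h
      rw [LinearEquiv.symm_apply_apply, hψ, hψ] at h
      show ((x u : LinearMap.range q) : V) = g.symm (b (g u))
      rw [← h, LinearEquiv.symm_apply_apply]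
  have hs := pull_siso (resF f (LinearMap.range q)) (resF f (LinearMap.range p')) ψ
    (fun v w => hψf v w) (restr A' (LinearMap.range p'))
  rw [← hpull] at hs
  obtain ⟨φ, hφ⟩ := hI
  have hI' : IsoSp f (LinearMap.range p) (LinearMap.range q) := by
    refine ⟨φ.trans ψ.symm, fun v w => ?_⟩
    rw [LinearEquiv.trans_apply, LinearEquiv.trans_apply, ← hψf, LinearEquiv.apply_symm_apply,
      LinearEquiv.apply_symm_apply, hφ]
  exact siso_trans _ _ _ _ _ _ (hc p hpA q hqA hp hps hqq hqs hI') hs.1

end

end Pool.Agent.CTO
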