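import Pool.Agent.CTO.A3

/-!
# A8: an element of determinant `-1` in the normalizer of a torus algebra

`f` symmetric, `OddPos f A`. Setting of A7: `v0`, `S`, a primitive idempotent `e` of `S`, `B = e A`,
`S0 = e S`, `ψ(b) = f(b v0, v0)`.
(α) If `e V` has dimension `1`: `n = -1` on `e V`, `1` on `(1-e) V`.
(β) otherwise `e d ≠ 0`, `B = S0 ⊕ S0 δ`, `dim e V = 2 a`, `a = dim_K S0`. If `a` is odd, `n_e` (`b v0 ↦ b* v0` on
`e V`, identity on `(1-e) V`) has determinant `(-1)^a = -1`. Let `a` be even. Then `B` is a field: otherwise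
`B` has a primitive idempotent `e1 ≠ e`, `e1* ≠ e1` (as `e` is primitive in `S`), `e1 e1* = 0`, `e = e1 + e1*`,
and `OddPos` says that `dim e1 V` is odd; but `dim e1 V = dim e1* V = a`. So `L = B` is a field of degree
`2 a` over `K`; `Fr : L → L`, `x ↦ x^q` (`q = |K|`), is a `K`-linear automorphism commuting with `*`. There is
`κ ∈ L` with `ψ(x) = Tr_{L/K}(κ x)`, `κ ≠ 0`, `κ* = κ`. Choose `c ∈ L` with `c c* = Fr(κ) / κ ∈ S0`
(norm surjectivity for `L/S0`, `star_surj`-argument). Let `n (b v0) = c Fr(b) v0` for `b ∈ L`, identity on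
`(1-e) V`. It is an isometry: `ψ((c Fr b')* c Fr b) = Tr(κ c c* Fr(b'* b)) = Tr(Fr(κ) Fr(b'* b)) = Tr(κ b'* b)`.
Wait: `κ c c* = Fr(κ)`, fine. It normalizes `A`: `n a n⁻¹ = Fr(a)` on `e V` for `a ∈ L`, and `a` on
`(1-e)V`. Its determinant: `det n = N_{L/K}(c) det_K(Fr)`, `N_{L/K}(c) = N_{S0/K}(c c*) = N(Fr κ)/N(κ) = 1`
(here `N = N_{S0/K}`, and `κ ∈ S0`), and `det_K(Fr) = -1`: `Fr` has order `2 a = dim L`, its powers
`1, Fr, ..., Fr^(2a-1)` are linearly independent (Dedekind), so its minimal polynomial, and its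
characteristic polynomial, is `X^(2a) - 1`, and `det Fr = (-1)^(2a) * (-1) = -1`. (Or use a normal basis
`IsGalois.normalBasis`: a permutation matrix of a `2a`-cycle.)
-/

namespace Pool.Agent.CTO
open Module

section frob
variable (K L : Type) [Field K] [Finite K] [Field L] [Algebra K L] [FiniteDimensional K L]

lemma A8_det_frob (hn : Even (finrank K L)) :
    ∃ F : L ≃ₐ[K] L, LinearMap.det (F.toLinearMap : L →ₗ[K] L) = -1 ∧ ∀ g : L ≃ₐ[K] L, g * F = F * g := by
  classical
  have := Fintype.ofFinite K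
  have : Finite L := Module.finite_of_finite K
  have : Fintype L := Fintype.ofFinite L
  set F := FiniteField.frobeniusAlgEquivOfAlgebraic K L with hF
  have hbij := FiniteField.bijective_frobeniusAlgEquivOfAlgebraic_pow K L
  have hpow : ∀ g : L ≃ₐ[K] L, ∃ n : ℕ, F ^ n = g := by
    intro g
    obtain ⟨n, hn⟩ := hbij.2 g
    exact ⟨n, hn⟩
  refine ⟨F, ?_, ?_⟩
  · have : Fintype (L ≃ₐ[K] L) := Fintype.ofFinite _
    have h2 : 2 ≤ finrank K L := by
      obtain ⟨k, hk⟩ := hn
      have : 0 < finrank K L := finrank_pos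
      omega
    have hne : F ≠ 1 := by
      intro h
      have h1 := FiniteField.orderOf_frobeniusAlgEquivOfAlgebraic K L
      rw [← hF, h, orderOf_one] at h1
      omega
    set b := IsGalois.normalBasis K L with hb
    have hmat : LinearMap.toMatrix b b (F.toLinearMap : L →ₗ[K] L) =
        ((Equiv.mulLeft F).toPEquiv.toMatrix : Matrix (L ≃ₐ[K] L) (L ≃ₐ[K] L) K).transpose := by
      ext i j
      rw [LinearMap.toMatrix_apply, Matrix.transpose_apply, PEquiv.toMatrix_apply]
      have h1 : (F.toLinearMap : L →ₗ[K] L) (b j) = b (F * j) := by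
        rw [hb, IsGalois.normalBasis_apply (F * j), IsGalois.normalBasis_apply j]
        rfl
      rw [h1, Basis.repr_self, Finsupp.single_apply]
      simp [Equiv.toPEquiv_apply, eq_comm]
    rw [← LinearMap.det_toMatrix b, hmat, Matrix.det_transpose, Matrix.det_permutation]
    have hcyc : (Equiv.mulLeft F : Equiv.Perm (L ≃ₐ[K] L)).IsCycle := by
      refine ⟨1, ?_, ?_⟩
      · simpa using hne
      · intro y hy
        clear hy
        obtain ⟨n, rfl⟩ := hpow y
        refine ⟨n, ?_⟩
        rw [zpow_natCast]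
        induction n with
        | zero => simp
        | succ n ih =>
          rw [pow_succ', Equiv.Perm.mul_apply, ih]
          simp [pow_succ']
    rw [hcyc.sign]
    have hsupp : (Equiv.mulLeft F : Equiv.Perm (L ≃ₐ[K] L)).support = Finset.univ := by
      ext x
      simp [hne]
    rw [hsupp, Finset.card_univ]
    have hcard : Fintype.card (L ≃ₐ[K] L) = finrank K L := by
      rw [← Nat.card_eq_fintype_card]
      exact IsGalois.card_aut_eq_finrank K L
    rw [hcard, hn.neg_one_pow]
    simp
  · intro g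
    obtain ⟨n, rfl⟩ := hpow g
    rw [← pow_succ, ← pow_succ']
end frob

section basic

variable {K V : Type} [Field K] [AddCommGroup V] [Module K V]

lemma A8_symm {f : V → V → K} (hf : IsHF (RingHom.id K) 1 f) (v w : V) : f v w = f w v := by
  have := hf.herm v w
  rw [RingHom.id_apply, one_mul] at this
  exact this.symm

lemma A8_add_right {f : V → V → K} (hf : IsHF (RingHom.id K) 1 f) (u v w : V) :
    f u (v + w) = f u v + f u w := by
  rw [A8_symm hf, hf.add_left, A8_symm hf v, A8_symm hf w]

lemma A8_smul_right {f : V → V → K} (hf : IsHF (RingHom.id K) 1 f) (c : K) (v w : V) :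
    f v (c • w) = c * f v w := by
  rw [A8_symm hf, hf.smul_left, A8_symm hf w]

lemma A8_zero_left {f : V → V → K} (hf : IsHF (RingHom.id K) 1 f) (w : V) : f 0 w = 0 := by
  have := hf.smul_left 0 0 w
  rwa [zero_smul, zero_mul] at this

lemma A8_neg_left {f : V → V → K} (hf : IsHF (RingHom.id K) 1 f) (v w : V) : f (-v) w = - f v w := by
  have := hf.smul_left (-1) v w
  rwa [neg_smul, one_smul, neg_mul, one_mul] at this

lemma A8_sub_left {f : V → V → K} (hf : IsHF (RingHom.id K) 1 f) (u v w : V) :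
    f (u - v) w = f u w - f v w := by
  rw [sub_eq_add_neg, hf.add_left, A8_neg_left hf, sub_eq_add_neg]

lemma A8_sub_right {f : V → V → K} (hf : IsHF (RingHom.id K) 1 f) (u v w : V) :
    f u (v - w) = f u v - f u w := by
  rw [A8_symm hf, A8_sub_left hf, A8_symm hf v, A8_symm hf w]

lemma A8_ext_right {f : V → V → K} (hf : IsHF (RingHom.id K) 1 f) {x y : V}
    (h : ∀ v, f v x = f v y) : x = y := by
  rw [← sub_eq_zero]
  apply hf.nondeg
  intro w
  rw [A8_sub_left hf, A8_symm hf x, A8_symm hf y, h, sub_self]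

lemma A8_adj_symm {f : V → V → K} (hf : IsHF (RingHom.id K) 1 f) {S T : Module.End K V}
    (h : IsAdj f S T) : IsAdj f T S := by
  intro v w
  rw [A8_symm hf, ← h, A8_symm hf]

lemma A8_adj_unique {f : V → V → K} (hf : IsHF (RingHom.id K) 1 f) {S T T' : Module.End K V}
    (h : IsAdj f S T) (h' : IsAdj f S T') : T = T' := by
  ext w
  apply A8_ext_right hf
  intro v
  rw [← h, ← h']

lemma A8_adj_mul {f : V → V → K} {S T S' T' : Module.End K V}
    (h : IsAdj f S T) (h' : IsAdj f S' T') : IsAdj f (S * S') (T' * T) := by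
  intro v w
  rw [Module.End.mul_apply, Module.End.mul_apply, h, h']

lemma A8_adj_add {f : V → V → K} (hf : IsHF (RingHom.id K) 1 f) {S T S' T' : Module.End K V}
    (h : IsAdj f S T) (h' : IsAdj f S' T') : IsAdj f (S + S') (T + T') := by
  intro v w
  rw [LinearMap.add_apply, LinearMap.add_apply, hf.add_left, A8_add_right hf, h, h']

lemma A8_adj_one (f : V → V → K) : IsAdj f (1 : Module.End K V) 1 := fun _ _ => rfl

lemma A8_adj_sub {f : V → V → K} (hf : IsHF (RingHom.id K) 1 f) {S T S' T' : Module.End K V}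
    (h : IsAdj f S T) (h' : IsAdj f S' T') : IsAdj f (S - S') (T - T') := by
  intro v w
  rw [LinearMap.sub_apply, LinearMap.sub_apply, A8_sub_left hf, A8_sub_right hf, h, h']

lemma A8_adj_algebraMap {f : V → V → K} (hf : IsHF (RingHom.id K) 1 f) (c : K) :
    IsAdj f (algebraMap K (Module.End K V) c) (algebraMap K (Module.End K V) c) := by
  intro v w
  rw [Module.algebraMap_end_apply, Module.algebraMap_end_apply, hf.smul_left, A8_smul_right hf]

lemma A8_adj_pow {f : V → V → K} {S : Module.End K V}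
    (h : IsAdj f S S) (n : ℕ) : IsAdj f (S ^ n) (S ^ n) := by
  induction n with
  | zero => rw [pow_zero]; exact A8_adj_one f
  | succ n ih =>
    have := A8_adj_mul ih h
    rwa [← pow_succ, ← pow_succ'] at this


end basic

lemma A8_pow_ring {R : Type} [CommRing R] [Finite R] (hred : ∀ a : R, a * a = 0 → a = 0) (x : R) :
    ∃ m : ℕ, 1 ≤ m ∧ x ^ (m + 1) = x := by
  have hR : IsReduced R := by
    rw [isReduced_iff_pow_one_lt 2 (by norm_num)]
    intro a ha
    exact hred a (by rw [← pow_two]; exact ha)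
  have key : ∀ i j : ℕ, i < j → x ^ i = x ^ j → ∃ m : ℕ, 1 ≤ m ∧ x ^ (m + 1) = x := by
    intro i j hij h
    refine ⟨j - i, by omega, ?_⟩
    have h0 : x ^ i * (1 - x ^ (j - i)) = 0 := by
      rw [mul_sub, mul_one, ← pow_add, show i + (j - i) = j by omega, h, sub_self]
    have h1 : (x * (1 - x ^ (j - i))) ^ (i + 1) = 0 := by
      rw [mul_pow, pow_succ, pow_succ (1 - x ^ (j - i)),
        show x ^ i * x * ((1 - x ^ (j - i)) ^ i * (1 - x ^ (j - i))) =
          (x ^ i * (1 - x ^ (j - i))) * (x * (1 - x ^ (j - i)) ^ i) by ring, h0, zero_mul]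
    have h2 : x * (1 - x ^ (j - i)) = 0 := hR.eq_zero _ ⟨_, h1⟩
    rw [mul_sub, mul_one, ← pow_succ', sub_eq_zero] at h2
    exact h2.symm
  obtain ⟨i, j, hij, h⟩ := Finite.exists_ne_map_eq_of_infinite (fun n : ℕ => x ^ n)
  rcases lt_or_gt_of_ne hij with h1 | h1
  · exact key i j h1 h
  · exact key j i h1 h.symm

section tor

variable {K V : Type} [Field K] [Finite K] [AddCommGroup V] [Module K V] [FiniteDimensional K V]

lemma A8_finEnd : Finite (Module.End K V) := Module.finite_of_finite K

lemma A8_pow {A : Subalgebra K (Module.End K V)} (hA : IsTorGL A) {x : Module.End K V}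
    (hx : x ∈ A) : ∃ m : ℕ, 1 ≤ m ∧ x ^ (m + 1) = x := by
  have : Finite (Module.End K V) := A8_finEnd
  let R : CommRing A := { (inferInstance : Ring A) with
    mul_comm := fun a b => Subtype.ext (hA.comm a a.2 b b.2) }
  obtain ⟨m, hm, h⟩ := @A8_pow_ring A R inferInstance
    (fun a ha => Subtype.ext (hA.red a a.2 (congrArg Subtype.val ha))) ⟨x, hx⟩
  exact ⟨m, hm, by
    have := congrArg Subtype.val h
    simpa using this⟩

/-- a power of `x` is an idempotent and a unit for `x` -/
lemma A8_idem {A : Subalgebra K (Module.End K V)} (hA : IsTorGL A) {x : Module.End K V}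
    (hx : x ∈ A) : ∃ m : ℕ, x ^ m * x ^ m = x ^ m ∧ x ^ m * x = x ∧ 1 ≤ m := by
  obtain ⟨m, hm, h⟩ := A8_pow hA hx
  refine ⟨m, ?_, by rw [← pow_succ, h], hm⟩
  obtain ⟨k, rfl⟩ : ∃ k, m = k + 1 := ⟨m - 1, by omega⟩
  rw [← pow_add, show k + 1 + (k + 1) = (k + 1 + 1) + k by ring, pow_add, h, ← pow_succ']


section restr

variable {f : V → V → K} {A : Subalgebra K (Module.End K V)} {e : Module.End K V}

omit [Finite K] [FiniteDimensional K V] in
lemma A8_pres (hA : IsTorGL A) (he : e ∈ A) {a : Module.End K V} (ha : a ∈ A) :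
    ∀ w ∈ LinearMap.range e, a w ∈ LinearMap.range e := by
  rintro w ⟨v, rfl⟩
  refine ⟨a v, ?_⟩
  rw [← Module.End.mul_apply, hA.comm e he a ha, Module.End.mul_apply]

omit [Finite K] [FiniteDimensional K V] in
lemma A8_fix (hee : e * e = e) (w : LinearMap.range e) : e w = w := by
  obtain ⟨w, v, rfl⟩ := w
  show e (e v) = e v
  rw [← Module.End.mul_apply, hee]

/-- the projection onto the range of `e` -/
def A8_pr (e : Module.End K V) : V →ₗ[K] LinearMap.range e := e.rangeRestrict

omit [Finite K] [FiniteDimensional K V] in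
lemma A8_pr_coe (e : Module.End K V) (v : V) : (A8_pr e v : V) = e v := rfl

omit [Finite K] [FiniteDimensional K V] in
lemma A8_pr_fix (hee : e * e = e) (w : LinearMap.range e) : A8_pr e w = w :=
  Subtype.ext (A8_fix hee w)

/-- extension by zero -/
def A8_ext (e : Module.End K V) (x : Module.End K (LinearMap.range e)) : Module.End K V :=
  (LinearMap.range e).subtype ∘ₗ x ∘ₗ A8_pr e

omit [Finite K] [FiniteDimensional K V] in
lemma A8_ext_apply (x : Module.End K (LinearMap.range e)) (v : V) :
    A8_ext e x v = x (A8_pr e v) := rfl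

omit [Finite K] [FiniteDimensional K V] in
lemma A8_ext_mem (he : e ∈ A) {x : Module.End K (LinearMap.range e)}
    (hx : x ∈ restr A (LinearMap.range e)) : A8_ext e x ∈ A := by
  obtain ⟨a, ha, hxa⟩ := hx
  have : A8_ext e x = a * e := by
    ext v
    rw [A8_ext_apply, hxa, A8_pr_coe, Module.End.mul_apply]
  rw [this]
  exact A.mul_mem ha he

omit [Finite K] [FiniteDimensional K V] in
lemma A8_ext_mul (hee : e * e = e) (x y : Module.End K (LinearMap.range e)) :
    A8_ext e (x * y) = A8_ext e x * A8_ext e y := by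
  ext v
  rw [Module.End.mul_apply, A8_ext_apply, A8_ext_apply, A8_ext_apply, A8_pr_fix hee,
    Module.End.mul_apply]

omit [Finite K] [FiniteDimensional K V] in
lemma A8_ext_inj (hee : e * e = e) {x y : Module.End K (LinearMap.range e)}
    (h : A8_ext e x = A8_ext e y) : x = y := by
  ext w
  have := LinearMap.congr_fun h (w : V)
  rwa [A8_ext_apply, A8_ext_apply, A8_pr_fix hee] at this

omit [Finite K] [FiniteDimensional K V] in
lemma A8_ext_zero : A8_ext e 0 = 0 := by
  ext v
  rfl

omit [Finite K] [FiniteDimensional K V] in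
lemma A8_ext_one : A8_ext e 1 = e := by
  ext v
  rfl

omit [Finite K] [FiniteDimensional K V] in
lemma A8_ext_e (hee : e * e = e) (x : Module.End K (LinearMap.range e)) :
    A8_ext e x * e = A8_ext e x := by
  ext v
  rw [Module.End.mul_apply, A8_ext_apply, A8_ext_apply]
  congr 2
  apply Subtype.ext
  rw [A8_pr_coe, A8_pr_coe, ← Module.End.mul_apply, hee]

omit [Finite K] [FiniteDimensional K V] in
lemma A8_ext_adj (hee : e * e = e) (hes : IsAdj f e e) {x y : Module.End K (LinearMap.range e)}
    (h : IsAdj (resF f (LinearMap.range e)) x y) : IsAdj f (A8_ext e x) (A8_ext e y) := by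
  intro v w
  have h1 := h (A8_pr e v) (A8_pr e w)
  have h2 : f (x (A8_pr e v)) w = f (x (A8_pr e v)) (A8_pr e w) := by
    rw [A8_pr_coe, ← hes, A8_fix hee]
  have h3 : f v (y (A8_pr e w)) = f (A8_pr e v) (y (A8_pr e w)) := by
    rw [A8_pr_coe, hes, A8_fix hee]
  rw [A8_ext_apply, A8_ext_apply, h2, h3]
  exact h1

omit [Finite K] [FiniteDimensional K V] in
lemma A8_res_exists (hA : IsTorGL A) (he : e ∈ A) {a : Module.End K V} (ha : a ∈ A) :
    ∃ x ∈ restr A (LinearMap.range e), ∀ w : LinearMap.range e, ((x w : LinearMap.range e) : V) = a w :=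
  ⟨a.restrict (A8_pres hA he ha), ⟨a, ha, fun _ => rfl⟩, fun _ => rfl⟩

omit [Finite K] [FiniteDimensional K V] in
lemma A8_ext_of_res {a : Module.End K V}
    {x : Module.End K (LinearMap.range e)}
    (hx : ∀ w : LinearMap.range e, ((x w : LinearMap.range e) : V) = a w) : A8_ext e x = a * e := by
  ext v
  rw [A8_ext_apply, hx, A8_pr_coe, Module.End.mul_apply]

omit [Finite K] [FiniteDimensional K V] in
lemma A8_isHF (hf : IsHF (RingHom.id K) 1 f) (hee : e * e = e) (hes : IsAdj f e e) :
    IsHF (RingHom.id K) 1 (resF f (LinearMap.range e)) where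
  invol := hf.invol
  eps := hf.eps
  add_left := fun u v w => hf.add_left u v w
  smul_left := fun a v w => hf.smul_left a v w
  herm := fun v w => hf.herm v w
  nondeg := by
    intro v hv
    apply Subtype.ext
    apply hf.nondeg
    intro w
    have h1 := hv (A8_pr e w)
    have h2 : f v w = f v (e w) := by rw [← hes, A8_fix hee]
    rw [h2]
    exact h1

omit [Finite K] in
lemma A8_isTor (hA : IsTor f A) (he : e ∈ A) (hee : e * e = e) :
    IsTor (resF f (LinearMap.range e)) (restr A (LinearMap.range e)) where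
  comm := by
    rintro x ⟨a, ha, hxa⟩ y ⟨b, hb, hyb⟩
    ext w
    rw [Module.End.mul_apply, Module.End.mul_apply, hxa, hyb, hyb, hxa, ← Module.End.mul_apply,
      hA.comm a ha b hb, Module.End.mul_apply]
  red := by
    intro x hx hxx
    apply A8_ext_inj hee
    rw [A8_ext_zero]
    apply hA.red _ (A8_ext_mem he hx)
    rw [← A8_ext_mul hee, hxx, A8_ext_zero]
  rank := dim_eq A hA.toIsTorGL e he hee
  star := by
    rintro x ⟨a, ha, hxa⟩
    obtain ⟨b, hb, hab⟩ := hA.star a ha
    obtain ⟨y, hy, hyb⟩ := A8_res_exists hA.toIsTorGL he hb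
    refine ⟨y, hy, ?_⟩
    intro v w
    show f (x v : V) w = f v (y w : V)
    rw [hxa, hyb]
    exact hab _ _
  skew := by
    obtain ⟨d, hd, hds, hdr⟩ := hA.skew
    obtain ⟨y, hy, hyb⟩ := A8_res_exists hA.toIsTorGL he hd
    refine ⟨y, hy, ?_, ?_⟩
    · intro v w
      show f (y v : V) w = f v ((-y) w : LinearMap.range e)
      rw [LinearMap.neg_apply, Submodule.coe_neg, hyb, hyb]
      exact hds _ _
    · have h1 := LinearMap.finrank_range_add_finrank_ker d
      have h2 := LinearMap.finrank_range_add_finrank_ker y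
      have h3 : finrank K (LinearMap.ker y) ≤ finrank K (LinearMap.ker d) := by
        let g : LinearMap.ker y →ₗ[K] LinearMap.ker d :=
          ((LinearMap.range e).subtype ∘ₗ (LinearMap.ker y).subtype).codRestrict (LinearMap.ker d) (by
            intro w
            rw [LinearMap.mem_ker]
            show d (w : LinearMap.range e) = 0
            rw [← hyb, LinearMap.mem_ker.1 w.2]
            rfl)
        apply LinearMap.finrank_le_finrank_of_injective (f := g)
        intro a b hab
        apply Subtype.ext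
        apply Subtype.ext
        have h5 : ((g a : LinearMap.ker d) : V) = g b := by rw [hab]
        exact h5
      omega


omit [Finite K] in
lemma A8_eq_of_rank {a : Module.End K V} (haa : a * a = a) (hae : a * e = a) (hea : e * a = a)
    (h : finrank K (LinearMap.range e) ≤ finrank K (LinearMap.range a)) : a = e := by
  have h1 : LinearMap.range a ≤ LinearMap.range e := by
    rintro _ ⟨v, rfl⟩
    exact ⟨a v, by rw [← Module.End.mul_apply, hea]⟩
  have h2 : LinearMap.range a = LinearMap.range e := Submodule.eq_of_le_of_finrank_le h1 h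
  have h3 : a * e = e := by
    ext v
    have : e v ∈ LinearMap.range a := by rw [h2]; exact ⟨v, rfl⟩
    obtain ⟨u, hu⟩ := this
    rw [Module.End.mul_apply, ← hu, ← Module.End.mul_apply, haa]
  rw [← hae, h3]

lemma A8_min (hf : IsHF (RingHom.id K) 1 f) (hA : IsTor f A) {d0 : Module.End K V}
    (hd0' : d0 ≠ 0) : ∃ e ∈ A, e * e = e ∧ IsAdj f e e ∧ e * d0 ≠ 0 ∧
      ∀ x ∈ restr A (LinearMap.range e), IsAdj (resF f (LinearMap.range e)) x x → x ≠ 0 →
        ∃ y ∈ restr A (LinearMap.range e), x * y = 1 := by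
  classical
  have hex : ∃ n : ℕ, ∃ e ∈ A, e * e = e ∧ IsAdj f e e ∧ e * d0 ≠ 0 ∧
      finrank K (LinearMap.range e) = n :=
    ⟨_, 1, A.one_mem, by rw [one_mul], A8_adj_one f, by rwa [one_mul], rfl⟩
  obtain ⟨e, he, hee, hes, hed, hn⟩ := Nat.find_spec hex
  have hmin : ∀ a ∈ A, a * a = a → IsAdj f a a → a * e = a → a * d0 ≠ 0 → a = e := by
    intro a ha haa has hae had
    refine A8_eq_of_rank haa hae (by rw [hA.comm e he a ha, hae]) ?_
    rw [hn]
    exact Nat.find_min' hex ⟨a, ha, haa, has, had, rfl⟩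
  refine ⟨e, he, hee, hes, hed, ?_⟩
  intro x hx hxs hx0
  have hT := A8_isTor hA he hee
  obtain ⟨m, hm1, hm2, hm3⟩ := A8_idem hT.toIsTorGL hx
  have hxm : x ^ m ∈ restr A (LinearMap.range e) := (restr A (LinearMap.range e)).pow_mem hx m
  have hxms := A8_adj_pow hxs m
  set e1 := A8_ext e (x ^ m) with he1
  have he1A : e1 ∈ A := A8_ext_mem he hxm
  have he1e1 : e1 * e1 = e1 := by rw [he1, ← A8_ext_mul hee, hm1]
  have he1s : IsAdj f e1 e1 := A8_ext_adj hee hes hxms
  have he1e : e1 * e = e1 := A8_ext_e hee _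
  have hee1 : e * e1 = e1 := by rw [hA.comm e he e1 he1A, he1e]
  have hone : x ^ m = 1 := by
    by_cases h : e1 * d0 = 0
    · exfalso
      have h2 : (e - e1) = e := by
        apply hmin (e - e1) (A.sub_mem he he1A)
        · rw [mul_sub, sub_mul, sub_mul, hee, he1e, hee1, he1e1, sub_self, sub_zero]
        · exact A8_adj_sub hf hes he1s
        · rw [sub_mul, hee, he1e]
        · rw [sub_mul, h, sub_zero]; exact hed
      have h3 : e1 = 0 := by
        have := sub_eq_self.1 h2
        exact this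
      have h4 : x ^ m = 0 := by
        apply A8_ext_inj hee
        rw [A8_ext_zero, ← he1, h3]
      rw [h4, zero_mul] at hm2
      exact hx0 hm2.symm
    · have h2 : e1 = e := hmin e1 he1A he1e1 he1s he1e h
      apply A8_ext_inj hee
      rw [A8_ext_one, ← he1, h2]
  obtain ⟨k, rfl⟩ : ∃ k, m = k + 1 := ⟨m - 1, by omega⟩
  exact ⟨x ^ k, (restr A (LinearMap.range e)).pow_mem hx k, by rw [← pow_succ', hone]⟩

omit [Finite K] [FiniteDimensional K V] in
lemma A8_range_ext (hee : e * e = e) (x : Module.End K (LinearMap.range e)) :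
    finrank K (LinearMap.range (A8_ext e x)) = finrank K (LinearMap.range x) := by
  have h1 : LinearMap.range (A8_ext e x) =
      Submodule.map (LinearMap.range e).subtype (LinearMap.range x) := by
    ext v
    constructor
    · rintro ⟨u, rfl⟩
      exact ⟨x (A8_pr e u), ⟨_, rfl⟩, rfl⟩
    · rintro ⟨_, ⟨u, rfl⟩, rfl⟩
      exact ⟨u, by rw [A8_ext_apply, A8_pr_fix hee]; rfl⟩
  rw [h1]
  exact (LinearEquiv.finrank_eq (Submodule.equivMapOfInjective _
    (Submodule.injective_subtype _) (LinearMap.range x))).symm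

omit [Finite K] [FiniteDimensional K V] in
lemma A8_oddPos (hA : IsTor f A) (he : e ∈ A) (hee : e * e = e)
    (hes : IsAdj f e e) (hodd : OddPos f A) :
    OddPos (resF f (LinearMap.range e)) (restr A (LinearMap.range e)) := by
  intro x hx x' hx' hxx hxs hxx' hx0 hprim
  have h := hodd (A8_ext e x) (A8_ext_mem he hx) (A8_ext e x') (A8_ext_mem he hx')
    (by rw [← A8_ext_mul hee, hxx]) (A8_ext_adj hee hes hxs)
    (by rw [← A8_ext_mul hee, hxx', A8_ext_zero])
    (by
      intro h0
      apply hx0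
      apply A8_ext_inj hee
      rw [h0, A8_ext_zero])
    (by
      intro a ha haa hax
      have hae : a * e = a := by
        rw [← hax, mul_assoc, A8_ext_e hee]
      obtain ⟨y, hy, hya⟩ := A8_res_exists hA.toIsTorGL he ha
      have hya' : A8_ext e y = a := by rw [A8_ext_of_res hya, hae]
      rcases hprim y hy (by
        apply A8_ext_inj hee
        rw [A8_ext_mul hee, hya', haa]) (by
        apply A8_ext_inj hee
        rw [A8_ext_mul hee, hya', hax]) with h | h
      · left
        rw [← hya', h, A8_ext_zero]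
      · right
        rw [← hya', h])
  rwa [A8_range_ext hee] at h


omit [Finite K] [FiniteDimensional K V] in
lemma A8_isCompl (hee : e * e = e) : IsCompl (LinearMap.range e) (LinearMap.ker e) := by
  constructor
  · rw [Submodule.disjoint_def]
    intro w hw hw'
    have := A8_fix hee ⟨w, hw⟩
    rw [LinearMap.mem_ker.1 hw'] at this
    exact this.symm
  · rw [codisjoint_iff, eq_top_iff]
    intro v _
    rw [Submodule.mem_sup]
    refine ⟨e v, ⟨v, rfl⟩, v - e v, ?_, by abel⟩
    rw [LinearMap.mem_ker, map_sub, ← Module.End.mul_apply, hee, sub_self]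

omit [Finite K] in
lemma A8_extend (hf : IsHF (RingHom.id K) 1 f) (hA : IsTor f A) (he : e ∈ A) (hee : e * e = e)
    (hes : IsAdj f e e) (n : LinearMap.range e ≃ₗ[K] LinearMap.range e)
    (hn : n ∈ Isom (resF f (LinearMap.range e)))
    (hc : CarriesTo n (restr A (LinearMap.range e)) (restr A (LinearMap.range e))) :
    ∃ N : V ≃ₗ[K] V, N ∈ Isom f ∧ CarriesTo N A A ∧ LinearEquiv.det N = LinearEquiv.det n ∧
      (∀ w : LinearMap.range e, N w = n w) ∧ ∀ v, N v = n (A8_pr e v) + (v - e v) := by
  let E := Submodule.prodEquivOfIsCompl _ _ (A8_isCompl hee)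
  let N : V ≃ₗ[K] V := (E.symm.trans (n.prodCongr (LinearEquiv.refl K _))).trans E
  have hE : ∀ v, E.symm v = (A8_pr e v, ⟨v - e v, by
      rw [LinearMap.mem_ker, map_sub, ← Module.End.mul_apply, hee, sub_self]⟩) := by
    intro v
    rw [LinearEquiv.symm_apply_eq]
    show v = e v + (v - e v)
    abel
  have hN : ∀ v, N v = n (A8_pr e v) + (v - e v) := by
    intro v
    show E ((n.prodCongr (LinearEquiv.refl K _)) (E.symm v)) = _
    rw [hE]
    rfl
  have hNw : ∀ w : LinearMap.range e, N w = n w := by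
    intro w
    rw [hN, A8_pr_fix hee, A8_fix hee, sub_self, add_zero]
  have hortho : ∀ (w : LinearMap.range e) (v : V), f w (v - e v) = 0 := by
    intro w v
    rw [← A8_fix hee w, hes, map_sub, ← Module.End.mul_apply, hee, sub_self, A8_symm hf,
      A8_zero_left hf]
  refine ⟨N, ?_, ?_, ?_, hNw, hN⟩
  · intro v w
    have h1 : f v w = f (e v) (e w) + f (v - e v) (w - e w) := by
      have h2 := hortho (A8_pr e v) w
      have h3 := hortho (A8_pr e w) v
      rw [A8_pr_coe] at h2 h3
      rw [A8_symm hf] at h3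
      rw [A8_sub_left hf, A8_sub_right hf, A8_sub_right hf] at *
      linear_combination h2 + h3
    have h4 := hn (A8_pr e v) (A8_pr e w)
    have h5 : f (n (A8_pr e v) : V) (n (A8_pr e w) : V) = f (e v) (e w) := h4
    rw [hN, hN, hf.add_left, A8_add_right hf, A8_add_right hf, hortho, A8_symm hf (v - e v),
      hortho, h1, h5]
    ring
  · intro a ha
    obtain ⟨x, hx, hxa⟩ := A8_res_exists hA.toIsTorGL he ha
    obtain ⟨b, hb, hxb⟩ := hc x hx
    have : N.toLinearMap ∘ₗ a ∘ₗ N.symm.toLinearMap = b * e + a * (1 - e) := by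
      ext v
      obtain ⟨u, rfl⟩ := N.surjective v
      have h1 : N (a u) = n (x (A8_pr e u)) + a (u - e u) := by
        rw [hN]
        have h2 : A8_pr e (a u) = x (A8_pr e u) := by
          apply Subtype.ext
          rw [A8_pr_coe, hxa, A8_pr_coe, ← Module.End.mul_apply, ← Module.End.mul_apply,
            hA.comm e he a ha]
        rw [h2, map_sub, ← Module.End.mul_apply e a, ← Module.End.mul_apply a e,
            hA.comm e he a ha]
      have h3 : e (N u) = n (A8_pr e u) := by
        rw [hN, map_add, map_sub, ← Module.End.mul_apply e e, hee, sub_self, add_zero, A8_fix hee]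
      have h4 := hxb (n (A8_pr e u))
      rw [LinearMap.comp_apply, LinearMap.comp_apply] at h4
      have h5 : ((n (x (A8_pr e u)) : LinearMap.range e) : V) = b (n (A8_pr e u)) := by
        rw [← h4]
        simp
      rw [LinearMap.comp_apply, LinearMap.comp_apply, LinearMap.add_apply, Module.End.mul_apply,
        Module.End.mul_apply, LinearMap.sub_apply, Module.End.one_apply, h3]
      simp only [LinearEquiv.coe_coe, LinearEquiv.symm_apply_apply]
      rw [h1, h5, hN]
      congr 2
      abel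
    rw [this]
    exact A.add_mem (A.mul_mem hb he) (A.mul_mem ha (A.sub_mem A.one_mem he))
  · show LinearEquiv.det ((E.symm.trans (n.prodCongr (LinearEquiv.refl K _))).trans E) = _
    rw [LinearEquiv.det_conj]
    apply Units.ext
    rw [LinearEquiv.coe_det, LinearEquiv.coe_det]
    have : ((n.prodCongr (LinearEquiv.refl K (LinearMap.ker e)) :
        (LinearMap.range e × LinearMap.ker e) ≃ₗ[K] _) :
        (LinearMap.range e × LinearMap.ker e) →ₗ[K] _) =
        LinearMap.prodMap n.toLinearMap LinearMap.id := by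
      ext x <;> rfl
    rw [this, LinearMap.det_prodMap, LinearMap.det_id, mul_one]

end restr


/-- abstract description of a torus algebra -/
structure A8Data (f : V → V → K) (A : Subalgebra K (Module.End K V)) (R : Type) [CommRing R]
    [Algebra K R] where
  st : R ≃ₐ[K] R
  Φ : R ≃ₗ[K] V
  ψ : R →ₗ[K] K
  st_st : ∀ x, st (st x) = x
  hΦ : ∀ a b, f (Φ a) (Φ b) = ψ (a * st b)
  hA : ∀ T, T ∈ A ↔ ∃ a, ∀ b, T (Φ b) = Φ (a * b)
  red : ∀ a : R, a * a = 0 → a = 0

omit [Finite K] in
lemma A8_data {f : V → V → K} (hf : IsHF (RingHom.id K) 1 f) {A : Subalgebra K (Module.End K V)}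
    (hA : IsTor f A) : ∃ (R : Type) (_ : CommRing R) (_ : Algebra K R), Nonempty (A8Data f A R) := by
  classical
  let iR : CommRing A := { (inferInstance : Ring A) with
    mul_comm := fun a b => Subtype.ext (hA.comm a a.2 b b.2) }
  obtain ⟨v0, hv1, hv2⟩ := exists_cyc A hA.toIsTorGL
  choose st hst1 hst2 using hA.star
  have hst : ∀ (a b : A), IsAdj f (a : Module.End K V) b → st a a.2 = b := by
    intro a b h
    exact A8_adj_unique hf (hst2 a a.2) h
  let s : A → A := fun a => ⟨st a a.2, hst1 a a.2⟩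
  have hs : ∀ a : A, IsAdj f (a : Module.End K V) (s a) := fun a => hst2 a a.2
  have hs' : ∀ (a b : A), IsAdj f (a : Module.End K V) b → s a = b := fun a b h =>
    Subtype.ext (hst a b h)
  have hss : ∀ a, s (s a) = a := fun a => hs' _ _ (A8_adj_symm hf (hs a))
  let S : A ≃ₐ[K] A := AlgEquiv.ofAlgHom
    { toFun := s
      map_one' := hs' 1 1 (A8_adj_one f)
      map_mul' := by
        intro a b
        apply hs'
        have := A8_adj_mul (hs a) (hs b)
        rw [hA.comm _ (s b).2 _ (s a).2] at this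
        exact this
      map_zero' := by
        apply hs'
        intro v w
        show f 0 w = f v 0
        rw [A8_zero_left hf, A8_symm hf, A8_zero_left hf]
      map_add' := by
        intro a b
        apply hs'
        exact A8_adj_add hf (hs a) (hs b)
      commutes' := by
        intro c
        apply hs'
        exact A8_adj_algebraMap hf c }
    { toFun := s
      map_one' := hs' 1 1 (A8_adj_one f)
      map_mul' := by
        intro a b
        apply hs'
        have := A8_adj_mul (hs a) (hs b)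
        rw [hA.comm _ (s b).2 _ (s a).2] at this
        exact this
      map_zero' := by
        apply hs'
        intro v w
        show f 0 w = f v 0
        rw [A8_zero_left hf, A8_symm hf, A8_zero_left hf]
      map_add' := by
        intro a b
        apply hs'
        exact A8_adj_add hf (hs a) (hs b)
      commutes' := by
        intro c
        apply hs'
        exact A8_adj_algebraMap hf c }
    (by ext1 a; exact hss a) (by ext1 a; exact hss a)
  let Φ0 : A →ₗ[K] V :=
    { toFun := fun a => (a : Module.End K V) v0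
      map_add' := fun a b => rfl
      map_smul' := fun c a => rfl }
  let Φ : A ≃ₗ[K] V := LinearEquiv.ofBijective Φ0 (by
    constructor
    · rw [← LinearMap.ker_eq_bot, LinearMap.ker_eq_bot']
      intro a ha
      exact Subtype.ext (hv1 a a.2 ha)
    · intro v
      obtain ⟨a, ha, h⟩ := hv2 v
      exact ⟨⟨a, ha⟩, h⟩)
  let ψ : A →ₗ[K] K :=
    { toFun := fun a => f ((a : Module.End K V) v0) v0
      map_add' := fun a b => hf.add_left _ _ _
      map_smul' := fun c a => hf.smul_left _ _ _ }
  refine ⟨A, iR, inferInstance, ⟨⟨S, Φ, ψ, hss, ?_, ?_, ?_⟩⟩⟩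
  · intro a b
    show f ((a : Module.End K V) v0) ((b : Module.End K V) v0) =
      f (((a : Module.End K V) * (s b : Module.End K V)) v0) v0
    rw [hA.comm _ a.2 _ (s b).2, Module.End.mul_apply]
    exact (A8_adj_symm hf (hs b) _ _).symm
  · intro T
    constructor
    · intro hT
      exact ⟨⟨T, hT⟩, fun b => rfl⟩
    · rintro ⟨a, h⟩
      have : T = a := by
        ext v
        obtain ⟨b, rfl⟩ := Φ.surjective v
        rw [h b]
        rfl
      rw [this]
      exact a.2
  · intro a ha
    exact Subtype.ext (hA.red a a.2 (congrArg Subtype.val ha))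

section core

variable {f : V → V → K} {A : Subalgebra K (Module.End K V)} {R : Type} [CommRing R] [Algebra K R]
  (D : A8Data f A R)

/-- multiplication by `a` -/
def A8Data.T (a : R) : Module.End K V :=
  D.Φ.toLinearMap ∘ₗ LinearMap.mulLeft K a ∘ₗ D.Φ.symm.toLinearMap

omit [Finite K] [FiniteDimensional K V] in
lemma A8Data.T_apply (a b : R) : D.T a (D.Φ b) = D.Φ (a * b) := by
  show D.Φ (a * D.Φ.symm (D.Φ b)) = _
  rw [LinearEquiv.symm_apply_apply]

omit [Finite K] [FiniteDimensional K V] in
lemma A8Data.T_mem (a : R) : D.T a ∈ A := (D.hA _).2 ⟨a, D.T_apply a⟩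

omit [Finite K] [FiniteDimensional K V] in
lemma A8Data.T_adj (a : R) : IsAdj f (D.T a) (D.T (D.st a)) := by
  intro v w
  obtain ⟨b, rfl⟩ := D.Φ.surjective v
  obtain ⟨c, rfl⟩ := D.Φ.surjective w
  rw [D.T_apply, D.T_apply, D.hΦ, D.hΦ, map_mul D.st, D.st_st]
  congr 1
  ring

omit [Finite K] [FiniteDimensional K V] in
lemma A8Data.T_mul (a b : R) : D.T (a * b) = D.T a * D.T b := by
  ext v
  obtain ⟨c, rfl⟩ := D.Φ.surjective v
  rw [Module.End.mul_apply, D.T_apply, D.T_apply, D.T_apply, mul_assoc]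

omit [Finite K] [FiniteDimensional K V] in
lemma A8Data.T_one : D.T 1 = 1 := by
  ext v
  obtain ⟨c, rfl⟩ := D.Φ.surjective v
  rw [D.T_apply, one_mul, Module.End.one_apply]

omit [Finite K] [FiniteDimensional K V] in
lemma A8Data.T_inj {a b : R} (h : D.T a = D.T b) : a = b := by
  have := LinearMap.congr_fun h (D.Φ 1)
  rw [D.T_apply, D.T_apply, mul_one, mul_one] at this
  exact D.Φ.injective this

omit [Finite K] [FiniteDimensional K V] in
lemma A8Data.T_zero : D.T 0 = 0 := by
  ext v
  obtain ⟨c, rfl⟩ := D.Φ.surjective v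
  rw [D.T_apply, zero_mul, map_zero, LinearMap.zero_apply]

omit [Finite K] [FiniteDimensional K V] in
lemma A8Data.T_neg (a : R) : D.T (-a) = - D.T a := by
  ext v
  obtain ⟨c, rfl⟩ := D.Φ.surjective v
  rw [D.T_apply, LinearMap.neg_apply, D.T_apply, neg_mul, map_neg]

omit [Finite K] [FiniteDimensional K V] in
lemma A8Data.exists_T {x : Module.End K V} (hx : x ∈ A) : ∃ a, x = D.T a := by
  obtain ⟨a, h⟩ := (D.hA x).1 hx
  refine ⟨a, ?_⟩
  ext v
  obtain ⟨c, rfl⟩ := D.Φ.surjective v
  rw [D.T_apply, h]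

omit [Finite K] [FiniteDimensional K V] in
lemma A8Data.psi_st (hf : IsHF (RingHom.id K) 1 f) (a : R) : D.ψ (D.st a) = D.ψ a := by
  have h1 := D.hΦ 1 a
  have h2 := D.hΦ a 1
  rw [map_one D.st, mul_one] at h2
  rw [one_mul] at h1
  rw [← h1, ← h2, A8_symm hf]

include D in
omit [Finite K] in
lemma A8Data.finite_dim : FiniteDimensional K R := LinearEquiv.finiteDimensional D.Φ.symm


/-- if all the selfadjoint elements are invertible -/
def A8Fld (f : V → V → K) (A : Subalgebra K (Module.End K V)) : Prop :=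
  ∀ x ∈ A, IsAdj f x x → x ≠ 0 → ∃ y ∈ A, x * y = 1

omit [Finite K] [FiniteDimensional K V] in
lemma A8Data.unit (hF : A8Fld f A) {s : R} (hs : D.st s = s) (h0 : s ≠ 0) : IsUnit s := by
  obtain ⟨y, hy, h⟩ := hF (D.T s) (D.T_mem s) (by
    have := D.T_adj s
    rwa [hs] at this) (by
    intro h
    apply h0
    apply D.T_inj
    rw [h, D.T_zero])
  obtain ⟨b, rfl⟩ := D.exists_T hy
  rw [← D.T_mul, ← D.T_one] at h
  exact IsUnit.of_mul_eq_one _ (D.T_inj h)

omit [Finite K] [FiniteDimensional K V] in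
/-- the isometry given by an isometry of `R` -/
lemma A8Data.lift (n : R ≃ₗ[K] R) (hn : ∀ a b, D.ψ (n a * D.st (n b)) = D.ψ (a * D.st b))
    (g : R → R) (hg : ∀ a b, n (a * b) = g a * n b) :
    ∃ N ∈ Isom f, CarriesTo N A A ∧ LinearEquiv.det N = LinearEquiv.det n ∧
      ∀ a, N (D.Φ a) = D.Φ (n a) := by
  let N : V ≃ₗ[K] V := (D.Φ.symm.trans n).trans D.Φ
  have hN : ∀ a, N (D.Φ a) = D.Φ (n a) := by
    intro a
    show D.Φ (n (D.Φ.symm (D.Φ a))) = _
    rw [LinearEquiv.symm_apply_apply]
  refine ⟨N, ?_, ?_, LinearEquiv.det_conj _ _, hN⟩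
  · intro v w
    obtain ⟨b, rfl⟩ := D.Φ.surjective v
    obtain ⟨c, rfl⟩ := D.Φ.surjective w
    rw [hN, hN, D.hΦ, D.hΦ, hn]
  · intro x hx
    obtain ⟨a, rfl⟩ := D.exists_T hx
    rw [D.hA]
    refine ⟨g a, ?_⟩
    intro b
    obtain ⟨c, rfl⟩ := n.surjective b
    rw [LinearMap.comp_apply, LinearMap.comp_apply, ← hN]
    show N (D.T a (N.symm (N (D.Φ c)))) = _
    rw [LinearEquiv.symm_apply_apply, D.T_apply, hN, hg]


omit [Finite K] [FiniteDimensional K V] in
lemma A8Data.psi_ne (hf : IsHF (RingHom.id K) 1 f) {x : R} (h : ∀ y, D.ψ (x * y) = 0) : x = 0 := by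
  apply D.Φ.injective
  rw [map_zero]
  apply hf.nondeg
  intro w
  obtain ⟨c, rfl⟩ := D.Φ.surjective w
  rw [D.hΦ, h]

end core

lemma A8_field_case (two : (2 : K) ≠ 0) {f : V → V → K} (hf : IsHF (RingHom.id K) 1 f)
    {A : Subalgebra K (Module.End K V)} (hA : IsTor f A) {L : Type} [Field L] [Algebra K L]
    (D : A8Data f A L) (hsk : ∃ δ : L, D.st δ = -δ ∧ δ ≠ 0) :
    ∃ n ∈ Isom f, CarriesTo n A A ∧ LinearEquiv.det n = -1 := by
  have hfd : FiniteDimensional K L := D.finite_dim
  have : Finite L := Module.finite_of_finite K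
  obtain ⟨δ, hδ, hδ0⟩ := hsk
  have two' : (2 : L) ≠ 0 := by
    intro h
    apply two
    apply (algebraMap K L).injective
    rw [map_zero, map_ofNat, h]
  have heven : Even (finrank K L) := by
    have h1 : orderOf D.st = 2 := by
      apply orderOf_eq_prime
      · ext x
        rw [pow_two]
        exact D.st_st x
      · intro h
        rw [h] at hδ
        have h3 : δ = -δ := hδ
        have h2 : 2 * δ = 0 := by linear_combination h3
        rcases mul_eq_zero.1 h2 with h | h
        · exact two' h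
        · exact hδ0 h
    have h2 : orderOf D.st ∣ Nat.card (L ≃ₐ[K] L) := orderOf_dvd_natCard _
    rw [h1, IsGalois.card_aut_eq_finrank K L] at h2
    exact even_iff_two_dvd.2 h2
  obtain ⟨F, hF1, hF2⟩ := A8_det_frob K L heven
  obtain ⟨κ, hκ⟩ : ∃ κ : L, ∀ x, D.ψ x = Algebra.trace K L (κ * x) := by
    refine ⟨((Algebra.traceForm K L).toDual (traceForm_nondegenerate K L)).symm D.ψ, fun x => ?_⟩
    have := LinearMap.BilinForm.apply_toDual_symm_apply (B := Algebra.traceForm K L)
      (hB := traceForm_nondegenerate K L) D.ψ x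
    rw [← this]
    rfl
  have hκ0 : κ ≠ 0 := by
    intro h
    have : (1 : L) = 0 := by
      apply D.psi_ne hf
      intro y
      rw [hκ, h, zero_mul, map_zero]
    exact one_ne_zero this
  have hκs : D.st κ = κ := by
    have h1 : ∀ x, Algebra.trace K L ((D.st κ - κ) * x) = 0 := by
      intro x
      rw [sub_mul, map_sub, ← hκ x, ← D.psi_st hf x, hκ, ← Algebra.trace_eq_of_algEquiv D.st (κ * D.st x),
        map_mul D.st, D.st_st, sub_self]
    have h2 := (traceForm_nondegenerate K L).1 (D.st κ - κ) (fun x => h1 x)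
    exact sub_eq_zero.1 h2
  have hunit : ∀ x : L, x ≠ 0 → IsUnit (D.T x) := by
    intro x hx
    refine ⟨⟨D.T x, D.T x⁻¹, ?_, ?_⟩, rfl⟩
    · rw [← D.T_mul, mul_inv_cancel₀ hx, D.T_one]
    · rw [← D.T_mul, inv_mul_cancel₀ hx, D.T_one]
  obtain ⟨a, ha, a', ha', hau, haa, hac⟩ := star_surj two (RingHom.id K) 1 f hf A hA (D.T δ)
    (D.T_mem δ) (hunit δ hδ0) (by
      have := D.T_adj δ
      rwa [hδ, D.T_neg] at this) (D.T κ) (D.T_mem κ) (hunit κ hκ0) (by
      have := D.T_adj κ
      rwa [hκs] at this)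
  obtain ⟨μ, rfl⟩ := D.exists_T ha
  obtain ⟨μ', rfl⟩ := D.exists_T ha'
  have hμ' : μ' = D.st μ := D.T_inj (A8_adj_unique hf haa (D.T_adj μ))
  rw [← D.T_mul] at hac
  have hμκ : μ' * μ = κ := D.T_inj hac
  have hμ0 : μ ≠ 0 := by
    rintro rfl
    rw [mul_zero] at hμκ
    exact hκ0 hμκ.symm
  rw [hμ'] at hμκ
  let m : L ≃ₗ[K] L :=
    { toFun := fun x => μ * x
      invFun := fun x => μ⁻¹ * x
      map_add' := fun x y => mul_add _ _ _
      map_smul' := fun c x => by
        rw [RingHom.id_apply, mul_smul_comm]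
      left_inv := fun x => by
        show μ⁻¹ * (μ * x) = x
        rw [inv_mul_cancel_left₀ hμ0]
      right_inv := fun x => by
        show μ * (μ⁻¹ * x) = x
        rw [mul_inv_cancel_left₀ hμ0] }
  let n : L ≃ₗ[K] L := (m.symm.symm.trans F.toLinearEquiv).trans m.symm
  have hn : ∀ x, n x = μ⁻¹ * F (μ * x) := fun x => rfl
  have hFst : ∀ x, D.st (F x) = F (D.st x) := by
    intro x
    have := DFunLike.congr_fun (hF2 D.st) x
    exact this
  obtain ⟨N, hN1, hN2, hN3, -⟩ := D.lift n (by
    intro a b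
    have hst0 : D.st μ ≠ 0 := by
      intro h
      rw [h, zero_mul] at hμκ
      exact hκ0 hμκ.symm
    have h1 : κ * (n a * D.st (n b)) = F (κ * (a * D.st b)) := by
      rw [hn, hn, map_mul D.st, map_inv₀, hFst, map_mul D.st]
      nth_rewrite 1 [← hμκ]
      have h2 : D.st μ * μ * (μ⁻¹ * F (μ * a) * ((D.st μ)⁻¹ * F (D.st μ * D.st b))) =
          F (μ * a) * F (D.st μ * D.st b) := by
        field_simp
      rw [h2, ← map_mul F, ← hμκ]
      congr 1
      ring
    rw [hκ, hκ, h1, Algebra.trace_eq_of_algEquiv F]) (fun a => F a) (by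
    intro a b
    rw [hn, hn, show μ * (a * b) = a * (μ * b) by ring, map_mul]
    ring)
  refine ⟨N, hN1, hN2, ?_⟩
  rw [hN3, LinearEquiv.det_conj]
  apply Units.ext
  rw [LinearEquiv.coe_det]
  exact hF1


omit [Finite K] in
lemma A8_swap_case (two : (2 : K) ≠ 0) {R : Type} [CommRing R] [Algebra K R]
    [FiniteDimensional K R] (st : R ≃ₐ[K] R) (hst : ∀ x, st (st x) = x) (e : R) (hee : e * e = e)
    (hes : e * st e = 0) (hes1 : e + st e = 1)
    (ho : Odd (finrank K (LinearMap.range (LinearMap.mulLeft K e)))) :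
    LinearEquiv.det st.toLinearEquiv = -1 := by
  set U := LinearMap.range (LinearMap.mulLeft K e) with hU
  have hu : ∀ u : U, e * u = u := by
    rintro ⟨_, v, rfl⟩
    show e * (e * v) = e * v
    rw [← mul_assoc, hee]
  have hu' : ∀ u : U, e * st u = 0 := by
    intro u
    rw [← hu u, map_mul, ← mul_assoc, hes, zero_mul]
  have hu2 : ∀ u : U, st e * u = 0 := by
    intro u
    rw [← hst u, ← map_mul, hu', map_zero]
  have hu3 : ∀ u : U, st e * st u = st u := by
    intro u
    rw [← map_mul, hu]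
  let ι : U →ₗ[K] R := U.subtype
  let s : R →ₗ[K] R := st.toLinearMap
  let E0 : (U × U) →ₗ[K] R := LinearMap.coprod (ι + s ∘ₗ ι) (ι - s ∘ₗ ι)
  have hE0 : ∀ u u' : U, E0 (u, u') = ((u : R) + st u) + ((u' : R) - st u') := fun u u' => rfl
  have half : ∃ h : K, h + h = 1 := ⟨2⁻¹, by rw [← two_mul, mul_inv_cancel₀ two]⟩
  obtain ⟨h, hh⟩ := half
  have hinj : Function.Injective E0 := by
    rw [← LinearMap.ker_eq_bot, LinearMap.ker_eq_bot']
    rintro ⟨u, u'⟩ h0
    rw [hE0] at h0
    have h1 : (u : R) + u' = 0 := by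
      have := congrArg (fun z => e * z) h0
      simp only [mul_add, mul_sub, hu, hu', mul_zero] at this
      linear_combination this
    have h2 : st (u : R) - st (u' : R) = 0 := by
      have := congrArg (fun z => st e * z) h0
      simp only [mul_add, mul_sub, hu2, hu3, mul_zero] at this
      linear_combination this
    have h3 : (u : R) = u' := by
      rw [← map_sub] at h2
      exact sub_eq_zero.1 (st.injective (by rw [h2, map_zero]))
    have h4 : (u : R) = 0 := by
      have h5 : h • ((u : R) + u) = 0 := by rw [h3] at h1 ⊢; rw [h1, smul_zero]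
      rw [smul_add, ← add_smul, hh, one_smul] at h5
      exact h5
    have h6 : (u' : R) = 0 := by rw [← h3, h4]
    exact Prod.ext (Subtype.ext h4) (Subtype.ext h6)
  have hsurj : Function.Surjective E0 := by
    intro r
    refine ⟨(⟨e * (h • (r + st r)), ⟨_, rfl⟩⟩, ⟨e * (h • (r - st r)), ⟨_, rfl⟩⟩), ?_⟩
    rw [hE0]
    show (e * (h • (r + st r)) + st (e * (h • (r + st r)))) +
      (e * (h • (r - st r)) - st (e * (h • (r - st r)))) = r
    rw [map_mul, map_mul, map_smul, map_smul, map_add, map_sub, hst]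
    have h7 : (h • r) + (h • r) = r := by rw [← add_smul, hh, one_smul]
    have : e * (h • (r + st r)) + st e * (h • (st r + r)) + (e * (h • (r - st r)) -
        st e * (h • (st r - r))) = (e + st e) * (h • r + h • r) := by
      simp only [smul_add, smul_sub]
      ring
    rw [this, hes1, one_mul, h7]
  let E : (U × U) ≃ₗ[K] R := LinearEquiv.ofBijective E0 ⟨hinj, hsurj⟩
  have hE : ∀ u u' : U, E (u, u') = ((u : R) + st u) + ((u' : R) - st u') := fun u u' => rfl
  have hconj : st.toLinearEquiv = (E.symm.trans ((LinearEquiv.refl K U).prodCongr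
      (LinearEquiv.neg K))).trans E := by
    ext r
    obtain ⟨⟨u, u'⟩, rfl⟩ := E.surjective r
    rw [LinearEquiv.trans_apply, LinearEquiv.trans_apply, LinearEquiv.symm_apply_apply]
    show st (E (u, u')) = E (u, -u')
    rw [hE, hE, map_add, map_add, map_sub, hst, hst, Submodule.coe_neg, map_neg]
    ring
  rw [hconj, LinearEquiv.det_conj]
  apply Units.ext
  rw [LinearEquiv.coe_det]
  have h8 : (((LinearEquiv.refl K U).prodCongr (LinearEquiv.neg K) : (U × U) ≃ₗ[K] (U × U)) :
      (U × U) →ₗ[K] (U × U)) = LinearMap.prodMap LinearMap.id ((-1 : K) • LinearMap.id) := by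
    apply LinearMap.ext
    rintro ⟨u, u'⟩
    refine Prod.ext rfl (Subtype.ext ?_)
    show -(u' : R) = (-1 : K) • (u' : R)
    rw [neg_smul, one_smul]
  rw [h8, LinearMap.det_prodMap, LinearMap.det_id, LinearMap.det_smul, LinearMap.det_id, one_mul,
    mul_one, ho.neg_one_pow]
  rfl

omit [Finite K] [FiniteDimensional K V] in
lemma A8Data.range_T {f : V → V → K} {A : Subalgebra K (Module.End K V)} {R : Type} [CommRing R]
    [Algebra K R] (D : A8Data f A R) (e : R) :
    finrank K (LinearMap.range (D.T e)) = finrank K (LinearMap.range (LinearMap.mulLeft K e)) := by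
  have h1 : LinearMap.range (D.T e) =
      Submodule.map D.Φ.toLinearMap (LinearMap.range (LinearMap.mulLeft K e)) := by
    ext v
    constructor
    · rintro ⟨u, rfl⟩
      obtain ⟨c, rfl⟩ := D.Φ.surjective u
      exact ⟨e * c, ⟨c, rfl⟩, (D.T_apply e c).symm⟩
    · rintro ⟨_, ⟨u, rfl⟩, rfl⟩
      exact ⟨D.Φ u, D.T_apply e u⟩
  rw [h1]
  exact (LinearEquiv.finrank_eq (Submodule.equivMapOfInjective _
    D.Φ.injective (LinearMap.range (LinearMap.mulLeft K e)))).symm

omit [Finite K] [FiniteDimensional K V] in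
lemma A8Data.T_pow {f : V → V → K} {A : Subalgebra K (Module.End K V)} {R : Type} [CommRing R]
    [Algebra K R] (D : A8Data f A R) (x : R) (n : ℕ) : D.T (x ^ n) = D.T x ^ n := by
  induction n with
  | zero => rw [pow_zero, pow_zero, D.T_one]
  | succ n ih => rw [pow_succ, pow_succ, D.T_mul, ih]

lemma A8_unit_idem {R : Type} [CommRing R] {e : R} (h : e * e = e) (hu : IsUnit e) : e = 1 := by
  have := hu.mul_left_cancel (show e * e = e * 1 by rw [h, mul_one])
  exact this

lemma A8_core [Nontrivial V] (two : (2 : K) ≠ 0) {f : V → V → K}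
    (hf : IsHF (RingHom.id K) 1 f)
    {A : Subalgebra K (Module.End K V)} (hA : IsTor f A) (hF : A8Fld f A) (hodd : OddPos f A) :
    ∃ n ∈ Isom f, CarriesTo n A A ∧ LinearEquiv.det n = -1 := by
  classical
  obtain ⟨R, iR, iA, ⟨D⟩⟩ := A8_data hf hA
  have hfd : FiniteDimensional K R := D.finite_dim
  obtain ⟨d, hd, hds, hdr⟩ := hA.skew
  obtain ⟨δ, rfl⟩ := D.exists_T hd
  have hδ : D.st δ = -δ := by
    apply D.T_inj
    rw [D.T_neg]
    exact A8_adj_unique hf (D.T_adj δ) hds
  by_cases h0 : δ = 0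
  · have h1 : finrank K V = 1 := by
      have h2 : 0 < finrank K V := finrank_pos
      rw [h0, D.T_zero, LinearMap.range_zero, finrank_bot] at hdr
      omega
    refine ⟨LinearEquiv.neg K, ?_, ?_, ?_⟩
    · intro v w
      show f (-v) (-w) = f v w
      rw [A8_neg_left hf, A8_symm hf, A8_neg_left hf, neg_neg, A8_symm hf]
    · intro a ha
      have : (LinearEquiv.neg K : V ≃ₗ[K] V).toLinearMap ∘ₗ a ∘ₗ
          (LinearEquiv.neg K : V ≃ₗ[K] V).symm.toLinearMap = a := by
        ext v
        show -(a (-v)) = a v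
        rw [map_neg, neg_neg]
      rw [this]
      exact ha
    · apply Units.ext
      rw [LinearEquiv.coe_det]
      have h8 : ((LinearEquiv.neg K : V ≃ₗ[K] V) : V →ₗ[K] V) = (-1 : K) • LinearMap.id := by
        ext v
        show -v = (-1 : K) • v
        rw [neg_one_smul]
      rw [h8, LinearMap.det_smul, LinearMap.det_id, h1, pow_one, mul_one]
      rfl
  by_cases hfield : ∀ x : R, x ≠ 0 → ∃ y, x * y = 1
  · have hR : IsField R := ⟨⟨δ, 0, h0⟩, mul_comm, fun {a} ha => hfield a ha⟩
    exact @A8_field_case K V _ _ _ _ _ two f hf A hA R hR.toField iA D ⟨δ, hδ, h0⟩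
  · push Not at hfield
    obtain ⟨x, hx0, hx⟩ := hfield
    obtain ⟨m, hm1, hm2, hm3⟩ := A8_idem hA.toIsTorGL (D.T_mem x)
    rw [← D.T_pow] at hm1 hm2
    rw [← D.T_mul] at hm1 hm2
    have hm1' := D.T_inj hm1
    have hm2' := D.T_inj hm2
    set ε := x ^ m with hε
    have hε0 : ε ≠ 0 := by
      intro h
      rw [h, zero_mul] at hm2'
      exact hx0 hm2'.symm
    have hε1 : ε ≠ 1 := by
      intro h
      obtain ⟨k, rfl⟩ : ∃ k, m = k + 1 := ⟨m - 1, by omega⟩
      exact hx (x ^ k) (by rw [← pow_succ', ← hε, h])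
    have hex : ∃ n : ℕ, ∃ e : R, e * e = e ∧ e * ε = e ∧ e ≠ 0 ∧
        finrank K (LinearMap.range (D.T e)) = n := ⟨_, ε, hm1', hm1', hε0, rfl⟩
    obtain ⟨e, hee, heε, he0, hn⟩ := Nat.find_spec hex
    have hprim : ∀ a ∈ A, a * a = a → a * D.T e = a → a = 0 ∨ a = D.T e := by
      intro a ha haa hae
      obtain ⟨b, rfl⟩ := D.exists_T ha
      rw [or_iff_not_imp_left]
      intro hb0
      have hbb : b * b = b := D.T_inj (by rw [D.T_mul, haa])
      have hbe : b * e = b := D.T_inj (by rw [D.T_mul, hae])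
      apply A8_eq_of_rank haa hae (by rw [← D.T_mul, mul_comm, hbe])
      rw [hn]
      exact Nat.find_min' hex ⟨b, hbb, by rw [← hbe, mul_assoc, heε], by
        rintro rfl
        exact hb0 D.T_zero, rfl⟩
    have hesz : e * D.st e = 0 := by
      by_contra hne
      have hu : IsUnit (e * D.st e) := D.unit hF (by rw [map_mul, D.st_st, mul_comm]) hne
      have hu' : IsUnit e := isUnit_of_mul_isUnit_left hu
      have h1 := A8_unit_idem hee hu'
      rw [h1, one_mul] at heε
      exact hε1 heε
    have hes1 : e + D.st e = 1 := by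
      have h2 : (e + D.st e) * (e + D.st e) = e + D.st e := by
        have h3 : D.st e * D.st e = D.st e := by rw [← map_mul, hee]
        linear_combination hee + h3 + 2 * hesz
      apply A8_unit_idem h2
      apply D.unit hF
      · rw [map_add, D.st_st, add_comm]
      · intro h3
        apply he0
        have h4 : e * (e + D.st e) = 0 := by rw [h3, mul_zero]
        rw [mul_add, hee, hesz, add_zero] at h4
        exact h4
    have ho := hodd (D.T e) (D.T_mem e) (D.T (D.st e)) (D.T_mem _) (by rw [← D.T_mul, hee])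
      (D.T_adj e) (by rw [← D.T_mul, hesz, D.T_zero]) (by
        intro h
        apply he0
        apply D.T_inj
        rw [h, D.T_zero]) hprim
    rw [D.range_T] at ho
    have hdet := A8_swap_case two D.st D.st_st e hee hesz hes1 ho
    obtain ⟨N, hN1, hN2, hN3, -⟩ := D.lift D.st.toLinearEquiv (by
      intro a b
      show D.ψ (D.st a * D.st (D.st b)) = D.ψ (a * D.st b)
      rw [← map_mul D.st, D.psi_st hf]) (fun a => D.st a) (fun a b => map_mul D.st a b)
    exact ⟨N, hN1, hN2, by rw [hN3, hdet]⟩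

theorem tor_det [Nontrivial V] (two : (2 : K) ≠ 0) (f : V → V → K) (hf : IsHF (RingHom.id K) 1 f)
    (A : Subalgebra K (Module.End K V)) (hA : IsTor f A) (hodd : OddPos f A) :
    ∃ n ∈ Isom f, CarriesTo n A A ∧ LinearEquiv.det n = -1 := by
  obtain ⟨e, he, hee, hes, hed, hmin⟩ := A8_min hf hA (d0 := 1) one_ne_zero
  have hnt : Nontrivial (LinearMap.range e) := by
    rw [Submodule.nontrivial_iff_ne_bot]
    intro h
    rw [LinearMap.range_eq_bot] at h
    rw [h, zero_mul] at hed
    exact hed rfl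
  obtain ⟨n, hn, hnc, hnd⟩ := A8_core two (A8_isHF hf hee hes) (A8_isTor hA he hee) hmin
    (A8_oddPos hA he hee hes hodd)
  obtain ⟨N, hN1, hN2, hN3, -⟩ := A8_extend hf hA he hee hes n hn hnc
  exact ⟨N, hN1, hN2, by rw [hN3, hnd]⟩

end tor

end Pool.Agent.CTO
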