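import Pool.Agent.CTO.E0

/-!
# G1: the symplectic group is generated by transvections

`f` alternating (`σ = id`, `ε = -1`, `2 ≠ 0`, so `f v v = 0`). For `u ∈ V`, `c ∈ K` the transvection
`t_{u,c} x = x + c f(x,u) u` is in `EichSet` (`w = 0`, `γ = c`). Let `E` be the group generated by them,
`Fix g = {x | g x = x}`. Claim by induction on `dim V - dim Fix g`: every isometry `g` is in `E`.
Let `g ≠ 1`.
(a) If there is `v` with `f(g v, v) ≠ 0`: put `u = v - g v`, `c = (f(g v, u))⁻¹ = (f(g v, v))⁻¹`; then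
`t = t_{u,c}` maps `g v` to `g v + u = v`; and `t` fixes every `x ∈ Fix g`, since
`f(x, u) = f(x,v) - f(x, g v) = f(x,v) - f(g x, g v) = 0`. So `Fix (t g)` contains `Fix g` and `v ∉ Fix g`.
(b) If `f(g v, v) = 0` for all `v`: choose `y` with `u = g y - y ≠ 0` and `t = t_{u,1}`; again `t` fixes
`Fix g` pointwise; `f(t g v, v) = f(g v, v) + f(g v, u) f(u, v) = f(g v, u) f(u, v)`, which is nonzero for
some `v` (`V` is not the union of the two proper subspaces `u^⊥` and `g⁻¹ (u^⊥)`). Now apply (a) to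
`t g`: it is in `E` after multiplication with one more transvection, which increases the fixed space
of `t g`, and `Fix (t g) ≥ Fix g`.
-/

namespace Pool.Agent.CTO

open Module

variable {K V : Type} [Field K] [AddCommGroup V] [Module K V] [FiniteDimensional K V]

section G1aux

variable {f : V → V → K}

omit [FiniteDimensional K V] in
theorem G1_herm (hf : IsHF (RingHom.id K) (-1) f) (v w : V) : f w v = - f v w := by
  have h := hf.herm v w
  rw [RingHom.id_apply, neg_one_mul] at h
  exact h

omit [FiniteDimensional K V] in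
theorem G1_alt (two : (2 : K) ≠ 0) (hf : IsHF (RingHom.id K) (-1) f) (v : V) : f v v = 0 := by
  have h := G1_herm hf v v
  have h2 : 2 * f v v = 0 := by linear_combination h
  exact (mul_eq_zero.1 h2).resolve_left two

omit [FiniteDimensional K V] in
theorem G1_zero_left (hf : IsHF (RingHom.id K) (-1) f) (w : V) : f 0 w = 0 := by
  have h := hf.smul_left 0 0 w
  rw [zero_smul, zero_mul] at h
  exact h

omit [FiniteDimensional K V] in
theorem G1_zero_right (hf : IsHF (RingHom.id K) (-1) f) (w : V) : f w 0 = 0 := by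
  rw [G1_herm hf 0 w, G1_zero_left hf, neg_zero]

omit [FiniteDimensional K V] in
theorem G1_neg_left (hf : IsHF (RingHom.id K) (-1) f) (v w : V) : f (-v) w = - f v w := by
  have h := hf.smul_left (-1) v w
  rw [neg_one_smul, neg_one_mul] at h
  exact h

omit [FiniteDimensional K V] in
theorem G1_sub_left (hf : IsHF (RingHom.id K) (-1) f) (u v w : V) :
    f (u - v) w = f u w - f v w := by
  rw [sub_eq_add_neg, hf.add_left, G1_neg_left hf, ← sub_eq_add_neg]

omit [FiniteDimensional K V] in
theorem G1_sub_right (hf : IsHF (RingHom.id K) (-1) f) (u v w : V) :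
    f w (u - v) = f w u - f w v := by
  rw [G1_herm hf (u - v) w, G1_sub_left hf, G1_herm hf w u, G1_herm hf w v]
  ring

omit [FiniteDimensional K V] in
theorem G1_add_right (hf : IsHF (RingHom.id K) (-1) f) (u v w : V) :
    f w (u + v) = f w u + f w v := by
  rw [G1_herm hf (u + v) w, hf.add_left, G1_herm hf w u, G1_herm hf w v]
  ring

omit [FiniteDimensional K V] in
/-- transvections -/
theorem G1_trans (two : (2 : K) ≠ 0) (hf : IsHF (RingHom.id K) (-1) f) (u : V) (c : K) :
    ∃ t ∈ EU (RingHom.id K) (-1) f, ∀ x, t x = x + (c * f x u) • u := by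
  have hE : IsEich (RingHom.id K) (-1) f u 0 c := by
    refine ⟨G1_alt two hf u, G1_zero_left hf u, ?_⟩
    rw [G1_zero_left hf, RingHom.id_apply]
    ring
  obtain ⟨g, hg⟩ := exists_eich hf u 0 c hE
  refine ⟨g, Subgroup.subset_closure ⟨u, 0, c, hE, hg⟩, fun x => ?_⟩
  rw [hg x, smul_zero, add_zero, G1_zero_right hf, mul_zero, zero_smul, sub_zero]

end G1aux

/-- the fixed space -/
def G1_Fx (g : V ≃ₗ[K] V) : Submodule K V := LinearMap.eqLocus g.toLinearMap LinearMap.id

omit [FiniteDimensional K V] in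
theorem G1_mem_Fx (g : V ≃ₗ[K] V) (x : V) : x ∈ G1_Fx g ↔ g x = x := Iff.rfl

omit [FiniteDimensional K V] in
theorem G1_step_a (two : (2 : K) ≠ 0) {f : V → V → K} (hf : IsHF (RingHom.id K) (-1) f)
    (g : V ≃ₗ[K] V) (hg : g ∈ Isom f) (v : V) (hv : f (g v) v ≠ 0) :
    ∃ t ∈ EU (RingHom.id K) (-1) f, G1_Fx g < G1_Fx (t * g) := by
  obtain ⟨t, ht, htx⟩ := G1_trans two hf (v - g v) (f (g v) v)⁻¹
  refine ⟨t, ht, ?_⟩
  have h1 : f (g v) (v - g v) = f (g v) v := by
    rw [G1_sub_right hf, G1_alt two hf (g v), sub_zero]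
  have htgv : t (g v) = v := by
    rw [htx, h1, inv_mul_cancel₀ hv, one_smul]
    abel
  have hle : G1_Fx g ≤ G1_Fx (t * g) := by
    intro x hx
    rw [G1_mem_Fx] at hx ⊢
    rw [LinearEquiv.mul_apply, hx, htx]
    have h2 : f x (v - g v) = 0 := by
      rw [G1_sub_right hf]
      have h3 := hg x v
      rw [hx] at h3
      rw [h3, sub_self]
    rw [h2, mul_zero, zero_smul, add_zero]
  refine lt_of_le_of_ne hle fun heq => ?_
  have h3 : v ∈ G1_Fx (t * g) := by
    rw [G1_mem_Fx, LinearEquiv.mul_apply, htgv]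
  rw [← heq, G1_mem_Fx] at h3
  rw [h3] at hv
  exact hv (G1_alt two hf v)

omit [FiniteDimensional K V] in
theorem G1_step_b (two : (2 : K) ≠ 0) {f : V → V → K} (hf : IsHF (RingHom.id K) (-1) f)
    (g : V ≃ₗ[K] V) (hg : g ∈ Isom f) (hall : ∀ v, f (g v) v = 0) (y : V) (hy : g y ≠ y) :
    ∃ t ∈ EU (RingHom.id K) (-1) f, G1_Fx g ≤ G1_Fx (t * g) ∧ ∃ v, f ((t * g) v) v ≠ 0 := by
  obtain ⟨t, ht, htx⟩ := G1_trans two hf (g y - y) 1
  have hu : g y - y ≠ 0 := sub_ne_zero.2 hy
  refine ⟨t, ht, ?_, ?_⟩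
  · intro x hx
    rw [G1_mem_Fx] at hx ⊢
    rw [LinearEquiv.mul_apply, hx, htx]
    have h2 : f x (g y - y) = 0 := by
      rw [G1_sub_right hf]
      have h3 := hg x y
      rw [hx] at h3
      rw [h3, sub_self]
    rw [h2, mul_zero, zero_smul, add_zero]
  · obtain ⟨a, ha⟩ : ∃ a, f (g y - y) a ≠ 0 := by
      by_contra h
      push Not at h
      exact hu (hf.nondeg _ h)
    have hval : ∀ v, f ((t * g) v) v = f (g v) (g y - y) * f (g y - y) v := by
      intro v
      rw [LinearEquiv.mul_apply, htx, hf.add_left, hall v, hf.smul_left, one_mul, zero_add]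
    have hkey : ∃ v, f (g v) (g y - y) ≠ 0 ∧ f (g y - y) v ≠ 0 := by
      have hgb : g (g⁻¹ a) = a := LinearEquiv.apply_symm_apply g a
      have hb : f (g (g⁻¹ a)) (g y - y) ≠ 0 := by
        rw [hgb, G1_herm hf (g y - y) a]
        exact neg_ne_zero.2 ha
      by_cases h1 : f (g a) (g y - y) = 0
      · by_cases h2 : f (g y - y) (g⁻¹ a) = 0
        · refine ⟨a + g⁻¹ a, ?_, ?_⟩
          · rw [map_add, hf.add_left, h1, zero_add]
            exact hb
          · rw [G1_add_right hf, h2, add_zero]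
            exact ha
        · exact ⟨g⁻¹ a, hb, h2⟩
      · exact ⟨a, h1, ha⟩
    obtain ⟨v, h1, h2⟩ := hkey
    exact ⟨v, by rw [hval]; exact mul_ne_zero h1 h2⟩

theorem sp_gen (two : (2 : K) ≠ 0) (f : V → V → K) (hf : IsHF (RingHom.id K) (-1) f) :
    Isom f ≤ EU (RingHom.id K) (-1) f := by
  have hEI := EU_le hf
  have main : ∀ n : ℕ, ∀ g : V ≃ₗ[K] V, g ∈ Isom f →
      finrank K V ≤ n + finrank K (G1_Fx g) → g ∈ EU (RingHom.id K) (-1) f := by
    intro n
    induction n with
    | zero =>
      intro g _ hn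
      have h1 : G1_Fx g = ⊤ := by
        apply Submodule.eq_top_of_finrank_eq
        have := Submodule.finrank_le (G1_Fx g)
        omega
      have h2 : g = 1 := by
        ext x
        have h3 : x ∈ G1_Fx g := by rw [h1]; trivial
        exact h3
      rw [h2]
      exact one_mem _
    | succ n ih =>
      intro g hg hn
      -- one step of type (a)
      have stepA : ∀ g' : V ≃ₗ[K] V, g' ∈ Isom f → G1_Fx g ≤ G1_Fx g' →
          (∃ v, f (g' v) v ≠ 0) → g' ∈ EU (RingHom.id K) (-1) f := by
        rintro g' hg' hle ⟨v, hv⟩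
        obtain ⟨t, ht, hlt⟩ := G1_step_a two hf g' hg' v hv
        have h1 : finrank K (G1_Fx g') < finrank K (G1_Fx (t * g')) :=
          Submodule.finrank_lt_finrank_of_lt hlt
        have h2 : finrank K (G1_Fx g) ≤ finrank K (G1_Fx g') := Submodule.finrank_mono hle
        have h3 : t * g' ∈ EU (RingHom.id K) (-1) f :=
          ih (t * g') (mul_mem (hEI ht) hg') (by omega)
        have h4 : t⁻¹ * (t * g') ∈ EU (RingHom.id K) (-1) f := mul_mem (inv_mem ht) h3
        rwa [inv_mul_cancel_left] at h4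
      by_cases hall : ∀ v, f (g v) v = 0
      · by_cases hone : ∀ y, g y = y
        · have h2 : g = 1 := by
            ext x
            exact hone x
          rw [h2]
          exact one_mem _
        · push Not at hone
          obtain ⟨y, hy⟩ := hone
          obtain ⟨t, ht, hle, hv⟩ := G1_step_b two hf g hg hall y hy
          have h3 := stepA (t * g) (mul_mem (hEI ht) hg) hle hv
          have h4 : t⁻¹ * (t * g) ∈ EU (RingHom.id K) (-1) f := mul_mem (inv_mem ht) h3
          rwa [inv_mul_cancel_left] at h4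
      · push Not at hall
        exact stepA g hg le_rfl hall
  intro g hg
  exact main (finrank K V) g hg (by omega)

end Pool.Agent.CTO
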