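import Pool.Agent.CTO.G2

/-!
# G3: the special unitary group is generated by Eichler transformations; reflections generate

* `su_gen` (`σ ≠ id`): every isometry `g` with `det g = 1` is in `EU`. Induction on `n = dim V` over all
  spaces. `n = 0`: trivial; `n = 1`: `g` is the scalar `det g = 1`. `n ≥ 2`: choose `v` with `f v v ≠ 0` (see C1);
  by `trans_U` there is `h ∈ EU` with `h (g v) = v`; `g' = h g` fixes `v`, has determinant one
  (`eich_det`) and preserves `W = v^⊥`, `V = K v ⊕ W`; the restriction of `f` to `W` is nondegenerate,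
  `det (g'|W) = det g' = 1`, so `g'|W ∈ EU (resF f W)`; every Eichler transformation of `W` extends by
  the identity on `K v` to the Eichler transformation of `V` with the same `u, w, γ`; so `g' ∈ EU`.
* `refl_gen` (`σ = id`, `ε = 1`): every isometry is a product of reflections `x ↦ x - (2 f(x,u)/f(u,u)) u`,
  `f u u ≠ 0`. Induction on `n`: choose `v` with `f v v ≠ 0`. Since
  `f(g v - v, g v - v) + f(g v + v, g v + v) = 4 f(v,v) ≠ 0`, one of `u = g v - v`, `u' = g v + v` is
  anisotropic. In the first case the reflection in `u` maps `g v` to `v`; in the second case the reflection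
  in `u'` maps `g v` to `- v`, and then the reflection in `v` maps `-v` to `v`. So after multiplication with
  reflections `g v = v`, and `g` preserves `W = v^⊥`; by induction `g|W` is a product of reflections of `W`,
  which extend to reflections of `V`.
-/

namespace Pool.Agent.CTO

open Module

section G3basic

variable {K V : Type} [Field K] [AddCommGroup V] [Module K V] {σ : K →+* K} {ε : K}
  {f : V → V → K}

theorem G3_zero_left (hf : IsHF σ ε f) (v : V) : f 0 v = 0 := by
  have h := hf.smul_left 0 0 v
  rwa [zero_smul, zero_mul] at h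

theorem G3_neg_left (hf : IsHF σ ε f) (v w : V) : f (-v) w = - f v w := by
  have h := hf.smul_left (-1) v w
  rwa [neg_one_smul, neg_one_mul] at h

theorem G3_sub_left (hf : IsHF σ ε f) (u v w : V) : f (u - v) w = f u w - f v w := by
  rw [sub_eq_add_neg, hf.add_left, G3_neg_left hf, ← sub_eq_add_neg]

theorem G3_add_right (hf : IsHF σ ε f) (u v w : V) : f u (v + w) = f u v + f u w := by
  rw [hf.herm (v + w) u, hf.add_left, map_add, mul_add, ← hf.herm, ← hf.herm]

theorem G3_smul_right (hf : IsHF σ ε f) (a : K) (v w : V) : f v (a • w) = σ a * f v w := by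
  rw [hf.herm (a • w) v, hf.smul_left, map_mul, hf.herm w v]
  ring

theorem G3_zero_right (hf : IsHF σ ε f) (v : V) : f v 0 = 0 := by
  have h := G3_smul_right hf 0 v 0
  rwa [zero_smul, map_zero, zero_mul] at h

theorem G3_neg_right (hf : IsHF σ ε f) (v w : V) : f v (-w) = - f v w := by
  rw [hf.herm (-w) v, G3_neg_left hf, map_neg, hf.herm w v]
  ring

theorem G3_sub_right (hf : IsHF σ ε f) (u v w : V) : f u (v - w) = f u v - f u w := by
  rw [sub_eq_add_neg, G3_add_right hf, G3_neg_right hf, ← sub_eq_add_neg]

theorem G3_symm0 (hf : IsHF σ ε f) {u v : V} (h : f u v = 0) : f v u = 0 := by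
  rw [hf.herm u v, h, map_zero, mul_zero]

theorem G3_eps_ne (hf : IsHF σ ε f) : ε ≠ 0 := by
  rcases hf.eps with h | h <;> simp [h]

/-- an anisotropic vector -/
theorem G3_aniso (two : (2 : K) ≠ 0) (hf : IsHF σ ε f) (hσ : (∃ k, σ k ≠ k) ∨ ε = 1)
    (w : V) (hw : w ≠ 0) : ∃ v, f v v ≠ 0 := by
  by_contra hcon
  push Not at hcon
  have h1 : ∀ u v, f u v + f v u = 0 := by
    intro u v
    have := hcon (u + v)
    rw [hf.add_left, G3_add_right hf, G3_add_right hf, hcon, hcon] at this
    simpa using this
  obtain ⟨w', hw'⟩ : ∃ w', f w w' ≠ 0 := by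
    by_contra h
    push Not at h
    exact hw (hf.nondeg w h)
  have h2 : ∀ x : K, x + ε * σ x = 0 := by
    intro x
    have h3 := h1 ((x * (f w w')⁻¹) • w) w'
    rw [hf.herm ((x * (f w w')⁻¹) • w) w', hf.smul_left, mul_assoc, inv_mul_cancel₀ hw',
      mul_one] at h3
    exact h3
  have h3 := h2 1
  rw [map_one, mul_one] at h3
  rcases hσ with ⟨k, hk⟩ | hε
  · have h4 : ε = -1 := by linear_combination h3
    have h5 := h2 k
    rw [h4] at h5
    exact hk (by linear_combination -h5)
  · rw [hε] at h3
    exact two (by linear_combination h3)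

/-- the hyperplane orthogonal to `v` -/
def G3W (hf : IsHF σ ε f) (v : V) : Submodule K V where
  carrier := {x | f x v = 0}
  add_mem' := by
    intro a b ha hb
    have ha' : f a v = 0 := ha
    have hb' : f b v = 0 := hb
    show f (a + b) v = 0
    rw [hf.add_left, ha', hb', add_zero]
  zero_mem' := G3_zero_left hf v
  smul_mem' := by
    intro c a ha
    have ha' : f a v = 0 := ha
    show f (c • a) v = 0
    rw [hf.smul_left, ha', mul_zero]

theorem G3_memW (hf : IsHF σ ε f) (v x : V) : x ∈ G3W hf v ↔ f x v = 0 := Iff.rfl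

theorem G3_decomp (hf : IsHF σ ε f) {v : V} (hv : f v v ≠ 0) (x : V) :
    ∃ (a : K) (w : G3W hf v), x = a • v + (w : V) := by
  refine ⟨f x v / f v v, ⟨x - (f x v / f v v) • v, ?_⟩, ?_⟩
  · rw [G3_memW, G3_sub_left hf, hf.smul_left, div_mul_cancel₀ _ hv, sub_self]
  · simp

theorem G3_HF (hf : IsHF σ ε f) {v : V} (hv : f v v ≠ 0) :
    IsHF σ ε (resF f (G3W hf v)) where
  invol := hf.invol
  eps := hf.eps
  add_left := fun u v w => hf.add_left u v w
  smul_left := fun a v w => hf.smul_left a v w
  herm := fun v w => hf.herm v w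
  nondeg := by
    intro w hw
    apply Subtype.ext
    apply hf.nondeg
    intro x
    obtain ⟨a, w', rfl⟩ := G3_decomp hf hv x
    have h1 : f (w : V) v = 0 := w.2
    have h2 : f (w : V) w' = 0 := hw w'
    rw [G3_add_right hf, G3_smul_right hf, h1, h2, mul_zero, add_zero]

theorem G3_finrank [FiniteDimensional K V] (hf : IsHF σ ε f) {v : V} (hv : f v v ≠ 0) :
    finrank K (G3W hf v) < finrank K V := by
  apply Submodule.finrank_lt
  intro h
  have : v ∈ G3W hf v := by rw [h]; trivial
  exact hv this

/-- restriction of an isometry fixing `v` to the orthogonal space -/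
theorem G3_restrict (hf : IsHF σ ε f) {v : V} (g : V ≃ₗ[K] V)
    (hg : g ∈ Isom f) (hgv : g v = v) :
    ∃ gW : G3W hf v ≃ₗ[K] G3W hf v, (∀ w, ((gW w : G3W hf v) : V) = g w) ∧
      gW ∈ Isom (resF f (G3W hf v)) := by
  have h1 : ∀ x ∈ G3W hf v, g x ∈ G3W hf v := by
    intro x hx
    rw [G3_memW] at hx ⊢
    have := hg x v
    rw [hgv] at this
    rw [this, hx]
  have hg' : g⁻¹ ∈ Isom f := inv_mem hg
  have hgv' : g⁻¹ v = v := by
    have : g.symm v = v := by rw [LinearEquiv.symm_apply_eq, hgv]
    exact this
  have h2 : ∀ x ∈ G3W hf v, g⁻¹ x ∈ G3W hf v := by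
    intro x hx
    rw [G3_memW] at hx ⊢
    have := hg' x v
    rw [hgv'] at this
    rw [this, hx]
  refine ⟨LinearEquiv.ofLinearMap (g.toLinearMap.restrict h1) ((g⁻¹).toLinearMap.restrict h2)
    ?_ ?_, ?_, ?_⟩
  · ext x
    simp only [LinearMap.comp_apply, LinearMap.coe_restrict_apply, LinearEquiv.coe_coe,
      LinearMap.id_apply]
    exact LinearEquiv.apply_symm_apply g _
  · ext x
    simp only [LinearMap.comp_apply, LinearMap.coe_restrict_apply, LinearEquiv.coe_coe,
      LinearMap.id_apply]
    exact LinearEquiv.symm_apply_apply g _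
  · intro w
    rfl
  · intro x y
    exact hg x y

theorem G3_det [FiniteDimensional K V] (hf : IsHF σ ε f) {v : V}
    (g : V ≃ₗ[K] V) (hg : g ∈ Isom f) (hgv : g v = v) (gW : G3W hf v ≃ₗ[K] G3W hf v)
    (hgW : ∀ w, ((gW w : G3W hf v) : V) = g w) : LinearEquiv.det gW = LinearEquiv.det g := by
  have h1 : G3W hf v ≤ (G3W hf v).comap g.toLinearMap := by
    intro x hx
    rw [Submodule.mem_comap]
    rw [G3_memW] at hx ⊢
    have := hg x v
    rw [hgv] at this
    exact this.trans hx
  have h2 := LinearMap.det_eq_det_mul_det (G3W hf v) g.toLinearMap h1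
  have h3 : (G3W hf v).mapQ (G3W hf v) g.toLinearMap h1 = LinearMap.id := by
    ext x
    simp only [LinearMap.comp_apply, Submodule.mkQ_apply, Submodule.mapQ_apply,
      LinearMap.id_apply]
    rw [Submodule.Quotient.eq, G3_memW, G3_sub_left hf]
    have := hg x v
    rw [hgv] at this
    rw [sub_eq_zero]
    exact this
  have h4 : g.toLinearMap.restrict h1 = gW.toLinearMap := by
    ext x
    rw [LinearMap.coe_restrict_apply]
    exact (hgW x).symm
  rw [h3, h4, LinearMap.det_id, mul_one] at h2
  apply Units.ext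
  rw [LinearEquiv.coe_det, LinearEquiv.coe_det]
  exact h2.symm

/-- extension from generators -/
theorem G3_ext (hf : IsHF σ ε f) {v : V} (SW : Set (G3W hf v ≃ₗ[K] G3W hf v))
    (S : Subgroup (V ≃ₗ[K] V))
    (hS : ∀ h ∈ SW, ∃ H ∈ S, H v = v ∧ ∀ w : G3W hf v, H w = ((h w : G3W hf v) : V)) :
    ∀ h ∈ Subgroup.closure SW, ∃ H ∈ S, H v = v ∧
      ∀ w : G3W hf v, H w = ((h w : G3W hf v) : V) := by
  intro h hh
  induction hh using Subgroup.closure_induction with
  | mem x hx => exact hS x hx
  | one => exact ⟨1, one_mem _, rfl, fun w => rfl⟩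
  | mul x y _ _ hx hy =>
    obtain ⟨X, hX, hXv, hXw⟩ := hx
    obtain ⟨Y, hY, hYv, hYw⟩ := hy
    refine ⟨X * Y, mul_mem hX hY, ?_, ?_⟩
    · rw [LinearEquiv.mul_apply, hYv, hXv]
    · intro w
      rw [LinearEquiv.mul_apply, hYw, hXw, LinearEquiv.mul_apply]
  | inv x _ hx =>
    obtain ⟨X, hX, hXv, hXw⟩ := hx
    refine ⟨X⁻¹, inv_mem hX, ?_, ?_⟩
    · have : X.symm v = v := by rw [LinearEquiv.symm_apply_eq, hXv]
      exact this
    · intro w
      have : X.symm (w : V) = ((x⁻¹ w : G3W hf v) : V) := by
        rw [LinearEquiv.symm_apply_eq, hXw]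
        congr 1
        exact (LinearEquiv.apply_symm_apply x w).symm
      exact this

/-- reflections exist -/
theorem G3_refl_exists (hf : IsHF σ ε f) (u : V) (hu : f u u ≠ 0) :
    ∃ r : V ≃ₗ[K] V, IsRefl f u r := by
  let R : V →ₗ[K] V :=
    { toFun := fun x => x - (2 * f x u / f u u) • u
      map_add' := by
        intro x y
        rw [hf.add_left, mul_add, add_div, add_smul]
        abel
      map_smul' := by
        intro a x
        rw [hf.smul_left, RingHom.id_apply, smul_sub, smul_smul]
        congr 2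
        ring }
  have hR : ∀ x, R x = x - (2 * f x u / f u u) • u := fun x => rfl
  have hinv : Function.Involutive R := by
    intro x
    rw [hR (R x), hR x, G3_sub_left hf, hf.smul_left, div_mul_cancel₀ _ hu]
    have : 2 * (f x u - 2 * f x u) / f u u = - (2 * f x u / f u u) := by ring
    rw [this, neg_smul]
    abel
  exact ⟨LinearEquiv.ofInvolutive R hinv, hu, fun x => rfl⟩

end G3basic

theorem su_gen (K V : Type) [Field K] [Finite K] [AddCommGroup V] [Module K V] [FiniteDimensional K V]
    (two : (2 : K) ≠ 0) (σ : K →+* K) (hσ : ∃ k, σ k ≠ k) (ε : K) (f : V → V → K)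
    (hf : IsHF σ ε f) (g : V ≃ₗ[K] V) (hg : g ∈ Isom f) (hd : LinearEquiv.det g = 1) :
    g ∈ EU σ ε f := by
  obtain ⟨n, hn⟩ : ∃ n, finrank K V ≤ n := ⟨_, le_rfl⟩
  induction n generalizing V with
  | zero =>
    have h0 : finrank K V = 0 := by omega
    have : Subsingleton V := finrank_zero_iff.1 h0
    have hg1 : g = 1 := by
      ext x
      exact Subsingleton.elim _ _
    rw [hg1]; exact one_mem _
  | succ n ih =>
    by_cases h2 : 2 ≤ finrank K V
    · have hne : ∃ w : V, w ≠ 0 := by
        have : Nontrivial V := Module.nontrivial_of_finrank_pos (R := K) (by omega)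
        exact exists_ne 0
      obtain ⟨w, hw⟩ := hne
      obtain ⟨v, hv⟩ := G3_aniso two hf (Or.inl hσ) w hw
      have hgv : f (g v) (g v) = f v v := hg v v
      obtain ⟨h, hh, hhv⟩ := trans_U two σ hσ ε f hf h2 (g v) v (by rw [hgv]; exact hv) hgv
      have hhI : h ∈ Isom f := EU_le hf hh
      have hd' : LinearEquiv.det (h * g) = 1 := by
        rw [map_mul, eich_det hf h hh, hd, one_mul]
      have hgI : h * g ∈ Isom f := mul_mem hhI hg
      have hfix : (h * g) v = v := by rw [LinearEquiv.mul_apply, hhv]
      obtain ⟨gW, hgW, hgWI⟩ := G3_restrict hf (h * g) hgI hfix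
      have hgWd : LinearEquiv.det gW = 1 := by
        rw [G3_det hf (h * g) hgI hfix gW hgW, hd']
      have hlt := G3_finrank hf hv
      have hmem := ih (G3W hf v) (resF f (G3W hf v)) (G3_HF hf hv) gW hgWI hgWd (by omega)
      have hext := G3_ext hf (v := v) (EichSet σ ε (resF f (G3W hf v))) (EU σ ε f) (by
        rintro x ⟨u, w', γ, hE, hx⟩
        have hE' : IsEich σ ε f (u : V) (w' : V) γ := hE
        obtain ⟨H, hH⟩ := exists_eich hf (u : V) (w' : V) γ hE'
        refine ⟨H, Subgroup.subset_closure ⟨u, w', γ, hE', hH⟩, ?_, ?_⟩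
        · rw [hH, G3_symm0 hf u.2, G3_symm0 hf w'.2]
          simp
        · intro y
          rw [hH, hx]
          rfl) gW hmem
      obtain ⟨H, hH, hHv, hHw⟩ := hext
      have heq : h * g = H := by
        ext x
        obtain ⟨a, y, rfl⟩ := G3_decomp hf hv x
        rw [map_add, map_add, map_smul, map_smul, hfix, hHv, hHw, hgW]
      have : g = h⁻¹ * H := by rw [← heq]; group
      rw [this]
      exact mul_mem (inv_mem hh) hH
    · -- dimension at most one
      rcases Nat.lt_or_ge (finrank K V) 1 with h0 | h0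
      · have h0 : finrank K V = 0 := by omega
        have : Subsingleton V := finrank_zero_iff.1 h0
        have hg1 : g = 1 := by
          ext x
          exact Subsingleton.elim _ _
        rw [hg1]; exact one_mem _
      · have h1 : finrank K V = 1 := by omega
        obtain ⟨c, hc⟩ : ∃ c : K, g.toLinearMap = c • LinearMap.id := by
          obtain ⟨v, hv0, hv⟩ := finrank_eq_one_iff'.1 h1
          obtain ⟨c, hc⟩ := hv (g v)
          refine ⟨c, ?_⟩
          ext x
          obtain ⟨a, ha⟩ := hv x
          simp only [LinearEquiv.coe_coe, LinearMap.smul_apply, LinearMap.id_apply]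
          rw [← ha, map_smul, ← hc, smul_comm]
        have hdet : LinearMap.det g.toLinearMap = 1 := by
          rw [← LinearEquiv.coe_det, hd]; rfl
        rw [hc, LinearMap.det_smul, LinearMap.det_id, h1, pow_one, mul_one] at hdet
        rw [hdet, one_smul] at hc
        have hg1 : g = 1 := by
          ext x
          have := LinearMap.congr_fun hc x
          exact this
        rw [hg1]; exact one_mem _

theorem refl_gen (K V : Type) [Field K] [AddCommGroup V] [Module K V] [FiniteDimensional K V]
    (two : (2 : K) ≠ 0) (f : V → V → K) (hf : IsHF (RingHom.id K) 1 f) :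
    Isom f ≤ Subgroup.closure {g | ∃ u, IsRefl f u g} := by
  obtain ⟨n, hn⟩ : ∃ n, finrank K V ≤ n := ⟨_, le_rfl⟩
  induction n generalizing V with
  | zero =>
    intro g _
    have h0 : finrank K V = 0 := by omega
    have : Subsingleton V := finrank_zero_iff.1 h0
    have hg1 : g = 1 := by
      ext x
      exact Subsingleton.elim _ _
    rw [hg1]; exact one_mem _
  | succ n ih =>
    intro g hg
    by_cases h0 : ∀ w : V, w = 0
    · have hg1 : g = 1 := by
        ext x
        rw [h0 x, map_zero, map_zero]
      rw [hg1]; exact one_mem _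
    push Not at h0
    obtain ⟨w, hw⟩ := h0
    obtain ⟨v, hv⟩ := G3_aniso two hf (Or.inr rfl) w hw
    have hsymm : ∀ x y, f x y = f y x := by
      intro x y
      have := hf.herm y x
      simpa using this
    set S := Subgroup.closure {g : V ≃ₗ[K] V | ∃ u, IsRefl f u g} with hS
    -- an element of `S` mapping `g v` to `v`
    obtain ⟨s, hs, hsI, hsv⟩ : ∃ s ∈ S, s ∈ Isom f ∧ s (g v) = v := by
      have hreflI : ∀ u r, IsRefl f u r → r ∈ Isom f := by
        intro u r hr x y
        obtain ⟨hu, hr⟩ := hr
        rw [hr, hr, G3_sub_left hf, G3_sub_right hf, G3_sub_right hf, hf.smul_left, hf.smul_left,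
          G3_smul_right hf, G3_smul_right hf, RingHom.id_apply, hsymm u y]
        field_simp
        ring
      have hgv : f (g v) (g v) = f v v := hg v v
      by_cases hu : f (g v - v) (g v - v) = 0
      · have hsum : f (g v + v) (g v + v) ≠ 0 := by
          intro h
          have h1 : f (g v - v) (g v - v) + f (g v + v) (g v + v) = 4 * f v v := by
            rw [G3_sub_left hf, G3_sub_right hf, G3_sub_right hf, hf.add_left, G3_add_right hf,
              G3_add_right hf, hgv]
            ring
          rw [hu, h, add_zero] at h1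
          have : (4 : K) = 2 * 2 := by norm_num
          rw [this] at h1
          exact (mul_ne_zero (mul_ne_zero two two) hv) h1.symm
        obtain ⟨r, hr⟩ := G3_refl_exists hf (g v + v) hsum
        obtain ⟨r', hr'⟩ := G3_refl_exists hf v hv
        refine ⟨r' * r, mul_mem (Subgroup.subset_closure ⟨_, hr'⟩)
          (Subgroup.subset_closure ⟨_, hr⟩), mul_mem (hreflI _ _ hr') (hreflI _ _ hr), ?_⟩
        rw [LinearEquiv.mul_apply]
        have h1 : r (g v) = - v := by
          rw [hr.2]
          have h2 : 2 * f (g v) (g v + v) = f (g v + v) (g v + v) := by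
            rw [hf.add_left, G3_add_right hf, G3_add_right hf, hgv, hsymm v (g v)]
            ring
          rw [h2, div_self hsum, one_smul]
          abel
        rw [h1, hr'.2, G3_neg_left hf]
        have h3 : 2 * -f v v / f v v = -2 := by field_simp
        rw [h3, neg_smul, two_smul]
        abel
      · obtain ⟨r, hr⟩ := G3_refl_exists hf (g v - v) hu
        refine ⟨r, Subgroup.subset_closure ⟨_, hr⟩, hreflI _ _ hr, ?_⟩
        rw [hr.2]
        have h2 : 2 * f (g v) (g v - v) = f (g v - v) (g v - v) := by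
          rw [G3_sub_left hf, G3_sub_right hf, G3_sub_right hf, hgv, hsymm v (g v)]
          ring
        rw [h2, div_self hu, one_smul]
        abel
    have hgI : s * g ∈ Isom f := mul_mem hsI hg
    have hfix : (s * g) v = v := by rw [LinearEquiv.mul_apply, hsv]
    obtain ⟨gW, hgW, hgWI⟩ := G3_restrict hf (s * g) hgI hfix
    have hlt := G3_finrank hf hv
    have hmem := ih (G3W hf v) (resF f (G3W hf v)) (G3_HF hf hv) (by omega) hgWI
    have hext := G3_ext hf (v := v) {g | ∃ u, IsRefl (resF f (G3W hf v)) u g} S (by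
      rintro x ⟨u, hu, hx⟩
      have hu' : f (u : V) (u : V) ≠ 0 := hu
      obtain ⟨H, hH⟩ := G3_refl_exists hf (u : V) hu'
      refine ⟨H, Subgroup.subset_closure ⟨u, hH⟩, ?_, ?_⟩
      · rw [hH.2, G3_symm0 hf u.2]
        simp
      · intro y
        rw [hH.2, hx]
        rfl) gW hmem
    obtain ⟨H, hH, hHv, hHw⟩ := hext
    have heq : s * g = H := by
      ext x
      obtain ⟨a, y, rfl⟩ := G3_decomp hf hv x
      rw [map_add, map_add, map_smul, map_smul, hfix, hHv, hHw, hgW]
    have : g = s⁻¹ * H := by rw [← heq]; group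
    rw [this]
    exact mul_mem (inv_mem hs) hH

end Pool.Agent.CTO
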