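import Pool.Agent.CTO.Base

/-!
# Y1: classification of symmetric and alternating forms over finite fields

* `iso_alt`: nondegenerate alternating forms on spaces of the same dimension are isometric (`2 ≠ 0`; any
  field): symplectic bases by induction: take `v ≠ 0`, `w` with `f v w = 1`, split off the plane.
* `iso_sym`: nondegenerate symmetric forms on spaces `W`, `W'` of the same dimension `n` over a finite field of
  odd characteristic, whose Gram determinants (in some bases) differ by a square, are isometric. Induction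
  on `n` (over all spaces): `n = 0` trivial; `n = 1`: `f = a x²`, `f' = a' x²`, `a a'` is a square. `n ≥ 2`: both forms
  represent `1` (orthogonal basis and `FiniteField.exists_root_sum_quadratic`): `f v v = 1`, `f' v' v' = 1`;
  the orthogonal spaces of `v`, `v'` have dimension `n - 1` and Gram determinants `d`, `d'` up to squares.
* `disc_iso`: isometric spaces have Gram determinants which differ by a square (change of basis).
-/

namespace Pool.Agent.CTO

open Module

section

/-- The Gram determinant of a basis. -/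
noncomputable def gram {K W : Type} [Field K] [AddCommGroup W] [Module K W] (f : W → W → K)
    {n : ℕ} (b : Fin n → W) : K := Matrix.det (Matrix.of fun i j => f (b i) (b j))

theorem Y1_add_right {K W : Type} [Field K] [AddCommGroup W] [Module K W] {ε : K} {f : W → W → K}
    (hf : IsHF (RingHom.id K) ε f) (u v w : W) : f u (v + w) = f u v + f u w := by
  rw [hf.herm (v + w) u, hf.add_left, hf.herm v u, hf.herm w u]
  simp only [RingHom.id_apply]
  ring

theorem Y1_smul_right {K W : Type} [Field K] [AddCommGroup W] [Module K W] {ε : K} {f : W → W → K}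
    (hf : IsHF (RingHom.id K) ε f) (k : K) (v w : W) : f v (k • w) = k * f v w := by
  rw [hf.herm (k • w) v, hf.smul_left, hf.herm w v]
  simp only [RingHom.id_apply]
  ring

/-- the bilinear form -/
noncomputable def Y1_BL {K W : Type} [Field K] [AddCommGroup W] [Module K W] {ε : K}
    {f : W → W → K} (hf : IsHF (RingHom.id K) ε f) : LinearMap.BilinForm K W :=
  LinearMap.mk₂ K f hf.add_left (fun c v w => hf.smul_left c v w) (Y1_add_right hf)
    (fun c v w => Y1_smul_right hf c v w)

theorem Y1_BL_apply {K W : Type} [Field K] [AddCommGroup W] [Module K W] {ε : K}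
    {f : W → W → K} (hf : IsHF (RingHom.id K) ε f) (v w : W) : Y1_BL hf v w = f v w := rfl

theorem Y1_iso {ι K W W' : Type} [Field K] [AddCommGroup W] [Module K W] [AddCommGroup W']
    [Module K W'] {ε ε' : K} {f : W → W → K} {f' : W' → W' → K} (hf : IsHF (RingHom.id K) ε f)
    (hf' : IsHF (RingHom.id K) ε' f') (c : Basis ι K W) (c' : Basis ι K W')
    (h : ∀ i j, f' (c' i) (c' j) = f (c i) (c j)) :
    ∃ φ : W ≃ₗ[K] W', ∀ v w, f' (φ v) (φ w) = f v w := by
  let φ : W ≃ₗ[K] W' := c.equiv c' (Equiv.refl ι)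
  refine ⟨φ, fun v w => ?_⟩
  have key : (Y1_BL hf').compl₁₂ φ.toLinearMap φ.toLinearMap = Y1_BL hf := by
    apply LinearMap.ext_basis c c
    intro i j
    have h1 : ∀ i, φ (c i) = c' i := fun i => by
      rw [Basis.equiv_apply]
      rfl
    change f' (φ (c i)) (φ (c j)) = f (c i) (c j)
    rw [h1, h1, h]
  exact LinearMap.congr_fun (LinearMap.congr_fun key v) w

theorem Y1_gram {K W : Type} [Field K] [AddCommGroup W] [Module K W] {ε : K} {f : W → W → K}
    (hf : IsHF (RingHom.id K) ε f) {n : ℕ} (b c : Basis (Fin n) K W) :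
    ∃ t : K, gram f c = t ^ 2 * gram f b := by
  refine ⟨(b.toMatrix c).det, ?_⟩
  have h := LinearMap.BilinForm.toMatrix_mul_basis_toMatrix (b := b) c (Y1_BL hf)
  have h1 : ∀ b : Basis (Fin n) K W, LinearMap.BilinForm.toMatrix b (Y1_BL hf) =
      Matrix.of fun i j => f (b i) (b j) := by
    intro b
    ext i j
    rw [LinearMap.BilinForm.toMatrix_apply]
    rfl
  rw [h1, h1] at h
  rw [gram, gram, ← h, Matrix.det_mul, Matrix.det_mul, Matrix.det_transpose]
  ring

/-- the orthogonal space of `u` -/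
noncomputable def Y1_perp {K W : Type} [Field K] [AddCommGroup W] [Module K W] {ε : K}
    {f : W → W → K} (hf : IsHF (RingHom.id K) ε f) (u : W) : Submodule K W :=
  LinearMap.ker ((Y1_BL hf).flip u)

theorem Y1_mem_perp {K W : Type} [Field K] [AddCommGroup W] [Module K W] {ε : K}
    {f : W → W → K} (hf : IsHF (RingHom.id K) ε f) (u x : W) :
    x ∈ Y1_perp hf u ↔ f x u = 0 := Iff.rfl

theorem Y1_perp_hf {K W : Type} [Field K] [AddCommGroup W] [Module K W] {ε : K}
    {f : W → W → K} (hf : IsHF (RingHom.id K) ε f) (u : W) (hu : f u u ≠ 0) :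
    IsHF (RingHom.id K) ε (resF f (Y1_perp hf u)) := by
  refine ⟨hf.invol, hf.eps, fun v w x => hf.add_left _ _ _, fun a v w => hf.smul_left _ _ _,
    fun v w => hf.herm _ _, fun v hv => ?_⟩
  apply Subtype.ext
  apply hf.nondeg
  intro z
  have h1 : z - (f z u / f u u) • u ∈ Y1_perp hf u := by
    rw [Y1_mem_perp, sub_eq_add_neg, ← neg_smul, hf.add_left, hf.smul_left]
    field_simp
    ring
  have h2 : f v (z - (f z u / f u u) • u) = 0 := hv ⟨_, h1⟩
  have h3 : f v u = 0 := (Y1_mem_perp hf u v).1 v.2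
  rw [sub_eq_add_neg, ← neg_smul, Y1_add_right hf, Y1_smul_right hf, h3, mul_zero, add_zero] at h2
  exact h2

theorem Y1_cons {K W : Type} [Field K] [AddCommGroup W] [Module K W] {ε : K}
    {f : W → W → K} (hf : IsHF (RingHom.id K) ε f) (u : W) (hu : f u u ≠ 0) {n : ℕ}
    (p : Basis (Fin n) K (Y1_perp hf u)) :
    ∃ c : Basis (Fin (n + 1)) K W, c 0 = u ∧ (∀ i, c (Fin.succ i) = p i) ∧
      gram f c = f u u * gram (resF f (Y1_perp hf u)) p := by
  let c : Basis (Fin (n + 1)) K W := Basis.mkFinCons u p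
    (fun a x hx h => by
      have h1 : f (a • u + x) u = 0 := by
        have := hf.smul_left 0 0 u
        rw [zero_smul, zero_mul] at this
        rw [h, this]
      rw [hf.add_left, hf.smul_left, (Y1_mem_perp hf u x).1 hx, add_zero] at h1
      exact (mul_eq_zero.1 h1).resolve_right hu)
    (fun z => by
      refine ⟨-(f z u / f u u), ?_⟩
      rw [Y1_mem_perp, hf.add_left, hf.smul_left]
      field_simp
      ring)
  have hc : (c : Fin (n + 1) → W) = Fin.cons u ((↑) ∘ p) := Basis.coe_mkFinCons _ _ _ _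
  have h0 : c 0 = u := by rw [hc]; rfl
  have hs : ∀ i, c (Fin.succ i) = p i := fun i => by rw [hc]; rfl
  refine ⟨c, h0, hs, ?_⟩
  rw [gram, Matrix.det_succ_row_zero, Fin.sum_univ_succ]
  have h2 : ∀ j : Fin n, f u (p j) = 0 := by
    intro j
    rw [hf.herm (p j : W) u, (Y1_mem_perp hf u (p j)).1 (p j).2, map_zero, mul_zero]
  have h3 : ∑ j : Fin n, (-1 : K) ^ ((Fin.succ j : Fin (n + 1)) : ℕ) *
      (Matrix.of fun i j => f (c i) (c j)) 0 (Fin.succ j) *
      ((Matrix.of fun i j => f (c i) (c j)).submatrix Fin.succ (Fin.succ j).succAbove).det = 0 := by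
    refine Finset.sum_eq_zero fun j _ => ?_
    rw [Matrix.of_apply, h0, hs, h2, mul_zero, zero_mul]
  rw [h3, add_zero, Matrix.of_apply, h0]
  have h4 : (Matrix.of fun i j => f (c i) (c j)).submatrix Fin.succ (Fin.succAbove 0) =
      Matrix.of fun i j => resF f (Y1_perp hf u) (p i) (p j) := by
    ext i j
    rw [Matrix.submatrix_apply, Matrix.of_apply, Matrix.of_apply, Fin.succAbove_zero, hs, hs]
    rfl
  rw [h4]
  simp [gram]

theorem Y1_exists_ne {K W : Type} [Field K] [AddCommGroup W] [Module K W] (two : (2 : K) ≠ 0)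
    {f : W → W → K} (hf : IsHF (RingHom.id K) 1 f) [Nontrivial W] : ∃ u, f u u ≠ 0 := by
  by_contra hcon
  push Not at hcon
  obtain ⟨u, hu⟩ := exists_ne (0 : W)
  apply hu
  apply hf.nondeg
  intro w
  have h1 := hcon (u + w)
  have h2 : f w u = f u w := by rw [hf.herm u w, one_mul]; rfl
  rw [hf.add_left, Y1_add_right hf, Y1_add_right hf, hcon u, hcon w, h2, zero_add, add_zero,
    ← two_mul] at h1
  exact (mul_eq_zero.1 h1).resolve_left two

theorem Y1_quad {K : Type} [Field K] [Finite K] (two : (2 : K) ≠ 0) {a b : K} (ha : a ≠ 0)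
    (hb : b ≠ 0) : ∃ x y, a * x ^ 2 + b * y ^ 2 = 1 := by
  have : Fintype K := Fintype.ofFinite K
  have hodd : Fintype.card K % 2 = 1 := by
    apply FiniteField.odd_card_of_char_ne_two
    intro h
    apply two
    have := ringChar.Nat.cast_ringChar (R := K)
    rw [h] at this
    exact_mod_cast this
  have h1 : (Polynomial.C a * Polynomial.X ^ 2 : Polynomial K).degree = 2 :=
    Polynomial.degree_C_mul_X_pow 2 ha
  have h2 : (Polynomial.C b * Polynomial.X ^ 2 - Polynomial.C 1 : Polynomial K).degree = 2 := by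
    rw [Polynomial.degree_sub_eq_left_of_degree_lt]
    · exact Polynomial.degree_C_mul_X_pow 2 hb
    · rw [Polynomial.degree_C_mul_X_pow 2 hb]
      exact lt_of_le_of_lt Polynomial.degree_C_le (by norm_num)
  obtain ⟨x, y, hxy⟩ := FiniteField.exists_root_sum_quadratic h1 h2 hodd
  refine ⟨x, y, ?_⟩
  simp only [Polynomial.eval_mul, Polynomial.eval_C, Polynomial.eval_pow, Polynomial.eval_X,
    Polynomial.eval_sub] at hxy
  linear_combination hxy

theorem Y1_unit {K W : Type} [Field K] [Finite K] [AddCommGroup W] [Module K W]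
    (two : (2 : K) ≠ 0) {f : W → W → K} (hf : IsHF (RingHom.id K) 1 f) [FiniteDimensional K W]
    (h2 : 2 ≤ finrank K W) : ∃ v, f v v = 1 := by
  have hnt : Nontrivial W := Module.nontrivial_of_finrank_pos (R := K) (by omega)
  obtain ⟨u, hu⟩ := Y1_exists_ne two hf
  obtain ⟨c, -, -, -⟩ := Y1_cons hf u hu (finBasis K (Y1_perp hf u))
  have h3 := Module.finrank_eq_card_basis c
  rw [Fintype.card_fin] at h3
  have hnt' : Nontrivial (Y1_perp hf u) := Module.nontrivial_of_finrank_pos (R := K) (by omega)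
  obtain ⟨w, hw⟩ := Y1_exists_ne two (Y1_perp_hf hf u hu)
  have hw' : f w w ≠ 0 := hw
  obtain ⟨x, y, hxy⟩ := Y1_quad two hu hw'
  have hwu : f w u = 0 := (Y1_mem_perp hf u w).1 w.2
  have huw : f u w = 0 := by rw [hf.herm (w : W) u, hwu, map_zero, mul_zero]
  refine ⟨x • u + y • (w : W), ?_⟩
  rw [hf.add_left, hf.smul_left, hf.smul_left, Y1_add_right hf, Y1_add_right hf,
    Y1_smul_right hf, Y1_smul_right hf, Y1_smul_right hf, Y1_smul_right hf, hwu, huw]
  linear_combination hxy

theorem Y1_one {K W : Type} [Field K] [AddCommGroup W] [Module K W] {ε : K} {f : W → W → K}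
    (hf : IsHF (RingHom.id K) ε f) (b : Basis (Fin (0 + 1)) K W) : f (b 0) (b 0) ≠ 0 := by
  intro h
  have h1 : b 0 = 0 := by
    apply hf.nondeg
    intro w
    have h2 := b.sum_repr w
    rw [Fin.sum_univ_succ, Fin.sum_univ_zero, add_zero] at h2
    rw [← h2, Y1_smul_right hf, h, mul_zero]
  exact b.ne_zero 0 h1

theorem Y1_sym (K : Type) [Field K] [Finite K] (two : (2 : K) ≠ 0) (n : ℕ) :
    ∀ (W W' : Type) [AddCommGroup W] [Module K W] [AddCommGroup W'] [Module K W']
    (f : W → W → K) (f' : W' → W' → K) (_ : IsHF (RingHom.id K) 1 f)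
    (_ : IsHF (RingHom.id K) 1 f') (b : Basis (Fin n) K W) (b' : Basis (Fin n) K W')
    (_ : IsSquare (gram f b * gram f' b')),
    ∃ φ : W ≃ₗ[K] W', ∀ v w, f' (φ v) (φ w) = f v w := by
  induction n with
  | zero =>
    intro W W' _ _ _ _ f f' hf hf' b b' _
    exact Y1_iso hf hf' b b' (fun i => Fin.elim0 i)
  | succ n ih =>
    intro W W' _ _ _ _ f f' hf hf' b b' h
    rcases Nat.eq_zero_or_pos n with rfl | hn
    · obtain ⟨s, hs⟩ := h
      have hg : gram f b = f (b 0) (b 0) := by
        rw [gram, Matrix.det_fin_one]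
        rfl
      have hg' : gram f' b' = f' (b' 0) (b' 0) := by
        rw [gram, Matrix.det_fin_one]
        rfl
      rw [hg, hg'] at hs
      have hA : f (b 0) (b 0) ≠ 0 := Y1_one hf b
      have hA' : f' (b' 0) (b' 0) ≠ 0 := Y1_one hf' b'
      have hs0 : s ≠ 0 := by
        rintro rfl
        rw [zero_mul] at hs
        rcases mul_eq_zero.1 hs with h | h
        · exact hA h
        · exact hA' h
      have hk : s / f' (b' 0) (b' 0) ≠ 0 := div_ne_zero hs0 hA'
      refine Y1_iso hf hf' b (b'.unitsSMul (fun _ => Units.mk0 _ hk)) (fun i j => ?_)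
      rw [Fin.fin_one_eq_zero i, Fin.fin_one_eq_zero j, Basis.unitsSMul_apply]
      change f' ((s / f' (b' 0) (b' 0)) • b' 0) ((s / f' (b' 0) (b' 0)) • b' 0) = _
      rw [hf'.smul_left, Y1_smul_right hf']
      field_simp
      linear_combination -hs
    · have hfd : FiniteDimensional K W := Module.Finite.of_basis b
      have hfd' : FiniteDimensional K W' := Module.Finite.of_basis b'
      have hr := Module.finrank_eq_card_basis b
      have hr' := Module.finrank_eq_card_basis b'
      rw [Fintype.card_fin] at hr hr'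
      obtain ⟨v, hv⟩ := Y1_unit two hf (by omega)
      obtain ⟨v', hv'⟩ := Y1_unit two hf' (by omega)
      have hv0 : f v v ≠ 0 := by rw [hv]; exact one_ne_zero
      have hv0' : f' v' v' ≠ 0 := by rw [hv']; exact one_ne_zero
      have hdim : finrank K (Y1_perp hf v) = n := by
        obtain ⟨c, -, -, -⟩ := Y1_cons hf v hv0 (finBasis K (Y1_perp hf v))
        have h3 := Module.finrank_eq_card_basis c
        rw [Fintype.card_fin] at h3
        omega
      have hdim' : finrank K (Y1_perp hf' v') = n := by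
        obtain ⟨c, -, -, -⟩ := Y1_cons hf' v' hv0' (finBasis K (Y1_perp hf' v'))
        have h3 := Module.finrank_eq_card_basis c
        rw [Fintype.card_fin] at h3
        omega
      let p := finBasisOfFinrankEq K (Y1_perp hf v) hdim
      let p' := finBasisOfFinrankEq K (Y1_perp hf' v') hdim'
      obtain ⟨c, hc0, hcs, hcg⟩ := Y1_cons hf v hv0 p
      obtain ⟨c', hc0', hcs', hcg'⟩ := Y1_cons hf' v' hv0' p'
      rw [hv, one_mul] at hcg
      rw [hv', one_mul] at hcg'
      obtain ⟨t, ht⟩ := Y1_gram hf b c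
      obtain ⟨t', ht'⟩ := Y1_gram hf' b' c'
      obtain ⟨s, hs⟩ := h
      have hsq : IsSquare (gram (resF f (Y1_perp hf v)) p *
          gram (resF f' (Y1_perp hf' v')) p') := by
        refine ⟨t * t' * s, ?_⟩
        rw [← hcg, ← hcg', ht, ht']
        linear_combination (t ^ 2 * t' ^ 2) * hs
      obtain ⟨φ, hφ⟩ := ih _ _ _ _ (Y1_perp_hf hf v hv0) (Y1_perp_hf hf' v' hv0') p p' hsq
      obtain ⟨c2, hc20, hc2s, -⟩ := Y1_cons hf' v' hv0' (p.map φ)
      have hz : ∀ i, f v (p i) = 0 := fun i => by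
        rw [hf.herm (p i : W) v, (Y1_mem_perp hf v (p i)).1 (p i).2, map_zero, mul_zero]
      have hz' : ∀ i, f' v' ((p.map φ) i) = 0 := fun i => by
        rw [hf'.herm ((p.map φ) i : W') v', (Y1_mem_perp hf' v' ((p.map φ) i)).1 ((p.map φ) i).2,
          map_zero, mul_zero]
      refine Y1_iso hf hf' c c2 (fun i j => ?_)
      refine Fin.cases ?_ (fun i => ?_) i <;> refine Fin.cases ?_ (fun j => ?_) j
      · rw [hc0, hc20, hv, hv']
      · rw [hc0, hc20, hcs, hc2s, hz, hz']
      · rw [hc0, hc20, hcs, hc2s, (Y1_mem_perp hf v (p i)).1 (p i).2,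
          (Y1_mem_perp hf' v' ((p.map φ) i)).1 ((p.map φ) i).2]
      · rw [hcs, hcs, hc2s, hc2s, Basis.map_apply, Basis.map_apply]
        exact hφ (p i) (p j)

/-- the orthogonal space of `v` and `w` -/
noncomputable def Y1_P {K W : Type} [Field K] [AddCommGroup W] [Module K W] {ε : K}
    {f : W → W → K} (hf : IsHF (RingHom.id K) ε f) (v w : W) : Submodule K W :=
  LinearMap.ker ((Y1_BL hf).flip v) ⊓ LinearMap.ker ((Y1_BL hf).flip w)

theorem Y1_mem_P {K W : Type} [Field K] [AddCommGroup W] [Module K W] {ε : K}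
    {f : W → W → K} (hf : IsHF (RingHom.id K) ε f) (v w x : W) :
    x ∈ Y1_P hf v w ↔ f x v = 0 ∧ f x w = 0 := Iff.rfl

theorem Y1_dec {K W : Type} [Field K] [AddCommGroup W] [Module K W]
    {f : W → W → K} (hf : IsHF (RingHom.id K) (-1) f) (v w : W) (hvw : f v w = 1)
    (hvv : f v v = 0) (hww : f w w = 0) :
    IsHF (RingHom.id K) (-1) (resF f (Y1_P hf v w)) ∧
    ∃ e : (K × K × Y1_P hf v w) ≃ₗ[K] W, ∀ q q', f (e q) (e q') =
      q.1 * q'.2.1 - q.2.1 * q'.1 + f q.2.2 q'.2.2 := by
  have hwv : f w v = -1 := by rw [hf.herm v w, hvw]; simp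
  have hmem : ∀ z, z - f z w • v + f z v • w ∈ Y1_P hf v w := by
    intro z
    rw [Y1_mem_P, sub_eq_add_neg, ← neg_smul]
    constructor
    · rw [hf.add_left, hf.add_left, hf.smul_left, hf.smul_left, hvv, hwv]
      ring
    · rw [hf.add_left, hf.add_left, hf.smul_left, hf.smul_left, hvw, hww]
      ring
  have hP : ∀ x : Y1_P hf v w, f x v = 0 ∧ f x w = 0 := fun x => (Y1_mem_P hf v w x).1 x.2
  have hP' : ∀ x : Y1_P hf v w, f v x = 0 ∧ f w x = 0 := fun x => by
    rw [hf.herm (x : W) v, hf.herm (x : W) w, (hP x).1, (hP x).2]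
    simp
  refine ⟨⟨hf.invol, hf.eps, fun _ _ _ => hf.add_left _ _ _, fun _ _ _ => hf.smul_left _ _ _,
    fun _ _ => hf.herm _ _, fun x hx => ?_⟩, ?_⟩
  · apply Subtype.ext
    apply hf.nondeg
    intro z
    have h2 : f x (z - f z w • v + f z v • w) = 0 := hx ⟨_, hmem z⟩
    rw [sub_eq_add_neg, ← neg_smul, Y1_add_right hf, Y1_add_right hf, Y1_smul_right hf,
      Y1_smul_right hf, (hP x).1, (hP x).2, mul_zero, mul_zero, add_zero, add_zero] at h2
    exact h2
  · let e : (K × K × Y1_P hf v w) ≃ₗ[K] W :=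
      { toFun := fun q => q.1 • v + q.2.1 • w + (q.2.2 : W)
        map_add' := fun q q' => by
          simp only [Prod.fst_add, Prod.snd_add, Submodule.coe_add, add_smul]
          abel
        map_smul' := fun a q => by
          simp only [Prod.smul_fst, Prod.smul_snd, Submodule.coe_smul, smul_eq_mul, mul_smul,
            smul_add, RingHom.id_apply]
        invFun := fun z => (f z w, -f z v, ⟨_, hmem z⟩)
        left_inv := fun q => by
          obtain ⟨a, b, x⟩ := q
          have h1 : f (a • v + b • w + (x : W)) w = a := by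
            rw [hf.add_left, hf.add_left, hf.smul_left, hf.smul_left, hvw, hww, (hP x).2]
            ring
          have h2 : f (a • v + b • w + (x : W)) v = -b := by
            rw [hf.add_left, hf.add_left, hf.smul_left, hf.smul_left, hvv, hwv, (hP x).1]
            ring
          refine Prod.ext h1 (Prod.ext ?_ (Subtype.ext ?_))
          · change -f (a • v + b • w + (x : W)) v = b
            rw [h2, neg_neg]
          · change (a • v + b • w + (x : W)) - f (a • v + b • w + (x : W)) w • v +
              f (a • v + b • w + (x : W)) v • w = x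
            rw [h1, h2, neg_smul]
            abel
        right_inv := fun z => by
          change f z w • v + (-f z v) • w + (z - f z w • v + f z v • w) = z
          rw [neg_smul]
          abel }
    refine ⟨e, fun q q' => ?_⟩
    change f (q.1 • v + q.2.1 • w + (q.2.2 : W)) (q'.1 • v + q'.2.1 • w + (q'.2.2 : W)) = _
    simp only [hf.add_left, hf.smul_left, Y1_add_right hf, Y1_smul_right hf, hvv, hvw, hwv, hww,
      (hP _).1, (hP _).2, (hP' _).1, (hP' _).2]
    ring

theorem Y1_hyp {K W : Type} [Field K] [AddCommGroup W] [Module K W] (two : (2 : K) ≠ 0)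
    {f : W → W → K} (hf : IsHF (RingHom.id K) (-1) f) [Nontrivial W] :
    ∃ v w, f v w = 1 ∧ f v v = 0 ∧ f w w = 0 := by
  have hz : ∀ x, f x x = 0 := by
    intro x
    have h := hf.herm x x
    rw [RingHom.id_apply] at h
    have h2 : 2 * f x x = 0 := by linear_combination h
    exact (mul_eq_zero.1 h2).resolve_left two
  obtain ⟨v, hv⟩ := exists_ne (0 : W)
  have h1 : ∃ w, f v w ≠ 0 := by
    by_contra hcon
    push Not at hcon
    exact hv (hf.nondeg v hcon)
  obtain ⟨w, hw⟩ := h1
  refine ⟨v, (f v w)⁻¹ • w, ?_, hz _, hz _⟩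
  rw [Y1_smul_right hf, inv_mul_cancel₀ hw]

theorem Y1_alt (K : Type) [Field K] (two : (2 : K) ≠ 0) (n : ℕ) :
    ∀ (W W' : Type) [AddCommGroup W] [Module K W] [FiniteDimensional K W] [AddCommGroup W']
    [Module K W'] [FiniteDimensional K W']
    (f : W → W → K) (f' : W' → W' → K) (_ : IsHF (RingHom.id K) (-1) f)
    (_ : IsHF (RingHom.id K) (-1) f') (_ : finrank K W = n) (_ : finrank K W' = n),
    ∃ φ : W ≃ₗ[K] W', ∀ v w, f' (φ v) (φ w) = f v w := by
  induction n using Nat.strong_induction_on with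
  | _ n ih =>
    intro W W' _ _ _ _ _ _ f f' hf hf' hn hn'
    rcases Nat.eq_zero_or_pos n with rfl | hpos
    · exact Y1_iso hf hf' (finBasisOfFinrankEq K W hn) (finBasisOfFinrankEq K W' hn')
        (fun i => Fin.elim0 i)
    · have hnt : Nontrivial W := Module.nontrivial_of_finrank_pos (R := K) (by omega)
      have hnt' : Nontrivial W' := Module.nontrivial_of_finrank_pos (R := K) (by omega)
      obtain ⟨v, w, hvw, hvv, hww⟩ := Y1_hyp two hf
      obtain ⟨v', w', hvw', hvv', hww'⟩ := Y1_hyp two hf'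
      obtain ⟨hP, e, he⟩ := Y1_dec hf v w hvw hvv hww
      obtain ⟨hP', e', he'⟩ := Y1_dec hf' v' w' hvw' hvv' hww'
      have hd : finrank K (Y1_P hf v w) + 2 = n := by
        have h1 := e.finrank_eq
        rw [finrank_prod, finrank_prod, finrank_self, hn] at h1
        omega
      have hd' : finrank K (Y1_P hf' v' w') + 2 = n := by
        have h1 := e'.finrank_eq
        rw [finrank_prod, finrank_prod, finrank_self, hn'] at h1
        omega
      obtain ⟨φ, hφ⟩ := ih (n - 2) (by omega) _ _ _ _ hP hP' (by omega) (by omega)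
      let ψ : (K × K × Y1_P hf v w) ≃ₗ[K] (K × K × Y1_P hf' v' w') :=
        LinearEquiv.prodCongr (LinearEquiv.refl K K)
          (LinearEquiv.prodCongr (LinearEquiv.refl K K) φ)
      refine ⟨(e.symm.trans ψ).trans e', fun x y => ?_⟩
      change f' (e' (ψ (e.symm x))) (e' (ψ (e.symm y))) = f x y
      have hx : f x y = f (e (e.symm x)) (e (e.symm y)) := by
        rw [LinearEquiv.apply_symm_apply, LinearEquiv.apply_symm_apply]
      rw [hx, he, he']
      have h3 : f' (φ (e.symm x).2.2) (φ (e.symm y).2.2) = f (e.symm x).2.2 (e.symm y).2.2 :=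
        hφ _ _
      rw [← h3]
      rfl

theorem iso_alt (K W W' : Type) [Field K] [AddCommGroup W] [Module K W] [FiniteDimensional K W]
    [AddCommGroup W'] [Module K W'] [FiniteDimensional K W'] (two : (2 : K) ≠ 0)
    (f : W → W → K) (f' : W' → W' → K) (hf : IsHF (RingHom.id K) (-1) f)
    (hf' : IsHF (RingHom.id K) (-1) f') (h : finrank K W = finrank K W') :
    ∃ φ : W ≃ₗ[K] W', ∀ v w, f' (φ v) (φ w) = f v w :=
  Y1_alt K two _ W W' f f' hf hf' rfl h.symm

theorem iso_sym (K W W' : Type) [Field K] [Finite K] [AddCommGroup W] [Module K W]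
    [AddCommGroup W'] [Module K W'] (two : (2 : K) ≠ 0)
    (f : W → W → K) (f' : W' → W' → K) (hf : IsHF (RingHom.id K) 1 f)
    (hf' : IsHF (RingHom.id K) 1 f') {n : ℕ} (b : Basis (Fin n) K W) (b' : Basis (Fin n) K W')
    (h : IsSquare (gram f b * gram f' b')) :
    ∃ φ : W ≃ₗ[K] W', ∀ v w, f' (φ v) (φ w) = f v w :=
  Y1_sym K two n W W' f f' hf hf' b b' h

theorem disc_iso (K W W' : Type) [Field K] [AddCommGroup W] [Module K W]
    [AddCommGroup W'] [Module K W'] (ε : K)
    (f : W → W → K) (f' : W' → W' → K) (hf : IsHF (RingHom.id K) ε f)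
    (hf' : IsHF (RingHom.id K) ε f') {n : ℕ} (b : Basis (Fin n) K W) (b' : Basis (Fin n) K W')
    (φ : W ≃ₗ[K] W') (hφ : ∀ v w, f' (φ v) (φ w) = f v w) : IsSquare (gram f b * gram f' b') := by
  obtain ⟨t, ht⟩ := Y1_gram hf' b' (b.map φ)
  have h1 : gram f' (b.map φ) = gram f b := by
    rw [gram, gram]
    congr 1
    ext i j
    rw [Matrix.of_apply, Matrix.of_apply, Basis.map_apply, Basis.map_apply, hφ]
  refine ⟨t * gram f' b', ?_⟩
  rw [← h1, ht]
  ring

end

end Pool.Agent.CTO
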