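import Pool.Agent.CTO.Mat0

/-!
# R1: homomorphisms of a finite reduced algebra, and density of the torus (linear case)

`A` is a finite dimensional reduced commutative algebra over the finite field `K`, `F` an algebraically
closed extension of `K`, `w : Ω → (A →ₐ[K] F)` a bijection.
* `unit_iff`: if `a` is not a unit there is a maximal ideal `m` containing it; `A ⧸ m` is a finite
  extension of `K` and embeds into `F` (`IsAlgClosed.lift`), so some `w i` kills `a`.
* `card_homs`: `A` is a finite product of finite extension fields of `K` (`IsArtinianRing.equivPi`), a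
  homomorphism to `F` factors through one factor, and a finite extension `L` of the perfect field `K` has
  exactly `[L : K]` homomorphisms to `F` (`AlgHom.card`). (Alternative for `≤`: distinct homomorphisms are
  linearly independent over `F` (`linearIndependent_monoidHom`), and the `F`-dimension of the `K`-linear
  maps `A → F` is `dim A`. For `≥`: products.)
* `homs_indep`: `∑ c i * w i a = 0` for all `a` implies `c = 0` (`linearIndependent_monoidHom`,
  injectivity of `w`).
* `forms_indep`: the same for a `K`-basis `b` of `A`: `∑ i, c i * w i (b j) = 0` for all `j` implies `c = 0`.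
* `densGL_alg`: let `p` have degree `≤ D` and vanish on all `(w i (t * t))_i`, `t` a unit. Let `b` be a
  `K`-basis of `A` indexed by `Fin n`, `n = dim A = card Ω`; `ℓ i = ∑ j, C (w i (b j)) * X j`. The
  polynomial `P = p(ℓ i ^ 2) * ∏ i, ℓ i` in `n` variables has degree `≤ 2 D + n < |K|` and vanishes at all
  points of `K^n` (embedded in `F^n`): if some `ℓ i` is nonzero fails, the product is zero; if all `ℓ i`
  are nonzero at `x`, then `t = ∑ x j • b j` is a unit and `p` vanishes. So `P = 0`
  (`MvPolynomial.schwartz_zippel_totalDegree` with `S` the image of `K` in `F`, or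
  `MvPolynomial.eq_zero_of_eval_zero_at_prod_finset`/`Combinatorial Nullstellensatz`), all `ℓ i ≠ 0`, so
  `p(ℓ i ^ 2) = 0`. As the `ℓ i` are linearly independent and there are `n` of them, for all `y : Ω → F`
  there is a point `x ∈ F^n` with `ℓ i (x) = y i`; so `p` vanishes at all `(y i ^ 2)`, i.e. at all points
  of `F^Ω` (`F` is algebraically closed), so `p = 0` (`MvPolynomial.funext`).
-/

namespace Pool.Agent.CTO

open Matrix Module

section

variable {K A F Ω : Type} [Field K] [Finite K] [CommRing A] [Algebra K A] [FiniteDimensional K A]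
  [IsReduced A] [Field F] [Algebra K F] [IsAlgClosed F] [Fintype Ω] [DecidableEq Ω]

theorem unit_iff (w : Ω → (A →ₐ[K] F)) (hw : Function.Bijective w) (a : A) :
    IsUnit a ↔ ∀ i, w i a ≠ 0 := by
  constructor
  · intro ha i
    exact (ha.map (w i)).ne_zero
  · intro h
    by_contra hn
    obtain ⟨m, hm, ham⟩ := exists_max_ideal_of_mem_nonunits hn
    let _ : Field (A ⧸ m) := Ideal.Quotient.field m
    have hfd : FiniteDimensional K (A ⧸ m) :=
      Module.Finite.of_surjective (Ideal.Quotient.mkₐ K m).toLinearMap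
        (Ideal.Quotient.mkₐ_surjective K m)
    have halg : Algebra.IsAlgebraic K (A ⧸ m) := Algebra.IsAlgebraic.of_finite K (A ⧸ m)
    obtain ⟨i, hi⟩ := hw.2 ((IsAlgClosed.lift : (A ⧸ m) →ₐ[K] F).comp (Ideal.Quotient.mkₐ K m))
    apply h i
    rw [hi, AlgHom.comp_apply, Ideal.Quotient.mkₐ_eq_mk, Ideal.Quotient.eq_zero_iff_mem.2 ham,
      map_zero]

lemma R1_bij : Function.Bijective (fun x : (Σ m : MaximalSpectrum A, ((A ⧸ m.asIdeal) →ₐ[K] F)) =>
    (x.2.comp (Ideal.Quotient.mkₐ K x.1.asIdeal) : A →ₐ[K] F)) := by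
  have hart : IsArtinianRing A := IsArtinianRing.of_finite K A
  constructor
  · rintro ⟨m, ψ⟩ ⟨m', ψ'⟩ h
    have h' : ψ.comp (Ideal.Quotient.mkₐ K m.asIdeal) = ψ'.comp (Ideal.Quotient.mkₐ K m'.asIdeal) :=
      h
    have hker : ∀ (n : MaximalSpectrum A) (φ : (A ⧸ n.asIdeal) →ₐ[K] F) (a : A),
        (φ.comp (Ideal.Quotient.mkₐ K n.asIdeal)) a = 0 ↔ a ∈ n.asIdeal := by
      intro n φ a
      let _ : Field (A ⧸ n.asIdeal) := Ideal.Quotient.field n.asIdeal
      rw [AlgHom.comp_apply, Ideal.Quotient.mkₐ_eq_mk]
      constructor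
      · intro h0
        have hinj : Function.Injective φ := RingHom.injective (φ : (A ⧸ n.asIdeal) →+* F)
        exact Ideal.Quotient.eq_zero_iff_mem.1 (hinj (h0.trans (map_zero φ).symm))
      · intro h0
        rw [Ideal.Quotient.eq_zero_iff_mem.2 h0, map_zero]
    have hm : m = m' := by
      apply MaximalSpectrum.ext
      ext a
      rw [← hker m ψ a, h', hker m' ψ' a]
    subst hm
    have hψ : ψ = ψ' := Ideal.Quotient.algHom_ext _ h'
    rw [hψ]
  · intro φ
    have hp : (RingHom.ker (φ : A →+* F)).IsPrime := RingHom.ker_isPrime _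
    have hmax : (RingHom.ker (φ : A →+* F)).IsMaximal := IsArtinianRing.isMaximal_of_isPrime _
    refine ⟨⟨⟨RingHom.ker (φ : A →+* F), hmax⟩,
      Ideal.Quotient.liftₐ (RingHom.ker (φ : A →+* F)) φ (fun a ha => ha)⟩, ?_⟩
    ext a
    rfl

theorem card_homs (w : Ω → (A →ₐ[K] F)) (hw : Function.Bijective w) :
    Fintype.card Ω = finrank K A := by
  have hart : IsArtinianRing A := IsArtinianRing.of_finite K A
  have h1 : Fintype.card Ω = Nat.card (A →ₐ[K] F) := by
    rw [← Nat.card_eq_fintype_card]
    exact Nat.card_congr (Equiv.ofBijective w hw)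
  rw [h1, ← Nat.card_congr (Equiv.ofBijective _ (R1_bij (K := K) (A := A) (F := F)))]
  have hf : Finite (MaximalSpectrum A) := inferInstance
  have hft : Fintype (MaximalSpectrum A) := Fintype.ofFinite _
  have hcard : ∀ m : MaximalSpectrum A, Finite ((A ⧸ m.asIdeal) →ₐ[K] F) ∧
      Nat.card ((A ⧸ m.asIdeal) →ₐ[K] F) = finrank K (A ⧸ m.asIdeal) := by
    intro m
    let _ : Field (A ⧸ m.asIdeal) := Ideal.Quotient.field m.asIdeal
    have hfd : FiniteDimensional K (A ⧸ m.asIdeal) :=
      Module.Finite.of_surjective (Ideal.Quotient.mkₐ K m.asIdeal).toLinearMap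
        (Ideal.Quotient.mkₐ_surjective K m.asIdeal)
    refine ⟨inferInstance, ?_⟩
    exact AlgHom.natCard_of_splits K (A ⧸ m.asIdeal) F (fun _ => IsAlgClosed.splits _)
  have hfin : ∀ m : MaximalSpectrum A, Finite ((A ⧸ m.asIdeal) →ₐ[K] F) := fun m => (hcard m).1
  rw [Nat.card_sigma]
  have hfd : ∀ m : MaximalSpectrum A, FiniteDimensional K (A ⧸ m.asIdeal) := fun m =>
    Module.Finite.of_surjective (Ideal.Quotient.mkₐ K m.asIdeal).toLinearMap
      (Ideal.Quotient.mkₐ_surjective K m.asIdeal)
  have hfree : ∀ m : MaximalSpectrum A, Module.Free K (A ⧸ m.asIdeal) := fun m =>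
    Module.Free.of_divisionRing K _
  have h2 : finrank K A = finrank K (∀ m : MaximalSpectrum A, A ⧸ m.asIdeal) := by
    refine LinearEquiv.finrank_eq (LinearEquiv.ofBijective
      (LinearMap.pi fun m : MaximalSpectrum A => (Ideal.Quotient.mkₐ K m.asIdeal).toLinearMap) ?_)
    exact (IsArtinianRing.equivPi A).bijective
  rw [h2, Module.finrank_pi_fintype]
  exact Finset.sum_congr rfl fun m _ => (hcard m).2

theorem homs_indep (w : Ω → (A →ₐ[K] F)) (hw : Function.Injective w) (c : Ω → F)
    (h : ∀ a, ∑ i, c i * w i a = 0) : c = 0 := by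
  have h1 := linearIndependent_monoidHom A F
  have hinj : Function.Injective (fun i => ((w i : A →ₐ[K] F) : A →* F)) := by
    intro i j hij
    apply hw
    ext a
    exact DFunLike.congr_fun hij a
  have h2 := h1.comp (fun i => ((w i : A →ₐ[K] F) : A →* F)) hinj
  funext i
  refine (Fintype.linearIndependent_iff.1 h2 c ?_) i
  funext a
  rw [Finset.sum_apply]
  exact h a

theorem R1_forms_indep {J : Type} [Fintype J] (b : Basis J K A) (w : Ω → (A →ₐ[K] F))
    (hw : Function.Injective w) (c : Ω → F) (h : ∀ j, ∑ i, c i * w i (b j) = 0) : c = 0 := by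
  refine homs_indep w hw c fun a => ?_
  rw [← b.sum_repr a]
  simp only [map_sum, map_smul, Finset.mul_sum]
  rw [Finset.sum_comm]
  refine Finset.sum_eq_zero fun j _ => ?_
  have : ∀ i, c i * (b.repr a) j • w i (b j) = (b.repr a) j • (c i * w i (b j)) := by
    intro i
    rw [mul_smul_comm]
  simp only [this]
  rw [← Finset.smul_sum, h j, smul_zero]

/-- Substituting polynomials of degree at most `d`. -/
lemma R1_deg {σ : Type} (d : ℕ) (f : Ω → MvPolynomial σ F) (hf : ∀ i, (f i).totalDegree ≤ d)
    (p : MvPolynomial Ω F) :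
    (MvPolynomial.aeval f p).totalDegree ≤ d * p.totalDegree := by
  rw [MvPolynomial.aeval_def, MvPolynomial.eval₂_eq']
  refine MvPolynomial.totalDegree_finsetSum_le fun m hm => ?_
  refine (MvPolynomial.totalDegree_mul _ _).trans ?_
  rw [MvPolynomial.algebraMap_eq, MvPolynomial.totalDegree_C, zero_add]
  refine (MvPolynomial.totalDegree_finsetProd _ _).trans ?_
  have h1 : ∑ i, m i ≤ p.totalDegree := by
    have := MvPolynomial.le_totalDegree hm
    rw [Finsupp.sum_fintype _ _ (fun _ => rfl)] at this
    exact this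
  calc ∑ i, (f i ^ m i).totalDegree ≤ ∑ i, m i * d :=
        Finset.sum_le_sum fun i _ =>
          (MvPolynomial.totalDegree_pow _ _).trans (Nat.mul_le_mul_left _ (hf i))
    _ = d * ∑ i, m i := by rw [← Finset.sum_mul, mul_comm]
    _ ≤ d * p.totalDegree := Nat.mul_le_mul_left _ h1

/-- A matrix whose rows are independent is onto. -/
lemma R1_surj (M : Matrix Ω Ω F) (h : ∀ c : Ω → F, (∀ j, ∑ i, c i * M i j = 0) → c = 0)
    (y : Ω → F) : ∃ x : Ω → F, ∀ i, ∑ j, M i j * x j = y i := by
  have hinj : Function.Injective M.vecMul := by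
    have h1 : Function.Injective (Matrix.vecMulLinear M) := by
      rw [← LinearMap.ker_eq_bot, LinearMap.ker_eq_bot']
      intro c hc
      apply h
      intro j
      have := congrFun hc j
      exact this
    exact h1
  have hu := Matrix.vecMul_injective_iff_isUnit.1 hinj
  obtain ⟨x, hx⟩ := Matrix.mulVec_surjective_iff_isUnit.2 hu y
  exact ⟨x, fun i => congrFun hx i⟩

/-- The linear forms given by the rows of a matrix. -/
noncomputable def R1_form (M : Matrix Ω Ω F) (i : Ω) : MvPolynomial Ω F :=
  ∑ j, MvPolynomial.C (M i j) * MvPolynomial.X j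

omit [IsAlgClosed F] [DecidableEq Ω] in
lemma R1_form_eval (M : Matrix Ω Ω F) (i : Ω) (x : Ω → F) :
    MvPolynomial.eval x (R1_form M i) = ∑ j, M i j * x j := by
  unfold R1_form
  rw [map_sum]
  refine Finset.sum_congr rfl fun j _ => ?_
  rw [map_mul, MvPolynomial.eval_C, MvPolynomial.eval_X]

omit [IsAlgClosed F] [DecidableEq Ω] in
lemma R1_form_deg (M : Matrix Ω Ω F) (i : Ω) : (R1_form M i).totalDegree ≤ 1 := by
  unfold R1_form
  refine MvPolynomial.totalDegree_finsetSum_le fun j _ => ?_
  refine (MvPolynomial.totalDegree_mul _ _).trans ?_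
  rw [MvPolynomial.totalDegree_C, MvPolynomial.totalDegree_X, zero_add]

/-- A polynomial of degree less than `|K|` vanishing at the points of `K ^ J` is zero. -/
lemma R1_zero {J : Type} [Finite J] (P : MvPolynomial J F) (hP : P.totalDegree < Nat.card K)
    (h : ∀ x : J → K, MvPolynomial.eval (fun j => algebraMap K F (x j)) P = 0) : P = 0 := by
  classical
  have hK : Fintype K := Fintype.ofFinite K
  refine MvPolynomial.eq_zero_of_eval_zero_at_prod_finset P
    (fun _ => Finset.univ.image (algebraMap K F)) ?_ ?_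
  · intro i
    rw [Finset.card_image_of_injective _ (algebraMap K F).injective, Finset.card_univ,
      ← Nat.card_eq_fintype_card]
    exact lt_of_le_of_lt (MvPolynomial.degreeOf_le_totalDegree P i) hP
  · intro x hx
    have h1 : ∀ i, ∃ k : K, algebraMap K F k = x i := by
      intro i
      obtain ⟨k, _, hk⟩ := Finset.mem_image.1 (hx i)
      exact ⟨k, hk⟩
    choose k hk using h1
    have h2 := h k
    have h3 : (fun j => algebraMap K F (k j)) = x := funext hk
    rwa [h3] at h2

/-- Evaluation after a substitution. -/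
lemma R1_eval_aeval {σ τ : Type} (x : τ → F) (f : σ → MvPolynomial τ F) (p : MvPolynomial σ F) :
    MvPolynomial.eval x (MvPolynomial.aeval f p) =
      MvPolynomial.eval (fun i => MvPolynomial.eval x (f i)) p := by
  induction p using MvPolynomial.induction_on with
  | C a => rw [MvPolynomial.aeval_C, MvPolynomial.algebraMap_eq, MvPolynomial.eval_C,
      MvPolynomial.eval_C]
  | add p q hp hq => rw [map_add, map_add, map_add, hp, hq]
  | mul_X p i hp => rw [map_mul, map_mul, map_mul, hp, MvPolynomial.aeval_X, MvPolynomial.eval_X]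

theorem densGL_alg (w : Ω → (A →ₐ[K] F)) (hw : Function.Bijective w) (D : ℕ)
    (hD : 2 * D + Fintype.card Ω < Nat.card K) :
    DensGL D {z : Ω → Fˣ | ∃ t : Aˣ, ∀ i, (z i : F) = w i ((t : A) * t)} := by
  intro p hp hvan
  have hfree : Module.Free K A := Module.Free.of_divisionRing K A
  obtain ⟨b, -⟩ : ∃ b : Basis Ω K A, True :=
    ⟨(Module.finBasis K A).reindex (Fintype.equivFinOfCardEq (card_homs w hw)).symm, trivial⟩
  obtain ⟨M, hM⟩ : ∃ M : Matrix Ω Ω F, M = Matrix.of fun i j => w i (b j) := ⟨_, rfl⟩
  have hMij : ∀ i j, M i j = w i (b j) := fun i j => by rw [hM]; rfl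
  have hsurj := R1_surj M (by
    intro c hc
    refine R1_forms_indep b w hw.1 c fun j => ?_
    rw [← hc j]
    exact Finset.sum_congr rfl fun i _ => by rw [hMij])
  have hform : ∀ (x : Ω → K) (i : Ω),
      MvPolynomial.eval (fun j => algebraMap K F (x j)) (R1_form M i) = w i (∑ j, x j • b j) := by
    intro x i
    rw [R1_form_eval, map_sum]
    refine Finset.sum_congr rfl fun j _ => ?_
    rw [hMij, map_smul, Algebra.smul_def, mul_comm]
  have hP : (MvPolynomial.aeval (fun i => R1_form M i ^ 2) p) * ∏ i, R1_form M i = 0 := by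
    refine R1_zero (K := K) _ ?_ ?_
    · refine lt_of_le_of_lt ?_ hD
      refine (MvPolynomial.totalDegree_mul _ _).trans (add_le_add ?_ ?_)
      · refine (R1_deg 2 _ (fun i => ?_) p).trans (Nat.mul_le_mul_left _ hp)
        exact (MvPolynomial.totalDegree_pow _ _).trans
          (Nat.mul_le_mul_left 2 (R1_form_deg M i))
      · refine (MvPolynomial.totalDegree_finsetProd _ _).trans ?_
        refine (Finset.sum_le_sum fun i _ => R1_form_deg M i).trans ?_
        rw [Finset.sum_const, smul_eq_mul, mul_one, Finset.card_univ]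
    · intro x
      rw [map_mul, map_prod]
      by_cases hall : ∀ i, w i (∑ j, x j • b j) ≠ 0
      · obtain ⟨t, ht⟩ := (unit_iff w hw _).2 hall
        have h1 := hvan (fun i => Units.mk0 (w i ((t : A) * t)) (by
          rw [map_mul, ht]
          exact mul_ne_zero (hall i) (hall i))) ⟨t, fun i => rfl⟩
        have h2 : MvPolynomial.eval (fun j => algebraMap K F (x j))
            (MvPolynomial.aeval (fun i => R1_form M i ^ 2) p) = 0 := by
          rw [← h1]
          have h3 : MvPolynomial.eval (fun j => algebraMap K F (x j))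
              (MvPolynomial.aeval (fun i => R1_form M i ^ 2) p) =
              MvPolynomial.eval (fun i => MvPolynomial.eval (fun j => algebraMap K F (x j))
                (R1_form M i ^ 2)) p := R1_eval_aeval _ _ _
          rw [h3]
          congr 1
          have h4 : (fun i => MvPolynomial.eval (fun j => algebraMap K F (x j))
              (R1_form M i ^ 2)) = fun i => ((Units.mk0 (w i ((t : A) * t)) (by
                rw [map_mul, ht]
                exact mul_ne_zero (hall i) (hall i)) : Fˣ) : F) := by
            funext i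
            rw [Units.val_mk0, map_pow, hform, map_mul, ht, sq]
          rw [h4]
        rw [h2, zero_mul]
      · push Not at hall
        obtain ⟨i, hi⟩ := hall
        rw [Finset.prod_eq_zero (Finset.mem_univ i), mul_zero]
        rw [hform, hi]
  have hne : ∏ i, R1_form M i ≠ 0 := by
    rw [Finset.prod_ne_zero_iff]
    intro i _ h0
    obtain ⟨x, hx⟩ := hsurj (fun _ => 1)
    have h1 := R1_form_eval M i x
    rw [h0, map_zero, hx i] at h1
    exact zero_ne_one h1
  have hp0 := (mul_eq_zero.1 hP).resolve_right hne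
  have hinf : Infinite F := inferInstance
  refine MvPolynomial.funext fun v => ?_
  rw [map_zero]
  have hsq : ∀ i, ∃ z : F, z ^ 2 = v i := fun i =>
    IsAlgClosed.exists_pow_nat_eq (v i) (by norm_num)
  choose y hy using hsq
  obtain ⟨x, hx⟩ := hsurj y
  have h1 := congrArg (MvPolynomial.eval x) hp0
  rw [map_zero] at h1
  rw [← h1, R1_eval_aeval]
  have h4 : (fun i => MvPolynomial.eval x (R1_form M i ^ 2)) = v := by
    funext i
    rw [map_pow, R1_form_eval, hx, hy]
  rw [h4]

end

end Pool.Agent.CTO
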