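import Pool.Agent.CTO.Base
import Pool.Agent.CTO.A1
import Pool.Agent.CTO.R1

/-!
# R4: diagonalization of a torus over the algebraic closure

Let `b` be a `K`-basis of `A` indexed by `Fin n`, `n = dim A = dim V = card Ω`, and let `v0` be a cyclic
vector (`exists_cyc` of A1), so that `b j v0` is a `K`-basis of `V`. Let `P = (w i (b j))`, an invertible
`Ω × Fin n`-matrix (rows independent: `homs_indep`). For `x ∈ End V` with matrix `[x]` in the basis
`b j v0` (entries mapped to `F`) put `ρ x = P * [x] * P⁻¹` (with `P⁻¹` the two-sided inverse). It is an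
injective homomorphism of `K`-algebras. For `a ∈ A`: `P * [a] = diagonal (w i a) * P`, because
`a b_j v0 = ∑_k [a]_kj b_k v0` means `a b_j = ∑_k [a]_kj b_k` in `A`, and apply `w i`. The `F`-span of the
matrices `[x]` contains all the elementary matrices.
-/

namespace Pool.Agent.CTO

open Matrix Module

section

variable {K V F : Type} [Field K] [Finite K] [AddCommGroup V] [Module K V] [FiniteDimensional K V]
  [Field F] [Algebra K F] [IsAlgClosed F]

/-- `ρ` represents `End V` by `Ω × Ω`-matrices over `F`, with `A` acting diagonally through the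
homomorphisms `w i : A → F`. -/
structure IsRho {Ω : Type} [Fintype Ω] [DecidableEq Ω] (A : Subalgebra K (Module.End K V))
    (w : Ω → (A →ₐ[K] F)) (ρ : Module.End K V →ₐ[K] Matrix Ω Ω F) : Prop where
  bij : Function.Bijective w
  inj : Function.Injective ρ
  diag : ∀ a : A, ρ (a : Module.End K V) = diagonal fun i => w i a
  span : Submodule.span F (Set.range ρ) = ⊤

/-- conjugation by a unit -/
noncomputable def R4conj {R : Type} [Ring R] [Algebra K R] (u : Rˣ) : R →ₐ[K] R where
  toFun x := u * x * (↑u⁻¹ : R)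
  map_one' := by simp
  map_mul' x y := by
    have h : (↑u⁻¹ : R) * u = 1 := u.inv_mul
    calc (u : R) * (x * y) * (↑u⁻¹ : R) = u * x * 1 * y * (↑u⁻¹ : R) := by noncomm_ring
      _ = u * x * ((↑u⁻¹ : R) * u) * y * (↑u⁻¹ : R) := by rw [h]
      _ = u * x * (↑u⁻¹ : R) * (u * y * (↑u⁻¹ : R)) := by noncomm_ring
  map_zero' := by simp
  map_add' x y := by rw [mul_add, add_mul]
  commutes' k := by
    rw [← Algebra.commutes, mul_assoc, u.mul_inv, mul_one]

/-- the representation attached to a basis of `V` and an invertible matrix -/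
noncomputable def R4rho {n : ℕ} (bv : Basis (Fin n) K V) (P : (Matrix (Fin n) (Fin n) F)ˣ) :
    Module.End K V →ₐ[K] Matrix (Fin n) (Fin n) F :=
  ((R4conj (K := K) P).comp (Algebra.ofId K F).mapMatrix).comp
    (LinearMap.toMatrixAlgEquiv bv).toAlgHom

omit [Finite K] [FiniteDimensional K V] [IsAlgClosed F] in
lemma R4rho_apply {n : ℕ} (bv : Basis (Fin n) K V) (P : (Matrix (Fin n) (Fin n) F)ˣ)
    (x : Module.End K V) :
    R4rho bv P x = P * (LinearMap.toMatrixAlgEquiv bv x).map (algebraMap K F) *
      (↑P⁻¹ : Matrix (Fin n) (Fin n) F) := rfl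

omit [Finite K] [FiniteDimensional K V] [IsAlgClosed F] in
lemma R4rho_inj {n : ℕ} (bv : Basis (Fin n) K V) (P : (Matrix (Fin n) (Fin n) F)ˣ) :
    Function.Injective (R4rho (F := F) bv P) := by
  intro x y hxy
  rw [R4rho_apply, R4rho_apply] at hxy
  have h1 : (↑P⁻¹ : Matrix (Fin n) (Fin n) F) * P = 1 := P.inv_mul
  have h2 : (LinearMap.toMatrixAlgEquiv bv x).map (algebraMap K F) =
      (LinearMap.toMatrixAlgEquiv bv y).map (algebraMap K F) := by
    have h3 : (↑P⁻¹ : Matrix (Fin n) (Fin n) F) *
        (P * (LinearMap.toMatrixAlgEquiv bv x).map (algebraMap K F) *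
          (↑P⁻¹ : Matrix (Fin n) (Fin n) F)) * P =
        (↑P⁻¹ : Matrix (Fin n) (Fin n) F) *
        (P * (LinearMap.toMatrixAlgEquiv bv y).map (algebraMap K F) *
          (↑P⁻¹ : Matrix (Fin n) (Fin n) F)) * P := by rw [hxy]
    have h4 : ∀ Z : Matrix (Fin n) (Fin n) F,
        (↑P⁻¹ : Matrix (Fin n) (Fin n) F) * (P * Z * (↑P⁻¹ : Matrix (Fin n) (Fin n) F)) * P = Z := by
      intro Z
      rw [← mul_assoc, ← mul_assoc, h1, one_mul, mul_assoc, h1, mul_one]
    rw [h4, h4] at h3
    exact h3
  have h5 : LinearMap.toMatrixAlgEquiv bv x = LinearMap.toMatrixAlgEquiv bv y := by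
    ext i j
    have := congrFun (congrFun h2 i) j
    simp only [Matrix.map_apply] at this
    exact (algebraMap K F).injective this
  exact (LinearMap.toMatrixAlgEquiv bv).injective h5

omit [Finite K] [FiniteDimensional K V] [IsAlgClosed F] in
lemma R4rho_span {n : ℕ} (bv : Basis (Fin n) K V) (P : (Matrix (Fin n) (Fin n) F)ˣ) :
    Submodule.span F (Set.range (R4rho (F := F) bv P)) = ⊤ := by
  rw [eq_top_iff]
  intro M _
  have h1 : (P : Matrix (Fin n) (Fin n) F) * (↑P⁻¹ : Matrix (Fin n) (Fin n) F) = 1 := P.mul_inv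
  have key : ∀ i j : Fin n, (P : Matrix (Fin n) (Fin n) F) * Matrix.single i j (1 : F) *
      (↑P⁻¹ : Matrix (Fin n) (Fin n) F) ∈ Submodule.span F (Set.range (R4rho (F := F) bv P)) := by
    intro i j
    apply Submodule.subset_span
    refine ⟨(LinearMap.toMatrixAlgEquiv bv).symm (Matrix.single i j (1 : K)), ?_⟩
    rw [R4rho_apply, AlgEquiv.apply_symm_apply]
    congr 2
    ext k l
    simp only [Matrix.map_apply, Matrix.single_apply]
    split_ifs <;> simp
  set X : Matrix (Fin n) (Fin n) F := (↑P⁻¹ : Matrix (Fin n) (Fin n) F) * M * P with hX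
  have hM : M = (P : Matrix (Fin n) (Fin n) F) * X * (↑P⁻¹ : Matrix (Fin n) (Fin n) F) := by
    rw [hX, ← mul_assoc, ← mul_assoc, h1, one_mul, mul_assoc, h1, mul_one]
  have hX2 : X = ∑ i, ∑ j, X i j • Matrix.single i j (1 : F) := by
    conv_lhs => rw [Matrix.matrix_eq_sum_single X]
    refine Finset.sum_congr rfl fun i _ => Finset.sum_congr rfl fun j _ => ?_
    rw [Matrix.smul_single, smul_eq_mul, mul_one]
  rw [hM, hX2, Finset.mul_sum, Finset.sum_mul]
  refine Submodule.sum_mem _ fun i _ => ?_
  rw [Finset.mul_sum, Finset.sum_mul]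
  refine Submodule.sum_mem _ fun j _ => ?_
  rw [Matrix.mul_smul, Matrix.smul_mul]
  exact Submodule.smul_mem _ _ (key i j)

/-- the full data of the construction -/
theorem R4data (A : Subalgebra K (Module.End K V)) (hA : IsTorGL A) :
    ∃ (w : Fin (finrank K V) → (A →ₐ[K] F)) (v0 : V) (bv : Basis (Fin (finrank K V)) K V)
      (P : (Matrix (Fin (finrank K V)) (Fin (finrank K V)) F)ˣ),
      Function.Bijective w ∧ (∀ a ∈ A, a v0 = 0 → a = 0) ∧ (∀ v : V, ∃ a ∈ A, a v0 = v) ∧
      ∀ a : A, R4rho bv P (a : Module.End K V) = diagonal fun i => w i a := by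
  classical
  let instC : CommRing A := { (inferInstance : Ring A) with
    mul_comm := fun a b => Subtype.ext (hA.comm a a.2 b b.2) }
  have : IsReduced A := by
    constructor
    intro a ha
    by_contra hne
    -- take the minimal power
    obtain ⟨m, hm⟩ := ha
    have : ∀ k : ℕ, ∀ c : A, c ^ (2 ^ k) = 0 → c = 0 := by
      intro k
      induction k with
      | zero => intro c hc; simpa using hc
      | succ k ih =>
        intro c hc
        have h2 : (c * c) ^ (2 ^ k) = 0 := by
          rw [← pow_two, ← pow_mul, ← pow_succ']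
          exact hc
        have h3 := ih _ h2
        have h4 : (c : Module.End K V) * c = 0 := by
          have := congrArg Subtype.val h3
          simpa using this
        exact Subtype.ext (hA.red c c.2 h4)
    apply hne
    apply this m a
    have hle : m ≤ 2 ^ m := Nat.lt_two_pow_self.le
    obtain ⟨c, hc⟩ := Nat.exists_eq_add_of_le hle
    rw [hc, pow_add, hm, zero_mul]
  have : FiniteDimensional K A := inferInstance
  have hcard : Nat.card (A →ₐ[K] F) = finrank K V := by
    have e := (Fintype.equivFin (A →ₐ[K] F)).symm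
    have := card_homs (fun i => e i) e.bijective
    rw [Nat.card_eq_fintype_card, ← hA.rank, ← this, Fintype.card_fin]
  let e0 : Fin (finrank K V) ≃ (A →ₐ[K] F) :=
    (Fintype.equivFinOfCardEq (by rw [← Nat.card_eq_fintype_card, hcard])).symm
  let w : Fin (finrank K V) → (A →ₐ[K] F) := fun i => e0 i
  have hw : Function.Bijective w := e0.bijective
  obtain ⟨v0, hv0, hv1⟩ := exists_cyc A hA
  let κ0 : A →ₗ[K] V :=
    { toFun := fun a => (a : Module.End K V) v0
      map_add' := fun a b => by simp
      map_smul' := fun c a => by simp }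
  have hκ : Function.Bijective κ0 := by
    constructor
    · intro a b hab
      have h1 : ((a - b : A) : Module.End K V) v0 = 0 := by
        have : κ0 (a - b) = 0 := by rw [map_sub, hab, sub_self]
        exact this
      have h2 := hv0 _ (a - b).2 h1
      have h3 : a - b = 0 := Subtype.ext h2
      exact sub_eq_zero.mp h3
    · intro v
      obtain ⟨a, ha, h⟩ := hv1 v
      exact ⟨⟨a, ha⟩, h⟩
  let κ : A ≃ₗ[K] V := LinearEquiv.ofBijective κ0 hκ
  have hκa : ∀ a : A, κ a = (a : Module.End K V) v0 := fun a => rfl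
  let b : Basis (Fin (finrank K V)) K A := finBasisOfFinrankEq K A hA.rank
  let bv : Basis (Fin (finrank K V)) K V := b.map κ
  have hbv : ∀ j, bv j = ((b j : A) : Module.End K V) v0 := fun j => by
    rw [Basis.map_apply, hκa]
  let P0 : Matrix (Fin (finrank K V)) (Fin (finrank K V)) F := of fun i j => w i (b j)
  have hP0 : IsUnit P0 := by
    rw [← Matrix.vecMul_injective_iff_isUnit]
    intro c c' hcc
    have h1 : (c - c') ᵥ* P0 = 0 := by
      rw [Matrix.sub_vecMul]
      exact sub_eq_zero.mpr hcc
    have h2 : c - c' = 0 := by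
      apply homs_indep w hw.1
      intro a
      have h3 : a = ∑ j, b.repr a j • b j := (b.sum_repr a).symm
      rw [h3]
      simp only [map_sum, map_smul, Finset.mul_sum]
      rw [Finset.sum_comm]
      apply Finset.sum_eq_zero
      intro j _
      have h4 := congrFun h1 j
      simp only [Matrix.vecMul, dotProduct, Pi.zero_apply, P0, of_apply] at h4
      have : ∀ i, (c - c') i * b.repr a j • w i (b j) = b.repr a j • ((c - c') i * w i (b j)) := by
        intro i
        rw [mul_smul_comm]
      simp only [this]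
      rw [← Finset.smul_sum, h4, smul_zero]
    exact sub_eq_zero.mp h2
  obtain ⟨P, hP⟩ := hP0
  refine ⟨w, v0, bv, P, hw, hv0, hv1, ?_⟩
  intro a
  rw [R4rho_apply]
  have hkey : (P : Matrix _ _ F) * (LinearMap.toMatrixAlgEquiv bv (a : Module.End K V)).map
      (algebraMap K F) = (diagonal fun i => w i a) * (P : Matrix _ _ F) := by
    rw [hP]
    ext i j
    rw [Matrix.mul_apply, Matrix.diagonal_mul]
    simp only [P0, of_apply, Matrix.map_apply]
    rw [← map_mul]
    have h1 : a * b j = ∑ k, (LinearMap.toMatrixAlgEquiv bv (a : Module.End K V)) k j • b k := by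
      apply κ.injective
      rw [map_sum]
      simp only [map_smul]
      have h2 : κ (a * b j) = (a : Module.End K V) (bv j) := by
        rw [hκa, hbv]
        rfl
      rw [h2]
      have h3 : ∀ k, κ (b k) = bv k := fun k => rfl
      simp only [h3]
      have h4 := bv.sum_repr ((a : Module.End K V) (bv j))
      conv_lhs => rw [← h4]
      refine Finset.sum_congr rfl fun k _ => ?_
      rw [LinearMap.toMatrixAlgEquiv_apply]
    rw [h1, map_sum]
    refine Finset.sum_congr rfl fun k _ => ?_
    rw [map_smul, Algebra.smul_def, mul_comm]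
  rw [hkey, mul_assoc, P.mul_inv, mul_one]

theorem exists_rho (A : Subalgebra K (Module.End K V)) (hA : IsTorGL A) :
    ∃ (w : Fin (finrank K V) → (A →ₐ[K] F))
      (ρ : Module.End K V →ₐ[K] Matrix (Fin (finrank K V)) (Fin (finrank K V)) F), IsRho A w ρ := by
  obtain ⟨w, v0, bv, P, hw, -, -, hd⟩ := R4data (F := F) A hA
  exact ⟨w, R4rho bv P, hw, R4rho_inj bv P, hd, R4rho_span bv P⟩

end

end Pool.Agent.CTO
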