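import Pool.Agent.CTO.Base
import Pool.Agent.CTO.A1
import Pool.Agent.CTO.R4

/-!
# I0: from the group generated by two tori to the matrix group `HT`

* `torGL_conj`, `tor_conj`: if `g` carries `A` to `A'` (`g A g⁻¹ ≤ A'`; equality because
  `dim A = dim V = dim A'`) then the torus of `A'` is the conjugate by `g` of the torus of `A` (for `tor`
  the element `g` has to be an isometry; determinants are invariant under conjugation).
* `rhoU ρ : GL(V) → (matrices)ˣ`, injective as `ρ` is.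
* `map_HT`: for a subgroup `T ≤ torGL A`, the image of `sq T ⊔ sq (g T g⁻¹)` is `HT (T0 w T) (rhoU ρ g)`,
  where `T0 w T = {z | z i = w i (t * t), t ∈ T}`. (`sq` is a closure, `Subgroup.map` of a closure,
  `ρ (t * t) = diagonal (w i (t * t))`.)
* `span_of_adjoin`: if `Algebra.adjoin K (EndSet H) = ⊤` then the image of `H` spans the matrices: the
  `K`-span of `EndSet H` is closed under multiplication and contains `1`, so it is all of `End V`; its
  image under `ρ` spans (`IsRho.span`).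
-/

namespace Pool.Agent.CTO

open Matrix Module

section

variable {K V F : Type} [Field K] [AddCommGroup V] [Module K V] [FiniteDimensional K V]
  [Field F] [Algebra K F] {Ω : Type} [Fintype Ω] [DecidableEq Ω]

omit [FiniteDimensional K V] in
theorem I0_val_conj (g t : V ≃ₗ[K] V) :
    (g * t * g⁻¹).toLinearMap = g.toLinearMap ∘ₗ t.toLinearMap ∘ₗ g.symm.toLinearMap := by
  ext v
  rfl

omit [FiniteDimensional K V] in
theorem I0_val_mul (g t : V ≃ₗ[K] V) :
    (g * t).toLinearMap = (g.toLinearMap * t.toLinearMap : Module.End K V) := by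
  ext v
  rfl

omit [FiniteDimensional K V] in
theorem I0_inj {g t : V ≃ₗ[K] V} (h : g.toLinearMap = t.toLinearMap) : g = t :=
  LinearEquiv.toLinearMap_injective h

theorem I0_carries (A A' : Subalgebra K (Module.End K V)) (hA : IsTorGL A) (hA' : IsTorGL A')
    (g : V ≃ₗ[K] V) (hg : CarriesTo g A A') (x : Module.End K V) (hx : x ∈ A') :
    ∃ a ∈ A, x = g.toLinearMap ∘ₗ a ∘ₗ g.symm.toLinearMap := by
  have hle : (Subalgebra.toSubmodule A).map (g.conj : Module.End K V →ₗ[K] Module.End K V) ≤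
      Subalgebra.toSubmodule A' := by
    rintro _ ⟨a, ha, rfl⟩
    exact hg a ha
  have hfr : finrank K ((Subalgebra.toSubmodule A).map
      (g.conj : Module.End K V →ₗ[K] Module.End K V)) = finrank K (Subalgebra.toSubmodule A') := by
    rw [LinearEquiv.finrank_map_eq g.conj (Subalgebra.toSubmodule A)]
    exact hA.rank.trans hA'.rank.symm
  have heq := Submodule.eq_of_le_of_finrank_eq hle hfr
  have hx' : x ∈ Subalgebra.toSubmodule A' := hx
  rw [← heq] at hx'
  obtain ⟨a, ha, hax⟩ := hx'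
  exact ⟨a, ha, hax.symm⟩

theorem torGL_conj (A A' : Subalgebra K (Module.End K V)) (hA : IsTorGL A) (hA' : IsTorGL A')
    (g : V ≃ₗ[K] V) (hg : CarriesTo g A A') :
    (torGL A).map (MulAut.conj g).toMonoidHom = torGL A' := by
  ext x
  constructor
  · rintro ⟨t, ht, rfl⟩
    refine mem_torGL_of A' _ ?_
    change (g * t * g⁻¹).toLinearMap ∈ A'
    rw [I0_val_conj]
    exact hg _ ht.1
  · intro hx
    obtain ⟨a, ha, hxa⟩ := I0_carries A A' hA hA' g hg _ hx.1
    have h1 : (g⁻¹ * x * g).toLinearMap = a := by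
      ext v
      have h2 : (g⁻¹ * x * g).toLinearMap v = g.symm (x.toLinearMap (g v)) := rfl
      rw [h2, hxa]
      simp
    refine ⟨g⁻¹ * x * g, mem_torGL_of A _ (by rw [h1]; exact ha), ?_⟩
    change g * (g⁻¹ * x * g) * g⁻¹ = x
    group

theorem tor_conj (σ : K →+* K) (f : V → V → K) (A A' : Subalgebra K (Module.End K V))
    (hA : IsTorGL A) (hA' : IsTorGL A') (g : V ≃ₗ[K] V) (hg : CarriesTo g A A') (hf : g ∈ Isom f) :
    (tor σ f A).map (MulAut.conj g).toMonoidHom = tor σ f A' := by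
  have h0 := torGL_conj A A' hA hA' g hg
  have hdet : ∀ t : V ≃ₗ[K] V, LinearEquiv.det (g * t * g⁻¹) = LinearEquiv.det t := by
    intro t
    rw [map_mul, map_mul, map_inv, mul_comm (LinearEquiv.det g), mul_assoc, mul_inv_cancel, mul_one]
  ext x
  constructor
  · rintro ⟨t, ht, rfl⟩
    refine ⟨?_, ?_, ?_⟩
    · rw [← h0]
      exact ⟨t, ht.1, rfl⟩
    · exact mul_mem (mul_mem hf ht.2.1) (inv_mem hf)
    · intro h
      change LinearEquiv.det (g * t * g⁻¹) = 1
      rw [hdet]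
      exact ht.2.2 h
  · intro hx
    have hx1 := hx.1
    rw [← h0] at hx1
    obtain ⟨t, ht, htx⟩ := hx1
    have htx' : g * t * g⁻¹ = x := htx
    have ht' : t = g⁻¹ * x * g := by
      rw [← htx']
      group
    refine ⟨t, ⟨ht, ?_, ?_⟩, htx⟩
    · rw [ht']
      exact mul_mem (mul_mem (inv_mem hf) hx.2.1) hf
    · intro h
      rw [← hdet t, htx']
      exact hx.2.2 h

/-- The homomorphism of the groups of units defined by `ρ`. -/
noncomputable def rhoU (ρ : Module.End K V →ₐ[K] Matrix Ω Ω F) : (V ≃ₗ[K] V) →* (Matrix Ω Ω F)ˣ :=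
  (Units.map (ρ : Module.End K V →* Matrix Ω Ω F)).comp
    (LinearMap.GeneralLinearGroup.generalLinearEquiv K V).symm.toMonoidHom

theorem rhoU_val (ρ : Module.End K V →ₐ[K] Matrix Ω Ω F) (g : V ≃ₗ[K] V) :
    ((rhoU ρ g : (Matrix Ω Ω F)ˣ) : Matrix Ω Ω F) = ρ g.toLinearMap := by
  rfl

theorem rhoU_inj (ρ : Module.End K V →ₐ[K] Matrix Ω Ω F) (hρ : Function.Injective ρ) :
    Function.Injective (rhoU ρ) := by
  intro g h hgh
  apply I0_inj
  apply hρ
  rw [← rhoU_val, ← rhoU_val, hgh]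

/-- The diagonal matrices given by the squares of the elements of `T`. -/
def T0 {A : Subalgebra K (Module.End K V)} (w : Ω → (A →ₐ[K] F)) (T : Subgroup (V ≃ₗ[K] V)) :
    Set (Ω → Fˣ) :=
  {z | ∃ t : A, (∃ g ∈ T, g.toLinearMap = (t : Module.End K V)) ∧ ∀ i, (z i : F) = w i (t * t)}

theorem I0_fwd (A : Subalgebra K (Module.End K V)) (w : Ω → (A →ₐ[K] F))
    (ρ : Module.End K V →ₐ[K] Matrix Ω Ω F)
    (hd : ∀ a : A, ρ (a : Module.End K V) = diagonal fun i => w i a)
    (T : Subgroup (V ≃ₗ[K] V)) (hT : T ≤ torGL A) (t : V ≃ₗ[K] V) (ht : t ∈ T) :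
    ∃ z ∈ T0 w T, rhoU ρ (t * t) = dU z := by
  obtain ⟨h1, h2⟩ := hT ht
  let a : A := ⟨t.toLinearMap, h1⟩
  let b : A := ⟨(t⁻¹).toLinearMap, h2⟩
  have hab : a * b = 1 := by
    apply Subtype.ext
    change (t.toLinearMap * (t⁻¹).toLinearMap : Module.End K V) = 1
    rw [← I0_val_mul, mul_inv_cancel]
    rfl
  have hba : b * a = 1 := by
    apply Subtype.ext
    change ((t⁻¹).toLinearMap * t.toLinearMap : Module.End K V) = 1
    rw [← I0_val_mul, inv_mul_cancel]
    rfl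
  have hu1 : ∀ i, w i (a * a) * w i (b * b) = 1 := by
    intro i
    rw [← map_mul, mul_assoc, ← mul_assoc a b b, hab, one_mul, hab, map_one]
  have hu2 : ∀ i, w i (b * b) * w i (a * a) = 1 := by
    intro i
    rw [mul_comm]; exact hu1 i
  refine ⟨fun i => ⟨w i (a * a), w i (b * b), hu1 i, hu2 i⟩, ⟨a, ⟨t, ht, rfl⟩, fun i => rfl⟩, ?_⟩
  apply Units.ext
  rw [rhoU_val, dU_val, I0_val_mul]
  exact hd (a * a)

theorem I0_bwd (A : Subalgebra K (Module.End K V)) (w : Ω → (A →ₐ[K] F))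
    (ρ : Module.End K V →ₐ[K] Matrix Ω Ω F)
    (hd : ∀ a : A, ρ (a : Module.End K V) = diagonal fun i => w i a)
    (T : Subgroup (V ≃ₗ[K] V)) (z : Ω → Fˣ) (hz : z ∈ T0 w T) :
    ∃ t ∈ T, rhoU ρ (t * t) = dU z := by
  obtain ⟨a, ⟨g, hg, hga⟩, hz⟩ := hz
  refine ⟨g, hg, ?_⟩
  apply Units.ext
  rw [rhoU_val, dU_val, I0_val_mul, hga]
  have h1 := hd (a * a)
  have h2 : (fun i => ((z i : Fˣ) : F)) = fun i => w i (a * a) := funext hz
  rw [h2, ← h1]
  rfl

theorem map_HT (A : Subalgebra K (Module.End K V)) (w : Ω → (A →ₐ[K] F))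
    (ρ : Module.End K V →ₐ[K] Matrix Ω Ω F)
    (hd : ∀ a : A, ρ (a : Module.End K V) = diagonal fun i => w i a)
    (T : Subgroup (V ≃ₗ[K] V)) (hT : T ≤ torGL A) (g : V ≃ₗ[K] V) :
    (sq T ⊔ sq (T.map (MulAut.conj g).toMonoidHom)).map (rhoU ρ) = HT (T0 w T) (rhoU ρ g) := by
  rw [Subgroup.map_sup, sq, sq, MonoidHom.map_closure, MonoidHom.map_closure, HT,
    Subgroup.closure_union]
  congr 1
  · congr 1
    ext x
    constructor
    · rintro ⟨_, ⟨t, ht, rfl⟩, rfl⟩
      exact I0_fwd A w ρ hd T hT t ht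
    · rintro ⟨z, hz, rfl⟩
      obtain ⟨t, ht, h⟩ := I0_bwd A w ρ hd T z hz
      exact ⟨t * t, ⟨t, ht, rfl⟩, h⟩
  · congr 1
    ext x
    constructor
    · rintro ⟨_, ⟨_, ⟨t, ht, rfl⟩, rfl⟩, rfl⟩
      obtain ⟨z, hz, h⟩ := I0_fwd A w ρ hd T hT t ht
      refine ⟨z, hz, ?_⟩
      change rhoU ρ ((g * t * g⁻¹) * (g * t * g⁻¹)) = _
      rw [← h, ← map_inv, ← map_mul, ← map_mul]
      congr 1
      group
    · rintro ⟨z, hz, rfl⟩
      obtain ⟨t, ht, h⟩ := I0_bwd A w ρ hd T z hz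
      refine ⟨(g * t * g⁻¹) * (g * t * g⁻¹), ⟨g * t * g⁻¹, ⟨t, ht, rfl⟩, rfl⟩, ?_⟩
      rw [← h, ← map_inv, ← map_mul, ← map_mul]
      congr 1
      group

theorem span_of_adjoin (ρ : Module.End K V →ₐ[K] Matrix Ω Ω F)
    (hs : Submodule.span F (Set.range ρ) = ⊤) (H : Subgroup (V ≃ₗ[K] V))
    (h : Algebra.adjoin K (EndSet H) = ⊤) : SpanTop (H.map (rhoU ρ)) := by
  have hcl : ∀ x ∈ Submonoid.closure (EndSet H), x ∈ EndSet H := by
    intro x hx
    induction hx using Submonoid.closure_induction with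
    | mem x hx => exact hx
    | one => exact ⟨1, one_mem _, rfl⟩
    | mul x y _ _ hx hy =>
      obtain ⟨a, ha, rfl⟩ := hx
      obtain ⟨b, hb, rfl⟩ := hy
      exact ⟨a * b, mul_mem ha hb, (I0_val_mul a b).symm⟩
  have hall : ∀ x : Module.End K V, x ∈ Submodule.span K (EndSet H) := by
    intro x
    have h1 : x ∈ Algebra.adjoin K (EndSet H) := by rw [h]; exact Algebra.mem_top
    rw [← Subalgebra.mem_toSubmodule, Algebra.adjoin_eq_span] at h1
    exact Submodule.span_mono hcl h1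
  rw [SpanTop, eq_top_iff, ← hs, Submodule.span_le]
  rintro _ ⟨x, rfl⟩
  have h2 := hall x
  induction h2 using Submodule.span_induction with
  | mem x hx =>
    obtain ⟨a, ha, rfl⟩ := hx
    refine Submodule.subset_span ⟨rhoU ρ a, ⟨a, ha, rfl⟩, ?_⟩
    rw [rhoU_val]
  | zero =>
    rw [map_zero]
    exact Submodule.zero_mem _
  | add x y _ _ hx hy =>
    rw [map_add]
    exact Submodule.add_mem _ hx hy
  | smul c x _ hx =>
    rw [map_smul, ← IsScalarTower.algebraMap_smul F c (ρ x)]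
    exact Submodule.smul_mem _ _ hx

end

end Pool.Agent.CTO
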