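import Pool.Agent.CTO.Base

/-!
# C1: upper bounds for the number of isometries

Let `n = dim V`, `Q = |K|`. `card_GL_le`: `V ≃ₗ V` embeds into `V → V`-linear maps, `|End V| = Q ^ (n²)`.

Counting lemma (prove it first): let `b` be a basis of `V` indexed by `Fin n`; an isometry `g` is
determined by `(g b_0, ..., g b_(n-1))`. If for every `i` and every isometry `g` the number of vectors
`g' b_i`, `g'` an isometry with `g' b_j = g b_j` for `j < i`, is at most `N_i`, then the number of
isometries is at most `∏ N_i`. (Induction on `k`: the number of tuples `(g b_0, ..., g b_(k-1))` is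
`≤ ∏_{i<k} N_i`; `Finset.card_le_mul_card_image` or `Fintype.card_le_of_fiber`.)

* `card_Sp_le` (`σ = id`, `ε = -1`; any basis `b`): `y = g' b_i` satisfies the `i` linear equations
  `f y (g b_j) = f b_i b_j`, `j < i`; the functionals `f · (g b_j)` are linearly independent, so the
  solutions form an affine subspace of dimension `n - i`: `N_i = Q ^ (n - i)`, and
  `∏ N_i = Q ^ (n (n + 1) / 2)`.
* `card_O_le` (`σ = id`, `ε = 1`, `2 ≠ 0`): take an orthogonal basis `b` (`f b_i b_j = 0` for `i ≠ j`,
  `c_i = f b_i b_i ≠ 0`; `LinearMap.BilinForm.exists_orthogonal_basis`). `y = g' b_i` lies in the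
  orthogonal space `X` of `g b_0, ..., g b_(i-1)`, which has the orthogonal basis `g b_i, ..., g b_(n-1)`:
  `y = ∑_{k ≥ i} y_k g b_k`, `∑ y_k ^ 2 c_k = c_i`. Given `y_k` for `k > i`, there are at most two `y_i`.
  So `N_i = 2 Q ^ (n - i - 1)`, and `∏ N_i = 2 ^ n Q ^ (n (n - 1) / 2)`.
* `card_U_le` (`σ ≠ id`, `Q0 = |{k | σ k = k}|`, `Q = Q0 ^ 2`, `2 ≠ 0`): the same with
  `∑ y_k σ(y_k) c_k = c_i`; given the `y_k`, `k > i`, the number of `y_i` is at most the number of
  solutions of `y σ(y) = c`, which is at most `Q0 + 1 ≤ 2 Q0` (`σ y = y ^ Q0` as `σ` is an automorphism of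
  order two of the finite field `K`; or: two solutions with `c ≠ 0` differ by an element of the kernel of
  the norm; a polynomial of degree `Q0 + 1`). So `N_i = 2 Q0 * Q0 ^ (2 (n - i - 1))`, and
  `∏ N_i = 2 ^ n * Q0 ^ (n ^ 2)`. An orthogonal basis exists for hermitian and skew hermitian forms with
  `σ ≠ id`, `2 ≠ 0`: if `f v v = 0` for all `v` then `f v w + f w v = 0`, i.e.
  `x + ε σ x = 0` for all values `x = f v w`, which form all of `K`: taking `x = 1` gives `ε = -1` and then
  `σ = id`; contradiction; then split off `v` with `f v v ≠ 0`, induction on the dimension.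
-/

namespace Pool.Agent.CTO

open Module

/-- counting of tuples -/
theorem C1_count {V : Type} [DecidableEq V] : ∀ (n : ℕ) (S : Finset (Fin n → V)) (N : Fin n → ℕ),
    (∀ s ∈ S, ∀ i, ((S.filter (fun s' => ∀ j, j < i → s' j = s j)).image (fun s' => s' i)).card
      ≤ N i) → S.card ≤ ∏ i, N i := by
  intro n
  induction n with
  | zero =>
    intro S N _
    simp only [Finset.univ_eq_empty, Finset.prod_empty]
    exact Finset.card_le_one_of_subsingleton S
  | succ n ih =>
    intro S N h
    rcases S.eq_empty_or_nonempty with rfl | ⟨s₀, hs₀⟩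
    · simp
    have h0 : (S.image (fun s => s 0)).card ≤ N 0 := by
      have := h s₀ hs₀ 0
      have e : S.filter (fun s' => ∀ j, j < (0 : Fin (n + 1)) → s' j = s₀ j) = S := by
        apply Finset.filter_true_of_mem
        intro s _ j hj
        exact absurd hj (Fin.not_lt_zero j)
      rw [e] at this
      exact this
    have h1 : ∀ v ∈ S.image (fun s => s 0), (S.filter (fun s => s 0 = v)).card ≤
        ∏ i : Fin n, N i.succ := by
      intro v _
      let T : Finset (Fin n → V) := (S.filter (fun s => s 0 = v)).image (fun s j => s j.succ)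
      have hT : (S.filter (fun s => s 0 = v)).card = T.card := by
        symm
        apply Finset.card_image_of_injOn
        intro s hs s' hs' hss
        have hs0 := (Finset.mem_filter.1 (Finset.mem_coe.1 hs)).2
        have hs0' := (Finset.mem_filter.1 (Finset.mem_coe.1 hs')).2
        funext j
        refine Fin.cases ?_ (fun j => ?_) j
        · rw [hs0, hs0']
        · exact congrFun hss j
      rw [hT]
      apply ih T (fun i => N i.succ)
      intro t ht i
      obtain ⟨s, hs, rfl⟩ := Finset.mem_image.1 ht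
      obtain ⟨hsS, hs0⟩ := Finset.mem_filter.1 hs
      refine le_trans (Finset.card_le_card ?_) (h s hsS i.succ)
      intro y hy
      obtain ⟨t', ht', rfl⟩ := Finset.mem_image.1 hy
      obtain ⟨ht'T, ht'j⟩ := Finset.mem_filter.1 ht'
      obtain ⟨s', hs', rfl⟩ := Finset.mem_image.1 ht'T
      obtain ⟨hs'S, hs'0⟩ := Finset.mem_filter.1 hs'
      refine Finset.mem_image.2 ⟨s', Finset.mem_filter.2 ⟨hs'S, ?_⟩, rfl⟩
      intro j
      refine Fin.cases ?_ (fun j => ?_) j
      · intro _
        rw [hs'0, hs0]
      · intro hj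
        exact ht'j j (Fin.succ_lt_succ_iff.1 hj)
    calc S.card ≤ (∏ i : Fin n, N i.succ) * (S.image (fun s => s 0)).card :=
          Finset.card_le_mul_card_image S _ h1
      _ ≤ (∏ i : Fin n, N i.succ) * N 0 := Nat.mul_le_mul_left _ h0
      _ = ∏ i, N i := by rw [Fin.prod_univ_succ, mul_comm]

variable {K V : Type} [Field K] [Finite K] [AddCommGroup V] [Module K V] [FiniteDimensional K V]

theorem C1_finEquiv : Finite (V ≃ₗ[K] V) := by
  have : Finite V := Module.finite_of_finite K
  exact Finite.of_injective (fun g : V ≃ₗ[K] V => (fun v => g v : V → V))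
    (fun g g' h => LinearEquiv.ext (fun v => congrFun h v))

/-- the counting lemma for isometries -/
theorem C1_isom {n : ℕ} (b : Basis (Fin n) K V) (f : V → V → K) (N : Fin n → ℕ)
    (h : ∀ g ∈ Isom f, ∀ i, {y | ∃ g' ∈ Isom f, (∀ j, j < i → g' (b j) = g (b j)) ∧
      g' (b i) = y}.ncard ≤ N i) : Nat.card (Isom f) ≤ ∏ i, N i := by
  classical
  have : Finite V := Module.finite_of_finite K
  have : Fintype V := Fintype.ofFinite V
  have : Finite (V ≃ₗ[K] V) := C1_finEquiv
  have : Finite (Isom f) := Subtype.finite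
  have : Fintype (Isom f) := Fintype.ofFinite _
  let F : Isom f → (Fin n → V) := fun g i => g.1 (b i)
  have hF : Function.Injective F := by
    intro g g' hg
    apply Subtype.ext
    apply LinearEquiv.toLinearMap_injective
    exact b.ext (fun i => congrFun hg i)
  let S : Finset (Fin n → V) := Finset.univ.image F
  have hS : Nat.card (Isom f) = S.card := by
    rw [Nat.card_eq_fintype_card, Finset.card_image_of_injective _ hF, Finset.card_univ]
  rw [hS]
  apply C1_count n S N
  intro s hs i
  obtain ⟨g, -, rfl⟩ := Finset.mem_image.1 hs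
  refine le_trans ?_ (h g.1 g.2 i)
  rw [← Set.ncard_coe_finset]
  apply Set.ncard_le_ncard _ (Set.toFinite _)
  intro y hy
  rw [Finset.mem_coe] at hy
  obtain ⟨s', hs', rfl⟩ := Finset.mem_image.1 hy
  obtain ⟨hs'S, hs'j⟩ := Finset.mem_filter.1 hs'
  obtain ⟨g', -, rfl⟩ := Finset.mem_image.1 hs'S
  exact ⟨g'.1, g'.2, hs'j, rfl⟩

/-- number of functions on an upper interval -/
theorem C1_Ici {n : ℕ} (i : Fin n) : Nat.card ({k : Fin n // i ≤ k} → K) = Nat.card K ^ (n - i.val) := by
  rw [Nat.card_fun, Nat.card_eq_fintype_card (α := {k : Fin n // i ≤ k})]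
  congr 1
  rw [Fintype.card_subtype]
  have : (Finset.univ.filter (fun k : Fin n => i ≤ k)) = Finset.Ici i := by
    ext k; simp
  rw [this, Fin.card_Ici]

theorem C1_Ioi {n : ℕ} (i : Fin n) : Nat.card ({k : Fin n // i < k} → K) =
    Nat.card K ^ (n - 1 - i.val) := by
  rw [Nat.card_fun, Nat.card_eq_fintype_card (α := {k : Fin n // i < k})]
  congr 1
  rw [Fintype.card_subtype]
  have : (Finset.univ.filter (fun k : Fin n => i < k)) = Finset.Ioi i := by
    ext k; simp
  rw [this, Fin.card_Ioi]

theorem C1_sub_left {σ : K →+* K} {ε : K} {f : V → V → K} (hf : IsHF σ ε f) (u v w : V) :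
    f (u - v) w = f u w - f v w := by
  have h := hf.add_left (u - v) v w
  rw [sub_add_cancel] at h
  rw [h]; ring

theorem C1_zero_left {σ : K →+* K} {ε : K} {f : V → V → K} (hf : IsHF σ ε f) (w : V) :
    f 0 w = 0 := by
  have h := C1_sub_left hf 0 0 w
  rw [sub_self, sub_self] at h
  exact h

theorem C1_zero_right {σ : K →+* K} {ε : K} {f : V → V → K} (hf : IsHF σ ε f) (w : V) :
    f w 0 = 0 := by
  rw [hf.herm 0 w, C1_zero_left hf, map_zero, mul_zero]

theorem C1_add_right {σ : K →+* K} {ε : K} {f : V → V → K} (hf : IsHF σ ε f) (u v w : V) :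
    f w (u + v) = f w u + f w v := by
  rw [hf.herm (u + v) w, hf.add_left, map_add, mul_add, ← hf.herm u w, ← hf.herm v w]

theorem C1_smul_right {σ : K →+* K} {ε : K} {f : V → V → K} (hf : IsHF σ ε f) (a : K) (v w : V) :
    f w (a • v) = σ a * f w v := by
  rw [hf.herm (a • v) w, hf.smul_left, map_mul, hf.herm v w]; ring

theorem C1_sum_left {σ : K →+* K} {ε : K} {f : V → V → K} (hf : IsHF σ ε f) {ι : Type}
    (s : Finset ι) (c : ι → K) (v : ι → V) (w : V) :
    f (∑ k ∈ s, c k • v k) w = ∑ k ∈ s, c k * f (v k) w := by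
  classical
  induction s using Finset.induction_on with
  | empty => rw [Finset.sum_empty, Finset.sum_empty, C1_zero_left hf]
  | insert a s ha ih => rw [Finset.sum_insert ha, Finset.sum_insert ha, hf.add_left, hf.smul_left, ih]

theorem C1_sum_right {σ : K →+* K} {ε : K} {f : V → V → K} (hf : IsHF σ ε f) {ι : Type}
    (s : Finset ι) (c : ι → K) (v : ι → V) (w : V) :
    f w (∑ k ∈ s, c k • v k) = ∑ k ∈ s, σ (c k) * f w (v k) := by
  classical
  induction s using Finset.induction_on with
  | empty => rw [Finset.sum_empty, Finset.sum_empty, C1_zero_right hf]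
  | insert a s ha ih =>
    rw [Finset.sum_insert ha, Finset.sum_insert ha, C1_add_right hf, C1_smul_right hf, ih]

/-- a vector is determined by its products with the images of the basis vectors -/
theorem C1_det {σ : K →+* K} {ε : K} {f : V → V → K} (hf : IsHF σ ε f) {n : ℕ}
    (b : Basis (Fin n) K V) (g : V ≃ₗ[K] V) {y y' : V}
    (h : ∀ k, f y (g (b k)) = f y' (g (b k))) : y = y' := by
  rw [← sub_eq_zero]
  apply hf.nondeg
  intro w
  have hw : w = ∑ k, (b.map g).repr w k • g (b k) := by
    conv_lhs => rw [← (b.map g).sum_repr w]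
    simp
  rw [hw, C1_sum_right hf]
  apply Finset.sum_eq_zero
  intro k _
  rw [C1_sub_left hf, h k, sub_self, mul_zero]

theorem card_GL_le : Nat.card (V ≃ₗ[K] V) ≤ Nat.card K ^ (finrank K V ^ 2) := by
  have : Finite V := Module.finite_of_finite K
  have : Finite (V →ₗ[K] V) := Module.finite_of_finite K
  have h1 : Nat.card (V ≃ₗ[K] V) ≤ Nat.card (V →ₗ[K] V) :=
    Nat.card_le_card_of_injective (fun g : V ≃ₗ[K] V => g.toLinearMap)
      LinearEquiv.toLinearMap_injective
  refine h1.trans ?_
  rw [Module.natCard_eq_pow_finrank (K := K) (V := V →ₗ[K] V), Module.finrank_linearMap, pow_two]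

theorem card_Sp_le (f : V → V → K) (hf : IsHF (RingHom.id K) (-1) f) :
    Nat.card (Isom f) ≤ Nat.card K ^ (finrank K V * (finrank K V + 1) / 2) := by
  classical
  have : Finite V := Module.finite_of_finite K
  let n := finrank K V
  let b : Basis (Fin n) K V := finBasis K V
  have h1 : Nat.card (Isom f) ≤ ∏ i : Fin n, Nat.card K ^ (n - i.val) := by
    apply C1_isom b f
    intro g hg i
    rw [← C1_Ici (K := K) i]
    rw [← Set.ncard_univ]
    apply Set.ncard_le_ncard_of_injOn (fun y (k : {k : Fin n // i ≤ k}) => f y (g (b k.1)))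
    · intro _ _; exact Set.mem_univ _
    · rintro y ⟨g', hg', hj, rfl⟩ y' ⟨g'', hg'', hj', rfl⟩ hyy
      apply C1_det hf b g
      intro k
      by_cases hk : i ≤ k
      · exact congrFun hyy ⟨k, hk⟩
      · have hk' : k < i := not_le.1 hk
        rw [← hj k hk', hg' _ _, hj k hk', ← hj' k hk', hg'' _ _]
  refine h1.trans (le_of_eq ?_)
  rw [Finset.prod_pow_eq_pow_sum]
  congr 1
  rw [Fin.sum_univ_eq_sum_range (fun i => n - i) n]
  have h2 : ∑ i ∈ Finset.range n, (n - i) = ∑ i ∈ Finset.range (n + 1), i := by
    rw [← Finset.sum_range_reflect (fun i => i) (n + 1), Finset.sum_range_succ]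
    simp
  rw [h2, Finset.sum_range_id, Nat.add_sub_cancel, mul_comm]

/-- existence of an orthogonal basis -/
theorem C1_orth {σ : K →+* K} {ε : K} {f : V → V → K} (hf : IsHF σ ε f)
    (H : ∀ t : K, (∀ a, a * t + ε * σ (a * t) = 0) → t = 0) :
    ∃ b : Basis (Fin (finrank K V)) K V, (∀ i, f (b i) (b i) ≠ 0) ∧
      ∀ i j, i ≠ j → f (b i) (b j) = 0 := by
  classical
  -- orthogonal families are independent
  have hind : ∀ (k : ℕ) (v : Fin k → V), (∀ i, f (v i) (v i) ≠ 0) →
      (∀ i j, i ≠ j → f (v i) (v j) = 0) → LinearIndependent K v := by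
    intro k v h1 h2
    rw [Fintype.linearIndependent_iff]
    intro c hc i
    have h3 : f (∑ k, c k • v k) (v i) = 0 := by rw [hc, C1_zero_left hf]
    rw [C1_sum_left hf, Finset.sum_eq_single i] at h3
    · exact (mul_eq_zero.1 h3).resolve_right (h1 i)
    · intro j _ hj
      rw [h2 j i hj, mul_zero]
    · intro h; exact absurd (Finset.mem_univ i) h
  have hex : ∀ k, k ≤ finrank K V → ∃ v : Fin k → V, (∀ i, f (v i) (v i) ≠ 0) ∧
      ∀ i j, i ≠ j → f (v i) (v j) = 0 := by
    intro k
    induction k with
    | zero => intro _; exact ⟨Fin.elim0, fun i => i.elim0, fun i => i.elim0⟩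
    | succ k ih =>
      intro hk
      obtain ⟨v, hv1, hv2⟩ := ih (by omega)
      -- projection to the orthogonal space
      let pr : V → V := fun y => y - ∑ i, (f y (v i) / f (v i) (v i)) • v i
      have hpr : ∀ y j, f (pr y) (v j) = 0 := by
        intro y j
        show f (y - ∑ i, (f y (v i) / f (v i) (v i)) • v i) (v j) = 0
        rw [C1_sub_left hf, C1_sum_left hf, Finset.sum_eq_single j]
        · rw [div_mul_cancel₀ _ (hv1 j), sub_self]
        · intro i _ hij
          rw [hv2 i j hij, mul_zero]
        · intro h; exact absurd (Finset.mem_univ j) h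
      have hx : ∃ x, (∀ j, f x (v j) = 0) ∧ f x x ≠ 0 := by
        by_contra hcon
        push Not at hcon
        have hzero : ∀ x w, (∀ j, f x (v j) = 0) → (∀ j, f w (v j) = 0) → f x w = 0 := by
          intro x w hx hw
          apply H
          intro a
          have hax : ∀ j, f (a • x) (v j) = 0 := fun j => by rw [hf.smul_left, hx j, mul_zero]
          have h1 := hcon (a • x + w) (fun j => by rw [hf.add_left, hax j, hw j, add_zero])
          rw [hf.add_left, C1_add_right hf, C1_add_right hf, hcon _ hax, hcon _ hw, zero_add,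
            add_zero, hf.herm (a • x) w, hf.smul_left] at h1
          exact h1
        -- all vectors are in the span
        have hall : ∀ y, y = ∑ i, (f y (v i) / f (v i) (v i)) • v i := by
          intro y
          rw [← sub_eq_zero]
          apply hf.nondeg
          intro w
          have hw : w = pr w + ∑ i, (f w (v i) / f (v i) (v i)) • v i := by
            show w = (w - ∑ i, (f w (v i) / f (v i) (v i)) • v i) +
              ∑ i, (f w (v i) / f (v i) (v i)) • v i
            rw [sub_add_cancel]
          have h1 : f (pr y) w = 0 := by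
            rw [hw, C1_add_right hf, hzero _ _ (hpr y) (hpr w), zero_add, C1_sum_right hf]
            apply Finset.sum_eq_zero
            intro i _
            rw [hpr y i, mul_zero]
          exact h1
        have hspan : ⊤ ≤ Submodule.span K (Set.range v) := by
          intro y _
          rw [hall y]
          exact Submodule.sum_mem _ (fun i _ => Submodule.smul_mem _ _
            (Submodule.subset_span ⟨i, rfl⟩))
        have h2 : finrank K V ≤ k := by
          have h3 := finrank_range_le_card (R := K) v
          rw [Set.finrank, top_le_iff.1 hspan, finrank_top, Fintype.card_fin] at h3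
          exact h3
        omega
      obtain ⟨x, hx1, hx2⟩ := hx
      refine ⟨Fin.cons x v, ?_, ?_⟩
      · intro i
        refine Fin.cases ?_ (fun i => ?_) i
        · exact hx2
        · exact hv1 i
      · intro i j
        refine Fin.cases ?_ (fun i => ?_) i
        · refine Fin.cases ?_ (fun j => ?_) j
          · intro h; exact absurd rfl h
          · intro _; exact hx1 j
        · refine Fin.cases ?_ (fun j => ?_) j
          · intro _
            show f (v i) x = 0
            rw [hf.herm x (v i), hx1 i, map_zero, mul_zero]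
          · intro h
            exact hv2 i j (fun h' => h (by rw [h']))
  obtain ⟨v, h1, h2⟩ := hex _ le_rfl
  have hli := hind _ v h1 h2
  rcases Nat.eq_zero_or_pos (finrank K V) with h0 | h0
  · refine ⟨finBasis K V, fun i => ?_, fun i => ?_⟩ <;>
      exact absurd i.2 (by omega)
  · have : Nonempty (Fin (finrank K V)) := ⟨⟨0, h0⟩⟩
    let b := basisOfLinearIndependentOfCardEqFinrank hli (by simp)
    refine ⟨b, fun i => ?_, fun i j hij => ?_⟩
    · simpa [b] using h1 i
    · simpa [b] using h2 i j hij

/-- the bound with an orthogonal basis -/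
theorem C1_bound {σ : K →+* K} {ε : K} {f : V → V → K} (hf : IsHF σ ε f)
    (H : ∀ t : K, (∀ a, a * t + ε * σ (a * t) = 0) → t = 0) (M : ℕ)
    (hM : ∀ t₀ : K, {t : K | t * σ t = t₀ * σ t₀}.ncard ≤ M) :
    Nat.card (Isom f) ≤ M ^ finrank K V * Nat.card K ^ (finrank K V * (finrank K V - 1) / 2) := by
  classical
  have : Finite V := Module.finite_of_finite K
  have : Fintype V := Fintype.ofFinite V
  have : Fintype K := Fintype.ofFinite K
  obtain ⟨b, hb1, hb2⟩ := C1_orth hf H
  have hε : ε * ε = 1 := by rcases hf.eps with h | h <;> rw [h] <;> ring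
  have h1 : Nat.card (Isom f) ≤ ∏ i : Fin (finrank K V),
      (M * Nat.card K ^ (finrank K V - 1 - i.val)) := by
    apply C1_isom b f
    intro g hg i
    have key : ∀ y ∈ {y | ∃ g' ∈ Isom f, (∀ j, j < i → g' (b j) = g (b j)) ∧ g' (b i) = y},
        (∀ j, j < i → f y (g (b j)) = 0) ∧ f y y = f (b i) (b i) := by
      rintro y ⟨g', hg', hj, rfl⟩
      refine ⟨fun j hji => ?_, hg' _ _⟩
      rw [← hj j hji, hg' _ _]
      exact hb2 i j (ne_of_gt hji)
    have hexp : ∀ y : V, f y y = ∑ k, ε * (f y (g (b k)) * σ (f y (g (b k)))) / f (b k) (b k) := by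
      intro y
      have hy : y = ∑ k, (f y (g (b k)) / f (b k) (b k)) • g (b k) := by
        apply C1_det hf b g
        intro j
        rw [C1_sum_left hf, Finset.sum_eq_single j]
        · rw [hg _ _, div_mul_cancel₀ _ (hb1 j)]
        · intro k _ hkj
          rw [hg _ _, hb2 k j hkj, mul_zero]
        · intro h; exact absurd (Finset.mem_univ j) h
      conv_lhs =>
        rw [hy]
        rw [C1_sum_left hf]
      apply Finset.sum_congr rfl
      intro k _
      rw [← hy, hf.herm y (g (b k))]
      ring
    let Y : Set V := {y | ∃ g' ∈ Isom f, (∀ j, j < i → g' (b j) = g (b j)) ∧ g' (b i) = y}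
    have hYf : Y.Finite := Set.toFinite _
    let YF : Finset V := hYf.toFinset
    have hYcard : Y.ncard = YF.card := Set.ncard_eq_toFinset_card Y hYf
    show Y.ncard ≤ _
    rw [hYcard]
    let Φ : V → ({k : Fin (finrank K V) // i < k} → K) := fun y k => f y (g (b k.1))
    have h2 : YF.card ≤ M * (YF.image Φ).card := by
      apply Finset.card_le_mul_card_image
      intro c hc
      obtain ⟨y₀, hy₀, rfl⟩ := Finset.mem_image.1 hc
      have hy₀Y : y₀ ∈ Y := hYf.mem_toFinset.1 hy₀
      refine le_trans ?_ (hM (f y₀ (g (b i))))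
      rw [← Set.ncard_coe_finset]
      apply Set.ncard_le_ncard_of_injOn (fun y => f y (g (b i)))
      · intro y hy
        obtain ⟨hyY, hyΦ⟩ := Finset.mem_filter.1 (Finset.mem_coe.1 hy)
        have hyY' : y ∈ Y := hYf.mem_toFinset.1 hyY
        have e1 := hexp y
        have e2 := hexp y₀
        rw [(key y hyY').2, ← (key y₀ hy₀Y).2] at e1
        have e3 : ∑ k, ε * (f y (g (b k)) * σ (f y (g (b k)))) / f (b k) (b k) =
          ∑ k, ε * (f y₀ (g (b k)) * σ (f y₀ (g (b k)))) / f (b k) (b k) := by
          rw [← e1, e2]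
        rw [← Finset.add_sum_erase _ _ (Finset.mem_univ i),
          ← Finset.add_sum_erase (a := i) _ (fun k => ε * (f y₀ (g (b k)) *
            σ (f y₀ (g (b k)))) / f (b k) (b k)) (Finset.mem_univ i)] at e3
        have e4 : ∑ k ∈ Finset.univ.erase i, ε * (f y (g (b k)) * σ (f y (g (b k)))) / f (b k) (b k)
          = ∑ k ∈ Finset.univ.erase i,
            ε * (f y₀ (g (b k)) * σ (f y₀ (g (b k)))) / f (b k) (b k) := by
          apply Finset.sum_congr rfl
          intro k hk
          have hki : k ≠ i := Finset.ne_of_mem_erase hk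
          rcases lt_or_gt_of_ne hki with h | h
          · rw [(key y hyY').1 k h, (key y₀ hy₀Y).1 k h]
          · have : f y (g (b k)) = f y₀ (g (b k)) := congrFun hyΦ ⟨k, h⟩
            rw [this]
        rw [e4] at e3
        have e5 := add_right_cancel e3
        have e6 : f y (g (b i)) * σ (f y (g (b i))) = f y₀ (g (b i)) * σ (f y₀ (g (b i))) := by
          have hc0 := hb1 i
          field_simp at e5
          have hε0 : ε ≠ 0 := by intro h; rw [h] at hε; simp at hε
          first
            | exact mul_left_cancel₀ hε0 e5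
            | exact e5
            | (apply mul_left_cancel₀ hε0; linear_combination e5)
        exact e6
      · intro y hy y' hy' hyy
        obtain ⟨hyY, hyΦ⟩ := Finset.mem_filter.1 (Finset.mem_coe.1 hy)
        have hyY' : y ∈ Y := hYf.mem_toFinset.1 hyY
        obtain ⟨hy'Y, hy'Φ⟩ := Finset.mem_filter.1 (Finset.mem_coe.1 hy')
        have hy'Y' : y' ∈ Y := hYf.mem_toFinset.1 hy'Y
        apply C1_det hf b g
        intro k
        rcases lt_trichotomy k i with h | h | h
        · rw [(key y hyY').1 k h, (key y' hy'Y').1 k h]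
        · rw [h]; exact hyy
        · exact congrFun (hyΦ.trans hy'Φ.symm) ⟨k, h⟩
    have h3 : (YF.image Φ).card ≤ Nat.card K ^ (finrank K V - 1 - i.val) := by
      rw [← C1_Ioi (K := K) i, Nat.card_eq_fintype_card]
      exact Finset.card_le_univ _
    exact h2.trans (Nat.mul_le_mul_left _ h3)
  refine h1.trans (le_of_eq ?_)
  rw [Finset.prod_mul_distrib, Finset.prod_const, Finset.card_univ, Fintype.card_fin,
    Finset.prod_pow_eq_pow_sum]
  congr 2
  rw [Fin.sum_univ_eq_sum_range (fun i => finrank K V - 1 - i) (finrank K V),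
    Finset.sum_range_reflect (fun i => i), Finset.sum_range_id]

theorem card_O_le (f : V → V → K) (hf : IsHF (RingHom.id K) 1 f) (two : (2 : K) ≠ 0) :
    Nat.card (Isom f) ≤ 2 ^ finrank K V * Nat.card K ^ (finrank K V * (finrank K V - 1) / 2) := by
  classical
  apply C1_bound hf
  · intro t ht
    have h := ht 1
    simp only [one_mul, RingHom.id_apply] at h
    have h' : 2 * t = 0 := by rw [two_mul]; exact h
    exact (mul_eq_zero.1 h').resolve_left two
  · intro t₀
    have hsub : {t : K | t * (RingHom.id K) t = t₀ * (RingHom.id K) t₀} ⊆ ({t₀, -t₀} : Finset K) := by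
      intro t ht
      have ht' : t * t = t₀ * t₀ := ht
      have h2 := mul_self_eq_mul_self_iff.1 ht'
      simpa using h2
    refine (Set.ncard_le_ncard hsub (Set.toFinite _)).trans ?_
    rw [Set.ncard_coe_finset]
    exact Finset.card_le_two

theorem card_U_le (σ : K →+* K) (hσ : ∃ k, σ k ≠ k) (ε : K) (f : V → V → K) (hf : IsHF σ ε f)
    (two : (2 : K) ≠ 0) :
    Nat.card (Isom f) ≤ 2 ^ finrank K V * Nat.card {k : K // σ k = k} ^ (finrank K V ^ 2) := by
  classical
  set Q0 := Nat.card {k : K // σ k = k} with hQ0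
  have hQ0pos : 1 ≤ Q0 := by
    have : Nonempty {k : K // σ k = k} := ⟨⟨1, map_one σ⟩⟩
    exact Nat.card_pos
  have hfix : {k : K | σ k = k}.ncard = Q0 := rfl
  -- skew elements
  have hskew : {k : K | σ k = -k}.ncard ≤ Q0 := by
    by_cases h : ∃ t₁ : K, σ t₁ = -t₁ ∧ t₁ ≠ 0
    · obtain ⟨t₁, h1, h2⟩ := h
      rw [← hfix]
      apply Set.ncard_le_ncard_of_injOn (fun t => t / t₁)
      · intro t ht
        have ht' : σ t = -t := ht
        show σ (t / t₁) = t / t₁
        rw [map_div₀, ht', h1, neg_div_neg_eq]
      · intro t _ t' _ htt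
        exact (div_left_inj' h2).1 htt
    · push Not at h
      have hsub : {k : K | σ k = -k} ⊆ {0} := fun k hk => h k hk
      refine (Set.ncard_le_ncard hsub (Set.finite_singleton 0)).trans ?_
      rw [Set.ncard_singleton]
      exact hQ0pos
  -- units of norm one
  have hunit : {u : K | u * σ u = 1}.ncard ≤ 2 * Q0 := by
    have hsub : {u : K | u * σ u = 1} ⊆ {-1} ∪ {u : K | u * σ u = 1 ∧ u ≠ -1} := by
      intro u hu
      by_cases h : u = -1
      · exact Or.inl h
      · exact Or.inr ⟨hu, h⟩
    have h1 : {u : K | u * σ u = 1 ∧ u ≠ -1}.ncard ≤ {k : K | σ k = -k}.ncard := by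
      apply Set.ncard_le_ncard_of_injOn (fun u => (u - 1) / (u + 1))
      · rintro u ⟨hu, hu1⟩
        show σ ((u - 1) / (u + 1)) = -((u - 1) / (u + 1))
        have hu0 : u ≠ 0 := by
          intro h0
          rw [h0, zero_mul] at hu
          exact zero_ne_one hu
        have hσu : σ u = u⁻¹ := eq_inv_of_mul_eq_one_right hu
        have hu1' : u + 1 ≠ 0 := fun h0 => hu1 (eq_neg_of_add_eq_zero_left h0)
        have hu2 : 1 + u ≠ 0 := by rw [add_comm]; exact hu1'
        rw [map_div₀, map_sub, map_add, map_one, hσu]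
        field_simp
        ring
      · rintro u ⟨hu, hu1⟩ u' ⟨hu', hu1'⟩ huu
        have a1 : u + 1 ≠ 0 := fun h0 => hu1 (eq_neg_of_add_eq_zero_left h0)
        have a2 : u' + 1 ≠ 0 := fun h0 => hu1' (eq_neg_of_add_eq_zero_left h0)
        have h3 : (u - 1) / (u + 1) = (u' - 1) / (u' + 1) := huu
        rw [div_eq_div_iff a1 a2] at h3
        have h4 : 2 * (u - u') = 0 := by linear_combination h3
        exact sub_eq_zero.1 ((mul_eq_zero.1 h4).resolve_left two)
    have h2 := (Set.ncard_le_ncard hsub (Set.toFinite _)).trans (Set.ncard_union_le _ _)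
    rw [Set.ncard_singleton] at h2
    omega
  have hM : ∀ t₀ : K, {t : K | t * σ t = t₀ * σ t₀}.ncard ≤ 2 * Q0 := by
    intro t₀
    by_cases h0 : t₀ = 0
    · have hsub : {t : K | t * σ t = t₀ * σ t₀} ⊆ {0} := by
        intro t ht
        have ht' : t * σ t = t₀ * σ t₀ := ht
        rw [h0, zero_mul] at ht'
        rcases mul_eq_zero.1 ht' with h | h
        · exact h
        · exact (map_eq_zero σ).1 h
      refine (Set.ncard_le_ncard hsub (Set.finite_singleton 0)).trans ?_
      rw [Set.ncard_singleton]
      omega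
    · refine le_trans ?_ hunit
      apply Set.ncard_le_ncard_of_injOn (fun t => t / t₀)
      · intro t ht
        have ht' : t * σ t = t₀ * σ t₀ := ht
        show t / t₀ * σ (t / t₀) = 1
        have hσ0 : σ t₀ ≠ 0 := (map_ne_zero σ).2 h0
        rw [map_div₀, div_mul_div_comm, ht', div_self (mul_ne_zero h0 hσ0)]
      · intro t _ t' _ htt
        exact (div_left_inj' h0).1 htt
  have hQ : Nat.card K ≤ Q0 ^ 2 := by
    have h1 : Nat.card K ≤ Nat.card ({k : K // σ k = k} × {k : K // σ k = -k}) := by
      apply Nat.card_le_card_of_injective (fun x => (⟨x + σ x, by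
        rw [map_add, hf.invol, add_comm]⟩, ⟨x - σ x, by rw [map_sub, hf.invol]; ring⟩))
      intro x y hxy
      have e1 : x + σ x = y + σ y := congrArg Subtype.val (congrArg Prod.fst hxy)
      have e2 : x - σ x = y - σ y := congrArg Subtype.val (congrArg Prod.snd hxy)
      have h4 : 2 * (x - y) = 0 := by linear_combination e1 + e2
      exact sub_eq_zero.1 ((mul_eq_zero.1 h4).resolve_left two)
    rw [Nat.card_prod] at h1
    have h2 : Nat.card {k : K // σ k = -k} ≤ Q0 := hskew
    calc Nat.card K ≤ Q0 * Nat.card {k : K // σ k = -k} := h1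
      _ ≤ Q0 * Q0 := Nat.mul_le_mul_left _ h2
      _ = Q0 ^ 2 := (pow_two Q0).symm
  have H : ∀ t : K, (∀ a, a * t + ε * σ (a * t) = 0) → t = 0 := by
    intro t ht
    by_contra ht0
    have hall : ∀ x : K, x + ε * σ x = 0 := by
      intro x
      have := ht (x / t)
      rw [div_mul_cancel₀ _ ht0] at this
      exact this
    have h1 := hall 1
    rw [map_one, mul_one] at h1
    obtain ⟨k, hk⟩ := hσ
    apply hk
    have h2 := hall k
    have hε : ε = -1 := by linear_combination h1
    rw [hε] at h2
    linear_combination -h2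
  refine (C1_bound hf H (2 * Q0) hM).trans ?_
  rw [mul_pow, mul_assoc]
  apply Nat.mul_le_mul_left
  calc Q0 ^ finrank K V * Nat.card K ^ (finrank K V * (finrank K V - 1) / 2)
      ≤ Q0 ^ finrank K V * (Q0 ^ 2) ^ (finrank K V * (finrank K V - 1) / 2) :=
        Nat.mul_le_mul_left _ (Nat.pow_le_pow_left hQ _)
    _ = Q0 ^ (finrank K V ^ 2) := by
        rw [← pow_mul, ← pow_add]
        congr 1
        have h3 : 2 * (finrank K V * (finrank K V - 1) / 2) = finrank K V * (finrank K V - 1) :=
          Nat.mul_div_cancel' (Nat.even_mul_pred_self _).two_dvd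
        rw [h3]
        rcases Nat.eq_zero_or_pos (finrank K V) with h0 | h0
        · rw [h0]; norm_num
        · obtain ⟨m, hm⟩ : ∃ m, finrank K V = m + 1 := ⟨finrank K V - 1, by omega⟩
          rw [hm, Nat.add_sub_cancel]
          ring

end Pool.Agent.CTO
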