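import Pool.Agent.CTO.Mat0

/-!
# M4: genericity (the group generated by one parameter tori is irreducible)
-/

namespace Pool.Agent.CTO

open Matrix

variable {F Ω : Type} [Field F] [Fintype Ω] [DecidableEq Ω]

/-- Laurent polynomial functions -/
def M4_Lau (φ : Fˣ → F) : Prop :=
  ∃ (M : ℕ) (R : Polynomial F), ∀ t : Fˣ, (t : F) ^ M * φ t = R.eval (t : F)

lemma M4_const (c : F) : M4_Lau (fun _ => c) := by
  refine ⟨0, Polynomial.C c, fun t => ?_⟩
  simp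

lemma M4_add {φ ψ : Fˣ → F} (h : M4_Lau φ) (h' : M4_Lau ψ) : M4_Lau (fun t => φ t + ψ t) := by
  obtain ⟨M, R, hR⟩ := h
  obtain ⟨N, S, hS⟩ := h'
  refine ⟨M + N, Polynomial.X ^ N * R + Polynomial.X ^ M * S, fun t => ?_⟩
  rw [Polynomial.eval_add, Polynomial.eval_mul, Polynomial.eval_mul, Polynomial.eval_pow,
    Polynomial.eval_pow, Polynomial.eval_X, ← hR, ← hS]
  ring

lemma M4_mul {φ ψ : Fˣ → F} (h : M4_Lau φ) (h' : M4_Lau ψ) : M4_Lau (fun t => φ t * ψ t) := by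
  obtain ⟨M, R, hR⟩ := h
  obtain ⟨N, S, hS⟩ := h'
  refine ⟨M + N, R * S, fun t => ?_⟩
  rw [Polynomial.eval_mul, ← hR, ← hS]
  ring

lemma M4_sum {ι : Type} (s : Finset ι) (φ : ι → Fˣ → F) (h : ∀ i ∈ s, M4_Lau (φ i)) :
    M4_Lau (fun t => ∑ i ∈ s, φ i t) := by
  classical
  induction s using Finset.induction_on with
  | empty => simpa using M4_const (0 : F)
  | insert a s ha ih =>
    simp only [Finset.sum_insert ha]
    exact M4_add (h a (Finset.mem_insert_self a s))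
      (ih fun i hi => h i (Finset.mem_insert_of_mem hi))

lemma M4_zpow (k : ℤ) : M4_Lau (fun t : Fˣ => ((t ^ k : Fˣ) : F)) := by
  rcases le_total 0 k with hk | hk
  · obtain ⟨m, rfl⟩ := Int.eq_ofNat_of_zero_le hk
    refine ⟨0, Polynomial.X ^ m, fun t => ?_⟩
    simp
  · obtain ⟨m, hm⟩ := Int.eq_ofNat_of_zero_le (neg_nonneg.2 hk)
    refine ⟨m, 1, fun t => ?_⟩
    have h1 : k = -(m : ℤ) := by omega
    show (t : F) ^ m * ((t ^ k : Fˣ) : F) = _
    rw [h1, _root_.zpow_neg, zpow_natCast, ← Units.val_pow_eq_pow_val, Units.mul_inv]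
    simp

lemma M4_finite {φ : Fˣ → F} (h : M4_Lau φ) (t₀ : Fˣ) (h0 : φ t₀ ≠ 0) :
    {t : Fˣ | φ t = 0}.Finite := by
  obtain ⟨M, R, hR⟩ := h
  have hR0 : R ≠ 0 := by
    rintro rfl
    have := hR t₀
    rw [Polynomial.eval_zero, mul_eq_zero] at this
    rcases this with h1 | h1
    · exact pow_ne_zero M t₀.ne_zero h1
    · exact h0 h1
  have h1 : {x : F | R.eval x = 0}.Finite := by
    have := Polynomial.finite_setOfPred_isRoot hR0
    exact this
  have h2 : (Units.val '' {t : Fˣ | φ t = 0}).Finite := by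
    apply h1.subset
    rintro _ ⟨t, ht, rfl⟩
    have := hR t
    rw [ht, mul_zero] at this
    exact this.symm
  exact h2.of_finite_image (fun a _ b _ hab => Units.ext hab)

lemma M4_units [Infinite F] : Infinite Fˣ := by
  by_contra hcon
  rw [not_infinite_iff_finite] at hcon
  have h1 : (Set.univ : Set F) = insert 0 (Set.range (Units.val : Fˣ → F)) := by
    ext x
    simp only [Set.mem_univ, Set.mem_insert_iff, Set.mem_range, true_iff]
    by_cases hx : x = 0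
    · exact Or.inl hx
    · exact Or.inr ⟨Units.mk0 x hx, rfl⟩
  have h2 : (Set.univ : Set F).Finite := by
    rw [h1]
    exact (Set.finite_range _).insert 0
  exact Set.infinite_univ h2

lemma M4_two [Infinite F] {φ ψ : Fˣ → F} (h : M4_Lau φ) (h' : M4_Lau ψ) (t₀ t₁ : Fˣ)
    (h0 : φ t₀ ≠ 0) (h1 : ψ t₁ ≠ 0) : ∃ t, φ t ≠ 0 ∧ ψ t ≠ 0 := by
  have hU : Infinite Fˣ := M4_units
  have hfin := (M4_finite h t₀ h0).union (M4_finite h' t₁ h1)
  obtain ⟨t, ht⟩ := hfin.exists_notMem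
  refine ⟨t, fun e => ht (Or.inl e), fun e => ht (Or.inr e)⟩

/-- matrices of Laurent polynomial functions -/
def M4_LM (A : Fˣ → Matrix Ω Ω F) : Prop := ∀ i j, M4_Lau (fun t => A t i j)

lemma M4_LM_mul {A B : Fˣ → Matrix Ω Ω F} (h : M4_LM A) (h' : M4_LM B) :
    M4_LM (fun t => A t * B t) := by
  intro i j
  simp only [Matrix.mul_apply]
  exact M4_sum _ _ fun k _ => M4_mul (h i k) (h' k j)

lemma M4_LM_const (A : Matrix Ω Ω F) : M4_LM (fun _ => A) := fun i j => M4_const (A i j)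

/-- invertible matrices of Laurent polynomial functions -/
def M4_UL (A : Fˣ → (Matrix Ω Ω F)ˣ) : Prop :=
  M4_LM (fun t => (A t : Matrix Ω Ω F)) ∧ M4_LM (fun t => ((A t)⁻¹ : (Matrix Ω Ω F)ˣ).val)

lemma M4_UL_mul {A B : Fˣ → (Matrix Ω Ω F)ˣ} (h : M4_UL A) (h' : M4_UL B) :
    M4_UL (fun t => A t * B t) := by
  constructor
  · simp only [Units.val_mul]
    exact M4_LM_mul h.1 h'.1
  · simp only [_root_.mul_inv_rev, Units.val_mul]
    exact M4_LM_mul h'.2 h.2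

lemma M4_UL_const (A : (Matrix Ω Ω F)ˣ) : M4_UL (fun _ => A) := ⟨M4_LM_const _, M4_LM_const _⟩

lemma M4_UL_dU (n : Ω → ℤ) : M4_UL (fun t : Fˣ => (dU (fun ω => t ^ n ω) : (Matrix Ω Ω F)ˣ)) := by
  constructor
  · intro i j
    simp only [dU_val, Matrix.diagonal_apply]
    by_cases hij : i = j
    · simp only [hij, if_true]
      exact M4_zpow (n j)
    · simp only [hij, if_false]
      exact M4_const 0
  · intro i j
    have : ∀ t : Fˣ, (((dU (fun ω => t ^ n ω) : (Matrix Ω Ω F)ˣ))⁻¹ : (Matrix Ω Ω F)ˣ).val =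
        diagonal fun i => (((t ^ n i)⁻¹ : Fˣ) : F) := fun t => rfl
    simp only [this, Matrix.diagonal_apply]
    by_cases hij : i = j
    · simp only [hij, if_true, ← _root_.zpow_neg]
      exact M4_zpow (-n j)
    · simp only [hij, if_false]
      exact M4_const 0

lemma M4_eval {σ : Type} (A : σ → Fˣ → F) (hA : ∀ s, M4_Lau (A s)) (P : MvPolynomial σ F) :
    M4_Lau (fun t => MvPolynomial.eval (fun s => A s t) P) := by
  induction P using MvPolynomial.induction_on with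
  | C a =>
    simp only [MvPolynomial.eval_C]
    exact M4_const a
  | add p q hp hq =>
    simp only [map_add]
    exact M4_add hp hq
  | mul_X p s hp =>
    simp only [map_mul, MvPolynomial.eval_X]
    exact M4_mul hp (hA s)

lemma M4_evU {A : Fˣ → (Matrix Ω Ω F)ˣ} (h : M4_UL A)
    (P : MvPolynomial ((Ω × Ω) ⊕ (Ω × Ω)) F) : M4_Lau (fun t => evU (A t) P) := by
  have h1 := M4_eval (F := F) (σ := (Ω × Ω) ⊕ (Ω × Ω))
    (fun s t => Sum.elim (fun ij => (A t : Matrix Ω Ω F) ij.1 ij.2)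
      (fun ij => ((A t)⁻¹ : (Matrix Ω Ω F)ˣ).val ij.1 ij.2) s) (by
      rintro (ij | ij)
      · exact h.1 ij.1 ij.2
      · exact h.2 ij.1 ij.2) P
  exact h1

lemma M4_step [Infinite F] {I : Type} (g : I → (Matrix Ω Ω F)ˣ) (n : I → Ω → ℤ)
    (w : (Matrix Ω Ω F)ˣ) (hw : w ∈ HC g n) : ∀ x ∈ HC g n,
    ∀ P Q : MvPolynomial ((Ω × Ω) ⊕ (Ω × Ω)) F, evU x P ≠ 0 → evU (x * w) Q ≠ 0 →
    ∃ z ∈ HC g n, evU z P ≠ 0 ∧ evU z Q ≠ 0 := by
  have hgen : ∀ (i : I) (t : Fˣ) (y : (Matrix Ω Ω F)ˣ),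
      (∀ x ∈ HC g n, ∀ P Q : MvPolynomial ((Ω × Ω) ⊕ (Ω × Ω)) F, evU x P ≠ 0 →
        evU (x * y) Q ≠ 0 → ∃ z ∈ HC g n, evU z P ≠ 0 ∧ evU z Q ≠ 0) →
      (∀ x ∈ HC g n, ∀ P Q : MvPolynomial ((Ω × Ω) ⊕ (Ω × Ω)) F, evU x P ≠ 0 →
        evU (x * ((g i * dU (fun ω => t ^ n i ω) * (g i)⁻¹) * y)) Q ≠ 0 →
        ∃ z ∈ HC g n, evU z P ≠ 0 ∧ evU z Q ≠ 0) := by
    intro i t y ih x hx P Q hP hQ
    have hUL : M4_UL (fun r : Fˣ => x * (g i * dU (fun ω => r ^ n i ω) * (g i)⁻¹)) :=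
      M4_UL_mul (M4_UL_const x)
        (M4_UL_mul (M4_UL_mul (M4_UL_const (g i)) (M4_UL_dU (n i))) (M4_UL_const (g i)⁻¹))
    have hUL' : M4_UL (fun r : Fˣ => x * (g i * dU (fun ω => r ^ n i ω) * (g i)⁻¹) * y) :=
      M4_UL_mul hUL (M4_UL_const y)
    have hone : x * (g i * dU (fun ω => (1 : Fˣ) ^ n i ω) * (g i)⁻¹) = x := by
      have : (dU (fun ω => (1 : Fˣ) ^ n i ω) : (Matrix Ω Ω F)ˣ) = 1 := by
        apply Units.ext
        rw [dU_val]
        simp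
      rw [this]
      simp
    obtain ⟨r, hr1, hr2⟩ := M4_two (M4_evU hUL P) (M4_evU hUL' Q) 1 t
      (by rw [hone]; exact hP) (by rw [mul_assoc]; exact hQ)
    exact ih _ (mul_mem hx (Subgroup.subset_closure ⟨i, r, rfl⟩)) P Q hr1 hr2
  induction hw using Subgroup.closure_induction_left with
  | one =>
    intro x hx P Q hP hQ
    rw [mul_one] at hQ
    exact ⟨x, hx, hP, hQ⟩
  | mul_left z hz y _ ih =>
    obtain ⟨i, t, rfl⟩ := hz
    exact hgen i t y ih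
  | inv_mul_cancel z hz y _ ih =>
    obtain ⟨i, t, rfl⟩ := hz
    have hinv : (g i * dU (fun ω => t ^ n i ω) * (g i)⁻¹)⁻¹ =
        g i * dU (fun ω => (t⁻¹) ^ n i ω) * (g i)⁻¹ := by
      have h1 : (dU (fun ω => t ^ n i ω) : (Matrix Ω Ω F)ˣ)⁻¹ = dU (fun ω => (t⁻¹) ^ n i ω) := by
        apply Units.ext
        rw [dU_val]
        show (diagonal fun j => (((t ^ n i j)⁻¹ : Fˣ) : F)) = _
        simp only [_root_.inv_zpow]
      rw [_root_.mul_inv_rev, _root_.mul_inv_rev, inv_inv, h1, mul_assoc]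
    rw [hinv]
    exact hgen i t⁻¹ y ih

theorem generic [Infinite F] {I J : Type} [Finite J] (g : I → (Matrix Ω Ω F)ˣ) (n : I → Ω → ℤ)
    (P : J → MvPolynomial ((Ω × Ω) ⊕ (Ω × Ω)) F) (hP : ∀ j, ∃ x ∈ HC g n, evU x (P j) ≠ 0) :
    ∃ x ∈ HC g n, ∀ j, evU x (P j) ≠ 0 := by
  classical
  have hJ := Fintype.ofFinite J
  have key : ∀ s : Finset J, ∃ x ∈ HC g n, ∀ j ∈ s, evU x (P j) ≠ 0 := by
    intro s
    induction s using Finset.induction_on with
    | empty => exact ⟨1, one_mem _, by simp⟩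
    | insert a s _ ih =>
      obtain ⟨x, hx, hxs⟩ := ih
      obtain ⟨y, hy, hya⟩ := hP a
      have h1 : evU x (∏ j ∈ s, P j) ≠ 0 := by
        rw [evU, map_prod, Finset.prod_ne_zero_iff]
        exact hxs
      obtain ⟨z, hz, hz1, hz2⟩ := M4_step g n (x⁻¹ * y) (mul_mem (inv_mem hx) hy) x hx
        (∏ j ∈ s, P j) (P a) h1 (by rw [mul_inv_cancel_left]; exact hya)
      refine ⟨z, hz, fun j hj => ?_⟩
      rw [evU, map_prod, Finset.prod_ne_zero_iff] at hz1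
      rw [Finset.mem_insert] at hj
      rcases hj with rfl | hj
      · exact hz2
      · exact hz1 j hj
  obtain ⟨x, hx, h⟩ := key Finset.univ
  exact ⟨x, hx, fun j => h j (Finset.mem_univ j)⟩

end Pool.Agent.CTO
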