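import Pool.Agent.CTO.M1

/-!
# M5: the Lie algebra `LieM D H`

* `HC_sub`: if all the generators `g i * dU (t ^ n i ω) * (g i)⁻¹` of `HC g n` lie in `ZD D H`, then all
  elements of `HC g n` do. (Closure induction with `ZD_mul`, `ZD_inv`, `ZD_of_mem` for `1`.)
* `LieM_conj`: `TanM` is stable under conjugation by `x`: replace `Y` by `x Y x⁻¹` (with `x` mapped to
  constant polynomials `Polynomial.C`), and keep `Q`, `S`; use `ZD_mul` and `ZD_inv`; then
  span induction.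
* `LieM_torus`: the curve `t ↦ a * diag((1 + t) ^ n ω) * a⁻¹`. Let `M` be a natural number `≥ |n ω|` for
  all `ω`, `Q = (1 + X) ^ M`, `Y = C(a) * diag((1 + X) ^ (M + n ω)) * C(a⁻¹)`, `S = {-1}`; the derivative
  of `(1 + X) ^ k` at `0` is `k`, so the derivative of the curve is
  `a * diag(M + n ω) * a⁻¹ - M • 1 = a * diag(n ω) * a⁻¹`.
-/

namespace Pool.Agent.CTO

open Matrix

variable {F Ω : Type} [Field F] [Fintype Ω] [DecidableEq Ω]

theorem HC_sub (D : ℕ) (H : Subgroup (Matrix Ω Ω F)ˣ) {I : Type} (g : I → (Matrix Ω Ω F)ˣ)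
    (n : I → Ω → ℤ)
    (h : ∀ (i : I) (t : Fˣ),
      ((g i * dU (fun ω => t ^ n i ω) * (g i)⁻¹ : (Matrix Ω Ω F)ˣ) : Matrix Ω Ω F) ∈ ZD D H) :
    ∀ x ∈ HC g n, (x : Matrix Ω Ω F) ∈ ZD D H := by
  intro x hx
  unfold HC at hx
  induction hx using Subgroup.closure_induction with
  | mem y hy =>
    obtain ⟨i, t, rfl⟩ := hy
    exact h i t
  | one => exact ZD_of_mem D H (one_mem H)
  | mul y z _ _ hy hz =>
    rw [Units.val_mul]
    exact ZD_mul D H hy hz
  | inv y _ hy => exact ZD_inv D H y hy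

theorem M5_eval (Y : Matrix Ω Ω (Polynomial F)) (x y : Matrix Ω Ω F) (t : F) :
    (x.map Polynomial.C * Y * y.map Polynomial.C).map (Polynomial.eval t) =
      x * Y.map (Polynomial.eval t) * y := by
  have e : ∀ Z : Matrix Ω Ω (Polynomial F),
      Z.map (Polynomial.eval t) = Z.map (Polynomial.evalRingHom t) := fun Z => rfl
  have e2 : ∀ z : Matrix Ω Ω F, (z.map Polynomial.C).map (Polynomial.evalRingHom t) = z := by
    intro z
    ext i j
    simp
  rw [e, e, Matrix.map_mul, Matrix.map_mul, e2, e2]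

theorem M5_coeff (Y : Matrix Ω Ω (Polynomial F)) (x y : Matrix Ω Ω F) (k : ℕ) :
    (x.map Polynomial.C * Y * y.map Polynomial.C).map (fun p => p.coeff k) =
      x * Y.map (fun p => p.coeff k) * y := by
  ext i j
  simp only [Matrix.map_apply, Matrix.mul_apply, Polynomial.finsetSum_coeff,
    Polynomial.coeff_mul_C, Polynomial.coeff_C_mul]

theorem M5_tan (D : ℕ) (H : Subgroup (Matrix Ω Ω F)ˣ) (x : (Matrix Ω Ω F)ˣ)
    (hx : (x : Matrix Ω Ω F) ∈ ZD D H) {X : Matrix Ω Ω F} (hX : X ∈ TanM D H) :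
    (x : Matrix Ω Ω F) * X * ((x⁻¹ : (Matrix Ω Ω F)ˣ) : Matrix Ω Ω F) ∈ TanM D H := by
  obtain ⟨Y, Q, S, hS, h0, hQ, hZ, rfl⟩ := hX
  refine ⟨(x : Matrix Ω Ω F).map Polynomial.C * Y *
    ((x⁻¹ : (Matrix Ω Ω F)ˣ) : Matrix Ω Ω F).map Polynomial.C, Q, S, hS, ?_, hQ, ?_, ?_⟩
  · rw [M5_eval, h0, mul_one, Units.mul_inv]
  · intro t ht hQt
    have h1 := hZ t ht hQt
    rw [M5_eval]
    have h2 : (Q.eval t)⁻¹ • ((x : Matrix Ω Ω F) * Y.map (Polynomial.eval t) *
        ((x⁻¹ : (Matrix Ω Ω F)ˣ) : Matrix Ω Ω F)) =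
        (x : Matrix Ω Ω F) * ((Q.eval t)⁻¹ • Y.map (Polynomial.eval t)) *
        ((x⁻¹ : (Matrix Ω Ω F)ˣ) : Matrix Ω Ω F) := by
      rw [Matrix.mul_smul, Matrix.smul_mul]
    rw [h2]
    exact ZD_mul D H (ZD_mul D H hx h1) (ZD_inv D H x hx)
  · rw [M5_coeff, mul_sub, sub_mul, Matrix.mul_smul, Matrix.smul_mul, mul_one, Units.mul_inv]

theorem LieM_conj (D : ℕ) (H : Subgroup (Matrix Ω Ω F)ˣ) (x : (Matrix Ω Ω F)ˣ)
    (hx : (x : Matrix Ω Ω F) ∈ ZD D H) {X : Matrix Ω Ω F} (hX : X ∈ LieM D H) :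
    (x : Matrix Ω Ω F) * X * ((x⁻¹ : (Matrix Ω Ω F)ˣ) : Matrix Ω Ω F) ∈ LieM D H := by
  unfold LieM at hX ⊢
  induction hX using Submodule.span_induction with
  | mem y hy => exact Submodule.subset_span (M5_tan D H x hx hy)
  | zero =>
    rw [mul_zero, zero_mul]
    exact zero_mem _
  | add y z _ _ hy hz =>
    rw [mul_add, add_mul]
    exact add_mem hy hz
  | smul c y _ hy =>
    rw [Matrix.mul_smul, Matrix.smul_mul]
    exact Submodule.smul_mem _ c hy

theorem M5_coeff1 (k : ℕ) : ((1 + Polynomial.X : Polynomial F) ^ k).coeff 1 = k := by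
  rw [add_comm, Polynomial.coeff_X_add_one_pow]
  simp

theorem LieM_torus (D : ℕ) (H : Subgroup (Matrix Ω Ω F)ˣ) (a : (Matrix Ω Ω F)ˣ) (n : Ω → ℤ)
    (h : ∀ t : Fˣ,
      ((a * dU (fun ω => t ^ n ω) * a⁻¹ : (Matrix Ω Ω F)ˣ) : Matrix Ω Ω F) ∈ ZD D H) :
    (a : Matrix Ω Ω F) * diagonal (fun ω => (n ω : F)) * ((a⁻¹ : (Matrix Ω Ω F)ˣ) : Matrix Ω Ω F)
      ∈ LieM D H := by
  apply Submodule.subset_span
  obtain ⟨M, hM⟩ : ∃ M : ℕ, ∀ ω, 0 ≤ (M : ℤ) + n ω := by
    refine ⟨∑ ω, (n ω).natAbs, fun ω => ?_⟩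
    have h1 : (n ω).natAbs ≤ ∑ ω, (n ω).natAbs :=
      Finset.single_le_sum (f := fun ω => (n ω).natAbs) (fun _ _ => Nat.zero_le _)
        (Finset.mem_univ ω)
    omega
  choose m hm using fun ω => Int.eq_ofNat_of_zero_le (hM ω)
  refine ⟨(a : Matrix Ω Ω F).map Polynomial.C *
    diagonal (fun ω => (1 + Polynomial.X : Polynomial F) ^ m ω) *
    ((a⁻¹ : (Matrix Ω Ω F)ˣ) : Matrix Ω Ω F).map Polynomial.C,
    (1 + Polynomial.X) ^ M, {-1}, Set.finite_singleton _, ?_, ?_, ?_, ?_⟩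
  · rw [M5_eval, diagonal_map Polynomial.eval_zero]
    simp
  · simp
  · intro t ht hQt
    have ht1 : 1 + t ≠ 0 := by
      intro h0
      apply ht
      rw [Set.mem_singleton_iff]
      linear_combination h0
    rw [M5_eval, diagonal_map Polynomial.eval_zero]
    have h1 := h (Units.mk0 (1 + t) ht1)
    rw [Units.val_mul, Units.val_mul, dU_val] at h1
    have h2 : ((((1 + Polynomial.X : Polynomial F) ^ M).eval t)⁻¹ •
        ((a : Matrix Ω Ω F) * diagonal (fun ω =>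
          ((1 + Polynomial.X : Polynomial F) ^ m ω).eval t) *
        ((a⁻¹ : (Matrix Ω Ω F)ˣ) : Matrix Ω Ω F))) =
        (a : Matrix Ω Ω F) * diagonal (fun ω =>
          (((Units.mk0 (1 + t) ht1) ^ n ω : Fˣ) : F)) *
        ((a⁻¹ : (Matrix Ω Ω F)ˣ) : Matrix Ω Ω F) := by
      rw [← Matrix.smul_mul, ← Matrix.mul_smul]
      congr 2
      rw [← diagonal_smul]
      congr 1
      funext ω
      simp only [Pi.smul_apply, smul_eq_mul, Polynomial.eval_pow, Polynomial.eval_add,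
        Polynomial.eval_one, Polynomial.eval_X, Units.val_zpow_eq_zpow_val, Units.val_mk0]
      have h3 : (1 + t) ^ m ω = (1 + t) ^ M * (1 + t) ^ n ω := by
        rw [← zpow_natCast, ← zpow_natCast, ← zpow_add₀ ht1, hm ω]
      rw [h3, ← mul_assoc, inv_mul_cancel₀ (pow_ne_zero _ ht1), one_mul]
    rw [h2]
    exact h1
  · rw [M5_coeff, M5_coeff1]
    have h4 : (diagonal (fun ω => (1 + Polynomial.X : Polynomial F) ^ m ω)).map
        (fun p => p.coeff 1) = diagonal (fun ω => ((m ω : ℕ) : F)) := by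
      rw [diagonal_map (by simp)]
      congr 1
      funext ω
      exact M5_coeff1 (m ω)
    rw [h4]
    have h5 : (diagonal (fun ω => ((m ω : ℕ) : F)) : Matrix Ω Ω F) =
        (M : F) • (1 : Matrix Ω Ω F) + diagonal (fun ω => (n ω : F)) := by
      rw [smul_one_eq_diagonal, diagonal_add]
      congr 1
      funext ω
      have := congrArg (fun z : ℤ => (z : F)) (hm ω)
      simp only [Int.cast_add, Int.cast_natCast] at this
      rw [← this]
    rw [h5, mul_add, add_mul, Matrix.mul_smul, Matrix.smul_mul, mul_one, Units.mul_inv]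
    abel

end Pool.Agent.CTO
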