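import Pool.Agent.CTO.M1

/-!
# M6: counting points with products of curves

If `d ≤ dim LieM D H` then `(D / d + 1) ^ d ≤ |H|`.
Proof. Choose linearly independent `X_1, ..., X_d ∈ TanM D H` (a basis of the span chosen in `TanM`),
with curves `Y_k / Q_k` and finite sets `S_k`, and linear functionals `ℓ_k` on matrices with
`ℓ_k (X_j) = δ_kj`. Put `m = D / d`. For `α : Fin d → Fin (m + 1)` let
`p_α = ∏ k, (ℓ_k - C (ℓ_k 1)) ^ α_k`, a polynomial in the entries, of degree `≤ m d ≤ D`. Claim: the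
restrictions of the `p_α` to `H` are linearly independent in `H → F`; hence
`(m + 1) ^ d ≤ dim (H → F) = |H|`.
Let `∑ c_α p_α` vanish on `H`, not all `c_α` zero; it vanishes on `ZD D H`. Let `m0` be the least value
of `|α| = ∑ α_k` with `c_α ≠ 0`. As `F` is infinite there is `τ : Fin d → F` with
`∑_{|α| = m0} c_α ∏ τ_k ^ α_k ≠ 0`. Consider the curve
`ψ(s) = ∏_k Y_k(s τ_k) / ∏_k Q_k(s τ_k)` (ordered product over `Fin d`, e.g. `List.ofFn`), which lies in
`ZD D H` (by `ZD_mul`) for all `s` outside a finite set (if `τ_k = 0` the `k`-th factor is `1`; if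
`τ_k ≠ 0` exclude `s` with `s τ_k ∈ S_k` or `Q_k(s τ_k) = 0`).
Put `N_k(s) = ℓ_k (∏ Y_j(s τ_j)) - ℓ_k 1 * ∏ Q_j(s τ_j)`, a polynomial in `s`; it is
`s τ_k + s² (...)`, because modulo `s²` one has `∏ Y_j(s τ_j) = 1 + s ∑ τ_j Y_j'` and
`∏ Q_j(s τ_j) = 1 + s ∑ τ_j Q_j'`, where `X_j = Y_j' - Q_j' 1`. Multiplying `∑ c_α p_α (ψ(s)) = 0` by
`(∏ Q_j(s τ_j)) ^ (m d)` gives `∑ c_α (∏ N_k(s) ^ α_k) (∏ Q_j(s τ_j)) ^ (m d - |α|) = 0` for all but
finitely many `s`, hence as polynomials in `s`; the coefficient of `s ^ m0` is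
`∑_{|α| = m0} c_α ∏ τ_k ^ α_k ≠ 0`, a contradiction.
-/

namespace Pool.Agent.CTO

open Matrix

variable {F Ω : Type} [Field F] [Fintype Ω] [DecidableEq Ω]

theorem M6_map_mul (t : F) (Y Y' : Matrix Ω Ω (Polynomial F)) :
    (Y * Y').map (Polynomial.eval t) = Y.map (Polynomial.eval t) * Y'.map (Polynomial.eval t) :=
  Matrix.map_mul (f := Polynomial.evalRingHom t)

theorem M6_map_one (t : F) :
    (1 : Matrix Ω Ω (Polynomial F)).map (Polynomial.eval t) = 1 :=
  Matrix.map_one _ Polynomial.eval_zero Polynomial.eval_one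

theorem M6_zero (D : ℕ) (H : Subgroup (Matrix Ω Ω F)ˣ) : (0 : Matrix Ω Ω F) ∈ TanM D H := by
  refine ⟨1, 1, ∅, Set.finite_empty, M6_map_one 0, Polynomial.eval_one, fun t _ _ => ?_, ?_⟩
  · have h1 := ZD_of_mem D H (one_mem H)
    rw [Units.val_one] at h1
    rw [M6_map_one, Polynomial.eval_one, inv_one, one_smul]
    exact h1
  · ext i j
    by_cases hij : i = j
    · subst hij
      simp [Polynomial.coeff_one]
    · simp [Matrix.one_apply_ne hij]

theorem M6_add (D : ℕ) (H : Subgroup (Matrix Ω Ω F)ˣ) {X X' : Matrix Ω Ω F}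
    (hX : X ∈ TanM D H) (hX' : X' ∈ TanM D H) : X + X' ∈ TanM D H := by
  obtain ⟨Y, Q, S, hS, hY0, hQ0, hZ, rfl⟩ := hX
  obtain ⟨Y', Q', S', hS', hY0', hQ0', hZ', rfl⟩ := hX'
  refine ⟨Y * Y', Q * Q', S ∪ S', hS.union hS', ?_, ?_, ?_, ?_⟩
  · rw [M6_map_mul, hY0, hY0', one_mul]
  · rw [Polynomial.eval_mul, hQ0, hQ0', one_mul]
  · intro t ht hQt
    rw [Polynomial.eval_mul] at hQt ⊢
    have h1 : Q.eval t ≠ 0 := left_ne_zero_of_mul hQt
    have h2 : Q'.eval t ≠ 0 := right_ne_zero_of_mul hQt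
    rw [M6_map_mul, mul_inv, ← smul_mul_smul_comm]
    exact ZD_mul D H (hZ t (fun h => ht (Or.inl h)) h1) (hZ' t (fun h => ht (Or.inr h)) h2)
  · have e0 : ∀ i j, (Y i j).coeff 0 = (1 : Matrix Ω Ω F) i j := by
      intro i j
      rw [← hY0, Matrix.map_apply, Polynomial.coeff_zero_eq_eval_zero]
    have e0' : ∀ i j, (Y' i j).coeff 0 = (1 : Matrix Ω Ω F) i j := by
      intro i j
      rw [← hY0', Matrix.map_apply, Polynomial.coeff_zero_eq_eval_zero]
    have hq : (Q * Q').coeff 1 = Q.coeff 1 + Q'.coeff 1 := by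
      rw [Polynomial.mul_coeff_one, Polynomial.coeff_zero_eq_eval_zero,
        Polynomial.coeff_zero_eq_eval_zero, hQ0, hQ0']
      ring
    have hy : (Y * Y').map (fun p => p.coeff 1) =
        Y.map (fun p => p.coeff 1) + Y'.map (fun p => p.coeff 1) := by
      ext i j
      rw [Matrix.map_apply, Matrix.mul_apply, Polynomial.finsetSum_coeff]
      simp only [Polynomial.mul_coeff_one, e0, e0', Finset.sum_add_distrib]
      have g1 : ∑ l, (1 : Matrix Ω Ω F) i l * (Y' l j).coeff 1 = (Y' i j).coeff 1 := by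
        have := congrFun (congrFun (Matrix.one_mul (Y'.map fun p => p.coeff 1)) i) j
        rw [Matrix.mul_apply] at this
        exact this
      have g2 : ∑ l, (Y i l).coeff 1 * (1 : Matrix Ω Ω F) l j = (Y i j).coeff 1 := by
        have := congrFun (congrFun (Matrix.mul_one (Y.map fun p => p.coeff 1)) i) j
        rw [Matrix.mul_apply] at this
        exact this
      rw [g1, g2, Matrix.add_apply, Matrix.map_apply, Matrix.map_apply, add_comm]
    rw [hy, hq, add_smul]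
    abel

theorem M6_smul (D : ℕ) (H : Subgroup (Matrix Ω Ω F)ˣ) (c : F) {X : Matrix Ω Ω F}
    (hX : X ∈ TanM D H) : c • X ∈ TanM D H := by
  by_cases hc : c = 0
  · rw [hc, zero_smul]; exact M6_zero D H
  obtain ⟨Y, Q, S, hS, hY0, hQ0, hZ, rfl⟩ := hX
  have hev : ∀ t, (Y.map fun p => p.comp (Polynomial.C c * Polynomial.X)).map
      (Polynomial.eval t) = Y.map (Polynomial.eval (c * t)) := by
    intro t
    ext i j
    simp [Polynomial.eval_comp]
  have hco : ∀ p : Polynomial F, (p.comp (Polynomial.C c * Polynomial.X)).coeff 1 =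
      c * p.coeff 1 := by
    intro p
    rw [Polynomial.comp_C_mul_X_coeff, pow_one, mul_comm]
  refine ⟨Y.map fun p => p.comp (Polynomial.C c * Polynomial.X),
    Q.comp (Polynomial.C c * Polynomial.X), (fun t => c * t) ⁻¹' S, ?_, ?_, ?_, ?_, ?_⟩
  · exact hS.preimage (mul_right_injective₀ hc).injOn
  · rw [hev, mul_zero, hY0]
  · rw [Polynomial.eval_comp]; simp [hQ0]
  · intro t ht hQt
    rw [Polynomial.eval_comp] at hQt ⊢
    simp only [Polynomial.eval_mul, Polynomial.eval_C, Polynomial.eval_X] at hQt ⊢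
    rw [hev]
    exact hZ (c * t) ht hQt
  · ext i j
    simp only [Matrix.smul_apply, Matrix.sub_apply, Matrix.map_apply, smul_eq_mul, hco]
    ring

theorem M6_Lie (D : ℕ) (H : Subgroup (Matrix Ω Ω F)ˣ) {X : Matrix Ω Ω F}
    (hX : X ∈ LieM D H) : X ∈ TanM D H := by
  induction hX using Submodule.span_induction with
  | mem x hx => exact hx
  | zero => exact M6_zero D H
  | add x y _ _ hx hy => exact M6_add D H hx hy
  | smul a x _ hx => exact M6_smul D H a hx

/-- a linear functional as a polynomial -/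
noncomputable def M6_P (f : Matrix Ω Ω F →ₗ[F] F) : MvPolynomial (Ω × Ω) F :=
  ∑ ij : Ω × Ω, MvPolynomial.C (f (Matrix.single ij.1 ij.2 1)) * MvPolynomial.X ij

theorem M6_fun (f : Matrix Ω Ω F →ₗ[F] F) (x : Matrix Ω Ω F) :
    f x = ∑ ij : Ω × Ω, f (Matrix.single ij.1 ij.2 1) * x ij.1 ij.2 := by
  conv_lhs => rw [Matrix.matrix_eq_sum_single x]
  rw [map_sum, Fintype.sum_prod_type]
  refine Finset.sum_congr rfl fun i _ => ?_
  rw [map_sum]
  refine Finset.sum_congr rfl fun j _ => ?_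
  have : Matrix.single i j (x i j) = x i j • Matrix.single i j (1 : F) := by
    rw [Matrix.smul_single, smul_eq_mul, mul_one]
  rw [this, map_smul, smul_eq_mul, mul_comm]

theorem M6_P_ev (f : Matrix Ω Ω F →ₗ[F] F) (x : Matrix Ω Ω F) : ev x (M6_P f) = f x := by
  rw [M6_fun f x]
  simp [ev, M6_P]

theorem M6_P_deg (f : Matrix Ω Ω F →ₗ[F] F) (c : F) :
    (M6_P f - MvPolynomial.C c).totalDegree ≤ 1 := by
  refine (MvPolynomial.totalDegree_sub _ _).trans (max_le ?_ ?_)
  · refine MvPolynomial.totalDegree_finsetSum_le fun ij _ => ?_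
    refine (MvPolynomial.totalDegree_mul _ _).trans ?_
    rw [MvPolynomial.totalDegree_C, zero_add]
    exact (MvPolynomial.totalDegree_X _).le
  · rw [MvPolynomial.totalDegree_C]; exact Nat.zero_le 1

/-- the polynomial functions `∏ (ℓ_k - ℓ_k 1) ^ α_k` -/
noncomputable def M6_p {d m : ℕ} (g : Matrix Ω Ω F →ₗ[F] (Fin d → F))
    (α : Fin d → Fin (m + 1)) : MvPolynomial (Ω × Ω) F :=
  ∏ k, (M6_P ((LinearMap.proj k).comp g) - MvPolynomial.C (g 1 k)) ^ (α k : ℕ)

theorem M6_p_ev {d m : ℕ} (g : Matrix Ω Ω F →ₗ[F] (Fin d → F)) (α : Fin d → Fin (m + 1))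
    (x : Matrix Ω Ω F) : ev x (M6_p g α) = ∏ k, (g x k - g 1 k) ^ (α k : ℕ) := by
  unfold M6_p
  have h := fun k => M6_P_ev ((LinearMap.proj k).comp g) x
  unfold ev at h ⊢
  rw [map_prod]
  refine Finset.prod_congr rfl fun k _ => ?_
  rw [map_pow, map_sub, h k, MvPolynomial.eval_C]
  rfl

theorem M6_p_deg {d m : ℕ} (g : Matrix Ω Ω F →ₗ[F] (Fin d → F)) (α : Fin d → Fin (m + 1)) :
    (M6_p g α).totalDegree ≤ m * d := by
  unfold M6_p
  refine (MvPolynomial.totalDegree_finsetProd _ _).trans ?_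
  calc ∑ k, ((M6_P ((LinearMap.proj k).comp g) - MvPolynomial.C (g 1 k)) ^
        (α k : ℕ)).totalDegree ≤ ∑ k : Fin d, m := by
        refine Finset.sum_le_sum fun k _ => ?_
        refine (MvPolynomial.totalDegree_pow _ _).trans ?_
        calc (α k : ℕ) * _ ≤ (α k : ℕ) * 1 := Nat.mul_le_mul_left _ (M6_P_deg _ _)
          _ ≤ m := by have := (α k).2; omega
    _ = m * d := by rw [Finset.sum_const, Finset.card_univ, Fintype.card_fin, smul_eq_mul,
        mul_comm]

/-- a nonzero homogeneous part does not vanish somewhere -/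
theorem M6_tau [Infinite F] {d m : ℕ} (c : (Fin d → Fin (m + 1)) → F) (m0 : ℕ)
    (α0 : Fin d → Fin (m + 1)) (h0 : c α0 ≠ 0) (h1 : ∑ k, (α0 k : ℕ) = m0) :
    ∃ τ : Fin d → F, (∑ α : Fin d → Fin (m + 1), if ∑ k, (α k : ℕ) = m0 then
      c α * ∏ k, τ k ^ (α k : ℕ) else 0) ≠ 0 := by
  classical
  obtain ⟨e, he⟩ : ∃ e : (Fin d → Fin (m + 1)) → (Fin d →₀ ℕ),
      e = fun α => Finsupp.equivFunOnFinite.symm (fun k => (α k : ℕ)) := ⟨_, rfl⟩
  have hinj : Function.Injective e := by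
    intro α β hαβ
    rw [he] at hαβ
    have h2 := Finsupp.equivFunOnFinite.symm.injective hαβ
    funext k
    exact Fin.ext (congrFun h2 k)
  obtain ⟨q, hq⟩ : ∃ q : MvPolynomial (Fin d) F, q = ∑ α : Fin d → Fin (m + 1),
      if ∑ k, (α k : ℕ) = m0 then MvPolynomial.monomial (e α) (c α) else 0 := ⟨_, rfl⟩
  have hq0 : q ≠ 0 := by
    intro h2
    have h3 := congrArg (MvPolynomial.coeff (e α0)) h2
    rw [hq, MvPolynomial.coeff_sum, MvPolynomial.coeff_zero,
      Finset.sum_eq_single α0] at h3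
    · rw [if_pos h1, MvPolynomial.coeff_monomial, if_pos rfl] at h3
      exact h0 h3
    · intro β _ hβ
      by_cases h4 : ∑ k, (β k : ℕ) = m0
      · rw [if_pos h4, MvPolynomial.coeff_monomial, if_neg (fun h5 => hβ (hinj h5))]
      · rw [if_neg h4, MvPolynomial.coeff_zero]
    · intro h4
      exact absurd (Finset.mem_univ α0) h4
  by_contra hcon
  push Not at hcon
  apply hq0
  apply MvPolynomial.funext
  intro τ
  rw [map_zero, ← hcon τ, hq, map_sum]
  refine Finset.sum_congr rfl fun α _ => ?_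
  by_cases h4 : ∑ k, (α k : ℕ) = m0
  · rw [if_pos h4, if_pos h4, MvPolynomial.eval_monomial, he]
    congr 1
    rw [Finsupp.prod_fintype _ _ (fun i => pow_zero _)]
    rfl
  · rw [if_neg h4, if_neg h4, map_zero]

/-- the main step: no nontrivial relation between the `p_α` vanishes on `ZD D H` -/
theorem M6_indep [Infinite F] (D d m : ℕ) (H : Subgroup (Matrix Ω Ω F)ˣ)
    (g : Matrix Ω Ω F →ₗ[F] (Fin d → F)) (hg : ∀ τ : Fin d → F, ∃ X ∈ TanM D H, g X = τ)
    (c : (Fin d → Fin (m + 1)) → F)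
    (hc : ∀ x ∈ ZD D H, ∑ α, c α * ∏ k, (g x k - g 1 k) ^ (α k : ℕ) = 0) : ∀ α, c α = 0 := by
  classical
  by_contra hcon
  push Not at hcon
  obtain ⟨β, hβ⟩ := hcon
  obtain ⟨α0, hα0, hmin⟩ := Finset.exists_min_image
    (Finset.univ.filter fun α : Fin d → Fin (m + 1) => c α ≠ 0)
    (fun α => ∑ k, (α k : ℕ)) ⟨β, by simp [hβ]⟩
  rw [Finset.mem_filter] at hα0
  obtain ⟨m0, hm0⟩ : ∃ m0, m0 = ∑ k, (α0 k : ℕ) := ⟨_, rfl⟩
  obtain ⟨τ, hτ⟩ := M6_tau c m0 α0 hα0.2 hm0.symm
  obtain ⟨X, ⟨Y, Q, S, hS, hY0, hQ0, hZ, hX⟩, hgX⟩ := hg τ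
  have hwt : ∀ α : Fin d → Fin (m + 1), ∑ k, (α k : ℕ) ≤ m * d := by
    intro α
    calc ∑ k, (α k : ℕ) ≤ ∑ k : Fin d, m :=
          Finset.sum_le_sum fun k _ => by have := (α k).2; omega
      _ = m * d := by
          rw [Finset.sum_const, Finset.card_univ, Fintype.card_fin, smul_eq_mul, mul_comm]
  obtain ⟨N, hN⟩ : ∃ N : Fin d → Polynomial F, N = fun k =>
      (∑ ij : Ω × Ω, Polynomial.C (g (Matrix.single ij.1 ij.2 1) k) * Y ij.1 ij.2) -
        Polynomial.C (g 1 k) * Q := ⟨_, rfl⟩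
  have hfun : ∀ (x : Matrix Ω Ω F) (k : Fin d),
      g x k = ∑ ij : Ω × Ω, g (Matrix.single ij.1 ij.2 1) k * x ij.1 ij.2 :=
    fun x k => M6_fun ((LinearMap.proj k).comp g) x
  have hNe : ∀ s k, (N k).eval s = g (Y.map (Polynomial.eval s)) k - g 1 k * Q.eval s := by
    intro s k
    rw [hN, hfun (Y.map (Polynomial.eval s)) k]
    simp [Polynomial.eval_finsetSum]
  have hN0 : ∀ k, (N k).coeff 0 = 0 := by
    intro k
    rw [Polynomial.coeff_zero_eq_eval_zero, hNe, hY0, hQ0, mul_one, sub_self]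
  have hN1 : ∀ k, (N k).coeff 1 = τ k := by
    intro k
    have h1 : (N k).coeff 1 = g (Y.map fun p => p.coeff 1) k - g 1 k * Q.coeff 1 := by
      rw [hN, hfun (Y.map fun p => p.coeff 1) k]
      simp [Polynomial.finsetSum_coeff]
    rw [h1, ← hgX, hX, map_sub, map_smul, Pi.sub_apply, Pi.smul_apply, smul_eq_mul]
    ring
  obtain ⟨N', hN'⟩ : ∃ N' : Fin d → Polynomial F, ∀ k, N k = Polynomial.X * N' k ∧
      (N' k).coeff 0 = τ k := by
    refine ⟨fun k => (N k).divX, fun k => ⟨?_, ?_⟩⟩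
    · have h1 := Polynomial.divX_mul_X_add (N k)
      rw [hN0, Polynomial.C_0, add_zero] at h1
      rw [mul_comm]; exact h1.symm
    · rw [Polynomial.coeff_divX]; exact hN1 k
  obtain ⟨T, hT⟩ : ∃ T : (Fin d → Fin (m + 1)) → Polynomial F, T = fun α =>
      Polynomial.C (c α) * (∏ k, N k ^ (α k : ℕ)) * Q ^ (m * d - ∑ k, (α k : ℕ)) := ⟨_, rfl⟩
  have hQne : Q ≠ 0 := by
    rintro rfl
    rw [Polynomial.eval_zero] at hQ0
    exact zero_ne_one hQ0
  have hTsum : ∑ α, T α = 0 := by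
    apply Polynomial.eq_zero_of_infinite_isRoot
    have hinf : (S ∪ {s | Q.IsRoot s})ᶜ.Infinite := by
      apply Set.Finite.infinite_compl
      exact hS.union (Polynomial.finite_setOfPred_isRoot hQne)
    refine hinf.mono fun s hs => ?_
    rw [Set.mem_compl_iff, Set.mem_union, not_or] at hs
    have hQs : Q.eval s ≠ 0 := hs.2
    have hx := hc _ (hZ s hs.1 hQs)
    rw [Set.mem_ofPred_eq, Polynomial.IsRoot, Polynomial.eval_finsetSum]
    have h2 : ∀ α : Fin d → Fin (m + 1), (T α).eval s = Q.eval s ^ (m * d) *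
        (c α * ∏ k, (g ((Q.eval s)⁻¹ • Y.map (Polynomial.eval s)) k - g 1 k) ^ (α k : ℕ)) := by
      intro α
      have h3 : ∀ k, g ((Q.eval s)⁻¹ • Y.map (Polynomial.eval s)) k - g 1 k =
          (N k).eval s * (Q.eval s)⁻¹ := by
        intro k
        rw [hNe, map_smul, Pi.smul_apply, smul_eq_mul]
        field_simp
      simp only [h3, mul_pow, Finset.prod_mul_distrib]
      rw [Finset.prod_pow_eq_pow_sum, hT]
      simp only [Polynomial.eval_mul, Polynomial.eval_C, Polynomial.eval_pow,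
        Polynomial.eval_prod]
      have h4 : Q.eval s ^ (m * d) = Q.eval s ^ (m * d - ∑ k, (α k : ℕ)) *
          Q.eval s ^ (∑ k, (α k : ℕ)) := by
        rw [← pow_add, Nat.sub_add_cancel (hwt α)]
      rw [h4, inv_pow]
      have h5 : Q.eval s ^ (∑ k, (α k : ℕ)) ≠ 0 := pow_ne_zero _ hQs
      field_simp
    rw [Finset.sum_congr rfl fun α _ => h2 α, ← Finset.mul_sum, hx, mul_zero]
  have hco := congrArg (fun p => Polynomial.coeff p m0) hTsum
  simp only [Polynomial.finsetSum_coeff, Polynomial.coeff_zero] at hco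
  apply hτ
  refine Eq.trans ?_ hco
  refine Finset.sum_congr rfl fun α _ => ?_
  have hTα : T α = Polynomial.X ^ (∑ k, (α k : ℕ)) * (Polynomial.C (c α) *
      (∏ k, N' k ^ (α k : ℕ)) * Q ^ (m * d - ∑ k, (α k : ℕ))) := by
    rw [hT]
    simp only [(hN' _).1, mul_pow, Finset.prod_mul_distrib, Finset.prod_pow_eq_pow_sum]
    ring
  rw [hTα, Polynomial.coeff_X_pow_mul']
  by_cases hcα : c α = 0
  · rw [hcα]
    simp
  · have hle := hmin α (by simp [hcα])
    rw [← hm0] at hle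
    by_cases heq : ∑ k, (α k : ℕ) = m0
    · rw [if_pos heq, if_pos heq.le, heq, Nat.sub_self, Polynomial.coeff_zero_eq_eval_zero,
        Polynomial.eval_mul, Polynomial.eval_mul, Polynomial.eval_C, Polynomial.eval_pow, hQ0,
        one_pow, mul_one, Polynomial.eval_prod]
      congr 1
      refine Finset.prod_congr rfl fun k _ => ?_
      rw [Polynomial.eval_pow, ← Polynomial.coeff_zero_eq_eval_zero, (hN' k).2]
    · rw [if_neg heq, if_neg (by omega)]

theorem card_curves [Infinite F] (D d : ℕ) (hd : 0 < d) (H : Subgroup (Matrix Ω Ω F)ˣ) [Finite H]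
    (h : d ≤ Module.finrank F (LieM D H)) : (D / d + 1) ^ d ≤ Nat.card H := by
  classical
  haveI := Fintype.ofFinite H
  -- coordinates
  obtain ⟨g0, hg0⟩ : ∃ g0 : LieM D H →ₗ[F] (Fin d → F), ∀ τ : Fin d → F, ∃ X, g0 X = τ := by
    have b := Module.finBasis F (LieM D H)
    refine ⟨LinearMap.pi fun k => b.coord (Fin.castLE h k), fun τ => ?_⟩
    refine ⟨∑ k, τ k • b (Fin.castLE h k), ?_⟩
    funext k
    rw [LinearMap.pi_apply, map_sum, Finset.sum_eq_single k]
    · simp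
    · intro l _ hl
      rw [map_smul, Module.Basis.coord_apply, Module.Basis.repr_self, Finsupp.single_eq_of_ne,
        smul_zero]
      exact fun h1 => hl (Fin.castLE_injective h h1.symm)
    · intro h1; exact absurd (Finset.mem_univ k) h1
  obtain ⟨g, hg⟩ := LinearMap.exists_extend g0
  have hgτ : ∀ τ : Fin d → F, ∃ X ∈ TanM D H, g X = τ := by
    intro τ
    obtain ⟨X, hX⟩ := hg0 τ
    refine ⟨X, M6_Lie D H X.2, ?_⟩
    rw [← hX, ← hg]
    rfl
  have hli : LinearIndependent F (fun (α : Fin d → Fin (D / d + 1)) (x : H) =>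
      ∏ k, (g ((x : (Matrix Ω Ω F)ˣ) : Matrix Ω Ω F) k - g 1 k) ^ (α k : ℕ)) := by
    rw [Fintype.linearIndependent_iff]
    intro c hc
    refine M6_indep D d (D / d) H g hgτ c fun x hx => ?_
    have h1 := hx (∑ α, MvPolynomial.C (c α) * M6_p g α) ?_ ?_
    · have h2 : ev x (∑ α, MvPolynomial.C (c α) * M6_p g α) =
          ∑ α, c α * ev x (M6_p g α) := by simp [ev]
      rw [h2] at h1
      simpa only [M6_p_ev] using h1
    · refine MvPolynomial.totalDegree_finsetSum_le fun α _ => ?_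
      refine (MvPolynomial.totalDegree_mul _ _).trans ?_
      rw [MvPolynomial.totalDegree_C, zero_add]
      exact (M6_p_deg g α).trans (Nat.div_mul_le_self D d)
    · intro y hy
      have h2 : ev (y : Matrix Ω Ω F) (∑ α, MvPolynomial.C (c α) * M6_p g α) =
          ∑ α, c α * ev (y : Matrix Ω Ω F) (M6_p g α) := by simp [ev]
      rw [h2]
      simp only [M6_p_ev]
      have h3 := congrFun hc ⟨y, hy⟩
      simpa [Finset.sum_apply] using h3
  have h4 := hli.fintype_card_le_finrank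
  rw [Module.finrank_fintype_fun_eq_card, Fintype.card_fun, Fintype.card_fin,
    Fintype.card_fin] at h4
  rw [Nat.card_eq_fintype_card]
  exact h4

end Pool.Agent.CTO
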