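import Pool.Agent.CTO.M2
import Pool.Agent.CTO.M4
import Pool.Agent.CTO.M5
import Pool.Agent.CTO.M6

/-!
# M7: the group generated by a dense torus and an irreducible conjugate, linear case

Let `H = HT T g`. By `ZD_torus` (with `TT = Set.univ`, and for `1` and `g`) all `dU z` and all
`g * dU z * g⁻¹` lie in `ZD D H`. Let `I = Bool × Ω`, `g (false, k) = 1`, `g (true, k) = g`,
`n (_, k) = Pi.single k 1`; every `dU z` is a product of the `dU (Pi.mulSingle k (z k))`, so
`HT T g ≤ HC g n`, and the span of `HC g n` is everything; `HC g n` lies in `ZD D H` (`HC_sub`).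
Claim: `LieM D H = ⊤` (then `card_curves` with `d = card Ω ^ 2` gives the result).
* `diagonal (Pi.single k 1) ∈ LieM D H` by `LieM_torus`.
* Weights: let `X ∈ LieM`, `i ≠ j`, `X i j ≠ 0`. Then `Matrix.single i j 1 ∈ LieM`: conjugation by
  `dU z` (with `z i = t`, `z k = 1` otherwise) preserves `LieM`, and
  `X^(t) = X₀ + t X₊ + t⁻¹ X₋`, where `X₊` is the `i`-th row without the diagonal entry and `X₋` is the
  `i`-th column without the diagonal entry; choose `t` with `t ≠ 0, 1, -1` (`F` is infinite); with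
  `Z = X^(t) - X` one has `Z^(t) - t⁻¹ Z = (t - t⁻¹) (t - 1) X₊`, so `X₊ ∈ LieM`; now conjugate `X₊` by
  `dU z'` with `z' j = t`: `X₊ - X₊^(t) = (1 - t⁻¹) X i j E_ij`.
* Let `i ≠ j`. Fix `k`. The polynomials `x_ik` and `(x⁻¹)_kj` are nonzero at some points of `HC g n`
  (otherwise all elements of the span would have zero entry at `(i, k)`, resp. `(k, j)`, note that
  `x⁻¹ ∈ HC` for `x ∈ HC`), so by `generic` they are both nonzero at some `x ∈ HC g n`; the matrix
  `x E_kk x⁻¹ ∈ LieM` (`LieM_conj`) has `(i, j)` entry `x_ik (x⁻¹)_kj ≠ 0`.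
Hence all `E_ij` and all `E_kk` lie in `LieM`.
-/

namespace Pool.Agent.CTO

open Matrix

variable {F Ω : Type} [Field F] [Fintype Ω] [DecidableEq Ω]

theorem M7_dU_mul (z z' : Ω → Fˣ) :
    (dU (z * z') : (Matrix Ω Ω F)ˣ) = dU z * dU z' := by
  apply Units.ext
  rw [Units.val_mul, dU_val, dU_val, dU_val, diagonal_mul_diagonal]
  simp

/-- `dU` as a homomorphism -/
def M7_hom : (Ω → Fˣ) →* (Matrix Ω Ω F)ˣ where
  toFun := dU
  map_one' := by
    apply Units.ext
    rw [dU_val]
    simp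
  map_mul' := M7_dU_mul

theorem M7_prod (S : Subgroup (Matrix Ω Ω F)ˣ) (a : (Matrix Ω Ω F)ˣ)
    (h : ∀ (k : Ω) (t : Fˣ), a * dU (Pi.mulSingle k t) * a⁻¹ ∈ S) (z : Ω → Fˣ) :
    a * dU z * a⁻¹ ∈ S := by
  have h1 : z ∈ S.comap ((MulAut.conj a).toMonoidHom.comp M7_hom) := by
    rw [← Finset.univ_prod_mulSingle z]
    apply Subgroup.prod_mem
    intro k _
    exact h k (z k)
  exact h1

omit [Fintype Ω] in
theorem M7_single (k : Ω) (t : Fˣ) :
    (fun ω => t ^ (Pi.single k (1 : ℤ) : Ω → ℤ) ω) = (Pi.mulSingle k t : Ω → Fˣ) := by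
  funext ω
  by_cases h : ω = k
  · subst h
    simp
  · simp [h]

theorem M7_conj (z : Ω → Fˣ) (X : Matrix Ω Ω F) (k l : Ω) :
    (((dU z : (Matrix Ω Ω F)ˣ) : Matrix Ω Ω F) * X *
      (((dU z)⁻¹ : (Matrix Ω Ω F)ˣ) : Matrix Ω Ω F)) k l =
      (z k : F) * X k l * ((z l)⁻¹ : Fˣ) := by
  have h : (((dU z)⁻¹ : (Matrix Ω Ω F)ˣ) : Matrix Ω Ω F) =
    diagonal fun i => (((z i)⁻¹ : Fˣ) : F) := rfl
  rw [h, dU_val, mul_diagonal, diagonal_mul]

/-- isolation of one entry -/
theorem M7_iso [Infinite F] (L : Submodule F (Matrix Ω Ω F))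
    (hL : ∀ (z : Ω → Fˣ), ∀ X ∈ L, ((dU z : (Matrix Ω Ω F)ˣ) : Matrix Ω Ω F) * X *
      (((dU z)⁻¹ : (Matrix Ω Ω F)ˣ) : Matrix Ω Ω F) ∈ L)
    (X : Matrix Ω Ω F) (hX : X ∈ L) (i j : Ω) (hij : i ≠ j) (hne : X i j ≠ 0) :
    Matrix.single i j (1 : F) ∈ L := by
  classical
  obtain ⟨t, ht⟩ := Infinite.exists_notMem_finset ({0, 1, -1} : Finset F)
  simp only [Finset.mem_insert, Finset.mem_singleton, not_or] at ht
  obtain ⟨ht0, ht1, ht2⟩ := ht
  obtain ⟨u, hu⟩ : ∃ u : Fˣ, (u : F) = t := ⟨Units.mk0 t ht0, rfl⟩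
  have hui : ((u⁻¹ : Fˣ) : F) = t⁻¹ := by rw [← hu]; exact Units.val_inv_eq_inv_val u
  obtain ⟨c, hc⟩ : ∃ c : Ω → Matrix Ω Ω F → Matrix Ω Ω F, ∀ k Y, c k Y =
      ((dU (Pi.mulSingle k u) : (Matrix Ω Ω F)ˣ) : Matrix Ω Ω F) * Y *
      (((dU (Pi.mulSingle k u))⁻¹ : (Matrix Ω Ω F)ˣ) : Matrix Ω Ω F) := ⟨_, fun _ _ => rfl⟩
  have hcL : ∀ k Y, Y ∈ L → c k Y ∈ L := fun k Y hY => by rw [hc]; exact hL _ Y hY
  have hce : ∀ k Y a b, c k Y a b = (if a = k then t else 1) * Y a b *
      (if b = k then t⁻¹ else 1) := by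
    intro k Y a b
    rw [hc, M7_conj]
    congr 1
    · congr 1
      by_cases h : a = k
      · subst h
        simp [hu]
      · simp [h]
    · by_cases h : b = k
      · subst h
        rw [if_pos rfl, Pi.mulSingle_eq_same, hui]
      · rw [if_neg h, Pi.mulSingle_eq_of_ne h]
        simp
  -- the row
  obtain ⟨Z, hZ⟩ : ∃ Z, Z = c i X - X := ⟨_, rfl⟩
  have hZL : Z ∈ L := by rw [hZ]; exact L.sub_mem (hcL _ _ hX) hX
  obtain ⟨W, hW⟩ : ∃ W, W = c i Z - t⁻¹ • Z := ⟨_, rfl⟩
  have hWL : W ∈ L := by rw [hW]; exact L.sub_mem (hcL _ _ hZL) (L.smul_mem _ hZL)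
  obtain ⟨U, hU⟩ : ∃ U, U = W - c j W := ⟨_, rfl⟩
  have hUL : U ∈ L := by rw [hU]; exact L.sub_mem hWL (hcL _ _ hWL)
  obtain ⟨e, he⟩ : ∃ e, e = (1 - t⁻¹) * ((t - t⁻¹) * ((t - 1) * X i j)) := ⟨_, rfl⟩
  have hUe : U = e • Matrix.single i j (1 : F) := by
    ext a b
    rw [hU, Matrix.sub_apply, hce, hW, Matrix.sub_apply, Matrix.smul_apply, hce, hZ, Matrix.sub_apply, hce, Matrix.smul_apply,
      single_apply, he]
    simp only [smul_eq_mul]
    by_cases h1 : a = i
    · subst h1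
      by_cases h2 : b = j
      · subst h2
        have h3 : ¬ (b = a) := fun h => hij h.symm
        simp only [hij, h3, if_true, if_false, and_self]
        ring
      · have h4 : ¬ (j = b) := fun h => h2 h.symm
        by_cases h3 : b = a
        · subst h3
          simp only [h2, h4, if_true, if_false, and_false]
          field_simp
          ring
        · simp only [h2, h4, hij, h3, if_true, if_false, and_false]
          ring
    · have h1' : ¬ (i = a) := fun h => h1 h.symm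
      have h5 : ¬ (i = a ∧ j = b) := fun h => h1' h.1
      by_cases h3 : b = i
      · subst h3
        simp only [h1, h5, if_true, if_false]
        ring
      · simp only [h1, h3, h5, if_false]
        ring
  have hne' : e ≠ 0 := by
    rw [he]
    refine mul_ne_zero ?_ (mul_ne_zero ?_ (mul_ne_zero (sub_ne_zero.2 ht1) hne))
    · rw [sub_ne_zero]
      intro h
      exact ht1 (by rw [← inv_inv t, ← h, inv_one])
    · rw [sub_ne_zero]
      intro h
      have h1 : t * t = 1 := by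
        nth_rw 2 [h]
        exact mul_inv_cancel₀ ht0
      rcases mul_self_eq_one_iff.1 h1 with h2 | h2
      · exact ht1 h2
      · exact ht2 h2
  have h1 : e⁻¹ • U ∈ L := L.smul_mem _ hUL
  rw [hUe, smul_smul, inv_mul_cancel₀ hne', one_smul] at h1
  exact h1

theorem card_GL [Infinite F] [Nonempty Ω] (D : ℕ) (T : Set (Ω → Fˣ)) (g : (Matrix Ω Ω F)ˣ)
    (hT : DensGL D T) (hs : SpanTop (HT T g)) [Finite (HT T g)] :
    (D / Fintype.card Ω ^ 2 + 1) ^ (Fintype.card Ω ^ 2) ≤ Nat.card (HT T g) := by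
  classical
  have dens : ∀ p : MvPolynomial Ω F, p.totalDegree ≤ D →
      (∀ z ∈ T, MvPolynomial.eval (fun i : Ω => ((z i : Fˣ) : F)) p = 0) →
      ∀ z ∈ (Set.univ : Set (Ω → Fˣ)),
        MvPolynomial.eval (fun i : Ω => ((z i : Fˣ) : F)) p = 0 := by
    intro p hp h z _
    rw [hT p hp h, map_zero]
  have t1 : ∀ z : Ω → Fˣ, ((1 * dU z * 1⁻¹ : (Matrix Ω Ω F)ˣ) : Matrix Ω Ω F) ∈
      ZD D (HT T g) := by
    intro z
    refine ZD_torus D (HT T g) T Set.univ 1 (fun z hz => ?_) dens z (Set.mem_univ z)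
    refine Subgroup.subset_closure (Or.inl ⟨z, hz, ?_⟩)
    simp
  have t2 : ∀ z : Ω → Fˣ, ((g * dU z * g⁻¹ : (Matrix Ω Ω F)ˣ) : Matrix Ω Ω F) ∈
      ZD D (HT T g) := by
    intro z
    refine ZD_torus D (HT T g) T Set.univ g (fun z hz => ?_) dens z (Set.mem_univ z)
    exact Subgroup.subset_closure (Or.inr ⟨z, hz, rfl⟩)
  obtain ⟨G, hG⟩ : ∃ G : Bool × Ω → (Matrix Ω Ω F)ˣ, ∀ i, G i = if i.1 then g else 1 :=
    ⟨_, fun _ => rfl⟩
  obtain ⟨N, hN⟩ : ∃ N : Bool × Ω → Ω → ℤ, ∀ i, N i = Pi.single i.2 1 := ⟨_, fun _ => rfl⟩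
  have hgen : ∀ (b : Bool) (k : Ω) (t : Fˣ),
      (if b then g else 1) * dU (Pi.mulSingle k t) * (if b then g else 1)⁻¹ ∈ HC G N := by
    intro b k t
    refine Subgroup.subset_closure ⟨(b, k), t, ?_⟩
    rw [hG, hN, M7_single]
  have hHC : HT T g ≤ HC G N := by
    unfold HT
    rw [Subgroup.closure_le]
    rintro x (⟨z, hz, rfl⟩ | ⟨z, hz, rfl⟩)
    · have h1 := M7_prod (HC G N) 1 (fun k t => by simpa using hgen false k t) z
      simpa using h1
    · exact M7_prod (HC G N) g (fun k t => by simpa using hgen true k t) z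
  have hspan : Submodule.span F {x : Matrix Ω Ω F | ∃ h ∈ HC G N, x = (h : Matrix Ω Ω F)} = ⊤ := by
    rw [eq_top_iff, ← hs]
    apply Submodule.span_mono
    rintro x ⟨h, hh, rfl⟩
    exact ⟨h, hHC hh, rfl⟩
  have hZD : ∀ x ∈ HC G N, (x : Matrix Ω Ω F) ∈ ZD D (HT T g) := by
    apply HC_sub
    rintro ⟨b, k⟩ t
    rw [hG, hN]
    cases b
    · exact t1 _
    · exact t2 _
  -- some entry is nonzero
  have hentry : ∀ a b : Ω, ∃ x ∈ HC G N, (x : Matrix Ω Ω F) a b ≠ 0 := by
    intro a b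
    by_contra hcon
    have h1 : ∀ x ∈ HC G N, (x : Matrix Ω Ω F) a b = 0 := by
      intro x hx
      by_contra h2
      exact hcon ⟨x, hx, h2⟩
    have h2 : (Matrix.single a b (1 : F)) ∈
        Submodule.span F {x : Matrix Ω Ω F | ∃ h ∈ HC G N, x = (h : Matrix Ω Ω F)} := by
      rw [hspan]
      exact Submodule.mem_top
    have h3 : ∀ X ∈ Submodule.span F {x : Matrix Ω Ω F | ∃ h ∈ HC G N, x = (h : Matrix Ω Ω F)},
        X a b = 0 := by
      intro X hX
      induction hX using Submodule.span_induction with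
      | mem x hx =>
        obtain ⟨h, hh, rfl⟩ := hx
        exact h1 h hh
      | zero => rfl
      | add x y _ _ hx hy => rw [Matrix.add_apply, hx, hy, add_zero]
      | smul c x _ hx => rw [Matrix.smul_apply, hx, smul_zero]
    have h4 := h3 _ h2
    rw [single_apply_same] at h4
    exact one_ne_zero h4
  have hdiag : ∀ k : Ω, Matrix.single k k (1 : F) ∈ LieM D (HT T g) := by
    intro k
    have h1 := LieM_torus D (HT T g) 1 (Pi.single k 1) (fun t => t1 _)
    have h2 : (diagonal (fun ω => (((Pi.single k (1 : ℤ) : Ω → ℤ) ω : ℤ) : F)) :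
        Matrix Ω Ω F) = Matrix.single k k (1 : F) := by
      ext a b
      rw [diagonal_apply, single_apply]
      by_cases hab : a = b
      · subst hab
        by_cases hak : k = a
        · subst hak
          simp
        · have hak' : ¬ (a = k) := fun h => hak h.symm
          simp [hak, hak']
      · have h3 : ¬ (k = a ∧ k = b) := by
          rintro ⟨rfl, h⟩
          exact hab h
        rw [if_neg hab, if_neg h3]
    rw [h2] at h1
    simpa using h1
  have hconj : ∀ (z : Ω → Fˣ), ∀ X ∈ LieM D (HT T g),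
      ((dU z : (Matrix Ω Ω F)ˣ) : Matrix Ω Ω F) * X *
      (((dU z)⁻¹ : (Matrix Ω Ω F)ˣ) : Matrix Ω Ω F) ∈ LieM D (HT T g) := by
    intro z X hX
    refine LieM_conj D (HT T g) (dU z) ?_ hX
    simpa using t1 z
  have hall : ∀ i j : Ω, Matrix.single i j (1 : F) ∈ LieM D (HT T g) := by
    intro i j
    by_cases hij : i = j
    · subst hij
      exact hdiag i
    · obtain ⟨x₁, hx₁, hx₁'⟩ := hentry i i
      obtain ⟨x₂, hx₂, hx₂'⟩ := hentry i j
      obtain ⟨x, hx, hxP⟩ := generic G N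
        (fun b : Bool => if b then MvPolynomial.X (Sum.inl (i, i)) else
          MvPolynomial.X (Sum.inr (i, j))) (by
          intro b
          cases b
          · refine ⟨x₂⁻¹, inv_mem hx₂, ?_⟩
            simp only [Bool.false_eq_true, if_false, evU, MvPolynomial.eval_X, Sum.elim_inr,
              inv_inv]
            exact hx₂'
          · refine ⟨x₁, hx₁, ?_⟩
            simp only [if_true, evU, MvPolynomial.eval_X, Sum.elim_inl]
            exact hx₁')
      have e1 := hxP true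
      have e2 := hxP false
      simp only [if_true, evU, MvPolynomial.eval_X, Sum.elim_inl] at e1
      simp only [Bool.false_eq_true, if_false, evU, MvPolynomial.eval_X, Sum.elim_inr] at e2
      have h1 := LieM_conj D (HT T g) x (hZD x hx) (hdiag i)
      refine M7_iso _ hconj _ h1 i j hij ?_
      have h2 : ((x : Matrix Ω Ω F) * Matrix.single i i (1 : F) *
          ((x⁻¹ : (Matrix Ω Ω F)ˣ) : Matrix Ω Ω F)) i j =
          (x : Matrix Ω Ω F) i i * ((x⁻¹ : (Matrix Ω Ω F)ˣ) : Matrix Ω Ω F) i j := by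
        rw [mul_apply, Finset.sum_eq_single i]
        · rw [mul_single_apply_same, mul_one]
        · intro b _ hb
          rw [mul_single_apply_of_ne (hbj := fun h => hb h), zero_mul]
        · intro h
          exact absurd (Finset.mem_univ i) h
      rw [h2]
      exact mul_ne_zero e1 e2
  have htop : LieM D (HT T g) = ⊤ := by
    rw [eq_top_iff]
    intro X _
    rw [matrix_eq_sum_single X]
    refine Submodule.sum_mem _ fun i _ => Submodule.sum_mem _ fun j _ => ?_
    have h1 : Matrix.single i j (X i j) = X i j • Matrix.single i j (1 : F) := by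
      rw [smul_single, smul_eq_mul, mul_one]
    rw [h1]
    exact Submodule.smul_mem _ _ (hall i j)
  refine card_curves D (Fintype.card Ω ^ 2) (pow_pos Fintype.card_pos 2) (HT T g) ?_
  rw [htop, finrank_top, Module.finrank_matrix, Module.finrank_self, mul_one, sq]

end Pool.Agent.CTO
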