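import Pool.Agent.CTO.R1

/-!
# R3: density of the torus, unitary case

`K` has an involution `σ ≠ id`, `A` is a finite dimensional reduced commutative `K`-algebra with a
`σ`-semilinear involution `st`, `w : Ω → (A →ₐ[K] F)` a bijection, `n = card Ω`. Let
`K0 = {k | σ k = k}` (a subfield, `|K0| ^ 2 = |K|`), `Q0 = |K0|`. If `2 D n + 2 n < Q0`, then every
polynomial of degree `≤ D` vanishing at the points `z = (w i (x² / (st x)²))_i`, `x` a unit of `A`, is
zero.
Proof. The maps `u i = w i` and `v i = w i ∘ st : A → F` are `2 n` ring homomorphisms, and they are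
distinct (`u i = u j` implies `i = j`; `u i` is the identity on `K` and `v i` is `σ` on `K`), so they are
linearly independent over `F` (`linearIndependent_monoidHom`). Let `b` be a `K0`-basis of `A` indexed by
`Fin (2 n)` (`dim_K0 A = 2 dim_K A = 2 n`, `card_homs`; `[K : K0] = 2`), `ℓ i = ∑ C (u i (b j)) X j`,
`m i = ∑ C (v i (b j)) X j`: these are `2 n` linearly independent linear forms in `2 n` variables (the
`u i`, `v i` are `K0`-linear, so a relation between the values at the `b j` gives a relation on `A`).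
`P = p̃ * ∏ i, ℓ i * ∏ i, m i`, with `p̃` obtained from `p` by replacing each monomial `c ∏ z i ^ k i`
(`∑ k i ≤ D`) by `c ∏ ℓ i ^ (2 k i) * m i ^ (2 D - 2 k i)`. `P` has degree `≤ 2 D n + 2 n < Q0` and
vanishes at all points of `K0^(2n)` (if all `ℓ i` and `m i` are nonzero at `t` then `x = ∑ t j b j` is a
unit, `unit_iff`). So `P = 0`, `p̃ = 0`, and since the values of the `ℓ i`, `m i` can be prescribed
arbitrarily: with `m i = 1`, `ℓ i = y i`: `p(y i ^ 2) = 0` for all `y : Ω → F`, so `p = 0`.
-/

namespace Pool.Agent.CTO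

open Matrix Module

section

variable {K A F Ω : Type} [Field K] [Finite K] [CommRing A] [Algebra K A] [FiniteDimensional K A]
  [IsReduced A] [Field F] [Algebra K F] [IsAlgClosed F] [Fintype Ω] [DecidableEq Ω]

/-- the linear form with coefficients `φ a` -/
noncomputable def R3_lin [Fintype A] (φ : A → F) : MvPolynomial A F :=
  ∑ a, MvPolynomial.C (φ a) * MvPolynomial.X a

omit [Field K] [Finite K] [Algebra K A] [FiniteDimensional K A] [IsReduced A] [Algebra K F]
  [IsAlgClosed F] [Fintype Ω] [DecidableEq Ω] in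
theorem R3_lin_eval [Fintype A] (φ : A → F) (t : A → F) :
    MvPolynomial.eval t (R3_lin φ) = ∑ a, φ a * t a := by
  simp [R3_lin]

omit [Field K] [Finite K] [Algebra K A] [FiniteDimensional K A] [IsReduced A] [Algebra K F]
  [IsAlgClosed F] [Fintype Ω] [DecidableEq Ω] in
theorem R3_lin_deg [Fintype A] (φ : A → F) : (R3_lin φ).totalDegree ≤ 1 := by
  unfold R3_lin
  refine MvPolynomial.totalDegree_finsetSum_le fun a _ => ?_
  refine (MvPolynomial.totalDegree_mul _ _).trans ?_
  rw [MvPolynomial.totalDegree_C, zero_add]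
  exact (MvPolynomial.totalDegree_X _).le

omit [Field K] [Finite K] [Algebra K A] [FiniteDimensional K A] [IsReduced A] [Algebra K F]
  [IsAlgClosed F] [DecidableEq Ω] in
/-- linearly independent forms take arbitrary values -/
theorem R3_surj [Fintype A] {O : Type} [Fintype O] (Φ : O → A → F)
    (h : ∀ c : O → F, (∀ a, ∑ o, c o * Φ o a = 0) → c = 0) (y : O → F) :
    ∃ t : A → F, ∀ o, ∑ a, Φ o a * t a = y o := by
  classical
  obtain ⟨f, hf⟩ : ∃ f : (A → F) →ₗ[F] (O → F), ∀ t o, f t o = ∑ a, Φ o a * t a := by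
    refine ⟨LinearMap.pi fun o => ∑ a, Φ o a • LinearMap.proj a, fun t o => ?_⟩
    simp
  have hs : Function.Surjective f := by
    rw [← LinearMap.dualMap_injective_iff, injective_iff_map_eq_zero]
    intro ψ hψ
    have h1 : (fun o => ψ (Pi.single o 1)) = 0 := by
      refine h _ fun a => ?_
      have h2 : ψ (f (Pi.single a 1)) = 0 := by
        have := LinearMap.congr_fun hψ (Pi.single a 1)
        exact this
      have h3 : f (Pi.single a 1) = ∑ o, Φ o a • (Pi.single o (1 : F) : O → F) := by
        funext o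
        rw [hf, Finset.sum_apply, Finset.sum_eq_single a, Finset.sum_eq_single o]
        · simp
        · intro b _ hb
          rw [Pi.smul_apply, Pi.single_eq_of_ne hb.symm, smul_zero]
        · intro hb; exact absurd (Finset.mem_univ o) hb
        · intro b _ hb
          rw [Pi.single_eq_of_ne hb, mul_zero]
        · intro hb; exact absurd (Finset.mem_univ a) hb
      rw [h3, map_sum] at h2
      rw [← h2]
      refine Finset.sum_congr rfl fun o _ => ?_
      rw [map_smul, smul_eq_mul, mul_comm]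
    refine LinearMap.pi_ext' fun o => ?_
    ext
    exact congrFun h1 o
  obtain ⟨t, ht⟩ := hs y
  exact ⟨t, fun o => by rw [← hf, ht]⟩

theorem densU_alg (w : Ω → (A →ₐ[K] F)) (hw : Function.Bijective w) (σ : K →+* K)
    (hσ : ∀ k, σ (σ k) = k) (hσ' : ∃ k, σ k ≠ k) (st : A →+* A) (hst : ∀ a, st (st a) = a)
    (hst' : ∀ k : K, st (algebraMap K A k) = algebraMap K A (σ k)) (D : ℕ)
    (hD : 2 * D * Fintype.card Ω + 2 * Fintype.card Ω < Nat.card {k : K // σ k = k}) :
    DensGL D {z : Ω → Fˣ | ∃ x : Aˣ, ∀ i, (z i : F) * w i (st (x : A)) ^ 2 = w i (x : A) ^ 2} := by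
  classical
  intro p hpD hp
  have hAfin : Finite A := Module.finite_of_finite K
  have := Fintype.ofFinite A
  -- the `2 n` homomorphisms
  obtain ⟨Φ, hΦ1, hΦ2⟩ : ∃ Φ : Ω ⊕ Ω → (A →* F), (∀ i a, Φ (Sum.inl i) a = w i a) ∧
      ∀ i a, Φ (Sum.inr i) a = w i (st a) := by
    exact ⟨Sum.elim (fun i => ((w i : A →+* F) : A →* F))
      (fun i => (((w i : A →+* F).comp st : A →+* F) : A →* F)), fun i a => rfl, fun i a => rfl⟩
  have hΦinj : Function.Injective Φ := by
    have hne : ∀ i j, Φ (Sum.inl i) ≠ Φ (Sum.inr j) := by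
      intro i j hij
      obtain ⟨k, hk⟩ := hσ'
      apply hk
      have h1 := DFunLike.congr_fun hij (algebraMap K A k)
      rw [hΦ1, hΦ2, hst', AlgHom.commutes, AlgHom.commutes] at h1
      exact ((algebraMap K F).injective h1).symm
    rintro (i | i) (j | j) hij
    · congr 1
      apply hw.1
      ext a
      have h1 := DFunLike.congr_fun hij a
      rwa [hΦ1, hΦ1] at h1
    · exact absurd hij (hne i j)
    · exact absurd hij.symm (hne j i)
    · congr 1
      apply hw.1
      ext a
      have h1 := DFunLike.congr_fun hij (st a)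
      rwa [hΦ2, hΦ2, hst] at h1
  have hli := (linearIndependent_monoidHom A F).comp Φ hΦinj
  have hind : ∀ c : Ω ⊕ Ω → F, (∀ a, ∑ o, c o * Φ o a = 0) → c = 0 := by
    intro c hc
    rw [Fintype.linearIndependent_iff] at hli
    funext o
    refine hli c ?_ o
    funext a
    rw [Finset.sum_apply]
    exact hc a
  have hsurj := R3_surj (fun o a => Φ o a) hind
  obtain ⟨ℓ, hℓ⟩ : ∃ ℓ : Ω ⊕ Ω → MvPolynomial A F, ℓ = fun o => R3_lin (fun a => Φ o a) :=
    ⟨_, rfl⟩
  have hℓe : ∀ o t, MvPolynomial.eval t (ℓ o) = ∑ a, Φ o a * t a := by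
    intro o t; rw [hℓ]; exact R3_lin_eval _ t
  have hℓd : ∀ o, (ℓ o).totalDegree ≤ 1 := by intro o; rw [hℓ]; exact R3_lin_deg _
  have hm : ∀ m ∈ p.support, ∀ i, m i ≤ D := by
    intro m hm i
    calc m i ≤ m.degree := Finsupp.le_degree i m
      _ ≤ p.totalDegree := MvPolynomial.le_totalDegree hm
      _ ≤ D := hpD
  obtain ⟨q, hq⟩ : ∃ q : MvPolynomial A F, q = ∑ m ∈ p.support, MvPolynomial.C (p.coeff m) *
      ∏ i, (ℓ (Sum.inl i) ^ (2 * m i) * ℓ (Sum.inr i) ^ (2 * D - 2 * m i)) := ⟨_, rfl⟩
  have hqd : q.totalDegree ≤ 2 * D * Fintype.card Ω := by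
    rw [hq]
    refine MvPolynomial.totalDegree_finsetSum_le fun m hmm => ?_
    refine (MvPolynomial.totalDegree_mul _ _).trans ?_
    rw [MvPolynomial.totalDegree_C, zero_add]
    refine (MvPolynomial.totalDegree_finsetProd _ _).trans ?_
    calc ∑ i, (ℓ (Sum.inl i) ^ (2 * m i) * ℓ (Sum.inr i) ^ (2 * D - 2 * m i)).totalDegree
        ≤ ∑ _i : Ω, 2 * D := by
          refine Finset.sum_le_sum fun i _ => ?_
          refine (MvPolynomial.totalDegree_mul _ _).trans ?_
          have h1 := (MvPolynomial.totalDegree_pow (ℓ (Sum.inl i)) (2 * m i)).trans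
            (Nat.mul_le_mul_left _ (hℓd _))
          have h2 := (MvPolynomial.totalDegree_pow (ℓ (Sum.inr i)) (2 * D - 2 * m i)).trans
            (Nat.mul_le_mul_left _ (hℓd _))
          have h3 := hm m hmm i
          omega
      _ = 2 * D * Fintype.card Ω := by
          rw [Finset.sum_const, Finset.card_univ, smul_eq_mul, mul_comm]
  have hqe : ∀ t, MvPolynomial.eval t q = ∑ m ∈ p.support, p.coeff m *
      ∏ i, (MvPolynomial.eval t (ℓ (Sum.inl i)) ^ (2 * m i) *
        MvPolynomial.eval t (ℓ (Sum.inr i)) ^ (2 * D - 2 * m i)) := by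
    intro t; rw [hq]; simp
  obtain ⟨P, hP⟩ : ∃ P : MvPolynomial A F, P = q * ∏ o, ℓ o := ⟨_, rfl⟩
  have hPd : P.totalDegree ≤ 2 * D * Fintype.card Ω + 2 * Fintype.card Ω := by
    rw [hP]
    refine (MvPolynomial.totalDegree_mul _ _).trans (Nat.add_le_add hqd ?_)
    refine (MvPolynomial.totalDegree_finsetProd _ _).trans ?_
    calc ∑ o, (ℓ o).totalDegree ≤ ∑ _o : Ω ⊕ Ω, 1 := Finset.sum_le_sum fun o _ => hℓd o
      _ = 2 * Fintype.card Ω := by
          rw [Finset.sum_const, Finset.card_univ, Fintype.card_sum, smul_eq_mul]; ring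
  -- `P` vanishes
  have hP0 : P = 0 := by
    have hfin : Finite {k : K // σ k = k} := inferInstance
    have := Fintype.ofFinite {k : K // σ k = k}
    obtain ⟨S, hS⟩ : ∃ S : Finset F, S = Finset.univ.image
        (fun k : {k : K // σ k = k} => algebraMap K F k) := ⟨_, rfl⟩
    have hSc : S.card = Nat.card {k : K // σ k = k} := by
      rw [hS, Finset.card_image_of_injective, Finset.card_univ, Nat.card_eq_fintype_card]
      intro k k' hkk
      exact Subtype.ext ((algebraMap K F).injective hkk)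
    refine MvPolynomial.eq_zero_of_eval_zero_at_prod_finset P (fun _ => S) (fun a => ?_)
      fun t ht => ?_
    · rw [hSc]
      exact lt_of_le_of_lt ((MvPolynomial.degreeOf_le_totalDegree P a).trans hPd) hD
    · have hk : ∀ a, ∃ k : K, σ k = k ∧ algebraMap K F k = t a := by
        intro a
        have h1 := ht a
        rw [hS, Finset.mem_image] at h1
        obtain ⟨k, -, hk⟩ := h1
        exact ⟨k, k.2, hk⟩
      choose k hk1 hk2 using hk
      obtain ⟨x, hx⟩ : ∃ x : A, x = ∑ a, algebraMap K A (k a) * a := ⟨_, rfl⟩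
      have e1 : ∀ i, MvPolynomial.eval t (ℓ (Sum.inl i)) = w i x := by
        intro i
        rw [hℓe, hx, map_sum]
        refine Finset.sum_congr rfl fun a _ => ?_
        rw [hΦ1, map_mul, AlgHom.commutes, hk2, mul_comm]
      have e2 : ∀ i, MvPolynomial.eval t (ℓ (Sum.inr i)) = w i (st x) := by
        intro i
        rw [hℓe, hx, map_sum, map_sum]
        refine Finset.sum_congr rfl fun a _ => ?_
        rw [hΦ2, map_mul, map_mul, hst', hk1, AlgHom.commutes, hk2, mul_comm]
      rw [hP, map_mul, map_prod, Fintype.prod_sum_type]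
      by_cases hz1 : ∃ i, w i x = 0
      · obtain ⟨i, hi⟩ := hz1
        have h9 : ∏ i, MvPolynomial.eval t (ℓ (Sum.inl i)) = 0 :=
          Finset.prod_eq_zero (Finset.mem_univ i) (by rw [e1, hi])
        rw [h9, zero_mul, mul_zero]
      by_cases hz2 : ∃ i, w i (st x) = 0
      · obtain ⟨i, hi⟩ := hz2
        have h9 : ∏ i, MvPolynomial.eval t (ℓ (Sum.inr i)) = 0 :=
          Finset.prod_eq_zero (Finset.mem_univ i) (by rw [e2, hi])
        rw [h9, mul_zero, mul_zero]
      push Not at hz1 hz2
      obtain ⟨u, hu⟩ := (unit_iff w hw x).2 hz1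
      have hz : MvPolynomial.eval (fun i => w i x ^ 2 / w i (st x) ^ 2) p = 0 := by
        have h1 := hp (fun i => Units.mk0 (w i x ^ 2 / w i (st x) ^ 2)
          (div_ne_zero (pow_ne_zero _ (hz1 i)) (pow_ne_zero _ (hz2 i)))) ⟨u, fun i => by
            rw [hu, Units.val_mk0, div_mul_cancel₀ _ (pow_ne_zero _ (hz2 i))]⟩
        simpa using h1
      have hq0 : MvPolynomial.eval t q = 0 := by
        rw [hqe]
        have h2 : ∀ m ∈ p.support, p.coeff m *
            ∏ i, (MvPolynomial.eval t (ℓ (Sum.inl i)) ^ (2 * m i) *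
              MvPolynomial.eval t (ℓ (Sum.inr i)) ^ (2 * D - 2 * m i)) =
            (∏ i, w i (st x) ^ (2 * D)) *
              (p.coeff m * ∏ i, (w i x ^ 2 / w i (st x) ^ 2) ^ m i) := by
          intro m hmm
          rw [mul_left_comm, ← Finset.prod_mul_distrib]
          congr 1
          refine Finset.prod_congr rfl fun i _ => ?_
          rw [e1, e2]
          have h3 := hm m hmm i
          have h4 : w i (st x) ^ (2 * D) = w i (st x) ^ (2 * D - 2 * m i) *
              w i (st x) ^ (2 * m i) := by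
            rw [← pow_add]; congr 1; omega
          have h5 : w i (st x) ^ (2 * m i) ≠ 0 := pow_ne_zero _ (hz2 i)
          rw [h4, div_pow, ← pow_mul, ← pow_mul]
          field_simp
        rw [Finset.sum_congr rfl h2, ← Finset.mul_sum]
        have h6 := hz
        rw [MvPolynomial.eval_eq'] at h6
        rw [h6, mul_zero]
      rw [hq0, zero_mul]
  -- so `q = 0`
  have hq0 : q = 0 := by
    rw [hP] at hP0
    rcases mul_eq_zero.1 hP0 with h1 | h1
    · exact h1
    · exfalso
      obtain ⟨o, -, ho⟩ := Finset.prod_eq_zero_iff.1 h1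
      obtain ⟨t, ht⟩ := hsurj fun _ => 1
      have h2 := hℓe o t
      rw [ho, map_zero, ht] at h2
      exact zero_ne_one h2
  apply MvPolynomial.funext
  intro z
  rw [map_zero]
  have hy : ∀ i, ∃ y, y ^ 2 = z i := fun i => IsAlgClosed.exists_pow_nat_eq (z i) two_pos
  choose y hy using hy
  obtain ⟨t, ht⟩ := hsurj (Sum.elim y fun _ => 1)
  have h1 := hqe t
  rw [hq0, map_zero] at h1
  rw [MvPolynomial.eval_eq', h1]
  refine Finset.sum_congr rfl fun m _ => ?_
  congr 1
  refine Finset.prod_congr rfl fun i _ => ?_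
  rw [hℓe, hℓe, ht, ht, Sum.elim_inl, Sum.elim_inr, one_pow, mul_one, pow_mul, hy]

end

end Pool.Agent.CTO
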