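import Pool.Agent.CTO.R4

/-!
# R5: diagonalization of a torus and of the form (bilinear case)

`f` is a nondegenerate symmetric (`ε = 1`) or alternating (`ε = -1`) bilinear form
(`IsHF (RingHom.id K) ε f`), `A` is the algebra of a maximal torus (`IsTor f A`), `2 ≠ 0`.
With the data of `R4data` let `J` be the Gram matrix of `f` in the basis `bv` and
`J' = P⁻ᵀ J P⁻¹`; then `(ρ₀ S)ᵀ J' = J' (ρ₀ T)` for adjoint `S`, `T`. For `a ∈ A` with adjoint `b`:
`w i (a) J'_ij = J'_ij w j (b)`, so in each row and column of `J'` there is exactly one nonzero entry;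
`J'_(bar j) j = c_j ≠ 0`, `c_(bar j) = ε c_j`. Rescale by a diagonal matrix `Λ`.
At most one fixed point of `bar`: if `i ≠ j` are fixed, the skew element `d` has `w i d = w j d = 0`;
the space of the `a v0` with `w i a = w j a = 0` contains the range of `d`, of dimension `≥ n - 1`, and
not `v0`; so every `a` is `m + k` with `w i m = w j m = 0` and `w i a = k = w j a`.
-/

namespace Pool.Agent.CTO

open Matrix Module

section

variable {K V F : Type} [Field K] [Finite K] [AddCommGroup V] [Module K V] [FiniteDimensional K V]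
  [Field F] [Algebra K F] [IsAlgClosed F]

section form

omit [Finite K] [FiniteDimensional K V] [Algebra K F] [IsAlgClosed F] [Field F] in
lemma R5_smul_right {ε : K} {f : V → V → K} (hf : IsHF (RingHom.id K) ε f) (a : K) (v w : V) :
    f v (a • w) = a * f v w := by
  have h1 := hf.herm (a • w) v
  have h2 := hf.herm w v
  simp only [RingHom.id_apply] at h1 h2
  rw [h1, h2, hf.smul_left]
  ring

omit [Finite K] [FiniteDimensional K V] [Algebra K F] [IsAlgClosed F] [Field F] in
lemma R5_add_right {ε : K} {f : V → V → K} (hf : IsHF (RingHom.id K) ε f) (u v w : V) :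
    f u (v + w) = f u v + f u w := by
  have h1 := hf.herm (v + w) u
  have h2 := hf.herm v u
  have h3 := hf.herm w u
  simp only [RingHom.id_apply] at h1 h2 h3
  rw [h1, h2, h3, hf.add_left]
  ring

/-- the bilinear form of `f` -/
noncomputable def R5B {ε : K} {f : V → V → K} (hf : IsHF (RingHom.id K) ε f) :
    LinearMap.BilinForm K V :=
  LinearMap.mk₂ K f hf.add_left (fun a v w => by rw [hf.smul_left, smul_eq_mul])
    (R5_add_right hf) (fun a v w => by rw [R5_smul_right hf, smul_eq_mul])

end form

omit [Finite K] [FiniteDimensional K V] [IsAlgClosed F] in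
lemma R5rho_mul {n : ℕ} (bv : Basis (Fin n) K V) (u P : (Matrix (Fin n) (Fin n) F)ˣ)
    (x : Module.End K V) :
    R4rho bv (u * P) x = (u : Matrix (Fin n) (Fin n) F) * R4rho bv P x *
      (↑u⁻¹ : Matrix (Fin n) (Fin n) F) := by
  rw [R4rho_apply, R4rho_apply, _root_.mul_inv_rev, Units.val_mul, Units.val_mul]
  noncomm_ring

omit [Finite K] [FiniteDimensional K V] [IsAlgClosed F] in
/-- the Gram matrix and adjoint maps -/
lemma R5_gram {ε : K} {f : V → V → K} (hf : IsHF (RingHom.id K) ε f) {n : ℕ}
    (bv : Basis (Fin n) K V) {S T : Module.End K V} (h : IsAdj f S T) :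
    (LinearMap.toMatrixAlgEquiv bv S)ᵀ * (of fun i j => f (bv i) (bv j)) =
      (of fun i j => f (bv i) (bv j)) * LinearMap.toMatrixAlgEquiv bv T := by
  ext i j
  rw [Matrix.mul_apply, Matrix.mul_apply]
  simp only [Matrix.transpose_apply, of_apply]
  have h1 : ∀ u w : V, f u w = R5B hf u w := fun u w => rfl
  have h2 : f (S (bv i)) (bv j) = ∑ k, LinearMap.toMatrixAlgEquiv bv S k i * f (bv k) (bv j) := by
    have h3 := bv.sum_repr (S (bv i))
    conv_lhs => rw [← h3]
    rw [h1, map_sum, LinearMap.sum_apply]
    refine Finset.sum_congr rfl fun k _ => ?_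
    rw [map_smul, LinearMap.smul_apply, smul_eq_mul, LinearMap.toMatrixAlgEquiv_apply, h1]
  have h4 : f (bv i) (T (bv j)) = ∑ k, f (bv i) (bv k) * LinearMap.toMatrixAlgEquiv bv T k j := by
    have h3 := bv.sum_repr (T (bv j))
    conv_lhs => rw [← h3]
    rw [h1, map_sum]
    refine Finset.sum_congr rfl fun k _ => ?_
    rw [map_smul, smul_eq_mul, LinearMap.toMatrixAlgEquiv_apply, h1, mul_comm]
  rw [← h2, ← h4]
  exact h (bv i) (bv j)

omit [Finite K] [FiniteDimensional K V] in
lemma R5_gram_unit {ε : K} {f : V → V → K} (hf : IsHF (RingHom.id K) ε f) {n : ℕ}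
    (bv : Basis (Fin n) K V) :
    IsUnit (of fun i j => f (bv i) (bv j) : Matrix (Fin n) (Fin n) K) := by
  rw [← Matrix.vecMul_injective_iff_isUnit]
  intro c c' hcc
  have h1 : (c - c') ᵥ* (of fun i j => f (bv i) (bv j) : Matrix (Fin n) (Fin n) K) = 0 := by
    rw [Matrix.sub_vecMul]
    exact sub_eq_zero.mpr hcc
  set d := c - c' with hd
  have h2 : ∑ i, d i • bv i = 0 := by
    apply hf.nondeg
    intro w
    have h3 : ∀ u w : V, f u w = R5B hf u w := fun u w => rfl
    have h4 : ∀ j, f (∑ i, d i • bv i) (bv j) = 0 := by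
      intro j
      have h5 := congrFun h1 j
      simp only [Matrix.vecMul, dotProduct, Pi.zero_apply, of_apply] at h5
      rw [h3, map_sum, LinearMap.sum_apply, ← h5]
      refine Finset.sum_congr rfl fun k _ => ?_
      rw [map_smul, LinearMap.smul_apply, smul_eq_mul, h3]
    rw [← bv.sum_repr w, h3, map_sum]
    apply Finset.sum_eq_zero
    intro j _
    rw [map_smul, ← h3, h4, smul_zero]
  have h6 : d = 0 := by
    funext i
    have := Fintype.linearIndependent_iff.mp bv.linearIndependent d h2 i
    exact this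
  exact sub_eq_zero.mp h6

theorem exists_rho_form (ε : K) (f : V → V → K) (hf : IsHF (RingHom.id K) ε f) (two : (2 : K) ≠ 0)
    (A : Subalgebra K (Module.End K V)) (hA : IsTor f A) :
    ∃ (w : Fin (finrank K V) → (A →ₐ[K] F))
      (ρ : Module.End K V →ₐ[K] Matrix (Fin (finrank K V)) (Fin (finrank K V)) F)
      (bar : Fin (finrank K V) → Fin (finrank K V)) (s : Fin (finrank K V) → F),
      IsRho A w ρ ∧ BarF bar s (algebraMap K F ε) ∧
      (∀ i j, bar i = i → bar j = j → i = j) ∧
      (∀ S T, IsAdj f S T → ρ T = starM bar s (ρ S)) ∧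
      (∀ (i : Fin (finrank K V)) (a b : A), IsAdj f (a : Module.End K V) b → w (bar i) a = w i b) := by
  classical
  obtain ⟨w, v0, bv, P, hw, hv0, hv1, hd⟩ := R4data (F := F) A hA.toIsTorGL
  set Q : Matrix (Fin (finrank K V)) (Fin (finrank K V)) F := (↑P⁻¹ : Matrix (Fin (finrank K V)) (Fin (finrank K V)) F) with hQ
  have hPQ : (P : Matrix _ _ F) * Q = 1 := P.mul_inv
  have hQP : Q * (P : Matrix _ _ F) = 1 := P.inv_mul
  set J : Matrix (Fin (finrank K V)) (Fin (finrank K V)) K := of fun i j => f (bv i) (bv j) with hJ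
  set J' : Matrix (Fin (finrank K V)) (Fin (finrank K V)) F :=
    Qᵀ * J.map (algebraMap K F) * Q with hJ'
  have hJu : IsUnit J' := by
    have h1 : IsUnit Q := P⁻¹.isUnit
    have h2 : IsUnit (J.map (algebraMap K F)) := by
      have := (R5_gram_unit hf bv).map (RingHom.mapMatrix (algebraMap K F))
      exact this
    have h3 : IsUnit Qᵀ := by
      rw [Matrix.isUnit_transpose]
      exact h1
    exact (h3.mul h2).mul h1
  have hJt : ∀ i j, J' j i = algebraMap K F ε * J' i j := by
    have h1 : Jᵀ = ε • J := by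
      ext i j
      have h2 := hf.herm (bv i) (bv j)
      simp only [RingHom.id_apply] at h2
      rw [Matrix.transpose_apply, Matrix.smul_apply, smul_eq_mul, hJ, of_apply, of_apply]
      exact h2
    have h3 : J'ᵀ = algebraMap K F ε • J' := by
      have h4 : (J.map (algebraMap K F))ᵀ = algebraMap K F ε • J.map (algebraMap K F) := by
        ext i j
        have h5 := congrFun (congrFun h1 i) j
        rw [Matrix.transpose_apply, Matrix.smul_apply, smul_eq_mul] at h5
        rw [Matrix.transpose_apply, Matrix.map_apply, Matrix.smul_apply, Matrix.map_apply,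
          smul_eq_mul, ← map_mul, h5]
      rw [hJ', Matrix.transpose_mul, Matrix.transpose_mul, Matrix.transpose_transpose, h4,
        Matrix.smul_mul, Matrix.mul_smul, ← Matrix.mul_assoc]
    intro i j
    have := congrFun (congrFun h3 i) j
    rw [Matrix.transpose_apply, Matrix.smul_apply, smul_eq_mul] at this
    exact this
  have hadj : ∀ S T, IsAdj f S T → (R4rho bv P S)ᵀ * J' = J' * R4rho bv P T := by
    intro S T hST
    have h1 := R5_gram hf bv hST
    have h2 : ((LinearMap.toMatrixAlgEquiv bv S).map (algebraMap K F))ᵀ * J.map (algebraMap K F) =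
        J.map (algebraMap K F) * (LinearMap.toMatrixAlgEquiv bv T).map (algebraMap K F) := by
      rw [← Matrix.transpose_map, ← Matrix.map_mul, ← Matrix.map_mul, h1]
    rw [R4rho_apply, R4rho_apply, Matrix.transpose_mul, Matrix.transpose_mul, hJ', ← hQ]
    have h3 : (P : Matrix _ _ F)ᵀ * Qᵀ = 1 := by
      rw [← Matrix.transpose_mul, hQP, Matrix.transpose_one]
    calc Qᵀ * (((LinearMap.toMatrixAlgEquiv bv S).map (algebraMap K F))ᵀ * (P : Matrix _ _ F)ᵀ) *
          (Qᵀ * J.map (algebraMap K F) * Q)
        = Qᵀ * ((LinearMap.toMatrixAlgEquiv bv S).map (algebraMap K F))ᵀ *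
          ((P : Matrix _ _ F)ᵀ * Qᵀ) * (J.map (algebraMap K F) * Q) := by
          simp only [Matrix.mul_assoc]
      _ = Qᵀ * (((LinearMap.toMatrixAlgEquiv bv S).map (algebraMap K F))ᵀ *
          J.map (algebraMap K F)) * Q := by
          rw [h3, Matrix.mul_one]
          simp only [Matrix.mul_assoc]
      _ = Qᵀ * (J.map (algebraMap K F) * (LinearMap.toMatrixAlgEquiv bv T).map (algebraMap K F)) *
          Q := by rw [h2]
      _ = Qᵀ * J.map (algebraMap K F) * (Q * (P : Matrix _ _ F)) *
          ((LinearMap.toMatrixAlgEquiv bv T).map (algebraMap K F) * Q) := by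
          rw [hQP, Matrix.mul_one]
          simp only [Matrix.mul_assoc]
      _ = Qᵀ * J.map (algebraMap K F) * Q *
          ((P : Matrix _ _ F) * (LinearMap.toMatrixAlgEquiv bv T).map (algebraMap K F) * Q) := by
          simp only [Matrix.mul_assoc]
  have hwJ : ∀ (a b : A), IsAdj f (a : Module.End K V) b → ∀ i j,
      w i a * J' i j = J' i j * w j b := by
    intro a b hab i j
    have h1 := hadj _ _ hab
    rw [hd, hd, Matrix.diagonal_transpose] at h1
    have h2 := congrFun (congrFun h1 i) j
    rw [Matrix.diagonal_mul, Matrix.mul_diagonal] at h2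
    exact h2
  have hcol : ∀ j, ∃ i, J' i j ≠ 0 := by
    intro j
    by_contra hcon
    push Not at hcon
    obtain ⟨U, hU⟩ := hJu
    have h1 : (↑U⁻¹ : Matrix (Fin (finrank K V)) (Fin (finrank K V)) F) * J' = 1 := by
      rw [← hU]
      exact U.inv_mul
    have h2 := congrFun (congrFun h1 j) j
    rw [Matrix.mul_apply, Matrix.one_apply_eq] at h2
    have h3 : ∑ k, (↑U⁻¹ : Matrix (Fin (finrank K V)) (Fin (finrank K V)) F) j k * J' k j = 0 :=
      Finset.sum_eq_zero fun k _ => by rw [hcon k, mul_zero]
    rw [h3] at h2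
    exact zero_ne_one h2
  choose bar hbar using hcol
  have huniq : ∀ i j, J' i j ≠ 0 → i = bar j := by
    intro i j hij
    apply hw.1
    ext a
    obtain ⟨b, hb, hab⟩ := hA.star a a.2
    have h1 := hwJ a ⟨b, hb⟩ hab i j
    have h2 := hwJ a ⟨b, hb⟩ hab (bar j) j
    rw [mul_comm] at h1 h2
    have h3 := mul_left_cancel₀ hij h1
    have h4 := mul_left_cancel₀ (hbar j) h2
    rw [h3, h4]
  have hzero : ∀ i j, i ≠ bar j → J' i j = 0 := fun i j h => by
    by_contra hne
    exact h (huniq i j hne)
  have heps : algebraMap K F ε * algebraMap K F ε = 1 := by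
    rcases hf.eps with h | h <;> simp [h]
  have heps0 : algebraMap K F ε ≠ 0 := by
    intro h
    rw [h, mul_zero] at heps
    exact zero_ne_one heps
  have hinv : ∀ j, bar (bar j) = j := by
    intro j
    have h1 : J' j (bar j) ≠ 0 := by
      rw [hJt (bar j) j]
      exact mul_ne_zero heps0 (hbar j)
    exact (huniq _ _ h1).symm
  set c : Fin (finrank K V) → F := fun j => J' (bar j) j with hc
  have hc0 : ∀ j, c j ≠ 0 := hbar
  have hcbar : ∀ j, c (bar j) = algebraMap K F ε * c j := by
    intro j
    change J' (bar (bar j)) (bar j) = _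
    rw [hinv, hJt (bar j) j]
  have hlam : ∃ lam : Fin (finrank K V) → F, (∀ j, lam j ≠ 0) ∧
      ∀ j, (lam (bar j) * lam j * c j) * (lam (bar j) * lam j * c j) = 1 := by
    have hr : ∀ j, ∃ z : F, z ^ 2 = (c j)⁻¹ := fun j =>
      IsAlgClosed.exists_pow_nat_eq (c j)⁻¹ (by norm_num)
    choose r hr using hr
    have hr0 : ∀ j, r j ≠ 0 := by
      intro j h0
      have := hr j
      rw [h0, zero_pow (by norm_num)] at this
      exact inv_ne_zero (hc0 j) this.symm
    refine ⟨fun j => if bar j = j then r j else if j < bar j then 1 else (c (bar j))⁻¹, ?_, ?_⟩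
    · intro j
      dsimp only
      split_ifs
      · exact hr0 j
      · exact one_ne_zero
      · exact inv_ne_zero (hc0 _)
    · intro j
      dsimp only
      rw [hinv]
      by_cases h1 : bar j = j
      · rw [if_pos h1, if_pos (by rw [h1])]
        have h2 := hr j
        have h3 : r (bar j) * r j * c j = 1 := by
          rw [h1, ← pow_two, h2, inv_mul_cancel₀ (hc0 j)]
        rw [h3, one_mul]
      · have h1' : ¬ j = bar j := fun h => h1 h.symm
        rw [if_neg h1, if_neg h1']
        by_cases h2 : j < bar j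
        · rw [if_pos h2, if_neg (not_lt.mpr h2.le)]
          rw [mul_one, inv_mul_cancel₀ (hc0 j), one_mul]
        · have h3 : bar j < j := lt_of_le_of_ne (not_lt.mp h2) h1
          rw [if_neg h2, if_pos h3, one_mul, hcbar j]
          have h4 : (algebraMap K F ε * c j)⁻¹ * c j = algebraMap K F ε := by
            rw [_root_.mul_inv_rev, mul_assoc, mul_comm (algebraMap K F ε)⁻¹, ← mul_assoc,
              inv_mul_cancel₀ (hc0 j), one_mul]
            exact inv_eq_of_mul_eq_one_right heps
          rw [h4, heps]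
  obtain ⟨lam, hlam0, hlam1⟩ := hlam
  let L : (Matrix (Fin (finrank K V)) (Fin (finrank K V)) F)ˣ :=
    dU (fun i => Units.mk0 (lam i) (hlam0 i))
  have hL : (L : Matrix _ _ F) = diagonal lam := rfl
  have hLi : (↑L⁻¹ : Matrix (Fin (finrank K V)) (Fin (finrank K V)) F) =
      diagonal fun i => (lam i)⁻¹ := by
    ext i j
    change (diagonal fun i => (((Units.mk0 (lam i) (hlam0 i))⁻¹ : Fˣ) : F)) i j = _
    simp
  have hrho : ∀ x i j, R4rho bv (L⁻¹ * P) x i j = (lam i)⁻¹ * R4rho bv P x i j * lam j := by
    intro x i j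
    rw [R5rho_mul, inv_inv, hLi, hL, Matrix.mul_diagonal, Matrix.diagonal_mul]
  set s : Fin (finrank K V) → F := fun j => lam (bar j) * lam j * c j with hs
  have hs2 : ∀ i, s i * s i = 1 := hlam1
  have hs0 : ∀ i, s i ≠ 0 := fun i h => by
    have := hs2 i
    rw [h, mul_zero] at this
    exact zero_ne_one this
  refine ⟨w, R4rho bv (L⁻¹ * P), bar, s, ⟨hw, R4rho_inj bv _, ?_, R4rho_span bv _⟩,
    ⟨hinv, hs2, ?_⟩, ?_, ?_, ?_⟩
  · intro a
    ext i j
    rw [hrho, hd]
    simp only [Matrix.diagonal_apply]
    split_ifs with hij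
    · subst hij
      rw [mul_comm, ← mul_assoc, mul_inv_cancel₀ (hlam0 i), one_mul]
    · rw [mul_zero, zero_mul]
  · intro i
    change lam (bar (bar i)) * lam (bar i) * c (bar i) = _ * (lam (bar i) * lam i * c i)
    rw [hinv, hcbar]
    ring
  · -- at most one fixed point
    intro i j hi hj
    apply hw.1
    obtain ⟨d, hdA, hdd, hdr⟩ := hA.skew
    have hw0 : ∀ k, bar k = k → w k ⟨d, hdA⟩ = 0 := by
      intro k hk
      have h1 := hwJ ⟨d, hdA⟩ (-⟨d, hdA⟩) hdd (bar k) k
      rw [hk, mul_comm] at h1
      have h2 := mul_left_cancel₀ (by have := hbar k; rw [hk] at this; exact this) h1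
      rw [map_neg] at h2
      have h3 : (2 : F) * w k ⟨d, hdA⟩ = 0 := by
        rw [two_mul]
        nth_rewrite 2 [h2]
        rw [add_neg_cancel]
      have h4 : (2 : F) ≠ 0 := by
        intro h
        apply two
        apply (algebraMap K F).injective
        rw [map_ofNat, map_zero]
        exact h
      exact (mul_eq_zero.mp h3).resolve_left h4
    -- the subspace killed by both
    let N : Submodule K V :=
      { carrier := {v | ∃ a : A, (a : Module.End K V) v0 = v ∧ w i a = 0 ∧ w j a = 0}
        add_mem' := by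
          rintro _ _ ⟨a, rfl, h1, h2⟩ ⟨b, rfl, h3, h4⟩
          exact ⟨a + b, by simp, by rw [map_add, h1, h3, add_zero],
            by rw [map_add, h2, h4, add_zero]⟩
        zero_mem' := ⟨0, by simp, map_zero _, map_zero _⟩
        smul_mem' := by
          rintro k _ ⟨a, rfl, h1, h2⟩
          exact ⟨k • a, by simp, by rw [map_smul, h1, smul_zero], by rw [map_smul, h2, smul_zero]⟩ }
    have hN1 : LinearMap.range d ≤ N := by
      rintro _ ⟨v, rfl⟩
      obtain ⟨a, ha, rfl⟩ := hv1 v
      refine ⟨⟨d, hdA⟩ * ⟨a, ha⟩, rfl, ?_, ?_⟩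
      · rw [map_mul, hw0 i hi, zero_mul]
      · rw [map_mul, hw0 j hj, zero_mul]
    have hN2 : v0 ∉ N := by
      rintro ⟨a, ha, h1, -⟩
      have h2 : a = 1 := by
        have h3 : ((a - 1 : A) : Module.End K V) v0 = 0 := by
          change (a : Module.End K V) v0 - (1 : Module.End K V) v0 = 0
          rw [ha, Module.End.one_apply, sub_self]
        have h4 := hv0 _ (a - 1).2 h3
        exact sub_eq_zero.mp (Subtype.ext h4)
      rw [h2, map_one] at h1
      exact one_ne_zero h1
    have hN3 : N ⊔ Submodule.span K {v0} = ⊤ := by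
      have h1 : N < N ⊔ Submodule.span K {v0} := by
        refine lt_of_le_of_ne le_sup_left ?_
        intro h
        apply hN2
        rw [h]
        exact Submodule.mem_sup_right (Submodule.mem_span_singleton_self v0)
      have h2 := Submodule.finrank_lt_finrank_of_lt h1
      have h3 := Submodule.finrank_mono hN1
      apply Submodule.eq_top_of_finrank_eq
      have h4 := Submodule.finrank_le (N ⊔ Submodule.span K {v0})
      omega
    ext a
    have h5 : (a : Module.End K V) v0 ∈ N ⊔ Submodule.span K {v0} := by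
      rw [hN3]
      trivial
    obtain ⟨_, ⟨m, rfl, hm1, hm2⟩, y, hy, hmy⟩ := Submodule.mem_sup.mp h5
    obtain ⟨k, rfl⟩ := Submodule.mem_span_singleton.mp hy
    have h6 : a = m + algebraMap K A k := by
      have h3 : ((a - (m + algebraMap K A k) : A) : Module.End K V) v0 = 0 := by
        change (a : Module.End K V) v0 -
          ((m : Module.End K V) v0 + (algebraMap K (Module.End K V) k) v0) = 0
        rw [← hmy, Module.algebraMap_end_apply, sub_self]
      have h4 := hv0 _ (a - (m + algebraMap K A k)).2 h3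
      exact sub_eq_zero.mp (Subtype.ext h4)
    rw [h6, map_add, map_add, hm1, hm2, AlgHom.commutes, AlgHom.commutes]
  · intro S T hST
    ext i j
    have h1 := congrFun (congrFun (hadj S T hST) (bar i)) j
    rw [Matrix.mul_apply, Matrix.mul_apply] at h1
    simp only [Matrix.transpose_apply] at h1
    rw [Finset.sum_eq_single (bar j), Finset.sum_eq_single i] at h1
    · change R4rho bv (L⁻¹ * P) T i j = s i * s j * R4rho bv (L⁻¹ * P) S (bar j) (bar i)
      rw [hrho, hrho]
      change R4rho bv P S (bar j) (bar i) * c j = c i * R4rho bv P T i j at h1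
      have e1 := hs2 i
      have l1 := hlam0 i
      have l2 := hlam0 j
      have l3 := hlam0 (bar i)
      have l4 := hlam0 (bar j)
      have c1 := hc0 i
      have c2 := hc0 j
      have e2 : R4rho bv P S (bar j) (bar i) = c i * R4rho bv P T i j * (c j)⁻¹ := by
        rw [← h1, mul_assoc, mul_inv_cancel₀ c2, mul_one]
      have e3 : s i * lam (bar i) * c i = (lam i)⁻¹ := by
        have : s i * (lam (bar i) * lam i * c i) = 1 := e1
        field_simp
        linear_combination this
      rw [e2]
      change (lam i)⁻¹ * R4rho bv P T i j * lam j = s i * (lam (bar j) * lam j * c j) *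
        ((lam (bar j))⁻¹ * (c i * R4rho bv P T i j * (c j)⁻¹) * lam (bar i))
      rw [← e3]
      field_simp
    · intro k _ hk
      rw [hzero _ _ (fun h => hk ?_), zero_mul]
      have := congrArg bar h
      rw [hinv, hinv] at this
      exact this.symm
    · intro h
      exact absurd (Finset.mem_univ _) h
    · intro k _ hk
      rw [hzero _ _ hk, mul_zero]
    · intro h
      exact absurd (Finset.mem_univ _) h
  · intro i a b hab
    have h1 := hwJ a b hab (bar i) i
    rw [mul_comm] at h1
    exact mul_left_cancel₀ (hbar i) h1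

end

end Pool.Agent.CTO
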