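import Pool.Agent.CTO.R2
import Pool.Agent.CTO.R3
import Pool.Agent.CTO.R5

/-!
# R6: the three density statements for the tori
-/

namespace Pool.Agent.CTO

open Matrix Module

section R6a

variable {K V : Type} [Field K] [AddCommGroup V] [Module K V]

/-- the commutative ring structure on the algebra of a torus -/
@[reducible] def R6_comm (A : Subalgebra K (Module.End K V)) (hA : IsTorGL A) : CommRing A :=
  { (inferInstance : Ring A) with
    mul_comm := fun a b => Subtype.ext (hA.comm a a.2 b b.2) }

theorem R6_reduced (A : Subalgebra K (Module.End K V)) (hA : IsTorGL A) : IsReduced A := by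
  rw [isReduced_iff_pow_one_lt 2 (by norm_num)]
  intro x hx
  have h1 : (x : Module.End K V) * x = 0 := by
    have := congrArg (Subtype.val) hx
    rw [pow_two] at this
    exact this
  exact Subtype.ext (hA.red x x.2 h1)

variable {σ : K →+* K} {ε : K} {f : V → V → K}

theorem R6_eps (hf : IsHF σ ε f) : ε * σ ε = 1 := by
  rcases hf.eps with h | h <;> rw [h] <;> simp

theorem R6_add_right (hf : IsHF σ ε f) (u v w : V) : f u (v + w) = f u v + f u w := by
  rw [hf.herm (v + w) u, hf.add_left, map_add, mul_add, ← hf.herm, ← hf.herm]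

theorem R6_smul_right (hf : IsHF σ ε f) (a : K) (v w : V) : f v (a • w) = σ a * f v w := by
  rw [hf.herm (a • w) v, hf.smul_left, map_mul, mul_left_comm, ← hf.herm]

theorem R6_zero_right (hf : IsHF σ ε f) (v : V) : f v 0 = 0 := by
  have h := R6_smul_right hf 0 v 0
  simpa using h

theorem R6_nondeg (hf : IsHF σ ε f) (w : V) (h : ∀ v, f v w = 0) : w = 0 := by
  apply hf.nondeg
  intro v
  rw [hf.herm v w, h v, map_zero, mul_zero]

theorem R6_adj_symm (hf : IsHF σ ε f) {S T : Module.End K V} (h : IsAdj f S T) : IsAdj f T S := by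
  intro v w
  rw [hf.herm w (T v), ← h w v, ← hf.herm]

theorem R6_adj_uniq (hf : IsHF σ ε f) {S T T' : Module.End K V} (h : IsAdj f S T)
    (h' : IsAdj f S T') : T = T' := by
  apply LinearMap.ext
  intro w
  rw [← sub_eq_zero]
  apply R6_nondeg hf
  intro v
  have h1 : f v (T w) = f v (T' w) := by rw [← h v w, ← h' v w]
  have h2 := R6_add_right hf v (T w - T' w) (T' w)
  rw [sub_add_cancel] at h2
  rw [h1] at h2
  exact (add_eq_right.mp h2.symm)

theorem R6_adj_add (hf : IsHF σ ε f) {S T S' T' : Module.End K V} (h : IsAdj f S T)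
    (h' : IsAdj f S' T') : IsAdj f (S + S') (T + T') := by
  intro v w
  rw [LinearMap.add_apply, LinearMap.add_apply, hf.add_left, R6_add_right hf, h, h']

theorem R6_adj_mul {S T S' T' : Module.End K V} (h : IsAdj f S T)
    (h' : IsAdj f S' T') : IsAdj f (S * S') (T' * T) := by
  intro v w
  rw [Module.End.mul_apply, Module.End.mul_apply, h, h']

theorem R6_adj_algebraMap (hf : IsHF σ ε f) (k : K) :
    IsAdj f (algebraMap K (Module.End K V) k) (algebraMap K (Module.End K V) (σ k)) := by
  intro v w
  rw [Module.algebraMap_end_apply, Module.algebraMap_end_apply, hf.smul_left,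
    R6_smul_right hf, hf.invol]

theorem R6_adj_one : IsAdj f (1 : Module.End K V) 1 := fun _ _ => rfl

theorem R6_adj_zero (hf : IsHF σ ε f) : IsAdj f (0 : Module.End K V) 0 := by
  intro v w
  rw [LinearMap.zero_apply, LinearMap.zero_apply, R6_zero_right hf]
  have h := hf.smul_left 0 0 w
  simpa using h

/-- the adjoint on the algebra of the torus -/
theorem R6_st (hf : IsHF σ ε f) (A : Subalgebra K (Module.End K V)) (hA : IsTor f A) :
    ∃ st : A →+* A, (∀ a : A, IsAdj f (a : Module.End K V) (st a)) ∧ (∀ a, st (st a) = a) ∧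
      ∀ k : K, st (algebraMap K A k) = algebraMap K A (σ k) := by
  have hex : ∀ a : A, ∃ b : A, IsAdj f (a : Module.End K V) b := by
    intro a
    obtain ⟨b, hb, h⟩ := hA.star a a.2
    exact ⟨⟨b, hb⟩, h⟩
  choose s hs using hex
  have huniq : ∀ (a b : A), IsAdj f (a : Module.End K V) b → s a = b := by
    intro a b h
    exact Subtype.ext (R6_adj_uniq hf (hs a) h)
  refine ⟨{ toFun := s, map_one' := ?_, map_mul' := ?_, map_zero' := ?_, map_add' := ?_ },
    hs, ?_, ?_⟩
  · exact huniq 1 1 R6_adj_one
  · intro a b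
    apply huniq
    have h := R6_adj_mul (hs a) (hs b)
    rw [hA.comm _ (s b).2 _ (s a).2] at h
    exact h
  · exact huniq 0 0 (R6_adj_zero hf)
  · intro a b
    exact huniq _ _ (R6_adj_add hf (hs a) (hs b))
  · intro a
    exact huniq _ _ (R6_adj_symm hf (hs a))
  · intro k
    exact huniq _ _ (R6_adj_algebraMap hf k)

end R6a

section R6b

variable {K V : Type} [Field K] [AddCommGroup V] [Module K V] [FiniteDimensional K V]
  {ε : K} {f : V → V → K}

/-- adjoint endomorphisms have the same determinant -/
theorem R6_det (hf : IsHF (RingHom.id K) ε f) {S T : Module.End K V} (h : IsAdj f S T) :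
    LinearMap.det S = LinearMap.det T := by
  let B : V →ₗ[K] Dual K V :=
    { toFun := fun v =>
        { toFun := fun w => f v w
          map_add' := fun x y => R6_add_right hf v x y
          map_smul' := fun a x => by
            rw [R6_smul_right hf]
            rfl }
      map_add' := fun x y => by
        apply LinearMap.ext
        intro w
        exact hf.add_left x y w
      map_smul' := fun a x => by
        apply LinearMap.ext
        intro w
        exact hf.smul_left a x w }
  have hB : ∀ v w, B v w = f v w := fun _ _ => rfl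
  have hinj : Function.Injective B := by
    rw [injective_iff_map_eq_zero]
    intro v hv
    apply hf.nondeg
    intro w
    rw [← hB, hv]
    rfl
  let e : V ≃ₗ[K] Dual K V := LinearEquiv.ofInjectiveOfFinrankEq B hinj
    (Subspace.dual_finrank_eq).symm
  have he : ∀ v, e v = B v := fun _ => rfl
  have h1 : e.toLinearMap ∘ₗ S ∘ₗ e.symm.toLinearMap = T.dualMap := by
    apply LinearMap.ext
    intro φ
    obtain ⟨v, rfl⟩ := e.surjective φ
    apply LinearMap.ext
    intro w
    simp only [LinearMap.comp_apply, LinearEquiv.coe_coe, LinearEquiv.symm_apply_apply,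
      LinearMap.dualMap_apply]
    rw [he, he, hB, hB]
    exact h v w
  rw [← LinearMap.det_conj S e, h1, LinearMap.det_dualMap]

end R6b

section

variable {K V F : Type} [Field K] [Finite K] [AddCommGroup V] [Module K V] [FiniteDimensional K V]
  [Field F] [Algebra K F] [IsAlgClosed F]

theorem dens_torGL (A : Subalgebra K (Module.End K V)) (hA : IsTorGL A)
    (w : Fin (finrank K V) → (A →ₐ[K] F)) (hw : Function.Bijective w) (D : ℕ)
    (hD : 2 * D + finrank K V < Nat.card K) :
    DensGL D {z : Fin (finrank K V) → Fˣ | ∃ t : A, (∃ g ∈ torGL A, g.toLinearMap = (t : Module.End K V)) ∧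
      ∀ i, (z i : F) = w i (t * t)} := by
  let _ : CommRing A := R6_comm A hA
  have : IsReduced A := R6_reduced A hA
  have h := densGL_alg (A := A) w hw D (by rw [Fintype.card_fin]; exact hD)
  intro p hp hz
  apply h p hp
  rintro z ⟨t, ht⟩
  apply hz
  refine ⟨(t : A), ?_, ht⟩
  have hu : IsUnit ((t : A) : Module.End K V) := by
    have : IsUnit (A.val (t : A)) := t.isUnit.map A.val
    exact this
  exact exists_torGL A _ (t : A).2 hu

/-- the isometry `x * (st x)⁻¹` -/
theorem R6_isom {σ : K →+* K} {ε : K} {f : V → V → K} (hf : IsHF σ ε f)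
    (A : Subalgebra K (Module.End K V)) (hA : IsTor f A)
    (st : A →+* A) (hst : ∀ a : A, IsAdj f (a : Module.End K V) (st a)) (hst2 : ∀ a, st (st a) = a)
    (hdet : (∀ k, σ k = k) → ∀ S T : Module.End K V, IsAdj f S T →
      LinearMap.det S = LinearMap.det T)
    (x y : A) (hxy : x * y = 1) (hyx : y * x = 1) :
    ∃ t : A, (∃ g ∈ tor σ f A, g.toLinearMap = (t : Module.End K V)) ∧ t * st x = x := by
  have hcomm : ∀ a b : A, a * b = b * a := fun a b => Subtype.ext (hA.comm a a.2 b b.2)
  have h1 : st x * st y = 1 := by rw [← map_mul, hxy, map_one]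
  have h2 : st y * st x = 1 := by rw [← map_mul, hyx, map_one]
  -- `t = x * (st y)`, with inverse `st x * y`, which is the adjoint of `t`
  have ht1 : (x * st y) * (st x * y) = 1 := by
    rw [mul_assoc, ← mul_assoc (st y), h2, one_mul, hxy]
  have ht2 : (st x * y) * (x * st y) = 1 := by
    rw [hcomm]
    exact ht1
  have hadj : st (x * st y) = st x * y := by
    rw [map_mul, hst2]
  refine ⟨x * st y, ?_, ?_⟩
  · have hu : IsUnit ((x * st y : A) : Module.End K V) := by
      refine ⟨⟨((x * st y : A) : Module.End K V), ((st x * y : A) : Module.End K V), ?_, ?_⟩, rfl⟩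
      · have := congrArg (Subtype.val) ht1
        exact this
      · have := congrArg (Subtype.val) ht2
        exact this
    obtain ⟨g, hg, hgt⟩ := exists_torGL A _ (x * st y).2 hu
    refine ⟨g, ⟨hg, ?_, ?_⟩, hgt⟩
    · intro v w
      have e1 : ∀ v, g v = ((x * st y : A) : Module.End K V) v := by
        intro v
        rw [← hgt]
        rfl
      rw [e1, e1, hst (x * st y) v, hadj]
      have e2 : ((st x * y : A) : Module.End K V) (((x * st y : A) : Module.End K V) w) = w := by
        have := congrArg (fun a : A => (a : Module.End K V) w) ht2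
        exact this
      rw [e2]
    · intro hσ
      have d1 := hdet hσ _ _ (hst x)
      have d2 : LinearMap.det ((x : A) : Module.End K V) * LinearMap.det ((y : A) : Module.End K V)
          = 1 := by
        rw [← map_mul]
        have := congrArg (fun a : A => LinearMap.det (a : Module.End K V)) hxy
        simpa using this
      have d3 := hdet hσ _ _ (hst y)
      have d4 : LinearMap.det ((x * st y : A) : Module.End K V) = 1 := by
        have : ((x * st y : A) : Module.End K V) = (x : Module.End K V) * (st y : Module.End K V) :=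
          rfl
        rw [this, map_mul, ← d3, d2]
      have d5 : ((LinearEquiv.det g : Kˣ) : K) = 1 := by
        rw [LinearEquiv.coe_det]
        have : (g : V →ₗ[K] V) = ((x * st y : A) : Module.End K V) := hgt
        rw [this, d4]
      exact Units.ext d5
  · rw [mul_assoc, h2, mul_one]

theorem R6_val {A : Subalgebra K (Module.End K V)} (w : A →ₐ[K] F) {t sx x : A} {z : F}
    (htx : t * sx = x) (hne : w sx ≠ 0) (hz : z * w sx ^ 2 = w x ^ 2) : z = w (t * t) := by
  have h1 : w x = w t * w sx := by rw [← map_mul, htx]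
  rw [map_mul]
  have h2 : w sx ^ 2 ≠ 0 := pow_ne_zero 2 hne
  apply mul_right_cancel₀ h2
  rw [hz, h1]
  ring

theorem dens_tor (ε : K) (f : V → V → K) (hf : IsHF (RingHom.id K) ε f)
    (A : Subalgebra K (Module.End K V)) (hA : IsTor f A)
    (w : Fin (finrank K V) → (A →ₐ[K] F)) (hw : Function.Bijective w)
    (bar : Fin (finrank K V) → Fin (finrank K V))
    (hbar : ∀ (i : Fin (finrank K V)) (a b : A), IsAdj f (a : Module.End K V) b → w (bar i) a = w i b)
    (D : ℕ) (hD : 2 * D * finrank K V + finrank K V < Nat.card K) :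
    DensBar D bar {z : Fin (finrank K V) → Fˣ | ∃ t : A,
      (∃ g ∈ tor (RingHom.id K) f A, g.toLinearMap = (t : Module.End K V)) ∧
      ∀ i, (z i : F) = w i (t * t)} := by
  obtain ⟨st, hst, hst2, hst3⟩ := R6_st hf A hA
  let _ : CommRing A := R6_comm A hA.toIsTorGL
  have : IsReduced A := R6_reduced A hA.toIsTorGL
  let st' : A →ₐ[K] A := { st with commutes' := fun k => hst3 k }
  have h := densBar_alg (A := A) w hw st' hst2 bar (fun i a => hbar i a (st a) (hst a)) D
    (by rw [Fintype.card_fin]; exact hD)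
  intro p hp hz
  apply h p hp
  rintro z ⟨x, hx⟩
  apply hz
  obtain ⟨t, ht, htx⟩ := R6_isom hf A hA st hst hst2 (fun _ S T hST => R6_det hf hST) (x : A)
    ((x⁻¹ : Aˣ) : A) (x.mul_inv) (x.inv_mul)
  refine ⟨t, ht, fun i => R6_val (w i) htx ?_ (hx i)⟩
  have h1 : w i (st (x : A)) * w i (st ((x⁻¹ : Aˣ) : A)) = 1 := by
    rw [← map_mul, ← map_mul]
    have h2 : (x : A) * ((x⁻¹ : Aˣ) : A) = 1 := x.mul_inv
    rw [h2, map_one, map_one]
  exact left_ne_zero_of_mul_eq_one h1

theorem dens_torU (σ : K →+* K) (hσ : ∃ k, σ k ≠ k) (ε : K) (f : V → V → K) (hf : IsHF σ ε f)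
    (A : Subalgebra K (Module.End K V)) (hA : IsTor f A)
    (w : Fin (finrank K V) → (A →ₐ[K] F)) (hw : Function.Bijective w) (D : ℕ)
    (hD : 2 * D * finrank K V + 2 * finrank K V < Nat.card {k : K // σ k = k}) :
    DensGL D {z : Fin (finrank K V) → Fˣ | ∃ t : A,
      (∃ g ∈ tor σ f A, g.toLinearMap = (t : Module.End K V)) ∧ ∀ i, (z i : F) = w i (t * t)} := by
  obtain ⟨st, hst, hst2, hst3⟩ := R6_st hf A hA
  let _ : CommRing A := R6_comm A hA.toIsTorGL
  have : IsReduced A := R6_reduced A hA.toIsTorGL
  have h := densU_alg (A := A) w hw σ hf.invol hσ st hst2 hst3 D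
    (by rw [Fintype.card_fin]; exact hD)
  intro p hp hz
  apply h p hp
  rintro z ⟨x, hx⟩
  apply hz
  obtain ⟨t, ht, htx⟩ := R6_isom hf A hA st hst hst2 (fun hall => by
      obtain ⟨k, hk⟩ := hσ
      exact absurd (hall k) hk) (x : A)
    ((x⁻¹ : Aˣ) : A) (x.mul_inv) (x.inv_mul)
  refine ⟨t, ht, fun i => R6_val (w i) htx ?_ (hx i)⟩
  have h1 : w i (st (x : A)) * w i (st ((x⁻¹ : Aˣ) : A)) = 1 := by
    rw [← map_mul, ← map_mul]
    have h2 : (x : A) * ((x⁻¹ : Aˣ) : A) = 1 := x.mul_inv
    rw [h2, map_one, map_one]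
  exact left_ne_zero_of_mul_eq_one h1

end

end Pool.Agent.CTO
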