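import Pool.Agent.CTO.I0
import Pool.Agent.CTO.R6
import Pool.Agent.CTO.M7
import Pool.Agent.CTO.C1

/-!
# I1: the group generated by the squares of two tori has bounded index (linear and unitary case)

`F = AlgebraicClosure K`, `n = dim V`, `Ω = Fin n`; `w`, `ρ` from `exists_rho`. `H = sq T ⊔ sq T'`,
`T' = g T g⁻¹` (`torGL_conj`, `tor_conj`), the image of `H` under `rhoU ρ` is `HT (T0 w T) (rhoU ρ g)`
(`map_HT`), it has the same order as `H` and spans (`span_of_adjoin`).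
* `index_GL`: `D` maximal with `2 D + n < q = |K|` (`q ≥ n + 1`), so `q ≤ 2 D + n + 2 ≤ (n + 4) (D + 1)`.
  `dens_torGL` and `card_GL` give `(D / n² + 1) ^ (n²) ≤ |H|`; as `n² (D / n² + 1) ≥ D + 1`,
  `q ^ (n²) ≤ ((n + 4) n²) ^ (n²) |H|`, and `|GL| ≤ q ^ (n²)` (`card_GL_le`). So the index is at most
  `((n + 4) n²) ^ (n²)`. (`n ≥ 1`; for `n = 0` the group is trivial.)
* `index_U`: `D` maximal with `2 D n + 2 n < Q0 = |{k | σ k = k}|`, so `Q0 ≤ 2 (D + 1) n + 2 n ≤ 4 n (D + 1)`;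
  `dens_torU`, `card_GL`, `card_U_le`: the relative index is at most `2 ^ n (4 n n²) ^ (n²)`.
`H ≤ Isom f` because `T`, `T'` consist of isometries; `H.relIndex (Isom f) * |H| = |Isom f|`.
-/

namespace Pool.Agent.CTO

open Module

lemma I1_arith (q c D m h i t : ℕ) (hm : 0 < m) (hq : q ≤ c * (D + 1)) (hh : (D / m + 1) ^ m ≤ h)
    (hi : i * h ≤ t * q ^ m) (hpos : 0 < h) : i ≤ t * (c * m) ^ m := by
  have h1 : D + 1 ≤ m * (D / m + 1) := Nat.lt_mul_div_succ D hm
  have h2 : q ≤ c * m * (D / m + 1) := by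
    rw [mul_assoc]
    exact hq.trans (Nat.mul_le_mul_left c h1)
  have h3 : q ^ m ≤ (c * m) ^ m * h := by
    calc q ^ m ≤ (c * m * (D / m + 1)) ^ m := Nat.pow_le_pow_left h2 m
      _ = (c * m) ^ m * (D / m + 1) ^ m := mul_pow _ _ _
      _ ≤ (c * m) ^ m * h := Nat.mul_le_mul_left _ hh
  have h4 : i * h ≤ t * (c * m) ^ m * h := by
    rw [mul_assoc]
    exact hi.trans (Nat.mul_le_mul_left t h3)
  exact Nat.le_of_mul_le_mul_right h4 hpos

lemma I1_card_map {G G' : Type} [Group G] [Group G'] (H : Subgroup G) (φ : G →* G')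
    (hφ : Function.Injective φ) : Nat.card (H.map φ) = Nat.card H :=
  (Nat.card_congr (H.equivMapOfInjective φ hφ).toEquiv).symm

lemma I1_finite (K V : Type) [Field K] [Finite K] [AddCommGroup V] [Module K V]
    [FiniteDimensional K V] : Finite (V ≃ₗ[K] V) := by
  have hV : Finite V := Module.finite_of_finite K
  exact Finite.of_injective (fun e : V ≃ₗ[K] V => (e : V → V)) DFunLike.coe_injective

lemma I1_subsingleton (K V : Type) [Field K] [AddCommGroup V] [Module K V]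
    [FiniteDimensional K V] (h : finrank K V = 0) : Subsingleton (V ≃ₗ[K] V) := by
  have hV : Subsingleton V := Module.finrank_zero_iff.1 h
  exact ⟨fun a b => LinearEquiv.ext fun v => Subsingleton.elim _ _⟩

lemma I1_sq_le {G : Type} [Group G] (T : Subgroup G) : sq T ≤ T := by
  unfold sq
  rw [Subgroup.closure_le]
  rintro x ⟨t, ht, rfl⟩
  exact T.mul_mem ht ht

theorem index_GL (n : ℕ) : ∃ k q0 : ℕ, ∀ (K V : Type) [Field K] [Finite K] [AddCommGroup V]
    [Module K V] [FiniteDimensional K V] (A A' : Subalgebra K (Module.End K V)) (g : V ≃ₗ[K] V),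
    finrank K V = n → q0 ≤ Nat.card K → IsTorGL A → IsTorGL A' → CarriesTo g A A' →
    Algebra.adjoin K (EndSet (sq (torGL A) ⊔ sq (torGL A'))) = ⊤ →
    (sq (torGL A) ⊔ sq (torGL A')).index ≤ k := by
  refine ⟨1 * ((n + 4) * n ^ 2) ^ (n ^ 2), n + 1, ?_⟩
  intro K V _ _ _ _ _ A A' g hn hq hA hA' hg had
  have hfin := I1_finite K V
  by_cases hn0 : n = 0
  · have hss := I1_subsingleton K V (hn.trans hn0)
    rw [Subsingleton.elim (sq (torGL A) ⊔ sq (torGL A')) ⊤, Subgroup.index_top, hn0]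
    norm_num
  have hconj := torGL_conj A A' hA hA' g hg
  obtain ⟨w, ρ, hρ⟩ := exists_rho (F := AlgebraicClosure K) A hA
  obtain ⟨H, hH⟩ : ∃ H, H = sq (torGL A) ⊔ sq (torGL A') := ⟨_, rfl⟩
  have hmap : H.map (rhoU ρ) = HT (T0 w (torGL A)) (rhoU ρ g) := by
    rw [hH, ← hconj]
    exact map_HT A w ρ hρ.diag (torGL A) le_rfl g
  have hinj := rhoU_inj ρ hρ.inj
  have hspan : SpanTop (HT (T0 w (torGL A)) (rhoU ρ g)) := by
    rw [← hmap]
    exact span_of_adjoin ρ hρ.span H (by rw [hH]; exact had)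
  have hfinH : Finite (HT (T0 w (torGL A)) (rhoU ρ g)) := by
    rw [← hmap]
    exact Finite.of_equiv H (H.equivMapOfInjective (rhoU ρ) hinj).toEquiv
  have hcard : Nat.card (HT (T0 w (torGL A)) (rhoU ρ g)) = Nat.card H := by
    rw [← hmap]
    exact I1_card_map H (rhoU ρ) hinj
  obtain ⟨D, hD⟩ : ∃ D, D = (Nat.card K - n - 1) / 2 := ⟨_, rfl⟩
  have hD1 : 2 * D + finrank K V < Nat.card K := by omega
  have hD2 : Nat.card K ≤ (n + 4) * (D + 1) := by
    have : Nat.card K ≤ 2 * D + n + 2 := by omega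
    nlinarith
  have hne : Nonempty (Fin (finrank K V)) := ⟨⟨0, by omega⟩⟩
  have hinf : Infinite (AlgebraicClosure K) := inferInstance
  have hdens : DensGL D (T0 w (torGL A)) := dens_torGL A hA w hρ.bij D hD1
  have hle := card_GL D (T0 w (torGL A)) (rhoU ρ g) hdens hspan
  rw [hcard, Fintype.card_fin, hn] at hle
  have hHfin : Finite H := inferInstance
  rw [← hH]
  refine I1_arith (Nat.card K) (n + 4) D (n ^ 2) (Nat.card H) _ 1
    (by positivity) hD2 hle ?_ Nat.card_pos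
  rw [one_mul, Subgroup.index_mul_card]
  have := card_GL_le (K := K) (V := V)
  rwa [hn] at this

theorem index_U (n : ℕ) : ∃ k q0 : ℕ, ∀ (K V : Type) [Field K] [Finite K] [AddCommGroup V]
    [Module K V] [FiniteDimensional K V] (σ : K →+* K) (ε : K) (f : V → V → K)
    (A A' : Subalgebra K (Module.End K V)) (g : V ≃ₗ[K] V),
    finrank K V = n → q0 ≤ Nat.card {k : K // σ k = k} → (∃ k, σ k ≠ k) → (2 : K) ≠ 0 → IsHF σ ε f →
    IsTor f A → IsTor f A' → g ∈ Isom f → CarriesTo g A A' →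
    Algebra.adjoin K (EndSet (sq (tor σ f A) ⊔ sq (tor σ f A'))) = ⊤ →
    (sq (tor σ f A) ⊔ sq (tor σ f A')).relIndex (Isom f) ≤ k := by
  refine ⟨2 ^ n * ((4 * n) * n ^ 2) ^ (n ^ 2), 2 * n + 1, ?_⟩
  intro K V _ _ _ _ _ σ ε f A A' g hn hq hσ two hf hA hA' hgf hg had
  have hfin := I1_finite K V
  by_cases hn0 : n = 0
  · have hss := I1_subsingleton K V (hn.trans hn0)
    have hss' : Subsingleton (Subgroup (V ≃ₗ[K] V)) := inferInstance
    rw [Subsingleton.elim (sq (tor σ f A) ⊔ sq (tor σ f A')) (Isom f), Subgroup.relIndex_self, hn0]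
    norm_num
  have hconj := tor_conj σ f A A' hA.toIsTorGL hA'.toIsTorGL g hg hgf
  obtain ⟨w, ρ, hρ⟩ := exists_rho (F := AlgebraicClosure K) A hA.toIsTorGL
  obtain ⟨H, hH⟩ : ∃ H, H = sq (tor σ f A) ⊔ sq (tor σ f A') := ⟨_, rfl⟩
  have htor : ∀ B : Subalgebra K (Module.End K V), tor σ f B ≤ torGL B := fun B x hx => hx.1
  have htor' : ∀ B : Subalgebra K (Module.End K V), tor σ f B ≤ Isom f := fun B x hx => hx.2.1
  have hmap : H.map (rhoU ρ) = HT (T0 w (tor σ f A)) (rhoU ρ g) := by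
    rw [hH, ← hconj]
    exact map_HT A w ρ hρ.diag (tor σ f A) (htor A) g
  have hinj := rhoU_inj ρ hρ.inj
  have hspan : SpanTop (HT (T0 w (tor σ f A)) (rhoU ρ g)) := by
    rw [← hmap]
    exact span_of_adjoin ρ hρ.span H (by rw [hH]; exact had)
  have hfinH : Finite (HT (T0 w (tor σ f A)) (rhoU ρ g)) := by
    rw [← hmap]
    exact Finite.of_equiv H (H.equivMapOfInjective (rhoU ρ) hinj).toEquiv
  have hcard : Nat.card (HT (T0 w (tor σ f A)) (rhoU ρ g)) = Nat.card H := by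
    rw [← hmap]
    exact I1_card_map H (rhoU ρ) hinj
  obtain ⟨Q0, hQ0⟩ : ∃ Q0, Q0 = Nat.card {k : K // σ k = k} := ⟨_, rfl⟩
  rw [← hQ0] at hq
  obtain ⟨D, hD⟩ : ∃ D, D = (Q0 - 2 * n - 1) / (2 * n) := ⟨_, rfl⟩
  have hnpos : 0 < n := Nat.pos_of_ne_zero hn0
  have hD1' : 2 * n * D ≤ Q0 - 2 * n - 1 := by
    rw [hD]
    exact Nat.mul_div_le _ _
  have hD3' : Q0 - 2 * n - 1 < 2 * n * (D + 1) := by
    rw [hD]
    exact Nat.lt_mul_div_succ _ (by omega)
  have hD1 : 2 * D * finrank K V + 2 * finrank K V < Nat.card {k : K // σ k = k} := by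
    rw [hn, ← hQ0]
    have : 2 * D * n = 2 * n * D := by ring
    omega
  have hD2 : Q0 ≤ (4 * n) * (D + 1) := by
    have h1 : Q0 ≤ 2 * n * (D + 1) + 2 * n := by omega
    nlinarith
  have hne : Nonempty (Fin (finrank K V)) := ⟨⟨0, by omega⟩⟩
  have hinf : Infinite (AlgebraicClosure K) := inferInstance
  have hdens : DensGL D (T0 w (tor σ f A)) := dens_torU σ hσ ε f hf A hA w hρ.bij D hD1
  have hle := card_GL D (T0 w (tor σ f A)) (rhoU ρ g) hdens hspan
  rw [hcard, Fintype.card_fin, hn] at hle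
  have hHfin : Finite H := inferInstance
  have hHle : H ≤ Isom f := by
    rw [hH]
    exact sup_le ((I1_sq_le _).trans (htor' A)) ((I1_sq_le _).trans (htor' A'))
  rw [← hH]
  refine I1_arith Q0 (4 * n) D (n ^ 2) (Nat.card H) _ (2 ^ n)
    (by positivity) hD2 hle ?_ Nat.card_pos
  have h1 : H.relIndex (Isom f) * Nat.card H = Nat.card (Isom f) := by
    have h2 := Subgroup.index_mul_card (H.subgroupOf (Isom f))
    rw [Nat.card_congr (Subgroup.subgroupOfEquivOfLe hHle).toEquiv] at h2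
    exact h2
  rw [h1, hQ0]
  have := card_U_le σ hσ ε f hf two
  rwa [hn] at this

end Pool.Agent.CTO
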