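import Pool.Agent.CTO.Mat0

/-!
# M8: the dimension of `skewM`

The map `X ↦ Y`, `Y i j = s j * X i (bar j)`, is a linear isomorphism of matrices, and `X ∈ skewM` iff
`Y i j = - ε * Y j i` for all `i, j` (replace `j` by `bar j` in the definition, and use
`s (bar j) = ε * s j`, `s j * s j = 1`, `ε * ε = 1`). For `ε = -1` these are the symmetric matrices: the
functions on `{(i, j) | i ≤ j}` (choose a linear order on `Ω`, e.g. through
`Ω ≃ Fin (card Ω)`) embed linearly; for `ε = 1` the skew symmetric matrices with zero diagonal: the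
functions on `{(i, j) | i < j}` embed.
-/

namespace Pool.Agent.CTO

open Matrix

variable {F Ω : Type} [Field F] [Fintype Ω] [DecidableEq Ω]

/-- the matrix given by a function `Y` -/
def M8_mat (bar : Ω → Ω) (s : Ω → F) (Y : Ω → Ω → F) : Matrix Ω Ω F :=
  of fun i j => s (bar j) * Y i (bar j)

theorem M8_mem (bar : Ω → Ω) (s : Ω → F) (ε : F) (hb : BarF bar s ε) (Y : Ω → Ω → F)
    (hY : ∀ i j, Y i j = -ε * Y j i) (hε : ε * ε = 1) : M8_mat bar s Y ∈ skewM bar s := by
  rw [mem_skewM]
  intro i j
  simp only [M8_mat, of_apply]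
  rw [hb.invol, hb.seps]
  rw [hY (bar j) i]
  have h1 := hb.s2 i
  linear_combination (-ε * s j * Y i (bar j)) * h1

theorem M8_inj (bar : Ω → Ω) (s : Ω → F) (ε : F) (hb : BarF bar s ε) (Y : Ω → Ω → F)
    (h : M8_mat bar s Y = 0) (i j : Ω) : Y i j = 0 := by
  have h1 := congrFun (congrFun h i) (bar j)
  simp only [M8_mat, of_apply, Matrix.zero_apply, hb.invol] at h1
  have h2 := hb.s2 j
  calc Y i j = (s j * s j) * Y i j := by rw [h2, one_mul]
    _ = s j * (s j * Y i j) := by ring
    _ = 0 := by rw [h1, mul_zero]

theorem finrank_skewM_neg (bar : Ω → Ω) (s : Ω → F) (hb : BarF bar s (-1)) :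
    Fintype.card Ω * (Fintype.card Ω + 1) / 2 ≤ Module.finrank F (skewM bar s) := by
  classical
  let L : (Sym2 Ω → F) →ₗ[F] skewM bar s :=
    { toFun := fun f => ⟨M8_mat bar s (fun i j => f s(i, j)),
        M8_mem bar s (-1) hb _ (fun i j => by rw [Sym2.eq_swap]; ring) (by ring)⟩
      map_add' := fun f g => by
        apply Subtype.ext
        ext i j
        simp [M8_mat, mul_add]
      map_smul' := fun c f => by
        apply Subtype.ext
        ext i j
        simp only [M8_mat, of_apply, Pi.smul_apply, smul_eq_mul, RingHom.id_apply,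
          Submodule.coe_smul, Matrix.smul_apply]
        ring }
  have hL : Function.Injective L := by
    rw [← LinearMap.ker_eq_bot, LinearMap.ker_eq_bot']
    intro f hf
    have h1 : M8_mat bar s (fun i j => f s(i, j)) = 0 := congrArg Subtype.val hf
    funext a
    induction a using Sym2.ind with
    | _ i j => exact M8_inj bar s (-1) hb _ h1 i j
  have h := LinearMap.finrank_le_finrank_of_injective hL
  rw [Module.finrank_fintype_fun_eq_card, Sym2.card, Nat.choose_two_right, Nat.add_sub_cancel,
    Nat.mul_comm] at h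
  exact h

theorem finrank_skewM_pos (bar : Ω → Ω) (s : Ω → F) (hb : BarF bar s 1) :
    Fintype.card Ω * (Fintype.card Ω - 1) / 2 ≤ Module.finrank F (skewM bar s) := by
  classical
  let e := Fintype.equivFin Ω
  let sg : Ω → Ω → F := fun i j => if e i < e j then 1 else -1
  have sg2 : ∀ i j, sg i j * sg i j = 1 := by
    intro i j
    simp only [sg]
    split_ifs <;> ring
  have sgn : ∀ i j, i ≠ j → sg i j = - sg j i := by
    intro i j hij
    have h1 : e i ≠ e j := fun h => hij (e.injective h)
    simp only [sg]
    rcases lt_or_gt_of_ne h1 with h | h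
    · rw [if_pos h, if_neg (not_lt.2 h.le), neg_neg]
    · rw [if_pos h, if_neg (not_lt.2 h.le)]
  let gg : ({a : Sym2 Ω // ¬ a.IsDiag} → F) → Sym2 Ω → F := fun f a =>
    if h : ¬ a.IsDiag then f ⟨a, h⟩ else 0
  have hY : ∀ f : {a : Sym2 Ω // ¬ a.IsDiag} → F, ∀ i j,
      sg i j * gg f s(i, j) = -(1 : F) * (sg j i * gg f s(j, i)) := by
    intro f i j
    by_cases hij : i = j
    · subst hij
      have : gg f s(i, i) = 0 := by
        simp [gg]
      rw [this]
      ring
    · rw [sgn i j hij, Sym2.eq_swap]
      ring
  let L : ({a : Sym2 Ω // ¬ a.IsDiag} → F) →ₗ[F] skewM bar s :=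
    { toFun := fun f => ⟨M8_mat bar s (fun i j => sg i j * gg f s(i, j)),
        M8_mem bar s 1 hb _ (hY f) (by ring)⟩
      map_add' := fun f g => by
        apply Subtype.ext
        ext i j
        simp only [M8_mat, of_apply, Submodule.coe_add, Matrix.add_apply]
        have : gg (f + g) s(i, bar j) = gg f s(i, bar j) + gg g s(i, bar j) := by
          simp only [gg]
          split_ifs <;> simp
        rw [this]
        ring
      map_smul' := fun c f => by
        apply Subtype.ext
        ext i j
        simp only [M8_mat, of_apply, RingHom.id_apply, Submodule.coe_smul, Matrix.smul_apply,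
          smul_eq_mul]
        have : gg (c • f) s(i, bar j) = c * gg f s(i, bar j) := by
          simp only [gg]
          split_ifs <;> simp
        rw [this]
        ring }
  have hL : Function.Injective L := by
    rw [← LinearMap.ker_eq_bot, LinearMap.ker_eq_bot']
    intro f hf
    have h1 : M8_mat bar s (fun i j => sg i j * gg f s(i, j)) = 0 := congrArg Subtype.val hf
    funext a
    obtain ⟨a, ha⟩ := a
    induction a using Sym2.ind with
    | _ i j =>
      have h2 := M8_inj bar s 1 hb _ h1 i j
      have h3 : gg f s(i, j) = f ⟨s(i, j), ha⟩ := by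
        simp only [gg]
        rw [dif_pos ha]
      rw [h3] at h2
      have h4 := sg2 i j
      calc f ⟨s(i, j), ha⟩ = (sg i j * sg i j) * f ⟨s(i, j), ha⟩ := by rw [h4, one_mul]
        _ = sg i j * (sg i j * f ⟨s(i, j), ha⟩) := by ring
        _ = 0 := by rw [h2, mul_zero]
  have h := LinearMap.finrank_le_finrank_of_injective hL
  rw [Module.finrank_fintype_fun_eq_card, Sym2.card_subtype_not_diag, Nat.choose_two_right] at h
  exact h

end Pool.Agent.CTO
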