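import Pool.Agent.CTO.Mat0

/-!
# M9: weights for the torus `barT bar`

Let `L` be a subspace of the matrices stable under conjugation by `dU z`, `z ∈ barT bar`; if `X ∈ L` is
skew and `X i j ≠ 0`, `i ≠ j`, then `E_ij - starM (E_ij) ∈ L`.
Here `starM (E_ij) = s i * s j * E_(bar j)(bar i)` (up to the convention, compute), so
`Z = X i j • (E_ij - starM E_ij)` is the part of `X` at the two places `(i, j)`, `(bar j, bar i)` (if
these places coincide, i.e. `j = bar i`, then `X i j ≠ 0` forces `s i * s (bar i) = -1`, and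
`E_ij - starM E_ij = 2 E_ij`; here `(2 : F) ≠ 0` is used).
Proof of the isolation: choose integers `n : Ω → ℤ` with `n (bar k) = - n k` such that for `k ≠ l`,
`n k - n l = n i' - n j'` (with `i' ≠ j'`) only if `(k, l) = (i', j')` or `(k, l) = (bar j', bar i')`:
enumerate the pairs `{k, bar k}`, `k ≠ bar k`, as the `r`-th pair (`r = 0, 1, ...`), put
`n k = 5 ^ (r + 1)`, `n (bar k) = - 5 ^ (r + 1)`, and `n k = 0` if `bar k = k` (there is at most one such
`k`): the value `n k + n (bar l)` determines the unordered pair `{k, bar l}` unless it is `0`, and it is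
`0` only if `k = l`. For `t ≠ 0` let `z_t = (t ^ n k)_k ∈ barT bar`; conjugation by `dU z_t` multiplies
the entry `(k, l)` by `t ^ (n k - n l)`. So `∑_w t ^ w X_w ∈ L` for all `t ≠ 0`, where `X_w` is the part
of `X` at the places with `n k - n l = w`; as `F` is infinite, each `X_w ∈ L` (a Vandermonde argument;
or: apply a linear functional vanishing on `L` and use that a Laurent polynomial vanishing at all
`t ≠ 0` is zero; `Submodule.mem_of_dual...`/`Submodule.exists_le_ker...`).
Alternative: iterate the elementary isolation of the exponents for the one parameter groups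
`λ_a(t) = (t at a, t⁻¹ at bar a)`, for all `a`.
-/

namespace Pool.Agent.CTO

open Matrix

variable {F Ω : Type} [Field F] [Fintype Ω] [DecidableEq Ω]

omit [DecidableEq Ω] in
/-- projection to the places with a given eigenvalue -/
theorem M9_step (L : Submodule F (Matrix Ω Ω F)) (c : Matrix Ω Ω F → Matrix Ω Ω F)
    (hcL : ∀ Y ∈ L, c Y ∈ L) (χ : Ω → Ω → F) (hc : ∀ Y k l, c Y k l = χ k l * Y k l) (v : F)
    (Y : Matrix Ω Ω F) (hY : Y ∈ L) :
    ∃ Y' ∈ L, ∀ k l, Y' k l = (Set.indicator {p : Ω × Ω | χ p.1 p.2 = v}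
      (fun p => Y p.1 p.2)) (k, l) := by
  classical
  have claim : ∀ U : Finset F, v ∉ U → ∃ Y' ∈ L, ∀ k l,
      Y' k l = (∏ u ∈ U, (χ k l - u) / (v - u)) * Y k l := by
    intro U
    induction U using Finset.induction_on with
    | empty =>
      intro _
      exact ⟨Y, hY, fun k l => by rw [Finset.prod_empty, one_mul]⟩
    | insert a U ha ih =>
      intro hv
      rw [Finset.mem_insert, not_or] at hv
      obtain ⟨Y', hY', h⟩ := ih hv.2
      refine ⟨(v - a)⁻¹ • (c Y' - a • Y'), L.smul_mem _ (L.sub_mem (hcL _ hY')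
        (L.smul_mem _ hY')), fun k l => ?_⟩
      rw [Matrix.smul_apply, Matrix.sub_apply, Matrix.smul_apply, hc, h,
        Finset.prod_insert ha, smul_eq_mul, smul_eq_mul]
      ring
  obtain ⟨Y', hY', h⟩ := claim ((Finset.univ.image (fun p : Ω × Ω => χ p.1 p.2)).erase v)
    (Finset.notMem_erase _ _)
  refine ⟨Y', hY', fun k l => ?_⟩
  rw [h]
  by_cases hv : χ k l = v
  · rw [Set.indicator_of_mem (s := {p : Ω × Ω | χ p.1 p.2 = v}) hv, Finset.prod_eq_one, one_mul]
    intro u hu
    rw [hv]
    have h1 : u ≠ v := Finset.ne_of_mem_erase hu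
    exact div_self (sub_ne_zero.2 h1.symm)
  · rw [Set.indicator_of_notMem (s := {p : Ω × Ω | χ p.1 p.2 = v}) hv, Finset.prod_eq_zero
      (i := χ k l), zero_mul]
    · exact Finset.mem_erase.2 ⟨hv, Finset.mem_image.2 ⟨(k, l), Finset.mem_univ _, rfl⟩⟩
    · rw [sub_self, zero_div]

/-- the weights -/
def M9_d (bar : Ω → Ω) (a k : Ω) : ℤ := (if k = a then 1 else 0) - (if k = bar a then 1 else 0)

omit [Fintype Ω] in
theorem M9_d_bar {bar : Ω → Ω} (hb : ∀ i, bar (bar i) = i) (a k : Ω) :
    M9_d bar a (bar k) = - M9_d bar a k := by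
  unfold M9_d
  have h1 : (bar k = a) ↔ (k = bar a) :=
    ⟨fun h => by rw [← h, hb], fun h => by rw [h, hb]⟩
  have h2 : (bar k = bar a) ↔ (k = a) :=
    ⟨fun h => by rw [← hb k, h, hb], fun h => by rw [h]⟩
  simp only [h1, h2]
  ring

omit [Fintype Ω] in
theorem M9_d_inj {bar : Ω → Ω} (hb : ∀ i, bar (bar i) = i)
    (hfix : ∀ i j, bar i = i → bar j = j → i = j) {k l : Ω}
    (h : ∀ a, M9_d bar a k = M9_d bar a l) : k = l := by
  by_cases hl : bar l = l
  · have h1 : ∀ a, M9_d bar a l = 0 := by
      intro a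
      have h2 := M9_d_bar hb a l
      rw [hl] at h2
      omega
    have h3 := h k
    rw [h1] at h3
    by_cases hk : bar k = k
    · exact hfix k l hk hl
    · exfalso
      have hk' : ¬ (k = bar k) := fun h => hk h.symm
      simp [M9_d, hk'] at h3
  · have h3 := h l
    have hl' : ¬ (l = bar l) := fun h => hl h.symm
    unfold M9_d at h3
    by_contra hkl
    rw [if_neg hkl, if_pos rfl, if_neg hl'] at h3
    split_ifs at h3 <;> omega

omit [Fintype Ω] in
theorem M9_comb {bar : Ω → Ω} (hb : ∀ i, bar (bar i) = i)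
    (hfix : ∀ i j, bar i = i → bar j = j → i = j) {i j k l : Ω} (hij : i ≠ j)
    (h : ∀ a, M9_d bar a k - M9_d bar a l = M9_d bar a i - M9_d bar a j) :
    (k = i ∧ l = j) ∨ (k = bar j ∧ l = bar i) := by
  by_cases hi : bar i = i
  · have hi0 : ∀ a, M9_d bar a i = 0 := by
      intro a
      have h2 := M9_d_bar hb a i
      rw [hi] at h2
      omega
    have hj : ¬ (bar j = j) := fun h => hij (hfix i j hi h)
    have hj' : ¬ (j = bar j) := fun h => hj h.symm
    have h1 := h j
    rw [hi0] at h1
    have h2 : M9_d bar j j = 1 := by simp [M9_d, hj']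
    rw [h2] at h1
    have h3 : k = bar j ∨ l = j := by
      by_contra h4
      rw [not_or] at h4
      unfold M9_d at h1
      rw [if_neg h4.1, if_neg h4.2] at h1
      split_ifs at h1 <;> omega
    rcases h3 with h3 | h3
    · right
      refine ⟨h3, M9_d_inj hb hfix fun a => ?_⟩
      have h4 := h a
      rw [h3, M9_d_bar hb, hi0] at h4
      rw [M9_d_bar hb, hi0]
      omega
    · left
      refine ⟨M9_d_inj hb hfix fun a => ?_, h3⟩
      have h4 := h a
      rw [h3] at h4
      omega
  · have hi' : ¬ (i = bar i) := fun h => hi h.symm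
    have h1 := h i
    have h2 : M9_d bar i i = 1 := by simp [M9_d, hi']
    rw [h2] at h1
    have h3 : k = i ∨ l = bar i := by
      by_contra h4
      rw [not_or] at h4
      have hji : ¬ (j = i) := fun h => hij h.symm
      unfold M9_d at h1
      rw [if_neg h4.1, if_neg h4.2, if_neg hji] at h1
      split_ifs at h1 <;> omega
    rcases h3 with h3 | h3
    · left
      refine ⟨h3, M9_d_inj hb hfix fun a => ?_⟩
      have h4 := h a
      rw [h3] at h4
      omega
    · right
      refine ⟨M9_d_inj hb hfix fun a => ?_, h3⟩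
      have h4 := h a
      rw [h3, M9_d_bar hb] at h4
      rw [M9_d_bar hb]
      omega

theorem M9_unit (F : Type) [Field F] [Infinite F] : ∃ u : Fˣ, ∀ w w' : ℤ, (w - w').natAbs ≤ 4 →
    (u : F) ^ w = (u : F) ^ w' → w = w' := by
  classical
  have hp : (Polynomial.X ^ 13 - Polynomial.X : Polynomial F) ≠ 0 := by
    intro h
    have h1 := congrArg (fun p : Polynomial F => p.coeff 13) h
    simp [Polynomial.coeff_X] at h1
  obtain ⟨t, ht⟩ := Infinite.exists_notMem_finset
    ((Polynomial.X ^ 13 - Polynomial.X : Polynomial F).roots.toFinset)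
  rw [Multiset.mem_toFinset, Polynomial.mem_roots hp, Polynomial.IsRoot.def] at ht
  simp only [Polynomial.eval_sub, Polynomial.eval_pow, Polynomial.eval_X] at ht
  have ht0 : t ≠ 0 := by
    rintro rfl
    exact ht (by norm_num)
  have ht12 : t ^ 12 ≠ 1 := by
    intro h
    exact ht (by rw [pow_succ, h, one_mul, sub_self])
  refine ⟨Units.mk0 t ht0, fun w w' hw h => ?_⟩
  rw [Units.val_mk0] at h
  have h1 : t ^ (w - w') = 1 := by
    rw [zpow_sub₀ ht0, h, div_self (zpow_ne_zero _ ht0)]
  have h2 : t ^ (w - w').natAbs = 1 := by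
    rcases Int.natAbs_eq (w - w') with h3 | h3
    · rw [h3, zpow_natCast] at h1
      exact h1
    · rw [h3, _root_.zpow_neg, inv_eq_one, zpow_natCast] at h1
      exact h1
  by_contra hne
  have h4 : (w - w').natAbs = 1 ∨ (w - w').natAbs = 2 ∨ (w - w').natAbs = 3 ∨
      (w - w').natAbs = 4 := by omega
  apply ht12
  rcases h4 with h4 | h4 | h4 | h4 <;> rw [h4] at h2
  · rw [pow_one] at h2
    rw [h2, one_pow]
  · rw [show 12 = 2 * 6 from rfl, pow_mul, h2, one_pow]
  · rw [show 12 = 3 * 4 from rfl, pow_mul, h2, one_pow]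
  · rw [show 12 = 4 * 3 from rfl, pow_mul, h2, one_pow]

theorem weight_bar [Infinite F] (two : (2 : F) ≠ 0) (ε : F) (bar : Ω → Ω) (s : Ω → F)
    (hb : BarF bar s ε)
    (hfix : ∀ i j, bar i = i → bar j = j → i = j) (L : Submodule F (Matrix Ω Ω F))
    (hL : ∀ z ∈ (barT bar : Set (Ω → Fˣ)), ∀ X ∈ L,
      ((dU z : (Matrix Ω Ω F)ˣ) : Matrix Ω Ω F) * X * (((dU z)⁻¹ : (Matrix Ω Ω F)ˣ) : Matrix Ω Ω F) ∈ L)
    (X : Matrix Ω Ω F) (hX : X ∈ L) (hsk : X ∈ skewM bar s) (i j : Ω) (hij : i ≠ j)
    (hne : X i j ≠ 0) :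
    Matrix.single i j (1 : F) - starM bar s (Matrix.single i j (1 : F)) ∈ L := by
  classical
  obtain ⟨u, hu⟩ := M9_unit F
  have hu0 : (u : F) ≠ 0 := u.ne_zero
  -- the one parameter groups
  have hz : ∀ a, (fun k => u ^ M9_d bar a k : Ω → Fˣ) ∈ (barT bar : Set (Ω → Fˣ)) := by
    intro a k
    refine ⟨?_, fun hk => ?_⟩
    · show u ^ M9_d bar a k * u ^ M9_d bar a (bar k) = 1
      rw [M9_d_bar hb.invol, ← _root_.zpow_add, add_neg_cancel, zpow_zero]
    · have h1 := M9_d_bar hb.invol a k
      rw [hk] at h1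
      have h2 : M9_d bar a k = 0 := by omega
      show u ^ M9_d bar a k = 1
      rw [h2, zpow_zero]
  have hd1 : ∀ a k, (M9_d bar a k).natAbs ≤ 1 := by
    intro a k
    unfold M9_d
    split_ifs <;> simp
  have key : ∀ A : Finset Ω, ∃ Y ∈ L, ∀ k l, Y k l = (Set.indicator {p : Ω × Ω | ∀ a ∈ A,
      M9_d bar a p.1 - M9_d bar a p.2 = M9_d bar a i - M9_d bar a j}
      (fun p => X p.1 p.2)) (k, l) := by
    intro A
    induction A using Finset.induction_on with
    | empty =>
      refine ⟨X, hX, fun k l => ?_⟩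
      rw [Set.indicator_of_mem]
      intro a ha
      exact absurd ha (Finset.notMem_empty a)
    | insert a A _ ih =>
      obtain ⟨Y, hY, h⟩ := ih
      obtain ⟨Y', hY', h'⟩ := M9_step L
        (fun Y => ((dU (fun k => u ^ M9_d bar a k) : (Matrix Ω Ω F)ˣ) : Matrix Ω Ω F) * Y *
          (((dU (fun k => u ^ M9_d bar a k))⁻¹ : (Matrix Ω Ω F)ˣ) : Matrix Ω Ω F))
        (fun Y hY => hL _ (hz a) Y hY)
        (fun k l => (u : F) ^ (M9_d bar a k - M9_d bar a l))
        (fun Y k l => by
          have h1 : (((dU (fun k => u ^ M9_d bar a k))⁻¹ : (Matrix Ω Ω F)ˣ) : Matrix Ω Ω F) =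
            diagonal fun k => (((u ^ M9_d bar a k)⁻¹ : Fˣ) : F) := rfl
          beta_reduce
          rw [h1, dU_val, mul_diagonal, diagonal_mul, zpow_sub₀ hu0, Units.val_inv_eq_inv_val,
            Units.val_zpow_eq_zpow_val, Units.val_zpow_eq_zpow_val]
          ring)
        ((u : F) ^ (M9_d bar a i - M9_d bar a j)) Y hY
      refine ⟨Y', hY', fun k l => ?_⟩
      rw [h']
      by_cases h1 : M9_d bar a k - M9_d bar a l = M9_d bar a i - M9_d bar a j
      · rw [Set.indicator_of_mem (s := {p : Ω × Ω | (u : F) ^ (M9_d bar a p.1 - M9_d bar a p.2) =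
          (u : F) ^ (M9_d bar a i - M9_d bar a j)}) (by
            show (u : F) ^ (M9_d bar a k - M9_d bar a l) = (u : F) ^ (M9_d bar a i - M9_d bar a j)
            rw [h1]), h]
        by_cases h2 : ∀ b ∈ A, M9_d bar b k - M9_d bar b l = M9_d bar b i - M9_d bar b j
        · rw [Set.indicator_of_mem (a := (k, l)) (s := {p : Ω × Ω | ∀ b ∈ A,
            M9_d bar b p.1 - M9_d bar b p.2 = M9_d bar b i - M9_d bar b j}) h2,
            Set.indicator_of_mem (s := {p : Ω × Ω | ∀ b ∈ insert a A,
            M9_d bar b p.1 - M9_d bar b p.2 = M9_d bar b i - M9_d bar b j})]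
          intro b hb
          rcases Finset.mem_insert.1 hb with rfl | hb
          · exact h1
          · exact h2 b hb
        · rw [Set.indicator_of_notMem (a := (k, l)) (s := {p : Ω × Ω | ∀ b ∈ A,
            M9_d bar b p.1 - M9_d bar b p.2 = M9_d bar b i - M9_d bar b j}) h2,
            Set.indicator_of_notMem (s := {p : Ω × Ω | ∀ b ∈ insert a A,
            M9_d bar b p.1 - M9_d bar b p.2 = M9_d bar b i - M9_d bar b j})]
          intro h3
          exact h2 fun b hb => h3 b (Finset.mem_insert_of_mem hb)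
      · rw [Set.indicator_of_notMem, Set.indicator_of_notMem]
        · intro h3
          exact h1 (h3 a (Finset.mem_insert_self a A))
        · intro h3
          apply h1
          refine hu _ _ ?_ h3
          have e1 := hd1 a k
          have e2 := hd1 a l
          have e3 := hd1 a i
          have e4 := hd1 a j
          show (M9_d bar a k - M9_d bar a l - (M9_d bar a i - M9_d bar a j)).natAbs ≤ 4
          omega
  obtain ⟨Y, hY, hYe⟩ := key Finset.univ
  have hval : ∀ k l, Y k l = if (k = i ∧ l = j) ∨ (k = bar j ∧ l = bar i) then X k l else 0 := by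
    intro k l
    rw [hYe]
    by_cases h1 : (k = i ∧ l = j) ∨ (k = bar j ∧ l = bar i)
    · rw [if_pos h1, Set.indicator_of_mem]
      intro a _
      show M9_d bar a k - M9_d bar a l = M9_d bar a i - M9_d bar a j
      rcases h1 with ⟨rfl, rfl⟩ | ⟨rfl, rfl⟩
      · rfl
      · rw [M9_d_bar hb.invol, M9_d_bar hb.invol]
        ring
    · rw [if_neg h1, Set.indicator_of_notMem]
      intro h2
      exact h1 (M9_comb hb.invol hfix hij fun a => h2 a (Finset.mem_univ a))
  have hε : ε * ε = 1 := by
    have h1 := hb.s2 (bar i)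
    rw [hb.seps] at h1
    calc ε * ε = ε * ε * (s i * s i) := by rw [hb.s2, mul_one]
      _ = ε * s i * (ε * s i) := by ring
      _ = 1 := h1
  have hss : ∀ a b, s (bar a) * s (bar b) = s a * s b := by
    intro a b
    rw [hb.seps, hb.seps]
    calc ε * s a * (ε * s b) = (ε * ε) * (s a * s b) := by ring
      _ = s a * s b := by rw [hε, one_mul]
  have hsk' : X (bar j) (bar i) = - (s i * s j * X i j) := by
    have h1 := hsk (bar j) (bar i)
    rw [hb.invol, hb.invol, hss] at h1
    rw [← neg_eq_iff_eq_neg, ← h1]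
    ring
  -- the entries of the target
  have htar : ∀ k l, (Matrix.single i j (1 : F) - starM bar s (Matrix.single i j (1 : F))) k l =
      (if k = i ∧ l = j then 1 else 0) -
        (if k = bar j ∧ l = bar i then s i * s j else 0) := by
    intro k l
    rw [Matrix.sub_apply, single_apply, starM, of_apply, single_apply]
    congr 1
    · congr 1
      exact propext ⟨fun h => ⟨h.1.symm, h.2.symm⟩, fun h => ⟨h.1.symm, h.2.symm⟩⟩
    · by_cases h1 : k = bar j ∧ l = bar i
      · obtain ⟨rfl, rfl⟩ := h1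
        rw [if_pos ⟨(hb.invol i).symm, (hb.invol j).symm⟩, if_pos ⟨rfl, rfl⟩, hss]
        ring
      · rw [if_neg h1, if_neg, mul_zero]
        rintro ⟨h2, h3⟩
        exact h1 ⟨by rw [h3, hb.invol], by rw [h2, hb.invol]⟩
  by_cases hc : bar i = j
  · -- one place
    have hc' : bar j = i := by rw [← hc, hb.invol]
    have h1 : s i * s j = -1 := by
      have h2 := hsk'
      rw [hc, hc'] at h2
      have h3 : (s i * s j + 1) * X i j = 0 := by
        rw [add_mul, one_mul]
        nth_rw 2 [h2]
        ring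
      rcases mul_eq_zero.1 h3 with h4 | h4
      · exact eq_neg_of_add_eq_zero_left h4
      · exact absurd h4 hne
    have h2 : Matrix.single i j (1 : F) - starM bar s (Matrix.single i j (1 : F)) =
        (2 * (X i j)⁻¹) • Y := by
      ext k l
      rw [htar, Matrix.smul_apply, hval, smul_eq_mul, hc, hc', h1]
      by_cases h3 : k = i ∧ l = j
      · obtain ⟨rfl, rfl⟩ := h3
        simp only [and_self, or_self, if_true]
        rw [mul_assoc, inv_mul_cancel₀ hne]
        ring
      · simp only [h3, or_self, if_false]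
        ring
    rw [h2]
    exact L.smul_mem _ hY
  · have h2 : Matrix.single i j (1 : F) - starM bar s (Matrix.single i j (1 : F)) =
        (X i j)⁻¹ • Y := by
      ext k l
      rw [htar, Matrix.smul_apply, hval, smul_eq_mul]
      by_cases h3 : k = i ∧ l = j
      · obtain ⟨rfl, rfl⟩ := h3
        have h4 : ¬ (k = bar l ∧ l = bar k) := fun h => hc h.2.symm
        simp only [h4, and_self, or_false, if_true, if_false]
        rw [inv_mul_cancel₀ hne]
        ring
      · by_cases h4 : k = bar j ∧ l = bar i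
        · obtain ⟨rfl, rfl⟩ := h4
          simp only [h3, and_self, or_true, if_true, if_false]
          rw [hsk', mul_neg, mul_left_comm, inv_mul_cancel₀ hne]
          ring
        · simp only [h3, h4, or_self, if_false]
          ring
    rw [h2]
    exact L.smul_mem _ hY

end Pool.Agent.CTO
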