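import Pool.Agent.CTO.M4
import Pool.Agent.CTO.M5
import Pool.Agent.CTO.M8
import Pool.Agent.CTO.M9

/-!
# M10: the Lie algebra contains `skewM`, symplectic case

Preliminaries (the same for M11, state them as lemmas here; M11 imports this file).
(a) `T1`, `T2` say that `dU z`, `g * dU z * g⁻¹` lie in `ZD D H` for `z ∈ barT bar`. Let
`I = Bool × Ω`, `g' (false, k) = 1`, `g' (true, k) = g`, `n (_, k) = Pi.single k 1 - Pi.single (bar k) 1`
(so `t ^ n` is `t` at `k`, `t⁻¹` at `bar k` if `bar k ≠ k`, and `1` if `bar k = k`). The generators of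
`HC g' n` lie in `ZD D H`, hence all of `HC g' n` does (`HC_sub`). Conversely every `dU z`,
`z ∈ barT bar`, is a product of `dU (t ^ n)`: choose an equivalence `e : Ω ≃ Fin (card Ω)` and take the
product over the `k` with `e k < e (bar k)` of `λ_k (z k)`. So `HT (barT bar) g ≤ HC g' n` and
`HC g' n` spans the matrices: for all `i, k` some `x ∈ HC g' n` has `x i k ≠ 0`.
(b) For `x ∈ HC g' n`: `x⁻¹ = starM bar s x` (`ZD_iso` and uniqueness of inverses), i.e.
`(x⁻¹) k j = s k * s j * x (bar j) (bar k)`.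
(c) `LieM D H` is stable under conjugation by the elements of `HC g' n` and by `dU z`, `z ∈ barT bar`
(`LieM_conj`); `LieM D H ≤ skewM`? is not needed: all the elements used below are skew: if `X` is skew
and `x` an isometry then `x X x⁻¹` is skew.
(d) `h_k := E_kk - E_(bar k)(bar k) ∈ LieM D H` by `LieM_torus`.

Symplectic case: `s (bar k) = - s k`, so `bar k ≠ k` for all `k` (as `s k ≠ 0`, `2 ≠ 0`).
(e) For `i` and any `k`: by `generic` there is `x ∈ HC` with `x i k ≠ 0`, `x i (bar k) ≠ 0`. The matrix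
`x h_k x⁻¹` is in `LieM`, it is skew, and its entry at `(i, bar i)` is
`x i k (x⁻¹) k (bar i) - x i (bar k) (x⁻¹) (bar k) (bar i)
 = s k s (bar i) x i k x i (bar k) - s (bar k) s (bar i) x i (bar k) x i k
 = 2 s k s (bar i) x i k x i (bar k) ≠ 0`.
By `weight_bar`, `E_(i, bar i) - starM E_(i, bar i) = 2 E_(i, bar i) ∈ LieM`, so `E_(i, bar i) ∈ LieM`.
(f) For `i ≠ j`, `j ≠ bar i`: choose any `k` and `x ∈ HC` with `x i k ≠ 0`, `x (bar j) k ≠ 0`. The matrix
`x E_(k, bar k) x⁻¹ ∈ LieM` is skew with entry at `(i, j)` equal to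
`x i k (x⁻¹) (bar k) j = s (bar k) s j x i k x (bar j) k ≠ 0`; so `E_ij - starM E_ij ∈ LieM`.
(g) For `X ∈ skewM`: `X = (1/2) ∑_ij X i j (E_ij - starM E_ij)`, and `E_kk - starM E_kk = h_k`; all the
terms are in `LieM`.
-/

namespace Pool.Agent.CTO

open Matrix

variable {F Ω : Type} [Field F] [Fintype Ω] [DecidableEq Ω]

omit [Fintype Ω] in
lemma M10_single_apply (a c i j : Ω) : Matrix.single a c (1 : F) i j =
    if a = i ∧ c = j then 1 else 0 := by
  rw [Matrix.single_apply]

/-- The conjugating elements. -/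
noncomputable def M10_g (g : (Matrix Ω Ω F)ˣ) : Bool × Ω → (Matrix Ω Ω F)ˣ :=
  fun i => if i.1 = true then g else 1

/-- The exponents. -/
def M10_n (bar : Ω → Ω) : Bool × Ω → Ω → ℤ :=
  fun i ω => (if ω = i.2 then 1 else 0) - (if ω = bar i.2 then 1 else 0)

lemma M10_dU_mul (z w : Ω → Fˣ) : (dU (z * w) : (Matrix Ω Ω F)ˣ) = dU z * dU w := by
  ext i j
  simp only [dU_val, Units.val_mul, diagonal_mul_diagonal, Pi.mul_apply]

lemma M10_dU_one : (dU (1 : Ω → Fˣ) : (Matrix Ω Ω F)ˣ) = 1 := by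
  ext i j
  simp only [dU_val, Pi.one_apply, Units.val_one, diagonal_one]

omit [Fintype Ω] in
lemma M10_n_bar {bar : Ω → Ω} (hb : ∀ i, bar (bar i) = i) (i : Bool × Ω) (ω : Ω) :
    M10_n bar i (bar ω) = - M10_n bar i ω := by
  have h1 : (bar ω = i.2) ↔ (ω = bar i.2) :=
    ⟨fun h => by rw [← h, hb], fun h => by rw [h, hb]⟩
  have h2 : (bar ω = bar i.2) ↔ (ω = i.2) :=
    ⟨fun h => by rw [← hb ω, h, hb], fun h => by rw [h]⟩
  simp only [M10_n, h1, h2]
  ring

omit [Fintype Ω] in
lemma M10_n_fix {bar : Ω → Ω} (hb : ∀ i, bar (bar i) = i) (i : Bool × Ω) (ω : Ω)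
    (h : bar ω = ω) : M10_n bar i ω = 0 := by
  have := M10_n_bar hb i ω
  rw [h] at this
  omega

omit [Fintype Ω] in
lemma M10_barT {bar : Ω → Ω} (hb : ∀ i, bar (bar i) = i) (i : Bool × Ω) (t : Fˣ) :
    (fun ω => t ^ M10_n bar i ω) ∈ (barT bar : Set (Ω → Fˣ)) := by
  intro ω
  refine ⟨?_, ?_⟩
  · show t ^ M10_n bar i ω * t ^ M10_n bar i (bar ω) = 1
    rw [M10_n_bar hb, ← _root_.zpow_add, add_neg_cancel, zpow_zero]
  · intro h
    show t ^ M10_n bar i ω = 1
    rw [M10_n_fix hb i ω h, zpow_zero]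

lemma M10_gen {bar : Ω → Ω} {s : Ω → F} {ε : F} {D : ℕ} {H : Subgroup (Matrix Ω Ω F)ˣ}
    {g : (Matrix Ω Ω F)ˣ} (h : BarSetup bar s ε D H g) (i : Bool × Ω) (z : Ω → Fˣ)
    (hz : z ∈ (barT bar : Set (Ω → Fˣ))) :
    ((M10_g g i * dU z * (M10_g g i)⁻¹ : (Matrix Ω Ω F)ˣ) : Matrix Ω Ω F) ∈ ZD D H := by
  by_cases hi : i.1 = true
  · have : M10_g g i = g := if_pos hi
    rw [this]
    exact h.T2 z hz
  · have : M10_g g i = 1 := if_neg hi
    rw [this, one_mul, inv_one, mul_one]
    exact h.T1 z hz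

lemma M10_HC {bar : Ω → Ω} {s : Ω → F} {ε : F} {D : ℕ} {H : Subgroup (Matrix Ω Ω F)ˣ}
    {g : (Matrix Ω Ω F)ˣ} (h : BarSetup bar s ε D H g) :
    ∀ x ∈ HC (M10_g g) (M10_n bar), (x : Matrix Ω Ω F) ∈ ZD D H :=
  HC_sub D H _ _ fun i t => M10_gen h i _ (M10_barT h.bf.invol i t)

open Classical in
lemma M10_mem_HC {bar : Ω → Ω} (hb : ∀ i, bar (bar i) = i) (g : (Matrix Ω Ω F)ˣ)
    (b : Bool × Ω) : ∀ (m : ℕ) (z : Ω → Fˣ), z ∈ (barT bar : Set (Ω → Fˣ)) →
    (Finset.univ.filter fun ω => z ω ≠ 1).card ≤ m →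
    M10_g g b * dU z * (M10_g g b)⁻¹ ∈ HC (M10_g g) (M10_n bar) := by
  intro m
  induction m with
  | zero =>
    intro z _ hc
    have h1 : z = 1 := by
      funext ω
      by_contra hne
      have : ω ∈ Finset.univ.filter fun ω => z ω ≠ 1 := by
        simpa using hne
      rw [Finset.card_eq_zero.1 (Nat.le_zero.1 hc)] at this
      exact absurd this (Finset.notMem_empty ω)
    rw [h1, M10_dU_one, mul_one, mul_inv_cancel]
    exact one_mem _
  | succ m ih =>
    intro z hz hc
    by_cases hall : z = 1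
    · rw [hall, M10_dU_one, mul_one, mul_inv_cancel]
      exact one_mem _
    obtain ⟨k, hk⟩ := Function.ne_iff.1 hall
    have hk' : z k ≠ 1 := hk
    have hbk : bar k ≠ k := fun e => hk' ((hz k).2 e)
    obtain ⟨w, hw⟩ : ∃ w : Ω → Fˣ, w = fun ω => (z k) ^ M10_n bar (b.1, k) ω := ⟨_, rfl⟩
    have hwk : w k = z k := by
      have : M10_n bar (b.1, k) k = 1 := by
        simp [M10_n, Ne.symm hbk]
      rw [hw]
      show (z k) ^ M10_n bar (b.1, k) k = z k
      rw [this, zpow_one]
    have hwbk : w (bar k) = (z k)⁻¹ := by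
      have : M10_n bar (b.1, k) (bar k) = -1 := by
        rw [M10_n_bar hb]
        simp [M10_n, Ne.symm hbk]
      rw [hw]
      show (z k) ^ M10_n bar (b.1, k) (bar k) = (z k)⁻¹
      rw [this, _root_.zpow_neg_one]
    have hwo : ∀ ω, ω ≠ k → ω ≠ bar k → w ω = 1 := by
      intro ω h1 h2
      have : M10_n bar (b.1, k) ω = 0 := by
        simp [M10_n, h1, h2]
      rw [hw]
      show (z k) ^ M10_n bar (b.1, k) ω = 1
      rw [this, zpow_zero]
    have hzw : z = (z * w⁻¹) * w := by
      funext ω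
      simp
    have hwT : w ∈ (barT bar : Set (Ω → Fˣ)) := hw ▸ M10_barT hb (b.1, k) (z k)
    have hzT : z * w⁻¹ ∈ (barT bar : Set (Ω → Fˣ)) := by
      intro ω
      refine ⟨?_, ?_⟩
      · have h1 := (hz ω).1
        have h2 := (hwT ω).1
        show z ω * (w ω)⁻¹ * (z (bar ω) * (w (bar ω))⁻¹) = 1
        calc z ω * (w ω)⁻¹ * (z (bar ω) * (w (bar ω))⁻¹)
            = (z ω * z (bar ω)) * (w ω * w (bar ω))⁻¹ := by
              rw [mul_inv]
              exact mul_mul_mul_comm _ _ _ _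
          _ = 1 := by rw [h1, h2, inv_one, mul_one]
      · intro e
        show z ω * (w ω)⁻¹ = 1
        rw [(hz ω).2 e, (hwT ω).2 e, inv_one, mul_one]
    have hcard : (Finset.univ.filter fun ω => (z * w⁻¹) ω ≠ 1).card ≤ m := by
      have hss : (Finset.univ.filter fun ω => (z * w⁻¹) ω ≠ 1) ⊂
          (Finset.univ.filter fun ω => z ω ≠ 1) := by
        refine Finset.ssubset_iff_subset_ne.2 ⟨?_, ?_⟩
        · intro ω hω
          simp only [Finset.mem_filter, Finset.mem_univ, true_and] at hω ⊢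
          intro e
          apply hω
          show z ω * (w ω)⁻¹ = 1
          by_cases h1 : ω = k
          · exact absurd (h1 ▸ e) hk'
          · by_cases h2 : ω = bar k
            · have h3 := (hz k).1
              rw [← h2, e, mul_one] at h3
              exact absurd h3 hk'
            · rw [e, hwo ω h1 h2, inv_one, mul_one]
        · intro e
          have hkin : k ∈ (Finset.univ.filter fun ω => z ω ≠ 1) := by
            simpa using hk'
          rw [← e] at hkin
          simp only [Finset.mem_filter, Finset.mem_univ, true_and] at hkin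
          apply hkin
          show z k * (w k)⁻¹ = 1
          rw [hwk, mul_inv_cancel]
      have := Finset.card_lt_card hss
      omega
    have h1 := ih (z * w⁻¹) hzT hcard
    have h2 : M10_g g b * dU w * (M10_g g b)⁻¹ ∈ HC (M10_g g) (M10_n bar) := by
      have hg : M10_g g b = M10_g g (b.1, k) := rfl
      rw [hg, hw]
      exact Subgroup.subset_closure ⟨(b.1, k), z k, rfl⟩
    have h3 : M10_g g b * dU z * (M10_g g b)⁻¹ =
        (M10_g g b * dU (z * w⁻¹) * (M10_g g b)⁻¹) * (M10_g g b * dU w * (M10_g g b)⁻¹) := by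
      conv_lhs => rw [hzw, M10_dU_mul]
      group
    rw [h3]
    exact mul_mem h1 h2

lemma M10_HT {bar : Ω → Ω} (hb : ∀ i, bar (bar i) = i) (g : (Matrix Ω Ω F)ˣ) :
    HT (barT bar : Set (Ω → Fˣ)) g ≤ HC (M10_g g) (M10_n bar) := by
  unfold HT
  rw [Subgroup.closure_le]
  rintro x (⟨z, hz, rfl⟩ | ⟨z, hz, rfl⟩)
  · by_cases hne : Nonempty Ω
    · obtain ⟨ω⟩ := hne
      have := M10_mem_HC hb g (false, ω) _ z hz le_rfl
      have hg : M10_g g (false, ω) = 1 := if_neg (by simp)
      rw [hg, one_mul, inv_one, mul_one] at this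
      exact this
    · have he : IsEmpty Ω := not_nonempty_iff.1 hne
      have h1 : (dU z : (Matrix Ω Ω F)ˣ) = 1 := by
        ext i j
        exact (he.false i).elim
      rw [h1]
      exact one_mem _
  · by_cases hne : Nonempty Ω
    · obtain ⟨ω⟩ := hne
      have := M10_mem_HC hb g (true, ω) _ z hz le_rfl
      have hg : M10_g g (true, ω) = g := if_pos rfl
      rw [hg] at this
      exact this
    · have he : IsEmpty Ω := not_nonempty_iff.1 hne
      have h1 : (g * dU z * g⁻¹ : (Matrix Ω Ω F)ˣ) = 1 := by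
        ext i j
        exact (he.false i).elim
      rw [h1]
      exact one_mem _

lemma M10_entry {bar : Ω → Ω} {s : Ω → F} {ε : F} {D : ℕ} {H : Subgroup (Matrix Ω Ω F)ˣ}
    {g : (Matrix Ω Ω F)ˣ} (h : BarSetup bar s ε D H g) (i k : Ω) :
    ∃ x ∈ HC (M10_g g) (M10_n bar), (x : Matrix Ω Ω F) i k ≠ 0 := by
  by_contra hcon
  push Not at hcon
  have hle : Submodule.span F {x : Matrix Ω Ω F | ∃ h ∈ HT (barT bar : Set (Ω → Fˣ)) g,
      x = (h : Matrix Ω Ω F)} ≤ LinearMap.ker (Matrix.entryLinearMap F F i k) := by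
    rw [Submodule.span_le]
    rintro x ⟨y, hy, rfl⟩
    show Matrix.entryLinearMap F F i k (y : Matrix Ω Ω F) = 0
    exact hcon y (M10_HT h.bf.invol g hy)
  have hs := h.span
  unfold SpanTop at hs
  rw [hs] at hle
  have h1 : Matrix.single i k (1 : F) ∈ LinearMap.ker (Matrix.entryLinearMap F F i k) :=
    hle Submodule.mem_top
  have h2 : Matrix.entryLinearMap F F i k (Matrix.single i k (1 : F)) = 0 := h1
  have h3 : Matrix.entryLinearMap F F i k (Matrix.single i k (1 : F)) = 1 := by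
    show Matrix.single i k (1 : F) i k = 1
    exact Matrix.single_apply_same ..
  rw [h3] at h2
  exact one_ne_zero h2

lemma M10_inv {bar : Ω → Ω} {s : Ω → F} {ε : F} {D : ℕ} {H : Subgroup (Matrix Ω Ω F)ˣ}
    {g : (Matrix Ω Ω F)ˣ} (h : BarSetup bar s ε D H g) (x : (Matrix Ω Ω F)ˣ)
    (hx : x ∈ HC (M10_g g) (M10_n bar)) :
    ((x⁻¹ : (Matrix Ω Ω F)ˣ) : Matrix Ω Ω F) = starM bar s (x : Matrix Ω Ω F) := by
  have hi := ZD_iso D h.D2 H bar s h.Hi _ (M10_HC h x hx)
  calc ((x⁻¹ : (Matrix Ω Ω F)ˣ) : Matrix Ω Ω F)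
      = ((x⁻¹ : (Matrix Ω Ω F)ˣ) : Matrix Ω Ω F) * ((x : Matrix Ω Ω F) * starM bar s x) := by
        rw [hi.1, mul_one]
    _ = starM bar s (x : Matrix Ω Ω F) := by
        rw [← mul_assoc, Units.inv_mul, one_mul]

omit [DecidableEq Ω] in
lemma M10_star_mul {bar : Ω → Ω} {s : Ω → F} {ε : F} (hb : BarF bar s ε) (A B : Matrix Ω Ω F) :
    starM bar s (A * B) = starM bar s B * starM bar s A := by
  ext i j
  simp only [starM, of_apply, mul_apply]
  have e : Function.Bijective bar := Function.Involutive.bijective hb.invol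
  rw [Finset.mul_sum, ← Function.Bijective.sum_comp e
    (fun k => s i * s j * (A (bar j) k * B k (bar i)))]
  refine Finset.sum_congr rfl fun k _ => ?_
  have := hb.s2 k
  linear_combination (-(s i * s j * (A (bar j) (bar k) * B (bar k) (bar i)))) * this

omit [Fintype Ω] [DecidableEq Ω] in
lemma M10_star_star {bar : Ω → Ω} {s : Ω → F} {ε : F} (hb : BarF bar s ε) (hε : ε * ε = 1)
    (A : Matrix Ω Ω F) :
    starM bar s (starM bar s A) = A := by
  ext i j
  simp only [starM, of_apply, hb.invol, hb.seps]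
  have h1 := hb.s2 i
  have h2 := hb.s2 j
  linear_combination (ε * ε * (s j * s j) * A i j) * h1 + (ε * ε * A i j) * h2 + A i j * hε

lemma M10_skew_iff {bar : Ω → Ω} {s : Ω → F} {X : Matrix Ω Ω F} :
    X ∈ skewM bar s ↔ starM bar s X = - X := by
  rw [mem_skewM]
  constructor
  · intro h
    ext i j
    exact h i j
  · intro h i j
    exact congrFun (congrFun h i) j

/-- The element `E_(a, bar b) - starM E_(a, bar b)`. -/
noncomputable def M10_W (bar : Ω → Ω) (s : Ω → F) (a b : Ω) : Matrix Ω Ω F :=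
  Matrix.single a (bar b) (1 : F) - starM bar s (Matrix.single a (bar b) (1 : F))

omit [Fintype Ω] in
lemma M10_star_single {bar : Ω → Ω} {s : Ω → F} (hb : BarF bar s (-1)) (a b : Ω) :
    starM bar s (Matrix.single a (bar b) (1 : F)) =
      (-(s a * s b)) • Matrix.single b (bar a) (1 : F) := by
  ext i j
  simp only [starM, of_apply, M10_single_apply, Matrix.smul_apply, smul_eq_mul]
  by_cases h : b = i ∧ bar a = j
  · obtain ⟨rfl, rfl⟩ := h
    rw [hb.invol, hb.seps, if_pos ⟨rfl, rfl⟩, if_pos ⟨rfl, rfl⟩]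
    ring
  · have h' : ¬ (a = bar j ∧ bar b = bar i) := by
      rintro ⟨e1, e2⟩
      apply h
      refine ⟨?_, ?_⟩
      · rw [← hb.invol b, e2, hb.invol]
      · rw [e1, hb.invol]
    rw [if_neg h, if_neg h']
    ring

omit [Fintype Ω] in
lemma M10_W_skew {bar : Ω → Ω} {s : Ω → F} (hb : BarF bar s (-1)) (a b : Ω) :
    starM bar s (M10_W bar s a b) = - M10_W bar s a b := by
  have h1 : starM bar s (M10_W bar s a b) = starM bar s (Matrix.single a (bar b) (1 : F)) -
      starM bar s (starM bar s (Matrix.single a (bar b) (1 : F))) := by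
    ext i j
    simp only [M10_W, starM, of_apply, Matrix.sub_apply]
    ring
  rw [h1, M10_star_star hb (by ring)]
  unfold M10_W
  abel

lemma M10_conj_entry {bar : Ω → Ω} {s : Ω → F} (hb : BarF bar s (-1)) (x : Matrix Ω Ω F)
    (a b i t : Ω) :
    (x * M10_W bar s a b * starM bar s x) i (bar t) =
      s b * s t * (x i a * x t b + x i b * x t a) := by
  have key : ∀ c d e : Ω, (x * Matrix.single c d (1 : F) * starM bar s x) i e =
      x i c * starM bar s x d e := by
    intro c d e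
    rw [mul_apply, Finset.sum_eq_single d]
    · rw [mul_apply, Finset.sum_eq_single c]
      · rw [Matrix.single_apply_same, mul_one]
      · intro k _ hk
        rw [M10_single_apply, if_neg (by rintro ⟨h1, _⟩; exact hk h1.symm), mul_zero]
      · intro h
        exact absurd (Finset.mem_univ _) h
    · intro k _ hk
      rw [mul_apply, Finset.sum_eq_zero, zero_mul]
      intro l _
      rw [M10_single_apply, if_neg (by rintro ⟨_, h1⟩; exact hk h1.symm), mul_zero]
    · intro h
      exact absurd (Finset.mem_univ _) h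
  unfold M10_W
  rw [M10_star_single hb, mul_sub, sub_mul, Matrix.sub_apply, key, mul_smul_comm, smul_mul_assoc,
    Matrix.smul_apply, key]
  simp only [starM, of_apply, hb.invol, hb.seps, smul_eq_mul]
  have h1 := hb.s2 a
  linear_combination (s b * s t * x i b * x t a) * h1

lemma M10_h {bar : Ω → Ω} {s : Ω → F} {D : ℕ} {H : Subgroup (Matrix Ω Ω F)ˣ}
    {g : (Matrix Ω Ω F)ˣ} (h : BarSetup bar s (-1) D H g) (k : Ω) :
    M10_W bar s k (bar k) ∈ LieM D H := by
  have h1 := LieM_torus D H (1 : (Matrix Ω Ω F)ˣ) (M10_n bar (false, k)) (by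
    intro t
    rw [one_mul, inv_one, mul_one]
    exact h.T1 _ (M10_barT h.bf.invol (false, k) t))
  rw [inv_one, Units.val_one, one_mul, mul_one] at h1
  have h2 : M10_W bar s k (bar k) = diagonal (fun ω => ((M10_n bar (false, k) ω : ℤ) : F)) := by
    unfold M10_W
    rw [M10_star_single h.bf]
    ext i j
    have hss : -(s k * (-1 * s k)) = 1 := by
      have := h.bf.s2 k
      linear_combination this
    rw [Matrix.sub_apply, Matrix.smul_apply, smul_eq_mul, h.bf.invol, M10_single_apply, M10_single_apply,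
      h.bf.seps, hss, one_mul, diagonal_apply]
    by_cases hij : i = j
    · subst hij
      rw [if_pos rfl]
      simp only [M10_n, and_self, Int.cast_sub, Int.cast_ite, Int.cast_one, Int.cast_zero,
        eq_comm]
    · rw [if_neg hij, if_neg (by rintro ⟨rfl, rfl⟩; exact hij rfl),
        if_neg (by rintro ⟨rfl, rfl⟩; exact hij rfl), sub_zero]
  rw [h2]
  exact h1

/-- A point with nonzero entries. -/
lemma M10_generic [Infinite F] {bar : Ω → Ω} {s : Ω → F} {ε : F} {D : ℕ}
    {H : Subgroup (Matrix Ω Ω F)ˣ} {g : (Matrix Ω Ω F)ˣ} (h : BarSetup bar s ε D H g) :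
    ∃ x ∈ HC (M10_g g) (M10_n bar), ∀ k l, (x : Matrix Ω Ω F) k l ≠ 0 := by
  obtain ⟨x, hx, hP⟩ := generic (J := Ω × Ω) (M10_g g) (M10_n bar)
    (fun kl => MvPolynomial.X (Sum.inl kl)) (by
      intro kl
      obtain ⟨x, hx, hne⟩ := M10_entry h kl.1 kl.2
      refine ⟨x, hx, ?_⟩
      simp only [evU, MvPolynomial.eval_X, Sum.elim_inl]
      exact hne)
  refine ⟨x, hx, ?_⟩
  intro k l
  have := hP (k, l)
  simp only [evU, MvPolynomial.eval_X, Sum.elim_inl] at this
  exact this

lemma M10_all [Infinite F] {bar : Ω → Ω} {s : Ω → F} {D : ℕ} {H : Subgroup (Matrix Ω Ω F)ˣ}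
    {g : (Matrix Ω Ω F)ˣ} (h : BarSetup bar s (-1) D H g) (i t : Ω) :
    M10_W bar s i t ∈ LieM D H := by
  obtain ⟨x, hx, hx0⟩ := M10_generic h
  have hs0 : ∀ k, s k ≠ 0 := by
    intro k hk
    have := h.bf.s2 k
    rw [hk, zero_mul] at this
    exact zero_ne_one this
  have hbne : ∀ k, bar k ≠ k := by
    intro k hk
    have h1 := h.bf.seps k
    rw [hk] at h1
    have h2 : (2 : F) * s k = 0 := by linear_combination h1
    rcases mul_eq_zero.1 h2 with h3 | h3
    · exact h.two h3
    · exact hs0 k h3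
  have hstab : ∀ z ∈ (barT bar : Set (Ω → Fˣ)), ∀ X ∈ LieM D H,
      ((dU z : (Matrix Ω Ω F)ˣ) : Matrix Ω Ω F) * X *
        (((dU z)⁻¹ : (Matrix Ω Ω F)ˣ) : Matrix Ω Ω F) ∈ LieM D H :=
    fun z hz X hX => LieM_conj D H (dU z) (h.T1 z hz) hX
  have key : ∀ a b i t : Ω, M10_W bar s a b ∈ LieM D H → i ≠ bar t →
      (x : Matrix Ω Ω F) i a * (x : Matrix Ω Ω F) t b +
        (x : Matrix Ω Ω F) i b * (x : Matrix Ω Ω F) t a ≠ 0 → M10_W bar s i t ∈ LieM D H := by
    intro a b i t hab hit hne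
    have hL := LieM_conj D H x (M10_HC h x hx) hab
    rw [M10_inv h x hx] at hL
    have hsk : (x : Matrix Ω Ω F) * M10_W bar s a b * starM bar s (x : Matrix Ω Ω F) ∈
        skewM bar s := by
      rw [M10_skew_iff, M10_star_mul h.bf, M10_star_mul h.bf, M10_star_star h.bf (by ring),
        M10_W_skew h.bf]
      rw [neg_mul, mul_neg, mul_assoc]
    have hentry := M10_conj_entry h.bf (x : Matrix Ω Ω F) a b i t
    refine weight_bar h.two (-1) bar s h.bf (fun i j hi _ => absurd hi (hbne i)) (LieM D H)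
      hstab _ hL hsk i (bar t) hit ?_
    rw [hentry]
    exact mul_ne_zero (mul_ne_zero (hs0 b) (hs0 t)) hne
  have hdiag : ∀ i, M10_W bar s i i ∈ LieM D H := by
    intro i
    refine key i (bar i) i i (M10_h h i) (Ne.symm (hbne i)) ?_
    have h1 : (x : Matrix Ω Ω F) i i * (x : Matrix Ω Ω F) i (bar i) +
        (x : Matrix Ω Ω F) i (bar i) * (x : Matrix Ω Ω F) i i =
        2 * ((x : Matrix Ω Ω F) i i * (x : Matrix Ω Ω F) i (bar i)) := by ring
    rw [h1]
    exact mul_ne_zero h.two (mul_ne_zero (hx0 _ _) (hx0 _ _))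
  by_cases hit : i = bar t
  · have ht : t = bar i := by rw [hit, h.bf.invol]
    rw [ht]
    exact M10_h h i
  · refine key i i i t (hdiag i) hit ?_
    have h1 : (x : Matrix Ω Ω F) i i * (x : Matrix Ω Ω F) t i +
        (x : Matrix Ω Ω F) i i * (x : Matrix Ω Ω F) t i =
        2 * ((x : Matrix Ω Ω F) i i * (x : Matrix Ω Ω F) t i) := by ring
    rw [h1]
    exact mul_ne_zero h.two (mul_ne_zero (hx0 _ _) (hx0 _ _))

theorem skew_le_Sp [Infinite F] {bar : Ω → Ω} {s : Ω → F} {D : ℕ} {H : Subgroup (Matrix Ω Ω F)ˣ}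
    {g : (Matrix Ω Ω F)ˣ} (h : BarSetup bar s (-1) D H g) : skewM bar s ≤ LieM D H := by
  intro X hX
  have hX' := M10_skew_iff.1 hX
  have hall := M10_all h
  have hsum : (2 : F) • X = ∑ i, ∑ j, X i j • M10_W bar s i (bar j) := by
    have h1 : ∀ i j, M10_W bar s i (bar j) = Matrix.single i j (1 : F) -
        starM bar s (Matrix.single i j (1 : F)) := by
      intro i j
      unfold M10_W
      rw [h.bf.invol]
    have h2 : (2 : F) • X = X - starM bar s X := by
      rw [hX', sub_neg_eq_add, two_smul]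
    rw [h2]
    ext k l
    simp only [h1, Matrix.sub_apply, starM, of_apply, Matrix.sum_apply, Matrix.smul_apply, smul_eq_mul, mul_sub,
      Finset.sum_sub_distrib, M10_single_apply]
    congr 1
    · rw [Finset.sum_eq_single k, Finset.sum_eq_single l]
      · simp
      · intro b _ hb
        rw [if_neg (by rintro ⟨_, h3⟩; exact hb h3), mul_zero]
      · intro hh
        exact absurd (Finset.mem_univ _) hh
      · intro b _ hb
        refine Finset.sum_eq_zero fun c _ => ?_
        rw [if_neg (by rintro ⟨h3, _⟩; exact hb h3), mul_zero]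
      · intro hh
        exact absurd (Finset.mem_univ _) hh
    · rw [Finset.sum_eq_single (bar l), Finset.sum_eq_single (bar k)]
      · simp only [and_self, if_true, mul_one]
        ring
      · intro b _ hb
        rw [if_neg (by rintro ⟨_, h3⟩; exact hb h3), mul_zero, mul_zero]
      · intro hh
        exact absurd (Finset.mem_univ _) hh
      · intro b _ hb
        refine Finset.sum_eq_zero fun c _ => ?_
        rw [if_neg (by rintro ⟨h3, _⟩; exact hb h3), mul_zero, mul_zero]
      · intro hh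
        exact absurd (Finset.mem_univ _) hh
  have hmem : (2 : F) • X ∈ LieM D H := by
    rw [hsum]
    exact Submodule.sum_mem _ fun i _ => Submodule.sum_mem _ fun j _ =>
      Submodule.smul_mem _ _ (hall i (bar j))
  have := Submodule.smul_mem (LieM D H) ((2 : F)⁻¹) hmem
  rwa [smul_smul, inv_mul_cancel₀ h.two, one_smul] at this

end Pool.Agent.CTO
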