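import Pool.Agent.CTO.M10

/-!
# M11: the Lie algebra contains `skewM`, orthogonal case

Use (a)-(d) of M10. Now `ε = 1`, `s (bar k) = s k`, there is at most one `k` with `bar k = k`, and
`card Ω ≥ 2`, so there is `a0` with `bar a0 ≠ a0`.
For `a ≠ b` put `W(a, b) := E_(a, bar b) - starM E_(a, bar b)`; say `a ~ b` if `W(a, b) ∈ LieM`
(`a ≠ b`). One has `starM E_(a, bar b) = s a s b E_(b, bar a)`, `W(b, a) = - s a s b W(a, b)`, so `~` is
symmetric. `a ~ bar a` if `bar a ≠ a`, because `W(a, bar a) = E_aa - E_(bar a)(bar a) = h_a`.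
(e) For `x ∈ HC` and `a ≠ b`: `x W(a, b) x⁻¹` has entry at `(i, bar t)` equal to
`x i a (x⁻¹) (bar b) (bar t) - s a s b x i b (x⁻¹) (bar a) (bar t)
  = s b s t (x i a x t b - x i b x t a)` (use `s (bar b) = s b`, `s a * s a = 1`).
So if `a ~ b`, `i ≠ t`, and `x i a * x t b - x i b * x t a ≠ 0` for some `x ∈ HC`, then `i ~ t` by
`weight_bar` (`(i, bar t)` with `i ≠ bar t`; if `i = bar t` then `i ~ t` anyway as `i ≠ t`).
So: (*) if `i ≠ t`, not `i ~ t`, `a ~ b`, then `x i a * x t b = x i b * x t a` for all `x ∈ HC`.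
(f) Let `x ∈ HC` have all entries nonzero (exists by `generic`), and let `R` be the equivalence relation
generated by `~` (`Relation.EqvGen`, or `ReflTransGen`). For `i ≠ t` not related by `~`, (*) says that
`x i c / x t c` is constant on the classes of `R`.
(g) `R i t` and `i ≠ t` imply `i ~ t`: if not, `x i i * x t t = x i t * x t i` for every `x ∈ HC` with
all entries nonzero (constancy of `x i c / x t c` on the class of `i` and `t`). By `generic` applied to
all the entries and to the polynomial `x i i * x t t - x i t * x t i`, which is nonzero at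
`x = 1 ∈ HC`, there is `x ∈ HC` with all entries nonzero and this polynomial nonzero: contradiction.
(h) There is only one class: let `C` be the class of `a0`; it contains `a0` and `b0 = bar a0 ≠ a0`.
Suppose there is `j` outside `C`. Let `x` be as in (f). For `i ∈ C`, `t ∉ C` (`i ≠ t`, not `i ~ t`):
`x i a0 / x t a0 = x i b0 / x t b0`. For `i, i' ∈ C`: compare both with `j`; for `t, t' ∉ C`: compare both
with `a0`. So the columns `a0` and `b0` of `x` are proportional: there is `μ` with
`x i b0 = μ x i a0` for all `i` (`μ = x i b0 / x i a0` is independent of `i`), contradicting the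
invertibility of `x`.
(i) So `a ~ b` for all `a ≠ b`, and every skew `X` is
`(1/2) ∑_ij X i j (E_ij - starM E_ij)`, where `E_ij - starM E_ij = W(i, bar j)` if `bar j ≠ i`, and for
`j = bar i` the coefficient `X i (bar i)` is zero.
-/

namespace Pool.Agent.CTO

open Matrix

variable {F Ω : Type} [Field F] [Fintype Ω] [DecidableEq Ω]

omit [Fintype Ω] in
lemma M11_single_apply (a c i j : Ω) : Matrix.single a c (1 : F) i j =
    if a = i ∧ c = j then 1 else 0 := by
  rw [Matrix.single_apply]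

/-- The conjugating elements. -/
noncomputable def M11_g (g : (Matrix Ω Ω F)ˣ) : Bool × Ω → (Matrix Ω Ω F)ˣ :=
  fun i => if i.1 = true then g else 1

/-- The exponents. -/
def M11_n (bar : Ω → Ω) : Bool × Ω → Ω → ℤ :=
  fun i ω => (if ω = i.2 then 1 else 0) - (if ω = bar i.2 then 1 else 0)

lemma M11_dU_mul (z w : Ω → Fˣ) : (dU (z * w) : (Matrix Ω Ω F)ˣ) = dU z * dU w := by
  ext i j
  simp only [dU_val, Units.val_mul, diagonal_mul_diagonal, Pi.mul_apply]

lemma M11_dU_one : (dU (1 : Ω → Fˣ) : (Matrix Ω Ω F)ˣ) = 1 := by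
  ext i j
  simp only [dU_val, Pi.one_apply, Units.val_one, diagonal_one]

omit [Fintype Ω] in
lemma M11_n_bar {bar : Ω → Ω} (hb : ∀ i, bar (bar i) = i) (i : Bool × Ω) (ω : Ω) :
    M11_n bar i (bar ω) = - M11_n bar i ω := by
  have h1 : (bar ω = i.2) ↔ (ω = bar i.2) :=
    ⟨fun h => by rw [← h, hb], fun h => by rw [h, hb]⟩
  have h2 : (bar ω = bar i.2) ↔ (ω = i.2) :=
    ⟨fun h => by rw [← hb ω, h, hb], fun h => by rw [h]⟩
  simp only [M11_n, h1, h2]
  ring

omit [Fintype Ω] in
lemma M11_n_fix {bar : Ω → Ω} (hb : ∀ i, bar (bar i) = i) (i : Bool × Ω) (ω : Ω)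
    (h : bar ω = ω) : M11_n bar i ω = 0 := by
  have := M11_n_bar hb i ω
  rw [h] at this
  omega

omit [Fintype Ω] in
lemma M11_barT {bar : Ω → Ω} (hb : ∀ i, bar (bar i) = i) (i : Bool × Ω) (t : Fˣ) :
    (fun ω => t ^ M11_n bar i ω) ∈ (barT bar : Set (Ω → Fˣ)) := by
  intro ω
  refine ⟨?_, ?_⟩
  · show t ^ M11_n bar i ω * t ^ M11_n bar i (bar ω) = 1
    rw [M11_n_bar hb, ← _root_.zpow_add, add_neg_cancel, zpow_zero]
  · intro h
    show t ^ M11_n bar i ω = 1
    rw [M11_n_fix hb i ω h, zpow_zero]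

lemma M11_gen {bar : Ω → Ω} {s : Ω → F} {ε : F} {D : ℕ} {H : Subgroup (Matrix Ω Ω F)ˣ}
    {g : (Matrix Ω Ω F)ˣ} (h : BarSetup bar s ε D H g) (i : Bool × Ω) (z : Ω → Fˣ)
    (hz : z ∈ (barT bar : Set (Ω → Fˣ))) :
    ((M11_g g i * dU z * (M11_g g i)⁻¹ : (Matrix Ω Ω F)ˣ) : Matrix Ω Ω F) ∈ ZD D H := by
  by_cases hi : i.1 = true
  · have : M11_g g i = g := if_pos hi
    rw [this]
    exact h.T2 z hz
  · have : M11_g g i = 1 := if_neg hi
    rw [this, one_mul, inv_one, mul_one]
    exact h.T1 z hz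

lemma M11_HC {bar : Ω → Ω} {s : Ω → F} {ε : F} {D : ℕ} {H : Subgroup (Matrix Ω Ω F)ˣ}
    {g : (Matrix Ω Ω F)ˣ} (h : BarSetup bar s ε D H g) :
    ∀ x ∈ HC (M11_g g) (M11_n bar), (x : Matrix Ω Ω F) ∈ ZD D H :=
  HC_sub D H _ _ fun i t => M11_gen h i _ (M11_barT h.bf.invol i t)

open Classical in
lemma M11_mem_HC {bar : Ω → Ω} (hb : ∀ i, bar (bar i) = i) (g : (Matrix Ω Ω F)ˣ)
    (b : Bool × Ω) : ∀ (m : ℕ) (z : Ω → Fˣ), z ∈ (barT bar : Set (Ω → Fˣ)) →
    (Finset.univ.filter fun ω => z ω ≠ 1).card ≤ m →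
    M11_g g b * dU z * (M11_g g b)⁻¹ ∈ HC (M11_g g) (M11_n bar) := by
  intro m
  induction m with
  | zero =>
    intro z _ hc
    have h1 : z = 1 := by
      funext ω
      by_contra hne
      have : ω ∈ Finset.univ.filter fun ω => z ω ≠ 1 := by
        simpa using hne
      rw [Finset.card_eq_zero.1 (Nat.le_zero.1 hc)] at this
      exact absurd this (Finset.notMem_empty ω)
    rw [h1, M11_dU_one, mul_one, mul_inv_cancel]
    exact one_mem _
  | succ m ih =>
    intro z hz hc
    by_cases hall : z = 1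
    · rw [hall, M11_dU_one, mul_one, mul_inv_cancel]
      exact one_mem _
    obtain ⟨k, hk⟩ := Function.ne_iff.1 hall
    have hk' : z k ≠ 1 := hk
    have hbk : bar k ≠ k := fun e => hk' ((hz k).2 e)
    obtain ⟨w, hw⟩ : ∃ w : Ω → Fˣ, w = fun ω => (z k) ^ M11_n bar (b.1, k) ω := ⟨_, rfl⟩
    have hwk : w k = z k := by
      have : M11_n bar (b.1, k) k = 1 := by
        simp [M11_n, Ne.symm hbk]
      rw [hw]
      show (z k) ^ M11_n bar (b.1, k) k = z k
      rw [this, zpow_one]
    have hwbk : w (bar k) = (z k)⁻¹ := by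
      have : M11_n bar (b.1, k) (bar k) = -1 := by
        rw [M11_n_bar hb]
        simp [M11_n, Ne.symm hbk]
      rw [hw]
      show (z k) ^ M11_n bar (b.1, k) (bar k) = (z k)⁻¹
      rw [this, _root_.zpow_neg_one]
    have hwo : ∀ ω, ω ≠ k → ω ≠ bar k → w ω = 1 := by
      intro ω h1 h2
      have : M11_n bar (b.1, k) ω = 0 := by
        simp [M11_n, h1, h2]
      rw [hw]
      show (z k) ^ M11_n bar (b.1, k) ω = 1
      rw [this, zpow_zero]
    have hzw : z = (z * w⁻¹) * w := by
      funext ω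
      simp
    have hwT : w ∈ (barT bar : Set (Ω → Fˣ)) := hw ▸ M11_barT hb (b.1, k) (z k)
    have hzT : z * w⁻¹ ∈ (barT bar : Set (Ω → Fˣ)) := by
      intro ω
      refine ⟨?_, ?_⟩
      · have h1 := (hz ω).1
        have h2 := (hwT ω).1
        show z ω * (w ω)⁻¹ * (z (bar ω) * (w (bar ω))⁻¹) = 1
        calc z ω * (w ω)⁻¹ * (z (bar ω) * (w (bar ω))⁻¹)
            = (z ω * z (bar ω)) * (w ω * w (bar ω))⁻¹ := by
              rw [mul_inv]
              exact mul_mul_mul_comm _ _ _ _
          _ = 1 := by rw [h1, h2, inv_one, mul_one]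
      · intro e
        show z ω * (w ω)⁻¹ = 1
        rw [(hz ω).2 e, (hwT ω).2 e, inv_one, mul_one]
    have hcard : (Finset.univ.filter fun ω => (z * w⁻¹) ω ≠ 1).card ≤ m := by
      have hss : (Finset.univ.filter fun ω => (z * w⁻¹) ω ≠ 1) ⊂
          (Finset.univ.filter fun ω => z ω ≠ 1) := by
        refine Finset.ssubset_iff_subset_ne.2 ⟨?_, ?_⟩
        · intro ω hω
          simp only [Finset.mem_filter, Finset.mem_univ, true_and] at hω ⊢
          intro e
          apply hω
          show z ω * (w ω)⁻¹ = 1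
          by_cases h1 : ω = k
          · exact absurd (h1 ▸ e) hk'
          · by_cases h2 : ω = bar k
            · have h3 := (hz k).1
              rw [← h2, e, mul_one] at h3
              exact absurd h3 hk'
            · rw [e, hwo ω h1 h2, inv_one, mul_one]
        · intro e
          have hkin : k ∈ (Finset.univ.filter fun ω => z ω ≠ 1) := by
            simpa using hk'
          rw [← e] at hkin
          simp only [Finset.mem_filter, Finset.mem_univ, true_and] at hkin
          apply hkin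
          show z k * (w k)⁻¹ = 1
          rw [hwk, mul_inv_cancel]
      have := Finset.card_lt_card hss
      omega
    have h1 := ih (z * w⁻¹) hzT hcard
    have h2 : M11_g g b * dU w * (M11_g g b)⁻¹ ∈ HC (M11_g g) (M11_n bar) := by
      have hg : M11_g g b = M11_g g (b.1, k) := rfl
      rw [hg, hw]
      exact Subgroup.subset_closure ⟨(b.1, k), z k, rfl⟩
    have h3 : M11_g g b * dU z * (M11_g g b)⁻¹ =
        (M11_g g b * dU (z * w⁻¹) * (M11_g g b)⁻¹) * (M11_g g b * dU w * (M11_g g b)⁻¹) := by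
      conv_lhs => rw [hzw, M11_dU_mul]
      group
    rw [h3]
    exact mul_mem h1 h2

lemma M11_HT {bar : Ω → Ω} (hb : ∀ i, bar (bar i) = i) (g : (Matrix Ω Ω F)ˣ) :
    HT (barT bar : Set (Ω → Fˣ)) g ≤ HC (M11_g g) (M11_n bar) := by
  unfold HT
  rw [Subgroup.closure_le]
  rintro x (⟨z, hz, rfl⟩ | ⟨z, hz, rfl⟩)
  · by_cases hne : Nonempty Ω
    · obtain ⟨ω⟩ := hne
      have := M11_mem_HC hb g (false, ω) _ z hz le_rfl
      have hg : M11_g g (false, ω) = 1 := if_neg (by simp)
      rw [hg, one_mul, inv_one, mul_one] at this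
      exact this
    · have he : IsEmpty Ω := not_nonempty_iff.1 hne
      have h1 : (dU z : (Matrix Ω Ω F)ˣ) = 1 := by
        ext i j
        exact (he.false i).elim
      rw [h1]
      exact one_mem _
  · by_cases hne : Nonempty Ω
    · obtain ⟨ω⟩ := hne
      have := M11_mem_HC hb g (true, ω) _ z hz le_rfl
      have hg : M11_g g (true, ω) = g := if_pos rfl
      rw [hg] at this
      exact this
    · have he : IsEmpty Ω := not_nonempty_iff.1 hne
      have h1 : (g * dU z * g⁻¹ : (Matrix Ω Ω F)ˣ) = 1 := by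
        ext i j
        exact (he.false i).elim
      rw [h1]
      exact one_mem _

lemma M11_entry {bar : Ω → Ω} {s : Ω → F} {ε : F} {D : ℕ} {H : Subgroup (Matrix Ω Ω F)ˣ}
    {g : (Matrix Ω Ω F)ˣ} (h : BarSetup bar s ε D H g) (i k : Ω) :
    ∃ x ∈ HC (M11_g g) (M11_n bar), (x : Matrix Ω Ω F) i k ≠ 0 := by
  by_contra hcon
  push Not at hcon
  have hle : Submodule.span F {x : Matrix Ω Ω F | ∃ h ∈ HT (barT bar : Set (Ω → Fˣ)) g,
      x = (h : Matrix Ω Ω F)} ≤ LinearMap.ker (Matrix.entryLinearMap F F i k) := by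
    rw [Submodule.span_le]
    rintro x ⟨y, hy, rfl⟩
    show Matrix.entryLinearMap F F i k (y : Matrix Ω Ω F) = 0
    exact hcon y (M11_HT h.bf.invol g hy)
  have hs := h.span
  unfold SpanTop at hs
  rw [hs] at hle
  have h1 : Matrix.single i k (1 : F) ∈ LinearMap.ker (Matrix.entryLinearMap F F i k) :=
    hle Submodule.mem_top
  have h2 : Matrix.entryLinearMap F F i k (Matrix.single i k (1 : F)) = 0 := h1
  have h3 : Matrix.entryLinearMap F F i k (Matrix.single i k (1 : F)) = 1 := by
    show Matrix.single i k (1 : F) i k = 1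
    exact Matrix.single_apply_same ..
  rw [h3] at h2
  exact one_ne_zero h2

lemma M11_inv {bar : Ω → Ω} {s : Ω → F} {ε : F} {D : ℕ} {H : Subgroup (Matrix Ω Ω F)ˣ}
    {g : (Matrix Ω Ω F)ˣ} (h : BarSetup bar s ε D H g) (x : (Matrix Ω Ω F)ˣ)
    (hx : x ∈ HC (M11_g g) (M11_n bar)) :
    ((x⁻¹ : (Matrix Ω Ω F)ˣ) : Matrix Ω Ω F) = starM bar s (x : Matrix Ω Ω F) := by
  have hi := ZD_iso D h.D2 H bar s h.Hi _ (M11_HC h x hx)
  calc ((x⁻¹ : (Matrix Ω Ω F)ˣ) : Matrix Ω Ω F)
      = ((x⁻¹ : (Matrix Ω Ω F)ˣ) : Matrix Ω Ω F) * ((x : Matrix Ω Ω F) * starM bar s x) := by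
        rw [hi.1, mul_one]
    _ = starM bar s (x : Matrix Ω Ω F) := by
        rw [← mul_assoc, Units.inv_mul, one_mul]

omit [DecidableEq Ω] in
lemma M11_star_mul {bar : Ω → Ω} {s : Ω → F} {ε : F} (hb : BarF bar s ε) (A B : Matrix Ω Ω F) :
    starM bar s (A * B) = starM bar s B * starM bar s A := by
  ext i j
  simp only [starM, of_apply, mul_apply]
  have e : Function.Bijective bar := Function.Involutive.bijective hb.invol
  rw [Finset.mul_sum, ← Function.Bijective.sum_comp e
    (fun k => s i * s j * (A (bar j) k * B k (bar i)))]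
  refine Finset.sum_congr rfl fun k _ => ?_
  have := hb.s2 k
  linear_combination (-(s i * s j * (A (bar j) (bar k) * B (bar k) (bar i)))) * this

omit [Fintype Ω] [DecidableEq Ω] in
lemma M11_star_star {bar : Ω → Ω} {s : Ω → F} {ε : F} (hb : BarF bar s ε) (hε : ε * ε = 1)
    (A : Matrix Ω Ω F) :
    starM bar s (starM bar s A) = A := by
  ext i j
  simp only [starM, of_apply, hb.invol, hb.seps]
  have h1 := hb.s2 i
  have h2 := hb.s2 j
  linear_combination (ε * ε * (s j * s j) * A i j) * h1 + (ε * ε * A i j) * h2 + A i j * hε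

lemma M11_skew_iff {bar : Ω → Ω} {s : Ω → F} {X : Matrix Ω Ω F} :
    X ∈ skewM bar s ↔ starM bar s X = - X := by
  rw [mem_skewM]
  constructor
  · intro h
    ext i j
    exact h i j
  · intro h i j
    exact congrFun (congrFun h i) j

/-- The element `E_(a, bar b) - starM E_(a, bar b)`. -/
noncomputable def M11_W (bar : Ω → Ω) (s : Ω → F) (a b : Ω) : Matrix Ω Ω F :=
  Matrix.single a (bar b) (1 : F) - starM bar s (Matrix.single a (bar b) (1 : F))

omit [Fintype Ω] in
lemma M11_star_single {bar : Ω → Ω} {s : Ω → F} (hb : BarF bar s 1) (a b : Ω) :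
    starM bar s (Matrix.single a (bar b) (1 : F)) =
      (s a * s b) • Matrix.single b (bar a) (1 : F) := by
  ext i j
  simp only [starM, of_apply, M11_single_apply, Matrix.smul_apply, smul_eq_mul]
  by_cases h : b = i ∧ bar a = j
  · obtain ⟨rfl, rfl⟩ := h
    rw [hb.invol, hb.seps, if_pos ⟨rfl, rfl⟩, if_pos ⟨rfl, rfl⟩]
    ring
  · have h' : ¬ (a = bar j ∧ bar b = bar i) := by
      rintro ⟨e1, e2⟩
      apply h
      refine ⟨?_, ?_⟩
      · rw [← hb.invol b, e2, hb.invol]
      · rw [e1, hb.invol]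
    rw [if_neg h, if_neg h']
    ring

omit [Fintype Ω] in
lemma M11_W_skew {bar : Ω → Ω} {s : Ω → F} (hb : BarF bar s 1) (a b : Ω) :
    starM bar s (M11_W bar s a b) = - M11_W bar s a b := by
  have h1 : starM bar s (M11_W bar s a b) = starM bar s (Matrix.single a (bar b) (1 : F)) -
      starM bar s (starM bar s (Matrix.single a (bar b) (1 : F))) := by
    ext i j
    simp only [M11_W, starM, of_apply, Matrix.sub_apply]
    ring
  rw [h1, M11_star_star hb (by ring)]
  unfold M11_W
  abel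

omit [Fintype Ω] in
lemma M11_W_symm {bar : Ω → Ω} {s : Ω → F} (hb : BarF bar s 1) (a b : Ω) :
    M11_W bar s b a = (-(s a * s b)) • M11_W bar s a b := by
  unfold M11_W
  rw [M11_star_single hb, M11_star_single hb, smul_sub, smul_smul]
  have h1 : -(s a * s b) * (s a * s b) = -1 := by
    linear_combination (-(s b * s b)) * hb.s2 a - hb.s2 b
  rw [h1, neg_one_smul, neg_smul, mul_comm (s b) (s a)]
  abel

omit [Fintype Ω] in
lemma M11_W_self {bar : Ω → Ω} {s : Ω → F} (hb : BarF bar s 1) (a : Ω) :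
    M11_W bar s a a = 0 := by
  unfold M11_W
  rw [M11_star_single hb, hb.s2, one_smul, sub_self]

lemma M11_conj_entry {bar : Ω → Ω} {s : Ω → F} (hb : BarF bar s 1) (x : Matrix Ω Ω F)
    (a b i t : Ω) :
    (x * M11_W bar s a b * starM bar s x) i (bar t) =
      s b * s t * (x i a * x t b - x i b * x t a) := by
  have key : ∀ c d e : Ω, (x * Matrix.single c d (1 : F) * starM bar s x) i e =
      x i c * starM bar s x d e := by
    intro c d e
    rw [mul_apply, Finset.sum_eq_single d]
    · rw [mul_apply, Finset.sum_eq_single c]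
      · rw [Matrix.single_apply_same, mul_one]
      · intro k _ hk
        rw [M11_single_apply, if_neg (by rintro ⟨h1, _⟩; exact hk h1.symm), mul_zero]
      · intro h
        exact absurd (Finset.mem_univ _) h
    · intro k _ hk
      rw [mul_apply, Finset.sum_eq_zero, zero_mul]
      intro l _
      rw [M11_single_apply, if_neg (by rintro ⟨_, h1⟩; exact hk h1.symm), mul_zero]
    · intro h
      exact absurd (Finset.mem_univ _) h
  unfold M11_W
  rw [M11_star_single hb, mul_sub, sub_mul, Matrix.sub_apply, key, mul_smul_comm, smul_mul_assoc,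
    Matrix.smul_apply, key]
  simp only [starM, of_apply, hb.invol, hb.seps, smul_eq_mul, one_mul]
  have h1 := hb.s2 a
  linear_combination (-(s b * s t * x i b * x t a)) * h1

lemma M11_h {bar : Ω → Ω} {s : Ω → F} {D : ℕ} {H : Subgroup (Matrix Ω Ω F)ˣ}
    {g : (Matrix Ω Ω F)ˣ} (h : BarSetup bar s 1 D H g) (k : Ω) :
    M11_W bar s k (bar k) ∈ LieM D H := by
  have h1 := LieM_torus D H (1 : (Matrix Ω Ω F)ˣ) (M11_n bar (false, k)) (by
    intro t
    rw [one_mul, inv_one, mul_one]
    exact h.T1 _ (M11_barT h.bf.invol (false, k) t))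
  rw [inv_one, Units.val_one, one_mul, mul_one] at h1
  have h2 : M11_W bar s k (bar k) = diagonal (fun ω => ((M11_n bar (false, k) ω : ℤ) : F)) := by
    unfold M11_W
    rw [M11_star_single h.bf]
    ext i j
    rw [Matrix.sub_apply, Matrix.smul_apply, smul_eq_mul, h.bf.invol, M11_single_apply, M11_single_apply,
      h.bf.seps, one_mul, h.bf.s2, one_mul, diagonal_apply]
    by_cases hij : i = j
    · subst hij
      rw [if_pos rfl]
      simp only [M11_n, and_self, Int.cast_sub, Int.cast_ite, Int.cast_one, Int.cast_zero,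
        eq_comm]
    · rw [if_neg hij, if_neg (by rintro ⟨rfl, rfl⟩; exact hij rfl),
        if_neg (by rintro ⟨rfl, rfl⟩; exact hij rfl), sub_zero]
  rw [h2]
  exact h1

/-- (e): the key relation. -/
lemma M11_key [Infinite F] {bar : Ω → Ω} {s : Ω → F} {D : ℕ} {H : Subgroup (Matrix Ω Ω F)ˣ}
    {g : (Matrix Ω Ω F)ˣ} (h : BarSetup bar s 1 D H g)
    (hfix : ∀ i j, bar i = i → bar j = j → i = j) {i t a b : Ω}
    (hn : M11_W bar s i t ∉ LieM D H) (hab : M11_W bar s a b ∈ LieM D H)
    (x : (Matrix Ω Ω F)ˣ) (hx : x ∈ HC (M11_g g) (M11_n bar)) :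
    (x : Matrix Ω Ω F) i a * (x : Matrix Ω Ω F) t b =
      (x : Matrix Ω Ω F) i b * (x : Matrix Ω Ω F) t a := by
  by_contra hne
  apply hn
  by_cases hit : i = bar t
  · have ht : t = bar i := by rw [hit, h.bf.invol]
    rw [ht]
    exact M11_h h i
  have hL := LieM_conj D H x (M11_HC h x hx) hab
  rw [M11_inv h x hx] at hL
  have hsk : (x : Matrix Ω Ω F) * M11_W bar s a b * starM bar s (x : Matrix Ω Ω F) ∈
      skewM bar s := by
    rw [M11_skew_iff, M11_star_mul h.bf, M11_star_mul h.bf, M11_star_star h.bf (by ring),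
      M11_W_skew h.bf]
    rw [neg_mul, mul_neg, mul_assoc]
  have hentry := M11_conj_entry h.bf (x : Matrix Ω Ω F) a b i t
  have hs0 : ∀ k, s k ≠ 0 := by
    intro k hk
    have := h.bf.s2 k
    rw [hk, zero_mul] at this
    exact zero_ne_one this
  refine weight_bar h.two 1 bar s h.bf hfix (LieM D H) ?_ _ hL hsk i (bar t) hit ?_
  · intro z hz X hX
    exact LieM_conj D H (dU z) (h.T1 z hz) hX
  · rw [hentry]
    exact mul_ne_zero (mul_ne_zero (hs0 b) (hs0 t)) (sub_ne_zero.2 hne)

/-- (f), (g) together with the choice of a point by genericity. -/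
lemma M11_generic [Infinite F] {bar : Ω → Ω} {s : Ω → F} {ε : F} {D : ℕ}
    {H : Subgroup (Matrix Ω Ω F)ˣ} {g : (Matrix Ω Ω F)ˣ} (h : BarSetup bar s ε D H g) (i t : Ω)
    (hit : i ≠ t) :
    ∃ x ∈ HC (M11_g g) (M11_n bar), (∀ k l, (x : Matrix Ω Ω F) k l ≠ 0) ∧
      (x : Matrix Ω Ω F) i i * (x : Matrix Ω Ω F) t t ≠
        (x : Matrix Ω Ω F) i t * (x : Matrix Ω Ω F) t i := by
  obtain ⟨x, hx, hP⟩ := generic (J := Option (Ω × Ω)) (M11_g g) (M11_n bar)
    (fun j => match j with
      | some kl => MvPolynomial.X (Sum.inl kl)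
      | none => MvPolynomial.X (Sum.inl (i, i)) * MvPolynomial.X (Sum.inl (t, t)) -
          MvPolynomial.X (Sum.inl (i, t)) * MvPolynomial.X (Sum.inl (t, i))) (by
      intro j
      cases j with
      | none =>
        refine ⟨1, one_mem _, ?_⟩
        simp only [evU, map_sub, map_mul, MvPolynomial.eval_X, Sum.elim_inl, Units.val_one,
          one_apply_eq]
        rw [one_apply_ne hit, one_apply_ne (Ne.symm hit)]
        simp
      | some kl =>
        obtain ⟨x, hx, hne⟩ := M11_entry h kl.1 kl.2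
        refine ⟨x, hx, ?_⟩
        simp only [evU, MvPolynomial.eval_X, Sum.elim_inl]
        exact hne)
  refine ⟨x, hx, ?_, ?_⟩
  · intro k l
    have := hP (some (k, l))
    simp only [evU, MvPolynomial.eval_X, Sum.elim_inl] at this
    exact this
  · have := hP none
    simp only [evU, map_sub, map_mul, MvPolynomial.eval_X, Sum.elim_inl] at this
    exact sub_ne_zero.1 this

/-- Constancy of the quotients on the classes. -/
lemma M11_const [Infinite F] {bar : Ω → Ω} {s : Ω → F} {D : ℕ} {H : Subgroup (Matrix Ω Ω F)ˣ}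
    {g : (Matrix Ω Ω F)ˣ} (h : BarSetup bar s 1 D H g)
    (hfix : ∀ i j, bar i = i → bar j = j → i = j) {i t : Ω}
    (hn : M11_W bar s i t ∉ LieM D H)
    (x : (Matrix Ω Ω F)ˣ) (hx : x ∈ HC (M11_g g) (M11_n bar))
    (hx0 : ∀ k l, (x : Matrix Ω Ω F) k l ≠ 0) {a b : Ω}
    (hab : Relation.ReflTransGen (fun a b => M11_W bar s a b ∈ LieM D H) a b) :
    (x : Matrix Ω Ω F) i a / (x : Matrix Ω Ω F) t a =
      (x : Matrix Ω Ω F) i b / (x : Matrix Ω Ω F) t b := by
  induction hab with
  | refl => rfl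
  | tail _ hbc ih =>
    rw [ih, div_eq_div_iff (hx0 _ _) (hx0 _ _)]
    exact M11_key h hfix hn hbc x hx

lemma M11_all [Infinite F] {bar : Ω → Ω} {s : Ω → F} {D : ℕ} {H : Subgroup (Matrix Ω Ω F)ˣ}
    {g : (Matrix Ω Ω F)ˣ} (h : BarSetup bar s 1 D H g)
    (hfix : ∀ i j, bar i = i → bar j = j → i = j) (hcard : 2 ≤ Fintype.card Ω) (a b : Ω) :
    M11_W bar s a b ∈ LieM D H := by
  have hsymm : ∀ a b, M11_W bar s a b ∈ LieM D H → M11_W bar s b a ∈ LieM D H := by
    intro a b hab
    rw [M11_W_symm h.bf]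
    exact Submodule.smul_mem _ _ hab
  have hRsymm : ∀ a b, Relation.ReflTransGen (fun a b => M11_W bar s a b ∈ LieM D H) a b →
      Relation.ReflTransGen (fun a b => M11_W bar s a b ∈ LieM D H) b a := by
    intro a b hab
    induction hab with
    | refl => exact Relation.ReflTransGen.refl
    | tail _ hbc ih => exact Relation.ReflTransGen.head (hsymm _ _ hbc) ih
  -- (g)
  have hR : ∀ i t, Relation.ReflTransGen (fun a b => M11_W bar s a b ∈ LieM D H) i t →
      M11_W bar s i t ∈ LieM D H := by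
    intro i t hRit
    by_cases hit : i = t
    · rw [← hit, M11_W_self h.bf]
      exact Submodule.zero_mem _
    by_contra hn
    obtain ⟨x, hx, hx0, hne⟩ := M11_generic h i t hit
    have := M11_const h hfix hn x hx hx0 hRit
    rw [div_eq_div_iff (hx0 _ _) (hx0 _ _)] at this
    exact hne this
  -- the element `a0`
  obtain ⟨a0, ha0⟩ : ∃ a0, bar a0 ≠ a0 := by
    by_contra hcon
    push Not at hcon
    have : Fintype.card Ω ≤ 1 := Fintype.card_le_one_iff.2 fun i j => hfix i j (hcon i) (hcon j)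
    omega
  have hclass : ∀ j, Relation.ReflTransGen (fun a b => M11_W bar s a b ∈ LieM D H) a0 j := by
    by_contra hcon
    push Not at hcon
    obtain ⟨j, hj⟩ := hcon
    obtain ⟨x, hx, hx0, -⟩ := M11_generic h a0 (bar a0) (Ne.symm ha0)
    have hb0 : Relation.ReflTransGen (fun a b => M11_W bar s a b ∈ LieM D H) a0 (bar a0) :=
      Relation.ReflTransGen.single (M11_h h a0)
    have hcmp : ∀ i t, Relation.ReflTransGen (fun a b => M11_W bar s a b ∈ LieM D H) a0 i →
        ¬ Relation.ReflTransGen (fun a b => M11_W bar s a b ∈ LieM D H) a0 t →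
        (x : Matrix Ω Ω F) i (bar a0) / (x : Matrix Ω Ω F) i a0 =
          (x : Matrix Ω Ω F) t (bar a0) / (x : Matrix Ω Ω F) t a0 := by
      intro i t hi ht
      have hn : M11_W bar s i t ∉ LieM D H := fun hh => ht (hi.tail hh)
      have := M11_const h hfix hn x hx hx0 hb0
      rw [div_eq_div_iff (hx0 _ _) (hx0 _ _)] at this ⊢
      rw [mul_comm _ ((x : Matrix Ω Ω F) t a0), mul_comm ((x : Matrix Ω Ω F) t (bar a0)),
        mul_comm ((x : Matrix Ω Ω F) t a0)]
      exact this.symm
    have hmu : ∀ i, (x : Matrix Ω Ω F) i (bar a0) =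
        (x : Matrix Ω Ω F) a0 (bar a0) / (x : Matrix Ω Ω F) a0 a0 * (x : Matrix Ω Ω F) i a0 := by
      intro i
      have hi : (x : Matrix Ω Ω F) i (bar a0) / (x : Matrix Ω Ω F) i a0 =
          (x : Matrix Ω Ω F) a0 (bar a0) / (x : Matrix Ω Ω F) a0 a0 := by
        by_cases hi : Relation.ReflTransGen (fun a b => M11_W bar s a b ∈ LieM D H) a0 i
        · rw [hcmp i j hi hj, hcmp a0 j Relation.ReflTransGen.refl hj]
        · rw [← hcmp a0 i Relation.ReflTransGen.refl hi]
      rw [← hi, div_mul_cancel₀ _ (hx0 _ _)]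
    have h1 : (((x⁻¹ : (Matrix Ω Ω F)ˣ) : Matrix Ω Ω F) * (x : Matrix Ω Ω F)) (bar a0) (bar a0) = 1 := by
      rw [Units.inv_mul, one_apply_eq]
    have h2 : (((x⁻¹ : (Matrix Ω Ω F)ˣ) : Matrix Ω Ω F) * (x : Matrix Ω Ω F)) (bar a0) a0 = 0 := by
      rw [Units.inv_mul, one_apply_ne ha0]
    have h3 : (((x⁻¹ : (Matrix Ω Ω F)ˣ) : Matrix Ω Ω F) * (x : Matrix Ω Ω F)) (bar a0) (bar a0) =
        (x : Matrix Ω Ω F) a0 (bar a0) / (x : Matrix Ω Ω F) a0 a0 *
        (((x⁻¹ : (Matrix Ω Ω F)ˣ) : Matrix Ω Ω F) * (x : Matrix Ω Ω F)) (bar a0) a0 := by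
      rw [mul_apply, mul_apply, Finset.mul_sum]
      refine Finset.sum_congr rfl fun i _ => ?_
      rw [hmu i]
      ring
    rw [h1, h2, mul_zero] at h3
    exact one_ne_zero h3
  exact hR a b ((hRsymm _ _ (hclass a)).trans (hclass b))

theorem skew_le_SO [Infinite F] {bar : Ω → Ω} {s : Ω → F} {D : ℕ} {H : Subgroup (Matrix Ω Ω F)ˣ}
    {g : (Matrix Ω Ω F)ˣ} (h : BarSetup bar s 1 D H g)
    (hfix : ∀ i j, bar i = i → bar j = j → i = j) (hcard : 2 ≤ Fintype.card Ω) :
    skewM bar s ≤ LieM D H := by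
  intro X hX
  have hX' := M11_skew_iff.1 hX
  have hall := M11_all h hfix hcard
  have hsum : (2 : F) • X = ∑ i, ∑ j, X i j • M11_W bar s i (bar j) := by
    have h1 : ∀ i j, M11_W bar s i (bar j) = Matrix.single i j (1 : F) -
        starM bar s (Matrix.single i j (1 : F)) := by
      intro i j
      unfold M11_W
      rw [h.bf.invol]
    have h2 : (2 : F) • X = X - starM bar s X := by
      rw [hX', sub_neg_eq_add, two_smul]
    rw [h2]
    ext k l
    simp only [h1, Matrix.sub_apply, starM, of_apply, Matrix.sum_apply, Matrix.smul_apply, smul_eq_mul, mul_sub,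
      Finset.sum_sub_distrib, M11_single_apply]
    congr 1
    · rw [Finset.sum_eq_single k, Finset.sum_eq_single l]
      · simp
      · intro b _ hb
        rw [if_neg (by rintro ⟨_, h3⟩; exact hb h3), mul_zero]
      · intro hh
        exact absurd (Finset.mem_univ _) hh
      · intro b _ hb
        refine Finset.sum_eq_zero fun c _ => ?_
        rw [if_neg (by rintro ⟨h3, _⟩; exact hb h3), mul_zero]
      · intro hh
        exact absurd (Finset.mem_univ _) hh
    · rw [Finset.sum_eq_single (bar l), Finset.sum_eq_single (bar k)]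
      · simp only [and_self, if_true, mul_one]
        ring
      · intro b _ hb
        rw [if_neg (by rintro ⟨_, h3⟩; exact hb h3), mul_zero, mul_zero]
      · intro hh
        exact absurd (Finset.mem_univ _) hh
      · intro b _ hb
        refine Finset.sum_eq_zero fun c _ => ?_
        rw [if_neg (by rintro ⟨h3, _⟩; exact hb h3), mul_zero, mul_zero]
      · intro hh
        exact absurd (Finset.mem_univ _) hh
  have hmem : (2 : F) • X ∈ LieM D H := by
    rw [hsum]
    exact Submodule.sum_mem _ fun i _ => Submodule.sum_mem _ fun j _ =>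
      Submodule.smul_mem _ _ (hall i (bar j))
  have := Submodule.smul_mem (LieM D H) ((2 : F)⁻¹) hmem
  rwa [smul_smul, inv_mul_cancel₀ h.two, one_smul] at this

end Pool.Agent.CTO
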