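import Pool.Agent.CTO.Mat0

/-!
# M2: density of the finite torus

`TT` is a set of diagonal matrices such that every polynomial of degree `≤ D` vanishing on the finite
set `T` vanishes on `TT`; if `g * dU z * g⁻¹ ∈ H` for `z ∈ T`, then `g * dU z * g⁻¹ ∈ ZD D H` for
`z ∈ TT`.
Proof: for `p` of degree `≤ D` vanishing on `H`, `z ↦ ev (g * diagonal z * g⁻¹) p` is a polynomial of
degree `≤ D` in `z` (substitute for the variable `(i, j)` the linear form
`∑ k, g i k * (g⁻¹) k j * X k`), and it vanishes on `T`.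
-/

namespace Pool.Agent.CTO

open Matrix

variable {F Ω : Type} [Field F] [Fintype Ω] [DecidableEq Ω]

/-- substituting polynomials of degree at most one does not raise the total degree -/
theorem M2_totalDegree {σ τ : Type} (f : σ → MvPolynomial τ F) (hf : ∀ i, (f i).totalDegree ≤ 1)
    (p : MvPolynomial σ F) : (MvPolynomial.bind₁ f p).totalDegree ≤ p.totalDegree := by
  classical
  rw [MvPolynomial.bind₁, MvPolynomial.aeval_def, MvPolynomial.eval₂_eq]
  refine MvPolynomial.totalDegree_finsetSum_le ?_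
  intro d hd
  refine (MvPolynomial.totalDegree_mul _ _).trans ?_
  have h1 : (algebraMap F (MvPolynomial τ F) (MvPolynomial.coeff d p)).totalDegree = 0 :=
    MvPolynomial.totalDegree_C _
  rw [h1, zero_add]
  refine (MvPolynomial.totalDegree_finsetProd _ _).trans ?_
  refine le_trans (Finset.sum_le_sum (g := fun i => d i) ?_) (MvPolynomial.le_totalDegree hd)
  intro i _
  refine (MvPolynomial.totalDegree_pow _ _).trans ?_
  calc d i * (f i).totalDegree ≤ d i * 1 := Nat.mul_le_mul_left _ (hf i)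
    _ = d i := mul_one _

theorem ZD_torus (D : ℕ) (H : Subgroup (Matrix Ω Ω F)ˣ) (T TT : Set (Ω → Fˣ))
    (g : (Matrix Ω Ω F)ˣ) (hT : ∀ z ∈ T, g * dU z * g⁻¹ ∈ H)
    (dens : ∀ p : MvPolynomial Ω F, p.totalDegree ≤ D →
      (∀ z ∈ T, MvPolynomial.eval (fun i : Ω => ((z i : Fˣ) : F)) p = 0) →
      ∀ z ∈ TT, MvPolynomial.eval (fun i : Ω => ((z i : Fˣ) : F)) p = 0) :
    ∀ z ∈ TT, ((g * dU z * g⁻¹ : (Matrix Ω Ω F)ˣ) : Matrix Ω Ω F) ∈ ZD D H := by
  intro z hz p hp hH
  set L : Ω × Ω → MvPolynomial Ω F := fun ij =>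
    ∑ k, MvPolynomial.C ((g : Matrix Ω Ω F) ij.1 k * ((g⁻¹ : (Matrix Ω Ω F)ˣ) : Matrix Ω Ω F) k ij.2) *
      MvPolynomial.X k with hL
  have hL1 : ∀ ij, (L ij).totalDegree ≤ 1 := by
    intro ij
    refine MvPolynomial.totalDegree_finsetSum_le ?_
    intro k _
    refine (MvPolynomial.totalDegree_mul _ _).trans ?_
    rw [MvPolynomial.totalDegree_C, MvPolynomial.totalDegree_X]
  have hev : ∀ y : Ω → Fˣ, MvPolynomial.eval (fun i : Ω => ((y i : Fˣ) : F))
      (MvPolynomial.bind₁ L p) =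
      ev ((g * dU y * g⁻¹ : (Matrix Ω Ω F)ˣ) : Matrix Ω Ω F) p := by
    intro y
    unfold ev
    rw [← MvPolynomial.coe_aeval_eq_eval, ← MvPolynomial.coe_aeval_eq_eval]
    show MvPolynomial.aeval (fun i : Ω => ((y i : Fˣ) : F)) (MvPolynomial.bind₁ L p) = _
    rw [MvPolynomial.aeval_bind₁]
    show _ = MvPolynomial.aeval _ p
    congr 2
    funext ij
    rw [hL]
    simp only [map_sum, map_mul, MvPolynomial.aeval_C, MvPolynomial.aeval_X, Units.val_mul, dU_val]
    rw [Matrix.mul_apply]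
    apply Finset.sum_congr rfl
    intro k _
    rw [Matrix.mul_diagonal]
    simp only [Algebra.algebraMap_self, RingHom.id_apply]
    ring
  have h1 := dens (MvPolynomial.bind₁ L p) ((M2_totalDegree L hL1 p).trans hp) (by
    intro y hy
    rw [hev]
    exact hH _ (hT y hy)) z hz
  rw [hev] at h1
  exact h1

end Pool.Agent.CTO
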