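import Pool.Agent.CTO.I0
import Pool.Agent.CTO.R6
import Pool.Agent.CTO.M2
import Pool.Agent.CTO.M6
import Pool.Agent.CTO.M8
import Pool.Agent.CTO.M10
import Pool.Agent.CTO.M11
import Pool.Agent.CTO.C1

/-!
# I2: the group generated by the squares of two tori has bounded index (symplectic, orthogonal case)

`F = AlgebraicClosure K`, `n = dim V`, `Ω = Fin n`; `w`, `ρ`, `bar`, `s` from `exists_rho_form`.
`H = sq T ⊔ sq T'`, `T' = g T g⁻¹` (`tor_conj`), its image `H'` under `rhoU ρ` is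
`HT (T0 w T) (rhoU ρ g)` (`map_HT`), it has the same order as `H` and spans (`span_of_adjoin`).
`D` maximal with `2 D n + n < q`, so `q ≤ 4 n (D + 1)`; `d = n (n + 1) / 2`, resp. `n (n - 1) / 2`
(`n ≥ 1`, resp. `n ≥ 2`, so that `d > 0`; for `n = 0` the index is `1`). `BarSetup` for `H'`:
`gi`, `Hi`: for an isometry `x` the adjoint of `x` is `x⁻¹`, so `ρ (x⁻¹) = starM bar s (ρ x)`;
`T1`, `T2` from `ZD_torus` and `dens_tor` (with `T = T0 w (tor ..)`, `TT = barT bar`, `g = 1` and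
`g = rhoU ρ g`);
`D2` needs `2 ≤ D` (`q` large); `span`: `HT (T0 w T) g' ≤ HT (barT bar) g'` because the elements
`z = (w i (t * t))_i` of `T0 w T` are in `barT bar`: `t* t = 1` gives `w (bar i) t * w i t = 1`; at a fixed
point `bar i = i` this is `w i t ^ 2 = 1`, so `z i = 1`; and `SpanTop` is monotone.
Then `skew_le_Sp`/`skew_le_SO`, `finrank_skewM_neg/pos` and `card_curves` give
`(D / d + 1) ^ d ≤ |H|`, `q ≤ 4 n (D + 1) ≤ 4 n d (D / d + 1)`, and `card_Sp_le`/`card_O_le` bound the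
isometry group: `relIndex ≤ 2 ^ n (4 n d) ^ d`.
-/

namespace Pool.Agent.CTO

open Module

lemma I2_arith (q c D m h i t : ℕ) (hm : 0 < m) (hq : q ≤ c * (D + 1)) (hh : (D / m + 1) ^ m ≤ h)
    (hi : i * h ≤ t * q ^ m) (hpos : 0 < h) : i ≤ t * (c * m) ^ m := by
  have h1 : D + 1 ≤ m * (D / m + 1) := Nat.lt_mul_div_succ D hm
  have h2 : q ≤ c * m * (D / m + 1) := by
    rw [mul_assoc]
    exact hq.trans (Nat.mul_le_mul_left c h1)
  have h3 : q ^ m ≤ (c * m) ^ m * h := by
    calc q ^ m ≤ (c * m * (D / m + 1)) ^ m := Nat.pow_le_pow_left h2 m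
      _ = (c * m) ^ m * (D / m + 1) ^ m := mul_pow _ _ _
      _ ≤ (c * m) ^ m * h := Nat.mul_le_mul_left _ hh
  have h4 : i * h ≤ t * (c * m) ^ m * h := by
    rw [mul_assoc]
    exact hi.trans (Nat.mul_le_mul_left t h3)
  exact Nat.le_of_mul_le_mul_right h4 hpos

lemma I2_finite (K V : Type) [Field K] [Finite K] [AddCommGroup V] [Module K V]
    [FiniteDimensional K V] : Finite (V ≃ₗ[K] V) := by
  have hV : Finite V := Module.finite_of_finite K
  exact Finite.of_injective (fun e : V ≃ₗ[K] V => (e : V → V)) DFunLike.coe_injective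

lemma I2_sq_le {G : Type} [Group G] (T : Subgroup G) : sq T ≤ T := by
  unfold sq
  rw [Subgroup.closure_le]
  rintro x ⟨t, ht, rfl⟩
  exact T.mul_mem ht ht

lemma I2_adj {K V : Type} [Field K] [AddCommGroup V] [Module K V] {f : V → V → K}
    {x : V ≃ₗ[K] V} (hx : x ∈ Isom f) : IsAdj f x.toLinearMap (x⁻¹).toLinearMap := by
  intro v w
  have h1 : x (x⁻¹ w) = w := LinearEquiv.apply_symm_apply x w
  have h2 := mem_Isom.1 hx v (x⁻¹ w)
  rw [h1] at h2
  exact h2

section core

variable {K V F : Type} [Field K] [Finite K] [AddCommGroup V] [Module K V] [FiniteDimensional K V]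
  [Field F] [Algebra K F] [IsAlgClosed F]

omit [Finite K] [FiniteDimensional K V] [IsAlgClosed F] in
/-- The elements of the torus are mapped into `barT bar`. -/
lemma I2_sub_barT {Ω : Type} [Fintype Ω] [DecidableEq Ω] (f : V → V → K)
    (A : Subalgebra K (Module.End K V)) (w : Ω → (A →ₐ[K] F)) (bar : Ω → Ω)
    (hbar : ∀ (i : Ω) (a b : A), IsAdj f (a : Module.End K V) b → w (bar i) a = w i b) :
    T0 w (tor (RingHom.id K) f A) ⊆ barT bar := by
  rintro z ⟨t, ⟨x, hx, hxt⟩, hz⟩ i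
  obtain ⟨hx1, hx2, -⟩ := mem_tor.1 hx
  obtain ⟨h1, h2⟩ := mem_torGL.1 hx1
  have h3 : t * ⟨(x⁻¹).toLinearMap, h2⟩ = 1 := by
    refine Subtype.ext ?_
    rw [MulMemClass.coe_mul, ← hxt]
    change (x * x⁻¹).toLinearMap = _
    rw [mul_inv_cancel]
    rfl
  have h4 : w (bar i) t = w i ⟨(x⁻¹).toLinearMap, h2⟩ := by
    refine hbar i t _ ?_
    rw [← hxt]
    exact I2_adj hx2
  have h5 : w i t * w (bar i) t = 1 := by
    rw [h4, ← map_mul, h3, map_one]
  constructor
  · refine Units.ext ?_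
    rw [Units.val_mul, hz, hz, map_mul, map_mul, Units.val_one]
    calc w i t * w i t * (w (bar i) t * w (bar i) t)
        = (w i t * w (bar i) t) * (w i t * w (bar i) t) := by ring
      _ = 1 := by rw [h5, one_mul]
  · intro hi
    refine Units.ext ?_
    rw [hz, map_mul, Units.val_one]
    rw [hi] at h5
    exact h5

/-- The order of the group generated by the squares of the two tori. -/
lemma I2_core (ε : K) (f : V → V → K) (hf : IsHF (RingHom.id K) ε f) (two : (2 : K) ≠ 0)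
    (A A' : Subalgebra K (Module.End K V)) (g : V ≃ₗ[K] V) (hA : IsTor f A) (hA' : IsTor f A')
    (hgf : g ∈ Isom f) (hg : CarriesTo g A A')
    (had : Algebra.adjoin K
      (EndSet (sq (tor (RingHom.id K) f A) ⊔ sq (tor (RingHom.id K) f A'))) = ⊤)
    (D d : ℕ) (hD2 : 2 ≤ D) (hD : 2 * D * finrank K V + finrank K V < Nat.card K) (hd : 0 < d)
    (hdim : ∀ (bar : Fin (finrank K V) → Fin (finrank K V)) (s : Fin (finrank K V) → F)
      (H' : Subgroup (Matrix (Fin (finrank K V)) (Fin (finrank K V)) F)ˣ)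
      (g' : (Matrix (Fin (finrank K V)) (Fin (finrank K V)) F)ˣ),
      (∀ i j, bar i = i → bar j = j → i = j) → BarSetup bar s (algebraMap K F ε) D H' g' →
      d ≤ finrank F (LieM D H')) :
    (D / d + 1) ^ d ≤
      Nat.card (sq (tor (RingHom.id K) f A) ⊔ sq (tor (RingHom.id K) f A') :
        Subgroup (V ≃ₗ[K] V)) := by
  have hfin := I2_finite K V
  have hconj := tor_conj (RingHom.id K) f A A' hA.toIsTorGL hA'.toIsTorGL g hg hgf
  obtain ⟨w, ρ, bar, s, hρ, hbf, hfix, hstar, hbar⟩ := exists_rho_form (F := F) ε f hf two A hA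
  obtain ⟨H, hH⟩ : ∃ H, H = sq (tor (RingHom.id K) f A) ⊔ sq (tor (RingHom.id K) f A') := ⟨_, rfl⟩
  rw [← hH] at had ⊢
  have htor : ∀ B : Subalgebra K (Module.End K V), tor (RingHom.id K) f B ≤ torGL B :=
    fun B x hx => hx.1
  have htor' : ∀ B : Subalgebra K (Module.End K V), tor (RingHom.id K) f B ≤ Isom f :=
    fun B x hx => hx.2.1
  have hHle : H ≤ Isom f := by
    rw [hH]
    exact sup_le ((I2_sq_le _).trans (htor' A)) ((I2_sq_le _).trans (htor' A'))
  have hmap : H.map (rhoU ρ) = HT (T0 w (tor (RingHom.id K) f A)) (rhoU ρ g) := by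
    rw [hH, ← hconj]
    exact map_HT A w ρ hρ.diag _ (htor A) g
  have hinj := rhoU_inj ρ hρ.inj
  have hspan : SpanTop (HT (T0 w (tor (RingHom.id K) f A)) (rhoU ρ g)) := by
    rw [← hmap]
    exact span_of_adjoin ρ hρ.span H had
  have hfinH : Finite (H.map (rhoU ρ)) :=
    Finite.of_equiv H (H.equivMapOfInjective (rhoU ρ) hinj).toEquiv
  have hcard : Nat.card (H.map (rhoU ρ)) = Nat.card H :=
    (Nat.card_congr (H.equivMapOfInjective (rhoU ρ) hinj).toEquiv).symm
  have hinf : Infinite F := IsAlgClosed.instInfinite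
  -- isometries
  have hiso : ∀ x ∈ Isom f, IsoM bar s ((rhoU ρ x : (Matrix _ _ F)ˣ) : Matrix _ _ F) := by
    intro x hx
    have h1 : starM bar s (ρ x.toLinearMap) = ρ (x⁻¹).toLinearMap := (hstar _ _ (I2_adj hx)).symm
    rw [IsoM, rhoU_val, h1, ← map_mul, ← map_mul]
    constructor
    · change ρ (x * x⁻¹).toLinearMap = 1
      rw [mul_inv_cancel]
      exact map_one ρ
    · change ρ (x⁻¹ * x).toLinearMap = 1
      rw [inv_mul_cancel]
      exact map_one ρ
  have hdens := dens_tor (F := F) ε f hf A hA w hρ.bij bar hbar D hD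
  have hsub : T0 w (tor (RingHom.id K) f A) ⊆ barT bar := I2_sub_barT f A w bar hbar
  have htwo : (2 : F) ≠ 0 := by
    intro h
    apply two
    have h1 : algebraMap K F 2 = 0 := by rw [map_ofNat, h]
    exact (map_eq_zero (algebraMap K F)).1 h1
  have hT1 := ZD_torus D (H.map (rhoU ρ)) (T0 w (tor (RingHom.id K) f A)) (barT bar) 1 (by
    intro z hz
    rw [hmap, one_mul, inv_one, mul_one]
    exact Subgroup.subset_closure (Or.inl ⟨z, hz, rfl⟩)) hdens
  have hT2 := ZD_torus D (H.map (rhoU ρ)) (T0 w (tor (RingHom.id K) f A)) (barT bar) (rhoU ρ g) (by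
    intro z hz
    rw [hmap]
    exact Subgroup.subset_closure (Or.inr ⟨z, hz, rfl⟩)) hdens
  have hle : HT (T0 w (tor (RingHom.id K) f A)) (rhoU ρ g) ≤ HT (barT bar) (rhoU ρ g) := by
    refine Subgroup.closure_mono ?_
    rintro x (⟨z, hz, rfl⟩ | ⟨z, hz, rfl⟩)
    · exact Or.inl ⟨z, hsub hz, rfl⟩
    · exact Or.inr ⟨z, hsub hz, rfl⟩
  have hsetup : BarSetup bar s (algebraMap K F ε) D (H.map (rhoU ρ)) (rhoU ρ g) :=
    { two := htwo
      bf := hbf
      D2 := hD2
      gi := hiso g hgf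
      Hi := by
        intro h hh
        obtain ⟨x, hx, rfl⟩ := Subgroup.mem_map.1 hh
        exact hiso x (hHle hx)
      T1 := by
        intro z hz
        have h1 := hT1 z hz
        rw [one_mul, inv_one, mul_one] at h1
        exact h1
      T2 := hT2
      span := by
        rw [SpanTop, eq_top_iff, ← hspan]
        refine Submodule.span_mono ?_
        rintro x ⟨h, hh, rfl⟩
        exact ⟨h, hle hh, rfl⟩ }
  have h1 := card_curves D d hd (H.map (rhoU ρ)) (hdim bar s _ _ hfix hsetup)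
  rw [hcard] at h1
  exact h1

end core

lemma I2_relIndex {G : Type} [Group G] (H L : Subgroup G) (h : H ≤ L) :
    H.relIndex L * Nat.card H = Nat.card L := by
  have h2 := Subgroup.index_mul_card (H.subgroupOf L)
  rw [Nat.card_congr (Subgroup.subgroupOfEquivOfLe h).toEquiv] at h2
  exact h2

lemma I2_le {K V : Type} [Field K] [AddCommGroup V] [Module K V] (f : V → V → K)
    (A A' : Subalgebra K (Module.End K V)) :
    sq (tor (RingHom.id K) f A) ⊔ sq (tor (RingHom.id K) f A') ≤ Isom f :=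
  sup_le ((I2_sq_le _).trans fun _ hx => hx.2.1) ((I2_sq_le _).trans fun _ hx => hx.2.1)

lemma I2_D (n Q : ℕ) (hn : 0 < n) (hQ : 5 * n + 1 ≤ Q) :
    ∃ D : ℕ, 2 ≤ D ∧ 2 * D * n + n < Q ∧ Q ≤ (4 * n) * (D + 1) := by
  obtain ⟨D, hD⟩ : ∃ D, D = (Q - n - 1) / (2 * n) := ⟨_, rfl⟩
  have h1 : 2 * n * D ≤ Q - n - 1 := by
    rw [hD]
    exact Nat.mul_div_le _ _
  have h2 : Q - n - 1 < 2 * n * (D + 1) := by
    rw [hD]
    exact Nat.lt_mul_div_succ _ (by omega)
  refine ⟨D, ?_, ?_, ?_⟩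
  · rw [hD]
    exact (Nat.le_div_iff_mul_le (by omega)).2 (by omega)
  · have h3 : 2 * D * n = 2 * n * D := by ring
    omega
  · have h4 : Q ≤ 2 * n * (D + 1) + n := by omega
    nlinarith

theorem index_Sp (n : ℕ) : ∃ k q0 : ℕ, ∀ (K V : Type) [Field K] [Finite K] [AddCommGroup V]
    [Module K V] [FiniteDimensional K V] (f : V → V → K) (A A' : Subalgebra K (Module.End K V))
    (g : V ≃ₗ[K] V),
    finrank K V = n → q0 ≤ Nat.card K → (2 : K) ≠ 0 → IsHF (RingHom.id K) (-1) f → IsTor f A →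
    IsTor f A' → g ∈ Isom f → CarriesTo g A A' →
    Algebra.adjoin K (EndSet (sq (tor (RingHom.id K) f A) ⊔ sq (tor (RingHom.id K) f A'))) = ⊤ →
    (sq (tor (RingHom.id K) f A) ⊔ sq (tor (RingHom.id K) f A')).relIndex (Isom f) ≤ k := by
  refine ⟨1 * ((4 * n) * (n * (n + 1) / 2)) ^ (n * (n + 1) / 2), 5 * n + 1, ?_⟩
  intro K V _ _ _ _ _ f A A' g hn hq two hf hA hA' hgf hg had
  have hfin := I2_finite K V
  by_cases hn0 : n = 0
  · have hV : Subsingleton V := Module.finrank_zero_iff.1 (hn.trans hn0)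
    have hss : Subsingleton (V ≃ₗ[K] V) := ⟨fun a b => LinearEquiv.ext fun v => Subsingleton.elim _ _⟩
    have hss' : Subsingleton (Subgroup (V ≃ₗ[K] V)) := inferInstance
    rw [Subsingleton.elim (sq (tor (RingHom.id K) f A) ⊔ sq (tor (RingHom.id K) f A')) (Isom f),
      Subgroup.relIndex_self, hn0]
    norm_num
  have hnpos : 0 < n := Nat.pos_of_ne_zero hn0
  obtain ⟨D, hD2, hD3, hD4⟩ := I2_D n (Nat.card K) hnpos hq
  have hdpos : 0 < n * (n + 1) / 2 := by
    refine Nat.div_pos ?_ two_pos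
    nlinarith
  have hcore := I2_core (F := AlgebraicClosure K) (-1) f hf two A A' g hA hA' hgf hg had D
    (n * (n + 1) / 2) hD2 (by rw [hn]; exact hD3) hdpos (by
      intro bar s H' g' _ hset
      rw [map_neg, map_one] at hset
      have h1 := skew_le_Sp hset
      have h2 := finrank_skewM_neg bar s hset.bf
      rw [Fintype.card_fin] at h2
      calc n * (n + 1) / 2 = finrank K V * (finrank K V + 1) / 2 := by rw [hn]
        _ ≤ _ := h2.trans (Submodule.finrank_mono h1))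
  refine I2_arith (Nat.card K) (4 * n) D (n * (n + 1) / 2) _ _ 1 hdpos hD4 hcore ?_ Nat.card_pos
  rw [I2_relIndex _ _ (I2_le f A A'), one_mul]
  have := card_Sp_le f hf
  rwa [hn] at this

theorem index_O (n : ℕ) (hn : 2 ≤ n) : ∃ k q0 : ℕ, ∀ (K V : Type) [Field K] [Finite K]
    [AddCommGroup V] [Module K V] [FiniteDimensional K V] (f : V → V → K)
    (A A' : Subalgebra K (Module.End K V)) (g : V ≃ₗ[K] V),
    finrank K V = n → q0 ≤ Nat.card K → (2 : K) ≠ 0 → IsHF (RingHom.id K) 1 f → IsTor f A →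
    IsTor f A' → g ∈ Isom f → CarriesTo g A A' →
    Algebra.adjoin K (EndSet (sq (tor (RingHom.id K) f A) ⊔ sq (tor (RingHom.id K) f A'))) = ⊤ →
    (sq (tor (RingHom.id K) f A) ⊔ sq (tor (RingHom.id K) f A')).relIndex (Isom f) ≤ k := by
  refine ⟨2 ^ n * ((4 * n) * (n * (n - 1) / 2)) ^ (n * (n - 1) / 2), 5 * n + 1, ?_⟩
  intro K V _ _ _ _ _ f A A' g hnV hq two hf hA hA' hgf hg had
  have hfin := I2_finite K V
  obtain ⟨D, hD2, hD3, hD4⟩ := I2_D n (Nat.card K) (by omega) hq
  have hdpos : 0 < n * (n - 1) / 2 := by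
    refine Nat.div_pos ?_ two_pos
    calc 2 = 2 * 1 := rfl
      _ ≤ n * (n - 1) := Nat.mul_le_mul hn (by omega)
  have hcore := I2_core (F := AlgebraicClosure K) 1 f hf two A A' g hA hA' hgf hg had D
    (n * (n - 1) / 2) hD2 (by rw [hnV]; exact hD3) hdpos (by
      intro bar s H' g' hfix hset
      rw [map_one] at hset
      have h1 := skew_le_SO hset hfix (by rw [Fintype.card_fin, hnV]; exact hn)
      have h2 := finrank_skewM_pos bar s hset.bf
      rw [Fintype.card_fin] at h2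
      calc n * (n - 1) / 2 = finrank K V * (finrank K V - 1) / 2 := by rw [hnV]
        _ ≤ _ := h2.trans (Submodule.finrank_mono h1))
  refine I2_arith (Nat.card K) (4 * n) D (n * (n - 1) / 2) _ _ (2 ^ n) hdpos hD4 hcore ?_
    Nat.card_pos
  rw [I2_relIndex _ _ (I2_le f A A')]
  have := card_O_le f hf two
  rwa [hnV] at this

end Pool.Agent.CTO
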