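import Pool.Agent.CTO.Base

/-!
# E0: Eichler transformations

Notation `E(u, w, γ) x = x + f(x,u) w - ε f(x,w) u + γ f(x,u) u`, for `IsEich σ ε f u w γ`. `f` is additive and
`σ`-semilinear in the second variable: `f x (a • y) = σ a * f x y`, and `σ ε = ε`, `ε * ε = 1`.
* `E(u,w,γ) E(u,w',γ') = E(u, w + w', γ + γ' - ε f(w',w))` (direct computation, using `f(u,u) = f(w,u) = 0`),
  `E(u,0,0) = 1`; so `E(u,w,γ)` is bijective, with inverse `E(u, -w, -γ - ε f(w,w))`.
* it is an isometry: `f(Ex, Ey) = f(x,y)`: the terms `σ f(y,u) f(x,w)` have coefficient `1 - ε² = 0`, the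
  terms `f(x,u) σ f(y,w)` have coefficient `- ε + ε = 0`, the terms `f(x,u) σ f(y,u)` have coefficient
  `σ γ + f(w,w) + ε γ = 0`.
* `g E(u,w,γ) g⁻¹ = E(g u, g w, γ)` for an isometry `g`.
* determinant one: `E - 1` is nilpotent (`(E - 1)^3 = 0`), so `det E = 1`
  (`LinearMap.det` of unipotent: e.g. `IsNilpotent` and `Matrix.isUnit...`; or: `E(u,w,γ)` is the square of
  `E(u, w/2, γ')` for a suitable `γ'` and for `σ = id` the determinant of an isometry is `± 1`; here only
  the case `2 ≠ 0` is needed; or write it with `charpoly`; for `σ ≠ id` use nilpotency.)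
-/

namespace Pool.Agent.CTO

open Module

variable {K V : Type} [Field K] [AddCommGroup V] [Module K V] {σ : K →+* K} {ε : K}
  {f : V → V → K}

theorem E0_eps (hf : IsHF σ ε f) : ε * ε = 1 ∧ σ ε = ε := by
  rcases hf.eps with rfl | rfl
  · exact ⟨by ring, map_one σ⟩
  · exact ⟨by ring, by rw [map_neg, map_one]⟩

theorem E0_add_right (hf : IsHF σ ε f) (v w w' : V) : f v (w + w') = f v w + f v w' := by
  rw [hf.herm (w + w') v, hf.add_left, map_add, hf.herm w v, hf.herm w' v]
  ring

theorem E0_smul_right (hf : IsHF σ ε f) (a : K) (v w : V) : f v (a • w) = σ a * f v w := by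
  rw [hf.herm (a • w) v, hf.smul_left, map_mul, hf.herm w v]
  ring

theorem E0_neg_left (hf : IsHF σ ε f) (v w : V) : f (-v) w = - f v w := by
  rw [← neg_one_smul K v, hf.smul_left]
  ring

theorem E0_neg_right (hf : IsHF σ ε f) (v w : V) : f v (-w) = - f v w := by
  rw [← neg_one_smul K w, E0_smul_right hf, map_neg, map_one]
  ring

theorem E0_zero_right (hf : IsHF σ ε f) (v : V) : f v 0 = 0 := by
  have h := E0_smul_right hf 0 v 0
  rw [zero_smul, map_zero, zero_mul] at h
  exact h

/-- the Eichler transformation as a linear map -/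
def E0_map (hf : IsHF σ ε f) (u w : V) (γ : K) : V →ₗ[K] V where
  toFun x := x + f x u • w - (ε * f x w) • u + (γ * f x u) • u
  map_add' x y := by
    rw [hf.add_left, hf.add_left]
    module
  map_smul' a x := by
    rw [hf.smul_left, hf.smul_left, RingHom.id_apply]
    module

theorem E0_map_apply (hf : IsHF σ ε f) (u w : V) (γ : K) (x : V) :
    E0_map hf u w γ x = x + f x u • w - (ε * f x w) • u + (γ * f x u) • u := rfl

theorem E0_comp (hf : IsHF σ ε f) {u w w' : V} (γ γ' : K) (hu : f u u = 0) (hw : f w u = 0)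
    (hw' : f w' u = 0) (x : V) :
    E0_map hf u w γ (E0_map hf u w' γ' x) =
      E0_map hf u (w + w') (γ + γ' - ε * f w' w) x := by
  have hu' : f u w = 0 := by rw [hf.herm w u, hw, map_zero, mul_zero]
  have e1 : f (E0_map hf u w' γ' x) u = f x u := by
    rw [E0_map_apply, hf.add_left, sub_eq_add_neg, hf.add_left, hf.add_left, E0_neg_left hf,
      hf.smul_left, hf.smul_left, hf.smul_left, hw', hu]
    ring
  have e2 : f (E0_map hf u w' γ' x) w = f x w + f x u * f w' w := by
    rw [E0_map_apply, hf.add_left, sub_eq_add_neg, hf.add_left, hf.add_left, E0_neg_left hf,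
      hf.smul_left, hf.smul_left, hf.smul_left, hu']
    ring
  rw [E0_map_apply hf u w γ, e1, e2, E0_map_apply, E0_map_apply, E0_add_right hf]
  module

theorem E0_map_zero (hf : IsHF σ ε f) (u x : V) : E0_map hf u 0 0 x = x := by
  rw [E0_map_apply, E0_zero_right hf]
  module

/-- the Eichler transformation as a linear equivalence -/
def E0_equiv (hf : IsHF σ ε f) {u w : V} (γ : K) (hu : f u u = 0) (hw : f w u = 0) :
    V ≃ₗ[K] V :=
  LinearEquiv.ofLinearMap (E0_map hf u w γ) (E0_map hf u (-w) (-γ - ε * f w w))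
    (by
      refine LinearMap.ext fun x => ?_
      have hw' : f (-w) u = 0 := by rw [E0_neg_left hf, hw, neg_zero]
      rw [LinearMap.comp_apply, E0_comp hf _ _ hu hw hw', LinearMap.id_apply, add_neg_cancel,
        E0_neg_left hf]
      have h1 : γ + (-γ - ε * f w w) - ε * -f w w = 0 := by ring
      rw [h1, E0_map_zero])
    (by
      refine LinearMap.ext fun x => ?_
      have hw' : f (-w) u = 0 := by rw [E0_neg_left hf, hw, neg_zero]
      rw [LinearMap.comp_apply, E0_comp hf _ _ hu hw' hw, LinearMap.id_apply, neg_add_cancel,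
        E0_neg_right hf]
      have h1 : -γ - ε * f w w + γ - ε * -f w w = 0 := by ring
      rw [h1, E0_map_zero])

theorem exists_eich (hf : IsHF σ ε f) (u w : V) (γ : K) (h : IsEich σ ε f u w γ) :
    ∃ g : V ≃ₗ[K] V, ∀ x, g x = x + f x u • w - (ε * f x w) • u + (γ * f x u) • u :=
  ⟨E0_equiv hf γ h.1 h.2.1, fun _ => rfl⟩

theorem eich_isom (hf : IsHF σ ε f) (g : V ≃ₗ[K] V) (hg : g ∈ EichSet σ ε f) : g ∈ Isom f := by
  obtain ⟨u, w, γ, ⟨huu, hwu, hγ⟩, hg⟩ := hg
  obtain ⟨he1, he2⟩ := E0_eps hf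
  have huw : f u w = 0 := by rw [hf.herm w u, hwu, map_zero, mul_zero]
  rw [mem_Isom]
  intro x y
  have hwy : f w y = ε * σ (f y w) := hf.herm y w
  have huy : f u y = ε * σ (f y u) := hf.herm y u
  have hR : ∀ v, f v (g y) = f v y + σ (f y u) * f v w - ε * σ (f y w) * f v u +
      σ γ * σ (f y u) * f v u := by
    intro v
    rw [hg y, E0_add_right hf, sub_eq_add_neg, E0_add_right hf, E0_add_right hf,
      E0_neg_right hf, E0_smul_right hf, E0_smul_right hf, E0_smul_right hf, map_mul, map_mul,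
      he2]
    ring
  have hL : ∀ v, f (g x) v = f x v + f x u * f w v - ε * f x w * f u v +
      γ * f x u * f u v := by
    intro v
    rw [hg x, hf.add_left, sub_eq_add_neg, hf.add_left, hf.add_left, E0_neg_left hf,
      hf.smul_left, hf.smul_left, hf.smul_left]
    ring
  rw [hL, hR, hR, hR, hwy, huy, huw, hwu, huu]
  have h1 : f x y + σ (f y u) * f x w - ε * σ (f y w) * f x u + σ γ * σ (f y u) * f x u +
      f x u * (ε * σ (f y w) + σ (f y u) * f w w - ε * σ (f y w) * 0 +
        σ γ * σ (f y u) * 0) -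
      ε * f x w * (ε * σ (f y u) + σ (f y u) * 0 - ε * σ (f y w) * 0 +
        σ γ * σ (f y u) * 0) +
      γ * f x u * (ε * σ (f y u) + σ (f y u) * 0 - ε * σ (f y w) * 0 +
        σ γ * σ (f y u) * 0) =
      f x y + σ (f y u) * f x w * (1 - ε * ε) +
        f x u * σ (f y u) * (σ γ + ε * γ + f w w) := by ring
  rw [h1, he1, hγ]
  ring

theorem EU_le (hf : IsHF σ ε f) : EU σ ε f ≤ Isom f := by
  unfold EU
  rw [Subgroup.closure_le]
  intro g hg
  exact eich_isom hf g hg

theorem EU_conj (hf : IsHF σ ε f) (g : V ≃ₗ[K] V) (hg : g ∈ Isom f) (x : V ≃ₗ[K] V)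
    (hx : x ∈ EU σ ε f) : g * x * g⁻¹ ∈ EU σ ε f := by
  rw [mem_Isom] at hg
  have key : EU σ ε f ≤ (EU σ ε f).comap (MulAut.conj g).toMonoidHom := by
    conv_lhs => unfold EU
    rw [Subgroup.closure_le]
    rintro x ⟨u, w, γ, ⟨huu, hwu, hγ⟩, hx⟩
    show g * x * g⁻¹ ∈ EU σ ε f
    refine Subgroup.subset_closure ⟨g u, g w, γ, ⟨?_, ?_, ?_⟩, fun y => ?_⟩
    · rw [hg, huu]
    · rw [hg, hwu]
    · rw [hg, hγ]
    · have h1 : g (g⁻¹ y) = y := LinearEquiv.apply_symm_apply g y
      have h2 : ∀ v, f (g⁻¹ y) v = f y (g v) := by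
        intro v
        rw [← hg (g⁻¹ y) v, h1]
      show g (x (g⁻¹ y)) = _
      rw [hx, map_add, map_sub, map_add, map_smul, map_smul, map_smul, h1, h2, h2]
  exact key hx

theorem E0_det [FiniteDimensional K V] (hf : IsHF σ ε f) (g : V ≃ₗ[K] V)
    (hg : g ∈ EichSet σ ε f) : LinearEquiv.det g = 1 := by
  obtain ⟨u, w, γ, ⟨huu, hwu, hγ⟩, hg⟩ := hg
  have huw : f u w = 0 := by rw [hf.herm w u, hwu, map_zero, mul_zero]
  obtain ⟨N, hN⟩ : ∃ N : Module.End K V, N = 1 - (g : V →ₗ[K] V) := ⟨_, rfl⟩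
  have hNx : ∀ x, N x = (-(f x u)) • w + (ε * f x w) • u - (γ * f x u) • u := by
    intro x
    rw [hN, LinearMap.sub_apply, Module.End.one_apply, LinearEquiv.coe_coe, hg]
    module
  have hNu : N u = 0 := by
    rw [hNx, huu, huw]
    module
  have hNw : N w = (ε * f w w) • u := by
    rw [hNx, hwu]
    module
  have hN3 : N ^ 3 = 0 := by
    refine LinearMap.ext fun x => ?_
    rw [pow_succ, pow_succ, pow_one, Module.End.mul_apply, Module.End.mul_apply, hNx x]
    simp only [map_sub, map_add, map_smul, hNu, hNw, smul_zero, LinearMap.zero_apply, add_zero,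
      sub_zero]
  have hnil : IsNilpotent N := ⟨3, hN3⟩
  have hch : N.charpoly = Polynomial.X ^ finrank K V := by
    have h1 := ((LinearMap.charpoly_nilpotent_tfae N).out 0 1).1 hnil
    exact h1
  have h2 : LinearMap.det (g : V →ₗ[K] V) = 1 := by
    have h3 := LinearMap.eval_charpoly N 1
    rw [hch, Polynomial.eval_pow, Polynomial.eval_X, one_pow, map_one, hN, sub_sub_cancel] at h3
    exact h3.symm
  apply Units.ext
  rw [LinearEquiv.coe_det, h2, Units.val_one]

theorem eich_det [FiniteDimensional K V] (hf : IsHF σ ε f) (g : V ≃ₗ[K] V) (hg : g ∈ EU σ ε f) :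
    LinearEquiv.det g = 1 := by
  have key : EU σ ε f ≤ (LinearEquiv.det : (V ≃ₗ[K] V) →* Kˣ).ker := by
    unfold EU
    rw [Subgroup.closure_le]
    intro g hg
    exact E0_det hf g hg
  exact key hg

end Pool.Agent.CTO
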