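import Pool.Agent.CTO.Base

/-!
# W0: subgroups of bounded index contain a normal subgroup of bounded exponent quotient

`G` a finite group, `H ≤ G0 ≤ G`, `H.relIndex G0 ≤ k`. In the group `↥G0` let `C0` be the normal core of
`H.subgroupOf G0`; it is the kernel of the action on `↥G0 ⧸ H` (`Subgroup.normalCore_eq_ker`), a set with
`m ≤ k` elements, so `x ^ (m !) ∈ C0` and, as `m ! ∣ k !`, `x ^ (k !) ∈ C0` for all `x ∈ G0`
(`pow_card_eq_one` in `Equiv.Perm`, `Fintype.card_perm`). `C = C0.map G0.subtype`.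
-/

namespace Pool.Agent.CTO

theorem exists_core {G : Type} [Group G] [Finite G] (H G0 : Subgroup G) (hH : H ≤ G0) (k : ℕ)
    (hk : H.relIndex G0 ≤ k) :
    ∃ C : Subgroup G, C ≤ H ∧ (∀ x ∈ G0, ∀ c ∈ C, x * c * x⁻¹ ∈ C) ∧
      ∀ x ∈ G0, x ^ k.factorial ∈ C := by
  refine ⟨((H.subgroupOf G0).normalCore).map G0.subtype, ?_, ?_, ?_⟩
  · rintro _ ⟨c, hc, rfl⟩
    exact (Subgroup.normalCore_le (H.subgroupOf G0)) hc
  · rintro x hx _ ⟨c, hc, rfl⟩
    refine ⟨⟨x, hx⟩ * c * (⟨x, hx⟩ : G0)⁻¹, ?_, rfl⟩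
    exact (Subgroup.normalCore_normal (H.subgroupOf G0)).conj_mem c hc ⟨x, hx⟩
  · intro x hx
    refine ⟨(⟨x, hx⟩ : G0) ^ k.factorial, ?_, rfl⟩
    show (⟨x, hx⟩ : G0) ^ k.factorial ∈ (H.subgroupOf G0).normalCore
    rw [Subgroup.normalCore_eq_ker, MonoidHom.mem_ker, map_pow]
    have h1 : Nat.card (Equiv.Perm (G0 ⧸ H.subgroupOf G0)) ∣ k.factorial := by
      rw [Nat.card_perm]
      exact Nat.factorial_dvd_factorial hk
    obtain ⟨m, hm⟩ := h1
    rw [hm, pow_mul, pow_card_eq_one', one_pow]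

end Pool.Agent.CTO
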