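import Pool.Agent.CTO.E0
import Pool.Agent.CTO.W0

/-!
# W1: subgroups of bounded index of the isometry group contain the Eichler transformations

For an isotropic `u ≠ 0` choose `u'` with `f u u' = 1`, `f u' u' = 0`; for a fixed point `s` of `σ` let `λ(s)` be
the isometry with `λ(s) u = s u`, `λ(s) u' = s⁻¹ u'`, identity on the orthogonal space of `u, u'`. The
commutators of `λ(s) ^ m` (which is in the normal subgroup `C`) with the Eichler transformations give
all Eichler transformations `E(u, w, γ)`.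
-/

namespace Pool.Agent.CTO

open Module

section W1

variable {K V : Type} [Field K] [AddCommGroup V] [Module K V] {σ : K →+* K} {ε : K}
  {f : V → V → K}

theorem W1_eps_sq (hf : IsHF σ ε f) : ε * ε = 1 := by
  rcases hf.eps with h | h <;> rw [h] <;> ring

theorem W1_sig_eps (hf : IsHF σ ε f) : σ ε = ε := by
  rcases hf.eps with h | h <;> rw [h] <;> simp

theorem W1_add_right (hf : IsHF σ ε f) (x y z : V) : f x (y + z) = f x y + f x z := by
  rw [hf.herm (y + z) x, hf.add_left, map_add, mul_add, ← hf.herm, ← hf.herm]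

theorem W1_smul_right (hf : IsHF σ ε f) (a : K) (x y : V) : f x (a • y) = σ a * f x y := by
  rw [hf.herm (a • y) x, hf.smul_left, map_mul, hf.herm y x]
  ring

theorem W1_zero_right (hf : IsHF σ ε f) (x : V) : f x 0 = 0 := by
  have := W1_smul_right hf 0 x 0
  rw [zero_smul, map_zero, zero_mul] at this
  exact this

theorem W1_zero_left (hf : IsHF σ ε f) (x : V) : f 0 x = 0 := by
  have := hf.smul_left 0 0 x
  rw [zero_smul, zero_mul] at this
  exact this

theorem W1_neg_right (hf : IsHF σ ε f) (x y : V) : f x (-y) = -f x y := by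
  have := W1_smul_right hf (-1) x y
  rw [neg_one_smul, map_neg, map_one, neg_one_mul] at this
  exact this

theorem W1_neg_left (hf : IsHF σ ε f) (x y : V) : f (-x) y = -f x y := by
  have := hf.smul_left (-1) x y
  rw [neg_one_smul, neg_one_mul] at this
  exact this

theorem W1_sub_left (hf : IsHF σ ε f) (x y z : V) : f (x - y) z = f x z - f y z := by
  rw [sub_eq_add_neg, hf.add_left, W1_neg_left hf, ← sub_eq_add_neg]

theorem W1_sub_right (hf : IsHF σ ε f) (x y z : V) : f x (y - z) = f x y - f x z := by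
  rw [sub_eq_add_neg, W1_add_right hf, W1_neg_right hf, ← sub_eq_add_neg]

/-- the linear form `x ↦ f x y` -/
def W1_form (hf : IsHF σ ε f) (y : V) : V →ₗ[K] K where
  toFun x := f x y
  map_add' a b := hf.add_left a b y
  map_smul' a b := by simp [hf.smul_left]

/-- the linear map `E(u,w,γ)` -/
def W1_map (hf : IsHF σ ε f) (u w : V) (γ : K) : V →ₗ[K] V :=
  LinearMap.id + (W1_form hf u).smulRight w - ε • (W1_form hf w).smulRight u
    + γ • (W1_form hf u).smulRight u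

theorem W1_map_apply (hf : IsHF σ ε f) (u w : V) (γ : K) (x : V) :
    W1_map hf u w γ x = x + f x u • w - (ε * f x w) • u + (γ * f x u) • u := by
  simp [W1_map, W1_form, mul_smul]

theorem W1_comp (hf : IsHF σ ε f) (u w w' : V) (γ γ' : K) (hu : f u u = 0) (hw : f w u = 0)
    (hw' : f w' u = 0) (x : V) :
    W1_map hf u w γ (W1_map hf u w' γ' x)
      = W1_map hf u (w + w') (γ + γ' - ε * f w' w) x := by
  have huw : f u w = 0 := by rw [hf.herm w u, hw, map_zero, mul_zero]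
  simp only [W1_map_apply, hf.add_left, W1_sub_left hf, hf.smul_left, W1_add_right hf, hu,
    hw', huw]
  module

/-- the linear map `x ↦ x + (S - 1) f(x,u') u + ε (T - 1) f(x,u) u'` -/
def W1_L (hf : IsHF σ ε f) (u u' : V) (S T : K) : V →ₗ[K] V :=
  LinearMap.id + (S - 1) • (W1_form hf u').smulRight u + (ε * (T - 1)) • (W1_form hf u).smulRight u'

theorem W1_L_apply (hf : IsHF σ ε f) (u u' : V) (S T : K) (x : V) :
    W1_L hf u u' S T x = x + ((S - 1) * f x u') • u + (ε * (T - 1) * f x u) • u' := by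
  simp [W1_L, W1_form, mul_smul]

theorem W1_L_comp (hf : IsHF σ ε f) (u u' : V) (hu : f u u = 0) (hu' : f u' u' = 0)
    (huu : f u u' = 1) (S T S' T' : K) (x : V) :
    W1_L hf u u' S T (W1_L hf u u' S' T' x) = W1_L hf u u' (S * S') (T * T') x := by
  have hu'u : f u' u = ε := by rw [hf.herm u u', huu, map_one, mul_one]
  have hee := W1_eps_sq hf
  simp only [W1_L_apply, hf.add_left, hf.smul_left, hu, hu', huu, hu'u]
  match_scalars
  · ring
  · ring
  · linear_combination (ε * (T - 1) * (T' - 1) * f x u) * hee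

theorem W1_L_isom (hf : IsHF σ ε f) (u u' : V) (hu : f u u = 0) (hu' : f u' u' = 0)
    (huu : f u u' = 1) (S T : K) (hS : σ S = S) (hT : σ T = T) (hST : S * T = 1) (x y : V) :
    f (W1_L hf u u' S T x) (W1_L hf u u' S T y) = f x y := by
  have hu'u : f u' u = ε := by rw [hf.herm u u', huu, map_one, mul_one]
  have hee := W1_eps_sq hf
  have hse := W1_sig_eps hf
  have h1 : f u y = ε * σ (f y u) := hf.herm y u
  have h2 : f u' y = ε * σ (f y u') := hf.herm y u'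
  simp only [W1_L_apply, hf.add_left, hf.smul_left, W1_add_right hf, W1_smul_right hf, hu, hu',
    huu, hu'u, map_mul, map_sub, map_one, hS, hT, hse]
  rw [h1, h2]
  linear_combination (σ (f y u') * f x u * (1 - S)) * hee
    + (σ (f y u') * f x u * ε ^ 2 + ε * σ (f y u) * f x u') * hST

theorem W1_exists_lam (hf : IsHF σ ε f) (u u' : V) (hu : f u u = 0) (hu' : f u' u' = 0)
    (huu : f u u' = 1) (s : K) (hs0 : s ≠ 0) (hs : σ s = s) (m : ℕ) :
    ∃ g ∈ Isom f, ∀ x, (g ^ m) x = W1_L hf u u' (s ^ m) (s⁻¹ ^ m) x := by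
  have hsi : σ s⁻¹ = s⁻¹ := by rw [map_inv₀, hs]
  have h1 : ∀ x, W1_L hf u u' 1 1 x = x := by
    intro x
    rw [W1_L_apply]
    simp
  let g : V ≃ₗ[K] V := LinearEquiv.ofLinearMap (W1_L hf u u' s s⁻¹) (W1_L hf u u' s⁻¹ s)
    (LinearMap.ext fun x => by
      rw [LinearMap.comp_apply, W1_L_comp hf u u' hu hu' huu, mul_inv_cancel₀ hs0,
        inv_mul_cancel₀ hs0, h1]
      rfl)
    (LinearMap.ext fun x => by
      rw [LinearMap.comp_apply, W1_L_comp hf u u' hu hu' huu, mul_inv_cancel₀ hs0,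
        inv_mul_cancel₀ hs0, h1]
      rfl)
  have hg : ∀ x, g x = W1_L hf u u' s s⁻¹ x := fun x => rfl
  refine ⟨g, ?_, ?_⟩
  · rw [mem_Isom]
    intro x y
    rw [hg, hg]
    exact W1_L_isom hf u u' hu hu' huu s s⁻¹ hs hsi (mul_inv_cancel₀ hs0) x y
  · induction m with
    | zero => intro x; simp [h1]
    | succ m ih =>
      intro x
      rw [pow_succ, LinearEquiv.mul_apply, ih, hg, W1_L_comp hf u u' hu hu' huu, ← pow_succ,
        ← pow_succ]

/-- The map `E(u,w,γ)` is given by an element of `C`. -/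
def W1_P (hf : IsHF σ ε f) (C : Subgroup (V ≃ₗ[K] V)) (u w : V) (γ : K) : Prop :=
  ∃ g ∈ C, ∀ x, g x = W1_map hf u w γ x

theorem W1_P_mul (hf : IsHF σ ε f) (C : Subgroup (V ≃ₗ[K] V)) (u w w' : V) (γ γ' : K)
    (hu : f u u = 0) (hw : f w u = 0) (hw' : f w' u = 0) (h : W1_P hf C u w γ)
    (h' : W1_P hf C u w' γ') : W1_P hf C u (w + w') (γ + γ' - ε * f w' w) := by
  obtain ⟨g, hg, hgx⟩ := h
  obtain ⟨g', hg', hgx'⟩ := h'
  refine ⟨g * g', mul_mem hg hg', fun x => ?_⟩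
  rw [LinearEquiv.mul_apply, hgx', hgx, W1_comp hf u w w' γ γ' hu hw hw']

theorem W1_comm (hf : IsHF σ ε f) (C : Subgroup (V ≃ₗ[K] V)) (hC : C ≤ Isom f)
    (hn : ∀ x ∈ Isom f, ∀ c ∈ C, x * c * x⁻¹ ∈ C) (u u' : V) (hu : f u u = 0)
    (hu' : f u' u' = 0) (huu : f u u' = 1) (r r' : K) (hrr : r * r' = 1) (hr : σ r = r)
    (Λ : V ≃ₗ[K] V) (hΛC : Λ ∈ C) (hΛ : ∀ x, Λ x = W1_L hf u u' r r' x)
    (w : V) (γ : K) (hw : f w u = 0) (hwu' : f w u' = 0) (hγ : σ γ + ε * γ = - f w w) :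
    W1_P hf C u ((r - 1) • w) (r ^ 2 * γ - γ - ε * f w w + ε * r * f w w) := by
  have hu'u : f u' u = ε := by rw [hf.herm u u', huu, map_one, mul_one]
  have hee := W1_eps_sq hf
  obtain ⟨g, hg⟩ := exists_eich hf u w γ ⟨hu, hw, hγ⟩
  have hg' : ∀ x, g x = W1_map hf u w γ x := fun x => by rw [hg, W1_map_apply]
  have hgI : g ∈ Isom f := eich_isom hf g ⟨u, w, γ, ⟨hu, hw, hγ⟩, hg⟩
  have hΛI : ∀ x y, f (Λ x) (Λ y) = f x y := hC hΛC
  have hΛu : Λ u = r • u := by
    rw [hΛ, W1_L_apply, huu, hu]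
    module
  have hΛw : Λ w = w := by
    rw [hΛ, W1_L_apply, hw, hwu']
    simp
  have hinv : ∀ x z, f (Λ⁻¹ x) z = f x (Λ z) := by
    intro x z
    rw [← hΛI (Λ⁻¹ x) z]
    have h1 : Λ (Λ⁻¹ x) = x := LinearEquiv.apply_symm_apply Λ x
    rw [h1]
  refine ⟨Λ * (g * Λ⁻¹ * g⁻¹), mul_mem hΛC (hn g hgI _ (inv_mem hΛC)), fun x => ?_⟩
  obtain ⟨z, rfl⟩ : ∃ z, g z = x := ⟨g⁻¹ x, LinearEquiv.apply_symm_apply g x⟩
  have e1 : (Λ * (g * Λ⁻¹ * g⁻¹)) (g z) = Λ (g (Λ⁻¹ z)) := by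
    simp only [LinearEquiv.mul_apply]
    have h1 : g⁻¹ (g z) = z := LinearEquiv.symm_apply_apply g z
    rw [h1]
  have e2 : Λ (Λ⁻¹ z) = z := LinearEquiv.apply_symm_apply Λ z
  have hrw : f ((r - 1) • w) u = 0 := by rw [hf.smul_left, hw, mul_zero]
  rw [e1, hg', hg', W1_comp hf u ((r - 1) • w) w _ γ hu hrw hw, W1_map_apply, W1_map_apply]
  simp only [map_add, map_sub, map_smul, hinv, e2, hΛu, hΛw, W1_smul_right hf, W1_add_right hf,
    hr, map_one]
  match_scalars <;> ring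

theorem W1_zero (hf : IsHF σ ε f) (C : Subgroup (V ≃ₗ[K] V)) (hC : C ≤ Isom f)
    (hn : ∀ x ∈ Isom f, ∀ c ∈ C, x * c * x⁻¹ ∈ C) (u u' : V) (hu : f u u = 0)
    (hu' : f u' u' = 0) (huu : f u u' = 1) (r r' : K) (hrr : r * r' = 1) (hr : σ r = r)
    (hr2 : r ^ 2 ≠ 1) (Λ : V ≃ₗ[K] V) (hΛC : Λ ∈ C) (hΛ : ∀ x, Λ x = W1_L hf u u' r r' x)
    (c : K) (hc : σ c + ε * c = 0) : W1_P hf C u 0 c := by
  have h0 : r ^ 2 - 1 ≠ 0 := sub_ne_zero.2 hr2
  have hσ : σ (r ^ 2 - 1) = r ^ 2 - 1 := by rw [map_sub, map_pow, map_one, hr]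
  have h1 := W1_comm hf C hC hn u u' hu hu' huu r r' hrr hr Λ hΛC hΛ 0 ((r ^ 2 - 1)⁻¹ * c)
    (W1_zero_left hf u) (W1_zero_left hf u') (by
      rw [map_mul, map_inv₀, hσ, W1_zero_left hf]
      linear_combination (r ^ 2 - 1)⁻¹ * hc)
  rw [smul_zero, W1_zero_left hf] at h1
  have h2 : r ^ 2 * ((r ^ 2 - 1)⁻¹ * c) - (r ^ 2 - 1)⁻¹ * c - ε * 0 + ε * r * 0 = c := by
    field_simp
    ring
  rwa [h2] at h1

theorem W1_perp (hf : IsHF σ ε f) (C : Subgroup (V ≃ₗ[K] V)) (hC : C ≤ Isom f)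
    (hn : ∀ x ∈ Isom f, ∀ c ∈ C, x * c * x⁻¹ ∈ C) (u u' : V) (hu : f u u = 0)
    (hu' : f u' u' = 0) (huu : f u u' = 1) (r r' : K) (hrr : r * r' = 1) (hr : σ r = r)
    (hr2 : r ^ 2 ≠ 1) (Λ : V ≃ₗ[K] V) (hΛC : Λ ∈ C) (hΛ : ∀ x, Λ x = W1_L hf u u' r r' x)
    (w : V) (γ : K) (hw : f w u = 0) (hwu' : f w u' = 0) (hγ : σ γ + ε * γ = - f w w) :
    W1_P hf C u w γ := by
  have hr1 : r ≠ 1 := by
    rintro rfl
    exact hr2 (one_pow 2)
  have h0 : r - 1 ≠ 0 := sub_ne_zero.2 hr1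
  have hσ : σ (r - 1) = r - 1 := by rw [map_sub, map_one, hr]
  have hee := W1_eps_sq hf
  have hse := W1_sig_eps hf
  obtain ⟨t, ht⟩ : ∃ t, t = (r - 1)⁻¹ := ⟨_, rfl⟩
  have ht1 : (r - 1) * t = 1 := by rw [ht]; exact mul_inv_cancel₀ h0
  have hσt : σ t = t := by rw [ht, map_inv₀, hσ]
  have hww : σ (f w w) = ε * f w w := by
    have h1 : f w w = ε * σ (f w w) := hf.herm w w
    linear_combination (-σ (f w w)) * hee + (-ε) * h1
  have h1 := W1_comm hf C hC hn u u' hu hu' huu r r' hrr hr Λ hΛC hΛ (t • w) (t ^ 2 * γ)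
    (by rw [hf.smul_left, hw, mul_zero]) (by rw [hf.smul_left, hwu', mul_zero]) (by
      rw [map_mul, map_pow, hσt, hf.smul_left, W1_smul_right hf, hσt]
      linear_combination t ^ 2 * hγ)
  rw [smul_smul, ht1, one_smul, hf.smul_left, W1_smul_right hf, hσt] at h1
  set γ' : K := r ^ 2 * (t ^ 2 * γ) - t ^ 2 * γ - ε * (t * (t * f w w))
    + ε * r * (t * (t * f w w)) with hγ'
  have h2 : σ γ' + ε * γ' = - f w w := by
    rw [hγ']
    simp only [map_add, map_sub, map_mul, map_pow, hσt, hr, hse, hww]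
    linear_combination (r ^ 2 * t ^ 2 - t ^ 2) * hγ + (-(f w w) * ((r - 1) * t + 1)) * ht1
      + (2 * t ^ 2 * (r - 1) * f w w) * hee
  have h3 := W1_zero hf C hC hn u u' hu hu' huu r r' hrr hr hr2 Λ hΛC hΛ (γ - γ') (by
    rw [map_sub]
    linear_combination hγ - h2)
  have h4 := W1_P_mul hf C u w 0 γ' (γ - γ') hu hw (W1_zero_left hf u) h1 h3
  rw [add_zero, W1_zero_left hf] at h4
  have h5 : γ' + (γ - γ') - ε * 0 = γ := by ring
  rwa [h5] at h4

theorem W1_all (hf : IsHF σ ε f) (two : (2 : K) ≠ 0) (C : Subgroup (V ≃ₗ[K] V)) (hC : C ≤ Isom f)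
    (hn : ∀ x ∈ Isom f, ∀ c ∈ C, x * c * x⁻¹ ∈ C) (m : ℕ) (hp : ∀ x ∈ Isom f, x ^ m ∈ C)
    (s : K) (hs0 : s ≠ 0) (hs : σ s = s) (hsm : s ^ (2 * m) ≠ 1)
    (g : V ≃ₗ[K] V) (hg : g ∈ EichSet σ ε f) : g ∈ C := by
  obtain ⟨u, w, γ, ⟨hu, hw, hγ⟩, hgx⟩ := hg
  have hee := W1_eps_sq hf
  have hse := W1_sig_eps hf
  by_cases hu0 : u = 0
  · have : g = 1 := by
      ext x
      rw [hgx, hu0, W1_zero_right hf]
      simp
    rw [this]
    exact one_mem _
  · have hex : ∃ y0, f u y0 ≠ 0 := by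
      by_contra hcon
      push Not at hcon
      exact hu0 (hf.nondeg u hcon)
    obtain ⟨y0, hy0⟩ := hex
    obtain ⟨y, hy⟩ : ∃ y, f u y = 1 := by
      refine ⟨σ (f u y0)⁻¹ • y0, ?_⟩
      rw [W1_smul_right hf, hf.invol, inv_mul_cancel₀ hy0]
    have hyu : f y u = ε := by rw [hf.herm u y, hy, map_one, mul_one]
    have hyy : σ (f y y) = ε * f y y := by
      have h1 : f y y = ε * σ (f y y) := hf.herm y y
      linear_combination (-σ (f y y)) * hee + (-ε) * h1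
    have h2i : (2 : K) * 2⁻¹ = 1 := mul_inv_cancel₀ two
    have hσ2 : σ (2⁻¹ : K) = 2⁻¹ := by rw [map_inv₀, map_ofNat σ 2]
    obtain ⟨u', hu', huu⟩ : ∃ u', f u' u' = 0 ∧ f u u' = 1 := by
      refine ⟨y - (f y y * 2⁻¹) • u, ?_, ?_⟩
      · simp only [W1_sub_left hf, W1_sub_right hf, hf.smul_left, W1_smul_right hf, map_mul, hσ2,
          hyy, hy, hyu, hu]
        linear_combination (-(f y y * 2⁻¹)) * hee - f y y * h2i
      · rw [W1_sub_right hf, W1_smul_right hf, hu, hy]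
        ring
    obtain ⟨l, hl, hlm⟩ := W1_exists_lam hf u u' hu hu' huu s hs0 hs m
    have hrr : s ^ m * s⁻¹ ^ m = 1 := by rw [← mul_pow, mul_inv_cancel₀ hs0, one_pow]
    have hr : σ (s ^ m) = s ^ m := by rw [map_pow, hs]
    have hr2 : (s ^ m) ^ 2 ≠ 1 := by
      rw [← pow_mul, mul_comm m 2]
      exact hsm
    have huw : f u w = 0 := by rw [hf.herm w u, hw, map_zero, mul_zero]
    set ξ : K := f w u' with hξ
    have hw1 : f (w - ξ • u) u = 0 := by
      rw [W1_sub_left hf, hf.smul_left, hw, hu]; ring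
    have hw1' : f (w - ξ • u) u' = 0 := by
      rw [W1_sub_left hf, hf.smul_left, huu, ← hξ]; ring
    have h1 := W1_perp hf C hC hn u u' hu hu' huu _ _ hrr hr hr2 (l ^ m) (hp l hl) hlm
      (w - ξ • u) (γ + ξ - ε * σ ξ) hw1 hw1' (by
        simp only [W1_sub_left hf, W1_sub_right hf, hf.smul_left, W1_smul_right hf, hu, hw, huw,
          map_add, map_sub, map_mul, hf.invol, hse]
        linear_combination hγ - σ ξ * hee)
    obtain ⟨g', hg', hgx'⟩ := h1
    have : g = g' := by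
      ext x
      rw [hgx, hgx', W1_map_apply]
      simp only [W1_sub_right hf, W1_smul_right hf]
      match_scalars <;> ring
    rw [this]
    exact hg'

end W1

theorem W1_exists_s {K : Type} [Field K] [Finite K] (σ : K →+* K) (m : ℕ) (hm : 0 < m)
    (h : 2 * m + 2 ≤ Nat.card {k : K // σ k = k}) : ∃ s : K, s ≠ 0 ∧ σ s = s ∧ s ^ (2 * m) ≠ 1 := by
  classical
  by_contra hcon
  push Not at hcon
  have hsub : {k : K | σ k = k} ⊆
      (↑(insert (0 : K) (Polynomial.nthRoots (2 * m) (1 : K)).toFinset) : Set K) := by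
    intro k hk
    rw [Finset.mem_coe, Finset.mem_insert]
    by_cases h0 : k = 0
    · exact Or.inl h0
    · right
      rw [Multiset.mem_toFinset, Polynomial.mem_nthRoots (by omega)]
      exact hcon k h0 hk
  have h1 := Set.ncard_le_ncard hsub (Finset.finite_toSet _)
  rw [Set.ncard_coe_finset] at h1
  have h2 : Set.ncard {k : K | σ k = k} = Nat.card {k : K // σ k = k} :=
    (Nat.card_coe_set_eq _).symm
  have h3 := Finset.card_insert_le (0 : K) (Polynomial.nthRoots (2 * m) (1 : K)).toFinset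
  have h4 := Multiset.toFinset_card_le (Polynomial.nthRoots (2 * m) (1 : K))
  have h5 := Polynomial.card_nthRoots (2 * m) (1 : K)
  omega

theorem eich_mem_of_index (k : ℕ) : ∃ q0 : ℕ, ∀ (K V : Type) [Field K] [Finite K] [AddCommGroup V]
    [Module K V] [FiniteDimensional K V] (σ : K →+* K) (ε : K) (f : V → V → K)
    (H : Subgroup (V ≃ₗ[K] V)), q0 ≤ Nat.card {k : K // σ k = k} → (2 : K) ≠ 0 → IsHF σ ε f →
    H ≤ Isom f → H.relIndex (Isom f) ≤ k → EU σ ε f ≤ H := by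
  refine ⟨2 * k.factorial + 2, ?_⟩
  intro K V _ _ _ _ _ σ ε f H hq two hf hH hk
  have : Finite V := Module.finite_of_finite K
  have : Finite (V ≃ₗ[K] V) := DFunLike.finite _
  obtain ⟨C, hCH, hn, hp⟩ := exists_core H (Isom f) hH k hk
  obtain ⟨s, hs0, hs, hsm⟩ := W1_exists_s σ k.factorial k.factorial_pos hq
  rw [EU, Subgroup.closure_le]
  intro g hg
  exact hCH (W1_all hf two C (hCH.trans hH) hn k.factorial hp s hs0 hs hsm g hg)

end Pool.Agent.CTO
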