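import Pool.Agent.CTO.A3

/-!
# A5: surjectivity of the determinant on tori

* `det_torGL`: `V` is isomorphic to `A` as an `A`-module, so `det t` is the determinant of the
  multiplication by `t` on `A`. Let `M` be a maximal ideal of `A`, `L = A / M`, a finite field, `M = e A`
  with `e` idempotent. For `x ∈ A` the element `t = e + (1 - e) x` acts as the identity on `M` and as `x`
  on `A / M`, so `det t = N_{L/K}(x mod M)`; the norm of finite fields is surjective
  (`FiniteField.norm_surjective`).
* `det_isom_norm`: adjoint endomorphisms have conjugate determinants (`A5_gram`).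
* `det_torU`: `σ ≠ id`, `y σ(y) = 1`. There is `x ∈ K` nonzero with `y = x / σ x` (Hilbert 90: choose `k` with
  `x = k + y σ k ≠ 0`, e.g. from `k = 1` or `k = κ`, `σ κ = - κ`; then `y σ x = y σ k + k = x`). Choose
  `t ∈ torGL A` with `det t = x`, and `t* ` its adjoint (in `A`, a unit); `g = t (t*)⁻¹` is an isometry in
  `torGL A` with determinant `x / σ x = y`.
-/

namespace Pool.Agent.CTO

open Module

variable {K V : Type} [Field K] [Finite K] [AddCommGroup V] [Module K V] [FiniteDimensional K V]

/-- adjoint endomorphisms have conjugate determinants -/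
theorem A5_gram {K V : Type} [Field K] [AddCommGroup V] [Module K V] [FiniteDimensional K V]
    {σ : K →+* K} {ε : K} {f : V → V → K} (hf : IsHF σ ε f)
    (S T : Module.End K V) (h : IsAdj f S T) : LinearMap.det S = σ (LinearMap.det T) := by
  classical
  let b := Module.finBasis K V
  let J : Matrix (Fin (finrank K V)) (Fin (finrank K V)) K := Matrix.of fun i j => f (b i) (b j)
  have sumL : ∀ (s : Finset (Fin (finrank K V))) (c : Fin (finrank K V) → K) (w : V),
      f (∑ i ∈ s, c i • b i) w = ∑ i ∈ s, c i * f (b i) w := by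
    intro s c w
    induction s using Finset.induction_on with
    | empty => simp [A3_zero_left hf]
    | insert a s ha ih =>
      rw [Finset.sum_insert ha, Finset.sum_insert ha, hf.add_left, hf.smul_left, ih]
  have sumR : ∀ (s : Finset (Fin (finrank K V))) (c : Fin (finrank K V) → K) (v : V),
      f v (∑ i ∈ s, c i • b i) = ∑ i ∈ s, σ (c i) * f v (b i) := by
    intro s c v
    induction s using Finset.induction_on with
    | empty => simp [A3_zero_right hf]
    | insert a s ha ih =>
      rw [Finset.sum_insert ha, Finset.sum_insert ha, A3_add_right hf, A3_smul_right hf, ih]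
  have e1 : (LinearMap.toMatrix b b S).transpose * J =
      J * (LinearMap.toMatrix b b T).map σ := by
    ext i j
    rw [Matrix.mul_apply, Matrix.mul_apply]
    have h1 : f (S (b i)) (b j) = f (b i) (T (b j)) := h _ _
    have h2 : S (b i) = ∑ k, (LinearMap.toMatrix b b S) k i • b k := by
      simp only [LinearMap.toMatrix_apply]
      exact (b.sum_repr _).symm
    have h3 : T (b j) = ∑ k, (LinearMap.toMatrix b b T) k j • b k := by
      simp only [LinearMap.toMatrix_apply]
      exact (b.sum_repr _).symm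
    rw [h2, h3, sumL, sumR] at h1
    calc ∑ k, (LinearMap.toMatrix b b S).transpose i k * J k j
        = ∑ k, (LinearMap.toMatrix b b S) k i * f (b k) (b j) := rfl
      _ = ∑ k, σ ((LinearMap.toMatrix b b T) k j) * f (b i) (b k) := h1
      _ = ∑ k, J i k * (LinearMap.toMatrix b b T).map σ k j := by
        apply Finset.sum_congr rfl
        intro k _
        exact mul_comm _ _
  have hJ : J.det ≠ 0 := by
    intro h0
    obtain ⟨v, hv, hvJ⟩ := Matrix.exists_vecMul_eq_zero_iff.2 h0
    apply hv
    have hz : ∑ i, v i • b i = 0 := by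
      apply hf.nondeg
      intro w
      rw [← b.sum_repr w, sumR]
      apply Finset.sum_eq_zero
      intro j _
      have h1 := congrFun hvJ j
      rw [Matrix.vecMul, dotProduct] at h1
      rw [sumL]
      have h2 : ∑ i, v i * f (b i) (b j) = 0 := h1
      rw [h2, mul_zero]
    funext i
    have := congrArg (fun x => b.repr x i) hz
    simpa [Finsupp.single_apply] using this
  have e2 := congrArg Matrix.det e1
  rw [Matrix.det_mul, Matrix.det_mul, Matrix.det_transpose, mul_comm J.det] at e2
  have e3 := mul_right_cancel₀ hJ e2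
  rw [← LinearMap.det_toMatrix b S, ← LinearMap.det_toMatrix b T, e3]
  exact (RingHom.map_det σ _).symm

/-- the norm of a finite reduced algebra over a finite field is surjective -/
theorem A5_ring (K R : Type) [Field K] [Finite K] [CommRing R] [Algebra K R] [Module.Finite K R]
    [IsReduced R] [Nontrivial R] (y : K) :
    ∃ t : R, LinearMap.det (LinearMap.mulLeft K t) = y := by
  obtain ⟨M, hM⟩ := Ideal.exists_maximal R
  have : IsArtinianRing R := IsArtinianRing.of_finite K R
  have := IsArtinianRing.isSemisimpleRing_of_isReduced R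
  obtain ⟨e, he, hJ⟩ := IsSemisimpleRing.ideal_eq_span_idempotent M
  let _ : Field (R ⧸ M) := Ideal.Quotient.field M
  have : Finite R := Module.finite_of_finite K
  have : Finite (R ⧸ M) := Finite.of_surjective _ Ideal.Quotient.mk_surjective
  obtain ⟨π, hπ⟩ : ∃ π : R →ₗ[K] (R ⧸ M), π = (Ideal.Quotient.mkₐ K M).toLinearMap := ⟨_, rfl⟩
  have hπs : Function.Surjective π := by
    rw [hπ]
    exact Ideal.Quotient.mk_surjective
  have hπm : ∀ a b : R, π (a * b) = π a * π b := by
    intro a b
    rw [hπ]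
    exact map_mul (Ideal.Quotient.mkₐ K M) a b
  have hπe : π e = 0 := by
    rw [hπ]
    have : e ∈ M := by
      rw [hJ]
      exact Ideal.mem_span_singleton_self e
    exact Ideal.Quotient.eq_zero_iff_mem.2 this
  have hπ1 : π 1 = 1 := by
    rw [hπ]
    exact map_one (Ideal.Quotient.mkₐ K M)
  have hker : ∀ m : R, m ∈ LinearMap.ker π → e * m = m := by
    intro m hm
    rw [LinearMap.mem_ker, hπ] at hm
    have h1 : m ∈ M := Ideal.Quotient.eq_zero_iff_mem.1 hm
    rw [hJ, Ideal.mem_span_singleton'] at h1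
    obtain ⟨c, rfl⟩ := h1
    have he' : e * e = e := he
    rw [mul_comm e, mul_assoc, he']
  obtain ⟨z, hz⟩ := FiniteField.norm_surjective K (R ⧸ M) y
  obtain ⟨x, rfl⟩ := hπs z
  refine ⟨e + (1 - e) * x, ?_⟩
  obtain ⟨t, ht⟩ : ∃ t : R, t = e + (1 - e) * x := ⟨_, rfl⟩
  rw [← ht]
  have hπt : π t = π x := by
    rw [ht, map_add, hπm, map_sub, hπe, hπ1, sub_zero, one_mul, zero_add]
  have hcomap : LinearMap.ker π ≤ (LinearMap.ker π).comap (LinearMap.mulLeft K t) := by
    intro m hm
    rw [Submodule.mem_comap, LinearMap.mulLeft_apply, LinearMap.mem_ker, hπm,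
      LinearMap.mem_ker.1 hm, mul_zero]
  rw [LinearMap.det_eq_det_mul_det (LinearMap.ker π) (LinearMap.mulLeft K t) hcomap]
  have h1 : (LinearMap.mulLeft K t).restrict hcomap = LinearMap.id := by
    apply LinearMap.ext
    intro m
    apply Subtype.ext
    rw [LinearMap.coe_restrict_apply, LinearMap.mulLeft_apply, LinearMap.id_apply, ht]
    have h2 := hker m m.2
    calc (e + (1 - e) * x) * (m : R) = e * m + x * (m - e * m) := by ring
      _ = m := by rw [h2, sub_self, mul_zero, add_zero]
  rw [h1, LinearMap.det_id, one_mul, ← hz, Algebra.norm_apply, ← hπt]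
  rw [← LinearMap.det_conj ((LinearMap.ker π).mapQ (LinearMap.ker π) (LinearMap.mulLeft K t) hcomap)
    (π.quotKerEquivOfSurjective hπs)]
  congr 1
  apply LinearMap.ext
  intro q
  obtain ⟨r, rfl⟩ := hπs q
  have h3 : (π.quotKerEquivOfSurjective hπs).symm (π r) = (LinearMap.ker π).mkQ r := by
    rw [LinearEquiv.symm_apply_eq]
    rfl
  rw [LinearMap.comp_apply, LinearMap.comp_apply, LinearEquiv.coe_coe, LinearEquiv.coe_coe, h3,
    Submodule.mkQ_apply, Submodule.mapQ_apply]
  change π (t * r) = π t * π r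
  exact hπm t r

theorem det_torGL [Nontrivial V] (A : Subalgebra K (Module.End K V)) (hA : IsTorGL A) (y : Kˣ) :
    ∃ t ∈ torGL A, LinearEquiv.det t = y := by
  obtain ⟨v0, hinj, hsur⟩ := exists_cyc A hA
  let cr : CommRing A :=
    { (inferInstance : Ring A) with
      mul_comm := fun a b => Subtype.ext (hA.comm a.1 a.2 b.1 b.2) }
  have : IsReduced A := by
    rw [isReduced_iff_pow_one_lt 2 (by norm_num)]
    intro x hx
    rw [pow_two] at hx
    have h2 : (x : Module.End K V) * x = 0 := congrArg Subtype.val hx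
    exact Subtype.ext (hA.red x.1 x.2 h2)
  have : Nontrivial A := inferInstance
  obtain ⟨t, ht⟩ := A5_ring K A (y : K)
  obtain ⟨E, hE⟩ : ∃ E : A ≃ₗ[K] V, ∀ a : A, E a = (a : Module.End K V) v0 := by
    let φ : A →ₗ[K] V :=
      { toFun := fun a => (a : Module.End K V) v0
        map_add' := fun _ _ => rfl
        map_smul' := fun _ _ => rfl }
    have hb : Function.Bijective φ := by
      constructor
      · rw [injective_iff_map_eq_zero]
        intro a ha
        exact Subtype.ext (hinj a.1 a.2 ha)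
      · intro v
        obtain ⟨a, ha, hav⟩ := hsur v
        exact ⟨⟨a, ha⟩, hav⟩
    exact ⟨LinearEquiv.ofBijective φ hb, fun a => rfl⟩
  have hdet : LinearMap.det (t : Module.End K V) = y := by
    rw [← ht, ← LinearMap.det_conj (LinearMap.mulLeft K t) E]
    congr 1
    apply LinearMap.ext
    intro v
    obtain ⟨a, rfl⟩ := E.surjective v
    rw [LinearMap.comp_apply, LinearMap.comp_apply, LinearEquiv.coe_coe, LinearEquiv.coe_coe,
      E.symm_apply_apply, LinearMap.mulLeft_apply, hE, hE]
    rfl
  have hu : IsUnit (t : Module.End K V) := by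
    rw [LinearMap.isUnit_iff_isUnit_det, hdet]
    exact y.isUnit
  obtain ⟨g, hg, hgt⟩ := exists_torGL A t t.2 hu
  refine ⟨g, hg, ?_⟩
  apply Units.ext
  rw [LinearEquiv.coe_det, hgt, hdet]

omit [Finite K] [FiniteDimensional K V] in
theorem A5_isom_adj {f : V → V → K} {g : V ≃ₗ[K] V} (hg : g ∈ Isom f) :
    IsAdj f g.toLinearMap (g⁻¹).toLinearMap := by
  intro v w
  have h1 : w = g ((g⁻¹ : V ≃ₗ[K] V) w) := (LinearEquiv.apply_symm_apply g w).symm
  conv_lhs => rw [h1]
  exact hg v _

theorem det_isom_norm (σ : K →+* K) (ε : K) (f : V → V → K) (hf : IsHF σ ε f) (g : V ≃ₗ[K] V)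
    (hg : g ∈ Isom f) : ((LinearEquiv.det g : Kˣ) : K) * σ ((LinearEquiv.det g : Kˣ) : K) = 1 := by
  have h1 := A5_gram hf _ _ (A5_isom_adj hg)
  rw [← LinearEquiv.coe_det, ← LinearEquiv.coe_det] at h1
  rw [map_inv] at h1
  have h2 : σ (((LinearEquiv.det g)⁻¹ : Kˣ) : K) * σ ((LinearEquiv.det g : Kˣ) : K) = 1 := by
    rw [← map_mul, Units.inv_mul, map_one]
  rw [← h1] at h2
  exact h2

theorem det_torU [Nontrivial V] (σ : K →+* K) (hσ : ∃ k, σ k ≠ k) (ε : K) (f : V → V → K)
    (hf : IsHF σ ε f) (A : Subalgebra K (Module.End K V)) (hA : IsTor f A) (y : Kˣ)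
    (hy : (y : K) * σ y = 1) : ∃ t ∈ tor σ f A, LinearEquiv.det t = y := by
  obtain ⟨x, hx0, hx⟩ : ∃ x : K, x ≠ 0 ∧ (y : K) * σ x = x := by
    have key : ∀ k : K, (y : K) * σ (k + y * σ k) = k + y * σ k := by
      intro k
      rw [map_add, map_mul, hf.invol]
      linear_combination k * hy
    by_cases h1 : (1 : K) + y * σ 1 = 0
    · obtain ⟨k, hk⟩ := hσ
      refine ⟨k + y * σ k, ?_, key k⟩
      rw [map_one, mul_one] at h1
      have h2 : (y : K) = -1 := by linear_combination h1
      rw [h2]
      intro h3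
      apply hk
      linear_combination -h3
    · exact ⟨_, h1, key 1⟩
  obtain ⟨t, ht, htd⟩ := det_torGL A hA.toIsTorGL (Units.mk0 x hx0)
  obtain ⟨b, hb, hadj⟩ := hA.star _ ht.1
  have hd1 : LinearMap.det (t.toLinearMap) = σ (LinearMap.det b) := A5_gram hf _ _ hadj
  have hd2 : LinearMap.det b = σ (LinearMap.det t.toLinearMap) := A5_gram hf _ _ (A3_adj_symm hf hadj)
  have hd3 : LinearMap.det t.toLinearMap = x := by
    rw [← LinearEquiv.coe_det, htd, Units.val_mk0]
  have hσx : σ x ≠ 0 := by
    intro h0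
    apply hx0
    rw [← hx, h0, mul_zero]
  have hbu : IsUnit b := by
    rw [LinearMap.isUnit_iff_isUnit_det, hd2, hd3]
    exact isUnit_iff_ne_zero.2 hσx
  obtain ⟨c, hc, hcb⟩ := exists_torGL A b hb hbu
  have hgt : t * c⁻¹ ∈ torGL A := mul_mem ht (inv_mem hc)
  have hiso : t * c⁻¹ ∈ Isom f := by
    intro v w
    -- `f (t c⁻¹ v) (t c⁻¹ w) = f (c⁻¹ v) (c t c⁻¹ w) = f (c⁻¹ v) (t w) = f (c c⁻¹ v) w`
    have e1 : ∀ v w : V, f (t v) w = f v (c w) := by
      intro v w
      have := hadj v w
      rw [← hcb] at this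
      exact this
    have e2 : ∀ v w : V, f (c v) w = f v (t w) := by
      intro v w
      have := A3_adj_symm hf hadj v w
      rw [← hcb] at this
      exact this
    have e3 : ∀ w : V, c (t ((c⁻¹ : V ≃ₗ[K] V) w)) = t w := by
      intro w
      have h5 := hA.comm _ hc.1 _ ht.1
      have h6 := congrArg (fun g : Module.End K V => g ((c⁻¹ : V ≃ₗ[K] V) w)) h5
      have h7 : c (t ((c⁻¹ : V ≃ₗ[K] V) w)) = t (c ((c⁻¹ : V ≃ₗ[K] V) w)) := h6
      rw [h7]
      congr 1
      exact LinearEquiv.apply_symm_apply c w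
    change f (t ((c⁻¹ : V ≃ₗ[K] V) v)) (t ((c⁻¹ : V ≃ₗ[K] V) w)) = f v w
    rw [e1, e3, ← e2]
    congr 1
    exact LinearEquiv.apply_symm_apply c v
  refine ⟨t * c⁻¹, ⟨hgt, hiso, ?_⟩, ?_⟩
  · intro h
    obtain ⟨k, hk⟩ := hσ
    exact absurd (h k) hk
  · apply Units.ext
    rw [map_mul, map_inv, Units.val_mul, LinearEquiv.coe_det, hd3]
    have h8 : ((LinearEquiv.det c : Kˣ) : K) = σ x := by
      rw [LinearEquiv.coe_det, hcb, hd2, hd3]
    rw [Units.val_inv_eq_inv_val, h8]
    rw [← div_eq_mul_inv, div_eq_iff hσx, hx]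

end Pool.Agent.CTO
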