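import Pool.Agent.CTO.G4

/-!
# G5: the class of `-1` on a nondegenerate subspace

`N ≥ EU`. For `i = 1, 2` let `b_i` be a basis (indexed by `Fin a`) of a subspace `U_i` on which `f` is
nondegenerate, with Gram determinant `d_i`, and `x_i` the isometry which is `-1` on `U_i` and the identity
on the orthogonal space of `U_i`. If `x_1 * x_2 ∈ N` and `d_1 * d_2` is not a square then there are
reflections `r`, `r'` of different square class with `r * r' ∈ N`.
Proof. `U_i` has an orthogonal basis `u_(i,j)` (`j < a`), `f(u_ij, u_ij) ≠ 0`, and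
`∏_j f(u_ij, u_ij) = d_i * (square)` (change of basis). `x_i` is the product of the reflections in the
`u_(i,j)`. So `x_1 x_2` is a product of `2 a` reflections, and the product of the `f(u,u)` over all of them
is `d_1 d_2` times a square, so it is not a square: the number of reflections with `f(u,u)` nonsquare is
odd, and the number of those with `f(u,u)` square is odd too. Modulo the normal subgroup `EU` (of
`Isom f`) reflections commute (`refl_comm`), and two reflections of the same class cancel (`refl_same`), so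
`x_1 x_2` is equal to `r r'` with `r`, `r'` of different class.
-/

namespace Pool.Agent.CTO

open Module

section G5aux

variable {K V : Type} [Field K] [AddCommGroup V] [Module K V] {f : V → V → K}

theorem G5_symm (hf : IsHF (RingHom.id K) 1 f) (v w : V) : f w v = f v w := by
  have h := hf.herm v w
  rw [RingHom.id_apply, one_mul] at h
  exact h

theorem G5_add_right (hf : IsHF (RingHom.id K) 1 f) (w u v : V) :
    f w (u + v) = f w u + f w v := by
  rw [G5_symm hf (u + v) w, hf.add_left, G5_symm hf w u, G5_symm hf w v]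

theorem G5_smul_right (hf : IsHF (RingHom.id K) 1 f) (c : K) (v w : V) :
    f w (c • v) = c * f w v := by
  rw [G5_symm hf (c • v) w, hf.smul_left, G5_symm hf w v]

/-- the bilinear form -/
noncomputable def G5_bil (hf : IsHF (RingHom.id K) 1 f) : LinearMap.BilinForm K V :=
  LinearMap.mk₂ K f (fun u v w => hf.add_left u v w) (fun c u v => hf.smul_left c u v)
    (fun w u v => G5_add_right hf w u v) (fun c w v => G5_smul_right hf c v w)

theorem G5_bil_apply (hf : IsHF (RingHom.id K) 1 f) (v w : V) : G5_bil hf v w = f v w := rfl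

/-- an orthogonal basis of the span of `b` -/
theorem G5_orth (two : (2 : K) ≠ 0) (hf : IsHF (RingHom.id K) 1 f) (a : ℕ) (b : Fin a → V)
    (hb : Matrix.det (Matrix.of fun i j => f (b i) (b j)) ≠ 0) :
    ∃ u : Fin a → V, (∀ i j, i ≠ j → f (u i) (u j) = 0) ∧ (∀ i, f (u i) (u i) ≠ 0) ∧
      (∃ c : K, c ≠ 0 ∧ ∏ i, f (u i) (u i) = c ^ 2 * Matrix.det (Matrix.of fun i j => f (b i) (b j))) ∧
      (∀ x : V ≃ₗ[K] V, (∀ i, x (b i) = - b i) → ∀ i, x (u i) = - u i) ∧
      (∀ v, (∀ i, f v (u i) = 0) → ∀ i, f v (b i) = 0) := by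
  let _ : Invertible (2 : K) := invertibleOfNonzero two
  set T : (Fin a → K) →ₗ[K] V := Fintype.linearCombination K b with hT
  have hTa : ∀ z : Fin a → K, T z = ∑ k, z k • b k := fun z => by
    rw [hT, Fintype.linearCombination_apply]
  set F := G5_bil hf with hF
  set B : LinearMap.BilinForm K (Fin a → K) := F.compl₁₂ T T with hB
  have hBa : ∀ y z, B y z = f (T y) (T z) := fun y z => rfl
  have hBs : LinearMap.IsSymm B := by
    constructor
    intro y z
    rw [RingHom.id_apply, hBa, hBa]
    exact G5_symm hf (T z) (T y)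
  obtain ⟨v', hv'⟩ := LinearMap.BilinForm.exists_orthogonal_basis hBs
  set v : Basis (Fin a) K (Fin a → K) := v'.reindex (finCongr (Module.finrank_fin_fun K)) with hv
  have hvo : ∀ i j, i ≠ j → B (v i) (v j) = 0 := by
    intro i j hij
    rw [hv, Basis.reindex_apply, Basis.reindex_apply]
    exact hv' (fun h => hij ((finCongr (Module.finrank_fin_fun K)).symm.injective h))
  set P : Matrix (Fin a) (Fin a) K := Matrix.of fun i k => v i k with hP
  set G : Matrix (Fin a) (Fin a) K := Matrix.of fun i j => f (b i) (b j) with hG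
  have hPdet : P.det ≠ 0 := by
    have h1 := (Pi.basisFun K (Fin a)).isUnit_det v
    have h2 : (Pi.basisFun K (Fin a)).det v = P.det := by
      rw [Basis.det_apply, ← Matrix.det_transpose]
      congr 1
    rw [h2] at h1
    exact h1.ne_zero
  have hPG : ∀ i j, (P * G * P.transpose) i j = f (T (v i)) (T (v j)) := by
    intro i j
    have hleft : ∀ (z : Fin a → K) (y : V), F (T z) y = ∑ k, z k * F (b k) y := by
      intro z y
      rw [hTa, map_sum, LinearMap.sum_apply]
      refine Finset.sum_congr rfl fun k _ => ?_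
      rw [map_smul, LinearMap.smul_apply, smul_eq_mul]
    have hright : ∀ (z : Fin a → K) (y : V), F y (T z) = ∑ l, z l * F y (b l) := by
      intro z y
      rw [hTa, map_sum]
      refine Finset.sum_congr rfl fun k _ => ?_
      rw [map_smul, smul_eq_mul]
    have h1 : f (T (v i)) (T (v j)) = ∑ k, v i k * ∑ l, v j l * F (b k) (b l) := by
      have h2 : f (T (v i)) (T (v j)) = F (T (v i)) (T (v j)) := rfl
      rw [h2, hleft]
      exact Finset.sum_congr rfl fun k _ => by rw [hright]
    rw [h1, Matrix.mul_assoc, Matrix.mul_apply]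
    refine Finset.sum_congr rfl fun k _ => ?_
    rw [Matrix.mul_apply]
    have h3 : ∑ l, G k l * P.transpose l j = ∑ l, v j l * F (b k) (b l) :=
      Finset.sum_congr rfl fun l _ => mul_comm _ _
    rw [h3]
    rfl
  have hdiag : P * G * P.transpose = Matrix.diagonal fun i => f (T (v i)) (T (v i)) := by
    ext i j
    rw [hPG]
    by_cases hij : i = j
    · rw [hij, Matrix.diagonal_apply_eq]
    · rw [Matrix.diagonal_apply_ne _ hij]
      exact hvo i j hij
  have hdet : ∏ i, f (T (v i)) (T (v i)) = P.det ^ 2 * G.det := by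
    have h1 := congrArg Matrix.det hdiag
    rw [Matrix.det_diagonal, Matrix.det_mul, Matrix.det_mul, Matrix.det_transpose] at h1
    rw [← h1]
    ring
  refine ⟨fun i => T (v i), fun i j hij => hvo i j hij, ?_, ⟨P.det, hPdet, hdet⟩, ?_, ?_⟩
  · have h1 : ∏ i, f (T (v i)) (T (v i)) ≠ 0 := by
      rw [hdet]
      exact mul_ne_zero (pow_ne_zero 2 hPdet) hb
    exact fun i => (Finset.prod_ne_zero_iff.1 h1) i (Finset.mem_univ i)
  · intro x hx i
    change x (T (v i)) = - T (v i)
    rw [hTa, map_sum, ← Finset.sum_neg_distrib]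
    refine Finset.sum_congr rfl fun k _ => ?_
    rw [map_smul, hx, smul_neg]
  · intro w hw k
    have h1 : (F w).comp T = 0 := by
      refine v.ext fun i => ?_
      exact hw i
    have h2 : T (Pi.single k 1) = b k := by
      rw [hTa, Finset.sum_eq_single k]
      · rw [Pi.single_eq_same, one_smul]
      · intro l _ hl
        rw [Pi.single_eq_of_ne hl, zero_smul]
      · intro h
        exact absurd (Finset.mem_univ k) h
    have h3 := congrArg (fun φ : (Fin a → K) →ₗ[K] K => φ (Pi.single k 1)) h1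
    have h4 : f w (T (Pi.single k 1)) = 0 := h3
    rw [h2] at h4
    exact h4

theorem G5_exists_refl (hf : IsHF (RingHom.id K) 1 f) (u : V) (hu : f u u ≠ 0) :
    ∃ r : V ≃ₗ[K] V, IsRefl f u r := by
  set ρ : Module.End K V := LinearMap.id - (2 / f u u) • ((G5_bil hf).flip u).smulRight u with hρ
  have hρa : ∀ x, ρ x = x - (2 * f x u / f u u) • u := by
    intro x
    rw [hρ, LinearMap.sub_apply, LinearMap.smul_apply, LinearMap.smulRight_apply, LinearMap.id_apply,
      smul_smul]
    congr 2
    change 2 / f u u * f x u = _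
    ring
  have hinv : Function.Involutive ρ := by
    intro x
    rw [hρa (ρ x), hρa x]
    have h1 : f (x - (2 * f x u / f u u) • u) u = - f x u := by
      have h2 : f (x - (2 * f x u / f u u) • u) u = (G5_bil hf) (x - (2 * f x u / f u u) • u) u := rfl
      rw [h2, map_sub, map_smul, LinearMap.sub_apply, LinearMap.smul_apply, G5_bil_apply,
        G5_bil_apply, smul_eq_mul]
      field_simp
      ring
    rw [h1, sub_sub, ← add_smul]
    have h2 : 2 * f x u / f u u + 2 * -f x u / f u u = 0 := by ring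
    rw [h2, zero_smul, sub_zero]
  exact ⟨LinearEquiv.ofInvolutive ρ hinv, hu, hρa⟩

/-- the product of reflections in orthogonal vectors -/
theorem G5_prod (hf : IsHF (RingHom.id K) 1 f) (L : List (V × (V ≃ₗ[K] V)))
    (hL : ∀ p ∈ L, IsRefl f p.1 p.2) (hp : L.Pairwise fun p q => f p.1 q.1 = 0) (v : V) :
    (L.map Prod.snd).prod v =
      v - (L.map fun p => (2 * f v p.1 / f p.1 p.1) • p.1).sum := by
  induction L with
  | nil => simp
  | cons p L ih =>
    rw [List.map_cons, List.prod_cons, LinearEquiv.mul_apply, List.map_cons, List.sum_cons]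
    rw [List.pairwise_cons] at hp
    rw [ih (fun q hq => hL q (List.mem_cons_of_mem _ hq)) hp.2]
    have hpr := hL p List.mem_cons_self
    rw [hpr.2]
    have h0 : ∀ M : List (V × (V ≃ₗ[K] V)), (∀ q ∈ M, f p.1 q.1 = 0) →
        (G5_bil hf) (M.map fun q => (2 * f v q.1 / f q.1 q.1) • q.1).sum p.1 = 0 := by
      intro M
      induction M with
      | nil => intro _; simp
      | cons q M ihM =>
        intro hM
        rw [List.map_cons, List.sum_cons, map_add, LinearMap.add_apply,
          ihM (fun q hq => hM q (List.mem_cons_of_mem _ hq)), map_smul, LinearMap.smul_apply,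
          G5_bil_apply, G5_symm hf p.1 q.1, hM q List.mem_cons_self, smul_zero, add_zero]
    have h1 : f (v - (L.map fun p => (2 * f v p.1 / f p.1 p.1) • p.1).sum) p.1 = f v p.1 := by
      have h2 : f (v - (L.map fun p => (2 * f v p.1 / f p.1 p.1) • p.1).sum) p.1 =
        (G5_bil hf) (v - (L.map fun p => (2 * f v p.1 / f p.1 p.1) • p.1).sum) p.1 := rfl
      rw [h2, map_sub, LinearMap.sub_apply, h0 L hp.1, sub_zero]
      rfl
    rw [h1]
    abel

/-- `-1` on the span of `b` is a product of reflections -/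
theorem G5_list (two : (2 : K) ≠ 0) (hf : IsHF (RingHom.id K) 1 f) (a : ℕ) (b : Fin a → V)
    (hb : Matrix.det (Matrix.of fun i j => f (b i) (b j)) ≠ 0)
    (x : V ≃ₗ[K] V) (hx : ∀ i, x (b i) = - b i) (hx' : ∀ v, (∀ i, f v (b i) = 0) → x v = v) :
    ∃ L : List (V × (V ≃ₗ[K] V)), L.length = a ∧ (∀ p ∈ L, IsRefl f p.1 p.2) ∧
      (L.map Prod.snd).prod = x ∧ ∃ c : K, c ≠ 0 ∧ (L.map fun p => f p.1 p.1).prod =
        c ^ 2 * Matrix.det (Matrix.of fun i j => f (b i) (b j)) := by
  obtain ⟨u, huo, hu0, ⟨c, hc, hcd⟩, hux, hub⟩ := G5_orth two hf a b hb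
  have hr := fun i => G5_exists_refl hf (u i) (hu0 i)
  choose r hr using hr
  refine ⟨List.ofFn fun i => (u i, r i), List.length_ofFn, ?_, ?_, c, hc, ?_⟩
  · intro p hp
    rw [List.mem_ofFn] at hp
    obtain ⟨i, rfl⟩ := hp
    exact hr i
  · ext v
    rw [G5_prod hf]
    · rw [List.map_ofFn, List.sum_ofFn]
      change v - ∑ i, (2 * f v (u i) / f (u i) (u i)) • u i = x v
      set s : V := ∑ i, (f v (u i) / f (u i) (u i)) • u i with hs
      have h1 : ∀ j, f (v - s) (u j) = 0 := by
        intro j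
        have h2 : f (v - s) (u j) = (G5_bil hf) (v - s) (u j) := rfl
        rw [h2, map_sub, LinearMap.sub_apply, hs, map_sum, LinearMap.sum_apply,
          Finset.sum_eq_single j]
        · rw [map_smul, LinearMap.smul_apply, G5_bil_apply, G5_bil_apply, smul_eq_mul,
            div_mul_cancel₀ _ (hu0 j), sub_self]
        · intro i _ hij
          rw [map_smul, LinearMap.smul_apply, G5_bil_apply, huo i j hij, smul_zero]
        · intro h
          exact absurd (Finset.mem_univ j) h
      have h2 : x (v - s) = v - s := hx' _ (hub _ h1)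
      have h3 : x s = - s := by
        rw [hs, map_sum, ← Finset.sum_neg_distrib]
        refine Finset.sum_congr rfl fun i _ => ?_
        rw [map_smul, hux x hx, smul_neg]
      have h4 : ∑ i, (2 * f v (u i) / f (u i) (u i)) • u i = s + s := by
        rw [hs, ← Finset.sum_add_distrib]
        refine Finset.sum_congr rfl fun i _ => ?_
        rw [← add_smul]
        congr 1
        ring
      rw [map_sub, h3] at h2
      rw [h4]
      have h5 : x v = v - s + (-s) := by
        rw [← h2]
        abel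
      rw [h5]
      abel
    · intro p hp
      rw [List.mem_ofFn] at hp
      obtain ⟨i, rfl⟩ := hp
      exact hr i
    · rw [List.pairwise_ofFn]
      intro i j hij
      exact huo i j (ne_of_lt hij)
  · rw [List.map_ofFn, List.prod_ofFn]
    exact hcd

theorem G5_refl_sq {u : V} {r : V ≃ₗ[K] V} (hf : IsHF (RingHom.id K) 1 f) (hr : IsRefl f u r) :
    r * r = 1 := by
  ext x
  rw [LinearEquiv.mul_apply, hr.2 (r x), hr.2 x]
  have h1 : f (x - (2 * f x u / f u u) • u) u = - f x u := by
    have h2 : f (x - (2 * f x u / f u u) • u) u = (G5_bil hf) (x - (2 * f x u / f u u) • u) u := rfl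
    rw [h2, map_sub, map_smul, LinearMap.sub_apply, LinearMap.smul_apply, G5_bil_apply,
      G5_bil_apply, smul_eq_mul]
    have := hr.1
    field_simp
    ring
  rw [h1, sub_sub, ← add_smul]
  have h2 : 2 * f x u / f u u + 2 * -f x u / f u u = 0 := by ring
  rw [h2, zero_smul, sub_zero]
  rfl

theorem G5_refl_isom {u : V} {r : V ≃ₗ[K] V} (hf : IsHF (RingHom.id K) 1 f) (hr : IsRefl f u r) :
    r ∈ Isom f := by
  intro v w
  rw [hr.2 v, hr.2 w]
  have h2 : f (v - (2 * f v u / f u u) • u) (w - (2 * f w u / f u u) • u) =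
    (G5_bil hf) (v - (2 * f v u / f u u) • u) (w - (2 * f w u / f u u) • u) := rfl
  rw [h2]
  simp only [map_sub, map_smul, LinearMap.sub_apply, LinearMap.smul_apply, G5_bil_apply,
    smul_eq_mul]
  rw [G5_symm hf w u]
  have := hr.1
  field_simp
  ring

end G5aux

variable {K V : Type} [Field K] [Finite K] [AddCommGroup V] [Module K V] [FiniteDimensional K V]

theorem neg_class (two : (2 : K) ≠ 0) (h5 : 5 ≤ Nat.card K) (f : V → V → K)
    (hf : IsHF (RingHom.id K) 1 f) (hV : 3 ≤ finrank K V) (N : Subgroup (V ≃ₗ[K] V))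
    (h1 : EU (RingHom.id K) 1 f ≤ N) (a : ℕ) (b1 b2 : Fin a → V)
    (hb1 : Matrix.det (Matrix.of fun i j => f (b1 i) (b1 j)) ≠ 0)
    (hb2 : Matrix.det (Matrix.of fun i j => f (b2 i) (b2 j)) ≠ 0)
    (hns : ¬ IsSquare (Matrix.det (Matrix.of fun i j => f (b1 i) (b1 j)) *
      Matrix.det (Matrix.of fun i j => f (b2 i) (b2 j))))
    (x1 x2 : V ≃ₗ[K] V) (hx1 : ∀ i, x1 (b1 i) = - b1 i) (hx2 : ∀ i, x2 (b2 i) = - b2 i)
    (hx1' : ∀ v, (∀ i, f v (b1 i) = 0) → x1 v = v) (hx2' : ∀ v, (∀ i, f v (b2 i) = 0) → x2 v = v)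
    (hx : x1 * x2 ∈ N) :
    ∃ (u v : V) (r r' : V ≃ₗ[K] V), IsRefl f u r ∧ IsRefl f v r' ∧
      ¬ IsSquare (f u u * f v v) ∧ r * r' ∈ N := by
  classical
  have _ : Fintype K := Fintype.ofFinite K
  obtain ⟨L1, hL1a, hL1r, hL1p, c1, hc1, hL1c⟩ := G5_list two hf a b1 hb1 x1 hx1 hx1'
  obtain ⟨L2, hL2a, hL2r, hL2p, c2, hc2, hL2c⟩ := G5_list two hf a b2 hb2 x2 hx2 hx2'
  set L := L1 ++ L2 with hL
  have hLr : ∀ p ∈ L, IsRefl f p.1 p.2 := by
    intro p hp
    rw [hL, List.mem_append] at hp
    exact hp.elim (hL1r p) (hL2r p)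
  have hLp : (L.map Prod.snd).prod = x1 * x2 := by
    rw [hL, List.map_append, List.prod_append, hL1p, hL2p]
  have hLlen : L.length = 2 * a := by
    rw [hL, List.length_append, hL1a, hL2a]
    ring
  have hLc : quadraticChar K ((L.map fun p => f p.1 p.1).prod) = -1 := by
    rw [hL, List.map_append, List.prod_append, hL1c, hL2c]
    have h2 : c1 ^ 2 * Matrix.det (Matrix.of fun i j => f (b1 i) (b1 j)) *
        (c2 ^ 2 * Matrix.det (Matrix.of fun i j => f (b2 i) (b2 j))) = (c1 * c2) ^ 2 *
        (Matrix.det (Matrix.of fun i j => f (b1 i) (b1 j)) *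
          Matrix.det (Matrix.of fun i j => f (b2 i) (b2 j))) := by ring
    rw [h2, map_mul, quadraticChar_sq_one' (mul_ne_zero hc1 hc2), one_mul]
    exact quadraticChar_neg_one_iff_not_isSquare.2 hns
  -- the class of a list
  have hcount : ∀ M : List (V × (V ≃ₗ[K] V)), (∀ p ∈ M, IsRefl f p.1 p.2) →
      quadraticChar K ((M.map fun p => f p.1 p.1).prod) =
        (-1) ^ (M.countP fun p => ¬ IsSquare (f p.1 p.1)) := by
    intro M
    induction M with
    | nil => intro _; simp
    | cons p M ih =>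
      intro hM
      rw [List.map_cons, List.prod_cons, map_mul, ih (fun q hq => hM q (List.mem_cons_of_mem _ hq)),
        List.countP_cons]
      by_cases hs : IsSquare (f p.1 p.1)
      · rw [(quadraticChar_one_iff_isSquare (hM p List.mem_cons_self).1).2 hs]
        simp [hs]
      · rw [quadraticChar_neg_one_iff_not_isSquare.2 hs]
        simp [hs, pow_succ]
  have hodd1 : Odd (L.countP fun p => ¬ IsSquare (f p.1 p.1)) := by
    by_contra hcon
    rw [Nat.not_odd_iff_even] at hcon
    rw [hcount L hLr, hcon.neg_one_pow] at hLc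
    exact absurd hLc (by norm_num)
  have hodd0 : Odd (L.countP fun p => IsSquare (f p.1 p.1)) := by
    have h2 := List.length_eq_countP_add_countP (fun p : V × (V ≃ₗ[K] V) => decide (IsSquare (f p.1 p.1)))
      (l := L)
    have h3 : (L.countP fun p => ¬ decide (IsSquare (f p.1 p.1)) = true) =
        L.countP fun p => ¬ IsSquare (f p.1 p.1) := by
      congr 1
      funext p
      simp
    rw [h3, hLlen] at h2
    obtain ⟨k, hk⟩ := hodd1
    rw [Nat.odd_iff]
    omega
  -- reflections of both classes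
  obtain ⟨p1, hp1L, hp1⟩ : ∃ p ∈ L, ¬ IsSquare (f p.1 p.1) := by
    have h2 : 0 < L.countP fun p => ¬ IsSquare (f p.1 p.1) := hodd1.pos
    rw [List.countP_pos_iff] at h2
    obtain ⟨p, hp, hp'⟩ := h2
    exact ⟨p, hp, by simpa using hp'⟩
  obtain ⟨p0, hp0L, hp0⟩ : ∃ p ∈ L, IsSquare (f p.1 p.1) := by
    have h2 : 0 < L.countP fun p => IsSquare (f p.1 p.1) := hodd0.pos
    rw [List.countP_pos_iff] at h2
    obtain ⟨p, hp, hp'⟩ := h2
    exact ⟨p, hp, by simpa using hp'⟩
  have hr0 := hLr p0 hp0L
  have hr1 := hLr p1 hp1L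
  have hEI : EU (RingHom.id K) 1 f ≤ Isom f := EU_le hf
  -- the quotient
  set E : Subgroup (Isom f) := (EU (RingHom.id K) 1 f).subgroupOf (Isom f) with hE
  have hEn : E.Normal := by
    constructor
    intro n hn g
    rw [hE, Subgroup.mem_subgroupOf] at hn ⊢
    exact EU_conj hf g.1 g.2 n.1 hn
  set π : Isom f →* (Isom f) ⧸ E := QuotientGroup.mk' E with hπ
  have hπ1 : ∀ g : Isom f, π g = 1 ↔ g.1 ∈ EU (RingHom.id K) 1 f := by
    intro g
    rw [hπ, QuotientGroup.mk'_apply, QuotientGroup.eq_one_iff, hE, Subgroup.mem_subgroupOf]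
  set R : ∀ p : V × (V ≃ₗ[K] V), IsRefl f p.1 p.2 → Isom f :=
    fun p hp => ⟨p.2, G5_refl_isom hf hp⟩ with hR
  set s0 := π (R p0 hr0) with hs0
  set s1 := π (R p1 hr1) with hs1
  have hsq : ∀ p (hp : IsRefl f p.1 p.2), π (R p hp) * π (R p hp) = 1 := by
    intro p hp
    rw [← map_mul]
    have h2 : R p hp * R p hp = 1 := Subtype.ext (G5_refl_sq hf hp)
    rw [h2, map_one]
  have hsame : ∀ p (hp : IsRefl f p.1 p.2) q (hq : IsRefl f q.1 q.2),
      IsSquare (f p.1 p.1 * f q.1 q.1) → π (R p hp) = π (R q hq) := by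
    intro p hp q hq hpq
    have h2 : π (R p hp * R q hq) = 1 := by
      rw [hπ1]
      exact refl_same two h5 f hf hV p.1 q.1 p.2 q.2 hp hq hpq
    rw [map_mul] at h2
    calc π (R p hp) = π (R p hp) * (π (R q hq) * π (R q hq)) := by rw [hsq q hq, mul_one]
      _ = π (R p hp) * π (R q hq) * π (R q hq) := by rw [mul_assoc]
      _ = π (R q hq) := by rw [h2, one_mul]
  have hcomm : Commute s0 s1 := by
    have h2 : π (R p0 hr0 * R p1 hr1 * (R p0 hr0)⁻¹ * (R p1 hr1)⁻¹) = 1 := by
      rw [hπ1]
      exact refl_comm two h5 f hf hV p0.1 p1.1 p0.2 p1.2 hr0 hr1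
    rw [map_mul, map_mul, map_mul, map_inv, map_inv, mul_inv_eq_one, mul_inv_eq_iff_eq_mul] at h2
    exact h2
  have hmain : ∀ M : List (V × (V ≃ₗ[K] V)), (∀ p ∈ M, IsRefl f p.1 p.2) →
      ∃ g : Isom f, g.1 = (M.map Prod.snd).prod ∧
        π g = s0 ^ (M.countP fun p => IsSquare (f p.1 p.1)) *
          s1 ^ (M.countP fun p => ¬ IsSquare (f p.1 p.1)) := by
    intro M
    induction M with
    | nil =>
      intro _
      exact ⟨1, rfl, by simp⟩
    | cons p M ih =>
      intro hM
      obtain ⟨g, hg, hπg⟩ := ih fun q hq => hM q (List.mem_cons_of_mem _ hq)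
      have hp := hM p List.mem_cons_self
      refine ⟨R p hp * g, ?_, ?_⟩
      · rw [List.map_cons, List.prod_cons, ← hg]
        rfl
      · rw [map_mul, hπg, List.countP_cons, List.countP_cons]
        by_cases hs : IsSquare (f p.1 p.1)
        · have h2 : π (R p hp) = s0 := hsame p hp p0 hr0 (hs.mul hp0)
          rw [h2]
          simp only [hs, decide_true, if_true, not_true, decide_false, Bool.false_eq_true, if_false,
            add_zero]
          rw [pow_succ', mul_assoc]
        · have h2 : π (R p hp) = s1 := by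
            refine hsame p hp p1 hr1 ?_
            rw [← quadraticChar_one_iff_isSquare (mul_ne_zero hp.1 hr1.1), map_mul,
              quadraticChar_neg_one_iff_not_isSquare.2 hs,
              quadraticChar_neg_one_iff_not_isSquare.2 hp1]
            norm_num
          rw [h2]
          simp only [hs, decide_false, if_false, Bool.false_eq_true, not_false_iff, decide_true,
            if_true, add_zero]
          rw [pow_succ', ← mul_assoc, ← mul_assoc, (hcomm.pow_left _).eq]
  obtain ⟨g, hg, hπg⟩ := hmain L hLr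
  have hpow : ∀ s : (Isom f) ⧸ E, s * s = 1 → ∀ n : ℕ, Odd n → s ^ n = s := by
    intro s hs n hn
    obtain ⟨k, rfl⟩ := hn
    rw [pow_succ, pow_mul, pow_two, hs, one_pow, one_mul]
  rw [hpow s0 (hsq p0 hr0) _ hodd0, hpow s1 (hsq p1 hr1) _ hodd1] at hπg
  have hfin : π (g⁻¹ * (R p0 hr0 * R p1 hr1)) = 1 := by
    rw [map_mul, map_inv, hπg, map_mul, inv_mul_cancel]
  rw [hπ1] at hfin
  have hfin2 : (x1 * x2)⁻¹ * (p0.2 * p1.2) ∈ EU (RingHom.id K) 1 f := by
    have h2 : (g⁻¹ * (R p0 hr0 * R p1 hr1)).1 = (x1 * x2)⁻¹ * (p0.2 * p1.2) := by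
      rw [← hLp, ← hg]
      rfl
    rw [h2] at hfin
    exact hfin
  refine ⟨p0.1, p1.1, p0.2, p1.2, hr0, hr1, ?_, ?_⟩
  · rw [← quadraticChar_neg_one_iff_not_isSquare, map_mul,
      (quadraticChar_one_iff_isSquare hr0.1).2 hp0, quadraticChar_neg_one_iff_not_isSquare.2 hp1]
    norm_num
  · have h2 := N.mul_mem hx (h1 hfin2)
    rwa [mul_inv_cancel_left] at h2

end Pool.Agent.CTO
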