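import Pool.Agent.CTO.A3
import Pool.Agent.CTO.G5
import Pool.Agent.CTO.A8

/-!
# A7: the normalizer of a torus algebra and the classes of `O(f) / EU`

`f` symmetric. Let `v0` be a cyclic vector, `S = {a ∈ A | a* = a}`, a product of fields. Let `e` be a
primitive idempotent of `S` (a minimal nonzero selfadjoint idempotent of `A`), `B = e A`, `S0 = e S` a
field, and `d` the skew element of `IsTor`. Either (α) `e d = 0`: then `e V ≤ ker d` has dimension `≤ 1`; or
(β) `e d ≠ 0`: then `(e d)² ∈ S0` is nonzero (reduced), so `δ = e d` is a unit of `B`, and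
`B = S0 ⊕ S0 δ` (`b = (b + b*)/2 + (b - b*)/2`, and skew elements of `B` are `δ` times elements of `S0`),
`dim_K B = 2 a`, `a = dim_K S0`, `dim e V = 2 a`. If `dim V ≥ 2` there is an `e` of type (β) (the sum of
the `e` of type (α) is an idempotent with image in `ker d`).
Let `e` be of type (β). For a unit `y` of `B` let `n_y` be the linear map with
`n_y (b v0) = (y / y*) b* v0` for `b ∈ B`, and the identity on `(1 - e) V`. It is an isometry
(`f(b v0, b' v0) = ψ(b'* b)` with `ψ(b) = f(b v0, v0) = ψ(b*)`), an involution, and it normalizes `A`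
(`n_y a n_y⁻¹ = a*` on `e V`). On `U_y = y δ S0 v0` it is `-1`, and it is the identity on `y S0 v0` and on
`(1-e) V`, and these are orthogonal to `U_y`, `V = U_y ⊕ y S0 v0 ⊕ (1-e) V`. Let `s_j` (`j < a`) be a
`K`-basis of `S0`. The Gram matrix of the basis `y δ s_j v0` of `U_y` is
`f(y δ s_i v0, y δ s_j v0) = ψ(- δ² y y* s_i s_j)`, and with `c_y = - δ² y y* ∈ S0` its determinant is
`N_{S0/K}(c_y) * det(ψ(s_i s_j))` (the matrix of multiplication by `c_y`; `ψ` restricted to `S0` is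
nonzero, so `det (ψ(s_i s_j)) ≠ 0`).
* `tor_class`: let `ν ∈ S0` be a nonsquare (`S0` is a finite field of odd characteristic); `N_{S0/K}(ν)` is a
  nonsquare of `K` (norm of finite fields: `N(x) = x ^ ((q^a - 1)/(q - 1))`; `x` is a square iff
  `x ^ ((|L|-1)/2) = 1`; or: `N` is surjective and maps squares to squares). Choose a unit `y` of `B` with
  `y y* = ν` (`star_surj`-argument in `B`: `x² - δ² z² = ν` is solvable in `S0`). Apply `neg_class` (G5)
  with `U_1 = U_e` (`y = e`), `U_2 = U_y`, `x1 = n_e`, `x2 = n_y`: the product of the two Gram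
  determinants is `N(ν)` times a square; `x1 x2` is in the normalizer, hence in `N`.
-/

namespace Pool.Agent.CTO

open Module

lemma A7_gram {K S : Type} [Field K] [Field S] [Algebra K S] [FiniteDimensional K S] {n : ℕ}
    (b : Basis (Fin n) K S) (φ : S →ₗ[K] K) (c : S) :
    Matrix.det (Matrix.of fun i j => φ (c * (b i * b j))) =
      Algebra.norm K c * Matrix.det (Matrix.of fun i j => φ (b i * b j)) := by
  rw [Algebra.norm_eq_matrix_det b, ← Matrix.det_transpose (Algebra.leftMulMatrix b c),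
    ← Matrix.det_mul]
  congr 1
  ext i j
  rw [Matrix.of_apply, Matrix.mul_apply]
  have h1 : c * b i = ∑ k, Algebra.leftMulMatrix b c k i • b k := by
    conv_lhs => rw [← b.sum_repr (c * b i)]
    apply Finset.sum_congr rfl
    intro k _
    rw [Algebra.leftMulMatrix_eq_repr_mul]
  rw [← mul_assoc, h1, Finset.sum_mul, map_sum]
  apply Finset.sum_congr rfl
  intro k _
  rw [Matrix.transpose_apply, Matrix.of_apply, smul_mul_assoc, map_smul, smul_eq_mul]

lemma A7_gram_ne {K S : Type} [Field K] [Field S] [Algebra K S] {n : ℕ}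
    (b : Basis (Fin n) K S) (φ : S →ₗ[K] K) (hφ : ∀ x, (∀ y, φ (x * y) = 0) → x = 0) :
    Matrix.det (Matrix.of fun i j => φ (b i * b j)) ≠ 0 := by
  intro h
  obtain ⟨v, hv, hv0⟩ := Matrix.exists_vecMul_eq_zero_iff.2 h
  apply hv
  have h1 : ∑ i, v i • b i = 0 := by
    apply hφ
    intro y
    have h2 : ∀ j, φ ((∑ i, v i • b i) * b j) = 0 := by
      intro j
      have h3 := congrFun hv0 j
      rw [Matrix.vecMul, dotProduct] at h3
      simp only [Matrix.of_apply, Pi.zero_apply] at h3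
      rw [Finset.sum_mul, map_sum, ← h3]
      apply Finset.sum_congr rfl
      intro k _
      rw [smul_mul_assoc, map_smul, smul_eq_mul]
    rw [← b.sum_repr y, Finset.mul_sum, map_sum]
    apply Finset.sum_eq_zero
    intro j _
    rw [mul_smul_comm, map_smul, h2, smul_zero]
  have h4 := (Fintype.linearIndependent_iff.1 b.linearIndependent) v h1
  funext i
  exact h4 i

section tor

variable {K V : Type} [Field K] [Finite K] [AddCommGroup V] [Module K V] [FiniteDimensional K V]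

/-- the data which is used in `neg_class` -/
def A7Ok (f : V → V → K) (A : Subalgebra K (Module.End K V)) (a : ℕ) (b : Fin a → V)
    (x : V ≃ₗ[K] V) : Prop :=
  x ∈ Isom f ∧ CarriesTo x A A ∧ (∀ i, x (b i) = - b i) ∧ (∀ v, (∀ i, f v (b i) = 0) → x v = v)

omit [Finite K] [FiniteDimensional K V] in
lemma A7_one (two : (2 : K) ≠ 0) {f : V → V → K} (hf : IsHF (RingHom.id K) 1 f)
    {A : Subalgebra K (Module.End K V)} {R : Type} [CommRing R] [Algebra K R] (D : A8Data f A R)
    {S : Type} [Field S] [Algebra K S] {n : ℕ} (b : Basis (Fin n) K S) (ι : S →ₐ[K] R)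
    (hι : ∀ x, D.st (ι x) = ι x) (hι' : ∀ x, D.st x = x → ∃ s, ι s = x)
    (δ : R) (hδ : D.st δ = -δ) (hδu : IsUnit δ) (c : S) (hc : ι c = - (δ * δ))
    (y : R) (ν : S) (hν : ν ≠ 0) (hy : D.st y * y = ι ν) :
    ∃ (bb : Fin n → V) (x : V ≃ₗ[K] V), A7Ok f A n bb x ∧
      ∀ i j, f (bb i) (bb j) = D.ψ (ι (c * ν * (b i * b j))) := by
  obtain ⟨z, hz⟩ : ∃ z, D.st y * z = 1 := by
    refine ⟨y * ι ν⁻¹, ?_⟩
    rw [← mul_assoc, hy, ← map_mul, mul_inv_cancel₀ hν, map_one]
  have hz' : y * D.st z = 1 := by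
    have := congrArg D.st hz
    rwa [map_mul, D.st_st, map_one] at this
  let N : R →ₗ[K] R := LinearMap.mulLeft K (y * z) ∘ₗ D.st.toLinearMap
  have hN : ∀ a, N a = y * z * D.st a := fun a => rfl
  have hNN : ∀ a, N (N a) = a := by
    intro a
    rw [hN, hN, map_mul, map_mul, D.st_st]
    linear_combination (y * D.st z * a) * hz + a * hz'
  let n0 : R ≃ₗ[K] R := LinearEquiv.ofInvolutive N hNN
  have hn0 : ∀ a, n0 a = y * z * D.st a := fun a => rfl
  obtain ⟨X, hX1, hX2, -, hX4⟩ := D.lift n0 (by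
    intro a b
    rw [hn0, hn0, map_mul D.st, map_mul D.st, D.st_st]
    rw [← D.psi_st hf (a * D.st b), map_mul D.st, D.st_st]
    congr 1
    linear_combination (y * D.st z * D.st a * b) * hz + D.st a * b * hz') (fun a => D.st a) (by
    intro a b
    rw [hn0, hn0, map_mul]
    ring)
  refine ⟨fun j => D.Φ (y * δ * ι (b j)), X, ⟨hX1, hX2, ?_, ?_⟩, ?_⟩
  · intro j
    rw [hX4, hn0, map_mul D.st, map_mul D.st, hι, hδ, ← map_neg D.Φ]
    congr 1
    linear_combination (-(y * δ * ι (b j))) * hz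
  · intro v hv
    obtain ⟨a, rfl⟩ := D.Φ.surjective v
    rw [hX4, hn0]
    congr 1
    have h1 : ∀ s : S, D.ψ (a * D.st y * δ * ι s) = 0 := by
      intro s
      rw [← b.sum_repr s, map_sum, Finset.mul_sum, map_sum]
      apply Finset.sum_eq_zero
      intro j _
      rw [map_smul, mul_smul_comm, map_smul]
      have h2 := hv j
      rw [D.hΦ, map_mul D.st, map_mul D.st, hι, hδ,
        show a * (D.st y * -δ * ι (b j)) = -(a * D.st y * δ * ι (b j)) by ring, map_neg,
        neg_eq_zero] at h2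
      rw [h2, smul_zero]
    obtain ⟨w, hw⟩ : ∃ w, w = a * D.st y * δ := ⟨_, rfl⟩
    rw [← hw] at h1
    have h3 : w + D.st w = 0 := by
      apply D.psi_ne hf
      intro r
      obtain ⟨s, hs⟩ := hι' (r + D.st r) (by rw [map_add, D.st_st, add_comm])
      have h4 := h1 s
      have h5 := D.psi_st hf (w * (r + D.st r))
      rw [hs] at h4
      rw [h4] at h5
      have h6 : D.ψ ((w + D.st w) * (r + D.st r)) = 0 := by
        have h7 : (w + D.st w) * (r + D.st r) = w * (r + D.st r) + D.st (w * (r + D.st r)) := by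
          rw [map_mul D.st, map_add D.st, D.st_st]
          ring
        rw [h7, map_add, h4, h5, add_zero]
      have h8 := D.psi_st hf ((w + D.st w) * r)
      have h9 : D.st ((w + D.st w) * r) = (w + D.st w) * D.st r := by
        rw [map_mul D.st, map_add D.st, D.st_st]
        ring
      rw [h9] at h8
      rw [mul_add, map_add, h8, ← two_mul] at h6
      exact (mul_eq_zero.1 h6).resolve_left two
    have h10 : (a * D.st y) * δ = (D.st a * y) * δ := by
      have : D.st w = - (D.st a * y * δ) := by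
        rw [hw, map_mul D.st, map_mul D.st, D.st_st, hδ]
        ring
      rw [this] at h3
      rw [hw] at h3
      linear_combination h3
    have h11 : a * D.st y = D.st a * y := hδu.mul_right_cancel h10
    linear_combination (-z) * h11 + a * hz
  · intro i j
    rw [D.hΦ, map_mul D.st, map_mul D.st, hι, hδ, map_mul ι, map_mul ι, map_mul ι, ← hy, hc]
    congr 1
    ring


lemma A7_core' (two : (2 : K) ≠ 0) {f : V → V → K} (hf : IsHF (RingHom.id K) 1 f)
    {A : Subalgebra K (Module.End K V)} (hA : IsTor f A)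
    {R : Type} [CommRing R] [Algebra K R] (D : A8Data f A R)
    {S : Type} [Field S] [Algebra K S] [FiniteDimensional K S] (ι : S →ₐ[K] R)
    (hιi : Function.Injective ι)
    (hι : ∀ x, D.st (ι x) = ι x) (hι' : ∀ x, D.st x = x → ∃ s, ι s = x)
    (δ : R) (hδ : D.st δ = -δ) (hδu : IsUnit δ) :
    ∃ (a : ℕ) (b1 b2 : Fin a → V) (x1 x2 : V ≃ₗ[K] V), A7Ok f A a b1 x1 ∧ A7Ok f A a b2 x2 ∧
      Matrix.det (Matrix.of fun i j => f (b1 i) (b1 j)) ≠ 0 ∧
      Matrix.det (Matrix.of fun i j => f (b2 i) (b2 j)) ≠ 0 ∧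
      ¬ IsSquare (Matrix.det (Matrix.of fun i j => f (b1 i) (b1 j)) *
        Matrix.det (Matrix.of fun i j => f (b2 i) (b2 j))) := by
  have hfinS : Finite S := Module.finite_of_finite K
  obtain ⟨c, hc⟩ := hι' (-(δ * δ)) (by rw [map_neg D.st, map_mul D.st, hδ]; ring)
  have hRnt : Nontrivial R := by
    refine ⟨⟨ι 1, ι 0, ?_⟩⟩
    intro h
    exact one_ne_zero (hιi h)
  have hc0 : c ≠ 0 := by
    rintro rfl
    rw [map_zero] at hc
    have h1 : δ * δ = 0 := by
      rw [← neg_eq_zero, ← hc]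
    exact (hδu.mul hδu).ne_zero h1
  obtain ⟨k, hk⟩ := FiniteField.exists_nonsquare (F := K) (by
    intro h
    apply two
    have := CharP.cast_eq_zero K (ringChar K)
    rw [h] at this
    exact_mod_cast this)
  obtain ⟨ν, hν⟩ := FiniteField.norm_surjective K S k
  have hk0 : k ≠ 0 := by
    rintro rfl
    exact hk (IsSquare.zero)
  have hν0 : ν ≠ 0 := by
    rintro rfl
    rw [Algebra.norm_zero] at hν
    exact hk0 hν.symm
  have hunit : ∀ x : R, IsUnit x → IsUnit (D.T x) := by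
    rintro x hx
    obtain ⟨x', hx'⟩ := hx.exists_right_inv
    refine ⟨⟨D.T x, D.T x', ?_, ?_⟩, rfl⟩
    · rw [← D.T_mul, hx', D.T_one]
    · rw [← D.T_mul, mul_comm, hx', D.T_one]
  have hνu : IsUnit (ι ν) := by
    apply IsUnit.of_mul_eq_one (ι ν⁻¹)
    rw [← map_mul, mul_inv_cancel₀ hν0, map_one]
  obtain ⟨a, ha, a', ha', hau, haa, hac⟩ := star_surj two (RingHom.id K) 1 f hf A hA (D.T δ)
    (D.T_mem δ) (hunit δ hδu) (by
      have := D.T_adj δ
      rwa [hδ, D.T_neg] at this) (D.T (ι ν)) (D.T_mem _) (hunit _ hνu) (by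
      have := D.T_adj (ι ν)
      rwa [hι] at this)
  obtain ⟨μ, rfl⟩ := D.exists_T ha
  obtain ⟨μ', rfl⟩ := D.exists_T ha'
  have hμ' : μ' = D.st μ := D.T_inj (A8_adj_unique hf haa (D.T_adj μ))
  rw [← D.T_mul] at hac
  have hμν : μ' * μ = ι ν := D.T_inj hac
  rw [hμ'] at hμν
  let b := Module.finBasis K S
  let φ : S →ₗ[K] K := D.ψ ∘ₗ ι.toLinearMap
  have hφ : ∀ x, (∀ y, φ (x * y) = 0) → x = 0 := by
    intro x hx
    apply hιi
    rw [map_zero]
    apply D.psi_ne hf
    intro r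
    obtain ⟨s, hs⟩ := hι' (r + D.st r) (by rw [map_add D.st, D.st_st, add_comm])
    have h1 : D.ψ (ι (x * s)) = 0 := hx s
    rw [map_mul ι, hs, mul_add, map_add] at h1
    have h2 := D.psi_st hf (ι x * r)
    rw [map_mul D.st, hι] at h2
    rw [h2, ← two_mul] at h1
    exact (mul_eq_zero.1 h1).resolve_left two
  obtain ⟨b1, x1, hb1, hf1⟩ := A7_one two hf D b ι hι hι' δ hδ hδu c hc 1 1 one_ne_zero
    (by rw [map_one, map_one, mul_one])
  obtain ⟨b2, x2, hb2, hf2⟩ := A7_one two hf D b ι hι hι' δ hδ hδu c hc μ ν hν0 hμν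
  have hG := A7_gram_ne b φ hφ
  have hd1 : Matrix.det (Matrix.of fun i j => f (b1 i) (b1 j)) =
      Algebra.norm K c * Matrix.det (Matrix.of fun i j => φ (b i * b j)) := by
    rw [← A7_gram b φ c]
    congr 1
    ext i j
    rw [Matrix.of_apply, Matrix.of_apply, hf1, mul_one]
    rfl
  have hd2 : Matrix.det (Matrix.of fun i j => f (b2 i) (b2 j)) =
      Algebra.norm K c * k * Matrix.det (Matrix.of fun i j => φ (b i * b j)) := by
    rw [← hν, ← map_mul, ← A7_gram b φ (c * ν)]
    congr 1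
    ext i j
    rw [Matrix.of_apply, Matrix.of_apply, hf2]
    rfl
  have hnc : Algebra.norm K c ≠ 0 := by
    rw [Algebra.norm_ne_zero_iff]
    exact hc0
  refine ⟨_, b1, b2, x1, x2, hb1, hb2, ?_, ?_, ?_⟩
  · rw [hd1]
    exact mul_ne_zero hnc hG
  · rw [hd2]
    exact mul_ne_zero (mul_ne_zero hnc hk0) hG
  · rw [hd1, hd2]
    rintro ⟨t, ht⟩
    apply hk
    set G := Matrix.det (Matrix.of fun i j => φ (b i * b j)) with hGG
    refine ⟨t / (Algebra.norm K c * G), ?_⟩
    have hz : Algebra.norm K c * G ≠ 0 := mul_ne_zero hnc hG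
    field_simp
    linear_combination ht

lemma A7_core (two : (2 : K) ≠ 0) {f : V → V → K} (hf : IsHF (RingHom.id K) 1 f)
    {A : Subalgebra K (Module.End K V)} (hA : IsTor f A) (hF : A8Fld f A)
    (hsk : ∃ d ∈ A, IsAdj f d (-d) ∧ d ≠ 0) :
    ∃ (a : ℕ) (b1 b2 : Fin a → V) (x1 x2 : V ≃ₗ[K] V), A7Ok f A a b1 x1 ∧ A7Ok f A a b2 x2 ∧
      Matrix.det (Matrix.of fun i j => f (b1 i) (b1 j)) ≠ 0 ∧
      Matrix.det (Matrix.of fun i j => f (b2 i) (b2 j)) ≠ 0 ∧
      ¬ IsSquare (Matrix.det (Matrix.of fun i j => f (b1 i) (b1 j)) *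
        Matrix.det (Matrix.of fun i j => f (b2 i) (b2 j))) := by
  obtain ⟨R, iR, iA, ⟨D⟩⟩ := A8_data hf hA
  have hfd : FiniteDimensional K R := D.finite_dim
  obtain ⟨d, hd, hds, hd0⟩ := hsk
  obtain ⟨δ, rfl⟩ := D.exists_T hd
  have hδ : D.st δ = -δ := by
    apply D.T_inj
    rw [D.T_neg]
    exact A8_adj_unique hf (D.T_adj δ) hds
  have h0 : δ ≠ 0 := by
    rintro rfl
    exact hd0 D.T_zero
  have hδδ : δ * δ ≠ 0 := fun h => h0 (D.red δ h)
  have hδu : IsUnit δ := by
    have h1 : IsUnit (δ * δ) := D.unit hF (by rw [map_mul D.st, hδ]; ring) hδδ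
    exact isUnit_of_mul_isUnit_left h1
  let S : Subalgebra K R := AlgHom.equalizer (D.st : R →ₐ[K] R) (AlgHom.id K R)
  have hSmem : ∀ x : R, x ∈ S ↔ D.st x = x := fun x => Iff.rfl
  have hS : IsField S := by
    refine ⟨⟨1, 0, ?_⟩, mul_comm, ?_⟩
    · intro h
      have h1 : (1 : R) = 0 := congrArg Subtype.val h
      apply h0
      rw [← mul_one δ, h1, mul_zero]
    · rintro ⟨x, hx⟩ hx0
      have hx1 : x ≠ 0 := by
        rintro rfl
        exact hx0 rfl
      obtain ⟨y, hy⟩ := (D.unit hF ((hSmem x).1 hx) hx1).exists_right_inv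
      refine ⟨⟨y, ?_⟩, Subtype.ext hy⟩
      rw [hSmem]
      have h1 : x * D.st y = 1 := by
        have := congrArg D.st hy
        rwa [map_mul, map_one, (hSmem x).1 hx] at this
      calc D.st y = D.st y * (x * y) := by rw [hy, mul_one]
        _ = (x * D.st y) * y := by ring
        _ = y := by rw [h1, one_mul]
  exact @A7_core' K V _ _ _ _ _ two f hf A hA R iR iA D S hS.toField inferInstance inferInstance
    S.val Subtype.val_injective (fun x => x.2) (fun x hx => ⟨⟨x, hx⟩, rfl⟩) δ hδ hδu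

theorem tor_class (two : (2 : K) ≠ 0) (h5 : 5 ≤ Nat.card K) (f : V → V → K)
    (hf : IsHF (RingHom.id K) 1 f) (hV : 3 ≤ finrank K V)
    (A : Subalgebra K (Module.End K V)) (hA : IsTor f A)
    (N : Subgroup (V ≃ₗ[K] V)) (h1 : EU (RingHom.id K) 1 f ≤ N)
    (h2 : ∀ n ∈ Isom f, CarriesTo n A A → n ∈ N) :
    ∃ (u v : V) (r r' : V ≃ₗ[K] V), IsRefl f u r ∧ IsRefl f v r' ∧
      ¬ IsSquare (f u u * f v v) ∧ r * r' ∈ N := by
  obtain ⟨d, hd, hds, hdr⟩ := hA.skew
  have hd0 : d ≠ 0 := by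
    rintro rfl
    rw [LinearMap.range_zero, finrank_bot] at hdr
    omega
  obtain ⟨e, he, hee, hes, hed, hmin⟩ := A8_min hf hA hd0
  obtain ⟨d', hd', hdd'⟩ := A8_res_exists hA.toIsTorGL he hd
  obtain ⟨a, b1, b2, x1, x2, ⟨p1, p2, p3, p4⟩, ⟨q1, q2, q3, q4⟩, hb1, hb2, hns⟩ :=
    A7_core two (A8_isHF hf hee hes) (A8_isTor hA he hee) hmin ⟨d', hd', by
      intro v w
      show f (d' v : V) w = f v ((-d') w : LinearMap.range e)
      rw [LinearMap.neg_apply, Submodule.coe_neg, hdd', hdd']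
      exact hds _ _, by
      rintro rfl
      apply hed
      rw [hA.comm e he d hd, ← A8_ext_of_res hdd', A8_ext_zero]⟩
  obtain ⟨N1, r1, r2, -, r4, r5⟩ := A8_extend hf hA he hee hes x1 p1 p2
  obtain ⟨N2, s1, s2, -, s4, s5⟩ := A8_extend hf hA he hee hes x2 q1 q2
  have hperp : ∀ (v : V) (w : LinearMap.range e), f v w = f (A8_pr e v) w := by
    intro v w
    rw [A8_pr_coe, hes, A8_fix hee]
  refine neg_class two h5 f hf hV N h1 a (fun i => (b1 i : V)) (fun i => (b2 i : V)) hb1 hb2 hns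
    N1 N2 ?_ ?_ ?_ ?_ ?_
  · intro i
    rw [r4, p3]
    rfl
  · intro i
    rw [s4, q3]
    rfl
  · intro v hv
    rw [r5, p4 (A8_pr e v) (by
      intro i
      show f (A8_pr e v) (b1 i) = 0
      rw [← hperp]
      exact hv i), A8_pr_coe]
    abel
  · intro v hv
    rw [s5, q4 (A8_pr e v) (by
      intro i
      show f (A8_pr e v) (b2 i) = 0
      rw [← hperp]
      exact hv i), A8_pr_coe]
    abel
  · exact N.mul_mem (h2 N1 r1 r2) (h2 N2 s1 s2)

end tor

end Pool.Agent.CTO
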