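import Pool.Agent.CTO.G3

/-!
# G4: the orthogonal group modulo `EU`

`f` symmetric, `dim V ≥ 3`, `|K| ≥ 5`. Let `r`, `r'` be the reflections in `u`, `u'`.
(1) If `f u u * f u' u'` is a square then `r * r' ∈ EU`: scaling `u'` does not change `r'`, so we may
assume `f u u = f u' u'`; by `trans_O` there is `e ∈ EU` with `e u = u'`; `r' = e r e⁻¹`, so
`r * r' = (r e r⁻¹) e⁻¹ ∈ EU` (`EU_conj`; `r⁻¹ = r`).
(2) `refl_comm`: for all reflections `r`, `r'`: `r * r' * r⁻¹ * r'⁻¹ ∈ EU`: choose `v` orthogonal to `u` with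
`f v v * f u' u'` a nonzero square (the orthogonal space of `u` has dimension `≥ 2` and a nondegenerate
form in `≥ 2` variables over a finite field represents all nonzero elements; orthogonal basis and
`FiniteField.exists_root_sum_quadratic`); the reflection `r''` in `v` commutes with `r` and is equal to
`r'` modulo the normal subgroup `EU`.
* `O_gen_det`: `N ≥ EU` contains `r_u * r_v` with `f u u * f v v` not a square. Then `r * r' ∈ N` for any two
reflections: if they are of the same square class by (1), else e.g. `r ~ r_u`, `r' ~ r_v`: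
`r r' = (r r_u) (r_u r_v) (r_v r')` (product of two nonsquares in a finite field is a square). By `refl_gen`
every isometry is a product of reflections (inverses of reflections are reflections), the determinant
of a reflection is `-1` (compute it, e.g. from the block decomposition `V = K u ⊕ u^⊥`, or from
`LinearMap.det` of `id - φ ⊗ u`: `det (1 + φ ⊗ u) = 1 + φ u`), so if the determinant is `1` the number of
factors is even.
* `O_gen`: if moreover `n ∈ N` has determinant `-1`, write `n` as a product of an odd number of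
reflections; the product of all but the last one is in `N`, so the last one, `r`, is in `N`; so all the
reflections `r' = (r' r) r` are in `N`.
-/

namespace Pool.Agent.CTO

open Module

set_option linter.unusedSectionVars false

variable {K V : Type} [Field K] [Finite K] [AddCommGroup V] [Module K V] [FiniteDimensional K V]

/-- the symmetric case -/
theorem G4_symm {f : V → V → K} (hf : IsHF (RingHom.id K) 1 f) (x y : V) : f x y = f y x := by
  have := hf.herm y x
  simpa using this

theorem G4_isom {f : V → V → K} (hf : IsHF (RingHom.id K) 1 f) {u : V} {r : V ≃ₗ[K] V}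
    (hr : IsRefl f u r) : r ∈ Isom f := by
  intro x y
  obtain ⟨hu, hr⟩ := hr
  rw [hr, hr, G3_sub_left hf, G3_sub_right hf, G3_sub_right hf, hf.smul_left, hf.smul_left,
    G3_smul_right hf, G3_smul_right hf, RingHom.id_apply, G4_symm hf u y]
  field_simp
  ring

theorem G4_mul_self {f : V → V → K} (hf : IsHF (RingHom.id K) 1 f) {u : V} {r : V ≃ₗ[K] V}
    (hr : IsRefl f u r) : r * r = 1 := by
  ext x
  rw [LinearEquiv.mul_apply, hr.2 (r x), hr.2 x, G3_sub_left hf, hf.smul_left,
    div_mul_cancel₀ _ hr.1]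
  have : 2 * (f x u - 2 * f x u) / f u u = - (2 * f x u / f u u) := by ring
  rw [this, neg_smul]
  show _ = x
  abel

theorem G4_inv {f : V → V → K} (hf : IsHF (RingHom.id K) 1 f) {u : V} {r : V ≃ₗ[K] V}
    (hr : IsRefl f u r) : r⁻¹ = r := by
  rw [inv_eq_iff_mul_eq_one]
  exact G4_mul_self hf hr

/-- the determinant of a reflection -/
theorem G4_det {f : V → V → K} (hf : IsHF (RingHom.id K) 1 f) {u : V} {r : V ≃ₗ[K] V}
    (hr : IsRefl f u r) : LinearEquiv.det r = -1 := by
  obtain ⟨hu, hr⟩ := hr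
  have h1 : G3W hf u ≤ (G3W hf u).comap r.toLinearMap := by
    intro x hx
    rw [Submodule.mem_comap]
    rw [G3_memW] at hx ⊢
    show f (r x) u = 0
    rw [hr, hx]
    simp [hx]
  have h2 := LinearMap.det_eq_det_mul_det (G3W hf u) r.toLinearMap h1
  have h3 : (G3W hf u).mapQ (G3W hf u) r.toLinearMap h1 = (-1 : K) • LinearMap.id := by
    ext x
    simp only [LinearMap.comp_apply, Submodule.mkQ_apply, Submodule.mapQ_apply,
      LinearMap.id_apply, LinearMap.smul_apply, neg_smul, one_smul]
    rw [← Submodule.Quotient.mk_neg, Submodule.Quotient.eq, G3_memW]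
    show f (r x - -x) u = 0
    rw [hr, G3_sub_left hf, G3_sub_left hf, G3_neg_left hf, hf.smul_left, div_mul_cancel₀ _ hu]
    ring
  have h4 : r.toLinearMap.restrict h1 = LinearMap.id := by
    ext x
    rw [LinearMap.coe_restrict_apply]
    have hx : f (x : V) u = 0 := x.2
    show r (x : V) = x
    rw [hr, hx]
    simp
  have h5 : finrank K (V ⧸ G3W hf u) = 1 := by
    have hb : ∀ x : V, f x u • (G3W hf u).mkQ u = f u u • (G3W hf u).mkQ x := by
      intro x
      rw [← map_smul, ← map_smul, ← sub_eq_zero, ← map_sub]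
      rw [Submodule.mkQ_apply, Submodule.Quotient.mk_eq_zero, G3_memW, G3_sub_left hf,
        hf.smul_left, hf.smul_left]
      ring
    refine finrank_eq_one_iff'.2 ⟨(G3W hf u).mkQ u, ?_, ?_⟩
    · rw [Submodule.mkQ_apply, Ne, Submodule.Quotient.mk_eq_zero]
      exact hu
    · intro w
      obtain ⟨x, rfl⟩ := Submodule.mkQ_surjective _ w
      refine ⟨(f u u)⁻¹ * f x u, ?_⟩
      rw [mul_smul, hb, smul_smul, inv_mul_cancel₀ hu, one_smul]
  rw [h3, h4, LinearMap.det_id, one_mul, LinearMap.det_smul, LinearMap.det_id, h5, pow_one,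
    mul_one] at h2
  apply Units.ext
  rw [LinearEquiv.coe_det, h2]
  rfl

omit [FiniteDimensional K V] in
theorem G4_mul_sq (two : (2 : K) ≠ 0) {a b : K} (ha : ¬ IsSquare a) (hb : ¬ IsSquare b) :
    IsSquare (a * b) := by
  have := Fintype.ofFinite K
  have hF : ringChar K ≠ 2 := by
    intro h
    apply two
    have := ringChar.spec K 2
    rw [h] at this
    exact_mod_cast this.2 dvd_rfl
  have ha0 : a ≠ 0 := by rintro rfl; exact ha (IsSquare.zero)
  have hb0 : b ≠ 0 := by rintro rfl; exact hb (IsSquare.zero)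
  rw [FiniteField.isSquare_iff hF (mul_ne_zero ha0 hb0), mul_pow]
  rw [FiniteField.isSquare_iff hF ha0] at ha
  rw [FiniteField.isSquare_iff hF hb0] at hb
  rcases FiniteField.pow_dichotomy hF ha0 with h | h
  · exact absurd h ha
  · rcases FiniteField.pow_dichotomy hF hb0 with h' | h'
    · exact absurd h' hb
    · rw [h, h']; ring

/-- if `ab` and `bc` are squares, `b ≠ 0`, then `ac` is a square -/
theorem G4_sq_trans {a b c : K} (hb : b ≠ 0) (h1 : IsSquare (a * b)) (h2 : IsSquare (b * c)) :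
    IsSquare (a * c) := by
  obtain ⟨s, hs⟩ := h1
  obtain ⟨t, ht⟩ := h2
  refine ⟨s * t / b, ?_⟩
  field_simp
  linear_combination (b * c) * hs + (s * s) * ht

theorem refl_same (two : (2 : K) ≠ 0) (h5 : 5 ≤ Nat.card K) (f : V → V → K)
    (hf : IsHF (RingHom.id K) 1 f) (hV : 3 ≤ finrank K V) (u v : V) (r r' : V ≃ₗ[K] V)
    (hr : IsRefl f u r) (hr' : IsRefl f v r') (h : IsSquare (f u u * f v v)) :
    r * r' ∈ EU (RingHom.id K) 1 f := by
  obtain ⟨s, hs⟩ := h
  have hu := hr.1
  have hv := hr'.1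
  have hs0 : s ≠ 0 := by
    rintro rfl
    rw [mul_zero] at hs
    exact (mul_ne_zero hu hv) hs
  set c := s / f v v with hc
  have hc0 : c ≠ 0 := div_ne_zero hs0 hv
  have hv'v' : f (c • v) (c • v) = f u u := by
    rw [hf.smul_left, G3_smul_right hf, RingHom.id_apply, hc]
    field_simp
    linear_combination -hs
  obtain ⟨e, he, heu⟩ := trans_O two h5 f hf hV u (c • v) hu hv'v'.symm
  have heI : e ∈ Isom f := EU_le hf he
  have hconj : r' = e * r * e⁻¹ := by
    ext x
    have h1 : f (e⁻¹ x) u = f x (c • v) := by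
      have := heI (e⁻¹ x) u
      rw [heu] at this
      have h2 : e (e⁻¹ x) = x := LinearEquiv.apply_symm_apply e x
      rw [h2] at this
      exact this.symm
    rw [LinearEquiv.mul_apply, LinearEquiv.mul_apply, hr.2, h1, map_sub, map_smul, heu, hr'.2]
    have h2 : e (e⁻¹ x) = x := LinearEquiv.apply_symm_apply e x
    rw [h2, smul_smul, G3_smul_right hf, RingHom.id_apply, ← hv'v', hf.smul_left,
      G3_smul_right hf, RingHom.id_apply]
    congr 2
    field_simp
  have h1 : r * r' = (r * e * r⁻¹) * e⁻¹ := by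
    rw [hconj, G4_inv hf hr]
    group
  rw [h1]
  exact mul_mem (EU_conj hf r (G4_isom hf hr) e he) (inv_mem he)

/-- vectors with prescribed nonzero norm in the orthogonal space of `u` -/
theorem G4_repr (two : (2 : K) ≠ 0) {f : V → V → K}
    (hf : IsHF (RingHom.id K) 1 f) (hV : 3 ≤ finrank K V) {u : V} (hu : f u u ≠ 0) (c : K) :
    ∃ w, f w u = 0 ∧ f w w = c := by
  have hdim : ∀ (W : Type) [AddCommGroup W] [Module K W] [FiniteDimensional K W]
      (f : W → W → K) (hf : IsHF (RingHom.id K) 1 f) (u : W), finrank K W ≤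
        finrank K (G3W hf u) + 1 := by
    intro W _ _ _ f hf u
    let φ : W →ₗ[K] K :=
      { toFun := fun x => f x u
        map_add' := fun x y => hf.add_left x y u
        map_smul' := fun a x => hf.smul_left a x u }
    have h1 : G3W hf u = LinearMap.ker φ := by
      ext x
      rw [G3_memW, LinearMap.mem_ker]
      rfl
    have h2 := LinearMap.finrank_range_add_finrank_ker φ
    have h3 : finrank K (LinearMap.range φ) ≤ 1 := by
      have := Submodule.finrank_le (LinearMap.range φ)
      rwa [finrank_self] at this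
    rw [h1]
    omega
  have hd1 := hdim V f hf u
  have hf1 := G3_HF hf hu
  have : Nontrivial (G3W hf u) := Module.nontrivial_of_finrank_pos (R := K) (by omega)
  obtain ⟨w0, hw0⟩ := exists_ne (0 : G3W hf u)
  obtain ⟨w1, hw1⟩ := G3_aniso two hf1 (Or.inr rfl) w0 hw0
  have hd2 := hdim (G3W hf u) (resF f (G3W hf u)) hf1 w1
  have hf2 := G3_HF hf1 hw1
  have : Nontrivial (G3W hf1 w1) := Module.nontrivial_of_finrank_pos (R := K) (by omega)
  obtain ⟨w0', hw0'⟩ := exists_ne (0 : G3W hf1 w1)
  obtain ⟨w2, hw2⟩ := G3_aniso two hf2 (Or.inr rfl) w0' hw0'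
  -- `w1`, `w2` are orthogonal anisotropic vectors in the orthogonal space of `u`
  have ha : f (w1 : V) (w1 : V) ≠ 0 := hw1
  have hb : f ((w2 : G3W hf u) : V) ((w2 : G3W hf u) : V) ≠ 0 := hw2
  have h12 : f ((w2 : G3W hf u) : V) (w1 : V) = 0 := w2.2
  have h1u : f (w1 : V) u = 0 := w1.2
  have h2u : f ((w2 : G3W hf u) : V) u = 0 := (w2 : G3W hf u).2
  set x1 : V := (w1 : V)
  set x2 : V := ((w2 : G3W hf u) : V)
  have := Fintype.ofFinite K
  have hF : ringChar K ≠ 2 := by
    intro h
    apply two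
    have := ringChar.spec K 2
    rw [h] at this
    exact_mod_cast this.2 dvd_rfl
  open Polynomial in
  obtain ⟨s, t, hst⟩ := FiniteField.exists_root_sum_quadratic
    (f := Polynomial.C (f x1 x1) * Polynomial.X ^ 2)
    (g := Polynomial.C (f x2 x2) * Polynomial.X ^ 2 + Polynomial.C (-c))
    (by rw [Polynomial.degree_C_mul ha, Polynomial.degree_X_pow]; rfl)
    (by
      rw [Polynomial.degree_add_C, Polynomial.degree_C_mul hb, Polynomial.degree_X_pow]
      · rfl
      · rw [Polynomial.degree_C_mul hb, Polynomial.degree_X_pow]; norm_num)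
    (FiniteField.odd_card_of_char_ne_two hF)
  simp only [Polynomial.eval_add, Polynomial.eval_mul, Polynomial.eval_C, Polynomial.eval_pow,
    Polynomial.eval_X] at hst
  refine ⟨s • x1 + t • x2, ?_, ?_⟩
  · rw [hf.add_left, hf.smul_left, hf.smul_left, h1u, h2u]; ring
  · rw [hf.add_left, G3_add_right hf, G3_add_right hf, hf.smul_left, hf.smul_left, hf.smul_left,
      hf.smul_left, G3_smul_right hf, G3_smul_right hf, G3_smul_right hf, G3_smul_right hf,
      G4_symm hf x1 x2, h12]
    simp only [RingHom.id_apply]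
    linear_combination hst

theorem refl_comm (two : (2 : K) ≠ 0) (h5 : 5 ≤ Nat.card K) (f : V → V → K)
    (hf : IsHF (RingHom.id K) 1 f) (hV : 3 ≤ finrank K V) (u v : V) (r r' : V ≃ₗ[K] V)
    (hr : IsRefl f u r) (hr' : IsRefl f v r') :
    r * r' * r⁻¹ * r'⁻¹ ∈ EU (RingHom.id K) 1 f := by
  obtain ⟨w, hwu, hww⟩ := G4_repr two hf hV hr.1 (f v v)
  have hw0 : f w w ≠ 0 := by rw [hww]; exact hr'.1
  obtain ⟨r2, hr2⟩ := G3_refl_exists hf w hw0
  have he : r' * r2 ∈ EU (RingHom.id K) 1 f :=
    refl_same two h5 f hf hV v w r' r2 hr' hr2 ⟨f v v, by rw [hww]⟩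
  have hcomm : r * r2 = r2 * r := by
    ext x
    rw [LinearEquiv.mul_apply, LinearEquiv.mul_apply, hr.2 (r2 x), hr2.2 (r x), hr2.2 x, hr.2 x,
      G3_sub_left hf, G3_sub_left hf, hf.smul_left, hf.smul_left, hwu, G4_symm hf u w, hwu]
    simp only [mul_zero, sub_zero]
    abel
  set e := r' * r2 with hedef
  have h1 : r' = e * r2 := by
    rw [hedef, mul_assoc, G4_mul_self hf hr2, mul_one]
  have h2 : r * r' * r⁻¹ * r'⁻¹ = (r * e * r⁻¹) * e⁻¹ := by
    have h3 : r2 * r⁻¹ = r⁻¹ * r2 := by
      rw [mul_inv_eq_iff_eq_mul, mul_assoc, ← hcomm, inv_mul_cancel_left]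
    rw [h1, mul_inv_rev]
    calc r * (e * r2) * r⁻¹ * (r2⁻¹ * e⁻¹) = r * e * (r2 * r⁻¹) * r2⁻¹ * e⁻¹ := by group
      _ = r * e * (r⁻¹ * r2) * r2⁻¹ * e⁻¹ := by rw [h3]
      _ = _ := by group
  rw [h2]
  exact mul_mem (EU_conj hf r (G4_isom hf hr) e he) (inv_mem he)

/-- all products of two reflections are in `N` -/
theorem G4_pair (two : (2 : K) ≠ 0) (h5 : 5 ≤ Nat.card K) {f : V → V → K}
    (hf : IsHF (RingHom.id K) 1 f) (hV : 3 ≤ finrank K V) {N : Subgroup (V ≃ₗ[K] V)}
    (h1 : EU (RingHom.id K) 1 f ≤ N)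
    (h2 : ∃ (u v : V) (r r' : V ≃ₗ[K] V), IsRefl f u r ∧ IsRefl f v r' ∧
      ¬ IsSquare (f u u * f v v) ∧ r * r' ∈ N) {x y : V} {a b : V ≃ₗ[K] V}
    (ha : IsRefl f x a) (hb : IsRefl f y b) : a * b ∈ N := by
  by_cases hxy : IsSquare (f x x * f y y)
  · exact h1 (refl_same two h5 f hf hV x y a b ha hb hxy)
  obtain ⟨u, v, r, r', hr, hr', hns, hN⟩ := h2
  by_cases hxu : IsSquare (f x x * f u u)
  · have hyv : IsSquare (f v v * f y y) := by
      by_contra hcon
      have h3 : IsSquare ((f u u * f v v) * (f v v * f y y)) := G4_mul_sq two hns hcon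
      have h4 : IsSquare (f u u * f y y) := by
        obtain ⟨s, hs⟩ := h3
        refine ⟨s / f v v, ?_⟩
        have := hr'.1
        field_simp
        linear_combination hs
      exact hxy (G4_sq_trans hr.1 hxu h4)
    have h3 : a * r ∈ N := h1 (refl_same two h5 f hf hV x u a r ha hr hxu)
    have h4 : r' * b ∈ N := h1 (refl_same two h5 f hf hV v y r' b hr' hb hyv)
    have h5 : a * b = (a * r) * (r * r') * (r' * b) := by
      have e1 := G4_mul_self hf hr
      have e2 := G4_mul_self hf hr'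
      calc a * b = a * 1 * 1 * b := by group
        _ = a * (r * r) * (r' * r') * b := by rw [e1, e2]
        _ = _ := by group
    rw [h5]
    exact mul_mem (mul_mem h3 hN) h4
  · have hxv : IsSquare (f x x * f v v) := by
      have h3 : IsSquare ((f x x * f u u) * (f u u * f v v)) := G4_mul_sq two hxu hns
      obtain ⟨s, hs⟩ := h3
      refine ⟨s / f u u, ?_⟩
      have := hr.1
      field_simp
      linear_combination hs
    have hyu : IsSquare (f u u * f y y) := by
      have h3 : IsSquare ((f u u * f x x) * (f x x * f y y)) :=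
        G4_mul_sq two (by rwa [mul_comm]) hxy
      obtain ⟨s, hs⟩ := h3
      refine ⟨s / f x x, ?_⟩
      have := ha.1
      field_simp
      linear_combination hs
    have h3 : a * r' ∈ N := h1 (refl_same two h5 f hf hV x v a r' ha hr' hxv)
    have h4 : r * b ∈ N := h1 (refl_same two h5 f hf hV u y r b hr hb hyu)
    have hN' : r' * r ∈ N := by
      have : r' * r = (r * r')⁻¹ := by rw [mul_inv_rev, G4_inv hf hr, G4_inv hf hr']
      rw [this]; exact inv_mem hN
    have h5 : a * b = (a * r') * (r' * r) * (r * b) := by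
      have e1 := G4_mul_self hf hr
      have e2 := G4_mul_self hf hr'
      calc a * b = a * 1 * 1 * b := by group
        _ = a * (r' * r') * (r * r) * b := by rw [e1, e2]
        _ = _ := by group
    rw [h5]
    exact mul_mem (mul_mem h3 hN') h4

/-- products of an even number of reflections are in `N` -/
theorem G4_even {f : V → V → K} {N : Subgroup (V ≃ₗ[K] V)}
    (hN : ∀ (x y : V) (a b : V ≃ₗ[K] V), IsRefl f x a → IsRefl f y b → a * b ∈ N) :
    ∀ (n : ℕ) (l : List (V ≃ₗ[K] V)), (∀ y ∈ l, ∃ u, IsRefl f u y) → l.length = 2 * n →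
      l.prod ∈ N := by
  intro n
  induction n with
  | zero =>
    intro l _ hl
    have : l = [] := List.length_eq_zero_iff.1 (by omega)
    rw [this, List.prod_nil]; exact one_mem _
  | succ n ih =>
    intro l hl hlen
    match l, hl, hlen with
    | [], _, h => simp at h
    | [_], _, h => simp at h; omega
    | a :: b :: l, hl, h =>
      rw [List.prod_cons, List.prod_cons, ← mul_assoc]
      obtain ⟨x, hx⟩ := hl a (by simp)
      obtain ⟨y, hy⟩ := hl b (by simp)
      refine mul_mem (hN x y a b hx hy) (ih l (fun z hz => hl z (by simp [hz])) ?_)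
      simp only [List.length_cons] at h
      omega

/-- determinant of a product of reflections -/
theorem G4_detprod {f : V → V → K} (hf : IsHF (RingHom.id K) 1 f)
    (l : List (V ≃ₗ[K] V)) (hl : ∀ y ∈ l, ∃ u, IsRefl f u y) :
    LinearEquiv.det l.prod = (-1) ^ l.length := by
  induction l with
  | nil => simp
  | cons a l ih =>
    rw [List.prod_cons, map_mul, ih (fun y hy => hl y (by simp [hy]))]
    obtain ⟨x, hx⟩ := hl a (by simp)
    rw [G4_det hf hx, List.length_cons, pow_succ, mul_comm]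

theorem G4_list (two : (2 : K) ≠ 0) {f : V → V → K}
    (hf : IsHF (RingHom.id K) 1 f) (g : V ≃ₗ[K] V) (hg : g ∈ Isom f) :
    ∃ l : List (V ≃ₗ[K] V), (∀ y ∈ l, ∃ u, IsRefl f u y) ∧ l.prod = g := by
  have h := refl_gen K V two f hf hg
  induction h using Subgroup.closure_induction with
  | mem x hx => exact ⟨[x], by simpa using hx, by simp⟩
  | one => exact ⟨[], by simp, by simp⟩
  | mul x y hx hy ihx ihy =>
    have hle : Subgroup.closure {g | ∃ u, IsRefl f u g} ≤ Isom f := by
      rw [Subgroup.closure_le]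
      rintro b ⟨y, hb⟩
      exact G4_isom hf hb
    obtain ⟨l, hl, hlp⟩ := ihx (hle hx)
    obtain ⟨l', hl', hlp'⟩ := ihy (hle hy)
    refine ⟨l ++ l', ?_, by rw [List.prod_append, hlp, hlp']⟩
    intro z hz
    rcases List.mem_append.1 hz with h | h
    · exact hl z h
    · exact hl' z h
  | inv x hx ihx =>
    have hx' : x ∈ Isom f := by
      have := inv_mem hg
      rwa [inv_inv] at this
    obtain ⟨l, hl, hlp⟩ := ihx hx'
    refine ⟨(l.map (fun z => z⁻¹)).reverse, ?_, ?_⟩
    · intro z hz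
      rw [List.mem_reverse, List.mem_map] at hz
      obtain ⟨w, hw, rfl⟩ := hz
      obtain ⟨u, hu⟩ := hl w hw
      exact ⟨u, by rw [G4_inv hf hu]; exact hu⟩
    · rw [← List.prod_inv_reverse, hlp]

theorem G4_neg_one (two : (2 : K) ≠ 0) : (-1 : Kˣ) ≠ 1 := by
  intro h
  have := congrArg (Units.val) h
  rw [Units.val_neg, Units.val_one] at this
  exact two (by linear_combination -this)

theorem O_gen_det (two : (2 : K) ≠ 0) (h5 : 5 ≤ Nat.card K) (f : V → V → K)
    (hf : IsHF (RingHom.id K) 1 f) (hV : 3 ≤ finrank K V) (N : Subgroup (V ≃ₗ[K] V))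
    (h1 : EU (RingHom.id K) 1 f ≤ N)
    (h2 : ∃ (u v : V) (r r' : V ≃ₗ[K] V), IsRefl f u r ∧ IsRefl f v r' ∧
      ¬ IsSquare (f u u * f v v) ∧ r * r' ∈ N) (g : V ≃ₗ[K] V) (hg : g ∈ Isom f)
    (hd : LinearEquiv.det g = 1) : g ∈ N := by
  obtain ⟨l, hl, hlp⟩ := G4_list two hf g hg
  have hdl := G4_detprod hf l hl
  rw [hlp, hd] at hdl
  have hN : ∀ (x y : V) (a b : V ≃ₗ[K] V), IsRefl f x a → IsRefl f y b → a * b ∈ N :=
    fun x y a b ha hb => G4_pair two h5 hf hV h1 h2 ha hb
  rcases Nat.even_or_odd' l.length with ⟨n, hn | hn⟩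
  · rw [← hlp]
    exact G4_even hN n l hl hn
  · exfalso
    rw [hn, pow_succ, pow_mul] at hdl
    apply G4_neg_one two
    simpa using hdl.symm

theorem O_gen (two : (2 : K) ≠ 0) (h5 : 5 ≤ Nat.card K) (f : V → V → K)
    (hf : IsHF (RingHom.id K) 1 f) (hV : 3 ≤ finrank K V) (N : Subgroup (V ≃ₗ[K] V))
    (h1 : EU (RingHom.id K) 1 f ≤ N)
    (h2 : ∃ (u v : V) (r r' : V ≃ₗ[K] V), IsRefl f u r ∧ IsRefl f v r' ∧
      ¬ IsSquare (f u u * f v v) ∧ r * r' ∈ N)
    (h3 : ∃ n ∈ N, n ∈ Isom f ∧ LinearEquiv.det n = -1) : Isom f ≤ N := by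
  obtain ⟨g, hgN, hg, hd⟩ := h3
  obtain ⟨l, hl, hlp⟩ := G4_list two hf g hg
  have hdl := G4_detprod hf l hl
  rw [hlp, hd] at hdl
  have hN : ∀ (x y : V) (a b : V ≃ₗ[K] V), IsRefl f x a → IsRefl f y b → a * b ∈ N :=
    fun x y a b ha hb => G4_pair two h5 hf hV h1 h2 ha hb
  -- one reflection is in `N`
  obtain ⟨x, r, hr, hrN⟩ : ∃ (x : V) (r : V ≃ₗ[K] V), IsRefl f x r ∧ r ∈ N := by
    rcases Nat.even_or_odd' l.length with ⟨n, hn | hn⟩
    · exfalso
      rw [hn, pow_mul] at hdl
      apply G4_neg_one two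
      simpa using hdl
    · match l, hl, hn, hlp with
      | [], _, hn, _ => simp at hn
      | a :: l, hl, hn, hlp =>
        obtain ⟨x, hx⟩ := hl a (by simp)
        refine ⟨x, a, hx, ?_⟩
        have h4 : l.prod ∈ N := G4_even hN n l (fun z hz => hl z (by simp [hz])) (by
          simp only [List.length_cons] at hn
          omega)
        rw [List.prod_cons] at hlp
        have : a = g * l.prod⁻¹ := by rw [← hlp]; group
        rw [this]
        exact mul_mem hgN (inv_mem h4)
  have hall : ∀ (y : V) (b : V ≃ₗ[K] V), IsRefl f y b → b ∈ N := by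
    intro y b hb
    have h4 := mul_mem (hN y x b r hb hr) hrN
    rwa [mul_assoc, G4_mul_self hf hr, mul_one] at h4
  refine (refl_gen K V two f hf).trans ?_
  rw [Subgroup.closure_le]
  rintro b ⟨y, hb⟩
  exact hall y b hb

end Pool.Agent.CTO
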