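import Pool.Agent.CTO.W0

/-!
# W2: subgroups of bounded index of `GL(V)` contain `SL(V)`
-/

namespace Pool.Agent.CTO

open Module

section W2

variable {K V : Type} [Field K] [AddCommGroup V] [Module K V]

/-- the map `x ↦ x + φ x • u` with `φ u = 0` -/
theorem W2_exists_dil (ψ : Dual K V) (u : V) (h : ψ u = 1) (s : K) (hs : s ≠ 0) :
    ∃ g : V ≃ₗ[K] V, (∀ x, g x = x + ((s - 1) * ψ x) • u) ∧
      ∀ x, g⁻¹ x = x + ((s⁻¹ - 1) * ψ x) • u := by
  let F : K → (V →ₗ[K] V) := fun s => LinearMap.id + (s - 1) • (ψ.smulRight u)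
  have hF : ∀ s x, F s x = x + ((s - 1) * ψ x) • u := by
    intro s x
    simp [F, mul_smul]
  have hcomp : ∀ s t, s * t = 1 → ∀ x, F s (F t x) = x := by
    intro s t hst x
    rw [hF, hF, map_add, map_smul, smul_eq_mul, h]
    have : x + ((t - 1) * ψ x) • u + ((s - 1) * (ψ x + (t - 1) * ψ x * 1)) • u
        = x + ((s * t - 1) * ψ x) • u := by module
    rw [this, hst]
    simp
  let g : V ≃ₗ[K] V := LinearEquiv.ofLinearMap (F s) (F s⁻¹)
    (LinearMap.ext fun x => hcomp s s⁻¹ (mul_inv_cancel₀ hs) x)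
    (LinearMap.ext fun x => hcomp s⁻¹ s (inv_mul_cancel₀ hs) x)
  exact ⟨g, fun x => hF s x, fun x => hF s⁻¹ x⟩

theorem W2_pow (ψ : Dual K V) (u : V) (h : ψ u = 1) (s : K) (g : V ≃ₗ[K] V)
    (hg : ∀ x, g x = x + ((s - 1) * ψ x) • u) (m : ℕ) (x : V) :
    (g ^ m) x = x + ((s ^ m - 1) * ψ x) • u := by
  induction m generalizing x with
  | zero => simp
  | succ m ih =>
    rw [pow_succ, LinearEquiv.mul_apply, ih, hg, map_add, map_smul, smul_eq_mul, h]
    module

theorem W2_exists_pow_ne (m : ℕ) (hm : 0 < m) [Finite K] (hK : m + 2 ≤ Nat.card K) :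
    ∃ s : K, s ≠ 0 ∧ s ^ m ≠ 1 := by
  by_contra hcon
  push Not at hcon
  have : NeZero m := ⟨hm.ne'⟩
  have h1 : Nat.card (rootsOfUnity m K) ≤ m := card_rootsOfUnity K m
  have h2 : (rootsOfUnity m K) = ⊤ := by
    rw [eq_top_iff]
    intro x _
    rw [mem_rootsOfUnity]
    apply Units.ext
    have := hcon (x : K) x.ne_zero
    simpa using this
  rw [h2] at h1
  have h3 : Nat.card (⊤ : Subgroup Kˣ) = Nat.card Kˣ := Subgroup.card_top
  have h4 : Nat.card Kˣ = Nat.card K - 1 := Nat.card_units K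
  omega

theorem W2_trans (H C : Subgroup (V ≃ₗ[K] V)) (hCH : C ≤ H) (m : ℕ) (hm : 0 < m)
    (hn : ∀ x : V ≃ₗ[K] V, ∀ c ∈ C, x * c * x⁻¹ ∈ C) (hp : ∀ x : V ≃ₗ[K] V, x ^ m ∈ C) [Finite K]
    (hK : m + 2 ≤ Nat.card K) (φ : Dual K V) (u : V) (h : φ u = 0) :
    LinearEquiv.transvection h ∈ H := by
  by_cases hu : u = 0
  · have : LinearEquiv.transvection h = 1 := by
      ext x
      subst hu
      simp [LinearEquiv.transvection.apply]
    rw [this]
    exact one_mem _
  · obtain ⟨ψ, hψ⟩ := Projective.exists_dual_eq_one K hu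
    obtain ⟨s, hs0, hs⟩ := W2_exists_pow_ne m hm hK
    obtain ⟨g, hg, -⟩ := W2_exists_dil ψ u hψ s hs0
    have hμ := W2_pow ψ u hψ s g hg m
    set μ := g ^ m with hμdef
    have hμC : μ ∈ C := hp g
    have hr : s ^ m - 1 ≠ 0 := sub_ne_zero.2 hs
    have h' : ((s ^ m - 1)⁻¹ • φ) u = 0 := by simp [h]
    set τ := LinearEquiv.transvection h' with hτ
    have hτa : ∀ x, τ x = x + ((s ^ m - 1)⁻¹ * φ x) • u := fun x => by
      rw [hτ, LinearEquiv.transvection.apply]; simp
    have key : LinearEquiv.transvection h * (τ * μ) = μ * τ := by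
      ext x
      simp only [LinearEquiv.mul_apply]
      rw [LinearEquiv.transvection.apply, hτa, hμ, hμ, hτa]
      simp only [map_add, map_smul, smul_eq_mul, h, hψ, mul_zero, add_zero, mul_one]
      have e1 : φ x = (s ^ m - 1) * ((s ^ m - 1)⁻¹ * φ x) := by
        rw [← mul_assoc, mul_inv_cancel₀ hr, one_mul]
      generalize (s ^ m - 1)⁻¹ * φ x = y at e1 ⊢
      rw [e1]
      module
    have : LinearEquiv.transvection h = μ * (τ * μ⁻¹ * τ⁻¹) := by
      have h1 : LinearEquiv.transvection h = μ * τ * (τ * μ)⁻¹ := by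
        rw [← key]; group
      rw [h1]; group
    rw [this]
    exact hCH (mul_mem hμC (hn τ _ (inv_mem hμC)))

variable {n : ℕ} (b : Basis (Fin n) K V)

/-- matrices of determinant one of elements of `H` -/
def W2N (H : Subgroup (V ≃ₗ[K] V)) (M : Matrix (Fin n) (Fin n) K) : Prop :=
  M.det = 1 ∧ ∃ h ∈ H, LinearMap.toMatrix b b h.toLinearMap = M

theorem W2N_one (H : Subgroup (V ≃ₗ[K] V)) : W2N b H 1 := by
  refine ⟨Matrix.det_one, 1, one_mem _, ?_⟩
  exact LinearMap.toMatrix_one b

theorem W2N_mul (H : Subgroup (V ≃ₗ[K] V)) {M N : Matrix (Fin n) (Fin n) K} (hM : W2N b H M)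
    (hN : W2N b H N) : W2N b H (M * N) := by
  obtain ⟨h1, g, hg, rfl⟩ := hM
  obtain ⟨h2, h, hh, rfl⟩ := hN
  refine ⟨by rw [Matrix.det_mul, h1, h2, one_mul], g * h, mul_mem hg hh, ?_⟩
  rw [← LinearMap.toMatrix_mul]
  rfl

theorem W2N_trans (H : Subgroup (V ≃ₗ[K] V))
    (hT : ∀ (φ : Dual K V) (u : V) (h : φ u = 0), LinearEquiv.transvection h ∈ H)
    (i j : Fin n) (hij : i ≠ j) (c : K) : W2N b H (Matrix.transvection i j c) := by
  have h0 : (c • b.coord j) (b i) = 0 := by
    simp [Finsupp.single_apply, hij]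
  refine ⟨Matrix.det_transvection_of_ne i j hij c, _, hT _ _ h0, ?_⟩
  ext p q
  rw [LinearMap.toMatrix_apply]
  simp only [LinearEquiv.coe_coe]
  rw [LinearEquiv.transvection.apply]
  simp only [LinearMap.smul_apply, Basis.coord_apply, map_add, map_smul, Basis.repr_self,
    Finsupp.add_apply, Finsupp.smul_apply, smul_eq_mul, Matrix.transvection, Matrix.add_apply,
    Matrix.one_apply, Matrix.single_apply, Finsupp.single_apply]
  by_cases h1 : q = p <;> by_cases h2 : q = j <;> by_cases h3 : i = p <;>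
    simp [h1, h2, h3, eq_comm] <;> simp_all [eq_comm]

theorem W2_key (H : Subgroup (V ≃ₗ[K] V))
    (hT : ∀ (φ : Dual K V) (u : V) (h : φ u = 0), LinearEquiv.transvection h ∈ H)
    (i j : Fin n) (hij : i ≠ j) (c : K) : ∃ g ∈ H,
      (LinearMap.toMatrix b b g.toLinearMap).det = 1 ∧
      ∀ x, g x = x + (c * b.repr x j) • b i := by
  have h0 : (c • b.coord j) (b i) = 0 := by
    simp [hij]
  refine ⟨_, hT _ _ h0, ?_, ?_⟩
  · rw [LinearMap.det_toMatrix, ← LinearEquiv.coe_det]
    rw [LinearEquiv.transvection.det_eq_one]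
    simp
  · intro x
    rw [LinearEquiv.transvection.apply]
    simp

theorem W2N_diag2 (H : Subgroup (V ≃ₗ[K] V))
    (hT : ∀ (φ : Dual K V) (u : V) (h : φ u = 0), LinearEquiv.transvection h ∈ H)
    (i j : Fin n) (hij : i ≠ j) (a : K) (ha : a ≠ 0) :
    W2N b H (Matrix.diagonal fun p => if p = i then a else if p = j then a⁻¹ else 1) := by
  obtain ⟨g1, hg1, d1, e1⟩ := W2_key b H hT i j hij a
  obtain ⟨g2, hg2, d2, e2⟩ := W2_key b H hT j i hij.symm (-a⁻¹)
  obtain ⟨g3, hg3, d3, e3⟩ := W2_key b H hT i j hij (-1)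
  obtain ⟨g4, hg4, d4, e4⟩ := W2_key b H hT j i hij.symm 1
  have hN : W2N b H (LinearMap.toMatrix b b (g1 * (g2 * (g1 * (g3 * (g4 * g3))))).toLinearMap) := by
    have hc : ∀ g h : V ≃ₗ[K] V, LinearMap.toMatrix b b (g * h).toLinearMap
        = LinearMap.toMatrix b b g.toLinearMap * LinearMap.toMatrix b b h.toLinearMap := by
      intro g h
      rw [← LinearMap.toMatrix_mul]
      rfl
    simp only [hc]
    exact W2N_mul b H ⟨d1, g1, hg1, rfl⟩ (W2N_mul b H ⟨d2, g2, hg2, rfl⟩
      (W2N_mul b H ⟨d1, g1, hg1, rfl⟩ (W2N_mul b H ⟨d3, g3, hg3, rfl⟩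
      (W2N_mul b H ⟨d4, g4, hg4, rfl⟩ ⟨d3, g3, hg3, rfl⟩))))
  have hM : LinearMap.toMatrix b b (g1 * (g2 * (g1 * (g3 * (g4 * g3))))).toLinearMap
      = Matrix.diagonal fun p => if p = i then a else if p = j then a⁻¹ else 1 := by
    have hi : (g1 * (g2 * (g1 * (g3 * (g4 * g3))))) (b i) = a • b i := by
      simp only [LinearEquiv.mul_apply, e1, e2, e3, e4, map_add, map_smul, Basis.repr_self,
        Finsupp.add_apply, Finsupp.smul_apply, smul_eq_mul, Finsupp.single_apply, hij, hij.symm,
        if_true, if_false]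
      match_scalars <;> field_simp <;> ring
    have hj : (g1 * (g2 * (g1 * (g3 * (g4 * g3))))) (b j) = a⁻¹ • b j := by
      simp only [LinearEquiv.mul_apply, e1, e2, e3, e4, map_add, map_smul, Basis.repr_self,
        Finsupp.add_apply, Finsupp.smul_apply, smul_eq_mul, Finsupp.single_apply, hij, hij.symm,
        if_true, if_false]
      match_scalars <;> field_simp <;> ring
    have ho : ∀ p, p ≠ i → p ≠ j → (g1 * (g2 * (g1 * (g3 * (g4 * g3))))) (b p) = b p := by
      intro p hpi hpj
      simp only [LinearEquiv.mul_apply, e1, e2, e3, e4, map_add, map_smul, Basis.repr_self,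
        Finsupp.add_apply, Finsupp.smul_apply, smul_eq_mul, Finsupp.single_apply, hpi, hpj,
        if_true, if_false, mul_zero, zero_smul, add_zero]
    ext p q
    rw [LinearMap.toMatrix_apply]
    simp only [LinearEquiv.coe_coe, Matrix.diagonal_apply]
    by_cases hqi : q = i
    · subst hqi
      rw [hi]
      simp only [map_smul, Basis.repr_self, Finsupp.smul_apply, Finsupp.single_apply, smul_eq_mul]
      by_cases hpq : p = q
      · simp [hpq]
      · simp [hpq, Ne.symm hpq]
    · by_cases hqj : q = j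
      · subst hqj
        rw [hj]
        simp only [map_smul, Basis.repr_self, Finsupp.smul_apply, Finsupp.single_apply, smul_eq_mul]
        by_cases hpq : p = q
        · simp [hpq, hqi]
        · simp [hpq, Ne.symm hpq]
      · rw [ho q hqi hqj]
        simp only [Basis.repr_self, Finsupp.single_apply]
        by_cases hpq : p = q
        · simp [hpq, hqi, hqj]
        · simp [hpq, Ne.symm hpq]
  rw [← hM]
  exact hN

open scoped Classical in
theorem W2N_diag (H : Subgroup (V ≃ₗ[K] V))
    (hT : ∀ (φ : Dual K V) (u : V) (h : φ u = 0), LinearEquiv.transvection h ∈ H) (N : ℕ) :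
    ∀ D : Fin n → K, ∏ p, D p = 1 → (Finset.univ.filter fun p => D p ≠ 1).card = N →
      W2N b H (Matrix.diagonal D) := by
  induction N using Nat.strong_induction_on with
  | _ N ih =>
    intro D hD hN
    by_cases hall : ∀ p, D p = 1
    · have : D = fun _ => 1 := funext hall
      rw [this, Matrix.diagonal_one]
      exact W2N_one b H
    · push Not at hall
      obtain ⟨i, hi⟩ := hall
      have hex : ∃ j, j ≠ i ∧ D j ≠ 1 := by
        by_contra hcon
        push Not at hcon
        apply hi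
        rw [← hD]
        rw [Finset.prod_eq_single i (fun j _ hj => hcon j hj) (fun h => absurd (Finset.mem_univ _) h)]
      obtain ⟨j, hji, hj⟩ := hex
      have hi0 : D i ≠ 0 := by
        intro h0
        rw [Finset.prod_eq_zero (Finset.mem_univ i) h0] at hD
        exact zero_ne_one hD
      have h2 := W2N_diag2 b H hT i j hji.symm (D i) hi0
      set F : Fin n → K := fun p => if p = i then D i else if p = j then (D i)⁻¹ else 1 with hF
      set E : Fin n → K := fun p => if p = i then 1 else if p = j then D i * D j else D p with hE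
      have hmul : Matrix.diagonal D = Matrix.diagonal F * Matrix.diagonal E := by
        rw [Matrix.diagonal_mul_diagonal]
        congr 1
        funext p
        simp only [hF, hE]
        split_ifs with h3 h4
        · rw [h3, mul_one]
        · rw [h4, ← mul_assoc, inv_mul_cancel₀ hi0, one_mul]
        · rw [one_mul]
      have hE1 : ∏ p, E p = 1 := by
        have h3 : (Matrix.diagonal D).det = 1 := by rw [Matrix.det_diagonal, hD]
        rw [hmul, Matrix.det_mul, h2.1, one_mul, Matrix.det_diagonal] at h3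
        exact h3
      rw [hmul]
      refine W2N_mul b H h2 (ih _ ?_ E hE1 rfl)
      rw [← hN]
      apply Finset.card_lt_card
      refine ⟨?_, ?_⟩
      · intro p hp
        simp only [Finset.mem_filter, Finset.mem_univ, true_and, hE] at hp ⊢
        split_ifs at hp with h3 h4
        · exact absurd rfl hp
        · rw [h4]; exact hj
        · exact hp
      · intro hsub
        have h3 : i ∈ Finset.univ.filter fun p => D p ≠ 1 := by simp [hi]
        have h4 := hsub h3
        simp [hE] at h4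

theorem W2N_list (H : Subgroup (V ≃ₗ[K] V))
    (hT : ∀ (φ : Dual K V) (u : V) (h : φ u = 0), LinearEquiv.transvection h ∈ H)
    (L : List (Matrix.TransvectionStruct (Fin n) K)) :
    W2N b H (L.map Matrix.TransvectionStruct.toMatrix).prod := by
  induction L with
  | nil => simpa using W2N_one b H
  | cons t L ih =>
    rw [List.map_cons, List.prod_cons]
    refine W2N_mul b H ?_ ih
    exact W2N_trans b H hT t.i t.j t.hij t.c

include b in
theorem W2_sl (H : Subgroup (V ≃ₗ[K] V))
    (hT : ∀ (φ : Dual K V) (u : V) (h : φ u = 0), LinearEquiv.transvection h ∈ H)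
    (g : V ≃ₗ[K] V) (hg : LinearEquiv.det g = 1) : g ∈ H := by
  obtain ⟨L, L', D, hM⟩ := Matrix.Pivot.exists_list_transvec_mul_diagonal_mul_list_transvec
    (LinearMap.toMatrix b b g.toLinearMap)
  have h1 : (LinearMap.toMatrix b b g.toLinearMap).det = 1 := by
    rw [LinearMap.det_toMatrix, ← LinearEquiv.coe_det, hg]
    simp
  have h2 : ∏ p, D p = 1 := by
    rw [hM, Matrix.det_mul, Matrix.det_mul, Matrix.TransvectionStruct.det_toMatrix_prod,
      Matrix.TransvectionStruct.det_toMatrix_prod, Matrix.det_diagonal] at h1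
    simpa using h1
  have h3 := W2N_mul b H (W2N_mul b H (W2N_list b H hT L) (W2N_diag b H hT _ D h2 rfl))
    (W2N_list b H hT L')
  rw [← hM] at h3
  obtain ⟨-, h, hh, he⟩ := h3
  have h4 : h.toLinearMap = g.toLinearMap := (LinearMap.toMatrix b b).injective he
  have h5 : h = g := LinearEquiv.toLinearMap_injective h4
  rw [← h5]
  exact hh

end W2

theorem sl_mem_of_index (k : ℕ) : ∃ q0 : ℕ, ∀ (K V : Type) [Field K] [Finite K] [AddCommGroup V]
    [Module K V] [FiniteDimensional K V] (H : Subgroup (V ≃ₗ[K] V)), q0 ≤ Nat.card K →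
    H.index ≤ k → ∀ g : V ≃ₗ[K] V, LinearEquiv.det g = 1 → g ∈ H := by
  refine ⟨k.factorial + 2, ?_⟩
  intro K V _ _ _ _ _ H hq hk g hg
  have : Finite V := Module.finite_of_finite K
  have : Finite (V ≃ₗ[K] V) := DFunLike.finite _
  obtain ⟨C, hCH, hn, hp⟩ := exists_core H ⊤ le_top k (by rwa [Subgroup.relIndex_top_right])
  have hT : ∀ (φ : Dual K V) (u : V) (h : φ u = 0), LinearEquiv.transvection h ∈ H :=
    fun φ u h => W2_trans H C hCH k.factorial k.factorial_pos (fun x c hc => hn x trivial c hc)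
      (fun x => hp x trivial) hq φ u h
  exact W2_sl (Module.finBasis K V) H hT g hg

end Pool.Agent.CTO
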