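import Pool.Agent.CTO.I1
import Pool.Agent.CTO.I2
import Pool.Agent.CTO.W1
import Pool.Agent.CTO.W2
import Pool.Agent.CTO.G1
import Pool.Agent.CTO.G4
import Pool.Agent.CTO.A5
import Pool.Agent.CTO.A7
import Pool.Agent.CTO.A8

/-!
# AI: the absolutely irreducible case (assembly)
-/

namespace Pool.Agent.CTO

open Module

section

variable {K V : Type} [Field K] [AddCommGroup V] [Module K V]

lemma carries_mul {g h : V ≃ₗ[K] V} {A A' A'' : Subalgebra K (Module.End K V)}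
    (hg : CarriesTo g A A') (hh : CarriesTo h A' A'') : CarriesTo (h * g) A A'' := by
  intro a ha
  have h1 := hh _ (hg a ha)
  have e : (h * g).toLinearMap ∘ₗ a ∘ₗ (h * g).symm.toLinearMap
      = h.toLinearMap ∘ₗ (g.toLinearMap ∘ₗ a ∘ₗ g.symm.toLinearMap) ∘ₗ h.symm.toLinearMap := by
    ext v
    rfl
  rw [e]
  exact h1

lemma carries_torGL {g : V ≃ₗ[K] V} {A : Subalgebra K (Module.End K V)} (hg : g ∈ torGL A) :
    CarriesTo g A A := by
  intro a ha
  have h1 : g.symm.toLinearMap ∈ A := hg.2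
  exact A.mul_mem hg.1 (A.mul_mem ha h1)

lemma carries_inv [FiniteDimensional K V] {g : V ≃ₗ[K] V} {A : Subalgebra K (Module.End K V)}
    (hg : CarriesTo g A A) : CarriesTo g⁻¹ A A := by
  -- the map `a ↦ g a g⁻¹` is an injective linear map of the finite dimensional space `A` to itself
  let φ : A →ₗ[K] A :=
    { toFun := fun a => ⟨g.toLinearMap ∘ₗ (a : Module.End K V) ∘ₗ g.symm.toLinearMap, hg a a.2⟩
      map_add' := by
        intro a b
        apply Subtype.ext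
        simp [LinearMap.comp_add, LinearMap.add_comp]
      map_smul' := by
        intro c a
        apply Subtype.ext
        simp [LinearMap.comp_smul, LinearMap.smul_comp] }
  have hinj : Function.Injective φ := by
    intro a b hab
    have h1 : g.toLinearMap ∘ₗ (a : Module.End K V) ∘ₗ g.symm.toLinearMap
        = g.toLinearMap ∘ₗ (b : Module.End K V) ∘ₗ g.symm.toLinearMap := congrArg Subtype.val hab
    apply Subtype.ext
    ext v
    have h2 := LinearMap.congr_fun h1 (g v)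
    simpa using h2
  have hsurj : Function.Surjective φ := LinearMap.injective_iff_surjective.mp hinj
  intro a ha
  obtain ⟨b, hb⟩ := hsurj ⟨a, ha⟩
  have h1 : g.toLinearMap ∘ₗ (b : Module.End K V) ∘ₗ g.symm.toLinearMap = a := congrArg Subtype.val hb
  have h2 : (g⁻¹).toLinearMap ∘ₗ a ∘ₗ (g⁻¹).symm.toLinearMap = (b : Module.End K V) := by
    rw [← h1]
    ext v
    have h3 : ∀ u, g⁻¹ (g u) = u := fun u => g.symm_apply_apply u
    have h4 : ∀ u, g.symm u = g⁻¹ u := fun u => rfl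
    have h5 : (g⁻¹).symm v = g v := rfl
    simp [h3, h4, h5]
  rw [h2]
  exact b.2

/-- The elements of the isometry group that carry `A` to itself. -/
def NormA (f : V → V → K) (A : Subalgebra K (Module.End K V)) [FiniteDimensional K V] :
    Subgroup (V ≃ₗ[K] V) where
  carrier := {n | n ∈ Isom f ∧ CarriesTo n A A}
  mul_mem' := by
    rintro a b ⟨ha, ha'⟩ ⟨hb, hb'⟩
    exact ⟨mul_mem ha hb, carries_mul hb' ha'⟩
  one_mem' := by
    refine ⟨one_mem _, fun a ha => ?_⟩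
    have : (1 : V ≃ₗ[K] V).toLinearMap ∘ₗ a ∘ₗ (1 : V ≃ₗ[K] V).symm.toLinearMap = a := by
      ext v; rfl
    rw [this]; exact ha
  inv_mem' := by
    rintro a ⟨ha, ha'⟩
    exact ⟨inv_mem ha, carries_inv ha'⟩

end

theorem aiGL (n : ℕ) : ∃ q0 : ℕ, ∀ (K V : Type) [Field K] [Finite K] [AddCommGroup V]
    [Module K V] [FiniteDimensional K V] (A A' : Subalgebra K (Module.End K V)) (g : V ≃ₗ[K] V),
    finrank K V = n → q0 ≤ Nat.card K → IsTorGL A → IsTorGL A' → CarriesTo g A A' →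
    Algebra.adjoin K (EndSet (sq (torGL A) ⊔ sq (torGL A'))) = ⊤ →
    ∃ h ∈ sq (torGL A) ⊔ sq (torGL A'), CarriesTo h A A' := by
  obtain ⟨k, q1, h1⟩ := index_GL n
  obtain ⟨q2, h2⟩ := sl_mem_of_index k
  refine ⟨max q1 q2, ?_⟩
  intro K V _ _ _ _ _ A A' g hn hq hA hA' hg hs
  have hi := h1 K V A A' g hn (le_trans (le_max_left _ _) hq) hA hA' hg hs
  have hsl := h2 K V _ (le_trans (le_max_right _ _) hq) hi
  rcases subsingleton_or_nontrivial V with hV | hV
  · exact ⟨1, one_mem _, fun a ha => by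
      have : (1 : V ≃ₗ[K] V).toLinearMap ∘ₗ a ∘ₗ (1 : V ≃ₗ[K] V).symm.toLinearMap
          = g.toLinearMap ∘ₗ a ∘ₗ g.symm.toLinearMap := by
        ext v; exact Subsingleton.elim _ _
      rw [this]; exact hg a ha⟩
  · obtain ⟨t, ht, htd⟩ := det_torGL A hA (LinearEquiv.det g)
    refine ⟨g * t⁻¹, hsl _ (by rw [map_mul, map_inv, htd, mul_inv_cancel]), ?_⟩
    exact carries_mul (carries_torGL (inv_mem ht)) hg

theorem aiSp (n : ℕ) : ∃ q0 : ℕ, ∀ (K V : Type) [Field K] [Finite K] [AddCommGroup V]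
    [Module K V] [FiniteDimensional K V] (f : V → V → K) (A A' : Subalgebra K (Module.End K V))
    (g : V ≃ₗ[K] V),
    finrank K V = n → q0 ≤ Nat.card K → (2 : K) ≠ 0 → IsHF (RingHom.id K) (-1) f → IsTor f A →
    IsTor f A' → g ∈ Isom f → CarriesTo g A A' →
    Algebra.adjoin K (EndSet (sq (tor (RingHom.id K) f A) ⊔ sq (tor (RingHom.id K) f A'))) = ⊤ →
    ∃ h ∈ sq (tor (RingHom.id K) f A) ⊔ sq (tor (RingHom.id K) f A'), CarriesTo h A A' := by
  obtain ⟨k, q1, h1⟩ := index_Sp n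
  obtain ⟨q2, h2⟩ := eich_mem_of_index k
  refine ⟨max q1 q2, ?_⟩
  intro K V _ _ _ _ _ f A A' g hn hq two hf hA hA' hgi hg hs
  have hi := h1 K V f A A' g hn (le_trans (le_max_left _ _) hq) two hf hA hA' hgi hg hs
  have hle : sq (tor (RingHom.id K) f A) ⊔ sq (tor (RingHom.id K) f A') ≤ Isom f := by
    refine sup_le ?_ ?_ <;>
    · refine (Subgroup.closure_le _).mpr ?_
      rintro x ⟨t, ht, rfl⟩
      exact mul_mem ht.2.1 ht.2.1
  have hcard : Nat.card {k : K // (RingHom.id K) k = k} = Nat.card K :=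
    Nat.card_congr (Equiv.subtypeUnivEquiv fun x => rfl)
  have hE := h2 K V (RingHom.id K) (-1) f _ (by rw [hcard]; exact le_trans (le_max_right _ _) hq)
    two hf hle hi
  exact ⟨g, hE (sp_gen two f hf hgi), hg⟩

theorem aiU (n : ℕ) : ∃ q0 : ℕ, ∀ (K V : Type) [Field K] [Finite K] [AddCommGroup V]
    [Module K V] [FiniteDimensional K V] (σ : K →+* K) (ε : K) (f : V → V → K)
    (A A' : Subalgebra K (Module.End K V)) (g : V ≃ₗ[K] V),
    finrank K V = n → q0 ≤ Nat.card {k : K // σ k = k} → (∃ k, σ k ≠ k) → (2 : K) ≠ 0 → IsHF σ ε f →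
    IsTor f A → IsTor f A' → g ∈ Isom f → CarriesTo g A A' →
    Algebra.adjoin K (EndSet (sq (tor σ f A) ⊔ sq (tor σ f A'))) = ⊤ →
    ∃ h ∈ sq (tor σ f A) ⊔ sq (tor σ f A'), CarriesTo h A A' := by
  obtain ⟨k, q1, h1⟩ := index_U n
  obtain ⟨q2, h2⟩ := eich_mem_of_index k
  refine ⟨max q1 q2, ?_⟩
  intro K V _ _ _ _ _ σ ε f A A' g hn hq hσ two hf hA hA' hgi hg hs
  have hi := h1 K V σ ε f A A' g hn (le_trans (le_max_left _ _) hq) hσ two hf hA hA' hgi hg hs
  have hle : sq (tor σ f A) ⊔ sq (tor σ f A') ≤ Isom f := by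
    refine sup_le ?_ ?_ <;>
    · refine (Subgroup.closure_le _).mpr ?_
      rintro x ⟨t, ht, rfl⟩
      exact mul_mem ht.2.1 ht.2.1
  have hE := h2 K V σ ε f _ (le_trans (le_max_right _ _) hq) two hf hle hi
  rcases subsingleton_or_nontrivial V with hV | hV
  · exact ⟨1, one_mem _, fun a ha => by
      have : (1 : V ≃ₗ[K] V).toLinearMap ∘ₗ a ∘ₗ (1 : V ≃ₗ[K] V).symm.toLinearMap
          = g.toLinearMap ∘ₗ a ∘ₗ g.symm.toLinearMap := by
        ext v; exact Subsingleton.elim _ _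
      rw [this]; exact hg a ha⟩
  · obtain ⟨t, ht, htd⟩ := det_torU σ hσ ε f hf A hA (LinearEquiv.det g) (det_isom_norm σ ε f hf g hgi)
    refine ⟨g * t⁻¹, hE (su_gen K V two σ hσ ε f hf _ (mul_mem hgi (inv_mem ht.2.1))
      (by rw [map_mul, map_inv, htd, mul_inv_cancel])), ?_⟩
    exact carries_mul (carries_torGL (inv_mem ht.1)) hg

theorem aiO (n : ℕ) (hn3 : 3 ≤ n) : ∃ q0 : ℕ, ∀ (K V : Type) [Field K] [Finite K] [AddCommGroup V]
    [Module K V] [FiniteDimensional K V] (f : V → V → K) (A A' : Subalgebra K (Module.End K V))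
    (g : V ≃ₗ[K] V),
    finrank K V = n → q0 ≤ Nat.card K → (2 : K) ≠ 0 → IsHF (RingHom.id K) 1 f → IsTor f A →
    IsTor f A' → g ∈ Isom f → CarriesTo g A A' → (OddPos f A ∨ LinearEquiv.det g = 1) →
    Algebra.adjoin K (EndSet (sq (tor (RingHom.id K) f A) ⊔ sq (tor (RingHom.id K) f A'))) = ⊤ →
    ∃ h ∈ sq (tor (RingHom.id K) f A) ⊔ sq (tor (RingHom.id K) f A'), CarriesTo h A A' := by
  obtain ⟨k, q1, h1⟩ := index_O n (by omega)
  obtain ⟨q2, h2⟩ := eich_mem_of_index k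
  refine ⟨max (max q1 q2) 5, ?_⟩
  intro K V _ _ _ _ _ f A A' g hn hq two hf hA hA' hgi hg hodd hs
  have hq1 : q1 ≤ Nat.card K := le_trans (le_trans (le_max_left _ _) (le_max_left _ _)) hq
  have hq2 : q2 ≤ Nat.card K := le_trans (le_trans (le_max_right _ _) (le_max_left _ _)) hq
  have h5 : 5 ≤ Nat.card K := le_trans (le_max_right _ _) hq
  have hV : 3 ≤ finrank K V := by omega
  have hi := h1 K V f A A' g hn hq1 two hf hA hA' hgi hg hs
  have hle : sq (tor (RingHom.id K) f A) ⊔ sq (tor (RingHom.id K) f A') ≤ Isom f := by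
    refine sup_le ?_ ?_ <;>
    · refine (Subgroup.closure_le _).mpr ?_
      rintro x ⟨t, ht, rfl⟩
      exact mul_mem ht.2.1 ht.2.1
  have hcard : Nat.card {k : K // (RingHom.id K) k = k} = Nat.card K :=
    Nat.card_congr (Equiv.subtypeUnivEquiv fun x => rfl)
  have hE := h2 K V (RingHom.id K) 1 f _ (by rw [hcard]; exact hq2) two hf hle hi
  -- `EU` is normal in `Isom f`, so `EU ⊔ NormA` consists of the products
  set N := EU (RingHom.id K) 1 f ⊔ NormA f A with hN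
  have hmem : ∀ x ∈ N, ∃ e ∈ EU (RingHom.id K) 1 f, ∃ m ∈ NormA f A, x = e * m := by
    intro x hx
    refine Subgroup.closure_induction (p := fun x _ => ∃ e ∈ EU (RingHom.id K) 1 f,
      ∃ m ∈ NormA f A, x = e * m) (k := (EU (RingHom.id K) 1 f : Set (V ≃ₗ[K] V)) ∪ NormA f A)
      ?_ ?_ ?_ ?_ ?_
    · rintro y (hy | hy)
      · exact ⟨y, hy, 1, one_mem _, (mul_one _).symm⟩
      · exact ⟨1, one_mem _, y, hy, (one_mul _).symm⟩
    · exact ⟨1, one_mem _, 1, one_mem _, (mul_one _).symm⟩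
    · rintro y z _ _ ⟨e, he, m, hm, rfl⟩ ⟨e', he', m', hm', rfl⟩
      refine ⟨e * (m * e' * m⁻¹), mul_mem he (EU_conj hf m hm.1 e' he'), m * m', mul_mem hm hm', ?_⟩
      group
    · rintro y _ ⟨e, he, m, hm, rfl⟩
      refine ⟨m⁻¹ * e⁻¹ * m, ?_, m⁻¹, inv_mem hm, by group⟩
      have := EU_conj hf m⁻¹ (inv_mem hm).1 e⁻¹ (inv_mem he)
      rwa [inv_inv] at this
    · rw [hN, Subgroup.sup_eq_closure] at hx
      exact hx
  have hNE : EU (RingHom.id K) 1 f ≤ N := le_sup_left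
  have hNA : ∀ m ∈ Isom f, CarriesTo m A A → m ∈ N := fun m hm hm' =>
    (le_sup_right : NormA f A ≤ N) ⟨hm, hm'⟩
  have hcl := tor_class two h5 f hf hV A hA N hNE hNA
  have hgN : g ∈ N := by
    rcases hodd with hodd | hd
    · have : Nontrivial V := Module.nontrivial_of_finrank_pos (R := K) (by omega)
      obtain ⟨m, hm, hm', hmd⟩ := tor_det two f hf A hA hodd
      exact O_gen two h5 f hf hV N hNE hcl ⟨m, hNA m hm hm', hm, hmd⟩ hgi
    · exact O_gen_det two h5 f hf hV N hNE hcl g hgi hd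
  obtain ⟨e, he, m, hm, rfl⟩ := hmem g hgN
  refine ⟨e, hE he, ?_⟩
  have h3 : CarriesTo ((e * m) * m⁻¹) A A' := carries_mul (carries_inv hm.2) hg
  have h4 : e * m * m⁻¹ = e := by group
  rwa [h4] at h3

end Pool.Agent.CTO
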