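import Pool.Agent.CTO.Mat0

/-!
# M1: `ZD D H` is closed under multiplication and inverses

Write `I` for the polynomials of degree `≤ D` vanishing on `H`. For a matrix `x` let `L_x p (y) = p (x y)`
and `R_x p (y) = p (y x)`; these are given by substituting linear forms with coefficients in `F` for the
variables, so they do not raise the total degree.
* `ZD_mul`: let `x, z ∈ ZD` and `p ∈ I`. For `h ∈ H`, `L_h p ∈ I`, so `p (h x) = (L_h p)(x) = 0`. Hence
  `R_x p` vanishes on `H`, i.e. `R_x p ∈ I`, and `p (z x) = (R_x p)(z) = 0`.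
* `ZD_inv`: for `x ∈ ZD` invertible, `R_x` maps `I` to `I` (shown above) and is injective
  (`R_{x⁻¹} R_x = id`); `I` is finite dimensional (it lies in `MvPolynomial.restrictTotalDegree`), so
  `R_x : I → I` is surjective. For `p ∈ I` write `p = R_x p'` with `p' ∈ I`; then
  `p (x⁻¹) = p' (x⁻¹ x) = p' 1 = 0` because `1 ∈ H`.
* `ZD_iso`: the entries of `x * starM x - 1` are polynomials of degree `≤ 2` vanishing on `H`; and
  `x * y = 1` implies `y * x = 1` for square matrices.
-/

namespace Pool.Agent.CTO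

open Matrix

set_option linter.unusedSectionVars false

variable {F Ω : Type} [Field F] [Fintype Ω] [DecidableEq Ω]

theorem ZD_of_mem (D : ℕ) (H : Subgroup (Matrix Ω Ω F)ˣ) {h : (Matrix Ω Ω F)ˣ} (hh : h ∈ H) :
    (h : Matrix Ω Ω F) ∈ ZD D H := by
  intro p _ hp
  exact hp h hh

/-- substituting polynomials of degree at most one does not raise the total degree -/
theorem M1_totalDegree {σ τ : Type} (f : σ → MvPolynomial τ F) (hf : ∀ i, (f i).totalDegree ≤ 1)
    (p : MvPolynomial σ F) : (MvPolynomial.bind₁ f p).totalDegree ≤ p.totalDegree := by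
  classical
  rw [MvPolynomial.bind₁, MvPolynomial.aeval_def, MvPolynomial.eval₂_eq]
  refine MvPolynomial.totalDegree_finsetSum_le ?_
  intro d hd
  refine (MvPolynomial.totalDegree_mul _ _).trans ?_
  have h1 : (algebraMap F (MvPolynomial τ F) (MvPolynomial.coeff d p)).totalDegree = 0 :=
    MvPolynomial.totalDegree_C _
  rw [h1, zero_add]
  refine (MvPolynomial.totalDegree_finsetProd _ _).trans ?_
  refine le_trans (Finset.sum_le_sum (g := fun i => d i) ?_) (MvPolynomial.le_totalDegree hd)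
  intro i _
  refine (MvPolynomial.totalDegree_pow _ _).trans ?_
  calc d i * (f i).totalDegree ≤ d i * 1 := Nat.mul_le_mul_left _ (hf i)
    _ = d i := mul_one _

/-- the linear forms of `y ↦ x * y` -/
noncomputable def M1_L (x : Matrix Ω Ω F) : Ω × Ω → MvPolynomial (Ω × Ω) F := fun ij =>
  ∑ k, MvPolynomial.C (x ij.1 k) * MvPolynomial.X (k, ij.2)

/-- the linear forms of `y ↦ y * x` -/
noncomputable def M1_R (x : Matrix Ω Ω F) : Ω × Ω → MvPolynomial (Ω × Ω) F := fun ij =>
  ∑ k, MvPolynomial.C (x k ij.2) * MvPolynomial.X (ij.1, k)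

theorem M1_L_deg (x : Matrix Ω Ω F) (ij : Ω × Ω) : (M1_L x ij).totalDegree ≤ 1 := by
  refine MvPolynomial.totalDegree_finsetSum_le ?_
  intro k _
  refine (MvPolynomial.totalDegree_mul _ _).trans ?_
  rw [MvPolynomial.totalDegree_C, MvPolynomial.totalDegree_X]

theorem M1_R_deg (x : Matrix Ω Ω F) (ij : Ω × Ω) : (M1_R x ij).totalDegree ≤ 1 := by
  refine MvPolynomial.totalDegree_finsetSum_le ?_
  intro k _
  refine (MvPolynomial.totalDegree_mul _ _).trans ?_
  rw [MvPolynomial.totalDegree_C, MvPolynomial.totalDegree_X]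

theorem M1_ev (x : Matrix Ω Ω F) (p : MvPolynomial (Ω × Ω) F) :
    ev x p = MvPolynomial.aeval (fun ij : Ω × Ω => x ij.1 ij.2) p := by
  unfold ev
  rw [← MvPolynomial.coe_aeval_eq_eval]
  rfl

theorem M1_evL (x y : Matrix Ω Ω F) (p : MvPolynomial (Ω × Ω) F) :
    ev y (MvPolynomial.bind₁ (M1_L x) p) = ev (x * y) p := by
  rw [M1_ev, M1_ev, MvPolynomial.aeval_bind₁]
  congr 2
  funext ij
  simp only [M1_L, map_sum, map_mul, MvPolynomial.aeval_C, MvPolynomial.aeval_X,
    Matrix.mul_apply]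
  rfl

theorem M1_evR (x y : Matrix Ω Ω F) (p : MvPolynomial (Ω × Ω) F) :
    ev y (MvPolynomial.bind₁ (M1_R x) p) = ev (y * x) p := by
  rw [M1_ev, M1_ev, MvPolynomial.aeval_bind₁]
  congr 2
  funext ij
  simp only [M1_R, map_sum, map_mul, MvPolynomial.aeval_C, MvPolynomial.aeval_X,
    Matrix.mul_apply]
  apply Finset.sum_congr rfl
  intro k _
  simp only [Algebra.algebraMap_self, RingHom.id_apply]
  ring

/-- right translation by an element of `ZD` preserves the vanishing polynomials -/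
theorem M1_van {D : ℕ} {H : Subgroup (Matrix Ω Ω F)ˣ} {x : Matrix Ω Ω F} (hx : x ∈ ZD D H)
    {p : MvPolynomial (Ω × Ω) F} (hp : p.totalDegree ≤ D)
    (hH : ∀ h ∈ H, ev (h : Matrix Ω Ω F) p = 0) :
    ∀ h ∈ H, ev (h : Matrix Ω Ω F) (MvPolynomial.bind₁ (M1_R x) p) = 0 := by
  intro h hh
  rw [M1_evR, ← M1_evL]
  refine hx _ ((M1_totalDegree _ (M1_L_deg _) p).trans hp) ?_
  intro h' hh'
  rw [M1_evL]
  exact hH (h * h') (H.mul_mem hh hh')

theorem ZD_mul (D : ℕ) (H : Subgroup (Matrix Ω Ω F)ˣ) {x y : Matrix Ω Ω F}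
    (hx : x ∈ ZD D H) (hy : y ∈ ZD D H) : x * y ∈ ZD D H := by
  intro p hp hH
  rw [← M1_evR]
  exact hx _ ((M1_totalDegree _ (M1_R_deg _) p).trans hp) (M1_van hy hp hH)

/-- the polynomials of degree at most `D` vanishing on `H` -/
noncomputable def M1_I (D : ℕ) (H : Subgroup (Matrix Ω Ω F)ˣ) :
    Submodule F (MvPolynomial (Ω × Ω) F) where
  carrier := {p | p ∈ MvPolynomial.restrictTotalDegree (Ω × Ω) F D ∧
    ∀ h ∈ H, ev (h : Matrix Ω Ω F) p = 0}
  add_mem' := by
    intro a b ha hb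
    refine ⟨Submodule.add_mem _ ha.1 hb.1, ?_⟩
    intro h hh
    have h1 := ha.2 h hh
    have h2 := hb.2 h hh
    rw [M1_ev] at h1 h2 ⊢
    rw [map_add, h1, h2, add_zero]
  zero_mem' := by
    refine ⟨Submodule.zero_mem _, ?_⟩
    intro h hh
    rw [M1_ev]
    simp
  smul_mem' := by
    intro c a ha
    refine ⟨Submodule.smul_mem _ c ha.1, ?_⟩
    intro h hh
    have h1 := ha.2 h hh
    rw [M1_ev] at h1 ⊢
    rw [map_smul, h1, smul_zero]

/-- right translation on the vanishing polynomials -/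
noncomputable def M1_T {D : ℕ} {H : Subgroup (Matrix Ω Ω F)ˣ} {x : Matrix Ω Ω F}
    (hx : x ∈ ZD D H) : M1_I D H →ₗ[F] M1_I D H where
  toFun p := ⟨MvPolynomial.bind₁ (M1_R x) (p : MvPolynomial (Ω × Ω) F), by
    constructor
    · rw [MvPolynomial.mem_restrictTotalDegree]
      exact (M1_totalDegree _ (M1_R_deg _) _).trans
        ((MvPolynomial.mem_restrictTotalDegree _ _ _).1 p.2.1)
    · exact M1_van hx ((MvPolynomial.mem_restrictTotalDegree _ _ _).1 p.2.1) p.2.2⟩
  map_add' := by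
    intro a b
    apply Subtype.ext
    simp
  map_smul' := by
    intro c a
    apply Subtype.ext
    simp

theorem M1_RR (x y : Matrix Ω Ω F) (p : MvPolynomial (Ω × Ω) F) :
    MvPolynomial.bind₁ (M1_R y) (MvPolynomial.bind₁ (M1_R x) p) =
      MvPolynomial.bind₁ (M1_R (y * x)) p := by
  rw [MvPolynomial.bind₁_bind₁]
  congr 2
  funext ij
  simp only [M1_R, map_sum, map_mul, MvPolynomial.bind₁_X_right, MvPolynomial.bind₁_C_right,
    Matrix.mul_apply, Finset.mul_sum, Finset.sum_mul]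
  rw [Finset.sum_comm]
  apply Finset.sum_congr rfl
  intro k _
  apply Finset.sum_congr rfl
  intro l _
  ring

theorem M1_R1 (p : MvPolynomial (Ω × Ω) F) :
    MvPolynomial.bind₁ (M1_R (1 : Matrix Ω Ω F)) p = p := by
  have : (M1_R (1 : Matrix Ω Ω F)) = MvPolynomial.X := by
    funext ij
    simp only [M1_R]
    rw [Finset.sum_eq_single ij.2]
    · simp
    · intro k _ hk
      rw [Matrix.one_apply_ne hk]
      simp
    · intro h
      exact absurd (Finset.mem_univ _) h
  rw [this]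
  simp

theorem M1_surj {V : Type} [AddCommGroup V] [Module F V] (hfin : Module.Finite F V)
    (f : V →ₗ[F] V) (hf : Function.Injective f) : Function.Surjective f :=
  LinearMap.surjective_of_injective hf

theorem ZD_inv (D : ℕ) (H : Subgroup (Matrix Ω Ω F)ˣ) (x : (Matrix Ω Ω F)ˣ)
    (hx : (x : Matrix Ω Ω F) ∈ ZD D H) : ((x⁻¹ : (Matrix Ω Ω F)ˣ) : Matrix Ω Ω F) ∈ ZD D H := by
  intro p hp hH
  have hinj : Function.Injective (M1_T hx) := by
    intro a b hab
    apply Subtype.ext
    have h1 := congrArg (fun t : M1_I D H => (t : MvPolynomial (Ω × Ω) F)) hab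
    have h2 : MvPolynomial.bind₁ (M1_R (x : Matrix Ω Ω F)) (a : MvPolynomial (Ω × Ω) F) =
      MvPolynomial.bind₁ (M1_R (x : Matrix Ω Ω F)) (b : MvPolynomial (Ω × Ω) F) := h1
    have h3 := congrArg (MvPolynomial.bind₁
      (M1_R ((x⁻¹ : (Matrix Ω Ω F)ˣ) : Matrix Ω Ω F))) h2
    rw [M1_RR, M1_RR, Units.inv_mul, M1_R1, M1_R1] at h3
    exact h3
  have hle : M1_I D H ≤ MvPolynomial.restrictTotalDegree (Ω × Ω) F D := fun a ha => ha.1
  have hfin : Module.Finite F (M1_I D H) := Submodule.finiteDimensional_of_le hle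
  have hsurj : Function.Surjective (M1_T hx) := M1_surj hfin (M1_T hx) hinj
  obtain ⟨p', hp'⟩ := hsurj ⟨p, (MvPolynomial.mem_restrictTotalDegree _ _ _).2 hp, hH⟩
  have h4 := congrArg (fun t : M1_I D H => (t : MvPolynomial (Ω × Ω) F)) hp'
  have h5 : MvPolynomial.bind₁ (M1_R (x : Matrix Ω Ω F)) (p' : MvPolynomial (Ω × Ω) F) = p := h4
  rw [← h5, M1_evR, Units.inv_mul]
  have h6 := p'.2.2 1 H.one_mem
  exact h6

theorem ZD_iso (D : ℕ) (hD : 2 ≤ D) (H : Subgroup (Matrix Ω Ω F)ˣ) (bar : Ω → Ω) (s : Ω → F)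
    (hH : ∀ h ∈ H, IsoM bar s (h : Matrix Ω Ω F)) :
    ∀ x ∈ ZD D H, IsoM bar s x := by
  intro x hx
  have key : x * starM bar s x = 1 := by
    ext i j
    set P : MvPolynomial (Ω × Ω) F :=
      (∑ k, MvPolynomial.C (s k * s j) * (MvPolynomial.X (i, k) * MvPolynomial.X (bar j, bar k))) -
        MvPolynomial.C ((1 : Matrix Ω Ω F) i j) with hP
    have hev : ∀ y : Matrix Ω Ω F, ev y P = (y * starM bar s y) i j - (1 : Matrix Ω Ω F) i j := by
      intro y
      rw [M1_ev, hP, map_sub, map_sum, MvPolynomial.aeval_C, Matrix.mul_apply]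
      congr 1
      apply Finset.sum_congr rfl
      intro k _
      simp only [map_mul, MvPolynomial.aeval_C, MvPolynomial.aeval_X, starM, Matrix.of_apply,
        Algebra.algebraMap_self, RingHom.id_apply]
      ring
    have hdeg : P.totalDegree ≤ D := by
      rw [hP]
      refine (MvPolynomial.totalDegree_sub _ _).trans ?_
      rw [MvPolynomial.totalDegree_C, max_eq_left (Nat.zero_le _)]
      refine MvPolynomial.totalDegree_finsetSum_le ?_
      intro k _
      refine (MvPolynomial.totalDegree_mul _ _).trans ?_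
      rw [MvPolynomial.totalDegree_C, zero_add]
      refine (MvPolynomial.totalDegree_mul _ _).trans ?_
      rw [MvPolynomial.totalDegree_X, MvPolynomial.totalDegree_X]
      exact hD
    have h1 := hx P hdeg (by
      intro h hh
      rw [hev, (hH h hh).1, sub_self])
    rw [hev] at h1
    exact sub_eq_zero.1 h1
  exact ⟨key, mul_eq_one_comm.1 key⟩

end Pool.Agent.CTO
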