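import Pool.Agent.CTO.A1
import Pool.Agent.CTO.R5
import Pool.Agent.CTO.R6
import Pool.Agent.CTO.I0

/-!
# A2: the squares of the torus generate the algebra (large fields)

`F = AlgebraicClosure K`, `w` from `exists_rho` (`exists_rho_form`; only `w`, `bar` are used), `T` the torus,
`B = Algebra.adjoin K (EndSet (sq T)) ≤ A`. Suppose `B ≠ A`. The homomorphisms `B → F` are linearly
independent over `F`, so there are at most `dim B < dim A` of them, while there are `dim A` homomorphisms
`w i : A → F`; so `w i = w j` on `B` for some `i ≠ j`. Hence the polynomial `X i - X j` (degree `1`)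
vanishes on `T0 w T`. Linear case: by `dens_torGL` (`D = 1`, `|K| > n + 2`) `X i - X j = 0`: contradiction.
Bilinear case: by `dens_tor` (`D = 1`, `|K| > 3 n`) `z i = z j` for all `z ∈ barT bar`. One of `i`, `j` is
not fixed by `bar`, say `bar i ≠ i`; take `t` with `t ^ 2 ≠ 1` and `z i = t`, `z (bar i) = t⁻¹`, `z k = 1`
for the other `k`; then `z j ∈ {1, t⁻¹}` is different from `t`: contradiction.
-/

namespace Pool.Agent.CTO

open Module

/-- a subalgebra which separates the homomorphisms is the whole algebra -/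
theorem A2_core {K V F : Type} [Field K] [AddCommGroup V] [Module K V] [FiniteDimensional K V]
    [Field F] [Algebra K F] (A B : Subalgebra K (Module.End K V)) (hBA : B ≤ A) (n : ℕ)
    (hr : finrank K A = n) (w : Fin n → (A →ₐ[K] F))
    (hinj : ∀ i j, (∀ b (hb : b ∈ B), w i ⟨b, hBA hb⟩ = w j ⟨b, hBA hb⟩) → i = j) : A ≤ B := by
  classical
  let φ : Fin n → (B →ₐ[K] F) := fun i => (w i).comp (Subalgebra.inclusion hBA)
  have hφ : Function.Injective (fun i => (φ i : B →* F)) := by
    intro i j hij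
    apply hinj
    intro b hb
    have h1 := DFunLike.congr_fun hij (⟨b, hb⟩ : B)
    exact h1
  have h1 : LinearIndependent F (fun i => ((φ i : B →* F) : B → F)) :=
    (linearIndependent_monoidHom B F).comp (fun i => (φ i : B →* F)) hφ
  have h2 : LinearIndependent F (fun i => (φ i).toLinearMap) := by
    apply LinearIndependent.of_comp (LinearMap.ltoFun K B F F)
    exact h1
  have h3 := h2.fintype_card_le_finrank
  rw [Fintype.card_fin, Module.finrank_linearMap_self] at h3
  have h4 : Subalgebra.toSubmodule B = Subalgebra.toSubmodule A :=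
    Submodule.eq_of_le_of_finrank_le hBA (by rw [← hr] at h3; exact h3)
  intro a ha
  have h5 : a ∈ Subalgebra.toSubmodule A := ha
  rw [← h4] at h5
  exact h5

theorem A2_sq {K V : Type} [Field K] [AddCommGroup V] [Module K V]
    (A : Subalgebra K (Module.End K V)) (T : Subgroup (V ≃ₗ[K] V)) (hT : T ≤ torGL A) :
    Algebra.adjoin K (EndSet (sq T)) ≤ A := by
  rw [Algebra.adjoin_le_iff]
  rintro _ ⟨h, hh, rfl⟩
  have h1 : sq T ≤ torGL A := by
    unfold sq
    rw [Subgroup.closure_le]
    rintro _ ⟨t, ht, rfl⟩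
    exact mul_mem (hT ht) (hT ht)
  exact (h1 hh).1

theorem A2_mem {K V : Type} [Field K] [AddCommGroup V] [Module K V]
    {T : Subgroup (V ≃ₗ[K] V)} {g : V ≃ₗ[K] V} (hg : g ∈ T) :
    g.toLinearMap * g.toLinearMap ∈ Algebra.adjoin K (EndSet (sq T)) := by
  apply Algebra.subset_adjoin
  exact ⟨g * g, Subgroup.subset_closure ⟨g, hg, rfl⟩, rfl⟩

theorem gen_torGL (n : ℕ) : ∃ q0 : ℕ, ∀ (K V : Type) [Field K] [Finite K] [AddCommGroup V]
    [Module K V] [FiniteDimensional K V] (A : Subalgebra K (Module.End K V)),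
    finrank K V = n → q0 ≤ Nat.card K → IsTorGL A → A ≤ Algebra.adjoin K (EndSet (sq (torGL A))) := by
  refine ⟨n + 3, ?_⟩
  intro K V _ _ _ _ _ A hn hq hA
  subst hn
  obtain ⟨w, ρ, hρ⟩ := exists_rho (F := AlgebraicClosure K) A hA
  refine A2_core (F := AlgebraicClosure K) A _ (A2_sq A _ le_rfl) (finrank K V) hA.rank w ?_
  intro i j hij
  have hd := dens_torGL A hA w hρ.bij 1 (by omega)
  have h1 := hd (MvPolynomial.X i - MvPolynomial.X j) (by
    refine (MvPolynomial.totalDegree_sub _ _).trans ?_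
    rw [MvPolynomial.totalDegree_X, MvPolynomial.totalDegree_X, max_self]) (by
    rintro z ⟨t, ⟨g, hg, hgt⟩, hz⟩
    rw [map_sub, MvPolynomial.eval_X, MvPolynomial.eval_X, hz, hz, sub_eq_zero]
    have h2 := hij _ (A2_mem hg)
    have h3 : (⟨g.toLinearMap * g.toLinearMap, A2_sq A _ le_rfl (A2_mem hg)⟩ : A) = t * t := by
      apply Subtype.ext
      change g.toLinearMap * g.toLinearMap = (t : Module.End K V) * t
      rw [hgt]
    rw [h3] at h2
    exact h2)
  exact MvPolynomial.X_injective (sub_eq_zero.1 h1)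

/-- the elements of `barT bar` separate the indices -/
theorem A2_barT {Ω F : Type} [DecidableEq Ω] [Field F] (bar : Ω → Ω)
    (hbar : ∀ i, bar (bar i) = i) (u : Fˣ) (hu : u * u ≠ 1) (i j : Ω) (hi : bar i ≠ i) (hij : i ≠ j)
    (h : ∀ z ∈ (barT bar : Set (Ω → Fˣ)), (z i : F) = z j) : False := by
  let z : Ω → Fˣ := fun k => if k = i then u else if k = bar i then u⁻¹ else 1
  have zi : z i = u := if_pos rfl
  have zb : z (bar i) = u⁻¹ := by
    change (if bar i = i then u else if bar i = bar i then u⁻¹ else 1) = u⁻¹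
    rw [if_neg hi, if_pos rfl]
  have zo : ∀ k, k ≠ i → k ≠ bar i → z k = 1 := by
    intro k h1 h2
    simp only [z]
    rw [if_neg h1, if_neg h2]
  have hz : z ∈ (barT bar : Set (Ω → Fˣ)) := by
    intro k
    by_cases h1 : k = i
    · rw [h1, zi, zb]
      exact ⟨mul_inv_cancel u, fun h2 => absurd h2 hi⟩
    · by_cases h2 : k = bar i
      · rw [h2, zb, hbar, zi]
        exact ⟨inv_mul_cancel u, fun h3 => absurd h3.symm hi⟩
      · have h3 : bar k ≠ i := by
          intro h4
          apply h2
          rw [← h4, hbar]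
        have h4 : bar k ≠ bar i := by
          intro h5
          apply h1
          rw [← hbar k, h5, hbar]
        rw [zo k h1 h2, zo _ h3 h4]
        exact ⟨one_mul 1, fun _ => rfl⟩
  have h1 := Units.ext (h z hz)
  rw [zi] at h1
  apply hu
  by_cases h2 : j = bar i
  · rw [h2, zb] at h1
    nth_rewrite 1 [h1]
    exact inv_mul_cancel u
  · rw [zo j (Ne.symm hij) h2] at h1
    rw [h1, one_mul]

theorem gen_tor (n : ℕ) : ∃ q0 : ℕ, ∀ (K V : Type) [Field K] [Finite K] [AddCommGroup V]
    [Module K V] [FiniteDimensional K V] (ε : K) (f : V → V → K) (A : Subalgebra K (Module.End K V)),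
    finrank K V = n → q0 ≤ Nat.card K → (2 : K) ≠ 0 → IsHF (RingHom.id K) ε f → IsTor f A →
    A ≤ Algebra.adjoin K (EndSet (sq (tor (RingHom.id K) f A))) := by
  refine ⟨3 * n + 1, ?_⟩
  intro K V _ _ _ _ _ ε f A hn hq two hf hA
  classical
  subst hn
  obtain ⟨w, ρ, bar, s, hρ, hbf, huniq, -, hbar⟩ :=
    exists_rho_form (F := AlgebraicClosure K) ε f hf two A hA
  have hle : tor (RingHom.id K) f A ≤ torGL A := fun g hg => hg.1
  refine A2_core (F := AlgebraicClosure K) A _ (A2_sq A _ hle) (finrank K V) hA.rank w ?_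
  intro i j hij
  have hd := dens_tor ε f hf A hA w hρ.bij bar hbar 1 (by omega)
  have h1 := hd (MvPolynomial.X i - MvPolynomial.X j) (by
    refine (MvPolynomial.totalDegree_sub _ _).trans ?_
    rw [MvPolynomial.totalDegree_X, MvPolynomial.totalDegree_X, max_self]) (by
    rintro z ⟨t, ⟨g, hg, hgt⟩, hz⟩
    rw [map_sub, MvPolynomial.eval_X, MvPolynomial.eval_X, hz, hz, sub_eq_zero]
    have h2 := hij _ (A2_mem hg)
    have h3 : (⟨g.toLinearMap * g.toLinearMap, A2_sq A _ hle (A2_mem hg)⟩ : A) = t * t := by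
      apply Subtype.ext
      change g.toLinearMap * g.toLinearMap = (t : Module.End K V) * t
      rw [hgt]
    rw [h3] at h2
    exact h2)
  have h2 : ∀ z ∈ (barT bar : Set (Fin (finrank K V) → (AlgebraicClosure K)ˣ)),
      (z i : AlgebraicClosure K) = z j := by
    intro z hz
    have h3 := h1 z hz
    rw [map_sub, MvPolynomial.eval_X, MvPolynomial.eval_X, sub_eq_zero] at h3
    exact h3
  obtain ⟨u, hu⟩ : ∃ u : (AlgebraicClosure K)ˣ, u * u ≠ 1 := by
    have : Infinite (AlgebraicClosure K) := IsAlgClosed.instInfinite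
    obtain ⟨x, hx⟩ := Infinite.exists_notMem_finset ({0, 1, -1} : Finset (AlgebraicClosure K))
    simp only [Finset.mem_insert, Finset.mem_singleton, not_or] at hx
    refine ⟨Units.mk0 x hx.1, ?_⟩
    intro h3
    have h4 : x * x = 1 := congrArg Units.val h3
    rcases mul_self_eq_one_iff.1 h4 with h5 | h5
    · exact hx.2.1 h5
    · exact hx.2.2 h5
  by_contra hne
  by_cases hi : bar i = i
  · by_cases hj : bar j = j
    · exact hne (huniq i j hi hj)
    · exact A2_barT bar hbf.invol u hu j i hj (Ne.symm hne) (fun z hz => (h2 z hz).symm)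
  · exact A2_barT bar hbf.invol u hu i j hi hne h2

end Pool.Agent.CTO
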