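import Pool.Agent.CTO.Model

/-!
# MP_0dcdae_al: the data of a maximal torus of a classical group

A maximal torus of a symplectic or orthogonal group over the finite field `K` is given by finite
extension fields `P i` (`i ∈ ι`, the positive cycles) and `L j` (`j ∈ κ`, the negative cycles) of
`K`, an automorphism `τ j` of order two of `L j` over `K`, and a set `ζ`, empty or a point. It consists
of the isometries in the unit group of the algebra `A = ∏ (P i × P i) × ∏ L j × K^ζ` with the
involution which exchanges the factors of `P i × P i`, acts by `τ j` on `L j` and trivially on `K^ζ`.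
-/

namespace Pool.Agent.CTO

open Module

/-- The data of a maximal torus. -/
structure TorData (K : Type) [Field K] where
  /-- the positive cycles -/
  ι : Type
  /-- the negative cycles -/
  κ : Type
  /-- empty or a point -/
  ζ : Type
  /-- the fields of the positive cycles -/
  P : ι → Type
  /-- the fields of the negative cycles -/
  L : κ → Type
  finι : Fintype ι
  finκ : Fintype κ
  finζ : Fintype ζ
  subζ : Subsingleton ζ
  fieldP : ∀ i, Field (P i)
  algP : ∀ i, Algebra K (P i)
  fdP : ∀ i, FiniteDimensional K (P i)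
  fieldL : ∀ j, Field (L j)
  algL : ∀ j, Algebra K (L j)
  fdL : ∀ j, FiniteDimensional K (L j)
  /-- the automorphisms of order two -/
  τ : ∀ j, L j ≃ₐ[K] L j
  invol : ∀ j x, τ j (τ j x) = x
  nontriv : ∀ j, ∃ x, τ j x ≠ x

attribute [instance] TorData.finι TorData.finκ TorData.finζ TorData.subζ TorData.fieldP TorData.algP
  TorData.fdP TorData.fieldL TorData.algL TorData.fdL

variable {K : Type} [Field K]

/-- The algebra `∏ (P i × P i) × ∏ L j × K^ζ`. -/
def TorData.A (D : TorData K) : Type := ((∀ i, D.P i × D.P i) × (∀ j, D.L j)) × (D.ζ → K)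

instance (D : TorData K) : CommRing D.A :=
  inferInstanceAs (CommRing (((∀ i, D.P i × D.P i) × (∀ j, D.L j)) × (D.ζ → K)))

instance (D : TorData K) : Algebra K D.A :=
  inferInstanceAs (Algebra K (((∀ i, D.P i × D.P i) × (∀ j, D.L j)) × (D.ζ → K)))

/-- The involution of the algebra. -/
def TorData.star (D : TorData K) (a : D.A) : D.A :=
  ((fun i => (a.1.1 i).swap, fun j => D.τ j (a.1.2 j)), a.2)

/-- `f` is adapted to the involution. -/
def TorData.IsAdapted (D : TorData K) (f : D.A → D.A → K) : Prop :=
  ∀ a v w, f (a * v) w = f v (D.star a * w)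

/-- Sub-multisets of the signed cycle type are determined by the sum of their lengths. -/
def TorData.SumsDistinct (D : TorData K) : Prop := DistinctC K D.P D.L

/-- Sub-multisets of the signed cycle type are determined by the sum of their lengths and the parity
of the number of the negative cycles in them. -/
def TorData.SignedSumsDistinct (D : TorData K) : Prop := DistinctBD K D.P D.L

/-- The length `[P i : K]` of a positive cycle. -/
noncomputable def TorData.posLen (D : TorData K) (i : D.ι) : ℕ := finrank K (D.P i)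

/-- There is exactly one cycle, it is positive, and its length is `2` modulo `4`. -/
def TorData.SingleTwoModFour (D : TorData K) : Prop :=
  IsEmpty D.κ ∧ IsEmpty D.ζ ∧ ∃ i0 : D.ι, (∀ i, i = i0) ∧ D.posLen i0 % 4 = 2

/-- The dimension of the algebra. -/
noncomputable def TorData.dim (D : TorData K) : ℕ := finrank K D.A

/-- The group `GL_K(A)`. -/
def TorData.G (D : TorData K) : Type := D.A ≃ₗ[K] D.A

instance (D : TorData K) : Group D.G :=
  (LinearEquiv.automorphismGroup : Group (D.A ≃ₗ[K] D.A))

/-- The linear map given by `g`. -/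
def TorData.lin (D : TorData K) (g : D.G) : D.A →ₗ[K] D.A := LinearEquiv.toLinearMap g

/-- The action of `GL_K(A)` on `A`. -/
def TorData.act (D : TorData K) (g : D.G) (v : D.A) : D.A := D.lin g v

/-- The determinant of a linear map. -/
noncomputable def endDet {K R : Type} [Field K] [AddCommGroup R] [Module K R] (l : R →ₗ[K] R) : K :=
  LinearMap.det l

/-- The determinant. -/
noncomputable def TorData.det (D : TorData K) (g : D.G) : K := endDet (D.lin g)

/-- `g` multiplies the form `f` by `μ`. -/
def TorData.Scales (D : TorData K) (f : D.A → D.A → K) (μ : K) (g : D.G) : Prop :=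
  ∀ v w, f (D.act g v) (D.act g w) = μ * f v w

/-- `g` is an isometry of `f`. -/
def TorData.IsIsom (D : TorData K) (f : D.A → D.A → K) (g : D.G) : Prop :=
  ∀ v w, f (D.act g v) (D.act g w) = f v w

/-- `g` is a similitude of `f`. -/
def TorData.IsSim (D : TorData K) (f : D.A → D.A → K) (g : D.G) : Prop :=
  ∃ μ : K, μ ≠ 0 ∧ D.Scales f μ g

/-- `g` is the multiplication by a unit of `A`. -/
def TorData.IsMul (D : TorData K) (g : D.G) : Prop :=
  ∃ a : D.Aˣ, ∀ v, D.act g v = (a : D.A) * v

theorem TorData.isIsom_mul {D : TorData K} {f : D.A → D.A → K} {a b : D.G} (ha : D.IsIsom f a)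
    (hb : D.IsIsom f b) : D.IsIsom f (a * b) :=
  fun v w => (ha (D.act b v) (D.act b w)).trans (hb v w)

theorem TorData.isIsom_one {D : TorData K} {f : D.A → D.A → K} : D.IsIsom f 1 :=
  fun _ _ => rfl

theorem TorData.isIsom_inv {D : TorData K} {f : D.A → D.A → K} {a : D.G} (ha : D.IsIsom f a) :
    D.IsIsom f a⁻¹ := (Isom (V := D.A) f).inv_mem' ha

theorem TorData.isSim_mul {D : TorData K} {f : D.A → D.A → K} {a b : D.G} (ha : D.IsSim f a)
    (hb : D.IsSim f b) : D.IsSim f (a * b) := by
  obtain ⟨μ, h0, h⟩ := ha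
  obtain ⟨ν, h0', h'⟩ := hb
  refine ⟨μ * ν, mul_ne_zero h0 h0', fun v w => ?_⟩
  exact ((h (D.act b v) (D.act b w)).trans (by rw [h' v w, mul_assoc]))

theorem TorData.isSim_one {D : TorData K} {f : D.A → D.A → K} : D.IsSim f 1 :=
  ⟨1, one_ne_zero, fun _ _ => (one_mul _).symm⟩

theorem TorData.isSim_inv {D : TorData K} {f : D.A → D.A → K} {a : D.G} (ha : D.IsSim f a) :
    D.IsSim f a⁻¹ := by
  obtain ⟨μ, h0, h⟩ := ha
  obtain ⟨ν, hν⟩ := (Sim (V := D.A) f).inv_mem' (x := a) ⟨Units.mk0 μ h0, h⟩
  exact ⟨ν, ν.ne_zero, hν⟩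

theorem TorData.det_mul {D : TorData K} {a b : D.G} : D.det (a * b) = D.det a * D.det b :=
  LinearMap.det_comp (LinearEquiv.toLinearMap a) (LinearEquiv.toLinearMap b)

theorem TorData.det_one {D : TorData K} : D.det 1 = 1 := LinearMap.det_id

theorem TorData.det_inv {D : TorData K} {a : D.G} (ha : D.det a = 1) : D.det a⁻¹ = 1 := by
  have h : D.det (a * a⁻¹) = D.det a * D.det a⁻¹ := TorData.det_mul
  rw [mul_inv_cancel, TorData.det_one, ha, one_mul] at h
  exact h.symm

theorem TorData.isMul_mul {D : TorData K} {a b : D.G} (ha : D.IsMul a) (hb : D.IsMul b) :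
    D.IsMul (a * b) := (torusA K D.ζ D.P D.L).mul_mem' ha hb

theorem TorData.isMul_one {D : TorData K} : D.IsMul 1 := (torusA K D.ζ D.P D.L).one_mem'

theorem TorData.isMul_inv {D : TorData K} {a : D.G} (ha : D.IsMul a) : D.IsMul a⁻¹ :=
  (torusA K D.ζ D.P D.L).inv_mem' ha

/-- The isometry group of `f`. -/
def TorData.isom (D : TorData K) (f : D.A → D.A → K) : Subgroup D.G where
  carrier := {g | D.IsIsom f g}
  mul_mem' := TorData.isIsom_mul
  one_mem' := TorData.isIsom_one
  inv_mem' := TorData.isIsom_inv

/-- The group of similitudes of `f`. -/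
def TorData.sim (D : TorData K) (f : D.A → D.A → K) : Subgroup D.G where
  carrier := {g | D.IsSim f g}
  mul_mem' := TorData.isSim_mul
  one_mem' := TorData.isSim_one
  inv_mem' := TorData.isSim_inv

/-- The isometries of determinant one. -/
noncomputable def TorData.sisom (D : TorData K) (f : D.A → D.A → K) : Subgroup D.G where
  carrier := {g | D.IsIsom f g ∧ D.det g = 1}
  mul_mem' := fun ha hb =>
    ⟨TorData.isIsom_mul ha.1 hb.1, by rw [TorData.det_mul, ha.2, hb.2, one_mul]⟩
  one_mem' := ⟨TorData.isIsom_one, TorData.det_one⟩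
  inv_mem' := fun ha => ⟨TorData.isIsom_inv ha.1, TorData.det_inv ha.2⟩

/-- The similitudes of `Γ` are proper: the determinant is the power of the multiplier with exponent
`dim A / 2`. -/
def TorData.Proper (D : TorData K) (f : D.A → D.A → K) (Γ : Subgroup D.G) : Prop :=
  ∀ g ∈ Γ, ∀ μ : K, D.Scales f μ g → D.det g = μ ^ (D.dim / 2)

/-- The maximal torus: the multiplications by the units of `A`. -/
def TorData.torus (D : TorData K) : Subgroup D.G where
  carrier := {g | D.IsMul g}
  mul_mem' := TorData.isMul_mul
  one_mem' := TorData.isMul_one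
  inv_mem' := TorData.isMul_inv

/-- The quotient group `Γ / N`. -/
def TorData.Quot (D : TorData K) (Γ : Subgroup D.G) (N : Subgroup Γ) : Type := Γ ⧸ N

instance (D : TorData K) (Γ : Subgroup D.G) (N : Subgroup Γ) [N.Normal] : Group (D.Quot Γ N) :=
  QuotientGroup.Quotient.group N

/-- The image in `Γ / N` of the torus of `Γ`. -/
def TorData.torusQ (D : TorData K) (Γ : Subgroup D.G) (N : Subgroup Γ) [N.Normal] :
    Subgroup (D.Quot Γ N) :=
  (D.torus.subgroupOf Γ).map (QuotientGroup.mk' N)

end Pool.Agent.CTO
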