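import Pool.Agent.CTO.E0

/-!
# G2: transitivity of the group `EU`

`EU` is transitive on the vectors `v` with `f v v = α` for `α ≠ 0`, (U) if `σ ≠ id`, `dim V ≥ 2`;
(O) if `σ = id`, `ε = 1`, `dim V ≥ 3`. `K` is finite, `2 ≠ 0`.

Main tool (`G2_step`): if `u` is isotropic, `f v u = f w u ≠ 0` and `f v v = f w w`, then one Eichler
transformation maps `v` to `w`.
-/

namespace Pool.Agent.CTO

open Module

section basic

variable {K V : Type} [Field K] [AddCommGroup V] [Module K V] {σ : K →+* K} {ε : K}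
  {f : V → V → K}

lemma G2_eps2 (hf : IsHF σ ε f) : ε * ε = 1 := by
  rcases hf.eps with h | h <;> rw [h] <;> ring

lemma G2_sigeps (hf : IsHF σ ε f) : σ ε = ε := by
  rcases hf.eps with h | h <;> rw [h] <;> simp

lemma G2_add_right (hf : IsHF σ ε f) (v u w : V) : f v (u + w) = f v u + f v w := by
  rw [hf.herm (u + w) v, hf.herm u v, hf.herm w v, hf.add_left, map_add, mul_add]

lemma G2_smul_right (hf : IsHF σ ε f) (a : K) (v w : V) : f v (a • w) = σ a * f v w := by
  rw [hf.herm (a • w) v, hf.herm w v, hf.smul_left, map_mul]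
  ring

lemma G2_sub_left (hf : IsHF σ ε f) (v w u : V) : f (v - w) u = f v u - f w u := by
  have h : v - w = v + (-1 : K) • w := by simp [sub_eq_add_neg]
  rw [h, hf.add_left, hf.smul_left]
  ring

lemma G2_sub_right (hf : IsHF σ ε f) (v w u : V) : f u (v - w) = f u v - f u w := by
  have h : v - w = v + (-1 : K) • w := by simp [sub_eq_add_neg]
  rw [h, G2_add_right hf, G2_smul_right hf, map_neg, map_one]
  ring

lemma G2_zero_left (hf : IsHF σ ε f) (w : V) : f 0 w = 0 := by
  have := hf.smul_left 0 0 w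
  rw [zero_smul, zero_mul] at this
  exact this

lemma G2_nrm (hf : IsHF σ ε f) (v : V) : ε * σ (f v v) = f v v := (hf.herm v v).symm

lemma G2_sig (hf : IsHF σ ε f) (v : V) : σ (f v v) = ε * f v v := by
  have h1 := G2_nrm hf v
  have h2 := G2_eps2 hf
  calc σ (f v v) = ε * ε * σ (f v v) := by rw [h2, one_mul]
    _ = ε * (ε * σ (f v v)) := by ring
    _ = ε * f v v := by rw [h1]

/-- one Eichler transformation -/
lemma G2_step (hf : IsHF σ ε f) (u v w : V) (hu : f u u = 0) (ha : f v u ≠ 0)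
    (h1 : f v u = f w u) (h2 : f v v = f w w) : ∃ g ∈ EU σ ε f, g v = w := by
  have e2 := G2_eps2 hf
  have hA : σ (f v u) ≠ 0 := fun h => ha ((map_eq_zero σ).1 h)
  have hE : IsEich σ ε f u ((f v u)⁻¹ • (w - v)) (ε * f v ((f v u)⁻¹ • (w - v)) / f v u) := by
    refine ⟨hu, ?_, ?_⟩
    · rw [hf.smul_left, G2_sub_left hf, h1, sub_self, mul_zero]
    · simp only [G2_smul_right hf, hf.smul_left, G2_sub_right hf,
        G2_sub_left hf, map_div₀, map_mul, hf.invol, map_inv₀, G2_sigeps hf, map_sub, ← h2,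
        G2_sig hf v, hf.herm v w]
      field_simp
      linear_combination (f v w - f v v) * e2 - f v v * e2
  obtain ⟨g, hg⟩ := exists_eich hf u _ _ hE
  refine ⟨g, Subgroup.subset_closure ⟨u, _, _, hE, hg⟩, ?_⟩
  rw [hg, div_mul_cancel₀ _ ha, smul_smul, mul_inv_cancel₀ ha, one_smul]
  abel

/-- reachability by `EU` -/
def G2_R (σ : K →+* K) (ε : K) (f : V → V → K) (v w : V) : Prop := ∃ g ∈ EU σ ε f, g v = w

lemma G2_R_trans {v w z : V} (h : G2_R σ ε f v w) (h' : G2_R σ ε f w z) : G2_R σ ε f v z := by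
  obtain ⟨g, hg, rfl⟩ := h
  obtain ⟨g', hg', rfl⟩ := h'
  exact ⟨g' * g, mul_mem hg' hg, rfl⟩

lemma G2_R_symm {v w : V} (h : G2_R σ ε f v w) : G2_R σ ε f w v := by
  obtain ⟨g, hg, rfl⟩ := h
  exact ⟨g⁻¹, inv_mem hg, LinearEquiv.symm_apply_apply g v⟩

/-- a hyperbolic pair -/
structure G2_HP (f : V → V → K) (e e' : V) : Prop where
  ee : f e e = 0
  ee' : f e' e' = 0
  pair : f e e' = 1

lemma G2_HP.pair' (hf : IsHF σ ε f) {e e' : V} (h : G2_HP f e e') : f e' e = ε := by
  rw [hf.herm e e', h.pair, map_one, mul_one]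

/-- extension of an isotropic vector to a hyperbolic pair -/
lemma G2_ext (hf : IsHF σ ε f) (two : (2 : K) ≠ 0) (e : V) (he : f e e = 0) (hne : e ≠ 0) :
    ∃ e', G2_HP f e e' := by
  obtain ⟨y, hy⟩ : ∃ y, f e y ≠ 0 := by
    by_contra hcon
    push Not at hcon
    exact hne (hf.nondeg e hcon)
  obtain ⟨z, hy1⟩ : ∃ z, f e z = 1 :=
    ⟨σ (f e y)⁻¹ • y, by rw [G2_smul_right hf, hf.invol, inv_mul_cancel₀ hy]⟩
  have hze : f z e = ε := by rw [hf.herm e z, hy1, map_one, mul_one]
  refine ⟨z - (f z z / 2) • e, ?_, ?_, ?_⟩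
  · exact he
  · rw [G2_sub_left hf, G2_sub_right hf, G2_sub_right hf, hf.smul_left, hf.smul_left,
      G2_smul_right hf, G2_smul_right hf, he, hy1, hze, map_div₀, G2_sig hf]
    have h2 : σ 2 = 2 := map_ofNat σ 2
    rw [h2]
    have e2 := G2_eps2 hf
    field_simp
    linear_combination (-2 * f z z) * e2
  · rw [G2_sub_right hf, G2_smul_right hf, he, hy1]
    ring

/-- a nonzero vector in the kernel of one functional -/
lemma G2_ker1 [FiniteDimensional K V] (hf : IsHF σ ε f) (hV : 2 ≤ finrank K V) (v : V) :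
    ∃ w, w ≠ 0 ∧ f w v = 0 := by
  let φ : V →ₗ[K] K :=
    { toFun := fun x => f x v
      map_add' := fun x y => hf.add_left x y v
      map_smul' := fun a x => by rw [hf.smul_left, RingHom.id_apply, smul_eq_mul] }
  have h := φ.ker_ne_bot_of_finrank_lt (by rw [finrank_self]; omega)
  obtain ⟨w, hw, hne⟩ := (Submodule.ne_bot_iff _).1 h
  exact ⟨w, hne, hw⟩

/-- a nonzero vector in the kernel of two functionals -/
lemma G2_ker2 [FiniteDimensional K V] (hf : IsHF σ ε f) (hV : 3 ≤ finrank K V) (v v' : V) :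
    ∃ w, w ≠ 0 ∧ f w v = 0 ∧ f w v' = 0 := by
  let φ : V →ₗ[K] (K × K) :=
    { toFun := fun x => (f x v, f x v')
      map_add' := fun x y => by
        simp only [hf.add_left, Prod.mk_add_mk]
      map_smul' := fun a x => by
        simp only [hf.smul_left, RingHom.id_apply, Prod.smul_mk, smul_eq_mul] }
  have h := φ.ker_ne_bot_of_finrank_lt (by rw [finrank_prod, finrank_self]; omega)
  obtain ⟨w, hw, hne⟩ := (Submodule.ne_bot_iff _).1 h
  have hw' : (f w v, f w v') = (0, 0) := hw
  rw [Prod.mk.injEq] at hw'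
  exact ⟨w, hne, hw'.1, hw'.2⟩

lemma G2_symm0 (hf : IsHF σ ε f) {v w : V} (h : f v w = 0) : f w v = 0 := by
  rw [hf.herm v w, h, map_zero, mul_zero]

/-- Step A: every vector is moved to the hyperbolic plane -/
lemma G2_stepA (hf : IsHF σ ε f) (two : (2 : K) ≠ 0) {e e' : V} (hp : G2_HP f e e') (v : V)
    (hv : f v v ≠ 0) : ∃ x : K, x ≠ 0 ∧
      G2_R σ ε f v (x • e + (ε * f v v / (2 * σ x)) • e') := by
  have e2 := G2_eps2 hf
  have s2 : σ 2 = 2 := map_ofNat σ 2
  have p' := hp.pair' hf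
  have hεne : ε ≠ 0 := by
    intro h
    rw [h, zero_mul] at e2
    exact zero_ne_one e2
  -- the norm of the target
  have hnorm : ∀ x : K, x ≠ 0 → f (x • e + (ε * f v v / (2 * σ x)) • e')
      (x • e + (ε * f v v / (2 * σ x)) • e') = f v v := by
    intro x hx
    have hsx : σ x ≠ 0 := fun h => hx ((map_eq_zero σ).1 h)
    rw [hf.add_left, G2_add_right hf, G2_add_right hf, hf.smul_left, hf.smul_left, hf.smul_left,
      hf.smul_left, G2_smul_right hf, G2_smul_right hf, G2_smul_right hf, G2_smul_right hf,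
      hp.ee, hp.ee', hp.pair, p', map_div₀, map_mul, map_mul, hf.invol, s2, G2_sigeps hf,
      G2_sig hf]
    field_simp
    linear_combination (4 * x * σ x * f v v) * e2
  -- case 1
  have case1 : ∀ z : V, f z z = f v v → f z e' ≠ 0 → ∃ x : K, x ≠ 0 ∧
      G2_R σ ε f z (x • e + (ε * f v v / (2 * σ x)) • e') := by
    intro z hz hze
    refine ⟨f z e', hze, ?_⟩
    apply G2_step hf e' _ _ hp.ee' hze
    · rw [hf.add_left, hf.smul_left, hf.smul_left, hp.pair, hp.ee']
      ring
    · rw [hnorm _ hze, hz]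
  by_cases h1 : f v e' = 0
  · by_cases h2 : f v e = 0
    · -- case 3
      have h1' := G2_symm0 hf h1
      have h2' := G2_symm0 hf h2
      set u : V := (-(f v v / 2)) • e + e' + v with hu
      have huu : f u u = 0 := by
        rw [hu]
        simp only [hf.add_left, G2_add_right hf, hf.smul_left, G2_smul_right hf, hp.ee, hp.ee',
          hp.pair, p', h1, h2, h1', h2', map_neg, map_div₀, s2, G2_sig hf]
        field_simp
        linear_combination (-2 * f v v) * e2
      have hvu : f v u = f v v := by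
        rw [hu]
        simp only [G2_add_right hf, G2_smul_right hf, h1, h2]
        ring
      set x : V := (2 * f v v) • e - v with hx
      have hxu : f x u = f v v := by
        rw [hx, hu]
        simp only [G2_sub_left hf, G2_add_right hf, hf.smul_left, G2_smul_right hf, hp.ee,
          hp.pair, h1, h2, h2']
        ring
      have hxx : f x x = f v v := by
        rw [hx]
        simp only [G2_sub_left hf, G2_sub_right hf, hf.smul_left, G2_smul_right hf, hp.ee,
          h2, h2']
        ring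
      have hxe : f x e' ≠ 0 := by
        rw [hx, G2_sub_left hf, hf.smul_left, hp.pair, h1]
        simpa using ⟨two, hv⟩
      obtain ⟨y, hy, hR⟩ := case1 x hxx hxe
      refine ⟨y, hy, G2_R_trans ?_ hR⟩
      apply G2_step hf u v x huu
      · rw [hvu]; exact hv
      · rw [hvu, hxu]
      · rw [hxx]
    · -- case 2
      have hx : f v v / (2 * σ (ε * f v e)) ≠ 0 := by
        apply div_ne_zero hv
        apply mul_ne_zero two
        intro h
        rw [map_eq_zero, mul_eq_zero] at h
        rcases h with h | h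
        · exact hεne h
        · exact h2 h
      have hsb : σ (f v e) ≠ 0 := fun h => h2 ((map_eq_zero σ).1 h)
      refine ⟨f v v / (2 * σ (ε * f v e)), hx, ?_⟩
      have hy : ε * f v v / (2 * σ (f v v / (2 * σ (ε * f v e)))) = ε * f v e := by
        rw [map_div₀, map_mul, hf.invol, s2, G2_sig hf]
        field_simp
      apply G2_step hf e _ _ hp.ee h2
      · rw [hy, hf.add_left, hf.smul_left, hf.smul_left, hp.ee, p']
        linear_combination (-(f v e)) * e2
      · rw [hnorm _ hx]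
  · exact case1 v rfl h1

end basic

section O

variable {K V : Type} [Field K] [Finite K] [AddCommGroup V] [Module K V] [FiniteDimensional K V]

/-- a quadratic equation over a finite field -/
lemma G2_quad (two : (2 : K) ≠ 0) (a b c : K) (ha : a ≠ 0) (hb : b ≠ 0) :
    ∃ x y : K, a * x ^ 2 + b * y ^ 2 = c := by
  have hK := Fintype.ofFinite K
  have hchar : ringChar K ≠ 2 := by
    intro h
    apply two
    have := ringChar.Nat.cast_ringChar (R := K)
    rw [h] at this
    exact_mod_cast this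
  have hodd := FiniteField.odd_card_of_char_ne_two (F := K) hchar
  have d1 : (Polynomial.C a * Polynomial.X ^ 2 : Polynomial K).degree = 2 :=
    Polynomial.degree_C_mul_X_pow 2 ha
  have d2 : (Polynomial.C b * Polynomial.X ^ 2 - Polynomial.C c : Polynomial K).degree = 2 := by
    rw [Polynomial.degree_sub_eq_left_of_degree_lt]
    · exact Polynomial.degree_C_mul_X_pow 2 hb
    · rw [Polynomial.degree_C_mul_X_pow 2 hb]
      exact lt_of_le_of_lt Polynomial.degree_C_le (by norm_num)
  obtain ⟨x, y, h⟩ := FiniteField.exists_root_sum_quadratic d1 d2 hodd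
  refine ⟨x, y, ?_⟩
  simp only [Polynomial.eval_sub, Polynomial.eval_mul, Polynomial.eval_C, Polynomial.eval_pow,
    Polynomial.eval_X] at h
  linear_combination h

/-- solutions with `Y ≠ 0` -/
lemma G2_pell (two : (2 : K) ≠ 0) (h5 : 5 ≤ Nat.card K) (D k : K) (hD : D ≠ 0) (hk0 : k ≠ 0) :
    ∃ X Y : K, Y ≠ 0 ∧ X ^ 2 - D * Y ^ 2 = k := by
  classical
  by_cases hk : ∃ s : K, s ^ 2 = k ∧ s ≠ 0
  · obtain ⟨s, rfl, hs⟩ := hk
    -- a parameter
    obtain ⟨t, ht0, htD⟩ : ∃ t : K, t ≠ 0 ∧ t ^ 2 ≠ D := by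
      by_contra hcon
      push Not at hcon
      have hK := Fintype.ofFinite K
      by_cases hr : ∃ r : K, r ^ 2 = D
      · obtain ⟨r, hr⟩ := hr
        have h1 : (Finset.univ : Finset K) ⊆ {0, r, -r} := by
          intro t _
          by_cases ht : t = 0
          · simp [ht]
          · have h2 := hcon t ht
            rw [← hr] at h2
            rcases sq_eq_sq_iff_eq_or_eq_neg.1 h2 with h3 | h3 <;> simp [h3]
        have h4 := Finset.card_le_card h1
        have h5' : ({0, r, -r} : Finset K).card ≤ 3 := Finset.card_le_three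
        rw [Finset.card_univ, ← Nat.card_eq_fintype_card] at h4
        omega
      · exact hr ⟨1, hcon 1 one_ne_zero⟩
    have hne : t ^ 2 - D ≠ 0 := sub_ne_zero.2 htD
    refine ⟨s + t * (-(2 * s * t) / (t ^ 2 - D)), -(2 * s * t) / (t ^ 2 - D), ?_, ?_⟩
    · apply div_ne_zero _ hne
      rw [neg_ne_zero]
      exact mul_ne_zero (mul_ne_zero two hs) ht0
    · field_simp
      ring
  · obtain ⟨X, Y, h⟩ := G2_quad two 1 (-D) k one_ne_zero (neg_ne_zero.2 hD)
    by_cases hY : Y = 0
    · -- then `k = X ^ 2`, so `k = 0`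
      have hX : X ^ 2 = k := by
        rw [← h, hY]; ring
      have hX0 : X = 0 := by
        by_contra hX0
        exact hk ⟨X, hX, hX0⟩
      exact absurd (by rw [← hX, hX0]; ring) hk0
    · exact ⟨X, Y, hY, by rw [← h]; ring⟩

/-- the isotropic vector in the case (O) -/
lemma G2_isoO (two : (2 : K) ≠ 0) (f : V → V → K)
    (hf : IsHF (RingHom.id K) 1 f) (hV : 3 ≤ finrank K V) (v : V) (hv : f v v ≠ 0) :
    ∃ e, f e e = 0 ∧ e ≠ 0 := by
  obtain ⟨w, hw, hwv⟩ := G2_ker1 hf (by omega) v
  by_cases h1 : f w w = 0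
  · exact ⟨w, h1, hw⟩
  obtain ⟨z, hz, hzv, hzw⟩ := G2_ker2 hf hV v w
  by_cases h2 : f z z = 0
  · exact ⟨z, h2, hz⟩
  obtain ⟨x, y, hxy⟩ := G2_quad two (f v v) (f w w) (-(f z z)) hv h1
  have hvw := G2_symm0 hf hwv
  have hvz := G2_symm0 hf hzv
  have hwz := G2_symm0 hf hzw
  refine ⟨x • v + y • w + z, ?_, ?_⟩
  · simp only [hf.add_left, G2_add_right hf, hf.smul_left, G2_smul_right hf, hwv, hvw, hvz, hzv,
      hwz, hzw, RingHom.id_apply]
    linear_combination hxy
  · intro h
    have h3 : f (x • v + y • w + z) z = 0 := by rw [h, G2_zero_left hf]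
    rw [hf.add_left, hf.add_left, hf.smul_left, hf.smul_left, hvz, hwz] at h3
    apply h2
    linear_combination h3

/-- a nonisotropic vector orthogonal to the hyperbolic plane -/
lemma G2_w0 (two : (2 : K) ≠ 0) (f : V → V → K)
    (hf : IsHF (RingHom.id K) 1 f) (hV : 3 ≤ finrank K V) {e e' : V} (hp : G2_HP f e e') :
    ∃ w, f w e = 0 ∧ f w e' = 0 ∧ f w w ≠ 0 := by
  by_contra hcon
  push Not at hcon
  obtain ⟨z, hz, hze, hze'⟩ := G2_ker2 hf hV e e'
  apply hz
  apply hf.nondeg
  intro x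
  have hp' := hp.pair' hf
  -- the component of `x`
  have hy : ∃ y, f y e = 0 ∧ f y e' = 0 ∧ f z y = f z x := by
    refine ⟨x - (f x e') • e - (f x e) • e', ?_, ?_, ?_⟩
    · simp only [G2_sub_left hf, hf.smul_left, hp.ee, hp']
      ring
    · simp only [G2_sub_left hf, hf.smul_left, hp.ee', hp.pair]
      ring
    · simp only [G2_sub_right hf, G2_smul_right hf, hze, hze']
      ring
  obtain ⟨y, hye, hye', hzy⟩ := hy
  have h1 := hcon z hze hze'
  have h2 := hcon y hye hye'
  have h3 := hcon (z + y) (by rw [hf.add_left, hze, hye, add_zero])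
    (by rw [hf.add_left, hze', hye', add_zero])
  rw [hf.add_left, G2_add_right hf, G2_add_right hf, h1, h2, hf.herm z y, RingHom.id_apply] at h3
  rw [← hzy]
  have h4 : 2 * f z y = 0 := by linear_combination h3
  exact (mul_eq_zero.1 h4).resolve_left two

theorem trans_O (two : (2 : K) ≠ 0) (h5 : 5 ≤ Nat.card K) (f : V → V → K)
    (hf : IsHF (RingHom.id K) 1 f) (hV : 3 ≤ finrank K V) (v w : V) (hv : f v v ≠ 0)
    (hvw : f v v = f w w) : ∃ g ∈ EU (RingHom.id K) 1 f, g v = w := by
  obtain ⟨e, he, hne⟩ := G2_isoO two f hf hV v hv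
  obtain ⟨e', hp⟩ := G2_ext hf two e he hne
  obtain ⟨w₀, hwe, hwe', hww⟩ := G2_w0 two f hf hV hp
  have hew := G2_symm0 hf hwe
  have hew' := G2_symm0 hf hwe'
  have hp' := hp.pair' hf
  obtain ⟨x, hx, hR⟩ := G2_stepA hf two hp v hv
  obtain ⟨x', hx', hR'⟩ := G2_stepA hf two hp w (by rw [← hvw]; exact hv)
  rw [← hvw] at hR'
  simp only [RingHom.id_apply, one_mul] at hR hR'
  set α := f v v with hα
  -- the middle step
  obtain ⟨X, Y, hY, hXY⟩ := G2_pell two h5 (f w₀ w₀ / 2 * α / 2) (x * x')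
    (div_ne_zero (mul_ne_zero (div_ne_zero hww two) hv) two) (mul_ne_zero hx hx')
  refine G2_R_trans hR (G2_R_trans ?_ (G2_R_symm hR'))
  set γ := f w₀ w₀ / 2 with hγ
  have hγ2 : f w₀ w₀ = 2 * γ := by rw [hγ]; field_simp
  have hγ0 : γ ≠ 0 := div_ne_zero hww two
  set c := (1 - X / x) / (γ * Y) with hc
  -- the two intermediate vectors
  set y := α / (2 * x) with hy
  have hxy : 2 * (x * y) = α := by rw [hy]; field_simp
  set y' := α / (2 * x') with hy'
  have hxy' : 2 * (x' * y') = α := by rw [hy']; field_simp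
  set y₁ := y - γ * c ^ 2 * x with hy₁
  have hcY : γ * c * Y = 1 - X / x := by rw [hc]; field_simp
  have hX : X = x * (1 - γ * c * Y) := by rw [hcY]; field_simp; ring
  have hx'' : x' = x - 2 * γ * c * Y * x - γ * Y ^ 2 * y₁ := by
    apply mul_left_cancel₀ hx
    have h4 : γ * α / 2 = γ * (x * y) := by rw [← hxy]; field_simp
    rw [← hXY, h4, hX, hy₁]
    ring
  have s1 : G2_R (RingHom.id K) 1 f (x • e + y • e') (x • e + y₁ • e' + (c * x) • w₀) := by
    apply G2_step hf e' _ _ hp.ee'
    · simp only [hf.add_left, hf.smul_left, hp.pair, hp.ee']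
      simpa using hx
    · simp only [hf.add_left, hf.smul_left, hp.pair, hp.ee', hwe']
      ring
    · simp only [hf.add_left, G2_add_right hf, hf.smul_left, G2_smul_right hf, hp.ee, hp.ee',
        hp.pair, hp', hwe, hwe', hew, hew', hγ2, RingHom.id_apply]
      rw [hy₁]
      ring
  have s2 : G2_R (RingHom.id K) 1 f (x • e + y₁ • e' + (c * x) • w₀)
      (x' • e + y₁ • e' + (c * x + Y * y₁) • w₀) := by
    have hE : IsEich (RingHom.id K) 1 f e (Y • w₀) (-(γ * Y ^ 2)) := by
      refine ⟨he, ?_, ?_⟩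
      · rw [hf.smul_left, hwe, mul_zero]
      · rw [hf.smul_left, G2_smul_right hf, hγ2, RingHom.id_apply, RingHom.id_apply]
        ring
    obtain ⟨g, hg⟩ := exists_eich hf _ _ _ hE
    refine ⟨g, Subgroup.subset_closure ⟨_, _, _, hE, hg⟩, ?_⟩
    rw [hg]
    have q1 : f (x • e + y₁ • e' + (c * x) • w₀) e = y₁ := by
      simp only [hf.add_left, hf.smul_left, hp.ee, hp', hwe]
      ring
    have q2 : f (x • e + y₁ • e' + (c * x) • w₀) (Y • w₀) = 2 * γ * c * Y * x := by
      simp only [hf.add_left, hf.smul_left, G2_smul_right hf, hew, hew', hγ2, RingHom.id_apply]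
      ring
    rw [q1, q2, hx'']
    module
  have s3 : G2_R (RingHom.id K) 1 f (x' • e + y₁ • e' + (c * x + Y * y₁) • w₀)
      (x' • e + y' • e') := by
    apply G2_step hf e' _ _ hp.ee'
    · simp only [hf.add_left, hf.smul_left, hp.pair, hp.ee', hwe']
      simpa using hx'
    · simp only [hf.add_left, hf.smul_left, hp.pair, hp.ee', hwe']
      ring
    · simp only [hf.add_left, G2_add_right hf, hf.smul_left, G2_smul_right hf, hp.ee, hp.ee',
        hp.pair, hp', hwe, hwe', hew, hew', hγ2, RingHom.id_apply]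
      have t1 : 2 * (x' * y') = 2 * (x * y) := by rw [hxy', hxy]
      have t2 : y = y₁ + γ * c ^ 2 * x := by rw [hy₁]; ring
      rw [t2] at t1
      rw [hx''] at t1 ⊢
      linear_combination (-1) * t1
  exact G2_R_trans s1 (G2_R_trans s2 s3)

/-- the norm is surjective -/
lemma G2_norm (two : (2 : K) ≠ 0) (σ : K →+* K) (hσ : ∃ k, σ k ≠ k) (hσ2 : ∀ x, σ (σ x) = x)
    (k : K) (hk : σ k = k) : ∃ y, y * σ y = k := by
  obtain ⟨t, ht⟩ := hσ
  have hθ : σ (t - σ t) = -(t - σ t) := by rw [map_sub, hσ2]; ring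
  have hθ0 : t - σ t ≠ 0 := sub_ne_zero.2 (Ne.symm ht)
  set θ := t - σ t with hθd
  let K₀ : Subfield K := σ.eqLocusField (RingHom.id K)
  have hmem : ∀ x : K, x ∈ K₀ ↔ σ x = x := fun x => RingHom.mem_eqLocusField
  have hD : θ * θ ∈ K₀ := by rw [hmem, map_mul, hθ]; ring
  have hkm : k ∈ K₀ := (hmem k).2 hk
  have two' : (2 : K₀) ≠ 0 := by
    intro h
    apply two
    have := congrArg K₀.subtype h
    rwa [map_ofNat, map_zero] at this
  obtain ⟨x, y, hxy⟩ := G2_quad (K := K₀) two' 1 (-⟨θ * θ, hD⟩) ⟨k, hkm⟩ one_ne_zero (by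
    intro h
    have h2 := congrArg Subtype.val h
    have h3 : -(θ * θ) = 0 := h2
    rw [neg_eq_zero, mul_self_eq_zero] at h3
    exact hθ0 h3)
  have h1 := congrArg Subtype.val hxy
  have h2 : 1 * (x : K) ^ 2 + -(θ * θ) * (y : K) ^ 2 = k := h1
  refine ⟨(x : K) + y * θ, ?_⟩
  have hx : σ (x : K) = x := (hmem _).1 x.2
  have hy : σ (y : K) = y := (hmem _).1 y.2
  rw [map_add, map_mul, hθ, hx, hy, ← h2]
  ring

theorem trans_U (two : (2 : K) ≠ 0) (σ : K →+* K) (hσ : ∃ k, σ k ≠ k) (ε : K) (f : V → V → K)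
    (hf : IsHF σ ε f) (hV : 2 ≤ finrank K V) (v w : V) (hv : f v v ≠ 0)
    (hvw : f v v = f w w) : ∃ g ∈ EU σ ε f, g v = w := by
  have e2 := G2_eps2 hf
  have s2 : σ 2 = 2 := map_ofNat σ 2
  have hεne : ε ≠ 0 := by
    intro h
    rw [h, zero_mul] at e2
    exact zero_ne_one e2
  -- an isotropic vector
  obtain ⟨e, he, hne⟩ : ∃ e, f e e = 0 ∧ e ≠ 0 := by
    obtain ⟨z, hz, hzv⟩ := G2_ker1 hf hV v
    by_cases h1 : f z z = 0
    · exact ⟨z, h1, hz⟩
    obtain ⟨y, hy⟩ := G2_norm two σ hσ hf.invol (-(f z z) / f v v) (by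
      rw [map_div₀, map_neg, G2_sig hf, G2_sig hf]
      field_simp)
    refine ⟨y • v + z, ?_, ?_⟩
    · simp only [hf.add_left, G2_add_right hf, hf.smul_left, G2_smul_right hf, hzv,
        G2_symm0 hf hzv]
      rw [eq_div_iff hv] at hy
      linear_combination hy
    · intro h
      have h3 : f (y • v + z) z = 0 := by rw [h, G2_zero_left hf]
      rw [hf.add_left, hf.smul_left, G2_symm0 hf hzv] at h3
      apply h1
      linear_combination h3
  obtain ⟨e', hp⟩ := G2_ext hf two e he hne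
  have hp' := hp.pair' hf
  obtain ⟨x, hx, hR⟩ := G2_stepA hf two hp v hv
  obtain ⟨x', hx', hR'⟩ := G2_stepA hf two hp w (by rw [← hvw]; exact hv)
  rw [← hvw] at hR'
  refine G2_R_trans hR (G2_R_trans ?_ (G2_R_symm hR'))
  have hσα := G2_sig hf v
  set α := f v v with hα
  have hεα : ε * σ α = α := G2_nrm hf v
  -- the norm of `x e + y e'`
  have hN : ∀ x y : K, f (x • e + y • e') (x • e + y • e') = x * σ y + ε * (y * σ x) := by
    intro x y
    simp only [hf.add_left, G2_add_right hf, hf.smul_left, G2_smul_right hf, hp.ee, hp.ee',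
      hp.pair, hp']
    ring
  -- connected through a fixed first coordinate
  have B1 : ∀ x y y' : K, x * σ y + ε * (y * σ x) = α → x * σ y' + ε * (y' * σ x) = α →
      G2_R σ ε f (x • e + y • e') (x • e + y' • e') := by
    intro x y y' h1 h2
    have hx0 : x ≠ 0 := by
      rintro rfl
      rw [map_zero] at h1
      apply hv
      rw [← h1]; ring
    apply G2_step hf e' _ _ hp.ee'
    · simp only [hf.add_left, hf.smul_left, hp.pair, hp.ee']
      simpa using hx0
    · simp only [hf.add_left, hf.smul_left, hp.pair, hp.ee']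
      ring
    · rw [hN, hN, h1, h2]
  have B2 : ∀ x x' y : K, x * σ y + ε * (y * σ x) = α → x' * σ y + ε * (y * σ x') = α →
      G2_R σ ε f (x • e + y • e') (x' • e + y • e') := by
    intro x x' y h1 h2
    have hy0 : y ≠ 0 := by
      rintro rfl
      rw [map_zero] at h1
      apply hv
      rw [← h1]; ring
    apply G2_step hf e _ _ hp.ee
    · simp only [hf.add_left, hf.smul_left, hp.ee, hp']
      simpa using ⟨hy0, hεne⟩
    · simp only [hf.add_left, hf.smul_left, hp.ee, hp']
      ring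
    · rw [hN, hN, h1, h2]
  have B3 : ∀ x y x' y' : K, x * σ y + ε * (y * σ x) = α → x' * σ y' + ε * (y' * σ x') = α →
      σ y * y' - σ y' * y ≠ 0 → G2_R σ ε f (x • e + y • e') (x' • e + y' • e') := by
    intro x y x' y' h1 h2 hΔ
    have hσΔ : σ (σ y * y' - σ y' * y) = -(σ y * y' - σ y' * y) := by
      rw [map_sub, map_mul, map_mul, hf.invol, hf.invol]; ring
    set Δ := σ y * y' - σ y' * y with hΔd
    set x'' := α * (y' - y) / Δ with hx''
    have hσx : ε * σ x'' = - (α * (σ y' - σ y) / Δ) := by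
      rw [hx'', map_div₀, map_mul, map_sub, hσΔ]
      rw [div_neg, mul_neg, ← mul_div_assoc, ← mul_assoc, hεα]
    have k1 : x'' * σ y + ε * (y * σ x'') = α := by
      have : ε * (y * σ x'') = y * (ε * σ x'') := by ring
      rw [this, hσx, hx'']
      field_simp
      rw [hΔd]
      ring
    have k2 : x'' * σ y' + ε * (y' * σ x'') = α := by
      have : ε * (y' * σ x'') = y' * (ε * σ x'') := by ring
      rw [this, hσx, hx'']
      field_simp
      rw [hΔd]
      ring
    exact G2_R_trans (B2 x x'' y h1 k1) (G2_R_trans (B1 x'' y y' k1 k2) (B2 x'' x' y' k2 h2))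
  have B4 : ∀ x y x' y' : K, x * σ y + ε * (y * σ x) = α → x' * σ y' + ε * (y' * σ x') = α →
      G2_R σ ε f (x • e + y • e') (x' • e + y' • e') := by
    intro x y x' y' h1 h2
    by_cases hΔ : σ y * y' - σ y' * y = 0
    · obtain ⟨t, ht⟩ := hσ
      have hy0 : y ≠ 0 := by
        rintro rfl
        rw [map_zero] at h1
        apply hv
        rw [← h1]; ring
      have hy0' : y' ≠ 0 := by
        rintro rfl
        rw [map_zero] at h2
        apply hv
        rw [← h2]; ring
      have hsy : σ y ≠ 0 := fun h => hy0 ((map_eq_zero σ).1 h)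
      have hsy' : σ y' ≠ 0 := fun h => hy0' ((map_eq_zero σ).1 h)
      have ht' : t - σ t ≠ 0 := sub_ne_zero.2 (Ne.symm ht)
      have hst : t ≠ 0 := by
        rintro rfl
        exact ht (map_zero σ)
      have hst' : σ t ≠ 0 := fun h => hst ((map_eq_zero σ).1 h)
      have k3 : α / (2 * σ (t * y)) * σ (t * y) + ε * ((t * y) * σ (α / (2 * σ (t * y)))) = α := by
        rw [map_div₀, map_mul σ 2, hf.invol, s2, map_mul]
        have : ε * (t * y * (σ α / (2 * (t * y)))) = ε * σ α / 2 := by field_simp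
        rw [this, hεα]
        field_simp
        ring
      have c1 : σ y * (t * y) - σ (t * y) * y ≠ 0 := by
        rw [map_mul]
        have : σ y * (t * y) - σ t * σ y * y = (t - σ t) * (σ y * y) := by ring
        rw [this]
        exact mul_ne_zero ht' (mul_ne_zero hsy hy0)
      have c2 : σ (t * y) * y' - σ y' * (t * y) ≠ 0 := by
        rw [map_mul]
        have : σ t * σ y * y' - σ y' * (t * y) = (σ t - t) * (σ y' * y) := by
          linear_combination (σ t) * hΔ
        rw [this]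
        exact mul_ne_zero (sub_ne_zero.2 ht) (mul_ne_zero hsy' hy0)
      exact G2_R_trans (B3 x y _ (t * y) h1 k3 c1) (B3 _ (t * y) x' y' k3 h2 c2)
    · exact B3 x y x' y' h1 h2 hΔ
  have hNx : ∀ x : K, x ≠ 0 → x * σ (ε * α / (2 * σ x)) + ε * (ε * α / (2 * σ x) * σ x) = α := by
    intro x hx
    have hsx : σ x ≠ 0 := fun h => hx ((map_eq_zero σ).1 h)
    rw [map_div₀, map_mul, map_mul, hf.invol, s2, G2_sigeps hf, hεα]
    field_simp
    linear_combination e2
  exact B4 _ _ _ _ (hNx x hx) (hNx x' hx')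

end O

end Pool.Agent.CTO
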