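import Pool.Agent.CTO.Q2

/-!
# Q3: totally isotropic stable subspaces: consequences of the criterion

Notation of Q2. `h = e + s` is a selfadjoint idempotent, `range h = U ⊕ range s` a hyperbolic space.
* `hyp_iso`: if `dim range e1 = dim range e2` (`e1 ∈ A1`, `e2 ∈ A2`) then `range (e1 + s1)` and
  `range (e2 + s2)` are isometric: let `φ1 : range e1 ≃ range e2` be any isomorphism, and
  `φ2 : range s1 ≃ range s2` the isomorphism dual to `φ1⁻¹`: `f (φ1 u) (φ2 v) = f u v` for `u ∈ range e1`,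
  `v ∈ range s1` (`range s_i` is in perfect duality with `range e_i`); `φ = φ1 ⊕ φ2` is an isometry, because
  `range e_i` and `range s_i` are totally isotropic.
* `sym_iso`: an isomorphism of the algebras with involution `restr A1 (range (e1+s1))` and
  `restr A2 (range (e2+s2))` gives an isomorphism of the algebras of selfadjoint elements, and the algebra
  of the selfadjoint elements of `restr A (range (e+s))` is isomorphic to `restr A (range e)`: map
  `x = a|range e` to `(a e + (a e)*)|range (e+s)` (inverse: restriction to `range e`; a selfadjoint element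
  which is zero on `range e` is zero: it is `x = x s = (x e)* = 0`).
* `iso_U`: `siso_of_crit` for `p = e + s`, `p' = e' + s'`, `hyp_iso`, `sym_iso`.
* `critGL_U`: idempotents of `restr A U` are restrictions of idempotents `e1, e2 ∈ A` with `e_i e = e_i`;
  `IsoIdem f A e_i (e_i*)`; if the ranks are equal, the ranges of `e_i + e_i*` are isometric (`hyp_iso`),
  so by `Crit` there is `SIso`, and `sym_iso` gives `restr A (range e1) ≃ restr A (range e2)`; transport to
  `restr (restr A U) ..`.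
-/

namespace Pool.Agent.CTO

open Module

section q3help

/-- an isomorphism of algebras from a relation -/
theorem q3_algEquiv_of_rel {K X Y : Type} [Field K] [Ring X] [Algebra K X] [Ring Y] [Algebra K Y]
    (r : X → Y → Prop) (tot : ∀ x, ∃ y, r x y) (sur : ∀ y, ∃ x, r x y)
    (un : ∀ x y y', r x y → r x y' → y = y') (inj : ∀ x x' y, r x y → r x' y → x = x')
    (add : ∀ x x' y y', r x y → r x' y' → r (x + x') (y + y'))
    (mul : ∀ x x' y y', r x y → r x' y' → r (x * x') (y * y'))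
    (alg : ∀ k : K, r (algebraMap K X k) (algebraMap K Y k)) : Nonempty (X ≃ₐ[K] Y) := by
  choose F hF using tot
  have key : ∀ x y, r x y → F x = y := fun x y h => un x _ _ (hF x) h
  have h1 : F 1 = 1 := by
    have := alg 1
    rw [map_one, map_one] at this
    exact key _ _ this
  have h0 : F 0 = 0 := by
    have := alg 0
    rw [map_zero, map_zero] at this
    exact key _ _ this
  let φ : X →ₐ[K] Y :=
    { toFun := F
      map_one' := h1
      map_mul' := fun x y => key _ _ (mul x y _ _ (hF x) (hF y))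
      map_zero' := h0
      map_add' := fun x y => key _ _ (add x y _ _ (hF x) (hF y))
      commutes' := fun k => key _ _ (alg k) }
  refine ⟨AlgEquiv.ofBijective φ ⟨fun x x' h => ?_, fun y => ?_⟩⟩
  · have h' : F x = F x' := h
    exact inj x x' (F x) (hF x) (h' ▸ hF x')
  · obtain ⟨x, hx⟩ := sur y
    exact ⟨x, key x y hx⟩

variable {K V : Type} [Field K] [AddCommGroup V] [Module K V]

theorem q3_exists_adj [FiniteDimensional K V] {ε : K} {f : V → V → K}
    (hf : IsHF (RingHom.id K) ε f) (T : Module.End K V) : ∃ S : Module.End K V, IsAdj f T S := by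
  let B : LinearMap.BilinForm K V := LinearMap.mk₂ K f hf.add_left
    (fun a v w => by rw [hf.smul_left]; rfl) (fun u v w => q1_add_right hf u v w)
    (fun a v w => by rw [q1_smul_right hf]; rfl)
  have hB : B.Nondegenerate := by
    constructor
    · intro v hv
      exact hf.nondeg v hv
    · intro w hw
      exact q1_nondeg_right hf w hw
  have h := LinearMap.BilinForm.isAdjointPairLeftAdjointOfNondegenerate B hB T
  refine ⟨_, q1_adj_symm hf (a := B.leftAdjointOfNondegenerate hB T) fun v w => ?_⟩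
  exact h v w

/-- `e, s` for an isotropic idempotent: relations. -/
theorem q3_rel {ε : K} {f : V → V → K} (hf : IsHF (RingHom.id K) ε f)
    {A : Subalgebra K (Module.End K V)} (hA : IsTor f A) {e s : Module.End K V}
    (h : IsoIdem f A e s) : s * s = s ∧ e * s = 0 ∧ (e + s) * (e + s) = e + s ∧
      IsAdj f (e + s) (e + s) ∧ e + s ∈ A ∧ IsAdj f s e := by
  have hse : IsAdj f s e := q1_adj_symm hf h.adj
  have h1 : s * s = s := by
    have := q1_adj_mul h.adj h.adj
    rw [h.idem] at this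
    exact q1_adj_unique hf this h.adj
  have h2 : e * s = 0 := by rw [hA.comm e h.he s h.hs, h.orth]
  refine ⟨h1, h2, ?_, ?_, A.add_mem h.he h.hs, hse⟩
  · rw [mul_add, add_mul, add_mul, h.idem, h1, h2, h.orth, add_zero, zero_add]
  · have := q1_adj_add hf h.adj hse
    rw [add_comm s e] at this
    exact this

theorem q3_range_le {e s : Module.End K V} (hee : e * e = e) (hse : s * e = 0) :
    LinearMap.range e ≤ LinearMap.range (e + s) := by
  rintro _ ⟨v, rfl⟩
  refine ⟨e v, ?_⟩
  rw [LinearMap.add_apply, show e (e v) = e v from LinearMap.congr_fun hee v,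
    show s (e v) = 0 from LinearMap.congr_fun hse v, add_zero]

end q3help

section

variable {K V : Type} [Field K] [Finite K] [AddCommGroup V] [Module K V] [FiniteDimensional K V]

omit [Finite K] in
theorem hyp_iso (ε : K) (f : V → V → K) (hf : IsHF (RingHom.id K) ε f)
    (A1 A2 : Subalgebra K (Module.End K V)) (hA1 : IsTor f A1) (hA2 : IsTor f A2)
    (e1 s1 e2 s2 : Module.End K V) (h1 : IsoIdem f A1 e1 s1) (h2 : IsoIdem f A2 e2 s2)
    (hd : finrank K (LinearMap.range e1) = finrank K (LinearMap.range e2)) :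
    IsoSp f (LinearMap.range (e1 + s1)) (LinearMap.range (e2 + s2)) := by
  obtain ⟨ss1, es1, pp1, ps1, pA1, se1⟩ := q3_rel hf hA1 h1
  obtain ⟨ss2, es2, pp2, ps2, pA2, se2⟩ := q3_rel hf hA2 h2
  obtain φ : LinearMap.range e1 ≃ₗ[K] LinearMap.range e2 := LinearEquiv.ofFinrankEq _ _ hd
  let Φ : Module.End K V := (LinearMap.range e2).subtype ∘ₗ φ.toLinearMap ∘ₗ e1.rangeRestrict
  let Ψ : Module.End K V := (LinearMap.range e1).subtype ∘ₗ φ.symm.toLinearMap ∘ₗ e2.rangeRestrict
  have hΦ : ∀ v, Φ v = φ ⟨e1 v, v, rfl⟩ := fun v => rfl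
  have hΨ : ∀ v, Ψ v = φ.symm ⟨e2 v, v, rfl⟩ := fun v => rfl
  have hΨΦ : Ψ * Φ = e1 := by
    apply LinearMap.ext
    intro v
    rw [Module.End.mul_apply, hΨ]
    have : (⟨e2 (Φ v), Φ v, rfl⟩ : LinearMap.range e2) = φ ⟨e1 v, v, rfl⟩ := by
      apply Subtype.ext
      show e2 (Φ v) = _
      rw [hΦ, q1_fix h2.idem _ (φ ⟨e1 v, v, rfl⟩).2]
    rw [this, LinearEquiv.symm_apply_apply]
  have hΦΨ : Φ * Ψ = e2 := by
    apply LinearMap.ext
    intro v
    rw [Module.End.mul_apply, hΦ]
    have : (⟨e1 (Ψ v), Ψ v, rfl⟩ : LinearMap.range e1) = φ.symm ⟨e2 v, v, rfl⟩ := by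
      apply Subtype.ext
      show e1 (Ψ v) = _
      rw [hΨ, q1_fix h1.idem _ (φ.symm ⟨e2 v, v, rfl⟩).2]
    rw [this, LinearEquiv.apply_symm_apply]
  have heΦ : e2 * Φ = Φ := by
    apply LinearMap.ext
    intro v
    rw [Module.End.mul_apply, hΦ, q1_fix h2.idem _ (φ ⟨e1 v, v, rfl⟩).2]
  have heΨ : e1 * Ψ = Ψ := by
    apply LinearMap.ext
    intro v
    rw [Module.End.mul_apply, hΨ, q1_fix h1.idem _ (φ.symm ⟨e2 v, v, rfl⟩).2]
  obtain ⟨Φ', hΦ'⟩ := q3_exists_adj hf Φ
  obtain ⟨Ψ', hΨ'⟩ := q3_exists_adj hf Ψ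
  have a1 : Φ' * Ψ' = s1 := by
    have := q1_adj_mul hΨ' hΦ'
    rw [hΨΦ] at this
    exact q1_adj_unique hf this h1.adj
  have a2 : Ψ' * Φ' = s2 := by
    have := q1_adj_mul hΦ' hΨ'
    rw [hΦΨ] at this
    exact q1_adj_unique hf this h2.adj
  have a3 : Φ' * s2 = Φ' := by
    have := q1_adj_mul h2.adj hΦ'
    rw [heΦ] at this
    exact q1_adj_unique hf this hΦ'
  have a4 : Ψ' * s1 = Ψ' := by
    have := q1_adj_mul h1.adj hΨ'
    rw [heΨ] at this
    exact q1_adj_unique hf this hΨ'
  -- `s1 Φ' = Φ'`, `s2 Ψ' = Ψ'`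
  have b1 : Φ * e1 = Φ := by
    apply LinearMap.ext
    intro v
    rw [Module.End.mul_apply, hΦ, hΦ]
    congr 2
    apply Subtype.ext
    exact LinearMap.congr_fun h1.idem v
  have b2 : Ψ * e2 = Ψ := by
    apply LinearMap.ext
    intro v
    rw [Module.End.mul_apply, hΨ, hΨ]
    congr 2
    apply Subtype.ext
    exact LinearMap.congr_fun h2.idem v
  have b3 : s1 * Φ' = Φ' := by
    have := q1_adj_mul hΦ' h1.adj
    rw [b1] at this
    exact q1_adj_unique hf this hΦ'
  have b4 : s2 * Ψ' = Ψ' := by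
    have := q1_adj_mul hΨ' h2.adj
    rw [b2] at this
    exact q1_adj_unique hf this hΨ'
  have c1 : (Ψ + Φ') * (Φ + Ψ') = e1 + s1 := by
    have h3 : Ψ * Ψ' = 0 := by
      rw [← b2, ← b4, mul_assoc, ← mul_assoc e2, es2, zero_mul, mul_zero]
    have h4 : Φ' * Φ = 0 := by
      rw [← a3, ← heΦ, mul_assoc, ← mul_assoc s2, h2.orth, zero_mul, mul_zero]
    rw [add_mul, mul_add, mul_add, hΨΦ, a1, h3, h4, add_zero, zero_add]
  have c2 : (Φ + Ψ') * (Ψ + Φ') = e2 + s2 := by
    have h3 : Φ * Φ' = 0 := by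
      rw [← b1, ← b3, mul_assoc, ← mul_assoc e1, es1, zero_mul, mul_zero]
    have h4 : Ψ' * Ψ = 0 := by
      rw [← a4, ← heΨ, mul_assoc, ← mul_assoc s1, h1.orth, zero_mul, mul_zero]
    rw [add_mul, mul_add, mul_add, hΦΨ, a2, h3, h4, add_zero, zero_add]
  have c3 : (e2 + s2) * (Φ + Ψ') = Φ + Ψ' := by
    have h3 : s2 * Φ = 0 := by rw [← heΦ, ← mul_assoc, h2.orth, zero_mul]
    have h4 : e2 * Ψ' = 0 := by rw [← b4, ← mul_assoc, es2, zero_mul]
    rw [add_mul, mul_add, mul_add, heΦ, b4, h3, h4, add_zero, zero_add]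
  have c4 : (e1 + s1) * (Ψ + Φ') = Ψ + Φ' := by
    have h3 : s1 * Ψ = 0 := by rw [← heΨ, ← mul_assoc, h1.orth, zero_mul]
    have h4 : e1 * Φ' = 0 := by rw [← b3, ← mul_assoc, es1, zero_mul]
    rw [add_mul, mul_add, mul_add, heΨ, b3, h3, h4, add_zero, zero_add]
  -- the adjoint of `Φ + Ψ'` is `Φ' + Ψ`
  have hadj : IsAdj f (Φ + Ψ') (Ψ + Φ') := by
    have := q1_adj_add hf hΦ' (q1_adj_symm hf hΨ')
    rw [add_comm Φ' Ψ] at this
    exact this
  have m1 : ∀ v ∈ LinearMap.range (e1 + s1), (Φ + Ψ') v ∈ LinearMap.range (e2 + s2) := by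
    intro v _
    exact ⟨(Φ + Ψ') v, LinearMap.congr_fun c3 v⟩
  have m2 : ∀ v ∈ LinearMap.range (e2 + s2), (Ψ + Φ') v ∈ LinearMap.range (e1 + s1) := by
    intro v _
    exact ⟨(Ψ + Φ') v, LinearMap.congr_fun c4 v⟩
  refine ⟨LinearEquiv.ofLinear ((Φ + Ψ').restrict m1) ((Ψ + Φ').restrict m2) ?_ ?_, ?_⟩
  · apply LinearMap.ext
    intro v
    apply Subtype.ext
    show (Φ + Ψ') ((Ψ + Φ') v) = v
    have h3 := LinearMap.congr_fun c2 v
    rw [Module.End.mul_apply] at h3
    rw [h3, q1_fix pp2 _ v.2]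
  · apply LinearMap.ext
    intro v
    apply Subtype.ext
    show (Ψ + Φ') ((Φ + Ψ') v) = v
    have h3 := LinearMap.congr_fun c1 v
    rw [Module.End.mul_apply] at h3
    rw [h3, q1_fix pp1 _ v.2]
  · intro v w
    show f ((Φ + Ψ') v) ((Φ + Ψ') w) = f v w
    rw [hadj]
    have h3 := LinearMap.congr_fun c1 w
    rw [Module.End.mul_apply] at h3
    rw [h3, q1_fix pp1 _ w.2]

omit [Finite K] in
/-- the selfadjoint extension of `a|range e` to `range (e + s)` -/
theorem q3_hat (ε : K) (f : V → V → K) (hf : IsHF (RingHom.id K) ε f)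
    (A : Subalgebra K (Module.End K V)) (hA : IsTor f A)
    (e s : Module.End K V) (h : IsoIdem f A e s)
    (x : Module.End K (LinearMap.range e)) (hx : x ∈ restr A (LinearMap.range e)) :
    ∃ z ∈ restr A (LinearMap.range (e + s)), IsAdj (resF f (LinearMap.range (e + s))) z z ∧
      ∀ (u : LinearMap.range e) (v : LinearMap.range (e + s)), (u : V) = v → ((x u : LinearMap.range e) : V) = z v := by
  obtain ⟨ss, es, pp, ps, pA, se⟩ := q3_rel hf hA h
  obtain ⟨a, ha, hxa⟩ := hx
  obtain ⟨b, hb, hab⟩ := hA.star a ha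
  have hbA : a * e + s * b ∈ A := A.add_mem (A.mul_mem ha h.he) (A.mul_mem h.hs hb)
  obtain ⟨z, hz, hzb⟩ := q1_exists_restr (LinearMap.range (e + s)) hbA
    (q1_stab hA.toIsTorGL pA hbA)
  have hadj : IsAdj f (a * e + s * b) (a * e + s * b) := by
    have h1 := q1_adj_mul hab h.adj
    have := q1_adj_add hf h1 (q1_adj_symm hf h1)
    rw [add_comm (s * b) (a * e)] at this
    exact this
  refine ⟨z, hz, fun v w => ?_, fun u v huv => ?_⟩
  · simp only [resF]
    rw [hzb, hzb, hadj]
  · rw [hzb, hxa, ← huv, LinearMap.add_apply, Module.End.mul_apply, q1_fix h.idem _ u.2]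
    have h3 : s * b = b * s := hA.comm s h.hs b hb
    have h4 : s (u : V) = 0 := by
      rw [← q1_fix h.idem _ u.2]
      exact LinearMap.congr_fun h.orth u
    rw [h3, Module.End.mul_apply, h4, map_zero, add_zero]

omit [Finite K] [FiniteDimensional K V] in
/-- restriction of elements of `restr A (range (e+s))` to `range e` -/
theorem q3_down (ε : K) (f : V → V → K) (hf : IsHF (RingHom.id K) ε f)
    (A : Subalgebra K (Module.End K V)) (hA : IsTor f A)
    (e s : Module.End K V) (h : IsoIdem f A e s)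
    (z : Module.End K (LinearMap.range (e + s))) (hz : z ∈ restr A (LinearMap.range (e + s))) :
    ∃ x ∈ restr A (LinearMap.range e),
      ∀ (u : LinearMap.range e) (v : LinearMap.range (e + s)), (u : V) = v → ((x u : LinearMap.range e) : V) = z v := by
  obtain ⟨a, ha, hza⟩ := hz
  obtain ⟨x, hx, hxa⟩ := q1_exists_restr (LinearMap.range e) ha (q1_stab hA.toIsTorGL h.he ha)
  refine ⟨x, hx, fun u v huv => ?_⟩
  rw [hxa, hza, huv]

omit [Finite K] [FiniteDimensional K V] in
/-- a selfadjoint element is determined by its restriction to `range e` -/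
theorem q3_uniq (ε : K) (f : V → V → K) (hf : IsHF (RingHom.id K) ε f)
    (A : Subalgebra K (Module.End K V)) (hA : IsTor f A)
    (e s : Module.End K V) (h : IsoIdem f A e s)
    (z z' : Module.End K (LinearMap.range (e + s))) (hz : z ∈ restr A (LinearMap.range (e + s)))
    (hz' : z' ∈ restr A (LinearMap.range (e + s)))
    (hs : IsAdj (resF f (LinearMap.range (e + s))) z z)
    (hs' : IsAdj (resF f (LinearMap.range (e + s))) z' z')
    (hu : ∀ v : LinearMap.range (e + s), (v : V) ∈ LinearMap.range e → z v = z' v) : z = z' := by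
  obtain ⟨ss, es, pp, ps, pA, se⟩ := q3_rel hf hA h
  obtain ⟨a, ha, hap, hpa, hza, -⟩ := q1_idem hA.toIsTorGL pA pp z hz
  obtain ⟨a', ha', hap', hpa', hza', -⟩ := q1_idem hA.toIsTorGL pA pp z' hz'
  have has := q1_adj_of ps hap hpa hap hpa hza hza hs
  have has' := q1_adj_of ps hap' hpa' hap' hpa' hza' hza' hs'
  have h1 : a * e = a' * e := by
    apply LinearMap.ext
    intro v
    have hm : e v ∈ LinearMap.range (e + s) := q3_range_le h.idem h.orth ⟨v, rfl⟩
    have := hu ⟨e v, hm⟩ ⟨v, rfl⟩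
    have h2 := congrArg Subtype.val this
    rw [hza, hza'] at h2
    exact h2
  have h2 : a * s = a' * s := by
    have h3 := q1_adj_mul has h.adj
    have h4 := q1_adj_mul has' h.adj
    rw [← h1] at h4
    have h5 := q1_adj_unique hf h3 h4
    rw [← hA.comm s h.hs a ha, ← hA.comm s h.hs a' ha', h5]
  have h3 : a = a' := by
    rw [← hap, ← hap', mul_add, mul_add, h1, h2]
  apply LinearMap.ext
  intro w
  apply Subtype.ext
  rw [hza, hza', h3]

theorem sym_iso (ε : K) (f : V → V → K) (hf : IsHF (RingHom.id K) ε f)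
    (A1 A2 : Subalgebra K (Module.End K V)) (hA1 : IsTor f A1) (hA2 : IsTor f A2)
    (e1 s1 e2 s2 : Module.End K V) (h1 : IsoIdem f A1 e1 s1) (h2 : IsoIdem f A2 e2 s2)
    (hS : SIso (resF f (LinearMap.range (e1 + s1))) (restr A1 (LinearMap.range (e1 + s1)))
      (resF f (LinearMap.range (e2 + s2))) (restr A2 (LinearMap.range (e2 + s2)))) :
    Nonempty (restr A1 (LinearMap.range e1) ≃ₐ[K] restr A2 (LinearMap.range e2)) := by
  obtain ⟨ss1, es1, pp1, ps1, pA1, se1⟩ := q3_rel hf hA1 h1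
  obtain ⟨ss2, es2, pp2, ps2, pA2, se2⟩ := q3_rel hf hA2 h2
  have T1 := restr_isTor ε f hf A1 hA1 (e1 + s1) pA1 pp1 ps1
  have T2 := restr_isTor ε f hf A2 hA2 (e2 + s2) pA2 pp2 ps2
  have F1 := restr_isHF ε f hf (e1 + s1) pp1 ps1
  have F2 := restr_isHF ε f hf (e2 + s2) pp2 ps2
  obtain ⟨φ, hφ⟩ := hS
  have hsymm : ∀ z : restr A1 (LinearMap.range (e1 + s1)),
      IsAdj (resF f (LinearMap.range (e2 + s2))) (φ z : Module.End K _) (φ z) →
      IsAdj (resF f (LinearMap.range (e1 + s1))) (z : Module.End K _) z := by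
    intro z hz
    obtain ⟨y, hy, hzy⟩ := T1.star z z.2
    have h3 := hφ z ⟨y, hy⟩ hzy
    have h4 : φ ⟨y, hy⟩ = φ z := Subtype.ext (q1_adj_unique F2 h3 hz)
    have h5 := φ.injective h4
    have h6 : y = z := congrArg Subtype.val h5
    rw [h6] at hzy
    exact hzy
  let r : restr A1 (LinearMap.range e1) → restr A2 (LinearMap.range e2) → Prop := fun x y =>
    ∃ z : restr A1 (LinearMap.range (e1 + s1)),
      IsAdj (resF f (LinearMap.range (e1 + s1))) (z : Module.End K _) z ∧
      (∀ (u : LinearMap.range e1) (v : LinearMap.range (e1 + s1)), (u : V) = v →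
        (((x : Module.End K _) u : LinearMap.range e1) : V) = (z : Module.End K _) v) ∧
      (∀ (u : LinearMap.range e2) (v : LinearMap.range (e2 + s2)), (u : V) = v →
        (((y : Module.End K _) u : LinearMap.range e2) : V) = (φ z : Module.End K _) v)
  apply q3_algEquiv_of_rel r
  · intro x
    obtain ⟨z, hz, hzs, hzx⟩ := q3_hat ε f hf A1 hA1 e1 s1 h1 x x.2
    obtain ⟨y, hy, hyz⟩ := q3_down ε f hf A2 hA2 e2 s2 h2 (φ ⟨z, hz⟩) (φ ⟨z, hz⟩).2
    exact ⟨⟨y, hy⟩, ⟨z, hz⟩, hzs, hzx, hyz⟩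
  · intro y
    obtain ⟨z, hz, hzs, hzy⟩ := q3_hat ε f hf A2 hA2 e2 s2 h2 y y.2
    obtain ⟨x, hx, hxz⟩ := q3_down ε f hf A1 hA1 e1 s1 h1 (φ.symm ⟨z, hz⟩) (φ.symm ⟨z, hz⟩).2
    refine ⟨⟨x, hx⟩, φ.symm ⟨z, hz⟩, ?_, hxz, ?_⟩
    · apply hsymm
      rw [AlgEquiv.apply_symm_apply]
      exact hzs
    · rw [AlgEquiv.apply_symm_apply]
      exact hzy
  · rintro x y y' ⟨z, hzs, hzx, hzy⟩ ⟨z', hzs', hzx', hzy'⟩
    have hzz : z = z' := by
      apply Subtype.ext
      apply q3_uniq ε f hf A1 hA1 e1 s1 h1 z z' z.2 z'.2 hzs hzs'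
      intro v hv
      apply Subtype.ext
      rw [← hzx ⟨v, hv⟩ v rfl, ← hzx' ⟨v, hv⟩ v rfl]
    subst hzz
    apply Subtype.ext
    apply LinearMap.ext
    intro u
    apply Subtype.ext
    have hm : (u : V) ∈ LinearMap.range (e2 + s2) := q3_range_le h2.idem h2.orth u.2
    rw [hzy u ⟨u, hm⟩ rfl, hzy' u ⟨u, hm⟩ rfl]
  · rintro x x' y ⟨z, hzs, hzx, hzy⟩ ⟨z', hzs', hzx', hzy'⟩
    have hzz : z = z' := by
      apply φ.injective
      apply Subtype.ext
      apply q3_uniq ε f hf A2 hA2 e2 s2 h2 (φ z) (φ z') (φ z).2 (φ z').2 (hφ z z hzs)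
        (hφ z' z' hzs')
      intro v hv
      apply Subtype.ext
      rw [← hzy ⟨v, hv⟩ v rfl, ← hzy' ⟨v, hv⟩ v rfl]
    subst hzz
    apply Subtype.ext
    apply LinearMap.ext
    intro u
    apply Subtype.ext
    have hm : (u : V) ∈ LinearMap.range (e1 + s1) := q3_range_le h1.idem h1.orth u.2
    rw [hzx u ⟨u, hm⟩ rfl, hzx' u ⟨u, hm⟩ rfl]
  · rintro x x' y y' ⟨z, hzs, hzx, hzy⟩ ⟨z', hzs', hzx', hzy'⟩
    refine ⟨z + z', ?_, ?_, ?_⟩
    · exact q1_adj_add F1 hzs hzs'
    · intro u v huv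
      show (((x : Module.End K _) u + (x' : Module.End K _) u : LinearMap.range e1) : V) =
        (((z : Module.End K _) v + (z' : Module.End K _) v : LinearMap.range (e1 + s1)) : V)
      rw [Submodule.coe_add, Submodule.coe_add, hzx u v huv, hzx' u v huv]
    · intro u v huv
      rw [map_add]
      show (((y : Module.End K _) u + (y' : Module.End K _) u : LinearMap.range e2) : V) =
        (((φ z : Module.End K _) v + (φ z' : Module.End K _) v : LinearMap.range (e2 + s2)) : V)
      rw [Submodule.coe_add, Submodule.coe_add, hzy u v huv, hzy' u v huv]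
  · rintro x x' y y' ⟨z, hzs, hzx, hzy⟩ ⟨z', hzs', hzx', hzy'⟩
    refine ⟨z * z', ?_, ?_, ?_⟩
    · have h3 := q1_adj_mul hzs hzs'
      rw [T1.comm z' z'.2 z z.2] at h3
      exact h3
    · intro u v huv
      show (((x : Module.End K _) ((x' : Module.End K _) u) : LinearMap.range e1) : V) =
        (((z : Module.End K _) ((z' : Module.End K _) v) : LinearMap.range (e1 + s1)) : V)
      exact hzx _ _ (hzx' u v huv)
    · intro u v huv
      rw [map_mul]
      show (((y : Module.End K _) ((y' : Module.End K _) u) : LinearMap.range e2) : V) =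
        (((φ z : Module.End K _) ((φ z' : Module.End K _) v) : LinearMap.range (e2 + s2)) : V)
      exact hzy _ _ (hzy' u v huv)
  · intro k
    refine ⟨algebraMap K _ k, ?_, ?_, ?_⟩
    · intro v w
      show resF f _ (k • v) w = resF f _ v (k • w)
      rw [F1.smul_left, q1_smul_right F1]
    · intro u v huv
      show ((k • u : LinearMap.range e1) : V) = ((k • v : LinearMap.range (e1 + s1)) : V)
      rw [Submodule.coe_smul, Submodule.coe_smul, huv]
    · intro u v huv
      rw [AlgEquiv.commutes]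
      show ((k • u : LinearMap.range e2) : V) = ((k • v : LinearMap.range (e2 + s2)) : V)
      rw [Submodule.coe_smul, Submodule.coe_smul, huv]

theorem iso_U (two : (2 : K) ≠ 0) (ε : K) (f : V → V → K) (hf : IsHF (RingHom.id K) ε f)
    (A A' : Subalgebra K (Module.End K V)) (hA : IsTor f A) (hA' : IsTor f A')
    (hS : SIso f A f A') (hc : Crit f A)
    (e s e' s' : Module.End K V) (h : IsoIdem f A e s) (h' : IsoIdem f A' e' s')
    (hd : finrank K (LinearMap.range e) = finrank K (LinearMap.range e')) :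
    Nonempty (restr A (LinearMap.range e) ≃ₐ[K] restr A' (LinearMap.range e')) := by
  obtain ⟨ss1, es1, pp1, ps1, pA1, se1⟩ := q3_rel hf hA h
  obtain ⟨ss2, es2, pp2, ps2, pA2, se2⟩ := q3_rel hf hA' h'
  exact sym_iso ε f hf A A' hA hA' e s e' s' h h'
    (siso_of_crit two ε f hf A A' hA hA' hS hc (e + s) (e' + s') pA1 pA2 pp1 ps1 pp2 ps2
      (hyp_iso ε f hf A A' hA hA' e s e' s' h h' hd))

theorem critGL_U (ε : K) (f : V → V → K) (hf : IsHF (RingHom.id K) ε f)
    (A : Subalgebra K (Module.End K V)) (hA : IsTor f A) (hc : Crit f A)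
    (e s : Module.End K V) (h : IsoIdem f A e s) : CritGL (restr A (LinearMap.range e)) := by
  obtain ⟨ss1, es1, pp1, ps1, pA1, se1⟩ := q3_rel hf hA h
  intro x hx x' hx' hxx hxx' hd
  have main : ∀ (y : Module.End K (LinearMap.range e)), y ∈ restr A (LinearMap.range e) →
      y * y = y → ∃ a b : Module.End K V, IsoIdem f A a b ∧
        (LinearMap.range y).map (LinearMap.range e).subtype = LinearMap.range a := by
    intro y hy hyy
    obtain ⟨a, ha, hap, hpa, hya, hra⟩ := q1_idem hA.toIsTorGL h.he h.idem y hy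
    obtain ⟨b, hb, hab⟩ := hA.star a ha
    have haa : a * a = a := by
      apply q1_eq_of_range (p := e) (by rw [mul_assoc, hap]) hap
      intro w
      rw [Module.End.mul_apply, ← hya, ← hya]
      exact congrArg Subtype.val (LinearMap.congr_fun hyy w)
    have hbs : b * s = b := by
      have h3 := q1_adj_mul h.adj hab
      rw [hpa] at h3
      exact q1_adj_unique hf h3 hab
    refine ⟨a, b, ⟨ha, hb, haa, hab, ?_⟩, hra⟩
    rw [← hbs, ← hpa, mul_assoc, ← mul_assoc s, h.orth, zero_mul, mul_zero]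
  obtain ⟨a, b, hab, hra⟩ := main x hx hxx
  obtain ⟨a', b', hab', hra'⟩ := main x' hx' hxx'
  obtain ⟨ι, hι⟩ := q1_ex_iota (LinearMap.range e) (LinearMap.range x) (LinearMap.range a) hra
  obtain ⟨ι', hι'⟩ := q1_ex_iota (LinearMap.range e) (LinearMap.range x') (LinearMap.range a') hra'
  have hd' : finrank K (LinearMap.range a) = finrank K (LinearMap.range a') := by
    rw [← ι.finrank_eq, ← ι'.finrank_eq, hd]
  have hI := hyp_iso ε f hf A A hA hA a b a' b' hab hab' hd'
  obtain ⟨-, -, p1, p2, p3, -⟩ := q3_rel hf hA hab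
  obtain ⟨-, -, p1', p2', p3', -⟩ := q3_rel hf hA hab'
  have hS := hc (a + b) p3 (a' + b') p3' p1 p2 p1' p2' hI
  obtain ⟨ψ⟩ := sym_iso ε f hf A A hA hA a b a' b' hab hab' hS
  rw [q1_restr_restr hA.toIsTorGL h.he (LinearMap.range x) (LinearMap.range a) ι hι,
    q1_restr_restr hA.toIsTorGL h.he (LinearMap.range x') (LinearMap.range a') ι' hι']
  obtain ⟨α⟩ := pull_iso ι (restr A (LinearMap.range a))
  obtain ⟨α'⟩ := pull_iso ι' (restr A (LinearMap.range a'))
  exact ⟨(α.trans ψ).trans α'.symm⟩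

end

end Pool.Agent.CTO
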