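import Pool.Agent.CTO.A1

/-!
# F1: the endomorphism field of an irreducible group

`V ≠ 0` finite, `H` irreducible on `V`, `B = Algebra.adjoin K (EndSet H)`; `A, A' ≤ B` torus algebras. `V` is
a simple `B`-module. Let `E` be the centralizer of `EndSet H` in `End_K V`; by Schur's lemma every nonzero
element of `E` is invertible with inverse in `E`, `E` is finite, so it is a field (Wedderburn:
`littleWedderburn`). `E` commutes with `A ≤ B`, so `E ≤ A` by `cent_eq`; similarly `E ≤ A'`. `V` is an
`E`-space by application (`Subalgebra` of `Module.End K V` acts on `V`). The elements of `B` commute with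
`E`. Conversely, a `K`-endomorphism `x` commuting with `E = End_B V` is in `B`: Jacobson density
(`jacobson_density` in `Mathlib/RingTheory/SimpleModule/Basic.lean`, applied to a finite generating set of
`V`, the ring `B` and the module `V`).
(Take `E := ↥(Subalgebra.centralizer K (EndSet H))` with the field structure `fieldOfFiniteDimensional`-like:
`{ (inferInstance : Ring _) with mul_comm := .., inv := .. }`.)
-/

namespace Pool.Agent.CTO

open Module

theorem F1_density {K V : Type} [Field K] [Finite K] [AddCommGroup V] [Module K V]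
    [FiniteDimensional K V] [Nontrivial V] (H : Subgroup (V ≃ₗ[K] V))
    (irr : ∀ W : Submodule K V, (∀ h ∈ H, ∀ v ∈ W, h v ∈ W) → W = ⊥ ∨ W = ⊤)
    (x : Module.End K V)
    (hx : ∀ y : Module.End K V, (∀ h ∈ H, ∀ v, y (h v) = h (y v)) → ∀ v, x (y v) = y (x v)) :
    x ∈ Algebra.adjoin K (EndSet H) := by
  classical
  have hVf : Finite V := Module.finite_of_finite K
  have : Fintype V := Fintype.ofFinite V
  set B := Algebra.adjoin K (EndSet H) with hB
  have hsimple : IsSimpleModule B V := by
    refine isSimpleModule_iff _ _ |>.2 ?_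
    refine { exists_pair_ne := ⟨⊥, ⊤, bot_ne_top⟩, eq_bot_or_eq_top := fun W => ?_ }
    have hW : ∀ (k : K) (v : V), v ∈ W → k • v ∈ W := by
      intro k v hv
      have h1 := W.smul_mem (algebraMap K B k) hv
      have h2 : (algebraMap K B k) • v = k • v := by
        change (algebraMap K (Module.End K V) k) v = k • v
        rw [Module.algebraMap_end_apply]
      rwa [h2] at h1
    let W' : Submodule K V :=
      { carrier := W, add_mem' := fun ha hb => W.add_mem ha hb, zero_mem' := W.zero_mem,
        smul_mem' := fun k v hv => hW k v hv }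
    rcases irr W' (fun h hh v hv => by
      have h1 : h.toLinearMap ∈ B := Algebra.subset_adjoin ⟨h, hh, rfl⟩
      exact W.smul_mem ⟨h.toLinearMap, h1⟩ hv) with h1 | h1
    · left
      apply SetLike.ext
      intro v
      have h2 : v ∈ W' ↔ v ∈ (⊥ : Submodule K V) := by rw [h1]
      rw [Submodule.mem_bot] at h2 ⊢
      exact h2
    · right
      apply SetLike.ext
      intro v
      have h2 : v ∈ W' ↔ v ∈ (⊤ : Submodule K V) := by rw [h1]
      exact ⟨fun _ => Submodule.mem_top, fun _ => h2.2 Submodule.mem_top⟩
  let f : Module.End (Module.End B V) V :=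
    { toFun := x
      map_add' := x.map_add
      map_smul' := by
        intro φ v
        have hφK : ∀ (k : K) (v : V), φ (k • v) = k • φ v := by
          intro k v
          have h2 : ∀ v : V, (algebraMap K B k) • v = k • v := by
            intro v
            change (algebraMap K (Module.End K V) k) v = k • v
            rw [Module.algebraMap_end_apply]
          rw [← h2, φ.map_smul, h2]
        let y : Module.End K V :=
          { toFun := φ, map_add' := φ.map_add, map_smul' := hφK }
        have hy : ∀ h ∈ H, ∀ v, y (h v) = h (y v) := by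
          intro h hh v
          have h1 : h.toLinearMap ∈ B := Algebra.subset_adjoin ⟨h, hh, rfl⟩
          exact φ.map_smul ⟨h.toLinearMap, h1⟩ v
        exact hx y hy v }
  obtain ⟨r, hr⟩ := jacobson_density (R := B) (M := V) f Finset.univ
  have h3 : x = (r : Module.End K V) := by
    ext v
    exact hr v (Finset.mem_univ v)
  rw [h3]
  exact r.2
theorem exists_field (K V : Type) [Field K] [Finite K] [AddCommGroup V] [Module K V]
    [FiniteDimensional K V] [Nontrivial V] (A A' : Subalgebra K (Module.End K V)) (hA : IsTorGL A)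
    (hA' : IsTorGL A') (H : Subgroup (V ≃ₗ[K] V)) (hAB : A ≤ Algebra.adjoin K (EndSet H))
    (hAB' : A' ≤ Algebra.adjoin K (EndSet H))
    (irr : ∀ W : Submodule K V, (∀ h ∈ H, ∀ v ∈ W, h v ∈ W) → W = ⊥ ∨ W = ⊤) :
    ∃ (E : Type) (_ : Field E) (_ : Finite E) (_ : Algebra K E) (_ : Module E V)
      (_ : IsScalarTower K E V),
      (∀ e : E, Algebra.lsmul K K V e ∈ A) ∧ (∀ e : E, Algebra.lsmul K K V e ∈ A') ∧
      (∀ h ∈ H, ∀ (e : E) (v : V), h (e • v) = e • h v) ∧
      (∀ x : Module.End K V, (∀ h ∈ H, ∀ v, x (h v) = h (x v)) → ∃ e : E, x = Algebra.lsmul K K V e) ∧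
      (∀ x : Module.End K V, (∀ (e : E) (v : V), x (e • v) = e • x v) →
        x ∈ Algebra.adjoin K (EndSet H)) := by
  classical
  have hVf : Finite V := Module.finite_of_finite K
  set C : Subalgebra K (Module.End K V) := Subalgebra.centralizer K (EndSet H) with hC
  have hCmem : ∀ x : Module.End K V, x ∈ C ↔ ∀ h ∈ H, ∀ v, x (h v) = h (x v) := by
    intro x
    rw [hC, Subalgebra.mem_centralizer_iff]
    constructor
    · intro hx h hh v
      have h1 := hx h.toLinearMap ⟨h, hh, rfl⟩
      exact (LinearMap.congr_fun h1 v).symm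
    · rintro hx _ ⟨h, hh, rfl⟩
      ext v
      exact (hx h hh v).symm
  have hinj : ∀ x : Module.End K V, x ∈ C → x ≠ 0 → ∀ v, x v = 0 → v = 0 := by
    intro x hx hx0 v hv
    rcases irr (LinearMap.ker x) (fun h hh w hw => by
      rw [LinearMap.mem_ker] at hw ⊢
      rw [(hCmem x).1 hx h hh, hw, map_zero]) with h1 | h1
    · have : v ∈ LinearMap.ker x := hv
      rw [h1] at this
      exact this
    · exact absurd (LinearMap.ker_eq_top.1 h1) hx0
  have hEf : Finite (Module.End K V) :=
    Finite.of_injective (fun f : Module.End K V => (f : V → V)) DFunLike.coe_injective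
  have hCf : Finite C := Finite.of_injective (fun x : C => (x : Module.End K V))
    Subtype.coe_injective
  have hnz : NoZeroDivisors C := by
    refine ⟨fun {x y} hxy => ?_⟩
    by_cases hx : x = 0
    · exact Or.inl hx
    · right
      apply Subtype.ext
      ext v
      have hx' : (x : Module.End K V) ≠ 0 := fun h => hx (Subtype.ext h)
      apply hinj x x.2 hx'
      have h1 : ((x * y : C) : Module.End K V) v = 0 := by rw [hxy]; rfl
      exact h1
  have hnt : Nontrivial C := inferInstance
  have hdom : IsDomain C := NoZeroDivisors.to_isDomain C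
  have hfield : IsField C := Finite.isDomain_to_isField C
  have hAdj : ∀ x ∈ C, ∀ b ∈ Algebra.adjoin K (EndSet H), x * b = b * x := by
    intro x hx b hb
    have h1 := Algebra.adjoin_le_centralizer_centralizer K (EndSet H) hb
    rw [Subalgebra.mem_centralizer_iff] at h1
    exact h1 x hx
  let iF : Field C := hfield.toField
  refine ⟨C, iF, hCf, inferInstanceAs (Algebra K C), inferInstanceAs (Module C V), ?_, ?_, ?_, ?_, ?_,
    ?_⟩
  · exact inferInstanceAs (IsScalarTower K C V)
  · intro e
    exact cent_eq A hA (e : Module.End K V) (fun a ha => hAdj e e.2 a (hAB ha))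
  · intro e
    exact cent_eq A' hA' (e : Module.End K V) (fun a ha => hAdj e e.2 a (hAB' ha))
  · intro h hh e v
    exact ((hCmem e).1 e.2 h hh v).symm
  · intro x hx
    exact ⟨⟨x, (hCmem x).2 hx⟩, rfl⟩
  · intro x hx
    exact F1_density H irr x (fun y hy v => hx ⟨y, (hCmem y).2 hy⟩ v)

end Pool.Agent.CTO
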