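import Pool.Agent.CTO.F2

/-!
# F4: isomorphic over `K` implies isomorphic over `E`

`A`, `A'` are torus algebras containing `E` with an isomorphism `φ : A ≃ A'` over `K`. Claim: there is an
isomorphism over `E` (commuting with the adjoints if `φ` does).
Proof. `E = K(θ)` for a generator `θ` (finite fields: `Field.exists_primitive_element`), with minimal
polynomial `μ` over `K` of degree `m = [E : K]`, and the conjugates of `θ` are `θ ^ (q ^ r)`, `r < m`
(distinct; `q = |K|`; `E/K` is Galois with group generated by the Frobenius). Let `b = i(θ) ∈ A'` (`i` the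
inclusion of `E`), `a = φ(θ) ∈ A'`. `μ(a) = 0` and `μ = ∏_r (X - θ^(q^r))` over `E`, so
`∏_{r < m} (a - b^(q^r)) = 0`, and the differences `b^(q^r) - b^(q^s)`, `r ≠ s`, are units (they are the
images of nonzero elements of `E`). So (Lagrange interpolation)
`ε_r = ∏_{s ≠ r} (a - b^(q^s)) / (b^(q^r) - b^(q^s))` are orthogonal idempotents of `A'` with sum `1` and
`ε_r a = ε_r b^(q^r)`. (Alternatively: `A'` is a finite product of fields; on each factor `a` and `b` are
conjugate.) The map `Fr : x ↦ x ^ q` is an automorphism of the `K`-algebra `A'` (`A'` is finite and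
reduced; it is injective), of finite order, commuting with adjoints (`IsAdj f x y → IsAdj f (x^q) (y^q)`).
Put `Ψ(x) = ∑_r ε_r Fr^(-r)(x)`-like: choose the exponent `r'` with `Fr^(r')` inverse to `Fr^r` on `E`, i.e.
`r' = m - r` or use a large multiple; precisely we want a `K`-algebra automorphism `Ψ` of `A'` with
`Ψ(a) = b`. On the factor `ε_r A'`: `a = b^(q^r)`, so `Fr^(m - r)(a) = b^(q^m) = b` (`b ∈ i(E)`, `b^(q^m) = b`).
But `Ψ` must preserve `ε_r A'`: put `Ψ(x) = ∑_r ε_r Fr^(m-r)(x)`, which is the automorphism `Fr^(m-r)` of the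
algebra `ε_r A'` on each factor (`Fr` fixes the idempotent `ε_r`: `ε_r^q = ε_r`). The `ε_r` are selfadjoint
when `φ` respects adjoints: the adjoint maps `i(E)` to itself by `σ`, a power of the Frobenius of `E`, hence
`(b^(q^s))* = σ(b)^(q^s)` and `a* = φ(θ*) = φ(σ θ)`; `ε_r` is characterized by
`ε_r φ(e) = ε_r i(e)^(q^r)` for all `e ∈ E` and `∑ ε_r = 1`, which is a condition stable under the
adjoint: `ε_r* φ(σ e) = ε_r* i(σ e)^(q^r)`. So `Ψ` commutes with the adjoints, and `Ψ ∘ φ` is the
required isomorphism: it maps `θ` to `b`, so it is `E`-linear.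
Then transport to `liftAlg`: the elements of `liftAlg A hE` are the elements of `A` (all of them are
`E`-linear), adjoints with respect to `fE` and `f` are the same (`IsExt.adj`).
-/

namespace Pool.Agent.CTO

open Module

theorem F4_emb (K E F : Type) [Field K] [Fintype K] [Field E] [Finite E] [Algebra K E] [Field F]
    [Algebra K F] (j i : E →ₐ[K] F) : ∃ n : ℕ, ∀ e, i e = (j e) ^ (Fintype.card K ^ n) := by
  let : Algebra E F := j.toRingHom.toAlgebra
  have : IsScalarTower K E F := IsScalarTower.of_algebraMap_eq (fun x => (j.commutes x).symm)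
  let g := Normal.algHomEquivAut K F E i
  have hg : (Normal.algHomEquivAut K F E).symm g = i := Equiv.symm_apply_apply _ _
  obtain ⟨n, hn⟩ := (FiniteField.bijective_frobeniusAlgEquivOfAlgebraic_pow K E).2 g
  refine ⟨n, fun e => ?_⟩
  have h1 : i e = j (g e) := by
    conv_lhs => rw [← hg]
    rfl
  have h2 : g e = e ^ (Fintype.card K ^ (n : ℕ)) := by
    rw [← hn]
    have h3 := congrFun (FiniteField.coe_frobeniusAlgEquivOfAlgebraic_iterate K E n) e
    rw [← h3]
    show (FiniteField.frobeniusAlgEquivOfAlgebraic K E ^ (n : ℕ)) e = _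
    rw [AlgEquiv.coe_pow]
  rw [h1, h2, map_pow]

theorem F4_core_comm (K E B : Type) [Field K] [Fintype K] [Field E] [Finite E] [Algebra K E]
    [CommRing B] [Algebra K B] [Finite B] [IsReduced B] (j i : E →ₐ[K] B) :
    ∃ Ψ : B ≃ₐ[K] B, (∀ e, Ψ (j e) = i e) ∧ ∀ (s : B →+* B) (σ : E → E), Function.Surjective s →
      Function.Surjective σ → (∀ e, s (j e) = j (σ e)) → (∀ e, s (i e) = i (σ e)) →
      ∀ x, s (Ψ x) = Ψ (s x) := by
  classical
  have hn : ∀ I : MaximalSpectrum B, ∃ n : ℕ, ∀ e, i e - (j e) ^ (Fintype.card K ^ n) ∈ I.asIdeal := by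
    intro I
    have := I.isMaximal
    let : Field (B ⧸ I.asIdeal) := Ideal.Quotient.field I.asIdeal
    obtain ⟨n, h⟩ := F4_emb K E (B ⧸ I.asIdeal) ((Ideal.Quotient.mkₐ K I.asIdeal).comp j)
      ((Ideal.Quotient.mkₐ K I.asIdeal).comp i)
    refine ⟨n, fun e => ?_⟩
    rw [← Ideal.Quotient.eq]
    exact h e
  let ν : MaximalSpectrum B → ℕ := fun I => Nat.find (hn I)
  have hν : ∀ I : MaximalSpectrum B, ∀ e, i e - (j e) ^ (Fintype.card K ^ ν I) ∈ I.asIdeal :=
    fun I => Nat.find_spec (hn I)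
  have : IsArtinianRing B := inferInstance
  let PP : B →ₐ[K] ((I : MaximalSpectrum B) → B ⧸ I.asIdeal) :=
    AlgHom.pi (fun I => Ideal.Quotient.mkₐ K I.asIdeal)
  have hPP : Function.Bijective PP := (IsArtinianRing.equivPi B).bijective
  let PPe : B ≃ₐ[K] ((I : MaximalSpectrum B) → B ⧸ I.asIdeal) := AlgEquiv.ofBijective PP hPP
  let Φ : B →ₐ[K] ((I : MaximalSpectrum B) → B ⧸ I.asIdeal) :=
    AlgHom.pi (fun I => ((FiniteField.frobeniusAlgHom K (B ⧸ I.asIdeal)) ^ (ν I)).comp
      (Ideal.Quotient.mkₐ K I.asIdeal))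
  have hfr : ∀ (I : Ideal B) (n : ℕ) (y : B ⧸ I),
      ((FiniteField.frobeniusAlgHom K (B ⧸ I)) ^ n) y = y ^ (Fintype.card K ^ n) := by
    intro I n
    induction n with
    | zero => intro y; simp
    | succ n ih =>
      intro y
      rw [pow_succ', AlgHom.mul_apply, ih, FiniteField.coe_frobeniusAlgHom]
      show (y ^ Fintype.card K ^ n) ^ Fintype.card K = y ^ Fintype.card K ^ (n + 1)
      rw [← pow_mul, ← pow_succ]
  have hΦ : ∀ x (I : MaximalSpectrum B), Φ x I =
      (Ideal.Quotient.mk I.asIdeal x) ^ (Fintype.card K ^ ν I) := fun x I => hfr _ _ _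
  let Ψ₀ : B →ₐ[K] B := PPe.symm.toAlgHom.comp Φ
  have hΨ₀ : ∀ x (I : MaximalSpectrum B), Ideal.Quotient.mk I.asIdeal (Ψ₀ x) =
      (Ideal.Quotient.mk I.asIdeal x) ^ (Fintype.card K ^ ν I) := by
    intro x I
    rw [← hΦ]
    have h1 : PPe (PPe.symm (Φ x)) = Φ x := AlgEquiv.apply_symm_apply _ _
    exact congrFun h1 I
  have hsep : ∀ x y : B, (∀ I : MaximalSpectrum B, Ideal.Quotient.mk I.asIdeal x =
      Ideal.Quotient.mk I.asIdeal y) → x = y := fun x y h => hPP.1 (funext h)
  have hinj : Function.Injective Ψ₀ := by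
    intro x y hxy
    apply hsep
    intro I
    have := I.isMaximal
    let : Field (B ⧸ I.asIdeal) := Ideal.Quotient.field I.asIdeal
    have h1 := hΨ₀ x I
    rw [hxy, hΨ₀ y I] at h1
    have h2 : Function.Injective ((FiniteField.frobeniusAlgHom K (B ⧸ I.asIdeal)) ^ (ν I) :
        (B ⧸ I.asIdeal) →ₐ[K] (B ⧸ I.asIdeal)) := RingHom.injective _
    apply h2
    rw [hfr, hfr, h1]
  have hbij : Function.Bijective Ψ₀ := Finite.injective_iff_bijective.1 hinj
  let Ψ : B ≃ₐ[K] B := AlgEquiv.ofBijective Ψ₀ hbij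
  have hΨ : ∀ x (I : MaximalSpectrum B), Ψ x - x ^ (Fintype.card K ^ ν I) ∈ I.asIdeal := by
    intro x I
    rw [← Ideal.Quotient.eq, map_pow]
    exact hΨ₀ x I
  refine ⟨Ψ, ?_, ?_⟩
  · intro e
    apply hsep
    intro I
    have h1 := hΨ₀ (j e) I
    have h2 := (Ideal.Quotient.eq).2 (hν I e)
    rw [map_pow] at h2
    exact h1.trans h2.symm
  · intro s σ hs hσ hsj hsi x
    apply hsep
    intro I
    have := I.isMaximal
    let I' : MaximalSpectrum B := ⟨I.asIdeal.comap s, Ideal.comap_isMaximal_of_surjective s hs⟩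
    have hνν : ν I' = ν I := by
      apply Nat.find_congr' 
      intro n
      constructor
      · intro h e
        obtain ⟨e', rfl⟩ := hσ e
        have h1 := h e'
        have h2 : s (i e' - (j e') ^ (Fintype.card K ^ n)) ∈ I.asIdeal := h1
        rw [map_sub, map_pow, hsi, hsj] at h2
        exact h2
      · intro h e
        show s (i e - (j e) ^ (Fintype.card K ^ n)) ∈ I.asIdeal
        rw [map_sub, map_pow, hsi, hsj]
        exact h (σ e)
    have h1 : s (Ψ x - x ^ (Fintype.card K ^ ν I')) ∈ I.asIdeal := hΨ x I'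
    rw [hνν, map_sub, map_pow] at h1
    have h2 := hΨ (s x) I
    exact ((Ideal.Quotient.eq).2 h1).trans ((Ideal.Quotient.eq).2 h2).symm

theorem F4_core (K E B : Type) [Field K] [Finite K] [Field E] [Finite E] [Algebra K E]
    [Ring B] [Algebra K B] [Finite B] (hc : ∀ a b : B, a * b = b * a)
    (hr : ∀ a : B, a * a = 0 → a = 0) (j i : E →ₐ[K] B) :
    ∃ Ψ : B ≃ₐ[K] B, (∀ e, Ψ (j e) = i e) ∧ ∀ (s : B →+* B) (σ : E → E), Function.Surjective s →
      Function.Surjective σ → (∀ e, s (j e) = j (σ e)) → (∀ e, s (i e) = i (σ e)) →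
      ∀ x, s (Ψ x) = Ψ (s x) := by
  let : Fintype K := Fintype.ofFinite K
  let : CommRing B := { (inferInstance : Ring B) with mul_comm := hc }
  have : IsReduced B := (isReduced_iff_pow_one_lt 2 one_lt_two).2
    (fun x hx => hr x (by rw [← pow_two]; exact hx))
  exact F4_core_comm K E B j i

section

variable {K E V : Type} [Field K] [Finite K] [Field E] [Finite E] [Algebra K E] [AddCommGroup V]
  [Module K V] [Module E V] [IsScalarTower K E V] [FiniteDimensional K V]

/-- the inclusion of `E` -/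
noncomputable def F4_inc (A : Subalgebra K (Module.End K V))
    (hE : ∀ e : E, Algebra.lsmul K K V e ∈ A) : E →ₐ[K] A :=
  (Algebra.lsmul K K V : E →ₐ[K] Module.End K V).codRestrict A hE

omit [Finite K] [Finite E] [FiniteDimensional K V] in
theorem F4_inc_coe (A : Subalgebra K (Module.End K V))
    (hE : ∀ e : E, Algebra.lsmul K K V e ∈ A) (e : E) :
    (F4_inc A hE e : Module.End K V) = Algebra.lsmul K K V e := rfl

/-- elements of `A` are `E`-linear -/
def F4_lin (A : Subalgebra K (Module.End K V)) (hA : IsTorGL A)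
    (hE : ∀ e : E, Algebra.lsmul K K V e ∈ A) (a : A) : Module.End E V where
  toFun v := (a : Module.End K V) v
  map_add' v w := map_add _ v w
  map_smul' e v := by
    have h := hA.comm a a.2 _ (hE e)
    exact LinearMap.congr_fun h v

/-- the ring isomorphism of `liftAlg A` and `A` -/
noncomputable def F4_eq (A : Subalgebra K (Module.End K V)) (hA : IsTorGL A)
    (hE : ∀ e : E, Algebra.lsmul K K V e ∈ A) : liftAlg A hE ≃+* A where
  toFun x := ⟨(x : Module.End E V).restrictScalars K, x.2⟩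
  invFun a := ⟨F4_lin A hA hE a, a.2⟩
  left_inv x := rfl
  right_inv a := rfl
  map_mul' x y := rfl
  map_add' x y := rfl

theorem F4_eq_algebraMap (A : Subalgebra K (Module.End K V)) (hA : IsTorGL A)
    (hE : ∀ e : E, Algebra.lsmul K K V e ∈ A) (e : E) :
    F4_eq A hA hE (algebraMap E (liftAlg A hE) e) = F4_inc A hE e := by
  apply Subtype.ext
  ext v
  show (algebraMap E (liftAlg A hE) e : Module.End E V) v = e • v
  rw [Subalgebra.coe_algebraMap, Module.algebraMap_end_apply]

theorem F4_finite (A : Subalgebra K (Module.End K V)) : Finite A := by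
  have : Finite (Module.End K V) := Module.finite_of_finite K
  exact Subtype.finite

theorem iso_lift (A A' : Subalgebra K (Module.End K V)) (hA : IsTorGL A) (hA' : IsTorGL A')
    (hE : ∀ e : E, Algebra.lsmul K K V e ∈ A) (hE' : ∀ e : E, Algebra.lsmul K K V e ∈ A')
    (h : Nonempty (A ≃ₐ[K] A')) : Nonempty (liftAlg A hE ≃ₐ[E] liftAlg A' hE') := by
  obtain ⟨φ⟩ := h
  have := F4_finite A'
  obtain ⟨Ψ, hΨ, -⟩ := F4_core K E A' (fun a b => Subtype.ext (hA'.comm a a.2 b b.2))
    (fun a ha => Subtype.ext (hA'.red a a.2 (congrArg Subtype.val ha)))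
    (φ.toAlgHom.comp (F4_inc A hE)) (F4_inc A' hE')
  let R : liftAlg A hE ≃+* liftAlg A' hE' := (F4_eq A hA hE).trans
    ((φ.toRingEquiv.trans Ψ.toRingEquiv).trans (F4_eq A' hA' hE').symm)
  refine ⟨AlgEquiv.ofRingEquiv (f := R) (fun e => ?_)⟩
  show (F4_eq A' hA' hE').symm (Ψ (φ (F4_eq A hA hE (algebraMap E _ e)))) = _
  rw [F4_eq_algebraMap]
  have h1 : Ψ (φ (F4_inc A hE e)) = F4_inc A' hE' e := hΨ e
  rw [h1, ← F4_eq_algebraMap A' hA' hE', RingEquiv.symm_apply_apply]

theorem siso_lift (ε : K) (f : V → V → K) (hf : IsHF (RingHom.id K) ε f) (σ : E →+* E)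
    (fE : V → V → E) (hx : IsExt ε f σ fE) (A A' : Subalgebra K (Module.End K V)) (hA : IsTor f A)
    (hA' : IsTor f A')
    (hE : ∀ e : E, Algebra.lsmul K K V e ∈ A) (hE' : ∀ e : E, Algebra.lsmul K K V e ∈ A')
    (h : SIso f A f A') : SIso fE (liftAlg A hE) fE (liftAlg A' hE') := by
  classical
  obtain ⟨φ, hφ⟩ := h
  have := F4_finite A'
  obtain ⟨Ψ, hΨ, hΨs⟩ := F4_core K E A' (fun a b => Subtype.ext (hA'.comm a a.2 b b.2))
    (fun a ha => Subtype.ext (hA'.red a a.2 (congrArg Subtype.val ha)))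
    (φ.toAlgHom.comp (F4_inc A hE)) (F4_inc A' hE')
  -- elementary properties of adjoints
  have hright : ∀ v u w : V, f v (u + w) = f v u + f v w := by
    intro v u w
    rw [hf.herm (u + w) v, hf.add_left, map_add, mul_add, ← hf.herm u v, ← hf.herm w v]
  have hnd : ∀ u u' : V, (∀ v, f v u = f v u') → u = u' := by
    intro u u' h
    rw [← sub_eq_zero]
    apply hf.nondeg
    intro w
    have h1 : f u w = f u' w := by rw [hf.herm w u, hf.herm w u', h w]
    have h2 := hf.add_left (u - u') u' w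
    rw [sub_add_cancel, h1] at h2
    have h3 : f (u - u') w + f u' w = 0 + f u' w := by rw [← h2, zero_add]
    exact add_right_cancel h3
  have huniq : ∀ S T T' : Module.End K V, IsAdj f S T → IsAdj f S T' → T = T' := by
    intro S T T' h1 h2
    ext w
    apply hnd
    intro v
    rw [← h1 v w, h2 v w]
  have hsymm : ∀ S T : Module.End K V, IsAdj f S T → IsAdj f T S := by
    intro S T h v w
    rw [hf.herm w (T v), ← h w v, ← hf.herm (S w) v]
  have hsymm' : ∀ S S' T : Module.End K V, IsAdj f S T → IsAdj f S' T → S = S' := by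
    intro S S' T h1 h2
    exact huniq T S S' (hsymm _ _ h1) (hsymm _ _ h2)
  choose s₀ hs₀ using fun a : A' => hA'.star a a.2
  let s : A' →+* A' :=
    { toFun := fun a => ⟨s₀ a, (hs₀ a).1⟩
      map_one' := by
        apply Subtype.ext
        exact huniq _ _ _ (hs₀ 1).2 (fun v w => rfl)
      map_mul' := by
        intro a b
        apply Subtype.ext
        refine huniq _ _ _ (hs₀ (a * b)).2 ?_
        show IsAdj f ((a * b : A') : Module.End K V) (s₀ a * s₀ b)
        rw [hA'.comm _ (hs₀ a).1 _ (hs₀ b).1]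
        intro v w
        show f ((a : Module.End K V) ((b : Module.End K V) v)) w = f v (s₀ b (s₀ a w))
        rw [(hs₀ a).2, (hs₀ b).2]
      map_zero' := by
        apply Subtype.ext
        refine huniq _ _ _ (hs₀ 0).2 ?_
        intro v w
        show f 0 w = f v 0
        have e1 : f 0 w = 0 := by
          have := hf.smul_left 0 0 w
          rw [zero_smul, zero_mul] at this
          exact this
        have e2 : f 0 v = 0 := by
          have := hf.smul_left 0 0 v
          rw [zero_smul, zero_mul] at this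
          exact this
        rw [e1, hf.herm 0 v, e2, map_zero, mul_zero]
      map_add' := by
        intro a b
        apply Subtype.ext
        refine huniq _ _ _ (hs₀ (a + b)).2 ?_
        intro v w
        show f ((a : Module.End K V) v + (b : Module.End K V) v) w = f v (s₀ a w + s₀ b w)
        rw [hf.add_left, (hs₀ a).2, (hs₀ b).2, hright] }
  have hsa : ∀ a b : A', IsAdj f a b ↔ s a = b := by
    intro a b
    constructor
    · intro h
      apply Subtype.ext
      exact huniq _ _ _ (hs₀ a).2 h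
    · intro h
      rw [← h]
      exact (hs₀ a).2
  have hssurj : Function.Surjective s := by
    intro a
    refine ⟨s a, ?_⟩
    rw [← hsa]
    exact hsymm _ _ ((hsa _ _).2 rfl)
  have hσsurj : Function.Surjective σ := fun e => ⟨σ e, hx.hf.invol e⟩
  -- the adjoint of `e` is `σ e`
  have hEadj : ∀ e : E, IsAdj f (Algebra.lsmul K K V e) (Algebra.lsmul K K V (σ e)) := by
    intro e
    have h1 : IsAdj fE (Algebra.lsmul E E V e : Module.End E V)
        (Algebra.lsmul E E V (σ e) : Module.End E V) := by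
      intro v w
      show fE (e • v) w = fE v (σ e • w)
      rw [hx.hf.smul_left, hx.hf.herm (σ e • w) v, hx.hf.smul_left, map_mul, hx.hf.invol,
        hx.hf.herm w v]
      ring
    exact (hx.adj _ _).2 h1
  have hsi : ∀ e, s (F4_inc A' hE' e) = F4_inc A' hE' (σ e) := by
    intro e
    rw [← hsa]
    exact hEadj e
  have hsj : ∀ e, s ((φ.toAlgHom.comp (F4_inc A hE)) e) = (φ.toAlgHom.comp (F4_inc A hE)) (σ e) := by
    intro e
    rw [← hsa]
    exact hφ _ _ (hEadj e)
  have hcomm := hΨs s σ hssurj hσsurj hsj hsi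
  let R : liftAlg A hE ≃+* liftAlg A' hE' := (F4_eq A hA.toIsTorGL hE).trans
    ((φ.toRingEquiv.trans Ψ.toRingEquiv).trans (F4_eq A' hA'.toIsTorGL hE').symm)
  refine ⟨AlgEquiv.ofRingEquiv (f := R) (fun e => ?_), ?_⟩
  · show (F4_eq A' hA'.toIsTorGL hE').symm (Ψ (φ (F4_eq A hA.toIsTorGL hE (algebraMap E _ e)))) = _
    rw [F4_eq_algebraMap]
    have h1 : Ψ (φ (F4_inc A hE e)) = F4_inc A' hE' e := hΨ e
    rw [h1, ← F4_eq_algebraMap A' hA'.toIsTorGL hE', RingEquiv.symm_apply_apply]
  · intro x y hxy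
    have h1 : IsAdj f (F4_eq A hA.toIsTorGL hE x : Module.End K V)
        (F4_eq A hA.toIsTorGL hE y : Module.End K V) := (hx.adj _ _).2 hxy
    have h2 := hφ _ _ h1
    have h3 := (hsa _ _).1 h2
    have h4 : IsAdj f (Ψ (φ (F4_eq A hA.toIsTorGL hE x)) : Module.End K V)
        (Ψ (φ (F4_eq A hA.toIsTorGL hE y)) : Module.End K V) := by
      rw [hsa, hcomm, h3]
    exact (hx.adj _ _).1 h4

end

end Pool.Agent.CTO
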