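import Pool.Agent.CTO.A1

/-!
# F5: torus algebras of two dimensional quadratic spaces

`f` symmetric, `2 ≠ 0`, `dim V ≤ 2`: any two torus algebras coincide.
-/

namespace Pool.Agent.CTO

open Module

theorem F5_le (K V : Type) [Field K] [AddCommGroup V] [Module K V] [FiniteDimensional K V]
    (two : (2 : K) ≠ 0) (f : V → V → K) (hf : IsHF (RingHom.id K) 1 f) (h : finrank K V ≤ 2)
    (A A' : Subalgebra K (Module.End K V)) (hA : IsTor f A) (hA' : IsTor f A') : A ≤ A' := by
  intro a ha
  by_cases h1 : finrank K V ≤ 1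
  · obtain ⟨v, hv⟩ := finrank_le_one_iff.1 h1
    obtain ⟨c, hc⟩ := hv (a v)
    have h2 : a = algebraMap K (Module.End K V) c := by
      ext w
      obtain ⟨c', rfl⟩ := hv w
      rw [Module.algebraMap_end_apply, map_smul, ← hc, smul_comm]
    rw [h2]
    exact A'.algebraMap_mem c
  have h2 : finrank K V = 2 := by omega
  -- the form is symmetric and bilinear
  have fsymm : ∀ u w, f u w = f w u := by
    intro u w
    have := hf.herm w u
    rwa [one_mul, RingHom.id_apply] at this
  have fadd : ∀ u v w, f (u + v) w = f u w + f v w := hf.add_left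
  have fsmul : ∀ (c : K) v w, f (c • v) w = c * f v w := hf.smul_left
  have fadd' : ∀ u v w, f u (v + w) = f u v + f u w := by
    intro u v w
    rw [fsymm u (v + w), fadd, fsymm v u, fsymm w u]
  have fsmul' : ∀ (c : K) v w, f v (c • w) = c * f v w := by
    intro c v w
    rw [fsymm v (c • w), fsmul, fsymm w v]
  have fneg' : ∀ v w, f v (-w) = - f v w := by
    intro v w
    have := fsmul' (-1) v w
    rwa [neg_one_smul, neg_one_mul] at this
  have fsub : ∀ u v w, f (u - v) w = f u w - f v w := by
    intro u v w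
    rw [sub_eq_add_neg, fadd, fsymm (-v) w, fneg', fsymm w v, sub_eq_add_neg]
  have hnt : Nontrivial V := Module.nontrivial_of_finrank_pos (R := K) (by omega)
  obtain ⟨v, hv⟩ : ∃ v, f v v ≠ 0 := by
    by_contra hcon
    push Not at hcon
    obtain ⟨u, hu⟩ := exists_ne (0 : V)
    apply hu
    apply hf.nondeg
    intro w
    have h3 := hcon (u + w)
    rw [fadd, fadd', fadd', hcon u, hcon w, fsymm w u] at h3
    have h4 : 2 * f u w = 0 := by linear_combination h3
    exact (mul_eq_zero.1 h4).resolve_left two
  have hv0 : v ≠ 0 := by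
    rintro rfl
    apply hv
    have := fsmul 0 (0 : V) 0
    rwa [zero_smul, zero_mul] at this
  obtain ⟨u, hu⟩ : ∃ u : V, ∀ c : K, c • v ≠ u := by
    by_contra hcon
    push Not at hcon
    apply h1
    exact finrank_le_one_iff.2 ⟨v, hcon⟩
  set w : V := u - (f u v / f v v) • v with hw
  have hw0 : w ≠ 0 := by
    intro h0
    apply hu (f u v / f v v)
    rw [hw, sub_eq_zero] at h0
    exact h0.symm
  have hwv : f w v = 0 := by
    rw [hw, fsub, fsmul, div_mul_cancel₀ _ hv, sub_self]
  have hvw : f v w = 0 := by rw [fsymm, hwv]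
  have hli : LinearIndependent K ![v, w] := by
    rw [LinearIndependent.pair_iff]
    intro s t hst
    have h3 : f (s • v + t • w) v = 0 := by
      rw [hst]
      have := fsmul 0 (0 : V) v
      rwa [zero_smul, zero_mul] at this
    rw [fadd, fsmul, fsmul, hwv, mul_zero, add_zero] at h3
    have hs : s = 0 := (mul_eq_zero.1 h3).resolve_right hv
    rw [hs, zero_smul, zero_add] at hst
    exact ⟨hs, (smul_eq_zero.1 hst).resolve_right hw0⟩
  have hspan : ∀ x : V, ∃ α β : K, x = α • v + β • w := by
    intro x
    have h3 : Submodule.span K (Set.range ![v, w]) = ⊤ :=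
      hli.span_eq_top_of_card_eq_finrank (by rw [Fintype.card_fin, h2])
    have h4 : x ∈ Submodule.span K (Set.range ![v, w]) := by
      rw [h3]
      exact Submodule.mem_top
    rw [Matrix.range_cons, Matrix.range_cons, Matrix.range_empty, Set.union_empty,
      Set.singleton_union, Submodule.mem_span_pair] at h4
    obtain ⟨α, β, h5⟩ := h4
    exact ⟨α, β, h5.symm⟩
  have hww : f w w ≠ 0 := by
    intro h0
    apply hw0
    apply hf.nondeg
    intro x
    obtain ⟨α, β, rfl⟩ := hspan x
    rw [fadd', fsmul', fsmul', hwv, h0]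
    ring
  -- skew endomorphisms
  have hskew : ∀ d : Module.End K V, IsAdj f d (-d) → ∃ β : K, d v = β • w ∧
      d w = (-(β * f w w / f v v)) • v := by
    intro d hd
    have hd1 : ∀ x y, f (d x) y = - f x (d y) := by
      intro x y
      have := hd x y
      rw [LinearMap.neg_apply, fneg'] at this
      exact this
    have hd2 : ∀ x, f (d x) x = 0 := by
      intro x
      have h3 := hd1 x x
      rw [fsymm x (d x)] at h3
      have h4 : 2 * f (d x) x = 0 := by linear_combination h3
      exact (mul_eq_zero.1 h4).resolve_left two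
    obtain ⟨α, β, hαβ⟩ := hspan (d v)
    obtain ⟨γ, δ, hγδ⟩ := hspan (d w)
    have hα : α = 0 := by
      have h3 := hd2 v
      rw [hαβ, fadd, fsmul, fsmul, hwv, mul_zero, add_zero] at h3
      exact (mul_eq_zero.1 h3).resolve_right hv
    have hδ : δ = 0 := by
      have h3 := hd2 w
      rw [hγδ, fadd, fsmul, fsmul, hvw, mul_zero, zero_add] at h3
      exact (mul_eq_zero.1 h3).resolve_right hww
    rw [hα, zero_smul, zero_add] at hαβ
    rw [hδ, zero_smul, add_zero] at hγδ
    have h3 := hd1 v w
    rw [hαβ, hγδ, fsmul, fsmul'] at h3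
    refine ⟨β, hαβ, ?_⟩
    rw [hγδ]
    congr 1
    field_simp
    linear_combination h3
  obtain ⟨d, hdA, hd, hrd⟩ := hA.skew
  obtain ⟨d', hdA', hd', hrd'⟩ := hA'.skew
  have hne : ∀ e : Module.End K V, finrank K V ≤ finrank K (LinearMap.range e) + 1 → e ≠ 0 := by
    rintro e he rfl
    rw [LinearMap.range_zero, finrank_bot] at he
    omega
  have hext : ∀ e e' : Module.End K V, e v = e' v → e w = e' w → e = e' := by
    intro e e' he1 he2
    ext x
    obtain ⟨α, β, rfl⟩ := hspan x
    rw [map_add, map_add, map_smul, map_smul, map_smul, map_smul, he1, he2]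
  obtain ⟨β, hβ1, hβ2⟩ := hskew d hd
  obtain ⟨β', hβ1', hβ2'⟩ := hskew d' hd'
  have hβ : β ≠ 0 := by
    rintro rfl
    apply hne d hrd
    apply hext
    · rw [hβ1, zero_smul, LinearMap.zero_apply]
    · rw [hβ2, zero_mul, zero_div, neg_zero, zero_smul, LinearMap.zero_apply]
  have hβ' : β' ≠ 0 := by
    rintro rfl
    apply hne d' hrd'
    apply hext
    · rw [hβ1', zero_smul, LinearMap.zero_apply]
    · rw [hβ2', zero_mul, zero_div, neg_zero, zero_smul, LinearMap.zero_apply]
  have hdd : d = (β / β') • d' := by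
    apply hext
    · rw [LinearMap.smul_apply, hβ1, hβ1', smul_smul, div_mul_cancel₀ _ hβ']
    · rw [LinearMap.smul_apply, hβ2, hβ2', smul_smul]
      congr 1
      field_simp
  have hdA2 : d ∈ A' := by
    rw [hdd]
    exact A'.smul_mem hdA' _
  have hcomm : ∀ x, a (d x) = d (a x) := by
    intro x
    have := hA.comm a ha d hdA
    exact congrArg (fun e : Module.End K V => e x) this
  obtain ⟨α₁, β₁, hav⟩ := hspan (a v)
  have hdv : w = β⁻¹ • d v := by
    rw [hβ1, smul_smul, inv_mul_cancel₀ hβ, one_smul]
  have haeq : a = algebraMap K (Module.End K V) α₁ + (β₁ * β⁻¹) • d := by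
    have e1 : a v = (algebraMap K (Module.End K V) α₁ + (β₁ * β⁻¹) • d) v := by
      rw [LinearMap.add_apply, Module.algebraMap_end_apply, LinearMap.smul_apply, hav, mul_smul,
        ← hdv]
    apply hext _ _ e1
    have e2 : ∀ x, (algebraMap K (Module.End K V) α₁ + (β₁ * β⁻¹) • d) (d x) =
        d ((algebraMap K (Module.End K V) α₁ + (β₁ * β⁻¹) • d) x) := by
      intro x
      rw [LinearMap.add_apply, LinearMap.add_apply, Module.algebraMap_end_apply,
        Module.algebraMap_end_apply, LinearMap.smul_apply, LinearMap.smul_apply, map_add,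
        map_smul, map_smul]
    rw [hdv, map_smul, map_smul, hcomm, e2, e1]
  rw [haeq]
  exact A'.add_mem (A'.algebraMap_mem _) (A'.smul_mem hdA2 _)

theorem O_small (K V : Type) [Field K] [AddCommGroup V] [Module K V] [FiniteDimensional K V]
    (two : (2 : K) ≠ 0) (f : V → V → K) (hf : IsHF (RingHom.id K) 1 f) (h : finrank K V ≤ 2)
    (A A' : Subalgebra K (Module.End K V)) (hA : IsTor f A) (hA' : IsTor f A') : A = A' :=
  le_antisymm (F5_le K V two f hf h A A' hA hA') (F5_le K V two f hf h A' A hA' hA)

end Pool.Agent.CTO
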