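import Pool.Agent.CTO.AI
import Pool.Agent.CTO.A2
import Pool.Agent.CTO.A4
import Pool.Agent.CTO.F1
import Pool.Agent.CTO.F3
import Pool.Agent.CTO.F4
import Pool.Agent.CTO.F5

/-!
# T2: the irreducible case, with a form

`H = sq T ⊔ sq T'` (`T = tor id f A`, `T' = tor id f A'`) irreducible on `V`, `dim V = N`. `N = 0`: `h = 1`.
Let `N ≥ 1`. `q0` is the maximum of the bounds of `gen_tor N`, `aiSp m`, `aiU m`, `aiO m` (`m ≤ N`, for `aiO`
`3 ≤ m`). By `gen_tor`, `A, A' ≤ adjoin (EndSet H)`; `exists_field` gives `E`. For `e ∈ E` the adjoint `e*` is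
in `A` (`IsTor.star`), and it commutes with `H` (`h ∈ H` is an isometry: its adjoint is `h⁻¹`), so it is in
`E`: `exists_ext` gives `σ`, `fE`. `liftAlg A`, `liftAlg A'` are `IsTor` for `fE` (`lift_isTor`), `SIso` over
`E` by `siso_lift`; `conj_of_SIso` over `E` (`(2 : E) ≠ 0`) gives an isometry `g` of `fE`.
`HE = sq (tor σ fE (liftAlg A)) ⊔ sq (tor σ fE (liftAlg A'))` has `HE.map resH = H` (`lift_tor_map`), so
`adjoin_lift` applies.
* `σ ≠ id`: `aiU` (the fixed field of `σ` contains the image of `K`, so has at least `|K|` elements).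
* `σ = id` (`σ = RingHom.id E`), `ε = -1`: `aiSp`.
* `σ = id`, `ε = 1`, `dim_E V ≥ 3`: `aiO`, with `lift_oddpos`.
* `σ = id`, `ε = 1`, `dim_E V ≤ 2`: `O_small`: `liftAlg A = liftAlg A'`, `h = 1`.
`carries_of_lift`.
-/

namespace Pool.Agent.CTO

open Module

theorem T2_nd {K V : Type} [Field K] [AddCommGroup V] [Module K V] {ε : K} {f : V → V → K}
    (hf : IsHF (RingHom.id K) ε f) {v w : V} (h : ∀ u, f u v = f u w) : v = w := by
  have hadd2 : ∀ u v w, f u (v + w) = f u v + f u w := by
    intro u v w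
    rw [hf.herm (v + w) u, hf.add_left, hf.herm v u, hf.herm w u, RingHom.id_apply,
      RingHom.id_apply, RingHom.id_apply]
    ring
  have hsmul2 : ∀ (k : K) (v w : V), f v (k • w) = k * f v w := by
    intro k v w
    rw [hf.herm (k • w) v, hf.smul_left, hf.herm w v, RingHom.id_apply, RingHom.id_apply]
    ring
  have hsub2 : ∀ u v w, f u (v - w) = f u v - f u w := by
    intro u v w
    have h1 : v - w = v + (-1 : K) • w := by rw [neg_one_smul, sub_eq_add_neg]
    rw [h1, hadd2, hsmul2]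
    ring
  rw [← sub_eq_zero]
  apply hf.nondeg
  intro u
  rw [hf.herm u (v - w), hsub2, h, sub_self, map_zero, mul_zero]

theorem irrF (N : ℕ) : ∃ q0 : ℕ, ∀ (K V : Type) [Field K] [Finite K] [AddCommGroup V]
    [Module K V] [FiniteDimensional K V] (ε : K) (f : V → V → K)
    (A A' : Subalgebra K (Module.End K V)),
    finrank K V = N → q0 ≤ Nat.card K → (2 : K) ≠ 0 → IsHF (RingHom.id K) ε f → IsTor f A →
    IsTor f A' → SIso f A f A' → (ε = 1 → OddPos f A) →
    (∀ W : Submodule K V, (∀ h ∈ sq (tor (RingHom.id K) f A) ⊔ sq (tor (RingHom.id K) f A'),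
      ∀ v ∈ W, h v ∈ W) → W = ⊥ ∨ W = ⊤) →
    ∃ h ∈ sq (tor (RingHom.id K) f A) ⊔ sq (tor (RingHom.id K) f A'), CarriesTo h A A' := by
  classical
  obtain ⟨qG, hG⟩ := gen_tor N
  choose qS hS using aiSp
  choose qU hU using aiU
  choose qO hO using aiO
  let qO' : ℕ → ℕ := fun n => if h : 3 ≤ n then qO n h else 0
  have hle : ∀ m, m ≤ N → qS m + qU m + qO' m ≤
      ∑ m ∈ Finset.range (N + 1), (qS m + qU m + qO' m) := by
    intro m hm
    exact Finset.single_le_sum (f := fun m => qS m + qU m + qO' m) (fun _ _ => Nat.zero_le _)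
      (Finset.mem_range.2 (by omega))
  refine ⟨qG + ∑ m ∈ Finset.range (N + 1), (qS m + qU m + qO' m), ?_⟩
  intro K V _ _ _ _ _ ε f A A' hN hq two hf hA hA' hS1 hodd irr
  rcases subsingleton_or_nontrivial V with hV | hV
  · refine ⟨1, one_mem _, fun a _ => ?_⟩
    have : (1 : V ≃ₗ[K] V).toLinearMap ∘ₗ a ∘ₗ (1 : V ≃ₗ[K] V).symm.toLinearMap = 0 := by
      ext v
      exact Subsingleton.elim _ _
    rw [this]
    exact A'.zero_mem
  set T := tor (RingHom.id K) f A with hT
  set T' := tor (RingHom.id K) f A' with hT'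
  have hqG : qG ≤ Nat.card K := by omega
  have hmono : ∀ S S' : Subgroup (V ≃ₗ[K] V), S ≤ S' →
      Algebra.adjoin K (EndSet S) ≤ Algebra.adjoin K (EndSet S') := by
    intro S S' h
    apply Algebra.adjoin_mono
    rintro x ⟨y, hy, rfl⟩
    exact ⟨y, h hy, rfl⟩
  have hAB : A ≤ Algebra.adjoin K (EndSet (sq T ⊔ sq T')) :=
    (hG K V ε f A hN hqG two hf hA).trans (hmono _ _ le_sup_left)
  have hAB' : A' ≤ Algebra.adjoin K (EndSet (sq T ⊔ sq T')) :=
    (hG K V ε f A' hN hqG two hf hA').trans (hmono _ _ le_sup_right)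
  have hiso : sq T ⊔ sq T' ≤ Isom f := by
    refine sup_le ?_ ?_ <;>
    · refine (Subgroup.closure_le _).mpr ?_
      rintro x ⟨t, ht, rfl⟩
      exact mul_mem ht.2.1 ht.2.1
  obtain ⟨E, iE1, iE2, iE3, iE4, iE5, hE, hE', hcom, hcen, hadj⟩ :=
    exists_field K V A A' hA.toIsTorGL hA'.toIsTorGL _ hAB hAB' irr
  have hst : ∀ e : E, ∃ e' : E, IsAdj f (Algebra.lsmul K K V e) (Algebra.lsmul K K V e') := by
    intro e
    obtain ⟨b, -, hb⟩ := hA.star _ (hE e)
    obtain ⟨e', he'⟩ := hcen b (fun h hh v => by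
      refine T2_nd hf fun u => ?_
      have hinv : ∀ u w, f u (h w) = f (h⁻¹ u) w := by
        intro u w
        have h1 := hiso hh (h⁻¹ u) w
        have h2 : h (h⁻¹ u) = u := LinearEquiv.apply_symm_apply h u
        rw [h2] at h1
        exact h1
      have hb' : ∀ v w, f (e • v) w = f v (b w) := hb
      rw [← hb', hinv, hinv, ← hb', hcom _ (inv_mem hh)])
    rw [he'] at hb
    exact ⟨e', hb⟩
  obtain ⟨σ, fE, hx⟩ := exists_ext ε f hf hst
  have hfd : FiniteDimensional E V := Module.Finite.of_restrictScalars_finite K E V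
  have twoE : (2 : E) ≠ 0 := by
    intro h
    apply two
    apply (algebraMap K E).injective
    rw [map_ofNat, h, map_zero]
  have hTE := lift_isTor ε f σ fE hx A hA hE
  have hTE' := lift_isTor ε f σ fE hx A' hA' hE'
  have hSE := siso_lift ε f hf σ fE hx A A' hA hA' hE hE' hS1
  obtain ⟨g, hg, hgc⟩ := conj_of_SIso twoE σ _ fE hx.hf _ _ hTE hTE' hSE
  have hmap : (sq (tor σ fE (liftAlg A hE)) ⊔ sq (tor σ fE (liftAlg A' hE'))).map
      (resH : (V ≃ₗ[E] V) →* (V ≃ₗ[K] V)) = sq T ⊔ sq T' := by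
    rw [sq_sup_map, lift_tor_map two ε f hf σ fE hx A hA hE,
      lift_tor_map two ε f hf σ fE hx A' hA' hE']
  have hadjE : Algebra.adjoin E (EndSet (sq (tor σ fE (liftAlg A hE)) ⊔
      sq (tor σ fE (liftAlg A' hE')))) = ⊤ := by
    refine adjoin_lift (K := K) _ fun x hx' => ?_
    rw [hmap]
    exact hadj x hx'
  have key : ∃ h ∈ sq (tor σ fE (liftAlg A hE)) ⊔ sq (tor σ fE (liftAlg A' hE')),
      CarriesTo h (liftAlg A hE) (liftAlg A' hE') := by
    have hm : finrank E V ≤ N :=
      (finrank_lift_le (K := K) (E := E) (V := V)).trans hN.le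
    have hb := hle _ hm
    have hKE : Nat.card K ≤ Nat.card E := card_le_lift
    by_cases hσ : ∃ k, σ k ≠ k
    · have hcard : Nat.card K ≤ Nat.card {k : E // σ k = k} := by
        refine Nat.card_le_card_of_injective
          (fun k : K => (⟨algebraMap K E k, hx.fix k⟩ : {k : E // σ k = k})) ?_
        intro a b hab
        exact (algebraMap K E).injective (congrArg Subtype.val hab)
      exact hU _ E V σ _ fE _ _ g rfl (by omega) hσ twoE hx.hf hTE hTE' hg hgc hadjE
    · push Not at hσ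
      obtain rfl : σ = RingHom.id E := RingHom.ext hσ
      rcases hf.eps with rfl | rfl
      · have hf1 : IsHF (RingHom.id E) 1 fE := by
          have := hx.hf
          rwa [map_one] at this
        by_cases h3 : 3 ≤ finrank E V
        · have hqO : qO _ h3 ≤ Nat.card E := by
            have : qO' (finrank E V) = qO _ h3 := by simp only [qO', dif_pos h3]
            omega
          exact hO _ h3 E V fE _ _ g rfl hqO twoE hf1 hTE hTE' hg hgc
            (Or.inl (lift_oddpos 1 f _ fE hx A hA hE (hodd rfl))) hadjE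
        · have heq := O_small E V twoE fE hf1 (by omega) _ _ hTE hTE'
          refine ⟨1, one_mem _, fun a ha => ?_⟩
          have : (1 : V ≃ₗ[E] V).toLinearMap ∘ₗ a ∘ₗ (1 : V ≃ₗ[E] V).symm.toLinearMap = a := by
            ext v
            rfl
          rw [this, ← heq]
          exact ha
      · have hf1 : IsHF (RingHom.id E) (-1) fE := by
          have := hx.hf
          rwa [map_neg, map_one] at this
        exact hS _ E V fE _ _ g rfl (by omega) twoE hf1 hTE hTE' hg hgc hadjE
  obtain ⟨h, hh, hhc⟩ := key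
  refine ⟨resH h, ?_, carries_of_lift A A' hA.toIsTorGL hE hE' h hhc⟩
  rw [← hmap]
  exact Subgroup.mem_map_of_mem _ hh

end Pool.Agent.CTO
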