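import Pool.Agent.CTO.P1

/-!
# P2: the complement of a stable subspace (linear case)

`e ∈ A`, `e' ∈ A'` idempotents with the same range `W`. `ker e = range (1 - e)`.
* `exists_psi`: `ψ : ker e ≃ ker e'`, `ψ v = v - e' v`, inverse `v' ↦ v' - e v'` (for `v ∈ ker e`:
  `(v - e' v) - e (v - e' v) = v - e' v + e e' v = v`, as `e` is the identity on `W ∋ e' v`).
* `ex_lift_compl`: lift the factors: for `t ∈ torGL (restr A (ker e))` take `t̂ ∈ torGL A` equal to `t` on
  `ker e` and to `1` on `W` (`ex_lift_torGL` for `1 - e`); for `t ∈ torGL (pull ψ (restr A' (ker e')))` let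
  `t' = ψ t ψ⁻¹ ∈ torGL (restr A' (ker e'))` and `t̂ ∈ torGL A'` equal to `t'` on `ker e'` and `1` on `W`: for
  `v ∈ ker e`, `v = ψ v + e' v`, `t̂ v = t' ψ v + e' v = ψ (t v) + e' v = t v - e' (t v) + e' v`, so
  `t̂ v - t v ∈ W`. The property `y w = w` on `W` and `y v - x v ∈ W` for `v ∈ ker e` is multiplicative and
  compatible with inverses. Closure induction.
-/

namespace Pool.Agent.CTO

open Module

section

variable {K V : Type} [Field K] [AddCommGroup V] [Module K V] [FiniteDimensional K V]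

omit [FiniteDimensional K V] in
theorem exists_psi (e e' : Module.End K V) (hee : e * e = e) (hee' : e' * e' = e')
    (hr : LinearMap.range e = LinearMap.range e') :
    ∃ ψ : LinearMap.ker e ≃ₗ[K] LinearMap.ker e', ∀ v : LinearMap.ker e, (ψ v : V) = (v : V) - e' (v : V) := by
  have h1 : ∀ v : V, e (e' v) = e' v := by
    intro v
    have h2 : e' v ∈ LinearMap.range e := by rw [hr]; exact ⟨v, rfl⟩
    obtain ⟨w, hw⟩ := h2
    rw [← hw]
    exact congrArg (fun x : Module.End K V => x w) hee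
  have h1' : ∀ v : V, e' (e v) = e v := by
    intro v
    have h2 : e v ∈ LinearMap.range e' := by rw [← hr]; exact ⟨v, rfl⟩
    obtain ⟨w, hw⟩ := h2
    rw [← hw]
    exact congrArg (fun x : Module.End K V => x w) hee'
  have h3 : ∀ v : V, e (e v) = e v := fun v => congrArg (fun x : Module.End K V => x v) hee
  have h3' : ∀ v : V, e' (e' v) = e' v := fun v => congrArg (fun x : Module.End K V => x v) hee'
  have m1 : ∀ v ∈ LinearMap.ker e, (1 - e') v ∈ LinearMap.ker e' := by
    intro v _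
    rw [LinearMap.mem_ker]
    show e' (v - e' v) = 0
    rw [map_sub, h3', sub_self]
  have m2 : ∀ v ∈ LinearMap.ker e', (1 - e) v ∈ LinearMap.ker e := by
    intro v _
    rw [LinearMap.mem_ker]
    show e (v - e v) = 0
    rw [map_sub, h3, sub_self]
  refine ⟨LinearEquiv.ofLinearMap ((1 - e').restrict m1) ((1 - e).restrict m2) ?_ ?_, fun v => rfl⟩
  · ext v
    show ((v : V) - e (v : V)) - e' ((v : V) - e (v : V)) = v
    have hv : e' (v : V) = 0 := v.2
    rw [map_sub, hv, h1']
    abel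
  · ext v
    show ((v : V) - e' (v : V)) - e ((v : V) - e' (v : V)) = v
    have hv : e (v : V) = 0 := v.2
    rw [map_sub, hv, h1]
    abel

theorem P2_lift (A : Subalgebra K (Module.End K V)) (hA : IsTorGL A) (e : Module.End K V)
    (he : e ∈ A) (hee : e * e = e) (t : LinearMap.ker e ≃ₗ[K] LinearMap.ker e)
    (ht : t ∈ torGL (restr A (LinearMap.ker e))) :
    ∃ t' ∈ torGL A, (∀ w : LinearMap.ker e, t' w = t w) ∧ ∀ v ∈ LinearMap.range e, t' v = v := by
  have h0 : LinearMap.range (1 - e) = LinearMap.ker e := by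
    ext v
    constructor
    · rintro ⟨w, rfl⟩
      rw [LinearMap.mem_ker]
      show e (w - e w) = 0
      have : e (e w) = e w := congrArg (fun x : Module.End K V => x w) hee
      rw [map_sub, this, sub_self]
    · intro hv
      refine ⟨v, ?_⟩
      show v - e v = v
      rw [LinearMap.mem_ker.1 hv, sub_zero]
  have h1 : (1 - e) * (1 - e) = 1 - e := by
    calc (1 - e) * (1 - e) = 1 - e - e + e * e := by noncomm_ring
      _ = 1 - e := by rw [hee]; abel
  have h2 : ∀ (W : Submodule K V), LinearMap.range (1 - e) = W → ∀ (t : W ≃ₗ[K] W),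
      t ∈ torGL (restr A W) → ∃ t' ∈ torGL A, (∀ w : W, t' w = t w) ∧
        ∀ v, (1 - e) v = 0 → t' v = v := by
    intro W hW t ht
    subst hW
    exact ex_lift_torGL A hA (1 - e) (A.sub_mem A.one_mem he) h1 t ht
  obtain ⟨t', ht', ha, hb⟩ := h2 _ h0 t ht
  refine ⟨t', ht', ha, fun v hv => hb v ?_⟩
  show v - e v = 0
  obtain ⟨w, rfl⟩ := hv
  have : e (e w) = e w := congrArg (fun x : Module.End K V => x w) hee
  rw [this, sub_self]

theorem ex_lift_compl (A A' : Subalgebra K (Module.End K V)) (hA : IsTorGL A) (hA' : IsTorGL A')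
    (e e' : Module.End K V) (he : e ∈ A) (hee : e * e = e) (he' : e' ∈ A') (hee' : e' * e' = e')
    (hr : LinearMap.range e = LinearMap.range e')
    (ψ : LinearMap.ker e ≃ₗ[K] LinearMap.ker e') (hψ : ∀ v : LinearMap.ker e, (ψ v : V) = (v : V) - e' (v : V))
    (x : LinearMap.ker e ≃ₗ[K] LinearMap.ker e)
    (hx : x ∈ sq (torGL (restr A (LinearMap.ker e))) ⊔
      sq (torGL (pull ψ (restr A' (LinearMap.ker e'))))) :
    ∃ y ∈ sq (torGL A) ⊔ sq (torGL A'), (∀ w ∈ LinearMap.range e, y w = w) ∧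
      ∀ v : LinearMap.ker e, y (v : V) - (x v : V) ∈ LinearMap.range e := by
  set G : Subgroup (V ≃ₗ[K] V) := sq (torGL A) ⊔ sq (torGL A') with hG
  -- the relation between `x` and `y`
  let R : (LinearMap.ker e ≃ₗ[K] LinearMap.ker e) → (V ≃ₗ[K] V) → Prop := fun x y =>
    (∀ w ∈ LinearMap.range e, y w = w) ∧
      ∀ v : LinearMap.ker e, y (v : V) - (x v : V) ∈ LinearMap.range e
  have hRmul : ∀ x y x' y', R x y → R x' y' → R (x * x') (y * y') := by
    rintro x y x' y' ⟨h1, h2⟩ ⟨h1', h2'⟩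
    refine ⟨fun w hw => ?_, fun v => ?_⟩
    · rw [LinearEquiv.mul_apply, h1' w hw, h1 w hw]
    · rw [LinearEquiv.mul_apply, LinearEquiv.mul_apply]
      have h3 : y (y' (v : V)) - (x (x' v) : V) =
          y (y' (v : V) - (x' v : V)) + (y (x' v : V) - (x (x' v) : V)) := by
        rw [map_sub]; abel
      rw [h3, h1 _ (h2' v)]
      exact Submodule.add_mem _ (h2' v) (h2 _)
  have hRinv : ∀ x y, R x y → R x⁻¹ y⁻¹ := by
    rintro x y ⟨h1, h2⟩
    have hy : ∀ v, y⁻¹ (y v) = v := fun v => LinearEquiv.symm_apply_apply y v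
    have hx : ∀ v, x (x⁻¹ v) = v := fun v => LinearEquiv.apply_symm_apply x v
    have h1' : ∀ w ∈ LinearMap.range e, y⁻¹ w = w := by
      intro w hw
      conv_lhs => rw [← h1 w hw]
      exact hy w
    refine ⟨h1', fun v => ?_⟩
    have h3 := h2 (x⁻¹ v)
    rw [hx] at h3
    have h4 := h1' _ h3
    rw [map_sub, hy] at h4
    have h5 : y⁻¹ (v : V) - ((x⁻¹ v : LinearMap.ker e) : V) =
        -(y ((x⁻¹ v : LinearMap.ker e) : V) - (v : V)) := by
      rw [← h4]; abel
    rw [h5]
    exact Submodule.neg_mem _ h3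
  let L : Subgroup (LinearMap.ker e ≃ₗ[K] LinearMap.ker e) :=
    { carrier := {x | ∃ y ∈ G, R x y}
      mul_mem' := by
        rintro a b ⟨y, hy, hya⟩ ⟨z, hz, hzb⟩
        exact ⟨y * z, mul_mem hy hz, hRmul _ _ _ _ hya hzb⟩
      one_mem' := ⟨1, one_mem _, fun _ _ => rfl, fun v => by
        show (v : V) - (v : V) ∈ _
        rw [sub_self]
        exact Submodule.zero_mem _⟩
      inv_mem' := by
        rintro a ⟨y, hy, hya⟩
        exact ⟨y⁻¹, inv_mem hy, hRinv _ _ hya⟩ }
  have hle : sq (torGL (restr A (LinearMap.ker e))) ⊔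
      sq (torGL (pull ψ (restr A' (LinearMap.ker e')))) ≤ L := by
    refine sup_le ?_ ?_
    · rw [sq, Subgroup.closure_le]
      rintro _ ⟨t, ht, rfl⟩
      obtain ⟨t', ht', ha, hb⟩ := P2_lift A hA e he hee t ht
      have hR : R t t' := ⟨hb, fun v => by
        rw [ha, sub_self]
        exact Submodule.zero_mem _⟩
      exact ⟨t' * t', Subgroup.mem_sup_left (Subgroup.subset_closure ⟨t', ht', rfl⟩),
        hRmul _ _ _ _ hR hR⟩
    · rw [sq, Subgroup.closure_le]
      rintro _ ⟨t, ht, rfl⟩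
      -- transport to `ker e'`
      set s : LinearMap.ker e' ≃ₗ[K] LinearMap.ker e' := (ψ.symm.trans t).trans ψ with hs
      have hst : s ∈ torGL (restr A' (LinearMap.ker e')) := by
        refine ⟨?_, ?_⟩
        · exact ht.1
        · exact ht.2
      obtain ⟨t', ht', ha, hb⟩ := P2_lift A' hA' e' he' hee' s hst
      have hR : R t t' := by
        refine ⟨fun w hw => hb w (hr ▸ hw), fun v => ?_⟩
        have h1 : (v : V) = (ψ v : V) + e' (v : V) := by rw [hψ]; abel
        have h2 : t' (e' (v : V)) = e' (v : V) := hb _ ⟨_, rfl⟩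
        have h3 : t' (ψ v : V) = (ψ (t v) : V) := by
          rw [ha, hs]
          simp
        have h4 : t' (v : V) - (t v : V) = e' (v : V) - e' (t v : V) := by
          conv_lhs => rw [h1]
          rw [map_add, h2, h3, hψ]
          abel
        rw [h4, hr]
        exact Submodule.sub_mem _ ⟨_, rfl⟩ ⟨_, rfl⟩
      exact ⟨t' * t', Subgroup.mem_sup_right (Subgroup.subset_closure ⟨t', ht', rfl⟩),
        hRmul _ _ _ _ hR hR⟩
  obtain ⟨y, hy, h1, h2⟩ := hle hx
  exact ⟨y, hy, h1, h2⟩

end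

end Pool.Agent.CTO
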