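import Pool.Agent.CTO.Base

/-!
# S3: conjugacy of complements (Schur-Zassenhaus)

`Q` is a `p`-subgroup of the finite group `G`, normalized by the subgroups `T` and `T'`, whose orders are
prime to `p`; `T` is commutative; `T Q = T' Q`. Then `T` and `T'` are conjugate by an element of
`⟨T, T'⟩`.
Proof. Let `L = T ⊔ T'` and `Q1 = Q ⊓ L`, normalized by `L`. `T ≤ T' Q` and `T ≤ L` give `T ≤ T' Q1`, etc.
So we may replace `Q` by `Q1` and `G` by `L = T Q1 = T' Q1`. Induction on `|Q1|`. If `Q1 = 1` then `T = T'`.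
Otherwise the centre `M` of `Q1` is nontrivial (`IsPGroup.center_nontrivial`), and normal in `L`. In
`L / M` the images of `T` and `T'` are conjugate by induction, so after conjugating `T'` by an element of
`L` (which does not change `⟨T, T'^x⟩ ≤ L`) we have `T M = T' M`, `M` abelian of order prime to `|T|`:
for `t ∈ T` there is a unique `c(t) ∈ M` with `c(t) t ∈ T'`, and `c(s t) = c(s) · s c(t) s⁻¹`. Let
`n = |T|` and `m = ∏_{t ∈ T} c(t) ∈ M`; then `m = c(s)^n · s m s⁻¹` for all `s ∈ T`. Let `r` be the inverse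
of `n` modulo the exponent of `M`, `m' = m ^ r`: `m' = c(s) · s m' s⁻¹`, i.e. `c(s) s = m' s m'⁻¹`. So
`T' = m' T m'⁻¹` with `m' ∈ M ≤ L`.
(Alternative: Mathlib's `Subgroup.exists_smul_eq` in `Mathlib/GroupTheory/SchurZassenhaus.lean` for the
abelian case.)
-/

namespace Pool.Agent.CTO

theorem S3_ab {G : Type} [Group G] [Finite G] (p : ℕ) [Fact p.Prime] (M T T' : Subgroup G)
    [M.Normal] (hM : IsPGroup p M) (hMc : ∀ a ∈ M, ∀ b ∈ M, a * b = b * a)
    (hT : ¬ p ∣ Nat.card T) (hT' : ¬ p ∣ Nat.card T')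
    (h : ∀ t ∈ T, ∃ t' ∈ T', t⁻¹ * t' ∈ M) (h' : ∀ t' ∈ T', ∃ t ∈ T, t⁻¹ * t' ∈ M) :
    ∃ x : G, ∀ y, y ∈ T' ↔ ∃ t ∈ T, x * t * x⁻¹ = y := by
  classical
  have hp : p.Prime := Fact.out
  -- the intersection is trivial
  have htriv : ∀ z ∈ M, z ∈ T' → z = 1 := by
    intro z hz hz'
    obtain ⟨k, hk⟩ := hM ⟨z, hz⟩
    have hk' : z ^ p ^ k = 1 := congrArg Subtype.val hk
    have h1 : orderOf z ∣ p ^ k := orderOf_dvd_of_pow_eq_one hk'
    have h2 : orderOf z ∣ Nat.card T' := by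
      have h3 := orderOf_dvd_natCard (⟨z, hz'⟩ : T')
      rwa [Subgroup.orderOf_mk] at h3
    have h3 : Nat.Coprime (p ^ k) (Nat.card T') :=
      Nat.Coprime.pow_left _ ((Nat.Prime.coprime_iff_not_dvd hp).2 hT')
    have h4 : orderOf z = 1 := Nat.eq_one_of_dvd_coprimes h3 h1 h2
    exact orderOf_eq_one_iff.1 h4
  have huniq : ∀ (c c' : G), c ∈ M → c' ∈ M → ∀ t, c * t ∈ T' → c' * t ∈ T' → c = c' := by
    intro c c' hc hc' t h1 h2
    have h3 : c * c'⁻¹ ∈ T' := by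
      have h4 := T'.mul_mem h1 (T'.inv_mem h2)
      rw [mul_inv_rev] at h4
      have e : c * t * (t⁻¹ * c'⁻¹) = c * c'⁻¹ := by group
      rwa [e] at h4
    have h5 := htriv _ (M.mul_mem hc (M.inv_mem hc')) h3
    exact mul_inv_eq_one.1 h5
  have hex : ∀ t : T, ∃ c : M, (c : G) * t ∈ T' := by
    intro t
    obtain ⟨t', ht', hM'⟩ := h t.1 t.2
    refine ⟨⟨t' * (t : G)⁻¹, ?_⟩, ?_⟩
    · have h1 := Subgroup.Normal.conj_mem (inferInstance : M.Normal) _ hM' (t : G)
      have e : (t : G) * ((t : G)⁻¹ * t') * (t : G)⁻¹ = t' * (t : G)⁻¹ := by group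
      rwa [e] at h1
    · simpa using ht'
  choose c hc using hex
  let : CommGroup M := { (inferInstance : Group M) with
    mul_comm := fun a b => Subtype.ext (hMc a a.2 b b.2) }
  have : Fintype T := Fintype.ofFinite T
  let m : M := ∏ t : T, c t
  have hcmul : ∀ s t : T, c (s * t) = c s * MulAut.conjNormal (s : G) (c t) := by
    intro s t
    apply Subtype.ext
    apply huniq _ _ (c (s * t)).2 (M.mul_mem (c s).2 (MulAut.conjNormal (s : G) (c t)).2)
      ((s : G) * t)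
    · exact hc (s * t)
    · show (c s : G) * (MulAut.conjNormal (s : G) (c t) : M) * ((s : G) * t) ∈ T'
      rw [MulAut.conjNormal_apply]
      have h1 := T'.mul_mem (hc s) (hc t)
      have e : (c s : G) * ((s : G) * (c t : G) * (s : G)⁻¹) * ((s : G) * (t : G)) =
        (c s : G) * s * ((c t : G) * t) := by group
      rw [e]; exact h1
  have hm : ∀ s : T, m = c s ^ Nat.card T * MulAut.conjNormal (s : G) m := by
    intro s
    have e1 : m = ∏ t : T, c (s * t) := by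
      show ∏ t : T, c t = ∏ t : T, c (s * t)
      exact (Fintype.prod_equiv (Equiv.mulLeft s) (fun t => c (s * t)) c (fun t => rfl)).symm
    calc m = ∏ t : T, c (s * t) := e1
      _ = ∏ t : T, (c s * MulAut.conjNormal (s : G) (c t)) :=
        Finset.prod_congr rfl (fun t _ => hcmul s t)
      _ = c s ^ Nat.card T * MulAut.conjNormal (s : G) m := by
        rw [Finset.prod_mul_distrib, Finset.prod_const, Finset.card_univ,
          ← Nat.card_eq_fintype_card, map_prod]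
  have hcop : Nat.Coprime (Nat.card T) (Nat.card M) := by
    obtain ⟨k, hk⟩ := IsPGroup.iff_card.1 hM
    rw [hk]
    exact Nat.Coprime.pow_right _ (((Nat.Prime.coprime_iff_not_dvd hp).2 hT).symm)
  let a : ℤ := Nat.gcdA (Nat.card T) (Nat.card M)
  have ha : ∀ x : M, (x ^ Nat.card T) ^ a = x := by
    intro x
    have h1 := Nat.gcd_eq_gcd_ab (Nat.card T) (Nat.card M)
    rw [hcop.gcd_eq_one] at h1
    have h2 : x ^ (Nat.card M) = 1 := pow_card_eq_one'
    calc (x ^ Nat.card T) ^ a = x ^ ((Nat.card T : ℤ) * a) := by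
          rw [zpow_mul, zpow_natCast]
      _ = x ^ ((Nat.card T : ℤ) * a) * (x ^ (Nat.card M)) ^ (Nat.gcdB (Nat.card T) (Nat.card M)) := by
          rw [h2, one_zpow, mul_one]
      _ = x ^ ((Nat.card T : ℤ) * a + (Nat.card M : ℤ) * Nat.gcdB (Nat.card T) (Nat.card M)) := by
          rw [zpow_add, zpow_mul x (Nat.card M : ℤ), zpow_natCast]
      _ = x ^ ((1 : ℕ) : ℤ) := by rw [h1]
      _ = x := by simp
  let m' : M := m ^ a
  have hm' : ∀ s : T, m' = c s * MulAut.conjNormal (s : G) m' := by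
    intro s
    calc m' = (c s ^ Nat.card T * MulAut.conjNormal (s : G) m) ^ a := by
          rw [← hm s]
      _ = (c s ^ Nat.card T) ^ a * (MulAut.conjNormal (s : G) m) ^ a := mul_zpow _ _ _
      _ = c s * MulAut.conjNormal (s : G) m' := by rw [ha, map_zpow]
  have hkey : ∀ s : T, (m' : G) * s * (m' : G)⁻¹ = (c s : G) * s := by
    intro s
    have h1 : (m' : G) = (c s : G) * ((s : G) * (m' : G) * (s : G)⁻¹) := by
      have h2 := congrArg Subtype.val (hm' s)
      rw [Subgroup.coe_mul, MulAut.conjNormal_apply] at h2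
      exact h2
    have h3 : (c s : G) = (m' : G) * ((s : G) * (m' : G) * (s : G)⁻¹)⁻¹ :=
      eq_mul_inv_of_mul_eq h1.symm
    rw [h3]
    group
  refine ⟨(m' : G), fun y => ⟨fun hy => ?_, ?_⟩⟩
  · obtain ⟨t, ht, hty⟩ := h' y hy
    refine ⟨t, ht, ?_⟩
    rw [hkey ⟨t, ht⟩]
    have h1 : y * t⁻¹ ∈ M := by
      have h2 := Subgroup.Normal.conj_mem (inferInstance : M.Normal) _ hty t
      have e : t * (t⁻¹ * y) * t⁻¹ = y * t⁻¹ := by group
      rwa [e] at h2
    have h3 := huniq (c ⟨t, ht⟩) (y * t⁻¹) (c ⟨t, ht⟩).2 h1 t (hc ⟨t, ht⟩) (by simpa using hy)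
    rw [h3]
    simp
  · rintro ⟨t, ht, rfl⟩
    rw [hkey ⟨t, ht⟩]
    exact hc ⟨t, ht⟩

theorem S3_norm (p : ℕ) [Fact p.Prime] : ∀ (n : ℕ) (G : Type) [Group G] [Finite G]
    (Q T T' : Subgroup G) [Q.Normal], Nat.card Q ≤ n → IsPGroup p Q →
    ¬ p ∣ Nat.card T → ¬ p ∣ Nat.card T' →
    (∀ t ∈ T, ∃ t' ∈ T', t⁻¹ * t' ∈ Q) → (∀ t' ∈ T', ∃ t ∈ T, t⁻¹ * t' ∈ Q) →
    ∃ x : G, ∀ y, y ∈ T' ↔ ∃ t ∈ T, x * t * x⁻¹ = y := by
  intro n
  induction n with
  | zero =>
    intro G _ _ Q T T' _ hn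
    have : 0 < Nat.card Q := Nat.card_pos
    omega
  | succ n ih =>
    intro G _ _ Q T T' _ hn hQ hT hT' h h'
    rcases subsingleton_or_nontrivial Q with hs | hs
    · refine ⟨1, fun y => ⟨fun hy => ?_, ?_⟩⟩
      · obtain ⟨t, ht, hty⟩ := h' y hy
        have h1 : (⟨_, hty⟩ : Q) = 1 := Subsingleton.elim _ _
        have h2 : t⁻¹ * y = 1 := congrArg Subtype.val h1
        have h3 : t = y := inv_mul_eq_one.1 h2
        exact ⟨t, ht, by rw [h3]; simp⟩
      · rintro ⟨t, ht, rfl⟩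
        obtain ⟨t', ht', hty⟩ := h t ht
        have h1 : (⟨_, hty⟩ : Q) = 1 := Subsingleton.elim _ _
        have h2 : t⁻¹ * t' = 1 := congrArg Subtype.val h1
        have h3 : t = t' := inv_mul_eq_one.1 h2
        rw [h3]; simpa using ht'
    · let Z : Subgroup G := (Subgroup.center Q).map Q.subtype
      have hZn : Z.Normal := ConjAct.normal_of_characteristic_of_normal
      have hZQ : Z ≤ Q := by
        rintro z ⟨w, -, rfl⟩
        exact w.2
      have hZp : IsPGroup p Z := hQ.to_le hZQ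
      have hZc : ∀ a ∈ Z, ∀ b ∈ Z, a * b = b * a := by
        rintro a ⟨a', ha', rfl⟩ b ⟨b', -, rfl⟩
        have := Subgroup.mem_center_iff.1 ha' b'
        exact (congrArg Subtype.val this).symm
      have hZnt : Nontrivial Z := by
        have h1 : Nontrivial (Subgroup.center Q) := hQ.center_nontrivial
        obtain ⟨z, hz⟩ := exists_ne (1 : Subgroup.center Q)
        refine ⟨⟨⟨(z.1 : G), ⟨z.1, z.2, rfl⟩⟩, 1, ?_⟩⟩
        intro h1
        apply hz
        apply Subtype.ext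
        apply Subtype.ext
        exact congrArg (fun w : Z => (w : G)) h1
      let π : G →* G ⧸ Z := QuotientGroup.mk' Z
      have hπs : Function.Surjective π := QuotientGroup.mk'_surjective Z
      have hQn : (Q.map π).Normal := Subgroup.Normal.map inferInstance π hπs
      have hcard : Nat.card (Q.map π) ≤ n := by
        by_contra hlt
        have hle : Nat.card Q ≤ Nat.card (Q.map π) := by omega
        let F : Q → Q.map π := fun q => ⟨π q, ⟨q, q.2, rfl⟩⟩
        have hF : Function.Surjective F := by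
          rintro ⟨_, ⟨q, hq, rfl⟩⟩
          exact ⟨⟨q, hq⟩, rfl⟩
        have hbij := hF.bijective_of_nat_card_le hle
        obtain ⟨z, hz⟩ := exists_ne (1 : Z)
        have h1 : F ⟨z.1, hZQ z.2⟩ = F 1 := by
          apply Subtype.ext
          show π z.1 = π 1
          rw [map_one]
          exact (QuotientGroup.eq_one_iff z.1).2 z.2
        have h2 := hbij.1 h1
        apply hz
        apply Subtype.ext
        exact congrArg (fun w : Q => (w : G)) h2
      have hTc : ∀ S : Subgroup G, ¬ p ∣ Nat.card S → ¬ p ∣ Nat.card (S.map π) := by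
        intro S hS hdvd
        exact hS (hdvd.trans (Subgroup.card_map_dvd S π))
      obtain ⟨xb, hxb⟩ := ih (G ⧸ Z) (Q.map π) (T.map π) (T'.map π) hcard (hQ.map π)
        (hTc T hT) (hTc T' hT') (by
          rintro _ ⟨t, ht, rfl⟩
          obtain ⟨t', ht', hq⟩ := h t ht
          refine ⟨π t', ⟨t', ht', rfl⟩, ⟨_, hq, ?_⟩⟩
          rw [map_mul, map_inv]) (by
          rintro _ ⟨t', ht', rfl⟩
          obtain ⟨t, ht, hq⟩ := h' t' ht'
          refine ⟨π t, ⟨t, ht, rfl⟩, ⟨_, hq, ?_⟩⟩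
          rw [map_mul, map_inv])
      obtain ⟨x, rfl⟩ := hπs xb
      let T1 : Subgroup G := T.map (MulAut.conj x).toMonoidHom
      have hT1m : ∀ y, y ∈ T1 ↔ ∃ t ∈ T, x * t * x⁻¹ = y := by
        intro y
        constructor
        · rintro ⟨t, ht, rfl⟩
          exact ⟨t, ht, rfl⟩
        · rintro ⟨t, ht, rfl⟩
          exact ⟨t, ht, rfl⟩
      have hT1 : ¬ p ∣ Nat.card T1 := fun hd => hT (hd.trans (Subgroup.card_map_dvd T _))
      obtain ⟨y, hy⟩ := S3_ab p Z T1 T' hZp hZc hT1 hT' (by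
          intro t1 ht1
          obtain ⟨t, ht, rfl⟩ := (hT1m t1).1 ht1
          obtain ⟨t', ht', htt⟩ := (hxb (π (x * t * x⁻¹))).2
            ⟨π t, ⟨t, ht, rfl⟩, by rw [map_mul, map_mul, map_inv]⟩
          refine ⟨t', ht', ?_⟩
          exact QuotientGroup.eq.1 htt.symm) (by
          intro t' ht'
          obtain ⟨_, ⟨t, ht, rfl⟩, htt⟩ := (hxb (π t')).1 ⟨t', ht', rfl⟩
          refine ⟨x * t * x⁻¹, (hT1m _).2 ⟨t, ht, rfl⟩, ?_⟩
          rw [← map_inv, ← map_mul, ← map_mul] at htt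
          exact QuotientGroup.eq.1 htt)
      refine ⟨y * x, fun z => ?_⟩
      rw [hy z]
      constructor
      · rintro ⟨t1, ht1, rfl⟩
        obtain ⟨t, ht, rfl⟩ := (hT1m t1).1 ht1
        exact ⟨t, ht, by group⟩
      · rintro ⟨t, ht, rfl⟩
        exact ⟨x * t * x⁻¹, (hT1m _).2 ⟨t, ht, rfl⟩, by group⟩

theorem conj_complements {G : Type} [Group G] [Finite G] (p : ℕ) [Fact p.Prime]
    (Q T T' : Subgroup G) (hQ : IsPGroup p Q) (hTQ : ∀ t ∈ T, ∀ x ∈ Q, t * x * t⁻¹ ∈ Q)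
    (hTQ' : ∀ t ∈ T', ∀ x ∈ Q, t * x * t⁻¹ ∈ Q) (hcomm : ∀ s ∈ T, ∀ t ∈ T, s * t = t * s)
    (hT : ¬ p ∣ Nat.card T) (hT' : ¬ p ∣ Nat.card T')
    (h : ∀ t ∈ T, ∃ t' ∈ T', t⁻¹ * t' ∈ Q) (h' : ∀ t' ∈ T', ∃ t ∈ T, t⁻¹ * t' ∈ Q) :
    ∃ x ∈ T ⊔ T', T.map (MulAut.conj x).toMonoidHom = T' := by
  let L : Subgroup G := T ⊔ T'
  have hnorm : ∀ S : Subgroup G, (∀ t ∈ S, ∀ x ∈ Q, t * x * t⁻¹ ∈ Q) → S ≤ Subgroup.normalizer (Q : Set G) := by
    intro S hS t ht
    rw [Subgroup.mem_normalizer_iff]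
    intro q
    refine ⟨fun hq => hS t ht q hq, fun hq => ?_⟩
    have h1 := hS t⁻¹ (S.inv_mem ht) _ hq
    have e : t⁻¹ * (t * q * t⁻¹) * t⁻¹⁻¹ = q := by group
    rwa [e] at h1
  have hLn : L ≤ Subgroup.normalizer (Q : Set G) := sup_le (hnorm T hTQ) (hnorm T' hTQ')
  have : (Q.subgroupOf L).Normal := by
    refine ⟨fun q hq g => ?_⟩
    rw [Subgroup.mem_subgroupOf] at hq ⊢
    exact (Subgroup.mem_normalizer_iff.1 (hLn g.2) _).1 hq
  have hTL : T ≤ L := le_sup_left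
  have hTL' : T' ≤ L := le_sup_right
  have hcT : Nat.card (T.subgroupOf L) = Nat.card T :=
    Nat.card_congr (Subgroup.subgroupOfEquivOfLe hTL).toEquiv
  have hcT' : Nat.card (T'.subgroupOf L) = Nat.card T' :=
    Nat.card_congr (Subgroup.subgroupOfEquivOfLe hTL').toEquiv
  have hQL : IsPGroup p (Q.subgroupOf L) := hQ.comap_subtype
  obtain ⟨x, hx⟩ := S3_norm p _ L (Q.subgroupOf L) (T.subgroupOf L) (T'.subgroupOf L) le_rfl hQL
    (by rw [hcT]; exact hT) (by rw [hcT']; exact hT') (by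
      intro t ht
      rw [Subgroup.mem_subgroupOf] at ht
      obtain ⟨t', ht', hq⟩ := h t.1 ht
      exact ⟨⟨t', hTL' ht'⟩, ht', hq⟩) (by
      intro t' ht'
      rw [Subgroup.mem_subgroupOf] at ht'
      obtain ⟨t, ht, hq⟩ := h' t'.1 ht'
      exact ⟨⟨t, hTL ht⟩, ht, hq⟩)
  refine ⟨x.1, x.2, ?_⟩
  ext y
  constructor
  · rintro ⟨t, ht, rfl⟩
    have h1 := (hx (x * ⟨t, hTL ht⟩ * x⁻¹)).2 ⟨⟨t, hTL ht⟩, ht, rfl⟩
    exact h1
  · intro hy
    obtain ⟨t, ht, hty⟩ := (hx ⟨y, hTL' hy⟩).1 hy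
    refine ⟨t.1, ht, ?_⟩
    exact congrArg Subtype.val hty

end Pool.Agent.CTO
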