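import Pool.Agent.CTO.P0
import Pool.Agent.CTO.S3

/-!
# P3: comparison of two torus algebras which agree on the quotients of a flag

`U ≤ U1 ≤ V` are stable under `A` and `A'`. `NilF U U1 x` means `x U = 0`, `x U1 ≤ U`, `x V ≤ U1`; then `x³ = 0`.
Let `p = char K`, `Q = {x ∈ GL(V) | NilF U U1 (x - 1)}` (a subgroup: if `x`, `y` are in `Q` then
`x y - 1 = x (y - 1) + (x - 1)`, and elements of `Q` preserve `U`, `U1`; inverses: finite order). `Q` is a
`p`-group: `(x - 1)^(p^2) = 0` so `x^(p^2) = 1` (`p^2 ≥ 3`; `add_pow_char_pow`). `Q` is normalized by every `g` preserving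
`U` and `U1`. `torGL A` is commutative and its order is prime to `p`: an element `t ∈ A` with `t^p = 1` has
`(t - 1)^p = 0`, so `t = 1` (`A` is reduced: `a^n = 0 → a = 0`); use Cauchy's theorem.
* `compareGL`: for `t ∈ torGL A` take `a' ∈ A'` with `NilF (t - a')`; `a'` is invertible (`t⁻¹ a' = 1 - t⁻¹(t - a')`
  is unipotent), so it gives `t' ∈ torGL A'`, with `t⁻¹ t' ∈ Q`. For products of squares: the set of
  `t ∈ torGL A` for which there is `t' ∈ sq (torGL A')` with `t⁻¹ t' ∈ Q` is a subgroup containing the squares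
  (`Q` is normalized by everything). So `conj_complements` applies to `sq (torGL A)`, `sq (torGL A')`:
  there is `x ∈ sq (torGL A) ⊔ sq (torGL A')` with `x (sq (torGL A)) x⁻¹ = sq (torGL A')`. As
  `A ≤ adjoin (EndSet (sq (torGL A)))`, `x A x⁻¹ ≤ adjoin (EndSet (sq (torGL A'))) ≤ A'`.
* `compareF`: `U1 = U^⊥`. For `t ∈ tor f A` take `a' ∈ A'` with `NilF (t - a')`. Claim: `a'` is an isometry with
  determinant one. Let `a'*` be its adjoint. `NilF U U1` is stable under adjoints (`U1 = U^⊥`: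
  `x* U = 0` iff `x V ≤ U^⊥`; `x* U^⊥ ≤ U` iff `f(x* v, u) = f(v, x u)`.. compute, using `U^⊥⊥ = U`), so
  `NilF (t* - a'*)`, hence `NilF (t* t - a'* a')`, i.e. `1 - a'* a' ∈ A'` is nilpotent, so it is `0`. The
  determinant of `t⁻¹ a' ∈ Q` is `1` (unipotent). The rest is the same.
-/

namespace Pool.Agent.CTO

open Module

section

variable {K V : Type} [Field K] [Finite K] [AddCommGroup V] [Module K V] [FiniteDimensional K V]

/-- `x` maps `V` to `U1`, `U1` to `U` and `U` to `0`. -/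
def NilF (U U1 : Submodule K V) (x : Module.End K V) : Prop :=
  (∀ u ∈ U, x u = 0) ∧ (∀ u ∈ U1, x u ∈ U) ∧ ∀ v, x v ∈ U1


omit [Finite K] [FiniteDimensional K V] in
theorem P3_cube {U U1 : Submodule K V} {x : Module.End K V} (h : NilF U U1 x) : x ^ 3 = 0 := by
  ext v
  have : (x ^ 3) v = x (x (x v)) := rfl
  rw [this, h.1 _ (h.2.1 _ (h.2.2 v))]
  rfl

omit [Finite K] [FiniteDimensional K V] in
theorem P3_neg {U U1 : Submodule K V} {x : Module.End K V} (h : NilF U U1 x) :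
    NilF U U1 (-x) :=
  ⟨fun u hu => by rw [LinearMap.neg_apply, h.1 u hu, neg_zero],
    fun u hu => U.neg_mem (h.2.1 u hu), fun v => U1.neg_mem (h.2.2 v)⟩

omit [Finite K] [FiniteDimensional K V] in
theorem P3_mul {U U1 : Submodule K V} {x y : Module.End K V} (h : NilF U U1 x)
    (h1 : ∀ u ∈ U, y u ∈ U) (h2 : ∀ u ∈ U1, y u ∈ U1) :
    NilF U U1 (y * x) :=
  ⟨fun u hu => by rw [Module.End.mul_apply, h.1 u hu, map_zero],
    fun u hu => h1 _ (h.2.1 u hu), fun v => h2 _ (h.2.2 v)⟩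

omit [Finite K] [FiniteDimensional K V] in
theorem P3_mul' {U U1 : Submodule K V} {x y : Module.End K V} (h : NilF U U1 x)
    (h1 : ∀ u ∈ U, y u ∈ U) (h2 : ∀ u ∈ U1, y u ∈ U1) :
    NilF U U1 (x * y) :=
  ⟨fun u hu => by rw [Module.End.mul_apply, h.1 _ (h1 u hu)],
    fun u hu => h.2.1 _ (h2 u hu), fun v => h.2.2 _⟩

omit [Finite K] [FiniteDimensional K V] in
theorem P3_add {U U1 : Submodule K V} {x y : Module.End K V} (h : NilF U U1 x)
    (h' : NilF U U1 y) : NilF U U1 (x + y) :=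
  ⟨fun u hu => by rw [LinearMap.add_apply, h.1 u hu, h'.1 u hu, add_zero],
    fun u hu => U.add_mem (h.2.1 u hu) (h'.2.1 u hu), fun v => U1.add_mem (h.2.2 v) (h'.2.2 v)⟩

/-- the unipotent group of the flag -/
def P3_Q (U U1 : Submodule K V) (hUU : U ≤ U1) : Subgroup (V ≃ₗ[K] V) where
  carrier := {x | NilF U U1 (x.toLinearMap - 1)}
  mul_mem' := by
    rintro x y hx hy
    have e : (x * y).toLinearMap - 1 =
        (x.toLinearMap * (y.toLinearMap - 1)) + (x.toLinearMap - 1) := by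
      rw [mul_sub, mul_one]
      have : (x * y).toLinearMap = x.toLinearMap * y.toLinearMap := rfl
      rw [this]
      abel
    show NilF U U1 ((x * y).toLinearMap - 1)
    rw [e]
    refine P3_add (P3_mul hy ?_ ?_) hx
    · intro u hu
      have h1 := hx.1 u hu
      rw [LinearMap.sub_apply, sub_eq_zero] at h1
      rw [h1]
      exact hu
    · intro u hu
      have h1 := hx.2.1 u hu
      rw [LinearMap.sub_apply] at h1
      have h2 := U1.add_mem (hUU h1) hu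
      simpa using h2
  one_mem' := by
    show NilF U U1 ((1 : V ≃ₗ[K] V).toLinearMap - 1)
    have : (1 : V ≃ₗ[K] V).toLinearMap - 1 = 0 := by
      ext v
      simp
    rw [this]
    exact ⟨fun _ _ => rfl, fun _ _ => U.zero_mem, fun _ => U1.zero_mem⟩
  inv_mem' := by
    rintro x hx
    show NilF U U1 ((x⁻¹).toLinearMap - 1)
    have e1 : ∀ v, x (x⁻¹ v) = v := fun v => LinearEquiv.apply_symm_apply x v
    have e2 : ∀ v, ((x⁻¹).toLinearMap - 1) v = - ((x.toLinearMap - 1) (x⁻¹ v)) := by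
      intro v
      rw [LinearMap.sub_apply, LinearMap.sub_apply]
      show x⁻¹ v - v = -(x (x⁻¹ v) - x⁻¹ v)
      rw [e1]
      abel
    have e3 : ∀ u ∈ U1, x⁻¹ u ∈ U1 := by
      intro u hu
      have h1 := hx.2.2 (x⁻¹ u)
      have h2 : x⁻¹ u = u - (x.toLinearMap - 1) (x⁻¹ u) := by
        rw [LinearMap.sub_apply]
        show x⁻¹ u = u - (x (x⁻¹ u) - x⁻¹ u)
        rw [e1]
        abel
      rw [h2]
      exact U1.sub_mem hu h1
    have e4 : ∀ u ∈ U, x⁻¹ u = u := by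
      intro u hu
      have h1 := hx.1 u hu
      rw [LinearMap.sub_apply, sub_eq_zero] at h1
      have h2 : x u = u := h1
      have h3 : x⁻¹ (x u) = u := LinearEquiv.symm_apply_apply x u
      rw [h2] at h3
      exact h3
    refine ⟨?_, ?_, ?_⟩
    · intro u hu
      rw [e2, e4 u hu, hx.1 u hu, neg_zero]
    · intro u hu
      rw [e2]
      exact U.neg_mem (hx.2.1 _ (e3 u hu))
    · intro v
      rw [e2]
      exact U1.neg_mem (hx.2.2 _)

omit [Finite K] [FiniteDimensional K V] in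
theorem P3_mem_Q {U U1 : Submodule K V} {hUU : U ≤ U1} {x : V ≃ₗ[K] V} :
    x ∈ P3_Q U U1 hUU ↔ NilF U U1 (x.toLinearMap - 1) := Iff.rfl

omit [Finite K] [FiniteDimensional K V] in
theorem P3_Q_conj {U U1 : Submodule K V} {hUU : U ≤ U1} {x t : V ≃ₗ[K] V}
    (hx : x ∈ P3_Q U U1 hUU) (h1 : ∀ u ∈ U, t u ∈ U) (h2 : ∀ u ∈ U1, t u ∈ U1)
    (h3 : ∀ u ∈ U, t⁻¹ u ∈ U) (h4 : ∀ u ∈ U1, t⁻¹ u ∈ U1) : t * x * t⁻¹ ∈ P3_Q U U1 hUU := by
  rw [P3_mem_Q] at hx ⊢
  have e : (t * x * t⁻¹).toLinearMap - 1 =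
      t.toLinearMap * ((x.toLinearMap - 1) * (t⁻¹).toLinearMap) := by
    ext v
    have h : t (t⁻¹ v) = v := LinearEquiv.apply_symm_apply t v
    show t (x (t⁻¹ v)) - v = t (x (t⁻¹ v) - t⁻¹ v)
    rw [map_sub, h]
  rw [e]
  exact P3_mul (P3_mul' hx h3 h4) h1 h2

omit [Finite K] [FiniteDimensional K V] in
theorem P3_pow_zero {A : Subalgebra K (Module.End K V)} (hA : IsTorGL A) (a : Module.End K V)
    (ha : a ∈ A) (n : ℕ) (h : a ^ n = 0) : a = 0 := by
  have h1 : ∀ k : ℕ, ∀ b ∈ A, b ^ (2 ^ k) = 0 → b = 0 := by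
    intro k
    induction k with
    | zero =>
      intro b _ hb
      simpa using hb
    | succ k ih =>
      intro b hb h2
      refine ih b hb (hA.red _ (A.pow_mem hb _) ?_)
      rw [← pow_add]
      rw [pow_succ] at h2
      rw [← h2]
      congr 1
      omega
  refine h1 n a ha ?_
  have h2 : n ≤ 2 ^ n := Nat.lt_two_pow_self.le
  obtain ⟨d, hd⟩ := Nat.exists_eq_add_of_le h2
  rw [hd, pow_add, h, zero_mul]

omit [Finite K] [FiniteDimensional K V] in
theorem P3_frob {p : ℕ} [Fact p.Prime] [CharP K p] [Nontrivial V] (x : Module.End K V) (k : ℕ) :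
    (x - 1) ^ (p ^ k) = x ^ (p ^ k) - 1 := by
  have : CharP (Module.End K V) p :=
    charP_of_injective_algebraMap (FaithfulSMul.algebraMap_injective K (Module.End K V)) p
  have := sub_pow_char_pow_of_commute (p := p) (n := k) (x := x) (y := 1) (Commute.one_right x)
  rw [this, one_pow]

omit [FiniteDimensional K V] in
theorem P3_pgroup {p : ℕ} [Fact p.Prime] [CharP K p] (U U1 : Submodule K V) (hUU : U ≤ U1) :
    IsPGroup p (P3_Q U U1 hUU) := by
  rintro ⟨x, hx⟩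
  refine ⟨2, ?_⟩
  apply Subtype.ext
  show x ^ p ^ 2 = 1
  rcases subsingleton_or_nontrivial V with hV | hV
  · ext v
    exact Subsingleton.elim _ _
  · have h3 : (x.toLinearMap - 1) ^ 3 = 0 := P3_cube (P3_mem_Q.1 hx)
    have h4 : (x.toLinearMap - 1) ^ (p ^ 2) = 0 := by
      have : 3 ≤ p ^ 2 := by
        have := (Fact.out : p.Prime).two_le
        nlinarith
      obtain ⟨d, hd⟩ := Nat.exists_eq_add_of_le this
      rw [hd, pow_add, h3, zero_mul]
    rw [P3_frob (p := p), sub_eq_zero] at h4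
    have h5 : (x ^ p ^ 2).toLinearMap = x.toLinearMap ^ p ^ 2 := by
      exact map_pow (LinearEquiv.automorphismGroup.toLinearMapMonoidHom (R := K) (M := V)) x (p ^ 2)
    apply LinearEquiv.toLinearMap_injective
    rw [h5, h4]
    rfl

theorem P3_card {p : ℕ} [Fact p.Prime] [CharP K p] {A : Subalgebra K (Module.End K V)}
    (hA : IsTorGL A) : ¬ p ∣ Nat.card (torGL A) := by
  intro hp
  have : Finite V := Module.finite_of_finite K
  have : Finite (V ≃ₗ[K] V) := DFunLike.finite _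
  obtain ⟨⟨t, ht⟩, ht2⟩ := exists_prime_orderOf_dvd_card' p hp
  have h1 : t ^ p = 1 := by
    have h2 := pow_orderOf_eq_one (⟨t, ht⟩ : torGL A)
    rw [ht2] at h2
    exact congrArg Subtype.val h2
  have h3 : t = 1 := by
    rcases subsingleton_or_nontrivial V with hV | hV
    · ext v
      exact Subsingleton.elim _ _
    · have h5 : (t ^ p).toLinearMap = t.toLinearMap ^ p := by
        exact map_pow (LinearEquiv.automorphismGroup.toLinearMapMonoidHom (R := K) (M := V)) t p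
      have h4 : (t.toLinearMap - 1) ^ (p ^ 1) = 0 := by
        rw [P3_frob (p := p), pow_one, ← h5, h1, sub_eq_zero]
        rfl
      have h6 := P3_pow_zero hA _ (A.sub_mem ht.1 A.one_mem) _ h4
      apply LinearEquiv.toLinearMap_injective
      rw [sub_eq_zero] at h6
      rw [h6]
      rfl
  have h6 : orderOf (⟨t, ht⟩ : torGL A) = 1 := by
    rw [orderOf_eq_one_iff]
    exact Subtype.ext h3
  rw [h6] at ht2
  exact (Fact.out : p.Prime).one_lt.ne ht2

theorem P3_sq_le {G : Type} [Group G] (T : Subgroup G) : sq T ≤ T := by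
  unfold sq
  rw [Subgroup.closure_le]
  rintro _ ⟨t, ht, rfl⟩
  exact T.mul_mem ht ht

/-- transfer from the group to the group generated by the squares -/
theorem P3_sq_transfer {G : Type} [Group G] (Q T T' : Subgroup G)
    (hn : ∀ t ∈ T, ∀ x ∈ Q, t * x * t⁻¹ ∈ Q)
    (h : ∀ t ∈ T, ∃ t' ∈ T', t⁻¹ * t' ∈ Q) : ∀ t ∈ sq T, ∃ t' ∈ sq T', t⁻¹ * t' ∈ Q := by
  have hmul : ∀ s ∈ T, ∀ t ∈ T, ∀ s' t' : G, s⁻¹ * s' ∈ Q → t⁻¹ * t' ∈ Q →
      (s * t)⁻¹ * (s' * t') ∈ Q := by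
    intro s hs t ht s' t' h1 h2
    have h3 := hn t⁻¹ (T.inv_mem ht) _ h1
    have h4 := Q.mul_mem h3 h2
    have e : t⁻¹ * (s⁻¹ * s') * (t⁻¹)⁻¹ * (t⁻¹ * t') = (s * t)⁻¹ * (s' * t') := by group
    rw [e] at h4
    exact h4
  intro t ht
  have key : ∀ t ∈ sq T, t ∈ T ∧ ∃ t' ∈ sq T', t⁻¹ * t' ∈ Q := by
    intro t ht
    unfold sq at ht
    induction ht using Subgroup.closure_induction with
    | mem x hx =>
      obtain ⟨s, hs, rfl⟩ := hx
      refine ⟨T.mul_mem hs hs, ?_⟩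
      obtain ⟨s', hs', hq⟩ := h s hs
      exact ⟨s' * s', Subgroup.subset_closure ⟨s', hs', rfl⟩, hmul s hs s hs s' s' hq hq⟩
    | one => exact ⟨T.one_mem, 1, one_mem _, by simp⟩
    | mul x y hx hy ihx ihy =>
      obtain ⟨hx1, x', hx', hxq⟩ := ihx
      obtain ⟨hy1, y', hy', hyq⟩ := ihy
      exact ⟨T.mul_mem hx1 hy1, x' * y', mul_mem hx' hy', hmul x hx1 y hy1 x' y' hxq hyq⟩
    | inv x hx ihx =>
      obtain ⟨hx1, x', hx', hxq⟩ := ihx
      refine ⟨T.inv_mem hx1, x'⁻¹, inv_mem hx', ?_⟩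
      have h1 := hn x hx1 _ (Q.inv_mem hxq)
      have e : x * (x⁻¹ * x')⁻¹ * x⁻¹ = x⁻¹⁻¹ * x'⁻¹ := by group
      rw [e] at h1
      exact h1
  exact (key t ht).2

theorem P3_finish {A A' : Subalgebra K (Module.End K V)} (hA : IsTorGL A) (hA' : IsTorGL A')
    (T T' : Subgroup (V ≃ₗ[K] V)) (hT : T ≤ torGL A) (hT' : T' ≤ torGL A')
    (hg : A ≤ Algebra.adjoin K (EndSet (sq T)))
    (U U1 : Submodule K V) (hUU : U ≤ U1) (s1 : ∀ a ∈ A, ∀ u ∈ U, a u ∈ U)
    (s2 : ∀ a ∈ A, ∀ u ∈ U1, a u ∈ U1) (s3 : ∀ a ∈ A', ∀ u ∈ U, a u ∈ U)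
    (s4 : ∀ a ∈ A', ∀ u ∈ U1, a u ∈ U1)
    (h : ∀ t ∈ T, ∃ t' ∈ T', t⁻¹ * t' ∈ P3_Q U U1 hUU)
    (h' : ∀ t ∈ T', ∃ t' ∈ T, t⁻¹ * t' ∈ P3_Q U U1 hUU) :
    ∃ x ∈ sq T ⊔ sq T', CarriesTo x A A' := by
  have : Finite V := Module.finite_of_finite K
  have : Finite (V ≃ₗ[K] V) := DFunLike.finite _
  obtain ⟨p, hp⟩ := CharP.exists K
  have hpr : Fact p.Prime := ⟨CharP.char_is_prime K p⟩
  have n1 : ∀ t ∈ T, ∀ x ∈ P3_Q U U1 hUU, t * x * t⁻¹ ∈ P3_Q U U1 hUU := by
    intro t ht x hx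
    have ht2 := hT ht
    exact P3_Q_conj hx (s1 _ ht2.1) (s2 _ ht2.1) (s1 _ ht2.2) (s2 _ ht2.2)
  have n2 : ∀ t ∈ T', ∀ x ∈ P3_Q U U1 hUU, t * x * t⁻¹ ∈ P3_Q U U1 hUU := by
    intro t ht x hx
    have ht2 := hT' ht
    exact P3_Q_conj hx (s3 _ ht2.1) (s4 _ ht2.1) (s3 _ ht2.2) (s4 _ ht2.2)
  have hd : ∀ (B : Subalgebra K (Module.End K V)) (S : Subgroup (V ≃ₗ[K] V)), IsTorGL B →
      S ≤ torGL B → ¬ p ∣ Nat.card (sq S) := by
    intro B S hB hS hh
    exact P3_card (p := p) hB (hh.trans (Subgroup.card_dvd_of_le ((P3_sq_le S).trans hS)))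
  have h1 := P3_sq_transfer (P3_Q U U1 hUU) T T' n1 h
  have h2 := P3_sq_transfer (P3_Q U U1 hUU) T' T n2 h'
  obtain ⟨x, hx, hconj⟩ := conj_complements p (P3_Q U U1 hUU) (sq T) (sq T')
    (P3_pgroup U U1 hUU) (fun t ht => n1 t (P3_sq_le T ht)) (fun t ht => n2 t (P3_sq_le T' ht))
    (by
      intro s hs t ht
      have h3 := (hT (P3_sq_le T hs)).1
      have h4 := (hT (P3_sq_le T ht)).1
      apply LinearEquiv.toLinearMap_injective
      exact hA.comm _ h3 _ h4)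
    (hd A T hA hT) (hd A' T' hA' hT') h1
    (by
      intro t' ht'
      obtain ⟨t, ht, hq⟩ := h2 t' ht'
      refine ⟨t, ht, ?_⟩
      have := (P3_Q U U1 hUU).inv_mem hq
      have e : (t'⁻¹ * t)⁻¹ = t⁻¹ * t' := by group
      rw [e] at this
      exact this)
  refine ⟨x, hx, ?_⟩
  have h3 : Algebra.adjoin K (EndSet (sq T)) ≤ pull x A' := by
    rw [Algebra.adjoin_le_iff]
    rintro _ ⟨t, ht, rfl⟩
    have h4 : x * t * x⁻¹ ∈ sq T' := by
      rw [← hconj]
      exact ⟨t, ht, rfl⟩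
    exact (hT' (P3_sq_le T' h4)).1
  intro a ha
  exact h3 (hg ha)

omit [Finite K] in
theorem P3_unit {U U1 : Submodule K V} {t : V ≃ₗ[K] V}
    (h3 : ∀ u ∈ U, t⁻¹ u ∈ U) (h4 : ∀ u ∈ U1, t⁻¹ u ∈ U1) (hUU : U ≤ U1) {a : Module.End K V}
    (h : NilF U U1 (t.toLinearMap - a)) :
    ∃ t' : V ≃ₗ[K] V, t'.toLinearMap = a ∧ t⁻¹ * t' ∈ P3_Q U U1 hUU := by
  have hn : NilF U U1 ((t⁻¹).toLinearMap * (t.toLinearMap - a)) := P3_mul h h3 h4
  have hc := P3_cube hn
  have e1 : (t⁻¹).toLinearMap * (t.toLinearMap - a) = 1 - (t⁻¹).toLinearMap * a := by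
    rw [mul_sub]
    congr 1
    ext v
    exact LinearEquiv.symm_apply_apply t v
  have hinj : Function.Injective a := by
    rw [← LinearMap.ker_eq_bot, LinearMap.ker_eq_bot']
    intro v hv
    have h5 : ((t⁻¹).toLinearMap * (t.toLinearMap - a)) v = v := by
      rw [e1, LinearMap.sub_apply, Module.End.mul_apply, hv, map_zero, sub_zero]
      rfl
    have h6 : (((t⁻¹).toLinearMap * (t.toLinearMap - a)) ^ 3) v = v := by
      show ((t⁻¹).toLinearMap * (t.toLinearMap - a)) (((t⁻¹).toLinearMap * (t.toLinearMap - a))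
        (((t⁻¹).toLinearMap * (t.toLinearMap - a)) v)) = v
      rw [h5, h5, h5]
    rw [hc] at h6
    exact h6.symm
  refine ⟨LinearEquiv.ofInjectiveEndo a hinj, ?_, ?_⟩
  · ext v
    rfl
  · rw [P3_mem_Q]
    have e2 : (t⁻¹ * LinearEquiv.ofInjectiveEndo a hinj).toLinearMap - 1 =
        - ((t⁻¹).toLinearMap * (t.toLinearMap - a)) := by
      rw [e1, neg_sub]
      congr 1
    rw [e2]
    exact P3_neg hn

theorem compareGL (A A' : Subalgebra K (Module.End K V)) (hA : IsTorGL A) (hA' : IsTorGL A')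
    (hg : A ≤ Algebra.adjoin K (EndSet (sq (torGL A))))
    (U U1 : Submodule K V) (hUU : U ≤ U1) (s1 : ∀ a ∈ A, ∀ u ∈ U, a u ∈ U)
    (s2 : ∀ a ∈ A, ∀ u ∈ U1, a u ∈ U1) (s3 : ∀ a ∈ A', ∀ u ∈ U, a u ∈ U)
    (s4 : ∀ a ∈ A', ∀ u ∈ U1, a u ∈ U1)
    (h : ∀ a ∈ A, ∃ a' ∈ A', NilF U U1 (a - a')) (h' : ∀ a' ∈ A', ∃ a ∈ A, NilF U U1 (a - a')) :
    ∃ x ∈ sq (torGL A) ⊔ sq (torGL A'), CarriesTo x A A' := by
  refine P3_finish hA hA' (torGL A) (torGL A') le_rfl le_rfl hg U U1 hUU s1 s2 s3 s4 ?_ ?_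
  · intro t ht
    obtain ⟨a', ha', hn⟩ := h _ ht.1
    obtain ⟨t', ht', hq⟩ := P3_unit (s1 _ ht.2) (s2 _ ht.2) hUU hn
    exact ⟨t', mem_torGL_of A' t' (by rw [ht']; exact ha'), hq⟩
  · intro t ht
    obtain ⟨a, ha, hn⟩ := h' _ ht.1
    have hn' : NilF U U1 (t.toLinearMap - a) := by
      have := P3_neg hn
      rwa [neg_sub] at this
    obtain ⟨t', ht', hq⟩ := P3_unit (s3 _ ht.2) (s4 _ ht.2) hUU hn'
    exact ⟨t', mem_torGL_of A t' (by rw [ht']; exact ha), hq⟩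

omit [Finite K] [FiniteDimensional K V] in
theorem P3_swap {ε : K} {f : V → V → K} (hf : IsHF (RingHom.id K) ε f) {v w : V}
    (h : f v w = 0) : f w v = 0 := by
  have h1 := hf.herm v w
  rw [h1, RingHom.id_apply, h, mul_zero]

omit [Finite K] [FiniteDimensional K V] in
theorem P3_add_right {ε : K} {f : V → V → K} (hf : IsHF (RingHom.id K) ε f) (u v w : V) :
    f u (v + w) = f u v + f u w := by
  rw [hf.herm (v + w) u, hf.herm v u, hf.herm w u, RingHom.id_apply, RingHom.id_apply,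
    RingHom.id_apply, hf.add_left]
  ring

omit [Finite K] [FiniteDimensional K V] in
theorem P3_smul_right {ε : K} {f : V → V → K} (hf : IsHF (RingHom.id K) ε f) (c : K) (u v : V) :
    f u (c • v) = c * f u v := by
  rw [hf.herm (c • v) u, hf.herm v u, RingHom.id_apply, RingHom.id_apply, hf.smul_left]
  ring

omit [Finite K] [FiniteDimensional K V] in
theorem P3_neg_right {ε : K} {f : V → V → K} (hf : IsHF (RingHom.id K) ε f) (u v : V) :
    f u (-v) = - f u v := by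
  have := P3_smul_right hf (-1) u v
  simpa using this

omit [Finite K] [FiniteDimensional K V] in
theorem P3_neg_left {ε : K} {f : V → V → K} (hf : IsHF (RingHom.id K) ε f) (u v : V) :
    f (-u) v = - f u v := by
  have := hf.smul_left (-1) u v
  simpa using this

omit [Finite K] [FiniteDimensional K V] in
theorem P3_sub_right {ε : K} {f : V → V → K} (hf : IsHF (RingHom.id K) ε f) (u v w : V) :
    f u (v - w) = f u v - f u w := by
  rw [sub_eq_add_neg, P3_add_right hf, P3_neg_right hf, sub_eq_add_neg]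

omit [Finite K] [FiniteDimensional K V] in
theorem P3_sub_left {ε : K} {f : V → V → K} (hf : IsHF (RingHom.id K) ε f) (u v w : V) :
    f (u - v) w = f u w - f v w := by
  rw [sub_eq_add_neg, hf.add_left, P3_neg_left hf, sub_eq_add_neg]

omit [Finite K] in
theorem P3_riesz {ε : K} {f : V → V → K} (hf : IsHF (RingHom.id K) ε f) (φ : V →ₗ[K] K) :
    ∃ x, ∀ v, f v x = φ v := by
  let B : V →ₗ[K] (Module.Dual K V) :=
    { toFun := fun x =>
        { toFun := fun v => f v x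
          map_add' := fun u v => hf.add_left u v x
          map_smul' := fun c v => hf.smul_left c v x }
      map_add' := fun x y => by
        ext v
        exact P3_add_right hf v x y
      map_smul' := fun c x => by
        ext v
        exact P3_smul_right hf c v x }
  have hinj : Function.Injective B := by
    rw [← LinearMap.ker_eq_bot, LinearMap.ker_eq_bot']
    intro x hx
    apply hf.nondeg
    intro w
    have h1 : f w x = 0 := by
      have := congrArg (fun g : Module.Dual K V => g w) hx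
      exact this
    exact P3_swap hf h1
  have hsurj : Function.Surjective B :=
    (LinearMap.injective_iff_surjective_of_finrank_eq_finrank
      (Subspace.dual_finrank_eq (K := K) (V := V)).symm).1 hinj
  obtain ⟨x, hx⟩ := hsurj φ
  exact ⟨x, fun v => congrArg (fun g : Module.Dual K V => g v) hx⟩

omit [Finite K] in
theorem P3_pp {ε : K} {f : V → V → K} (hf : IsHF (RingHom.id K) ε f) (U U1 : Submodule K V)
    (hU1 : ∀ v, v ∈ U1 ↔ ∀ u ∈ U, f v u = 0) (w : V) (hw : ∀ v ∈ U1, f w v = 0) : w ∈ U := by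
  by_contra hwU
  obtain ⟨φ, h1, h2⟩ := Submodule.exists_le_ker_of_notMem hwU
  obtain ⟨x, hx⟩ := P3_riesz hf φ
  have h3 : x ∈ U1 := by
    rw [hU1]
    intro u hu
    apply P3_swap hf
    rw [hx]
    exact h2 hu
  apply h1
  rw [← hx]
  exact hw x h3

omit [Finite K] in
theorem P3_adjNil {ε : K} {f : V → V → K} (hf : IsHF (RingHom.id K) ε f) {U U1 : Submodule K V}
    (hU1 : ∀ v, v ∈ U1 ↔ ∀ u ∈ U, f v u = 0) {n m : Module.End K V} (h : NilF U U1 n)
    (ha : IsAdj f n m) : NilF U U1 m := by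
  refine ⟨?_, ?_, ?_⟩
  · intro u hu
    apply hf.nondeg
    intro w
    apply P3_swap hf
    rw [← ha w u]
    exact (hU1 _).1 (h.2.2 w) u hu
  · intro w hw
    apply P3_pp hf U U1 hU1
    intro v hv
    apply P3_swap hf
    rw [← ha v w]
    exact P3_swap hf ((hU1 w).1 hw _ (h.2.1 v hv))
  · intro w
    rw [hU1]
    intro u hu
    apply P3_swap hf
    rw [← ha u w, h.1 u hu]
    have := hf.smul_left 0 0 w
    rw [zero_smul, zero_mul] at this
    exact this

omit [Finite K] [FiniteDimensional K V] in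
theorem P3_stab {ε : K} {f : V → V → K} (_hf : IsHF (RingHom.id K) ε f) {U U1 : Submodule K V}
    (hU1 : ∀ v, v ∈ U1 ↔ ∀ u ∈ U, f v u = 0) {A : Subalgebra K (Module.End K V)} (hA : IsTor f A)
    (s1 : ∀ a ∈ A, ∀ u ∈ U, a u ∈ U) : ∀ a ∈ A, ∀ u ∈ U1, a u ∈ U1 := by
  intro a ha u hu
  rw [hU1]
  intro w hw
  obtain ⟨b, hb, hab⟩ := hA.star a ha
  rw [hab u w]
  exact (hU1 u).1 hu _ (s1 b hb w hw)

omit [FiniteDimensional K V] in
theorem P3_det {U U1 : Submodule K V} {hUU : U ≤ U1} {q : V ≃ₗ[K] V}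
    (hq : q ∈ P3_Q U U1 hUU) : LinearEquiv.det q = 1 := by
  obtain ⟨p, hp⟩ := CharP.exists K
  have hpr : Fact p.Prime := ⟨CharP.char_is_prime K p⟩
  obtain ⟨k, hk⟩ := P3_pgroup (p := p) U U1 hUU ⟨q, hq⟩
  have h1 : q ^ p ^ k = 1 := congrArg Subtype.val hk
  have h2 : (LinearEquiv.det q) ^ p ^ k = 1 := by rw [← map_pow, h1, map_one]
  have h3 : ((LinearEquiv.det q : Kˣ) : K) ^ p ^ k = 1 := by
    rw [← Units.val_pow_eq_pow_val, h2, Units.val_one]
  have h4 : (((LinearEquiv.det q : Kˣ) : K) - 1) ^ p ^ k = 0 := by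
    rw [sub_pow_char_pow, h3, one_pow, sub_self]
  have h5 := eq_zero_of_pow_eq_zero h4
  apply Units.ext
  rw [Units.val_one]
  exact sub_eq_zero.1 h5

theorem P3_isom {ε : K} {f : V → V → K} (hf : IsHF (RingHom.id K) ε f)
    {A A' : Subalgebra K (Module.End K V)} (hA : IsTor f A) (hA' : IsTor f A')
    {U U1 : Submodule K V} (hUU : U ≤ U1) (hU1 : ∀ v, v ∈ U1 ↔ ∀ u ∈ U, f v u = 0)
    (s1 : ∀ a ∈ A, ∀ u ∈ U, a u ∈ U) (s3 : ∀ a ∈ A', ∀ u ∈ U, a u ∈ U)
    {t : V ≃ₗ[K] V} (ht : t ∈ tor (RingHom.id K) f A) {a : Module.End K V} (ha : a ∈ A')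
    (hn : NilF U U1 (t.toLinearMap - a)) :
    ∃ t' ∈ tor (RingHom.id K) f A', t⁻¹ * t' ∈ P3_Q U U1 hUU := by
  have s2 := P3_stab hf hU1 hA s1
  have s4 := P3_stab hf hU1 hA' s3
  obtain ⟨hT, hI, hdet⟩ := ht
  obtain ⟨t', ht', hq⟩ := P3_unit (s1 _ hT.2) (s2 _ hT.2) hUU hn
  obtain ⟨b, hb, hab⟩ := hA'.star a ha
  have hadj : IsAdj f (t.toLinearMap - a) ((t⁻¹).toLinearMap - b) := by
    intro v w
    have h1 : f (t v) w = f v (t⁻¹ w) := by
      have h2 := hI v (t⁻¹ w)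
      have h3 : t (t⁻¹ w) = w := LinearEquiv.apply_symm_apply t w
      rw [h3] at h2
      exact h2
    rw [LinearMap.sub_apply, LinearMap.sub_apply, P3_sub_left hf, P3_sub_right hf, hab v w]
    show f (t v) w - f v (b w) = f v (t⁻¹ w) - f v (b w)
    rw [h1]
  have hn2 := P3_adjNil hf hU1 hn hadj
  have e1 : (t⁻¹).toLinearMap * t.toLinearMap = 1 := by
    ext v
    exact LinearEquiv.symm_apply_apply t v
  have e2 : 1 - b * a = (t⁻¹).toLinearMap * (t.toLinearMap - a) +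
      ((t⁻¹).toLinearMap - b) * a := by
    rw [mul_sub, sub_mul, e1]
    abel
  have h3 : NilF U U1 (1 - b * a) := by
    rw [e2]
    exact P3_add (P3_mul hn (s1 _ hT.2) (s2 _ hT.2)) (P3_mul' hn2 (s3 _ ha) (s4 _ ha))
  have h4 := P3_pow_zero hA'.toIsTorGL _ (A'.sub_mem A'.one_mem (A'.mul_mem hb ha)) 3
    (P3_cube h3)
  have h5 : b * a = 1 := (sub_eq_zero.1 h4).symm
  refine ⟨t', ⟨mem_torGL_of A' t' (by rw [ht']; exact ha), ?_, ?_⟩, hq⟩
  · intro v w
    have e3 : ∀ u, t' u = a u := fun u => by rw [← ht']; rfl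
    rw [e3, e3, hab v (a w)]
    have h6 : b (a w) = (b * a) w := rfl
    rw [h6, h5]
    rfl
  · intro hh
    have h7 := P3_det hq
    have h8 := hdet hh
    rw [map_mul, map_inv, h8, inv_one, one_mul] at h7
    exact h7

theorem compareF (ε : K) (f : V → V → K) (hf : IsHF (RingHom.id K) ε f)
    (A A' : Subalgebra K (Module.End K V)) (hA : IsTor f A) (hA' : IsTor f A')
    (hg : A ≤ Algebra.adjoin K (EndSet (sq (tor (RingHom.id K) f A))))
    (U U1 : Submodule K V) (hUU : U ≤ U1) (hU1 : ∀ v, v ∈ U1 ↔ ∀ u ∈ U, f v u = 0)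
    (s1 : ∀ a ∈ A, ∀ u ∈ U, a u ∈ U) (s3 : ∀ a ∈ A', ∀ u ∈ U, a u ∈ U)
    (h : ∀ a ∈ A, ∃ a' ∈ A', NilF U U1 (a - a')) (h' : ∀ a' ∈ A', ∃ a ∈ A, NilF U U1 (a - a')) :
    ∃ x ∈ sq (tor (RingHom.id K) f A) ⊔ sq (tor (RingHom.id K) f A'), CarriesTo x A A' := by
  have s2 := P3_stab hf hU1 hA s1
  have s4 := P3_stab hf hU1 hA' s3
  refine P3_finish hA.toIsTorGL hA'.toIsTorGL _ _ (fun t ht => ht.1) (fun t ht => ht.1) hg U U1 hUU
    s1 s2 s3 s4 ?_ ?_
  · intro t ht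
    obtain ⟨a', ha', hn⟩ := h _ ht.1.1
    exact P3_isom hf hA hA' hUU hU1 s1 s3 ht ha' hn
  · intro t ht
    obtain ⟨a, ha, hn⟩ := h' _ ht.1.1
    have hn' : NilF U U1 (t.toLinearMap - a) := by
      have := P3_neg hn
      rwa [neg_sub] at this
    exact P3_isom hf hA' hA hUU hU1 s3 s1 ht ha hn'

end

end Pool.Agent.CTO
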