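import Pool.Agent.CTO.T1
import Pool.Agent.CTO.P2
import Pool.Agent.CTO.P3

/-!
# T3: the linear theorem

`redGL`: the reducible step. Let `W` be stable under `A` and `A'`, `W ≠ ⊥, ⊤`. `stable_eq`: `W = range e =
range e'` with idempotents `e ∈ A`, `e' ∈ A'`. `B = restr A W`, `B' = restr A' W` are torus algebras
(`restr_isTorGL`), isomorphic (`iso_restr'`), `CritGL B` (`critGL_restr`); by the induction hypothesis
(`dim W < N`) there is `x ∈ sq (torGL B) ⊔ sq (torGL B')` with `x B x⁻¹ ≤ B'`; lift it to `h1` in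
`H = sq (torGL A) ⊔ sq (torGL A')` (`ex_lift_sup`). Let `A1 = pull h1 A' = h1⁻¹ A' h1`: a torus algebra
(`pull_isTorGL`), isomorphic to `A'`, `W` is stable under `A1`, and `restr A W = restr A1 W`.
By `step_GL` it is enough to solve the problem for `A`, `A1`. `e1 := h1⁻¹ e' h1 ∈ A1`, `range e1 = W`. Now let
`ψ : ker e ≃ ker e1` (`exists_psi`), `C = restr A (ker e)`, `C' = pull ψ (restr A1 (ker e1))`; the same with
the idempotents `1 - e`, `1 - e1` (`ker e = range (1 - e)`): torus algebras, isomorphic, `CritGL C`;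
induction (`dim ker e < N`), lift (`ex_lift_compl`) to `h2`, which is the identity on `W` and `x2` on
`ker e` modulo `W`. `A2 = pull h2 A1`. By `step_GL` again it is enough to treat `A`, `A2`. Now apply
`compareGL` with `U = U1 = W`: for `a ∈ A` there is `a2 ∈ A2` with `a2 = a` on `W` and `a2 v - a v ∈ W` for all `v`
(`NilF W W (a - a2)`): on `W` and modulo `W` separately (multiply by the idempotents), `A2` and `A`
have the same restrictions to `W`, and induce the same algebras on `V / W`.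
`coreGL`: strong induction on `N`. `q0(N)` = maximum of `q0(m)`, `m < N`, of the bound of `gen_torGL N` and of
`irrGL N`. If `H` is irreducible, `irrGL`; otherwise there is a subspace `W ≠ ⊥, ⊤` stable under `H`, so under
`adjoin (EndSet H) ≥ A, A'`.
-/

namespace Pool.Agent.CTO

open Module

/-- The linear theorem in dimension `m` for fields with at least `q0` elements. -/
def CoreGLAt (q0 m : ℕ) : Prop := ∀ (K V : Type) [Field K] [Finite K] [AddCommGroup V]
    [Module K V] [FiniteDimensional K V] (A A' : Subalgebra K (Module.End K V)),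
    finrank K V = m → q0 ≤ Nat.card K → IsTorGL A → IsTorGL A' → Nonempty (A ≃ₐ[K] A') →
    CritGL A → ∃ h ∈ sq (torGL A) ⊔ sq (torGL A'), CarriesTo h A A'

section

variable {K V : Type} [Field K] [AddCommGroup V] [Module K V] [FiniteDimensional K V]

theorem T3_restr (A : Subalgebra K (Module.End K V)) (hA : IsTorGL A) (W : Submodule K V)
    (e : Module.End K V) (he : e ∈ A) (hee : e * e = e) (hW : LinearMap.range e = W) :
    IsTorGL (restr A W) := by
  subst hW
  exact restr_isTorGL A hA e he hee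

theorem T3_crit (A : Subalgebra K (Module.End K V)) (hA : IsTorGL A) (hc : CritGL A)
    (W : Submodule K V) (e : Module.End K V) (he : e ∈ A) (hee : e * e = e)
    (hW : LinearMap.range e = W) : CritGL (restr A W) := by
  subst hW
  exact critGL_restr A hA hc e he hee

theorem T3_iso (A A' : Subalgebra K (Module.End K V)) (hA : IsTorGL A) (hA' : IsTorGL A')
    (h : Nonempty (A ≃ₐ[K] A')) (hc : CritGL A) (W W' : Submodule K V)
    (e e' : Module.End K V) (he : e ∈ A) (hee : e * e = e) (he' : e' ∈ A') (hee' : e' * e' = e')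
    (hW : LinearMap.range e = W) (hW' : LinearMap.range e' = W')
    (hd : finrank K W = finrank K W') : Nonempty (restr A W ≃ₐ[K] restr A' W') := by
  subst hW
  subst hW'
  exact iso_restr' A A' hA hA' h hc e e' he hee he' hee' hd

theorem T3_compl (e : Module.End K V) (hee : e * e = e) :
    (1 - e) * (1 - e) = 1 - e ∧ LinearMap.range (1 - e) = LinearMap.ker e := by
  have h1 : ∀ v, e (e v) = e v := fun v => by
    rw [← Module.End.mul_apply, hee]
  refine ⟨by rw [mul_sub, sub_mul, sub_mul, hee]; simp, ?_⟩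
  ext v
  rw [LinearMap.mem_range, LinearMap.mem_ker]
  constructor
  · rintro ⟨u, rfl⟩
    rw [LinearMap.sub_apply, Module.End.one_apply, map_sub, h1, sub_self]
  · intro hv
    exact ⟨v, by rw [LinearMap.sub_apply, Module.End.one_apply, hv, sub_zero]⟩

theorem T3_mem_range {e : Module.End K V} (hee : e * e = e) {W : Submodule K V}
    (hW : LinearMap.range e = W) {w : V} (hw : w ∈ W) : e w = w := by
  rw [← hW] at hw
  obtain ⟨u, rfl⟩ := hw
  rw [← Module.End.mul_apply, hee]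

theorem T3_nil {W : Submodule K V} {x : Module.End K V} :
    NilF W W x ↔ (∀ u ∈ W, x u = 0) ∧ ∀ v, x v ∈ W :=
  ⟨fun h => ⟨h.1, h.2.2⟩, fun h => ⟨h.1, fun u _ => h.2 u, h.2⟩⟩

/-- the comparison relation is symmetric in the two algebras -/
theorem T3_swap (A A' : Subalgebra K (Module.End K V)) (hA : IsTorGL A) (hA' : IsTorGL A')
    (W : Submodule K V) (h : ∀ a ∈ A, ∃ a' ∈ A', NilF W W (a - a')) :
    ∀ a' ∈ A', ∃ a ∈ A, NilF W W (a - a') := by
  obtain ⟨R, hR⟩ : ∃ R : Submodule K (Module.End K V × Module.End K V), ∀ p, p ∈ R ↔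
      p.1 ∈ A ∧ p.2 ∈ A' ∧ NilF W W (p.1 - p.2) := by
    refine ⟨{ carrier := {p | p.1 ∈ A ∧ p.2 ∈ A' ∧ NilF W W (p.1 - p.2)}
              add_mem' := ?_
              zero_mem' := ?_
              smul_mem' := ?_ }, fun p => Iff.rfl⟩
    · rintro p q ⟨h1, h2, h3⟩ ⟨h1', h2', h3'⟩
      rw [T3_nil] at h3 h3'
      refine ⟨A.add_mem h1 h1', A'.add_mem h2 h2', T3_nil.2 ⟨fun u hu => ?_, fun v => ?_⟩⟩
      · have e1 := h3.1 u hu
        have e2 := h3'.1 u hu
        rw [LinearMap.sub_apply] at e1 e2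
        rw [LinearMap.sub_apply, Prod.fst_add, Prod.snd_add, LinearMap.add_apply,
          LinearMap.add_apply, add_sub_add_comm, e1, e2, add_zero]
      · have e1 := h3.2 v
        have e2 := h3'.2 v
        rw [LinearMap.sub_apply] at e1 e2
        rw [LinearMap.sub_apply, Prod.fst_add, Prod.snd_add, LinearMap.add_apply,
          LinearMap.add_apply, add_sub_add_comm]
        exact W.add_mem e1 e2
    · refine ⟨A.zero_mem, A'.zero_mem, T3_nil.2 ⟨fun u _ => ?_, fun v => ?_⟩⟩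
      · simp
      · simp
    · rintro c p ⟨h1, h2, h3⟩
      rw [T3_nil] at h3
      refine ⟨A.smul_mem h1 c, A'.smul_mem h2 c, T3_nil.2 ⟨fun u hu => ?_, fun v => ?_⟩⟩
      · have e1 := h3.1 u hu
        rw [Prod.smul_fst, Prod.smul_snd, ← smul_sub, LinearMap.smul_apply, e1, smul_zero]
      · rw [Prod.smul_fst, Prod.smul_snd, ← smul_sub, LinearMap.smul_apply]
        exact W.smul_mem c (h3.2 v)
  have hnil : ∀ (B : Subalgebra K (Module.End K V)), IsTorGL B → ∀ a ∈ B, NilF W W a → a = 0 := by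
    intro B hB a ha hn
    apply hB.red a ha
    ext v
    rw [Module.End.mul_apply, LinearMap.zero_apply]
    exact hn.1 _ (hn.2.2 v)
  obtain ⟨f, hf⟩ : ∃ f : R →ₗ[K] A', ∀ p : R, ((f p : A') : Module.End K V) = p.1.2 :=
    ⟨{ toFun := fun p => ⟨p.1.2, ((hR p.1).1 p.2).2.1⟩
       map_add' := fun p q => rfl
       map_smul' := fun c p => rfl }, fun p => rfl⟩
  obtain ⟨g, hg⟩ : ∃ g : R →ₗ[K] A, ∀ p : R, ((g p : A) : Module.End K V) = p.1.1 :=
    ⟨{ toFun := fun p => ⟨p.1.1, ((hR p.1).1 p.2).1⟩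
       map_add' := fun p q => rfl
       map_smul' := fun c p => rfl }, fun p => rfl⟩
  have hfi : Function.Injective f := by
    rw [injective_iff_map_eq_zero]
    intro p hp
    have h1 := hf p
    rw [hp] at h1
    obtain ⟨h2, h3, h4⟩ := (hR p.1).1 p.2
    have h5 : p.1.2 = 0 := h1.symm
    rw [h5, sub_zero] at h4
    have h6 := hnil A hA _ h2 h4
    exact Subtype.ext (Prod.ext h6 h5)
  have hgs : Function.Surjective g := by
    rintro ⟨a, ha⟩
    obtain ⟨a', ha', hn⟩ := h a ha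
    exact ⟨⟨(a, a'), (hR _).2 ⟨ha, ha', hn⟩⟩, Subtype.ext (hg _)⟩
  have d1 : finrank K R ≤ finrank K A' := LinearMap.finrank_le_finrank_of_injective hfi
  have d2 : finrank K A ≤ finrank K R := LinearMap.finrank_le_finrank_of_surjective hgs
  have d3 : finrank K R = finrank K A' := by
    rw [hA.rank, ← hA'.rank] at d2
    exact le_antisymm d1 d2
  have hfs := (LinearMap.injective_iff_surjective_of_finrank_eq_finrank d3).1 hfi
  intro a' ha'
  obtain ⟨p, hp⟩ := hfs ⟨a', ha'⟩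
  obtain ⟨h2, h3, h4⟩ := (hR p.1).1 p.2
  have h5 : p.1.2 = a' := by rw [← hf p, hp]
  rw [h5] at h4
  exact ⟨p.1.1, h2, h4⟩

theorem T3_sym_mem {W : Submodule K V} {h : V ≃ₗ[K] V} (x : W ≃ₗ[K] W)
    (hx : ∀ w : W, h (w : V) = x w) {w : V} (hw : w ∈ W) :
    h w ∈ W ∧ h.symm w ∈ W := by
  constructor
  · rw [hx ⟨w, hw⟩]; exact (x ⟨w, hw⟩).2
  · have h1 : h ((x.symm ⟨w, hw⟩ : W) : V) = w := by
      rw [hx, LinearEquiv.apply_symm_apply]
    have h2 : h.symm w = (x.symm ⟨w, hw⟩ : W) := by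
      rw [LinearEquiv.symm_apply_eq, h1]
    rw [h2]
    exact (x.symm ⟨w, hw⟩).2

/-- stability under the pulled back algebra -/
theorem T3_pull_stable {W : Submodule K V} {h : V ≃ₗ[K] V} (A' : Subalgebra K (Module.End K V))
    (h1 : ∀ w ∈ W, h w ∈ W ∧ h.symm w ∈ W) (s : ∀ a ∈ A', ∀ v ∈ W, a v ∈ W) :
    ∀ a ∈ pull h A', ∀ v ∈ W, a v ∈ W := by
  intro a ha v hv
  rw [mem_pull] at ha
  have h2 := s _ ha (h v) (h1 v hv).1
  have h3 := (h1 _ h2).2
  simpa using h3

theorem T3_mem_pull {h : V ≃ₗ[K] V} {A' : Subalgebra K (Module.End K V)} {a : Module.End K V}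
    (ha : a ∈ A') : h.symm.toLinearMap ∘ₗ a ∘ₗ h.toLinearMap ∈ pull h A' := by
  rw [mem_pull]
  have : h.toLinearMap ∘ₗ (h.symm.toLinearMap ∘ₗ a ∘ₗ h.toLinearMap) ∘ₗ h.symm.toLinearMap = a := by
    ext v; simp
  rw [this]
  exact ha

end

theorem redGL (N q0 : ℕ) (IH : ∀ m < N, CoreGLAt q0 m) (K V : Type) [Field K] [Finite K]
    [AddCommGroup V] [Module K V] [FiniteDimensional K V] (A A' : Subalgebra K (Module.End K V))
    (hN : finrank K V = N) (hq : q0 ≤ Nat.card K) (hA : IsTorGL A) (hA' : IsTorGL A')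
    (hg : A ≤ Algebra.adjoin K (EndSet (sq (torGL A))))
    (hi : Nonempty (A ≃ₐ[K] A')) (hc : CritGL A) (W : Submodule K V) (h1 : W ≠ ⊥) (h2 : W ≠ ⊤)
    (s1 : ∀ a ∈ A, ∀ v ∈ W, a v ∈ W) (s2 : ∀ a ∈ A', ∀ v ∈ W, a v ∈ W) :
    ∃ h ∈ sq (torGL A) ⊔ sq (torGL A'), CarriesTo h A A' := by
  obtain ⟨e, he, hee, hW⟩ := stable_eq A hA W s1
  obtain ⟨e', he', hee', hW'⟩ := stable_eq A' hA' W s2
  -- first step: the subspace `W`
  have hWlt : finrank K W < N := by rw [← hN]; exact Submodule.finrank_lt h2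
  obtain ⟨x, hx, hxc⟩ := IH _ hWlt K W (restr A W) (restr A' W) rfl hq
    (T3_restr A hA W e he hee hW) (T3_restr A' hA' W e' he' hee' hW')
    (T3_iso A A' hA hA' hi hc W W e e' he hee he' hee' hW hW' rfl)
    (T3_crit A hA hc W e he hee hW)
  obtain ⟨g1, hg1, hg1x⟩ := ex_lift_sup A A' hA hA' e e' he hee he' hee' W hW hW' x hx
  have g1W : ∀ w ∈ W, g1 w ∈ W ∧ g1.symm w ∈ W := fun w hw => T3_sym_mem x hg1x hw
  obtain ⟨A1, hA1d⟩ : ∃ A1, A1 = pull g1 A' := ⟨_, rfl⟩
  have hA1 : IsTorGL A1 := by rw [hA1d]; exact pull_isTorGL g1 A' hA'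
  have hi1 : Nonempty (A ≃ₐ[K] A1) := by
    obtain ⟨φ⟩ := hi
    obtain ⟨φ'⟩ := pull_iso g1 A'
    rw [hA1d]
    exact ⟨φ.trans φ'.symm⟩
  have s3 : ∀ a ∈ A1, ∀ v ∈ W, a v ∈ W := by
    rw [hA1d]; exact T3_pull_stable A' g1W s2
  -- the restrictions of `A` and `A1` to `W` agree
  have r1 : ∀ a ∈ A, ∃ b ∈ A1, ∀ w ∈ W, b w = a w := by
    intro a ha
    have hr : a.restrict (s1 a ha) ∈ restr A W := ⟨a, ha, fun w => LinearMap.coe_restrict_apply _ _⟩
    obtain ⟨a', ha', haw⟩ := hxc _ hr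
    refine ⟨g1.symm.toLinearMap ∘ₗ a' ∘ₗ g1.toLinearMap, by rw [hA1d]; exact T3_mem_pull ha', ?_⟩
    intro w hw
    have h3 := haw (x ⟨w, hw⟩)
    have h4 : ((x.toLinearMap ∘ₗ a.restrict (s1 a ha) ∘ₗ x.symm.toLinearMap) (x ⟨w, hw⟩) : V) =
        g1 (a w) := by
      rw [LinearMap.comp_apply, LinearMap.comp_apply, LinearEquiv.coe_coe, LinearEquiv.coe_coe,
        LinearEquiv.symm_apply_apply, ← hg1x, LinearMap.coe_restrict_apply]
    rw [h4] at h3
    rw [LinearMap.comp_apply, LinearMap.comp_apply, LinearEquiv.coe_coe, LinearEquiv.coe_coe,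
      hg1x ⟨w, hw⟩, ← h3, LinearEquiv.symm_apply_apply]
  -- second step: the complement
  obtain ⟨e1, he1, hee1, hW1⟩ := stable_eq A1 hA1 W s3
  obtain ⟨ψ, hψ⟩ := exists_psi e e1 hee hee1 (hW.trans hW1.symm)
  obtain ⟨c1, c2⟩ := T3_compl e hee
  obtain ⟨c3, c4⟩ := T3_compl e1 hee1
  have he0 : 1 - e ∈ A := A.sub_mem A.one_mem he
  have he10 : 1 - e1 ∈ A1 := A1.sub_mem A1.one_mem he1
  have hC := T3_restr A hA (LinearMap.ker e) (1 - e) he0 c1 c2
  have hC1 := T3_restr A1 hA1 (LinearMap.ker e1) (1 - e1) he10 c3 c4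
  have hC' := pull_isTorGL ψ (restr A1 (LinearMap.ker e1)) hC1
  have hiC : Nonempty (restr A (LinearMap.ker e) ≃ₐ[K] pull ψ (restr A1 (LinearMap.ker e1))) := by
    obtain ⟨φ⟩ := T3_iso A A1 hA hA1 hi1 hc (LinearMap.ker e) (LinearMap.ker e1) (1 - e) (1 - e1)
      he0 c1 he10 c3 c2 c4 ψ.finrank_eq
    obtain ⟨φ'⟩ := pull_iso ψ (restr A1 (LinearMap.ker e1))
    exact ⟨φ.trans φ'.symm⟩
  have hklt : finrank K (LinearMap.ker e) < N := by
    rw [← hN]
    apply Submodule.finrank_lt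
    intro hk
    apply h1
    rw [← hW, LinearMap.range_eq_bot, ← LinearMap.ker_eq_top, hk]
  obtain ⟨x2, hx2, hx2c⟩ := IH _ hklt K (LinearMap.ker e) (restr A (LinearMap.ker e))
    (pull ψ (restr A1 (LinearMap.ker e1))) rfl hq hC hC' hiC
    (T3_crit A hA hc (LinearMap.ker e) (1 - e) he0 c1 c2)
  obtain ⟨g2, hg2, hg2W, hg2x⟩ := ex_lift_compl A A1 hA hA1 e e1 he hee he1 hee1
    (hW.trans hW1.symm) ψ hψ x2 hx2
  rw [hW] at hg2W hg2x
  have g2W' : ∀ w ∈ W, g2.symm w = w := by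
    intro w hw
    rw [LinearEquiv.symm_apply_eq, hg2W w hw]
  have g2W : ∀ w ∈ W, g2 w ∈ W ∧ g2.symm w ∈ W := by
    intro w hw
    rw [hg2W w hw, g2W' w hw]
    exact ⟨hw, hw⟩
  obtain ⟨A2, hA2d⟩ : ∃ A2, A2 = pull g2 A1 := ⟨_, rfl⟩
  have hA2 : IsTorGL A2 := by rw [hA2d]; exact pull_isTorGL g2 A1 hA1
  have s4 : ∀ a ∈ A2, ∀ v ∈ W, a v ∈ W := by
    rw [hA2d]; exact T3_pull_stable A1 g2W s3
  obtain ⟨e2, he2, hee2, hW2⟩ := stable_eq A2 hA2 W s4
  have hmod : ∀ a ∈ A, ∃ b ∈ A2, ∀ v, a v - b v ∈ W := by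
    intro a ha
    have hst : ∀ v ∈ LinearMap.ker e, a v ∈ LinearMap.ker e := by
      intro v hv
      rw [LinearMap.mem_ker] at hv ⊢
      rw [← Module.End.mul_apply, hA.comm e he a ha, Module.End.mul_apply, hv, map_zero]
    have hr : a.restrict hst ∈ restr A (LinearMap.ker e) :=
      ⟨a, ha, fun w => LinearMap.coe_restrict_apply _ _⟩
    have h3 := hx2c _ hr
    rw [mem_pull] at h3
    obtain ⟨b', hb', hbw⟩ := h3
    refine ⟨g2.symm.toLinearMap ∘ₗ b' ∘ₗ g2.toLinearMap, by rw [hA2d]; exact T3_mem_pull hb', ?_⟩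
    -- `ψ u ≡ u`
    have hψm : ∀ u : LinearMap.ker e, (u : V) - (ψ u : V) ∈ W := by
      intro u
      rw [hψ, sub_sub_cancel, ← hW1]
      exact LinearMap.mem_range_self e1 _
    -- for `v ∈ ker e`
    have hker : ∀ v : LinearMap.ker e,
        a v - (g2.symm.toLinearMap ∘ₗ b' ∘ₗ g2.toLinearMap) (v : V) ∈ W := by
      intro v
      have k1 := hbw (ψ (x2 v))
      have k2 : ((ψ.toLinearMap ∘ₗ (x2.toLinearMap ∘ₗ a.restrict hst ∘ₗ x2.symm.toLinearMap) ∘ₗ
          ψ.symm.toLinearMap) (ψ (x2 v)) : V) = ψ (x2 (a.restrict hst v)) := by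
        simp
      rw [k2] at k1
      obtain ⟨cv, hcv⟩ : ∃ cv : LinearMap.ker e, cv = a.restrict hst v := ⟨_, rfl⟩
      have hcv' : (cv : V) = a v := by rw [hcv]; exact LinearMap.coe_restrict_apply _ _
      rw [← hcv] at k1
      -- `b' (g2 v) ≡ g2 (a v)`
      have m1 : b' (g2 v) - b' (ψ (x2 v)) ∈ W := by
        rw [← map_sub]
        refine s3 b' hb' _ ?_
        have := W.add_mem (hg2x v) (hψm (x2 v))
        rwa [sub_add_sub_cancel] at this
      have m2 : (ψ (x2 cv) : V) - g2 (cv : V) ∈ W := by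
        have := W.neg_mem (W.add_mem (hg2x cv) (hψm (x2 cv)))
        rwa [sub_add_sub_cancel, neg_sub] at this
      have m3 : g2 (a v) - b' (g2 v) ∈ W := by
        rw [k1.symm] at m1
        have := W.neg_mem (W.add_mem m1 m2)
        rw [sub_add_sub_cancel, neg_sub, hcv'] at this
        exact this
      have m4 := (g2W _ m3).2
      rw [map_sub, LinearEquiv.symm_apply_apply] at m4
      exact m4
    intro v
    have hv : v = e v + (1 - e) v := by
      rw [LinearMap.sub_apply, Module.End.one_apply]; abel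
    have hev : e v ∈ W := by rw [← hW]; exact LinearMap.mem_range_self e v
    have hkv : (1 - e) v ∈ LinearMap.ker e := by rw [← c2]; exact LinearMap.mem_range_self _ v
    have n1 := hker ⟨_, hkv⟩
    have n2 : a (e v) - (g2.symm.toLinearMap ∘ₗ b' ∘ₗ g2.toLinearMap) (e v) ∈ W :=
      W.sub_mem (s1 a ha _ hev) (s4 _ (by rw [hA2d]; exact T3_mem_pull hb') _ hev)
    have n3 := W.add_mem n2 n1
    rw [sub_add_sub_comm, ← map_add, ← map_add, ← hv] at n3
    exact n3
  have hcmp : ∀ a ∈ A, ∃ a' ∈ A2, NilF W W (a - a') := by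
    intro a ha
    obtain ⟨b, hb, hbw⟩ := r1 a ha
    obtain ⟨b', hb', hbm⟩ := hmod a ha
    have hb2 : g2.symm.toLinearMap ∘ₗ b ∘ₗ g2.toLinearMap ∈ A2 := by
      rw [hA2d]; exact T3_mem_pull hb
    refine ⟨(g2.symm.toLinearMap ∘ₗ b ∘ₗ g2.toLinearMap) * e2 + b' * (1 - e2),
      A2.add_mem (A2.mul_mem hb2 he2) (A2.mul_mem hb' (A2.sub_mem A2.one_mem he2)),
      T3_nil.2 ⟨fun u hu => ?_, fun v => ?_⟩⟩
    · have k1 := T3_mem_range hee2 hW2 hu
      rw [LinearMap.sub_apply, LinearMap.add_apply, Module.End.mul_apply, Module.End.mul_apply,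
        LinearMap.sub_apply, Module.End.one_apply, k1, sub_self, map_zero, add_zero,
        LinearMap.comp_apply, LinearMap.comp_apply, LinearEquiv.coe_coe, LinearEquiv.coe_coe,
        hg2W u hu, hbw u hu, g2W' _ (s1 a ha u hu), sub_self]
    · have hev : e2 v ∈ W := by rw [← hW2]; exact LinearMap.mem_range_self e2 v
      rw [LinearMap.sub_apply, LinearMap.add_apply, Module.End.mul_apply, Module.End.mul_apply,
        LinearMap.sub_apply, Module.End.one_apply, map_sub]
      have k1 := hbm v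
      have k2 := s4 _ hb2 _ hev
      have k3 := s4 _ hb' _ hev
      have k4 := W.add_mem (W.sub_mem k1 k2) k3
      have k5 : a v - b' v - (g2.symm.toLinearMap ∘ₗ b ∘ₗ g2.toLinearMap) (e2 v) + b' (e2 v) =
          a v - ((g2.symm.toLinearMap ∘ₗ b ∘ₗ g2.toLinearMap) (e2 v) + (b' v - b' (e2 v))) := by
        abel
      rw [← k5]
      exact k4
  obtain ⟨x3, hx3, hx3c⟩ := compareGL A A2 hA hA2 hg W W le_rfl s1 s1 s4 s4 hcmp
    (T3_swap A A2 hA hA2 W hcmp)
  rw [hA2d] at hx3 hx3c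
  obtain ⟨y, hy, hyc⟩ := step_GL A A1 g2 x3 hg2 hx3 hx3c
  rw [hA1d] at hy hyc
  exact step_GL A A' g1 y hg1 hy hyc

theorem T3_mono {q q' m : ℕ} (h : q ≤ q') (hq : CoreGLAt q m) : CoreGLAt q' m := by
  intro K V _ _ _ _ _ A A' hm hc hA hA' hi hcr
  exact hq K V A A' hm (h.trans hc) hA hA' hi hcr

theorem coreGL (N : ℕ) : ∃ q0 : ℕ, CoreGLAt q0 N := by
  induction N using Nat.strong_induction_on with
  | _ N ih =>
    have ih' : ∀ m, ∃ q, m < N → CoreGLAt q m := by
      intro m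
      by_cases hm : m < N
      · obtain ⟨q, hq⟩ := ih m hm
        exact ⟨q, fun _ => hq⟩
      · exact ⟨0, fun h => absurd h hm⟩
    choose q hq using ih'
    obtain ⟨qg, hqg⟩ := gen_torGL N
    obtain ⟨qi, hqi⟩ := irrGL N
    refine ⟨max (max ((Finset.range N).sup q) qg) qi, ?_⟩
    intro K V _ _ _ _ _ A A' hN hcard hA hA' hi hc
    have c1 : (Finset.range N).sup q ≤ Nat.card K :=
      (le_max_left _ _).trans ((le_max_left _ _).trans hcard)
    have c2 : qg ≤ Nat.card K := (le_max_right _ _).trans ((le_max_left _ _).trans hcard)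
    have c3 : qi ≤ Nat.card K := (le_max_right _ _).trans hcard
    have g1 := hqg K V A hN c2 hA
    have g2 := hqg K V A' hN c2 hA'
    by_cases hirr : ∀ W : Submodule K V,
        (∀ h ∈ sq (torGL A) ⊔ sq (torGL A'), ∀ v ∈ W, h v ∈ W) → W = ⊥ ∨ W = ⊤
    · exact hqi K V A A' hN c3 hA hA' hi hirr
    · push Not at hirr
      obtain ⟨W, hst, hb, ht⟩ := hirr
      have hadj : ∀ a ∈ Algebra.adjoin K (EndSet (sq (torGL A) ⊔ sq (torGL A'))),
          ∀ v ∈ W, a v ∈ W := by
        intro a ha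
        induction ha using Algebra.adjoin_induction with
        | mem x hx =>
          obtain ⟨h, hh, rfl⟩ := hx
          intro v hv
          exact hst h hh v hv
        | algebraMap r =>
          intro v hv
          rw [Module.algebraMap_end_apply]
          exact W.smul_mem r hv
        | add x y _ _ hx hy =>
          intro v hv
          exact W.add_mem (hx v hv) (hy v hv)
        | mul x y _ _ hx hy =>
          intro v hv
          rw [Module.End.mul_apply]
          exact hx _ (hy v hv)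
      have l1 : EndSet (sq (torGL A)) ⊆ EndSet (sq (torGL A) ⊔ sq (torGL A')) := by
        rintro x ⟨h, hh, rfl⟩
        exact ⟨h, (le_sup_left : sq (torGL A) ≤ sq (torGL A) ⊔ sq (torGL A')) hh, rfl⟩
      have l2 : EndSet (sq (torGL A')) ⊆ EndSet (sq (torGL A) ⊔ sq (torGL A')) := by
        rintro x ⟨h, hh, rfl⟩
        exact ⟨h, (le_sup_right : sq (torGL A') ≤ sq (torGL A) ⊔ sq (torGL A')) hh, rfl⟩
      exact redGL N ((Finset.range N).sup q) (fun m hm => T3_mono
        (Finset.le_sup (f := q) (Finset.mem_range.2 hm)) (hq m hm)) K V A A' hN c1 hA hA' g1 hi hc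
        W hb ht (fun a ha => hadj a (Algebra.adjoin_mono l1 (g1 ha)))
        (fun a ha => hadj a (Algebra.adjoin_mono l2 (g2 ha)))

end Pool.Agent.CTO
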