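import Pool.Agent.CTO.T4
import Pool.Agent.CTO.T3
import Pool.Agent.CTO.Q3

/-!
# V1: reduction, totally isotropic stable subspace, without `OddPos f A`

The same as `redI` of T5 (read the header of T5; the proof of T5 is published as cto_T5.lean as soon as it is
done), but instead of `OddPos f A` it is only assumed that `OddPos` holds for the restriction to the range
of every selfadjoint idempotent `p ∈ A`, `p ≠ 1`. It is used for `p = 1 - e - s` only, and `p ≠ 1` because
`U ≠ 0`. Copy the proof of T5 with this change (rename the auxiliary lemmas).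
-/

namespace Pool.Agent.CTO

open Module

section

variable {K V : Type} [Field K] [Finite K] [AddCommGroup V] [Module K V] [FiniteDimensional K V]

omit [Finite K] [FiniteDimensional K V] in
theorem V1_adj_symm {ε : K} {f : V → V → K} (hf : IsHF (RingHom.id K) ε f) {S T : Module.End K V}
    (h : IsAdj f S T) : IsAdj f T S := by
  intro v w
  rw [hf.herm w (T v), hf.herm (S w) v, RingHom.id_apply, RingHom.id_apply, ← h w v]

omit [Finite K] in
theorem V1_idem {ε : K} {f : V → V → K} (hf : IsHF (RingHom.id K) ε f)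
    {A : Subalgebra K (Module.End K V)} (hA : IsTor f A) {U : Submodule K V}
    (hiso : ∀ u ∈ U, ∀ v ∈ U, f u v = 0) (s1 : ∀ a ∈ A, ∀ v ∈ U, a v ∈ U) :
    ∃ e s, IsoIdem f A e s ∧ LinearMap.range e = U := by
  obtain ⟨e, he, hee, hr⟩ := stable_eq A hA.toIsTorGL U s1
  obtain ⟨s, hs, hes⟩ := hA.star e he
  refine ⟨e, s, ⟨he, hs, hee, hes, ?_⟩, hr⟩
  ext v
  show s (e v) = 0
  apply hf.nondeg
  intro w
  apply P3_swap hf
  rw [← hes w (e v)]
  exact hiso _ (by rw [← hr]; exact ⟨w, rfl⟩) _ (by rw [← hr]; exact ⟨v, rfl⟩)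

omit [Finite K] [FiniteDimensional K V] in
theorem V1_isom {f : V → V → K} {A A' : Subalgebra K (Module.End K V)} {h : V ≃ₗ[K] V}
    (hh : h ∈ sq (tor (RingHom.id K) f A) ⊔ sq (tor (RingHom.id K) f A')) : h ∈ Isom f := by
  have h1 : sq (tor (RingHom.id K) f A) ⊔ sq (tor (RingHom.id K) f A') ≤ Isom f :=
    sup_le ((P3_sq_le _).trans (fun t ht => ht.2.1)) ((P3_sq_le _).trans (fun t ht => ht.2.1))
  exact h1 hh

omit [Finite K] in
theorem V1_rev {A A' : Subalgebra K (Module.End K V)} (hA : IsTorGL A) (hA' : IsTorGL A')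
    {U U1 : Submodule K V} (h : ∀ a ∈ A, ∃ a' ∈ A', NilF U U1 (a - a')) :
    ∀ a' ∈ A', ∃ a ∈ A, NilF U U1 (a - a') := by
  have uniq : ∀ (B : Subalgebra K (Module.End K V)), IsTorGL B → ∀ b ∈ B, NilF U U1 b → b = 0 :=
    fun B hB b hb hn => P3_pow_zero hB b hb 3 (P3_cube hn)
  choose g hg1 hg2 using h
  let φ : A →ₗ[K] A' :=
    { toFun := fun a => ⟨g a a.2, hg1 a a.2⟩
      map_add' := by
        intro a b
        apply Subtype.ext
        show g _ _ = g a a.2 + g b b.2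
        have h1 := P3_add (P3_neg (hg2 _ (a + b).2)) (P3_add (hg2 a a.2) (hg2 b b.2))
        have h2 := uniq A' hA' (g _ (a + b).2 - (g a a.2 + g b b.2))
          (A'.sub_mem (hg1 _ _) (A'.add_mem (hg1 _ _) (hg1 _ _))) (by
            have e : -((a + b : A) - g _ (a + b).2) +
                ((a : Module.End K V) - g a a.2 + ((b : Module.End K V) - g b b.2)) =
                (g _ (a + b).2 - (g a a.2 + g b b.2)) := by
              push_cast
              abel
            rw [← e]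
            exact h1)
        exact sub_eq_zero.1 h2
      map_smul' := by
        intro c a
        apply Subtype.ext
        show g _ _ = c • g a a.2
        have h0 : NilF U U1 (c • ((a : Module.End K V) - g a a.2)) := by
          obtain ⟨n1, n2, n3⟩ := hg2 a a.2
          refine ⟨?_, ?_, ?_⟩
          · intro u hu
            rw [LinearMap.smul_apply, n1 u hu, smul_zero]
          · intro u hu
            exact U.smul_mem _ (n2 u hu)
          · intro v
            exact U1.smul_mem _ (n3 v)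
        have h1 := P3_add (P3_neg (hg2 _ (c • a).2)) h0
        have h2 := uniq A' hA' (g _ (c • a).2 - c • g a a.2)
          (A'.sub_mem (hg1 _ _) (A'.smul_mem (hg1 _ _) c)) (by
            have e : -((c • a : A) - g _ (c • a).2) + c • ((a : Module.End K V) - g a a.2) =
                (g _ (c • a).2 - c • g a a.2) := by
              push_cast
              rw [smul_sub]
              abel
            rw [← e]
            exact h1)
        exact sub_eq_zero.1 h2 }
  have hinj : Function.Injective φ := by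
    rw [← LinearMap.ker_eq_bot, LinearMap.ker_eq_bot']
    intro a ha
    apply Subtype.ext
    have h1 : g a a.2 = 0 := congrArg Subtype.val ha
    have h2 := hg2 a a.2
    rw [h1, sub_zero] at h2
    exact uniq A hA a a.2 h2
  have hsurj : Function.Surjective φ :=
    (LinearMap.injective_iff_surjective_of_finrank_eq_finrank (hA.rank.trans hA'.rank.symm)).1 hinj
  intro a' ha'
  obtain ⟨a, ha⟩ := hsurj ⟨a', ha'⟩
  have h1 : g a a.2 = a' := congrArg Subtype.val ha
  exact ⟨a, a.2, by rw [← h1]; exact hg2 a a.2⟩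

omit [Finite K] [FiniteDimensional K V] in
theorem V1_half {ε : K} {f : V → V → K} (hf : IsHF (RingHom.id K) ε f)
    {A B : Subalgebra K (Module.End K V)} (hA : IsTor f A) (hB : IsTor f B)
    {e s : Module.End K V} (hi : IsoIdem f B e s) {U U1 : Submodule K V}
    (hr : LinearMap.range e = U) (hU1 : ∀ v, v ∈ U1 ↔ ∀ u ∈ U, f v u = 0) (hUU : U ≤ U1)
    (hker : ∀ v, s v = 0 ↔ ∀ u ∈ LinearMap.range e, f v u = 0)
    (hp : (1 - e - s) ∈ B) (hss : s * s = s)
    (sA : ∀ a ∈ A, ∀ u ∈ U, a u ∈ U) (sB : ∀ a ∈ B, ∀ u ∈ U, a u ∈ U)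
    (r1 : ∀ a ∈ A, ∃ b ∈ B, ∀ u ∈ U, b u = a u)
    (r2 : ∀ a ∈ A, ∃ b ∈ B, ∀ v ∈ U1, b v - a v ∈ U) (a : Module.End K V) (ha : a ∈ A) :
    ∃ b ∈ B, NilF U U1 (a - b) := by
  obtain ⟨b1, hb1, h1⟩ := r1 a ha
  obtain ⟨b2, hb2, h2⟩ := r2 a ha
  obtain ⟨c, hc, hac⟩ := hA.star a ha
  obtain ⟨b3, hb3, h3⟩ := r1 c hc
  obtain ⟨d, hd, h3d⟩ := hB.star b3 hb3
  have eU : ∀ u ∈ U, e u = u := by
    intro u hu
    rw [← hr] at hu
    obtain ⟨w, rfl⟩ := hu
    exact LinearMap.congr_fun hi.idem w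
  have eR : ∀ v, e v ∈ U := fun v => by rw [← hr]; exact ⟨v, rfl⟩
  have sU : ∀ u ∈ U, s u = 0 := by
    intro u hu
    rw [← eU u hu]
    exact LinearMap.congr_fun hi.orth u
  have key : ∀ v, (a - (b1 * e + b2 * (1 - e - s) + d * s)) v =
      a v - (b1 (e v) + b2 (v - e v - s v) + d (s v)) := fun v => rfl
  refine ⟨b1 * e + b2 * (1 - e - s) + d * s, B.add_mem (B.add_mem (B.mul_mem hb1 hi.he)
    (B.mul_mem hb2 hp)) (B.mul_mem hd hi.hs), ?_, ?_, ?_⟩
  · intro u hu
    rw [key, eU u hu, sU u hu, h1 u hu]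
    simp
  · intro v hv
    have sv : s v = 0 := (hker v).2 (by
      intro u hu
      rw [hr] at hu
      exact (hU1 v).1 hv u hu)
    rw [key, sv, sub_zero, map_zero, add_zero, map_sub]
    have e1 : a v - (b1 (e v) + (b2 v - b2 (e v))) = b2 (e v) - b1 (e v) - (b2 v - a v) := by abel
    rw [e1]
    exact U.sub_mem (U.sub_mem (sB b2 hb2 _ (eR v)) (sB b1 hb1 _ (eR v))) (h2 v hv)
  · intro v
    rw [hU1]
    intro u hu
    rw [key, P3_sub_left hf, hf.add_left, hf.add_left]
    have z1 : f (b1 (e v)) u = 0 := (hU1 _).1 (hUU (sB b1 hb1 _ (eR v))) u hu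
    have pv : v - e v - s v ∈ U1 := by
      rw [hU1]
      intro w hw
      rw [← hr] at hw
      refine (hker _).1 ?_ w hw
      rw [map_sub, map_sub]
      have q1 : s (e v) = 0 := LinearMap.congr_fun hi.orth v
      have q2 : s (s v) = s v := LinearMap.congr_fun hss v
      rw [q1, q2, sub_zero, sub_self]
    have z2 : f (b2 (v - e v - s v)) u = 0 :=
      (hU1 _).1 (P3_stab hf hU1 hB sB b2 hb2 _ pv) u hu
    have z3 : f (d (s v)) u = f v (c u) := by
      rw [V1_adj_symm hf h3d (s v) u, h3 u hu, V1_adj_symm hf hi.adj v (c u),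
        eU _ (sA c hc u hu)]
    rw [z1, z2, z3, hac v u]
    ring

theorem V1_mid (N q0 : ℕ) (IH : ∀ m < N, CoreFAt q0 m) (ε : K) (f : V → V → K)
    (A A1 : Subalgebra K (Module.End K V)) (hN : finrank K V = N) (hq : q0 ≤ Nat.card K)
    (two : (2 : K) ≠ 0) (hf : IsHF (RingHom.id K) ε f) (hA : IsTor f A) (hA1 : IsTor f A1)
    (hg : A ≤ Algebra.adjoin K (EndSet (sq (tor (RingHom.id K) f A))))
    (hS : SIso f A f A1) (hc : Crit f A)
    (ho : ε = 1 → ∀ p ∈ A, p * p = p → IsAdj f p p → p ≠ 1 →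
      OddPos (resF f (LinearMap.range p)) (restr A (LinearMap.range p)))
    (U : Submodule K V) (hU : U ≠ ⊥) (hiso : ∀ u ∈ U, ∀ v ∈ U, f u v = 0)
    (sA : ∀ a ∈ A, ∀ v ∈ U, a v ∈ U) (sA1 : ∀ a ∈ A1, ∀ v ∈ U, a v ∈ U)
    (r1 : ∀ a ∈ A, ∃ b ∈ A1, ∀ u ∈ U, b u = a u) :
    ∃ h ∈ sq (tor (RingHom.id K) f A) ⊔ sq (tor (RingHom.id K) f A1), CarriesTo h A A1 := by
  obtain ⟨e, s, hi, hr⟩ := V1_idem hf hA hiso sA
  obtain ⟨e1, s1, hi1, hr1⟩ := V1_idem hf hA1 hiso sA1
  obtain ⟨hp, hpp, hps, hss, hes0, hker⟩ := isoIdem_p ε f hf A hA e s hi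
  obtain ⟨hp1, hpp1, hps1, hss1, hes01, hker1⟩ := isoIdem_p ε f hf A1 hA1 e1 s1 hi1
  have hrr : LinearMap.range e = LinearMap.range e1 := hr.trans hr1.symm
  obtain ⟨ψ, hψ, hψi⟩ := exists_psi_F ε f hf A A1 hA hA1 e s e1 s1 hi hi1 hrr
  have hT1 := restr_isTor ε f hf A hA (1 - e - s) hp hpp hps
  have hT2 := restr_isTor ε f hf A1 hA1 (1 - e1 - s1) hp1 hpp1 hps1
  have hT3 : IsTor (resF f (LinearMap.range (1 - e - s)))
      (pull ψ (restr A1 (LinearMap.range (1 - e1 - s1)))) :=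
    pull_isTor (resF f (LinearMap.range (1 - e - s))) (resF f (LinearMap.range (1 - e1 - s1))) ψ
      hψi _ hT2
  have hS2 := siso_of_crit two ε f hf A A1 hA hA1 hS hc (1 - e - s) (1 - e1 - s1) hp hp1 hpp hps
    hpp1 hps1 ⟨ψ, hψi⟩
  have hS3 := siso_trans _ _ _ _ _ _ hS2 (pull_siso (resF f (LinearMap.range (1 - e - s)))
    (resF f (LinearMap.range (1 - e1 - s1))) ψ hψi (restr A1 (LinearMap.range (1 - e1 - s1)))).2
  have eU : ∀ u ∈ U, e u = u := by
    intro u hu
    rw [← hr] at hu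
    obtain ⟨w, rfl⟩ := hu
    exact LinearMap.congr_fun hi.idem w
  have eR : ∀ v, e v ∈ U := fun v => by rw [← hr]; exact ⟨v, rfl⟩
  have eR1 : ∀ v, e1 v ∈ U := fun v => by rw [← hr1]; exact ⟨v, rfl⟩
  have sU : ∀ u ∈ U, s u = 0 := by
    intro u hu
    rw [← eU u hu]
    exact LinearMap.congr_fun hi.orth u
  have hdim : finrank K (LinearMap.range (1 - e - s)) < N := by
    rw [← hN]
    apply Submodule.finrank_lt
    intro htop
    apply hU
    rw [Submodule.eq_bot_iff]
    intro u hu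
    have h1 : u ∈ LinearMap.range (1 - e - s) := by rw [htop]; trivial
    obtain ⟨w, hw⟩ := h1
    have h2 : (1 - e - s) u = u := by
      rw [← hw]
      exact LinearMap.congr_fun hpp w
    have h3 : (1 - e - s) u = u - e u - s u := rfl
    rw [← h2, h3, eU u hu, sU u hu]
    simp
  have hne : (1 - e - s) ≠ 1 := by
    intro h1
    apply hU
    rw [Submodule.eq_bot_iff]
    intro u hu
    have h2 : (1 - e - s) u = u := by
      rw [h1]
      rfl
    have h3 : (1 - e - s) u = u - e u - s u := rfl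
    rw [← h2, h3, eU u hu, sU u hu]
    simp
  obtain ⟨x2, hx2, hx2c⟩ := IH _ hdim K (LinearMap.range (1 - e - s)) ε
    (resF f (LinearMap.range (1 - e - s))) (restr A (LinearMap.range (1 - e - s)))
    (pull ψ (restr A1 (LinearMap.range (1 - e1 - s1)))) rfl hq two
    (restr_isHF ε f hf (1 - e - s) hpp hps) hT1 hT3 hS3
    (crit_restr ε f hf A hA hc (1 - e - s) hp hpp hps)
    (fun h => ho h (1 - e - s) hp hpp hps hne)
  obtain ⟨h2, hh2, h2U, h2p⟩ := ex_lift_mid ε f hf A A1 hA hA1 e s e1 s1 hi hi1 hrr ψ hψ x2 hx2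
  have I2 : ∀ v w, f (h2 v) (h2 w) = f v w := V1_isom hh2
  have e2 : ∀ v, h2 (h2.symm v) = v := fun v => h2.apply_symm_apply v
  have e3 : ∀ v, h2.symm (h2 v) = v := fun v => h2.symm_apply_apply v
  have h2s : ∀ u ∈ U, h2.symm u = u := by
    intro u hu
    have h3 := h2U u (by rw [hr]; exact hu)
    have h4 := e3 u
    rw [h3] at h4
    exact h4
  have hA2 : IsTor f (pull h2 A1) := pull_isTor f f h2 I2 A1 hA1
  have sA2 : ∀ a ∈ pull h2 A1, ∀ u ∈ U, a u ∈ U := by
    intro a ha u hu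
    have h3 := sA1 _ ha u hu
    have h4 : (h2.toLinearMap ∘ₗ a ∘ₗ h2.symm.toLinearMap) u = h2 (a (h2.symm u)) := rfl
    rw [h4, h2s u hu] at h3
    have h5 := h2s _ h3
    rw [e3] at h5
    rw [h5]
    exact h3
  obtain ⟨e4, s4, hi4, hr4⟩ := V1_idem hf hA2 hiso sA2
  obtain ⟨hp4, hpp4, hps4, hss4, hes04, hker4⟩ := isoIdem_p ε f hf (pull h2 A1) hA2 e4 s4 hi4
  let U1 : Submodule K V := LinearMap.ker s
  have hU1 : ∀ v, v ∈ U1 ↔ ∀ u ∈ U, f v u = 0 := by
    intro v
    rw [← hr]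
    exact hker v
  have hUU : U ≤ U1 := by
    intro u hu
    rw [hU1]
    intro w hw
    exact hiso u hu w hw
  have r1' : ∀ a ∈ A, ∃ b ∈ pull h2 A1, ∀ u ∈ U, b u = a u := by
    intro a ha
    obtain ⟨b, hb, hab⟩ := r1 a ha
    refine ⟨h2.symm.toLinearMap ∘ₗ b ∘ₗ h2.toLinearMap, ?_, ?_⟩
    · rw [mem_pull]
      have h3 : h2.toLinearMap ∘ₗ (h2.symm.toLinearMap ∘ₗ b ∘ₗ h2.toLinearMap) ∘ₗ
          h2.symm.toLinearMap = b := by
        ext v
        show h2 (h2.symm (b (h2 (h2.symm v)))) = b v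
        rw [e2, e2]
      rw [h3]
      exact hb
    · intro u hu
      show h2.symm (b (h2 u)) = a u
      rw [h2U u (by rw [hr]; exact hu), hab u hu, h2s _ (sA a ha u hu)]
  have r2' : ∀ a ∈ A, ∃ b ∈ pull h2 A1, ∀ v ∈ U1, b v - a v ∈ U := by
    intro a ha
    have hap : ∀ v ∈ LinearMap.range (1 - e - s), a v ∈ LinearMap.range (1 - e - s) := by
      rintro _ ⟨w, rfl⟩
      refine ⟨a w, ?_⟩
      have h3 := hA.comm a ha _ hp
      exact (LinearMap.congr_fun h3 w).symm
    have hcC : (a.restrict hap) ∈ restr A (LinearMap.range (1 - e - s)) :=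
      ⟨a, ha, fun w => rfl⟩
    have h3 := hx2c _ hcC
    rw [mem_pull] at h3
    obtain ⟨b, hb, hbw⟩ := h3
    refine ⟨h2.symm.toLinearMap ∘ₗ b ∘ₗ h2.toLinearMap, ?_, ?_⟩
    · rw [mem_pull]
      have h3 : h2.toLinearMap ∘ₗ (h2.symm.toLinearMap ∘ₗ b ∘ₗ h2.toLinearMap) ∘ₗ
          h2.symm.toLinearMap = b := by
        ext v
        show h2 (h2.symm (b (h2 (h2.symm v)))) = b v
        rw [e2, e2]
      rw [h3]
      exact hb
    · have main : ∀ v : LinearMap.range (1 - e - s), h2.symm (b (h2 (v : V))) - a v ∈ U := by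
        intro v
        have t1 : h2 (v : V) - (x2 v : V) ∈ U := by rw [← hr]; exact h2p v
        have t2 := hbw (ψ (x2 v))
        have t3 : (ψ.toLinearMap ∘ₗ (x2.toLinearMap ∘ₗ (a.restrict hap) ∘ₗ
            x2.symm.toLinearMap) ∘ₗ ψ.symm.toLinearMap) (ψ (x2 v)) =
            ψ (x2 (a.restrict hap v)) := by
          show ψ (x2 ((a.restrict hap) (x2.symm (ψ.symm (ψ (x2 v)))))) = _
          rw [ψ.symm_apply_apply, x2.symm_apply_apply]
        rw [t3, hψ, hψ] at t2
        have t4 : h2 ((a.restrict hap v : LinearMap.range (1 - e - s)) : V) -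
            (x2 (a.restrict hap v) : V) ∈ U := by rw [← hr]; exact h2p _
        have t5 : ((a.restrict hap v : LinearMap.range (1 - e - s)) : V) = a v := rfl
        rw [t5] at t4
        -- `b (h2 v) - h2 (a v) ∈ U`
        have t6 : b (h2 (v : V)) - h2 (a v) ∈ U := by
          have u1 : b (h2 (v : V) - (x2 v : V)) ∈ U := sA1 b hb _ t1
          have u2 : b (e1 (x2 v : V)) ∈ U := sA1 b hb _ (eR1 _)
          have u3 : e1 ((x2 (a.restrict hap v) : LinearMap.range (1 - e - s)) : V) ∈ U := eR1 _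
          have e5 : b (h2 (v : V)) - h2 (a v) = b (h2 (v : V) - (x2 v : V)) + b (e1 (x2 v : V)) -
              (e1 ((x2 (a.restrict hap v) : LinearMap.range (1 - e - s)) : V)) -
              (h2 (a v) - ((x2 (a.restrict hap v) : LinearMap.range (1 - e - s)) : V)) := by
            rw [map_sub] at t2
            rw [map_sub]
            have e6 : ((x2 (a.restrict hap v) : LinearMap.range (1 - e - s)) : V) -
              e1 ((x2 (a.restrict hap v) : LinearMap.range (1 - e - s)) : V) =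
              b (x2 v : V) - b (e1 (x2 v : V)) := t2
            have e7 : b (x2 v : V) = ((x2 (a.restrict hap v) : LinearMap.range (1 - e - s)) : V) -
              e1 ((x2 (a.restrict hap v) : LinearMap.range (1 - e - s)) : V) +
              b (e1 (x2 v : V)) := by
              rw [e6]
              abel
            rw [e7]
            abel
          rw [e5]
          exact U.sub_mem (U.sub_mem (U.add_mem u1 u2) u3) t4
        have t7 := h2s _ t6
        have t8 : h2.symm (b (h2 (v : V)) - h2 (a v)) = h2.symm (b (h2 (v : V))) - a v := by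
          rw [map_sub, e3]
        rw [← t8, t7]
        exact t6
      intro v hv
      have hsv : s v = 0 := hv
      have hv2 : v = e v + (1 - e - s) v := by
        show v = e v + (v - e v - s v)
        rw [hsv]
        abel
      have m1 := main ⟨(1 - e - s) v, ⟨v, rfl⟩⟩
      have m1' : h2.symm (b (h2 ((1 - e - s) v))) - a ((1 - e - s) v) ∈ U := m1
      have m2 : h2.symm (b (h2 (e v))) - a (e v) ∈ U := by
        have k1 : h2 (e v) = e v := h2U _ ⟨v, rfl⟩
        rw [k1, h2s _ (sA1 b hb _ (eR v))]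
        exact U.sub_mem (sA1 b hb _ (eR v)) (sA a ha _ (eR v))
      show h2.symm (b (h2 v)) - a v ∈ U
      have k2 : h2.symm (b (h2 v)) - a v = (h2.symm (b (h2 (e v))) - a (e v)) +
          (h2.symm (b (h2 ((1 - e - s) v))) - a ((1 - e - s) v)) := by
        conv_lhs => rw [hv2]
        rw [map_add, map_add, map_add, map_add]
        abel
      rw [k2]
      exact U.add_mem m2 m1'
  have hN1 := V1_half hf hA hA2 hi4 hr4 hU1 hUU hker4 hp4 hss4 sA sA2 r1' r2'
  have hN2 := V1_rev hA.toIsTorGL hA2.toIsTorGL hN1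
  obtain ⟨x, hx, hxc⟩ := compareF ε f hf A (pull h2 A1) hA hA2 hg U U1 hUU hU1 sA sA2 hN1 hN2
  exact step_F f A A1 h2 x hh2 hx hxc

end

theorem redI' (N q0 : ℕ) (IH : ∀ m < N, CoreFAt q0 m) (hGL : ∀ m ≤ N, CoreGLAt q0 m)
    (K V : Type) [Field K] [Finite K]
    [AddCommGroup V] [Module K V] [FiniteDimensional K V] (ε : K) (f : V → V → K)
    (A A' : Subalgebra K (Module.End K V)) (hN : finrank K V = N) (hq : q0 ≤ Nat.card K)
    (two : (2 : K) ≠ 0) (hf : IsHF (RingHom.id K) ε f) (hA : IsTor f A) (hA' : IsTor f A')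
    (hg : A ≤ Algebra.adjoin K (EndSet (sq (tor (RingHom.id K) f A))))
    (hS : SIso f A f A') (hc : Crit f A)
    (ho : ε = 1 → ∀ p ∈ A, p * p = p → IsAdj f p p → p ≠ 1 →
      OddPos (resF f (LinearMap.range p)) (restr A (LinearMap.range p)))
    (U : Submodule K V) (hU : U ≠ ⊥) (hiso : ∀ u ∈ U, ∀ v ∈ U, f u v = 0)
    (s1 : ∀ a ∈ A, ∀ v ∈ U, a v ∈ U) (s2 : ∀ a ∈ A', ∀ v ∈ U, a v ∈ U) :
    ∃ h ∈ sq (tor (RingHom.id K) f A) ⊔ sq (tor (RingHom.id K) f A'), CarriesTo h A A' := by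
  obtain ⟨e, s, hi, hr⟩ := V1_idem hf hA hiso s1
  obtain ⟨e', s', hi', hr'⟩ := V1_idem hf hA' hiso s2
  have hB : IsTorGL (restr A U) := by
    have := restr_isTorGL A hA.toIsTorGL e hi.he hi.idem
    rw [hr] at this
    exact this
  have hB' : IsTorGL (restr A' U) := by
    have := restr_isTorGL A' hA'.toIsTorGL e' hi'.he hi'.idem
    rw [hr'] at this
    exact this
  have hiU : Nonempty (restr A U ≃ₐ[K] restr A' U) := by
    have := iso_U two ε f hf A A' hA hA' hS hc e s e' s' hi hi' (by rw [hr, hr'])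
    rw [hr, hr'] at this
    exact this
  have hcU : CritGL (restr A U) := by
    have := critGL_U ε f hf A hA hc e s hi
    rw [hr] at this
    exact this
  obtain ⟨x, hx, hxc⟩ := hGL (finrank K U) (by rw [← hN]; exact Submodule.finrank_le U) K U
    (restr A U) (restr A' U) rfl hq hB hB' hiU hcU
  obtain ⟨h1, hh1, hh1x⟩ := ex_lift_iso_sup two ε f hf A A' hA hA' e s e' s' hi hi' U hr hr' x hx
  have I1 : ∀ v w, f (h1 v) (h1 w) = f v w := V1_isom hh1
  have e2 : ∀ v, h1 (h1.symm v) = v := fun v => h1.apply_symm_apply v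
  have e3 : ∀ v, h1.symm (h1 v) = v := fun v => h1.symm_apply_apply v
  have h1U : ∀ u ∈ U, h1 u ∈ U := by
    intro u hu
    have h3 : h1 u = (x ⟨u, hu⟩ : V) := hh1x ⟨u, hu⟩
    rw [h3]
    exact (x ⟨u, hu⟩).2
  have h1s : ∀ u ∈ U, h1.symm u ∈ U := by
    intro u hu
    have h3 : h1 (x.symm ⟨u, hu⟩ : V) = u := by
      rw [hh1x, x.apply_symm_apply]
    have h4 : h1.symm u = (x.symm ⟨u, hu⟩ : V) := by
      rw [← e3 (x.symm ⟨u, hu⟩ : V), h3]
    rw [h4]
    exact (x.symm ⟨u, hu⟩).2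
  have hA1 : IsTor f (pull h1 A') := pull_isTor f f h1 I1 A' hA'
  have hS1 : SIso f A f (pull h1 A') :=
    siso_trans f f f A A' (pull h1 A') hS (pull_siso f f h1 I1 A').2
  have sA1 : ∀ a ∈ pull h1 A', ∀ u ∈ U, a u ∈ U := by
    intro a ha u hu
    have h3 := s2 _ ha (h1 u) (h1U u hu)
    have h4 : (h1.toLinearMap ∘ₗ a ∘ₗ h1.symm.toLinearMap) (h1 u) = h1 (a (h1.symm (h1 u))) := rfl
    rw [h4, e3] at h3
    have h5 := h1s _ h3
    rw [e3] at h5
    exact h5
  have r1 : ∀ a ∈ A, ∃ b ∈ pull h1 A', ∀ u ∈ U, b u = a u := by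
    intro a ha
    have h3 : (a.restrict (s1 a ha)) ∈ restr A U := ⟨a, ha, fun w => rfl⟩
    obtain ⟨a', ha', haw⟩ := hxc _ h3
    refine ⟨h1.symm.toLinearMap ∘ₗ a' ∘ₗ h1.toLinearMap, ?_, ?_⟩
    · rw [mem_pull]
      have h3 : h1.toLinearMap ∘ₗ (h1.symm.toLinearMap ∘ₗ a' ∘ₗ h1.toLinearMap) ∘ₗ
          h1.symm.toLinearMap = a' := by
        ext v
        show h1 (h1.symm (a' (h1 (h1.symm v)))) = a' v
        rw [e2, e2]
      rw [h3]
      exact ha'
    · intro u hu
      show h1.symm (a' (h1 u)) = a u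
      have h4 : h1 u = (x ⟨u, hu⟩ : V) := hh1x ⟨u, hu⟩
      have h5 := haw (x ⟨u, hu⟩)
      have h6 : (x.toLinearMap ∘ₗ (a.restrict (s1 a ha)) ∘ₗ x.symm.toLinearMap) (x ⟨u, hu⟩) =
          x (a.restrict (s1 a ha) ⟨u, hu⟩) := by
        show x ((a.restrict (s1 a ha)) (x.symm (x ⟨u, hu⟩))) = _
        rw [x.symm_apply_apply]
      rw [h6] at h5
      rw [h4, ← h5, ← hh1x, e3]
      rfl
  obtain ⟨y, hy, hyc⟩ := V1_mid N q0 IH ε f A (pull h1 A') hN hq two hf hA hA1 hg hS1 hc ho U hU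
    hiso s1 sA1 r1
  exact step_F f A A' h1 y hh1 hy hyc

end Pool.Agent.CTO
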