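import Pool.Agent.CTO.T5

/-!
# T6: the core theorem

Strong induction on `N`: `∀ N, ∃ q0, ∀ m ≤ N, CoreFAt q0 m ∧ CoreGLAt q0 m` (the statements are monotone in
`q0`), then for dimension `N`: `q0(N)` = maximum of `q0(N-1)`, and the bounds of `coreGL N`, `gen_tor N`,
`irrF N`. Let `H = sq T ⊔ sq T'`. `A, A' ≤ adjoin (EndSet H)`, so subspaces stable under `H` are stable under
`A` and `A'`. If `H` is irreducible: `irrF`. If there is a stable `W ≠ ⊥, ⊤`: `W ⊓ W^⊥` is stable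
(`W^⊥` is stable, `H` consists of isometries). If it is not `⊥` it is a totally isotropic stable
subspace: `redI`. If it is `⊥`: `nondeg_proj` gives `p ∈ A ∩ A'` with `range p = W`, `p ≠ 0, 1`: `redN`.
-/

namespace Pool.Agent.CTO

open Module

theorem T6_stab {K V : Type} [Field K] [AddCommGroup V] [Module K V]
    (H : Subgroup (V ≃ₗ[K] V)) (W : Submodule K V) (hW : ∀ h ∈ H, ∀ v ∈ W, h v ∈ W)
    (a : Module.End K V) (ha : a ∈ Algebra.adjoin K (EndSet H)) : ∀ v ∈ W, a v ∈ W := by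
  induction ha using Algebra.adjoin_induction with
  | mem x hx =>
    obtain ⟨h, hh, rfl⟩ := hx
    exact fun v hv => hW h hh v hv
  | algebraMap r =>
    intro v hv
    rw [Module.algebraMap_end_apply]
    exact W.smul_mem r hv
  | add x y _ _ hx hy =>
    intro v hv
    exact W.add_mem (hx v hv) (hy v hv)
  | mul x y _ _ hx hy =>
    intro v hv
    exact hx _ (hy v hv)

theorem T6_mono {K V : Type} [Field K] [AddCommGroup V] [Module K V]
    (H H' : Subgroup (V ≃ₗ[K] V)) (h : H ≤ H') :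
    Algebra.adjoin K (EndSet H) ≤ Algebra.adjoin K (EndSet H') := by
  apply Algebra.adjoin_mono
  rintro x ⟨g, hg, rfl⟩
  exact ⟨g, h hg, rfl⟩

theorem T6_F_mono {q q' m : ℕ} (h : q ≤ q') (hF : CoreFAt q m) : CoreFAt q' m := by
  intro K V _ _ _ _ _ ε f A A' h1 h2
  exact hF K V ε f A A' h1 (h.trans h2)

theorem T6_GL_mono {q q' m : ℕ} (h : q ≤ q') (hF : CoreGLAt q m) : CoreGLAt q' m := by
  intro K V _ _ _ _ _ A A' h1 h2
  exact hF K V A A' h1 (h.trans h2)

theorem T6_step (N q0 : ℕ) (IH : ∀ m < N, CoreFAt q0 m) (hGL : ∀ m ≤ N, CoreGLAt q0 m)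
    (hgen : ∀ (K V : Type) [Field K] [Finite K] [AddCommGroup V]
      [Module K V] [FiniteDimensional K V] (ε : K) (f : V → V → K)
      (A : Subalgebra K (Module.End K V)),
      finrank K V = N → q0 ≤ Nat.card K → (2 : K) ≠ 0 → IsHF (RingHom.id K) ε f → IsTor f A →
      A ≤ Algebra.adjoin K (EndSet (sq (tor (RingHom.id K) f A))))
    (hirr : ∀ (K V : Type) [Field K] [Finite K] [AddCommGroup V]
      [Module K V] [FiniteDimensional K V] (ε : K) (f : V → V → K)
      (A A' : Subalgebra K (Module.End K V)),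
      finrank K V = N → q0 ≤ Nat.card K → (2 : K) ≠ 0 → IsHF (RingHom.id K) ε f → IsTor f A →
      IsTor f A' → SIso f A f A' → (ε = 1 → OddPos f A) →
      (∀ W : Submodule K V, (∀ h ∈ sq (tor (RingHom.id K) f A) ⊔ sq (tor (RingHom.id K) f A'),
        ∀ v ∈ W, h v ∈ W) → W = ⊥ ∨ W = ⊤) →
      ∃ h ∈ sq (tor (RingHom.id K) f A) ⊔ sq (tor (RingHom.id K) f A'), CarriesTo h A A') :
    CoreFAt q0 N := by
  intro K V _ _ _ _ _ ε f A A' hN hq two hf hA hA' hS hc ho
  by_cases hI : ∀ W : Submodule K V,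
      (∀ h ∈ sq (tor (RingHom.id K) f A) ⊔ sq (tor (RingHom.id K) f A'),
        ∀ v ∈ W, h v ∈ W) → W = ⊥ ∨ W = ⊤
  · exact hirr K V ε f A A' hN hq two hf hA hA' hS ho hI
  push Not at hI
  obtain ⟨W, hW, hW0, hW1⟩ := hI
  have hg := hgen K V ε f A hN hq two hf hA
  have hg' := hgen K V ε f A' hN hq two hf hA'
  have sA : ∀ a ∈ A, ∀ v ∈ W, a v ∈ W := fun a ha =>
    T6_stab _ W hW a (T6_mono _ _ le_sup_left (hg ha))
  have sA' : ∀ a ∈ A', ∀ v ∈ W, a v ∈ W := fun a ha =>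
    T6_stab _ W hW a (T6_mono _ _ le_sup_right (hg' ha))
  have hperp : ∀ B : Subalgebra K (Module.End K V), IsTor f B →
      (∀ a ∈ B, ∀ v ∈ W, a v ∈ W) →
      ∀ a ∈ B, ∀ v ∈ W ⊓ perp (RingHom.id K) ε f hf W,
        a v ∈ W ⊓ perp (RingHom.id K) ε f hf W := by
    intro B hB sB a ha v hv
    rw [Submodule.mem_inf] at hv ⊢
    refine ⟨sB a ha v hv.1, ?_⟩
    obtain ⟨b, hb, hab⟩ := hB.star a ha
    intro u hu
    rw [hab v u]
    exact hv.2 (b u) (sB b hb u hu)
  by_cases hU : W ⊓ perp (RingHom.id K) ε f hf W = ⊥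
  · obtain ⟨p, hp, hps, hr, hpA⟩ := nondeg_proj ε f hf W (by
      intro v hv h
      have h1 : v ∈ W ⊓ perp (RingHom.id K) ε f hf W := Submodule.mem_inf.2 ⟨hv, h⟩
      rw [hU] at h1
      exact (Submodule.mem_bot K).1 h1)
    refine redN N q0 IH K V ε f A A' hN hq two hf hA hA' hS hc ho p (hpA A hA sA)
      (hpA A' hA' sA') hp hps ?_ ?_
    · rintro rfl
      apply hW0
      rw [← hr, LinearMap.range_zero]
    · rintro rfl
      apply hW1
      rw [← hr]
      exact LinearMap.range_id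
  · refine redI N q0 IH hGL K V ε f A A' hN hq two hf hA hA' hg hS hc ho
      (W ⊓ perp (RingHom.id K) ε f hf W) hU ?_ (hperp A hA sA) (hperp A' hA' sA')
    intro u hu v hv
    exact hu.2 v hv.1

theorem T6_lt (N : ℕ) : ∃ q0 : ℕ, ∀ m < N, CoreFAt q0 m := by
  induction N with
  | zero => exact ⟨0, fun m hm => absurd hm (Nat.not_lt_zero m)⟩
  | succ N ih =>
    obtain ⟨q1, h1⟩ := ih
    choose qg hqg using coreGL
    obtain ⟨q3, h3⟩ := gen_tor N
    obtain ⟨q4, h4⟩ := irrF N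
    set q2 : ℕ := (Finset.range (N + 1)).sup qg with hq2
    have h2 : ∀ m ≤ N, CoreGLAt q2 m := fun m hm =>
      T6_GL_mono (Finset.le_sup (f := qg) (Finset.mem_range.2 (Nat.lt_succ_of_le hm))) (hqg m)
    set q0 : ℕ := max (max q1 q2) (max q3 q4) with hq0
    have e1 : q1 ≤ q0 := (le_max_left _ _).trans (le_max_left _ _)
    have e2 : q2 ≤ q0 := (le_max_right _ _).trans (le_max_left _ _)
    have e3 : q3 ≤ q0 := (le_max_left _ _).trans (le_max_right _ _)
    have e4 : q4 ≤ q0 := (le_max_right _ _).trans (le_max_right _ _)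
    refine ⟨q0, fun m hm => ?_⟩
    rcases Nat.lt_succ_iff_lt_or_eq.1 hm with h | rfl
    · exact T6_F_mono e1 (h1 m h)
    · refine T6_step m q0 (fun k hk => T6_F_mono e1 (h1 k hk))
        (fun k hk => T6_GL_mono e2 (h2 k hk)) ?_ ?_
      · intro K V _ _ _ _ _ ε f A hN hq
        exact h3 K V ε f A hN (e3.trans hq)
      · intro K V _ _ _ _ _ ε f A A' hN hq
        exact h4 K V ε f A A' hN (e4.trans hq)

theorem coreF (N : ℕ) : ∃ q0 : ℕ, ∀ m ≤ N, CoreFAt q0 m := by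
  obtain ⟨q0, h⟩ := T6_lt (N + 1)
  exact ⟨q0, fun m hm => h m (Nat.lt_succ_of_le hm)⟩

end Pool.Agent.CTO
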