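import Pool.Agent.CTO.Q1

/-!
# Q2: totally isotropic stable subspaces: lifting

`e, s ∈ A` with `e * e = e`, `IsAdj f e s`, `s * e = 0`. Then `s * s = s`, `e * s = 0` (`A` commutative),
`U = range e` is totally isotropic, `p = 1 - e - s` is a selfadjoint idempotent, `V = U ⊕ range p ⊕ range s`,
`U^⊥ = ker s = U ⊕ range p`, and `U`, `range s` are in duality by `f`.
* `ex_lift_iso`: for `t ∈ torGL (restr A U)`, `t = a|U`, `t⁻¹ = b|U` with `a, b ∈ A`; put
  `t̂ = a e + p + (b e)*`, where `(b e)* = b* s` is the adjoint; it is in `A`, equal to `t` on `U`, the identity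
  on `range p`; it is an isometry (compute `t̂* t̂ = (s a* + p + b e)(a e + p + b* s) = s a* b* s + p + b a e
  = s + p + e = 1`, because `a b e = e`, `(a b e)* = s`), and its determinant is one
  (`det (t̂ | range s) = det(b e | U)` by duality: `det` of the adjoint).
* `ex_lift_iso_sup`: closure induction; `range e = range e' = U`.
* `exists_psi_F`: `p = 1 - e - s`, `p' = 1 - e' - s'`, `range e = range e'`: `ψ v = v - e' v` for `v ∈ range p`
  (`v ∈ U^⊥ = ker s'`, so `p' v = v - e' v`); inverse `v' ↦ v' - e v'`; isometry since `e' v ∈ U` is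
  orthogonal to `U^⊥`.
* `ex_lift_mid`: for `t ∈ tor (restr A (range p))`: `t̂` of `ex_lift_tor` (identity on `ker p = U ⊕ range s`);
  for `t ∈ tor (pull ψ (restr A' (range p')))`: `t' = ψ t ψ⁻¹`, `t̂` of `ex_lift_tor` for `A'`; for `v ∈ range p`:
  `v = ψ v + e' v`, `t̂ v = ψ (t v) + e' v = t v - e' (t v) + e' v`. Closure induction.
-/

namespace Pool.Agent.CTO

open Module

/-! ### auxiliary lemmas -/

theorem q2_lift {G H : Type} [Group G] [Group H] (T1 T2 : Subgroup G) (S1 S2 : Subgroup H)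
    (R : Subgroup (G × H)) (h1 : ∀ t ∈ T1, ∃ s ∈ S1, (t, s) ∈ R)
    (h2 : ∀ t ∈ T2, ∃ s ∈ S2, (t, s) ∈ R) (x : G) (hx : x ∈ sq T1 ⊔ sq T2) :
    ∃ y ∈ sq S1 ⊔ sq S2, (x, y) ∈ R := by
  have hle : sq T1 ⊔ sq T2 ≤ (R ⊓ (sq S1 ⊔ sq S2).comap (MonoidHom.snd G H)).map
      (MonoidHom.fst G H) := by
    refine sup_le ?_ ?_
    · refine (Subgroup.closure_le _).2 ?_
      rintro _ ⟨t, ht, rfl⟩
      obtain ⟨s, hs, hr⟩ := h1 t ht
      refine ⟨(t * t, s * s), ⟨?_, ?_⟩, rfl⟩
      · have := R.mul_mem hr hr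
        simpa using this
      · show s * s ∈ sq S1 ⊔ sq S2
        exact (le_sup_left : sq S1 ≤ sq S1 ⊔ sq S2) (Subgroup.subset_closure ⟨s, hs, rfl⟩)
    · refine (Subgroup.closure_le _).2 ?_
      rintro _ ⟨t, ht, rfl⟩
      obtain ⟨s, hs, hr⟩ := h2 t ht
      refine ⟨(t * t, s * s), ⟨?_, ?_⟩, rfl⟩
      · have := R.mul_mem hr hr
        simpa using this
      · show s * s ∈ sq S1 ⊔ sq S2
        exact (le_sup_right : sq S2 ≤ sq S1 ⊔ sq S2) (Subgroup.subset_closure ⟨s, hs, rfl⟩)
  obtain ⟨⟨a, b⟩, ⟨hr, hb⟩, hab⟩ := hle hx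
  have : a = x := hab
  subst this
  exact ⟨b, hb, hr⟩

section aux

variable {K V : Type} [Field K] [AddCommGroup V] [Module K V]

theorem q2_add_right {ε : K} {f : V → V → K} (hf : IsHF (RingHom.id K) ε f) (u v w : V) :
    f u (v + w) = f u v + f u w := by
  rw [hf.herm (v + w) u, hf.herm v u, hf.herm w u, hf.add_left]
  simp only [RingHom.id_apply]
  ring

theorem q2_smul_right {ε : K} {f : V → V → K} (hf : IsHF (RingHom.id K) ε f) (a : K) (v w : V) :
    f v (a • w) = a * f v w := by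
  rw [hf.herm (a • w) v, hf.herm w v, hf.smul_left]
  simp only [RingHom.id_apply]
  ring

theorem q2_sub_right {ε : K} {f : V → V → K} (hf : IsHF (RingHom.id K) ε f) (u v w : V) :
    f u (v - w) = f u v - f u w := by
  have h := q2_add_right hf u (v - w) w
  rw [sub_add_cancel] at h
  rw [h]; ring

theorem q2_sub_left {ε : K} {f : V → V → K} (hf : IsHF (RingHom.id K) ε f) (u v w : V) :
    f (u - v) w = f u w - f v w := by
  have h := hf.add_left (u - v) v w
  rw [sub_add_cancel] at h
  rw [h]; ring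

theorem q2_zero_right {ε : K} {f : V → V → K} (hf : IsHF (RingHom.id K) ε f) (u : V) :
    f u 0 = 0 := by
  have h := q2_sub_right hf u 0 0
  rw [sub_self, sub_self] at h
  exact h

theorem q2_zero_left {ε : K} {f : V → V → K} (hf : IsHF (RingHom.id K) ε f) (u : V) :
    f 0 u = 0 := by
  have h := q2_sub_left hf 0 0 u
  rw [sub_self, sub_self] at h
  exact h

theorem q2_nondeg_right {ε : K} {f : V → V → K} (hf : IsHF (RingHom.id K) ε f) (w : V)
    (h : ∀ v, f v w = 0) : w = 0 := by
  refine hf.nondeg w fun v => ?_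
  rw [hf.herm v w, h v]
  simp

theorem q2_symm {ε : K} {f : V → V → K} (hf : IsHF (RingHom.id K) ε f) {S T : Module.End K V}
    (h : IsAdj f S T) : IsAdj f T S := by
  intro v w
  rw [hf.herm w (T v), hf.herm (S w) v, h w v]

theorem q2_uniq {ε : K} {f : V → V → K} (hf : IsHF (RingHom.id K) ε f) {S T T' : Module.End K V}
    (h : IsAdj f S T) (h' : IsAdj f S T') : T = T' := by
  ext w
  refine sub_eq_zero.1 (q2_nondeg_right hf _ fun v => ?_)
  rw [q2_sub_right hf, ← h v w, ← h' v w, sub_self]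

theorem q2_adj_mul {f : V → V → K} {S T S' T' : Module.End K V}
    (h : IsAdj f S T) (h' : IsAdj f S' T') : IsAdj f (S * S') (T' * T) := by
  intro v w
  rw [Module.End.mul_apply, Module.End.mul_apply, h, h']

theorem q2_adj_one {f : V → V → K} : IsAdj f (1 : Module.End K V) 1 := fun _ _ => rfl

theorem q2_adj_add {ε : K} {f : V → V → K} (hf : IsHF (RingHom.id K) ε f)
    {S T S' T' : Module.End K V}
    (h : IsAdj f S T) (h' : IsAdj f S' T') : IsAdj f (S + S') (T + T') := by
  intro v w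
  rw [LinearMap.add_apply, LinearMap.add_apply, hf.add_left, q2_add_right hf, h, h']

theorem q2_adj_sub {ε : K} {f : V → V → K} (hf : IsHF (RingHom.id K) ε f)
    {S T S' T' : Module.End K V}
    (h : IsAdj f S T) (h' : IsAdj f S' T') : IsAdj f (S - S') (T - T') := by
  intro v w
  rw [LinearMap.sub_apply, LinearMap.sub_apply, q2_sub_left hf, q2_sub_right hf, h, h']

/-- The isomorphism of `V` with its dual given by `f`. -/
theorem q2_dual [FiniteDimensional K V] {ε : K} {f : V → V → K} (hf : IsHF (RingHom.id K) ε f) :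
    ∃ B : V ≃ₗ[K] Module.Dual K V, ∀ v w, B v w = f v w := by
  let B0 : V →ₗ[K] Module.Dual K V :=
    { toFun := fun v =>
        { toFun := fun w => f v w
          map_add' := fun w w' => q2_add_right hf v w w'
          map_smul' := fun a w => by
            rw [q2_smul_right hf]; rfl }
      map_add' := fun v v' => by
        ext w
        exact hf.add_left v v' w
      map_smul' := fun a v => by
        ext w
        exact hf.smul_left a v w }
  have hinj : Function.Injective B0 := by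
    rw [← LinearMap.ker_eq_bot, LinearMap.ker_eq_bot']
    intro v hv
    refine hf.nondeg v fun w => ?_
    have := LinearMap.congr_fun hv w
    exact this
  refine ⟨LinearEquiv.ofInjectiveOfFinrankEq B0 hinj (Subspace.dual_finrank_eq).symm, ?_⟩
  intro v w
  rfl

theorem q2_det_adj [FiniteDimensional K V] {ε : K} {f : V → V → K}
    (hf : IsHF (RingHom.id K) ε f) {S T : Module.End K V} (h : IsAdj f S T) :
    LinearMap.det S = LinearMap.det T := by
  obtain ⟨B, hB⟩ := q2_dual hf
  have h1 : (B : V →ₗ[K] Module.Dual K V) ∘ₗ S ∘ₗ (B.symm : Module.Dual K V →ₗ[K] V)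
      = Module.Dual.transpose T := by
    ext φ w
    have hs := h (B.symm φ) w
    rw [← hB, ← hB, LinearEquiv.apply_symm_apply] at hs
    exact hs
  have h2 := LinearMap.det_conj S B
  rw [h1] at h2
  rw [← h2]
  exact LinearMap.det_dualMap T

/-- pairs `(x, y)` with `y w = x w` on `U`. -/
def q2_R1 (U : Submodule K V) : Subgroup ((U ≃ₗ[K] U) × (V ≃ₗ[K] V)) where
  carrier := {z | ∀ w : U, z.2 (w : V) = (z.1 w : V)}
  mul_mem' := by
    rintro ⟨a, b⟩ ⟨c, d⟩ h h' w
    have h1 : d (w : V) = (c w : V) := h' w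
    have h2 : b ((c w : U) : V) = (a (c w) : V) := h (c w)
    show b (d (w : V)) = ((a (c w) : U) : V)
    rw [h1, h2]
  one_mem' := by intro w; rfl
  inv_mem' := by
    rintro ⟨a, b⟩ h w
    have h2 : b ((a.symm w : U) : V) = (a (a.symm w) : V) := h (a.symm w)
    rw [LinearEquiv.apply_symm_apply] at h2
    show b.symm (w : V) = ((a.symm w : U) : V)
    rw [← h2, LinearEquiv.symm_apply_apply]

/-- pairs `(x, y)` with `y = 1` on `U`, `y v - x v ∈ U` for `v ∈ P`. -/
def q2_R2 (U P : Submodule K V) : Subgroup ((P ≃ₗ[K] P) × (V ≃ₗ[K] V)) where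
  carrier := {z | (∀ w ∈ U, z.2 w = w) ∧ ∀ v : P, z.2 (v : V) - (z.1 v : V) ∈ U}
  mul_mem' := by
    rintro ⟨a, b⟩ ⟨c, d⟩ ⟨h1, h2⟩ ⟨h3, h4⟩
    refine ⟨fun w hw => ?_, fun v => ?_⟩
    · show b (d w) = w
      have h3' : d w = w := h3 w hw
      have h1' : b w = w := h1 w hw
      rw [h3', h1']
    · show b (d (v : V)) - ((a (c v) : P) : V) ∈ U
      have h4' : d (v : V) - (c v : V) ∈ U := h4 v
      have h2' : b ((c v : P) : V) - (a (c v) : V) ∈ U := h2 (c v)
      have h1' : b (d (v : V) - (c v : V)) = d (v : V) - (c v : V) := h1 _ h4'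
      rw [map_sub] at h1'
      have : b (d (v : V)) - ((a (c v) : P) : V)
          = (d (v : V) - (c v : V)) + (b ((c v : P) : V) - (a (c v) : V)) := by
        rw [← h1']; abel
      rw [this]
      exact U.add_mem h4' h2'
  one_mem' := by
    refine ⟨fun w _ => rfl, fun v => ?_⟩
    show (v : V) - (v : V) ∈ U
    rw [sub_self]; exact U.zero_mem
  inv_mem' := by
    rintro ⟨a, b⟩ ⟨h1, h2⟩
    have hfix : ∀ w ∈ U, b.symm w = w := by
      intro w hw
      have h1' : b w = w := h1 w hw
      conv_lhs => rw [← h1']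
      exact b.symm_apply_apply w
    refine ⟨fun w hw => hfix w hw, fun v => ?_⟩
    show b.symm (v : V) - ((a.symm v : P) : V) ∈ U
    have h2' : b ((a.symm v : P) : V) - (a (a.symm v) : V) ∈ U := h2 (a.symm v)
    rw [LinearEquiv.apply_symm_apply] at h2'
    have h3 := hfix _ h2'
    rw [map_sub, LinearEquiv.symm_apply_apply] at h3
    have : b.symm (v : V) - ((a.symm v : P) : V)
        = - (b ((a.symm v : P) : V) - (v : V)) := by
      rw [← h3]; abel
    rw [this]
    exact U.neg_mem h2'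

end aux

section

variable {K V : Type} [Field K] [Finite K] [AddCommGroup V] [Module K V] [FiniteDimensional K V]

/-- `e ∈ A` is an idempotent with totally isotropic range, `s` its adjoint. -/
structure IsoIdem (f : V → V → K) (A : Subalgebra K (Module.End K V)) (e s : Module.End K V) :
    Prop where
  he : e ∈ A
  hs : s ∈ A
  idem : e * e = e
  adj : IsAdj f e s
  orth : s * e = 0

theorem isoIdem_p (ε : K) (f : V → V → K) (hf : IsHF (RingHom.id K) ε f)
    (A : Subalgebra K (Module.End K V)) (hA : IsTor f A) (e s : Module.End K V)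
    (h : IsoIdem f A e s) : (1 - e - s) ∈ A ∧ (1 - e - s) * (1 - e - s) = 1 - e - s ∧
      IsAdj f (1 - e - s) (1 - e - s) ∧ s * s = s ∧ e * s = 0 ∧
      (∀ v, s v = 0 ↔ ∀ u ∈ LinearMap.range e, f v u = 0) := by
  obtain ⟨he, hs, idem, adj, orth⟩ := h
  have adj' : IsAdj f s e := q2_symm hf adj
  have hss : s * s = s := by
    have h1 : IsAdj f (e * e) (s * s) := q2_adj_mul adj adj
    rw [idem] at h1
    exact q2_uniq hf h1 adj
  have hes : e * s = 0 := by
    rw [hA.comm e he s hs, orth]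
  refine ⟨A.sub_mem (A.sub_mem A.one_mem he) hs, ?_, ?_, hss, hes, ?_⟩
  · have : (1 - e - s) * (1 - e - s) = 1 - e - s - e + e * e + e * s - s + s * e + s * s := by
      noncomm_ring
    rw [this, idem, hss, hes, orth]
    abel
  · have h1 := q2_adj_sub hf (q2_adj_sub hf (q2_adj_one (f := f)) adj) adj'
    have : (1 : Module.End K V) - s - e = 1 - e - s := by abel
    rw [this] at h1
    exact h1
  · intro v
    constructor
    · rintro hv _ ⟨u, rfl⟩
      rw [← adj' v u, hv]
      exact q2_zero_left hf u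
    · intro hv
      refine hf.nondeg _ fun w => ?_
      rw [adj' v w]
      exact hv _ ⟨w, rfl⟩

theorem q2_lift_iso (ε : K) (f : V → V → K) (hf : IsHF (RingHom.id K) ε f)
    (A : Subalgebra K (Module.End K V)) (hA : IsTor f A)
    (e s : Module.End K V) (h : IsoIdem f A e s)
    (U : Submodule K V) (hU : LinearMap.range e = U) (t : U ≃ₗ[K] U)
    (ht : t ∈ torGL (restr A U)) :
    ∃ t' ∈ tor (RingHom.id K) f A, ∀ w : U, t' (w : V) = (t w : V) := by
  subst hU
  obtain ⟨he, hs, idem, adj, orth⟩ := h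
  have adj' : IsAdj f s e := q2_symm hf adj
  obtain ⟨⟨a, ha, hta⟩, ⟨b, hb, htb⟩⟩ := ht
  have hta' : ∀ w : LinearMap.range e, (t w : V) = a w := hta
  have htb' : ∀ w : LinearMap.range e, (t.symm w : V) = b w := htb
  have hev : ∀ v, e (e v) = e v := fun v => by
    rw [← Module.End.mul_apply, idem]
  have habv : ∀ v, a (b (e v)) = e v := by
    intro v
    have h1 := htb' ⟨e v, v, rfl⟩
    have h2 := hta' (t.symm ⟨e v, v, rfl⟩)
    rw [LinearEquiv.apply_symm_apply, h1] at h2
    exact h2.symm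
  have hab : a * b * e = e := by
    ext v
    exact habv v
  have hba : b * a * e = e := by
    rw [hA.comm b hb a ha, hab]
  have cae : a * e = e * a := hA.comm a ha e he
  have cbe : b * e = e * b := hA.comm b hb e he
  obtain ⟨a', ha', adja⟩ := hA.star a ha
  obtain ⟨b', hb', adjb⟩ := hA.star b hb
  set x : Module.End K V := a * e + (1 - e) with hx
  set y : Module.End K V := b * e + (1 - e) with hy
  set x' : Module.End K V := s * a' + (1 - s) with hx'
  set y' : Module.End K V := s * b' + (1 - s) with hy'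
  have hxA : x ∈ A := A.add_mem (A.mul_mem ha he) (A.sub_mem A.one_mem he)
  have hyA : y ∈ A := A.add_mem (A.mul_mem hb he) (A.sub_mem A.one_mem he)
  have hx'A : x' ∈ A := A.add_mem (A.mul_mem hs ha') (A.sub_mem A.one_mem hs)
  have hy'A : y' ∈ A := A.add_mem (A.mul_mem hs hb') (A.sub_mem A.one_mem hs)
  have adjx : IsAdj f x x' := q2_adj_add hf (q2_adj_mul adja adj) (q2_adj_sub hf q2_adj_one adj)
  have adjy : IsAdj f y y' := q2_adj_add hf (q2_adj_mul adjb adj) (q2_adj_sub hf q2_adj_one adj)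
  have hxy : x * y = 1 := by
    have h1 : x * y = a * (e * b) * e + a * e * (1 - e) + (1 - e) * b * e + (1 - e) * (1 - e) := by
      rw [hx, hy]; noncomm_ring
    have h2 : a * (e * b) * e = e := by
      rw [← cbe, ← mul_assoc, mul_assoc (a * b) e e, idem, hab]
    have h3 : a * e * (1 - e) = 0 := by
      rw [mul_assoc, mul_sub, mul_one, idem, sub_self, mul_zero]
    have h4 : (1 - e) * b * e = 0 := by
      rw [mul_assoc, cbe, ← mul_assoc, sub_mul, one_mul, idem, sub_self, zero_mul]
    have h5 : (1 - e) * (1 - e) = 1 - e := by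
      rw [sub_mul, mul_sub, mul_sub, idem]; simp
    rw [h1, h2, h3, h4, h5]; abel
  have hyx : y * x = 1 := by rw [hA.comm y hyA x hxA, hxy]
  have hyx' : y' * x' = 1 := by
    have h1 : IsAdj f (x * y) (y' * x') := q2_adj_mul adjx adjy
    rw [hxy] at h1
    exact q2_uniq hf h1 q2_adj_one
  have hxy' : x' * y' = 1 := by rw [hA.comm x' hx'A y' hy'A, hyx']
  have hone1 : (x * y') * (y * x') = 1 := by
    rw [hA.comm y hyA x' hx'A, mul_assoc, ← mul_assoc y' x' y, hyx', one_mul, hxy]
  have hone2 : (y * x') * (x * y') = 1 := by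
    rw [hA.comm _ (A.mul_mem hyA hx'A) _ (A.mul_mem hxA hy'A), hone1]
  let T : V ≃ₗ[K] V := LinearEquiv.ofLinearMap (x * y') (y * x') hone1 hone2
  have hT : T.toLinearMap = x * y' := rfl
  have hTi : (T⁻¹).toLinearMap = y * x' := rfl
  refine ⟨T, ⟨⟨?_, ?_⟩, ?_, ?_⟩, ?_⟩
  · rw [hT]; exact A.mul_mem hxA hy'A
  · rw [hTi]; exact A.mul_mem hyA hx'A
  · intro v w
    show f (x (y' v)) (x (y' w)) = f v w
    rw [adjx]
    have h1 : f (y' v) (x' (x (y' w))) = f v (y (x' (x (y' w)))) := (q2_symm hf adjy) _ _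
    rw [h1]
    have h2 : y (x' (x (y' w))) = ((y * x') * (x * y')) w := rfl
    rw [h2, hone2]
    rfl
  · intro _
    have h1 : LinearMap.det (x * y') = 1 := by
      have h2 : LinearMap.det (x * y') = LinearMap.det x * LinearMap.det y' := by
        rw [map_mul]
      rw [h2, ← q2_det_adj hf adjy, ← map_mul, hxy, map_one]
    apply Units.ext
    rw [LinearEquiv.coe_det, Units.val_one]
    exact h1
  · rintro ⟨w, v, rfl⟩
    show x (y' (e v)) = _
    have h1 : y' (e v) = e v := by
      have h2 : y' = b' * s + (1 - s) := by rw [hy', hA.comm s hs b' hb']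
      have h3 : s (e v) = 0 := by
        rw [← Module.End.mul_apply, orth]; rfl
      rw [h2]
      simp only [LinearMap.add_apply, LinearMap.sub_apply, Module.End.mul_apply,
        Module.End.one_apply]
      rw [h3, map_zero, sub_zero, zero_add]
    have h4 : x (e v) = a (e v) := by
      rw [hx]
      simp only [LinearMap.add_apply, LinearMap.sub_apply, Module.End.mul_apply,
        Module.End.one_apply]
      rw [hev, sub_self, add_zero]
    rw [h1, h4]
    exact (hta' ⟨e v, v, rfl⟩).symm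

theorem q2_psi_isom (ε : K) (f : V → V → K) (hf : IsHF (RingHom.id K) ε f)
    (A A' : Subalgebra K (Module.End K V)) (hA : IsTor f A) (hA' : IsTor f A')
    (e s e' s' : Module.End K V) (h : IsoIdem f A e s) (h' : IsoIdem f A' e' s')
    (hr : LinearMap.range e = LinearMap.range e') (v w : V)
    (hv : v ∈ LinearMap.range (1 - e - s)) (hw : w ∈ LinearMap.range (1 - e - s)) :
    (1 - e' - s') v = v - e' v ∧ (1 - e - s) (v - e' v) = v ∧
      f (v - e' v) (w - e' w) = f v w := by
  obtain ⟨p1, p2, p3, p4, p5, p6⟩ := isoIdem_p ε f hf A hA e s h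
  obtain ⟨r1, r2, r3, r4, r5, r6⟩ := isoIdem_p ε f hf A' hA' e' s' h'
  have hs0 : ∀ u, u ∈ LinearMap.range (1 - e - s) → s u = 0 := by
    rintro _ ⟨u, rfl⟩
    rw [← Module.End.mul_apply]
    have : s * (1 - e - s) = s - s * e - s * s := by noncomm_ring
    rw [this, h.orth, p4, sub_zero, sub_self]; rfl
  have hs0' : ∀ u, u ∈ LinearMap.range (1 - e - s) → s' u = 0 := by
    intro u hu
    rw [r6 u, ← hr, ← p6 u]
    exact hs0 u hu
  have hfix : ∀ u, u ∈ LinearMap.range (1 - e - s) → (1 - e - s) u = u := by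
    rintro _ ⟨u, rfl⟩
    rw [← Module.End.mul_apply, p2]
  have hpe : ∀ u, (1 - e - s) (e' u) = 0 := by
    intro u
    have : e' u ∈ LinearMap.range e := by rw [hr]; exact ⟨u, rfl⟩
    obtain ⟨z, hz⟩ := this
    rw [← hz, ← Module.End.mul_apply]
    have : (1 - e - s) * e = e - e * e - s * e := by noncomm_ring
    rw [this, h.idem, h.orth, sub_self, sub_zero]; rfl
  have h1 : ∀ u, u ∈ LinearMap.range (1 - e - s) → (1 - e' - s') u = u - e' u := by
    intro u hu
    simp only [LinearMap.sub_apply, Module.End.one_apply]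
    rw [hs0' u hu, sub_zero]
  refine ⟨h1 v hv, ?_, ?_⟩
  · rw [map_sub, hfix v hv, hpe v, sub_zero]
  · have h2 : f (v - e' v) (w - e' w) = f v (w - e' w) := by
      rw [← h1 v hv, ← h1 w hw, r3, ← Module.End.mul_apply, r2]
    rw [h2, q2_sub_right hf]
    have h3 : f v (e' w) = 0 := by
      rw [← (q2_symm hf h'.adj) v w, hs0' v hv]
      exact q2_zero_left hf w
    rw [h3, sub_zero]

theorem ex_lift_iso_sup (two : (2 : K) ≠ 0) (ε : K) (f : V → V → K)
    (hf : IsHF (RingHom.id K) ε f)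
    (A A' : Subalgebra K (Module.End K V)) (hA : IsTor f A) (hA' : IsTor f A')
    (e s e' s' : Module.End K V) (h : IsoIdem f A e s) (h' : IsoIdem f A' e' s')
    (U : Submodule K V) (hU : LinearMap.range e = U) (hU' : LinearMap.range e' = U) (x : U ≃ₗ[K] U)
    (hx : x ∈ sq (torGL (restr A U)) ⊔ sq (torGL (restr A' U))) :
    ∃ y ∈ sq (tor (RingHom.id K) f A) ⊔ sq (tor (RingHom.id K) f A'), ∀ w : U, y w = x w := by
  obtain ⟨y, hy, hr⟩ := q2_lift (torGL (restr A U)) (torGL (restr A' U))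
    (tor (RingHom.id K) f A) (tor (RingHom.id K) f A') (q2_R1 U)
    (fun t ht => q2_lift_iso ε f hf A hA e s h U hU t ht)
    (fun t ht => q2_lift_iso ε f hf A' hA' e' s' h' U hU' t ht) x hx
  exact ⟨y, hy, hr⟩

theorem exists_psi_F (ε : K) (f : V → V → K) (hf : IsHF (RingHom.id K) ε f)
    (A A' : Subalgebra K (Module.End K V)) (hA : IsTor f A) (hA' : IsTor f A')
    (e s e' s' : Module.End K V) (h : IsoIdem f A e s) (h' : IsoIdem f A' e' s')
    (hr : LinearMap.range e = LinearMap.range e') :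
    ∃ ψ : LinearMap.range (1 - e - s) ≃ₗ[K] LinearMap.range (1 - e' - s'),
      (∀ v : LinearMap.range (1 - e - s), (ψ v : V) = (v : V) - e' (v : V)) ∧
      ∀ v w : LinearMap.range (1 - e - s), f (ψ v) (ψ w) = f v w := by
  have key := q2_psi_isom ε f hf A A' hA hA' e s e' s' h h' hr
  have key' := q2_psi_isom ε f hf A' A hA' hA e' s' e s h' h hr.symm
  have hee : ∀ v, e' v ∈ LinearMap.range e := fun v => by rw [hr]; exact ⟨v, rfl⟩
  let p := 1 - e - s
  let p' := 1 - e' - s'
  let F : LinearMap.range p →ₗ[K] LinearMap.range p' :=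
    (p'.codRestrict (LinearMap.range p') (fun v => ⟨v, rfl⟩)) ∘ₗ (LinearMap.range p).subtype
  let G : LinearMap.range p' →ₗ[K] LinearMap.range p :=
    (p.codRestrict (LinearMap.range p) (fun v => ⟨v, rfl⟩)) ∘ₗ (LinearMap.range p').subtype
  have hF : ∀ v : LinearMap.range p, (F v : V) = (v : V) - e' (v : V) := fun v =>
    (key v v v.2 v.2).1
  have hG : ∀ v : LinearMap.range p', (G v : V) = (v : V) - e (v : V) := fun v =>
    (key' v v v.2 v.2).1
  have hGF : ∀ v, G (F v) = v := by
    intro v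
    apply Subtype.ext
    have h1 : (G (F v) : V) = p (F v : V) := rfl
    rw [h1, hF]
    exact (key v v v.2 v.2).2.1
  have hFG : ∀ v, F (G v) = v := by
    intro v
    apply Subtype.ext
    have h1 : (F (G v) : V) = p' (G v : V) := rfl
    rw [h1, hG]
    exact (key' v v v.2 v.2).2.1
  refine ⟨LinearEquiv.ofLinearMap F G (LinearMap.ext hFG) (LinearMap.ext hGF), hF, ?_⟩
  intro v w
  show f (F v : V) (F w : V) = f v w
  rw [hF, hF]
  exact (key v w v.2 w.2).2.2

theorem ex_lift_mid (ε : K) (f : V → V → K) (hf : IsHF (RingHom.id K) ε f)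
    (A A' : Subalgebra K (Module.End K V)) (hA : IsTor f A) (hA' : IsTor f A')
    (e s e' s' : Module.End K V) (h : IsoIdem f A e s) (h' : IsoIdem f A' e' s')
    (hr : LinearMap.range e = LinearMap.range e')
    (ψ : LinearMap.range (1 - e - s) ≃ₗ[K] LinearMap.range (1 - e' - s'))
    (hψ : ∀ v : LinearMap.range (1 - e - s), (ψ v : V) = (v : V) - e' (v : V))
    (x : LinearMap.range (1 - e - s) ≃ₗ[K] LinearMap.range (1 - e - s))
    (hx : x ∈ sq (tor (RingHom.id K) (resF f (LinearMap.range (1 - e - s)))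
        (restr A (LinearMap.range (1 - e - s)))) ⊔
      sq (tor (RingHom.id K) (resF f (LinearMap.range (1 - e - s)))
        (pull ψ (restr A' (LinearMap.range (1 - e' - s')))))) :
    ∃ y ∈ sq (tor (RingHom.id K) f A) ⊔ sq (tor (RingHom.id K) f A'),
      (∀ w ∈ LinearMap.range e, y w = w) ∧
      ∀ v : LinearMap.range (1 - e - s), y (v : V) - (x v : V) ∈ LinearMap.range e := by
  obtain ⟨p1, p2, p3, p4, p5, p6⟩ := isoIdem_p ε f hf A hA e s h
  obtain ⟨r1, r2, r3, r4, r5, r6⟩ := isoIdem_p ε f hf A' hA' e' s' h'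
  have key := q2_psi_isom ε f hf A A' hA hA' e s e' s' h h' hr
  have hpe : ∀ w ∈ LinearMap.range e, (1 - e - s) w = 0 := by
    rintro _ ⟨z, rfl⟩
    rw [← Module.End.mul_apply]
    have : (1 - e - s) * e = e - e * e - s * e := by noncomm_ring
    rw [this, h.idem, h.orth, sub_self, sub_zero]; rfl
  have hpe' : ∀ w ∈ LinearMap.range e', (1 - e' - s') w = 0 := by
    rintro _ ⟨z, rfl⟩
    rw [← Module.End.mul_apply]
    have : (1 - e' - s') * e' = e' - e' * e' - s' * e' := by noncomm_ring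
    rw [this, h'.idem, h'.orth, sub_self, sub_zero]; rfl
  have H1 : ∀ t ∈ tor (RingHom.id K) (resF f (LinearMap.range (1 - e - s)))
      (restr A (LinearMap.range (1 - e - s))), ∃ t' ∈ tor (RingHom.id K) f A,
      (t, t') ∈ q2_R2 (LinearMap.range e) (LinearMap.range (1 - e - s)) := by
    intro t ht
    obtain ⟨t', ht', h1, h2⟩ := ex_lift_tor ε f hf A hA (1 - e - s) p1 p2 p3 t ht
    refine ⟨t', ht', fun w hw => h2 w (hpe w hw), fun v => ?_⟩
    show t' (v : V) - (t v : V) ∈ LinearMap.range e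
    rw [h1 v, sub_self]
    exact Submodule.zero_mem _
  have H2 : ∀ t ∈ tor (RingHom.id K) (resF f (LinearMap.range (1 - e - s)))
      (pull ψ (restr A' (LinearMap.range (1 - e' - s')))), ∃ t' ∈ tor (RingHom.id K) f A',
      (t, t') ∈ q2_R2 (LinearMap.range e) (LinearMap.range (1 - e - s)) := by
    intro t ht
    obtain ⟨⟨ht1, ht2⟩, ht3, ht4⟩ := ht
    let tt : LinearMap.range (1 - e' - s') ≃ₗ[K] LinearMap.range (1 - e' - s') :=
      ψ.symm.trans (t.trans ψ)
    have htt : tt ∈ tor (RingHom.id K) (resF f (LinearMap.range (1 - e' - s')))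
        (restr A' (LinearMap.range (1 - e' - s'))) := by
      refine ⟨⟨ht1, ht2⟩, ?_, ?_⟩
      · intro v w
        have hiso : ∀ a b : LinearMap.range (1 - e - s), f (ψ a : V) (ψ b : V) = f a b := by
          intro a b
          rw [hψ, hψ]
          exact (key a b a.2 b.2).2.2
        show f (ψ (t (ψ.symm v)) : V) (ψ (t (ψ.symm w)) : V) = f v w
        have h3 := ht3 (ψ.symm v) (ψ.symm w)
        have h3' : f (t (ψ.symm v) : V) (t (ψ.symm w) : V) = f (ψ.symm v : V) (ψ.symm w : V) := h3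
        rw [hiso, h3', ← hiso, LinearEquiv.apply_symm_apply, LinearEquiv.apply_symm_apply]
      · intro hid
        have h5 := LinearEquiv.det_conj t ψ
        have h6 : ψ.symm ≪≫ₗ t ≪≫ₗ ψ = tt := rfl
        rw [h6] at h5
        rw [h5, ht4 hid]
    obtain ⟨t', ht', h1, h2⟩ := ex_lift_tor ε f hf A' hA' (1 - e' - s') r1 r2 r3 tt htt
    have hfix : ∀ w ∈ LinearMap.range e, t' w = w := by
      intro w hw
      refine h2 w (hpe' w ?_)
      rw [← hr]; exact hw
    refine ⟨t', ht', hfix, fun v => ?_⟩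
    show t' (v : V) - (t v : V) ∈ LinearMap.range e
    have hv1 : (v : V) = (ψ v : V) + e' (v : V) := by rw [hψ]; abel
    have hv2 : t' (ψ v : V) = (ψ (t v) : V) := by
      rw [h1 (ψ v)]
      show ((ψ (t (ψ.symm (ψ v)))) : V) = _
      rw [LinearEquiv.symm_apply_apply]
    have hv3 : t' (e' (v : V)) = e' (v : V) := hfix _ (by rw [hr]; exact ⟨_, rfl⟩)
    have hv4 : t' (v : V) - (t v : V) = e' (v : V) - e' (t v : V) := by
      conv_lhs => rw [hv1]
      rw [map_add, hv2, hv3, hψ]
      abel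
    rw [hv4, hr]
    exact Submodule.sub_mem _ ⟨_, rfl⟩ ⟨_, rfl⟩
  obtain ⟨y, hy, hr⟩ := q2_lift _ _ _ _ _ H1 H2 x hx
  exact ⟨y, hy, hr⟩

end

end Pool.Agent.CTO
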