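import Pool.Agent.CTO.Pron
import Pool.Agent.CTO.Q2

/-!
# Z5: the negative direction, second part (positive cycles of even length)

`f` symmetric. `e ∈ A` a primitive idempotent with adjoint `s`, `s e = 0`, `m = rank e` even, `h = e + s`,
`M = range h`, `dim M = 2 m`, `V = M ⊕ ker h` orthogonal.
Call a similitude `y` of `V` with multiplier `μ` and `y M = M` proper on `M` if `det (y|M) = μ ^ m`. The proper
ones form a group.
(1) `t ∈ A`, a similitude: `t = b` on `range e`, `c` on `range s`, with `f(b u, c v) = μ f(u,v)` for `u ∈ range e`,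
`v ∈ range s`; as these spaces are in duality `det b det c = μ^m`: proper.
(2) `y` a similitude with `y A y⁻¹ = A`, `y M = M`: then `y h y⁻¹ = h` (selfadjoint idempotent of `A` with range
`M`) and `y e y⁻¹ ∈ {e, s}`: it is a primitive idempotent of `A` below `h = e + s`, and `e`, `s` are primitive.
So `y` preserves or exchanges `range e` and `range s`. In the first case `y` is proper as in (1). In the
second case let `y = b : range e → range s`, `c : range s → range e`; in dual bases `u_i`, `v_i`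
(`f(u_i, v_j) = δ_ij`) with matrices `B`, `C`, `f(b u_i, c v_j) = (Bᵀ C)_ij = μ δ_ij`, so `det B det C = μ^m`, and
`det (y|M) = det [[0, C],[B, 0]] = (-1)^m det B det C = μ^m` as `m` is even: proper.
Let `g = r * r'` with reflections `r` in `u ∈ M` and `r'` in `v ∈ ker h`; `g` is an isometry, `g M = M`,
`det (g|M) = -1`: not proper on `M` (`2 ≠ 0`). Let `T = Γ ⊓ torGL A` and suppose there is `x ∈ T ⊔ g T g⁻¹` with
`x T x⁻¹ = g T g⁻¹`. The elements of `T` are proper on `M` by (1), and so are their conjugates by `g`, so `x`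
is proper on `M`. As in Z4, `y = x⁻¹ g` satisfies `y A y⁻¹ = A`, `y M = M`, so it is proper on `M` by (2), and
so is `g = x y`: contradiction.
-/

namespace Pool.Agent.CTO

open Module

variable {K V : Type} [Field K] [Finite K] [AddCommGroup V] [Module K V] [FiniteDimensional K V]

/-- `e` is a primitive idempotent of `A`. -/
def IsPrim (A : Subalgebra K (Module.End K V)) (e : Module.End K V) : Prop :=
  e ∈ A ∧ e * e = e ∧ e ≠ 0 ∧ ∀ a ∈ A, a * a = a → a * e = a → a = 0 ∨ a = e

section Z5aux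

variable {f : V → V → K}

omit [Finite K] [FiniteDimensional K V] in
theorem Z5_symm (hf : IsHF (RingHom.id K) 1 f) (v w : V) : f w v = f v w := by
  have := hf.herm v w
  simpa using this

omit [Finite K] [FiniteDimensional K V] in
theorem Z5_add_right (hf : IsHF (RingHom.id K) 1 f) (u v w : V) : f u (v + w) = f u v + f u w := by
  rw [Z5_symm hf (v + w) u, hf.add_left, Z5_symm hf u v, Z5_symm hf u w]

omit [Finite K] [FiniteDimensional K V] in
theorem Z5_smul_right (hf : IsHF (RingHom.id K) 1 f) (a : K) (v w : V) : f v (a • w) = a * f v w := by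
  rw [Z5_symm hf (a • w) v, hf.smul_left, Z5_symm hf v w]

omit [Finite K] [FiniteDimensional K V] in
theorem Z5_sub_left (hf : IsHF (RingHom.id K) 1 f) (u v w : V) : f (u - v) w = f u w - f v w := by
  have h1 : u - v = u + (-1 : K) • v := by rw [neg_smul, one_smul, sub_eq_add_neg]
  rw [h1, hf.add_left, hf.smul_left]; ring

omit [Finite K] [FiniteDimensional K V] in
theorem Z5_sub_right (hf : IsHF (RingHom.id K) 1 f) (u v w : V) : f u (v - w) = f u v - f u w := by
  rw [Z5_symm hf (v - w) u, Z5_sub_left hf, Z5_symm hf u v, Z5_symm hf u w]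

omit [Finite K] [FiniteDimensional K V] in
theorem Z5_zero_left (hf : IsHF (RingHom.id K) 1 f) (v : V) : f 0 v = 0 := by
  have h := hf.smul_left 0 0 v
  rwa [zero_smul, zero_mul] at h

omit [Finite K] [FiniteDimensional K V] in
theorem Z5_zero_right (hf : IsHF (RingHom.id K) 1 f) (v : V) : f v 0 = 0 := by
  rw [Z5_symm hf 0 v, Z5_zero_left hf]

omit [Finite K] [FiniteDimensional K V] in
theorem Z5_ext (hf : IsHF (RingHom.id K) 1 f) (v w : V) (h : ∀ x, f v x = f w x) : v = w := by
  have h1 : v - w = 0 := by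
    apply hf.nondeg
    intro x
    rw [Z5_sub_left hf, h x, sub_self]
  exact sub_eq_zero.mp h1

omit [Finite K] in
/-- antidiagonal blocks -/
theorem Z5_det_anti {m : ℕ} (hm : Even m) (S R : Matrix (Fin m) (Fin m) K) :
    (Matrix.fromBlocks 0 S R 0).det = S.det * R.det := by
  have hJ : (Matrix.fromBlocks (0 : Matrix (Fin m) (Fin m) K) (1 : Matrix (Fin m) (Fin m) K)
      (1 : Matrix (Fin m) (Fin m) K) (0 : Matrix (Fin m) (Fin m) K)).det = 1 := by
    have h1 : Matrix.fromBlocks (0 : Matrix (Fin m) (Fin m) K) (1 : Matrix (Fin m) (Fin m) K)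
        (1 : Matrix (Fin m) (Fin m) K) (0 : Matrix (Fin m) (Fin m) K) *
        Matrix.fromBlocks (1 : Matrix (Fin m) (Fin m) K) (0 : Matrix (Fin m) (Fin m) K)
        (1 : Matrix (Fin m) (Fin m) K) (1 : Matrix (Fin m) (Fin m) K) =
        Matrix.fromBlocks (1 : Matrix (Fin m) (Fin m) K) (1 : Matrix (Fin m) (Fin m) K)
        (1 : Matrix (Fin m) (Fin m) K) (0 : Matrix (Fin m) (Fin m) K) := by
      rw [Matrix.fromBlocks_multiply]; simp
    have h2 := congrArg Matrix.det h1
    rw [Matrix.det_mul, Matrix.det_fromBlocks_zero₁₂, Matrix.det_fromBlocks_one₁₁] at h2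
    rw [Matrix.det_one, mul_one, mul_one, Matrix.mul_one, zero_sub, Matrix.det_neg, Matrix.det_one,
      Fintype.card_fin, hm.neg_one_pow, mul_one] at h2
    exact h2
  have h3 : Matrix.fromBlocks 0 S R 0 = Matrix.fromBlocks S 0 0 R * Matrix.fromBlocks 0 1 1 0 := by
    rw [Matrix.fromBlocks_multiply]; simp
  rw [h3, Matrix.det_mul, hJ, Matrix.det_fromBlocks_zero₂₁, mul_one]

omit [Finite K] in
theorem Z5_det {M : Type} [AddCommGroup M] [Module K M] {m : ℕ} (hm : Even m) (F : M → M → K)
    (hadd : ∀ u v w, F (u + v) w = F u w + F v w) (hsmul : ∀ (a : K) v w, F (a • v) w = a * F v w)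
    (hsymm : ∀ v w, F v w = F w v) (b : Basis (Fin m ⊕ Fin m) K M)
    (h1 : ∀ i j, F (b (Sum.inl i)) (b (Sum.inl j)) = 0)
    (h2 : ∀ i j, F (b (Sum.inr i)) (b (Sum.inr j)) = 0)
    (h3 : ∀ i j, F (b (Sum.inl i)) (b (Sum.inr j)) = if i = j then 1 else 0)
    (y : M ≃ₗ[K] M) (μ : K) (hy : ∀ v w, F (y v) (y w) = μ * F v w)
    (hc : ((∀ i j, F (y (b (Sum.inl i))) (b (Sum.inl j)) = 0) ∧
           (∀ i j, F (y (b (Sum.inr i))) (b (Sum.inr j)) = 0)) ∨
          ((∀ i j, F (y (b (Sum.inl i))) (b (Sum.inr j)) = 0) ∧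
           (∀ i j, F (y (b (Sum.inr i))) (b (Sum.inl j)) = 0))) :
    ((LinearEquiv.det y : Kˣ) : K) = μ ^ m := by
  let Φ : M → (M →ₗ[K] K) := fun w =>
    { toFun := fun x => F x w
      map_add' := fun x z => hadd x z w
      map_smul' := fun a x => by rw [hsmul]; rfl }
  have hΦ : ∀ w x, Φ w x = F x w := fun _ _ => rfl
  have hexp : ∀ x w, F x w = ∑ k, b.repr x (Sum.inl k) * F (b (Sum.inl k)) w +
      ∑ k, b.repr x (Sum.inr k) * F (b (Sum.inr k)) w := by
    intro x w
    rw [← hΦ w x]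
    conv_lhs => rw [← b.sum_repr x]
    rw [map_sum, Fintype.sum_sum_type]
    simp only [hΦ, hsmul]
  have hr1 : ∀ x j, b.repr x (Sum.inl j) = F x (b (Sum.inr j)) := by
    intro x j
    rw [hexp x (b (Sum.inr j))]
    simp [h2, h3]
  have hr2 : ∀ x j, b.repr x (Sum.inr j) = F x (b (Sum.inl j)) := by
    intro x j
    rw [hexp x (b (Sum.inl j))]
    have : ∀ k, F (b (Sum.inr k)) (b (Sum.inl j)) = if j = k then 1 else 0 := by
      intro k
      rw [hsymm, h3]
    simp [h1, this]
  have hpars : ∀ x w, F x w = ∑ k, F x (b (Sum.inr k)) * F w (b (Sum.inl k)) +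
      ∑ k, F x (b (Sum.inl k)) * F w (b (Sum.inr k)) := by
    intro x w
    rw [hexp x w]
    congr 1
    · refine Finset.sum_congr rfl fun k _ => ?_
      rw [hr1, hsymm (b (Sum.inl k)) w]
    · refine Finset.sum_congr rfl fun k _ => ?_
      rw [hr2, hsymm (b (Sum.inr k)) w]
  have hmat : LinearMap.toMatrix b b y.toLinearMap = Matrix.fromBlocks
      (Matrix.of fun k j => F (y (b (Sum.inl j))) (b (Sum.inr k)))
      (Matrix.of fun k j => F (y (b (Sum.inr j))) (b (Sum.inr k)))
      (Matrix.of fun k j => F (y (b (Sum.inl j))) (b (Sum.inl k)))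
      (Matrix.of fun k j => F (y (b (Sum.inr j))) (b (Sum.inl k))) := by
    ext i j
    rw [LinearMap.toMatrix_apply]
    rcases i with i | i <;> rcases j with j | j
    · simp [hr1]
    · simp [hr1]
    · simp [hr2]
    · simp [hr2]
  have hpar : ∀ i j, (∑ k, F (y (b (Sum.inl i))) (b (Sum.inr k)) * F (y (b (Sum.inr j))) (b (Sum.inl k)) +
      ∑ k, F (y (b (Sum.inl i))) (b (Sum.inl k)) * F (y (b (Sum.inr j))) (b (Sum.inr k))) =
      μ * if i = j then 1 else 0 := by
    intro i j
    rw [← hpars, hy, h3]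
  rw [LinearEquiv.coe_det, ← LinearMap.det_toMatrix b, hmat]
  rcases hc with ⟨hc1, hc2⟩ | ⟨hc1, hc2⟩
  · have e1 : (Matrix.of fun k j => F (y (b (Sum.inr j))) (b (Sum.inr k))) = 0 := by
      ext i j; simp [hc2]
    have e2 : (Matrix.of fun k j => F (y (b (Sum.inl j))) (b (Sum.inl k))) = 0 := by
      ext i j; simp [hc1]
    rw [e1, e2, Matrix.det_fromBlocks_zero₂₁, ← Matrix.det_transpose (Matrix.of _), ← Matrix.det_mul]
    have e3 : (Matrix.of fun k j => F (y (b (Sum.inl j))) (b (Sum.inr k))).transpose *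
        (Matrix.of fun k j => F (y (b (Sum.inr j))) (b (Sum.inl k))) =
        μ • (1 : Matrix (Fin m) (Fin m) K) := by
      ext i j
      rw [Matrix.mul_apply, Matrix.smul_apply, Matrix.one_apply, smul_eq_mul, ← hpar i j]
      simp [hc1]
    rw [e3, Matrix.det_smul, Matrix.det_one, mul_one, Fintype.card_fin]
  · have e1 : (Matrix.of fun k j => F (y (b (Sum.inl j))) (b (Sum.inr k))) = 0 := by
      ext i j; simp [hc1]
    have e2 : (Matrix.of fun k j => F (y (b (Sum.inr j))) (b (Sum.inl k))) = 0 := by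
      ext i j; simp [hc2]
    rw [e1, e2, Z5_det_anti hm, mul_comm, ← Matrix.det_transpose (Matrix.of _), ← Matrix.det_mul]
    have e3 : (Matrix.of fun k j => F (y (b (Sum.inl j))) (b (Sum.inl k))).transpose *
        (Matrix.of fun k j => F (y (b (Sum.inr j))) (b (Sum.inr k))) =
        μ • (1 : Matrix (Fin m) (Fin m) K) := by
      ext i j
      rw [Matrix.mul_apply, Matrix.smul_apply, Matrix.one_apply, smul_eq_mul, ← hpar i j]
      simp [hc1]
    rw [e3, Matrix.det_smul, Matrix.det_one, mul_one, Fintype.card_fin]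

omit [Finite K] [FiniteDimensional K V] in
theorem Z5_facts (hf : IsHF (RingHom.id K) 1 f) (A : Subalgebra K (Module.End K V)) (hA : IsTor f A)
    (e s : Module.End K V) (h : IsoIdem f A e s) :
    IsAdj f s e ∧ s * s = s ∧ e * s = 0 := by
  have h1 : IsAdj f s e := by
    intro v w
    rw [Z5_symm hf w (s v), ← h.adj w v, Z5_symm hf v (e w)]
  refine ⟨h1, ?_, ?_⟩
  · ext v
    apply Z5_ext hf
    intro x
    rw [Module.End.mul_apply, h1, h1, h1]
    have : e (e x) = e x := by rw [← Module.End.mul_apply, h.idem]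
    rw [this]
  · rw [hA.comm e h.he s h.hs, h.orth]

omit [Finite K] in
theorem Z5_basis (hf : IsHF (RingHom.id K) 1 f) (A : Subalgebra K (Module.End K V)) (hA : IsTor f A)
    (e s : Module.End K V) (h : IsoIdem f A e s) :
    finrank K (LinearMap.range s) = finrank K (LinearMap.range e) ∧
    ∃ b : Basis (Fin (finrank K (LinearMap.range e)) ⊕ Fin (finrank K (LinearMap.range e))) K
      (LinearMap.range (e + s)),
      (∀ i, e (b (Sum.inl i) : V) = b (Sum.inl i)) ∧ (∀ i, s (b (Sum.inr i) : V) = b (Sum.inr i)) ∧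
      ∀ i j, f (b (Sum.inl i) : V) (b (Sum.inr j) : V) = if i = j then 1 else 0 := by
  obtain ⟨hadj, hss, hes⟩ := Z5_facts hf A hA e s h
  have hee : ∀ x, e (e x) = e x := fun x => by rw [← Module.End.mul_apply, h.idem]
  have hss' : ∀ x, s (s x) = s x := fun x => by rw [← Module.End.mul_apply, hss]
  have hes' : ∀ x, e (s x) = 0 := fun x => by rw [← Module.End.mul_apply, hes]; rfl
  have hse' : ∀ x, s (e x) = 0 := fun x => by rw [← Module.End.mul_apply, h.orth]; rfl
  have hU : ∀ x : LinearMap.range e, e (x : V) = x := by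
    rintro ⟨x, z, rfl⟩; exact hee z
  have hS : ∀ x : LinearMap.range s, s (x : V) = x := by
    rintro ⟨x, z, rfl⟩; exact hss' z
  let θ : LinearMap.range s →ₗ[K] Dual K (LinearMap.range e) :=
    { toFun := fun v =>
        { toFun := fun u => f (u : V) (v : V)
          map_add' := fun a b => hf.add_left _ _ _
          map_smul' := fun a b => hf.smul_left _ _ _ }
      map_add' := fun a b => by
        ext u
        exact Z5_add_right hf _ _ _
      map_smul' := fun a b => by
        ext u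
        exact Z5_smul_right hf _ _ _ }
  let θ' : LinearMap.range e →ₗ[K] Dual K (LinearMap.range s) :=
    { toFun := fun v =>
        { toFun := fun u => f (u : V) (v : V)
          map_add' := fun a b => hf.add_left _ _ _
          map_smul' := fun a b => hf.smul_left _ _ _ }
      map_add' := fun a b => by
        ext u
        exact Z5_add_right hf _ _ _
      map_smul' := fun a b => by
        ext u
        exact Z5_smul_right hf _ _ _ }
  have hθ : ∀ (v : LinearMap.range s) (u : LinearMap.range e), θ v u = f (u : V) (v : V) :=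
    fun _ _ => rfl
  have hθ' : ∀ (v : LinearMap.range e) (u : LinearMap.range s), θ' v u = f (u : V) (v : V) :=
    fun _ _ => rfl
  have hinj : Function.Injective θ := by
    rw [injective_iff_map_eq_zero]
    intro v hv
    apply Subtype.ext
    apply hf.nondeg
    intro x
    have h1 := hθ v ⟨e x, x, rfl⟩
    rw [hv] at h1
    have h2 : f (e x) (v : V) = 0 := h1.symm
    rw [h.adj, hS] at h2
    rw [Z5_symm hf x v, h2]
  have hinj' : Function.Injective θ' := by
    rw [injective_iff_map_eq_zero]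
    intro v hv
    apply Subtype.ext
    apply hf.nondeg
    intro x
    have h1 := hθ' v ⟨s x, x, rfl⟩
    rw [hv] at h1
    have h2 : f (s x) (v : V) = 0 := h1.symm
    rw [hadj, hU] at h2
    rw [Z5_symm hf x v, h2]
  have hfr : finrank K (LinearMap.range s) = finrank K (LinearMap.range e) := by
    have h1 := LinearMap.finrank_le_finrank_of_injective hinj
    have h2 := LinearMap.finrank_le_finrank_of_injective hinj'
    rw [Subspace.dual_finrank_eq] at h1 h2
    exact le_antisymm h1 h2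
  refine ⟨hfr, ?_⟩
  let θe : LinearMap.range s ≃ₗ[K] Dual K (LinearMap.range e) :=
    LinearMap.linearEquivOfInjective θ hinj (by rw [Subspace.dual_finrank_eq, hfr])
  let u := finBasis K (LinearMap.range e)
  let v := u.dualBasis.map θe.symm
  let E : (LinearMap.range e × LinearMap.range s) ≃ₗ[K] LinearMap.range (e + s) :=
    { toFun := fun p => ⟨(p.1 : V) + (p.2 : V), (p.1 : V) + (p.2 : V), by
        rw [LinearMap.add_apply, map_add, map_add, hU, hS]
        have h1 : e (p.2 : V) = 0 := by rw [← hS p.2, hes']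
        have h2 : s (p.1 : V) = 0 := by rw [← hU p.1, hse']
        rw [h1, h2, add_zero, zero_add]⟩
      map_add' := fun p q => by
        apply Subtype.ext
        simp only [Prod.fst_add, Prod.snd_add, Submodule.coe_add]
        abel
      map_smul' := fun a p => by
        apply Subtype.ext
        simp only [Prod.smul_fst, Prod.smul_snd, Submodule.coe_smul, RingHom.id_apply, smul_add]
      invFun := fun x => (⟨e x, x, rfl⟩, ⟨s x, x, rfl⟩)
      left_inv := by
        rintro ⟨a, b⟩
        have h1 : e (b : V) = 0 := by rw [← hS b, hes']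
        have h2 : s (a : V) = 0 := by rw [← hU a, hse']
        ext
        · simp [h1, hU]
        · simp [h2, hS]
      right_inv := by
        rintro ⟨x, z, rfl⟩
        apply Subtype.ext
        simp only [LinearMap.add_apply, map_add, hee, hss', hes', hse', add_zero, zero_add] }
  have hE : ∀ p, (E p : V) = (p.1 : V) + (p.2 : V) := fun _ => rfl
  have hbl : ∀ i, (((u.prod v).map E) (Sum.inl i) : V) = u i := by
    intro i
    rw [Basis.map_apply, hE]
    simp
  have hbr : ∀ i, (((u.prod v).map E) (Sum.inr i) : V) = v i := by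
    intro i
    rw [Basis.map_apply, hE]
    simp
  refine ⟨(u.prod v).map E, ?_, ?_, ?_⟩
  · intro i
    rw [hbl, hU]
  · intro i
    rw [hbr, hS]
  · intro i j
    rw [hbl, hbr, ← hθ]
    have h1 : θ (v j) = u.dualBasis j := by
      have h2 : θe (v j) = u.dualBasis j := by
        show θe (u.dualBasis.map θe.symm j) = _
        rw [Basis.map_apply, LinearEquiv.apply_symm_apply]
      exact h2
    rw [h1, Basis.dualBasis_apply_self]

omit [Finite K] [FiniteDimensional K V] in
theorem Z5_idem_eq (A : Subalgebra K (Module.End K V)) (hA : IsTorGL A) (p q : Module.End K V)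
    (hp : p ∈ A) (hq : q ∈ A) (h1 : q * p = p) (h2 : p * q = q) : p = q := by
  rw [← h1, hA.comm q hq p hp, h2]

omit [Finite K] in
theorem Z5_idem_eq' (A : Subalgebra K (Module.End K V)) (hA : IsTorGL A) (p q : Module.End K V)
    (hp : p ∈ A) (hq : q ∈ A) (hpp : p * p = p) (h1 : q * p = p)
    (h2 : finrank K (LinearMap.range p) = finrank K (LinearMap.range q)) : p = q := by
  refine Z5_idem_eq A hA p q hp hq h1 ?_
  have h3 : LinearMap.range p ≤ LinearMap.range q := by
    rintro _ ⟨x, rfl⟩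
    exact ⟨p x, by rw [← Module.End.mul_apply, h1]⟩
  have h4 : LinearMap.range p = LinearMap.range q := Submodule.eq_of_le_of_finrank_eq h3 h2
  ext x
  have h5 : q x ∈ LinearMap.range p := by rw [h4]; exact ⟨x, rfl⟩
  obtain ⟨z, hz⟩ := h5
  rw [Module.End.mul_apply, ← hz, ← Module.End.mul_apply, hpp]

/-- `y a y⁻¹`. -/
def Z5_cj (y : V ≃ₗ[K] V) (a : Module.End K V) : Module.End K V :=
  y.toLinearMap ∘ₗ a ∘ₗ y.symm.toLinearMap

omit [Finite K] [FiniteDimensional K V] in
theorem Z5_cj_apply (y : V ≃ₗ[K] V) (a : Module.End K V) (x : V) : Z5_cj y a x = y (a (y.symm x)) := rfl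

omit [Finite K] [FiniteDimensional K V] in
theorem Z5_cj_mul (y : V ≃ₗ[K] V) (a b : Module.End K V) :
    Z5_cj y (a * b) = Z5_cj y a * Z5_cj y b := by
  ext x
  simp [Z5_cj_apply, Module.End.mul_apply]

omit [Finite K] [FiniteDimensional K V] in
theorem Z5_cj_add (y : V ≃ₗ[K] V) (a b : Module.End K V) :
    Z5_cj y (a + b) = Z5_cj y a + Z5_cj y b := by
  ext x
  simp [Z5_cj_apply]

omit [Finite K] in
theorem Z5_swap (hf : IsHF (RingHom.id K) 1 f)
    (A : Subalgebra K (Module.End K V)) (hA : IsTor f A) (e s : Module.End K V)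
    (h : IsoIdem f A e s) (hp : IsPrim A e) (y : V ≃ₗ[K] V) (hyA : CarriesTo y A A)
    (yM : LinearMap.range (e + s) ≃ₗ[K] LinearMap.range (e + s))
    (hyM : ∀ v : LinearMap.range (e + s), (yM v : V) = y (v : V)) :
    (Z5_cj y e = e ∧ Z5_cj y s = s) ∨ (Z5_cj y e = s ∧ Z5_cj y s = e) := by
  obtain ⟨hadj, hss, hes⟩ := Z5_facts hf A hA e s h
  have hrank := (Z5_basis hf A hA e s h).1
  have hcj : ∀ a ∈ A, Z5_cj y a ∈ A := hyA
  have hhh : (e + s) * (e + s) = e + s := by
    rw [mul_add, add_mul, add_mul, h.idem, h.orth, hes, hss]; simp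
  have hhA : e + s ∈ A := A.add_mem h.he h.hs
  have hfix : ∀ x ∈ LinearMap.range (e + s), (e + s) x = x := by
    rintro _ ⟨z, rfl⟩
    rw [← Module.End.mul_apply, hhh]
  have hh' : Z5_cj y (e + s) = e + s := by
    refine Z5_idem_eq A hA.toIsTorGL _ _ (hcj _ hhA) hhA ?_ ?_
    · ext x
      rw [Module.End.mul_apply, Z5_cj_apply]
      apply hfix
      have h1 := (yM ⟨(e + s) (y.symm x), y.symm x, rfl⟩).2
      rw [hyM] at h1
      exact h1
    · ext x
      rw [Module.End.mul_apply, Z5_cj_apply]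
      obtain ⟨z, hz⟩ := yM.surjective ⟨(e + s) x, x, rfl⟩
      have h1 : y (z : V) = (e + s) x := by
        rw [← hyM, hz]
      rw [← h1, LinearEquiv.symm_apply_apply, hfix z z.2]
  have he'h : Z5_cj y e * (e + s) = Z5_cj y e := by
    conv_lhs => rw [← hh']
    rw [← Z5_cj_mul, mul_add, h.idem, hes, add_zero]
  have hee' : Z5_cj y e * Z5_cj y e = Z5_cj y e := by
    rw [← Z5_cj_mul, h.idem]
  have hrk : finrank K (LinearMap.range (Z5_cj y e)) = finrank K (LinearMap.range e) := by
    have h1 : LinearMap.range (Z5_cj y e) = (LinearMap.range e).map y.toLinearMap := by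
      ext x
      constructor
      · rintro ⟨z, rfl⟩
        exact ⟨e (y.symm z), ⟨_, rfl⟩, rfl⟩
      · rintro ⟨_, ⟨z, rfl⟩, rfl⟩
        refine ⟨y z, ?_⟩
        rw [Z5_cj_apply, LinearEquiv.symm_apply_apply]
        rfl
    rw [h1]
    exact LinearEquiv.finrank_map_eq y (LinearMap.range e)
  have hce : Z5_cj y e ∈ A := hcj e h.he
  have key := hp.2.2.2 (Z5_cj y e * e) (A.mul_mem hce h.he) (by
    rw [mul_assoc, ← mul_assoc e, hA.comm e h.he _ hce, mul_assoc, h.idem, ← mul_assoc, hee'])
    (by rw [mul_assoc, h.idem])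
  rcases key with key | key
  · right
    have h1 : Z5_cj y e * s = Z5_cj y e := by
      rw [mul_add, key, zero_add] at he'h
      exact he'h
    have h2 : Z5_cj y e = s := by
      refine Z5_idem_eq' A hA.toIsTorGL _ _ hce h.hs hee' ?_ ?_
      · rw [hA.comm s h.hs _ hce, h1]
      · rw [hrk, hrank]
    refine ⟨h2, ?_⟩
    rw [Z5_cj_add, h2, add_comm] at hh'
    exact add_right_cancel hh'
  · left
    have h2 : e = Z5_cj y e := by
      refine Z5_idem_eq' A hA.toIsTorGL _ _ h.he hce h.idem key hrk.symm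
    refine ⟨h2.symm, ?_⟩
    rw [Z5_cj_add, ← h2] at hh'
    exact add_left_cancel hh'

end Z5aux

/-- A similitude that normalizes `A` and preserves the image of `e + s`, where `e` is a primitive
idempotent of even rank, orthogonal to its adjoint `s`, is proper there. -/
theorem proper_of_norm (two : (2 : K) ≠ 0) (f : V → V → K) (hf : IsHF (RingHom.id K) 1 f)
    (A : Subalgebra K (Module.End K V)) (hA : IsTor f A) (e s : Module.End K V)
    (h : IsoIdem f A e s) (hp : IsPrim A e) (heven : Even (finrank K (LinearMap.range e)))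
    (y : V ≃ₗ[K] V) (μ : K) (hy : ∀ v w, f (y v) (y w) = μ * f v w) (hyA : CarriesTo y A A)
    (yM : LinearMap.range (e + s) ≃ₗ[K] LinearMap.range (e + s))
    (hyM : ∀ v : LinearMap.range (e + s), (yM v : V) = y (v : V)) :
    ((LinearEquiv.det yM : Kˣ) : K) = μ ^ finrank K (LinearMap.range e) := by
  obtain ⟨hadj, hss, hes⟩ := Z5_facts hf A hA e s h
  obtain ⟨-, b, hb1, hb2, hb3⟩ := Z5_basis hf A hA e s h
  have hes' : ∀ x, e (s x) = 0 := fun x => by rw [← Module.End.mul_apply, hes]; rfl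
  have hse' : ∀ x, s (e x) = 0 := fun x => by rw [← Module.End.mul_apply, h.orth]; rfl
  have hUU : ∀ x z, f (e x) (e z) = 0 := by
    intro x z
    rw [h.adj, hse', Z5_zero_right hf]
  have hSS : ∀ x z, f (s x) (s z) = 0 := by
    intro x z
    rw [hadj, hes', Z5_zero_right hf]
  refine Z5_det heven (fun v w : LinearMap.range (e + s) => f (v : V) (w : V))
    (fun u v w => hf.add_left _ _ _) (fun a v w => hf.smul_left _ _ _)
    (fun v w => (Z5_symm hf _ _)) b ?_ ?_ hb3 yM μ ?_ ?_
  · intro i j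
    show f (b (Sum.inl i) : V) (b (Sum.inl j) : V) = 0
    rw [← hb1 i, ← hb1 j, hUU]
  · intro i j
    show f (b (Sum.inr i) : V) (b (Sum.inr j) : V) = 0
    rw [← hb2 i, ← hb2 j, hSS]
  · intro v w
    show f (yM v : V) (yM w : V) = μ * f (v : V) (w : V)
    rw [hyM, hyM, hy]
  · have hsw := Z5_swap hf A hA e s h hp y hyA yM hyM
    have hconj : ∀ a c : Module.End K V, Z5_cj y a = c → ∀ x, y (a x) = c (y x) := by
      intro a c hac x
      rw [← hac, Z5_cj_apply, LinearEquiv.symm_apply_apply]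
    rcases hsw with ⟨h1, h2⟩ | ⟨h1, h2⟩
    · left
      constructor
      · intro i j
        show f (yM (b (Sum.inl i)) : V) (b (Sum.inl j) : V) = 0
        rw [hyM, ← hb1 i, hconj _ _ h1, ← hb1 j, hUU]
      · intro i j
        show f (yM (b (Sum.inr i)) : V) (b (Sum.inr j) : V) = 0
        rw [hyM, ← hb2 i, hconj _ _ h2, ← hb2 j, hSS]
    · right
      constructor
      · intro i j
        show f (yM (b (Sum.inl i)) : V) (b (Sum.inr j) : V) = 0
        rw [hyM, ← hb1 i, hconj _ _ h1, ← hb2 j, hSS]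
      · intro i j
        show f (yM (b (Sum.inr i)) : V) (b (Sum.inl j) : V) = 0
        rw [hyM, ← hb2 i, hconj _ _ h2, ← hb1 j, hUU]

omit [Finite K] [FiniteDimensional K V] in
theorem Z5_refl_isom {f : V → V → K} (hf : IsHF (RingHom.id K) 1 f) (u : V) (g : V ≃ₗ[K] V)
    (hg : IsRefl f u g) (v w : V) : f (g v) (g w) = f v w := by
  obtain ⟨h0, h⟩ := hg
  rw [h v, h w, Z5_sub_left hf, Z5_sub_right hf, Z5_sub_right hf, hf.smul_left, hf.smul_left,
    Z5_smul_right hf, Z5_smul_right hf, Z5_symm hf w u]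
  field_simp
  ring

/-- The group of the proper similitudes. -/
def Z5_proper (f : V → V → K) (M : Submodule K V) (m : ℕ) : Subgroup (V ≃ₗ[K] V) where
  carrier := {y | ∃ μ : Kˣ, (∀ v w, f (y v) (y w) = (μ : K) * f v w) ∧
      ∃ yM : M ≃ₗ[K] M, (∀ v : M, (yM v : V) = y (v : V)) ∧ LinearEquiv.det yM = μ ^ m}
  mul_mem' := by
    rintro a b ⟨μ, h1, aM, h2, h3⟩ ⟨ν, h4, bM, h5, h6⟩
    refine ⟨μ * ν, fun v w => ?_, aM * bM, fun v => ?_, ?_⟩
    · rw [LinearEquiv.mul_apply, LinearEquiv.mul_apply, h1, h4, Units.val_mul, mul_assoc]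
    · rw [LinearEquiv.mul_apply, LinearEquiv.mul_apply, h2, h5]
    · rw [map_mul, h3, h6, mul_pow]
  one_mem' := ⟨1, fun v w => by simp, 1, fun v => rfl, by simp⟩
  inv_mem' := by
    rintro a ⟨μ, h1, aM, h2, h3⟩
    have h4 : ∀ u, a (a⁻¹ u) = u := fun u => LinearEquiv.apply_symm_apply a u
    have h5 : ∀ u, aM (aM⁻¹ u) = u := fun u => LinearEquiv.apply_symm_apply aM u
    refine ⟨μ⁻¹, fun v w => ?_, aM⁻¹, fun v => ?_, by rw [map_inv, h3, inv_pow]⟩
    · have h6 := h1 (a⁻¹ v) (a⁻¹ w)
      rw [h4, h4] at h6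
      rw [h6, ← mul_assoc, Units.inv_mul, one_mul]
    · apply a.injective
      rw [h4, ← h2, h5]

omit [Finite K] in
theorem Z5_restrict (y : V ≃ₗ[K] V) (M : Submodule K V) (h : ∀ v ∈ M, y v ∈ M) :
    ∃ yM : M ≃ₗ[K] M, ∀ v : M, (yM v : V) = y (v : V) := by
  let L : M →ₗ[K] M := (y.toLinearMap).restrict h
  have hL : Function.Injective L := by
    intro a b hab
    have h1 : ((L a : M) : V) = ((L b : M) : V) := by rw [hab]
    exact Subtype.ext (y.injective h1)
  refine ⟨LinearEquiv.ofInjectiveEndo L hL, fun v => ?_⟩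
  rfl

theorem pron_neg2 (two : (2 : K) ≠ 0) (f : V → V → K) (hf : IsHF (RingHom.id K) 1 f)
    (A : Subalgebra K (Module.End K V)) (hA : IsTor f A) (Γ : Subgroup (V ≃ₗ[K] V)) (hΓ : Γ ≤ Sim f)
    (hgen : A ≤ Algebra.adjoin K (EndSet (Γ ⊓ torGL A)))
    (e s : Module.End K V) (h : IsoIdem f A e s) (hp : IsPrim A e)
    (heven : Even (finrank K (LinearMap.range e))) (u v : V) (r r' : V ≃ₗ[K] V)
    (hr : IsRefl f u r) (hr' : IsRefl f v r') (hu : u ∈ LinearMap.range (e + s))
    (hv : (e + s) v = 0) (hrr : r * r' ∈ Γ) :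
    ¬ IsPronormal ((torGL A).subgroupOf Γ) := by
  intro hpr
  rw [isPronormal_subgroupOf_iff] at hpr
  obtain ⟨x, hx, hxe⟩ := hpr (r * r') hrr
  obtain ⟨hadj, hss, hes⟩ := Z5_facts hf A hA e s h
  have hhA : e + s ∈ A := A.add_mem h.he h.hs
  have hhadj : ∀ a b, f ((e + s) a) b = f a ((e + s) b) := by
    intro a b
    rw [LinearMap.add_apply, LinearMap.add_apply, hf.add_left, Z5_add_right hf, h.adj, hadj]
    ring
  -- the reflections on `M`
  have hr'M : ∀ a ∈ LinearMap.range (e + s), r' a = a := by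
    rintro _ ⟨z, rfl⟩
    rw [hr'.2, hhadj, hv, Z5_zero_right hf]
    simp
  have hgM : ∀ a ∈ LinearMap.range (e + s), (r * r') a = a - (2 * f a u / f u u) • u := by
    intro a ha
    rw [LinearEquiv.mul_apply, hr'M a ha, hr.2]
  have hgM' : ∀ a ∈ LinearMap.range (e + s), (r * r') a ∈ LinearMap.range (e + s) := by
    intro a ha
    rw [hgM a ha]
    exact Submodule.sub_mem _ ha (Submodule.smul_mem _ _ hu)
  obtain ⟨gM, hgM1⟩ := Z5_restrict (r * r') (LinearMap.range (e + s)) hgM'
  have hgiso : ∀ a b, f ((r * r') a) ((r * r') b) = f a b := by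
    intro a b
    rw [LinearEquiv.mul_apply, LinearEquiv.mul_apply, Z5_refl_isom hf u r hr,
      Z5_refl_isom hf v r' hr']
  have hdet : ((LinearEquiv.det gM : Kˣ) : K) = -1 := by
    let φ : LinearMap.range (e + s) →ₗ[K] K :=
      { toFun := fun a => - (2 * f (a : V) u / f u u)
        map_add' := fun a b => by
          rw [Submodule.coe_add, hf.add_left]; ring
        map_smul' := fun c a => by
          rw [Submodule.coe_smul, hf.smul_left, RingHom.id_apply, smul_eq_mul]; ring }
    have hφ : ∀ a, φ a = - (2 * f (a : V) u / f u u) := fun _ => rfl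
    have h1 : (gM : LinearMap.range (e + s) →ₗ[K] LinearMap.range (e + s)) =
        LinearMap.transvection φ ⟨u, hu⟩ := by
      ext a
      rw [LinearMap.transvection.apply, LinearEquiv.coe_coe, hgM1, hgM a a.2, hφ]
      rw [Submodule.coe_add, Submodule.coe_smul]
      module
    rw [LinearEquiv.coe_det, h1, LinearMap.transvection.det, hφ]
    have h2 : f u u ≠ 0 := hr.1
    show 1 + - (2 * f u u / f u u) = -1
    field_simp
    ring
  -- the elements of the torus are proper
  have hT : Γ ⊓ torGL A ≤ Z5_proper f (LinearMap.range (e + s)) (finrank K (LinearMap.range e)) := by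
    rintro t ⟨ht1, ht2⟩
    obtain ⟨μ, hμ⟩ := hΓ ht1
    have htM : ∀ a ∈ LinearMap.range (e + s), t a ∈ LinearMap.range (e + s) := by
      rintro _ ⟨z, rfl⟩
      refine ⟨t z, ?_⟩
      have h1 := hA.comm (e + s) hhA t.toLinearMap ht2.1
      exact congrArg (fun L : Module.End K V => L z) h1
    obtain ⟨tM, htM1⟩ := Z5_restrict t (LinearMap.range (e + s)) htM
    refine ⟨μ, hμ, tM, htM1, ?_⟩
    apply Units.ext
    rw [Units.val_pow_eq_pow_val]
    refine proper_of_norm two f hf A hA e s h hp heven t μ hμ ?_ tM htM1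
    intro a ha
    exact A.mul_mem ht2.1 (A.mul_mem ha ht2.2)
  have hT' : conjSub (r * r') (Γ ⊓ torGL A) ≤
      Z5_proper f (LinearMap.range (e + s)) (finrank K (LinearMap.range e)) := by
    intro z hz
    rw [mem_conjSub] at hz
    obtain ⟨μ, hμ, zM, hzM, hzd⟩ := hT hz
    have hz2 : z = (r * r') * ((r * r')⁻¹ * z * (r * r')) * (r * r')⁻¹ := by group
    have h4 : ∀ u, (r * r') ((r * r')⁻¹ u) = u := fun u => LinearEquiv.apply_symm_apply (r * r') u
    have h5 : ∀ u, gM (gM⁻¹ u) = u := fun u => LinearEquiv.apply_symm_apply gM u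
    have h6 : ∀ a b, f ((r * r')⁻¹ a) ((r * r')⁻¹ b) = f a b := by
      intro a b
      have := hgiso ((r * r')⁻¹ a) ((r * r')⁻¹ b)
      rw [h4, h4] at this
      exact this.symm
    refine ⟨μ, fun a b => ?_, gM * zM * gM⁻¹, fun a => ?_, ?_⟩
    · rw [hz2]
      generalize (r * r')⁻¹ * z * (r * r') = z' at *
      rw [LinearEquiv.mul_apply, LinearEquiv.mul_apply, LinearEquiv.mul_apply (r * r' * z'),
        LinearEquiv.mul_apply (r * r'), hgiso, hμ, h6]
    · rw [hz2]
      generalize (r * r')⁻¹ * z * (r * r') = z' at *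
      rw [LinearEquiv.mul_apply, LinearEquiv.mul_apply, LinearEquiv.mul_apply (r * r' * z'),
        LinearEquiv.mul_apply (r * r'), hgM1, hzM]
      have h7 : ((gM⁻¹ a : LinearMap.range (e + s)) : V) = (r * r')⁻¹ (a : V) := by
        apply (r * r').injective
        rw [h4, ← hgM1, h5]
      rw [h7]
    · rw [map_mul, map_mul, map_inv, mul_inv_cancel_comm, hzd]
  have hx2 := (sup_le hT hT') hx
  obtain ⟨μ, hμ, xM, hxM, hxd⟩ := hx2
  -- the element `y`
  have hxinv : ∀ a, x (x⁻¹ a) = a := fun a => LinearEquiv.apply_symm_apply x a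
  have hxMinv : ∀ a, xM (xM⁻¹ a) = a := fun a => LinearEquiv.apply_symm_apply xM a
  have hcy : CarriesTo (x⁻¹ * (r * r')) A A := by
    have h1 : Algebra.adjoin K (EndSet (Γ ⊓ torGL A)) ≤ pull (x⁻¹ * (r * r')) A := by
      apply Algebra.adjoin_le
      rintro _ ⟨t, ht, rfl⟩
      have h2 : (r * r') * t * (r * r')⁻¹ ∈ conjSub (r * r') (Γ ⊓ torGL A) := by
        rw [mem_conjSub]
        have : (r * r')⁻¹ * ((r * r') * t * (r * r')⁻¹) * (r * r') = t := by group
        rw [this]; exact ht
      rw [← hxe, mem_conjSub] at h2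
      have h3 : x⁻¹ * ((r * r') * t * (r * r')⁻¹) * x =
          (x⁻¹ * (r * r')) * t * (x⁻¹ * (r * r'))⁻¹ := by group
      rw [h3] at h2
      exact h2.2.1
    intro a ha
    exact h1 (hgen ha)
  have hyμ : ∀ a b, f ((x⁻¹ * (r * r')) a) ((x⁻¹ * (r * r')) b) = ((μ⁻¹ : Kˣ) : K) * f a b := by
    intro a b
    have hsp : ∀ a, (x⁻¹ * (r * r')) a = x⁻¹ ((r * r') a) := fun _ => rfl
    have h1 := hμ ((x⁻¹ * (r * r')) a) ((x⁻¹ * (r * r')) b)
    rw [hsp, hsp, hxinv, hxinv, hgiso] at h1
    rw [hsp, hsp, h1, ← mul_assoc, Units.inv_mul, one_mul]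
  have hyM : ∀ a : LinearMap.range (e + s), ((xM⁻¹ * gM) a : V) = (x⁻¹ * (r * r')) (a : V) := by
    intro a
    have hsp : ∀ a, (x⁻¹ * (r * r')) a = x⁻¹ ((r * r') a) := fun _ => rfl
    apply x.injective
    rw [hsp, hxinv, LinearEquiv.mul_apply, ← hxM, hxMinv, hgM1]
  have hfin := proper_of_norm two f hf A hA e s h hp heven (x⁻¹ * (r * r')) _ hyμ hcy (xM⁻¹ * gM) hyM
  rw [map_mul, map_inv, hxd, Units.val_mul, hdet, ← Units.val_pow_eq_pow_val, ← inv_pow] at hfin
  have h1 : ((μ⁻¹ ^ finrank K (LinearMap.range e) : Kˣ) : K) ≠ 0 := Units.ne_zero _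
  have h2 : (-1 : K) = 1 := by
    apply mul_left_cancel₀ h1
    rw [hfin, mul_one]
  apply two
  have h3 : (2 : K) = 1 - (-1) := by ring
  rw [h3, h2, sub_self]

end Pool.Agent.CTO
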