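import Pool.Agent.CTO.T2
import Pool.Agent.CTO.Z5

/-!
# V2: the irreducible case for a single positive cycle of length `m ≡ 2 mod 4`

`f` symmetric, `IsoIdem f A e s`, `e` primitive in `A`, `e + s = 1`, `m = rank e`, `m % 4 = 2`, `dim V = 2 m`.
`g` is a similitude with multiplier `μ` and determinant `μ^m` carrying `A` to `A'`. `H = sq T ⊔ sq T'`
irreducible. The proof is that of `irrF` (T2) up to the last step: `E`, `σ`, `fE`, an isometry `gE` of `fE`
carrying `liftAlg A` to `liftAlg A'`. If `σ ≠ id`: `aiU`. If `σ = id` and `dim_E V ≤ 2`: `O_small`. If `σ = id` and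
`dim_E V ≥ 3` use `aiO`, for which one has to show `OddPos fE (liftAlg A)` or `det gE = 1`. Let `r = [E : K]`,
`mE = m / r` the `E`-dimension of `range e` (`range e` is an `E`-space as `E ⊆ A`).
(a) `mE` odd: the idempotents of `liftAlg A` are those of `A`, i.e. `0, 1, e, s` (`A = e A × s A`, both factors
are fields: `e` is primitive, and so is its adjoint `s`), and `e`, `s` have rank `mE` over `E`; so
`OddPos fE (liftAlg A)`.
(b) `mE` even: then `r` is odd, as `r * mE = m ≡ 2 mod 4`. Suppose `det gE ≠ 1`, so `det gE = -1`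
(isometry of a symmetric form). `det_K gE = N_{E/K}(-1) = (-1)^r = -1` (`LinearMap.det_restrictScalars`). The
element `y = g⁻¹ (resH gE)` carries `A` to `A` and is a similitude with multiplier `μ⁻¹` and determinant
`- μ^(-m)`; but by `proper_of_norm` (with `e + s = 1`, so `range (e + s) = ⊤`; `m` is even) its determinant is
`μ^(-m)`. Contradiction (`2 ≠ 0`).
-/

namespace Pool.Agent.CTO

open Module

/-! ### auxiliary lemmas -/

section V2aux

variable {K V : Type} [Field K] [AddCommGroup V] [Module K V]

theorem V2_nd {ε : K} {f : V → V → K}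
    (hf : IsHF (RingHom.id K) ε f) {v w : V} (h : ∀ u, f u v = f u w) : v = w := by
  have hadd2 : ∀ u v w, f u (v + w) = f u v + f u w := by
    intro u v w
    rw [hf.herm (v + w) u, hf.add_left, hf.herm v u, hf.herm w u, RingHom.id_apply,
      RingHom.id_apply, RingHom.id_apply]
    ring
  have hsmul2 : ∀ (k : K) (v w : V), f v (k • w) = k * f v w := by
    intro k v w
    rw [hf.herm (k • w) v, hf.smul_left, hf.herm w v, RingHom.id_apply, RingHom.id_apply]
    ring
  have hsub2 : ∀ u v w, f u (v - w) = f u v - f u w := by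
    intro u v w
    have h1 : v - w = v + (-1 : K) • w := by rw [neg_one_smul, sub_eq_add_neg]
    rw [h1, hadd2, hsmul2]
    ring
  refine sub_eq_zero.1 (hf.nondeg (v - w) fun u => ?_)
  rw [hf.herm u (v - w), hsub2, h u, sub_self, map_zero, mul_zero]

theorem V2_uniq {ε : K} {f : V → V → K} (hf : IsHF (RingHom.id K) ε f) {S T T' : Module.End K V}
    (h : IsAdj f S T) (h' : IsAdj f S T') : T = T' := by
  refine LinearMap.ext fun v => V2_nd hf fun u => ?_
  rw [← h, ← h']

theorem V2_symm {f : V → V → K} (hf : IsHF (RingHom.id K) 1 f) {S T : Module.End K V}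
    (h : IsAdj f S T) : IsAdj f T S := by
  intro v w
  rw [hf.herm w (T v), hf.herm (S w) v, h]

theorem V2_mul {f : V → V → K} {S T S' T' : Module.End K V} (h : IsAdj f S S')
    (h' : IsAdj f T T') : IsAdj f (S * T) (T' * S') := by
  intro v w
  rw [Module.End.mul_apply, Module.End.mul_apply, h, h']

theorem V2_zero {f : V → V → K} (hf : IsHF (RingHom.id K) 1 f) : IsAdj f (0 : Module.End K V) 0 := by
  have h0 : ∀ w, f 0 w = 0 := by
    intro w
    have h := hf.smul_left 0 0 w
    rw [zero_smul, zero_mul] at h
    exact h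
  intro v w
  rw [LinearMap.zero_apply, LinearMap.zero_apply, h0, hf.herm 0 v, h0, map_zero, mul_zero]

theorem V2_add_right {f : V → V → K} (hf : IsHF (RingHom.id K) 1 f) (u v w : V) :
    f u (v + w) = f u v + f u w := by
  rw [hf.herm (v + w) u, hf.add_left, hf.herm v u, hf.herm w u, RingHom.id_apply,
    RingHom.id_apply, RingHom.id_apply]
  ring

theorem V2_smul_right {f : V → V → K} (hf : IsHF (RingHom.id K) 1 f) (k : K) (v w : V) :
    f v (k • w) = k * f v w := by
  rw [hf.herm (k • w) v, hf.smul_left, hf.herm w v, RingHom.id_apply, RingHom.id_apply]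
  ring

/-- Adjoint endomorphisms have the same rank. -/
theorem V2_rank [FiniteDimensional K V] {f : V → V → K} (hf : IsHF (RingHom.id K) 1 f)
    {S T : Module.End K V} (h : IsAdj f S T) :
    finrank K (LinearMap.range T) = finrank K (LinearMap.range S) := by
  let D : V →ₗ[K] Dual K V :=
    { toFun := fun v =>
        { toFun := fun w => f v w
          map_add' := V2_add_right hf v
          map_smul' := fun k w => by
            rw [V2_smul_right hf, smul_eq_mul, RingHom.id_apply] }
      map_add' := fun v w => by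
        ext u
        exact hf.add_left v w u
      map_smul' := fun k v => by
        ext u
        exact hf.smul_left k v u }
  have hD : Function.Injective D := by
    refine (injective_iff_map_eq_zero D).2 fun v hv => hf.nondeg v fun w => ?_
    exact LinearMap.congr_fun hv w
  have hDs : Function.Surjective D :=
    (LinearMap.injective_iff_surjective_of_finrank_eq_finrank
      (Subspace.dual_finrank_eq (K := K) (V := V)).symm).1 hD
  have h1 : D ∘ₗ S = T.dualMap ∘ₗ D := by
    refine LinearMap.ext fun v => LinearMap.ext fun w => ?_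
    exact h v w
  have h2 : LinearMap.range (T.dualMap ∘ₗ D) = LinearMap.range T.dualMap :=
    LinearMap.range_comp_of_range_eq_top _ (LinearMap.range_eq_top.2 hDs)
  rw [← LinearMap.finrank_range_dualMap_eq_finrank_range T, ← h2, ← h1, LinearMap.range_comp]
  exact (LinearEquiv.finrank_eq (Submodule.equivMapOfInjective D hD (LinearMap.range S))).symm

theorem V2_detTop [FiniteDimensional K V] (W : Submodule K V) (hW : W = ⊤) (y : V ≃ₗ[K] V) :
    ∃ yM : W ≃ₗ[K] W, (∀ v : W, (yM v : V) = y (v : V)) ∧ LinearEquiv.det yM = LinearEquiv.det y := by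
  subst hW
  refine ⟨((Submodule.topEquiv (R := K) (M := V)).trans y).trans
    (Submodule.topEquiv (R := K) (M := V)).symm, fun v => rfl, ?_⟩
  exact LinearEquiv.det_conj y (Submodule.topEquiv (R := K) (M := V)).symm

/-- Conjugation by a similitude. -/
theorem V2_siso [FiniteDimensional K V] {f : V → V → K} {A A' : Subalgebra K (Module.End K V)}
    (hA : IsTorGL A) (hA' : IsTorGL A') {g : V ≃ₗ[K] V} {μ : K} (hg : CarriesTo g A A')
    (hs : ∀ v w, f (g v) (g w) = μ * f v w) :
    SIso f A f A' ∧ CarriesTo g⁻¹ A' A := by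
  let φ : A →ₐ[K] A' :=
    { toFun := fun a => ⟨g.toLinearMap ∘ₗ (a : Module.End K V) ∘ₗ g.symm.toLinearMap, hg a a.2⟩
      map_one' := Subtype.ext (by
        ext v
        simp)
      map_mul' := fun a b => Subtype.ext (by
        ext v
        simp)
      map_zero' := Subtype.ext (by
        ext v
        simp)
      map_add' := fun a b => Subtype.ext (by
        ext v
        simp)
      commutes' := fun c => Subtype.ext (by
        ext v
        simp [Module.algebraMap_end_apply]) }
  have hφ : ∀ a : A, ((φ a : A') : Module.End K V) =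
    g.toLinearMap ∘ₗ (a : Module.End K V) ∘ₗ g.symm.toLinearMap := fun a => rfl
  have hinj : Function.Injective φ := by
    intro a b hab
    have h1 : g.toLinearMap ∘ₗ (a : Module.End K V) ∘ₗ g.symm.toLinearMap =
        g.toLinearMap ∘ₗ (b : Module.End K V) ∘ₗ g.symm.toLinearMap := congrArg Subtype.val hab
    refine Subtype.ext (LinearMap.ext fun v => ?_)
    have h2 := LinearMap.congr_fun h1 (g v)
    simpa using h2
  have hsurj : Function.Surjective φ :=
    (LinearMap.injective_iff_surjective_of_finrank_eq_finrank (f := φ.toLinearMap)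
      (hA.rank.trans hA'.rank.symm)).1 hinj
  refine ⟨⟨AlgEquiv.ofBijective φ ⟨hinj, hsurj⟩, fun a b hab v w => ?_⟩, fun a' ha' => ?_⟩
  · have h1 : ∀ u, g (g.symm u) = u := fun u => g.apply_symm_apply u
    change f (g ((a : Module.End K V) (g.symm v))) w = f v (g ((b : Module.End K V) (g.symm w)))
    calc f (g ((a : Module.End K V) (g.symm v))) w
        = f (g ((a : Module.End K V) (g.symm v))) (g (g.symm w)) := by rw [h1]
      _ = f (g (g.symm v)) (g ((b : Module.End K V) (g.symm w))) := by rw [hs, hs, hab]
      _ = f v (g ((b : Module.End K V) (g.symm w))) := by rw [h1]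
  · obtain ⟨a, ha⟩ := hsurj ⟨a', ha'⟩
    have h1 : g.toLinearMap ∘ₗ (a : Module.End K V) ∘ₗ g.symm.toLinearMap = a' :=
      congrArg Subtype.val ha
    have h2 : (g⁻¹).toLinearMap ∘ₗ a' ∘ₗ (g⁻¹).symm.toLinearMap = (a : Module.End K V) := by
      rw [← h1]
      refine LinearMap.ext fun v => ?_
      change g.symm (g ((a : Module.End K V) (g.symm (g v)))) = _
      rw [g.symm_apply_apply, g.symm_apply_apply]
    rw [h2]
    exact a.2

end V2aux

section V2lift

variable {K E V : Type} [Field K] [Finite K] [Field E] [Finite E] [Algebra K E] [AddCommGroup V]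
  [Module K V] [Module E V] [IsScalarTower K E V] [FiniteDimensional K V]

omit [Finite K] [Finite E] [FiniteDimensional K V] in
theorem V2_lift (A : Subalgebra K (Module.End K V)) (hA : ∀ a ∈ A, ∀ b ∈ A, a * b = b * a)
    (hE : ∀ e : E, Algebra.lsmul K K V e ∈ A) (a : Module.End K V) (ha : a ∈ A) :
    ∃ a' : Module.End E V, a'.restrictScalars K = a := by
  refine ⟨{ toFun := a, map_add' := a.map_add, map_smul' := ?_ }, ?_⟩
  · intro e v
    have h := LinearMap.congr_fun (hA a ha _ (hE e)) v
    exact h
  · ext v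
    rfl

omit [Finite K] [Finite E] [FiniteDimensional K V] in
theorem V2_finrank_range (a : Module.End E V) :
    finrank K (LinearMap.range (a.restrictScalars K)) =
      finrank K E * finrank E (LinearMap.range a) := by
  rw [Module.finrank_mul_finrank K E (LinearMap.range a), LinearMap.range_restrictScalars]
  rfl

omit [Finite K] in
/-- If the `E`-rank of `e` is odd, then `OddPos`. -/
theorem V2_oddpos [Nontrivial V] (f : V → V → K) (hf : IsHF (RingHom.id K) 1 f)
    (σ : E →+* E) (fE : V → V → E)
    (hx : IsExt 1 f σ fE) (A : Subalgebra K (Module.End K V)) (hA : IsTor f A)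
    (hE : ∀ e : E, Algebra.lsmul K K V e ∈ A) (e s : Module.End K V) (h : IsoIdem f A e s)
    (hp : IsPrim A e) (hes : e + s = 1) (eE : Module.End E V) (heE : eE.restrictScalars K = e)
    (hodd : Odd (finrank E (LinearMap.range eE))) : OddPos fE (liftAlg A hE) := by
  have hKE : Module.Finite K E := Module.Finite.of_finite
  have hr : 0 < finrank K E := Module.finrank_pos
  have hinj : ∀ x y : Module.End E V, x.restrictScalars K = y.restrictScalars K → x = y := by
    intro x y hxy
    ext v
    exact LinearMap.congr_fun hxy v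
  intro x hxA x' hxA' hxx hadj hxx' hne _
  have key : ∀ z z' : Module.End K V, z ∈ A → z' ∈ A → z * z = z → IsAdj f z z' → z * z' = 0 →
      z ≠ 0 → z = e ∨ z = s := by
    intro z z' hz hz' hzz hzadj hzz' hz0
    have hz'z' : z' * z' = z' := V2_uniq hf (by
      have := V2_mul hzadj hzadj
      rwa [hzz] at this) hzadj
    have hzsum : z = z * e + z * s := by rw [← mul_add, hes, mul_one]
    have hze : z * e * (z * e) = z * e := by
      rw [mul_assoc, ← mul_assoc e z e, hA.comm e h.he z hz, mul_assoc z e e, h.idem, ← mul_assoc, hzz]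
    rcases hp.2.2.2 (z * e) (A.mul_mem hz h.he) hze (by rw [mul_assoc, h.idem]) with h1 | h1
    · right
      -- `z = z s`, so `z' = z' e`
      have h2 : z * s = z := by
        rw [h1, zero_add] at hzsum
        exact hzsum.symm
      have h3 : IsAdj f (z * s) (e * z') := V2_mul hzadj (V2_symm hf h.adj)
      rw [h2] at h3
      have h4 : e * z' = z' := V2_uniq hf h3 hzadj
      rcases hp.2.2.2 z' hz' hz'z' (by rw [hA.comm z' hz' e h.he, h4]) with h5 | h5
      · exfalso
        apply hz0
        have h6 : IsAdj f z' z := V2_symm hf hzadj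
        rw [h5] at h6
        exact V2_uniq hf h6 (V2_zero hf)
      · have h6 : IsAdj f z' z := V2_symm hf hzadj
        rw [h5] at h6
        exact V2_uniq hf h6 h.adj
    · left
      -- `e z = e`, so `z' e = z' z e = 0`
      have h2 : z' * e = 0 := by
        rw [← h1, ← mul_assoc, hA.comm z' hz' z hz, hzz', zero_mul]
      have h3 : IsAdj f (z' * e) (s * z) := V2_mul (V2_symm hf hzadj) h.adj
      rw [h2] at h3
      have h4 : s * z = 0 := V2_uniq hf h3 (V2_zero hf)
      rw [hzsum, h1, hA.comm z hz s h.hs, h4, add_zero]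
  have hx0 : x.restrictScalars K ≠ 0 := fun h0 => hne (hinj x 0 h0)
  have hrank : finrank K (LinearMap.range (x.restrictScalars K)) =
      finrank K (LinearMap.range (eE.restrictScalars K)) := by
    rcases key (x.restrictScalars K) (x'.restrictScalars K) hxA hxA'
      (congrArg (LinearMap.restrictScalars K) hxx) ((hx.adj x x').2 hadj)
      (by
        have := congrArg (LinearMap.restrictScalars K) hxx'
        exact this) hx0 with h1 | h1
    · rw [h1, heE]
    · rw [h1, heE, V2_rank hf h.adj]
  rw [V2_finrank_range, V2_finrank_range] at hrank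
  rw [Nat.eq_of_mul_eq_mul_left hr hrank]
  exact hodd

end V2lift

theorem irrSingle (N : ℕ) : ∃ q0 : ℕ, ∀ (K V : Type) [Field K] [Finite K] [AddCommGroup V]
    [Module K V] [FiniteDimensional K V] (f : V → V → K)
    (A A' : Subalgebra K (Module.End K V)) (e s : Module.End K V) (g : V ≃ₗ[K] V) (μ : K),
    finrank K V = N → q0 ≤ Nat.card K → (2 : K) ≠ 0 → IsHF (RingHom.id K) 1 f → IsTor f A →
    IsTor f A' → IsoIdem f A e s → IsPrim A e → e + s = 1 →
    finrank K (LinearMap.range e) % 4 = 2 →
    CarriesTo g A A' → (∀ v w, f (g v) (g w) = μ * f v w) →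
    ((LinearEquiv.det g : Kˣ) : K) = μ ^ finrank K (LinearMap.range e) →
    (∀ W : Submodule K V, (∀ h ∈ sq (tor (RingHom.id K) f A) ⊔ sq (tor (RingHom.id K) f A'),
      ∀ v ∈ W, h v ∈ W) → W = ⊥ ∨ W = ⊤) →
    ∃ h ∈ sq (tor (RingHom.id K) f A) ⊔ sq (tor (RingHom.id K) f A'), CarriesTo h A A' := by
  classical
  obtain ⟨qG, hG⟩ := gen_tor N
  choose qU hU using aiU
  choose qO hO using aiO
  let qO' : ℕ → ℕ := fun n => if h : 3 ≤ n then qO n h else 0
  have hle : ∀ m, m ≤ N → qU m + qO' m ≤ ∑ m ∈ Finset.range (N + 1), (qU m + qO' m) := by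
    intro m hm
    exact Finset.single_le_sum (f := fun m => qU m + qO' m) (fun _ _ => Nat.zero_le _)
      (Finset.mem_range.2 (by omega))
  refine ⟨qG + ∑ m ∈ Finset.range (N + 1), (qU m + qO' m), ?_⟩
  intro K V _ _ _ _ _ f A A' e s g₀ μ hN hq two hf hA hA' hI hp hes hm4 hgc₀ hgs hgdet irr
  obtain ⟨hS1, hginv⟩ := V2_siso hA.toIsTorGL hA'.toIsTorGL hgc₀ hgs
  rcases subsingleton_or_nontrivial V with hV | hV
  · refine ⟨1, one_mem _, fun a _ => ?_⟩
    have : (1 : V ≃ₗ[K] V).toLinearMap ∘ₗ a ∘ₗ (1 : V ≃ₗ[K] V).symm.toLinearMap = 0 := by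
      ext v
      exact Subsingleton.elim _ _
    rw [this]
    exact A'.zero_mem
  set T := tor (RingHom.id K) f A with hT
  set T' := tor (RingHom.id K) f A' with hT'
  have hqG : qG ≤ Nat.card K := by omega
  have hmono : ∀ S S' : Subgroup (V ≃ₗ[K] V), S ≤ S' →
      Algebra.adjoin K (EndSet S) ≤ Algebra.adjoin K (EndSet S') := by
    intro S S' h
    apply Algebra.adjoin_mono
    rintro x ⟨y, hy, rfl⟩
    exact ⟨y, h hy, rfl⟩
  have hAB : A ≤ Algebra.adjoin K (EndSet (sq T ⊔ sq T')) :=
    (hG K V 1 f A hN hqG two hf hA).trans (hmono _ _ le_sup_left)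
  have hAB' : A' ≤ Algebra.adjoin K (EndSet (sq T ⊔ sq T')) :=
    (hG K V 1 f A' hN hqG two hf hA').trans (hmono _ _ le_sup_right)
  have hiso : sq T ⊔ sq T' ≤ Isom f := by
    refine sup_le ?_ ?_ <;>
    · refine (Subgroup.closure_le _).mpr ?_
      rintro x ⟨t, ht, rfl⟩
      exact mul_mem ht.2.1 ht.2.1
  obtain ⟨E, iE1, iE2, iE3, iE4, iE5, hE, hE', hcom, hcen, hadj⟩ :=
    exists_field K V A A' hA.toIsTorGL hA'.toIsTorGL _ hAB hAB' irr
  have hst : ∀ e : E, ∃ e' : E, IsAdj f (Algebra.lsmul K K V e) (Algebra.lsmul K K V e') := by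
    intro e
    obtain ⟨b, -, hb⟩ := hA.star _ (hE e)
    obtain ⟨e', he'⟩ := hcen b (fun h hh v => by
      refine V2_nd hf fun u => ?_
      have hinv : ∀ u w, f u (h w) = f (h⁻¹ u) w := by
        intro u w
        have h1 := hiso hh (h⁻¹ u) w
        have h2 : h (h⁻¹ u) = u := LinearEquiv.apply_symm_apply h u
        rw [h2] at h1
        exact h1
      have hb' : ∀ v w, f (e • v) w = f v (b w) := hb
      rw [← hb', hinv, hinv, ← hb', hcom _ (inv_mem hh)])
    rw [he'] at hb
    exact ⟨e', hb⟩
  obtain ⟨σ, fE, hx⟩ := exists_ext 1 f hf hst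
  have hfd : FiniteDimensional E V := Module.Finite.of_restrictScalars_finite K E V
  have twoE : (2 : E) ≠ 0 := by
    intro h
    apply two
    apply (algebraMap K E).injective
    rw [map_ofNat, h, map_zero]
  have hTE := lift_isTor 1 f σ fE hx A hA hE
  have hTE' := lift_isTor 1 f σ fE hx A' hA' hE'
  have hSE := siso_lift 1 f hf σ fE hx A A' hA hA' hE hE' hS1
  obtain ⟨g, hg, hgc⟩ := conj_of_SIso twoE σ _ fE hx.hf _ _ hTE hTE' hSE
  have hmap : (sq (tor σ fE (liftAlg A hE)) ⊔ sq (tor σ fE (liftAlg A' hE'))).map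
      (resH : (V ≃ₗ[E] V) →* (V ≃ₗ[K] V)) = sq T ⊔ sq T' := by
    rw [sq_sup_map, lift_tor_map two 1 f hf σ fE hx A hA hE,
      lift_tor_map two 1 f hf σ fE hx A' hA' hE']
  have hadjE : Algebra.adjoin E (EndSet (sq (tor σ fE (liftAlg A hE)) ⊔
      sq (tor σ fE (liftAlg A' hE')))) = ⊤ := by
    refine adjoin_lift (K := K) _ fun x hx' => ?_
    rw [hmap]
    exact hadj x hx'
  have key : ∃ h ∈ sq (tor σ fE (liftAlg A hE)) ⊔ sq (tor σ fE (liftAlg A' hE')),
      CarriesTo h (liftAlg A hE) (liftAlg A' hE') := by
    have hm : finrank E V ≤ N :=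
      (finrank_lift_le (K := K) (E := E) (V := V)).trans hN.le
    have hb := hle _ hm
    have hKE : Nat.card K ≤ Nat.card E := card_le_lift
    by_cases hσ : ∃ k, σ k ≠ k
    · have hcard : Nat.card K ≤ Nat.card {k : E // σ k = k} := by
        refine Nat.card_le_card_of_injective
          (fun k : K => (⟨algebraMap K E k, hx.fix k⟩ : {k : E // σ k = k})) ?_
        intro a b hab
        exact (algebraMap K E).injective (congrArg Subtype.val hab)
      exact hU _ E V σ _ fE _ _ g rfl (by omega) hσ twoE hx.hf hTE hTE' hg hgc hadjE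
    · push Not at hσ
      obtain rfl : σ = RingHom.id E := RingHom.ext hσ
      have hf1 : IsHF (RingHom.id E) 1 fE := by
        have := hx.hf
        rwa [map_one] at this
      by_cases h3 : 3 ≤ finrank E V
      · have hqO : qO _ h3 ≤ Nat.card E := by
          have : qO' (finrank E V) = qO _ h3 := by simp only [qO', dif_pos h3]
          omega
        refine hO _ h3 E V fE _ _ g rfl hqO twoE hf1 hTE hTE' hg hgc ?_ hadjE
        obtain ⟨eE, heE⟩ := V2_lift A hA.comm hE e hI.he
        rcases Nat.even_or_odd (finrank E (LinearMap.range eE)) with hev | hod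
        · right
          have hKEf : Module.Finite K E := Module.Finite.of_finite
          have hrk := V2_finrank_range (K := K) eE
          rw [heE] at hrk
          -- `[E : K]` is odd
          have hrodd : Odd (finrank K E) := by
            by_contra hcon
            rw [Nat.not_odd_iff_even] at hcon
            obtain ⟨c, hc⟩ := hcon
            obtain ⟨c', hc'⟩ := hev
            have h4 : finrank K (LinearMap.range e) = 4 * (c * c') := by
              rw [hrk, hc, hc']
              ring
            omega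
          have hmev : Even (finrank K (LinearMap.range e)) := by
            rw [hrk]
            exact hev.mul_left _
          have hdd := det_isom_norm (RingHom.id E) 1 fE hf1 g hg
          rw [RingHom.id_apply] at hdd
          have hpm : ((LinearEquiv.det g : Eˣ) : E) = 1 ∨ ((LinearEquiv.det g : Eˣ) : E) = -1 :=
            mul_self_eq_one_iff.1 hdd
          rcases hpm with h1 | h1
          · exact Units.ext h1
          exfalso
          have hdetK : ((LinearEquiv.det (resH g : V ≃ₗ[K] V) : Kˣ) : K) = -1 := by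
            have h5 : ((LinearEquiv.det (resH g : V ≃ₗ[K] V) : Kˣ) : K) =
                Algebra.norm K ((LinearEquiv.det g : Eˣ) : E) := by
              rw [LinearEquiv.coe_det, LinearEquiv.coe_det]
              exact LinearMap.det_restrictScalars (R := K) (S := E) (A := V) (f := (g : V →ₗ[E] V))
            rw [h5, h1, show (-1 : E) = algebraMap K E (-1) by rw [map_neg, map_one],
              Algebra.norm_algebraMap, hrodd.neg_one_pow]
          have hgK : (resH g : V ≃ₗ[K] V) ∈ Isom f := by
            rw [lift_isom 1 f (RingHom.id E) fE hx g]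
            exact hg
          have hgKc : CarriesTo (resH g : V ≃ₗ[K] V) A A' :=
            carries_of_lift A A' hA.toIsTorGL hE hE' g hgc
          have hμ : μ ≠ 0 := by
            intro h0
            have h6 : ((LinearEquiv.det g₀ : Kˣ) : K) = 0 := by
              rw [hgdet, h0, zero_pow]
              omega
            exact (LinearEquiv.det g₀).ne_zero h6
          have hys : ∀ v w, f ((g₀⁻¹ * resH g : V ≃ₗ[K] V) v) ((g₀⁻¹ * resH g : V ≃ₗ[K] V) w) =
              μ⁻¹ * f v w := by
            intro v w
            have h7 : ∀ u, g₀ (g₀⁻¹ u) = u := fun u => LinearEquiv.apply_symm_apply g₀ u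
            have h8 := hgs (g₀⁻¹ ((resH g : V ≃ₗ[K] V) v)) (g₀⁻¹ ((resH g : V ≃ₗ[K] V) w))
            rw [h7, h7, mem_Isom.1 hgK] at h8
            rw [LinearEquiv.mul_apply, LinearEquiv.mul_apply, h8, inv_mul_cancel_left₀ hμ]
          have hyc : CarriesTo (g₀⁻¹ * resH g) A A := carries_mul hgKc hginv
          obtain ⟨yM, hyM, hyMd⟩ := V2_detTop (LinearMap.range (e + s))
            (by rw [hes, Module.End.one_eq_id, LinearMap.range_id]) (g₀⁻¹ * resH g)
          have h9 := proper_of_norm two f hf A hA e s hI hp hmev (g₀⁻¹ * resH g) μ⁻¹ hys hyc yM hyM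
          rw [hyMd, map_mul, map_inv, Units.val_mul, Units.val_inv_eq_inv_val, hdetK, hgdet,
            inv_pow] at h9
          have h10 : (μ ^ finrank K (LinearMap.range e))⁻¹ ≠ 0 := inv_ne_zero (pow_ne_zero _ hμ)
          apply two
          have h11 : (2 : K) * (μ ^ finrank K (LinearMap.range e))⁻¹ = 0 := by
            linear_combination -h9
          exact (mul_eq_zero.1 h11).resolve_right h10
        · left
          exact V2_oddpos f hf _ fE hx A hA hE e s hI hp hes eE heE hod
      · have heq := O_small E V twoE fE hf1 (by omega) _ _ hTE hTE'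
        refine ⟨1, one_mem _, fun a ha => ?_⟩
        have : (1 : V ≃ₗ[E] V).toLinearMap ∘ₗ a ∘ₗ (1 : V ≃ₗ[E] V).symm.toLinearMap = a := by
          ext v
          rfl
        rw [this, ← heq]
        exact ha
  obtain ⟨h, hh, hhc⟩ := key
  refine ⟨resH h, ?_, carries_of_lift A A' hA.toIsTorGL hE hE' h hhc⟩
  rw [← hmap]
  exact Subgroup.mem_map_of_mem _ hh

end Pool.Agent.CTO
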