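import Pool.Agent.CTO.P0

/-!
# Pronormal subgroups; similitudes
-/

namespace Pool.Agent.CTO

section group

variable {G : Type*} [Group G]

/-- `g H g⁻¹`. -/
def conjSub (g : G) (H : Subgroup G) : Subgroup G := H.map (MulAut.conj g).toMonoidHom

/-- A subgroup `H` of a group `G` is pronormal if for every `g`, `H` and `g H g⁻¹` are conjugate
in the subgroup generated by `H` and `g H g⁻¹`. -/
def IsPronormal (H : Subgroup G) : Prop :=
  ∀ g : G, ∃ x ∈ H ⊔ conjSub g H, conjSub x H = conjSub g H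

lemma mem_conjSub {g x : G} {H : Subgroup G} : x ∈ conjSub g H ↔ g⁻¹ * x * g ∈ H := by
  unfold conjSub
  constructor
  · rintro ⟨y, hy, rfl⟩
    simpa [mul_assoc] using hy
  · intro h
    exact ⟨_, h, by simp [mul_assoc]⟩

/-- Pronormality and quotients: if `N ≤ H` then `H` is pronormal in `G` iff `H / N` is pronormal
in `G / N`. -/
theorem isPronormal_map_iff (N : Subgroup G) [N.Normal] (H : Subgroup G)
    (hN : N ≤ H) : IsPronormal (H.map (QuotientGroup.mk' N)) ↔ IsPronormal H := by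
  have hmap : ∀ (x : G), conjSub (QuotientGroup.mk' N x) (H.map (QuotientGroup.mk' N))
      = (conjSub x H).map (QuotientGroup.mk' N) := by
    intro x
    ext y
    obtain ⟨y, rfl⟩ := QuotientGroup.mk'_surjective N y
    rw [mem_conjSub]
    constructor
    · rintro ⟨h, hh, hy⟩
      refine ⟨x * h * x⁻¹, ?_, ?_⟩
      · show x * h * x⁻¹ ∈ conjSub x H
        rw [mem_conjSub]
        have : x⁻¹ * (x * h * x⁻¹) * x = h := by group
        rw [this]; exact hh
      · rw [map_mul, map_mul, hy, map_inv]; group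
    · rintro ⟨z, hz, hy⟩
      have hz' : z ∈ conjSub x H := hz
      rw [mem_conjSub] at hz'
      refine ⟨x⁻¹ * z * x, hz', ?_⟩
      rw [← hy, map_mul, map_mul, map_inv]
  have hle : ∀ x : G, N ≤ conjSub x H := by
    intro x n hn
    rw [mem_conjSub]
    apply hN
    have := (inferInstance : N.Normal).conj_mem n hn x⁻¹
    simpa using this
  have hcomap : ∀ A B : Subgroup G, N ≤ A → N ≤ B →
      A.map (QuotientGroup.mk' N) = B.map (QuotientGroup.mk' N) → A = B := by
    intro A B hA hB h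
    have h1 := congrArg (Subgroup.comap (QuotientGroup.mk' N)) h
    rwa [Subgroup.comap_map_eq_self (by rw [QuotientGroup.ker_mk']; exact hA),
      Subgroup.comap_map_eq_self (by rw [QuotientGroup.ker_mk']; exact hB)] at h1
  constructor
  · intro h g
    obtain ⟨x', hx', hxe⟩ := h (QuotientGroup.mk' N g)
    rw [hmap, ← Subgroup.map_sup] at hx'
    obtain ⟨x, hx, rfl⟩ := hx'
    refine ⟨x, hx, ?_⟩
    rw [hmap, hmap] at hxe
    exact hcomap _ _ (hle x) (hle g) hxe
  · intro h g'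
    obtain ⟨g, rfl⟩ := QuotientGroup.mk'_surjective N g'
    obtain ⟨x, hx, hxe⟩ := h g
    refine ⟨QuotientGroup.mk' N x, ?_, ?_⟩
    · rw [hmap, ← Subgroup.map_sup]
      exact ⟨x, hx, rfl⟩
    · rw [hmap, hmap, hxe]

/-- Pronormality of `T ⊓ Γ` in `Γ`, inside the big group. -/
theorem isPronormal_subgroupOf_iff (Γ T : Subgroup G) :
    IsPronormal (T.subgroupOf Γ) ↔
      ∀ g ∈ Γ, ∃ x ∈ (Γ ⊓ T) ⊔ conjSub g (Γ ⊓ T), conjSub x (Γ ⊓ T) = conjSub g (Γ ⊓ T) := by
  have h1 : (T.subgroupOf Γ).map Γ.subtype = Γ ⊓ T := by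
    rw [Subgroup.subgroupOf_map_subtype, inf_comm]
  have h2 : ∀ g : Γ, (conjSub g (T.subgroupOf Γ)).map Γ.subtype = conjSub (g : G) (Γ ⊓ T) := by
    intro g
    ext y
    rw [mem_conjSub]
    constructor
    · rintro ⟨z, hz, rfl⟩
      have hz' : z ∈ conjSub g (T.subgroupOf Γ) := hz
      rw [mem_conjSub, Subgroup.mem_subgroupOf] at hz'
      refine ⟨Γ.mul_mem (Γ.mul_mem (Γ.inv_mem g.2) z.2) g.2, ?_⟩
      simpa using hz'
    · rintro ⟨hy1, hy2⟩
      have hy3 : y ∈ Γ := by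
        have := Γ.mul_mem (Γ.mul_mem g.2 hy1) (Γ.inv_mem g.2)
        simpa [mul_assoc] using this
      refine ⟨⟨y, hy3⟩, ?_, rfl⟩
      show (⟨y, hy3⟩ : Γ) ∈ conjSub g (T.subgroupOf Γ)
      rw [mem_conjSub, Subgroup.mem_subgroupOf]
      simpa using hy2
  have hinj : Function.Injective Γ.subtype := Subgroup.subtype_injective Γ
  have h3 : ∀ g : Γ, (T.subgroupOf Γ ⊔ conjSub g (T.subgroupOf Γ)).map Γ.subtype
      = (Γ ⊓ T) ⊔ conjSub (g : G) (Γ ⊓ T) := by
    intro g
    rw [Subgroup.map_sup, h1, h2]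
  constructor
  · intro h g hg
    obtain ⟨x, hx, hxe⟩ := h ⟨g, hg⟩
    refine ⟨x, ?_, ?_⟩
    · have h4 : (x : G) ∈ (T.subgroupOf Γ ⊔ conjSub ⟨g, hg⟩ (T.subgroupOf Γ)).map Γ.subtype :=
        ⟨x, hx, rfl⟩
      rw [h3] at h4
      exact h4
    · have := congrArg (Subgroup.map Γ.subtype) hxe
      rwa [h2, h2] at this
  · intro h g
    obtain ⟨x, hx, hxe⟩ := h g g.2
    rw [← h3 g] at hx
    obtain ⟨x', hx', rfl⟩ := hx
    refine ⟨x', hx', ?_⟩
    have h4 : (conjSub x' (T.subgroupOf Γ)).map Γ.subtype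
        = (conjSub g (T.subgroupOf Γ)).map Γ.subtype := by
      rw [h2, h2]; exact hxe
    exact Subgroup.map_injective hinj h4

end group

section

variable {K V : Type} [Field K] [AddCommGroup V] [Module K V]

/-- The group of similitudes of `f`. -/
def Sim (f : V → V → K) : Subgroup (V ≃ₗ[K] V) where
  carrier := {g | ∃ μ : Kˣ, ∀ v w, f (g v) (g w) = (μ : K) * f v w}
  mul_mem' := by
    rintro a b ⟨μ, h⟩ ⟨ν, h'⟩
    refine ⟨μ * ν, fun v w => ?_⟩
    simp only [LinearEquiv.mul_apply]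
    rw [h, h', Units.val_mul, mul_assoc]
  one_mem' := ⟨1, fun v w => by simp⟩
  inv_mem' := by
    rintro a ⟨μ, h⟩
    refine ⟨μ⁻¹, fun v w => ?_⟩
    have h1 : ∀ u, a (a⁻¹ u) = u := fun u => LinearEquiv.apply_symm_apply a u
    have h2 := h (a⁻¹ v) (a⁻¹ w)
    rw [h1, h1] at h2
    rw [h2, ← mul_assoc, Units.inv_mul, one_mul]

/-- The isometries with determinant one. -/
noncomputable def SIsom (f : V → V → K) : Subgroup (V ≃ₗ[K] V) :=
  Isom f ⊓ (LinearEquiv.det (R := K) (M := V)).ker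

lemma Isom_le_Sim (f : V → V → K) : Isom f ≤ Sim f := by
  intro g hg
  exact ⟨1, fun v w => by rw [hg v w]; simp⟩

end

end Pool.Agent.CTO
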