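import Pool.Agent.CTO.Pron
import Pool.Agent.CTO.T6

/-!
# Z1: the positive direction

By `isPronormal_subgroupOf_iff` let `g ∈ Γ`, a similitude with multiplier `μ`. `A' = pull g⁻¹ A = g A g⁻¹` is a
torus algebra for `f` (`pull_isTor` with `f' = μ f`; `IsAdj` for `μ f` and `f` is the same), `SIso f A f A'` by
`a ↦ g a g⁻¹`, and `tor f A' = g (tor f A) g⁻¹`, `torGL A' = g (torGL A) g⁻¹`. `coreF` gives
`x ∈ sq (tor f A) ⊔ sq (tor f A')` carrying `A` to `A'`. `sq (tor f A) ≤ Γ ⊓ torGL A` and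
`sq (tor f A') = g (sq (tor f A)) g⁻¹ ≤ conjSub g (Γ ⊓ torGL A)`; `x ∈ Γ`, and `x (torGL A) x⁻¹ = torGL A'`
(equality: `x A x⁻¹ = A'` by dimensions), so `conjSub x (Γ ⊓ torGL A) = Γ ⊓ torGL A' = conjSub g (Γ ⊓ torGL A)`.
-/

namespace Pool.Agent.CTO

open Module

theorem Z1_conjSub {G : Type*} [Group G] (Γ T : Subgroup G) (x : G) (hx : x ∈ Γ) :
    conjSub x (Γ ⊓ T) = Γ ⊓ conjSub x T := by
  ext y
  rw [mem_conjSub, Subgroup.mem_inf, Subgroup.mem_inf, mem_conjSub]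
  refine and_congr_left fun _ => ?_
  constructor
  · intro h
    have h1 := Γ.mul_mem (Γ.mul_mem hx h) (Γ.inv_mem hx)
    have h2 : x * (x⁻¹ * y * x) * x⁻¹ = y := by group
    rwa [h2] at h1
  · intro h
    exact Γ.mul_mem (Γ.mul_mem (Γ.inv_mem hx) h) hx

section

variable {K V : Type} [Field K] [AddCommGroup V] [Module K V]

theorem Z1_carries (g : V ≃ₗ[K] V) (A : Subalgebra K (Module.End K V)) :
    CarriesTo g A (pull g.symm A) := by
  intro a ha
  rw [mem_pull]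
  have h : g.symm.toLinearMap ∘ₗ (g.toLinearMap ∘ₗ a ∘ₗ g.symm.toLinearMap) ∘ₗ
      g.symm.symm.toLinearMap = a := by
    ext v
    simp
  rw [h]
  exact ha

theorem Z1_adj (f : V → V → K) (μ : Kˣ) (a b : Module.End K V) :
    IsAdj (fun v w => (μ : K) * f v w) a b ↔ IsAdj f a b := by
  constructor
  · intro h v w
    exact mul_left_cancel₀ μ.ne_zero (h v w)
  · intro h v w
    change (μ : K) * f (a v) w = (μ : K) * f v (b w)
    rw [h v w]

theorem Z1_sq_le (T : Subgroup (V ≃ₗ[K] V)) (H : Subgroup (V ≃ₗ[K] V)) (h : T ≤ H) :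
    sq T ≤ H := by
  rw [sq, Subgroup.closure_le]
  rintro x ⟨t, ht, rfl⟩
  exact H.mul_mem (h ht) (h ht)

end

theorem pron_pos (N : ℕ) : ∃ q0 : ℕ, ∀ (K V : Type) [Field K] [Finite K] [AddCommGroup V]
    [Module K V] [FiniteDimensional K V] (ε : K) (f : V → V → K) (A : Subalgebra K (Module.End K V))
    (Γ : Subgroup (V ≃ₗ[K] V)), finrank K V = N → q0 ≤ Nat.card K → (2 : K) ≠ 0 →
    IsHF (RingHom.id K) ε f → IsTor f A → Crit f A → (ε = 1 → OddPos f A) → Γ ≤ Sim f →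
    sq (tor (RingHom.id K) f A) ≤ Γ → IsPronormal ((torGL A).subgroupOf Γ) := by
  obtain ⟨q0, hcore⟩ := coreF N
  refine ⟨q0, ?_⟩
  intro K V _ _ _ _ _ ε f A Γ hN hq two hf hA hc ho hΓ hsq
  rw [isPronormal_subgroupOf_iff]
  intro g hg
  obtain ⟨μ, hμ⟩ := hΓ hg
  set A' := pull g.symm A with hA'
  have hTA : IsTor (fun v w => (μ : K) * f v w) A := by
    refine ⟨hA.toIsTorGL, ?_, ?_⟩
    · intro a ha
      obtain ⟨b, hb, hab⟩ := hA.star a ha
      exact ⟨b, hb, (Z1_adj f μ a b).2 hab⟩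
    · obtain ⟨d, hd, h1, h2⟩ := hA.skew
      exact ⟨d, hd, (Z1_adj f μ d (-d)).2 h1, h2⟩
  have hψ : ∀ v w, (fun v w => (μ : K) * f v w) (g.symm v) (g.symm w) = f v w := by
    intro v w
    change (μ : K) * f (g.symm v) (g.symm w) = f v w
    rw [← hμ, LinearEquiv.apply_symm_apply, LinearEquiv.apply_symm_apply]
  have hTA' : IsTor f A' := pull_isTor f _ g.symm hψ A hTA
  have hS : SIso f A f A' := by
    obtain ⟨φ, hφ⟩ := (pull_siso f (fun v w => (μ : K) * f v w) g.symm hψ A).2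
    exact ⟨φ, fun a b hab => hφ a b ((Z1_adj f μ _ _).2 hab)⟩
  obtain ⟨x, hx, hxc⟩ := hcore N le_rfl K V ε f A A' hN hq two hf hA hTA' hS hc ho
  have hle1 : sq (tor (RingHom.id K) f A) ≤ Γ ⊓ torGL A :=
    le_inf hsq (Z1_sq_le _ _ fun t ht => ht.1)
  have hle2 : sq (tor (RingHom.id K) f A') ≤ conjSub g (Γ ⊓ torGL A) := by
    rw [sq, Subgroup.closure_le]
    rintro y ⟨t, ht, rfl⟩
    have ht' := mem_tor.1 ht
    have hs : g⁻¹ * t * g ∈ tor (RingHom.id K) f A := by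
      rw [mem_tor]
      refine ⟨?_, ?_, ?_⟩
      · apply mem_torGL_of
        have h1 := ht'.1.1
        rw [hA', mem_pull] at h1
        have h2 : (g⁻¹ * t * g).toLinearMap =
            g.symm.toLinearMap ∘ₗ t.toLinearMap ∘ₗ g.symm.symm.toLinearMap := by
          ext v
          rfl
        rw [h2]
        exact h1
      · rw [mem_Isom]
        intro v w
        apply mul_left_cancel₀ μ.ne_zero
        rw [← hμ]
        have h3 : ∀ u, g ((g⁻¹ * t * g) u) = t (g u) := by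
          intro u
          change g (g.symm (t (g u))) = t (g u)
          exact LinearEquiv.apply_symm_apply g _
        rw [h3, h3, ht'.2.1 (g v) (g w), hμ]
      · intro hid
        rw [map_mul, map_mul, map_inv, ht'.2.2 hid]
        group
    change t * t ∈ conjSub g (Γ ⊓ torGL A)
    rw [mem_conjSub]
    have h4 : g⁻¹ * (t * t) * g = (g⁻¹ * t * g) * (g⁻¹ * t * g) := by group
    rw [h4]
    exact hle1 (Subgroup.subset_closure ⟨_, hs, rfl⟩)
  have hxm : x ∈ (Γ ⊓ torGL A) ⊔ conjSub g (Γ ⊓ torGL A) := (sup_le_sup hle1 hle2) hx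
  have hxΓ : x ∈ Γ := by
    have h1 : (Γ ⊓ torGL A) ⊔ conjSub g (Γ ⊓ torGL A) ≤ Γ := by
      refine sup_le inf_le_left ?_
      rw [Z1_conjSub Γ (torGL A) g hg]
      exact inf_le_left
    exact h1 hxm
  refine ⟨x, hxm, ?_⟩
  rw [Z1_conjSub Γ (torGL A) x hxΓ, Z1_conjSub Γ (torGL A) g hg]
  have e1 : conjSub x (torGL A) = torGL A' :=
    torGL_conj A A' hA.toIsTorGL hTA'.toIsTorGL x hxc
  have e2 : conjSub g (torGL A) = torGL A' :=
    torGL_conj A A' hA.toIsTorGL hTA'.toIsTorGL g (Z1_carries g A)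
  rw [e1, e2]

end Pool.Agent.CTO
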