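import Pool.Agent.CTO.V1
import Pool.Agent.CTO.V2
import Pool.Agent.CTO.T6
import Pool.Agent.CTO.Z1

/-!
# V3: a single positive cycle of length `m ≡ 2 mod 4` is pronormal

Notation of V2. Let `Γ ≤ Sim f` consist of proper similitudes (`det g = μ^(dim V / 2)`), `sq (tor f A) ≤ Γ`. Let
`g ∈ Γ`, `A' = pull g⁻¹ A`; as in Z1 (read its header) it is enough to find `h ∈ H = sq (tor f A) ⊔ sq (tor f A')`
carrying `A` to `A'`. If `H` is irreducible: `irrSingle` (`rank e = dim V / 2`, because `V = range e ⊕ range s`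
and `e`, `s` are adjoint, so they have the same rank). If `W ≠ ⊥, ⊤` is stable under `H`, then under `A`
(`gen_tor`), and `A'`, so `W = range e0`, `e0 ∈ A` an idempotent (`stable_eq`), `e0 ∈ {e, s}` (the idempotents of
`A` are `0, 1, e, s`), so `W` is totally isotropic, and `redI'` applies: `SIso f A f A'` by `g`; `Crit f A`: the
selfadjoint idempotents of `A` are `0` and `1`, and `range 0`, `range 1` are not isometric; `OddPos` for the
range of a selfadjoint idempotent `p ≠ 1`, i.e. `p = 0`, is void.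
-/

namespace Pool.Agent.CTO

open Module

theorem V3_conjSub {G : Type*} [Group G] (Γ T : Subgroup G) (x : G) (hx : x ∈ Γ) :
    conjSub x (Γ ⊓ T) = Γ ⊓ conjSub x T := by
  ext y
  rw [mem_conjSub, Subgroup.mem_inf, Subgroup.mem_inf, mem_conjSub]
  refine and_congr_left fun _ => ?_
  constructor
  · intro h
    have h1 := Γ.mul_mem (Γ.mul_mem hx h) (Γ.inv_mem hx)
    have h2 : x * (x⁻¹ * y * x) * x⁻¹ = y := by group
    rwa [h2] at h1
  · intro h
    exact Γ.mul_mem (Γ.mul_mem (Γ.inv_mem hx) h) hx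

section

variable {K V : Type} [Field K] [AddCommGroup V] [Module K V]

theorem V3_carries (g : V ≃ₗ[K] V) (A : Subalgebra K (Module.End K V)) :
    CarriesTo g A (pull g.symm A) := by
  intro a ha
  rw [mem_pull]
  have h : g.symm.toLinearMap ∘ₗ (g.toLinearMap ∘ₗ a ∘ₗ g.symm.toLinearMap) ∘ₗ
      g.symm.symm.toLinearMap = a := by
    ext v
    simp
  rw [h]
  exact ha

theorem V3_adj (f : V → V → K) (μ : Kˣ) (a b : Module.End K V) :
    IsAdj (fun v w => (μ : K) * f v w) a b ↔ IsAdj f a b := by
  constructor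
  · intro h v w
    exact mul_left_cancel₀ μ.ne_zero (h v w)
  · intro h v w
    change (μ : K) * f (a v) w = (μ : K) * f v (b w)
    rw [h v w]

theorem V3_sq_le (T : Subgroup (V ≃ₗ[K] V)) (H : Subgroup (V ≃ₗ[K] V)) (h : T ≤ H) :
    sq T ≤ H := by
  rw [sq, Subgroup.closure_le]
  rintro x ⟨t, ht, rfl⟩
  exact H.mul_mem (h ht) (h ht)

theorem V3_stab (H : Subgroup (V ≃ₗ[K] V)) (W : Submodule K V) (hW : ∀ h ∈ H, ∀ v ∈ W, h v ∈ W)
    (a : Module.End K V) (ha : a ∈ Algebra.adjoin K (EndSet H)) : ∀ v ∈ W, a v ∈ W := by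
  induction ha using Algebra.adjoin_induction with
  | mem x hx =>
    obtain ⟨h, hh, rfl⟩ := hx
    exact fun v hv => hW h hh v hv
  | algebraMap r =>
    intro v hv
    rw [Module.algebraMap_end_apply]
    exact W.smul_mem r hv
  | add x y _ _ hx hy =>
    intro v hv
    exact W.add_mem (hx v hv) (hy v hv)
  | mul x y _ _ hx hy =>
    intro v hv
    exact hx _ (hy v hv)

theorem V3_mono (H H' : Subgroup (V ≃ₗ[K] V)) (h : H ≤ H') :
    Algebra.adjoin K (EndSet H) ≤ Algebra.adjoin K (EndSet H') := by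
  apply Algebra.adjoin_mono
  rintro x ⟨g, hg, rfl⟩
  exact ⟨g, h hg, rfl⟩

theorem V3_add_right {f : V → V → K} (hf : IsHF (RingHom.id K) 1 f) (u v w : V) :
    f u (v + w) = f u v + f u w := by
  rw [hf.herm (v + w) u, hf.add_left, map_add, mul_add, ← hf.herm v u, ← hf.herm w u]

theorem V3_smul_right {f : V → V → K} (hf : IsHF (RingHom.id K) 1 f) (a : K) (v w : V) :
    f v (a • w) = a * f v w := by
  rw [hf.herm (a • w) v, hf.smul_left, map_mul, hf.herm w v]
  simp

theorem V3_symm {f : V → V → K} (hf : IsHF (RingHom.id K) 1 f) (v w : V) : f w v = f v w := by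
  rw [hf.herm v w]
  simp

theorem V3_sub_left {f : V → V → K} (hf : IsHF (RingHom.id K) 1 f) (u v w : V) :
    f (u - v) w = f u w - f v w := by
  have h := hf.add_left (u - v) v w
  rw [sub_add_cancel] at h
  rw [h]
  ring

theorem V3_sub_right {f : V → V → K} (hf : IsHF (RingHom.id K) 1 f) (u v w : V) :
    f w (u - v) = f w u - f w v := by
  rw [V3_symm hf (u - v) w, V3_sub_left hf, V3_symm hf u w, V3_symm hf v w]

theorem V3_zero_left {f : V → V → K} (hf : IsHF (RingHom.id K) 1 f) (w : V) : f 0 w = 0 := by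
  have h := hf.smul_left 0 0 w
  rw [zero_smul, zero_mul] at h
  exact h

/-- an endomorphism that has adjoint zero is zero -/
theorem V3_adj_zero {f : V → V → K} (hf : IsHF (RingHom.id K) 1 f) (a b : Module.End K V)
    (h : ∀ v w, f (a v) w = f v (b w)) (ha : a = 0) : b = 0 := by
  ext w
  apply hf.nondeg
  intro v
  rw [V3_symm hf, ← h v w, ha, LinearMap.zero_apply, V3_zero_left hf]

theorem V3_idem {e : Module.End K V} (hee : e * e = e) {v : V} (hv : v ∈ LinearMap.range e) :
    e v = v := by
  obtain ⟨u, rfl⟩ := hv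
  exact LinearMap.congr_fun hee u

theorem V3_rank_le [FiniteDimensional K V] {f : V → V → K} (hf : IsHF (RingHom.id K) 1 f)
    (U W : Submodule K V) (hUW : ∀ v : V, ∃ u ∈ U, ∃ w ∈ W, v = u + w)
    (hU : ∀ u ∈ U, ∀ u' ∈ U, f u u' = 0) : finrank K U ≤ finrank K W := by
  let B : V →ₗ[K] V →ₗ[K] K := LinearMap.mk₂ K f hf.add_left hf.smul_left
    (fun u v w => V3_add_right hf u v w) (fun a v w => V3_smul_right hf a v w)
  let φ : U →ₗ[K] Module.Dual K W := B.domRestrict₁₂ U W
  have hφ : Function.Injective φ := by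
    rw [injective_iff_map_eq_zero]
    intro u hu
    apply Subtype.ext
    apply hf.nondeg
    intro v
    obtain ⟨u', hu', w, hw, rfl⟩ := hUW v
    rw [V3_add_right hf, hU u u.2 u' hu', zero_add]
    exact LinearMap.congr_fun hu ⟨w, hw⟩
  have h1 := LinearMap.finrank_le_finrank_of_injective hφ
  rwa [Subspace.dual_finrank_eq] at h1

theorem V3_siso_refl (f : V → V → K) (p p' : Module.End K V)
    (A : Subalgebra K (Module.End K V)) (h : p = p') :
    SIso (resF f (LinearMap.range p)) (restr A (LinearMap.range p))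
      (resF f (LinearMap.range p')) (restr A (LinearMap.range p')) := by
  subst h
  exact ⟨AlgEquiv.refl, fun a b hab => hab⟩

end

section

variable {K V : Type} [Field K] [Finite K] [AddCommGroup V] [Module K V] [FiniteDimensional K V]

theorem V3_selfadj (f : V → V → K) (hf : IsHF (RingHom.id K) 1 f)
    (A : Subalgebra K (Module.End K V)) (hA : IsTor f A) (e s : Module.End K V)
    (h : IsoIdem f A e s) (hp : IsPrim A e) (hes : e + s = 1) (p : Module.End K V) (hpA : p ∈ A)
    (hpp : p * p = p) (hps : IsAdj f p p) : p = 0 ∨ p = 1 := by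
  have hc := hA.comm
  have h1 : (p * e) * (p * e) = p * e := by
    calc (p * e) * (p * e) = p * (e * p) * e := by noncomm_ring
      _ = p * (p * e) * e := by rw [hc e h.he p hpA]
      _ = (p * p) * (e * e) := by noncomm_ring
      _ = p * e := by rw [hpp, h.idem]
  have h2 : (p * e) * e = p * e := by rw [mul_assoc, h.idem]
  have hadj : ∀ v w, f ((p * e) v) w = f v ((s * p) w) := by
    intro v w
    rw [Module.End.mul_apply, Module.End.mul_apply, hps (e v) w, h.adj v (p w)]
  rcases hp.2.2.2 (p * e) (A.mul_mem hpA h.he) h1 h2 with h3 | h3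
  · left
    have h4 : s * p = 0 := V3_adj_zero hf (p * e) (s * p) hadj h3
    have h5 : p * s = 0 := by rw [hc p hpA s h.hs, h4]
    calc p = p * (e + s) := by rw [hes, mul_one]
      _ = p * e + p * s := by rw [mul_add]
      _ = 0 := by rw [h3, h5, add_zero]
  · right
    have hadj' : ∀ v w, f ((p * e - e) v) w = f v ((s * p - s) w) := by
      intro v w
      rw [LinearMap.sub_apply, LinearMap.sub_apply, V3_sub_left hf, hadj, h.adj v w,
        V3_sub_right hf]
    have h4 : s * p - s = 0 := V3_adj_zero hf (p * e - e) (s * p - s) hadj' (by rw [h3, sub_self])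
    have h5 : p * s = s := by rw [hc p hpA s h.hs, sub_eq_zero.1 h4]
    calc p = p * (e + s) := by rw [hes, mul_one]
      _ = p * e + p * s := by rw [mul_add]
      _ = 1 := by rw [h3, h5, hes]

theorem V3_step (q0 N : ℕ) (IH : ∀ m < N, CoreFAt q0 m) (hGL : ∀ m ≤ N, CoreGLAt q0 m)
    (hgen : ∀ (A : Subalgebra K (Module.End K V)) (f : V → V → K),
      IsHF (RingHom.id K) 1 f → IsTor f A →
      A ≤ Algebra.adjoin K (EndSet (sq (tor (RingHom.id K) f A))))
    (f : V → V → K) (A A' : Subalgebra K (Module.End K V)) (e s : Module.End K V)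
    (hN : finrank K V = N) (hq : q0 ≤ Nat.card K) (two : (2 : K) ≠ 0)
    (hf : IsHF (RingHom.id K) 1 f) (hA : IsTor f A) (hA' : IsTor f A') (h : IsoIdem f A e s)
    (hp : IsPrim A e) (hes : e + s = 1) (hS : SIso f A f A')
    (W : Submodule K V) (hW : ∀ h ∈ sq (tor (RingHom.id K) f A) ⊔ sq (tor (RingHom.id K) f A'),
      ∀ v ∈ W, h v ∈ W) (hW0 : W ≠ ⊥) (hW1 : W ≠ ⊤) :
    ∃ h ∈ sq (tor (RingHom.id K) f A) ⊔ sq (tor (RingHom.id K) f A'), CarriesTo h A A' := by
  have hc := hA.comm
  have hg := hgen A f hf hA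
  have hg' := hgen A' f hf hA'
  have sA : ∀ a ∈ A, ∀ v ∈ W, a v ∈ W := fun a ha =>
    V3_stab _ W hW a (V3_mono _ _ le_sup_left (hg ha))
  have sA' : ∀ a ∈ A', ∀ v ∈ W, a v ∈ W := fun a ha =>
    V3_stab _ W hW a (V3_mono _ _ le_sup_right (hg' ha))
  have hCrit : Crit f A := by
    intro p hpA p' hpA' hpp hps hpp' hps' hI
    have hnt : Nontrivial V := by
      by_contra hn
      rw [not_nontrivial_iff_subsingleton] at hn
      exact hp.2.2.1 (by ext v; exact Subsingleton.elim _ _)
    have key : LinearMap.range (0 : Module.End K V) ≠ LinearMap.range (1 : Module.End K V) ∧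
        (IsoSp f (LinearMap.range (0 : Module.End K V)) (LinearMap.range (1 : Module.End K V)) →
          False) ∧
        (IsoSp f (LinearMap.range (1 : Module.End K V)) (LinearMap.range (0 : Module.End K V)) →
          False) := by
      have r0 : finrank K (LinearMap.range (0 : Module.End K V)) = 0 := by
        rw [LinearMap.range_zero]
        exact finrank_bot K V
      have r1 : finrank K (LinearMap.range (1 : Module.End K V)) = finrank K V := by
        have : LinearMap.range (1 : Module.End K V) = ⊤ := LinearMap.range_id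
        rw [this]
        exact finrank_top K V
      have hpos : 0 < finrank K V := Module.finrank_pos
      refine ⟨?_, ?_, ?_⟩
      · intro hh
        rw [← hh, r0] at r1
        omega
      · rintro ⟨φ, -⟩
        have := φ.finrank_eq
        omega
      · rintro ⟨φ, -⟩
        have := φ.finrank_eq
        omega
    rcases V3_selfadj f hf A hA e s h hp hes p hpA hpp hps with h0 | h0 <;>
    rcases V3_selfadj f hf A hA e s h hp hes p' hpA' hpp' hps' with h1 | h1
    · exact V3_siso_refl f p p' A (h0.trans h1.symm)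
    · subst h0
      subst h1
      exact absurd hI key.2.1
    · subst h0
      subst h1
      exact absurd hI key.2.2
    · exact V3_siso_refl f p p' A (h0.trans h1.symm)
  have hOdd : (1 : K) = 1 → ∀ p ∈ A, p * p = p → IsAdj f p p → p ≠ 1 →
      OddPos (resF f (LinearMap.range p)) (restr A (LinearMap.range p)) := by
    intro _ p hpA hpp hps hp1
    have h0 : p = 0 := (V3_selfadj f hf A hA e s h hp hes p hpA hpp hps).resolve_right hp1
    subst h0
    intro a _ b _ _ _ _ hne _
    exfalso
    apply hne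
    ext v
    obtain ⟨u, hu⟩ : (a v : V) ∈ LinearMap.range (0 : Module.End K V) := (a v).2
    rw [← hu]
    rfl
  obtain ⟨e0, he0, he0i, he0r⟩ := stable_eq A hA.toIsTorGL W sA
  have h1 : (e0 * e) * (e0 * e) = e0 * e := by
    calc (e0 * e) * (e0 * e) = e0 * (e * e0) * e := by noncomm_ring
      _ = e0 * (e0 * e) * e := by rw [hc e h.he e0 he0]
      _ = (e0 * e0) * (e * e) := by noncomm_ring
      _ = e0 * e := by rw [he0i, h.idem]
  have h2 : (e0 * e) * e = e0 * e := by rw [mul_assoc, h.idem]
  rcases hp.2.2.2 (e0 * e) (A.mul_mem he0 h.he) h1 h2 with h3 | h3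
  · -- `W` is contained in the range of `s`
    have hWs : ∀ v ∈ W, s v = v := by
      intro v hv
      rw [← he0r] at hv
      have e1 := V3_idem he0i hv
      have e2 : e (e0 v) = 0 := by
        have := LinearMap.congr_fun ((hc e h.he e0 he0).trans h3) v
        exact this
      have e3 := LinearMap.congr_fun hes v
      rw [LinearMap.add_apply, Module.End.one_apply] at e3
      rw [e1] at e2
      rw [e2, zero_add] at e3
      exact e3
    have hadj' : ∀ v w, f (s v) w = f v (e w) := by
      intro v w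
      rw [V3_symm hf w (s v), ← h.adj w v, V3_symm hf v (e w)]
    refine redI' N q0 IH hGL K V 1 f A A' hN hq two hf hA hA' hg hS hCrit hOdd W hW0 ?_ sA sA'
    intro u hu v hv
    rw [← hWs u hu, hadj' u v]
    have e3 := LinearMap.congr_fun hes v
    rw [LinearMap.add_apply, Module.End.one_apply, hWs v hv] at e3
    have e4 : e v = 0 := by simpa using e3
    rw [e4, V3_symm hf 0 u, V3_zero_left hf]
  · -- the range of `e` is contained in `W`, use the orthogonal space
    have hperp : ∀ B : Subalgebra K (Module.End K V), IsTor f B →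
        (∀ a ∈ B, ∀ v ∈ W, a v ∈ W) →
        ∀ a ∈ B, ∀ v ∈ perp (RingHom.id K) 1 f hf W, a v ∈ perp (RingHom.id K) 1 f hf W := by
      intro B hB sB a ha v hv u hu
      obtain ⟨b, hb, hab⟩ := hB.star a ha
      rw [hab v u]
      exact hv (b u) (sB b hb u hu)
    have heW : ∀ v, e v ∈ W := by
      intro v
      rw [← he0r]
      exact ⟨e v, LinearMap.congr_fun h3 v⟩
    have hpe : ∀ v ∈ perp (RingHom.id K) 1 f hf W, e v = v := by
      intro v hv
      have hs0 : s v = 0 := by
        apply hf.nondeg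
        intro w
        rw [V3_symm hf w (s v), ← h.adj w v, V3_symm hf v (e w)]
        exact hv (e w) (heW w)
      have e3 := LinearMap.congr_fun hes v
      rw [LinearMap.add_apply, Module.End.one_apply, hs0, add_zero] at e3
      exact e3
    refine redI' N q0 IH hGL K V 1 f A A' hN hq two hf hA hA' hg hS hCrit hOdd
      (perp (RingHom.id K) 1 f hf W) ?_ ?_ (hperp A hA sA) (hperp A' hA' sA')
    · intro hbot
      apply hW1
      obtain ⟨b, hb, hab⟩ := hA.star e0 he0
      have hb1 : ∀ v, v - b v = 0 := by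
        intro v
        have hm : v - b v ∈ perp (RingHom.id K) 1 f hf W := by
          intro u hu
          rw [← he0r] at hu
          rw [V3_sub_left hf, V3_symm hf u (b v), ← hab u v, V3_idem he0i hu, V3_symm hf v u,
            sub_self]
        rw [hbot, Submodule.mem_bot] at hm
        exact hm
      have he1 : e0 = 1 := by
        have h4 : b - 1 = 0 := by
          ext v
          have := hb1 v
          rw [LinearMap.sub_apply, Module.End.one_apply, LinearMap.zero_apply]
          rw [← neg_eq_zero, neg_sub]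
          exact this
        have h5 : e0 - 1 = 0 := by
          refine V3_adj_zero hf (b - 1) (e0 - 1) ?_ h4
          intro v w
          rw [LinearMap.sub_apply, LinearMap.sub_apply, V3_sub_left hf, V3_sub_right hf,
            V3_symm hf w (b v), ← hab w v, V3_symm hf v (e0 w), Module.End.one_apply,
            Module.End.one_apply]
        exact sub_eq_zero.1 h5
      rw [← he0r, he1]
      exact LinearMap.range_id
    · intro u hu v hv
      rw [← hpe u hu, h.adj u v]
      have e3 := LinearMap.congr_fun hes v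
      rw [LinearMap.add_apply, Module.End.one_apply, hpe v hv] at e3
      have e4 : s v = 0 := by simpa using e3
      rw [e4, V3_symm hf 0 u, V3_zero_left hf]

theorem V3_rank (f : V → V → K) (hf : IsHF (RingHom.id K) 1 f)
    (A : Subalgebra K (Module.End K V)) (hA : IsTor f A) (e s : Module.End K V)
    (h : IsoIdem f A e s) (hes : e + s = 1) :
    finrank K V / 2 = finrank K (LinearMap.range e) := by
  have hes' : ∀ v, v = e v + s v := by
    intro v
    have e3 := LinearMap.congr_fun hes v
    rw [LinearMap.add_apply, Module.End.one_apply] at e3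
    exact e3.symm
  obtain ⟨-, -, -, hss, hes0, -⟩ := isoIdem_p 1 f hf A hA e s h
  have hadj' : ∀ v w, f (s v) w = f v (e w) := by
    intro v w
    rw [V3_symm hf w (s v), ← h.adj w v, V3_symm hf v (e w)]
  have h1 : finrank K (LinearMap.range e) ≤ finrank K (LinearMap.range s) := by
    refine V3_rank_le hf _ _ (fun v => ⟨e v, ⟨v, rfl⟩, s v, ⟨v, rfl⟩, hes' v⟩) ?_
    rintro _ ⟨u, rfl⟩ _ ⟨u', rfl⟩
    have h2 : s (e u') = 0 := LinearMap.congr_fun h.orth u'
    rw [h.adj u (e u'), h2, V3_symm hf 0 u, V3_zero_left hf]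
  have h2 : finrank K (LinearMap.range s) ≤ finrank K (LinearMap.range e) := by
    refine V3_rank_le hf _ _ (fun v => ⟨s v, ⟨v, rfl⟩, e v, ⟨v, rfl⟩, ?_⟩) ?_
    · rw [add_comm]
      exact hes' v
    rintro _ ⟨u, rfl⟩ _ ⟨u', rfl⟩
    have h2 : e (s u') = 0 := LinearMap.congr_fun hes0 u'
    rw [hadj' u (s u'), h2, V3_symm hf 0 u, V3_zero_left hf]
  have h3 : LinearMap.ker e = LinearMap.range s := by
    ext v
    constructor
    · intro hv
      rw [LinearMap.mem_ker] at hv
      have := hes' v
      rw [hv, zero_add] at this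
      exact ⟨v, this.symm⟩
    · rintro ⟨u, rfl⟩
      exact LinearMap.congr_fun hes0 u
  have h4 := LinearMap.finrank_range_add_finrank_ker e
  rw [h3] at h4
  omega

theorem V3_F_mono {q q' m : ℕ} (h : q ≤ q') (hF : CoreFAt q m) : CoreFAt q' m := by
  intro K V _ _ _ _ _ ε f A A' h1 h2
  exact hF K V ε f A A' h1 (h.trans h2)

theorem V3_GL_mono {q q' m : ℕ} (h : q ≤ q') (hF : CoreGLAt q m) : CoreGLAt q' m := by
  intro K V _ _ _ _ _ A A' h1 h2
  exact hF K V A A' h1 (h.trans h2)

end

theorem pron_single (N : ℕ) : ∃ q0 : ℕ, ∀ (K V : Type) [Field K] [Finite K] [AddCommGroup V]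
    [Module K V] [FiniteDimensional K V] (f : V → V → K) (A : Subalgebra K (Module.End K V))
    (e s : Module.End K V) (Γ : Subgroup (V ≃ₗ[K] V)),
    finrank K V = N → q0 ≤ Nat.card K → (2 : K) ≠ 0 →
    IsHF (RingHom.id K) 1 f → IsTor f A → IsoIdem f A e s → IsPrim A e → e + s = 1 →
    finrank K (LinearMap.range e) % 4 = 2 → Γ ≤ Sim f →
    (∀ g ∈ Γ, ∀ μ : K, (∀ v w, f (g v) (g w) = μ * f v w) →
      ((LinearEquiv.det g : Kˣ) : K) = μ ^ (finrank K V / 2)) →
    sq (tor (RingHom.id K) f A) ≤ Γ → IsPronormal ((torGL A).subgroupOf Γ) := by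
  obtain ⟨q1, hcoreF⟩ := coreF N
  choose qg hqg using coreGL
  obtain ⟨q3, h3⟩ := gen_tor N
  obtain ⟨q4, h4⟩ := irrSingle N
  set q2 : ℕ := (Finset.range (N + 1)).sup qg with hq2
  have h2 : ∀ m ≤ N, CoreGLAt q2 m := fun m hm =>
    V3_GL_mono (Finset.le_sup (f := qg) (Finset.mem_range.2 (Nat.lt_succ_of_le hm))) (hqg m)
  set q0 : ℕ := max (max q1 q2) (max q3 q4) with hq0
  have e1 : q1 ≤ q0 := (le_max_left _ _).trans (le_max_left _ _)
  have e2 : q2 ≤ q0 := (le_max_right _ _).trans (le_max_left _ _)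
  have e3 : q3 ≤ q0 := (le_max_left _ _).trans (le_max_right _ _)
  have e4 : q4 ≤ q0 := (le_max_right _ _).trans (le_max_right _ _)
  refine ⟨q0, ?_⟩
  intro K V _ _ _ _ _ f A e s Γ hN hq two hf hA hes hp hsum hmod hΓ hdet hsq
  rw [isPronormal_subgroupOf_iff]
  intro g hg
  obtain ⟨μ, hμ⟩ := hΓ hg
  set A' := pull g.symm A with hA'
  have hTA : IsTor (fun v w => (μ : K) * f v w) A := by
    refine ⟨hA.toIsTorGL, ?_, ?_⟩
    · intro a ha
      obtain ⟨b, hb, hab⟩ := hA.star a ha
      exact ⟨b, hb, (V3_adj f μ a b).2 hab⟩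
    · obtain ⟨d, hd, h1, h2⟩ := hA.skew
      exact ⟨d, hd, (V3_adj f μ d (-d)).2 h1, h2⟩
  have hψ : ∀ v w, (fun v w => (μ : K) * f v w) (g.symm v) (g.symm w) = f v w := by
    intro v w
    change (μ : K) * f (g.symm v) (g.symm w) = f v w
    rw [← hμ, LinearEquiv.apply_symm_apply, LinearEquiv.apply_symm_apply]
  have hTA' : IsTor f A' := pull_isTor f _ g.symm hψ A hTA
  have hS : SIso f A f A' := by
    obtain ⟨φ, hφ⟩ := (pull_siso f (fun v w => (μ : K) * f v w) g.symm hψ A).2
    exact ⟨φ, fun a b hab => hφ a b ((V3_adj f μ _ _).2 hab)⟩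
  obtain ⟨x, hx, hxc⟩ : ∃ h ∈ sq (tor (RingHom.id K) f A) ⊔ sq (tor (RingHom.id K) f A'),
      CarriesTo h A A' := by
    by_cases hI : ∀ W : Submodule K V,
        (∀ h ∈ sq (tor (RingHom.id K) f A) ⊔ sq (tor (RingHom.id K) f A'),
          ∀ v ∈ W, h v ∈ W) → W = ⊥ ∨ W = ⊤
    · have hd := hdet g hg μ hμ
      rw [V3_rank f hf A hA e s hes hsum] at hd
      exact h4 K V f A A' e s g μ hN (e4.trans hq) two hf hA hTA' hes hp hsum hmod
        (V3_carries g A) hμ hd hI
    · push Not at hI
      obtain ⟨W, hW, hW0, hW1⟩ := hI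
      exact V3_step q0 N (fun m hm => V3_F_mono e1 (hcoreF m hm.le))
        (fun m hm => V3_GL_mono e2 (h2 m hm))
        (fun B f' hf' hB => h3 K V 1 f' B hN (e3.trans hq) two hf' hB)
        f A A' e s hN hq two hf hA hTA' hes hp hsum hS W hW hW0 hW1
  have hle1 : sq (tor (RingHom.id K) f A) ≤ Γ ⊓ torGL A :=
    le_inf hsq (V3_sq_le _ _ fun t ht => ht.1)
  have hle2 : sq (tor (RingHom.id K) f A') ≤ conjSub g (Γ ⊓ torGL A) := by
    rw [sq, Subgroup.closure_le]
    rintro y ⟨t, ht, rfl⟩
    have ht' := mem_tor.1 ht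
    have hs : g⁻¹ * t * g ∈ tor (RingHom.id K) f A := by
      rw [mem_tor]
      refine ⟨?_, ?_, ?_⟩
      · apply mem_torGL_of
        have h1 := ht'.1.1
        rw [hA', mem_pull] at h1
        have h2 : (g⁻¹ * t * g).toLinearMap =
            g.symm.toLinearMap ∘ₗ t.toLinearMap ∘ₗ g.symm.symm.toLinearMap := by
          ext v
          rfl
        rw [h2]
        exact h1
      · rw [mem_Isom]
        intro v w
        apply mul_left_cancel₀ μ.ne_zero
        rw [← hμ]
        have h3 : ∀ u, g ((g⁻¹ * t * g) u) = t (g u) := by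
          intro u
          change g (g.symm (t (g u))) = t (g u)
          exact LinearEquiv.apply_symm_apply g _
        rw [h3, h3, ht'.2.1 (g v) (g w), hμ]
      · intro hid
        rw [map_mul, map_mul, map_inv, ht'.2.2 hid]
        group
    change t * t ∈ conjSub g (Γ ⊓ torGL A)
    rw [mem_conjSub]
    have h4 : g⁻¹ * (t * t) * g = (g⁻¹ * t * g) * (g⁻¹ * t * g) := by group
    rw [h4]
    exact hle1 (Subgroup.subset_closure ⟨_, hs, rfl⟩)
  have hxm : x ∈ (Γ ⊓ torGL A) ⊔ conjSub g (Γ ⊓ torGL A) := (sup_le_sup hle1 hle2) hx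
  have hxΓ : x ∈ Γ := by
    have h1 : (Γ ⊓ torGL A) ⊔ conjSub g (Γ ⊓ torGL A) ≤ Γ := by
      refine sup_le inf_le_left ?_
      rw [V3_conjSub Γ (torGL A) g hg]
      exact inf_le_left
    exact h1 hxm
  refine ⟨x, hxm, ?_⟩
  rw [V3_conjSub Γ (torGL A) x hxΓ, V3_conjSub Γ (torGL A) g hg]
  have e1 : conjSub x (torGL A) = torGL A' :=
    torGL_conj A A' hA.toIsTorGL hTA'.toIsTorGL x hxc
  have e2 : conjSub g (torGL A) = torGL A' :=
    torGL_conj A A' hA.toIsTorGL hTA'.toIsTorGL g (V3_carries g A)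
  rw [e1, e2]

end Pool.Agent.CTO
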