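import Pool.Agent.CTO.Z5
import Pool.Agent.CTO.F3
import Pool.Agent.CTO.G5

/-!
# V4: a single positive cycle of length divisible by four is not pronormal

`f` symmetric, `IsoIdem f A e s`, `e` primitive in `A`, `e + s = 1`, `m = rank e`, `4 ∣ m`, `m > 0`.
`e A = {a ∈ A | a e = a}` is a field of degree `m` over `K` (`dim_eq`), it has a subfield `E0` of degree two. Let
`E` be this field, `j : E → A`, `j(x) = x + x*` (`x ∈ E0 ⊆ e A`, `x* ∈ s A`), a homomorphism of rings with
`j(1) = e + s = 1`, `j(x)* = j(x)`. `V` is an `E`-space by `j`; `E ⊆ A`. `exists_ext` gives `σ`, `fE`; `σ = id`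
because `j(x)` is selfadjoint. `AE = liftAlg A` is a torus algebra for `fE` (`lift_isTor`); `e`, `s` define
`eE, sE ∈ AE` with `IsoIdem fE AE eE sE`, `IsPrim AE eE`, `eE + sE = 1`, `rank_E eE = m / 2` even.
Let `disc = det (Tr_{E/K}(b_i b_j))` for a `K`-basis `b_1, b_2` of `E` (nonzero). As `dim_E V = m ≥ 2`
the form `fE` represents every nonzero element of `E` (orthogonal basis, `FiniteField.exists_root_sum_quadratic`),
so there is `u ∈ V` with `α = fE u u ≠ 0` and `N_{E/K}(α) disc` a square of `K` (the norm is surjective). Let `rE` be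
the reflection of `(V, fE)` in `u`, `g = resH rE`: it is `-1` on `E u` and the identity on the orthogonal space
of `E u` (for `f` and `fE` the same). `f(x u, y u) = Tr(x y α)`, so the Gram determinant of `E u` is
`N(α) disc` up to a square, a square. Let `u1, u2` be an orthogonal `K`-basis of `E u` for `f`; `g` is the product
of the reflections in `u1`, `u2`, `f u1 u1 * f u2 u2` is a square, so `g ∈ EU ≤ Γ` (`refl_same`).
Let `T = Γ ⊓ torGL A`, and suppose there is `x ∈ T ⊔ g T g⁻¹` with `x T x⁻¹ = g T g⁻¹`. All these elements are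
`E`-linear similitudes of `f` with multipliers `μ ∈ K`; then they are similitudes of `fE` with the same
multiplier. Over `E`: the elements `t` of `T` satisfy `det_E t = μ^(m/2)` (by `proper_of_norm` over `E`, as `t`
normalizes `AE`), hence so do their conjugates by `rE` and `x`. `y = x⁻¹ g` normalizes `A` (Z4), so it
normalizes `AE` and `det_E y = μ_y^(m/2)` by `proper_of_norm`; so `det_E g = μ_g^(m/2) = 1`, but `g = rE` is a
reflection, `det_E rE = -1`: contradiction.
-/

namespace Pool.Agent.CTO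

set_option linter.unusedSectionVars false

open Module

section gen

variable {L W : Type} [Field L] [AddCommGroup W] [Module L W] {g : W → W → L}

theorem V4_symm (hg : IsHF (RingHom.id L) 1 g) (v w : W) : g w v = g v w := by
  have := hg.herm v w
  simpa using this

theorem V4_add_right (hg : IsHF (RingHom.id L) 1 g) (w u v : W) : g w (u + v) = g w u + g w v := by
  rw [V4_symm hg (u + v) w, hg.add_left, V4_symm hg w u, V4_symm hg w v]

theorem V4_smul_right (hg : IsHF (RingHom.id L) 1 g) (c : L) (v w : W) : g v (c • w) = c * g v w := by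
  rw [V4_symm hg (c • w) v, hg.smul_left, V4_symm hg v w]

/-- `x ↦ g x u` -/
def V4_dual (hg : IsHF (RingHom.id L) 1 g) (u : W) : Module.Dual L W where
  toFun x := g x u
  map_add' x y := hg.add_left x y u
  map_smul' c x := by rw [hg.smul_left]; rfl

theorem V4_dual_apply (hg : IsHF (RingHom.id L) 1 g) (u x : W) : V4_dual hg u x = g x u := rfl

theorem V4_sub_left (hg : IsHF (RingHom.id L) 1 g) (x y u : W) : g (x - y) u = g x u - g y u := by
  have := map_sub (V4_dual hg u) x y
  exact this

theorem V4_zero_left (hg : IsHF (RingHom.id L) 1 g) (u : W) : g 0 u = 0 :=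
  map_zero (V4_dual hg u)

theorem V4_sub_right (hg : IsHF (RingHom.id L) 1 g) (x y u : W) : g u (x - y) = g u x - g u y := by
  rw [V4_symm hg (x - y) u, V4_sub_left hg, V4_symm hg u x, V4_symm hg u y]

/-- the map of the reflection -/
def V4_tv (hg : IsHF (RingHom.id L) 1 g) (u : W) : W →ₗ[L] W :=
  LinearMap.transvection (-(2 / g u u) • V4_dual hg u) u

theorem V4_tv_apply (hg : IsHF (RingHom.id L) 1 g) (u x : W) :
    V4_tv hg u x = x - (2 * g x u / g u u) • u := by
  unfold V4_tv
  rw [LinearMap.transvection.apply, LinearMap.smul_apply, V4_dual_apply, sub_eq_add_neg, ← neg_smul]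
  congr 2
  rw [smul_eq_mul]
  ring

theorem V4_exists_refl (hg : IsHF (RingHom.id L) 1 g) (u : W) (hu : g u u ≠ 0) :
    ∃ r : W ≃ₗ[L] W, IsRefl g u r := by
  have hinv : Function.Involutive (V4_tv hg u) := by
    intro x
    rw [V4_tv_apply hg u (V4_tv hg u x), V4_tv_apply hg u x, V4_sub_left hg, hg.smul_left]
    have h1 : g x u - 2 * g x u / g u u * g u u = - g x u := by
      field_simp
      ring
    rw [h1, sub_sub, ← add_smul]
    have h2 : 2 * g x u / g u u + 2 * -g x u / g u u = 0 := by ring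
    rw [h2, zero_smul, sub_zero]
  exact ⟨LinearEquiv.ofInvolutive (V4_tv hg u) hinv, hu, V4_tv_apply hg u⟩

theorem V4_refl_det [FiniteDimensional L W] (hg : IsHF (RingHom.id L) 1 g) {u : W} {r : W ≃ₗ[L] W}
    (hr : IsRefl g u r) : ((LinearEquiv.det r : Lˣ) : L) = -1 := by
  have h1 : r.toLinearMap = V4_tv hg u := by
    ext x
    rw [V4_tv_apply]
    exact hr.2 x
  rw [LinearEquiv.coe_det]
  change LinearMap.det r.toLinearMap = -1
  rw [h1]
  unfold V4_tv
  rw [LinearMap.transvection.det, LinearMap.smul_apply, V4_dual_apply, smul_eq_mul]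
  have := hr.1
  field_simp
  ring

theorem V4_refl_isom (hg : IsHF (RingHom.id L) 1 g) {u : W} {r : W ≃ₗ[L] W}
    (hr : IsRefl g u r) : ∀ v w, g (r v) (r w) = g v w := by
  intro x y
  obtain ⟨hu, hr⟩ := hr
  rw [hr, hr, V4_sub_left hg, V4_sub_right hg, V4_sub_right hg, hg.smul_left, hg.smul_left,
    V4_smul_right hg, V4_smul_right hg, V4_symm hg y u]
  field_simp
  ring

end gen

/-- `E = K + K θ`, `θ² = c`, `c` not a square -/
structure V4_Q {K E : Type} [Field K] [Field E] [Algebra K E] (c : K) (θ : E) : Prop where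
  sq : θ * θ = algebraMap K E c
  ns : ¬ IsSquare c
  span : ∀ z : E, ∃ p q : K, z = algebraMap K E p + algebraMap K E q * θ
  tr : ∀ p q : K, Algebra.trace K E (algebraMap K E p + algebraMap K E q * θ) = 2 * p
  deg : finrank K E = 2

section quad

variable {K E : Type} [Field K] [Field E] [Algebra K E] {c : K} {θ : E}

theorem V4_Q.mulθ (hq : V4_Q c θ) (p q : K) : θ * (algebraMap K E p + algebraMap K E q * θ) =
    algebraMap K E (q * c) + algebraMap K E p * θ := by
  have h1 : θ * (algebraMap K E p + algebraMap K E q * θ) =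
    algebraMap K E q * (θ * θ) + algebraMap K E p * θ := by ring
  rw [h1, hq.sq, map_mul]

theorem V4_Q.c0 (hq : V4_Q c θ) : c ≠ 0 := by
  rintro rfl
  exact hq.ns IsSquare.zero

theorem V4_Q.ext (two : (2 : K) ≠ 0) (hq : V4_Q c θ) {z z' : E}
    (h1 : Algebra.trace K E z = Algebra.trace K E z')
    (h2 : Algebra.trace K E (θ * z) = Algebra.trace K E (θ * z')) : z = z' := by
  obtain ⟨p, q, rfl⟩ := hq.span z
  obtain ⟨p', q', rfl⟩ := hq.span z'
  rw [hq.tr, hq.tr] at h1
  rw [hq.mulθ, hq.mulθ, hq.tr, hq.tr] at h2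
  have h3 : p = p' := mul_left_cancel₀ two h1
  have h4 : q * c = q' * c := mul_left_cancel₀ two h2
  have h5 : q = q' := mul_right_cancel₀ hq.c0 h4
  rw [h3, h5]

end quad

section ext

variable {K E V : Type} [Field K] [Finite K] [Field E] [Finite E] [Algebra K E] [AddCommGroup V]
  [Module K V] [Module E V] [IsScalarTower K E V]

theorem V4_sigma [Nontrivial V] {f : V → V → K} {σ : E →+* E} {fE : V → V → E}
    (hx : IsExt 1 f σ fE)
    (hself : ∀ x : E, IsAdj f (Algebra.lsmul K K V x) (Algebra.lsmul K K V x)) :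
    σ = RingHom.id E := by
  ext x
  have hf := hx.hf
  obtain ⟨v, hv⟩ := exists_ne (0 : V)
  have hw : ∃ w, fE v w ≠ 0 := by
    by_contra hc
    push Not at hc
    exact hv (hf.nondeg v hc)
  obtain ⟨w, hw⟩ := hw
  have h1 : (algebraMap E (Module.End E V) x).restrictScalars K = Algebra.lsmul K K V x := by
    ext v
    simp [Module.algebraMap_end_apply]
  have h2 : IsAdj fE (algebraMap E (Module.End E V) x) (algebraMap E (Module.End E V) x) := by
    rw [← hx.adj, h1]
    exact hself x
  have h3 : fE (x • v) w = fE v (x • w) := by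
    have := h2 v w
    simpa [Module.algebraMap_end_apply] using this
  have h4 : fE v (x • w) = σ x * fE v w := by
    rw [hf.herm (x • w) v, hf.smul_left, map_mul, hf.herm w v]
    ring
  rw [hf.smul_left, h4] at h3
  exact (mul_right_cancel₀ hw h3).symm

/-- similitudes of `f` which are `E`-linear are similitudes of `fE` -/
theorem V4_sim (two : (2 : K) ≠ 0) {c : K} {θ : E} (hq : V4_Q c θ) {f : V → V → K} {fE : V → V → E}
    (hx : IsExt 1 f (RingHom.id E) fE) (y : V ≃ₗ[E] V) (μ : K)
    (hy : ∀ v w, f (y v) (y w) = μ * f v w) (v w : V) :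
    fE (y v) (y w) = algebraMap K E μ * fE v w := by
  have hs : ∀ z : E, Algebra.trace K E (algebraMap K E μ * z) = μ * Algebra.trace K E z := by
    intro z
    rw [← Algebra.smul_def, map_smul, smul_eq_mul]
  refine hq.ext two ?_ ?_
  · rw [← hx.tr, hy, hx.tr, hs]
  · have h1 : θ * fE (y v) (y w) = fE (y (θ • v)) (y w) := by
      rw [map_smul, hx.hf.smul_left]
    have h2 : θ * (algebraMap K E μ * fE v w) = algebraMap K E μ * fE (θ • v) w := by
      rw [hx.hf.smul_left]
      ring
    rw [h1, h2, hs, ← hx.tr, ← hx.tr, hy]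

omit [Finite K] [Finite E] in
theorem V4_lift (A : Subalgebra K (Module.End K V)) (hA : ∀ a ∈ A, ∀ b ∈ A, a * b = b * a)
    (hE : ∀ e : E, Algebra.lsmul K K V e ∈ A) (a : Module.End K V) (ha : a ∈ A) :
    ∃ a' : Module.End E V, a'.restrictScalars K = a := by
  refine ⟨{ toFun := a, map_add' := a.map_add, map_smul' := ?_ }, ?_⟩
  · intro e v
    have h := LinearMap.congr_fun (hA a ha _ (hE e)) v
    exact h
  · ext v
    rfl

omit [Finite K] [Finite E] in
theorem V4_liftE (A : Subalgebra K (Module.End K V)) (hA : ∀ a ∈ A, ∀ b ∈ A, a * b = b * a)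
    (hE : ∀ e : E, Algebra.lsmul K K V e ∈ A) (t : V ≃ₗ[K] V) (ht : t.toLinearMap ∈ A) :
    ∃ t' : V ≃ₗ[E] V, resH t' = t := by
  refine ⟨{ toFun := t, map_add' := t.map_add, map_smul' := ?_, invFun := t.symm,
            left_inv := t.left_inv, right_inv := t.right_inv }, ?_⟩
  · intro e v
    have h := LinearMap.congr_fun (hA t.toLinearMap ht _ (hE e)) v
    exact h
  · ext v
    rfl

omit [Finite K] [Finite E] in
theorem V4_finrank_range [FiniteDimensional K V] (a : Module.End E V) :
    finrank K (LinearMap.range (a.restrictScalars K)) =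
      finrank K E * finrank E (LinearMap.range a) := by
  rw [Module.finrank_mul_finrank K E (LinearMap.range a), LinearMap.range_restrictScalars]
  rfl

end ext

section refl

variable {K E V : Type} [Field K] [Finite K] [Field E] [Finite E] [Algebra K E] [AddCommGroup V]
  [Module K V] [Module E V] [IsScalarTower K E V] [FiniteDimensional K V]

/-- sums of two squares -/
theorem V4_two_sq (two : (2 : K) ≠ 0) (c : K) : ∃ x y : K, x ^ 2 + y ^ 2 = c := by
  have hK := Fintype.ofFinite K
  have hchar : ringChar K ≠ 2 := by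
    intro h
    apply two
    have := ringChar.Nat.cast_ringChar (R := K)
    rw [h] at this
    exact_mod_cast this
  have hodd := FiniteField.odd_card_of_char_ne_two (F := K) hchar
  have d1 : (Polynomial.X ^ 2 : Polynomial K).degree = 2 := Polynomial.degree_X_pow 2
  have d2 : (Polynomial.X ^ 2 - Polynomial.C c : Polynomial K).degree = 2 :=
    Polynomial.degree_X_pow_sub_C (by norm_num) c
  obtain ⟨x, y, h⟩ := FiniteField.exists_root_sum_quadratic d1 d2 hodd
  refine ⟨x, y, ?_⟩
  simp only [Polynomial.eval_sub, Polynomial.eval_C, Polynomial.eval_pow,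
    Polynomial.eval_X] at h
  linear_combination h

omit [Finite E] in
theorem V4_alg {P Q C B T k : E} (two : (2 : E) ≠ 0) (hC : C ≠ 0) (hk : k ≠ 0)
    (hkey : (T - B) * (C + B * T) = k ^ 2 * T) (hα : C + B * T ≠ 0) :
    2 * (P + Q * T) / (C + B * T) =
      2 * (2 * (Q * C - B * P)) / (2 * (k ^ 2 * C)) * (T - B) + 2 * (2 * P) / (2 * C) := by
  rw [div_eq_iff hα, add_mul, mul_assoc _ (T - B) _, hkey]
  field_simp
  ring

/-- a reflection over `E` which is in the group generated by the Eichler transformations over `K` -/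
theorem V4_exists_g (two : (2 : K) ≠ 0) (h5 : 5 ≤ Nat.card K) {c : K} {θ : E} (hq : V4_Q c θ)
    {f : V → V → K} (hf : IsHF (RingHom.id K) 1 f) {fE : V → V → E}
    (hx : IsExt 1 f (RingHom.id E) fE) (hfE : IsHF (RingHom.id E) 1 fE) (hV : 3 ≤ finrank K V)
    (hrep : ∀ α : E, ∃ u, fE u u = α) :
    ∃ (u : V) (r : V ≃ₗ[E] V), IsRefl fE u r ∧ (resH r : V ≃ₗ[K] V) ∈ EU (RingHom.id K) 1 f := by
  obtain ⟨b, k, hbk⟩ := V4_two_sq two c
  have hc0 := hq.c0
  have hk : k ≠ 0 := by
    rintro rfl
    exact hq.ns ⟨b, by rw [← hbk]; ring⟩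
  set ι := algebraMap K E with hι
  have hθ : θ * θ = ι c := hq.sq
  have hbkE : ι b ^ 2 + ι k ^ 2 = ι c := by rw [← map_pow, ← map_pow, ← map_add, hbk]
  have hιc : ι c ≠ 0 := by rw [hι]; exact (map_ne_zero _).2 hc0
  have hιk : ι k ≠ 0 := by rw [hι]; exact (map_ne_zero _).2 hk
  have twoE : (2 : E) ≠ 0 := by
    have := (map_ne_zero (algebraMap K E)).2 two
    rwa [map_ofNat] at this
  obtain ⟨u, hu⟩ := hrep (ι c + ι b * θ)
  -- the key identity `(θ - b) α = k² θ`
  have hkey : (θ - ι b) * (ι c + ι b * θ) = ι k ^ 2 * θ := by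
    linear_combination (ι b) * hθ - θ * hbkE
  have hα : ι c + ι b * θ ≠ 0 := by
    intro h0
    rw [h0, mul_zero] at hkey
    have hθ0 : θ = 0 := by
      rcases mul_eq_zero.1 hkey.symm with h | h
      · exact absurd h (pow_ne_zero 2 hιk)
      · exact h
    rw [hθ0, mul_zero] at hθ
    exact hιc hθ.symm
  have huu : fE u u ≠ 0 := by rw [hu]; exact hα
  obtain ⟨r, hr⟩ := V4_exists_refl hfE u huu
  refine ⟨u, r, hr, ?_⟩
  -- the two vectors over `K`
  set u2 := (θ - ι b) • u with hu2
  have e11 : f u u = 2 * c := by rw [hx.tr, hu]; exact hq.tr c b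
  have e21 : f u2 u = 0 := by
    rw [hx.tr, hu2, hfE.smul_left, hu, hkey]
    have := hq.tr 0 (k ^ 2)
    rw [map_zero, zero_add, mul_zero, map_pow] at this
    exact this
  have e22 : f u2 u2 = 2 * (k ^ 2 * c) := by
    rw [hx.tr, hu2, hfE.smul_left, V4_smul_right hfE, hu, hkey]
    have h1 : (θ - ι b) * (ι k ^ 2 * θ) = ι (k ^ 2 * c) + ι (- (b * k ^ 2)) * θ := by
      rw [map_mul, map_neg, map_mul, map_pow]
      linear_combination (ι k ^ 2) * hθ
    rw [h1]
    exact hq.tr _ _
  have hn1 : f u u ≠ 0 := by rw [e11]; exact mul_ne_zero two hc0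
  have hn2 : f u2 u2 ≠ 0 := by
    rw [e22]; exact mul_ne_zero two (mul_ne_zero (pow_ne_zero 2 hk) hc0)
  obtain ⟨r1, hr1⟩ := V4_exists_refl hf u hn1
  obtain ⟨r2, hr2⟩ := V4_exists_refl hf u2 hn2
  have hsq : IsSquare (f u u * f u2 u2) := ⟨2 * k * c, by rw [e11, e22]; ring⟩
  have hmem := refl_same two h5 f hf hV u u2 r1 r2 hr1 hr2 hsq
  have heq : (resH r : V ≃ₗ[K] V) = r1 * r2 := by
    ext x
    rw [resH_apply, hr.2, LinearEquiv.mul_apply, hr1.2, hr2.2, V4_sub_left hf, hf.smul_left, e21,
      mul_zero, sub_zero, e11, e22]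
    obtain ⟨p, q, hpq⟩ := hq.span (fE x u)
    have f1 : f x u = 2 * p := by rw [hx.tr, hpq]; exact hq.tr p q
    have f2 : f x u2 = 2 * (q * c - b * p) := by
      rw [hx.tr, hu2, V4_smul_right hfE, hpq]
      have h1 : (θ - algebraMap K E b) * (algebraMap K E p + algebraMap K E q * θ) =
          algebraMap K E (q * c - b * p) + algebraMap K E (p - b * q) * θ := by
        rw [map_sub, map_sub, map_mul, map_mul, map_mul]
        linear_combination (algebraMap K E q) * hθ
      rw [h1]
      exact hq.tr _ _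
    rw [f1, f2, hu, hpq, hu2]
    have h3 : ∀ a : K, a • u = ι a • u := fun a => (algebraMap_smul E a u).symm
    have h4 : ∀ a : K, a • (θ - ι b) • u = (ι a * (θ - ι b)) • u := by
      intro a
      rw [mul_smul, hι, algebraMap_smul]
    rw [h3, h4, sub_sub, ← add_smul]
    congr 2
    simp only [map_div₀, map_mul, map_sub, map_pow, map_ofNat]
    exact V4_alg twoE hιc hιk hkey hα
  rw [heq]
  exact hmem

end refl

theorem V4_proper {L W : Type} [Field L] [Finite L] [AddCommGroup W] [Module L W]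
    [FiniteDimensional L W] (two : (2 : L) ≠ 0) (g : W → W → L) (hg : IsHF (RingHom.id L) 1 g)
    (B : Subalgebra L (Module.End L W)) (hB : IsTor g B) (e s : Module.End L W)
    (h : IsoIdem g B e s) (hp : IsPrim B e) (heven : Even (finrank L (LinearMap.range e)))
    (hes : e + s = 1) (y : W ≃ₗ[L] W) (μ : L) (hy : ∀ v w, g (y v) (y w) = μ * g v w)
    (hyB : CarriesTo y B B) :
    ((LinearEquiv.det y : Lˣ) : L) = μ ^ finrank L (LinearMap.range e) := by
  have hR : LinearMap.range (e + s) = ⊤ := by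
    rw [hes]
    exact LinearMap.range_id
  let ψ : LinearMap.range (e + s) ≃ₗ[L] W := LinearEquiv.ofTop _ hR
  have hψ : ∀ w, ((ψ.symm w : LinearMap.range (e + s)) : W) = w := fun w => rfl
  have hψ' : ∀ w : LinearMap.range (e + s), ψ w = (w : W) := fun w => rfl
  have h1 := proper_of_norm two g hg B hB e s h hp heven y μ hy hyB ((ψ.trans y).trans ψ.symm) (by
    intro v
    rw [LinearEquiv.trans_apply, LinearEquiv.trans_apply, hψ, hψ'])
  rw [← h1, ← LinearEquiv.det_conj y ψ.symm]
  rfl

/-- `z A z⁻¹ ≤ A` if `z T z⁻¹ ≤ T` and `T` generates `A` -/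
theorem V4_carries {K V : Type} [Field K] [AddCommGroup V] [Module K V]
    {A : Subalgebra K (Module.End K V)} {T : Subgroup (V ≃ₗ[K] V)}
    (hT : ∀ t ∈ T, t.toLinearMap ∈ A) (z : V ≃ₗ[K] V)
    (hz : ∀ t ∈ T, z * t * z⁻¹ ∈ T) (a : Module.End K V)
    (ha : a ∈ Algebra.adjoin K (EndSet T)) :
    z.toLinearMap ∘ₗ a ∘ₗ z.symm.toLinearMap ∈ A := by
  induction ha using Algebra.adjoin_induction with
  | mem x hx =>
    obtain ⟨t, ht, rfl⟩ := hx
    have h1 : z.toLinearMap ∘ₗ t.toLinearMap ∘ₗ z.symm.toLinearMap = (z * t * z⁻¹).toLinearMap := by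
      ext v
      rfl
    rw [h1]
    exact hT _ (hz t ht)
  | algebraMap r =>
    have h1 : z.toLinearMap ∘ₗ (algebraMap K (Module.End K V) r) ∘ₗ z.symm.toLinearMap
        = algebraMap K (Module.End K V) r := by
      ext v
      simp [Module.algebraMap_end_apply]
    rw [h1]
    exact A.algebraMap_mem r
  | add x y _ _ ihx ihy =>
    have h1 : z.toLinearMap ∘ₗ (x + y) ∘ₗ z.symm.toLinearMap =
        z.toLinearMap ∘ₗ x ∘ₗ z.symm.toLinearMap + z.toLinearMap ∘ₗ y ∘ₗ z.symm.toLinearMap := by
      ext v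
      simp
    rw [h1]
    exact A.add_mem ihx ihy
  | mul x y _ _ ihx ihy =>
    have h1 : z.toLinearMap ∘ₗ (x * y) ∘ₗ z.symm.toLinearMap =
        (z.toLinearMap ∘ₗ x ∘ₗ z.symm.toLinearMap) * (z.toLinearMap ∘ₗ y ∘ₗ z.symm.toLinearMap) := by
      ext v
      simp [Module.End.mul_apply]
    rw [h1]
    exact A.mul_mem ihx ihy

section main

variable {K E V : Type} [Field K] [Finite K] [Field E] [Finite E] [Algebra K E] [AddCommGroup V]
  [Module K V] [Module E V] [IsScalarTower K E V]

/-- proper similitudes -/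
def V4_P (fE : V → V → E) (n : ℕ) (y : V ≃ₗ[K] V) (μ : K) : Prop :=
  ∃ yE : V ≃ₗ[E] V, resH yE = y ∧ (∀ v w, fE (yE v) (yE w) = algebraMap K E μ * fE v w) ∧
    ((LinearEquiv.det yE : Eˣ) : E) = algebraMap K E μ ^ n

/-- the group of the proper similitudes -/
def V4_PG (fE : V → V → E) (n : ℕ) : Subgroup (V ≃ₗ[K] V) where
  carrier := {y | ∃ μ : K, μ ≠ 0 ∧ V4_P fE n y μ}
  mul_mem' := by
    rintro a b ⟨μ, hμ, aE, ha, ha1, ha2⟩ ⟨ν, hν, bE, hb, hb1, hb2⟩
    refine ⟨μ * ν, mul_ne_zero hμ hν, aE * bE, ?_, ?_, ?_⟩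
    · rw [map_mul, ha, hb]
    · intro v w
      rw [LinearEquiv.mul_apply, LinearEquiv.mul_apply, ha1, hb1, map_mul]
      ring
    · rw [map_mul, Units.val_mul, ha2, hb2, map_mul, mul_pow]
  one_mem' := by
    refine ⟨1, one_ne_zero, 1, ?_, ?_, ?_⟩
    · rw [map_one]
    · intro v w
      rw [map_one, one_mul]
      rfl
    · rw [map_one, map_one, one_pow]
      rfl
  inv_mem' := by
    rintro a ⟨μ, hμ, aE, ha, ha1, ha2⟩
    refine ⟨μ⁻¹, inv_ne_zero hμ, aE⁻¹, ?_, ?_, ?_⟩
    · rw [map_inv, ha]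
    · intro v w
      have h1 : ∀ u, aE (aE⁻¹ u) = u := fun u => LinearEquiv.apply_symm_apply aE u
      have h2 := ha1 (aE⁻¹ v) (aE⁻¹ w)
      rw [h1, h1] at h2
      have h3 : algebraMap K E μ ≠ 0 := (map_ne_zero _).2 hμ
      rw [h2, map_inv₀]
      field_simp
    · rw [map_inv, Units.val_inv_eq_inv_val, ha2, map_inv₀, inv_pow]

end main

section main2

variable {K E V : Type} [Field K] [Finite K] [Field E] [Finite E] [Algebra K E] [AddCommGroup V]
  [Module K V] [Module E V] [IsScalarTower K E V] [FiniteDimensional K V]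

/-- in the hyperbolic space every element is represented -/
theorem V4_rep {L W : Type} [Field L] [AddCommGroup W] [Module L W] {g : W → W → L}
    (two : (2 : L) ≠ 0) (hg : IsHF (RingHom.id L) 1 g) {e s : Module.End L W} (hadj : IsAdj g e s)
    (hse : s * e = 0) (hes : e * s = 0) (he2 : e * e = e) (hne : e ≠ 0) (α : L) :
    ∃ u, g u u = α := by
  have hx : ∃ x, e x ≠ 0 := by
    by_contra hc
    push Not at hc
    exact hne (LinearMap.ext hc)
  obtain ⟨x, hx⟩ := hx
  have hw : ∃ w, g (e x) w ≠ 0 := by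
    by_contra hc
    push Not at hc
    exact hx (hg.nondeg _ hc)
  obtain ⟨w, hw⟩ := hw
  have h1 : g (e x) (e x) = 0 := by
    rw [hadj x (e x)]
    have : s (e x) = 0 := LinearMap.congr_fun hse x
    rw [this, V4_symm hg 0 x, V4_zero_left hg]
  have h2 : g (e x) (s w) = g (e x) w := by
    have h3 := hadj (e x) w
    have h4 : e (e x) = e x := LinearMap.congr_fun he2 x
    rw [h4] at h3
    exact h3.symm
  have h5 : g (s w) (s w) = 0 := by
    rw [← hadj (s w) w]
    have : e (s w) = 0 := LinearMap.congr_fun hes w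
    rw [this, V4_zero_left hg]
  refine ⟨e x + (α / (2 * g (e x) w)) • s w, ?_⟩
  rw [hg.add_left, V4_add_right hg, V4_add_right hg, h1, hg.smul_left, hg.smul_left,
    V4_smul_right hg, V4_smul_right hg, h5, V4_symm hg (e x) (s w), h2]
  field_simp
  ring

theorem V4_main (two : (2 : K) ≠ 0) (h5 : 5 ≤ Nat.card K)
    (f : V → V → K) (hf : IsHF (RingHom.id K) 1 f)
    (A : Subalgebra K (Module.End K V)) (hA : IsTor f A) (Γ : Subgroup (V ≃ₗ[K] V)) (hΓ : Γ ≤ Sim f)
    (hEU : EU (RingHom.id K) 1 f ≤ Γ)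
    (hgen : A ≤ Algebra.adjoin K (EndSet (Γ ⊓ torGL A)))
    (e s : Module.End K V) (h : IsoIdem f A e s) (hp : IsPrim A e) (hes : e + s = 1)
    (h4 : 4 ∣ finrank K (LinearMap.range e))
    (hE : ∀ x : E, Algebra.lsmul K K V x ∈ A)
    (hself : ∀ x : E, IsAdj f (Algebra.lsmul K K V x) (Algebra.lsmul K K V x))
    (c : K) (θ : E) (hq : V4_Q c θ) :
    ¬ IsPronormal ((torGL A).subgroupOf Γ) := by
  have hne : e ≠ 0 := hp.2.2.1
  have hnt : Nontrivial V := by
    by_contra hc
    rw [not_nontrivial_iff_subsingleton] at hc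
    exact hne (LinearMap.ext fun v => Subsingleton.elim _ _)
  have hfin : FiniteDimensional E V := Module.Finite.of_restrictScalars_finite K E V
  have twoE : (2 : E) ≠ 0 := by
    have := (map_ne_zero (algebraMap K E)).2 two
    rwa [map_ofNat] at this
  obtain ⟨σ, fE, hx⟩ := exists_ext (E := E) 1 f hf (fun x => ⟨x, hself x⟩)
  have hσ := V4_sigma hx hself
  subst hσ
  have hfE : IsHF (RingHom.id E) 1 fE := by
    have := hx.hf
    rwa [map_one] at this
  have hAE : IsTor fE (liftAlg A hE) := lift_isTor 1 f (RingHom.id E) fE hx A hA hE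
  have hrs : Function.Injective (LinearMap.restrictScalars K : (V →ₗ[E] V) → (V →ₗ[K] V)) :=
    LinearMap.restrictScalars_injective K
  obtain ⟨eE, heE⟩ := V4_lift A hA.comm hE e h.he
  obtain ⟨sE, hsE⟩ := V4_lift A hA.comm hE s h.hs
  have hI : IsoIdem fE (liftAlg A hE) eE sE := by
    refine ⟨?_, ?_, ?_, ?_, ?_⟩
    · show eE.restrictScalars K ∈ A
      rw [heE]; exact h.he
    · show sE.restrictScalars K ∈ A
      rw [hsE]; exact h.hs
    · apply hrs
      have : (eE * eE).restrictScalars K = eE.restrictScalars K * eE.restrictScalars K := rfl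
      rw [this, heE]; exact h.idem
    · refine (hx.adj eE sE).1 ?_
      rw [heE, hsE]; exact h.adj
    · apply hrs
      have : (sE * eE).restrictScalars K = sE.restrictScalars K * eE.restrictScalars K := rfl
      rw [this, hsE, heE]; exact h.orth
  have hP : IsPrim (liftAlg A hE) eE := by
    refine ⟨hI.he, hI.idem, ?_, ?_⟩
    · rintro rfl
      exact hne heE.symm
    · intro a ha ha2 hae
      have h1 : (a.restrictScalars K) * (a.restrictScalars K) = a.restrictScalars K :=
        congrArg (LinearMap.restrictScalars K) ha2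
      have h2 : (a.restrictScalars K) * e = a.restrictScalars K := by
        rw [← heE]
        exact congrArg (LinearMap.restrictScalars K) hae
      rcases hp.2.2.2 _ ha h1 h2 with h3 | h3
      · left
        apply hrs
        rw [h3]
        rfl
      · right
        apply hrs
        rw [h3, heE]
  have hesE : eE + sE = 1 := by
    apply hrs
    have : (eE + sE).restrictScalars K = eE.restrictScalars K + sE.restrictScalars K := rfl
    rw [this, heE, hsE, hes]
    rfl
  have hrk : finrank K (LinearMap.range e) = 2 * finrank E (LinearMap.range eE) := by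
    rw [← heE, V4_finrank_range, hq.deg]
  have heven : Even (finrank E (LinearMap.range eE)) := by
    rw [hrk] at h4
    rw [even_iff_two_dvd]
    obtain ⟨k, hk⟩ := h4
    exact ⟨k, by omega⟩
  set n := finrank E (LinearMap.range eE) with hn
  have hprop : ∀ (y : V ≃ₗ[E] V) (μ : E), (∀ v w, fE (y v) (y w) = μ * fE v w) →
      CarriesTo y (liftAlg A hE) (liftAlg A hE) → ((LinearEquiv.det y : Eˣ) : E) = μ ^ n :=
    fun y μ hy hyA => V4_proper twoE fE hfE _ hAE eE sE hI hP heven hesE y μ hy hyA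
  -- the dimension
  have hrpos : 0 < finrank K (LinearMap.range e) := by
    rw [Module.finrank_pos_iff]
    by_contra hc
    rw [not_nontrivial_iff_subsingleton] at hc
    apply hne
    ext v
    have h1 : (⟨e v, LinearMap.mem_range_self e v⟩ : LinearMap.range e) = 0 := Subsingleton.elim _ _
    exact congrArg Subtype.val h1
  have hV : 3 ≤ finrank K V := by
    have h1 : finrank K (LinearMap.range e) ≤ finrank K V := Submodule.finrank_le _
    obtain ⟨k, hk⟩ := h4
    omega
  -- the element `g`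
  have hse : e * s = 0 := by rw [hA.comm e h.he s h.hs]; exact h.orth
  have hseE : eE * sE = 0 := by
    apply hrs
    have : (eE * sE).restrictScalars K = eE.restrictScalars K * sE.restrictScalars K := rfl
    rw [this, heE, hsE, hse]
    rfl
  have heE0 : eE ≠ 0 := hP.2.2.1
  obtain ⟨u, r, hr, hrEU⟩ := V4_exists_g two h5 hq hf hx hfE hV
    (fun α => V4_rep twoE hfE hI.adj hI.orth hseE hI.idem heE0 α)
  set g : V ≃ₗ[K] V := resH r with hg
  have hgΓ : g ∈ Γ := hEU hrEU
  have hri := V4_refl_isom hfE hr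
  have hrd := V4_refl_det hfE hr
  intro hpr
  rw [isPronormal_subgroupOf_iff] at hpr
  obtain ⟨x, hxm, hxe⟩ := hpr g hgΓ
  -- `T` is proper
  have hTP : Γ ⊓ torGL A ≤ V4_PG fE n := by
    rintro t ⟨htΓ, htA⟩
    obtain ⟨μ, hμ⟩ := hΓ htΓ
    obtain ⟨tE, htE⟩ := V4_liftE A hA.comm hE t htA.1
    have h1 : ∀ v w, fE (tE v) (tE w) = algebraMap K E (μ : K) * fE v w := by
      refine V4_sim two hq hx tE μ ?_
      intro v w
      have := hμ v w
      rw [← htE] at this
      exact this
    refine ⟨μ, μ.ne_zero, tE, htE, h1, hprop tE _ h1 ?_⟩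
    intro a ha
    show (tE.toLinearMap ∘ₗ a ∘ₗ tE.symm.toLinearMap).restrictScalars K ∈ A
    have h2 : (tE.toLinearMap ∘ₗ a ∘ₗ tE.symm.toLinearMap).restrictScalars K =
        t.toLinearMap * (a.restrictScalars K * (t⁻¹).toLinearMap) := by
      rw [← htE]
      rfl
    rw [h2]
    exact A.mul_mem htA.1 (A.mul_mem ha htA.2)
  have hgP : ∀ y ∈ V4_PG fE n, g * y * g⁻¹ ∈ V4_PG (K := K) fE n := by
    rintro y ⟨μ, hμ, yE, hy, hy1, hy2⟩
    refine ⟨μ, hμ, r * yE * r⁻¹, ?_, ?_, ?_⟩
    · rw [map_mul, map_mul, map_inv, hy]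
    · intro v w
      have h1 : ∀ u, r (r⁻¹ u) = u := fun u => LinearEquiv.apply_symm_apply r u
      rw [LinearEquiv.mul_apply, LinearEquiv.mul_apply, LinearEquiv.mul_apply, LinearEquiv.mul_apply,
        hri, hy1]
      have h2 := hri (r⁻¹ v) (r⁻¹ w)
      rw [h1, h1] at h2
      rw [h2]
    · rw [map_mul, map_mul, map_inv, mul_comm (LinearEquiv.det r), mul_inv_cancel_right]
      exact hy2
  have hxP : x ∈ V4_PG (K := K) fE n := by
    refine (sup_le hTP ?_) hxm
    intro y hy
    rw [mem_conjSub] at hy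
    have := hgP _ (hTP hy)
    have e1 : g * (g⁻¹ * y * g) * g⁻¹ = y := by group
    rwa [e1] at this
  obtain ⟨μ, hμ, xE, hxE, hx1, hx2⟩ := hxP
  -- `z = x⁻¹ g` normalizes `A`
  have hz : ∀ t ∈ Γ ⊓ torGL A, (x⁻¹ * g) * t * (x⁻¹ * g)⁻¹ ∈ Γ ⊓ torGL A := by
    intro t ht
    have h1 : g * t * g⁻¹ ∈ conjSub g (Γ ⊓ torGL A) := by
      rw [mem_conjSub]
      have e1 : g⁻¹ * (g * t * g⁻¹) * g = t := by group
      rw [e1]; exact ht
    rw [← hxe, mem_conjSub] at h1
    have e2 : (x⁻¹ * g) * t * (x⁻¹ * g)⁻¹ = x⁻¹ * (g * t * g⁻¹) * x := by group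
    rw [e2]; exact h1
  have hzA : ∀ a ∈ A, (x⁻¹ * g).toLinearMap ∘ₗ a ∘ₗ (x⁻¹ * g).symm.toLinearMap ∈ A :=
    fun a ha => V4_carries (T := Γ ⊓ torGL A)
      (fun t ht => ht.2.1) (x⁻¹ * g) hz a (hgen ha)
  have hzE : resH (xE⁻¹ * r) = x⁻¹ * g := by rw [map_mul, map_inv, hxE]
  have hμE : algebraMap K E μ ≠ 0 := (map_ne_zero _).2 hμ
  have hz1 : ∀ v w, fE ((xE⁻¹ * r) v) ((xE⁻¹ * r) w) = (algebraMap K E μ)⁻¹ * fE v w := by
    intro v w
    have h1 : ∀ u, xE (xE⁻¹ u) = u := fun u => LinearEquiv.apply_symm_apply xE u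
    have h2 := hx1 (xE⁻¹ (r v)) (xE⁻¹ (r w))
    rw [h1, h1, hri] at h2
    rw [LinearEquiv.mul_apply, LinearEquiv.mul_apply, h2]
    field_simp
  have hz2 : CarriesTo (xE⁻¹ * r) (liftAlg A hE) (liftAlg A hE) := by
    intro a ha
    show ((xE⁻¹ * r).toLinearMap ∘ₗ a ∘ₗ (xE⁻¹ * r).symm.toLinearMap).restrictScalars K ∈ A
    have h2 : ((xE⁻¹ * r).toLinearMap ∘ₗ a ∘ₗ (xE⁻¹ * r).symm.toLinearMap).restrictScalars K =
        (x⁻¹ * g).toLinearMap ∘ₗ (a.restrictScalars K) ∘ₗ (x⁻¹ * g).symm.toLinearMap := by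
      rw [← hzE]
      rfl
    rw [h2]
    exact hzA _ ha
  have hz3 := hprop _ _ hz1 hz2
  have hfinal : ((LinearEquiv.det r : Eˣ) : E) = 1 := by
    have e1 : r = xE * (xE⁻¹ * r) := by group
    rw [e1, map_mul, Units.val_mul, hx2, hz3, ← mul_pow, mul_inv_cancel₀ hμE, one_pow]
  rw [hrd] at hfinal
  apply twoE
  linear_combination (-1 : E) * hfinal

end main2

section build

variable {K V : Type} [Field K] [Finite K] [AddCommGroup V] [Module K V] [FiniteDimensional K V]

theorem V4_idem {e : Module.End K V} (hee : e * e = e) {v : V} (hv : v ∈ LinearMap.range e) :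
    e v = v := by
  obtain ⟨u, rfl⟩ := hv
  exact LinearMap.congr_fun hee u

/-- the block of a primitive idempotent is a field -/
theorem V4_isField {A : Subalgebra K (Module.End K V)} (hA : IsTorGL A) {e : Module.End K V}
    (hp : IsPrim A e) : IsField (restr A (LinearMap.range e)) := by
  obtain ⟨he, hee, hne, hmin⟩ := hp
  have hx : ∃ x, e x ≠ 0 := by
    by_contra hc
    push Not at hc
    exact hne (LinearMap.ext hc)
  obtain ⟨x0, hx0⟩ := hx
  have hfin : Finite (Module.End K (LinearMap.range e)) := Module.finite_of_finite K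
  have hfinB : Finite (restr A (LinearMap.range e)) := Subtype.finite
  have hcomm : ∀ x y : restr A (LinearMap.range e), x * y = y * x := by
    rintro ⟨x, a, ha, hx⟩ ⟨y, b, hb, hy⟩
    apply Subtype.ext
    apply LinearMap.ext
    intro w
    apply Subtype.ext
    show ((x (y w) : LinearMap.range e) : V) = ((y (x w) : LinearMap.range e) : V)
    rw [hx, hy, hy, hx]
    exact LinearMap.congr_fun (hA.comm a ha b hb) (w : V)
  -- nonzero elements are injective
  have hinj : ∀ x : restr A (LinearMap.range e), x ≠ 0 →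
      Function.Injective (x : Module.End K (LinearMap.range e)) := by
    rintro ⟨x, a, ha, hx⟩ hne0
    have hWst : ∀ b ∈ A, ∀ v ∈ LinearMap.range (a * e), b v ∈ LinearMap.range (a * e) := by
      rintro b hb v ⟨w, rfl⟩
      refine ⟨b w, ?_⟩
      exact LinearMap.congr_fun (hA.comm (a * e) (A.mul_mem ha he) b hb) w
    obtain ⟨e', he', hee', hr'⟩ := stable_eq A hA _ hWst
    have hle : ∀ v, e (e' v) = e' v := by
      intro v
      have h1 : e' v ∈ LinearMap.range (a * e) := by
        rw [← hr']; exact LinearMap.mem_range_self e' v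
      obtain ⟨w, hw⟩ := h1
      rw [← hw]
      have h2 : e (a (e w)) = a (e (e w)) := LinearMap.congr_fun (hA.comm e he a ha) (e w)
      have h3 : e (e w) = e w := LinearMap.congr_fun hee w
      show e (a (e w)) = a (e w)
      rw [h2, h3]
    have h1 : e' * e = e' := by
      rw [hA.comm e' he' e he]
      exact LinearMap.ext hle
    rcases hmin e' he' hee' h1 with h2 | h2
    · exfalso
      apply hne0
      apply Subtype.ext
      apply LinearMap.ext
      intro w
      apply Subtype.ext
      show ((x w : LinearMap.range e) : V) = 0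
      rw [hx]
      have h3 : a (w : V) ∈ LinearMap.range (a * e) := by
        refine ⟨(w : V), ?_⟩
        show a (e (w : V)) = a (w : V)
        rw [V4_idem hee w.2]
      rw [← hr', h2] at h3
      obtain ⟨u, hu⟩ := h3
      rw [← hu]
      rfl
    · have hsurj : Function.Surjective x := by
        intro w
        have h3 : (w : V) ∈ LinearMap.range (a * e) := by
          rw [← hr', h2]; exact w.2
        obtain ⟨u, hu⟩ := h3
        refine ⟨⟨e u, LinearMap.mem_range_self e u⟩, ?_⟩
        apply Subtype.ext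
        rw [hx]
        exact hu
      exact LinearMap.injective_iff_surjective.2 hsurj
  refine ⟨⟨0, 1, ?_⟩, hcomm, ?_⟩
  · intro h01
    apply hx0
    have h1 := congrArg (fun x : restr A (LinearMap.range e) =>
      (((x : Module.End K (LinearMap.range e)) ⟨e x0, LinearMap.mem_range_self e x0⟩ :
        LinearMap.range e) : V)) h01
    exact h1.symm
  · intro x hx
    have h1 : Function.Injective (fun y : restr A (LinearMap.range e) => x * y) := by
      intro y y' hyy
      apply Subtype.ext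
      apply LinearMap.ext
      intro w
      apply hinj x hx
      have h2 := congrArg Subtype.val hyy
      exact LinearMap.congr_fun h2 w
    exact Finite.surjective_of_injective h1 1

theorem V4_tr (c : K) (p q : K) : Algebra.trace K (QuadraticAlgebra K c 0)
    (algebraMap K _ p + algebraMap K _ q * QuadraticAlgebra.omega) = 2 * p := by
  have b0 : QuadraticAlgebra.basis c (0 : K) 0 = 1 := by
    apply (QuadraticAlgebra.basis c (0 : K)).repr.injective
    rw [Basis.repr_self]
    ext i
    rw [QuadraticAlgebra.basis_repr_apply]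
    fin_cases i <;> simp [QuadraticAlgebra.re_one, QuadraticAlgebra.im_one]
  have b1 : QuadraticAlgebra.basis c (0 : K) 1 = QuadraticAlgebra.omega := by
    apply (QuadraticAlgebra.basis c (0 : K)).repr.injective
    rw [Basis.repr_self]
    ext i
    rw [QuadraticAlgebra.basis_repr_apply]
    fin_cases i <;> simp [QuadraticAlgebra.re_one, QuadraticAlgebra.im_one]
  rw [Algebra.trace_eq_matrix_trace (QuadraticAlgebra.basis c (0 : K)), Matrix.trace_fin_two,
    Algebra.leftMulMatrix_eq_repr_mul, Algebra.leftMulMatrix_eq_repr_mul, b0, b1,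
    QuadraticAlgebra.basis_repr_apply, QuadraticAlgebra.basis_repr_apply]
  simp
  ring

/-- a selfadjoint square root of `c` in `A` -/
theorem V4_root (f : V → V → K) (hf : IsHF (RingHom.id K) 1 f)
    (A : Subalgebra K (Module.End K V)) (hA : IsTor f A) (e s : Module.End K V)
    (h : IsoIdem f A e s) (hp : IsPrim A e) (hes : e + s = 1)
    (h2 : 2 ∣ finrank K (LinearMap.range e)) (c : K) (hc : ¬ IsSquare c) :
    ∃ t ∈ A, IsAdj f t t ∧ t * t = c • (1 : Module.End K V) := by
  have hF := V4_isField hA.toIsTorGL hp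
  have hfin : Finite (Module.End K (LinearMap.range e)) := Module.finite_of_finite K
  have hfinB : Finite (restr A (LinearMap.range e)) := Subtype.finite
  have hfact : Fact (∀ r : K, r ^ 2 ≠ c + 0 * r) := ⟨by
    intro r hr
    apply hc
    exact ⟨r, by rw [← pow_two, hr]; ring⟩⟩
  have hd : finrank K (QuadraticAlgebra K c 0) ∣ finrank K (restr A (LinearMap.range e)) := by
    rw [QuadraticAlgebra.finrank_eq_two, dim_eq A hA.toIsTorGL e h.he h.idem]
    exact h2
  obtain ⟨b, hb⟩ : ∃ b : restr A (LinearMap.range e), b * b = algebraMap K _ c := by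
    have h3 := @FiniteField.nonempty_algHom_of_finrank_dvd K (QuadraticAlgebra K c 0)
      (restr A (LinearMap.range e)) _ _ _ hF.toField _ hfinB hd
    obtain ⟨φ⟩ := h3
    refine ⟨φ QuadraticAlgebra.omega, ?_⟩
    have h4 : (QuadraticAlgebra.omega : QuadraticAlgebra K c 0) * QuadraticAlgebra.omega =
        algebraMap K _ c := by
      ext <;> simp
    have h5 := map_mul φ QuadraticAlgebra.omega QuadraticAlgebra.omega
    rw [h4, AlgHom.commutes] at h5
    exact h5.symm
  obtain ⟨b, a, ha, hab⟩ := b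
  have hb' : ∀ w : LinearMap.range e, a (a (w : V)) = c • (w : V) := by
    intro w
    have h3 := congrArg Subtype.val hb
    have h4 := LinearMap.congr_fun h3 w
    have h5 := congrArg (fun x : LinearMap.range e => (x : V)) h4
    have h6 : ((b (b w) : LinearMap.range e) : V) = c • (w : V) := h5
    rw [hab, hab] at h6
    exact h6
  set t0 := a * e with ht0
  have ht0A : t0 ∈ A := A.mul_mem ha h.he
  have ht00 : t0 * t0 = c • e := by
    ext v
    show a (e (a (e v))) = c • e v
    have h3 : e (a (e v)) = a (e (e v)) := LinearMap.congr_fun (hA.comm e h.he a ha) (e v)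
    have h4 : e (e v) = e v := LinearMap.congr_fun h.idem v
    rw [h3, h4]
    exact hb' ⟨e v, LinearMap.mem_range_self e v⟩
  obtain ⟨t1, ht1A, ht1⟩ := hA.star t0 ht0A
  have ht1' : IsAdj f t1 t0 := by
    intro v w
    rw [V4_symm hf w (t1 v), ← ht1 w v, V4_symm hf v (t0 w)]
  have huniq : ∀ x y : Module.End K V, (∀ v w, f v (x w) = f v (y w)) → x = y := by
    intro x y hxy
    ext w
    have h3 : x w - y w = 0 := by
      refine hf.nondeg _ fun v => ?_
      rw [V4_symm hf v (x w - y w), V4_sub_right hf, hxy, sub_self]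
    exact sub_eq_zero.1 h3
  have ht11 : t1 * t1 = c • s := by
    apply huniq
    intro v w
    show f v (t1 (t1 w)) = f v (c • s w)
    rw [← ht1, ← ht1, V4_smul_right hf, ← h.adj, ← hf.smul_left]
    have h3 : t0 (t0 v) = c • e v := LinearMap.congr_fun ht00 v
    rw [h3]
  have ht1s : s * t1 = t1 := by
    apply huniq
    intro v w
    show f v (s (t1 w)) = f v (t1 w)
    rw [← h.adj, ← ht1, ← ht1]
    have h3 : t0 (e v) = t0 v := by
      show a (e (e v)) = a (e v)
      have h4 : e (e v) = e v := LinearMap.congr_fun h.idem v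
      rw [h4]
    rw [h3]
  have hes0 : e * s = 0 := by rw [hA.comm e h.he s h.hs]; exact h.orth
  have h01 : t0 * t1 = 0 := by
    rw [← ht1s, ht0, mul_assoc, ← mul_assoc e s t1, hes0, zero_mul, mul_zero]
  have h10 : t1 * t0 = 0 := by rw [hA.comm t1 ht1A t0 ht0A, h01]
  refine ⟨t0 + t1, A.add_mem ht0A ht1A, ?_, ?_⟩
  · intro v w
    show f (t0 v + t1 v) w = f v (t0 w + t1 w)
    rw [hf.add_left, V4_add_right hf, ht1, ht1']
    ring
  · rw [add_mul, mul_add, mul_add, ht00, h01, h10, ht11, add_zero, zero_add, ← smul_add, hes]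

end build

theorem pron_neg3 (K V : Type) [Field K] [Finite K] [AddCommGroup V] [Module K V]
    [FiniteDimensional K V] (two : (2 : K) ≠ 0) (h5 : 5 ≤ Nat.card K)
    (f : V → V → K) (hf : IsHF (RingHom.id K) 1 f)
    (A : Subalgebra K (Module.End K V)) (hA : IsTor f A) (Γ : Subgroup (V ≃ₗ[K] V)) (hΓ : Γ ≤ Sim f)
    (hEU : EU (RingHom.id K) 1 f ≤ Γ)
    (hgen : A ≤ Algebra.adjoin K (EndSet (Γ ⊓ torGL A)))
    (e s : Module.End K V) (h : IsoIdem f A e s) (hp : IsPrim A e) (hes : e + s = 1)
    (h4 : 4 ∣ finrank K (LinearMap.range e)) :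
    ¬ IsPronormal ((torGL A).subgroupOf Γ) := by
  have hK := Fintype.ofFinite K
  have hchar : ringChar K ≠ 2 := by
    intro h
    apply two
    have := ringChar.Nat.cast_ringChar (R := K)
    rw [h] at this
    exact_mod_cast this
  obtain ⟨c, hc⟩ := FiniteField.exists_nonsquare hchar
  obtain ⟨t, htA, hts, htt⟩ := V4_root f hf A hA e s h hp hes ((by norm_num : 2 ∣ 4).trans h4) c hc
  have hfact : Fact (∀ r : K, r ^ 2 ≠ c + 0 * r) := ⟨by
    intro r hr
    apply hc
    exact ⟨r, by rw [← pow_two, hr]; ring⟩⟩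
  let φ : QuadraticAlgebra K c 0 →ₐ[K] Module.End K V :=
    QuadraticAlgebra.lift ⟨t, by rw [htt, zero_smul, add_zero]⟩
  have hφ : ∀ (x : QuadraticAlgebra K c 0) (v : V), φ x v = x.re • v + x.im • t v := by
    intro x v
    rfl
  let _ : Module (QuadraticAlgebra K c 0) V := Module.compHom V φ.toRingHom
  have hsm : ∀ (x : QuadraticAlgebra K c 0) (v : V), x • v = φ x v := fun x v => rfl
  have : IsScalarTower K (QuadraticAlgebra K c 0) V := ⟨by
    intro k x v
    rw [hsm, hsm, map_smul, LinearMap.smul_apply]⟩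
  have : Finite (QuadraticAlgebra K c 0) := Module.finite_of_finite K
  have hls : ∀ (x : QuadraticAlgebra K c 0) (v : V),
      Algebra.lsmul K K V x v = x.re • v + x.im • t v := fun x v => hφ x v
  refine V4_main (E := QuadraticAlgebra K c 0) two h5 f hf A hA Γ hΓ hEU hgen e s h hp hes h4
    ?_ ?_ c QuadraticAlgebra.omega ?_
  · intro x
    have h1 : Algebra.lsmul K K V x = x.re • (1 : Module.End K V) + x.im • t := by
      ext v
      rw [hls]
      rfl
    rw [h1]
    exact A.add_mem (A.smul_mem A.one_mem _) (A.smul_mem htA _)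
  · intro x v w
    rw [hls, hls, hf.add_left, V4_add_right hf, hf.smul_left, hf.smul_left, V4_smul_right hf,
      V4_smul_right hf, hts v w]
  · refine ⟨?_, hc, ?_, V4_tr c, QuadraticAlgebra.finrank_eq_two c 0⟩
    · ext <;> simp
    · intro z
      refine ⟨z.re, z.im, ?_⟩
      ext <;> simp

end Pool.Agent.CTO
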