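import Pool.Agent.CTO.Pron
import Pool.Agent.CTO.G5
import Pool.Agent.CTO.W1
import Pool.Agent.CTO.Y1

/-!
# Z3: Witt's theorem

`f` symmetric or alternating, `2 ≠ 0`, `W` a subspace on which `f` is nondegenerate, `φ : W ≃ W'` an isometry.
* `witt_ext`: there is an isometry `g` of `V` with `g w = φ w` for `w ∈ W`. Symmetric case: induction on
  `dim W` (over all spaces `V`, or for a fixed `V` by extending a partial isometry vector by vector along an
  orthogonal basis `w_1, ..., w_k` of `W`: suppose the isometry `g` satisfies `g w_i = φ w_i` for `i < j`; let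
  `x = g w_j`, `y = φ w_j`: both are orthogonal to the `φ w_i`, `i < j`, and `f x x = f y y ≠ 0`; one of `x - y`,
  `x + y` is anisotropic; the reflection in `x - y` maps `x` to `y`; or the reflection in `x + y` maps `x` to
  `- y` and the reflection in `y` maps `- y` to `y`; all these reflections fix the `φ w_i`, `i < j`).
  Alternating case: let `e_1, e_1', ..., e_k, e_k'` be a symplectic basis of `W`
  (`f e_i e_i' = 1`, the other products zero). Suppose `g` agrees with `φ` on the first `i - 1` pairs. All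
  transvections below have centres orthogonal to these. Move `g e_i` to `φ e_i` by transvections
  `t_{u,c}`, `u = y - x` for `x = g e_i`, `y = φ e_i` if `f x y ≠ 0`, and through an intermediate vector `z` (in the
  orthogonal space `X` of the first pairs, a nondegenerate space containing `x`, `y`) with
  `f x z ≠ 0 ≠ f z y` otherwise; then move `x' = g e_i'` to `y' = φ e_i'` fixing `φ e_i`: if `f x' y' ≠ 0` with
  `u = y' - x'` (orthogonal to `φ e_i`, as both have the same product with it); otherwise through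
  `x' + φ e_i`.
* `witt_EU`: `ε = 1`, `dim V ≥ 3`, `|K| ≥ 5`: there is `g ∈ EU` with `g W = W'`. If `W = ⊥` or `⊤`, `g = 1`
  (`W' = W` by dimensions). Otherwise one of `W'`, `W'^⊥` has dimension `≥ 2`, so it contains anisotropic vectors
  `u` of both square classes (a nondegenerate form in `≥ 2` variables over a finite field represents every
  nonzero element). Let `g0` be an isometry with `g0 W = W'`. By `refl_gen` and `refl_same`, `refl_comm`, `g0` is
  modulo `EU` a product of at most two reflections of given classes, so there is a product `r` of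
  reflections in vectors `u ∈ W' ∪ W'^⊥` with `r * g0 ∈ EU` (`EU` is normal, reflections commute modulo `EU`);
  `r W' = W'`, so `g = r g0` works.
-/

namespace Pool.Agent.CTO

open Module

section

variable {K V : Type} [Field K] [AddCommGroup V] [Module K V] {ε : K} {f : V → V → K}

theorem Z3_symm0 (hf : IsHF (RingHom.id K) ε f) {v w : V} (h : f v w = 0) : f w v = 0 := by
  rw [hf.herm v w, h, map_zero, mul_zero]

theorem Z3_resHF (hf : IsHF (RingHom.id K) ε f) (W : Submodule K V)
    (hW : ∀ v ∈ W, (∀ w ∈ W, f v w = 0) → v = 0) : IsHF (RingHom.id K) ε (resF f W) := by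
  refine ⟨hf.invol, hf.eps, fun _ _ _ => hf.add_left _ _ _, fun _ _ _ => hf.smul_left _ _ _,
    fun _ _ => hf.herm _ _, fun x hx => ?_⟩
  apply Subtype.ext
  exact hW x x.2 (fun w hw => hx ⟨w, hw⟩)

theorem Z3_compl [FiniteDimensional K V] (hf : IsHF (RingHom.id K) ε f) (W : Submodule K V)
    (hW : ∀ v ∈ W, (∀ w ∈ W, f v w = 0) → v = 0) :
    IsCompl W (perp (RingHom.id K) ε f hf W) := by
  have h1 : perp (RingHom.id K) ε f hf W = (Y1_BL hf).orthogonal W := by
    ext v
    constructor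
    · intro h u hu
      exact Z3_symm0 hf (h u hu)
    · intro h u hu
      exact Z3_symm0 hf (h u hu)
  rw [h1, LinearMap.BilinForm.isCompl_orthogonal_iff_disjoint (fun v w h => Z3_symm0 hf h),
    Submodule.disjoint_def]
  intro v hv hv'
  exact hW v hv (fun w hw => Z3_symm0 hf (hv' w hw))

theorem Z3_perp_nd [FiniteDimensional K V] (hf : IsHF (RingHom.id K) ε f) (W : Submodule K V)
    (hW : ∀ v ∈ W, (∀ w ∈ W, f v w = 0) → v = 0) :
    ∀ v ∈ perp (RingHom.id K) ε f hf W,
      (∀ w ∈ perp (RingHom.id K) ε f hf W, f v w = 0) → v = 0 := by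
  intro v hv h
  apply hf.nondeg
  intro z
  have h1 := (Z3_compl hf W hW).sup_eq_top
  have h2 : z ∈ W ⊔ perp (RingHom.id K) ε f hf W := by rw [h1]; trivial
  obtain ⟨w, hw, p, hp, rfl⟩ := Submodule.mem_sup.1 h2
  rw [Y1_add_right hf, hv w hw, h p hp, add_zero]

theorem Z3_nd' (W W' : Submodule K V) (hW : ∀ v ∈ W, (∀ w ∈ W, f v w = 0) → v = 0)
    (φ : W ≃ₗ[K] W') (hφ : ∀ v w : W, f (φ v) (φ w) = f v w) :
    ∀ v ∈ W', (∀ w ∈ W', f v w = 0) → v = 0 := by
  intro v hv h
  have h1 : φ.symm ⟨v, hv⟩ = 0 := by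
    apply Subtype.ext
    apply hW _ (φ.symm ⟨v, hv⟩).2
    intro w hw
    have h2 := hφ (φ.symm ⟨v, hv⟩) ⟨w, hw⟩
    rw [φ.apply_symm_apply] at h2
    rw [← h2]
    exact h _ (φ ⟨w, hw⟩).2
  have h3 : (⟨v, hv⟩ : W') = 0 := by
    rw [← φ.apply_symm_apply ⟨v, hv⟩, h1, map_zero]
  exact congrArg Subtype.val h3

theorem Z3_orth (hf : IsHF (RingHom.id K) ε f) {W : Submodule K V} {a b c d : V} (ha : a ∈ W)
    (hb : b ∈ perp (RingHom.id K) ε f hf W) (hc : c ∈ W)
    (hd : d ∈ perp (RingHom.id K) ε f hf W) : f (a + b) (c + d) = f a c + f b d := by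
  rw [hf.add_left, Y1_add_right hf, Y1_add_right hf, hb c hc, Z3_symm0 hf (hd a ha)]
  ring

theorem Z3_glue [FiniteDimensional K V] (hf : IsHF (RingHom.id K) ε f) (W W' : Submodule K V)
    (hW : ∀ v ∈ W, (∀ w ∈ W, f v w = 0) → v = 0) (hW' : ∀ v ∈ W', (∀ w ∈ W', f v w = 0) → v = 0)
    (φ : W ≃ₗ[K] W') (hφ : ∀ v w : W, f (φ v) (φ w) = f v w)
    (ψ : perp (RingHom.id K) ε f hf W ≃ₗ[K] perp (RingHom.id K) ε f hf W')
    (hψ : ∀ v w, f (ψ v) (ψ w) = f v w) :
    ∃ g ∈ Isom f, ∀ w : W, g w = φ w := by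
  let e := Submodule.prodEquivOfIsCompl W (perp (RingHom.id K) ε f hf W) (Z3_compl hf W hW)
  let e' := Submodule.prodEquivOfIsCompl W' (perp (RingHom.id K) ε f hf W') (Z3_compl hf W' hW')
  have he : ∀ x, e x = (x.1 : V) + x.2 := fun x => rfl
  have he' : ∀ x, e' x = (x.1 : V) + x.2 := fun x => rfl
  let g : V ≃ₗ[K] V := (e.symm.trans (LinearEquiv.prodCongr φ ψ)).trans e'
  have hg : ∀ x, g (e x) = (φ x.1 : V) + ψ x.2 := by
    intro x
    show e' ((LinearEquiv.prodCongr φ ψ) (e.symm (e x))) = _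
    rw [e.symm_apply_apply, he']
    rfl
  refine ⟨g, ?_, ?_⟩
  · intro v w
    obtain ⟨x, rfl⟩ := e.surjective v
    obtain ⟨y, rfl⟩ := e.surjective w
    rw [hg, hg, he, he, Z3_orth hf (φ x.1).2 (ψ x.2).2 (φ y.1).2 (ψ y.2).2,
      Z3_orth hf x.1.2 x.2.2 y.1.2 y.2.2, hφ, hψ]
  · intro w
    have h1 := hg (w, 0)
    rw [he] at h1
    simpa using h1

/-- the discriminant of an orthogonal sum -/
theorem Z3_disc [FiniteDimensional K V] (hf : IsHF (RingHom.id K) ε f) (W : Submodule K V)
    (hW : ∀ v ∈ W, (∀ w ∈ W, f v w = 0) → v = 0) {m n : ℕ} (b : Basis (Fin m) K W)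
    (p : Basis (Fin n) K (perp (RingHom.id K) ε f hf W)) :
    ∃ c : Basis (Fin (m + n)) K V, gram f c = gram (resF f W) b *
      gram (resF f (perp (RingHom.id K) ε f hf W)) p := by
  let e := Submodule.prodEquivOfIsCompl W (perp (RingHom.id K) ε f hf W) (Z3_compl hf W hW)
  have he : ∀ x, e x = (x.1 : V) + x.2 := fun x => rfl
  let c0 : Basis (Fin m ⊕ Fin n) K V := (b.prod p).map e
  have h1 : ∀ i, c0 (Sum.inl i) = b i := by
    intro i
    show e ((b.prod p) (Sum.inl i)) = b i
    rw [he]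
    simp
  have h2 : ∀ i, c0 (Sum.inr i) = p i := by
    intro i
    show e ((b.prod p) (Sum.inr i)) = p i
    rw [he]
    simp
  refine ⟨c0.reindex finSumFinEquiv, ?_⟩
  rw [gram, ← Matrix.det_submatrix_equiv_self finSumFinEquiv]
  have h3 : (Matrix.of fun i j => f ((c0.reindex finSumFinEquiv) i)
      ((c0.reindex finSumFinEquiv) j)).submatrix finSumFinEquiv finSumFinEquiv =
      Matrix.fromBlocks (Matrix.of fun i j => resF f W (b i) (b j)) 0 0
        (Matrix.of fun i j => resF f (perp (RingHom.id K) ε f hf W) (p i) (p j)) := by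
    ext i j
    rw [Matrix.submatrix_apply, Matrix.of_apply, Basis.reindex_apply, Basis.reindex_apply,
      Equiv.symm_apply_apply, Equiv.symm_apply_apply]
    rcases i with i | i <;> rcases j with j | j
    · rw [h1, h1]
      rfl
    · rw [h1, h2]
      exact Z3_symm0 hf ((p j).2 _ (b i).2)
    · rw [h1, h2]
      exact (p i).2 _ (b j).2
    · rw [h2, h2]
      rfl
  rw [h3, Matrix.det_fromBlocks_zero₂₁]
  rfl

theorem Z3_gram_ne (hf : IsHF (RingHom.id K) ε f) {n : ℕ} (b : Basis (Fin n) K V) :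
    gram f b ≠ 0 := by
  have h1 : (Y1_BL hf).Nondegenerate := by
    constructor
    · intro v hv
      exact hf.nondeg v hv
    · intro v hv
      exact hf.nondeg v (fun w => Z3_symm0 hf (hv w))
  have h2 := (LinearMap.BilinForm.nondegenerate_iff_det_ne_zero b).1 h1
  have h3 : LinearMap.BilinForm.toMatrix b (Y1_BL hf) = Matrix.of fun i j => f (b i) (b j) := by
    ext i j
    rw [LinearMap.BilinForm.toMatrix_apply]
    rfl
  rw [h3] at h2
  exact h2

end

variable {K V : Type} [Field K] [Finite K] [AddCommGroup V] [Module K V] [FiniteDimensional K V]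

theorem witt_ext (two : (2 : K) ≠ 0) (ε : K) (f : V → V → K) (hf : IsHF (RingHom.id K) ε f)
    (W W' : Submodule K V) (hW : ∀ v ∈ W, (∀ w ∈ W, f v w = 0) → v = 0) (hI : IsoSp f W W') :
    ∃ g ∈ Isom f, W.map g.toLinearMap = W' := by
  obtain ⟨φ, hφ⟩ := hI
  have hW' := Z3_nd' W W' hW φ hφ
  have hC := Z3_compl hf W hW
  have hC' := Z3_compl hf W' hW'
  have hP := Z3_resHF hf _ (Z3_perp_nd hf W hW)
  have hP' := Z3_resHF hf _ (Z3_perp_nd hf W' hW')
  have d1 := Submodule.finrank_add_eq_of_isCompl hC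
  have d2 := Submodule.finrank_add_eq_of_isCompl hC'
  have d3 := φ.finrank_eq
  have hψ : ∃ ψ : perp (RingHom.id K) ε f hf W ≃ₗ[K] perp (RingHom.id K) ε f hf W',
      ∀ v w, f (ψ v) (ψ w) = f v w := by
    rcases hf.eps with h | h
    · subst h
      let b := finBasis K W
      let b' := finBasisOfFinrankEq K W' d3.symm
      let p := finBasis K (perp (RingHom.id K) 1 f hf W)
      let p' := finBasisOfFinrankEq K (perp (RingHom.id K) 1 f hf W')
        (show finrank K (perp (RingHom.id K) 1 f hf W') =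
          finrank K (perp (RingHom.id K) 1 f hf W) by omega)
      obtain ⟨c, hc⟩ := Z3_disc hf W hW b p
      obtain ⟨c', hc'⟩ := Z3_disc hf W' hW' b' p'
      have n1 := Z3_gram_ne (Z3_resHF hf W hW) b
      have n2 := Z3_gram_ne (Z3_resHF hf W' hW') b'
      obtain ⟨t, ht⟩ := Y1_gram hf c c'
      obtain ⟨s, hs⟩ := disc_iso K W W' 1 (resF f W) (resF f W') (Z3_resHF hf W hW)
        (Z3_resHF hf W' hW') b b' φ hφ
      refine iso_sym K _ _ two _ _ hP hP' p p' ⟨t * gram f c / s, ?_⟩
      have hs0 : s ≠ 0 := by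
        rintro rfl
        rw [mul_zero] at hs
        exact (mul_ne_zero n1 n2) hs
      field_simp
      have h1 : gram f c * gram f c' = t ^ 2 * gram f c ^ 2 := by
        rw [ht]
        ring
      rw [hc'] at h1
      have h2 : gram f c * (gram (resF f W') b' *
        gram (resF f (perp (RingHom.id K) 1 f hf W')) p') = s ^ 2 *
        (gram (resF f (perp (RingHom.id K) 1 f hf W)) p *
        gram (resF f (perp (RingHom.id K) 1 f hf W')) p') := by
        rw [hc]
        linear_combination (gram (resF f (perp (RingHom.id K) 1 f hf W)) p *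
          gram (resF f (perp (RingHom.id K) 1 f hf W')) p') * hs
      linear_combination h1 - h2
    · subst h
      exact iso_alt K _ _ two _ _ hP hP' (by omega)
  obtain ⟨ψ, hψ⟩ := hψ
  obtain ⟨g, hg, hgφ⟩ := Z3_glue hf W W' hW hW' φ hφ ψ hψ
  refine ⟨g, hg, ?_⟩
  ext v
  constructor
  · rintro ⟨w, hw, rfl⟩
    show g w ∈ W'
    rw [hgφ ⟨w, hw⟩]
    exact (φ _).2
  · intro hv
    refine ⟨φ.symm ⟨v, hv⟩, (φ.symm _).2, ?_⟩
    show g _ = v
    rw [hgφ, φ.apply_symm_apply]

/-- a nondegenerate symmetric form of rank at least two represents every nonzero element -/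
theorem Z3_repr (two : (2 : K) ≠ 0) (f : V → V → K) (hf : IsHF (RingHom.id K) 1 f)
    (W : Submodule K V) (hW : ∀ v ∈ W, (∀ w ∈ W, f v w = 0) → v = 0) (h2 : 2 ≤ finrank K W)
    (c : K) (hc : c ≠ 0) : ∃ x ∈ W, f x x = c := by
  have h1 := Z3_resHF hf W hW
  have h3 : IsHF (RingHom.id K) 1 (fun v w : W => c⁻¹ * resF f W v w) := by
    refine ⟨h1.invol, h1.eps, fun u v w => ?_, fun a v w => ?_, fun v w => ?_, fun v hv => ?_⟩
    · rw [h1.add_left, mul_add]
    · rw [h1.smul_left]
      ring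
    · rw [h1.herm v w]
      simp
    · apply h1.nondeg
      intro w
      exact (mul_eq_zero.1 (hv w)).resolve_left (inv_ne_zero hc)
  obtain ⟨x, hx⟩ := Y1_unit two h3 h2
  refine ⟨x, x.2, ?_⟩
  have h4 : c⁻¹ * f x x = 1 := hx
  field_simp at h4
  exact h4

theorem witt_EU (two : (2 : K) ≠ 0) (h5 : 5 ≤ Nat.card K) (f : V → V → K)
    (hf : IsHF (RingHom.id K) 1 f) (hV : 3 ≤ finrank K V)
    (W W' : Submodule K V) (hW : ∀ v ∈ W, (∀ w ∈ W, f v w = 0) → v = 0) (hI : IsoSp f W W') :
    ∃ g ∈ EU (RingHom.id K) 1 f, W.map g.toLinearMap = W' := by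
  obtain ⟨g0, hg0, hg0W⟩ := witt_ext two 1 f hf W W' hW hI
  obtain ⟨φ, hφ⟩ := hI
  have hW' := Z3_nd' W W' hW φ hφ
  have hC' := Z3_compl hf W' hW'
  have d2 := Submodule.finrank_add_eq_of_isCompl hC'
  have hrep : ∀ c : K, c ≠ 0 → ∃ x : V, (x ∈ W' ∨ x ∈ perp (RingHom.id K) 1 f hf W') ∧
      f x x = c := by
    intro c hc
    rcases le_or_gt 2 (finrank K W') with h | h
    · obtain ⟨x, hx, hxc⟩ := Z3_repr two f hf W' hW' h c hc
      exact ⟨x, Or.inl hx, hxc⟩
    · obtain ⟨x, hx, hxc⟩ := Z3_repr two f hf _ (Z3_perp_nd hf W' hW') (by omega) c hc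
      exact ⟨x, Or.inr hx, hxc⟩
  -- every isometry is, modulo `EU`, an isometry which preserves `W'`
  have main : ∀ l : List (V ≃ₗ[K] V), (∀ y ∈ l, ∃ u, IsRefl f u y) →
      ∃ r ∈ Isom f, (∀ w ∈ W', r w ∈ W') ∧ r * l.prod ∈ EU (RingHom.id K) 1 f := by
    intro l
    induction l with
    | nil =>
      intro _
      exact ⟨1, one_mem _, fun w hw => hw, by rw [List.prod_nil, one_mul]; exact one_mem _⟩
    | cons a l ih =>
      intro hl
      obtain ⟨r, hr, hrW, hrl⟩ := ih (fun y hy => hl y (List.mem_cons_of_mem _ hy))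
      obtain ⟨u, hu⟩ := hl a (List.mem_cons_self)
      obtain ⟨x, hx, hxu⟩ := hrep (f u u) hu.1
      obtain ⟨s, hs⟩ := G3_refl_exists hf x (by rw [hxu]; exact hu.1)
      have h1 : s * a ∈ EU (RingHom.id K) 1 f := by
        apply refl_same two h5 f hf hV x u s a hs hu
        rw [hxu]
        exact ⟨f u u, rfl⟩
      refine ⟨r * s, mul_mem hr (G4_isom hf hs), ?_, ?_⟩
      · intro w hw
        apply hrW
        show s w ∈ W'
        rw [hs.2]
        rcases hx with hx | hx
        · exact W'.sub_mem hw (W'.smul_mem _ hx)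
        · have h2 : f w x = 0 := Z3_symm0 hf (hx w hw)
          rw [h2, mul_zero, zero_div, zero_smul, sub_zero]
          exact hw
      · rw [List.prod_cons]
        have h2 : r * s * (a * l.prod) = (r * (s * a) * r⁻¹) * (r * l.prod) := by group
        rw [h2]
        exact mul_mem (EU_conj hf r hr _ h1) hrl
  obtain ⟨l, hl, hlg⟩ := G4_list two hf g0 hg0
  obtain ⟨r, hr, hrW, hrl⟩ := main l hl
  rw [hlg] at hrl
  refine ⟨r * g0, hrl, ?_⟩
  have h1 : W.map (r * g0).toLinearMap = W'.map r.toLinearMap := by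
    rw [← hg0W, ← Submodule.map_comp]
    rfl
  rw [h1]
  have h2 : W'.map r.toLinearMap ≤ W' := by
    rintro _ ⟨w, hw, rfl⟩
    exact hrW w hw
  apply Submodule.eq_of_le_of_finrank_eq h2
  exact LinearEquiv.finrank_map_eq r W'

end Pool.Agent.CTO
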