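import Pool.Agent.CTO.Pron

/-!
# Z4: the negative direction, first part

Let `T = Γ ⊓ torGL A`. Suppose it is pronormal (`isPronormal_subgroupOf_iff`): there is `x ∈ T ⊔ g T g⁻¹` with
`x T x⁻¹ = g T g⁻¹`. The elements of `T` preserve `W = range e` (`e ∈ A`, `A` commutative), and the elements
of `g T g⁻¹` preserve `g (range e') = W`. So `x W = W`. As `A ≤ adjoin (EndSet T)`, `x A x⁻¹ = g A g⁻¹`
(`x A x⁻¹ ≤ adjoin (EndSet (x T x⁻¹)) = adjoin (EndSet (g T g⁻¹)) ≤ g A g⁻¹`). Put `y = x⁻¹ g`, a similitude with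
`y A y⁻¹ = A` and `y (range e') = W = range e`. Conjugation by `y` gives an isomorphism
`restr A (range e') ≃ restr A (range e)`, which respects adjoints with respect to `resF f ..` (`f (y v) (y w) =
μ f v w`). So `SIso` holds for `e'`, `e`, and by symmetry (use `y⁻¹`) for `e`, `e'`, a contradiction.
-/

namespace Pool.Agent.CTO

open Module

variable {K V : Type} [Field K] [Finite K] [AddCommGroup V] [Module K V] [FiniteDimensional K V]

/-- the automorphisms which preserve the set `W` -/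
def Z4_stab (W : Submodule K V) : Subgroup (V ≃ₗ[K] V) where
  carrier := {h | ∀ v, v ∈ W ↔ h v ∈ W}
  mul_mem' := by
    intro a b ha hb v
    rw [hb v, ha (b v)]
    rfl
  one_mem' := fun v => Iff.rfl
  inv_mem' := by
    intro a ha v
    have h1 : a (a⁻¹ v) = v := LinearEquiv.apply_symm_apply a v
    have h2 := ha (a⁻¹ v)
    rw [h1] at h2
    exact h2.symm

theorem Z4_idem {e : Module.End K V} (hee : e * e = e) {v : V} (hv : v ∈ LinearMap.range e) :
    e v = v := by
  obtain ⟨u, rfl⟩ := hv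
  exact LinearMap.congr_fun hee u

theorem Z4_comm {A : Subalgebra K (Module.End K V)} (hc : ∀ a ∈ A, ∀ b ∈ A, a * b = b * a)
    {e : Module.End K V} (he : e ∈ A) (hee : e * e = e) {a : Module.End K V} (ha : a ∈ A) {v : V}
    (hv : v ∈ LinearMap.range e) : a v ∈ LinearMap.range e := by
  refine ⟨a v, ?_⟩
  have h1 := LinearMap.congr_fun (hc e he a ha) v
  have h2 : e (a v) = a (e v) := h1
  rw [h2, Z4_idem hee hv]

theorem Z4_tor_stab {A : Subalgebra K (Module.End K V)} (hc : ∀ a ∈ A, ∀ b ∈ A, a * b = b * a)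
    {e : Module.End K V} (he : e ∈ A) (hee : e * e = e) {t : V ≃ₗ[K] V} (ht : t ∈ torGL A) :
    t ∈ Z4_stab (LinearMap.range e) := by
  intro v
  constructor
  · intro hv
    exact Z4_comm hc he hee ht.1 hv
  · intro hv
    have h1 := Z4_comm hc he hee ht.2 hv
    have h2 : (t⁻¹).toLinearMap (t v) = v := LinearEquiv.symm_apply_apply t v
    rwa [h2] at h1

theorem Z4_carries {A : Subalgebra K (Module.End K V)} {T : Subgroup (V ≃ₗ[K] V)}
    (hT : ∀ t ∈ T, t.toLinearMap ∈ A) (z : V ≃ₗ[K] V)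
    (hz : ∀ t ∈ T, z * t * z⁻¹ ∈ T) (a : Module.End K V)
    (ha : a ∈ Algebra.adjoin K (EndSet T)) :
    z.toLinearMap ∘ₗ a ∘ₗ z.symm.toLinearMap ∈ A := by
  induction ha using Algebra.adjoin_induction with
  | mem x hx =>
    obtain ⟨t, ht, rfl⟩ := hx
    have h1 : z.toLinearMap ∘ₗ t.toLinearMap ∘ₗ z.symm.toLinearMap = (z * t * z⁻¹).toLinearMap := by
      ext v
      rfl
    rw [h1]
    exact hT _ (hz t ht)
  | algebraMap r =>
    have h1 : z.toLinearMap ∘ₗ (algebraMap K (Module.End K V) r) ∘ₗ z.symm.toLinearMap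
        = algebraMap K (Module.End K V) r := by
      ext v
      simp [Module.algebraMap_end_apply]
    rw [h1]
    exact A.algebraMap_mem r
  | add x y _ _ ihx ihy =>
    have h1 : z.toLinearMap ∘ₗ (x + y) ∘ₗ z.symm.toLinearMap =
        z.toLinearMap ∘ₗ x ∘ₗ z.symm.toLinearMap + z.toLinearMap ∘ₗ y ∘ₗ z.symm.toLinearMap := by
      ext v
      simp
    rw [h1]
    exact A.add_mem ihx ihy
  | mul x y _ _ ihx ihy =>
    have h1 : z.toLinearMap ∘ₗ (x * y) ∘ₗ z.symm.toLinearMap =
        (z.toLinearMap ∘ₗ x ∘ₗ z.symm.toLinearMap) * (z.toLinearMap ∘ₗ y ∘ₗ z.symm.toLinearMap) := by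
      ext v
      simp [Module.End.mul_apply]
    rw [h1]
    exact A.mul_mem ihx ihy

theorem Z4_siso {f : V → V → K} {A : Subalgebra K (Module.End K V)} {W W' : Submodule K V}
    (z : V ≃ₗ[K] V) (hWW : ∀ v, v ∈ W ↔ z v ∈ W')
    (h1 : ∀ a ∈ A, z.toLinearMap ∘ₗ a ∘ₗ z.symm.toLinearMap ∈ A)
    (h2 : ∀ a ∈ A, z.symm.toLinearMap ∘ₗ a ∘ₗ z.toLinearMap ∈ A)
    (μ : K) (hμ : ∀ v w, f (z v) (z w) = μ * f v w) :
    SIso (resF f W) (restr A W) (resF f W') (restr A W') := by
  have hmap : W.map z.toLinearMap = W' := by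
    ext v
    rw [Submodule.mem_map]
    constructor
    · rintro ⟨u, hu, rfl⟩
      exact (hWW u).1 hu
    · intro hv
      refine ⟨z.symm v, ?_, LinearEquiv.apply_symm_apply z v⟩
      rw [hWW, LinearEquiv.apply_symm_apply]
      exact hv
  let ψ : W ≃ₗ[K] W' := z.ofSubmodules W W' hmap
  have hψ : ∀ w : W, ((ψ w : W') : V) = z w := fun w => rfl
  have hψ' : ∀ w : W', ((ψ.symm w : W) : V) = z.symm w := fun w => rfl
  have hf1 : ∀ c ∈ restr A W, ψ.toLinearMap ∘ₗ c ∘ₗ ψ.symm.toLinearMap ∈ restr A W' := by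
    rintro c ⟨a, ha, hc⟩
    refine ⟨_, h1 a ha, fun w => ?_⟩
    change ((ψ (c (ψ.symm w)) : W') : V) = z (a (z.symm w))
    rw [hψ, hc, hψ']
  have hf2 : ∀ c ∈ restr A W', ψ.symm.toLinearMap ∘ₗ c ∘ₗ ψ.toLinearMap ∈ restr A W := by
    rintro c ⟨a, ha, hc⟩
    refine ⟨_, h2 a ha, fun w => ?_⟩
    change ((ψ.symm (c (ψ w)) : W) : V) = z.symm (a (z w))
    rw [hψ', hc, hψ]
  let φ : restr A W ≃ₐ[K] restr A W' :=
    { toFun := fun c => ⟨_, hf1 c c.2⟩
      invFun := fun c => ⟨_, hf2 c c.2⟩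
      left_inv := fun c => by
        apply Subtype.ext
        ext w
        simp
      right_inv := fun c => by
        apply Subtype.ext
        ext w
        simp
      map_mul' := fun c c' => by
        apply Subtype.ext
        ext w
        simp [Module.End.mul_apply]
      map_add' := fun c c' => by
        apply Subtype.ext
        ext w
        simp
      commutes' := fun r => by
        apply Subtype.ext
        ext w
        simp [Module.algebraMap_end_apply] }
  refine ⟨φ, fun a b hab v w => ?_⟩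
  have e1 : ∀ (c : restr A W) (u : W'), (((φ c : Module.End K W') u : W') : V) =
      z (((c : Module.End K W) (ψ.symm u) : W) : V) := fun c u => rfl
  have e2 : ∀ u : W', (u : V) = z ((ψ.symm u : W) : V) := by
    intro u
    rw [hψ', LinearEquiv.apply_symm_apply]
  change f (((φ a : Module.End K W') v : W') : V) (w : V) =
    f (v : V) (((φ b : Module.End K W') w : W') : V)
  rw [e1, e1, e2 w, hμ, e2 v, hμ]
  congr 1
  have h3 := hab (ψ.symm v) (ψ.symm w)
  change f (((a : Module.End K W) (ψ.symm v) : W) : V) ((ψ.symm w : W) : V) =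
    f ((ψ.symm v : W) : V) (((b : Module.End K W) (ψ.symm w) : W) : V) at h3
  have e3 : ψ.symm (⟨z ((ψ.symm v : W) : V), by rw [← e2]; exact v.2⟩ : W') = ψ.symm v := by
    congr 1
    exact Subtype.ext (e2 v).symm
  simpa using h3

theorem pron_neg1 (ε : K) (f : V → V → K) (hf : IsHF (RingHom.id K) ε f)
    (A : Subalgebra K (Module.End K V)) (hA : IsTor f A) (Γ : Subgroup (V ≃ₗ[K] V)) (hΓ : Γ ≤ Sim f)
    (hgen : A ≤ Algebra.adjoin K (EndSet (Γ ⊓ torGL A)))
    (e e' : Module.End K V) (he : e ∈ A) (he' : e' ∈ A) (hee : e * e = e) (hee' : e' * e' = e')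
    (hs : IsAdj f e e) (hs' : IsAdj f e' e') (g : V ≃ₗ[K] V) (hg : g ∈ Γ)
    (hge : (LinearMap.range e').map g.toLinearMap = LinearMap.range e)
    (hn : ¬ SIso (resF f (LinearMap.range e)) (restr A (LinearMap.range e))
      (resF f (LinearMap.range e')) (restr A (LinearMap.range e'))) :
    ¬ IsPronormal ((torGL A).subgroupOf Γ) := by
  intro hpron
  rw [isPronormal_subgroupOf_iff] at hpron
  obtain ⟨x, hx, hxe⟩ := hpron g hg
  set T := Γ ⊓ torGL A with hT
  have hTA : ∀ t ∈ T, t.toLinearMap ∈ A := fun t ht => ht.2.1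
  have hgW : ∀ v, v ∈ LinearMap.range e' ↔ g v ∈ LinearMap.range e := by
    intro v
    rw [← hge, Submodule.mem_map]
    constructor
    · intro hv
      exact ⟨v, hv, rfl⟩
    · rintro ⟨u, hu, huv⟩
      have : u = v := g.injective huv
      rwa [← this]
  have hginv : ∀ v, g (g⁻¹ v) = v := fun v => LinearEquiv.apply_symm_apply g v
  -- `x` preserves the range of `e`
  have hxW : x ∈ Z4_stab (LinearMap.range e) := by
    have hle : T ⊔ conjSub g T ≤ Z4_stab (LinearMap.range e) := by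
      refine sup_le ?_ ?_
      · intro t ht
        exact Z4_tor_stab hA.comm he hee ht.2
      · intro t ht
        rw [mem_conjSub] at ht
        have h1 := Z4_tor_stab hA.comm he' hee' ht.2
        intro v
        have h2 := h1 (g⁻¹ v)
        have h3 : (g⁻¹ * t * g) (g⁻¹ v) = g⁻¹ (t v) := by
          change g⁻¹ (t (g (g⁻¹ v))) = g⁻¹ (t v)
          rw [hginv]
        rw [h3, hgW, hgW, hginv, hginv] at h2
        exact h2
    exact hle hx
  have hxΓ : x ∈ Γ := by
    have hle : T ⊔ conjSub g T ≤ Γ := by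
      refine sup_le inf_le_left ?_
      intro t ht
      rw [mem_conjSub] at ht
      have h1 : t = g * (g⁻¹ * t * g) * g⁻¹ := by group
      rw [h1]
      exact Γ.mul_mem (Γ.mul_mem hg ht.1) (Γ.inv_mem hg)
    exact hle hx
  set z := g⁻¹ * x with hz
  have hzT : ∀ t ∈ T, z * t * z⁻¹ ∈ T := by
    intro t ht
    have h1 : x * t * x⁻¹ ∈ conjSub g T := by
      rw [← hxe, mem_conjSub]
      have : x⁻¹ * (x * t * x⁻¹) * x = t := by group
      rw [this]
      exact ht
    rw [mem_conjSub] at h1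
    have h2 : z * t * z⁻¹ = g⁻¹ * (x * t * x⁻¹) * g := by rw [hz]; group
    rw [h2]
    exact h1
  have hzT' : ∀ t ∈ T, z⁻¹ * t * (z⁻¹)⁻¹ ∈ T := by
    intro t ht
    have h1 : g * t * g⁻¹ ∈ conjSub x T := by
      rw [hxe, mem_conjSub]
      have : g⁻¹ * (g * t * g⁻¹) * g = t := by group
      rw [this]
      exact ht
    rw [mem_conjSub] at h1
    have h2 : z⁻¹ * t * (z⁻¹)⁻¹ = x⁻¹ * (g * t * g⁻¹) * x := by rw [hz]; group
    rw [h2]
    exact h1
  obtain ⟨μ, hμ⟩ := hΓ (Γ.mul_mem (Γ.inv_mem hg) hxΓ : z ∈ Γ)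
  apply hn
  refine Z4_siso z ?_ (fun a ha => Z4_carries hTA z hzT a (hgen ha))
    (fun a ha => Z4_carries hTA z⁻¹ hzT' a (hgen ha)) μ hμ
  intro v
  rw [hgW, hxW v]
  have h1 : g (z v) = x v := by
    change g (g⁻¹ (x v)) = x v
    rw [hginv]
  rw [h1]

end Pool.Agent.CTO
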