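import Pool.Agent.CTO.Pron
import Pool.Agent.CTO.G5
import Pool.Agent.CTO.W1

/-!
# Z2: squares of isometries; `EU` and the commutator subgroup (orthogonal case)

* `sq_mem_EU`: every isometry is a product of reflections (`refl_gen`), modulo the normal subgroup `EU`
  reflections commute (`refl_comm`) and have order two; so `g * g ∈ EU` for every isometry `g`.
* `EU_le_comm`: for an Eichler transformation `E(u,w,γ)`, `u ≠ 0`, let `u'` be as in W1 and `λ(s)` the isometry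
  of W1, `s ∈ K`, `s ≠ 0, 1`; `λ(s)` has determinant `s s⁻¹ = 1`, and after reducing to `w` orthogonal to `u, u'`
  (W1 (1)) `λ(s) E(u,w',γ') λ(s)⁻¹ E(u,w',γ')⁻¹ = E(u, (s-1) w', *)`, where for `σ = id`, `ε = 1` the last
  coefficient is determined by the vector (`2 γ = - f w w`). So `E(u,w,γ)` is a commutator of elements of
  `SIsom f` (`eich_det`).
-/

namespace Pool.Agent.CTO

open Module

variable {K V : Type} [Field K] [Finite K] [AddCommGroup V] [Module K V] [FiniteDimensional K V]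

section Z2aux

variable {f : V → V → K}

omit [Finite K] [FiniteDimensional K V] in
theorem Z2_symm (hf : IsHF (RingHom.id K) 1 f) (v w : V) : f w v = f v w := by
  have := hf.herm v w
  simpa using this

omit [Finite K] [FiniteDimensional K V] in
theorem Z2_add_right (hf : IsHF (RingHom.id K) 1 f) (u v w : V) : f u (v + w) = f u v + f u w := by
  rw [Z2_symm hf (v + w) u, hf.add_left, Z2_symm hf u v, Z2_symm hf u w]

omit [Finite K] [FiniteDimensional K V] in
theorem Z2_smul_right (hf : IsHF (RingHom.id K) 1 f) (a : K) (v w : V) : f v (a • w) = a * f v w := by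
  rw [Z2_symm hf (a • w) v, hf.smul_left, Z2_symm hf v w]

omit [Finite K] [FiniteDimensional K V] in
theorem Z2_sub_left (hf : IsHF (RingHom.id K) 1 f) (u v w : V) : f (u - v) w = f u w - f v w := by
  have h1 : u - v = u + (-1 : K) • v := by rw [neg_smul, one_smul, sub_eq_add_neg]
  rw [h1, hf.add_left, hf.smul_left]; ring

omit [Finite K] [FiniteDimensional K V] in
theorem Z2_sub_right (hf : IsHF (RingHom.id K) 1 f) (u v w : V) : f u (v - w) = f u v - f u w := by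
  rw [Z2_symm hf (v - w) u, Z2_sub_left hf, Z2_symm hf u v, Z2_symm hf u w]

omit [Finite K] [FiniteDimensional K V] in
theorem Z2_zero_left (hf : IsHF (RingHom.id K) 1 f) (v : V) : f 0 v = 0 := by
  have h := hf.smul_left 0 0 v
  rwa [zero_smul, zero_mul] at h

omit [Finite K] [FiniteDimensional K V] in
theorem Z2_zero_right (hf : IsHF (RingHom.id K) 1 f) (v : V) : f v 0 = 0 := by
  rw [Z2_symm hf 0 v, Z2_zero_left hf]

omit [Finite K] [FiniteDimensional K V] in
theorem Z2_refl_isom (hf : IsHF (RingHom.id K) 1 f) (u : V) (g : V ≃ₗ[K] V) (hg : IsRefl f u g) :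
    g ∈ Isom f := by
  intro v w
  obtain ⟨h0, h⟩ := hg
  rw [h v, h w, Z2_sub_left hf, Z2_sub_right hf, Z2_sub_right hf, hf.smul_left, hf.smul_left,
    Z2_smul_right hf, Z2_smul_right hf, Z2_symm hf w u]
  field_simp
  ring

omit [Finite K] [FiniteDimensional K V] in
theorem Z2_closure_le (hf : IsHF (RingHom.id K) 1 f) :
    Subgroup.closure {g : V ≃ₗ[K] V | ∃ u, IsRefl f u g} ≤ Isom f := by
  rw [Subgroup.closure_le]
  rintro g ⟨u, hu⟩
  exact Z2_refl_isom hf u g hu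

theorem Z2_comm (two : (2 : K) ≠ 0) (h5 : 5 ≤ Nat.card K) (f : V → V → K)
    (hf : IsHF (RingHom.id K) 1 f) (hV : 3 ≤ finrank K V) (x y : V ≃ₗ[K] V)
    (hx : x ∈ Subgroup.closure {g : V ≃ₗ[K] V | ∃ u, IsRefl f u g})
    (hy : y ∈ Subgroup.closure {g : V ≃ₗ[K] V | ∃ u, IsRefl f u g}) :
    x * y * x⁻¹ * y⁻¹ ∈ EU (RingHom.id K) 1 f := by
  have hle := Z2_closure_le (K := K) (V := V) hf
  have hc := fun (g : V ≃ₗ[K] V)
    (hg : g ∈ Subgroup.closure {g : V ≃ₗ[K] V | ∃ u, IsRefl f u g}) (x : V ≃ₗ[K] V)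
    (hx : x ∈ EU (RingHom.id K) 1 f) => EU_conj hf g (hle hg) x hx
  refine Subgroup.closure_induction₂
    (p := fun x y _ _ => x * y * x⁻¹ * y⁻¹ ∈ EU (RingHom.id K) 1 f) ?_ ?_ ?_ ?_ ?_ ?_ ?_ hx hy
  · rintro x y ⟨u, hu⟩ ⟨v, hv⟩
    exact refl_comm two h5 f hf hV u v x y hu hv
  · intro x hx
    simp
  · intro x hx
    simp
  · intro x y z hx hy hz h1 h2
    have h3 : x * y * z * (x * y)⁻¹ * z⁻¹ = (x * (y * z * y⁻¹ * z⁻¹) * x⁻¹) * (x * z * x⁻¹ * z⁻¹) := by
      group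
    rw [h3]
    exact mul_mem (hc x hx _ h2) h1
  · intro x y z hx hy hz h1 h2
    have h3 : z * (x * y) * z⁻¹ * (x * y)⁻¹ = (z * x * z⁻¹ * x⁻¹) * (x * (z * y * z⁻¹ * y⁻¹) * x⁻¹) := by
      group
    rw [h3]
    exact mul_mem h1 (hc x hx _ h2)
  · intro x y hx hy h1
    have h3 : x⁻¹ * y * x⁻¹⁻¹ * y⁻¹ = x⁻¹ * (x * y * x⁻¹ * y⁻¹)⁻¹ * x⁻¹⁻¹ := by
      group
    rw [h3]
    exact hc _ (inv_mem hx) _ (inv_mem h1)
  · intro x y hx hy h1
    have h3 : x * y⁻¹ * x⁻¹ * y⁻¹⁻¹ = y⁻¹ * (x * y * x⁻¹ * y⁻¹)⁻¹ * y⁻¹⁻¹ := by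
      group
    rw [h3]
    exact hc _ (inv_mem hy) _ (inv_mem h1)

end Z2aux

theorem sq_mem_EU (two : (2 : K) ≠ 0) (h5 : 5 ≤ Nat.card K) (f : V → V → K)
    (hf : IsHF (RingHom.id K) 1 f) (hV : 3 ≤ finrank K V) (g : V ≃ₗ[K] V) (hg : g ∈ Isom f) :
    g * g ∈ EU (RingHom.id K) 1 f := by
  have hle := Z2_closure_le (K := K) (V := V) hf
  have h1 := refl_gen K V two f hf hg
  refine Subgroup.closure_induction (p := fun x _ => x * x ∈ EU (RingHom.id K) 1 f) ?_ ?_ ?_ ?_ h1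
  · rintro x ⟨u, hu⟩
    exact refl_same two h5 f hf hV u u x x hu hu ⟨f u u, rfl⟩
  · simp
  · intro x y hx hy h2 h3
    have h4 := Z2_comm two h5 f hf hV x⁻¹ y (inv_mem hx) hy
    have h5 : x * y * (x * y) = (x * x) * (x⁻¹ * y * x⁻¹⁻¹ * y⁻¹) * (y * y) := by group
    rw [h5]
    exact mul_mem (mul_mem h2 h4) h3
  · intro x hx h2
    have h3 : x⁻¹ * x⁻¹ = (x * x)⁻¹ := by group
    rw [h3]
    exact inv_mem h2

/-- The linear form `x ↦ f x u`. -/
def Z2_form (f : V → V → K) (hf : IsHF (RingHom.id K) 1 f) (u : V) : V →ₗ[K] K where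
  toFun x := f x u
  map_add' x y := hf.add_left x y u
  map_smul' a x := by rw [hf.smul_left]; rfl

omit [Finite K] [FiniteDimensional K V] in
@[simp] theorem Z2_form_apply (f : V → V → K) (hf : IsHF (RingHom.id K) 1 f) (u x : V) :
    Z2_form f hf u x = f x u := rfl

omit [Finite K] in
/-- The isometry `λ(s)`. -/
theorem Z2_lam (f : V → V → K) (hf : IsHF (RingHom.id K) 1 f) (u u' : V) (h1 : f u u = 0)
    (h2 : f u' u' = 0) (h3 : f u u' = 1) (s : K) (hs : s ≠ 0) :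
    ∃ g ∈ SIsom f, ∀ x, g x = x + ((s - 1) * f x u') • u + ((s⁻¹ - 1) * f x u) • u' := by
  have h4 : f u' u = 1 := by rw [Z2_symm hf u u', h3]
  let L : K → (V →ₗ[K] V) := fun s =>
    LinearMap.id + ((s - 1) • Z2_form f hf u').smulRight u + ((s⁻¹ - 1) • Z2_form f hf u).smulRight u'
  have hL : ∀ s x, L s x = x + ((s - 1) * f x u') • u + ((s⁻¹ - 1) * f x u) • u' := by
    intro s x
    simp [L]
  have hinv : ∀ s : K, s ≠ 0 → ∀ x, L s (L s⁻¹ x) = x := by
    intro s hs x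
    have e1 : f (L s⁻¹ x) u' = s⁻¹ * f x u' := by
      rw [hL, hf.add_left, hf.add_left, hf.smul_left, hf.smul_left, h2, h3]; ring
    have e2 : f (L s⁻¹ x) u = s * f x u := by
      rw [hL, hf.add_left, hf.add_left, hf.smul_left, hf.smul_left, h1, h4, inv_inv]; ring
    rw [hL s, e1, e2, hL s⁻¹, inv_inv]
    have : x + ((s⁻¹ - 1) * f x u') • u + ((s - 1) * f x u) • u' + ((s - 1) * (s⁻¹ * f x u')) • u +
        ((s⁻¹ - 1) * (s * f x u)) • u' = x + ((s⁻¹ - 1) * f x u' + (s - 1) * (s⁻¹ * f x u')) • u +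
        ((s - 1) * f x u + (s⁻¹ - 1) * (s * f x u)) • u' := by
      module
    rw [this]
    have e3 : (s⁻¹ - 1) * f x u' + (s - 1) * (s⁻¹ * f x u') = 0 := by
      field_simp; ring
    have e4 : (s - 1) * f x u + (s⁻¹ - 1) * (s * f x u) = 0 := by
      field_simp; ring
    rw [e3, e4]; simp
  let g : V ≃ₗ[K] V := LinearEquiv.ofLinearMap (L s) (L s⁻¹)
    (by ext x; exact hinv s hs x)
    (by
      ext x
      have := hinv s⁻¹ (inv_ne_zero hs) x
      rw [inv_inv] at this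
      exact this)
  have hg : ∀ x, g x = x + ((s - 1) * f x u') • u + ((s⁻¹ - 1) * f x u) • u' := fun x => hL s x
  refine ⟨g, ⟨?_, ?_⟩, hg⟩
  · intro v w
    rw [hg, hg]
    simp only [hf.add_left, hf.smul_left, Z2_add_right hf, Z2_smul_right hf, h1, h2, h3, h4]
    rw [Z2_symm hf w u, Z2_symm hf w u']
    field_simp
    ring
  · show LinearEquiv.det g = 1
    rw [← Units.val_inj, LinearEquiv.coe_det]
    have h5 : (g : V →ₗ[K] V) = (LinearMap.transvection ((s - 1) • Z2_form f hf u') u) ∘ₗ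
        (LinearMap.transvection ((s⁻¹ - 1) • Z2_form f hf u) u') := by
      ext x
      rw [LinearMap.comp_apply, LinearMap.transvection.apply, LinearMap.transvection.apply]
      rw [LinearEquiv.coe_coe, hg]
      simp only [LinearMap.smul_apply, Z2_form_apply, smul_eq_mul]
      rw [hf.add_left, hf.smul_left, h2, mul_zero, add_zero]
      module
    rw [h5, LinearMap.det_comp, LinearMap.transvection.det, LinearMap.transvection.det]
    simp only [LinearMap.smul_apply, Z2_form_apply, smul_eq_mul]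
    rw [h3, h4]
    field_simp
    simp

omit [Finite K] in
theorem Z2_eich (two : (2 : K) ≠ 0) (f : V → V → K)
    (hf : IsHF (RingHom.id K) 1 f) (s : K) (hs0 : s ≠ 0) (hs1 : s ≠ 1) (g : V ≃ₗ[K] V)
    (hg : g ∈ EichSet (RingHom.id K) 1 f) : g ∈ ⁅SIsom f, SIsom f⁆ := by
  obtain ⟨u, w, γ, ⟨huu, hwu, hγ⟩, hgx⟩ := hg
  by_cases hu0 : u = 0
  · have : g = 1 := by
      ext x
      rw [hgx x, hu0, Z2_zero_right hf]
      simp
    rw [this]
    exact one_mem _
  have hS : EU (RingHom.id K) 1 f ≤ SIsom f := by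
    intro x hx
    exact ⟨EU_le hf hx, show LinearEquiv.det x = 1 from eich_det hf x hx⟩
  -- the vector `u'`
  obtain ⟨y0, hy0⟩ : ∃ y, f u y ≠ 0 := by
    by_contra hcon
    push Not at hcon
    exact hu0 (hf.nondeg u hcon)
  obtain ⟨y, hy⟩ : ∃ y, f u y = 1 :=
    ⟨(f u y0)⁻¹ • y0, by rw [Z2_smul_right hf, inv_mul_cancel₀ hy0]⟩
  obtain ⟨u', hu'⟩ : ∃ u', u' = y - (f y y / 2) • u := ⟨_, rfl⟩
  have h3 : f u u' = 1 := by
    rw [hu', Z2_sub_right hf, Z2_smul_right hf, huu, hy]; ring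
  have h2 : f u' u' = 0 := by
    rw [hu', Z2_sub_left hf, Z2_sub_right hf, Z2_sub_right hf, Z2_smul_right hf, Z2_smul_right hf,
      hf.smul_left, hf.smul_left, huu, Z2_symm hf u y, hy]
    field_simp
    ring
  have h4 : f u' u = 1 := by rw [Z2_symm hf u u', h3]
  -- the vector `w1`
  obtain ⟨w1, hw1⟩ : ∃ w1, w1 = w - (f w u') • u := ⟨_, rfl⟩
  have hw1u : f w1 u = 0 := by
    rw [hw1, Z2_sub_left hf, hf.smul_left, hwu, huu]; ring
  have hw1u' : f w1 u' = 0 := by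
    rw [hw1, Z2_sub_left hf, hf.smul_left, h3]; ring
  have hww : f w1 w1 = f w w := by
    rw [hw1, Z2_sub_left hf, Z2_sub_right hf, Z2_sub_right hf, Z2_smul_right hf, Z2_smul_right hf,
      hf.smul_left, hf.smul_left, huu, Z2_symm hf w u, hwu]
    ring
  have hw : w = w1 + (f w u') • u := by
    rw [hw1]
    abel
  have hγ2 : γ = - f w1 w1 / 2 := by
    rw [hww]
    simp only [RingHom.id_apply, one_mul] at hγ
    field_simp
    rw [← hγ]; ring
  have hg1 : ∀ x, g x = x + f x u • w1 - (f x w1) • u + (γ * f x u) • u := by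
    intro x
    rw [hgx x]
    generalize f w u' = ξ at hw
    rw [hw, Z2_add_right hf, Z2_smul_right hf]
    module
  -- the commutator
  have hs2 : s - 1 ≠ 0 := sub_ne_zero.mpr hs1
  obtain ⟨w2, hw2⟩ : ∃ w2, w2 = (s - 1)⁻¹ • w1 := ⟨_, rfl⟩
  obtain ⟨γ2, hγ2'⟩ : ∃ γ2, γ2 = - f w2 w2 / 2 := ⟨_, rfl⟩
  have hw2u : f w2 u = 0 := by
    rw [hw2, hf.smul_left, hw1u, mul_zero]
  have hw2u' : f w2 u' = 0 := by
    rw [hw2, hf.smul_left, hw1u', mul_zero]
  have hf2 : f w2 w2 = - 2 * γ2 := by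
    rw [hγ2']
    field_simp
  have hE2 : IsEich (RingHom.id K) 1 f u w2 γ2 := by
    refine ⟨huu, hw2u, ?_⟩
    simp only [RingHom.id_apply, one_mul]
    rw [hf2]
    ring
  obtain ⟨E, hE⟩ := exists_eich hf u w2 γ2 hE2
  obtain ⟨l, hlS, hl⟩ := Z2_lam f hf u u' huu h2 h3 s hs0
  have hEE : E ∈ EU (RingHom.id K) 1 f := Subgroup.subset_closure ⟨u, w2, γ2, hE2, hE⟩
  have hcomm : g = l * E * l⁻¹ * E⁻¹ := by
    have h5 : g * E * l = l * E := by
      ext x
      simp only [LinearEquiv.mul_apply]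
      have hw1' : w1 = (s - 1) • w2 := by
        rw [hw2, smul_smul, mul_inv_cancel₀ hs2, one_smul]
      have hγ3 : γ = (s - 1) * (s - 1) * γ2 := by
        rw [hγ2, hw1', hf.smul_left, Z2_smul_right hf, hγ2']
        ring
      have hfx : ∀ x, f x w1 = (s - 1) * f x w2 := by
        intro x
        rw [hw1', Z2_smul_right hf]
      have euw2 : f u w2 = 0 := by rw [Z2_symm hf w2 u, hw2u]
      have eu'w2 : f u' w2 = 0 := by rw [Z2_symm hf w2 u', hw2u']
      rw [hg1, hE, hE, hl, hl]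
      simp only [hf.add_left, hf.smul_left, Z2_sub_left hf, hfx, huu, h2, h3, h4, hw2u, hw2u', hf2, euw2,
        eu'w2, one_mul]
      rw [hγ3, hw1']
      generalize f x u = a
      generalize f x u' = b
      generalize f x w2 = c
      match_scalars <;> (field_simp; try ring)
    have h6 : g = (g * E * l) * l⁻¹ * E⁻¹ := by group
    rw [h6, h5]
  rw [hcomm]
  exact Subgroup.commutator_mem_commutator hlS (hS hEE)

theorem EU_le_comm (two : (2 : K) ≠ 0) (h5 : 5 ≤ Nat.card K) (f : V → V → K)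
    (hf : IsHF (RingHom.id K) 1 f) : EU (RingHom.id K) 1 f ≤ ⁅SIsom f, SIsom f⁆ := by
  obtain ⟨s, hs0, hs1⟩ : ∃ s : K, s ≠ 0 ∧ s ≠ 1 := by
    refine ⟨-1, neg_ne_zero.mpr one_ne_zero, ?_⟩
    intro h
    apply two
    have : (2 : K) = 1 - (-1) := by ring
    rw [this, h, sub_self]
  unfold EU
  rw [Subgroup.closure_le]
  intro g hg
  exact Z2_eich two f hf s hs0 hs1 g hg

end Pool.Agent.CTO
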