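import Pool.Agent.CTO.Z1
import Pool.Agent.CTO.Z2
import Pool.Agent.CTO.Z3
import Pool.Agent.CTO.Z4
import Pool.Agent.CTO.Z5

/-!
# Z6: the criterion, abstract form

* `absC` (`ε = -1`): `q0` from `pron_pos N` and `gen_tor N`. `Isom f ≤ Γ ≤ Sim f`. `sq (tor f A) ≤ Isom f ≤ Γ`, so
  `A ≤ adjoin (EndSet (Γ ⊓ torGL A))`. `←`: `pron_pos`. `→`: if `Crit` fails there are selfadjoint idempotents
  `e, e' ∈ A` with `IsoSp f (range e) (range e')` and not `SIso`; `f` is nondegenerate on `range e'` and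
  `IsoSp f (range e') (range e)`, so `witt_ext` gives `g ∈ Isom f ≤ Γ` with `g (range e') = range e`; `pron_neg1`.
* `absBD` (`ε = 1`, `N ≥ 3`): `q0` also `≥ 5`. `⁅SIsom f, SIsom f⁆ ≤ Γ ≤ Sim f`, so `EU ≤ Γ` (`EU_le_comm`) and
  `sq (tor f A) ≤ EU ≤ Γ` (`sq_mem_EU`; `sq` is the closure of the squares). `←`: `pron_pos`. `→`: `Crit`: as
  before with `witt_EU`. `OddPos`: if it fails there is a primitive idempotent `e ∈ A` of even rank with adjoint
  `s`, `e s = 0`, so `IsoIdem f A e s`, `IsPrim A e`. As `A` is not a single positive even cycle, `e + s ≠ 1`, so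
  `ker (e + s) ≠ 0`, and it contains an anisotropic `v` (`f` is nondegenerate on it, `2 ≠ 0`);
  `range (e + s)` is nondegenerate of dimension `2 rank e ≥ 2`, so it contains `u` with `f u u = f v v`; with the
  reflections `r`, `r'` in `u`, `v`, `r * r' ∈ EU ≤ Γ` (`refl_same`); `pron_neg2`.
-/

namespace Pool.Agent.CTO

open Module

/-- `A` is a single positive cycle of even length: it has a primitive idempotent `e` of even rank
with `e + e* = 1`, `e* e = 0`. -/
def SinglePosEven {K V : Type} [Field K] [AddCommGroup V] [Module K V] (f : V → V → K)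
    (A : Subalgebra K (Module.End K V)) : Prop :=
  ∃ e s : Module.End K V, IsoIdem f A e s ∧ IsPrim A e ∧ Even (finrank K (LinearMap.range e)) ∧
    e + s = 1

section aux

variable {K V : Type} [Field K] [AddCommGroup V] [Module K V]

lemma Z6_add_right {ε : K} {f : V → V → K} (hf : IsHF (RingHom.id K) ε f) (v u w : V) :
    f v (u + w) = f v u + f v w := by
  rw [hf.herm (u + w) v, hf.herm u v, hf.herm w v, hf.add_left, map_add, mul_add]

lemma Z6_smul_right {ε : K} {f : V → V → K} (hf : IsHF (RingHom.id K) ε f) (a : K) (v w : V) :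
    f v (a • w) = a * f v w := by
  rw [hf.herm (a • w) v, hf.herm w v, hf.smul_left, map_mul, RingHom.id_apply]
  ring

lemma Z6_zero_right {ε : K} {f : V → V → K} (hf : IsHF (RingHom.id K) ε f) (v : V) :
    f v 0 = 0 := by
  have := Z6_smul_right hf 0 v 0
  rw [zero_smul, zero_mul] at this
  exact this

/-- existence of reflections -/
lemma Z6_refl {f : V → V → K} (hf : IsHF (RingHom.id K) 1 f) (u : V) (hu : f u u ≠ 0) :
    ∃ r : V ≃ₗ[K] V, IsRefl f u r := by
  let L : V →ₗ[K] V :=
    { toFun := fun x => x - (2 * f x u / f u u) • u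
      map_add' := by
        intro x y
        rw [hf.add_left, mul_add, add_div, add_smul]
        abel
      map_smul' := by
        intro c x
        rw [hf.smul_left, RingHom.id_apply, smul_sub, smul_smul]
        congr 2
        ring }
  have hL : ∀ x, L x = x - (2 * f x u / f u u) • u := fun x => rfl
  have hinv : Function.Involutive L := by
    intro x
    rw [hL, hL]
    have h1 : f (x - (2 * f x u / f u u) • u) u = - f x u := by
      rw [sub_eq_add_neg, ← neg_smul, hf.add_left, hf.smul_left]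
      field_simp
      ring
    rw [h1, mul_neg, neg_div, neg_smul]
    abel
  exact ⟨LinearEquiv.ofInvolutive L hinv, hu, fun x => rfl⟩

/-- nondegeneracy on the range of a selfadjoint idempotent -/
lemma Z6_nondeg {ε : K} {f : V → V → K} (hf : IsHF (RingHom.id K) ε f) (p : Module.End K V)
    (hp : p * p = p) (hs : IsAdj f p p) :
    ∀ v ∈ LinearMap.range p, (∀ w ∈ LinearMap.range p, f v w = 0) → v = 0 := by
  rintro v ⟨x, rfl⟩ h
  have hpp : p (p x) = p x := by
    rw [← Module.End.mul_apply, hp]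
  refine hf.nondeg _ fun w => ?_
  rw [← hpp, hs]
  exact h _ ⟨w, rfl⟩

lemma Z6_IsoSp_symm {f : V → V → K} {W W' : Submodule K V} (h : IsoSp f W W') : IsoSp f W' W := by
  obtain ⟨φ, hφ⟩ := h
  refine ⟨φ.symm, fun v w => ?_⟩
  have := hφ (φ.symm v) (φ.symm w)
  rw [φ.apply_symm_apply, φ.apply_symm_apply] at this
  exact this.symm

/-- an anisotropic vector in the range of a nonzero selfadjoint idempotent -/
lemma Z6_aniso (two : (2 : K) ≠ 0) {f : V → V → K} (hf : IsHF (RingHom.id K) 1 f)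
    (p : Module.End K V) (hp : p * p = p) (hs : IsAdj f p p) (h0 : p ≠ 0) :
    ∃ v ∈ LinearMap.range p, f v v ≠ 0 := by
  obtain ⟨x, hx⟩ : ∃ x, p x ≠ 0 := by
    by_contra hcon
    push Not at hcon
    exact h0 (LinearMap.ext hcon)
  by_contra hcon
  push Not at hcon
  apply hx
  refine Z6_nondeg hf p hp hs _ ⟨x, rfl⟩ fun w hw => ?_
  have h1 := hcon _ (Submodule.add_mem _ (LinearMap.mem_range_self p x) hw)
  have h2 := hcon _ (LinearMap.mem_range_self p x)
  have h3 := hcon _ hw
  rw [hf.add_left, Z6_add_right hf, Z6_add_right hf, h2, h3, zero_add, add_zero,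
    hf.herm (p x) w, RingHom.id_apply, one_mul, ← two_mul] at h1
  exact (mul_eq_zero.1 h1).resolve_left two

/-- every value is taken on `range (e + s)` -/
lemma Z6_value (two : (2 : K) ≠ 0) {f : V → V → K} (hf : IsHF (RingHom.id K) 1 f)
    (e s : Module.End K V) (he : e * e = e) (hs : IsAdj f e s) (hss : s * s = s)
    (hes : e * s = 0) (hse : s * e = 0) (h0 : e ≠ 0) (a : K) :
    ∃ u ∈ LinearMap.range (e + s), f u u = a := by
  obtain ⟨x, hx⟩ : ∃ x, e x ≠ 0 := by
    by_contra hcon
    push Not at hcon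
    exact h0 (LinearMap.ext hcon)
  obtain ⟨w, hw⟩ : ∃ w, f (e x) w ≠ 0 := by
    by_contra hcon
    push Not at hcon
    exact hx (hf.nondeg _ hcon)
  have hee : e (e x) = e x := by rw [← Module.End.mul_apply, he]
  have hc : f (e x) (s w) ≠ 0 := by
    rw [← hs, hee]; exact hw
  have h1 : f (e x) (e x) = 0 := by
    rw [hs, ← Module.End.mul_apply, hse, LinearMap.zero_apply, Z6_zero_right hf]
  have h2 : f (s w) (s w) = 0 := by
    have h3 : f (e (s w)) w = f (s w) (s w) := hs _ _
    rw [← h3, ← Module.End.mul_apply, hes, LinearMap.zero_apply]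
    have := hf.smul_left 0 0 w
    rw [zero_smul, zero_mul] at this
    exact this
  have hm1 : e x ∈ LinearMap.range (e + s) := ⟨e x, by
    rw [LinearMap.add_apply, hee, ← Module.End.mul_apply, hse, LinearMap.zero_apply, add_zero]⟩
  have hm2 : s w ∈ LinearMap.range (e + s) := ⟨s w, by
    rw [LinearMap.add_apply, ← Module.End.mul_apply, ← Module.End.mul_apply, hes, hss,
      LinearMap.zero_apply, zero_add]⟩
  refine ⟨e x + (a / (2 * f (e x) (s w))) • s w, Submodule.add_mem _ hm1
    (Submodule.smul_mem _ _ hm2), ?_⟩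
  rw [hf.add_left, Z6_add_right hf, Z6_add_right hf, hf.smul_left, hf.smul_left,
    Z6_smul_right hf, Z6_smul_right hf, h1, h2, hf.herm (e x) (s w), RingHom.id_apply]
  field_simp
  ring

lemma Z6_sq_le {Γ : Subgroup (V ≃ₗ[K] V)} {f : V → V → K} {A : Subalgebra K (Module.End K V)}
    (h : ∀ g ∈ Isom f, g * g ∈ Γ) : sq (tor (RingHom.id K) f A) ≤ Γ ⊓ torGL A := by
  unfold sq
  rw [Subgroup.closure_le]
  rintro x ⟨t, ht, rfl⟩
  rw [mem_tor] at ht
  exact ⟨h t ht.2.1, mul_mem ht.1 ht.1⟩

lemma Z6_adjoin {H H' : Subgroup (V ≃ₗ[K] V)} (h : H ≤ H') :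
    Algebra.adjoin K (EndSet H) ≤ Algebra.adjoin K (EndSet H') := by
  apply Algebra.adjoin_mono
  rintro x ⟨g, hg, rfl⟩
  exact ⟨g, h hg, rfl⟩

end aux

theorem absC (N : ℕ) : ∃ q0 : ℕ, ∀ (K V : Type) [Field K] [Finite K] [AddCommGroup V]
    [Module K V] [FiniteDimensional K V] (f : V → V → K) (A : Subalgebra K (Module.End K V))
    (Γ : Subgroup (V ≃ₗ[K] V)), finrank K V = N → q0 ≤ Nat.card K → (2 : K) ≠ 0 →
    IsHF (RingHom.id K) (-1) f → IsTor f A → Isom f ≤ Γ → Γ ≤ Sim f →
    (IsPronormal ((torGL A).subgroupOf Γ) ↔ Crit f A) := by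
  obtain ⟨q1, h1⟩ := pron_pos N
  obtain ⟨q2, h2⟩ := gen_tor N
  refine ⟨max q1 q2, ?_⟩
  intro K V _ _ _ _ _ f A Γ hN hq two hf hA hI hS
  have hsq : sq (tor (RingHom.id K) f A) ≤ Γ ⊓ torGL A :=
    Z6_sq_le fun g hg => hI (mul_mem hg hg)
  have hgen : A ≤ Algebra.adjoin K (EndSet (Γ ⊓ torGL A)) :=
    (h2 K V (-1) f A hN ((le_max_right _ _).trans hq) two hf hA).trans (Z6_adjoin hsq)
  constructor
  · intro hP
    by_contra hC
    unfold Crit at hC
    push Not at hC
    obtain ⟨e, he, e', he', hee, hs, hee', hs', hiso, hn⟩ := hC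
    obtain ⟨g, hg, hge⟩ := witt_ext two (-1) f hf (LinearMap.range e') (LinearMap.range e)
      (Z6_nondeg hf e' hee' hs') (Z6_IsoSp_symm hiso)
    exact pron_neg1 (-1) f hf A hA Γ hS hgen e e' he he' hee hee' hs hs' g (hI hg) hge hn hP
  · intro hC
    refine h1 K V (-1) f A Γ hN ((le_max_left _ _).trans hq) two hf hA hC ?_ hS
      (hsq.trans inf_le_left)
    intro h
    exfalso
    apply two
    have : (2 : K) = 1 - (-1) := by norm_num
    rw [this, h, sub_self]

theorem absBD (N : ℕ) (hN : 3 ≤ N) : ∃ q0 : ℕ, ∀ (K V : Type) [Field K] [Finite K]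
    [AddCommGroup V] [Module K V] [FiniteDimensional K V] (f : V → V → K)
    (A : Subalgebra K (Module.End K V))
    (Γ : Subgroup (V ≃ₗ[K] V)), finrank K V = N → q0 ≤ Nat.card K → (2 : K) ≠ 0 →
    IsHF (RingHom.id K) 1 f → IsTor f A → ⁅SIsom f, SIsom f⁆ ≤ Γ → Γ ≤ Sim f →
    ¬ SinglePosEven f A →
    (IsPronormal ((torGL A).subgroupOf Γ) ↔ Crit f A ∧ OddPos f A) := by
  obtain ⟨q1, h1⟩ := pron_pos N
  obtain ⟨q2, h2⟩ := gen_tor N
  refine ⟨max (max q1 q2) 5, ?_⟩
  intro K V _ _ _ _ _ f A Γ hNV hq two hf hA hI hS hne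
  have h5 : 5 ≤ Nat.card K := (le_max_right _ _).trans hq
  have hq1 : q1 ≤ Nat.card K := ((le_max_left _ _).trans (le_max_left _ _)).trans hq
  have hq2 : q2 ≤ Nat.card K := ((le_max_right _ _).trans (le_max_left _ _)).trans hq
  have hV : 3 ≤ finrank K V := by rw [hNV]; exact hN
  have hEU : EU (RingHom.id K) 1 f ≤ Γ := (EU_le_comm two h5 f hf).trans hI
  have hsq : sq (tor (RingHom.id K) f A) ≤ Γ ⊓ torGL A :=
    Z6_sq_le fun g hg => hEU (sq_mem_EU two h5 f hf hV g hg)
  have hgen : A ≤ Algebra.adjoin K (EndSet (Γ ⊓ torGL A)) :=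
    (h2 K V 1 f A hNV hq2 two hf hA).trans (Z6_adjoin hsq)
  constructor
  · intro hP
    constructor
    · by_contra hC
      unfold Crit at hC
      push Not at hC
      obtain ⟨e, he, e', he', hee, hs, hee', hs', hiso, hn⟩ := hC
      obtain ⟨g, hg, hge⟩ := witt_EU two h5 f hf hV (LinearMap.range e') (LinearMap.range e)
        (Z6_nondeg hf e' hee' hs') (Z6_IsoSp_symm hiso)
      exact pron_neg1 1 f hf A hA Γ hS hgen e e' he he' hee hee' hs hs' g (hEU hg) hge hn hP
    · by_contra hO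
      unfold OddPos at hO
      push Not at hO
      obtain ⟨e, he, s, hs, hee, hadj, hes, h0, hprim, hodd⟩ := hO
      have hse : s * e = 0 := by rw [← hA.comm e he s hs, hes]
      have hiso : IsoIdem f A e s := ⟨he, hs, hee, hadj, hse⟩
      have hp : IsPrim A e := ⟨he, hee, h0, hprim⟩
      have heven : Even (finrank K (LinearMap.range e)) := by
        rwa [← Nat.not_odd_iff_even]
      have hes1 : e + s ≠ 1 := fun h => hne ⟨e, s, hiso, hp, heven, h⟩
      obtain ⟨-, hpp, hpadj, hss, -, -⟩ := isoIdem_p 1 f hf A hA e s hiso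
      have hp0 : (1 - e - s : Module.End K V) ≠ 0 := by
        intro h
        apply hes1
        have h' : (1 : Module.End K V) - (e + s) = 0 := by rw [← h]; abel
        exact (sub_eq_zero.1 h').symm
      obtain ⟨v, ⟨v', rfl⟩, hv⟩ := Z6_aniso two hf (1 - e - s) hpp hpadj hp0
      obtain ⟨u, hu, huv⟩ := Z6_value two hf e s hee hadj hss hes hse h0
        (f ((1 - e - s : Module.End K V) v') ((1 - e - s : Module.End K V) v'))
      obtain ⟨r, hr⟩ := Z6_refl hf u (by rw [huv]; exact hv)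
      obtain ⟨r', hr'⟩ := Z6_refl hf _ hv
      have hker : (e + s) ((1 - e - s : Module.End K V) v') = 0 := by
        rw [← Module.End.mul_apply]
        have : (e + s) * (1 - e - s) = 0 := by
          have : (e + s) * (1 - e - s) = (e - e * e - s * e) + (s - s * s - e * s) := by
            noncomm_ring
          rw [this, hee, hss, hes, hse]
          simp
        rw [this, LinearMap.zero_apply]
      exact pron_neg2 two f hf A hA Γ hS hgen e s hiso hp heven u _ r r' hr hr' hu hker
        (hEU (refl_same two h5 f hf hV u _ r r' hr hr' ⟨f u u, by rw [huv]⟩)) hP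
  · rintro ⟨hC, hO⟩
    exact h1 K V 1 f A Γ hNV hq1 two hf hA hC (fun _ => hO) hS (hsq.trans inf_le_left)

end Pool.Agent.CTO
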