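import Pool.Agent.CTO.X1
import Pool.Agent.CTO.Z6

/-!
# X5: positive cycles

The primitive idempotents of `TorAlg` are the `(1,0)` and `(0,1)` in the factors `P i × P i`, the `1` of `L j`, and
the `1` of the factors `K` of `K^ζ`; among these exactly the first ones are orthogonal to their adjoint, and the rank
of the multiplication by `(1,0)` is `[P i : K]`. So `OddPos f algA` iff all `[P i : K]` are odd; and
`SinglePosEven f algA` iff there is only one factor, of the form `P i × P i`, and `[P i : K]` is even.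
-/

namespace Pool.Agent.CTO

open Module

section

variable {K : Type} [Field K] [Finite K] {ι κ : Type} {ζ : Type} [Fintype ι] [Fintype κ]
  [Fintype ζ] {P : ι → Type} {L : κ → Type} [∀ i, Field (P i)] [∀ i, Algebra K (P i)]
  [∀ j, Field (L j)] [∀ j, Algebra K (L j)] [∀ i, FiniteDimensional K (P i)]
  [∀ j, FiniteDimensional K (L j)]

theorem x5_rk {V W : Type} [AddCommGroup V] [Module K V] [FiniteDimensional K V]
    [AddCommGroup W] [Module K W] (T : Module.End K V) (F : V →ₗ[K] W)
    (hF : Function.Surjective F) (h : ∀ v, F v = 0 ↔ T v = 0) :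
    finrank K (LinearMap.range T) = finrank K W := by
  have hker : LinearMap.ker F = LinearMap.ker T := by
    ext v
    exact h v
  have h1 := LinearMap.finrank_range_add_finrank_ker F
  have h2 := LinearMap.finrank_range_add_finrank_ker T
  rw [hker, LinearMap.range_eq_top.2 hF, finrank_top] at h1
  omega

open Classical in
/-- The element with the single component `u` at `i`. -/
noncomputable def x5s (K : Type) [Field K] {ι κ : Type} (ζ : Type) (P : ι → Type) (L : κ → Type)
    [∀ i, Field (P i)] [∀ i, Algebra K (P i)] [∀ j, Field (L j)] [∀ j, Algebra K (L j)]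
    (i : ι) (u : P i × P i) : TorAlg K ζ P L := ((Pi.single i u, 0), 0)

theorem x5s_same (i : ι) (u : P i × P i) : (x5s K ζ P L i u).1.1 i = u := by
  classical
  unfold x5s
  exact Pi.single_eq_same (M := fun i => P i × P i) i u

theorem x5s_ne (i k : ι) (hk : k ≠ i) (u : P i × P i) : (x5s K ζ P L i u).1.1 k = 0 := by
  classical
  unfold x5s
  exact Pi.single_eq_of_ne (M := fun i => P i × P i) hk u

theorem x5s_ext (i : ι) (u : P i × P i) (a : TorAlg K ζ P L) (h1 : a.1.1 i = u)
    (h2 : ∀ k, k ≠ i → a.1.1 k = 0) (h3 : ∀ j, a.1.2 j = 0) (h4 : ∀ z, a.2 z = 0) :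
    a = x5s K ζ P L i u := by
  refine Prod.ext (Prod.ext ?_ ?_) ?_
  · funext k
    by_cases hk : k = i
    · subst hk
      rw [h1, x5s_same]
    · rw [h2 k hk, x5s_ne i k hk]
  · funext j
    exact h3 j
  · funext z
    exact h4 z

theorem x5s_mul (i : ι) (u : P i × P i) (a : TorAlg K ζ P L) :
    a * x5s K ζ P L i u = x5s K ζ P L i (a.1.1 i * u) := by
  apply x5s_ext
  · change a.1.1 i * (x5s K ζ P L i u).1.1 i = _
    rw [x5s_same]
  · intro k hk
    change a.1.1 k * (x5s K ζ P L i u).1.1 k = _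
    rw [x5s_ne i k hk, mul_zero]
  · intro j
    change a.1.2 j * 0 = 0
    rw [mul_zero]
  · intro z
    change a.2 z * 0 = 0
    rw [mul_zero]

theorem x5s_star (τ : ∀ j, L j ≃ₐ[K] L j) (i : ι) (u : P i × P i) :
    starA ζ P τ (x5s K ζ P L i u) = x5s K ζ P L i u.swap := by
  apply x5s_ext
  · change ((x5s K ζ P L i u).1.1 i).swap = _
    rw [x5s_same]
  · intro k hk
    change ((x5s K ζ P L i u).1.1 k).swap = _
    rw [x5s_ne i k hk]
    rfl
  · intro j
    change τ j 0 = 0
    rw [map_zero]
  · intro z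
    rfl

theorem x5s_zero (i : ι) : x5s K ζ P L i 0 = 0 := by
  symm
  apply x5s_ext
  · rfl
  · intro k hk
    rfl
  · intro j
    rfl
  · intro z
    rfl

theorem x5s_inj (i : ι) (u v : P i × P i) (h : x5s K ζ P L i u = x5s K ζ P L i v) : u = v := by
  have h1 := congrFun (congrArg (fun t => t.1.1) h) i
  have h2 : (x5s K ζ P L i u).1.1 i = (x5s K ζ P L i v).1.1 i := h1
  rwa [x5s_same, x5s_same] at h2

theorem x5_rank1 (i : ι) :
    finrank K (LinearMap.range (Algebra.lmul K (TorAlg K ζ P L) (x5s K ζ P L i (1, 0)))) =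
      finrank K (P i) := by
  refine x5_rk _ ({ toFun := fun v => (v.1.1 i).1
                    map_add' := fun _ _ => rfl
                    map_smul' := fun _ _ => rfl } : TorAlg K ζ P L →ₗ[K] P i) ?_ ?_
  · intro x
    refine ⟨x5s K ζ P L i (x, 0), ?_⟩
    change ((x5s K ζ P L i (x, 0)).1.1 i).1 = x
    rw [x5s_same]
  · intro v
    have e1 : (Algebra.lmul K (TorAlg K ζ P L) (x5s K ζ P L i (1, 0))) v =
        x5s K ζ P L i ((v.1.1 i).1, 0) := by
      change x5s K ζ P L i (1, 0) * v = _
      rw [mul_comm, x5s_mul]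
      congr 1
      refine Prod.ext ?_ ?_
      · exact mul_one _
      · exact mul_zero _
    rw [e1]
    constructor
    · intro h
      have h' : (v.1.1 i).1 = 0 := h
      rw [h']
      exact x5s_zero i
    · intro h
      rw [← x5s_zero i] at h
      exact congrArg Prod.fst (x5s_inj i _ _ h)

theorem x5_rank2 (i : ι) :
    finrank K (LinearMap.range (Algebra.lmul K (TorAlg K ζ P L) (x5s K ζ P L i (0, 1)))) =
      finrank K (P i) := by
  refine x5_rk _ ({ toFun := fun v => (v.1.1 i).2
                    map_add' := fun _ _ => rfl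
                    map_smul' := fun _ _ => rfl } : TorAlg K ζ P L →ₗ[K] P i) ?_ ?_
  · intro x
    refine ⟨x5s K ζ P L i (0, x), ?_⟩
    change ((x5s K ζ P L i (0, x)).1.1 i).2 = x
    rw [x5s_same]
  · intro v
    have e1 : (Algebra.lmul K (TorAlg K ζ P L) (x5s K ζ P L i (0, 1))) v =
        x5s K ζ P L i (0, (v.1.1 i).2) := by
      change x5s K ζ P L i (0, 1) * v = _
      rw [mul_comm, x5s_mul]
      congr 1
      refine Prod.ext ?_ ?_
      · exact mul_zero _
      · exact mul_one _
    rw [e1]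
    constructor
    · intro h
      have h' : (v.1.1 i).2 = 0 := h
      rw [h']
      exact x5s_zero i
    · intro h
      rw [← x5s_zero i] at h
      exact congrArg Prod.snd (x5s_inj i _ _ h)

/-- the primitive idempotents orthogonal to their adjoints -/
theorem x5_class (τ : ∀ j, L j ≃ₐ[K] L j) (a : TorAlg K ζ P L) (haa : a * a = a) (ha0 : a ≠ 0)
    (horth : a * starA ζ P τ a = 0)
    (hprim : ∀ b : TorAlg K ζ P L, b * b = b → b * a = b → b = 0 ∨ b = a) :
    ∃ i, a = x5s K ζ P L i (1, 0) ∨ a = x5s K ζ P L i (0, 1) := by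
  have hj : ∀ j, a.1.2 j = 0 := by
    intro j
    have h1 : a.1.2 j * a.1.2 j = a.1.2 j := congrFun (congrArg (fun t => t.1.2) haa) j
    rcases x1_idem _ h1 with h2 | h2
    · exact h2
    · exfalso
      have h3 : a.1.2 j * τ j (a.1.2 j) = 0 := congrFun (congrArg (fun t => t.1.2) horth) j
      rw [h2, map_one, one_mul] at h3
      exact one_ne_zero h3
  have hz : ∀ z, a.2 z = 0 := by
    intro z
    have h3 : a.2 z * a.2 z = 0 := congrFun (congrArg (fun t => t.2) horth) z
    exact mul_self_eq_zero.1 h3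
  have hi : ∃ i, a.1.1 i ≠ 0 := by
    by_contra hcon
    push Not at hcon
    apply ha0
    refine Prod.ext (Prod.ext ?_ ?_) ?_
    · funext i
      exact hcon i
    · funext j
      exact hj j
    · funext z
      exact hz z
  obtain ⟨i, hi⟩ := hi
  have h1 : a.1.1 i * a.1.1 i = a.1.1 i := congrFun (congrArg (fun t => t.1.1) haa) i
  have h2 : (a.1.1 i).1 * (a.1.1 i).1 = (a.1.1 i).1 := congrArg Prod.fst h1
  have h3 : (a.1.1 i).2 * (a.1.1 i).2 = (a.1.1 i).2 := congrArg Prod.snd h1
  refine ⟨i, ?_⟩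
  have key : ∀ u : P i × P i, u ≠ 0 → u * u = u → u * a.1.1 i = u → a = x5s K ζ P L i u := by
    intro u hu0 huu hua
    have e1 : x5s K ζ P L i u * x5s K ζ P L i u = x5s K ζ P L i u := by
      rw [x5s_mul, x5s_same, huu]
    have e2 : x5s K ζ P L i u * a = x5s K ζ P L i u := by
      rw [mul_comm, x5s_mul, mul_comm (a.1.1 i) u, hua]
    rcases hprim _ e1 e2 with e3 | e3
    · exfalso
      rw [← x5s_zero i] at e3
      exact hu0 (x5s_inj i _ _ e3)
    · exact e3.symm
  rcases x1_idem _ h2 with h4 | h4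
  · rcases x1_idem _ h3 with h5 | h5
    · exact absurd (Prod.ext h4 h5) hi
    · right
      apply key
      · intro h6
        exact one_ne_zero (congrArg Prod.snd h6)
      · exact Prod.ext (mul_zero _) (mul_one _)
      · refine Prod.ext (zero_mul _) ?_
        change 1 * (a.1.1 i).2 = 1
        rw [h5, mul_one]
  · left
    apply key
    · intro h6
      exact one_ne_zero (congrArg Prod.fst h6)
    · exact Prod.ext (mul_one _) (mul_zero _)
    · refine Prod.ext ?_ (zero_mul _)
      change 1 * (a.1.1 i).1 = 1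
      rw [h4, mul_one]

theorem x5_prim (i : ι) (b : TorAlg K ζ P L) (hbb : b * b = b)
    (hb : b * x5s K ζ P L i (1, 0) = b) : b = 0 ∨ b = x5s K ζ P L i (1, 0) := by
  rw [x5s_mul] at hb
  have h1 : b.1.1 i * b.1.1 i = b.1.1 i := congrFun (congrArg (fun t => t.1.1) hbb) i
  have h2 : (b.1.1 i).1 * (b.1.1 i).1 = (b.1.1 i).1 := congrArg Prod.fst h1
  have h3 : b.1.1 i * (1, 0) = ((b.1.1 i).1, 0) := Prod.ext (mul_one _) (mul_zero _)
  rw [h3] at hb
  rcases x1_idem _ h2 with h4 | h4
  · left
    rw [← hb, h4]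
    exact x5s_zero i
  · right
    rw [← hb, h4]

theorem x5_lm (a : TorAlg K ζ P L) (h : Algebra.lmul K (TorAlg K ζ P L) a = 0) : a = 0 := by
  apply x1_inj
  rw [h, map_zero]

theorem oddPos_iff (ε : K) (f : TorAlg K ζ P L → TorAlg K ζ P L → K)
    (hf : IsHF (RingHom.id K) ε f) (τ : ∀ j, L j ≃ₐ[K] L j) (had : Adapted τ f) :
    OddPos f (algA K ζ P L) ↔ ∀ i, Odd (finrank K (P i)) := by
  constructor
  · intro h i
    rw [← x5_rank1 (K := K) (ζ := ζ) (P := P) (L := L) i]
    have hadj : IsAdj f (Algebra.lmul K (TorAlg K ζ P L) (x5s K ζ P L i (1, 0)))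
        (Algebra.lmul K (TorAlg K ζ P L) (x5s K ζ P L i (0, 1))) := by
      refine (adj_iff ε f hf τ had _ _).2 ?_
      rw [x5s_star]
      rfl
    refine h _ ⟨_, rfl⟩ _ ⟨_, rfl⟩ ?_ hadj ?_ ?_ ?_
    · rw [← map_mul, x5s_mul, x5s_same]
      congr 2
      exact Prod.ext (mul_one _) (mul_zero _)
    · change Algebra.lmul K (TorAlg K ζ P L) (x5s K ζ P L i (1, 0)) *
        Algebra.lmul K (TorAlg K ζ P L) (x5s K ζ P L i (0, 1)) = 0
      rw [← map_mul, x5s_mul, x5s_same]
      have e1 : ((1, 0) : P i × P i) * (0, 1) = 0 := Prod.ext (mul_zero _) (zero_mul _)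
      rw [e1, x5s_zero, map_zero]
    · intro h0
      have h1 := x5_lm _ h0
      rw [← x5s_zero i] at h1
      exact one_ne_zero (congrArg Prod.fst (x5s_inj i _ _ h1))
    · rintro _ ⟨b, rfl⟩ hb1 hb2
      have e1 : b * b = b := by
        apply x1_inj
        rw [map_mul]
        exact hb1
      have e2 : b * x5s K ζ P L i (1, 0) = b := by
        apply x1_inj
        rw [map_mul]
        exact hb2
      rcases x5_prim i b e1 e2 with e3 | e3
      · left
        rw [e3]
        exact map_zero _
      · right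
        rw [e3]
        rfl
  · intro h
    rintro _ ⟨a, rfl⟩ _ ⟨b, rfl⟩ haa hadj hab ha0 hprim
    have hb : b = starA ζ P τ a := (adj_iff ε f hf τ had a b).1 hadj
    have e1 : a * a = a := by
      apply x1_inj
      rw [map_mul]
      exact haa
    have e2 : a * starA ζ P τ a = 0 := by
      apply x1_inj
      rw [map_mul, ← hb, map_zero]
      exact hab
    have e3 : a ≠ 0 := by
      rintro rfl
      exact ha0 (map_zero _)
    obtain ⟨i, hi⟩ := x5_class τ a e1 e3 e2 (by
      intro c hc1 hc2
      rcases hprim (Algebra.lmul K (TorAlg K ζ P L) c) ⟨c, rfl⟩ (by rw [← map_mul, hc1])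
        (by
          change Algebra.lmul K (TorAlg K ζ P L) c * Algebra.lmul K (TorAlg K ζ P L) a = _
          rw [← map_mul, hc2]) with h1 | h1
      · exact Or.inl (x5_lm _ h1)
      · exact Or.inr (x1_inj _ _ h1))
    rcases hi with rfl | rfl
    · change Odd (finrank K (LinearMap.range (Algebra.lmul K (TorAlg K ζ P L) _)))
      rw [x5_rank1]
      exact h i
    · change Odd (finrank K (LinearMap.range (Algebra.lmul K (TorAlg K ζ P L) _)))
      rw [x5_rank2]
      exact h i

theorem singlePosEven_iff (ε : K) (f : TorAlg K ζ P L → TorAlg K ζ P L → K)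
    (hf : IsHF (RingHom.id K) ε f) (τ : ∀ j, L j ≃ₐ[K] L j) (had : Adapted τ f) :
    SinglePosEven f (algA K ζ P L) ↔
      IsEmpty κ ∧ IsEmpty ζ ∧ ∃ i0, (∀ i, i = i0) ∧ Even (finrank K (P i0)) := by
  constructor
  · rintro ⟨e, s, ⟨he, hs, -, hadj, horth⟩, ⟨-, hee, he0, hprim⟩, heven, hsum⟩
    obtain ⟨a, rfl⟩ := he
    obtain ⟨b, rfl⟩ := hs
    have hb : b = starA ζ P τ a := (adj_iff ε f hf τ had a b).1 hadj
    have e1 : a * a = a := by
      apply x1_inj
      rw [map_mul]
      exact hee
    have e2 : a * starA ζ P τ a = 0 := by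
      apply x1_inj
      rw [mul_comm, map_mul, ← hb, map_zero]
      exact horth
    have e3 : a ≠ 0 := by
      rintro rfl
      exact he0 (map_zero _)
    obtain ⟨i, hi⟩ := x5_class τ a e1 e3 e2 (by
      intro c hc1 hc2
      rcases hprim (Algebra.lmul K (TorAlg K ζ P L) c) ⟨c, rfl⟩ (by rw [← map_mul, hc1])
        (by
          change Algebra.lmul K (TorAlg K ζ P L) c * Algebra.lmul K (TorAlg K ζ P L) a = _
          rw [← map_mul, hc2]) with h1 | h1
      · exact Or.inl (x5_lm _ h1)
      · exact Or.inr (x1_inj _ _ h1))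
    have h1 : a + starA ζ P τ a = 1 := by
      apply x1_inj
      rw [map_add, map_one, ← hb]
      exact hsum
    have hrank : Even (finrank K (P i)) := by
      rcases hi with rfl | rfl
      · have h2 : Even (finrank K (LinearMap.range
          (Algebra.lmul K (TorAlg K ζ P L) (x5s K ζ P L i (1, 0))))) := heven
        rwa [x5_rank1] at h2
      · have h2 : Even (finrank K (LinearMap.range
          (Algebra.lmul K (TorAlg K ζ P L) (x5s K ζ P L i (0, 1))))) := heven
        rwa [x5_rank2] at h2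
    obtain ⟨u, hu⟩ : ∃ u : P i × P i, a = x5s K ζ P L i u := by
      rcases hi with h2 | h2
      · exact ⟨_, h2⟩
      · exact ⟨_, h2⟩
    rw [hu, x5s_star] at h1
    refine ⟨⟨fun j => ?_⟩, ⟨fun z => ?_⟩, i, fun k => ?_, hrank⟩
    · have h3 : (0 : L j) + 0 = 1 := congrFun (congrArg (fun t => t.1.2) h1) j
      rw [add_zero] at h3
      exact zero_ne_one h3
    · have h3 : (0 : K) + 0 = 1 := congrFun (congrArg (fun t => t.2) h1) z
      rw [add_zero] at h3
      exact zero_ne_one h3
    · by_contra hk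
      have h3 : (x5s K ζ P L i u).1.1 k + (x5s K ζ P L i u.swap).1.1 k = 1 :=
        congrFun (congrArg (fun t => t.1.1) h1) k
      rw [x5s_ne i k hk, x5s_ne i k hk, add_zero] at h3
      exact zero_ne_one (congrArg Prod.fst h3)
  · rintro ⟨hκ, hζ, i, hi, heven⟩
    have e1 : x5s K ζ P L i (1, 0) * x5s K ζ P L i (1, 0) = x5s K ζ P L i (1, 0) := by
      rw [x5s_mul, x5s_same]
      congr 1
      exact Prod.ext (mul_one _) (mul_zero _)
    refine ⟨Algebra.lmul K (TorAlg K ζ P L) (x5s K ζ P L i (1, 0)),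
      Algebra.lmul K (TorAlg K ζ P L) (x5s K ζ P L i (0, 1)),
      ⟨⟨_, rfl⟩, ⟨_, rfl⟩, ?_, ?_, ?_⟩, ⟨⟨_, rfl⟩, ?_, ?_, ?_⟩, ?_, ?_⟩
    · rw [← map_mul, e1]
    · refine (adj_iff ε f hf τ had _ _).2 ?_
      rw [x5s_star]
      rfl
    · rw [← map_mul, x5s_mul, x5s_same]
      have e2 : ((0, 1) : P i × P i) * (1, 0) = 0 := Prod.ext (zero_mul _) (mul_zero _)
      rw [e2, x5s_zero, map_zero]
    · rw [← map_mul, e1]
    · intro h0
      have h1 := x5_lm _ h0
      rw [← x5s_zero i] at h1
      exact one_ne_zero (congrArg Prod.fst (x5s_inj i _ _ h1))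
    · rintro _ ⟨b, rfl⟩ hb1 hb2
      have e1 : b * b = b := by
        apply x1_inj
        rw [map_mul]
        exact hb1
      have e2 : b * x5s K ζ P L i (1, 0) = b := by
        apply x1_inj
        rw [map_mul]
        exact hb2
      rcases x5_prim i b e1 e2 with e3 | e3
      · left
        rw [e3]
        exact map_zero _
      · right
        rw [e3]
        rfl
    · rw [x5_rank1]
      exact heven
    · rw [← map_add]
      have e2 : x5s K ζ P L i (1, 0) + x5s K ζ P L i (0, 1) = 1 := by
        refine Prod.ext (Prod.ext ?_ ?_) ?_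
        · funext k
          rw [hi k]
          change (x5s K ζ P L i (1, 0)).1.1 i + (x5s K ζ P L i (0, 1)).1.1 i = 1
          rw [x5s_same, x5s_same]
          exact Prod.ext (add_zero _) (zero_add _)
        · funext j
          exact (hκ.false j).elim
        · funext z
          exact (hζ.false z).elim
      rw [e2, map_one]

end

end Pool.Agent.CTO
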