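import Pool.Agent.CTO.X2
import Pool.Agent.CTO.Y1

/-!
# X4: the criterion in the orthogonal case

`ε = 1`. For `k ∈ ι ⊕ κ` let `B_k = e_k TorAlg` (`e_k = eSZ {k} ∅`), `a = lenA k`, `dim B_k = 2 a`. Claim: the Gram
determinant of `f` on `B_k` (in any basis) is `(-1)^a` times a square if `k` is positive and `(-1)^a` times a
nonsquare if `k` is negative. Proof: `ψ(x) = f(x, e_k)` for `x ∈ B_k`, `f(x, y) = ψ(y* x)`, `ψ(x*) = ψ(x)`. Let
`S0 = {x ∈ B_k | x* = x}`, a field of degree `a` (the diagonal of `P i × P i`; the fixed field of `τ j`), `δ` a skew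
unit of `B_k` (`(1,-1)`; `x - τ x`), `B_k = S0 ⊕ S0 δ`. With a `K`-basis `s_i` of `S0`: in the basis `s_i, s_i δ` the
Gram matrix is block diagonal with blocks `ψ(s_i s_j)` and `ψ(- δ² s_i s_j)`, and
`det ψ(- δ² s_i s_j) = N_{S0/K}(- δ²) det ψ(s_i s_j)`. So the Gram determinant is `(-1)^a N(δ²)` times a
square. Positive: `δ² = 1`. Negative: `δ² ∈ S0` is not a square in `S0` (else `δ ∈ S0`), so `N(δ²)` is not a square
in `K` (`N(x) = x^((q^a-1)/(q-1))`).
The restriction of `f` to `range (mSZ S Z)` is the orthogonal sum of the `B_k`, `k ∈ S`, and of `K^Z`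
(`|Z| ≤ 1`; Gram determinant `c` the same for both if `Z = Z'`); so its Gram determinant is
`(-1)^(∑ lenA) ν^(number of negative k in S) c^|Z|` times a square, `ν` a nonsquare.
So `IsoSp f (range (mSZ S Z)) (range (mSZ S' Z'))` iff `|Z| = |Z'|`, `∑_S lenA = ∑_S' lenA` and the numbers of
negative `k` in `S`, `S'` have the same parity (`iso_sym`, `disc_iso`, `rank_mSZ`). With `siso_iff` this gives
`Crit f algA ↔ DistinctBD`.
-/

namespace Pool.Agent.CTO

open Module

/-! ### The quadratic character -/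

section chi

variable {K : Type} [Field K] [Finite K]

open Classical in
/-- The quadratic character. -/
noncomputable def X4_chi (x : K) : ℤ :=
  let _ : Fintype K := Fintype.ofFinite K
  quadraticChar K x

open Classical in
lemma X4_chi_mul (x y : K) : X4_chi (x * y) = X4_chi x * X4_chi y := by
  unfold X4_chi
  exact map_mul _ _ _

open Classical in
lemma X4_chi_one_iff {x : K} (hx : x ≠ 0) : X4_chi x = 1 ↔ IsSquare x := by
  unfold X4_chi
  let _ : Fintype K := Fintype.ofFinite K
  exact quadraticChar_one_iff_isSquare hx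

open Classical in
lemma X4_chi_or {x : K} (hx : x ≠ 0) : X4_chi x = 1 ∨ X4_chi x = -1 := by
  unfold X4_chi
  let _ : Fintype K := Fintype.ofFinite K
  exact quadraticChar_dichotomy hx

lemma X4_chi_sq {x : K} (hx : x ≠ 0) : X4_chi x * X4_chi x = 1 := by
  rcases X4_chi_or hx with h | h <;> rw [h] <;> norm_num

lemma X4_chi_eq_iff {x y : K} (hx : x ≠ 0) (hy : y ≠ 0) : IsSquare (x * y) ↔ X4_chi x = X4_chi y := by
  rw [← X4_chi_one_iff (mul_ne_zero hx hy), X4_chi_mul]
  rcases X4_chi_or hx with h | h <;> rcases X4_chi_or hy with h' | h' <;> rw [h, h'] <;> norm_num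

lemma X4_chi_one : X4_chi (1 : K) = 1 :=
  (X4_chi_one_iff one_ne_zero).2 ⟨1, (mul_one 1).symm⟩

lemma X4_chi_pow (x : K) (n : ℕ) : X4_chi (x ^ n) = X4_chi x ^ n := by
  induction n with
  | zero => rw [pow_zero, pow_zero, X4_chi_one]
  | succ n ih => rw [pow_succ, pow_succ, X4_chi_mul, ih]

end chi

/-! ### Gram determinants with arbitrary index types -/

section gram

variable {K : Type} [Field K]

/-- The Gram determinant of a family. -/
noncomputable def X4_gr {W J : Type} [Fintype J] [DecidableEq J] (f : W → W → K) (b : J → W) : K :=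
  Matrix.det (Matrix.of fun i j => f (b i) (b j))

lemma X4_gr_reindex {W J J' : Type} [Fintype J] [DecidableEq J] [Fintype J'] [DecidableEq J']
    (f : W → W → K) (b : J → W) (e : J' ≃ J) : X4_gr f (fun i => b (e i)) = X4_gr f b := by
  unfold X4_gr
  exact Matrix.det_submatrix_equiv_self e (Matrix.of fun i j => f (b i) (b j))

variable {W : Type} [AddCommGroup W] [Module K W] {f : W → W → K}

lemma X4_symm (hf : IsHF (RingHom.id K) 1 f) (v w : W) : f w v = f v w := by
  rw [hf.herm v w, one_mul, RingHom.id_apply]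

lemma X4_add_right (hf : IsHF (RingHom.id K) 1 f) (v w w' : W) : f v (w + w') = f v w + f v w' := by
  rw [X4_symm hf (w + w') v, hf.add_left, X4_symm hf w v, X4_symm hf w' v]

lemma X4_smul_right (hf : IsHF (RingHom.id K) 1 f) (a : K) (v w : W) : f v (a • w) = a * f v w := by
  rw [X4_symm hf (a • w) v, hf.smul_left, X4_symm hf w v]

/-- The bilinear map. -/
noncomputable def X4_bil (hf : IsHF (RingHom.id K) 1 f) : W →ₗ[K] W →ₗ[K] K :=
  LinearMap.mk₂ K f hf.add_left (fun c v w => hf.smul_left c v w) (X4_add_right hf)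
    (fun c v w => X4_smul_right hf c v w)

lemma X4_bil_apply (hf : IsHF (RingHom.id K) 1 f) (v w : W) : X4_bil hf v w = f v w := rfl

lemma X4_gr_ne {J : Type} [Fintype J] [DecidableEq J] (hf : IsHF (RingHom.id K) 1 f)
    (b : Basis J K W) : X4_gr f b ≠ 0 := by
  intro h0
  obtain ⟨c, hc, hc0⟩ := Matrix.exists_vecMul_eq_zero_iff.2 h0
  apply hc
  have h1 : ∑ i, c i • b i = 0 := by
    apply hf.nondeg
    intro w
    rw [← X4_bil_apply hf, ← b.sum_repr w]
    simp only [map_sum, map_smul, LinearMap.sum_apply, LinearMap.smul_apply, X4_bil_apply]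
    refine Finset.sum_eq_zero fun j _ => ?_
    have h2 := congrFun hc0 j
    simp only [Matrix.vecMul, dotProduct, Matrix.of_apply, Pi.zero_apply] at h2
    simp only [smul_eq_mul]
    rw [h2, mul_zero]
  exact funext fun i => (Fintype.linearIndependent_iff.1 b.linearIndependent c h1) i

end gram

section disc

variable {K : Type} [Field K] [Finite K]

/-- The discriminant class of a form. -/
noncomputable def X4_c (K : Type) [Field K] [Finite K] {W : Type} [AddCommGroup W] [Module K W]
    [FiniteDimensional K W] (f : W → W → K) : ℤ := X4_chi (X4_gr f (finBasis K W))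

variable {W : Type} [AddCommGroup W] [Module K W] [FiniteDimensional K W] {f : W → W → K}

lemma X4_c_eq {J : Type} [Fintype J] [DecidableEq J] (hf : IsHF (RingHom.id K) 1 f)
    (b : Basis J K W) : X4_chi (X4_gr f b) = X4_c K f := by
  have hcard : Fintype.card J = finrank K W := (finrank_eq_card_basis b).symm
  obtain ⟨e⟩ : Nonempty (J ≃ Fin (finrank K W)) := ⟨Fintype.equivFinOfCardEq hcard⟩
  have h1 : X4_gr f (b.reindex e) = X4_gr f b := by
    rw [← X4_gr_reindex f b e.symm]
    unfold X4_gr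
    congr 1
    ext i j
    simp only [Matrix.of_apply, Basis.reindex_apply]
  have h2 : IsSquare (gram f (b.reindex e) * gram f (finBasis K W)) :=
    disc_iso K W W 1 f f hf hf (b.reindex e) (finBasis K W) (LinearEquiv.refl K W)
      (fun v w => rfl)
  have h3 : X4_chi (X4_gr f (b.reindex e)) = X4_chi (X4_gr f (finBasis K W)) :=
    (X4_chi_eq_iff (X4_gr_ne hf _) (X4_gr_ne hf _)).1 h2
  rw [h1] at h3
  exact h3

lemma X4_c_or (hf : IsHF (RingHom.id K) 1 f) : X4_c K f = 1 ∨ X4_c K f = -1 :=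
  X4_chi_or (X4_gr_ne hf _)

lemma X4_iso_iff {W' : Type} [AddCommGroup W'] [Module K W'] [FiniteDimensional K W']
    {f' : W' → W' → K} (two : (2 : K) ≠ 0) (hf : IsHF (RingHom.id K) 1 f)
    (hf' : IsHF (RingHom.id K) 1 f') :
    (∃ φ : W ≃ₗ[K] W', ∀ v w, f' (φ v) (φ w) = f v w) ↔
      (finrank K W = finrank K W' ∧ X4_c K f = X4_c K f') := by
  constructor
  · rintro ⟨φ, hφ⟩
    refine ⟨φ.finrank_eq, ?_⟩
    rw [← X4_c_eq hf' ((finBasis K W).map φ)]
    unfold X4_c X4_gr
    congr 2
    ext i j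
    simp only [Matrix.of_apply, Basis.map_apply, hφ]
  · rintro ⟨h1, h2⟩
    have h3 : IsSquare (gram f (finBasis K W) *
        gram f' ((finBasis K W').reindex (finCongr h1.symm))) := by
      refine (X4_chi_eq_iff (X4_gr_ne hf (finBasis K W))
        (X4_gr_ne hf' ((finBasis K W').reindex (finCongr h1.symm)))).2 ?_
      rw [X4_c_eq hf', X4_c_eq hf, h2]
    exact iso_sym K W W' two f f' hf hf' _ _ h3

/-- The class of an orthogonal sum. -/
lemma X4_c_sum {W₁ W₂ : Type} [AddCommGroup W₁] [Module K W₁] [FiniteDimensional K W₁]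
    [AddCommGroup W₂] [Module K W₂] [FiniteDimensional K W₂] {f₁ : W₁ → W₁ → K}
    {f₂ : W₂ → W₂ → K} (hf : IsHF (RingHom.id K) 1 f)
    (Θ : (W₁ × W₂) ≃ₗ[K] W)
    (e₁ : ∀ x y, f (Θ (x, 0)) (Θ (y, 0)) = f₁ x y) (e₂ : ∀ x y, f (Θ (0, x)) (Θ (0, y)) = f₂ x y)
    (e₃ : ∀ x y, f (Θ (x, 0)) (Θ (0, y)) = 0) : X4_c K f = X4_c K f₁ * X4_c K f₂ := by
  rw [← X4_c_eq hf (((finBasis K W₁).prod (finBasis K W₂)).map Θ)]
  unfold X4_c
  rw [← X4_chi_mul]
  congr 1
  unfold X4_gr
  rw [← Matrix.det_fromBlocks_zero₂₁ _ 0 _]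
  congr 1
  ext i j
  rcases i with i | i <;> rcases j with j | j
  · simp only [Matrix.of_apply, Basis.map_apply, Basis.prod_apply, Sum.elim_inl, Function.comp,
      LinearMap.coe_inl, Matrix.fromBlocks_apply₁₁, e₁]
  · simp only [Matrix.of_apply, Basis.map_apply, Basis.prod_apply, Sum.elim_inl, Sum.elim_inr,
      Function.comp, LinearMap.coe_inl, LinearMap.coe_inr, Matrix.fromBlocks_apply₁₂, e₃,
      Matrix.zero_apply]
  · simp only [Matrix.of_apply, Basis.map_apply, Basis.prod_apply, Sum.elim_inl, Sum.elim_inr,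
      Function.comp, LinearMap.coe_inl, LinearMap.coe_inr, Matrix.fromBlocks_apply₂₁,
      Matrix.zero_apply]
    rw [X4_symm hf, e₃]
  · simp only [Matrix.of_apply, Basis.map_apply, Basis.prod_apply, Sum.elim_inr, Function.comp,
      LinearMap.coe_inr, Matrix.fromBlocks_apply₂₂, e₂]

/-- The class of a form with a splitting `B = S + δ S`. -/
lemma X4_piece (two : (2 : K) ≠ 0) {B S : Type} [CommRing B] [Algebra K B] [CommRing S]
    [Algebra K S] [FiniteDimensional K S] (hf : IsHF (RingHom.id K) 1 f) (Φ : B ≃ₗ[K] W)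
    (st : B ≃ₐ[K] B) (ψ : B →ₗ[K] K) (hψ : ∀ x y, f (Φ x) (Φ y) = ψ (st x * y))
    (hψs : ∀ u, ψ (st u) = ψ u) (j : S →ₐ[K] B) (hj : ∀ x, st (j x) = j x) (δ : B)
    (hδ : st δ = -δ) (d : S) (hd : δ * δ = j d) (Θ : (S × S) ≃ₗ[K] B)
    (hΘ : ∀ x y, Θ (x, y) = j x + δ * j y) :
    X4_c K f = X4_chi (Algebra.norm K (-d)) := by
  obtain ⟨s, -⟩ : ∃ s : Basis (Fin (finrank K S)) K S, True := ⟨finBasis K S, trivial⟩
  have hz : ∀ u, st u = -u → ψ u = 0 := by
    intro u hu
    have h1 := hψs u
    rw [hu, map_neg] at h1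
    have h2 : (2 : K) * ψ u = 0 := by linear_combination -h1
    exact (mul_eq_zero.1 h2).resolve_left two
  have hgr : X4_gr f ((s.prod s).map (Θ.trans Φ)) =
      X4_gr (fun x y => ψ (j x * j y)) s *
        (X4_gr (fun x y => ψ (j x * j y)) s * Algebra.norm K (-d)) := by
    rw [Algebra.norm_eq_matrix_det s, X4_gr, X4_gr, ← Matrix.det_mul,
      ← Matrix.det_fromBlocks_zero₂₁ _ 0 _]
    congr 1
    ext i k
    rcases i with i | i <;> rcases k with k | k
    · simp only [Matrix.of_apply, Basis.map_apply, Basis.prod_apply, Sum.elim_inl, Function.comp,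
        LinearMap.coe_inl, Matrix.fromBlocks_apply₁₁, LinearEquiv.trans_apply, hΘ, hψ, map_zero,
        mul_zero, add_zero, hj]
    · simp only [Matrix.of_apply, Basis.map_apply, Basis.prod_apply, Sum.elim_inl, Sum.elim_inr,
        Function.comp, LinearMap.coe_inl, LinearMap.coe_inr, Matrix.fromBlocks_apply₁₂,
        LinearEquiv.trans_apply, hΘ, hψ, map_zero, mul_zero, add_zero, zero_add, hj,
        Matrix.zero_apply]
      apply hz
      rw [map_mul, map_mul, hj, hj, hδ]
      ring
    · simp only [Matrix.of_apply, Basis.map_apply, Basis.prod_apply, Sum.elim_inl, Sum.elim_inr,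
        Function.comp, LinearMap.coe_inl, LinearMap.coe_inr, Matrix.fromBlocks_apply₂₁,
        LinearEquiv.trans_apply, hΘ, hψ, map_zero, mul_zero, add_zero, zero_add,
        Matrix.zero_apply]
      apply hz
      simp only [map_mul, hj, hδ, map_neg]
      ring
    · simp only [Matrix.of_apply, Basis.map_apply, Basis.prod_apply, Sum.elim_inr,
        Function.comp, LinearMap.coe_inr, Matrix.fromBlocks_apply₂₂,
        LinearEquiv.trans_apply, hΘ, hψ, map_zero, zero_add, map_mul, hj, hδ, Matrix.mul_apply,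
        Algebra.leftMulMatrix_eq_repr_mul]
      have h1 : (-d) * s k = ∑ l, (s.repr ((-d) * s k) l) • s l := (s.sum_repr _).symm
      have h2 : -δ * j (s i) * (δ * j (s k)) = j (s i) * j ((-d) * s k) := by
        rw [map_mul, map_neg, ← hd]
        ring
      rw [h2]
      conv_lhs => rw [h1]
      rw [map_sum, Finset.mul_sum, map_sum]
      refine Finset.sum_congr rfl fun l _ => ?_
      rw [map_smul, mul_smul_comm, map_smul, smul_eq_mul, mul_comm]
  have hne : X4_gr f ((s.prod s).map (Θ.trans Φ)) ≠ 0 := X4_gr_ne hf _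
  have hG : X4_gr (fun x y => ψ (j x * j y)) s ≠ 0 := by
    intro h0
    rw [h0, zero_mul] at hgr
    exact hne hgr
  rw [← X4_c_eq hf ((s.prod s).map (Θ.trans Φ)), hgr, ← mul_assoc, X4_chi_mul, X4_chi_mul,
    X4_chi_sq hG, one_mul]

end disc

/-! ### The norm of a nonsquare -/

section norm

variable {K : Type} [Field K] [Finite K]

lemma X4_ringChar (two : (2 : K) ≠ 0) : ringChar K ≠ 2 := by
  intro h
  apply two
  have h1 := ringChar.Nat.cast_ringChar (R := K)
  rw [h] at h1
  exact_mod_cast h1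

lemma X4_norm {S : Type} [Field S] [Algebra K S] [FiniteDimensional K S] (two : (2 : K) ≠ 0)
    (d : S) (hd : ¬ IsSquare d) : X4_chi (Algebra.norm K d) = -1 := by
  have hd0 : d ≠ 0 := by
    rintro rfl
    exact hd ⟨0, (mul_zero 0).symm⟩
  have hS : Finite S := Module.finite_of_finite K
  have hn0 : Algebra.norm K d ≠ 0 := Algebra.norm_ne_zero_iff.2 hd0
  refine (X4_chi_or hn0).resolve_left fun h1 => hd ?_
  rw [X4_chi_one_iff hn0] at h1
  have hK : Fintype K := Fintype.ofFinite K
  have hSf : Fintype S := Fintype.ofFinite S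
  have two' : (2 : S) ≠ 0 := by
    have h2 : algebraMap K S 2 = (2 : S) := map_ofNat _ 2
    rw [← h2]
    exact fun h0 => two ((map_eq_zero _).1 h0)
  have hrK := X4_ringChar two
  have hrS := X4_ringChar two'
  rw [FiniteField.isSquare_iff hrK hn0] at h1
  rw [FiniteField.isSquare_iff hrS hd0]
  have h3 := congrArg (algebraMap K S) h1
  rw [map_pow, FiniteField.algebraMap_norm_eq_pow, map_one, ← pow_mul] at h3
  have hq := FiniteField.odd_card_of_char_ne_two hrK
  have hQ := FiniteField.odd_card_of_char_ne_two hrS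
  have hq1 : 1 < Fintype.card K := Fintype.one_lt_card
  have hdvd : Fintype.card K - 1 ∣ Fintype.card S - 1 := by
    rw [Module.card_eq_pow_finrank (K := K) (V := S)]
    simpa only [one_pow] using Nat.sub_dvd_pow_sub_pow (Fintype.card K) 1 (finrank K S)
  have hexp : (Nat.card S - 1) / (Nat.card K - 1) * (Fintype.card K / 2) = Fintype.card S / 2 := by
    rw [Nat.card_eq_fintype_card, Nat.card_eq_fintype_card]
    obtain ⟨t, ht⟩ := hdvd
    have hq2 : Fintype.card K / 2 * 2 = Fintype.card K - 1 := by omega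
    have hQ2 : Fintype.card S / 2 * 2 = Fintype.card S - 1 := by omega
    rw [ht, Nat.mul_div_cancel_left _ (by omega)]
    apply Nat.eq_of_mul_eq_mul_right (show 0 < 2 by norm_num)
    rw [hQ2, ht, mul_assoc, hq2, mul_comm]
  rw [hexp] at h3
  exact h3

lemma X4_norm_neg {S : Type} [Field S] [Algebra K S] [FiniteDimensional K S] (d : S) :
    X4_chi (Algebra.norm K (-d)) = X4_chi (-1 : K) ^ finrank K S * X4_chi (Algebra.norm K d) := by
  have h1 : -d = algebraMap K S (-1) * d := by
    rw [map_neg, map_one, neg_one_mul]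
  rw [h1, map_mul, Algebra.norm_algebraMap, X4_chi_mul, X4_chi_pow]

end norm

/-! ### Ranges of selfadjoint idempotents -/

section range

variable {K V : Type} [Field K] [AddCommGroup V] [Module K V] {f : V → V → K}

lemma X4_mem_range {e : Module.End K V} (he : e * e = e) (v : V) :
    v ∈ LinearMap.range e ↔ e v = v := by
  constructor
  · rintro ⟨u, rfl⟩
    exact LinearMap.congr_fun he u
  · intro h
    exact ⟨v, h⟩

lemma X4_res (hf : IsHF (RingHom.id K) 1 f) {e : Module.End K V} (he : e * e = e)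
    (ha : IsAdj f e e) : IsHF (RingHom.id K) 1 (resF f (LinearMap.range e)) where
  invol := fun _ => rfl
  eps := Or.inl rfl
  add_left := fun u v w => hf.add_left u v w
  smul_left := fun a v w => hf.smul_left a v w
  herm := fun v w => hf.herm v w
  nondeg := by
    intro v hv
    apply Subtype.ext
    apply hf.nondeg
    intro w
    have h1 : e (v : V) = v := (X4_mem_range he _).1 v.2
    rw [← h1, ha]
    exact hv ⟨e w, ⟨w, rfl⟩⟩

/-- The range of a sum of orthogonal idempotents. -/
noncomputable def X4_sumEquiv {e e₁ e₂ : Module.End K V} (h : e = e₁ + e₂) (h₁₁ : e₁ * e₁ = e₁)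
    (h₂₂ : e₂ * e₂ = e₂) (h₁₂ : e₁ * e₂ = 0) (h₂₁ : e₂ * e₁ = 0) :
    (LinearMap.range e₁ × LinearMap.range e₂) ≃ₗ[K] LinearMap.range e where
  toFun p := ⟨(p.1 : V) + p.2, by
    have a1 := (X4_mem_range h₁₁ _).1 p.1.2
    have a2 := (X4_mem_range h₂₂ _).1 p.2.2
    have b1 : e₂ (p.1 : V) = 0 := by
      rw [← a1]
      exact LinearMap.congr_fun h₂₁ _
    have b2 : e₁ (p.2 : V) = 0 := by
      rw [← a2]
      exact LinearMap.congr_fun h₁₂ _
    refine ⟨(p.1 : V) + p.2, ?_⟩
    rw [h, LinearMap.add_apply, map_add, map_add, a1, a2, b1, b2, add_zero, zero_add]⟩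
  map_add' := by
    intro p q
    apply Subtype.ext
    simp only [Prod.fst_add, Prod.snd_add, Submodule.coe_add]
    abel
  map_smul' := by
    intro c p
    apply Subtype.ext
    simp only [Prod.smul_fst, Prod.smul_snd, Submodule.coe_smul, RingHom.id_apply, smul_add]
  invFun v := (⟨e₁ v, ⟨v, rfl⟩⟩, ⟨e₂ v, ⟨v, rfl⟩⟩)
  left_inv := by
    intro p
    have a1 := (X4_mem_range h₁₁ _).1 p.1.2
    have a2 := (X4_mem_range h₂₂ _).1 p.2.2
    have b1 : e₂ (p.1 : V) = 0 := by
      rw [← a1]
      exact LinearMap.congr_fun h₂₁ _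
    have b2 : e₁ (p.2 : V) = 0 := by
      rw [← a2]
      exact LinearMap.congr_fun h₁₂ _
    apply Prod.ext
    · apply Subtype.ext
      show e₁ ((p.1 : V) + p.2) = p.1
      rw [map_add, a1, b2, add_zero]
    · apply Subtype.ext
      show e₂ ((p.1 : V) + p.2) = p.2
      rw [map_add, a2, b1, zero_add]
  right_inv := by
    rintro ⟨v, u, rfl⟩
    apply Subtype.ext
    show e₁ (e u) + e₂ (e u) = e u
    have c1 : e₁ (e₂ u) = 0 := LinearMap.congr_fun h₁₂ u
    have c2 : e₂ (e₁ u) = 0 := LinearMap.congr_fun h₂₁ u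
    have c3 : e₁ (e₁ u) = e₁ u := LinearMap.congr_fun h₁₁ u
    have c4 : e₂ (e₂ u) = e₂ u := LinearMap.congr_fun h₂₂ u
    rw [h, LinearMap.add_apply, map_add, map_add, c1, c2, c3, c4, add_zero, zero_add]

lemma X4_sum [Finite K] [FiniteDimensional K V] (hf : IsHF (RingHom.id K) 1 f)
    {e e₁ e₂ : Module.End K V} (h : e = e₁ + e₂) (hee : e * e = e) (hea : IsAdj f e e)
    (h₁₁ : e₁ * e₁ = e₁) (h₂₂ : e₂ * e₂ = e₂) (h₁₂ : e₁ * e₂ = 0) (h₂₁ : e₂ * e₁ = 0)
    (a₁ : IsAdj f e₁ e₁) :
    X4_c K (resF f (LinearMap.range e)) =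
      X4_c K (resF f (LinearMap.range e₁)) * X4_c K (resF f (LinearMap.range e₂)) := by
  refine X4_c_sum (X4_res hf hee hea) (X4_sumEquiv h h₁₁ h₂₂ h₁₂ h₂₁) ?_ ?_ ?_
  · intro x y
    show f ((x : V) + 0) ((y : V) + 0) = f x y
    rw [add_zero, add_zero]
  · intro x y
    show f (0 + (x : V)) (0 + (y : V)) = f x y
    rw [zero_add, zero_add]
  · intro x y
    show f ((x : V) + 0) (0 + (y : V)) = 0
    have c1 := (X4_mem_range h₁₁ _).1 x.2
    have c2 := (X4_mem_range h₂₂ _).1 y.2
    have c3 : e₁ (y : V) = 0 := by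
      rw [← c2]
      exact LinearMap.congr_fun h₁₂ _
    rw [add_zero, zero_add, ← c1, a₁, c3, ← X4_bil_apply hf, map_zero]

/-- A range given by an injection with a left inverse. -/
noncomputable def X4_incEquiv {B : Type} [AddCommGroup B] [Module K B] {e : Module.End K V}
    (inc : B →ₗ[K] V) (proj : V →ₗ[K] B) (h1 : ∀ x, proj (inc x) = x)
    (h2 : ∀ v, inc (proj v) = e v) : B ≃ₗ[K] LinearMap.range e where
  toFun x := ⟨inc x, ⟨inc x, by rw [← h2, h1]⟩⟩
  map_add' x y := Subtype.ext (map_add inc x y)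
  map_smul' c x := Subtype.ext (map_smul inc c x)
  invFun v := proj v
  left_inv x := h1 x
  right_inv := by
    rintro ⟨v, u, rfl⟩
    apply Subtype.ext
    show inc (proj (e u)) = e u
    rw [← h2 u, h1]

end range

/-! ### The pieces of the torus algebra -/

section pieces

variable {K : Type} [Field K] [Finite K] {ι κ : Type} {ζ : Type} [Fintype ι] [Fintype κ]
  [Fintype ζ] {P : ι → Type} {L : κ → Type} [∀ i, Field (P i)] [∀ i, Algebra K (P i)]
  [∀ j, Field (L j)] [∀ j, Algebra K (L j)] [∀ i, FiniteDimensional K (P i)]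
  [∀ j, FiniteDimensional K (L j)]

/-- The class of a piece. -/
lemma X4_pieceV (two : (2 : K) ≠ 0) (f : TorAlg K ζ P L → TorAlg K ζ P L → K)
    (hf : IsHF (RingHom.id K) 1 f) (τ : ∀ j, L j ≃ₐ[K] L j) (had : Adapted τ f)
    {B S : Type} [CommRing B] [Algebra K B] [CommRing S] [Algebra K S] [FiniteDimensional K S]
    (e : Module.End K (TorAlg K ζ P L)) (hee : e * e = e) (hea : IsAdj f e e)
    (inc : B →ₗ[K] TorAlg K ζ P L) (proj : TorAlg K ζ P L →ₗ[K] B)
    (h1 : ∀ x, proj (inc x) = x) (h2 : ∀ v, inc (proj v) = e v) (st : B ≃ₐ[K] B)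
    (hm : ∀ x y, inc (x * y) = inc x * inc y) (hst : ∀ x, inc (st x) = starA ζ P τ (inc x))
    (j : S →ₐ[K] B) (hj : ∀ x, st (j x) = j x) (δ : B)
    (hδ : st δ = -δ) (d : S) (hd : δ * δ = j d) (Θ : (S × S) ≃ₗ[K] B)
    (hΘ : ∀ x y, Θ (x, y) = j x + δ * j y) :
    X4_c K (resF f (LinearMap.range e)) = X4_chi (Algebra.norm K (-d)) := by
  refine X4_piece two (X4_res hf hee hea) (X4_incEquiv inc proj h1 h2) st
    ((X4_bil hf 1).comp inc) ?_ ?_ j hj δ hδ d hd Θ hΘ
  · intro x y
    show f (inc x) (inc y) = f 1 (inc (st x * y))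
    rw [hm, hst, ← had, mul_one]
  · intro u
    show f 1 (inc (st u)) = f 1 (inc u)
    rw [hst]
    have h3 := had (inc u) 1 1
    rw [mul_one, mul_one] at h3
    rw [← h3, X4_symm hf]

/-- The exchange of the factors. -/
def X4_swap (K A : Type) [Field K] [CommRing A] [Algebra K A] : (A × A) ≃ₐ[K] (A × A) :=
  AlgEquiv.ofRingEquiv (f := (RingEquiv.prodComm : A × A ≃+* A × A)) (fun _ => rfl)

/-- The sums and differences. -/
noncomputable def X4_thetaP (K A : Type) [Field K] [CommRing A] [Algebra K A]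
    (two : (2 : K) ≠ 0) : (A × A) ≃ₗ[K] (A × A) where
  toFun p := (p.1 + p.2, p.1 - p.2)
  map_add' p q := by
    apply Prod.ext
    · show p.1 + q.1 + (p.2 + q.2) = p.1 + p.2 + (q.1 + q.2)
      abel
    · show p.1 + q.1 - (p.2 + q.2) = p.1 - p.2 + (q.1 - q.2)
      abel
  map_smul' c p := by
    apply Prod.ext
    · show c • p.1 + c • p.2 = c • (p.1 + p.2)
      rw [smul_add]
    · show c • p.1 - c • p.2 = c • (p.1 - p.2)
      rw [smul_sub]
  invFun q := ((2 : K)⁻¹ • (q.1 + q.2), (2 : K)⁻¹ • (q.1 - q.2))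
  left_inv p := by
    have h1 : p.1 + p.2 + (p.1 - p.2) = (2 : K) • p.1 := by
      rw [two_smul]
      abel
    have h2 : p.1 + p.2 - (p.1 - p.2) = (2 : K) • p.2 := by
      rw [two_smul]
      abel
    apply Prod.ext
    · show (2 : K)⁻¹ • (p.1 + p.2 + (p.1 - p.2)) = p.1
      rw [h1, smul_smul, inv_mul_cancel₀ two, one_smul]
    · show (2 : K)⁻¹ • (p.1 + p.2 - (p.1 - p.2)) = p.2
      rw [h2, smul_smul, inv_mul_cancel₀ two, one_smul]
  right_inv q := by
    have h1 : (2 : K)⁻¹ • (q.1 + q.2) + (2 : K)⁻¹ • (q.1 - q.2) = q.1 := by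
      rw [← smul_add]
      have : q.1 + q.2 + (q.1 - q.2) = (2 : K) • q.1 := by
        rw [two_smul]
        abel
      rw [this, smul_smul, inv_mul_cancel₀ two, one_smul]
    have h2 : (2 : K)⁻¹ • (q.1 + q.2) - (2 : K)⁻¹ • (q.1 - q.2) = q.2 := by
      rw [← smul_sub]
      have : q.1 + q.2 - (q.1 - q.2) = (2 : K) • q.2 := by
        rw [two_smul]
        abel
      rw [this, smul_smul, inv_mul_cancel₀ two, one_smul]
    exact Prod.ext h1 h2

omit [Finite K] in
/-- The fixed field of an automorphism of order two. -/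
lemma X4_fix (two : (2 : K) ≠ 0) {E : Type} [Field E] [Algebra K E] [FiniteDimensional K E]
    (t : E ≃ₐ[K] E) (ht : ∀ x, t (t x) = x) (ht' : ∃ x, t x ≠ x) :
    ∃ (S : IntermediateField K E) (δ : E) (d : S) (Θ : (S × S) ≃ₗ[K] E),
      (∀ x : S, t (S.val x) = S.val x) ∧ t δ = -δ ∧ δ * δ = S.val d ∧
      (∀ x y, Θ (x, y) = S.val x + δ * S.val y) ∧ ¬ IsSquare d ∧
      finrank K E / 2 = finrank K S := by
  obtain ⟨x0, hx0⟩ := ht'
  obtain ⟨S, hS⟩ : ∃ S : IntermediateField K E, ∀ x, x ∈ S ↔ t x = x := by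
    refine ⟨IntermediateField.fixedField (Subgroup.zpowers t), fun x => ?_⟩
    rw [IntermediateField.mem_fixedField_iff]
    constructor
    · intro h
      exact h t (Subgroup.mem_zpowers t)
    · intro h g hg
      have h1 : Subgroup.zpowers t ≤ MulAction.stabilizer (E ≃ₐ[K] E) x := by
        rw [Subgroup.zpowers_le]
        exact h
      exact h1 hg
  have two' : (2 : E) ≠ 0 := by
    have h2 : algebraMap K E 2 = (2 : E) := map_ofNat _ 2
    rw [← h2]
    exact fun h0 => two ((map_eq_zero _).1 h0)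
  obtain ⟨δ, hδ⟩ : ∃ δ, δ = x0 - t x0 := ⟨_, rfl⟩
  have hδ0 : δ ≠ 0 := by
    rw [hδ]
    exact sub_ne_zero.2 (Ne.symm hx0)
  have htδ : t δ = -δ := by
    rw [hδ, map_sub, ht]
    ring
  have hdm : δ * δ ∈ S := by
    rw [hS, map_mul, htδ]
    ring
  have hval : ∀ x : S, t (S.val x) = S.val x := fun x => (hS _).1 x.2
  obtain ⟨θ, hθ⟩ : ∃ θ : (S × S) →ₗ[K] E, ∀ p, θ p = S.val p.1 + δ * S.val p.2 := by
    refine ⟨{ toFun := fun p => S.val p.1 + δ * S.val p.2, map_add' := ?_, map_smul' := ?_ },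
      fun p => rfl⟩
    · intro p q
      rw [Prod.fst_add, Prod.snd_add, map_add, map_add]
      ring
    · intro c p
      rw [Prod.smul_fst, Prod.smul_snd, map_smul, map_smul, mul_smul_comm, RingHom.id_apply,
        smul_add]
  have hbij : Function.Bijective θ := by
    constructor
    · rw [← LinearMap.ker_eq_bot, LinearMap.ker_eq_bot']
      rintro ⟨x, y⟩ h0
      rw [hθ] at h0
      have h0' : S.val x + δ * S.val y = 0 := h0
      have h1 := congrArg t h0'
      rw [map_add, map_mul, map_zero, hval, hval, htδ] at h1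
      have h2 : (2 : E) * S.val x = 0 := by linear_combination h0' + h1
      have h3 : (2 : E) * (δ * S.val y) = 0 := by linear_combination h0' - h1
      have h4 : S.val x = 0 := (mul_eq_zero.1 h2).resolve_left two'
      have h5 : S.val y = 0 :=
        (mul_eq_zero.1 ((mul_eq_zero.1 h3).resolve_left two')).resolve_left hδ0
      have h6 : x = 0 := by
        apply Subtype.ext
        exact h4
      have h7 : y = 0 := by
        apply Subtype.ext
        exact h5
      rw [h6, h7]
      rfl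
    · intro z
      have m1 : (z + t z) / 2 ∈ S := by
        rw [hS, map_div₀, map_add, ht, map_ofNat]
        ring
      have m2 : (z - t z) / (2 * δ) ∈ S := by
        rw [hS, map_div₀, map_sub, ht, map_mul, map_ofNat, htδ]
        field_simp
        ring
      refine ⟨(⟨_, m1⟩, ⟨_, m2⟩), ?_⟩
      rw [hθ]
      show (z + t z) / 2 + δ * ((z - t z) / (2 * δ)) = z
      field_simp
      ring
  refine ⟨S, δ, ⟨δ * δ, hdm⟩, LinearEquiv.ofBijective θ hbij, hval, htδ, rfl, ?_, ?_, ?_⟩
  · intro x y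
    exact hθ (x, y)
  · rintro ⟨r, hr⟩
    have h1 : δ * δ = (r : E) * r := congrArg Subtype.val hr
    have h2 : (δ - r) * (δ + r) = 0 := by linear_combination h1
    have h3 : t (r : E) = r := (hS _).1 r.2
    rcases mul_eq_zero.1 h2 with h | h
    · have h4 : δ = r := sub_eq_zero.1 h
      rw [← h4, htδ] at h3
      have h5 : (2 : E) * δ = 0 := by linear_combination -h3
      exact hδ0 ((mul_eq_zero.1 h5).resolve_left two')
    · have h4 : (r : E) = -δ := by linear_combination h
      rw [h4, map_neg, htδ] at h3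
      have h5 : (2 : E) * δ = 0 := by linear_combination h3
      exact hδ0 ((mul_eq_zero.1 h5).resolve_left two')
  · have h1 := (LinearEquiv.ofBijective θ hbij).finrank_eq
    rw [finrank_prod] at h1
    omega

open Classical in
/-- The inclusion of the piece of `i`. -/
noncomputable def X4_incP (K : Type) [Field K] {ι κ : Type} (ζ : Type) (P : ι → Type)
    (L : κ → Type) [∀ i, Field (P i)] [∀ i, Algebra K (P i)] [∀ j, Field (L j)]
    [∀ j, Algebra K (L j)] (i : ι) : (P i × P i) →ₗ[K] TorAlg K ζ P L where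
  toFun x := ((Pi.single i x, 0), 0)
  map_add' x y := by
    apply Prod.ext
    · apply Prod.ext
      · exact Pi.single_add (f := fun i => P i × P i) i x y
      · exact (add_zero _).symm
    · exact (add_zero _).symm
  map_smul' c x := by
    apply Prod.ext
    · apply Prod.ext
      · exact Pi.single_smul (f := fun i => P i × P i) i c x
      · exact (smul_zero _).symm
    · exact (smul_zero _).symm

open Classical in
/-- The inclusion of the piece of `j`. -/
noncomputable def X4_incL (K : Type) [Field K] {ι κ : Type} (ζ : Type) (P : ι → Type)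
    (L : κ → Type) [∀ i, Field (P i)] [∀ i, Algebra K (P i)] [∀ j, Field (L j)]
    [∀ j, Algebra K (L j)] (j : κ) : L j →ₗ[K] TorAlg K ζ P L where
  toFun x := ((0, Pi.single j x), 0)
  map_add' x y := by
    apply Prod.ext
    · apply Prod.ext
      · exact (add_zero _).symm
      · exact Pi.single_add j x y
    · exact (add_zero _).symm
  map_smul' c x := by
    apply Prod.ext
    · apply Prod.ext
      · exact (smul_zero _).symm
      · exact Pi.single_smul j c x
    · exact (smul_zero _).symm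

/-- The class of a positive piece. -/
lemma X4_pos (two : (2 : K) ≠ 0) (f : TorAlg K ζ P L → TorAlg K ζ P L → K)
    (hf : IsHF (RingHom.id K) 1 f) (τ : ∀ j, L j ≃ₐ[K] L j) (had : Adapted τ f) (i : ι) :
    X4_c K (resF f (LinearMap.range (mSZ K P L {Sum.inl i} (∅ : Finset ζ)))) =
      X4_chi (-1 : K) ^ lenA K P L (Sum.inl i) := by
  classical
  obtain ⟨-, hee, hea⟩ := mSZ_spec 1 f hf τ had {Sum.inl i} (∅ : Finset ζ)
  have h := X4_pieceV two f hf τ had (mSZ K P L {Sum.inl i} (∅ : Finset ζ)) hee hea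
    (X4_incP K ζ P L i)
    ((LinearMap.proj i).comp ((LinearMap.fst K (∀ i, P i × P i) (∀ j, L j)).comp
      (LinearMap.fst K ((∀ i, P i × P i) × (∀ j, L j)) (ζ → K)))) ?_ ?_ (X4_swap K (P i)) ?_ ?_
    ((AlgHom.id K (P i)).prod (AlgHom.id K (P i))) ?_ ((1, -1) : P i × P i) ?_ (1 : P i) ?_
    (X4_thetaP K (P i) two) ?_
  · rw [h, X4_norm_neg, map_one, X4_chi_one, mul_one]
    rfl
  · intro x
    show (Pi.single i x : ∀ i, P i × P i) i = x
    exact Pi.single_eq_same (M := fun i => P i × P i) i x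
  · intro v
    show ((Pi.single i (v.1.1 i), 0), 0) = eSZ K P L {Sum.inl i} ∅ * v
    apply Prod.ext
    · apply Prod.ext
      · funext i'
        show (Pi.single i (v.1.1 i) : ∀ i, P i × P i) i' =
          (if Sum.inl i' ∈ ({Sum.inl i} : Finset (ι ⊕ κ)) then 1 else 0) * v.1.1 i'
        by_cases h1 : i' = i
        · subst h1
          rw [Pi.single_eq_same, if_pos (Finset.mem_singleton_self _), one_mul]
        · rw [Pi.single_eq_of_ne h1, if_neg (by simpa using h1), zero_mul]
      · funext j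
        show 0 = (if Sum.inr j ∈ ({Sum.inl i} : Finset (ι ⊕ κ)) then 1 else 0) * v.1.2 j
        rw [if_neg (by simp), zero_mul]
    · funext z
      show 0 = (if z ∈ (∅ : Finset ζ) then 1 else 0) * v.2 z
      rw [if_neg (Finset.notMem_empty z), zero_mul]
  · intro x y
    apply Prod.ext
    · apply Prod.ext
      · exact Pi.single_mul (α := fun i => P i × P i) i x y
      · exact (mul_zero _).symm
    · exact (mul_zero _).symm
  · intro x
    apply Prod.ext
    · apply Prod.ext
      · funext i'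
        show (Pi.single i x.swap : ∀ i, P i × P i) i' = ((Pi.single i x : ∀ i, P i × P i) i').swap
        by_cases h1 : i' = i
        · subst h1
          rw [Pi.single_eq_same, Pi.single_eq_same]
        · rw [Pi.single_eq_of_ne h1, Pi.single_eq_of_ne h1]
          rfl
      · funext j
        show (0 : L j) = τ j 0
        rw [map_zero]
    · rfl
  · intro x
    rfl
  · show ((-1, 1) : P i × P i) = -(1, -1)
    apply Prod.ext
    · rfl
    · exact (neg_neg 1).symm
  · show ((1, -1) : P i × P i) * (1, -1) = (1, 1)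
    apply Prod.ext
    · exact mul_one 1
    · show (-1 : P i) * -1 = 1
      ring
  · intro x y
    show (x + y, x - y) = ((x, x) : P i × P i) + (1, -1) * (y, y)
    apply Prod.ext
    · show x + y = x + 1 * y
      ring
    · show x - y = x + -1 * y
      ring

/-- The class of a negative piece. -/
lemma X4_neg (two : (2 : K) ≠ 0) (f : TorAlg K ζ P L → TorAlg K ζ P L → K)
    (hf : IsHF (RingHom.id K) 1 f) (τ : ∀ j, L j ≃ₐ[K] L j) (hτ : ∀ j x, τ j (τ j x) = x)
    (hτ' : ∀ j, ∃ x, τ j x ≠ x) (had : Adapted τ f) (j : κ) :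
    X4_c K (resF f (LinearMap.range (mSZ K P L {Sum.inr j} (∅ : Finset ζ)))) =
      -X4_chi (-1 : K) ^ lenA K P L (Sum.inr j) := by
  classical
  obtain ⟨-, hee, hea⟩ := mSZ_spec 1 f hf τ had {Sum.inr j} (∅ : Finset ζ)
  obtain ⟨S, δ, d, Θ, hS, hδ, hd, hΘ, hsq, hfr⟩ := X4_fix two (τ j) (hτ j) (hτ' j)
  have h := X4_pieceV two f hf τ had (mSZ K P L {Sum.inr j} (∅ : Finset ζ)) hee hea
    (X4_incL K ζ P L j)
    ((LinearMap.proj j).comp ((LinearMap.snd K (∀ i, P i × P i) (∀ j, L j)).comp
      (LinearMap.fst K ((∀ i, P i × P i) × (∀ j, L j)) (ζ → K)))) ?_ ?_ (τ j) ?_ ?_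
    S.val hS δ hδ d hd Θ hΘ
  · rw [h, X4_norm_neg, X4_norm two d hsq, mul_neg_one]
    have h1 : lenA K P L (Sum.inr j) = finrank K S := hfr
    rw [h1]
  · intro x
    show (Pi.single j x : ∀ j, L j) j = x
    exact Pi.single_eq_same j x
  · intro v
    show ((0, Pi.single j (v.1.2 j)), 0) = eSZ K P L {Sum.inr j} ∅ * v
    apply Prod.ext
    · apply Prod.ext
      · funext i
        show 0 = (if Sum.inl i ∈ ({Sum.inr j} : Finset (ι ⊕ κ)) then 1 else 0) * v.1.1 i
        rw [if_neg (by simp), zero_mul]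
      · funext j'
        show (Pi.single j (v.1.2 j) : ∀ j, L j) j' =
          (if Sum.inr j' ∈ ({Sum.inr j} : Finset (ι ⊕ κ)) then 1 else 0) * v.1.2 j'
        by_cases h1 : j' = j
        · subst h1
          rw [Pi.single_eq_same, if_pos (Finset.mem_singleton_self _), one_mul]
        · rw [Pi.single_eq_of_ne h1, if_neg (by simpa using h1), zero_mul]
    · funext z
      show 0 = (if z ∈ (∅ : Finset ζ) then 1 else 0) * v.2 z
      rw [if_neg (Finset.notMem_empty z), zero_mul]
  · intro x y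
    apply Prod.ext
    · apply Prod.ext
      · exact (mul_zero _).symm
      · exact Pi.single_mul j x y
    · exact (mul_zero _).symm
  · intro x
    apply Prod.ext
    · apply Prod.ext
      · rfl
      · funext j'
        show (Pi.single j (τ j x) : ∀ j, L j) j' = τ j' ((Pi.single j x : ∀ j, L j) j')
        by_cases h1 : j' = j
        · subst h1
          rw [Pi.single_eq_same, Pi.single_eq_same]
        · rw [Pi.single_eq_of_ne h1, Pi.single_eq_of_ne h1, map_zero]
    · rfl

lemma X4_eSZ_add (S : Finset (ι ⊕ κ)) (Z : Finset ζ) (k : ι ⊕ κ) (hk : k ∉ S)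
    (S' : Finset (ι ⊕ κ)) (hS' : ∀ l, l ∈ S' ↔ l = k ∨ l ∈ S) :
    eSZ K P L S' Z = eSZ K P L {k} (∅ : Finset ζ) + eSZ K P L S Z ∧
      eSZ K P L {k} (∅ : Finset ζ) * eSZ K P L S Z = 0 := by
  classical
  constructor
  · apply Prod.ext
    · apply Prod.ext
      · funext i
        show (if Sum.inl i ∈ S' then (1 : P i × P i) else 0) =
          (if Sum.inl i ∈ ({k} : Finset (ι ⊕ κ)) then 1 else 0) + (if Sum.inl i ∈ S then 1 else 0)
        simp only [hS', Finset.mem_singleton]
        by_cases h1 : Sum.inl i = k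
        · rw [if_pos (Or.inl h1), if_pos h1, if_neg (by rw [h1]; exact hk), add_zero]
        · by_cases h2 : Sum.inl i ∈ S
          · rw [if_pos (Or.inr h2), if_neg h1, if_pos h2, zero_add]
          · rw [if_neg (by rintro (h | h); exacts [h1 h, h2 h]), if_neg h1, if_neg h2, add_zero]
      · funext j
        show (if Sum.inr j ∈ S' then (1 : L j) else 0) =
          (if Sum.inr j ∈ ({k} : Finset (ι ⊕ κ)) then 1 else 0) + (if Sum.inr j ∈ S then 1 else 0)
        simp only [hS', Finset.mem_singleton]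
        by_cases h1 : Sum.inr j = k
        · rw [if_pos (Or.inl h1), if_pos h1, if_neg (by rw [h1]; exact hk), add_zero]
        · by_cases h2 : Sum.inr j ∈ S
          · rw [if_pos (Or.inr h2), if_neg h1, if_pos h2, zero_add]
          · rw [if_neg (by rintro (h | h); exacts [h1 h, h2 h]), if_neg h1, if_neg h2, add_zero]
    · funext z
      show (if z ∈ Z then (1 : K) else 0) =
        (if z ∈ (∅ : Finset ζ) then 1 else 0) + (if z ∈ Z then 1 else 0)
      rw [if_neg (Finset.notMem_empty z), zero_add]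
  · apply Prod.ext
    · apply Prod.ext
      · funext i
        show (if Sum.inl i ∈ ({k} : Finset (ι ⊕ κ)) then (1 : P i × P i) else 0) *
          (if Sum.inl i ∈ S then 1 else 0) = 0
        by_cases h1 : Sum.inl i = k
        · rw [if_neg (c := Sum.inl i ∈ S) (by rw [h1]; exact hk), mul_zero]
        · rw [if_neg (by rw [Finset.mem_singleton]; exact h1), zero_mul]
      · funext j
        show (if Sum.inr j ∈ ({k} : Finset (ι ⊕ κ)) then (1 : L j) else 0) *
          (if Sum.inr j ∈ S then 1 else 0) = 0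
        by_cases h1 : Sum.inr j = k
        · rw [if_neg (c := Sum.inr j ∈ S) (by rw [h1]; exact hk), mul_zero]
        · rw [if_neg (by rw [Finset.mem_singleton]; exact h1), zero_mul]
    · funext z
      show (if z ∈ (∅ : Finset ζ) then (1 : K) else 0) * (if z ∈ Z then 1 else 0) = 0
      rw [if_neg (Finset.notMem_empty z), zero_mul]

/-- The class of a selfadjoint idempotent. -/
lemma X4_class (two : (2 : K) ≠ 0) (f : TorAlg K ζ P L → TorAlg K ζ P L → K)
    (hf : IsHF (RingHom.id K) 1 f) (τ : ∀ j, L j ≃ₐ[K] L j) (hτ : ∀ j x, τ j (τ j x) = x)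
    (hτ' : ∀ j, ∃ x, τ j x ≠ x) (had : Adapted τ f) (Z : Finset ζ) (S : Finset (ι ⊕ κ)) :
    X4_c K (resF f (LinearMap.range (mSZ K P L S Z))) =
      X4_chi (-1 : K) ^ (∑ k ∈ S, lenA K P L k) *
        (-1) ^ (Multiset.card (S.val.filter fun k => k.isRight)) *
        X4_c K (resF f (LinearMap.range (mSZ K P L ∅ Z))) := by
  classical
  induction S using Finset.induction_on with
  | empty =>
    simp
  | insert k S hk ih =>
    obtain ⟨h1, h2⟩ := X4_eSZ_add (K := K) (P := P) (L := L) S Z k hk (insert k S)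
      (fun l => Finset.mem_insert)
    obtain ⟨-, hee, hea⟩ := mSZ_spec 1 f hf τ had (insert k S) Z
    obtain ⟨-, hee1, hea1⟩ := mSZ_spec 1 f hf τ had {k} (∅ : Finset ζ)
    obtain ⟨-, hee2, hea2⟩ := mSZ_spec 1 f hf τ had S Z
    have e1 : mSZ K P L (insert k S) Z = mSZ K P L {k} (∅ : Finset ζ) + mSZ K P L S Z := by
      unfold mSZ
      rw [h1, map_add]
    have e2 : mSZ K P L {k} (∅ : Finset ζ) * mSZ K P L S Z = 0 := by
      unfold mSZ
      rw [← map_mul, h2, map_zero]
    have e3 : mSZ K P L S Z * mSZ K P L {k} (∅ : Finset ζ) = 0 := by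
      unfold mSZ
      rw [← map_mul, mul_comm, h2, map_zero]
    rw [X4_sum hf e1 hee hea hee1 hee2 e2 e3 hea1, ih, Finset.sum_insert hk,
      Finset.insert_val, Multiset.ndinsert_of_notMem (by exact hk)]
    cases k with
    | inl i =>
      rw [X4_pos two f hf τ had i, pow_add,
        Multiset.filter_cons_of_neg _ (by simp)]
      ring
    | inr j =>
      rw [X4_neg two f hf τ hτ hτ' had j, pow_add,
        Multiset.filter_cons_of_pos _ (by simp), Multiset.card_cons, pow_succ]
      ring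

end pieces

section final

variable {K : Type} [Field K] [Finite K] {ι κ : Type} {ζ : Type} [Fintype ι] [Fintype κ]
  [Fintype ζ] {P : ι → Type} {L : κ → Type} [∀ i, Field (P i)] [∀ i, Algebra K (P i)]
  [∀ j, Field (L j)] [∀ j, Algebra K (L j)] [∀ i, FiniteDimensional K (P i)]
  [∀ j, FiniteDimensional K (L j)]

theorem critBD_iff [Subsingleton ζ] (two : (2 : K) ≠ 0)
    (f : TorAlg K ζ P L → TorAlg K ζ P L → K)
    (hf : IsHF (RingHom.id K) 1 f) (τ : ∀ j, L j ≃ₐ[K] L j) (hτ : ∀ j x, τ j (τ j x) = x)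
    (hτ' : ∀ j, ∃ x, τ j x ≠ x) (had : Adapted τ f) :
    Crit f (algA K ζ P L) ↔ DistinctBD K P L := by
  have hres : ∀ (S : Finset (ι ⊕ κ)) (Z : Finset ζ),
      IsHF (RingHom.id K) 1 (resF f (LinearMap.range (mSZ K P L S Z))) := by
    intro S Z
    obtain ⟨-, hee, hea⟩ := mSZ_spec 1 f hf τ had S Z
    exact X4_res hf hee hea
  have hiso : ∀ (S S' : Finset (ι ⊕ κ)) (Z Z' : Finset ζ),
      IsoSp f (LinearMap.range (mSZ K P L S Z)) (LinearMap.range (mSZ K P L S' Z')) ↔
        (finrank K (LinearMap.range (mSZ K P L S Z)) =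
          finrank K (LinearMap.range (mSZ K P L S' Z')) ∧
        X4_c K (resF f (LinearMap.range (mSZ K P L S Z))) =
          X4_c K (resF f (LinearMap.range (mSZ K P L S' Z')))) := by
    intro S S' Z Z'
    exact X4_iso_iff two (hres S Z) (hres S' Z')
  have hchi : X4_chi (-1 : K) ≠ 0 := by
    rcases X4_chi_or (K := K) (x := -1) (neg_ne_zero.2 one_ne_zero) with h | h <;> rw [h] <;>
      norm_num
  have hcne : ∀ Z : Finset ζ, X4_c K (resF f (LinearMap.range (mSZ K P L ∅ Z))) ≠ 0 := by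
    intro Z
    rcases X4_c_or (hres ∅ Z) with h | h <;> rw [h] <;> norm_num
  have hpar : ∀ a b : ℕ, (-1 : ℤ) ^ a = (-1) ^ b ↔ (Even a ↔ Even b) := by
    intro a b
    rcases Nat.even_or_odd a with ha | ha <;> rcases Nat.even_or_odd b with hb | hb
    · rw [ha.neg_one_pow, hb.neg_one_pow]
      exact ⟨fun _ => ⟨fun _ => hb, fun _ => ha⟩, fun _ => rfl⟩
    · rw [ha.neg_one_pow, hb.neg_one_pow]
      exact ⟨fun h => by norm_num at h, fun h => absurd (h.1 ha) (Nat.not_even_iff_odd.2 hb)⟩
    · rw [ha.neg_one_pow, hb.neg_one_pow]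
      exact ⟨fun h => by norm_num at h, fun h => absurd (h.2 hb) (Nat.not_even_iff_odd.2 ha)⟩
    · rw [ha.neg_one_pow, hb.neg_one_pow]
      exact ⟨fun _ => ⟨fun h => absurd h (Nat.not_even_iff_odd.2 ha),
        fun h => absurd h (Nat.not_even_iff_odd.2 hb)⟩, fun _ => rfl⟩
  constructor
  · intro hcrit S S' hsum hev
    obtain ⟨m1, h1, h1'⟩ := mSZ_spec 1 f hf τ had S (∅ : Finset ζ)
    obtain ⟨m2, h2, h2'⟩ := mSZ_spec 1 f hf τ had S' (∅ : Finset ζ)
    have h3 : IsoSp f (LinearMap.range (mSZ K P L S (∅ : Finset ζ)))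
        (LinearMap.range (mSZ K P L S' (∅ : Finset ζ))) := by
      rw [hiso]
      refine ⟨?_, ?_⟩
      · rw [rank_mSZ τ hτ hτ', rank_mSZ τ hτ hτ', hsum]
      · rw [X4_class two f hf τ hτ hτ' had ∅ S, X4_class two f hf τ hτ hτ' had ∅ S', hsum,
          (hpar _ _).2 hev]
    have h4 := hcrit _ m1 _ m2 h1 h1' h2 h2' h3
    exact ((siso_iff 1 f hf τ hτ hτ' had S S' ∅ ∅).1 h4).2
  · intro hBD e he e' he' hee hea hee' hea' hI
    obtain ⟨S, Z, rfl⟩ := selfadj_idem 1 f hf τ had e he hee hea
    obtain ⟨S', Z', rfl⟩ := selfadj_idem 1 f hf τ had e' he' hee' hea'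
    rw [siso_iff 1 f hf τ hτ hτ' had]
    obtain ⟨h1, h2⟩ := (hiso S S' Z Z').1 hI
    rw [rank_mSZ τ hτ hτ', rank_mSZ τ hτ hτ'] at h1
    have hZ : Z.card ≤ 1 := Finset.card_le_one_of_subsingleton Z
    have hZ' : Z'.card ≤ 1 := Finset.card_le_one_of_subsingleton Z'
    have hZZ : Z.card = Z'.card := by omega
    have hsum : ∑ k ∈ S, lenA K P L k = ∑ k ∈ S', lenA K P L k := by omega
    have hZeq : Z = Z' := by
      rcases Nat.lt_or_ge 0 Z.card with h | h
      · have h' : 0 < Z'.card := hZZ ▸ h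
        obtain ⟨z, hz⟩ := Finset.card_pos.1 h
        obtain ⟨z', hz'⟩ := Finset.card_pos.1 h'
        ext y
        rw [Subsingleton.elim y z, Subsingleton.elim z' z] at *
        exact ⟨fun _ => hz', fun _ => hz⟩
      · have h3 : Z.card = 0 := by omega
        have h4 : Z'.card = 0 := by omega
        rw [Finset.card_eq_zero.1 h3, Finset.card_eq_zero.1 h4]
    refine ⟨hZZ, hBD S S' hsum ?_⟩
    rw [X4_class two f hf τ hτ hτ' had Z S, X4_class two f hf τ hτ hτ' had Z' S', hsum,
      hZeq] at h2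
    have h3 := mul_right_cancel₀ (hcne Z') h2
    exact (hpar _ _).1 (mul_left_cancel₀ (pow_ne_zero _ hchi) h3)

end final

end Pool.Agent.CTO
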