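import Pool.Agent.CTO.X3
import Pool.Agent.CTO.X4
import Pool.Agent.CTO.X5
import Pool.Agent.CTO.Z6

/-!
# X6: the final theorems (assembly)

`isPronormal_map_iff` (with `N ≤ (torusA).subgroupOf Γ`), `torGL_algA`, `absC`/`absBD` for `algA`
(`algA_isTor`), `critC_iff`/`critBD_iff`, `oddPos_iff`, `singlePosEven_iff`.
-/

namespace Pool.Agent.CTO

open Module

theorem finalC (n : ℕ) : ∃ q0 : ℕ, ∀ (K : Type) [Field K] [Finite K] (ι κ ζ : Type) [Fintype ι]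
    [Fintype κ] [Fintype ζ] [Subsingleton ζ] (P : ι → Type) (L : κ → Type) [∀ i, Field (P i)]
    [∀ i, Algebra K (P i)]
    [∀ j, Field (L j)] [∀ j, Algebra K (L j)] [∀ i, FiniteDimensional K (P i)]
    [∀ j, FiniteDimensional K (L j)] (τ : ∀ j, L j ≃ₐ[K] L j)
    (f : TorAlg K ζ P L → TorAlg K ζ P L → K)
    (Γ : Subgroup (TorAlg K ζ P L ≃ₗ[K] TorAlg K ζ P L)) (N : Subgroup Γ) [N.Normal],
    finrank K (TorAlg K ζ P L) = n → q0 ≤ Nat.card K → (2 : K) ≠ 0 →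
    (∀ j x, τ j (τ j x) = x) → (∀ j, ∃ x, τ j x ≠ x) →
    IsHF (RingHom.id K) (-1) f → Adapted τ f → Isom f ≤ Γ → Γ ≤ Sim f →
    N ≤ (torusA K ζ P L).subgroupOf Γ →
    (IsPronormal (torusQA Γ N) ↔ DistinctC K P L) := by
  obtain ⟨q0, h⟩ := absC n
  refine ⟨q0, ?_⟩
  intro K _ _ ι κ ζ _ _ _ _ P L _ _ _ _ _ _ τ f Γ N _ hn hq two hτ hτ' hf had h1 h2 hN
  unfold torusQA
  rw [isPronormal_map_iff N _ hN, ← torGL_algA,
    h K (TorAlg K ζ P L) f (algA K ζ P L) Γ hn hq two hf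
      (algA_isTor two (-1) f hf τ hτ hτ' had) h1 h2,
    critC_iff two f hf τ hτ hτ' had]

theorem finalBD (n : ℕ) (hn : 3 ≤ n) : ∃ q0 : ℕ, ∀ (K : Type) [Field K] [Finite K] (ι κ ζ : Type)
    [Fintype ι] [Fintype κ] [Fintype ζ] [Subsingleton ζ] (P : ι → Type) (L : κ → Type)
    [∀ i, Field (P i)] [∀ i, Algebra K (P i)]
    [∀ j, Field (L j)] [∀ j, Algebra K (L j)] [∀ i, FiniteDimensional K (P i)]
    [∀ j, FiniteDimensional K (L j)] (τ : ∀ j, L j ≃ₐ[K] L j)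
    (f : TorAlg K ζ P L → TorAlg K ζ P L → K)
    (Γ : Subgroup (TorAlg K ζ P L ≃ₗ[K] TorAlg K ζ P L)) (N : Subgroup Γ) [N.Normal],
    finrank K (TorAlg K ζ P L) = n → q0 ≤ Nat.card K → (2 : K) ≠ 0 →
    (∀ j x, τ j (τ j x) = x) → (∀ j, ∃ x, τ j x ≠ x) →
    IsHF (RingHom.id K) 1 f → Adapted τ f → ⁅SIsom f, SIsom f⁆ ≤ Γ → Γ ≤ Sim f →
    N ≤ (torusA K ζ P L).subgroupOf Γ →
    ¬ (IsEmpty κ ∧ IsEmpty ζ ∧ ∃ i0 : ι, (∀ i, i = i0) ∧ Even (finrank K (P i0))) →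
    (IsPronormal (torusQA Γ N) ↔ DistinctBD K P L ∧ ∀ i, Odd (finrank K (P i))) := by
  obtain ⟨q0, h⟩ := absBD n hn
  refine ⟨q0, ?_⟩
  intro K _ _ ι κ ζ _ _ _ _ P L _ _ _ _ _ _ τ f Γ N _ hn hq two hτ hτ' hf had h1 h2 hN hns
  unfold torusQA
  rw [isPronormal_map_iff N _ hN, ← torGL_algA,
    h K (TorAlg K ζ P L) f (algA K ζ P L) Γ hn hq two hf
      (algA_isTor two 1 f hf τ hτ hτ' had) h1 h2
      (fun hc => hns ((singlePosEven_iff 1 f hf τ had).1 hc)),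
    critBD_iff two f hf τ hτ hτ' had, oddPos_iff 1 f hf τ had]

end Pool.Agent.CTO
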