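import Pool.Agent.CTO.X6
import Pool.Agent.CTO.V3
import Pool.Agent.CTO.V4

/-!
# V5: the final theorem for the orthogonal groups, complete form

`finalBD'`: as `finalBD`, but without the exclusion of a single positive even cycle; `Γ` is assumed to
consist of proper similitudes if `n` is even. If the torus is not a single positive cycle of even length:
`finalBD` (or `absBD` and `X4`, `X5`); the second alternative of the conclusion is then false, or is
excluded. If it is (κ, ζ empty, ι = {i0}, `m = [P i0 : K]` even; `singlePosEven_iff`): the first alternative of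
the conclusion is false (`m` is not odd), and the torus is pronormal iff `m % 4 = 2` by `pron_single` and
`pron_neg3` (`EU ≤ Γ` by `EU_le_comm`, `sq (tor f algA) ≤ EU` by `sq_mem_EU`, generation by `gen_tor`; the
quotient by `N` as in X6; `e` is the multiplication by `(1, 0) ∈ P i0 × P i0`, of rank `m`).
-/

namespace Pool.Agent.CTO

open Module

section

variable {K : Type} [Field K] [Finite K] {ι κ : Type} {ζ : Type} [Fintype ι] [Fintype κ]
  [Fintype ζ] {P : ι → Type} {L : κ → Type} [∀ i, Field (P i)] [∀ i, Algebra K (P i)]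
  [∀ j, Field (L j)] [∀ j, Algebra K (L j)] [∀ i, FiniteDimensional K (P i)]
  [∀ j, FiniteDimensional K (L j)]

theorem v5_expl (ε : K) (f : TorAlg K ζ P L → TorAlg K ζ P L → K)
    (hf : IsHF (RingHom.id K) ε f) (τ : ∀ j, L j ≃ₐ[K] L j) (had : Adapted τ f)
    (hκ : IsEmpty κ) (hζ : IsEmpty ζ) (i : ι) (hi : ∀ k, k = i) :
    IsoIdem f (algA K ζ P L) (Algebra.lmul K (TorAlg K ζ P L) (x5s K ζ P L i (1, 0)))
      (Algebra.lmul K (TorAlg K ζ P L) (x5s K ζ P L i (0, 1))) ∧
    IsPrim (algA K ζ P L) (Algebra.lmul K (TorAlg K ζ P L) (x5s K ζ P L i (1, 0))) ∧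
    Algebra.lmul K (TorAlg K ζ P L) (x5s K ζ P L i (1, 0)) +
      Algebra.lmul K (TorAlg K ζ P L) (x5s K ζ P L i (0, 1)) = 1 := by
  have e1 : x5s K ζ P L i (1, 0) * x5s K ζ P L i (1, 0) = x5s K ζ P L i (1, 0) := by
    rw [x5s_mul, x5s_same]
    congr 1
    exact Prod.ext (mul_one _) (mul_zero _)
  refine ⟨⟨⟨_, rfl⟩, ⟨_, rfl⟩, ?_, ?_, ?_⟩, ⟨⟨_, rfl⟩, ?_, ?_, ?_⟩, ?_⟩
  · rw [← map_mul, e1]
  · refine (adj_iff ε f hf τ had _ _).2 ?_
    rw [x5s_star]
    rfl
  · rw [← map_mul, x5s_mul, x5s_same]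
    have e2 : ((0, 1) : P i × P i) * (1, 0) = 0 := Prod.ext (zero_mul _) (mul_zero _)
    rw [e2, x5s_zero, map_zero]
  · rw [← map_mul, e1]
  · intro h0
    have h1 := x5_lm _ h0
    rw [← x5s_zero i] at h1
    exact one_ne_zero (congrArg Prod.fst (x5s_inj i _ _ h1))
  · rintro _ ⟨b, rfl⟩ hb1 hb2
    have e1 : b * b = b := by
      apply x1_inj
      rw [map_mul]
      exact hb1
    have e2 : b * x5s K ζ P L i (1, 0) = b := by
      apply x1_inj
      rw [map_mul]
      exact hb2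
    rcases x5_prim i b e1 e2 with e3 | e3
    · left
      rw [e3]
      exact map_zero _
    · right
      rw [e3]
      rfl
  · rw [← map_add]
    have e2 : x5s K ζ P L i (1, 0) + x5s K ζ P L i (0, 1) = 1 := by
      refine Prod.ext (Prod.ext ?_ ?_) ?_
      · funext k
        rw [hi k]
        change (x5s K ζ P L i (1, 0)).1.1 i + (x5s K ζ P L i (0, 1)).1.1 i = 1
        rw [x5s_same, x5s_same]
        exact Prod.ext (add_zero _) (zero_add _)
      · funext j
        exact (hκ.false j).elim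
      · funext z
        exact (hζ.false z).elim
    rw [e2, map_one]

theorem v5_dim (hκ : IsEmpty κ) (hζ : IsEmpty ζ) (i : ι) (hi : ∀ k, k = i) :
    finrank K (TorAlg K ζ P L) = 2 * finrank K (P i) := by
  have h1 : finrank K (LinearMap.range (1 : Module.End K (TorAlg K ζ P L))) =
      finrank K (P i × P i) := by
    refine x5_rk _ ({ toFun := fun v => v.1.1 i
                      map_add' := fun _ _ => rfl
                      map_smul' := fun _ _ => rfl } : TorAlg K ζ P L →ₗ[K] P i × P i) ?_ ?_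
    · intro x
      refine ⟨x5s K ζ P L i x, ?_⟩
      change (x5s K ζ P L i x).1.1 i = x
      rw [x5s_same]
    · intro v
      constructor
      · intro h
        have h' : v.1.1 i = 0 := h
        change v = 0
        refine Prod.ext (Prod.ext ?_ ?_) ?_
        · funext k
          rw [hi k]
          exact h'
        · funext j
          exact (hκ.false j).elim
        · funext z
          exact (hζ.false z).elim
      · intro h
        have h' : v = 0 := h
        rw [h']
        rfl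
  rw [Module.finrank_prod] at h1
  have h2 : LinearMap.range (1 : Module.End K (TorAlg K ζ P L)) = ⊤ :=
    LinearMap.range_eq_top.2 Function.surjective_id
  rw [h2, finrank_top] at h1
  rw [h1]
  ring

end

theorem finalBD' (n : ℕ) (hn : 3 ≤ n) : ∃ q0 : ℕ, ∀ (K : Type) [Field K] [Finite K]
    (ι κ ζ : Type)
    [Fintype ι] [Fintype κ] [Fintype ζ] [Subsingleton ζ] (P : ι → Type) (L : κ → Type)
    [∀ i, Field (P i)] [∀ i, Algebra K (P i)]
    [∀ j, Field (L j)] [∀ j, Algebra K (L j)] [∀ i, FiniteDimensional K (P i)]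
    [∀ j, FiniteDimensional K (L j)] (τ : ∀ j, L j ≃ₐ[K] L j)
    (f : TorAlg K ζ P L → TorAlg K ζ P L → K)
    (Γ : Subgroup (TorAlg K ζ P L ≃ₗ[K] TorAlg K ζ P L)) (N : Subgroup Γ) [N.Normal],
    finrank K (TorAlg K ζ P L) = n → q0 ≤ Nat.card K → (2 : K) ≠ 0 →
    (∀ j x, τ j (τ j x) = x) → (∀ j, ∃ x, τ j x ≠ x) →
    IsHF (RingHom.id K) 1 f → Adapted τ f → ⁅SIsom f, SIsom f⁆ ≤ Γ → Γ ≤ Sim f →
    (Even n → ∀ g ∈ Γ, ∀ μ : K, (∀ v w, f (g v) (g w) = μ * f v w) →
      ((LinearEquiv.det g : Kˣ) : K) = μ ^ (n / 2)) →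
    N ≤ (torusA K ζ P L).subgroupOf Γ →
    (IsPronormal (torusQA Γ N) ↔ (DistinctBD K P L ∧ ∀ i, Odd (finrank K (P i))) ∨
      (IsEmpty κ ∧ IsEmpty ζ ∧ ∃ i0 : ι, (∀ i, i = i0) ∧ finrank K (P i0) % 4 = 2)) := by
  obtain ⟨q1, h1⟩ := finalBD n hn
  obtain ⟨q2, h2⟩ := pron_single n
  obtain ⟨q3, h3⟩ := gen_tor n
  refine ⟨max (max q1 q2) (max q3 5), ?_⟩
  intro K _ _ ι κ ζ _ _ _ _ P L _ _ _ _ _ _ τ f Γ N _ hN hq two hτ hτ' hf had hΓ1 hΓ2 hΓ3 hNT
  have hq1 : q1 ≤ Nat.card K := (le_trans (le_max_left _ _) (le_max_left _ _)).trans hq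
  have hq2 : q2 ≤ Nat.card K := (le_trans (le_max_right _ _) (le_max_left _ _)).trans hq
  have hq3 : q3 ≤ Nat.card K := (le_trans (le_max_left _ _) (le_max_right _ _)).trans hq
  have hq5 : 5 ≤ Nat.card K := (le_trans (le_max_right _ _) (le_max_right _ _)).trans hq
  by_cases hs : IsEmpty κ ∧ IsEmpty ζ ∧ ∃ i0 : ι, (∀ i, i = i0) ∧ Even (finrank K (P i0))
  · obtain ⟨hκ, hζ, i, hi, heven⟩ := hs
    have hA : IsTor f (algA K ζ P L) := algA_isTor two 1 f hf τ hτ hτ' had
    obtain ⟨hI, hP, hsum⟩ := v5_expl 1 f hf τ had hκ hζ i hi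
    have hEU : EU (RingHom.id K) 1 f ≤ Γ := (EU_le_comm two hq5 f hf).trans hΓ1
    have hsqEU : sq (tor (RingHom.id K) f (algA K ζ P L)) ≤ EU (RingHom.id K) 1 f := by
      unfold sq
      rw [Subgroup.closure_le]
      rintro _ ⟨t, ht, rfl⟩
      exact sq_mem_EU two hq5 f hf (by rw [hN]; exact hn) t ht.2.1
    have hsqT : sq (tor (RingHom.id K) f (algA K ζ P L)) ≤ torGL (algA K ζ P L) := by
      unfold sq
      rw [Subgroup.closure_le]
      rintro _ ⟨t, ht, rfl⟩
      exact mul_mem ht.1 ht.1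
    have hgen : algA K ζ P L ≤
        Algebra.adjoin K (EndSet (Γ ⊓ torGL (algA K ζ P L))) := by
      refine (h3 K (TorAlg K ζ P L) 1 f (algA K ζ P L) hN hq3 two hf hA).trans ?_
      apply Algebra.adjoin_mono
      rintro _ ⟨t, ht, rfl⟩
      exact ⟨t, ⟨hEU (hsqEU ht), hsqT ht⟩, rfl⟩
    have hdim := v5_dim (K := K) (P := P) (L := L) hκ hζ i hi
    rw [hN] at hdim
    have hneven : Even n := ⟨finrank K (P i), by omega⟩
    have hquot : IsPronormal (torusQA Γ N) ↔
        IsPronormal ((torGL (algA K ζ P L)).subgroupOf Γ) := by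
      rw [torGL_algA]
      exact isPronormal_map_iff N _ hNT
    rw [hquot]
    have hr : finrank K (LinearMap.range
        (Algebra.lmul K (TorAlg K ζ P L) (x5s K ζ P L i (1, 0)))) = finrank K (P i) :=
      x5_rank1 i
    by_cases h4 : finrank K (P i) % 4 = 2
    · refine iff_of_true ?_ (Or.inr ⟨hκ, hζ, i, hi, h4⟩)
      refine h2 K (TorAlg K ζ P L) f (algA K ζ P L) _ _ Γ hN hq2 two hf hA hI hP hsum
        (by rw [hr]; exact h4) hΓ2 ?_ (hsqEU.trans hEU)
      intro g hg μ hμ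
      rw [hN]
      exact hΓ3 hneven g hg μ hμ
    · refine iff_of_false ?_ ?_
      · refine pron_neg3 K (TorAlg K ζ P L) two hq5 f hf (algA K ζ P L) hA Γ hΓ2 hEU hgen _ _ hI hP
          hsum ?_
        rw [hr]
        obtain ⟨r, hr'⟩ := heven
        omega
      · rintro (⟨-, h5⟩ | ⟨-, -, i', -, h5⟩)
        · exact (Nat.not_odd_iff_even.2 heven) (h5 i)
        · rw [hi i'] at h5
          exact h4 h5
  · have h4 := h1 K ι κ ζ P L τ f Γ N hN hq1 two hτ hτ' hf had hΓ1 hΓ2 hNT hs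
    rw [h4]
    constructor
    · intro h5
      exact Or.inl h5
    · rintro (h5 | ⟨hκ, hζ, i, hi, h5⟩)
      · exact h5
      · exfalso
        apply hs
        refine ⟨hκ, hζ, i, hi, ?_⟩
        rw [Nat.even_iff]
        omega

end Pool.Agent.CTO
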