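import Pool.Agent.CTO.Model
import Pool.Agent.CTO.Q2

/-!
# X1: the explicit torus algebra

`algA` = the multiplications by the elements of `TorAlg`.
* `algA_isTor`: commutative, reduced (`TorAlg` is reduced), `Algebra.lmul` is injective, so
  `dim algA = dim TorAlg`; the adjoint of the multiplication by `a` is the multiplication by `starA a`
  (`Adapted`). Skew element: multiplication by `d = ((1, -1)_i, (x_j - τ_j x_j)_j, 0)`, `x_j` with
  `τ_j x_j ≠ x_j`; `starA d = - d`; its kernel is `K^ζ`, of dimension `|ζ| ≤ 1`.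
* `torGL_algA`: an element of `torGL algA` is the multiplication by `a`, with inverse the multiplication by
  `b`; `a b = 1`.
* `eSZ S Z`: the indicator element; `selfadj_idem`: an idempotent `a` of `TorAlg` has components `0`, `1` in
  each field; if `starA a = a` the two components in `P i × P i` are equal. (`IsAdj f (lmul a) (lmul a)` and
  `Adapted` give `f ((a - starA a) * v) w = 0`, so `a = starA a` as `f` is nondegenerate; take `v = 1`.)
* `adj_iff`: `IsAdj f (lmul a) (lmul b) ↔ b = starA a`.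
* `rank_eSZ`.
-/

namespace Pool.Agent.CTO

open Module

section

variable {K : Type} [Field K] [Finite K] {ι κ : Type} {ζ : Type} [Fintype ι] [Fintype κ]
  [Fintype ζ] {P : ι → Type} {L : κ → Type} [∀ i, Field (P i)] [∀ i, Algebra K (P i)]
  [∀ j, Field (L j)] [∀ j, Algebra K (L j)] [∀ i, FiniteDimensional K (P i)]
  [∀ j, FiniteDimensional K (L j)]

omit [Finite K] [Fintype ι] [Fintype κ] [Fintype ζ] [∀ i, FiniteDimensional K (P i)]
  [∀ j, FiniteDimensional K (L j)] in
theorem x1_right (ε : K) (f : TorAlg K ζ P L → TorAlg K ζ P L → K) (hf : IsHF (RingHom.id K) ε f)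
    (x y : TorAlg K ζ P L) (h : ∀ v, f v x = f v y) : x = y := by
  have h1 : x - y = 0 := by
    apply hf.nondeg
    intro w
    have e1 : f x w = f y w := by
      rw [hf.herm w x, hf.herm w y, h w]
    have e2 : x - y = x + (-1 : K) • y := by
      rw [neg_smul, one_smul, sub_eq_add_neg]
    rw [e2, hf.add_left, hf.smul_left, e1]
    ring
  exact sub_eq_zero.1 h1

omit [Finite K] [Fintype ι] [Fintype κ] [Fintype ζ] [∀ i, FiniteDimensional K (P i)]
  [∀ j, FiniteDimensional K (L j)] in
theorem x1_inj (a b : TorAlg K ζ P L)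
    (h : Algebra.lmul K (TorAlg K ζ P L) a = Algebra.lmul K (TorAlg K ζ P L) b) : a = b := by
  have h1 := congrArg (fun t : Module.End K (TorAlg K ζ P L) => t 1) h
  simpa using h1

omit [Finite K] [Fintype ι] [Fintype κ] [Fintype ζ] [∀ i, FiniteDimensional K (P i)]
  [∀ j, FiniteDimensional K (L j)] in
theorem adj_iff_aux (ε : K) (f : TorAlg K ζ P L → TorAlg K ζ P L → K)
    (hf : IsHF (RingHom.id K) ε f)
    (τ : ∀ j, L j ≃ₐ[K] L j) (had : Adapted τ f) (a b : TorAlg K ζ P L) :
    IsAdj f (Algebra.lmul K (TorAlg K ζ P L) a) (Algebra.lmul K (TorAlg K ζ P L) b) ↔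
      b = starA ζ P τ a := by
  constructor
  · intro h
    have h1 : b * 1 = starA ζ P τ a * 1 := by
      apply x1_right ε f hf
      intro v
      rw [← had a v 1]
      exact (h v 1).symm
    rwa [mul_one, mul_one] at h1
  · rintro rfl v w
    exact had a v w

theorem adj_iff (ε : K) (f : TorAlg K ζ P L → TorAlg K ζ P L → K) (hf : IsHF (RingHom.id K) ε f)
    (τ : ∀ j, L j ≃ₐ[K] L j) (had : Adapted τ f) (a b : TorAlg K ζ P L) :
    IsAdj f (Algebra.lmul K (TorAlg K ζ P L) a) (Algebra.lmul K (TorAlg K ζ P L) b) ↔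
      b = starA ζ P τ a := adj_iff_aux ε f hf τ had a b

theorem algA_isTor [Subsingleton ζ] (two : (2 : K) ≠ 0) (ε : K)
    (f : TorAlg K ζ P L → TorAlg K ζ P L → K)
    (hf : IsHF (RingHom.id K) ε f) (τ : ∀ j, L j ≃ₐ[K] L j) (hτ : ∀ j x, τ j (τ j x) = x)
    (hτ' : ∀ j, ∃ x, τ j x ≠ x) (had : Adapted τ f) : IsTor f (algA K ζ P L) := by
  refine ⟨⟨?_, ?_, ?_⟩, ?_, ?_⟩
  · rintro _ ⟨a, rfl⟩ _ ⟨b, rfl⟩
    change Algebra.lmul K (TorAlg K ζ P L) a * Algebra.lmul K (TorAlg K ζ P L) b =
      Algebra.lmul K (TorAlg K ζ P L) b * Algebra.lmul K (TorAlg K ζ P L) a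
    rw [← map_mul, mul_comm, map_mul]
  · rintro _ ⟨a, rfl⟩ h
    have h0 : Algebra.lmul K (TorAlg K ζ P L) (a * a) = Algebra.lmul K (TorAlg K ζ P L) 0 := by
      rw [map_mul, map_zero]
      exact h
    have h1 : a * a = 0 := x1_inj _ _ h0
    have h2 : a = 0 := by
      refine Prod.ext (Prod.ext ?_ ?_) ?_
      · funext i
        have h3 : a.1.1 i * a.1.1 i = 0 := congrFun (congrArg (fun t => t.1.1) h1) i
        have h4 : (a.1.1 i).1 * (a.1.1 i).1 = 0 := congrArg Prod.fst h3
        have h5 : (a.1.1 i).2 * (a.1.1 i).2 = 0 := congrArg Prod.snd h3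
        exact Prod.ext (mul_self_eq_zero.1 h4) (mul_self_eq_zero.1 h5)
      · funext j
        have h3 : a.1.2 j * a.1.2 j = 0 := congrFun (congrArg (fun t => t.1.2) h1) j
        exact mul_self_eq_zero.1 h3
      · funext z
        have h3 : a.2 z * a.2 z = 0 := congrFun (congrArg (fun t => t.2) h1) z
        exact mul_self_eq_zero.1 h3
    rw [h2, map_zero]
  · have hinj : Function.Injective (Algebra.lmul K (TorAlg K ζ P L)) := fun a b h => x1_inj a b h
    exact (AlgEquiv.ofInjective _ hinj).toLinearEquiv.finrank_eq.symm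
  · rintro _ ⟨a, rfl⟩
    exact ⟨_, ⟨starA ζ P τ a, rfl⟩, fun v w => had a v w⟩
  · choose x hx using hτ'
    set d : TorAlg K ζ P L := ((fun _ => (1, -1), fun j => x j - τ j (x j)), 0) with hd
    have hsd : starA ζ P τ d = -d := by
      refine Prod.ext (Prod.ext ?_ ?_) ?_
      · funext i
        refine Prod.ext ?_ ?_
        · change (-1 : P i) = -1
          rfl
        · change (1 : P i) = - -1
          rw [neg_neg]
      · funext j
        change τ j (x j - τ j (x j)) = -(x j - τ j (x j))
        rw [map_sub, hτ, neg_sub]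
      · change (0 : ζ → K) = -0
        rw [neg_zero]
    refine ⟨Algebra.lmul K (TorAlg K ζ P L) d, ⟨d, rfl⟩, ?_, ?_⟩
    · intro v w
      have h1 := had d v w
      rw [hsd] at h1
      have h2 : (-(Algebra.lmul K (TorAlg K ζ P L) d)) w = -d * w := by
        rw [LinearMap.neg_apply, neg_mul]
        rfl
      rw [h2]
      exact h1
    · have h1 := LinearMap.finrank_range_add_finrank_ker (Algebra.lmul K (TorAlg K ζ P L) d)
      have h2 : LinearMap.ker (Algebra.lmul K (TorAlg K ζ P L) d) ≤
          LinearMap.range (LinearMap.inr K ((∀ i, P i × P i) × (∀ j, L j)) (ζ → K)) := by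
        intro v hv
        have hv' : d * v = 0 := hv
        refine ⟨v.2, ?_⟩
        refine Prod.ext (Prod.ext ?_ ?_) ?_
        · funext i
          have h3 : d.1.1 i * v.1.1 i = 0 := congrFun (congrArg (fun t => t.1.1) hv') i
          have h4 : (1 : P i) * (v.1.1 i).1 = 0 := congrArg Prod.fst h3
          have h5 : (-1 : P i) * (v.1.1 i).2 = 0 := congrArg Prod.snd h3
          rw [one_mul] at h4
          rw [neg_one_mul, neg_eq_zero] at h5
          exact (Prod.ext h4 h5).symm
        · funext j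
          have h3 : (x j - τ j (x j)) * v.1.2 j = 0 := congrFun (congrArg (fun t => t.1.2) hv') j
          have h4 : x j - τ j (x j) ≠ 0 := sub_ne_zero.2 (hx j).symm
          exact ((mul_eq_zero.1 h3).resolve_left h4).symm
        · rfl
      have h3 := Submodule.finrank_mono h2
      have h4 := LinearMap.finrank_range_le (LinearMap.inr K ((∀ i, P i × P i) × (∀ j, L j)) (ζ → K))
      have h5 : finrank K (ζ → K) = Fintype.card ζ := Module.finrank_fintype_fun_eq_card K
      have h6 : Fintype.card ζ ≤ 1 := Fintype.card_le_one_iff_subsingleton.2 inferInstance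
      have h7 : finrank K (LinearMap.ker (Algebra.lmul K (TorAlg K ζ P L) d)) ≤ 1 :=
        h3.trans (h4.trans (h5.le.trans h6))
      omega

theorem torGL_algA : torGL (algA K ζ P L) = torusA K ζ P L := by
  ext g
  constructor
  · rintro ⟨⟨a, ha⟩, ⟨b, hb⟩⟩
    have ha' : ∀ v, g v = a * v := fun v => (LinearMap.congr_fun ha v).symm
    have hb' : ∀ v, g⁻¹ v = b * v := fun v => (LinearMap.congr_fun hb v).symm
    have h1 : ∀ v, g (g⁻¹ v) = v := fun v => LinearEquiv.apply_symm_apply g v
    have hab : a * b = 1 := by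
      have := h1 1
      rw [hb', ha', mul_one] at this
      exact this
    exact ⟨⟨a, b, hab, by rw [mul_comm]; exact hab⟩, fun v => ha' v⟩
  · intro h
    have key : ∀ g' ∈ torusA K ζ P L, g'.toLinearMap ∈ algA K ζ P L := by
      rintro g' ⟨a, ha⟩
      exact ⟨(a : TorAlg K ζ P L), LinearMap.ext fun v => (ha v).symm⟩
    exact ⟨key g h, key _ (inv_mem h)⟩

open Classical in
/-- The idempotent of `TorAlg` with the components `1` at the places of `S` and `Z`. -/
noncomputable def eSZ (K : Type) [Field K] {ι κ ζ : Type} (P : ι → Type) (L : κ → Type)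
    [∀ i, Field (P i)] [∀ i, Algebra K (P i)] [∀ j, Field (L j)] [∀ j, Algebra K (L j)]
    (S : Finset (ι ⊕ κ)) (Z : Finset ζ) : TorAlg K ζ P L :=
  ((fun i => if Sum.inl i ∈ S then 1 else 0, fun j => if Sum.inr j ∈ S then 1 else 0),
    fun z => if z ∈ Z then 1 else 0)

/-- The multiplication by `eSZ`. -/
noncomputable def mSZ (K : Type) [Field K] {ι κ ζ : Type} (P : ι → Type) (L : κ → Type)
    [∀ i, Field (P i)] [∀ i, Algebra K (P i)] [∀ j, Field (L j)] [∀ j, Algebra K (L j)]
    (S : Finset (ι ⊕ κ)) (Z : Finset ζ) : Module.End K (TorAlg K ζ P L) :=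
  Algebra.lmul K (TorAlg K ζ P L) (eSZ K P L S Z)

theorem x1_idem {F : Type} [Field F] (x : F) (h : x * x = x) : x = 0 ∨ x = 1 := by
  have h1 : x * (x - 1) = 0 := by linear_combination h
  rcases mul_eq_zero.1 h1 with h2 | h2
  · exact Or.inl h2
  · exact Or.inr (sub_eq_zero.1 h2)

theorem selfadj_idem (ε : K) (f : TorAlg K ζ P L → TorAlg K ζ P L → K)
    (hf : IsHF (RingHom.id K) ε f) (τ : ∀ j, L j ≃ₐ[K] L j) (had : Adapted τ f)
    (e : Module.End K (TorAlg K ζ P L)) (he : e ∈ algA K ζ P L) (hee : e * e = e)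
    (hs : IsAdj f e e) : ∃ (S : Finset (ι ⊕ κ)) (Z : Finset ζ), e = mSZ K P L S Z := by
  classical
  obtain ⟨a, rfl⟩ := he
  have h1 : a = starA ζ P τ a := (adj_iff ε f hf τ had a a).1 hs
  have h2 : a * a = a := by
    apply x1_inj
    rw [map_mul]
    exact hee
  have hi : ∀ i, a.1.1 i = 0 ∨ a.1.1 i = 1 := by
    intro i
    have h3 : a.1.1 i * a.1.1 i = a.1.1 i := congrFun (congrArg (fun t => t.1.1) h2) i
    have h4 : (a.1.1 i).1 * (a.1.1 i).1 = (a.1.1 i).1 := congrArg Prod.fst h3
    have h5 : a.1.1 i = (a.1.1 i).swap := congrFun (congrArg (fun t => t.1.1) h1) i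
    have h6 : (a.1.1 i).2 = (a.1.1 i).1 := congrArg Prod.snd h5
    rcases x1_idem _ h4 with h7 | h7
    · exact Or.inl (Prod.ext h7 (h6.trans h7))
    · exact Or.inr (Prod.ext h7 (h6.trans h7))
  have hj : ∀ j, a.1.2 j = 0 ∨ a.1.2 j = 1 := by
    intro j
    exact x1_idem _ (congrFun (congrArg (fun t => t.1.2) h2) j)
  have hz : ∀ z, a.2 z = 0 ∨ a.2 z = 1 := by
    intro z
    exact x1_idem _ (congrFun (congrArg (fun t => t.2) h2) z)
  refine ⟨Finset.univ.filter (fun k => Sum.elim (fun i => a.1.1 i = 1) (fun j => a.1.2 j = 1) k),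
    Finset.univ.filter (fun z => a.2 z = 1), ?_⟩
  unfold mSZ
  have h8 : a = eSZ K P L
      (Finset.univ.filter (fun k => Sum.elim (fun i => a.1.1 i = 1) (fun j => a.1.2 j = 1) k))
      (Finset.univ.filter (fun z => a.2 z = 1)) := by
    unfold eSZ
    refine Prod.ext (Prod.ext ?_ ?_) ?_
    · funext i
      simp only [Finset.mem_filter, Finset.mem_univ, true_and, Sum.elim_inl]
      split_ifs with h9
      · exact h9
      · exact (hi i).resolve_right h9
    · funext j
      simp only [Finset.mem_filter, Finset.mem_univ, true_and, Sum.elim_inr]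
      split_ifs with h9
      · exact h9
      · exact (hj j).resolve_right h9
    · funext z
      simp only [Finset.mem_filter, Finset.mem_univ, true_and]
      split_ifs with h9
      · exact h9
      · exact (hz z).resolve_right h9
  exact congrArg (Algebra.lmul K (TorAlg K ζ P L)) h8

theorem mSZ_spec (ε : K) (f : TorAlg K ζ P L → TorAlg K ζ P L → K)
    (hf : IsHF (RingHom.id K) ε f) (τ : ∀ j, L j ≃ₐ[K] L j) (had : Adapted τ f)
    (S : Finset (ι ⊕ κ)) (Z : Finset ζ) :
    mSZ K P L S Z ∈ algA K ζ P L ∧ mSZ K P L S Z * mSZ K P L S Z = mSZ K P L S Z ∧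
      IsAdj f (mSZ K P L S Z) (mSZ K P L S Z) := by
  classical
  refine ⟨⟨_, rfl⟩, ?_, ?_⟩
  · unfold mSZ
    rw [← map_mul]
    congr 1
    unfold eSZ
    refine Prod.ext (Prod.ext ?_ ?_) ?_
    · funext i
      simp
    · funext j
      simp
    · funext z
      simp
  · refine (adj_iff ε f hf τ had _ _).2 ?_
    unfold eSZ starA
    refine Prod.ext (Prod.ext ?_ ?_) ?_
    · funext i
      by_cases h : Sum.inl i ∈ S
      · simp [h]
      · simp [h]
    · funext j
      by_cases h : Sum.inr j ∈ S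
      · simp [h]
      · simp [h]
    · rfl

theorem x1_even (j : κ) (τ : L j ≃ₐ[K] L j) (hτ : ∀ x, τ (τ x) = x)
    (hτ' : ∃ x, τ x ≠ x) : finrank K (L j) = 2 * (finrank K (L j) / 2) := by
  have h1 : orderOf τ = 2 := by
    apply orderOf_eq_prime
    · ext x
      rw [pow_two]
      exact hτ x
    · rintro rfl
      obtain ⟨x, hx⟩ := hτ'
      exact hx rfl
  have h2 := IntermediateField.finrank_fixedField_eq_card (Subgroup.zpowers τ)
  rw [Nat.card_zpowers, h1] at h2
  have h3 := Module.finrank_mul_finrank K (IntermediateField.fixedField (Subgroup.zpowers τ)) (L j)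
  rw [h2] at h3
  omega

theorem rank_mSZ (τ : ∀ j, L j ≃ₐ[K] L j) (hτ : ∀ j x, τ j (τ j x) = x)
    (hτ' : ∀ j, ∃ x, τ j x ≠ x) (S : Finset (ι ⊕ κ)) (Z : Finset ζ) :
    finrank K (LinearMap.range (mSZ K P L S Z)) = 2 * ∑ k ∈ S, lenA K P L k + Z.card := by
  classical
  set F : TorAlg K ζ P L →ₗ[K]
      ((∀ i : S.toLeft, P i × P i) × (∀ j : S.toRight, L j)) × (Z → K) :=
    { toFun := fun v => ((fun i => v.1.1 i, fun j => v.1.2 j), fun z => v.2 z)
      map_add' := fun _ _ => rfl
      map_smul' := fun _ _ => rfl } with hF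
  have hsurj : Function.Surjective F := by
    intro w
    refine ⟨((fun i => if h : i ∈ S.toLeft then w.1.1 ⟨i, h⟩ else 0,
      fun j => if h : j ∈ S.toRight then w.1.2 ⟨j, h⟩ else 0),
      fun z => if h : z ∈ Z then w.2 ⟨z, h⟩ else 0), ?_⟩
    rw [hF]
    refine Prod.ext (Prod.ext ?_ ?_) ?_
    · funext i
      exact dif_pos i.2
    · funext j
      exact dif_pos j.2
    · funext z
      exact dif_pos z.2
  have hker : LinearMap.ker F = LinearMap.ker (mSZ K P L S Z) := by
    ext v
    rw [LinearMap.mem_ker, LinearMap.mem_ker]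
    constructor
    · intro h
      have h1 : ∀ i : S.toLeft, v.1.1 i = 0 := fun i => congrFun (congrArg (fun t => t.1.1) h) i
      have h2 : ∀ j : S.toRight, v.1.2 j = 0 := fun j => congrFun (congrArg (fun t => t.1.2) h) j
      have h3 : ∀ z : Z, v.2 z = 0 := fun z => congrFun (congrArg (fun t => t.2) h) z
      change eSZ K P L S Z * v = 0
      unfold eSZ
      refine Prod.ext (Prod.ext ?_ ?_) ?_
      · funext i
        change (if Sum.inl i ∈ S then 1 else 0) * v.1.1 i = 0
        split_ifs with h4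
        · rw [one_mul, h1 ⟨i, Finset.mem_toLeft.2 h4⟩]
        · rw [zero_mul]
      · funext j
        change (if Sum.inr j ∈ S then 1 else 0) * v.1.2 j = 0
        split_ifs with h4
        · rw [one_mul, h2 ⟨j, Finset.mem_toRight.2 h4⟩]
        · rw [zero_mul]
      · funext z
        change (if z ∈ Z then 1 else 0) * v.2 z = 0
        split_ifs with h4
        · rw [one_mul, h3 ⟨z, h4⟩]
        · rw [zero_mul]
    · intro h
      have h0 : eSZ K P L S Z * v = 0 := h
      rw [hF]
      refine Prod.ext (Prod.ext ?_ ?_) ?_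
      · funext i
        have h1 : (if Sum.inl (i : ι) ∈ S then 1 else 0) * v.1.1 i = 0 :=
          congrFun (congrArg (fun t => t.1.1) h0) (i : ι)
        rw [if_pos (Finset.mem_toLeft.1 i.2), one_mul] at h1
        exact h1
      · funext j
        have h1 : (if Sum.inr (j : κ) ∈ S then 1 else 0) * v.1.2 j = 0 :=
          congrFun (congrArg (fun t => t.1.2) h0) (j : κ)
        rw [if_pos (Finset.mem_toRight.1 j.2), one_mul] at h1
        exact h1
      · funext z
        have h1 : (if (z : ζ) ∈ Z then 1 else 0) * v.2 z = 0 :=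
          congrFun (congrArg (fun t => t.2) h0) (z : ζ)
        rw [if_pos z.2, one_mul] at h1
        exact h1
  have h1 := LinearMap.finrank_range_add_finrank_ker F
  have h2 := LinearMap.finrank_range_add_finrank_ker (mSZ K P L S Z)
  rw [hker] at h1
  rw [LinearMap.range_eq_top.2 hsurj, finrank_top] at h1
  have h3 : finrank K (LinearMap.range (mSZ K P L S Z)) =
      finrank K (((∀ i : S.toLeft, P i × P i) × (∀ j : S.toRight, L j)) × (Z → K)) := by omega
  rw [h3, Module.finrank_prod, Module.finrank_prod, Module.finrank_pi_fintype,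
    Module.finrank_pi_fintype, Module.finrank_fintype_fun_eq_card, Fintype.card_coe]
  congr 1
  have h4 : ∑ k ∈ S, lenA K P L k =
      ∑ i ∈ S.toLeft, finrank K (P i) + ∑ j ∈ S.toRight, finrank K (L j) / 2 := by
    conv_lhs => rw [← Finset.toLeft_disjSum_toRight (u := S)]
    rw [Finset.sum_disjSum]
    rfl
  have h5 : ∑ i : S.toLeft, finrank K (P i × P i) = ∑ i ∈ S.toLeft, 2 * finrank K (P i) := by
    rw [← Finset.sum_coe_sort S.toLeft (fun i => 2 * finrank K (P i))]
    refine Finset.sum_congr rfl fun i _ => ?_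
    rw [Module.finrank_prod]
    ring
  have h6 : ∑ j : S.toRight, finrank K (L j) =
      ∑ j ∈ S.toRight, 2 * (finrank K (L j) / 2) := by
    rw [← Finset.sum_coe_sort S.toRight (fun j => 2 * (finrank K (L j) / 2))]
    refine Finset.sum_congr rfl fun j _ => ?_
    exact x1_even (j : κ) (τ j) (hτ j) (hτ' j)
  rw [h4, mul_add, Finset.mul_sum, Finset.mul_sum, h5, h6]

end

end Pool.Agent.CTO
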