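import Pool.Agent.CTO.X2
import Pool.Agent.CTO.Y1

/-!
# X3: the criterion in the symplectic case

`ε = -1`. `ζ` is empty: for `z ∈ ζ` let `e = eSZ ∅ {z}`; `f (e v) w = f v (e w)`, so `f e w = f e (e w)` is a multiple of
`f e e = 0` (`e TorAlg = K e`), so `e = 0` by nondegeneracy, a contradiction. `Crit f algA ↔ DistinctC`:
selfadjoint idempotents are the `mSZ S ∅` (`selfadj_idem`, `mSZ_spec`), `IsoSp f (range (mSZ S ∅)) (range (mSZ S' ∅))`
iff the dimensions `2 ∑_S lenA`, `2 ∑_S' lenA` are equal (`iso_alt`; `f` restricted to the range of a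
selfadjoint idempotent is nondegenerate; `rank_mSZ`), and `SIso` iff the multisets agree (`siso_iff`).
-/

namespace Pool.Agent.CTO

open Module

section

/-- the restriction of the form to the range of a selfadjoint idempotent -/
theorem X3_res {K V : Type} [Field K] [AddCommGroup V] [Module K V] (σ : K →+* K) (ε : K)
    (f : V → V → K) (hf : IsHF σ ε f) (e : Module.End K V) (he : e * e = e) (hs : IsAdj f e e) :
    IsHF σ ε (resF f (LinearMap.range e)) := by
  refine ⟨hf.invol, hf.eps, ?_, ?_, ?_, ?_⟩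
  · intro u v w
    exact hf.add_left u v w
  · intro a v w
    exact hf.smul_left a v w
  · intro v w
    exact hf.herm v w
  · intro v hv
    apply Subtype.ext
    apply hf.nondeg
    intro x
    have h1 : e (v : V) = v := by
      obtain ⟨u, hu⟩ := v.2
      rw [← hu]
      exact congrArg (fun a : Module.End K V => a u) he
    rw [← h1, hs (v : V) x]
    exact hv ⟨e x, ⟨x, rfl⟩⟩

variable {K : Type} [Field K] [Finite K] {ι κ : Type} {ζ : Type} [Fintype ι] [Fintype κ]
  [Fintype ζ] {P : ι → Type} {L : κ → Type} [∀ i, Field (P i)] [∀ i, Algebra K (P i)]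
  [∀ j, Field (L j)] [∀ j, Algebra K (L j)] [∀ i, FiniteDimensional K (P i)]
  [∀ j, FiniteDimensional K (L j)]

omit [Finite K] [Fintype ι] [Fintype κ] [Fintype ζ] [∀ i, FiniteDimensional K (P i)]
  [∀ j, FiniteDimensional K (L j)] in
theorem X3_empty (two : (2 : K) ≠ 0) (f : TorAlg K ζ P L → TorAlg K ζ P L → K)
    (hf : IsHF (RingHom.id K) (-1) f) (τ : ∀ j, L j ≃ₐ[K] L j) (had : Adapted τ f) :
    IsEmpty ζ := by
  classical
  refine ⟨fun z => ?_⟩
  set e : TorAlg K ζ P L := ((0, 0), fun z' => if z' = z then 1 else 0) with he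
  have hstar : starA ζ P τ e = e := by
    rw [he, starA]
    refine Prod.ext (Prod.ext ?_ ?_) rfl
    · funext i
      rfl
    · funext j
      exact map_zero (τ j)
  have hee : e * e = e := by
    rw [he]
    refine Prod.ext (Prod.ext ?_ ?_) ?_
    · exact mul_zero _
    · exact mul_zero _
    · funext z'
      change (if z' = z then (1 : K) else 0) * (if z' = z then (1 : K) else 0) =
        if z' = z then 1 else 0
      split_ifs <;> simp
  have hew : ∀ w : TorAlg K ζ P L, e * w = (w.2 z) • e := by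
    intro w
    rw [he]
    refine Prod.ext (Prod.ext ?_ ?_) ?_
    · change (0 : ∀ i, P i × P i) * w.1.1 = w.2 z • (0 : ∀ i, P i × P i)
      rw [zero_mul, smul_zero]
    · change (0 : ∀ j, L j) * w.1.2 = w.2 z • (0 : ∀ j, L j)
      rw [zero_mul, smul_zero]
    · funext z'
      change (if z' = z then (1 : K) else 0) * w.2 z' = w.2 z * (if z' = z then 1 else 0)
      split_ifs with h
      · rw [h, mul_comm]
      · rw [zero_mul, mul_zero]
  have halt : ∀ v, f v v = 0 := by
    intro v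
    have h1 := hf.herm v v
    rw [RingHom.id_apply] at h1
    have h2 : 2 * f v v = 0 := by linear_combination h1
    exact (mul_eq_zero.1 h2).resolve_left two
  have h0 : e = 0 := by
    apply hf.nondeg
    intro w
    have h1 : f (e * e) w = f e (starA ζ P τ e * w) := had e e w
    rw [hee, hstar, hew] at h1
    rw [h1, hf.herm, hf.smul_left, halt]
    simp
  have h2 : e.2 z = 1 := by
    rw [he]
    exact if_pos rfl
  rw [h0] at h2
  exact zero_ne_one h2

theorem critC_iff (two : (2 : K) ≠ 0) (f : TorAlg K ζ P L → TorAlg K ζ P L → K)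
    (hf : IsHF (RingHom.id K) (-1) f) (τ : ∀ j, L j ≃ₐ[K] L j) (hτ : ∀ j x, τ j (τ j x) = x)
    (hτ' : ∀ j, ∃ x, τ j x ≠ x) (had : Adapted τ f) :
    Crit f (algA K ζ P L) ↔ DistinctC K P L := by
  have hζ : IsEmpty ζ := X3_empty two f hf τ had
  have hZ : ∀ Z : Finset ζ, Z = ∅ := fun Z => Finset.eq_empty_of_isEmpty Z
  constructor
  · intro h S S' hSS
    obtain ⟨h1, h2, h3⟩ := mSZ_spec (-1) f hf τ had S (∅ : Finset ζ)
    obtain ⟨h1', h2', h3'⟩ := mSZ_spec (-1) f hf τ had S' (∅ : Finset ζ)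
    have hr := rank_mSZ (K := K) (P := P) (L := L) τ hτ hτ' S (∅ : Finset ζ)
    have hr' := rank_mSZ (K := K) (P := P) (L := L) τ hτ hτ' S' (∅ : Finset ζ)
    have hiso : IsoSp f (LinearMap.range (mSZ K P L S (∅ : Finset ζ)))
        (LinearMap.range (mSZ K P L S' (∅ : Finset ζ))) := by
      obtain ⟨φ, hφ⟩ := iso_alt K _ _ two _ _ (X3_res _ _ f hf _ h2 h3)
        (X3_res _ _ f hf _ h2' h3') (by rw [hr, hr', hSS])
      exact ⟨φ, hφ⟩
    have hS := h _ h1 _ h1' h2 h3 h2' h3' hiso
    exact ((siso_iff (-1) f hf τ hτ hτ' had S S' ∅ ∅).1 hS).2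
  · intro h e he e' he' hee hs hee' hs' hiso
    obtain ⟨S, Z, rfl⟩ := selfadj_idem (-1) f hf τ had e he hee hs
    obtain ⟨S', Z', rfl⟩ := selfadj_idem (-1) f hf τ had e' he' hee' hs'
    obtain ⟨φ, -⟩ := hiso
    have h1 := φ.finrank_eq
    rw [rank_mSZ τ hτ hτ', rank_mSZ τ hτ hτ', hZ Z, hZ Z'] at h1
    have h2 : ∑ k ∈ S, lenA K P L k = ∑ k ∈ S', lenA K P L k := by omega
    refine (siso_iff (-1) f hf τ hτ hτ' had S S' Z Z').2 ⟨?_, h S S' h2⟩
    rw [hZ Z, hZ Z']

end

end Pool.Agent.CTO
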