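import Mathlib

/-!
# MP_0dcdae_al, types B, C, D: basic definitions

`K` is a field, `V` a `K`-space, `f : V → V → K` a nondegenerate `ε`-hermitian form with respect
to a ring involution `σ` of `K` (`IsHF σ ε f`); `σ = id` gives the symmetric (`ε = 1`) and the
alternating (`ε = -1`, odd characteristic) bilinear forms.

A maximal torus is described by its algebra: `IsTorGL A` says that `A ≤ End V` is a commutative
reduced subalgebra with `dim A = dim V`, and `IsTor f A` that moreover `A` is stable under the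
adjoint involution of `f` and is `of rank two over the selfadjoint elements`, up to one
one-dimensional factor (this factor occurs exactly if `dim V` is odd).
-/

namespace Pool.Agent.CTO

open Module

section defs

variable {K V : Type} [Field K] [AddCommGroup V] [Module K V]

/-- `f` is a nondegenerate `ε`-hermitian form (linear in the first variable, `σ`-semilinear in the
second one), `ε = 1` or `ε = -1`. -/
structure IsHF (σ : K →+* K) (ε : K) (f : V → V → K) : Prop where
  invol : ∀ x, σ (σ x) = x
  eps : ε = 1 ∨ ε = -1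
  add_left : ∀ u v w, f (u + v) w = f u w + f v w
  smul_left : ∀ (a : K) (v w : V), f (a • v) w = a * f v w
  herm : ∀ v w, f w v = ε * σ (f v w)
  nondeg : ∀ v, (∀ w, f v w = 0) → v = 0

/-- `S` and `T` are adjoint: `f (S v) w = f v (T w)`. -/
def IsAdj (f : V → V → K) (S T : Module.End K V) : Prop := ∀ v w, f (S v) w = f v (T w)

/-- The isometry group of `f`. -/
def Isom (f : V → V → K) : Subgroup (V ≃ₗ[K] V) where
  carrier := {g | ∀ v w, f (g v) (g w) = f v w}
  mul_mem' := by
    intro a b ha hb v w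
    simp only [LinearEquiv.mul_apply]
    rw [ha, hb]
  one_mem' := by intro v w; rfl
  inv_mem' := by
    intro a ha v w
    have h1 : ∀ u, a (a⁻¹ u) = u := fun u => LinearEquiv.apply_symm_apply a u
    have := ha (a⁻¹ v) (a⁻¹ w)
    rw [h1, h1] at this
    exact this.symm

lemma mem_Isom {f : V → V → K} {g : V ≃ₗ[K] V} : g ∈ Isom f ↔ ∀ v w, f (g v) (g w) = f v w :=
  Iff.rfl

/-- The algebra of a maximal torus of `GL(V)`. -/
structure IsTorGL (A : Subalgebra K (Module.End K V)) : Prop where
  comm : ∀ a ∈ A, ∀ b ∈ A, a * b = b * a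
  red : ∀ a ∈ A, a * a = 0 → a = 0
  rank : finrank K A = finrank K V

/-- The algebra of a maximal torus of the isometry group of `f`. -/
structure IsTor (f : V → V → K) (A : Subalgebra K (Module.End K V)) : Prop extends IsTorGL A where
  star : ∀ a ∈ A, ∃ b ∈ A, IsAdj f a b
  skew : ∃ d ∈ A, IsAdj f d (-d) ∧ finrank K V ≤ finrank K (LinearMap.range d) + 1

/-- The units of `A`, as a subgroup of `GL(V)`. -/
def torGL (A : Subalgebra K (Module.End K V)) : Subgroup (V ≃ₗ[K] V) where
  carrier := {g | g.toLinearMap ∈ A ∧ (g⁻¹).toLinearMap ∈ A}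
  mul_mem' := by
    rintro a b ⟨ha, ha'⟩ ⟨hb, hb'⟩
    refine ⟨A.mul_mem ha hb, ?_⟩
    rw [mul_inv_rev]
    exact A.mul_mem hb' ha'
  one_mem' := ⟨A.one_mem, by rw [inv_one]; exact A.one_mem⟩
  inv_mem' := by
    rintro a ⟨ha, ha'⟩
    exact ⟨ha', by rw [inv_inv]; exact ha⟩

lemma mem_torGL {A : Subalgebra K (Module.End K V)} {g : V ≃ₗ[K] V} :
    g ∈ torGL A ↔ g.toLinearMap ∈ A ∧ (g⁻¹).toLinearMap ∈ A := Iff.rfl

/-- The torus of `A`: the isometries in `A`, with determinant one if `σ` is the identity. -/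
noncomputable def tor (σ : K →+* K) (f : V → V → K) (A : Subalgebra K (Module.End K V)) :
    Subgroup (V ≃ₗ[K] V) where
  carrier := {g | g ∈ torGL A ∧ g ∈ Isom f ∧ ((∀ x, σ x = x) → LinearEquiv.det g = 1)}
  mul_mem' := by
    rintro a b ⟨ha, ha', ha''⟩ ⟨hb, hb', hb''⟩
    refine ⟨mul_mem ha hb, mul_mem ha' hb', fun h => ?_⟩
    rw [map_mul, ha'' h, hb'' h, one_mul]
  one_mem' := ⟨one_mem _, one_mem _, fun _ => map_one _⟩
  inv_mem' := by
    rintro a ⟨ha, ha', ha''⟩
    refine ⟨inv_mem ha, inv_mem ha', fun h => ?_⟩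
    rw [map_inv, ha'' h, inv_one]

lemma mem_tor {σ : K →+* K} {f : V → V → K} {A : Subalgebra K (Module.End K V)} {g : V ≃ₗ[K] V} :
    g ∈ tor σ f A ↔ g ∈ torGL A ∧ g ∈ Isom f ∧ ((∀ x, σ x = x) → LinearEquiv.det g = 1) := Iff.rfl

/-- The subgroup generated by the squares of the elements of `T`. -/
def sq {G : Type} [Group G] (T : Subgroup G) : Subgroup G :=
  Subgroup.closure {x | ∃ t ∈ T, x = t * t}

/-- The set of endomorphisms given by the elements of `H`. -/
def EndSet (H : Subgroup (V ≃ₗ[K] V)) : Set (Module.End K V) :=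
  {x | ∃ h ∈ H, x = h.toLinearMap}

/-- `g A g⁻¹ ≤ A'`. -/
def CarriesTo (g : V ≃ₗ[K] V) (A A' : Subalgebra K (Module.End K V)) : Prop :=
  ∀ a ∈ A, g.toLinearMap ∘ₗ a ∘ₗ g.symm.toLinearMap ∈ A'

/-- The data of an Eichler transformation: `u` isotropic, `w` orthogonal to `u`,
`σ γ + ε γ = - f w w`. -/
def IsEich (σ : K →+* K) (ε : K) (f : V → V → K) (u w : V) (γ : K) : Prop :=
  f u u = 0 ∧ f w u = 0 ∧ σ γ + ε * γ = - f w w

/-- The Eichler transformations `x ↦ x + f(x,u) w - ε f(x,w) u + γ f(x,u) u`; for `w = 0` these are the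
transvections. -/
def EichSet (σ : K →+* K) (ε : K) (f : V → V → K) : Set (V ≃ₗ[K] V) :=
  {g | ∃ (u w : V) (γ : K), IsEich σ ε f u w γ ∧
    ∀ x, g x = x + f x u • w - (ε * f x w) • u + (γ * f x u) • u}

/-- The group generated by the Eichler transformations. -/
def EU (σ : K →+* K) (ε : K) (f : V → V → K) : Subgroup (V ≃ₗ[K] V) :=
  Subgroup.closure (EichSet σ ε f)

/-- `g` is the reflection in the hyperplane orthogonal to `u` (`ε = 1`, `σ = id`, `f u u ≠ 0`). -/
def IsRefl (f : V → V → K) (u : V) (g : V ≃ₗ[K] V) : Prop :=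
  f u u ≠ 0 ∧ ∀ x, g x = x - (2 * f x u / f u u) • u

/-- The restrictions to `W` of the elements of `A` (which preserve `W`). -/
def restr (A : Subalgebra K (Module.End K V)) (W : Submodule K V) :
    Subalgebra K (Module.End K W) where
  carrier := {x | ∃ a ∈ A, ∀ w : W, ((x w : W) : V) = a w}
  mul_mem' := by
    rintro x y ⟨a, ha, hx⟩ ⟨b, hb, hy⟩
    exact ⟨a * b, A.mul_mem ha hb, fun w => by
      rw [Module.End.mul_apply, Module.End.mul_apply, hx, hy]⟩
  add_mem' := by
    rintro x y ⟨a, ha, hx⟩ ⟨b, hb, hy⟩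
    exact ⟨a + b, A.add_mem ha hb, fun w => by
      rw [LinearMap.add_apply, LinearMap.add_apply, Submodule.coe_add, hx, hy]⟩
  algebraMap_mem' := by
    intro r
    exact ⟨algebraMap K _ r, A.algebraMap_mem r, fun w => by
      simp [Module.algebraMap_end_apply]⟩

/-- The endomorphisms of `V ⧸ W` induced by the elements of `A` (which preserve `W`). -/
def quo (A : Subalgebra K (Module.End K V)) (W : Submodule K V) :
    Subalgebra K (Module.End K (V ⧸ W)) where
  carrier := {x | ∃ a ∈ A, ∀ v : V, x (W.mkQ v) = W.mkQ (a v)}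
  mul_mem' := by
    rintro x y ⟨a, ha, hx⟩ ⟨b, hb, hy⟩
    exact ⟨a * b, A.mul_mem ha hb, fun w => by
      rw [Module.End.mul_apply, Module.End.mul_apply, hy, hx]⟩
  add_mem' := by
    rintro x y ⟨a, ha, hx⟩ ⟨b, hb, hy⟩
    exact ⟨a + b, A.add_mem ha hb, fun w => by
      rw [LinearMap.add_apply, LinearMap.add_apply, map_add, hx, hy]⟩
  algebraMap_mem' := by
    intro r
    exact ⟨algebraMap K _ r, A.algebraMap_mem r, fun w => by
      simp [Module.algebraMap_end_apply]⟩

/-- The form `f` on the subspace `W`. -/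
def resF (f : V → V → K) (W : Submodule K V) : W → W → K := fun v w => f v w

/-- The subspaces `W`, `W'` with the forms induced by `f` are isometric. -/
def IsoSp (f : V → V → K) (W W' : Submodule K V) : Prop :=
  ∃ φ : W ≃ₗ[K] W', ∀ v w : W, f (φ v) (φ w) = f v w

/-- The orthogonal space of `U`. -/
def perp (σ : K →+* K) (ε : K) (f : V → V → K) (hf : IsHF σ ε f) (U : Submodule K V) :
    Submodule K V where
  carrier := {v | ∀ u ∈ U, f v u = 0}
  add_mem' := by
    intro a b ha hb u hu
    rw [hf.add_left, ha u hu, hb u hu, add_zero]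
  zero_mem' := by
    intro u _
    have h := hf.smul_left 0 0 u
    rw [zero_smul, zero_mul] at h
    exact h
  smul_mem' := by
    intro c a ha u hu
    rw [hf.smul_left, ha u hu, mul_zero]

end defs

section defs2

variable {K V W : Type} [Field K] [AddCommGroup V] [Module K V] [AddCommGroup W] [Module K W]

/-- The algebras with involution `A`, `A'` are isomorphic. -/
def SIso (f : V → V → K) (A : Subalgebra K (Module.End K V))
    (f' : W → W → K) (A' : Subalgebra K (Module.End K W)) : Prop :=
  ∃ φ : A ≃ₐ[K] A', ∀ a b : A, IsAdj f (a : Module.End K V) b →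
    IsAdj f' (φ a : Module.End K W) (φ b)

end defs2

section defs3

variable {K V : Type} [Field K] [AddCommGroup V] [Module K V]

/-- The selfadjoint idempotents of `A` with isometric images have isomorphic algebras with
involution. -/
def Crit (f : V → V → K) (A : Subalgebra K (Module.End K V)) : Prop :=
  ∀ e ∈ A, ∀ e' ∈ A, e * e = e → IsAdj f e e → e' * e' = e' → IsAdj f e' e' →
    IsoSp f (LinearMap.range e) (LinearMap.range e') →
    SIso (resF f (LinearMap.range e)) (restr A (LinearMap.range e))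
      (resF f (LinearMap.range e')) (restr A (LinearMap.range e'))

/-- Idempotents of `A` with images of the same dimension have isomorphic algebras. -/
def CritGL (A : Subalgebra K (Module.End K V)) : Prop :=
  ∀ e ∈ A, ∀ e' ∈ A, e * e = e → e' * e' = e' →
    finrank K (LinearMap.range e) = finrank K (LinearMap.range e') →
    Nonempty (restr A (LinearMap.range e) ≃ₐ[K] restr A (LinearMap.range e'))

/-- The positive cycles of `A` have odd length: every primitive idempotent `e` of `A` orthogonal to
its adjoint has odd rank. -/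
def OddPos (f : V → V → K) (A : Subalgebra K (Module.End K V)) : Prop :=
  ∀ e ∈ A, ∀ e' ∈ A, e * e = e → IsAdj f e e' → e * e' = 0 → e ≠ 0 →
    (∀ a ∈ A, a * a = a → a * e = a → a = 0 ∨ a = e) → Odd (finrank K (LinearMap.range e))

end defs3

end Pool.Agent.CTO
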