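import Pool.Agent.CTO.A1

/-!
# F0: change of fields

`E` is a field, `V` an `E`-space and a `K`-space (`IsScalarTower K E V`). `Algebra.lsmul K K V e` is the
multiplication by `e ∈ E` as a `K`-endomorphism. For a commutative `K`-subalgebra `A` of `End_K V`
containing `E` let `liftAlg A hE` be the `E`-algebra of the `E`-linear maps which lie in `A`; since `A` is
commutative and contains `E`, every element of `A` is `E`-linear.
* `lift_isTorGL`: commutativity and reducedness are clear; `liftAlg A hE` and `A` have the same elements,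
  so `dim_K` of both is `dim_K V`; divide by `[E : K]` (`Module.finrank_mul_finrank`; `liftAlg A hE` is an
  `E`-space and a `K`-space; `E` is finite dimensional over `K` because `V ≠ 0` is; if `V = 0` everything
  is `0`).
* `resH` restricts the scalars of `E`-linear automorphisms, an injective homomorphism.
* `lift_torGL_map`: `resH` maps `torGL (liftAlg A hE)` onto `torGL A`.
* `sq_sup_map`: `resH` commutes with `sq` and `⊔` (`Subgroup.map_sup`, `map_closure`); for any
  homomorphism of groups.
* `carries_of_lift`: if `g` carries `liftAlg A` to `liftAlg A'` then `resH g` carries `A` to `A'`.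
* `adjoin_lift`: if every `K`-endomorphism which commutes with `E` is in `Algebra.adjoin K (EndSet (H.map resH))`
  then `Algebra.adjoin E (EndSet H) = ⊤`.
-/

namespace Pool.Agent.CTO

open Module

section

variable {K E V : Type} [Field K] [Field E] [Algebra K E] [AddCommGroup V] [Module K V] [Module E V]
  [IsScalarTower K E V]

/-- The `E`-linear endomorphisms that lie in `A`. -/
def liftAlg (A : Subalgebra K (Module.End K V)) (hE : ∀ e : E, Algebra.lsmul K K V e ∈ A) :
    Subalgebra E (Module.End E V) where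
  carrier := {x | x.restrictScalars K ∈ A}
  mul_mem' := by
    intro x y hx hy
    exact A.mul_mem hx hy
  add_mem' := by
    intro x y hx hy
    exact A.add_mem hx hy
  algebraMap_mem' := by
    intro e
    have h : (algebraMap E (Module.End E V) e).restrictScalars K = Algebra.lsmul K K V e := by
      ext v
      simp [Module.algebraMap_end_apply]
    show (algebraMap E (Module.End E V) e).restrictScalars K ∈ A
    rw [h]
    exact hE e

/-- Restriction of scalars for automorphisms. -/
def resH : (V ≃ₗ[E] V) →* (V ≃ₗ[K] V) where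
  toFun g := g.restrictScalars K
  map_one' := rfl
  map_mul' _ _ := rfl

theorem resH_inj : Function.Injective (resH : (V ≃ₗ[E] V) →* (V ≃ₗ[K] V)) := by
  intro a b h
  ext v
  exact LinearEquiv.congr_fun h v

theorem resH_apply (g : V ≃ₗ[E] V) (v : V) : (resH g : V ≃ₗ[K] V) v = g v := rfl

theorem sq_sup_map {G G' : Type} [Group G] [Group G'] (φ : G →* G') (S T : Subgroup G) :
    (sq S ⊔ sq T).map φ = sq (S.map φ) ⊔ sq (T.map φ) := by
  have h : ∀ U : Subgroup G, (sq U).map φ = sq (U.map φ) := by
    intro U
    unfold sq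
    rw [MonoidHom.map_closure]
    congr 1
    ext x
    constructor
    · rintro ⟨y, ⟨t, ht, rfl⟩, rfl⟩
      exact ⟨φ t, ⟨t, ht, rfl⟩, map_mul φ t t⟩
    · rintro ⟨y, ⟨t, ht, rfl⟩, rfl⟩
      exact ⟨t * t, ⟨t, ht, rfl⟩, map_mul φ t t⟩
  rw [Subgroup.map_sup, h, h]

/-- The elements of `A` are `E`-linear. -/
theorem F0_lin (A : Subalgebra K (Module.End K V)) (hA : IsTorGL A)
    (hE : ∀ e : E, Algebra.lsmul K K V e ∈ A) (a : Module.End K V) (ha : a ∈ A) (e : E) (v : V) :
    a (e • v) = e • a v := by
  have h := hA.comm a ha _ (hE e)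
  have h1 := LinearMap.congr_fun h v
  simpa [Module.End.mul_apply] using h1

/-- The lift of an element of `A`. -/
theorem F0_lift (A : Subalgebra K (Module.End K V)) (hA : IsTorGL A)
    (hE : ∀ e : E, Algebra.lsmul K K V e ∈ A) (a : Module.End K V) (ha : a ∈ A) :
    ∃ x : Module.End E V, x.restrictScalars K = a := by
  refine ⟨{ toFun := a, map_add' := a.map_add, map_smul' := ?_ }, ?_⟩
  · intro e v
    exact F0_lin A hA hE a ha e v
  · ext v
    rfl

theorem lift_isTorGL [FiniteDimensional K V] (A : Subalgebra K (Module.End K V)) (hA : IsTorGL A)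
    (hE : ∀ e : E, Algebra.lsmul K K V e ∈ A) : IsTorGL (liftAlg A hE) := by
  refine ⟨?_, ?_, ?_⟩
  · intro x hx y hy
    have h := hA.comm _ hx _ hy
    ext v
    exact LinearMap.congr_fun h v
  · intro x hx hxx
    have h : x.restrictScalars K * x.restrictScalars K = 0 := by
      ext v
      exact LinearMap.congr_fun hxx v
    have h0 := hA.red _ hx h
    ext v
    exact LinearMap.congr_fun h0 v
  · obtain ⟨v0, hinj, hsurj⟩ := exists_cyc A hA
    have hbij : Function.Bijective
        ((LinearMap.applyₗ v0 : Module.End E V →ₗ[E] V).comp (liftAlg A hE).toSubmodule.subtype) := by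
      constructor
      · rw [← LinearMap.ker_eq_bot, LinearMap.ker_eq_bot']
        rintro ⟨x, hx⟩ h0
        have h1 : x v0 = 0 := h0
        have h2 := hinj _ hx h1
        apply Subtype.ext
        ext v
        exact LinearMap.congr_fun h2 v
      · intro v
        obtain ⟨a, ha, hav⟩ := hsurj v
        obtain ⟨x, hx⟩ := F0_lift A hA hE a ha
        have hxm : x ∈ liftAlg A hE := by
          show x.restrictScalars K ∈ A
          rw [hx]
          exact ha
        refine ⟨⟨x, hxm⟩, ?_⟩
        show x v0 = v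
        rw [← hav, ← hx]
        rfl
    exact LinearEquiv.finrank_eq (LinearEquiv.ofBijective _ hbij)

theorem lift_torGL_map (A : Subalgebra K (Module.End K V)) (hA : IsTorGL A)
    (hE : ∀ e : E, Algebra.lsmul K K V e ∈ A) : (torGL (liftAlg A hE)).map resH = torGL A := by
  ext g
  constructor
  · rintro ⟨h, ⟨h1, h2⟩, rfl⟩
    exact ⟨h1, h2⟩
  · rintro ⟨h1, h2⟩
    refine ⟨{ g with map_smul' := fun e v => F0_lin A hA hE _ h1 e v }, ⟨?_, ?_⟩, ?_⟩
    · exact h1
    · exact h2
    · ext v
      rfl

theorem carries_of_lift (A A' : Subalgebra K (Module.End K V)) (hA : IsTorGL A)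
    (hE : ∀ e : E, Algebra.lsmul K K V e ∈ A) (hE' : ∀ e : E, Algebra.lsmul K K V e ∈ A')
    (g : V ≃ₗ[E] V) (hg : CarriesTo g (liftAlg A hE) (liftAlg A' hE')) :
    CarriesTo (resH g) A A' := by
  intro a ha
  obtain ⟨x, hx⟩ := F0_lift A hA hE a ha
  have hxm : x ∈ liftAlg A hE := by
    show x.restrictScalars K ∈ A
    rw [hx]
    exact ha
  have h1 := hg x hxm
  have h2 : (g.toLinearMap ∘ₗ x ∘ₗ g.symm.toLinearMap).restrictScalars K ∈ A' := h1
  have h3 : (resH g).toLinearMap ∘ₗ a ∘ₗ (resH g).symm.toLinearMap =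
      (g.toLinearMap ∘ₗ x ∘ₗ g.symm.toLinearMap).restrictScalars K := by
    rw [← hx]
    rfl
  rw [h3]
  exact h2

theorem adjoin_lift (H : Subgroup (V ≃ₗ[E] V))
    (h : ∀ x : Module.End K V, (∀ (e : E) (v : V), x (e • v) = e • x v) →
      x ∈ Algebra.adjoin K (EndSet (H.map (resH : (V ≃ₗ[E] V) →* (V ≃ₗ[K] V))))) :
    Algebra.adjoin E (EndSet H) = ⊤ := by
  rw [eq_top_iff]
  intro y _
  have key : ∀ x ∈ Algebra.adjoin K (EndSet (H.map (resH : (V ≃ₗ[E] V) →* (V ≃ₗ[K] V)))),
      ∃ z ∈ Algebra.adjoin E (EndSet H), z.restrictScalars K = x := by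
    intro x hx
    induction hx using Algebra.adjoin_induction with
    | mem x hx =>
      obtain ⟨g, ⟨g0, hg0, rfl⟩, rfl⟩ := hx
      exact ⟨g0.toLinearMap, Algebra.subset_adjoin ⟨g0, hg0, rfl⟩, rfl⟩
    | algebraMap r =>
      refine ⟨algebraMap E _ (algebraMap K E r), Subalgebra.algebraMap_mem _ _, ?_⟩
      ext v
      simp [Module.algebraMap_end_apply]
    | add a b _ _ iha ihb =>
      obtain ⟨z, hz, hz'⟩ := iha
      obtain ⟨t, ht, ht'⟩ := ihb
      refine ⟨z + t, Subalgebra.add_mem _ hz ht, ?_⟩
      rw [← hz', ← ht']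
      rfl
    | mul a b _ _ iha ihb =>
      obtain ⟨z, hz, hz'⟩ := iha
      obtain ⟨t, ht, ht'⟩ := ihb
      refine ⟨z * t, Subalgebra.mul_mem _ hz ht, ?_⟩
      rw [← hz', ← ht']
      rfl
  obtain ⟨z, hz, hzy⟩ := key (y.restrictScalars K) (h _ fun e v => y.map_smul e v)
  have hzy' : z = y := by
    ext v
    exact LinearMap.congr_fun hzy v
  rw [← hzy']
  exact hz

theorem finrank_lift_le [FiniteDimensional K V] [Nontrivial V] : finrank E V ≤ finrank K V := by
  have hfin : Module.Finite E V := Module.Finite.of_restrictScalars_finite K E V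
  have hb := (Module.finBasis E V).linearIndependent
  have hb' : LinearIndependent K (Module.finBasis E V) := by
    refine hb.restrict_scalars ?_
    intro a b hab
    have h1 : a • (1 : E) = b • (1 : E) := hab
    rw [Algebra.smul_def, Algebra.smul_def, mul_one, mul_one] at h1
    exact (algebraMap K E).injective h1
  have := hb'.fintype_card_le_finrank
  rwa [Fintype.card_fin] at this

theorem card_le_lift [Finite E] : Nat.card K ≤ Nat.card E :=
  Nat.card_le_card_of_injective _ (algebraMap K E).injective

end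

end Pool.Agent.CTO
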