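import Pool.Agent.CTO.F0

/-!
# F2: the form over the endomorphism field

`f` is a nondegenerate symmetric or alternating form over `K`, and the adjoint of every `e ∈ E` is in `E`.
Let `σ e` be this adjoint (unique, as `f` is nondegenerate): an involution of `E`, `K`-linear. The trace
form of `E/K` is nondegenerate (finite fields), so for `v, w` there is a unique `fE v w ∈ E` with
`f (e v) w = Tr (e * fE v w)` for all `e ∈ E` (`Algebra.traceForm`, `traceForm_nondegenerate`). Then
`fE (e v) w = e fE v w`, additivity, `Tr (σ x) = Tr x` (`σ` is a `K`-automorphism of `E`), and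
`Tr(e fE w v) = f (e w) v = ε f v (e w) = ε f (σ e v) w = ε Tr(σ e fE v w) = ε Tr(e σ(fE v w))`, so
`fE w v = ε σ (fE v w)`. Nondegeneracy: `fE v w = 0` for all `w` gives `f v w = 0`.
`IsAdj f (S_K) (T_K) ↔ IsAdj fE S T` for `E`-linear `S, T`: `Tr(e fE (S v) w) = f (e S v) w = f (S (e v)) w`,
etc.
-/

namespace Pool.Agent.CTO

open Module

section

variable {K E V : Type} [Field K] [Finite K] [Field E] [Finite E] [Algebra K E] [AddCommGroup V]
  [Module K V] [Module E V] [IsScalarTower K E V]

/-- `fE` is the form over `E` belonging to `f`. -/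
structure IsExt (ε : K) (f : V → V → K) (σ : E →+* E) (fE : V → V → E) : Prop where
  hf : IsHF σ (algebraMap K E ε) fE
  tr : ∀ v w, f v w = Algebra.trace K E (fE v w)
  fix : ∀ k : K, σ (algebraMap K E k) = algebraMap K E k
  adj : ∀ S T : Module.End E V, IsAdj f (S.restrictScalars K) (T.restrictScalars K) ↔ IsAdj fE S T

theorem exists_ext [FiniteDimensional K V] [Nontrivial V] (ε : K) (f : V → V → K)
    (hf : IsHF (RingHom.id K) ε f)
    (hst : ∀ e : E, ∃ e' : E, IsAdj f (Algebra.lsmul K K V e) (Algebra.lsmul K K V e')) :
    ∃ (σ : E →+* E) (fE : V → V → E), IsExt ε f σ fE := by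
  classical
  have hadd2 : ∀ u v w, f u (v + w) = f u v + f u w := by
    intro u v w
    rw [hf.herm (v + w) u, hf.add_left, hf.herm v u, hf.herm w u, RingHom.id_apply,
      RingHom.id_apply, RingHom.id_apply]
    ring
  have hsmul2 : ∀ (k : K) (v w : V), f v (k • w) = k * f v w := by
    intro k v w
    rw [hf.herm (k • w) v, hf.smul_left, hf.herm w v, RingHom.id_apply, RingHom.id_apply]
    ring
  have hsub2 : ∀ u v w, f u (v - w) = f u v - f u w := by
    intro u v w
    have h1 : v - w = v + (-1 : K) • w := by rw [neg_one_smul, sub_eq_add_neg]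
    rw [h1, hadd2, hsmul2]
    ring
  have hnd2 : ∀ v w, (∀ u, f u v = f u w) → v = w := by
    intro v w h
    rw [← sub_eq_zero]
    apply hf.nondeg
    intro u
    rw [hf.herm u (v - w), hsub2, h, sub_self, map_zero, mul_zero]
  obtain ⟨w0, hw0⟩ := exists_ne (0 : V)
  choose s hs using hst
  have hs' : ∀ (e : E) (v w : V), f (e • v) w = f v (s e • w) := hs
  have huniq : ∀ e e' : E, (∀ v w : V, f (e • v) w = f v (e' • w)) → s e = e' := by
    intro e e' h
    have h1 : s e • w0 = e' • w0 := hnd2 _ _ fun u => by rw [← hs', h]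
    rw [← sub_eq_zero, ← sub_smul, smul_eq_zero] at h1
    rcases h1 with h1 | h1
    · exact sub_eq_zero.1 h1
    · exact absurd h1 hw0
  have hsmulK : ∀ (k : K) (v : V), (algebraMap K E k) • v = k • v := fun k v =>
    algebraMap_smul E k v
  have s1 : s 1 = 1 := huniq 1 1 (fun v w => by rw [one_smul, one_smul])
  have sK : ∀ k : K, s (algebraMap K E k) = algebraMap K E k := fun k =>
    huniq _ _ (fun v w => by rw [hsmulK, hsmulK, hf.smul_left, hsmul2])
  have sadd : ∀ a b, s (a + b) = s a + s b := fun a b =>
    huniq _ _ (fun v w => by rw [add_smul, add_smul, hf.add_left, hadd2, hs', hs'])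
  have smul : ∀ a b, s (a * b) = s a * s b := fun a b =>
    huniq _ _ (fun v w => by rw [mul_smul, hs', hs', ← mul_smul, mul_comm (s b)])
  have sinv : ∀ a, s (s a) = a := fun a =>
    huniq _ _ (fun v w => by
      rw [hf.herm w (s a • v), RingHom.id_apply, ← hs', hf.herm v (a • w), RingHom.id_apply,
        ← mul_assoc]
      rcases hf.eps with h | h <;> rw [h] <;> ring)
  let σ : E →+* E :=
    { toFun := s
      map_one' := s1
      map_mul' := smul
      map_zero' := by
        have := sK 0
        rwa [map_zero] at this
      map_add' := sadd }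
  let σA : E →ₐ[K] E := { σ with commutes' := sK }
  let σE : E ≃ₐ[K] E := AlgEquiv.ofAlgHom σA σA (by ext x; exact sinv x) (by ext x; exact sinv x)
  have htr : ∀ x, Algebra.trace K E (s x) = Algebra.trace K E x := fun x =>
    Algebra.trace_eq_of_algEquiv σE x
  have hN := traceForm_nondegenerate K E
  let φ : V → V → Module.Dual K E := fun v w =>
    { toFun := fun e => f (e • v) w
      map_add' := fun a b => by rw [add_smul, hf.add_left]
      map_smul' := fun k a => by
        rw [smul_assoc, hf.smul_left]
        rfl }
  let fE : V → V → E := fun v w => ((Algebra.traceForm K E).toDual hN).symm (φ v w)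
  have hfE : ∀ v w e, Algebra.trace K E (fE v w * e) = f (e • v) w := by
    intro v w e
    have h1 := LinearMap.BilinForm.apply_toDual_symm_apply (hB := hN) (f := φ v w) (v := e)
    rw [Algebra.traceForm_apply] at h1
    exact h1
  have huE : ∀ x y : E, (∀ e, Algebra.trace K E (x * e) = Algebra.trace K E (y * e)) → x = y := by
    intro x y h
    apply ((Algebra.traceForm K E).toDual hN).injective
    ext e
    rw [LinearMap.BilinForm.toDual_def, LinearMap.BilinForm.toDual_def, Algebra.traceForm_apply,
      Algebra.traceForm_apply]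
    exact h e
  have hεtr : ∀ x : E, Algebra.trace K E (algebraMap K E ε * x) = ε * Algebra.trace K E x := by
    intro x
    rw [← Algebra.smul_def, map_smul, smul_eq_mul]
  refine ⟨σ, fE, ⟨sinv, ?_, ?_, ?_, ?_, ?_⟩, ?_, sK, ?_⟩
  · rcases hf.eps with h | h
    · left
      rw [h, map_one]
    · right
      rw [h, map_neg, map_one]
  · intro u v w
    apply huE
    intro e
    rw [add_mul, map_add, hfE, hfE, hfE, smul_add, hf.add_left]
  · intro a v w
    apply huE
    intro e
    have h1 : a * fE v w * e = fE v w * (e * a) := by ring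
    rw [h1, hfE, hfE, mul_smul]
  · intro v w
    apply huE
    intro e
    rw [mul_assoc, hεtr, hfE, hf.herm v (e • w), RingHom.id_apply]
    congr 1
    have h1 : σ (fE v w) * e = s (fE v w * s e) := by
      rw [smul, sinv]
      rfl
    rw [h1, htr, hfE, hs', sinv]
  · intro v hv
    apply hf.nondeg
    intro w
    have h1 := hfE v w 1
    rw [hv w, zero_mul, map_zero, one_smul] at h1
    exact h1.symm
  · intro v w
    have h1 := hfE v w 1
    rw [mul_one, one_smul] at h1
    exact h1.symm
  · intro S T
    constructor
    · intro h v w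
      apply huE
      intro e
      rw [hfE, hfE, ← S.map_smul]
      exact h (e • v) w
    · intro h v w
      change f (S v) w = f v (T w)
      have h1 := hfE (S v) w 1
      have h2 := hfE v (T w) 1
      rw [one_smul] at h1 h2
      rw [← h1, ← h2, h v w]

end

end Pool.Agent.CTO
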