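import Pool.Agent.CTO.Pron

/-!
# Pronormality and surjective homomorphisms
-/

namespace Pool.Agent.CTO

theorem isPronormal_comap_iff {X G : Type*} [Group X] [Group G] (π : X →* G)
    (hπ : Function.Surjective π) (H : Subgroup G) :
    IsPronormal (H.comap π) ↔ IsPronormal H := by
  have hc : ∀ x : X, conjSub x (H.comap π) = (conjSub (π x) H).comap π := by
    intro x
    ext y
    rw [mem_conjSub, Subgroup.mem_comap, Subgroup.mem_comap, mem_conjSub, map_mul, map_mul, map_inv]
  constructor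
  · intro h g
    obtain ⟨x, rfl⟩ := hπ g
    obtain ⟨y, hy, hye⟩ := h x
    rw [hc, Subgroup.comap_sup_eq _ _ _ hπ] at hy
    refine ⟨π y, hy, ?_⟩
    rw [hc, hc] at hye
    exact Subgroup.comap_injective hπ hye
  · intro h x
    obtain ⟨g, hg, hge⟩ := h (π x)
    obtain ⟨y, rfl⟩ := hπ g
    refine ⟨y, ?_, ?_⟩
    · rw [hc, Subgroup.comap_sup_eq _ _ _ hπ]
      exact hg
    · rw [hc, hc, hge]

end Pool.Agent.CTO
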