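import Mathlib

/-!
# MP_0dcdae_al, types B, C, D: matrix level, definitions

`F` is an (infinite) field, `Ω` a finite index set. `ev x p` is the value of the polynomial `p` in
the entries of `x`; `ZD D H` is the set of the matrices at which every polynomial of degree `≤ D`
that vanishes on the group `H` vanishes.
-/

namespace Pool.Agent.CTO

open Matrix

section

variable {F Ω : Type} [Field F] [Fintype Ω] [DecidableEq Ω]

/-- The value of the polynomial `p` at the matrix `x`. -/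
noncomputable def ev (x : Matrix Ω Ω F) (p : MvPolynomial (Ω × Ω) F) : F :=
  MvPolynomial.eval (fun ij => x ij.1 ij.2) p

/-- The common zeros of the polynomials of degree at most `D` that vanish on `H`. -/
def ZD (D : ℕ) (H : Subgroup (Matrix Ω Ω F)ˣ) : Set (Matrix Ω Ω F) :=
  {x | ∀ p : MvPolynomial (Ω × Ω) F, p.totalDegree ≤ D →
    (∀ h ∈ H, ev (h : Matrix Ω Ω F) p = 0) → ev x p = 0}

/-- The invertible diagonal matrix with entries `z`. -/
def dU (z : Ω → Fˣ) : (Matrix Ω Ω F)ˣ where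
  val := diagonal fun i => (z i : F)
  inv := diagonal fun i => ((z i)⁻¹ : Fˣ)
  val_inv := by simp [diagonal_mul_diagonal]
  inv_val := by simp [diagonal_mul_diagonal]

lemma dU_val (z : Ω → Fˣ) : ((dU z : (Matrix Ω Ω F)ˣ) : Matrix Ω Ω F) = diagonal fun i => (z i : F) :=
  rfl

/-- The group generated by the diagonal matrices `dU z`, `z ∈ T`, and their conjugates by `g`. -/
def HT (T : Set (Ω → Fˣ)) (g : (Matrix Ω Ω F)ˣ) : Subgroup (Matrix Ω Ω F)ˣ :=
  Subgroup.closure ({x | ∃ z ∈ T, x = dU z} ∪ {x | ∃ z ∈ T, x = g * dU z * g⁻¹})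

/-- The `F`-linear span of `H` is the whole matrix algebra. -/
def SpanTop (H : Subgroup (Matrix Ω Ω F)ˣ) : Prop :=
  Submodule.span F {x : Matrix Ω Ω F | ∃ h ∈ H, x = (h : Matrix Ω Ω F)} = ⊤

/-- A polynomial of degree at most `D` vanishing on `T` is zero. -/
def DensGL (D : ℕ) (T : Set (Ω → Fˣ)) : Prop :=
  ∀ p : MvPolynomial Ω F, p.totalDegree ≤ D →
    (∀ z ∈ T, MvPolynomial.eval (fun i : Ω => ((z i : Fˣ) : F)) p = 0) → p = 0

/-- The split torus of the orthogonal or symplectic group: `z i * z (bar i) = 1`, and `z i = 1` if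
`bar i = i`. -/
def barT (bar : Ω → Ω) : Set (Ω → Fˣ) :=
  {z | ∀ i, z i * z (bar i) = 1 ∧ (bar i = i → z i = 1)}

/-- A polynomial of degree at most `D` vanishing on `T` vanishes on `barT bar`. -/
def DensBar (D : ℕ) (bar : Ω → Ω) (T : Set (Ω → Fˣ)) : Prop :=
  ∀ p : MvPolynomial Ω F, p.totalDegree ≤ D →
    (∀ z ∈ T, MvPolynomial.eval (fun i : Ω => ((z i : Fˣ) : F)) p = 0) →
    ∀ z ∈ barT bar, MvPolynomial.eval (fun i : Ω => ((z i : Fˣ) : F)) p = 0

/-- `bar` is an involution of `Ω` and `s` are signs with `s (bar i) = ε * s i`. The form is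
`b v w = ∑ i, s i * v i * w (bar i)`. -/
structure BarF (bar : Ω → Ω) (s : Ω → F) (ε : F) : Prop where
  invol : ∀ i, bar (bar i) = i
  s2 : ∀ i, s i * s i = 1
  seps : ∀ i, s (bar i) = ε * s i

/-- The adjoint of a matrix with respect to the form of `bar`, `s`. -/
def starM (bar : Ω → Ω) (s : Ω → F) (x : Matrix Ω Ω F) : Matrix Ω Ω F :=
  of fun i j => s i * s j * x (bar j) (bar i)

/-- `x` is an isometry of the form of `bar`, `s`. -/
def IsoM (bar : Ω → Ω) (s : Ω → F) (x : Matrix Ω Ω F) : Prop :=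
  x * starM bar s x = 1 ∧ starM bar s x * x = 1

/-- The one parameter groups `g i * diag(t ^ n i ω) * (g i)⁻¹` generate this group. -/
def HC {I : Type} (g : I → (Matrix Ω Ω F)ˣ) (n : I → Ω → ℤ) : Subgroup (Matrix Ω Ω F)ˣ :=
  Subgroup.closure {y | ∃ (i : I) (t : Fˣ), y = g i * dU (fun ω => t ^ n i ω) * (g i)⁻¹}

/-- The value of the polynomial `p` in the entries of `x` and of `x⁻¹`. -/
noncomputable def evU (x : (Matrix Ω Ω F)ˣ) (p : MvPolynomial ((Ω × Ω) ⊕ (Ω × Ω)) F) : F :=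
  MvPolynomial.eval (Sum.elim (fun ij => (x : Matrix Ω Ω F) ij.1 ij.2)
    (fun ij => ((x⁻¹ : (Matrix Ω Ω F)ˣ) : Matrix Ω Ω F) ij.1 ij.2)) p

/-- The hypotheses for the symplectic (`ε = -1`) and the orthogonal (`ε = 1`) case: `H` is a group
of isometries, and the torus `barT bar` and its conjugate by the isometry `g` lie in `ZD D H`. -/
structure BarSetup (bar : Ω → Ω) (s : Ω → F) (ε : F) (D : ℕ) (H : Subgroup (Matrix Ω Ω F)ˣ)
    (g : (Matrix Ω Ω F)ˣ) : Prop where
  two : (2 : F) ≠ 0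
  bf : BarF bar s ε
  D2 : 2 ≤ D
  gi : IsoM bar s (g : Matrix Ω Ω F)
  Hi : ∀ h ∈ H, IsoM bar s (h : Matrix Ω Ω F)
  T1 : ∀ z ∈ barT bar, ((dU z : (Matrix Ω Ω F)ˣ) : Matrix Ω Ω F) ∈ ZD D H
  T2 : ∀ z ∈ barT bar, ((g * dU z * g⁻¹ : (Matrix Ω Ω F)ˣ) : Matrix Ω Ω F) ∈ ZD D H
  span : SpanTop (HT (barT bar : Set (Ω → Fˣ)) g)

/-- The matrices `X` with `starM X = - X` (the Lie algebra of the isometry group). -/
def skewM (bar : Ω → Ω) (s : Ω → F) : Submodule F (Matrix Ω Ω F) where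
  carrier := {X | ∀ i j, s i * s j * X (bar j) (bar i) = - X i j}
  add_mem' := by
    intro X Y hX hY i j
    rw [Matrix.add_apply, Matrix.add_apply, mul_add, hX, hY]
    ring
  zero_mem' := by
    intro i j
    simp
  smul_mem' := by
    intro c X hX i j
    rw [Matrix.smul_apply, Matrix.smul_apply, smul_eq_mul, smul_eq_mul, mul_left_comm, hX]
    ring

lemma mem_skewM {bar : Ω → Ω} {s : Ω → F} {X : Matrix Ω Ω F} :
    X ∈ skewM bar s ↔ ∀ i j, s i * s j * X (bar j) (bar i) = - X i j := Iff.rfl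

/-- The derivatives at `t = 0` of the rational curves `t ↦ Y(t) / Q(t)` in `ZD D H` (defined outside a
finite set) with `Y(0) = 1`, `Q(0) = 1`. -/
def TanM (D : ℕ) (H : Subgroup (Matrix Ω Ω F)ˣ) : Set (Matrix Ω Ω F) :=
  {X | ∃ (Y : Matrix Ω Ω (Polynomial F)) (Q : Polynomial F) (S : Set F), S.Finite ∧
    Y.map (Polynomial.eval 0) = 1 ∧ Q.eval 0 = 1 ∧
    (∀ t : F, t ∉ S → Q.eval t ≠ 0 → (Q.eval t)⁻¹ • Y.map (Polynomial.eval t) ∈ ZD D H) ∧
    X = (Y.map fun p => p.coeff 1) - (Q.coeff 1) • (1 : Matrix Ω Ω F)}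

/-- The span of `TanM D H`: the Lie algebra of the zero set `ZD D H`. -/
def LieM (D : ℕ) (H : Subgroup (Matrix Ω Ω F)ˣ) : Submodule F (Matrix Ω Ω F) :=
  Submodule.span F (TanM D H)

end

end Pool.Agent.CTO
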