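import Pool.Agent.CTO.Pron

/-!
# Explicit maximal tori of the symplectic and orthogonal groups

`K` is a finite field of odd order. `P i` (`i ∈ ι`) and `L j` (`j ∈ κ`) are finite extension fields of
`K`, `τ j` is an automorphism of order two of `L j` over `K`, and `ζ` is empty or a point. The
algebra `TorAlg = ∏ (P i × P i) × ∏ L j × K^ζ` has the involution `starA`, which exchanges the factors
of `P i × P i`, acts by `τ j` on `L j` and trivially on `K^ζ`. The torus `torusA` consists of the
multiplications by the units of `TorAlg`.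
-/

namespace Pool.Agent.CTO

open Module

section

variable (K : Type) [Field K] {ι κ : Type} (ζ : Type) (P : ι → Type)
  (L : κ → Type) [∀ i, Field (P i)] [∀ i, Algebra K (P i)] [∀ j, Field (L j)] [∀ j, Algebra K (L j)]

/-- The algebra `∏ (P i × P i) × ∏ L j × K^ζ`. -/
abbrev TorAlg : Type := ((∀ i, P i × P i) × (∀ j, L j)) × (ζ → K)

variable {K L}

/-- The involution of `TorAlg`. -/
def starA (τ : ∀ j, L j ≃ₐ[K] L j) (a : TorAlg K ζ P L) : TorAlg K ζ P L :=
  ((fun i => (a.1.1 i).swap, fun j => τ j (a.1.2 j)), a.2)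

variable (K L)

/-- The torus: the multiplications by the units of `TorAlg`. -/
def torusA : Subgroup (TorAlg K ζ P L ≃ₗ[K] TorAlg K ζ P L) where
  carrier := {g | ∃ a : (TorAlg K ζ P L)ˣ, ∀ v, g v = (a : TorAlg K ζ P L) * v}
  mul_mem' := by
    rintro x y ⟨a, ha⟩ ⟨b, hb⟩
    refine ⟨a * b, fun v => ?_⟩
    rw [LinearEquiv.mul_apply, hb, ha, Units.val_mul, mul_assoc]
  one_mem' := ⟨1, fun v => by simp⟩
  inv_mem' := by
    rintro x ⟨a, ha⟩
    refine ⟨a⁻¹, fun v => ?_⟩
    have h1 : x (x⁻¹ v) = v := LinearEquiv.apply_symm_apply x v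
    rw [ha] at h1
    rw [← h1, ← mul_assoc, Units.inv_mul, one_mul, h1]

/-- The length of a cycle: `[P i : K]` for the positive cycles and `[L j : K] / 2` for the negative
cycles. -/
noncomputable def lenA : ι ⊕ κ → ℕ :=
  Sum.elim (fun i => finrank K (P i)) (fun j => finrank K (L j) / 2)

/-- The signed length of a cycle (`true` for the positive cycles, `false` for the negative ones). -/
noncomputable def typA : ι ⊕ κ → ℕ × Bool :=
  Sum.elim (fun i => (finrank K (P i), true)) (fun j => (finrank K (L j) / 2, false))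

/-- Sub-multisets of the signed cycle type are determined by the sum of their lengths. -/
def DistinctC : Prop :=
  ∀ S S' : Finset (ι ⊕ κ), ∑ k ∈ S, lenA K P L k = ∑ k ∈ S', lenA K P L k →
    S.val.map (typA K P L) = S'.val.map (typA K P L)

/-- Sub-multisets of the signed cycle type are determined by the sum of their lengths and the parity
of the number of the negative cycles in them. -/
def DistinctBD : Prop :=
  ∀ S S' : Finset (ι ⊕ κ), ∑ k ∈ S, lenA K P L k = ∑ k ∈ S', lenA K P L k →
    (Even (Multiset.card (S.val.filter fun k => k.isRight)) ↔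
      Even (Multiset.card (S'.val.filter fun k => k.isRight))) →
    S.val.map (typA K P L) = S'.val.map (typA K P L)

variable {K} {P} {L} {ζ}

/-- `f` is adapted to the involution. -/
def Adapted (τ : ∀ j, L j ≃ₐ[K] L j) (f : TorAlg K ζ P L → TorAlg K ζ P L → K) : Prop :=
  ∀ a v w, f (a * v) w = f v (starA ζ P τ a * w)

/-- The image in `Γ / N` of the torus of `Γ`. -/
def torusQA (Γ : Subgroup (TorAlg K ζ P L ≃ₗ[K] TorAlg K ζ P L)) (N : Subgroup Γ) [N.Normal] :
    Subgroup (Γ ⧸ N) :=
  ((torusA K ζ P L).subgroupOf Γ).map (QuotientGroup.mk' N)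

/-- The torus algebra: the multiplications by the elements of `TorAlg`. -/
noncomputable def algA (K : Type) [Field K] {ι κ : Type} (ζ : Type) (P : ι → Type)
    (L : κ → Type) [∀ i, Field (P i)] [∀ i, Algebra K (P i)] [∀ j, Field (L j)]
    [∀ j, Algebra K (L j)] : Subalgebra K (Module.End K (TorAlg K ζ P L)) :=
  (Algebra.lmul K (TorAlg K ζ P L)).range

end

end Pool.Agent.CTO
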