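import Pool.Agent.CTO.A3
import Pool.Agent.CTO.I0

/-!
# P0: transport by linear isomorphisms

`pull ψ B = ψ⁻¹ B ψ`.
* all the statements about `pull` are transport of structure (`pull_iso`: `x ↦ ψ x ψ⁻¹`).
* `SIso`: symmetric and transitive; for the symmetry use that adjoints exist in `A`
  (`IsTor.star`) and are unique in `End W` (`f'` nondegenerate): if `a', b' ∈ A'` are adjoint, `a = φ⁻¹ a'`
  has an adjoint `b ∈ A`, `φ b` is adjoint to `a'`, so `φ b = b'`.
* `torGL_pull`, `tor_pull`: for `h ∈ GL(V)` the torus of `pull h A' = h⁻¹ A' h` is `h⁻¹ T' h`.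
* `step_GL`: let `T, T'` be the tori of `A, A'`, `h ∈ sq T ⊔ sq T'`. The torus of `pull h A'` is
  `h⁻¹ T' h`, `sq (h⁻¹ T' h) = h⁻¹ (sq T') h ≤ sq T ⊔ sq T'`; if `x ∈ sq T ⊔ sq (h⁻¹ T' h)` carries `A` to
  `pull h A'` then `h x ∈ sq T ⊔ sq T'` carries `A` to `A'`. `step_F` is the same with `tor`, `h` is then an
  isometry with determinant one.
* `nondeg_proj`: `W` stable under `A` (torus algebra), and `W ∩ W^⊥ = 0` (`f` symmetric or alternating).
  Then `V = W ⊕ W^⊥` (dimensions), let `p` be the projection onto `W` along `W^⊥`; `W^⊥` is stable under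
  `A` (as `A` is stable under adjoints), so `p` commutes with `A`, `p ∈ A` by `cent_eq`; `p` is selfadjoint.
  The same `p` works for `A'`.
-/

namespace Pool.Agent.CTO

open Module

section

variable {K V W : Type} [Field K] [AddCommGroup V] [Module K V] [AddCommGroup W] [Module K W]

/-- `ψ⁻¹ B ψ`. -/
def pull (ψ : V ≃ₗ[K] W) (B : Subalgebra K (Module.End K W)) : Subalgebra K (Module.End K V) where
  carrier := {x | ψ.toLinearMap ∘ₗ x ∘ₗ ψ.symm.toLinearMap ∈ B}
  mul_mem' := by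
    intro x y hx hy
    have h : ψ.toLinearMap ∘ₗ (x * y) ∘ₗ ψ.symm.toLinearMap
        = (ψ.toLinearMap ∘ₗ x ∘ₗ ψ.symm.toLinearMap) * (ψ.toLinearMap ∘ₗ y ∘ₗ ψ.symm.toLinearMap) := by
      ext v
      simp [Module.End.mul_apply]
    show ψ.toLinearMap ∘ₗ (x * y) ∘ₗ ψ.symm.toLinearMap ∈ B
    rw [h]
    exact B.mul_mem hx hy
  add_mem' := by
    intro x y hx hy
    have h : ψ.toLinearMap ∘ₗ (x + y) ∘ₗ ψ.symm.toLinearMap
        = (ψ.toLinearMap ∘ₗ x ∘ₗ ψ.symm.toLinearMap) + (ψ.toLinearMap ∘ₗ y ∘ₗ ψ.symm.toLinearMap) := by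
      ext v
      simp
    show ψ.toLinearMap ∘ₗ (x + y) ∘ₗ ψ.symm.toLinearMap ∈ B
    rw [h]
    exact B.add_mem hx hy
  algebraMap_mem' := by
    intro r
    have h : ψ.toLinearMap ∘ₗ (algebraMap K (Module.End K V) r) ∘ₗ ψ.symm.toLinearMap
        = algebraMap K (Module.End K W) r := by
      ext v
      simp [Module.algebraMap_end_apply]
    show ψ.toLinearMap ∘ₗ (algebraMap K (Module.End K V) r) ∘ₗ ψ.symm.toLinearMap ∈ B
    rw [h]
    exact B.algebraMap_mem r

theorem mem_pull {ψ : V ≃ₗ[K] W} {B : Subalgebra K (Module.End K W)} {x : Module.End K V} :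
    x ∈ pull ψ B ↔ ψ.toLinearMap ∘ₗ x ∘ₗ ψ.symm.toLinearMap ∈ B := Iff.rfl

/-- Conjugation by `ψ`. -/
noncomputable def P0_cj (ψ : V ≃ₗ[K] W) : Module.End K V ≃ₐ[K] Module.End K W := ψ.conjAlgEquiv K

theorem P0_cj_apply (ψ : V ≃ₗ[K] W) (x : Module.End K V) :
    P0_cj ψ x = ψ.toLinearMap ∘ₗ x ∘ₗ ψ.symm.toLinearMap := rfl

theorem P0_cj_val (ψ : V ≃ₗ[K] W) (x : Module.End K V) (v : V) :
    P0_cj ψ x (ψ v) = ψ (x v) := by
  rw [P0_cj_apply]
  simp

theorem P0_mem (ψ : V ≃ₗ[K] W) (B : Subalgebra K (Module.End K W)) (x : Module.End K V) :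
    x ∈ pull ψ B ↔ P0_cj ψ x ∈ B := Iff.rfl

/-- The algebra `pull ψ B` is isomorphic to `B`. -/
theorem P0_pull_iso (ψ : V ≃ₗ[K] W) (B : Subalgebra K (Module.End K W)) :
    ∃ φ : pull ψ B ≃ₐ[K] B, ∀ x : pull ψ B, (φ x : Module.End K W) = P0_cj ψ x := by
  let F : pull ψ B →ₐ[K] B :=
    ((P0_cj ψ : Module.End K V →ₐ[K] Module.End K W).comp (pull ψ B).val).codRestrict B
      (fun x => x.2)
  have hF : ∀ x : pull ψ B, (F x : Module.End K W) = P0_cj ψ x := fun x => rfl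
  have hbij : Function.Bijective F := by
    constructor
    · intro x y hxy
      apply Subtype.ext
      apply (P0_cj ψ).injective
      rw [← hF, ← hF, hxy]
    · intro y
      refine ⟨⟨(P0_cj ψ).symm y, ?_⟩, ?_⟩
      · rw [P0_mem, AlgEquiv.apply_symm_apply]
        exact y.2
      · apply Subtype.ext
        rw [hF]
        exact AlgEquiv.apply_symm_apply _ _
  exact ⟨AlgEquiv.ofBijective F hbij, hF⟩

theorem P0_isAdj (f : V → V → K) (f' : W → W → K) (ψ : V ≃ₗ[K] W)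
    (hψ : ∀ v w, f' (ψ v) (ψ w) = f v w) (a b : Module.End K V) :
    IsAdj f' (P0_cj ψ a) (P0_cj ψ b) ↔ IsAdj f a b := by
  constructor
  · intro h v w
    have := h (ψ v) (ψ w)
    rw [P0_cj_val, P0_cj_val, hψ, hψ] at this
    exact this
  · intro h v w
    obtain ⟨v, rfl⟩ := ψ.surjective v
    obtain ⟨w, rfl⟩ := ψ.surjective w
    rw [P0_cj_val, P0_cj_val, hψ, hψ]
    exact h v w

theorem pull_isTorGL (ψ : V ≃ₗ[K] W) (B : Subalgebra K (Module.End K W)) (hB : IsTorGL B) :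
    IsTorGL (pull ψ B) := by
  refine ⟨fun a ha b hb => ?_, fun a ha haa => ?_, ?_⟩
  · apply (P0_cj ψ).injective
    rw [map_mul, map_mul]
    exact hB.comm _ ((P0_mem ψ B a).1 ha) _ ((P0_mem ψ B b).1 hb)
  · apply (P0_cj ψ).injective
    rw [map_zero]
    apply hB.red _ ((P0_mem ψ B a).1 ha)
    rw [← map_mul, haa, map_zero]
  · obtain ⟨φ, -⟩ := P0_pull_iso ψ B
    rw [ψ.finrank_eq, ← hB.rank]
    exact φ.toLinearEquiv.finrank_eq

theorem pull_isTor (f : V → V → K) (f' : W → W → K) (ψ : V ≃ₗ[K] W)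
    (hψ : ∀ v w, f' (ψ v) (ψ w) = f v w) (B : Subalgebra K (Module.End K W)) (hB : IsTor f' B) :
    IsTor f (pull ψ B) := by
  have h1 : ∀ b : Module.End K W, P0_cj ψ ((P0_cj ψ).symm b) = b :=
    fun b => AlgEquiv.apply_symm_apply _ _
  refine { pull_isTorGL ψ B hB.toIsTorGL with star := ?_, skew := ?_ }
  · intro a ha
    obtain ⟨b, hb, hab⟩ := hB.star _ ((P0_mem ψ B a).1 ha)
    refine ⟨(P0_cj ψ).symm b, ?_, ?_⟩
    · rw [P0_mem, h1]; exact hb
    · rw [← P0_isAdj f f' ψ hψ, h1]; exact hab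
  · obtain ⟨d, hd, hdd, hr⟩ := hB.skew
    refine ⟨(P0_cj ψ).symm d, ?_, ?_, ?_⟩
    · rw [P0_mem, h1]; exact hd
    · rw [← P0_isAdj f f' ψ hψ, map_neg, h1]; exact hdd
    · have h2 : LinearMap.range d =
          (LinearMap.range ((P0_cj ψ).symm d)).map ψ.toLinearMap := by
        ext w
        constructor
        · rintro ⟨x, rfl⟩
          obtain ⟨v, rfl⟩ := ψ.surjective x
          refine ⟨(P0_cj ψ).symm d v, ⟨v, rfl⟩, ?_⟩
          have := P0_cj_val ψ ((P0_cj ψ).symm d) v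
          rw [h1] at this
          exact this.symm
        · rintro ⟨x, ⟨v, rfl⟩, rfl⟩
          refine ⟨ψ v, ?_⟩
          have := P0_cj_val ψ ((P0_cj ψ).symm d) v
          rw [h1] at this
          exact this
      have h3 : finrank K (LinearMap.range d) =
          finrank K (LinearMap.range ((P0_cj ψ).symm d)) := by
        rw [h2]
        exact LinearEquiv.finrank_map_eq ψ _
      rw [← h3, ψ.finrank_eq]
      exact hr

theorem pull_iso (ψ : V ≃ₗ[K] W) (B : Subalgebra K (Module.End K W)) :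
    Nonempty (pull ψ B ≃ₐ[K] B) :=
  ⟨(P0_pull_iso ψ B).choose⟩

theorem pull_siso (f : V → V → K) (f' : W → W → K) (ψ : V ≃ₗ[K] W)
    (hψ : ∀ v w, f' (ψ v) (ψ w) = f v w) (B : Subalgebra K (Module.End K W)) :
    SIso f (pull ψ B) f' B ∧ SIso f' B f (pull ψ B) := by
  obtain ⟨φ, hφ⟩ := P0_pull_iso ψ B
  refine ⟨⟨φ, fun a b hab => ?_⟩, ⟨φ.symm, fun a b hab => ?_⟩⟩
  · rw [hφ, hφ, P0_isAdj f f' ψ hψ]
    exact hab
  · rw [← P0_isAdj f f' ψ hψ, ← hφ, ← hφ, AlgEquiv.apply_symm_apply, AlgEquiv.apply_symm_apply]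
    exact hab

theorem siso_symm (σ : K →+* K) (ε : K) (f : V → V → K) (f' : W → W → K) (hf' : IsHF σ ε f')
    (A : Subalgebra K (Module.End K V)) (A' : Subalgebra K (Module.End K W)) (hA : IsTor f A)
    (h : SIso f A f' A') : SIso f' A' f A := by
  obtain ⟨φ, hφ⟩ := h
  refine ⟨φ.symm, fun a' b' hab => ?_⟩
  obtain ⟨b, hb, hadj⟩ := hA.star _ (φ.symm a').2
  have h1 := hφ (φ.symm a') ⟨b, hb⟩ hadj
  rw [AlgEquiv.apply_symm_apply] at h1
  have h2 : (φ ⟨b, hb⟩ : Module.End K W) = b' := by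
    ext w
    rw [← sub_eq_zero]
    apply hf'.nondeg
    intro v
    have h3 : f' ((φ ⟨b, hb⟩ : Module.End K W) w) v = f' ((b' : Module.End K W) w) v := by
      rw [hf'.herm v, hf'.herm v ((b' : Module.End K W) w), ← hab v w, ← h1 v w]
    have h4 : ∀ x y : W, f' (x - y) v = f' x v - f' y v := by
      intro x y
      have : x - y = x + (-1 : K) • y := by simp [sub_eq_add_neg]
      rw [this, hf'.add_left, hf'.smul_left]
      ring
    rw [h4, h3, sub_self]
  have h3 : φ.symm b' = ⟨b, hb⟩ := by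
    apply φ.injective
    rw [AlgEquiv.apply_symm_apply]
    exact Subtype.ext h2.symm
  rw [h3]
  exact hadj

theorem siso_trans {X : Type} [AddCommGroup X] [Module K X] (f : V → V → K) (f' : W → W → K)
    (f'' : X → X → K) (A : Subalgebra K (Module.End K V)) (A' : Subalgebra K (Module.End K W))
    (A'' : Subalgebra K (Module.End K X)) (h : SIso f A f' A') (h' : SIso f' A' f'' A'') :
    SIso f A f'' A'' := by
  obtain ⟨φ, hφ⟩ := h
  obtain ⟨φ', hφ'⟩ := h'
  exact ⟨φ.trans φ', fun a b hab => hφ' _ _ (hφ _ _ hab)⟩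

theorem P0_cj_conj (h g : V ≃ₗ[K] V) :
    P0_cj h g.toLinearMap = (h * g * h⁻¹).toLinearMap := by
  ext v
  rfl

theorem P0_mem_torGL (A : Subalgebra K (Module.End K V)) (h g : V ≃ₗ[K] V) :
    g ∈ torGL (pull h A) ↔ h * g * h⁻¹ ∈ torGL A := by
  rw [mem_torGL, mem_torGL, P0_mem, P0_mem, P0_cj_conj, P0_cj_conj]
  have : (h * g * h⁻¹)⁻¹ = h * g⁻¹ * h⁻¹ := by group
  rw [this]

theorem P0_carries (A A' : Subalgebra K (Module.End K V)) (h x : V ≃ₗ[K] V)
    (hc : CarriesTo x A (pull h A')) : CarriesTo (h * x) A A' := by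
  intro a ha
  have h1 := hc a ha
  rw [P0_mem, P0_cj_apply] at h1
  have h2 : (h * x).toLinearMap ∘ₗ a ∘ₗ (h * x).symm.toLinearMap =
      h.toLinearMap ∘ₗ (x.toLinearMap ∘ₗ a ∘ₗ x.symm.toLinearMap) ∘ₗ h.symm.toLinearMap := by
    ext v
    rfl
  rw [h2]
  exact h1

theorem step_GL [FiniteDimensional K V] (A A' : Subalgebra K (Module.End K V)) (h x : V ≃ₗ[K] V)
    (hh : h ∈ sq (torGL A) ⊔ sq (torGL A'))
    (hx : x ∈ sq (torGL A) ⊔ sq (torGL (pull h A'))) (hc : CarriesTo x A (pull h A')) :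
    ∃ y ∈ sq (torGL A) ⊔ sq (torGL A'), CarriesTo y A A' := by
  refine ⟨h * x, mul_mem hh ?_, P0_carries A A' h x hc⟩
  have hle : sq (torGL A) ⊔ sq (torGL (pull h A')) ≤ sq (torGL A) ⊔ sq (torGL A') := by
    refine sup_le le_sup_left ?_
    rw [sq, Subgroup.closure_le]
    rintro _ ⟨t, ht, rfl⟩
    rw [P0_mem_torGL] at ht
    have h1 : (h * t * h⁻¹) * (h * t * h⁻¹) ∈ sq (torGL A') :=
      Subgroup.subset_closure ⟨_, ht, rfl⟩
    have h2 : t * t = h⁻¹ * ((h * t * h⁻¹) * (h * t * h⁻¹)) * h := by group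
    rw [h2]
    exact mul_mem (mul_mem (inv_mem hh) (Subgroup.mem_sup_right h1)) hh
  exact hle hx

theorem step_F [FiniteDimensional K V] (f : V → V → K) (A A' : Subalgebra K (Module.End K V))
    (h x : V ≃ₗ[K] V)
    (hh : h ∈ sq (tor (RingHom.id K) f A) ⊔ sq (tor (RingHom.id K) f A'))
    (hx : x ∈ sq (tor (RingHom.id K) f A) ⊔ sq (tor (RingHom.id K) f (pull h A')))
    (hc : CarriesTo x A (pull h A')) :
    ∃ y ∈ sq (tor (RingHom.id K) f A) ⊔ sq (tor (RingHom.id K) f A'), CarriesTo y A A' := by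
  refine ⟨h * x, mul_mem hh ?_, P0_carries A A' h x hc⟩
  have hsq : ∀ B : Subalgebra K (Module.End K V), sq (tor (RingHom.id K) f B) ≤ Isom f := by
    intro B
    rw [sq, Subgroup.closure_le]
    rintro _ ⟨t, ht, rfl⟩
    exact mul_mem ht.2.1 ht.2.1
  have hI : h ∈ Isom f := (sup_le (hsq A) (hsq A')) hh
  have hle : sq (tor (RingHom.id K) f A) ⊔ sq (tor (RingHom.id K) f (pull h A')) ≤
      sq (tor (RingHom.id K) f A) ⊔ sq (tor (RingHom.id K) f A') := by
    refine sup_le le_sup_left ?_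
    conv_lhs => rw [sq]
    rw [Subgroup.closure_le]
    rintro _ ⟨t, ⟨ht1, ht2, ht3⟩, rfl⟩
    rw [P0_mem_torGL] at ht1
    have h0 : h * t * h⁻¹ ∈ tor (RingHom.id K) f A' := by
      refine ⟨ht1, mul_mem (mul_mem hI ht2) (inv_mem hI), fun hid => ?_⟩
      rw [map_mul, map_mul, map_inv, ht3 hid]
      group
    have h1 : (h * t * h⁻¹) * (h * t * h⁻¹) ∈ sq (tor (RingHom.id K) f A') :=
      Subgroup.subset_closure ⟨_, h0, rfl⟩
    have h2 : t * t = h⁻¹ * ((h * t * h⁻¹) * (h * t * h⁻¹)) * h := by group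
    rw [h2]
    exact mul_mem (mul_mem (inv_mem hh) (Subgroup.mem_sup_right h1)) hh
  exact hle hx

theorem nondeg_proj [FiniteDimensional K V] (ε : K) (f : V → V → K)
    (hf : IsHF (RingHom.id K) ε f) (W0 : Submodule K V)
    (hW : ∀ v ∈ W0, (∀ w ∈ W0, f v w = 0) → v = 0) :
    ∃ p : Module.End K V, p * p = p ∧ IsAdj f p p ∧ LinearMap.range p = W0 ∧
      ∀ A : Subalgebra K (Module.End K V), IsTor f A → (∀ a ∈ A, ∀ v ∈ W0, a v ∈ W0) → p ∈ A := by
  have hsymm : ∀ v w, f w v = ε * f v w := fun v w => hf.herm v w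
  have hεε : ε * ε = 1 := by rcases hf.eps with h | h <;> rw [h] <;> ring
  have hε0 : ε ≠ 0 := by
    intro h
    rw [h, mul_zero] at hεε
    exact zero_ne_one hεε
  have hadd : ∀ u v w, f u (v + w) = f u v + f u w := by
    intro u v w
    rw [hsymm (v + w) u, hf.add_left, mul_add, ← hsymm, ← hsymm]
  have hsmul : ∀ (c : K) (u v : V), f u (c • v) = c * f u v := by
    intro c u v
    rw [hsymm (c • v) u, hf.smul_left, hsymm v u]
    ring
  let B : LinearMap.BilinForm K V := LinearMap.mk₂ K f hf.add_left hf.smul_left hadd hsmul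
  have hB : ∀ v w, B v w = f v w := fun v w => rfl
  have hrefl : B.IsRefl := by
    intro v w hvw
    rw [hB] at hvw ⊢
    rw [hsymm v w, hvw, mul_zero]
  have hdisj : Disjoint W0 (B.orthogonal W0) := by
    rw [Submodule.disjoint_def]
    intro v hv hv'
    apply hW v hv
    intro w hw
    have h1 : B w v = 0 := hv' w hw
    rw [hB] at h1
    rw [hsymm w v, h1, mul_zero]
  have hcompl : IsCompl W0 (B.orthogonal W0) :=
    (LinearMap.BilinForm.isCompl_orthogonal_iff_disjoint hrefl).2 hdisj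
  set p : Module.End K V := W0.projection (B.orthogonal W0) hcompl with hp
  have hpm : ∀ v, p v ∈ W0 := fun v => Submodule.projection_apply_mem hcompl v
  have hpW : ∀ v ∈ W0, p v = v := fun v hv => Submodule.projection_apply_of_mem_left hcompl hv
  have hp0 : ∀ v, p v = 0 ↔ v ∈ B.orthogonal W0 :=
    fun v => Submodule.projection_apply_eq_zero_iff hcompl
  have hsub : ∀ v, v - p v ∈ B.orthogonal W0 := by
    intro v
    rw [← hp0, map_sub, hpW _ (hpm v), sub_self]
  have hort : ∀ u ∈ W0, ∀ v ∈ B.orthogonal W0, f u v = 0 := fun u hu v hv => hv u hu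
  have hort' : ∀ u ∈ W0, ∀ v ∈ B.orthogonal W0, f v u = 0 := by
    intro u hu v hv
    rw [hsymm u v, hort u hu v hv, mul_zero]
  refine ⟨p, ?_, ?_, Submodule.range_projection hcompl, ?_⟩
  · ext v
    rw [Module.End.mul_apply, hpW _ (hpm v)]
  · intro v w
    have h1 : f (p v) w = f (p v) (p w) := by
      have h2 : w = p w + (w - p w) := by abel
      conv_lhs => rw [h2]
      rw [hadd, hort _ (hpm v) _ (hsub w), add_zero]
    have h2 : f v (p w) = f (p v) (p w) := by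
      have h3 : v = p v + (v - p v) := by abel
      conv_lhs => rw [h3]
      rw [hf.add_left, hort' _ (hpm w) _ (hsub v), add_zero]
    rw [h1, h2]
  · intro A hA hst
    have hst' : ∀ a ∈ A, ∀ v ∈ B.orthogonal W0, a v ∈ B.orthogonal W0 := by
      intro a ha v hv
      obtain ⟨b, hb, hab⟩ := hA.star a ha
      intro u hu
      show B u (a v) = 0
      rw [hB, hsymm (a v) u, hab v u, hort' _ (hst b hb u hu) v hv, mul_zero]
    apply cent_eq A hA.toIsTorGL
    intro a ha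
    ext v
    rw [Module.End.mul_apply, Module.End.mul_apply]
    have h2 : v = p v + (v - p v) := by abel
    conv_lhs => rw [h2]
    rw [map_add, map_add, hpW _ (hst a ha _ (hpm v)), (hp0 _).2 (hst' a ha _ (hsub v)), add_zero]

end

end Pool.Agent.CTO
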