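import Pool.Agent.CTO.P0

/-!
# P1: restriction of a torus algebra to a stable subspace (linear case)

`e ∈ A` idempotent, `W = range e`; the elements of `A` preserve `W` (`a e = e a`).
* `restr_isTorGL`: `restr A W` is commutative, reduced (if `(a|W)² = 0` then `(a e)² = 0`, `a e = 0`), and has
  dimension `dim W` (`dim_eq`).
* `ex_lift_torGL`: for `t ∈ torGL (restr A W)`, `t` is the restriction of some `a ∈ A`; put
  `t̂ = a e + (1 - e) ∈ A`; it is invertible (`t` on `W`, `1` on `ker e`), so in `torGL A` (`mem_torGL_of`).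
* `ex_lift_sup`: closure induction (`Subgroup.closure_induction` on `sq T ⊔ sq T' = closure (.. ∪ ..)`):
  squares of elements of `torGL (restr A W)` lift to squares, etc.
* `critGL_restr`: an idempotent of `restr A W` is the restriction of `e1 = a e ∈ A`, an idempotent with
  `e1 V = e1 W`; the range of the restriction (a subspace of `W`) corresponds to `range e1`, and
  `restr (restr A W) (range (e1|W)) ≃ restr A (range e1)` by transport along `range (e1|W) ≃ range e1`.
* `iso_restr`: `φ : A ≃ A'`, `e'' = φ⁻¹ e'` is an idempotent of `A`; `dim range e'' = dim {a ∈ A | a e'' = a}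
  = dim {a' ∈ A' | a' e' = a'} = dim range e' = dim range e` (`dim_eq`; `restr A (range e)` is isomorphic to
  `{a ∈ A | a e = a}`), so by `CritGL A`, `restr A (range e) ≃ restr A (range e'')`, which is
  `≃ restr A' (range e')` via `φ`. More generally this gives `iso_restr'`, for `e ∈ A`, `e' ∈ A'` with ranges of
  the same dimension (in possibly different subspaces).
-/

namespace Pool.Agent.CTO

open Module

section

variable {K V : Type} [Field K] [AddCommGroup V] [Module K V] [FiniteDimensional K V]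

theorem P1_stable (A : Subalgebra K (Module.End K V)) (hA : IsTorGL A) (e : Module.End K V)
    (he : e ∈ A) (a : Module.End K V) (ha : a ∈ A) : ∀ v ∈ LinearMap.range e, a v ∈ LinearMap.range e := by
  rintro _ ⟨v, rfl⟩
  refine ⟨a v, ?_⟩
  have := congrArg (fun x : Module.End K V => x v) (hA.comm e he a ha)
  exact this

theorem P1_id {e : Module.End K V} (hee : e * e = e) : ∀ v ∈ LinearMap.range e, e v = v := by
  rintro _ ⟨v, rfl⟩
  exact congrArg (fun x : Module.End K V => x v) hee

theorem restr_isTorGL (A : Subalgebra K (Module.End K V)) (hA : IsTorGL A) (e : Module.End K V)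
    (he : e ∈ A) (hee : e * e = e) : IsTorGL (restr A (LinearMap.range e)) := by
  refine ⟨?_, ?_, dim_eq A hA e he hee⟩
  · rintro x ⟨a, ha, hx⟩ y ⟨b, hb, hy⟩
    ext w
    rw [Module.End.mul_apply, Module.End.mul_apply, hx, hy, hy, hx]
    exact congrArg (fun x : Module.End K V => x (w : V)) (hA.comm a ha b hb)
  · rintro x ⟨a, ha, hx⟩ hxx
    have h1 : (a * e) * (a * e) = 0 := by
      ext v
      have h2 : (a * e) * (a * e) = a * a * e := by
        calc (a * e) * (a * e) = a * (e * a) * e := by noncomm_ring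
          _ = a * (a * e) * e := by rw [hA.comm e he a ha]
          _ = a * a * (e * e) := by noncomm_ring
          _ = a * a * e := by rw [hee]
      rw [h2, Module.End.mul_apply, Module.End.mul_apply]
      have h3 := congrArg (fun z : Module.End K (LinearMap.range e) =>
        ((z ⟨e v, ⟨v, rfl⟩⟩ : LinearMap.range e) : V)) hxx
      simp only [Module.End.mul_apply, LinearMap.zero_apply, ZeroMemClass.coe_zero] at h3
      rw [hx, hx] at h3
      exact h3
    have h2 := hA.red _ (A.mul_mem ha he) h1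
    ext w
    rw [hx, ← P1_id hee (w : V) w.2]
    exact congrArg (fun x : Module.End K V => x (w : V)) h2

theorem P1_inv (A : Subalgebra K (Module.End K V)) (hA : IsTorGL A) (e : Module.End K V)
    (he : e ∈ A) (hee : e * e = e) (a b : Module.End K V) (ha : a ∈ A) (hb : b ∈ A)
    (h : ∀ w ∈ LinearMap.range e, a (b w) = w) : (a * e + (1 - e)) * (b * e + (1 - e)) = 1 := by
  have hae := hA.comm a ha e he
  have hbe := hA.comm b hb e he
  have h1 : a * b * e = e := by
    ext v
    exact h (e v) ⟨v, rfl⟩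
  calc (a * e + (1 - e)) * (b * e + (1 - e))
      = a * (e * b) * e + a * e - a * (e * e) + b * e + 1 - e - (e * b) * e - e + e * e := by
        noncomm_ring
    _ = a * (b * e) * e + a * e - a * e + b * e + 1 - e - (b * e) * e - e + e := by
        rw [← hbe, hee]
    _ = (a * b * (e * e)) + b * e + 1 - e - b * (e * e) := by noncomm_ring
    _ = 1 := by rw [hee, h1]; noncomm_ring

theorem ex_lift_torGL (A : Subalgebra K (Module.End K V)) (hA : IsTorGL A) (e : Module.End K V)
    (he : e ∈ A) (hee : e * e = e) (t : LinearMap.range e ≃ₗ[K] LinearMap.range e)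
    (ht : t ∈ torGL (restr A (LinearMap.range e))) :
    ∃ t' ∈ torGL A, (∀ w : LinearMap.range e, t' w = t w) ∧ ∀ v, e v = 0 → t' v = v := by
  obtain ⟨⟨a, ha, hta⟩, ⟨b, hb, htb⟩⟩ := ht
  have hta' : ∀ w : LinearMap.range e, ((t w : LinearMap.range e) : V) = a w := hta
  have htb' : ∀ w : LinearMap.range e, ((t⁻¹ w : LinearMap.range e) : V) = b w := htb
  have hab : ∀ w ∈ LinearMap.range e, a (b w) = w := by
    intro w hw
    rw [← htb' ⟨w, hw⟩, ← hta' _]
    have : t (t⁻¹ ⟨w, hw⟩) = ⟨w, hw⟩ := LinearEquiv.apply_symm_apply t _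
    rw [this]
  have hba : ∀ w ∈ LinearMap.range e, b (a w) = w := by
    intro w hw
    rw [← hta' ⟨w, hw⟩, ← htb' _]
    have : t⁻¹ (t ⟨w, hw⟩) = ⟨w, hw⟩ := LinearEquiv.symm_apply_apply t _
    rw [this]
  have hu : IsUnit (a * e + (1 - e)) :=
    ⟨⟨_, _, P1_inv A hA e he hee a b ha hb hab, P1_inv A hA e he hee b a hb ha hba⟩, rfl⟩
  obtain ⟨g, hg, hgT⟩ := exists_torGL A (a * e + (1 - e))
    (A.add_mem (A.mul_mem ha he) (A.sub_mem A.one_mem he)) hu
  have hgv : ∀ v, g v = a (e v) + (v - e v) := fun v =>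
    congrArg (fun x : Module.End K V => x v) hgT
  refine ⟨g, hg, fun w => ?_, fun v hv => ?_⟩
  · rw [hgv, P1_id hee _ w.2, hta', sub_self, add_zero]
  · rw [hgv, hv, map_zero, zero_add, sub_zero]

theorem P1_lift (A : Subalgebra K (Module.End K V)) (hA : IsTorGL A) (e : Module.End K V)
    (he : e ∈ A) (hee : e * e = e) (W : Submodule K V) (hW : LinearMap.range e = W)
    (t : W ≃ₗ[K] W) (ht : t ∈ torGL (restr A W)) : ∃ t' ∈ torGL A, ∀ w : W, t' w = t w := by
  subst hW
  obtain ⟨t', h1, h2, -⟩ := ex_lift_torGL A hA e he hee t ht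
  exact ⟨t', h1, h2⟩

theorem ex_lift_sup (A A' : Subalgebra K (Module.End K V)) (hA : IsTorGL A) (hA' : IsTorGL A')
    (e e' : Module.End K V) (he : e ∈ A) (hee : e * e = e) (he' : e' ∈ A') (hee' : e' * e' = e')
    (W : Submodule K V) (hW : LinearMap.range e = W) (hW' : LinearMap.range e' = W) (x : W ≃ₗ[K] W)
    (hx : x ∈ sq (torGL (restr A W)) ⊔ sq (torGL (restr A' W))) :
    ∃ y ∈ sq (torGL A) ⊔ sq (torGL A'), ∀ w : W, y w = x w := by
  set G : Subgroup (V ≃ₗ[K] V) := sq (torGL A) ⊔ sq (torGL A') with hG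
  let L : Subgroup (W ≃ₗ[K] W) :=
    { carrier := {x | ∃ y ∈ G, ∀ w : W, y w = x w}
      mul_mem' := by
        rintro a b ⟨y, hy, hya⟩ ⟨z, hz, hzb⟩
        refine ⟨y * z, mul_mem hy hz, fun w => ?_⟩
        rw [LinearEquiv.mul_apply, LinearEquiv.mul_apply, hzb, hya]
      one_mem' := ⟨1, one_mem _, fun _ => rfl⟩
      inv_mem' := by
        rintro a ⟨y, hy, hya⟩
        refine ⟨y⁻¹, inv_mem hy, fun w => ?_⟩
        have h1 : y ((a⁻¹ w : W) : V) = w := by
          rw [hya]
          have : a (a⁻¹ w) = w := LinearEquiv.apply_symm_apply a w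
          rw [this]
        conv_lhs => rw [← h1]
        exact LinearEquiv.symm_apply_apply y _ }
  have hle : sq (torGL (restr A W)) ⊔ sq (torGL (restr A' W)) ≤ L := by
    refine sup_le ?_ ?_
    · rw [sq, Subgroup.closure_le]
      rintro _ ⟨t, ht, rfl⟩
      obtain ⟨t', ht', h⟩ := P1_lift A hA e he hee W hW t ht
      refine ⟨t' * t', Subgroup.mem_sup_left (Subgroup.subset_closure ⟨t', ht', rfl⟩), fun w => ?_⟩
      rw [LinearEquiv.mul_apply, LinearEquiv.mul_apply, h, h]
    · rw [sq, Subgroup.closure_le]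
      rintro _ ⟨t, ht, rfl⟩
      obtain ⟨t', ht', h⟩ := P1_lift A' hA' e' he' hee' W hW' t ht
      refine ⟨t' * t', Subgroup.mem_sup_right (Subgroup.subset_closure ⟨t', ht', rfl⟩), fun w => ?_⟩
      rw [LinearEquiv.mul_apply, LinearEquiv.mul_apply, h, h]
  exact hle hx

theorem P1_restr_restr (A : Subalgebra K (Module.End K V)) (hA : IsTorGL A)
    (e : Module.End K V) (he : e ∈ A) (hee : e * e = e)
    (x : Module.End K (LinearMap.range e)) (hx : x ∈ restr A (LinearMap.range e))
    (hxx : x * x = x) :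
    ∃ e1 ∈ A, e1 * e1 = e1 ∧ finrank K (LinearMap.range e1) = finrank K (LinearMap.range x) ∧
      Nonempty (restr (restr A (LinearMap.range e)) (LinearMap.range x) ≃ₐ[K]
        restr A (LinearMap.range e1)) := by
  obtain ⟨a, ha, hxa⟩ := hx
  have hr : ∀ v : V, (a * e) v = ((x ⟨e v, ⟨v, rfl⟩⟩ : LinearMap.range e) : V) := by
    intro v
    rw [hxa]
    rfl
  have h1 : (a * e) * (a * e) = a * e := by
    ext v
    rw [Module.End.mul_apply, hr ((a * e) v)]
    have h2 : (⟨e ((a * e) v), ⟨(a * e) v, rfl⟩⟩ : LinearMap.range e) = x ⟨e v, ⟨v, rfl⟩⟩ := by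
      apply Subtype.ext
      show e ((a * e) v) = _
      rw [hr v]
      exact P1_id hee _ (x ⟨e v, ⟨v, rfl⟩⟩).2
    rw [h2, hr v]
    exact congrArg (fun z : Module.End K (LinearMap.range e) =>
      ((z ⟨e v, ⟨v, rfl⟩⟩ : LinearMap.range e) : V)) hxx
  have hmap : (LinearMap.range x).map (LinearMap.range e).subtype = LinearMap.range (a * e) := by
    ext v
    constructor
    · rintro ⟨_, ⟨w, rfl⟩, rfl⟩
      refine ⟨w, ?_⟩
      rw [hr]
      have : (⟨e (w : V), ⟨(w : V), rfl⟩⟩ : LinearMap.range e) = w := by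
        apply Subtype.ext
        exact P1_id hee _ w.2
      rw [this]
      rfl
    · rintro ⟨w, rfl⟩
      rw [hr]
      exact ⟨x ⟨e w, ⟨w, rfl⟩⟩, ⟨_, rfl⟩, rfl⟩
  let ψ : LinearMap.range x ≃ₗ[K] LinearMap.range (a * e) :=
    (Submodule.equivMapOfInjective (LinearMap.range e).subtype
      (Submodule.injective_subtype _) (LinearMap.range x)).trans (LinearEquiv.ofEq _ _ hmap)
  have hψ : ∀ u : LinearMap.range x, ((ψ u : LinearMap.range (a * e)) : V) = ((u : LinearMap.range e) : V) :=
    fun u => rfl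
  refine ⟨a * e, A.mul_mem ha he, h1, ψ.finrank_eq.symm, ?_⟩
  have heq : restr (restr A (LinearMap.range e)) (LinearMap.range x) =
      pull ψ (restr A (LinearMap.range (a * e))) := by
    ext z
    rw [mem_pull]
    constructor
    · rintro ⟨y', ⟨a', ha', hy'⟩, hz⟩
      refine ⟨a', ha', fun u => ?_⟩
      obtain ⟨u, rfl⟩ := ψ.surjective u
      rw [LinearMap.comp_apply, LinearMap.comp_apply]
      rw [LinearEquiv.coe_coe, LinearEquiv.coe_coe, LinearEquiv.symm_apply_apply, hψ, hψ, hz, hy']
    · rintro ⟨a', ha', hz⟩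
      refine ⟨a'.restrict (P1_stable A hA e he a' ha'), ⟨a', ha', fun w => rfl⟩, fun u => ?_⟩
      have h2 := hz (ψ u)
      rw [LinearMap.comp_apply, LinearMap.comp_apply] at h2
      rw [LinearEquiv.coe_coe, LinearEquiv.coe_coe, LinearEquiv.symm_apply_apply, hψ, hψ] at h2
      apply Subtype.ext
      rw [h2]
      rfl
  rw [heq]
  exact pull_iso ψ _

theorem critGL_restr (A : Subalgebra K (Module.End K V)) (hA : IsTorGL A) (hc : CritGL A)
    (e : Module.End K V) (he : e ∈ A) (hee : e * e = e) : CritGL (restr A (LinearMap.range e)) := by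
  intro x hx y hy hxx hyy hd
  obtain ⟨e1, he1, hee1, hd1, ⟨φ1⟩⟩ := P1_restr_restr A hA e he hee x hx hxx
  obtain ⟨e2, he2, hee2, hd2, ⟨φ2⟩⟩ := P1_restr_restr A hA e he hee y hy hyy
  obtain ⟨φ⟩ := hc e1 he1 e2 he2 hee1 hee2 (by rw [hd1, hd2, hd])
  exact ⟨(φ1.trans φ).trans φ2.symm⟩

/-- The restriction homomorphism. -/
noncomputable def P1_res (A : Subalgebra K (Module.End K V)) (hA : IsTorGL A) (e : Module.End K V)
    (he : e ∈ A) : A →ₐ[K] restr A (LinearMap.range e) where
  toFun a := ⟨(a : Module.End K V).restrict (P1_stable A hA e he a a.2), ⟨a, a.2, fun _ => rfl⟩⟩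
  map_one' := by ext w; rfl
  map_mul' a b := by ext w; rfl
  map_zero' := by ext w; rfl
  map_add' a b := by ext w; rfl
  commutes' r := by ext w; rfl

theorem P1_res_surj (A : Subalgebra K (Module.End K V)) (hA : IsTorGL A) (e : Module.End K V)
    (he : e ∈ A) : Function.Surjective (P1_res A hA e he) := by
  rintro ⟨x, ⟨a, ha, hx⟩⟩
  refine ⟨⟨a, ha⟩, ?_⟩
  apply Subtype.ext
  ext w
  exact (hx w).symm

theorem P1_res_eq (A : Subalgebra K (Module.End K V)) (hA : IsTorGL A) (e : Module.End K V)
    (he : e ∈ A) (a b : A) :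
    P1_res A hA e he a = P1_res A hA e he b ↔ a * ⟨e, he⟩ = b * ⟨e, he⟩ := by
  constructor
  · intro h
    apply Subtype.ext
    ext v
    exact congrArg (fun z : restr A (LinearMap.range e) =>
      (((z : Module.End K (LinearMap.range e)) ⟨e v, ⟨v, rfl⟩⟩ : LinearMap.range e) : V)) h
  · intro h
    apply Subtype.ext
    ext w
    obtain ⟨v, hv⟩ := w.2
    have h1 := congrArg (fun z : A => (z : Module.End K V) v) h
    have h2 : (a : Module.End K V) (e v) = (b : Module.End K V) (e v) := h1
    rw [hv] at h2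
    exact h2

theorem P1_equiv {A B C : Type} [Semiring A] [Semiring B] [Semiring C] [Algebra K A] [Algebra K B]
    [Algebra K C] (f : A →ₐ[K] B) (g : A →ₐ[K] C) (hf : Function.Surjective f)
    (hg : Function.Surjective g) (key : ∀ a a', f a = f a' ↔ g a = g a') : Nonempty (B ≃ₐ[K] C) := by
  have hF : ∀ a, g (Function.surjInv hf (f a)) = g a := by
    intro a
    rw [← key, Function.surjInv_eq hf]
  let F : B →ₐ[K] C :=
    { toFun := fun b => g (Function.surjInv hf b)
      map_one' := by
        have h1 := hF 1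
        rw [map_one, map_one] at h1
        exact h1
      map_mul' := by
        intro b b'
        obtain ⟨a, rfl⟩ := hf b
        obtain ⟨a', rfl⟩ := hf b'
        rw [← map_mul, hF, hF, hF, map_mul]
      map_zero' := by
        have h1 := hF 0
        rw [map_zero, map_zero] at h1
        exact h1
      map_add' := by
        intro b b'
        obtain ⟨a, rfl⟩ := hf b
        obtain ⟨a', rfl⟩ := hf b'
        rw [← map_add, hF, hF, hF, map_add]
      commutes' := by
        intro r
        have h1 := hF (algebraMap K A r)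
        rw [AlgHom.commutes, AlgHom.commutes] at h1
        exact h1 }
  have hF' : ∀ a, F (f a) = g a := hF
  refine ⟨AlgEquiv.ofBijective F ⟨?_, ?_⟩⟩
  · intro b b' hbb
    obtain ⟨a, rfl⟩ := hf b
    obtain ⟨a', rfl⟩ := hf b'
    rw [hF', hF', ← key] at hbb
    exact hbb
  · intro c
    obtain ⟨a, rfl⟩ := hg c
    exact ⟨f a, hF' a⟩

theorem iso_restr' (A A' : Subalgebra K (Module.End K V)) (hA : IsTorGL A) (hA' : IsTorGL A')
    (h : Nonempty (A ≃ₐ[K] A')) (hc : CritGL A)
    (e e' : Module.End K V) (he : e ∈ A) (hee : e * e = e) (he' : e' ∈ A') (hee' : e' * e' = e')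
    (hd : finrank K (LinearMap.range e) = finrank K (LinearMap.range e')) :
    Nonempty (restr A (LinearMap.range e) ≃ₐ[K] restr A' (LinearMap.range e')) := by
  obtain ⟨φ⟩ := h
  obtain ⟨e'', he''⟩ : ∃ e'' : A, φ e'' = ⟨e', he'⟩ := φ.surjective _
  have hee'' : (e'' : Module.End K V) * e'' = e'' := by
    have h1 : e'' * e'' = e'' := by
      apply φ.injective
      rw [map_mul, he'']
      exact Subtype.ext hee'
    exact congrArg Subtype.val h1
  have hiso : Nonempty (restr A (LinearMap.range (e'' : Module.End K V)) ≃ₐ[K]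
      restr A' (LinearMap.range e')) := by
    have hsurj : Function.Surjective ((P1_res A' hA' e' he').comp (φ : A →ₐ[K] A')) := by
      rw [AlgHom.coe_comp]
      exact (P1_res_surj A' hA' e' he').comp φ.surjective
    have hsurj' := P1_res_surj A hA e'' e''.2
    refine P1_equiv (P1_res A hA e'' e''.2)
      ((P1_res A' hA' e' he').comp (φ : A →ₐ[K] A')) hsurj' hsurj ?_
    intro a b
    have h2 : ∀ a : A, (P1_res A' hA' e' he').comp (φ : A →ₐ[K] A') a = P1_res A' hA' e' he' (φ a) :=
      fun _ => rfl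
    rw [P1_res_eq, h2, h2, P1_res_eq]
    have h4 : (⟨(e'' : Module.End K V), e''.2⟩ : A) = e'' := rfl
    rw [h4, ← he'', ← map_mul, ← map_mul, φ.injective.eq_iff]
  obtain ⟨ψ⟩ := hiso
  have hd' : finrank K (LinearMap.range (e'' : Module.End K V)) = finrank K (LinearMap.range e') := by
    rw [← dim_eq A hA e'' e''.2 hee'', ← dim_eq A' hA' e' he' hee']
    exact ψ.toLinearEquiv.finrank_eq
  obtain ⟨χ⟩ := hc e he e'' e''.2 hee hee'' (by rw [hd, hd'])
  exact ⟨χ.trans ψ⟩

end

end Pool.Agent.CTO
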