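import Pool.Agent.CTO.R1

/-!
# R2: density of the torus, bilinear case

`A` as in R1 with an involution `st : A →ₐ[K] A` and `w (bar i) = w i ∘ st`. Every polynomial of
degree `≤ D` vanishing at the points `z = (w i (x² / (st x)²))_i`, `x` a unit of `A`, vanishes on
`barT bar`. (`(z i) * w i (st x) ^ 2 = w i x ^ 2` says `z i = w i (x)² / w (bar i) (x)²`.)
Proof. `b`, `ℓ i` as in R1. `P = p̃ * ∏ i, ℓ i`, where `p̃ = (∏ i, ℓ i) ^ (2 D) * p(ℓ i ^ 2 / ℓ (bar i) ^ 2)`,
i.e. each monomial `c ∏ z i ^ m i` of `p` (`∑ m i ≤ D`) is replaced by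
`c ∏ ℓ i ^ (2 m i) * ℓ (bar i) ^ (2 D - 2 m i)`, which has degree `2 D n`, `n = card Ω`. `P` has degree
`≤ 2 D n + n < |K|` and vanishes at all points of `K^n`, so it is `0`, so `p̃ = 0`; as in R1 the values
`ℓ i` can be prescribed arbitrarily in `F`; so `p(y i ^ 2 / y (bar i) ^ 2) = 0` for all `y : Ω → Fˣ`.
Let `z ∈ barT bar`. Choose `e : Ω ≃ Fin (card Ω)`; put `y i` = a square root of `z i` if `e i < e (bar i)`
and `y i = 1` otherwise. Then `y i ^ 2 / y (bar i) ^ 2 = z i` in all the cases (`bar i = i`: both sides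
are `1`; note `bar (bar i) = i` follows from `w (bar (bar i)) = w i ∘ st ∘ st = w i`).
-/

namespace Pool.Agent.CTO

open Matrix Module

section

variable {K A F Ω : Type} [Field K] [Finite K] [CommRing A] [Algebra K A] [FiniteDimensional K A]
  [IsReduced A] [Field F] [Algebra K F] [IsAlgClosed F] [Fintype Ω] [DecidableEq Ω]

/-- the linear form of a homomorphism -/
noncomputable def R2_l {ι : Type} [Fintype ι] (b : Basis ι K A) (f : A →ₐ[K] F) :
    MvPolynomial ι F := ∑ j, MvPolynomial.C (f (b j)) * MvPolynomial.X j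

omit [Finite K] [FiniteDimensional K A] [IsReduced A] [IsAlgClosed F] in
theorem R2_l_deg {ι : Type} [Fintype ι] (b : Basis ι K A) (f : A →ₐ[K] F) :
    (R2_l b f).totalDegree ≤ 1 := by
  refine MvPolynomial.totalDegree_finsetSum_le fun j _ => ?_
  refine (MvPolynomial.totalDegree_mul _ _).trans ?_
  rw [MvPolynomial.totalDegree_C, zero_add, MvPolynomial.totalDegree_X]

omit [Finite K] [FiniteDimensional K A] [IsReduced A] [IsAlgClosed F] in
theorem R2_l_eval {ι : Type} [Fintype ι] (b : Basis ι K A) (f : A →ₐ[K] F) (x : ι → F) :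
    MvPolynomial.eval x (R2_l b f) = ∑ j, f (b j) * x j := by
  unfold R2_l
  rw [map_sum]
  refine Finset.sum_congr rfl fun j _ => ?_
  rw [map_mul, MvPolynomial.eval_C, MvPolynomial.eval_X]

omit [Finite K] [FiniteDimensional K A] [IsReduced A] [IsAlgClosed F] in
theorem R2_l_alg {ι : Type} [Fintype ι] (b : Basis ι K A) (f : A →ₐ[K] F) (x : ι → K) :
    MvPolynomial.eval (fun j => algebraMap K F (x j)) (R2_l b f) = f (∑ j, x j • b j) := by
  rw [R2_l_eval, map_sum]
  refine Finset.sum_congr rfl fun j _ => ?_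
  rw [map_smul, Algebra.smul_def, mul_comm]

theorem R2_surj (w : Ω → (A →ₐ[K] F)) (hw : Function.Bijective w) {ι : Type} [Fintype ι]
    (b : Basis ι K A) (y : Ω → F) : ∃ x : ι → F, ∀ i, ∑ j, w i (b j) * x j = y i := by
  classical
  obtain ⟨Φ, hΦ⟩ : ∃ Φ : (ι → F) →ₗ[F] (Ω → F), ∀ x i, Φ x i = ∑ j, w i (b j) * x j := by
    refine ⟨(Matrix.of fun i j => w i (b j)).mulVecLin, fun x i => ?_⟩
    rfl
  have hs : LinearMap.range Φ = ⊤ := by
    by_contra hne
    obtain ⟨f, hf0, hf⟩ := Submodule.exists_le_ker_of_lt_top _ (lt_top_iff_ne_top.2 hne)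
    apply hf0
    have h1 : ∀ v : Ω → F, f v = ∑ i, f (Pi.single i 1) * v i := by
      intro v
      conv_lhs => rw [pi_eq_sum_univ' v]
      rw [map_sum]
      refine Finset.sum_congr rfl fun i _ => ?_
      rw [map_smul, smul_eq_mul, mul_comm]
    have h2 : (fun i => f (Pi.single i 1)) = (0 : Ω → F) := by
      apply homs_indep w hw.1
      intro a
      have h3 : ∀ j, ∑ i, f (Pi.single i 1) * w i (b j) = 0 := by
        intro j
        have h4 : Φ (Pi.single j 1) ∈ LinearMap.ker f := hf (LinearMap.mem_range_self Φ _)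
        rw [LinearMap.mem_ker, h1] at h4
        rw [← h4]
        refine Finset.sum_congr rfl fun i _ => ?_
        rw [hΦ, Finset.sum_eq_single j]
        · rw [Pi.single_eq_same, mul_one]
        · intro k _ hk
          rw [Pi.single_eq_of_ne hk, mul_zero]
        · intro h
          exact absurd (Finset.mem_univ j) h
      have h5 : a = ∑ j, b.repr a j • b j := (b.sum_repr a).symm
      calc ∑ i, f (Pi.single i 1) * w i a
          = ∑ i, ∑ j, f (Pi.single i 1) * (algebraMap K F (b.repr a j) * w i (b j)) := by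
            refine Finset.sum_congr rfl fun i _ => ?_
            conv_lhs => rw [h5]
            rw [map_sum, Finset.mul_sum]
            refine Finset.sum_congr rfl fun j _ => ?_
            rw [map_smul, Algebra.smul_def]
        _ = ∑ j, algebraMap K F (b.repr a j) * ∑ i, f (Pi.single i 1) * w i (b j) := by
            rw [Finset.sum_comm]
            refine Finset.sum_congr rfl fun j _ => ?_
            rw [Finset.mul_sum]
            refine Finset.sum_congr rfl fun i _ => ?_
            ring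
        _ = 0 := by
            refine Finset.sum_eq_zero fun j _ => ?_
            rw [h3, mul_zero]
    refine LinearMap.ext fun v => ?_
    rw [h1, LinearMap.zero_apply]
    refine Finset.sum_eq_zero fun i _ => ?_
    have h3 := congrFun h2 i
    have h4 : f (Pi.single i 1) = 0 := h3
    rw [h4, zero_mul]
  have h1 : y ∈ LinearMap.range Φ := by rw [hs]; exact Submodule.mem_top
  obtain ⟨x, hx⟩ := h1
  refine ⟨x, fun i => ?_⟩
  rw [← hΦ, hx]

theorem densBar_alg (w : Ω → (A →ₐ[K] F)) (hw : Function.Bijective w) (st : A →ₐ[K] A)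
    (hst : ∀ a, st (st a) = a) (bar : Ω → Ω) (hbar : ∀ i a, w (bar i) a = w i (st a)) (D : ℕ)
    (hD : 2 * D * Fintype.card Ω + Fintype.card Ω < Nat.card K) :
    DensBar D bar {z : Ω → Fˣ | ∃ x : Aˣ, ∀ i, (z i : F) * w i (st (x : A)) ^ 2 = w i (x : A) ^ 2} := by
  classical
  intro p hp hpT z hz
  obtain ⟨ι, hι, ⟨b⟩⟩ : ∃ (ι : Type) (_ : Fintype ι), Nonempty (Basis ι K A) :=
    ⟨Fin (finrank K A), inferInstance, ⟨finBasis K A⟩⟩
  have hinv : ∀ i, bar (bar i) = i := by
    intro i
    apply hw.1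
    apply AlgHom.ext
    intro a
    rw [hbar, hbar, hst]
  have hinj : Function.Injective bar := fun i j h => by rw [← hinv i, h, hinv]
  obtain ⟨ℓ, hℓ⟩ : ∃ ℓ : Ω → MvPolynomial ι F, ∀ i, ℓ i = R2_l b (w i) := ⟨_, fun _ => rfl⟩
  have hℓ1 : ∀ i, (ℓ i).totalDegree ≤ 1 := fun i => by rw [hℓ]; exact R2_l_deg b (w i)
  have hmle : ∀ m ∈ p.support, ∀ i, m i ≤ D := by
    intro m hm i
    have h1 := MvPolynomial.le_totalDegree hm
    have h2 : m i ≤ m.sum fun _ e => e := by
      rw [Finsupp.sum_fintype _ _ (fun _ => rfl)]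
      exact Finset.single_le_sum (f := fun i => m i) (fun _ _ => Nat.zero_le _)
        (Finset.mem_univ i)
    omega
  -- the homogenized polynomial
  obtain ⟨Q, hQ⟩ : ∃ Q : MvPolynomial ι F, Q = ∑ m ∈ p.support, MvPolynomial.C (p.coeff m) *
      ∏ i, (ℓ i ^ (2 * m i) * ℓ (bar i) ^ (2 * D - 2 * m i)) := ⟨_, rfl⟩
  have hQdeg : Q.totalDegree ≤ 2 * D * Fintype.card Ω := by
    rw [hQ]
    refine MvPolynomial.totalDegree_finsetSum_le fun m hm => ?_
    refine (MvPolynomial.totalDegree_mul _ _).trans ?_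
    rw [MvPolynomial.totalDegree_C, zero_add]
    refine (MvPolynomial.totalDegree_finsetProd _ _).trans ?_
    have h1 : ∀ i ∈ (Finset.univ : Finset Ω),
        (ℓ i ^ (2 * m i) * ℓ (bar i) ^ (2 * D - 2 * m i)).totalDegree ≤ 2 * D := by
      intro i _
      refine (MvPolynomial.totalDegree_mul _ _).trans ?_
      have h2 := MvPolynomial.totalDegree_pow (ℓ i) (2 * m i)
      have h3 := MvPolynomial.totalDegree_pow (ℓ (bar i)) (2 * D - 2 * m i)
      have h4 : 2 * m i * (ℓ i).totalDegree ≤ 2 * m i * 1 := Nat.mul_le_mul_left _ (hℓ1 i)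
      have h5 : (2 * D - 2 * m i) * (ℓ (bar i)).totalDegree ≤ (2 * D - 2 * m i) * 1 :=
        Nat.mul_le_mul_left _ (hℓ1 (bar i))
      have h6 := hmle m hm i
      omega
    refine (Finset.sum_le_sum h1).trans ?_
    rw [Finset.sum_const, Finset.card_univ, smul_eq_mul, mul_comm]
  -- values of the homogenized polynomial
  have hQeval : ∀ (x : ι → F) (y : Ω → F) (v : Ω → F),
      (∀ i, MvPolynomial.eval x (ℓ i) = y i) → (∀ i, y i ^ 2 = v i * y (bar i) ^ 2) →
      MvPolynomial.eval x Q = (∏ i, y (bar i) ^ (2 * D)) * MvPolynomial.eval v p := by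
    intro x y v hy hv
    rw [hQ, map_sum, MvPolynomial.eval_eq', Finset.mul_sum]
    refine Finset.sum_congr rfl fun m hm => ?_
    rw [map_mul, MvPolynomial.eval_C, map_prod, mul_left_comm, ← Finset.prod_mul_distrib]
    congr 1
    refine Finset.prod_congr rfl fun i _ => ?_
    rw [map_mul, map_pow, map_pow, hy, hy, pow_mul, hv, mul_pow, ← pow_mul]
    have h6 := hmle m hm i
    have h7 : y (bar i) ^ (2 * D) = y (bar i) ^ (2 * m i) * y (bar i) ^ (2 * D - 2 * m i) := by
      rw [← pow_add]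
      congr 1
      omega
    rw [h7]
    ring
  obtain ⟨P, hP⟩ : ∃ P : MvPolynomial ι F, P = Q * ∏ i, ℓ i := ⟨_, rfl⟩
  have hPdeg : P.totalDegree < Nat.card K := by
    refine lt_of_le_of_lt ?_ hD
    rw [hP]
    refine (MvPolynomial.totalDegree_mul _ _).trans (add_le_add hQdeg ?_)
    refine (MvPolynomial.totalDegree_finsetProd _ _).trans ?_
    refine (Finset.sum_le_sum fun i _ => hℓ1 i).trans ?_
    rw [Finset.sum_const, Finset.card_univ, smul_eq_mul, mul_one]
  have hPzero : P = 0 := by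
    have := Fintype.ofFinite K
    have hcard : (Finset.univ.image (algebraMap K F)).card = Nat.card K := by
      rw [Finset.card_image_of_injective _ (algebraMap K F).injective, Finset.card_univ,
        Nat.card_eq_fintype_card]
    refine MvPolynomial.eq_zero_of_eval_zero_at_prod_finset P
      (fun _ => Finset.univ.image (algebraMap K F)) (fun i => ?_) (fun x hx => ?_)
    · rw [hcard]
      exact lt_of_le_of_lt (MvPolynomial.degreeOf_le_totalDegree P i) hPdeg
    · have hx' : ∀ j, ∃ c : K, algebraMap K F c = x j := by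
        intro j
        obtain ⟨c, -, hc⟩ := Finset.mem_image.1 (hx j)
        exact ⟨c, hc⟩
      choose c hc using hx'
      have hxe : x = fun j => algebraMap K F (c j) := funext fun j => (hc j).symm
      obtain ⟨a, ha⟩ : ∃ a, a = ∑ j, c j • b j := ⟨_, rfl⟩
      have hev : ∀ i, MvPolynomial.eval x (ℓ i) = w i a := by
        intro i
        rw [hxe, hℓ, R2_l_alg, ha]
      rw [hP, map_mul]
      by_cases h0 : ∃ i, w i a = 0
      · obtain ⟨i, hi⟩ := h0
        rw [map_prod, Finset.prod_eq_zero (Finset.mem_univ i) (by rw [hev, hi]), mul_zero]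
      · have h1 : ∀ i, w i a ≠ 0 := fun i hi => h0 ⟨i, hi⟩
        obtain ⟨u, hu⟩ := (unit_iff w hw a).2 h1
        have h2 : ∀ i, w i (st a) ≠ 0 := fun i => by rw [← hbar]; exact h1 (bar i)
        have h3 : MvPolynomial.eval (fun i => ((Units.mk0 (w i a ^ 2 / w i (st a) ^ 2)
            (div_ne_zero (pow_ne_zero 2 (h1 i)) (pow_ne_zero 2 (h2 i))) : Fˣ) : F)) p = 0 := by
          apply hpT
          refine ⟨u, fun i => ?_⟩
          rw [hu, Units.val_mk0, div_mul_cancel₀ _ (pow_ne_zero 2 (h2 i))]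
        rw [hQeval x (fun i => w i a) (fun i => w i a ^ 2 / w i (st a) ^ 2) hev (fun i => by
          beta_reduce
          rw [hbar, div_mul_cancel₀ _ (pow_ne_zero 2 (h2 i))])]
        have h4 : MvPolynomial.eval (fun i => w i a ^ 2 / w i (st a) ^ 2) p = 0 := h3
        rw [h4, mul_zero, zero_mul]
  have hℓne : ∀ i, ℓ i ≠ 0 := by
    intro i h0
    obtain ⟨x, hx⟩ := R2_surj w hw b (fun _ => (1 : F))
    have h1 := hx i
    rw [← R2_l_eval, ← hℓ, h0, map_zero] at h1
    exact zero_ne_one h1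
  have hQzero : Q = 0 := by
    rw [hP] at hPzero
    rcases mul_eq_zero.1 hPzero with h | h
    · exact h
    · exact absurd h (Finset.prod_ne_zero_iff.2 fun i _ => hℓne i)
  -- square roots
  obtain ⟨e⟩ : Nonempty (Ω ≃ Fin (Fintype.card Ω)) := ⟨Fintype.equivFin Ω⟩
  have hsq : ∀ i, ∃ r : F, r ^ 2 = (z i : F) := fun i =>
    IsAlgClosed.exists_pow_nat_eq (z i : F) two_pos
  choose r hr using hsq
  have hr0 : ∀ i, r i ≠ 0 := by
    intro i h0
    have h1 := hr i
    rw [h0] at h1
    exact (z i).ne_zero (by rw [← h1]; norm_num)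
  obtain ⟨y, hy⟩ : ∃ y : Ω → F, ∀ i, y i = if e i < e (bar i) then r i else 1 :=
    ⟨_, fun _ => rfl⟩
  have hy0 : ∀ i, y i ≠ 0 := by
    intro i
    rw [hy]
    split_ifs
    · exact hr0 i
    · exact one_ne_zero
  have hyv : ∀ i, y i ^ 2 = (z i : F) * y (bar i) ^ 2 := by
    intro i
    rw [hy, hy, hinv]
    rcases lt_trichotomy (e i) (e (bar i)) with h | h | h
    · have h1 : ¬ (e (bar i) < e i) := not_lt.2 h.le
      rw [if_pos h, if_neg h1, hr]
      ring
    · have h1 : ¬ (e i < e (bar i)) := by rw [← h]; exact lt_irrefl _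
      have h2 : ¬ (e (bar i) < e i) := by rw [← h]; exact lt_irrefl _
      have h3 : z i = 1 := (hz i).2 (e.injective h).symm
      rw [if_neg h1, if_neg h2, h3]
      simp
    · have h1 : ¬ (e i < e (bar i)) := not_lt.2 h.le
      rw [if_neg h1, if_pos h, hr, ← Units.val_mul, (hz i).1]
      simp
  obtain ⟨x, hx⟩ := R2_surj w hw b y
  have h1 := hQeval x y (fun i => (z i : F)) (fun i => by rw [hℓ, R2_l_eval, hx]) hyv
  rw [hQzero, map_zero] at h1
  rcases mul_eq_zero.1 h1.symm with h2 | h2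
  · exact absurd h2 (Finset.prod_ne_zero_iff.2 fun i _ => pow_ne_zero _ (hy0 (bar i)))
  · exact h2

end

end Pool.Agent.CTO
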