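import Pool.Agent.CTO.AI
import Pool.Agent.CTO.A2
import Pool.Agent.CTO.A4
import Pool.Agent.CTO.F1
import Pool.Agent.CTO.F4

/-!
# T1: the irreducible case, linear

`H = sq (torGL A) ⊔ sq (torGL A')` irreducible on `V`, `dim V = N`. `N = 0`: `h = 1`. Otherwise `V` is
nontrivial. `q0` is the maximum of the bounds of `gen_torGL N` and of `aiGL m`, `m ≤ N`
(`Finset.sup`/induction). By `gen_torGL`, `A, A' ≤ adjoin (EndSet H)`; `exists_field` gives `E`. Let
`AE = liftAlg A`, `AE' = liftAlg A'`; `IsTorGL` by `lift_isTorGL`; `iso_lift` gives `AE ≃ AE'`; `conj_of_iso`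
over `E` gives `g : V ≃ₗ[E] V` carrying `AE` to `AE'`; with `HE = sq (torGL AE) ⊔ sq (torGL AE')` one has
`HE.map resH = H` (`sq_sup_map`, `lift_torGL_map`), so `adjoin_lift` gives `adjoin E (EndSet HE) = ⊤`;
`aiGL (finrank E V)` (`finrank_lift_le`, `card_le_lift`) gives `h ∈ HE` carrying `AE` to `AE'`;
`carries_of_lift`.
-/

namespace Pool.Agent.CTO

open Module

theorem irrGL (N : ℕ) : ∃ q0 : ℕ, ∀ (K V : Type) [Field K] [Finite K] [AddCommGroup V]
    [Module K V] [FiniteDimensional K V] (A A' : Subalgebra K (Module.End K V)),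
    finrank K V = N → q0 ≤ Nat.card K → IsTorGL A → IsTorGL A' → Nonempty (A ≃ₐ[K] A') →
    (∀ W : Submodule K V, (∀ h ∈ sq (torGL A) ⊔ sq (torGL A'), ∀ v ∈ W, h v ∈ W) → W = ⊥ ∨ W = ⊤) →
    ∃ h ∈ sq (torGL A) ⊔ sq (torGL A'), CarriesTo h A A' := by
  classical
  obtain ⟨q1, h1⟩ := gen_torGL N
  choose qf hqf using aiGL
  refine ⟨max q1 ((Finset.range (N + 1)).sup qf), ?_⟩
  intro K V _ _ _ _ _ A A' hN hq hA hA' hiso irr
  rcases subsingleton_or_nontrivial V with hV | hV
  · refine ⟨1, one_mem _, ?_⟩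
    intro a _
    have : (1 : V ≃ₗ[K] V).toLinearMap ∘ₗ a ∘ₗ (1 : V ≃ₗ[K] V).symm.toLinearMap = 0 := by
      ext v
      exact Subsingleton.elim _ _
    rw [this]
    exact A'.zero_mem
  · have hq1 : q1 ≤ Nat.card K := le_trans (le_max_left _ _) hq
    have m1 : EndSet (sq (torGL A)) ⊆ EndSet (sq (torGL A) ⊔ sq (torGL A')) := by
      rintro _ ⟨t, ht, rfl⟩
      exact ⟨t, Subgroup.mem_sup_left ht, rfl⟩
    have m2 : EndSet (sq (torGL A')) ⊆ EndSet (sq (torGL A) ⊔ sq (torGL A')) := by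
      rintro _ ⟨t, ht, rfl⟩
      exact ⟨t, Subgroup.mem_sup_right ht, rfl⟩
    have hAB : A ≤ Algebra.adjoin K (EndSet (sq (torGL A) ⊔ sq (torGL A'))) :=
      (h1 K V A hN hq1 hA).trans (Algebra.adjoin_mono m1)
    have hAB' : A' ≤ Algebra.adjoin K (EndSet (sq (torGL A) ⊔ sq (torGL A'))) :=
      (h1 K V A' hN hq1 hA').trans (Algebra.adjoin_mono m2)
    obtain ⟨E, iF, iFin, iAlg, iMod, iST, hE, hE', _, _, hdens⟩ :=
      exists_field K V A A' hA hA' _ hAB hAB' irr
    have hfd : FiniteDimensional E V := Module.Finite.of_restrictScalars_finite K E V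
    have hAE : IsTorGL (liftAlg A hE) := lift_isTorGL A hA hE
    have hAE' : IsTorGL (liftAlg A' hE') := lift_isTorGL A' hA' hE'
    have hisoE := iso_lift A A' hA hA' hE hE' hiso
    obtain ⟨g, hg⟩ := conj_of_iso (liftAlg A hE) (liftAlg A' hE') hAE hAE' hisoE
    have hmap : (sq (torGL (liftAlg A hE)) ⊔ sq (torGL (liftAlg A' hE'))).map
        (resH : (V ≃ₗ[E] V) →* (V ≃ₗ[K] V)) = sq (torGL A) ⊔ sq (torGL A') := by
      rw [sq_sup_map, lift_torGL_map A hA hE, lift_torGL_map A' hA' hE']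
    have htop : Algebra.adjoin E (EndSet (sq (torGL (liftAlg A hE)) ⊔
        sq (torGL (liftAlg A' hE')))) = ⊤ := by
      apply adjoin_lift (K := K)
      intro x hx
      rw [hmap]
      exact hdens x hx
    have hrank : finrank E V ≤ N := by
      rw [← hN]
      exact finrank_lift_le
    have hcard : qf (finrank E V) ≤ Nat.card E := by
      have e1 : qf (finrank E V) ≤ (Finset.range (N + 1)).sup qf :=
        Finset.le_sup (f := qf) (Finset.mem_range.2 (by omega))
      have e2 : Nat.card K ≤ Nat.card E := card_le_lift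
      exact (e1.trans ((le_max_right _ _).trans hq)).trans e2
    obtain ⟨h, hh, hc⟩ := hqf (finrank E V) E V (liftAlg A hE) (liftAlg A' hE') g rfl hcard hAE
      hAE' hg htop
    refine ⟨resH h, ?_, carries_of_lift A A' hA hE hE' h hc⟩
    rw [← hmap]
    exact ⟨h, hh, rfl⟩

end Pool.Agent.CTO
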