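import Pool.Agent.CTO.X1

/-!
# X2: isomorphisms of the algebras with involution

`e = eSZ S Z`, `W = range (mSZ S Z) = e TorAlg`, `restr algA W ≃ e TorAlg` (the multiplications by elements of
`e TorAlg` on `e TorAlg`), the adjoint being `starA`.
`←`: a bijection `S ≃ S'` preserving `typA` (from the equality of the multisets) and a bijection `Z ≃ Z'`;
`P i ≃ P i'` over `K` if the degrees are equal (finite fields: `FiniteField.algEquivOfCardEq`-like), so
`P i × P i ≃ P i' × P i'` compatible with the exchange; `L j ≃ L j'` over `K` if the degrees are equal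
(`[L j : K]` is even: it is `2 * ([L j : K] / 2)`), and such an isomorphism is compatible with `τ`, because
`L j'` has only one `K`-automorphism of order two (the Galois group is cyclic). So `e TorAlg ≃ e' TorAlg`
(a product of algebras with involution), and hence `SIso`.
`→`: an isomorphism of algebras with involution maps the primitive elements among the idempotents with
`a* = a` to such; in `e TorAlg` these are the `e_k = eSZ {k} ∅`, `k ∈ S`, and `eSZ ∅ {z}`, `z ∈ Z`. This gives a
bijection `π : S ⊔ Z ≃ S' ⊔ Z'` with `e_k TorAlg ≃ e_{π k} TorAlg`. These algebras have the dimensions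
`2 lenA k`, resp. `1`, so `π` maps `Z` to `Z'`, `S` to `S'`, and preserves `lenA`; and `e_k TorAlg` is a field
iff `k` is negative. So `π` preserves `typA`.
-/

namespace Pool.Agent.CTO

open Module

section X2gen

variable {K T : Type} [Field K] [CommRing T] [Algebra K T]

/-- the corners of the idempotents `e`, `e'` are isomorphic, compatibly with `s` -/
structure X2Rel (s : T →ₐ[K] T) (e e' : T) (Φ Ψ : T →ₗ[K] T) : Prop where
  mul : ∀ a b, Φ (a * b) = Φ a * Φ b
  mul' : ∀ a b, Ψ (a * b) = Ψ a * Ψ b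
  one : Φ 1 = e'
  one' : Ψ 1 = e
  inv : ∀ a, Ψ (Φ a) = a * e
  inv' : ∀ b, Φ (Ψ b) = b * e'
  st : ∀ a, Φ (s a) = s (Φ a)
  st' : ∀ b, Ψ (s b) = s (Ψ b)

/-- the existence -/
def X2R (s : T →ₐ[K] T) (e e' : T) : Prop := ∃ Φ Ψ : T →ₗ[K] T, X2Rel s e e' Φ Ψ

variable {s : T →ₐ[K] T} {e e' : T} {Φ Ψ : T →ₗ[K] T}

theorem X2Rel.symm (h : X2Rel s e e' Φ Ψ) : X2Rel s e' e Ψ Φ :=
  ⟨h.mul', h.mul, h.one', h.one, h.inv', h.inv, h.st', h.st⟩

theorem X2R.symm (h : X2R s e e') : X2R s e' e := by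
  obtain ⟨Φ, Ψ, h⟩ := h
  exact ⟨Ψ, Φ, h.symm⟩

theorem X2Rel.abs (h : X2Rel s e e' Φ Ψ) (a : T) : Φ a * e' = Φ a := by
  rw [← h.one, ← h.mul, mul_one]

theorem X2Rel.ee (h : X2Rel s e e' Φ Ψ) : Φ e = e' := by
  rw [← h.one', h.inv', one_mul]

theorem X2Rel.arg (h : X2Rel s e e' Φ Ψ) (a : T) : Φ (a * e) = Φ a := by
  rw [h.mul, h.ee, h.abs]

theorem X2Rel.restrict (h : X2Rel s e e' Φ Ψ) {u : T} (h1 : u * u = u) (h2 : u * e = u)
    (h3 : s u = u) : X2R s u (Φ u) := by
  have i1 : ∀ a, u * (u * a) = u * a := fun a => by rw [← mul_assoc, h1]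
  have u1 : Φ u * Φ u = Φ u := by rw [← h.mul, h1]
  have u2 : Ψ (Φ u) = u := by rw [h.inv, h2]
  have u3 : s (Φ u) = Φ u := by rw [← h.st, h3]
  refine ⟨Φ ∘ₗ LinearMap.mulLeft K u, Ψ ∘ₗ LinearMap.mulLeft K (Φ u),
    ⟨?_, ?_, ?_, ?_, ?_, ?_, ?_, ?_⟩⟩
  · intro a b
    simp only [LinearMap.comp_apply, LinearMap.mulLeft_apply]
    rw [← h.mul]
    congr 1
    calc u * (a * b) = (u * u) * (a * b) := by rw [h1]
      _ = _ := by ring
  · intro a b
    simp only [LinearMap.comp_apply, LinearMap.mulLeft_apply]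
    rw [← h.mul']
    congr 1
    calc Φ u * (a * b) = (Φ u * Φ u) * (a * b) := by rw [u1]
      _ = _ := by ring
  · simp only [LinearMap.comp_apply, LinearMap.mulLeft_apply, mul_one]
  · simp only [LinearMap.comp_apply, LinearMap.mulLeft_apply, mul_one]
    exact u2
  · intro a
    simp only [LinearMap.comp_apply, LinearMap.mulLeft_apply]
    rw [← h.mul, ← mul_assoc, h1, h.inv]
    calc u * a * e = (u * e) * a := by ring
      _ = a * u := by rw [h2, mul_comm]
  · intro b
    simp only [LinearMap.comp_apply, LinearMap.mulLeft_apply]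
    rw [h.mul, h.inv']
    calc Φ u * (Φ u * b * e') = (Φ u * Φ u) * e' * b := by ring
      _ = b * Φ u := by rw [u1, h.abs, mul_comm]
  · intro a
    simp only [LinearMap.comp_apply, LinearMap.mulLeft_apply]
    rw [← h.st, map_mul s, h3]
  · intro b
    simp only [LinearMap.comp_apply, LinearMap.mulLeft_apply]
    rw [← h.st', map_mul s, u3]

theorem X2R_sum {σ : Type} (X : Finset σ) (e e' : σ → T)
    (h : ∀ t ∈ X, X2R s (e t) (e' t))
    (ho : ∀ t ∈ X, ∀ r ∈ X, t ≠ r → e t * e r = 0)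
    (ho' : ∀ t ∈ X, ∀ r ∈ X, t ≠ r → e' t * e' r = 0) :
    X2R s (∑ t ∈ X, e t) (∑ t ∈ X, e' t) := by
  classical
  choose! Φ Ψ hR using h
  have cross : ∀ t ∈ X, ∀ r ∈ X, r ≠ t → ∀ a, Ψ t (Φ r a) = 0 := by
    intro t ht r hr hne a
    rw [← (hR t ht).symm.arg, ← (hR r hr).abs, mul_assoc, ho' r hr t ht hne, mul_zero, map_zero]
  have cross' : ∀ t ∈ X, ∀ r ∈ X, r ≠ t → ∀ a, Φ t (Ψ r a) = 0 := by
    intro t ht r hr hne a
    rw [← (hR t ht).arg, ← (hR r hr).symm.abs, mul_assoc, ho r hr t ht hne, mul_zero, map_zero]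
  have hmul : ∀ (F : σ → T →ₗ[K] T) (ε : σ → T), (∀ t ∈ X, ∀ a b, F t (a * b) = F t a * F t b) →
      (∀ t ∈ X, ∀ a, F t a * ε t = F t a) → (∀ t ∈ X, ∀ r ∈ X, t ≠ r → ε t * ε r = 0) →
      ∀ a b, (∑ t ∈ X, F t) (a * b) = (∑ t ∈ X, F t) a * (∑ t ∈ X, F t) b := by
    intro F ε h1 h2 h3 a b
    simp only [LinearMap.sum_apply]
    rw [Finset.sum_mul_sum]
    apply Finset.sum_congr rfl
    intro t ht
    rw [Finset.sum_eq_single t]
    · exact h1 t ht a b
    · intro r hr hne
      rw [← h2 t ht a, ← h2 r hr b]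
      calc F t a * ε t * (F r b * ε r) = F t a * F r b * (ε t * ε r) := by ring
        _ = 0 := by rw [h3 t ht r hr hne.symm, mul_zero]
    · intro hn
      exact absurd ht hn
  have hinv : ∀ (F G : σ → T →ₗ[K] T) (ε : σ → T),
      (∀ t ∈ X, ∀ r ∈ X, r ≠ t → ∀ a, G t (F r a) = 0) → (∀ t ∈ X, ∀ a, G t (F t a) = a * ε t) →
      ∀ a, (∑ t ∈ X, G t) ((∑ t ∈ X, F t) a) = a * ∑ t ∈ X, ε t := by
    intro F G ε h1 h2 a
    simp only [LinearMap.sum_apply, map_sum]
    rw [Finset.mul_sum]
    apply Finset.sum_congr rfl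
    intro t ht
    rw [Finset.sum_eq_single t]
    · exact h2 t ht a
    · intro r hr hne
      exact h1 r hr t ht (Ne.symm hne) a
    · intro hn
      exact absurd ht hn
  refine ⟨∑ t ∈ X, Φ t, ∑ t ∈ X, Ψ t, ⟨?_, ?_, ?_, ?_, ?_, ?_, ?_, ?_⟩⟩
  · exact hmul Φ e' (fun t ht => (hR t ht).mul) (fun t ht => (hR t ht).abs) ho'
  · exact hmul Ψ e (fun t ht => (hR t ht).mul') (fun t ht => (hR t ht).symm.abs) ho
  · simp only [LinearMap.sum_apply]
    exact Finset.sum_congr rfl fun t ht => (hR t ht).one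
  · simp only [LinearMap.sum_apply]
    exact Finset.sum_congr rfl fun t ht => (hR t ht).one'
  · exact hinv Φ Ψ e cross (fun t ht => (hR t ht).inv)
  · exact hinv Ψ Φ e' cross' (fun t ht => (hR t ht).inv')
  · intro a
    simp only [LinearMap.sum_apply, map_sum]
    exact Finset.sum_congr rfl fun t ht => (hR t ht).st a
  · intro a
    simp only [LinearMap.sum_apply, map_sum]
    exact Finset.sum_congr rfl fun t ht => (hR t ht).st' a

/-- the corner of `u` is identified with the algebra `R` with involution `st` -/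
structure X2Comp {R : Type} [CommRing R] [Algebra K R] (s : T →ₐ[K] T) (u : T) (st : R → R)
    (pr : T →ₗ[K] R) (inc : R →ₗ[K] T) : Prop where
  pr_mul : ∀ a b, pr (a * b) = pr a * pr b
  inc_mul : ∀ a b, inc (a * b) = inc a * inc b
  pr_one : pr 1 = 1
  inc_one : inc 1 = u
  pr_inc : ∀ x, pr (inc x) = x
  inc_pr : ∀ a, inc (pr a) = a * u
  pr_st : ∀ a, pr (s a) = st (pr a)
  inc_st : ∀ x, inc (st x) = s (inc x)

theorem X2R_comp {R R' : Type} [CommRing R] [Algebra K R] [CommRing R'] [Algebra K R']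
    {u u' : T} {st : R → R} {st' : R' → R'} {pr : T →ₗ[K] R} {inc : R →ₗ[K] T}
    {pr' : T →ₗ[K] R'} {inc' : R' →ₗ[K] T} (h : X2Comp s u st pr inc)
    (h' : X2Comp s u' st' pr' inc') (θ : R ≃ₐ[K] R') (hθ : ∀ x, θ (st x) = st' (θ x)) :
    X2R s u u' := by
  have hθ' : ∀ x, θ.symm (st' x) = st (θ.symm x) := by
    intro x
    apply θ.injective
    rw [hθ, AlgEquiv.apply_symm_apply, AlgEquiv.apply_symm_apply]
  refine ⟨inc' ∘ₗ θ.toLinearMap ∘ₗ pr, inc ∘ₗ θ.symm.toLinearMap ∘ₗ pr',
    ⟨?_, ?_, ?_, ?_, ?_, ?_, ?_, ?_⟩⟩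
  · intro a b
    simp only [LinearMap.comp_apply, AlgEquiv.toLinearMap_apply]
    rw [h.pr_mul, map_mul, h'.inc_mul]
  · intro a b
    simp only [LinearMap.comp_apply, AlgEquiv.toLinearMap_apply]
    rw [h'.pr_mul, map_mul, h.inc_mul]
  · simp only [LinearMap.comp_apply, AlgEquiv.toLinearMap_apply]
    rw [h.pr_one, map_one, h'.inc_one]
  · simp only [LinearMap.comp_apply, AlgEquiv.toLinearMap_apply]
    rw [h'.pr_one, map_one, h.inc_one]
  · intro a
    simp only [LinearMap.comp_apply, AlgEquiv.toLinearMap_apply]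
    rw [h'.pr_inc, AlgEquiv.symm_apply_apply, h.inc_pr]
  · intro a
    simp only [LinearMap.comp_apply, AlgEquiv.toLinearMap_apply]
    rw [h.pr_inc, AlgEquiv.apply_symm_apply, h'.inc_pr]
  · intro a
    simp only [LinearMap.comp_apply, AlgEquiv.toLinearMap_apply]
    rw [h.pr_st, hθ, h'.inc_st]
  · intro a
    simp only [LinearMap.comp_apply, AlgEquiv.toLinearMap_apply]
    rw [h'.pr_st, hθ', h.inc_st]

/-- a bijection of finite sets from equal multisets of values -/
theorem X2_bij {β γ : Type} [DecidableEq β] [DecidableEq γ] (f : β → γ) (S : Finset β) :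
    ∀ S' : Finset β, S.val.map f = S'.val.map f →
      ∃ π : β → β, Set.BijOn π S S' ∧ ∀ k ∈ S, f (π k) = f k := by
  induction S using Finset.induction_on with
  | empty =>
    intro S' h
    have h1 : S' = ∅ := by
      rw [← Finset.card_eq_zero]
      have := congrArg Multiset.card h
      simpa using this.symm
    subst h1
    exact ⟨id, by simp, by simp⟩
  | insert a S ha ih =>
    intro S' h
    rw [Finset.insert_val_of_notMem ha, Multiset.map_cons] at h
    have h1 : f a ∈ S'.val.map f := by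
      rw [← h]
      exact Multiset.mem_cons_self _ _
    obtain ⟨b, hb, hfb⟩ := Multiset.mem_map.1 h1
    have hb' : b ∈ S' := hb
    have h2 : S'.val.map f = f b ::ₘ (S'.erase b).val.map f := by
      conv_lhs => rw [← Finset.insert_erase hb']
      rw [Finset.insert_val_of_notMem (Finset.notMem_erase b S'), Multiset.map_cons]
    rw [h2, hfb, Multiset.cons_inj_right] at h
    obtain ⟨π, hπ, hπ'⟩ := ih _ h
    refine ⟨Function.update π a b, ?_, ?_⟩
    · have h3 : Set.BijOn (Function.update π a b) (S : Set β) ((S'.erase b : Finset β) : Set β) := by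
        refine hπ.congr ?_
        intro k hk
        have hne : k ≠ a := fun h0 => ha (h0 ▸ hk)
        rw [Function.update_of_ne hne]
      have h4 : Function.update π a b a = b := Function.update_self _ _ _
      have h5 : Function.update π a b a ∉ ((S'.erase b : Finset β) : Set β) := by
        rw [h4]
        simp
      have h6 := h3.insert h5
      rw [h4] at h6
      rw [Finset.coe_insert, ← Finset.insert_erase hb', Finset.coe_insert]
      exact h6
    · intro k hk
      rcases Finset.mem_insert.1 hk with rfl | hk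
      · simpa using hfb
      · have hne : k ≠ a := fun h0 => ha (h0 ▸ hk)
        rw [Function.update_of_ne hne]
        exact hπ' k hk

end X2gen

section X2tor

variable {K : Type} [Field K] {ι κ : Type} {ζ : Type} {P : ι → Type} {L : κ → Type}
  [∀ i, Field (P i)] [∀ i, Algebra K (P i)] [∀ j, Field (L j)] [∀ j, Algebra K (L j)]

/-- the involution as a homomorphism of algebras -/
def X2s (τ : ∀ j, L j ≃ₐ[K] L j) : TorAlg K ζ P L →ₐ[K] TorAlg K ζ P L where
  toFun := starA ζ P τ
  map_one' := by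
    refine Prod.ext (Prod.ext ?_ ?_) ?_
    · rfl
    · funext j
      exact map_one (τ j)
    · rfl
  map_mul' := by
    intro a b
    refine Prod.ext (Prod.ext ?_ ?_) ?_
    · rfl
    · funext j
      exact map_mul (τ j) _ _
    · rfl
  map_zero' := by
    refine Prod.ext (Prod.ext ?_ ?_) ?_
    · rfl
    · funext j
      exact map_zero (τ j)
    · rfl
  map_add' := by
    intro a b
    refine Prod.ext (Prod.ext ?_ ?_) ?_
    · rfl
    · funext j
      exact map_add (τ j) _ _
    · rfl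
  commutes' := by
    intro k
    refine Prod.ext (Prod.ext ?_ ?_) ?_
    · rfl
    · funext j
      exact (τ j).commutes k
    · rfl

open Classical in
/-- the idempotent of a set of places -/
noncomputable def X2E (X : Finset ((ι ⊕ κ) ⊕ ζ)) : TorAlg K ζ P L :=
  ((fun i => if Sum.inl (Sum.inl i) ∈ X then 1 else 0,
    fun j => if Sum.inl (Sum.inr j) ∈ X then 1 else 0),
    fun z => if Sum.inr z ∈ X then 1 else 0)

open Classical in
theorem X2E_eSZ (S : Finset (ι ⊕ κ)) (Z : Finset ζ) :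
    eSZ K P L S Z = X2E (S.disjSum Z) := by
  refine Prod.ext (Prod.ext ?_ ?_) ?_
  · funext i
    simp only [eSZ, X2E, Finset.inl_mem_disjSum]
  · funext i
    simp only [eSZ, X2E, Finset.inl_mem_disjSum]
  · funext i
    simp only [eSZ, X2E, Finset.inr_mem_disjSum]

open Classical in
theorem X2E_mul (X Y : Finset ((ι ⊕ κ) ⊕ ζ)) :
    (X2E X * X2E Y : TorAlg K ζ P L) = X2E (X ∩ Y) := by
  refine Prod.ext (Prod.ext ?_ ?_) ?_
  · funext i
    change (if _ then (1 : P i × P i) else 0) * (if _ then (1 : P i × P i) else 0) = if _ then _ else _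
    simp only [Finset.mem_inter]
    by_cases h1 : (Sum.inl (Sum.inl i) : (ι ⊕ κ) ⊕ ζ) ∈ X <;>
      by_cases h2 : (Sum.inl (Sum.inl i) : (ι ⊕ κ) ⊕ ζ) ∈ Y <;> simp [h1, h2]
  · funext i
    change (if _ then (1 : L i) else 0) * (if _ then (1 : L i) else 0) = if _ then _ else _
    simp only [Finset.mem_inter]
    by_cases h1 : (Sum.inl (Sum.inr i) : (ι ⊕ κ) ⊕ ζ) ∈ X <;>
      by_cases h2 : (Sum.inl (Sum.inr i) : (ι ⊕ κ) ⊕ ζ) ∈ Y <;> simp [h1, h2]
  · funext i
    change (if _ then (1 : K) else 0) * (if _ then (1 : K) else 0) = if _ then _ else _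
    simp only [Finset.mem_inter]
    by_cases h1 : (Sum.inr i : (ι ⊕ κ) ⊕ ζ) ∈ X <;>
      by_cases h2 : (Sum.inr i : (ι ⊕ κ) ⊕ ζ) ∈ Y <;> simp [h1, h2]

theorem X2E_empty : (X2E ∅ : TorAlg K ζ P L) = 0 := by
  refine Prod.ext (Prod.ext ?_ ?_) ?_ <;> funext i <;> simp [X2E]

theorem X2E_inj {X Y : Finset ((ι ⊕ κ) ⊕ ζ)} (h : (X2E X : TorAlg K ζ P L) = X2E Y) : X = Y := by
  classical
  ext t
  rcases t with (i | j) | z
  · have h1 := congrFun (congrArg (fun a : TorAlg K ζ P L => a.1.1) h) i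
    simp only [X2E] at h1
    by_cases h2 : (Sum.inl (Sum.inl i) : (ι ⊕ κ) ⊕ ζ) ∈ X <;>
      by_cases h3 : (Sum.inl (Sum.inl i) : (ι ⊕ κ) ⊕ ζ) ∈ Y <;> simp [h2, h3] at h1 ⊢
  · have h1 := congrFun (congrArg (fun a : TorAlg K ζ P L => a.1.2) h) j
    simp only [X2E] at h1
    by_cases h2 : (Sum.inl (Sum.inr j) : (ι ⊕ κ) ⊕ ζ) ∈ X <;>
      by_cases h3 : (Sum.inl (Sum.inr j) : (ι ⊕ κ) ⊕ ζ) ∈ Y <;> simp [h2, h3] at h1 ⊢
  · have h1 := congrFun (congrArg (fun a : TorAlg K ζ P L => a.2) h) z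
    simp only [X2E] at h1
    by_cases h2 : (Sum.inr z : (ι ⊕ κ) ⊕ ζ) ∈ X <;>
      by_cases h3 : (Sum.inr z : (ι ⊕ κ) ⊕ ζ) ∈ Y <;> simp [h2, h3] at h1 ⊢

open Classical in
theorem X2E_insert {X : Finset ((ι ⊕ κ) ⊕ ζ)} {t : (ι ⊕ κ) ⊕ ζ} (ht : t ∉ X) :
    (X2E (insert t X) : TorAlg K ζ P L) = X2E {t} + X2E X := by
  refine Prod.ext (Prod.ext ?_ ?_) ?_
  · funext i
    change (if _ then (1 : P i × P i) else 0) = (if _ then _ else _) + (if _ then _ else _)
    simp only [Finset.mem_insert, Finset.mem_singleton]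
    by_cases h1 : (Sum.inl (Sum.inl i) : (ι ⊕ κ) ⊕ ζ) = t
    · have h2 : (Sum.inl (Sum.inl i) : (ι ⊕ κ) ⊕ ζ) ∉ X := h1 ▸ ht
      simp [h1, ht]
    · simp [h1]
  · funext i
    change (if _ then (1 : L i) else 0) = (if _ then _ else _) + (if _ then _ else _)
    simp only [Finset.mem_insert, Finset.mem_singleton]
    by_cases h1 : (Sum.inl (Sum.inr i) : (ι ⊕ κ) ⊕ ζ) = t
    · simp [h1, ht]
    · simp [h1]
  · funext i
    change (if _ then (1 : K) else 0) = (if _ then _ else _) + (if _ then _ else _)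
    simp only [Finset.mem_insert, Finset.mem_singleton]
    by_cases h1 : (Sum.inr i : (ι ⊕ κ) ⊕ ζ) = t
    · simp [h1, ht]
    · simp [h1]

theorem X2E_sum (X : Finset ((ι ⊕ κ) ⊕ ζ)) :
    (X2E X : TorAlg K ζ P L) = ∑ t ∈ X, X2E {t} := by
  classical
  induction X using Finset.induction_on with
  | empty => rw [X2E_empty, Finset.sum_empty]
  | insert t X ht ih => rw [X2E_insert ht, Finset.sum_insert ht, ih]

theorem X2E_st (τ : ∀ j, L j ≃ₐ[K] L j) (X : Finset ((ι ⊕ κ) ⊕ ζ)) :
    X2s τ (X2E X : TorAlg K ζ P L) = X2E X := by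
  classical
  refine Prod.ext (Prod.ext ?_ ?_) ?_
  · funext i
    change Prod.swap (if _ then (1 : P i × P i) else 0) = (if _ then _ else _)
    split_ifs <;> rfl
  · funext i
    change τ i (if _ then (1 : L i) else 0) = (if _ then _ else _)
    split_ifs
    · exact map_one _
    · exact map_zero _
  · rfl

theorem X2E_idem [Fintype ι] [Fintype κ] [Fintype ζ] (τ : ∀ j, L j ≃ₐ[K] L j)
    (a : TorAlg K ζ P L) (h1 : a * a = a) (h2 : X2s τ a = a) :
    ∃ X : Finset ((ι ⊕ κ) ⊕ ζ), a = X2E X := by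
  classical
  have hP : ∀ i, a.1.1 i = 0 ∨ a.1.1 i = 1 := by
    intro i
    have h3 : a.1.1 i * a.1.1 i = a.1.1 i := congrFun (congrArg (fun a : TorAlg K ζ P L => a.1.1) h1) i
    have h4 : (a.1.1 i).swap = a.1.1 i := congrFun (congrArg (fun a : TorAlg K ζ P L => a.1.1) h2) i
    have h5 : (a.1.1 i).1 * (a.1.1 i).1 = (a.1.1 i).1 := congrArg Prod.fst h3
    have h6 : (a.1.1 i).2 = (a.1.1 i).1 := congrArg Prod.fst h4
    rcases mul_self_eq_mul_self_iff.1 (show (a.1.1 i).1 * (a.1.1 i).1 = (a.1.1 i).1 * (a.1.1 i).1 from rfl) with _ | _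
    all_goals
      rcases eq_or_ne ((a.1.1 i).1) 0 with h7 | h7
      · left
        exact Prod.ext h7 (by rw [h6, h7]; rfl)
      · right
        have h8 : (a.1.1 i).1 = 1 := mul_right_cancel₀ h7 (by rw [h5, one_mul])
        exact Prod.ext h8 (by rw [h6, h8]; rfl)
  have hL : ∀ i, a.1.2 i = 0 ∨ a.1.2 i = 1 := by
    intro i
    have h3 : a.1.2 i * a.1.2 i = a.1.2 i := congrFun (congrArg (fun a : TorAlg K ζ P L => a.1.2) h1) i
    rcases eq_or_ne (a.1.2 i) 0 with h7 | h7
    · exact Or.inl h7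
    · exact Or.inr (mul_right_cancel₀ h7 (by rw [h3, one_mul]))
  have hZ : ∀ i, a.2 i = 0 ∨ a.2 i = 1 := by
    intro i
    have h3 : a.2 i * a.2 i = a.2 i := congrFun (congrArg (fun a : TorAlg K ζ P L => a.2) h1) i
    rcases eq_or_ne (a.2 i) 0 with h7 | h7
    · exact Or.inl h7
    · exact Or.inr (mul_right_cancel₀ h7 (by rw [h3, one_mul]))
  refine ⟨Finset.univ.filter (fun t => Sum.elim (Sum.elim (fun i => a.1.1 i = 1)
    (fun j => a.1.2 j = 1)) (fun z => a.2 z = 1) t), ?_⟩
  refine Prod.ext (Prod.ext ?_ ?_) ?_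
  · funext i
    simp only [X2E, Finset.mem_filter, Finset.mem_univ, true_and, Sum.elim_inl]
    rcases hP i with h | h
    · rw [h, if_neg]
      exact zero_ne_one
    · rw [h, if_pos rfl]
  · funext i
    simp only [X2E, Finset.mem_filter, Finset.mem_univ, true_and, Sum.elim_inl, Sum.elim_inr]
    rcases hL i with h | h
    · rw [h, if_neg]
      exact zero_ne_one
    · rw [h, if_pos rfl]
  · funext i
    simp only [X2E, Finset.mem_filter, Finset.mem_univ, true_and, Sum.elim_inr]
    rcases hZ i with h | h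
    · rw [h, if_neg]
      exact zero_ne_one
    · rw [h, if_pos rfl]

/-- primitive idempotents correspond to primitive idempotents -/
theorem X2_atom [Fintype ι] [Fintype κ] [Fintype ζ] {τ : ∀ j, L j ≃ₐ[K] L j}
    {X X' : Finset ((ι ⊕ κ) ⊕ ζ)} {Φ Ψ : TorAlg K ζ P L →ₗ[K] TorAlg K ζ P L}
    (h : X2Rel (X2s τ) (X2E X) (X2E X') Φ Ψ) {t : (ι ⊕ κ) ⊕ ζ} (ht : t ∈ X) :
    ∃ y ∈ X', Φ (X2E {t}) = X2E {y} := by
  classical
  have idem : ∀ Y : Finset ((ι ⊕ κ) ⊕ ζ), (X2E Y * X2E Y : TorAlg K ζ P L) = X2E Y := fun Y => by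
    rw [X2E_mul, Finset.inter_self]
  have sub : ∀ {Y Z : Finset ((ι ⊕ κ) ⊕ ζ)}, (X2E Y * X2E Z : TorAlg K ζ P L) = X2E Y → Y ⊆ Z := by
    intro Y Z h0
    rw [X2E_mul] at h0
    exact Finset.inter_eq_left.1 (X2E_inj h0)
  have te : (X2E {t} * X2E X : TorAlg K ζ P L) = X2E {t} := by
    rw [X2E_mul, Finset.inter_eq_left.2 (Finset.singleton_subset_iff.2 ht)]
  have hback : Ψ (Φ (X2E {t})) = X2E {t} := by rw [h.inv, te]
  obtain ⟨Y, hY⟩ := X2E_idem τ (Φ (X2E {t})) (by rw [← h.mul, idem]) (by rw [← h.st, X2E_st])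
  have hYne : Y.Nonempty := by
    rw [Finset.nonempty_iff_ne_empty]
    rintro rfl
    rw [hY, X2E_empty, map_zero, ← X2E_empty] at hback
    exact absurd (X2E_inj hback) (Finset.singleton_ne_empty t).symm
  have hYX : Y ⊆ X' := by
    apply sub
    have := h.abs (X2E {t})
    rwa [hY] at this
  obtain ⟨y, hy⟩ := hYne
  have hyX : y ∈ X' := hYX hy
  refine ⟨y, hyX, ?_⟩
  obtain ⟨W, hW⟩ := X2E_idem τ (Ψ (X2E {y})) (by rw [← h.mul', idem]) (by rw [← h.st', X2E_st])
  have hfw : Φ (Ψ (X2E {y})) = X2E {y} := by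
    rw [h.inv', X2E_mul, Finset.inter_eq_left.2 (Finset.singleton_subset_iff.2 hyX)]
  have hWt : W ⊆ {t} := by
    apply sub
    rw [← hW]
    conv_lhs => rw [← hback]
    rw [← h.mul', hY, X2E_mul, Finset.inter_eq_left.2 (Finset.singleton_subset_iff.2 hy)]
  have hWne : W ≠ ∅ := by
    rintro rfl
    rw [hW, X2E_empty, map_zero, ← X2E_empty] at hfw
    exact absurd (X2E_inj hfw) (Finset.singleton_ne_empty y).symm
  have hWe : W = {t} := by
    rcases Finset.subset_singleton_iff.1 hWt with h0 | h0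
    · exact absurd h0 hWne
    · exact h0
  rw [hW, hWe] at hfw
  exact hfw

end X2tor

section X2bridge

variable {K T : Type} [Field K] [CommRing T] [Algebra K T]

theorem X2_mem (e : T) (a : T) {x : T} (hx : x ∈ LinearMap.range (Algebra.lmul K T e)) :
    a * x ∈ LinearMap.range (Algebra.lmul K T e) := by
  obtain ⟨y, rfl⟩ := hx
  refine ⟨a * y, ?_⟩
  simp only [Algebra.coe_lmul_eq_mul, LinearMap.mul_apply']
  ring

theorem X2_memE (e : T) (a : T) : e * a ∈ LinearMap.range (Algebra.lmul K T e) := by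
  refine ⟨a, ?_⟩
  simp only [Algebra.coe_lmul_eq_mul, LinearMap.mul_apply']

theorem X2_memI {e : T} (he : e * e = e) {x : T}
    (hx : x ∈ LinearMap.range (Algebra.lmul K T e)) : e * x = x := by
  obtain ⟨y, rfl⟩ := hx
  simp only [Algebra.coe_lmul_eq_mul, LinearMap.mul_apply']
  rw [← mul_assoc, he]

/-- the multiplication by `a` on the corner -/
def X2m (K : Type) {T : Type} [Field K] [CommRing T] [Algebra K T] (e a : T) :
    Module.End K (LinearMap.range (Algebra.lmul K T e)) where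
  toFun w := ⟨a * w, X2_mem e a w.2⟩
  map_add' u v := by
    apply Subtype.ext
    change a * ((u : T) + v) = a * u + a * v
    rw [mul_add]
  map_smul' c v := by
    apply Subtype.ext
    change a * (c • (v : T)) = c • (a * (v : T))
    rw [mul_smul_comm]

/-- the multiplications -/
def X2rho (K : Type) {T : Type} [Field K] [CommRing T] [Algebra K T] (e a : T) :
    restr (Algebra.lmul K T).range (LinearMap.range (Algebra.lmul K T e)) :=
  ⟨X2m K e a, Algebra.lmul K T a, ⟨a, rfl⟩, fun w => by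
    simp only [Algebra.coe_lmul_eq_mul, LinearMap.mul_apply']
    rfl⟩

/-- the element of the multiplication -/
def X2val (K : Type) {T : Type} [Field K] [CommRing T] [Algebra K T] (e : T)
    (x : restr (Algebra.lmul K T).range (LinearMap.range (Algebra.lmul K T e))) : T :=
  ((x : Module.End K (LinearMap.range (Algebra.lmul K T e))) ⟨e * 1, X2_memE e 1⟩ :
    LinearMap.range (Algebra.lmul K T e))

theorem X2_ex (e : T)
    (x : restr (Algebra.lmul K T).range (LinearMap.range (Algebra.lmul K T e))) :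
    ∃ a, x = X2rho K e a := by
  obtain ⟨x, a', ⟨a, ha⟩, h⟩ := x
  refine ⟨a, ?_⟩
  apply Subtype.ext
  apply LinearMap.ext
  intro w
  apply Subtype.ext
  rw [h w, ← ha]
  rfl

theorem X2_val_rho (e a : T) : X2val K e (X2rho K e a) = a * e := by
  change a * (e * 1) = a * e
  rw [mul_one]

theorem X2_rho_mul (e a b : T) : X2rho K e (a * b) = X2rho K e a * X2rho K e b := by
  apply Subtype.ext
  apply LinearMap.ext
  intro w
  apply Subtype.ext
  change a * b * (w : T) = a * (b * w)
  ring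

theorem X2_rho_add (e a b : T) : X2rho K e (a + b) = X2rho K e a + X2rho K e b := by
  apply Subtype.ext
  apply LinearMap.ext
  intro w
  apply Subtype.ext
  change (a + b) * (w : T) = a * w + b * w
  ring

theorem X2_rho_smul (e : T) (c : K) (a : T) : X2rho K e (c • a) = c • X2rho K e a := by
  apply Subtype.ext
  apply LinearMap.ext
  intro w
  apply Subtype.ext
  change (c • a) * (w : T) = c • (a * w)
  rw [smul_mul_assoc]

theorem X2_rho_one (e : T) : X2rho K e 1 = 1 := by
  apply Subtype.ext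
  apply LinearMap.ext
  intro w
  apply Subtype.ext
  change 1 * (w : T) = w
  rw [one_mul]

theorem X2_rho_eq {e : T} (he : e * e = e) {a b : T} (h : a * e = b * e) :
    X2rho K e a = X2rho K e b := by
  apply Subtype.ext
  apply LinearMap.ext
  intro w
  apply Subtype.ext
  change a * (w : T) = b * w
  rw [← X2_memI he w.2, ← mul_assoc, h, mul_assoc]

theorem X2_rho_val {e : T} (he : e * e = e)
    (x : restr (Algebra.lmul K T).range (LinearMap.range (Algebra.lmul K T e))) :
    X2rho K e (X2val K e x) = x := by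
  obtain ⟨a, rfl⟩ := X2_ex e x
  rw [X2_val_rho]
  apply X2_rho_eq he
  rw [mul_assoc, he]

theorem X2_val_mul {e : T} (he : e * e = e)
    (x y : restr (Algebra.lmul K T).range (LinearMap.range (Algebra.lmul K T e))) :
    X2val K e (x * y) = X2val K e x * X2val K e y := by
  obtain ⟨a, rfl⟩ := X2_ex e x
  obtain ⟨b, rfl⟩ := X2_ex e y
  rw [← X2_rho_mul, X2_val_rho, X2_val_rho, X2_val_rho]
  calc a * b * e = a * b * (e * e) := by rw [he]
    _ = _ := by ring

theorem X2_val_add (e : T)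
    (x y : restr (Algebra.lmul K T).range (LinearMap.range (Algebra.lmul K T e))) :
    X2val K e (x + y) = X2val K e x + X2val K e y := rfl

theorem X2_val_smul (e : T) (c : K)
    (x : restr (Algebra.lmul K T).range (LinearMap.range (Algebra.lmul K T e))) :
    X2val K e (c • x) = c • X2val K e x := rfl

theorem X2_val_one (e : T) : X2val K e 1 = e := by
  change e * 1 = e
  rw [mul_one]

theorem X2_val_e {e : T} (he : e * e = e)
    (x : restr (Algebra.lmul K T).range (LinearMap.range (Algebra.lmul K T e))) :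
    X2val K e x * e = X2val K e x := by
  obtain ⟨a, rfl⟩ := X2_ex e x
  rw [X2_val_rho, mul_assoc, he]

variable {ε : K} {f : T → T → K} {s : T →ₐ[K] T}

theorem X2_se {e x : T} (hs : s e = e) (hx : x * e = x) : s x * e = s x := by
  calc s x * e = s x * s e := by rw [hs]
    _ = s (x * e) := (map_mul s x e).symm
    _ = s x := by rw [hx]

theorem X2_add_right (hf : IsHF (RingHom.id K) ε f) (u v w : T) :
    f u (v + w) = f u v + f u w := by
  rw [hf.herm (v + w) u, hf.add_left, map_add, mul_add, ← hf.herm, ← hf.herm]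

theorem X2_smul_right (hf : IsHF (RingHom.id K) ε f) (a : K) (v w : T) :
    f v (a • w) = a * f v w := by
  rw [hf.herm (a • w) v, hf.smul_left, map_mul, mul_left_comm, ← hf.herm]
  rfl

theorem X2_nondeg (hf : IsHF (RingHom.id K) ε f) (w : T) (h : ∀ v, f v w = 0) : w = 0 := by
  apply hf.nondeg
  intro v
  rw [hf.herm v w, h v, map_zero, mul_zero]

theorem X2_adj (hf : IsHF (RingHom.id K) ε f) (had : ∀ a v w, f (a * v) w = f v (s a * w))
    {e : T} (he : e * e = e) (hs : s e = e) (a b : T) :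
    IsAdj (resF f (LinearMap.range (Algebra.lmul K T e)))
      (X2rho K e a : Module.End K (LinearMap.range (Algebra.lmul K T e))) (X2rho K e b) ↔
      s a * e = b * e := by
  constructor
  · intro h
    rw [← sub_eq_zero, ← sub_mul]
    apply X2_nondeg hf
    intro v
    have h1 : ((s a - b) * e : T) = s e * ((s a - b) * e) := by
      rw [hs]
      calc (s a - b) * e = (s a - b) * (e * e) := by rw [he]
        _ = _ := by ring
    rw [h1, ← had]
    have h2 : f (a * (e * v)) (e * 1) = f (e * v) (b * (e * 1)) :=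
      h ⟨e * v, X2_memE e v⟩ ⟨e * 1, X2_memE e 1⟩
    rw [had, mul_one] at h2
    rw [sub_mul, sub_eq_add_neg, X2_add_right hf, h2]
    have h3 : -(b * e) = (-1 : K) • (b * e) := by simp
    rw [h3, X2_smul_right hf]
    simp
  · intro h v w
    change f (a * v) w = f v (b * w)
    rw [had]
    congr 1
    rw [← X2_memI he w.2, ← mul_assoc, h, mul_assoc]

theorem X2_bridge (hf : IsHF (RingHom.id K) ε f) (had : ∀ a v w, f (a * v) w = f v (s a * w))
    {e e' : T} (he : e * e = e) (hs : s e = e) (he' : e' * e' = e') (hs' : s e' = e') :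
    SIso (resF f (LinearMap.range (Algebra.lmul K T e)))
      (restr (Algebra.lmul K T).range (LinearMap.range (Algebra.lmul K T e)))
      (resF f (LinearMap.range (Algebra.lmul K T e')))
      (restr (Algebra.lmul K T).range (LinearMap.range (Algebra.lmul K T e'))) ↔
      X2R s e e' := by
  constructor
  · rintro ⟨φ, hφ⟩
    have a0 : ∀ b, X2val K e' (φ (X2rho K e b)) * e' = X2val K e' (φ (X2rho K e b)) :=
      fun b => X2_val_e he' _
    have i1 : ∀ a, X2val K e (φ.symm (X2rho K e' (X2val K e' (φ (X2rho K e a))))) = a * e := by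
      intro a
      rw [X2_rho_val he', AlgEquiv.symm_apply_apply, X2_val_rho]
    have i2 : ∀ a, X2val K e' (φ (X2rho K e (X2val K e (φ.symm (X2rho K e' a))))) = a * e' := by
      intro a
      rw [X2_rho_val he, AlgEquiv.apply_symm_apply, X2_val_rho]
    have st1 : ∀ a, X2val K e' (φ (X2rho K e (s a))) = s (X2val K e' (φ (X2rho K e a))) := by
      intro a
      have h1 := hφ (X2rho K e a) (X2rho K e (s a)) ((X2_adj hf had he hs _ _).2 rfl)
      rw [← X2_rho_val he' (φ (X2rho K e a)), ← X2_rho_val he' (φ (X2rho K e (s a))),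
        X2_adj hf had he' hs'] at h1
      rw [a0] at h1
      rw [← h1]
      exact X2_se hs' (a0 a)
    refine ⟨{ toFun := fun a => X2val K e' (φ (X2rho K e a)), map_add' := ?_, map_smul' := ?_ },
      { toFun := fun a => X2val K e (φ.symm (X2rho K e' a)), map_add' := ?_, map_smul' := ?_ },
      ⟨?_, ?_, ?_, ?_, ?_, ?_, ?_, ?_⟩⟩
    · intro a b
      rw [X2_rho_add, map_add, X2_val_add]
    · intro c a
      rw [X2_rho_smul, map_smul, X2_val_smul, RingHom.id_apply]
    · intro a b
      rw [X2_rho_add, map_add, X2_val_add]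
    · intro c a
      rw [X2_rho_smul, map_smul, X2_val_smul, RingHom.id_apply]
    · intro a b
      change X2val K e' (φ (X2rho K e (a * b))) = X2val K e' (φ (X2rho K e a)) *
        X2val K e' (φ (X2rho K e b))
      rw [X2_rho_mul, map_mul, X2_val_mul he']
    · intro a b
      change X2val K e (φ.symm (X2rho K e' (a * b))) = X2val K e (φ.symm (X2rho K e' a)) *
        X2val K e (φ.symm (X2rho K e' b))
      rw [X2_rho_mul, map_mul, X2_val_mul he]
    · change X2val K e' (φ (X2rho K e 1)) = e'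
      rw [X2_rho_one, map_one, X2_val_one]
    · change X2val K e (φ.symm (X2rho K e' 1)) = e
      rw [X2_rho_one, map_one, X2_val_one]
    · exact i1
    · exact i2
    · exact st1
    · intro b
      change X2val K e (φ.symm (X2rho K e' (s b))) = s (X2val K e (φ.symm (X2rho K e' b)))
      have h1 := i1 (s (X2val K e (φ.symm (X2rho K e' b))))
      rw [st1, i2] at h1
      have h2 : X2rho K e' (s (b * e')) = X2rho K e' (s b) := by
        apply X2_rho_eq he'
        rw [map_mul, hs', mul_assoc, he']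
      rw [h2] at h1
      rw [h1]
      exact X2_se hs (X2_val_e he _)
  · rintro ⟨Φ, Ψ, h⟩
    have c1 : ∀ x, X2rho K e (Ψ (X2val K e' (X2rho K e' (Φ (X2val K e x))))) = x := by
      intro x
      rw [X2_val_rho, h.abs, h.inv, X2_val_e he, X2_rho_val he]
    have c2 : ∀ x, X2rho K e' (Φ (X2val K e (X2rho K e (Ψ (X2val K e' x))))) = x := by
      intro x
      rw [X2_val_rho, h.symm.abs, h.inv', X2_val_e he', X2_rho_val he']
    refine ⟨AlgEquiv.ofLinearEquiv
      { toFun := fun x => X2rho K e' (Φ (X2val K e x))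
        invFun := fun x => X2rho K e (Ψ (X2val K e' x))
        map_add' := ?_
        map_smul' := ?_
        left_inv := c1
        right_inv := c2 } ?_ ?_, ?_⟩
    · intro x y
      rw [X2_val_add, map_add, X2_rho_add]
    · intro c x
      rw [X2_val_smul, map_smul, X2_rho_smul, RingHom.id_apply]
    · change X2rho K e' (Φ (X2val K e 1)) = 1
      rw [X2_val_one, h.ee, ← X2_rho_one]
      apply X2_rho_eq he'
      rw [he', one_mul]
    · intro x y
      change X2rho K e' (Φ (X2val K e (x * y))) = X2rho K e' (Φ (X2val K e x)) *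
        X2rho K e' (Φ (X2val K e y))
      rw [X2_val_mul he, h.mul, X2_rho_mul]
    · intro x y hxy
      change IsAdj _ (X2rho K e' (Φ (X2val K e x)) :
        Module.End K (LinearMap.range (Algebra.lmul K T e'))) (X2rho K e' (Φ (X2val K e y)))
      rw [X2_adj hf had he' hs', h.abs]
      rw [← X2_rho_val he x, ← X2_rho_val he y, X2_adj hf had he hs, X2_val_e he] at hxy
      rw [← hxy, h.arg, h.st]
      exact X2_se hs' (h.abs _)

end X2bridge

section X2comp

variable {K : Type} [Field K] {ι κ : Type} {ζ : Type} {P : ι → Type} {L : κ → Type}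
  [∀ i, Field (P i)] [∀ i, Algebra K (P i)] [∀ j, Field (L j)] [∀ j, Algebra K (L j)]

/-- the component at `i` -/
def X2prP (K : Type) [Field K] {ι κ : Type} (ζ : Type) (P : ι → Type) (L : κ → Type)
    [∀ i, Field (P i)] [∀ i, Algebra K (P i)] [∀ j, Field (L j)] [∀ j, Algebra K (L j)] (i : ι) :
    TorAlg K ζ P L →ₗ[K] P i × P i where
  toFun a := a.1.1 i
  map_add' _ _ := rfl
  map_smul' _ _ := rfl

/-- the component at `j` -/
def X2prL (K : Type) [Field K] {ι κ : Type} (ζ : Type) (P : ι → Type) (L : κ → Type)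
    [∀ i, Field (P i)] [∀ i, Algebra K (P i)] [∀ j, Field (L j)] [∀ j, Algebra K (L j)] (j : κ) :
    TorAlg K ζ P L →ₗ[K] L j where
  toFun a := a.1.2 j
  map_add' _ _ := rfl
  map_smul' _ _ := rfl

/-- the component at `z` -/
def X2prZ (K : Type) [Field K] {ι κ : Type} (ζ : Type) (P : ι → Type) (L : κ → Type)
    [∀ i, Field (P i)] [∀ i, Algebra K (P i)] [∀ j, Field (L j)] [∀ j, Algebra K (L j)] (z : ζ) :
    TorAlg K ζ P L →ₗ[K] K where
  toFun a := a.2 z
  map_add' _ _ := rfl
  map_smul' _ _ := rfl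

open Classical in
/-- the inclusion of the component at `i` -/
noncomputable def X2inP (K : Type) [Field K] {ι κ : Type} (ζ : Type) (P : ι → Type) (L : κ → Type)
    [∀ i, Field (P i)] [∀ i, Algebra K (P i)] [∀ j, Field (L j)] [∀ j, Algebra K (L j)] (i : ι) :
    P i × P i →ₗ[K] TorAlg K ζ P L where
  toFun x := ((Pi.single (M := fun i => P i × P i) i x, 0), 0)
  map_add' x y := by
    refine Prod.ext (Prod.ext ?_ ?_) ?_
    · exact Pi.single_add (f := fun i => P i × P i) i x y
    · exact (add_zero _).symm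
    · exact (add_zero _).symm
  map_smul' c x := by
    refine Prod.ext (Prod.ext ?_ ?_) ?_
    · exact Pi.single_smul (f := fun i => P i × P i) i c x
    · exact (smul_zero _).symm
    · exact (smul_zero _).symm

open Classical in
/-- the inclusion of the component at `j` -/
noncomputable def X2inL (K : Type) [Field K] {ι κ : Type} (ζ : Type) (P : ι → Type) (L : κ → Type)
    [∀ i, Field (P i)] [∀ i, Algebra K (P i)] [∀ j, Field (L j)] [∀ j, Algebra K (L j)] (j : κ) :
    L j →ₗ[K] TorAlg K ζ P L where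
  toFun x := ((0, Pi.single (M := L) j x), 0)
  map_add' x y := by
    refine Prod.ext (Prod.ext ?_ ?_) ?_
    · exact (add_zero _).symm
    · exact Pi.single_add (f := L) j x y
    · exact (add_zero _).symm
  map_smul' c x := by
    refine Prod.ext (Prod.ext ?_ ?_) ?_
    · exact (smul_zero _).symm
    · exact Pi.single_smul (f := L) j c x
    · exact (smul_zero _).symm

open Classical in
/-- the inclusion of the component at `z` -/
noncomputable def X2inZ (K : Type) [Field K] {ι κ : Type} (ζ : Type) (P : ι → Type) (L : κ → Type)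
    [∀ i, Field (P i)] [∀ i, Algebra K (P i)] [∀ j, Field (L j)] [∀ j, Algebra K (L j)] (z : ζ) :
    K →ₗ[K] TorAlg K ζ P L where
  toFun x := (0, Pi.single (M := fun _ => K) z x)
  map_add' x y := by
    refine Prod.ext ?_ ?_
    · exact (add_zero _).symm
    · exact Pi.single_add (f := fun _ => K) z x y
  map_smul' c x := by
    refine Prod.ext ?_ ?_
    · exact (smul_zero _).symm
    · exact Pi.single_smul (f := fun _ => K) z c x

theorem X2_compP (τ : ∀ j, L j ≃ₐ[K] L j) (i : ι) :
    X2Comp (X2s τ) (X2E {Sum.inl (Sum.inl i)} : TorAlg K ζ P L)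
      (Prod.swap : P i × P i → P i × P i) (X2prP K ζ P L i) (X2inP K ζ P L i) := by
  classical
  refine ⟨fun _ _ => rfl, ?_, rfl, ?_, ?_, ?_, fun _ => rfl, ?_⟩
  · intro x y
    refine Prod.ext (Prod.ext ?_ ?_) ?_
    · exact Pi.single_mul (α := fun i => P i × P i) i x y
    · exact (mul_zero _).symm
    · exact (mul_zero _).symm
  · refine Prod.ext (Prod.ext ?_ ?_) ?_
    · funext k
      change Pi.single (M := fun i => P i × P i) i 1 k = if _ then _ else _
      rcases eq_or_ne k i with rfl | h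
      · simp
      · simp [h]
    · funext k
      simp [X2inP, X2E]
    · funext k
      simp [X2inP, X2E]
  · intro x
    exact Pi.single_eq_same (M := fun i => P i × P i) i x
  · intro a
    refine Prod.ext (Prod.ext ?_ ?_) ?_
    · funext k
      change Pi.single (M := fun i => P i × P i) i (a.1.1 i) k = a.1.1 k * (if _ then _ else _)
      rcases eq_or_ne k i with rfl | h
      · simp
      · simp [h]
    · funext k
      simp [X2inP, X2E]
    · funext k
      simp [X2inP, X2E]
  · intro x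
    refine Prod.ext (Prod.ext ?_ ?_) ?_
    · funext k
      change Pi.single (M := fun i => P i × P i) i x.swap k =
        (Pi.single (M := fun i => P i × P i) i x k).swap
      rcases eq_or_ne k i with rfl | h
      · simp
      · rw [Pi.single_eq_of_ne h, Pi.single_eq_of_ne h]
        rfl
    · funext k
      exact (map_zero (τ k)).symm
    · rfl

theorem X2_compL (τ : ∀ j, L j ≃ₐ[K] L j) (j : κ) :
    X2Comp (X2s τ) (X2E {Sum.inl (Sum.inr j)} : TorAlg K ζ P L)
      (τ j) (X2prL K ζ P L j) (X2inL K ζ P L j) := by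
  classical
  refine ⟨fun _ _ => rfl, ?_, rfl, ?_, ?_, ?_, fun _ => rfl, ?_⟩
  · intro x y
    refine Prod.ext (Prod.ext ?_ ?_) ?_
    · exact (mul_zero _).symm
    · exact Pi.single_mul (α := L) j x y
    · exact (mul_zero _).symm
  · refine Prod.ext (Prod.ext ?_ ?_) ?_
    · funext k
      simp [X2inL, X2E]
    · funext k
      change Pi.single (M := L) j 1 k = if _ then _ else _
      rcases eq_or_ne k j with rfl | h
      · simp
      · simp [h]
    · funext k
      simp [X2inL, X2E]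
  · intro x
    exact Pi.single_eq_same (M := L) j x
  · intro a
    refine Prod.ext (Prod.ext ?_ ?_) ?_
    · funext k
      simp [X2inL, X2E]
    · funext k
      change Pi.single (M := L) j (a.1.2 j) k = a.1.2 k * (if _ then _ else _)
      rcases eq_or_ne k j with rfl | h
      · simp
      · simp [h]
    · funext k
      simp [X2inL, X2E]
  · intro x
    refine Prod.ext (Prod.ext ?_ ?_) ?_
    · rfl
    · funext k
      change Pi.single (M := L) j (τ j x) k = τ k (Pi.single (M := L) j x k)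
      rcases eq_or_ne k j with rfl | h
      · simp
      · rw [Pi.single_eq_of_ne h, Pi.single_eq_of_ne h, map_zero]
    · rfl

theorem X2_compZ (τ : ∀ j, L j ≃ₐ[K] L j) (z : ζ) :
    X2Comp (X2s τ) (X2E {Sum.inr z} : TorAlg K ζ P L)
      (fun x : K => x) (X2prZ K ζ P L z) (X2inZ K ζ P L z) := by
  classical
  refine ⟨fun _ _ => rfl, ?_, rfl, ?_, ?_, ?_, fun _ => rfl, ?_⟩
  · intro x y
    refine Prod.ext ?_ ?_
    · exact (mul_zero _).symm
    · exact Pi.single_mul (α := fun _ => K) z x y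
  · refine Prod.ext (Prod.ext ?_ ?_) ?_
    · funext k
      simp [X2inZ, X2E]
    · funext k
      simp [X2inZ, X2E]
    · funext k
      change Pi.single (M := fun _ => K) z 1 k = if _ then _ else _
      rcases eq_or_ne k z with rfl | h
      · simp
      · simp [h]
  · intro x
    exact Pi.single_eq_same (M := fun _ => K) z x
  · intro a
    refine Prod.ext (Prod.ext ?_ ?_) ?_
    · funext k
      simp [X2inZ, X2E]
    · funext k
      simp [X2inZ, X2E]
    · funext k
      change Pi.single (M := fun _ => K) z (a.2 z) k = a.2 k * (if _ then _ else _)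
      rcases eq_or_ne k z with rfl | h
      · simp
      · simp [h]
  · intro x
    refine Prod.ext (Prod.ext ?_ ?_) ?_
    · rfl
    · funext k
      exact (map_zero (τ k)).symm
    · rfl

theorem X2R_equiv {T R R' : Type} [CommRing T] [Algebra K T] [CommRing R] [Algebra K R]
    [CommRing R'] [Algebra K R'] {s : T →ₐ[K] T}
    {u u' : T} {st : R → R} {st' : R' → R'} {pr : T →ₗ[K] R} {inc : R →ₗ[K] T}
    {pr' : T →ₗ[K] R'} {inc' : R' →ₗ[K] T} (h : X2Comp s u st pr inc)
    (h' : X2Comp s u' st' pr' inc') (hr : X2R s u u') :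
    ∃ θ : R ≃ₐ[K] R', ∀ x, θ (st x) = st' (θ x) := by
  obtain ⟨Φ, Ψ, hr⟩ := hr
  have pu : ∀ a, pr (a * u) = pr a := fun a => by
    rw [h.pr_mul, ← h.inc_one, h.pr_inc, mul_one]
  have pu' : ∀ a, pr' (a * u') = pr' a := fun a => by
    rw [h'.pr_mul, ← h'.inc_one, h'.pr_inc, mul_one]
  have c1 : ∀ x, pr (Ψ (inc' (pr' (Φ (inc x))))) = x := by
    intro x
    rw [h'.inc_pr, hr.abs, hr.inv, pu, h.pr_inc]
  have c2 : ∀ x, pr' (Φ (inc (pr (Ψ (inc' x))))) = x := by
    intro x
    rw [h.inc_pr, hr.symm.abs, hr.inv', pu', h'.pr_inc]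
  refine ⟨AlgEquiv.ofLinearEquiv
    { toFun := fun x => pr' (Φ (inc x))
      invFun := fun x => pr (Ψ (inc' x))
      map_add' := fun x y => by rw [map_add, map_add, map_add]
      map_smul' := fun c x => by rw [map_smul, map_smul, map_smul, RingHom.id_apply]
      left_inv := c1
      right_inv := c2 } ?_ ?_, ?_⟩
  · change pr' (Φ (inc 1)) = 1
    rw [h.inc_one, hr.ee, ← h'.inc_one, h'.pr_inc]
  · intro x y
    change pr' (Φ (inc (x * y))) = pr' (Φ (inc x)) * pr' (Φ (inc y))
    rw [h.inc_mul, hr.mul, h'.pr_mul]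
  · intro x
    change pr' (Φ (inc (st x))) = st' (pr' (Φ (inc x)))
    rw [h.inc_st, hr.st, h'.pr_st]

theorem X2_unique2 {G : Type} [Group G] [Finite G] [IsCyclic G] {x y : G} (hx : orderOf x = 2)
    (hy : orderOf y = 2) : x = y := by
  classical
  haveI := Fintype.ofFinite G
  have h := IsCyclic.card_orderOf_eq_totient (α := G) (d := 2) (by
    rw [← hx]
    exact orderOf_dvd_card)
  rw [Nat.totient_two, Finset.card_eq_one] at h
  obtain ⟨z, hz⟩ := h
  have h1 : x ∈ ({z} : Finset G) := by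
    rw [← hz]
    simp [hx]
  have h2 : y ∈ ({z} : Finset G) := by
    rw [← hz]
    simp [hy]
  rw [Finset.mem_singleton.1 h1, Finset.mem_singleton.1 h2]

theorem X2_equiv_fin {F F' : Type} [Finite K] [Field F] [Algebra K F] [Field F'] [Algebra K F']
    [FiniteDimensional K F] [FiniteDimensional K F'] (h : finrank K F = finrank K F') :
    Nonempty (F ≃ₐ[K] F') := by
  haveI : Finite F' := Module.finite_of_finite K
  obtain ⟨φ⟩ := FiniteField.nonempty_algHom_of_finrank_dvd (F := K) (K := F) (L := F')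
    (by rw [h])
  have h1 : Function.Injective φ := φ.toRingHom.injective
  have h2 : Function.Surjective φ :=
    (LinearMap.injective_iff_surjective_of_finrank_eq_finrank (f := φ.toLinearMap) h).1 h1
  exact ⟨AlgEquiv.ofBijective φ ⟨h1, h2⟩⟩

theorem X2_order {F : Type} [Field F] [Algebra K F] (τ : F ≃ₐ[K] F) (h : ∀ x, τ (τ x) = x)
    (h' : ∃ x, τ x ≠ x) : orderOf τ = 2 := by
  haveI : Fact (Nat.Prime 2) := ⟨Nat.prime_two⟩
  apply orderOf_eq_prime
  · rw [pow_two]
    ext x
    exact h x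
  · rintro rfl
    obtain ⟨x, hx⟩ := h'
    exact hx rfl

theorem X2_even {F : Type} [Finite K] [Field F] [Algebra K F] [FiniteDimensional K F]
    (τ : F ≃ₐ[K] F) (h : ∀ x, τ (τ x) = x) (h' : ∃ x, τ x ≠ x) : 2 ∣ finrank K F := by
  haveI : Finite F := Module.finite_of_finite K
  rw [← IsGalois.card_aut_eq_finrank K F, ← X2_order τ h h']
  exact orderOf_dvd_natCard τ

theorem X2_tau {F F' : Type} [Finite K] [Field F] [Algebra K F] [Field F'] [Algebra K F']
    [FiniteDimensional K F] [FiniteDimensional K F'] (τ : F ≃ₐ[K] F) (τ' : F' ≃ₐ[K] F')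
    (h : ∀ x, τ (τ x) = x) (h' : ∃ x, τ x ≠ x) (g : ∀ x, τ' (τ' x) = x) (g' : ∃ x, τ' x ≠ x)
    (θ : F ≃ₐ[K] F') (x : F) : θ (τ x) = τ' (θ x) := by
  haveI : Finite F' := Module.finite_of_finite K
  have h1 : orderOf ((θ.symm.trans τ).trans θ) = 2 := by
    apply X2_order
    · intro x
      simp [h]
    · obtain ⟨y, hy⟩ := h'
      refine ⟨θ y, ?_⟩
      simpa using hy
  have h2 : (θ.symm.trans τ).trans θ = τ' := X2_unique2 h1 (X2_order τ' g g')
  rw [← h2]
  simp

theorem X2_atomR [Finite K] [∀ i, FiniteDimensional K (P i)] [∀ j, FiniteDimensional K (L j)]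
    (τ : ∀ j, L j ≃ₐ[K] L j) (hτ : ∀ j x, τ j (τ j x) = x)
    (hτ' : ∀ j, ∃ x, τ j x ≠ x) (k k' : ι ⊕ κ) (h : typA K P L k' = typA K P L k) :
    X2R (X2s τ) (X2E {Sum.inl k} : TorAlg K ζ P L) (X2E {Sum.inl k'}) := by
  rcases k with i | j <;> rcases k' with i' | j'
  · have h1 : finrank K (P i) = finrank K (P i') := (congrArg Prod.fst h).symm
    obtain ⟨θ⟩ := X2_equiv_fin h1
    exact X2R_comp (X2_compP τ i) (X2_compP τ i') (AlgEquiv.prodCongr θ θ) fun x => rfl
  · exact absurd (congrArg Prod.snd h) (by simp [typA])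
  · exact absurd (congrArg Prod.snd h) (by simp [typA])
  · have h1 : finrank K (L j') / 2 = finrank K (L j) / 2 := congrArg Prod.fst h
    obtain ⟨a, ha⟩ := X2_even (τ j) (hτ j) (hτ' j)
    obtain ⟨b, hb⟩ := X2_even (τ j') (hτ j') (hτ' j')
    obtain ⟨θ⟩ := X2_equiv_fin (K := K) (F := L j) (F' := L j') (by omega)
    exact X2R_comp (X2_compL τ j) (X2_compL τ j') θ
      (X2_tau (τ j) (τ j') (hτ j) (hτ' j) (hτ j') (hτ' j') θ)

theorem X2_atomZ (τ : ∀ j, L j ≃ₐ[K] L j) (z z' : ζ) :
    X2R (X2s τ) (X2E {Sum.inr z} : TorAlg K ζ P L) (X2E {Sum.inr z'}) :=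
  X2R_comp (X2_compZ τ z) (X2_compZ τ z') AlgEquiv.refl fun x => rfl

theorem X2_glue (τ : ∀ j, L j ≃ₐ[K] L j) {X X' : Finset ((ι ⊕ κ) ⊕ ζ)}
    (π : (ι ⊕ κ) ⊕ ζ → (ι ⊕ κ) ⊕ ζ) (hπ : Set.BijOn π X X')
    (h : ∀ t ∈ X, X2R (X2s τ) (X2E {t} : TorAlg K ζ P L) (X2E {π t})) :
    X2R (X2s τ) (X2E X : TorAlg K ζ P L) (X2E X') := by
  classical
  have h1 : (X2E X' : TorAlg K ζ P L) = ∑ t ∈ X, X2E {π t} := by
    rw [X2E_sum X']
    exact (Finset.sum_nbij π (fun a ha => hπ.mapsTo ha) hπ.injOn hπ.surjOn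
      (fun a _ => rfl)).symm
  have ho : ∀ t r : (ι ⊕ κ) ⊕ ζ, t ≠ r → (X2E {t} * X2E {r} : TorAlg K ζ P L) = 0 := by
    intro t r hne
    rw [X2E_mul, Finset.singleton_inter_of_notMem (by simpa using hne), X2E_empty]
  rw [h1, X2E_sum X]
  exact X2R_sum X _ _ h (fun t _ r _ hne => ho t r hne)
    (fun t ht r hr hne => ho _ _ fun h0 => hne (hπ.injOn ht hr h0))

/-- the type of a place -/
noncomputable def X2tt (K : Type) [Field K] {ι κ : Type} (ζ : Type) (P : ι → Type) (L : κ → Type)
    [∀ i, Field (P i)] [∀ i, Algebra K (P i)] [∀ j, Field (L j)] [∀ j, Algebra K (L j)] :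
    (ι ⊕ κ) ⊕ ζ → Option (ℕ × Bool) :=
  Sum.elim (fun k => some (typA K P L k)) (fun _ => none)

theorem X2_tt [∀ i, FiniteDimensional K (P i)] [∀ j, FiniteDimensional K (L j)]
    (τ : ∀ j, L j ≃ₐ[K] L j)
    (hτ' : ∀ j, ∃ x, τ j x ≠ x) (t r : (ι ⊕ κ) ⊕ ζ)
    (h : X2R (X2s τ) (X2E {t} : TorAlg K ζ P L) (X2E {r})) :
    X2tt K ζ P L t = X2tt K ζ P L r := by
  have noP : ∀ {F F' : Type} [Field F] [Algebra K F] [Field F'] [Algebra K F'],
      ∀ _ : (F × F) ≃ₐ[K] F', False := by
    intro F F' _ _ _ _ θ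
    have h1 : θ (1, 0) * θ (0, 1) = 0 := by
      rw [← map_mul]
      simp
    rcases mul_eq_zero.1 h1 with h2 | h2
    · have := θ.injective (h2.trans (map_zero θ).symm)
      exact one_ne_zero (congrArg Prod.fst this)
    · have := θ.injective (h2.trans (map_zero θ).symm)
      exact one_ne_zero (congrArg Prod.snd this)
  rcases t with (i | j) | z <;> rcases r with (i' | j') | z'
  · obtain ⟨θ, -⟩ := X2R_equiv (X2_compP τ i) (X2_compP τ i') h
    have h1 := θ.toLinearEquiv.finrank_eq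
    rw [Module.finrank_prod, Module.finrank_prod] at h1
    have h2 : finrank K (P i) = finrank K (P i') := by omega
    simp [X2tt, typA, h2]
  · obtain ⟨θ, -⟩ := X2R_equiv (X2_compP τ i) (X2_compL τ j') h
    exact (noP θ).elim
  · obtain ⟨θ, -⟩ := X2R_equiv (X2_compP τ i) (X2_compZ τ z') h
    exact (noP θ).elim
  · obtain ⟨θ, -⟩ := X2R_equiv (X2_compP τ i') (X2_compL τ j) h.symm
    exact (noP θ).elim
  · obtain ⟨θ, -⟩ := X2R_equiv (X2_compL τ j) (X2_compL τ j') h
    have h1 := θ.toLinearEquiv.finrank_eq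
    simp [X2tt, typA, h1]
  · obtain ⟨θ, hθ⟩ := X2R_equiv (X2_compL τ j) (X2_compZ τ z') h
    obtain ⟨x, hx⟩ := hτ' j
    exact (hx (θ.injective (hθ x))).elim
  · obtain ⟨θ, -⟩ := X2R_equiv (X2_compP τ i') (X2_compZ τ z) h.symm
    exact (noP θ).elim
  · obtain ⟨θ, hθ⟩ := X2R_equiv (X2_compL τ j') (X2_compZ τ z) h.symm
    obtain ⟨x, hx⟩ := hτ' j'
    exact (hx (θ.injective (hθ x))).elim
  · rfl

theorem X2_map_tt (S : Finset (ι ⊕ κ)) (Z : Finset ζ) :
    (S.disjSum Z).val.map (X2tt K ζ P L) =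
      (S.val.map (typA K P L)).map some + Multiset.replicate Z.card none := by
  rw [Finset.val_disjSum, Multiset.disjSum, Multiset.map_add, Multiset.map_map, Multiset.map_map,
    Multiset.map_map]
  congr 1
  rw [← Finset.card_val, ← Multiset.map_const']
  rfl

theorem X2_main [Finite K] [Fintype ι] [Fintype κ] [Fintype ζ] [∀ i, FiniteDimensional K (P i)]
    [∀ j, FiniteDimensional K (L j)]
    (τ : ∀ j, L j ≃ₐ[K] L j) (hτ : ∀ j x, τ j (τ j x) = x)
    (hτ' : ∀ j, ∃ x, τ j x ≠ x) (S S' : Finset (ι ⊕ κ)) (Z Z' : Finset ζ) :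
    X2R (X2s τ) (X2E (S.disjSum Z) : TorAlg K ζ P L) (X2E (S'.disjSum Z')) ↔
    (Z.card = Z'.card ∧ S.val.map (typA K P L) = S'.val.map (typA K P L)) := by
  classical
  constructor
  · rintro ⟨Φ, Ψ, h⟩
    have te : ∀ t ∈ S.disjSum Z, (X2E {t} * X2E (S.disjSum Z) : TorAlg K ζ P L) = X2E {t} := by
      intro t ht
      rw [X2E_mul, Finset.inter_eq_left.2 (Finset.singleton_subset_iff.2 ht)]
    have te' : ∀ t ∈ S'.disjSum Z', (X2E {t} * X2E (S'.disjSum Z') : TorAlg K ζ P L) = X2E {t} := by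
      intro t ht
      rw [X2E_mul, Finset.inter_eq_left.2 (Finset.singleton_subset_iff.2 ht)]
    have h1 : ∀ t ∈ S.disjSum Z, ∃ y, y ∈ S'.disjSum Z' ∧ Φ (X2E {t}) = X2E {y} := by
      intro t ht
      obtain ⟨y, hy, hy'⟩ := X2_atom h ht
      exact ⟨y, hy, hy'⟩
    choose! π hπ1 hπ2 using h1
    have hinj : Set.InjOn π (S.disjSum Z : Finset ((ι ⊕ κ) ⊕ ζ)) := by
      intro t ht r hr htr
      have h2 : Φ (X2E {t}) = Φ (X2E {r}) := by rw [hπ2 t ht, hπ2 r hr, htr]
      have h3 := congrArg Ψ h2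
      rw [h.inv, h.inv, te t ht, te r hr] at h3
      exact Finset.singleton_injective (X2E_inj h3)
    have hsurj : Set.SurjOn π (S.disjSum Z : Finset ((ι ⊕ κ) ⊕ ζ))
        (S'.disjSum Z' : Finset ((ι ⊕ κ) ⊕ ζ)) := by
      intro y hy
      obtain ⟨t, ht, ht'⟩ := X2_atom h.symm hy
      refine ⟨t, ht, ?_⟩
      have h3 := congrArg Φ ht'
      rw [h.inv', te' y hy, hπ2 t ht] at h3
      exact (Finset.singleton_injective (X2E_inj h3)).symm
    have htt : ∀ t ∈ S.disjSum Z, X2tt K ζ P L (π t) = X2tt K ζ P L t := by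
      intro t ht
      symm
      apply X2_tt τ hτ'
      have h3 := h.restrict (u := X2E {t}) (by rw [X2E_mul, Finset.inter_self]) (te t ht)
        (X2E_st τ _)
      rwa [hπ2 t ht] at h3
    have himg : S'.disjSum Z' = (S.disjSum Z).image π := by
      ext y
      rw [Finset.mem_image]
      constructor
      · intro hy
        exact hsurj hy
      · rintro ⟨t, ht, rfl⟩
        exact hπ1 t ht
    have hm : (S.disjSum Z).val.map (X2tt K ζ P L) = (S'.disjSum Z').val.map (X2tt K ζ P L) := by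
      rw [himg, Finset.image_val_of_injOn hinj, Multiset.map_map]
      exact Multiset.map_congr rfl fun t ht => (htt t ht).symm
    rw [X2_map_tt, X2_map_tt] at hm
    have h5 : Z.card = Z'.card := by
      have h6 := congrArg (Multiset.count none) hm
      rw [Multiset.count_add, Multiset.count_add, Multiset.count_replicate_self,
        Multiset.count_replicate_self, Multiset.count_eq_zero_of_notMem,
        Multiset.count_eq_zero_of_notMem] at h6
      · simpa using h6
      · simp
      · simp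
    refine ⟨h5, ?_⟩
    rw [h5] at hm
    exact Multiset.map_injective (Option.some_injective _) (add_right_cancel hm)
  · rintro ⟨h1, h2⟩
    obtain ⟨π1, hπ1, hπ1'⟩ := X2_bij (typA K P L) S S' h2
    obtain ⟨π2, hπ2, -⟩ := X2_bij (fun _ : ζ => (0 : ℕ)) Z Z' (by
      rw [Multiset.map_const', Multiset.map_const', Finset.card_val, Finset.card_val, h1])
    refine X2_glue τ (Sum.map π1 π2) ⟨?_, ?_, ?_⟩ ?_
    · intro t ht
      rcases t with t | t
      · have ht' : t ∈ S := by simpa using ht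
        have := hπ1.mapsTo ht'
        simpa using this
      · have ht' : t ∈ Z := by simpa using ht
        have := hπ2.mapsTo ht'
        simpa using this
    · intro t ht r hr htr
      rcases t with t | t <;> rcases r with r | r
      · have ht' : t ∈ S := by simpa using ht
        have hr' : r ∈ S := by simpa using hr
        rw [hπ1.injOn ht' hr' (Sum.inl_injective htr)]
      · exact absurd htr (by simp)
      · exact absurd htr (by simp)
      · have ht' : t ∈ Z := by simpa using ht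
        have hr' : r ∈ Z := by simpa using hr
        rw [hπ2.injOn ht' hr' (Sum.inr_injective htr)]
    · intro y hy
      rcases y with y | y
      · have hy' : y ∈ S' := by simpa using hy
        obtain ⟨t, ht, rfl⟩ := hπ1.surjOn hy'
        exact ⟨Sum.inl t, by simpa using ht, rfl⟩
      · have hy' : y ∈ Z' := by simpa using hy
        obtain ⟨t, ht, rfl⟩ := hπ2.surjOn hy'
        exact ⟨Sum.inr t, by simpa using ht, rfl⟩
    · intro t ht
      rcases t with t | t
      · have ht' : t ∈ S := by simpa using ht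
        exact X2_atomR τ hτ hτ' t (π1 t) (hπ1' t ht')
      · exact X2_atomZ τ t (π2 t)

end X2comp

section

variable {K : Type} [Field K] [Finite K] {ι κ : Type} {ζ : Type} [Fintype ι] [Fintype κ]
  [Fintype ζ] {P : ι → Type} {L : κ → Type} [∀ i, Field (P i)] [∀ i, Algebra K (P i)]
  [∀ j, Field (L j)] [∀ j, Algebra K (L j)] [∀ i, FiniteDimensional K (P i)]
  [∀ j, FiniteDimensional K (L j)]

theorem siso_iff (ε : K) (f : TorAlg K ζ P L → TorAlg K ζ P L → K)
    (hf : IsHF (RingHom.id K) ε f) (τ : ∀ j, L j ≃ₐ[K] L j) (hτ : ∀ j x, τ j (τ j x) = x)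
    (hτ' : ∀ j, ∃ x, τ j x ≠ x) (had : Adapted τ f) (S S' : Finset (ι ⊕ κ)) (Z Z' : Finset ζ) :
    SIso (resF f (LinearMap.range (mSZ K P L S Z)))
      (restr (algA K ζ P L) (LinearMap.range (mSZ K P L S Z)))
      (resF f (LinearMap.range (mSZ K P L S' Z')))
      (restr (algA K ζ P L) (LinearMap.range (mSZ K P L S' Z'))) ↔
    (Z.card = Z'.card ∧ S.val.map (typA K P L) = S'.val.map (typA K P L)) := by
  classical
  rw [← X2_main τ hτ hτ']
  have hb := X2_bridge (s := X2s τ) hf (fun a v w => had a v w) (e := X2E (S.disjSum Z)) (e' := X2E (S'.disjSum Z'))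
    (by rw [X2E_mul, Finset.inter_self]) (X2E_st τ _) (by rw [X2E_mul, Finset.inter_self])
    (X2E_st τ _)
  rw [← hb, ← X2E_eSZ, ← X2E_eSZ]
  rfl

end

end Pool.Agent.CTO
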